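import Pool.Agent.H32.AkDefs

/-! If Alice wins the `k`-game on `n ≤ k + 1` states, there is a reset word of length `< n`. -/

namespace Pool.Agent.H32.Ak

variable {Q A : Type} {δ : Q → A → Q} {k : ℕ}

theorem AK.no_trap (h : AK δ k) (Z : Q → Q → Prop) (h1 : ∀ p q, Z p q → p ≠ q)
    (h2 : ∀ p q, Z p q → ∀ a, ∃ u : List A, u.length ≤ k ∧ Z (u.foldl δ (δ p a)) (u.foldl δ (δ q a)))
    (p q : Q) : ¬ Z p q := by
  intro hz
  obtain ⟨σ, hσ⟩ := h
  choose! f f1 f2 using h2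
  let s : ℕ → List (List A) × List A := fun t => (fun x : List (List A) × List A =>
    (x.1 ++ [f (x.2.foldl δ p) (x.2.foldl δ q) (σ x.1)],
      x.2 ++ σ x.1 :: f (x.2.foldl δ p) (x.2.foldl δ q) (σ x.1)))^[t] ([], [])
  let β : ℕ → List A := fun t => f ((s t).2.foldl δ p) ((s t).2.foldl δ q) (σ (s t).1)
  have e : ∀ t, s (t + 1) = ((s t).1 ++ [β t], (s t).2 ++ σ (s t).1 :: β t) := fun t =>
    Function.iterate_succ_apply' _ _ _
  have i : ∀ t, (s t).1 = (List.range t).map β ∧ (s t).2 = play σ β t ∧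
      Z ((s t).2.foldl δ p) ((s t).2.foldl δ q) := by
    intro t
    induction t with
    | zero => exact ⟨rfl, rfl, hz⟩
    | succ t ih =>
      rw [e]
      refine ⟨by simp [List.range_succ, ih.1], by rw [play, ← ih.1, ← ih.2.1], ?_⟩
      simpa using f2 _ _ ih.2.2 (σ (s t).1)
  obtain ⟨t, ht⟩ := hσ β fun t => f1 _ _ (i t).2.2 _
  obtain ⟨x, hx⟩ := Set.ncard_eq_one.1 ht
  refine h1 _ _ (i t).2.2 ?_
  rw [(i t).2.1]
  exact (hx.le ⟨p, rfl⟩).trans (hx.le ⟨q, rfl⟩).symm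

noncomputable def nc (E : Setoid Q) : ℕ := Nat.card (Quotient E)

theorem nc_lt [Finite Q] {E F : Setoid Q} (h : E ≤ F) {p q : Q} (a : F p q) (b : ¬ E p q) :
    nc F < nc E := by
  have s : Function.Surjective (Setoid.map_of_le h) := by
    rintro ⟨x⟩
    exact ⟨⟦x⟧, rfl⟩
  refine lt_of_le_of_ne (Nat.card_le_card_of_surjective _ s) fun e => b ?_
  have := (s.bijective_of_nat_card_le e.ge).1
  exact Quotient.exact (this (a₁ := ⟦p⟧) (a₂ := ⟦q⟧) (Quotient.sound a))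

theorem nc_le [Finite Q] {E F : Setoid Q} (h : E ≤ F) : nc F ≤ nc E :=
  Nat.card_le_card_of_surjective (Setoid.map_of_le h) (by rintro ⟨x⟩; exact ⟨⟦x⟧, rfl⟩)

theorem nc_pos [Finite Q] [Nonempty Q] (F : Setoid Q) : 0 < nc F := by
  have : Nonempty (Quotient F) := ⟨⟦Classical.arbitrary Q⟧⟩
  exact Nat.card_pos

def Cg (δ : Q → A → Q) (E : Setoid Q) : Prop := ∀ p q a, E p q → E (δ p a) (δ q a)

theorem Cg.w {E : Setoid Q} (h : Cg δ E) (w : List A) : ∀ p q, E p q →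
    E (w.foldl δ p) (w.foldl δ q) := by
  induction w with
  | nil => exact fun _ _ h => h
  | cons a w ih => exact fun p q e => ih _ _ (h p q a e)

theorem coarser [Finite Q] [Nonempty A] (h : AK δ k) (ρ : Setoid Q) (hρ : Cg δ ρ)
    (hk : nc ρ ≤ k + 1) {p0 q0 : Q} (h0 : ¬ ρ p0 q0) : ∃ E : Setoid Q, Cg δ E ∧ nc E < nc ρ ∧
      ∃ w : List A, w.length + nc E ≤ nc ρ ∧ ∀ p q, E p q → ρ (w.foldl δ p) (w.foldl δ q) := by
  classical
  let M : ℕ → Q → Q → Prop := fun j p q => ∀ u : List A, u.length ≤ j →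
    ∃ a, ρ (δ (u.foldl δ p) a) (δ (u.foldl δ q) a)
  let E : ℕ → Setoid Q := fun j => Relation.EqvGen.setoid (M j)
  have m1 : ∀ i j, i ≤ j → ∀ p q, M j p q → M i p q := fun i j l p q m u hu => m u (by omega)
  have le : ∀ j (F : Setoid Q), (∀ p q, M j p q → F p q) → E j ≤ F := fun j F h =>
    Setoid.eqvGen_le h
  have e1 : ∀ i j, i ≤ j → E j ≤ E i := fun i j l =>
    le _ _ fun p q m => .rel _ _ (m1 i j l p q m)
  have r1 : ∀ j, ρ ≤ E j := fun j p q r => .rel _ _ fun u _ =>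
    ⟨Classical.arbitrary A, hρ _ _ _ (hρ.w u _ _ r)⟩
  obtain ⟨p1, q1, a1, a2⟩ : ∃ p q, M k p q ∧ ¬ ρ p q := by
    by_contra hc
    push Not at hc
    have z : ∀ p q, ¬ ρ p q → ∃ u : List A, u.length ≤ k ∧
        ∀ a, ¬ ρ (δ (u.foldl δ p) a) (δ (u.foldl δ q) a) := fun p q r => by
      simpa [M] using mt (hc p q) r
    obtain ⟨u, -, hu⟩ := z p0 q0 h0
    exact h.no_trap (fun p q => ∀ a, ¬ ρ (δ p a) (δ q a))
      (fun p q h e => h (Classical.arbitrary A) (e ▸ ρ.refl _)) (fun p q h a => z _ _ (h a)) _ _ hu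
  have c1 := nc_lt (r1 k) (.rel _ _ a1) a2
  have : Nonempty Q := ⟨p0⟩
  have c0 : ∀ F : Setoid Q, 0 < nc F := nc_pos
  obtain ⟨s, s1, s2⟩ := (Finset.range (k + 1)).exists_min_image
    (fun j => toLex ((j : ℤ) - nc (E j), -(j : ℤ))) (by simp)
  simp only [Finset.mem_range, Prod.Lex.toLex_le_toLex] at s1 s2
  have s3 := s2 0 (by omega)
  have c2 := c0 (E 0)
  have s4 : s < k := by
    by_contra hs
    obtain rfl : s = k := by omega
    omega
  have s5 := s2 (s + 1) (by omega)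
  have c3 := nc_le (e1 s (s + 1) (by omega))
  have c4 := nc_le (e1 s k (by omega))
  have e2 : E s ≤ E (s + 1) := fun p q r => by
    by_contra hc
    have := nc_lt (e1 s (s + 1) (by omega)) r hc
    omega
  have key : ∀ i d, i + d + nc (E s) = nc ρ → ∃ F : Setoid Q, F ≤ E s ∧ nc F + i ≤ nc ρ ∧
      ∀ u : List A, u.length ≤ d → ∃ w : List A, w.length ≤ i ∧
        ∀ p q, F p q → ρ (w.foldl δ (u.foldl δ p)) (w.foldl δ (u.foldl δ q)) := by
    intro i
    induction i with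
    | zero => exact fun d _ => ⟨ρ, r1 s, le_rfl, fun u _ => ⟨[], le_rfl, hρ.w u⟩⟩
    | succ i ih =>
      intro d hd
      obtain ⟨F, f1, f2, f3⟩ := ih (d + 1) (by omega)
      by_cases hc : ∀ p q, M (max s d) p q → F p q
      · have := nc_le (le _ _ hc)
        have := s2 (max s d) (by have := c0 (E s); omega)
        refine ⟨F, f1, by omega, fun u hu => ?_⟩
        obtain ⟨w, a, b⟩ := f3 u (by omega)
        exact ⟨w, by omega, b⟩
      push Not at hc
      obtain ⟨p, q, b1, b2⟩ := hc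
      let F' := Relation.EqvGen.setoid fun x y => F x y ∨ (x = p ∧ y = q)
      have := nc_lt (E := F) (F := F') (fun x y r => .rel _ _ (Or.inl r))
        (.rel _ _ (Or.inr ⟨rfl, rfl⟩)) b2
      refine ⟨F', Setoid.eqvGen_le ?_, by omega, fun u hu => ?_⟩
      · rintro x y (r | ⟨rfl, rfl⟩)
        exacts [f1 r, .rel _ _ (m1 _ _ (by omega) _ _ b1)]
      obtain ⟨a, ha⟩ := b1 u (by omega)
      obtain ⟨w, g1, g2⟩ := f3 (u ++ [a]) (by simp; omega)
      refine ⟨a :: w, by simpa using g1, fun x y r => (Setoid.eqvGen_le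
        (s := ρ.comap fun x => (a :: w).foldl δ (u.foldl δ x)) ?_ : F' ≤ _) r⟩
      rintro x y (r | ⟨rfl, rfl⟩)
      · simpa [Setoid.comap_rel] using g2 x y r
      · exact hρ.w w _ _ ha
  obtain ⟨F, f1, f2, f3⟩ := key (nc ρ - nc (E s)) 0 (by omega)
  obtain ⟨w, g1, g2⟩ := f3 [] le_rfl
  refine ⟨E s, fun p q a r => (le (s + 1) ((E s).comap fun x => δ x a)
    fun x y m => .rel _ _ fun u hu => m (a :: u) (by simpa using hu)) (e2 r), by omega,
    w, by omega, fun p q r => g2 p q ?_⟩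
  by_contra hc
  have := nc_lt f1 r hc
  omega

theorem main [Finite Q] [Nonempty Q] [Nonempty A] (h : AK δ k) (hk : Nat.card Q ≤ k + 1) :
    ∃ w, Reset δ w ∧ w.length < Nat.card Q := by
  have : ∀ n (ρ : Setoid Q), Cg δ ρ → nc ρ ≤ n → n ≤ k + 1 →
      ∃ w : List A, w.length < nc ρ ∧ ∀ p q, ρ (w.foldl δ p) (w.foldl δ q) := by
    intro n
    induction n with
    | zero => exact fun ρ _ h => absurd (nc_pos ρ) (by omega)
    | succ n ih =>
      intro ρ a b c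
      by_cases h0 : ∀ p q, ρ p q
      · exact ⟨[], nc_pos ρ, h0⟩
      push Not at h0
      obtain ⟨p, q, h0⟩ := h0
      obtain ⟨E, e1, e2, w, e3, e4⟩ := coarser h ρ a (by omega) h0
      obtain ⟨v, f1, f2⟩ := ih E e1 (by omega) (by omega)
      exact ⟨v ++ w, by simp; omega, fun p q => by simpa using e4 _ _ (f2 p q)⟩
  have c : nc (⊥ : Setoid Q) ≤ Nat.card Q :=
    Nat.card_le_card_of_surjective _ Quotient.mk_surjective
  obtain ⟨w, a, b⟩ := this _ ⊥ (fun p q a (e : p = q) => by rw [e]) c hk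
  obtain ⟨p⟩ := ‹Nonempty Q›
  exact ⟨w, Set.ncard_eq_one.2 ⟨_, Set.eq_singleton_iff_unique_mem.2
    ⟨⟨p, rfl⟩, by rintro _ ⟨q, rfl⟩; exact b q p⟩⟩, by omega⟩

end Pool.Agent.H32.Ak
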