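import Mathlib

/-! Automata on which Alice wins the synchronization game with bounded responses. -/

namespace Pool.Agent.H32.Ak

variable {Q A : Type}

def Reset (δ : Q → A → Q) (w : List A) : Prop := (Set.range fun q => w.foldl δ q).ncard = 1

/-- the word built after `t` rounds when Alice follows `σ` (a function of Bob's earlier answers)
and Bob answers `β 0, β 1, …` -/
def play (σ : List (List A) → A) (β : ℕ → List A) : ℕ → List A
  | 0 => []
  | t + 1 => play σ β t ++ σ ((List.range t).map β) :: β t

/-- Alice has a winning strategy in the `k`-game -/
def AK (δ : Q → A → Q) (k : ℕ) : Prop :=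
  ∃ σ : List (List A) → A, ∀ β : ℕ → List A, (∀ t, (β t).length ≤ k) → ∃ t, Reset δ (play σ β t)

end Pool.Agent.H32.Ak
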