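import Pool.Agent.H32.AmDefs

set_option autoImplicit false

namespace Pool.Agent.H32.Am

open Module Finset

variable {G : Type} [Group G] [Finite G]

theorem rep_ind (P : ∀ (V : Type) [AddCommGroup V] [Module ℂ V] [FiniteDimensional ℂ V],
      Representation ℂ G V → Prop)
    (h0 : ∀ (V : Type) [AddCommGroup V] [Module ℂ V] [FiniteDimensional ℂ V]
      (ρ : Representation ℂ G V), Subsingleton V → P V ρ)
    (h1 : ∀ (V : Type) [AddCommGroup V] [Module ℂ V] [FiniteDimensional ℂ V]
      (ρ : Representation ℂ G V), ρ.IsIrreducible → P V ρ)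
    (h2 : ∀ (V : Type) [AddCommGroup V] [Module ℂ V] [FiniteDimensional ℂ V]
      (ρ : Representation ℂ G V) (W W' : Subrepresentation ρ),
      IsCompl W.toSubmodule W'.toSubmodule → P _ W.toRepresentation → P _ W'.toRepresentation →
      P V ρ)
    (V : Type) [AddCommGroup V] [Module ℂ V] [FiniteDimensional ℂ V]
    (ρ : Representation ℂ G V) : P V ρ := by
  have : Fintype G := Fintype.ofFinite G
  induction hn : finrank ℂ V using Nat.strong_induction_on generalizing V with
  | _ n ih =>
    rcases subsingleton_or_nontrivial V with hs | hs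
    · exact h0 V ρ hs
    by_cases hirr : ρ.IsIrreducible
    · exact h1 V ρ hirr
    obtain ⟨v, hv0⟩ := exists_ne (0 : V)
    have hnt : Nontrivial (Subrepresentation ρ) := ⟨⊥, ⊤, fun h => hv0 (by
      have : v ∈ (⊤ : Subrepresentation ρ) := trivial
      rw [← h] at this
      exact this)⟩
    obtain ⟨W, hW⟩ : ∃ W : Subrepresentation ρ, ¬ (W = ⊥ ∨ W = ⊤) := by
      by_contra hc
      exact hirr ⟨fun W => by_contra fun h => hc ⟨W, h⟩⟩
    push Not at hW
    obtain ⟨W', hW'⟩ := exists_isCompl W
    have h3 : W' ≠ ⊤ := by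
      rintro rfl
      exact hW.1 (by simpa using hW'.disjoint)
    have hlt : ∀ U : Subrepresentation ρ, U ≠ ⊤ → finrank ℂ U.toSubmodule < n := fun U hU =>
      hn ▸ Submodule.finrank_lt (fun h => hU (Subrepresentation.toSubmodule_injective h))
    refine h2 V ρ W W' ⟨?_, ?_⟩ (ih _ (hlt W hW.2) _ _ rfl) (ih _ (hlt W' h3) _ _ rfl)
    · rw [disjoint_iff, ← Subrepresentation.toSubmodule_inf, hW'.inf_eq_bot]; rfl
    · rw [codisjoint_iff, ← Subrepresentation.toSubmodule_sup, hW'.sup_eq_top]; rfl

omit [Finite G] in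
theorem char_add {V : Type} [AddCommGroup V] [Module ℂ V] [FiniteDimensional ℂ V]
    (ρ : Representation ℂ G V) (W W' : Subrepresentation ρ)
    (h : IsCompl W.toSubmodule W'.toSubmodule) :
    ρ.character = W.toRepresentation.character + W'.toRepresentation.character := by
  funext g
  let e := Submodule.prodEquivOfIsCompl _ _ h
  have : ρ g = e.conj (LinearMap.prodMap (W.toRepresentation g) (W'.toRepresentation g)) := by
    ext v
    obtain ⟨⟨a, b⟩, rfl⟩ := e.surjective v
    rw [LinearEquiv.conj_apply_apply, e.symm_apply_apply]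
    simp only [e, Submodule.coe_prodEquivOfIsCompl', LinearMap.prodMap_apply, map_add]
    rfl
  simp only [Representation.character, Pi.add_apply]
  rw [this, LinearMap.trace_conj', LinearMap.trace_prodMap']

theorem coef_eq [Fintype G] (u χ : G → ℂ) :
    coef u χ = (Nat.card G : ℂ)⁻¹ * ∑ g, u g * χ g⁻¹ := by
  rw [coef, finsum_eq_sum_of_fintype]

open Classical in
theorem orth {χ ψ : G → ℂ} (h1 : χ ∈ Irr G) (h2 : ψ ∈ Irr G) :
    coef χ ψ = if χ = ψ then 1 else 0 := by
  have : Fintype G := Fintype.ofFinite G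
  obtain ⟨W, _, _, _, ρ, hρ, rfl⟩ := h1
  obtain ⟨U, _, _, _, σ, hσ, rfl⟩ := h2
  have hc : (Nat.card G : ℂ) ≠ 0 := by exact_mod_cast Nat.card_pos.ne'
  have : Invertible (Nat.card G : ℂ) := invertibleOfNonzero hc
  rw [coef_eq]
  split_ifs with e
  · rw [← e, Representation.char_orthonormal ρ ρ, if_pos ⟨Representation.Equiv.refl ρ⟩]
  · rw [Representation.char_orthonormal ρ σ,
      if_neg (fun ⟨φ⟩ => e (Representation.char_iso φ).symm)]

theorem coef_sum {ι : Type} (s : Finset ι) (c : ι → ℂ) (u : ι → G → ℂ) (χ : G → ℂ) :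
    coef (∑ i ∈ s, c i • u i) χ = ∑ i ∈ s, c i * coef (u i) χ := by
  have : Fintype G := Fintype.ofFinite G
  simp only [coef_eq, Finset.sum_apply, Pi.smul_apply, smul_eq_mul, Finset.sum_mul,
    Finset.mul_sum]
  rw [Finset.sum_comm]
  exact sum_congr rfl fun i _ => sum_congr rfl fun g _ => by ring

theorem irr_fin : (Irr G).Finite := by
  classical
  have hli : LinearIndependent ℂ (fun χ : Irr G => χ.1) := by
    rw [linearIndependent_iff']
    intro s c hc i hi
    have h2 := coef_sum s c (fun χ : Irr G => χ.1) i.1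
    rw [hc, Finset.sum_eq_single i] at h2
    · rw [orth i.2 i.2, if_pos rfl, mul_one] at h2
      rw [← h2, coef]
      simp
    · intro k _ hk
      rw [orth k.2 i.2, if_neg (fun e => hk (Subtype.ext e)), mul_zero]
    · intro h
      exact absurd hi h
  have hf : Finite (Irr G) := hli.finite_of_isNoetherian
  exact Set.toFinite _

theorem normA_eq (u : G → ℂ) :
    normA u = ∑ χ ∈ (irr_fin (G := G)).toFinset, ‖χ 1‖ * ‖coef u χ‖ := by
  rw [normA, finsum_mem_eq_finite_toFinset_sum _ irr_fin]

theorem normA_nonneg (u : G → ℂ) : 0 ≤ normA u := by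
  rw [normA_eq]; positivity

theorem normA_sum {ι : Type} (s : Finset ι) (c : ι → ℂ) (u : ι → G → ℂ) :
    normA (∑ i ∈ s, c i • u i) ≤ ∑ i ∈ s, ‖c i‖ * normA (u i) := by
  simp only [normA_eq, coef_sum, Finset.mul_sum]
  rw [Finset.sum_comm]
  refine sum_le_sum fun χ _ => ?_
  refine (mul_le_mul_of_nonneg_left (norm_sum_le _ _) (norm_nonneg _)).trans ?_
  rw [Finset.mul_sum]
  exact sum_le_sum fun i _ => le_of_eq (by rw [norm_mul]; ring)

theorem normA_char (V : Type) [AddCommGroup V] [Module ℂ V] [FiniteDimensional ℂ V]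
    (ρ : Representation ℂ G V) : normA ρ.character ≤ finrank ℂ V := by
  classical
  refine rep_ind (fun V _ _ _ ρ => normA ρ.character ≤ finrank ℂ V) ?_ ?_ ?_ V ρ
  · intro V _ _ _ ρ hs
    have : ρ.character = ∑ i ∈ (∅ : Finset Unit), (0 : ℂ) • (0 : G → ℂ) := by
      funext g
      simp [Representation.character, Subsingleton.elim (ρ g) 0]
    rw [this]
    exact (normA_sum _ _ _).trans (by simp)
  · intro V _ _ _ ρ hρ
    have hm : ρ.character ∈ Irr G := ⟨V, _, _, inferInstance, ρ, hρ, rfl⟩
    rw [normA_eq, Finset.sum_eq_single ρ.character]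
    · rw [orth hm hm, if_pos rfl]; simp
    · intro χ hχ hne
      rw [orth hm (by simpa using hχ), if_neg (Ne.symm hne)]; simp
    · intro h
      exact absurd (by simpa using hm) h
  · intro V _ _ _ ρ W W' h a b
    have e : ρ.character = ∑ i : Bool, (1 : ℂ) •
        (if i then W.toRepresentation.character else W'.toRepresentation.character) := by
      rw [char_add ρ W W' h]; simp
    rw [e, ← Submodule.finrank_add_eq_of_isCompl h]
    refine (normA_sum _ _ _).trans ?_
    simp only [Fintype.sum_bool, norm_one, one_mul, if_true, Bool.false_eq_true, if_false]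
    push_cast
    linarith

theorem op_zero [Fintype G] (w : G → ℂ) (hw : IsClassFun w) (h0 : ∀ χ ∈ Irr G, coef w χ = 0)
    (V : Type) [AddCommGroup V] [Module ℂ V] [FiniteDimensional ℂ V]
    (ρ : Representation ℂ G V) : ∀ v, ∑ g, w g • ρ g⁻¹ v = 0 := by
  refine rep_ind (fun V _ _ _ ρ => ∀ v, ∑ g, w g • ρ g⁻¹ v = 0) ?_ ?_ ?_ V ρ
  · intro V _ _ _ ρ hs v
    exact Subsingleton.elim _ _
  · intro V _ _ _ ρ hirr
    rcases subsingleton_or_nontrivial V with hs | hnt
    · exact fun v => Subsingleton.elim _ _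
    let Z : Module.End ℂ V := ∑ g, w g • ρ g⁻¹
    have hZ : ∀ u, Z u = ∑ g, w g • ρ g⁻¹ u := by
      intro u; simp [Z]
    obtain ⟨c, hc⟩ := Module.End.exists_eigenvalue Z
    let W : Subrepresentation ρ := ⟨Module.End.eigenspace Z c, by
      intro x u hu
      rw [Module.End.mem_eigenspace_iff] at hu ⊢
      rw [← map_smul, ← hu, hZ, hZ, map_sum, ← Equiv.sum_comp (MulAut.conj x).toEquiv]
      refine sum_congr rfl fun s _ => ?_
      have e : w (x * s * x⁻¹) = w s := (hw _ _ (isConj_iff.2 ⟨x, rfl⟩)).symm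
      simp only [MulEquiv.toEquiv_eq_coe, EquivLike.coe_coe, MulAut.conj_apply, e, map_smul,
        ← Module.End.mul_apply, ← map_mul]
      congr 3
      group⟩
    have hW : W = ⊤ := (eq_bot_or_eq_top W).resolve_left (fun h0 => hc (by
      have := congrArg Subrepresentation.toSubmodule h0
      exact this))
    have hZc : Z = c • (1 : Module.End ℂ V) := by
      ext u
      have : u ∈ W := hW ▸ trivial
      exact Module.End.mem_eigenspace_iff.1 this
    have htr : LinearMap.trace ℂ V Z = 0 := by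
      have h1 := h0 ρ.character ⟨V, _, _, inferInstance, ρ, hirr, rfl⟩
      have hc : (Nat.card G : ℂ) ≠ 0 := by exact_mod_cast Nat.card_pos.ne'
      rw [coef_eq, mul_eq_zero, inv_eq_zero] at h1
      simpa only [Z, map_sum, map_smul, smul_eq_mul, Representation.character] using
        h1.resolve_left hc
    rw [hZc, map_smul, LinearMap.trace_one, smul_eq_mul, mul_eq_zero] at htr
    have hc0 : c = 0 := htr.resolve_right (Nat.cast_ne_zero.2 finrank_pos.ne')
    intro v
    rw [← hZ, hZc, hc0]
    simp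
  · intro V _ _ _ ρ W W' h a b v
    have h3 : v ∈ W.toSubmodule ⊔ W'.toSubmodule := by rw [h.sup_eq_top]; trivial
    obtain ⟨x, hx, y, hy, rfl⟩ := Submodule.mem_sup.1 h3
    have e1 := congrArg Subtype.val (a ⟨x, hx⟩)
    have e2 := congrArg Subtype.val (b ⟨y, hy⟩)
    rw [Submodule.coe_sum] at e1 e2
    simp only [map_add, smul_add, sum_add_distrib]
    exact (congrArg₂ (· + ·) e1 e2).trans (by simp)

theorem expand (u : G → ℂ) (hu : IsClassFun u) :
    u = ∑ χ ∈ (irr_fin (G := G)).toFinset, coef u χ • χ := by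
  classical
  have : Fintype G := Fintype.ofFinite G
  let w : G → ℂ := ∑ i : Bool, (if i then (1 : ℂ) else -1) •
    (if i then u else ∑ χ ∈ (irr_fin (G := G)).toFinset, coef u χ • χ)
  have hw' : ∀ x, w x = u x - (∑ χ ∈ (irr_fin (G := G)).toFinset, coef u χ • χ) x := by
    intro x; simp [w, sub_eq_add_neg]
  have hw : IsClassFun w := by
    intro x y hxy
    rw [hw', hw', hu x y hxy]
    simp only [Finset.sum_apply, Pi.smul_apply]
    congr 1
    refine sum_congr rfl fun χ hχ => ?_
    obtain ⟨V, _, _, _, ρ, -, rfl⟩ : χ ∈ Irr G := by simpa using hχ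
    obtain ⟨c, rfl⟩ := isConj_iff.1 hxy
    rw [ρ.char_conj]
  have h0 : ∀ ψ ∈ Irr G, coef w ψ = 0 := by
    intro ψ hψ
    simp only [w]
    rw [coef_sum, Fintype.sum_bool]
    simp only [if_true, Bool.false_eq_true, if_false]
    rw [coef_sum, Finset.sum_eq_single ψ]
    · rw [orth hψ hψ, if_pos rfl]; ring
    · intro χ hχ hne
      rw [orth (by simpa using hχ) hψ, if_neg hne, mul_zero]
    · intro h
      exact absurd (by simpa using hψ) h
  let ρ : Representation ℂ G (G → ℂ) :=
    { toFun := fun g => LinearMap.funLeft ℂ ℂ (fun x => x * g)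
      map_one' := by ext; simp
      map_mul' := by intro a b; refine LinearMap.ext fun f => ?_; funext x; simp [mul_assoc] }
  funext x
  have := congrFun (op_zero w hw h0 (G → ℂ) ρ (fun y => if y = 1 then 1 else 0)) x
  simp only [ρ, Finset.sum_apply, Pi.smul_apply, MonoidHom.coe_mk, OneHom.coe_mk,
    LinearMap.funLeft_apply, Pi.zero_apply, smul_eq_mul, mul_inv_eq_one, mul_ite, mul_one,
    mul_zero, Finset.sum_ite_eq, mem_univ, if_true] at this
  rw [hw'] at this
  exact sub_eq_zero.1 this

theorem normA_comp {H : Type} [Group H] [Finite H] (s : H →* G) (u : G → ℂ)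
    (hu : IsClassFun u) : normA (fun h => u (s h)) ≤ normA u := by
  have e : (fun h => u (s h)) =
      ∑ χ ∈ (irr_fin (G := G)).toFinset, coef u χ • fun h => χ (s h) := by
    funext h
    have := congrFun (expand u hu) (s h)
    simpa only [Finset.sum_apply, Pi.smul_apply] using this
  rw [e, normA_eq u]
  refine (normA_sum _ _ _).trans (sum_le_sum fun χ hχ => ?_)
  obtain ⟨V, _, _, _, ρ, -, rfl⟩ : χ ∈ Irr G := by simpa using hχ
  rw [mul_comm]
  refine mul_le_mul_of_nonneg_right ?_ (norm_nonneg _)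
  have := normA_char V (ρ.comp s : Representation ℂ H V)
  rw [Representation.char_one, Complex.norm_natCast]
  exact this

theorem amza_le {H : Type} [Group H] [Finite H] (s : H →* G) (π : G →* H)
    (hs : ∀ h, π (s h) = h) : AMZA H ≤ AMZA G := by
  classical
  refine le_csInf ?_ ?_
  · have : Fintype (ConjClasses G) := Fintype.ofFinite _
    let e := (Fintype.equivFin (ConjClasses G)).symm
    let u : Fin (Fintype.card (ConjClasses G)) → G → ℂ :=
      fun i x => if ConjClasses.mk x = e i then 1 else 0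
    have hu : ∀ i, IsClassFun (u i) := fun i x y h => by
      simp only [u, ConjClasses.mk_eq_mk_iff_isConj.2 h]
    refine ⟨_, _, u, u, fun i => ⟨hu i, hu i⟩, fun x y => ?_, rfl⟩
    simp only [u]
    rw [e.sum_comp fun C => (if ConjClasses.mk x = C then (1 : ℂ) else 0) *
      if ConjClasses.mk y = C then 1 else 0]
    simp only [ite_mul, one_mul, zero_mul, Finset.sum_ite_eq, mem_univ, if_true,
      ConjClasses.mk_eq_mk_iff_isConj, isConj_comm]
  · rintro r ⟨n, u, v, h1, h2, rfl⟩
    refine csInf_le_of_le ⟨0, ?_⟩ ⟨n, fun i h => u i (s h), fun i h => v i (s h), fun i =>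
      ⟨fun x y h => (h1 i).1 _ _ (s.map_isConj h), fun x y h => (h1 i).2 _ _ (s.map_isConj h)⟩,
      fun x y => ?_, rfl⟩ ?_
    · rintro r ⟨n, u, v, -, -, rfl⟩
      exact sum_nonneg fun i _ => mul_nonneg (normA_nonneg _) (normA_nonneg _)
    · rw [h2]
      refine if_congr ⟨fun h => ?_, s.map_isConj⟩ rfl rfl
      simpa only [hs] using π.map_isConj h
    · exact sum_le_sum fun i _ => mul_le_mul (normA_comp s _ (h1 i).1) (normA_comp s _ (h1 i).2)
        (normA_nonneg _) (normA_nonneg _)

theorem main (N : Subgroup G) [N.Normal]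
    (h : Nat.Coprime (Nat.card N) N.index ∨ ∃ H : Subgroup G, N.IsComplement' H) :
    AMZA (G ⧸ N) ≤ AMZA G := by
  obtain ⟨H, hH⟩ := h.elim Subgroup.exists_right_complement'_of_coprime id
  refine amza_le (H.subtype.comp hH.symm.QuotientMulEquiv.toMonoidHom) (QuotientGroup.mk' N)
    fun q => ?_
  obtain ⟨x, rfl⟩ := hH.symm.QuotientMulEquiv.symm.surjective q
  simp only [MulEquiv.toMonoidHom_eq_coe, MonoidHom.comp_apply, MonoidHom.coe_coe,
    MulEquiv.apply_symm_apply]
  rfl

end Pool.Agent.H32.Am
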