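import Mathlib

set_option autoImplicit false

namespace Pool.Agent.H32.Am

/-- The complex irreducible characters of `G`. -/
def Irr (G : Type) [Group G] : Set (G → ℂ) :=
  {χ | ∃ (V : Type) (_ : AddCommGroup V) (_ : Module ℂ V) (_ : FiniteDimensional ℂ V)
    (ρ : Representation ℂ G V), ρ.IsIrreducible ∧ χ = ρ.character}

/-- Class functions. -/
def IsClassFun {G : Type} [Group G] (u : G → ℂ) : Prop := ∀ x y, IsConj x y → u x = u y

/-- The coefficient of the irreducible character `χ` in the class function `u`. -/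
noncomputable def coef {G : Type} [Group G] (u χ : G → ℂ) : ℂ :=
  (Nat.card G : ℂ)⁻¹ * ∑ᶠ g, u g * χ g⁻¹

/-- The Fourier algebra norm of a class function: `∑ χ(1) |c_χ|`. -/
noncomputable def normA {G : Type} [Group G] (u : G → ℂ) : ℝ :=
  ∑ᶠ χ ∈ Irr G, ‖χ 1‖ * ‖coef u χ‖

open Classical in
/-- The projective tensor norm of the diagonal `∑_C 1_C ⊗ 1_C` of `ZA(G)`; the diagonal is the
function on `G × G` with value `1` at conjugate pairs and `0` elsewhere. -/
noncomputable def AMZA (G : Type) [Group G] : ℝ :=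
  sInf {r | ∃ (n : ℕ) (u v : Fin n → G → ℂ), (∀ i, IsClassFun (u i) ∧ IsClassFun (v i)) ∧
    (∀ x y, ∑ i, u i x * v i y = if IsConj x y then 1 else 0) ∧
    r = ∑ i, normA (u i) * normA (v i)}

end Pool.Agent.H32.Am
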