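import Pool.Agent.H32.RandExt

set_option autoImplicit false

namespace Pool.Agent.H32.Asc

open Pool.Agent.H32.RandExt SimpleGraph Sum

/-- `H` is an `r`-ASC graph: connected, of radius `r`, with exactly two non-central vertices. -/
def IsASC {W : Type} (H : SimpleGraph W) (r : ℕ) : Prop :=
  H.Connected ∧ H.radius = r ∧ {v | H.eccent v ≠ H.radius}.ncard = 2

/-- `G` is an induced subgraph of an `r`-ASC graph with `k` more vertices. -/
def Fits {n : ℕ} (G : SimpleGraph (Fin n)) (r k : ℕ) : Prop :=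
  ∃ (W : Type) (_ : Fintype W) (H : SimpleGraph W),
    Fintype.card W = n + k ∧ IsASC H r ∧ Nonempty (G ↪g H)

/-- The `r`-ASC index of `G` equals `k`. -/
def IndexEq {n : ℕ} (G : SimpleGraph (Fin n)) (r k : ℕ) : Prop := IsLeast {j | Fits G r j} k

section
variable {W : Type} {H : SimpleGraph W}

lemma le_succ {a b : W} {k : ℕ} (h : H.edist a b ≤ (k + 1 : ℕ)) :
    a = b ∨ ∃ c, H.Adj a c ∧ H.edist c b ≤ k := by
  obtain ⟨p, hp⟩ := exists_walk_of_edist_ne_top (ne_top_of_le_ne_top (ENat.natCast_ne_top _) h)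
  cases p with
  | nil => exact Or.inl rfl
  | cons h' p =>
    refine Or.inr ⟨_, h', (edist_le p).trans ?_⟩
    rw [← hp, Walk.length_cons] at h
    exact_mod_cast (Nat.le_of_succ_le_succ (by exact_mod_cast h))

lemma le_two {a b : W} (h : H.edist a b ≤ 2) :
    a = b ∨ H.Adj a b ∨ ∃ c, H.Adj a c ∧ H.Adj c b := by
  rcases le_succ (k := 1) h with h | ⟨c, h1, h2⟩
  · exact Or.inl h
  · rcases le_succ (k := 0) h2 with rfl | ⟨d, h3, h4⟩
    · exact Or.inr (Or.inl h1)
    · have : d = b := by simpa using h4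
      exact Or.inr (Or.inr ⟨c, h1, this ▸ h3⟩)

lemma d1 {a b : W} (h : a = b ∨ H.Adj a b) : H.edist a b ≤ 1 := by
  rcases h with rfl | h
  · simp
  · exact (edist_eq_one_iff_adj.2 h).le

lemma tri {a b c : W} {i j k : ℕ∞} (h1 : H.edist a b ≤ i) (h2 : H.edist b c ≤ j)
    (h : i + j ≤ k) : H.edist a c ≤ k :=
  SimpleGraph.edist_triangle.trans ((add_le_add h1 h2).trans h)

lemma ecc3 {a : W} (h1 : ∀ b, H.edist a b ≤ 3) {b : W} (h2 : ¬ H.edist a b ≤ 2) :
    H.eccent a = 3 := by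
  refine le_antisymm ((eccent_le_iff _ _).2 h1) (le_trans ?_ (edist_le_eccent (v := b)))
  exact Order.add_one_le_of_lt (lt_of_not_ge h2)
end

lemma common {V : Type} {G : SimpleGraph V} (h : Ext 2 G) {x0 : V} (u v : V)
    (h1 : x0 ≠ u) (h2 : x0 ≠ v) : ∃ c, G.Adj c u ∧ G.Adj c v := by
  obtain ⟨z, hz, -⟩ := h ![u, v] ![x0, x0] (by
    intro i j; fin_cases i <;> fin_cases j <;> simp [h1.symm, h2.symm])
  exact ⟨z, hz 0, hz 1⟩

lemma common' {n : ℕ} (hn : 3 ≤ n) {G : SimpleGraph (Fin n)} (h : Ext 2 G) (u v : Fin n) :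
    ∃ c, G.Adj c u ∧ G.Adj c v := by
  have : ∃ x, x ∉ ({u, v} : Finset (Fin n)) := by
    by_contra hc
    push Not at hc
    have h1 := Finset.card_le_card (fun x _ => hc x : Finset.univ ⊆ ({u, v} : Finset (Fin n)))
    have h2 : ({u, v} : Finset (Fin n)).card ≤ 2 := Finset.card_le_two
    simp only [Finset.card_univ, Fintype.card_fin] at h1
    omega
  obtain ⟨x, hx⟩ := this
  simp only [Finset.mem_insert, Finset.mem_singleton, not_or] at hx
  exact common h u v hx.1 hx.2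

lemma lower {n : ℕ} (hn : 3 ≤ n) {G : SimpleGraph (Fin n)} (h : Ext 2 G) {k : ℕ}
    (hk : Fits G 3 k) : 3 ≤ k := by
  classical
  by_contra hlt
  obtain ⟨W, _, H, hc, ⟨hconn, hr, -⟩, ⟨f⟩⟩ := hk
  have hGG : ∀ u v, H.edist (f u) (f v) ≤ 2 := fun u v => by
    obtain ⟨c, h1, h2⟩ := common' hn h u v
    exact tri (d1 (Or.inr (f.map_adj_iff.2 h1.symm))) (d1 (Or.inr (f.map_adj_iff.2 h2))) (by norm_num)
  set N : Finset W := Finset.univ \ Finset.univ.image f with hN
  have hcard : N.card ≤ 2 := by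
    have h1 := Finset.card_sdiff_add_card_eq_card (Finset.subset_univ (Finset.univ.image f))
    rw [Finset.card_image_of_injective _ f.injective, Finset.card_univ, Finset.card_univ,
      Fintype.card_fin] at h1
    rw [hN]
    omega
  have hmem : ∀ w, w ∉ N → ∃ u, f u = w := by
    intro w hw; simpa [hN] using hw
  have key : ∀ c, ¬ ∀ w ∈ N, H.edist (f c) w ≤ 2 := by
    intro c hcw
    have : H.eccent (f c) ≤ 2 := (eccent_le_iff _ _).2 fun w => by
      by_cases hw : w ∈ N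
      · exact hcw w hw
      · obtain ⟨u, rfl⟩ := hmem w hw; exact hGG c u
    have h2 := (radius_le_eccent (u := f c)).trans this
    rw [hr] at h2
    exact absurd h2 (by norm_num)
  have bd : ∀ (S : Finset W) (a b : W), a ∈ S → b ∉ S → ∃ x ∈ S, ∃ y, y ∉ S ∧ H.Adj x y := by
    intro S a b ha hb
    obtain ⟨p⟩ := hconn.preconnected a b
    obtain ⟨d, -, h1, h2⟩ := p.exists_boundary_dart (S : Set W) ha hb
    exact ⟨_, h1, _, h2, d.adj⟩
  have v0 : Fin n := ⟨0, by omega⟩
  have nN : ∀ u, f u ∉ N := fun u => by simp [hN]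
  by_cases h0 : N = ∅
  · exact key v0 (by simp [h0])
  obtain ⟨a, ha⟩ := Finset.nonempty_iff_ne_empty.2 h0
  obtain ⟨x, hx, y, hy, hxy⟩ := bd N a _ ha (nN v0)
  obtain ⟨u, rfl⟩ := hmem y hy
  have k1 := key u
  push Not at k1
  obtain ⟨y, hy, hyu⟩ := k1
  have hne : y ≠ x := fun e => absurd (tri (d1 (Or.inr hxy.symm)) (d1 (Or.inl e.symm)) (by norm_num)) hyu.not_ge
  obtain ⟨y', hy', z, hz, hyz⟩ := bd {y} y x (by simp) (by simpa using hne.symm)
  obtain rfl : y' = y := by simpa using hy'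
  have hall : ∀ w ∈ N, w = x ∨ w = y' := by
    intro w hw
    by_contra hc
    push Not at hc
    have : ({w, x, y'} : Finset W).card ≤ N.card := Finset.card_le_card (by
      intro t ht
      simp only [Finset.mem_insert, Finset.mem_singleton] at ht
      rcases ht with rfl | rfl | rfl <;> assumption)
    rw [Finset.card_eq_three.2 ⟨w, x, y', hc.1, hc.2, hne.symm, rfl⟩] at this
    omega
  by_cases hzN : z ∈ N
  · rcases hall z hzN with rfl | rfl
    · exact absurd (tri (d1 (Or.inr hxy.symm)) (d1 (Or.inr hyz.symm)) (by norm_num)) hyu.not_ge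
    · exact H.irrefl hyz
  · obtain ⟨v, rfl⟩ := hmem z hzN
    obtain ⟨c, h1, h2⟩ := common' hn h u v
    refine key c fun w hw => ?_
    rcases hall w hw with rfl | rfl
    · exact tri (d1 (Or.inr (f.map_adj_iff.2 h1))) (d1 (Or.inr hxy.symm)) (by norm_num)
    · exact tri (d1 (Or.inr (f.map_adj_iff.2 h2))) (d1 (Or.inr hyz.symm)) (by norm_num)

def HH {V : Type} (G : SimpleGraph V) (b w : V) : SimpleGraph (V ⊕ Fin 3) where
  Adj
    | inl u, inl v => G.Adj u v
    | inl u, inr i => (i = 1 ∧ u ≠ b ∧ u ≠ w ∧ ¬ G.Adj u b ∧ ¬ G.Adj u w) ∨ (i = 2 ∧ u = b)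
    | inr i, inl u => (i = 1 ∧ u ≠ b ∧ u ≠ w ∧ ¬ G.Adj u b ∧ ¬ G.Adj u w) ∨ (i = 2 ∧ u = b)
    | inr i, inr j => i ≠ j ∧ (i = 0 ∨ j = 0)
  symm := ⟨by
    rintro (u | i) (v | j) h
    exacts [h.symm, h, h, ⟨h.1.symm, h.2.symm⟩]⟩
  loopless := ⟨by
    rintro (u | i) h
    exacts [G.irrefl h, h.1 rfl]⟩

lemma upper {n : ℕ} (hn : 3 ≤ n) {G : SimpleGraph (Fin n)} (h : Ext 2 G) : Fits G 3 3 := by
  obtain ⟨b, x0, hb0⟩ : ∃ b x0 : Fin n, x0 ≠ b := ⟨⟨0, by omega⟩, ⟨1, by omega⟩, by simp⟩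
  obtain ⟨w, -, hw⟩ := h ![x0, x0] ![b, b] (by
    intro i j; fin_cases i <;> fin_cases j <;> simp [hb0])
  have hwb : w ≠ b := (hw 0).1
  have hwb' : ¬ G.Adj w b := (hw 0).2
  set H := HH G b w with hH
  have hN : ∀ v, v ≠ b → v ≠ w → ∃ c, G.Adj c v ∧ H.Adj (inl c) (inr 1) := by
    intro v h1 h2
    obtain ⟨c, c1, c2⟩ := h ![v, v] ![b, w] (by
      intro i j; fin_cases i <;> fin_cases j <;> simp [h1, h2])
    exact ⟨c, c1 0, Or.inl ⟨rfl, (c2 0).1, (c2 1).1, (c2 0).2, (c2 1).2⟩⟩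
  have gg : ∀ u v, H.edist (inl u) (inl v) ≤ 2 := fun u v => by
    obtain ⟨c, h1, h2⟩ := common' hn h u v
    exact tri (b := inl c) (d1 (Or.inr h1.symm)) (d1 (Or.inr h2)) (by norm_num)
  have a01 : H.edist (inr 1) (inr 0) ≤ 1 := d1 (Or.inr ⟨by decide, Or.inr rfl⟩)
  have a02 : H.edist (inr 2) (inr 0) ≤ 1 := d1 (Or.inr ⟨by decide, Or.inr rfl⟩)
  have bz : H.edist (inl b) (inr 2) ≤ 1 := d1 (Or.inr (Or.inr ⟨rfl, rfl⟩))
  have gz : ∀ v, H.edist (inl v) (inr 2) ≤ 3 := fun v => tri (gg v b) bz (by norm_num)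
  have gy2 : ∀ v, v ≠ b → v ≠ w → H.edist (inl v) (inr 1) ≤ 2 := fun v h1 h2 => by
    obtain ⟨c, c1, c2⟩ := hN v h1 h2
    exact tri (b := inl c) (d1 (Or.inr c1.symm)) (d1 (Or.inr c2)) (by norm_num)
  have gy : ∀ v, H.edist (inl v) (inr 1) ≤ 3 := fun v => by
    obtain ⟨u, u1, u2⟩ := common' hn h b w
    obtain ⟨c, c1, c2⟩ := hN u u1.ne u2.ne
    exact tri (gg v c) (d1 (Or.inr c2)) (by norm_num)
  have gx : ∀ v, v ≠ w → H.edist (inl v) (inr 0) ≤ 3 := fun v hv => by
    by_cases e : v = b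
    · rw [e]; exact tri bz a02 (by norm_num)
    · exact tri (gy2 v e hv) a01 (by norm_num)
  have yb : ¬ H.edist (inl b) (inr 1) ≤ 2 := by
    intro e
    rcases le_two e with e | e | ⟨c | c, e, e'⟩
    · simp at e
    · simp [hH, HH] at e
    · simp only [hH, HH] at e e'
      simp at e'
      exact e'.2.2.1 e.symm
    · simp only [hH, HH] at e e'
      simp at e
      simp [e] at e'
  have yw : ¬ H.edist (inr 1) (inl w) ≤ 2 := by
    intro e
    rcases le_two e with e | e | ⟨c | c, e, e'⟩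
    · simp at e
    · simp [hH, HH] at e
    · simp only [hH, HH] at e e'
      simp at e
      exact e.2.2.2 e'
    · simp only [hH, HH] at e e'
      simp [hwb] at e'
  have zv : ∀ v, v ≠ b → ¬ G.Adj v b → ¬ H.edist (inl v) (inr 2) ≤ 2 := by
    intro v h1 h2 e
    rcases le_two e with e | e | ⟨c | c, e, e'⟩
    · simp at e
    · simp [hH, HH, h1] at e
    · simp only [hH, HH] at e e'
      simp at e'
      exact h2 (e' ▸ e)
    · simp only [hH, HH] at e e'
      simp [h1] at e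
      simp [e.1] at e'
  have xv : ∀ v, v ≠ b → (G.Adj v b ∨ v = w) → ¬ H.edist (inl v) (inr 0) ≤ 2 := by
    intro v h1 h2 e
    rcases le_two e with e | e | ⟨c | c, e, e'⟩
    · simp at e
    · simp [hH, HH] at e
    · simp [hH, HH] at e'
    · simp only [hH, HH] at e
      simp [h1] at e
      tauto
  have xw : ¬ H.edist (inr 0) (inl w) ≤ 3 := by
    intro e
    rcases le_succ (k := 2) e with e | ⟨c | c, e, e'⟩
    · simp at e
    · simp [hH, HH] at e
    · fin_cases c
      · exact H.irrefl e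
      · exact yw e'
      · exact zv w hwb hwb' (by rw [SimpleGraph.edist_comm]; exact e')
  have e3 : ∀ a, a ≠ inl w → a ≠ inr 0 → H.eccent a = 3 := by
    rintro (v | i) h1 h2
    · have hv : v ≠ w := fun e => h1 (by rw [e])
      have up : ∀ c, H.edist (inl v) c ≤ 3 := by
        rintro (c | c)
        · exact (gg v c).trans (by norm_num)
        · fin_cases c
          exacts [gx v hv, gy v, gz v]
      by_cases e : v = b
      · exact ecc3 up (e ▸ yb)
      · by_cases e' : G.Adj v b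
        · exact ecc3 up (xv v e (Or.inl e'))
        · exact ecc3 up (zv v e e')
    · fin_cases i
      · exact absurd rfl h2
      · refine ecc3 ?_ yw
        rintro (c | c)
        · rw [SimpleGraph.edist_comm]; exact gy c
        · fin_cases c
          · exact a01.trans (by norm_num)
          · simp
          · exact tri a01 (SimpleGraph.edist_comm.trans_le a02) (by norm_num)
      · refine ecc3 (b := inl w) ?_ (by rw [SimpleGraph.edist_comm]; exact zv w hwb hwb')
        rintro (c | c)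
        · rw [SimpleGraph.edist_comm]; exact gz c
        · fin_cases c
          · exact a02.trans (by norm_num)
          · exact tri a02 (SimpleGraph.edist_comm.trans_le a01) (by norm_num)
          · simp
  have e4 : ¬ H.eccent (inr 0) ≤ 3 := fun e => xw (edist_le_eccent.trans e)
  have e5 : ¬ H.eccent (inl w) ≤ 3 := fun e => xw (by
    rw [SimpleGraph.edist_comm]; exact edist_le_eccent.trans e)
  have hb3 := e3 (inl b) (by simpa using hwb.symm) (by simp)
  have hr : H.radius = 3 := by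
    refine le_antisymm (hb3 ▸ radius_le_eccent) ?_
    obtain ⟨u, hu⟩ := H.exists_eccent_eq_radius
    rw [← hu]
    by_cases h1 : u = inl w
    · rw [h1]; exact (lt_of_not_ge e5).le
    · by_cases h2 : u = inr 0
      · rw [h2]; exact (lt_of_not_ge e4).le
      · exact (e3 u h1 h2).ge
  refine ⟨Fin n ⊕ Fin 3, inferInstance, H, by simp, ⟨radius_ne_top_iff.1 (by rw [hr]; decide),
    hr, ?_⟩, ⟨⟨⟨inl, inl_injective⟩, Iff.rfl⟩⟩⟩
  rw [hr, Set.ncard_eq_two]
  refine ⟨inl w, inr 0, by simp, ?_⟩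
  ext a
  simp only [Set.mem_setOf_eq, Set.mem_insert_iff, Set.mem_singleton_iff]
  constructor
  · intro ha
    by_contra hc
    push Not at hc
    exact ha (e3 a hc.1 hc.2)
  · rintro (rfl | rfl) e
    exacts [e5 e.le, e4 e.le]

end Pool.Agent.H32.Asc
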