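import Pool.Agent.H32.AzDefs

set_option autoImplicit false

namespace Pool.Agent.H32.Az

open CategoryTheory Finset

variable {Γ : Type} [Group Γ] [Fintype Γ]

open Classical in
theorem orth {χ ψ : Γ → ℂ} (h1 : χ ∈ Irr Γ) (h2 : ψ ∈ Irr Γ) :
    ∑ g, χ g * ψ g⁻¹ = if χ = ψ then (Nat.card Γ : ℂ) else 0 := by
  obtain ⟨V, hV, rfl⟩ := h1
  obtain ⟨W, hW, rfl⟩ := h2
  have hc : (Nat.card Γ : ℂ) ≠ 0 := by exact_mod_cast Nat.card_pos.ne'
  have : Invertible (Nat.card Γ : ℂ) := invertibleOfNonzero hc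
  split_ifs with e
  · rw [← e]; exact (FDRep.simple_iff_char_is_norm_one V).1 hV
  · have h1 := FDRep.char_orthonormal V W
    rw [if_neg (fun ⟨φ⟩ => e (FDRep.char_iso φ))] at h1
    simpa [hc] using h1

theorem irr_fin : (Irr Γ).Finite := by
  classical
  have hc0 : (Nat.card Γ : ℂ) ≠ 0 := by exact_mod_cast Nat.card_pos.ne'
  have hli : LinearIndependent ℂ (fun χ : Irr Γ => χ.1) := by
    rw [linearIndependent_iff']
    intro s c hc i hi
    have h2 : ∑ g, (∑ k ∈ s, c k • k.1) g * i.1 g⁻¹ = 0 := by rw [hc]; simp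
    simp only [Finset.sum_apply, Pi.smul_apply, smul_eq_mul, Finset.sum_mul] at h2
    rw [Finset.sum_comm, Finset.sum_eq_single i] at h2
    · simp only [mul_assoc, ← Finset.mul_sum, orth i.2 i.2, if_true] at h2
      exact (mul_eq_zero.1 h2).resolve_right hc0
    · intro k _ hk
      simp only [mul_assoc, ← Finset.mul_sum]
      rw [orth k.2 i.2, if_neg (fun e => hk (Subtype.ext e)), mul_zero]
    · intro h
      exact absurd hi h
  have hf : Finite (Irr Γ) := hli.finite_of_isNoetherian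
  exact Set.toFinite _

omit [Fintype Γ] in
theorem cls {χ : Γ → ℂ} (h : χ ∈ Irr Γ) {x y : Γ} (e : IsConj x y) : χ x = χ y := by
  obtain ⟨V, -, rfl⟩ := h
  obtain ⟨c, rfl⟩ := isConj_iff.1 e
  rw [V.char_conj]

theorem S_eq {χ ψ : Γ → ℂ} (h1 : χ ∈ Irr Γ) (h2 : ψ ∈ Irr Γ) :
    S χ ψ = ∑ g, ({h | IsConj g h}.ncard : ℂ) * (χ g * (starRingEnd ℂ) (ψ g)) := by
  classical
  have : Fintype (ConjClasses Γ) := Fintype.ofFinite _
  rw [S, finsum_eq_sum_of_fintype, ← Finset.sum_fiberwise univ (fun g : Γ => ConjClasses.mk g)]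
  refine sum_congr rfl fun C _ => ?_
  have hC : ConjClasses.mk (Quotient.out C) = C := Quotient.out_eq C
  rw [sum_congr rfl (g := fun _ => (C.carrier.ncard : ℂ) * (χ (Quotient.out C) *
    (starRingEnd ℂ) (ψ (Quotient.out C))))]
  · have : C.carrier.ncard = (univ.filter fun g => ConjClasses.mk g = C).card := by
      rw [← Set.ncard_coe_finset]
      congr 1
      ext g
      simp [ConjClasses.mem_carrier_iff_mk_eq]
    rw [sum_const, ← this, nsmul_eq_mul]; ring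
  · intro g hg
    have hg' : ConjClasses.mk g = C := by simpa using hg
    have e : IsConj g (Quotient.out C) := ConjClasses.mk_eq_mk_iff_isConj.1 (hg'.trans hC.symm)
    rw [cls h1 e, cls h2 e]
    congr 3
    ext h
    rw [ConjClasses.mem_carrier_iff_mk_eq, ← hg', ConjClasses.mk_eq_mk_iff_isConj, isConj_comm]
    rfl

theorem matrep {X : Type} [Fintype X] [DecidableEq X] (M : Γ → Matrix X X ℂ) (M1 : M 1 = 1)
    (Mm : ∀ g h, M (g * h) = M g * M h) (χ : Γ → ℂ) (ht : ∀ g, ∑ q, M g q q = χ g)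
    (hn : ∑ g, χ g * χ g⁻¹ = Nat.card Γ) : χ ∈ Irr Γ := by
  let ρ : Representation ℂ Γ (X → ℂ) :=
    { toFun := fun g => Matrix.toLin' (M g)
      map_one' := by rw [M1, Matrix.toLin'_one]; rfl
      map_mul' := fun g h => by rw [Mm, Matrix.toLin'_mul]; rfl }
  have e : (FDRep.of ρ).character = χ := by
    funext g
    change LinearMap.trace ℂ (X → ℂ) (Matrix.toLin' (M g)) = _
    rw [Matrix.trace_toLin'_eq, ← ht]
    rfl
  exact ⟨FDRep.of ρ, by rw [FDRep.simple_iff_char_is_norm_one, e, hn], e⟩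

theorem classify [DecidableEq Γ] {ι : Type} [Fintype ι] (ψ : ι → Γ → ℂ) (hψ : ∀ i, ψ i ∈ Irr Γ)
    (d : ι → ℂ) (c : ℂ) (hc : c ≠ 0) (reg : ∀ g, ∑ i, d i * ψ i g = if g = 1 then c else 0) :
    Irr Γ ⊆ Set.range ψ := by
  classical
  intro χ h
  by_contra hne
  have h0 : ∀ i, ∑ g, ψ i g * χ g⁻¹ = 0 := fun i => by
    rw [orth (hψ i) h, if_neg fun e => hne ⟨i, e⟩]
  have h1 : ∑ i, d i * ∑ g, ψ i g * χ g⁻¹ = 0 := by
    simp only [h0, mul_zero, Finset.sum_const_zero]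
  simp only [Finset.mul_sum] at h1
  rw [Finset.sum_comm] at h1
  have h2 : ∀ g, ∑ i, d i * (ψ i g * χ g⁻¹) = if g = 1 then c * χ 1 else 0 := fun g => by
    simp only [← mul_assoc, ← Finset.sum_mul, reg]
    split_ifs with e
    · rw [e, inv_one]
    · rw [zero_mul]
  simp only [h2, Finset.sum_ite_eq', Finset.mem_univ, if_true] at h1
  have h3 := orth h h
  obtain ⟨V, hV, rfl⟩ := h
  have h4 := (mul_eq_zero.1 h1).resolve_left hc
  rw [FDRep.char_one] at h4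
  have h5 : Module.finrank ℂ V = 0 := by exact_mod_cast h4
  have : Subsingleton V := Module.finrank_zero_iff.1 h5
  have hz : ∀ g, V.character g = 0 := fun g => by
    rw [FDRep.character, Subsingleton.elim (V.ρ g) 0, map_zero]
  simp only [hz, mul_zero, Finset.sum_const_zero, if_true] at h3
  exact Nat.card_pos.ne' (by exact_mod_cast h3.symm)

theorem upper {ι : Type} [Fintype ι] (ψ : ι → Γ → ℂ) (h : Irr Γ ⊆ Set.range ψ)
    (F : (Γ → ℂ) → ℝ) (hF : ∀ χ, 0 ≤ F χ) : ∑ᶠ χ ∈ Irr Γ, F χ ≤ ∑ i, F (ψ i) := by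
  classical
  rw [finsum_mem_eq_finite_toFinset_sum _ irr_fin]
  refine (sum_le_sum_of_subset_of_nonneg (t := univ.image ψ) (fun χ hχ => ?_)
    fun χ _ _ => hF χ).trans ?_
  · simpa using h (by simpa using hχ)
  · rw [← Finset.sum_fiberwise_of_maps_to (t := univ.image ψ) (g := ψ)
      (fun i _ => mem_image_of_mem ψ (mem_univ i))]
    refine sum_le_sum fun χ hχ => ?_
    obtain ⟨i, -, rfl⟩ := mem_image.1 hχ
    exact single_le_sum (f := fun j => F (ψ j)) (fun j _ => hF _) (a := i) (by simp)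

theorem lower {ι : Type} [Fintype ι] (ψ : ι → Γ → ℂ) (h : ∀ i, ψ i ∈ Irr Γ)
    (hi : Function.Injective ψ) (F : (Γ → ℂ) → ℝ) (hF : ∀ χ, 0 ≤ F χ) :
    ∑ i, F (ψ i) ≤ ∑ᶠ χ ∈ Irr Γ, F χ := by
  classical
  rw [finsum_mem_eq_finite_toFinset_sum _ irr_fin, ← sum_image (g := ψ) fun a _ b _ e => hi e]
  refine sum_le_sum_of_subset_of_nonneg (fun χ hχ => ?_) fun χ _ _ => hF χ
  obtain ⟨i, -, rfl⟩ := mem_image.1 hχ
  simpa using h i

theorem fnn (F : (Γ → ℂ) → ℝ) (hF : ∀ χ, 0 ≤ F χ) : 0 ≤ ∑ᶠ χ ∈ Irr Γ, F χ := by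
  rw [finsum_mem_eq_finite_toFinset_sum _ irr_fin]
  exact sum_nonneg fun χ _ => hF χ

theorem amza_le {ι : Type} [Fintype ι] (ψ : ι → Γ → ℂ) (h : Irr Γ ⊆ Set.range ψ) :
    AMZA Γ ≤ (1 / (Nat.card Γ : ℝ) ^ 2) * ∑ i, ∑ j, ‖ψ i 1‖ * ‖ψ j 1‖ * ‖S (ψ i) (ψ j)‖ := by
  refine mul_le_mul_of_nonneg_left ?_ (by positivity)
  refine (upper ψ h _ fun χ => fnn _ fun _ => by positivity).trans (sum_le_sum fun i _ => ?_)
  exact upper ψ h _ fun _ => by positivity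

theorem le_amza {ι : Type} [Fintype ι] (ψ : ι → Γ → ℂ) (h : ∀ i, ψ i ∈ Irr Γ)
    (hi : Function.Injective ψ) :
    (1 / (Nat.card Γ : ℝ) ^ 2) * ∑ i, ∑ j, ‖ψ i 1‖ * ‖ψ j 1‖ * ‖S (ψ i) (ψ j)‖ ≤ AMZA Γ := by
  refine mul_le_mul_of_nonneg_left ?_ (by positivity)
  refine le_trans (sum_le_sum fun i _ => ?_)
    (lower ψ h hi (fun χ => ∑ᶠ χ' ∈ Irr Γ, ‖χ 1‖ * ‖χ' 1‖ * ‖S χ χ'‖)
      fun χ => fnn _ fun _ => by positivity)
  exact lower ψ h hi (fun χ' => ‖ψ i 1‖ * ‖χ' 1‖ * ‖S (ψ i) χ'‖) fun _ => by positivity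

end Pool.Agent.H32.Az
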