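import Pool.Agent.H32.AzA

set_option autoImplicit false

namespace Pool.Agent.H32.Az

open Finset

def NT : ℕ := 414272998121209965730971164581057604440574417017088395872094094286813068705983093085657428384866351652065508893338280751992302922237242258373108992038426711679344395770496248654856250277272194842742643478184375296669152268294772787917831996741630639690021822629603925911174130214420109562982748015500612492332808147760802084282394863327125600530017615404795740017700734345238301017223733872255749496834059947533132243917405804136481554442490351950957797863745441965167947344126778728530095457307431601876713402616769451600361852390220546599241388020372553727313497078751638718577778299523693181182184265363842214677576714373237426403931950356741546095564981416417046281986861226306890337835148966786175460061472418039774736579123842877972231919596913629948786889219935163800080530391490501036277643584465759611507745611461877321004861706433922607039208533853854599200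
def NI : ℕ := 389847380940604937504093611614117056
def NA : ℕ := 134568609994230518449801575283405909333170813502657306528556351751801346181693723124225
def NB : ℕ := 2667053298000072157785698963230875202153325342570265144904313409631896594909063766382129760757735606988049993459030
def ND : ℕ := 3480447831113761812525823772259899028969872536867081489464645462376414182917359906129300726797961266919994041502327343534973802070
def NR : ℕ := 814684319663085974799290864344597536

def mh (a b : Fin 24) : Fin 24 := Fin.ofNat 24 ((NT >>> (5 * (24 * a.val + b.val))) % 32)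
def ih (a : Fin 24) : Fin 24 := Fin.ofNat 24 ((NI >>> (5 * a.val)) % 32)
def rp (a : Fin 24) : Fin 24 := Fin.ofNat 24 ((NR >>> (5 * a.val)) % 32)
def A (a : Fin 24) (e : ℕ) : ZMod 5 := (((NA >>> (3 * (4 * a.val + e))) % 8 : ℕ) : ZMod 5)

theorem mh_assoc : ∀ a b c, mh (mh a b) c = mh a (mh b c) := by decide +kernel
theorem mh_one : ∀ a, mh 0 a = a ∧ mh a 0 = a ∧ mh (ih a) a = 0 ∧ mh a (ih a) = 0 := by
  decide +kernel
theorem A_mul : ∀ a b, A (mh a b) 0 = A a 0 * A b 0 + A a 1 * A b 2 ∧
    A (mh a b) 1 = A a 0 * A b 1 + A a 1 * A b 3 ∧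
    A (mh a b) 2 = A a 2 * A b 0 + A a 3 * A b 2 ∧
    A (mh a b) 3 = A a 2 * A b 1 + A a 3 * A b 3 := by decide +kernel
theorem A0 : A 0 0 = 1 := by decide +kernel
theorem A1 : A 0 1 = 0 := by decide +kernel
theorem A2 : A 0 2 = 0 := by decide +kernel
theorem A3 : A 0 3 = 1 := by decide +kernel
theorem ih0 : ih 0 = 0 := by decide +kernel

@[ext] structure G where
  x : ZMod 5
  y : ZMod 5
  h : Fin 24
  deriving DecidableEq

def eqv : (Fin 24 × ZMod 5 × ZMod 5) ≃ G :=
  ⟨fun a => ⟨a.2.1, a.2.2, a.1⟩, fun g => (g.h, g.x, g.y), fun _ => rfl, fun _ => rfl⟩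

instance : Fintype G := Fintype.ofEquiv _ eqv

instance : Mul G := ⟨fun g k => ⟨g.x + (A g.h 0 * k.x + A g.h 1 * k.y),
  g.y + (A g.h 2 * k.x + A g.h 3 * k.y), mh g.h k.h⟩⟩
instance : One G := ⟨⟨0, 0, 0⟩⟩
instance : Inv G := ⟨fun g => ⟨-(A (ih g.h) 0 * g.x + A (ih g.h) 1 * g.y),
  -(A (ih g.h) 2 * g.x + A (ih g.h) 3 * g.y), ih g.h⟩⟩

@[simp] theorem mx (g k : G) : (g * k).x = g.x + (A g.h 0 * k.x + A g.h 1 * k.y) := rfl
@[simp] theorem my (g k : G) : (g * k).y = g.y + (A g.h 2 * k.x + A g.h 3 * k.y) := rfl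
@[simp] theorem mhh (g k : G) : (g * k).h = mh g.h k.h := rfl
@[simp] theorem ox : (1 : G).x = 0 := rfl
@[simp] theorem oy : (1 : G).y = 0 := rfl
@[simp] theorem oh : (1 : G).h = 0 := rfl
@[simp] theorem ix (g : G) : g⁻¹.x = -(A (ih g.h) 0 * g.x + A (ih g.h) 1 * g.y) := rfl
@[simp] theorem iy (g : G) : g⁻¹.y = -(A (ih g.h) 2 * g.x + A (ih g.h) 3 * g.y) := rfl
@[simp] theorem ihh (g : G) : g⁻¹.h = ih g.h := rfl

instance : Group G := Group.ofLeftAxioms
  (fun a b c => by
    obtain ⟨h0, h1, h2, h3⟩ := A_mul a.h b.h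
    ext1
    · simp only [mx, my, mhh, h0, h1]; ring
    · simp only [mx, my, mhh, h2, h3]; ring
    · exact mh_assoc _ _ _)
  (fun a => by ext1 <;> simp [A0, A1, A2, A3, (mh_one _).1])
  (fun a => by ext1 <;> simp [(mh_one _).2.2.1])

theorem cardG : Nat.card G = 600 := by
  rw [← Nat.card_congr eqv]; simp

def z (g : G) : Bool := decide (g.x = 0 ∧ g.y = 0)

theorem sumG {M : Type} [AddCommMonoid M] (f : Fin 24 → Bool → M) :
    ∑ g : G, f g.h (z g) = ∑ h, (f h true + 24 • f h false) := by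
  rw [← eqv.sum_comp, Fintype.sum_prod_type]
  refine sum_congr rfl fun h _ => ?_
  have e : ∀ q : ZMod 5 × ZMod 5, f (eqv (h, q)).h (z (eqv (h, q))) =
      if q.1 = 0 ∧ q.2 = 0 then f h true else f h false := fun q => by
    change f h (decide (q.1 = 0 ∧ q.2 = 0)) = _
    split_ifs with c <;> simp [c]
  simp only [e]
  rw [sum_ite, sum_const, sum_const,
    show (univ.filter fun q : ZMod 5 × ZMod 5 => q.1 = 0 ∧ q.2 = 0).card = 1 by decide,
    show (univ.filter fun q : ZMod 5 × ZMod 5 => ¬ (q.1 = 0 ∧ q.2 = 0)).card = 24 by decide,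
    one_smul]

theorem z_inv0 : ∀ x y : ZMod 5, z (⟨x, y, 0⟩ : G)⁻¹ = z ⟨x, y, 0⟩ := by decide +kernel

def ρ (h : Fin 24) (b : Bool) : Fin 24 × Bool := if h = 0 then (0, b) else (rp h, true)
def R (r : Fin 24 × Bool) : G := if r.2 then ⟨0, 0, r.1⟩ else ⟨1, 0, 0⟩

theorem st1 : ∀ h : Fin 24, h ≠ 0 → ∀ x y : ZMod 5, ∃ u v : ZMod 5,
    u - (A h 0 * u + A h 1 * v) = x ∧ v - (A h 2 * u + A h 3 * v) = y := by decide +kernel
theorem st2 : ∀ h, ∃ s, mh (mh s (rp h)) (ih s) = h := by decide +kernel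
theorem st3 : ∀ x y : ZMod 5, ¬ (x = 0 ∧ y = 0) → ∃ s, A s 0 = x ∧ A s 2 = y := by
  decide +kernel
theorem st4 : ∀ s h, rp (mh (mh s h) (ih s)) = rp h ∧ (mh (mh s h) (ih s) = 0 ↔ h = 0) := by
  decide +kernel

theorem conjR (g : G) : IsConj (R (ρ g.h (z g))) g := by
  obtain ⟨x, y, h⟩ := g
  by_cases h0 : h = 0
  · subst h0
    by_cases c : x = 0 ∧ y = 0
    · obtain ⟨rfl, rfl⟩ := c
      exact IsConj.refl _
    · obtain ⟨s, rfl, rfl⟩ := st3 x y c
      refine isConj_iff.2 ⟨⟨0, 0, s⟩, ?_⟩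
      ext1 <;> simp [R, ρ, z, c, mh_one]
  · obtain ⟨u, v, rfl, rfl⟩ := st1 h h0 x y
    obtain ⟨s, hs⟩ := st2 h
    have e1 : IsConj (R (ρ h true)) (⟨0, 0, h⟩ : G) := by
      refine isConj_iff.2 ⟨⟨0, 0, s⟩, ?_⟩
      ext1 <;> simp [R, ρ, h0, hs]
    have e2 : ∀ b, ρ h b = ρ h true := fun b => by simp [ρ, h0]
    rw [e2]
    refine e1.trans (isConj_iff.2 ⟨⟨u, v, 0⟩, ?_⟩)
    ext1 <;> simp [A0, A1, A2, A3, ih0, mh_one] <;> ring

theorem conj_iff (g k : G) : IsConj g k ↔ ρ g.h (z g) = ρ k.h (z k) := by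
  refine ⟨fun h => ?_, fun h => (conjR g).symm.trans (h ▸ conjR k)⟩
  obtain ⟨s, hs⟩ := isConj_iff.1 h
  have e : k.h = mh (mh s.h g.h) (ih s.h) := by rw [← hs]; rfl
  obtain ⟨h1, h2⟩ := st4 s.h g.h
  rw [← e] at h1 h2
  by_cases c : g.h = 0
  · have c' := h2.2 c
    have : g = 1 ↔ k = 1 := ⟨fun e => by rw [← hs, e]; simp, fun e => by
      rw [e] at h; exact isConj_one_left.1 h⟩
    simp only [G.ext_iff, ox, oy, oh, c, c', and_true] at this
    simp [ρ, c, c', z, this]
  · simp [ρ, c, mt h2.1 c, h1]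

def Wt (h : Fin 24) (b : Bool) : ℕ :=
  if h = 0 then (if b then 1 else 24) else if h = 3 then 25 else if h.val < 8 then 150 else 100

theorem st5 : ∀ h b, ∑ k, ((if ρ h b = ρ k true then 1 else 0) +
    24 • (if ρ h b = ρ k false then 1 else 0)) = Wt h b := by decide +kernel

theorem clG (g : G) : {k | IsConj g k}.ncard = Wt g.h (z g) := by
  rw [← st5, ← sumG fun k b => if ρ g.h (z g) = ρ k b then 1 else 0, ← card_filter,
    ← Set.ncard_coe_finset]
  congr 1
  ext k
  simp [conj_iff, -isConj_iff]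

end Pool.Agent.H32.Az
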