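import Pool.Agent.H32.AzB

set_option autoImplicit false

namespace Pool.Agent.H32.Az

open Finset

abbrev W := ℤ × ℤ
def wm (a b : W) : W := (a.1 * b.1 - a.2 * b.2, a.1 * b.2 + a.2 * b.1 - a.2 * b.2)
def wc (a : W) : W := (a.1 - a.2, -a.2)

noncomputable def ω : ℂ := Complex.exp (2 * Real.pi * Complex.I / (3 : ℕ))
theorem hprim : IsPrimitiveRoot ω 3 := Complex.isPrimitiveRoot_exp 3 (by norm_num)
theorem hω : 1 + ω + ω ^ 2 = 0 := by
  have := hprim.geom_sum_eq_zero (by norm_num)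
  simpa [Finset.sum_range_succ] using this
theorem nω : ‖ω‖ = 1 := Complex.norm_eq_one_of_pow_eq_one hprim.pow_eq_one (by norm_num)
theorem cω : (starRingEnd ℂ) ω = -1 - ω := by
  have h2 : (starRingEnd ℂ) ω * ω = 1 := by
    rw [Complex.conj_mul', nω]; simp
  linear_combination ω ^ 2 * h2 - (starRingEnd ℂ) ω * hprim.pow_eq_one + hω

noncomputable def ew : W →+ ℂ where
  toFun a := a.1 + a.2 * ω
  map_zero' := by simp
  map_add' a b := by simp only [Prod.fst_add, Prod.snd_add]; push_cast; ring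

theorem ew_apply (a : W) : ew a = a.1 + a.2 * ω := rfl
theorem ew_mul (a b : W) : ew (wm a b) = ew a * ew b := by
  simp only [ew_apply, wm]; push_cast; linear_combination (-(a.2 * b.2 : ℂ)) * hω
theorem ew_c (a : W) : (starRingEnd ℂ) (ew a) = ew (wc a) := by
  simp only [ew_apply, wc, map_add, map_mul, map_intCast, cω]; push_cast; ring
theorem ew_int (n : ℤ) : ew (n, 0) = n := by simp [ew_apply]
theorem ew_norm (a : W) : ‖ew a‖ ≤ ((a.1.natAbs + a.2.natAbs : ℕ) : ℝ) := by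
  rw [ew_apply]
  refine (norm_add_le _ _).trans (le_of_eq ?_)
  simp [nω]

def wp (k : ℕ) : W := if k % 3 = 0 then (1, 0) else if k % 3 = 1 then (0, 1) else (-1, -1)
def Bv (h : Fin 24) (e : ℕ) : ℤ := (((NB >>> (2 * (8 * h.val + e))) % 4 : ℕ) : ℤ) - 1
def B1 (k : ℕ) (h : Fin 24) (_ _ : Fin 1) : W := wp (k * (h.val / 8))
def B2 (k : ℕ) (h : Fin 24) (r c : Fin 2) : W :=
  wm (wp (k * (h.val / 8))) (Bv h (4 * r.val + 2 * c.val), Bv h (4 * r.val + 2 * c.val + 1))
def B3 (h : Fin 24) (r c : Fin 3) : W :=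
  ((((ND >>> (2 * (9 * h.val + 3 * r.val + c.val))) % 4 : ℕ) : ℤ) - 1, 0)

def T (i : Fin 8) (h : Fin 24) (b : Bool) : W :=
  if i.val < 3 then ∑ r, B1 i.val h r r else if i.val < 6 then ∑ r, B2 (i.val - 3) h r r
  else if i.val = 6 then ∑ r, B3 h r r else if h = 0 then (if b then (24, 0) else (-1, 0)) else 0

noncomputable def χ (i : Fin 8) (g : G) : ℂ := ew (T i g.h (z g))

theorem nmT : ∀ i, ∑ h, (wm (T i h true) (T i (ih h) true) +
    24 • wm (T i h false) (T i (ih h) false)) = (600, 0) := by decide +kernel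

theorem ihz : ∀ h, ih h = 0 → h = 0 := by decide +kernel

theorem nm (i : Fin 8) : ∑ g, χ i g * χ i g⁻¹ = Nat.card G := by
  have e : ∀ g : G, T i g⁻¹.h (z g⁻¹) = T i (ih g.h) (z g) := fun g => by
    obtain ⟨x, y, h⟩ := g
    by_cases c : h = 0
    · subst c; rw [z_inv0]; rfl
    · simp only [T, ihh, if_neg (mt (ihz h) c)]
  simp only [χ, ← ew_mul, e]
  rw [← map_sum, sumG fun h b => wm (T i h b) (T i (ih h) b), nmT, ew_int, cardG]
  norm_num

def Hom {n : ℕ} (B : Fin 24 → Fin n → Fin n → W) : Prop :=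
  (∀ r c, B 0 r c = if r = c then (1, 0) else 0) ∧
    ∀ a b r c, B (mh a b) r c = ∑ k, wm (B a r k) (B b k c)

theorem hrep {n : ℕ} (B : Fin 24 → Fin n → Fin n → W) (hB : Hom B) (i : Fin 8)
    (hT : ∀ h b, T i h b = ∑ r, B h r r) : χ i ∈ Irr G := by
  refine matrep (fun g r c => ew (B g.h r c)) ?_ (fun g k => ?_) _ (fun g => ?_) (nm i)
  · ext r c
    simp only [oh, hB.1, Matrix.one_apply]
    split_ifs <;> simp [ew_apply]
  · ext r c
    simp only [mhh, hB.2, map_sum, ew_mul, Matrix.mul_apply]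
  · rw [χ, hT, map_sum]

theorem h10 : Hom (B1 0) := by unfold Hom; decide +kernel
theorem h11 : Hom (B1 1) := by unfold Hom; decide +kernel
theorem h12 : Hom (B1 2) := by unfold Hom; decide +kernel
theorem h20 : Hom (B2 0) := by unfold Hom; decide +kernel
theorem h21 : Hom (B2 1) := by unfold Hom; decide +kernel
theorem h22 : Hom (B2 2) := by unfold Hom; decide +kernel
theorem h3 : Hom B3 := by unfold Hom; decide +kernel

abbrev P := ZMod 5 × ZMod 5
def act (g : G) (q : P) : P :=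
  (g.x + (A g.h 0 * q.1 + A g.h 1 * q.2), g.y + (A g.h 2 * q.1 + A g.h 3 * q.2))

theorem act_mul (g k : G) (q : P) : act (g * k) q = act g (act k q) := by
  obtain ⟨h0, h1, h2, h3⟩ := A_mul g.h k.h
  refine Prod.ext ?_ ?_ <;> simp only [act, mx, my, mhh, h0, h1, h2, h3] <;> ring

def F (g : G) (r q : P) : ℤ := (if act g q = r then 1 else 0) - (if act g 0 = r then 1 else 0)

def TR (x : ZMod 5) : Prop := ∀ y h, ∑ q : {q : P // q ≠ 0}, F ⟨x, y, h⟩ q.1 q.1 =
  if h = 0 then (if x = 0 ∧ y = 0 then 24 else -1) else 0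
theorem tr0 : TR 0 := by unfold TR; decide +kernel
theorem tr1 : TR 1 := by unfold TR; decide +kernel
theorem tr2 : TR 2 := by unfold TR; decide +kernel
theorem tr3 : TR 3 := by unfold TR; decide +kernel
theorem tr4 : TR 4 := by unfold TR; decide +kernel
theorem trA (x : ZMod 5) : TR x := by
  have h : ∀ t : ZMod 5, t = 0 ∨ t = 1 ∨ t = 2 ∨ t = 3 ∨ t = 4 := by decide
  rcases h x with rfl | rfl | rfl | rfl | rfl
  exacts [tr0, tr1, tr2, tr3, tr4]

theorem rep7 : χ 7 ∈ Irr G := by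
  refine matrep (X := {q : P // q ≠ 0}) (fun g r c => (F g r.1 c.1 : ℂ)) ?_ (fun g k => ?_) _
    (fun g => ?_) (nm 7)
  · ext r c
    have e : ∀ q, act 1 q = q := fun q => by simp [act, A0, A1, A2, A3]
    simp only [F, e, Matrix.one_apply, if_neg (Ne.symm r.2), Subtype.ext_iff, eq_comm (a := r.1)]
    split_ifs <;> simp
  · ext r c
    rw [Matrix.mul_apply, ← Finset.sum_subtype (univ.erase (0 : P)) (by simp)
      (fun q => (F g r.1 q : ℂ) * (F k q c.1 : ℂ)), Finset.sum_erase _ (by simp [F])]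
    have e : ∀ q, (F k q c.1 : ℂ) =
        (if act k c.1 = q then 1 else 0) - (if act k 0 = q then 1 else 0) := fun q => by
      simp [F]
    simp only [e, mul_sub, sum_sub_distrib, mul_ite, mul_one, mul_zero, sum_ite_eq, mem_univ,
      if_true]
    simp only [F, act_mul]
    push_cast
    ring
  · obtain ⟨x, y, h⟩ := g
    rw [← Int.cast_sum, trA x y h]
    simp only [χ, T, z]
    split_ifs <;> simp_all [ew_apply]

theorem irrχ (i : Fin 8) : χ i ∈ Irr G := by
  fin_cases i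
  exacts [hrep _ h10 _ fun _ _ => rfl, hrep _ h11 _ fun _ _ => rfl, hrep _ h12 _ fun _ _ => rfl,
    hrep _ h20 _ fun _ _ => rfl, hrep _ h21 _ fun _ _ => rfl, hrep _ h22 _ fun _ _ => rfl,
    hrep _ h3 _ fun _ _ => rfl, rep7]

def dg : Fin 8 → ℕ := ![1, 1, 1, 2, 2, 2, 3, 24]

theorem regT : ∀ h b, ∑ i, dg i • T i h b = if h = 0 ∧ b = true then (600, 0) else 0 := by
  decide +kernel
theorem T1 : ∀ i, T i 0 true = ((dg i : ℤ), 0) := by decide +kernel

theorem allχ : Irr G ⊆ Set.range χ := by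
  refine classify χ irrχ (fun i => dg i) 600 (by norm_num) fun g => ?_
  simp only [χ, ← nsmul_eq_mul, ← map_nsmul]
  rw [← map_sum, regT]
  have : (g.h = 0 ∧ z g = true) ↔ g = 1 := by simp [G.ext_iff, z, and_comm, and_assoc]
  simp only [this]
  split_ifs <;> simp [ew_apply]

def ST (i j : Fin 8) : W := ∑ h, (Wt h true • wm (T i h true) (wc (T j h true)) +
  24 • Wt h false • wm (T i h false) (wc (T j h false)))

theorem SG (i j : Fin 8) : S (χ i) (χ j) = ew (ST i j) := by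
  rw [S_eq (irrχ i) (irrχ j)]
  simp only [clG, χ, ew_c, ← ew_mul, ← nsmul_eq_mul, ← map_nsmul]
  rw [← map_sum, sumG fun h b => Wt h b • wm (T i h b) (wc (T j h b))]
  rfl

theorem tot : ∑ i, ∑ j, dg i * dg j * ((ST i j).1.natAbs + (ST i j).2.natAbs) = 3068856 := by
  decide +kernel

theorem upG : AMZA G ≤ 3068856 / 360000 := by
  refine (amza_le χ allχ).trans ?_
  have e : ∀ i, ‖χ i 1‖ = dg i := fun i => by
    change ‖ew (T i 0 true)‖ = _
    rw [T1, ew_int]; simp
  have : ∑ i, ∑ j, ‖χ i 1‖ * ‖χ j 1‖ * ‖S (χ i) (χ j)‖ ≤ ((3068856 : ℕ) : ℝ) := by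
    rw [← tot]
    push_cast
    refine sum_le_sum fun i _ => sum_le_sum fun j _ => ?_
    rw [e, e, SG]
    exact mul_le_mul_of_nonneg_left (by exact_mod_cast ew_norm _) (by positivity)
  rw [cardG]
  push_cast at this ⊢
  linarith

end Pool.Agent.H32.Az
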