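import Pool.Agent.H32.FvA

set_option autoImplicit false

namespace Pool.Agent.H32.Fv

open CategoryTheory

def Q1 (z : ℂ) : Prop := z.im = 0
def Q2 (z : ℂ) : Prop := ∃ a b : ℚ, z.re = a ∧ z.im = b

theorem adj1 (S : Set ℂ) : (∀ z ∈ IntermediateField.adjoin ℚ S, Q1 z) ↔ ∀ z ∈ S, Q1 z := by
  refine ⟨fun h z hz => h z (IntermediateField.subset_adjoin ℚ S hz), fun h z hz => ?_⟩
  induction hz using IntermediateField.adjoin_induction with
  | mem x hx => exact h x hx
  | algebraMap x => simp [Q1]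
  | add x y _ _ hx hy => simp only [Q1] at *; simp [hx, hy]
  | inv x _ hx => simp only [Q1] at *; simp [hx]
  | mul x y _ _ hx hy => simp only [Q1] at *; simp [hx, hy]

theorem adj2 (S : Set ℂ) : (∀ z ∈ IntermediateField.adjoin ℚ S, Q2 z) ↔ ∀ z ∈ S, Q2 z := by
  refine ⟨fun h z hz => h z (IntermediateField.subset_adjoin ℚ S hz), fun h z hz => ?_⟩
  induction hz using IntermediateField.adjoin_induction with
  | mem x hx => exact h x hx
  | algebraMap x => exact ⟨x, 0, by simp, by simp⟩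
  | add x y _ _ hx hy =>
    obtain ⟨a, b, h1, h2⟩ := hx
    obtain ⟨c, d, h3, h4⟩ := hy
    exact ⟨a + c, b + d, by simp [h1, h3], by simp [h2, h4]⟩
  | inv x _ hx =>
    obtain ⟨a, b, h1, h2⟩ := hx
    exact ⟨a / (a * a + b * b), -b / (a * a + b * b), by simp [Complex.normSq_apply, h1, h2],
      by simp [Complex.normSq_apply, h1, h2]⟩
  | mul x y _ _ hx hy =>
    obtain ⟨a, b, h1, h2⟩ := hx
    obtain ⟨c, d, h3, h4⟩ := hy
    exact ⟨a * c - b * d, a * d + b * c, by simp [h1, h2, h3, h4], by simp [h1, h2, h3, h4]⟩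

theorem ζ5 : ζ ^ 5 = 1 := hprim.pow_eq_one

theorem conjζ : (starRingEnd ℂ) ζ = ζ ^ 4 := by
  have h1 : ‖ζ‖ = 1 := Complex.norm_eq_one_of_pow_eq_one ζ5 (by norm_num)
  have h2 : (starRingEnd ℂ) ζ * ζ = 1 := by
    rw [Complex.conj_mul', h1]; simp
  linear_combination ζ ^ 4 * h2 - (starRingEnd ℂ) ζ * ζ5

theorem θim : (ζ ^ 2 + ζ ^ 3).im = 0 := by
  rw [← Complex.conj_eq_iff_im, map_add, map_pow, map_pow, conjζ]
  linear_combination (ζ ^ 3 + ζ ^ 2 * (ζ ^ 5 + 1)) * ζ5

theorem θirr (a : ℚ) : (ζ ^ 2 + ζ ^ 3).re ≠ a := by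
  intro h
  have h1 : ζ ^ 2 + ζ ^ 3 = ((a : ℝ) : ℂ) := Complex.ext (by simpa using h) (by simpa using θim)
  have h2 : (ζ ^ 2 + ζ ^ 3) ^ 2 + (ζ ^ 2 + ζ ^ 3) - 1 = 0 := by
    linear_combination hζ + (ζ + 2) * ζ5
  rw [h1] at h2
  have h3 : (a : ℝ) ^ 2 + a - 1 = 0 := by exact_mod_cast h2
  have h4 : Real.sqrt (5 : ℕ) = ((|2 * a + 1| : ℚ) : ℝ) := by
    rw [Real.sqrt_eq_iff_mul_self_eq (by positivity) (by positivity)]
    push_cast
    rw [abs_mul_abs_self]
    linear_combination -4 * h3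
  exact Nat.prime_five.irrational_sqrt ⟨_, h4.symm⟩

theorem vim : (1 + ζ + 2 * ζ ^ 2).im ≠ 0 := by
  intro h
  rw [← Complex.conj_eq_iff_im, map_add, map_add, map_mul, map_pow, conjζ, map_one,
    map_ofNat] at h
  have h1 : ζ + 2 * ζ ^ 2 - 2 * ζ ^ 3 - ζ ^ 4 = 0 := by
    linear_combination -h + 2 * ζ ^ 3 * ζ5
  have h2 : (ζ + 2 * ζ ^ 2 - 2 * ζ ^ 3 - ζ ^ 4) ^ 2 * (-2 * ζ + ζ ^ 2 - ζ ^ 3 + 2 * ζ ^ 4) ^ 2
      = 125 := by
    linear_combination ((-125) * ζ ^ 0 + (125) * ζ ^ 1 + (4) * ζ ^ 4 + (-117) * ζ ^ 5 +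
      (102) * ζ ^ 6 + (-19) * ζ ^ 7 + (35) * ζ ^ 8 + (-19) * ζ ^ 9 + (-23) * ζ ^ 10 +
      (8) * ζ ^ 11 + (4) * ζ ^ 12) * hζ
  rw [h1] at h2
  norm_num at h2

theorem char_one_ne (V : FDRep ℂ G) [Simple V] : V.character 1 ≠ 0 := by
  intro h
  have hn := (FDRep.simple_iff_char_is_norm_one V).1 inferInstance
  rw [FDRep.char_one] at h
  have h0 : Module.finrank ℂ V = 0 := by exact_mod_cast h
  have : Subsingleton V := Module.finrank_zero_iff.1 h0
  have hz : ∀ g, V.character g = 0 := fun g => by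
    rw [FDRep.character, Subsingleton.elim (V.ρ g) 0, map_zero]
  simp only [hz, mul_zero, Finset.sum_const_zero, cardG] at hn
  norm_num at hn

def S (a b d : Bool) : Subgroup G where
  carrier := {g | (if d then g.t = 0 else 2 * g.t = 0) ∧ (a → g.x = 0) ∧ (b → g.y = 0)}
  one_mem' := by simp
  mul_mem' := by
    rintro g h ⟨g1, g2, g3⟩ ⟨h1, h2, h3⟩
    refine ⟨?_, fun e => by simp [g2 e, h2 e], fun e => by simp [g3 e, h3 e]⟩
    cases d <;> simp only [mt, mul_add] at * <;> simp_all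
  inv_mem' := by
    rintro g ⟨g1, g2, g3⟩
    refine ⟨?_, fun e => by simp [g2 e], fun e => by simp [g3 e]⟩
    cases d <;> simp_all

theorem memS (a b d : Bool) (g : G) : g ∈ S a b d ↔
    (if d then g.t = 0 else 2 * g.t = 0) ∧ (a → g.x = 0) ∧ (b → g.y = 0) := Iff.rfl

instance (a b d : Bool) : DecidablePred (· ∈ S a b d) := fun g =>
  decidable_of_iff _ (memS a b d g).symm

theorem cardS (a b d : Bool) :
    Nat.card (S a b d) = (Finset.univ.filter fun g : G => g ∈ S a b d).card := by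
  rw [Nat.card_eq_fintype_card, Fintype.card_subtype]

theorem c1 : Nat.card (S false false false) = 250 := by rw [cardS]; decide +kernel
theorem c2 : Nat.card (S false false true) = 125 := by rw [cardS]; decide +kernel
theorem c3 : Nat.card (S true false true) = 25 := by rw [cardS]; decide +kernel
theorem c4 : Nat.card (S true true true) = 5 := by rw [cardS]; decide +kernel

theorem n1 : (S false false false).Normal := ⟨fun n hn g => by
  simp only [memS, mt, it] at *
  simp only [Bool.false_eq_true, if_false, false_imp_iff, and_true] at *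
  linear_combination hn⟩

theorem n2 (a b : Bool) : (S a b true).Normal := ⟨fun n hn g => by
  obtain ⟨h1, h2, h3⟩ := hn
  have h := p4 g.t
  simp only [if_true] at h1
  refine ⟨by simp [h1], fun e => ?_, fun e => ?_⟩
  · simp only [mx, mt, ix, h1, h2 e, add_zero]; linear_combination (-g.x) * h
  · simp only [my, mt, iy, h1, h3 e, add_zero]; linear_combination (-g.y) * h⟩

theorem step (A B : Subgroup G) (hAB : A ≤ B) (q : ℕ) (hq : q.Prime)
    (h : Nat.card B = Nat.card A * q) :
    A < B ∧ ∀ M : Subgroup G, M.Normal → A ≤ M → M ≤ B → M = A ∨ M = B := by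
  have hA : 0 < Nat.card A := Nat.card_pos
  refine ⟨lt_of_le_of_ne hAB fun e => ?_, fun M _ h1 h2 => ?_⟩
  · rw [e] at h hA
    have := hq.one_lt
    nlinarith
  · obtain ⟨m, hm⟩ := Subgroup.card_dvd_of_le h1
    have h3 := Subgroup.card_dvd_of_le h2
    rw [hm, h] at h3
    rcases (Nat.dvd_prime hq).1 (Nat.dvd_of_mul_dvd_mul_left hA h3) with e | e
    · exact Or.inl (Subgroup.eq_of_le_of_card_ge h1 (by rw [hm, e, mul_one])).symm
    · exact Or.inr (Subgroup.eq_of_le_of_card_ge h2 (by rw [hm, e, h]))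

def N : Fin 6 → Subgroup G :=
  ![⊤, S false false false, S false false true, S true false true, S true true true, ⊥]

theorem chief : IsChiefSeries (r := 5) N := by
  refine ⟨rfl, rfl, fun i => ?_, fun i => ?_⟩
  · fin_cases i
    exacts [inferInstanceAs (⊤ : Subgroup G).Normal, n1, n2 _ _, n2 _ _, n2 _ _,
      inferInstanceAs (⊥ : Subgroup G).Normal]
  · fin_cases i
    · exact step (S false false false) ⊤ le_top 2 Nat.prime_two
        (by rw [c1, Subgroup.card_top, cardG])
    · exact step (S false false true) (S false false false)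
        (fun g hg => by simp_all [memS]) 2 Nat.prime_two (by rw [c1, c2])
    · exact step (S true false true) (S false false true)
        (fun g hg => by simp_all [memS]) 5 Nat.prime_five (by rw [c2, c3])
    · exact step (S true true true) (S true false true)
        (fun g hg => by simp_all [memS]) 5 Nat.prime_five (by rw [c3, c4])
    · exact step ⊥ (S true true true) bot_le 5 Nat.prime_five (by rw [c4, Subgroup.card_bot])

end Pool.Agent.H32.Fv
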