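import Pool.Agent.H32.AzB
import Pool.Agent.H32.FvC

set_option autoImplicit false

namespace Pool.Agent.H32.Az

open Finset
open scoped commutatorElement

def κ (h : Fin 24) : ZMod 3 := ((h.val / 8 : ℕ) : ZMod 3)
theorem κ_mul : ∀ a b, κ (mh a b) = κ a + κ b := by decide +kernel
theorem κ_z : ∀ a, κ a = 0 ↔ a.val < 8 := by decide +kernel
theorem qc : ∀ q : Fin 24, q.val < 8 → ∃ a b, mh (mh (mh a b) (ih a)) (ih b) = q := by
  decide +kernel
theorem vc : ∀ x y : ZMod 5, ⁅(⟨3 * x, 3 * y, 0⟩ : G), (⟨0, 0, 3⟩ : G)⁆ = ⟨x, y, 0⟩ := by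
  decide +kernel

abbrev N : Subgroup G := commutator G

theorem memN (g : G) : g ∈ N ↔ g.h.val < 8 := by
  constructor
  · intro hg
    let f : G →* Multiplicative (ZMod 3) := MonoidHom.mk' (fun g => Multiplicative.ofAdd (κ g.h))
      fun a b => by simp only [mhh, κ_mul, ofAdd_add]
    exact (κ_z _).1 (Abelianization.commutator_subset_ker f hg)
  · intro hg
    obtain ⟨a, b, e⟩ := qc _ hg
    have h1 : g = ⁅(⟨3 * g.x, 3 * g.y, 0⟩ : G), (⟨0, 0, 3⟩ : G)⁆ *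
        ⁅(⟨0, 0, a⟩ : G), (⟨0, 0, b⟩ : G)⁆ := by
      rw [vc, commutatorElement_def]
      ext1 <;> simp [e, mh_one]
    rw [h1]
    exact mul_mem (Subgroup.commutator_mem_commutator trivial trivial)
      (Subgroup.commutator_mem_commutator trivial trivial)

noncomputable instance : Fintype N := Fintype.ofFinite _

theorem cardN : Nat.card N = 200 := by
  rw [Nat.card_congr (Equiv.subtypeEquivRight memN), Nat.card_eq_fintype_card,
    Fintype.card_subtype, card_filter, sumG fun h _ => if h.val < 8 then 1 else 0]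
  decide +kernel

theorem sumN (f : G → ℂ) (hf : ∀ g, g.h ≠ 0 → f g = 0) :
    ∑ g : N, f g = ∑ x, ∑ y, f ⟨x, y, 0⟩ := by
  classical
  rw [← Finset.sum_subtype (univ.filter fun g : G => g ∈ N) (by simp) f, sum_filter_of_ne,
    ← eqv.sum_comp, Fintype.sum_prod_type, sum_eq_single 0, Fintype.sum_prod_type]
  · rfl
  · exact fun b _ hb => sum_eq_zero fun q _ => hf _ hb
  · simp
  · intro g _ hg
    rw [memN, by_contra fun c => hg (hf g c)]
    decide

abbrev X := {q : Fin 24 // q.val < 8}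
theorem q_mul : ∀ a b : Fin 24, a.val < 8 → b.val < 8 → (mh a b).val < 8 := by decide +kernel
theorem q_fix : ∀ a b : Fin 24, mh a b = b ↔ a = 0 := by decide +kernel
theorem q_inv : ∀ a t, mh (ih (mh a t)) a = ih t := by decide +kernel
theorem ihz' : ∀ h, ih h = 0 ↔ h = 0 := by decide +kernel

def l1 (j : Fin 3) : ZMod 5 := ![0, 1, 1] j
def l2 (j : Fin 3) : ZMod 5 := ![1, 1, 2] j
def lam (j : Fin 3) (s : Fin 24) (x y : ZMod 5) : ZMod 5 :=
  l1 j * (A s 0 * x + A s 1 * y) + l2 j * (A s 2 * x + A s 3 * y)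
def PP (j : Fin 3) (x y : ZMod 5) : Fv.R := ∑ q : X, Fv.e (lam j (ih q.1) x y) 0

noncomputable def φ (j : Fin 3) (g : G) : ℂ := if g.h = 0 then Fv.ev (PP j g.x g.y) else 0
noncomputable def ψ (j : Fin 3) (g : N) : ℂ := φ j g.1

theorem nmP : ∀ j, ∑ x, ∑ y, Fv.mul (PP j x y) (PP j (-x) (-y)) = Fv.cst 200 := by
  decide +kernel

theorem irrψ (j : Fin 3) : ψ j ∈ Irr N := by
  let a : N → X → X := fun g q => ⟨mh g.1.h q.1, q_mul _ _ ((memN _).1 g.2) q.2⟩
  let c : N → X → ZMod 5 := fun g q => lam j (ih (mh g.1.h q.1)) g.1.x g.1.y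
  have hm : ∀ g h q, a (g * h) q = a g (a h q) := fun g h q => Subtype.ext (mh_assoc _ _ _)
  have hc : ∀ g h q, c (g * h) q = c g (a h q) + c h q := fun g h q => by
    obtain ⟨h0, h1, h2, h3⟩ := A_mul (ih (mh g.1.h (mh h.1.h q.1))) g.1.h
    rw [q_inv] at h0 h1 h2 h3
    simp only [c, a, lam, Subgroup.coe_mul, mx, my, mhh, mh_assoc, h0, h1, h2, h3]
    ring
  refine matrep (fun g r q => if a g q = r then Fv.ev (Fv.e (c g q) 0) else 0) ?_
    (fun g h => ?_) _ (fun g => ?_) ?_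
  · ext r q
    have e1 : a 1 q = q := Subtype.ext (mh_one _).1
    have e2 : c 1 q = 0 := by simp [c, lam]
    simp only [e1, e2, Fv.e_zero, Matrix.one_apply, eq_comm]
  · ext r q
    rw [Matrix.mul_apply, Finset.sum_eq_single (a h q)]
    · have := Fv.e_add (c g (a h q)) (c h q) 0 0
      rw [add_zero] at this
      simp only [hm, hc, this, Fv.ev_mul, if_true]
      split_ifs <;> simp
    · intro b _ hb
      simp only [if_neg (Ne.symm hb), mul_zero]
    · simp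
  · simp only [ψ, φ, a, Subtype.ext_iff, q_fix]
    split_ifs with e
    · simp only [PP, map_sum, c, e, (mh_one _).1]
    · simp
  · rw [cardN]
    refine (sumN (fun g => φ j g * φ j g⁻¹) fun g hg => by simp [φ, hg]).trans ?_
    simp only [φ, ihh, ix, iy, ih0, A0, A1, A2, A3, if_true, one_mul, zero_mul, add_zero,
      zero_add, ← Fv.ev_mul, ← map_sum, nmP, Fv.ev_cst]
    norm_num

def cR (a : Fv.R) : Fv.R :=
  ((a.1.1 - a.1.2.1, -a.1.2.1, a.1.2.2.2 - a.1.2.1, a.1.2.2.1 - a.1.2.1),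
    -(a.2.1 - a.2.2.1, -a.2.2.1, a.2.2.2.2 - a.2.2.1, a.2.2.2.1 - a.2.2.1))

theorem ev_c (a : Fv.R) : (starRingEnd ℂ) (Fv.ev a) = Fv.ev (cR a) := by
  obtain ⟨⟨a0, a1, a2, a3⟩, ⟨b0, b1, b2, b3⟩⟩ := a
  simp only [Fv.ev_apply, Fv.ev4, cR, map_add, map_mul, map_pow, map_intCast, Fv.conjζ,
    Complex.conj_I, Prod.fst_neg, Prod.snd_neg]
  push_cast
  linear_combination (a1 - b1 * Complex.I : ℂ) * Fv.hζ +
    ((a2 - b2 * Complex.I) * Fv.ζ ^ 3 +
      (a3 - b3 * Complex.I) * Fv.ζ ^ 2 * (Fv.ζ ^ 5 + 1)) * Fv.ζ5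

def wN (x y : ZMod 5) : ℕ := if x = 0 ∧ y = 0 then 1 else 8
theorem imN : ∀ x y : ZMod 5, (univ.image fun q : X =>
    (⟨A q.1 0 * x + A q.1 1 * y, A q.1 2 * x + A q.1 3 * y, 0⟩ : G)).card = wN x y := by
  decide +kernel

theorem cjv (s : G) (x y : ZMod 5) : s * ⟨x, y, 0⟩ * s⁻¹ =
    ⟨A s.h 0 * x + A s.h 1 * y, A s.h 2 * x + A s.h 3 * y, 0⟩ := by
  rw [mul_inv_eq_iff_eq_mul]
  ext1 <;> simp [A0, A1, A2, A3, mh_one, add_comm]

theorem clN (g : N) (hg : g.1.h = 0) : {k | IsConj g k}.ncard = wN g.1.x g.1.y := by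
  obtain ⟨⟨x, y, h⟩, hm⟩ := g
  obtain rfl : h = 0 := hg
  rw [← imN, ← Set.ncard_coe_finset, ← Set.ncard_image_of_injective _ Subtype.val_injective]
  congr 1
  ext k
  simp only [Set.mem_image, Set.mem_ofPred_eq, isConj_iff, coe_image, coe_univ, Set.image_univ,
    Set.mem_range]
  constructor
  · rintro ⟨_, ⟨s, rfl⟩, rfl⟩
    exact ⟨⟨s.1.h, (memN _).1 s.2⟩, (cjv s.1 x y).symm⟩
  · rintro ⟨q, rfl⟩
    exact ⟨_, ⟨⟨⟨0, 0, q.1⟩, (memN _).2 q.2⟩, rfl⟩, cjv ⟨0, 0, q.1⟩ x y⟩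

theorem SP : ∀ i j, ∑ x, ∑ y, wN x y • Fv.mul (PP i x y) (cR (PP j x y)) =
    Fv.cst (if i = j then 1152 else -448) := by decide +kernel

theorem SN (i j : Fin 3) : S (ψ i) (ψ j) = ((if i = j then 1152 else -448 : ℤ) : ℂ) := by
  rw [S_eq (irrψ i) (irrψ j), ← Fv.ev_cst, ← SP]
  refine (sum_congr rfl fun g _ => ?_).trans ((sumN (fun g => wN g.x g.y *
    (φ i g * (starRingEnd ℂ) (φ j g))) fun g hg => by simp [φ, hg]).trans ?_)
  · by_cases c : g.1.h = 0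
    · rw [clN g c]; rfl
    · simp [ψ, φ, c]
  · simp only [φ, if_true, ev_c, ← Fv.ev_mul, ← nsmul_eq_mul, ← map_nsmul, ← map_sum]

theorem P0 : ∀ j, PP j 0 0 = Fv.cst 8 := by decide +kernel

theorem lowN : 393216 / 40000 ≤ AMZA N := by
  have hi : Function.Injective ψ := fun i j e => by
    by_contra c
    have h1 := SN i j
    rw [← e, SN, if_pos rfl, if_neg c] at h1
    norm_num at h1
  refine le_trans (le_of_eq ?_) (le_amza ψ irrψ hi)
  have e : ∀ j, ‖ψ j 1‖ = 8 := fun j => by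
    change ‖if (0 : Fin 24) = 0 then Fv.ev (PP j 0 0) else 0‖ = _
    rw [if_pos rfl, P0, Fv.ev_cst]; simp
  simp only [e, SN, cardN, Complex.norm_intCast, Fin.sum_univ_three]
  simp
  norm_num

end Pool.Agent.H32.Az
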