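import Mathlib

set_option autoImplicit false

namespace Pool.Agent.H32.Az

/-- The complex irreducible characters of `G`. -/
def Irr (G : Type) [Group G] : Set (G → ℂ) :=
  {χ | ∃ V : FDRep ℂ G, CategoryTheory.Simple V ∧ V.character = χ}

/-- `∑_C |C|^2 χ(C) conj(χ'(C))`, the sum over the conjugacy classes. -/
noncomputable def S {G : Type} [Group G] (χ χ' : G → ℂ) : ℂ :=
  ∑ᶠ C : ConjClasses G, ((C.carrier.ncard : ℂ)) ^ 2 * χ (Quotient.out C) *
    (starRingEnd ℂ) (χ' (Quotient.out C))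

/-- The Alaghmandan-Spronk formula for the amenability constant of `ZA(G)`. -/
noncomputable def AMZA (G : Type) [Group G] : ℝ :=
  (1 / (Nat.card G : ℝ) ^ 2) * ∑ᶠ χ ∈ Irr G, ∑ᶠ χ' ∈ Irr G, ‖χ 1‖ * ‖χ' 1‖ * ‖S χ χ'‖

end Pool.Agent.H32.Az
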