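import Pool.Agent.H32.BaDefs

set_option autoImplicit false

namespace Pool.Agent.H32.Ba

open Relation

variable {p : ℕ} (G : GT p)

theorem GT.ind {P : G.V → Prop} (h : ∀ x, (∀ y, G.E x y → P y) → P x) (x : G.V) : P x := by
  haveI := G.fin
  haveI : Std.Irrefl (fun a b => TransGen G.E b a) := ⟨G.acyc⟩
  haveI : IsTrans G.V (fun a b => TransGen G.E b a) := ⟨fun _ _ _ h1 h2 => h2.trans h1⟩
  have w := Finite.wellFounded_of_trans_of_irrefl (fun a b => TransGen G.E b a)
  induction x using w.induction with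
  | _ x ih => exact h x fun y hy => ih y (TransGen.single hy)

theorem rmono {α : Type} {r s : α → α → Prop} (h : ∀ a b, r a b → s a b) {a b : α}
    (t : ReflTransGen r a b) : ReflTransGen s a b := by
  induction t with
  | refl => exact .refl
  | tail _ h2 ih => exact ih.tail (h _ _ h2)

/-- Every inner node keeps a move. -/
def GT.Inv (A : G.V → G.V → Prop) : Prop :=
  (∀ x y, A x y → G.E x y) ∧ ∀ x, ¬ G.leaf x → ∃ y, A x y

variable {G}

theorem GT.Inv.ex {A : G.V → G.V → Prop} (h : G.Inv A) (y : G.V) :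
    ∃ u, G.leaf u ∧ ReflTransGen A y u := by
  induction y using G.ind with
  | h x ih =>
    by_cases hx : G.leaf x
    · exact ⟨x, hx, .refl⟩
    · obtain ⟨y, hy⟩ := h.2 x hx
      obtain ⟨u, hu, hr⟩ := ih y (h.1 _ _ hy)
      exact ⟨u, hu, .head hy hr⟩

theorem GT.Inv.irr {A : G.V → G.V → Prop} (h : G.Inv A) (i : Fin (p + 1)) (y : G.V) :
    ¬ G.Dom A i y y := fun d => by
  obtain ⟨u, hu, hr⟩ := h.ex y
  exact (d u u hu hu hr hr).2 (d u u hu hu hr hr).1

theorem GT.Inv.tr {A : G.V → G.V → Prop} (h : G.Inv A) {i : Fin (p + 1)} {x y z : G.V}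
    (h1 : G.Dom A i x y) (h2 : G.Dom A i y z) : G.Dom A i x z := fun u w hu hw ru rw => by
  obtain ⟨v, hv, rv⟩ := h.ex y
  obtain ⟨a1, a2⟩ := h1 u v hu hv ru rv
  obtain ⟨b1, b2⟩ := h2 v w hv hw rv rw
  exact ⟨G.trans i _ _ _ hu hv hw a1 b1, fun c => a2 (G.trans i _ _ _ hv hw hu b1 c)⟩

theorem GT.Inv.max {A : G.V → G.V → Prop} (h : G.Inv A) (i : Fin (p + 1)) (s : Set G.V)
    (hs : s.Nonempty) : ∃ y ∈ s, ∀ z ∈ s, ¬ G.Dom A i y z := by
  haveI := G.fin
  haveI : Std.Irrefl (fun a b => G.Dom A i b a) := ⟨h.irr i⟩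
  haveI : IsTrans G.V (fun a b => G.Dom A i b a) := ⟨fun _ _ _ h1 h2 => h.tr h2 h1⟩
  exact (Finite.wellFounded_of_trans_of_irrefl (fun a b => G.Dom A i b a)).has_min s hs

theorem GT.Inv.step {A : G.V → G.V → Prop} (h : G.Inv A) : G.Inv (G.step A) := by
  refine ⟨fun x y hxy => h.1 x y hxy.1, fun x hx => ?_⟩
  obtain ⟨y, hy, hm⟩ := h.max (G.turn x) {y | A x y} (h.2 x hx)
  exact ⟨y, hy, fun ⟨z, _, hz, d⟩ => hm z hz d⟩

theorem inv_it (n : ℕ) : G.Inv (G.step^[n] G.E) := by
  induction n with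
  | zero => exact ⟨fun _ _ h => h, fun x hx => by simpa [GT.leaf] using hx⟩
  | succ n ih => rw [Function.iterate_succ_apply']; exact ih.step

theorem it_anti {n m : ℕ} (h : n ≤ m) (x y : G.V) (hm : (G.step^[m] G.E) x y) :
    (G.step^[n] G.E) x y := by
  induction h with
  | refl => exact hm
  | step _ ih => rw [Function.iterate_succ_apply'] at hm; exact ih hm.1

theorem stab : ∃ n, G.step^[n] G.E = G.best ∧ G.step^[n + 1] G.E = G.best := by
  haveI := G.fin
  let f : ℕ → Set (G.V × G.V) := fun n => {q | (G.step^[n] G.E) q.1 q.2}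
  obtain ⟨_, ⟨n, rfl⟩, hn⟩ := (wellFounded_lt (α := ℕ)).has_min (Set.range fun n => (f n).ncard)
    ⟨_, 0, rfl⟩
  have e : ∀ m, n ≤ m → f m = f n := fun m hm =>
    Set.eq_of_subset_of_ncard_le (fun q hq => it_anti hm _ _ hq) (not_lt.1 (hn _ ⟨m, rfl⟩))
  have k : ∀ m, n ≤ m → G.step^[m] G.E = G.best := fun m hm => by
    funext x y
    refine propext ⟨fun h j => ?_, fun h => h m⟩
    rcases le_total j m with hj | hj
    · exact it_anti hj _ _ h
    · have : (x, y) ∈ f m := h
      rw [e m hm, ← e j (hm.trans hj)] at this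
      exact this
  exact ⟨n, k n le_rfl, k (n + 1) (Nat.le_succ n)⟩

theorem inv_best : G.Inv G.best := by
  obtain ⟨n, h, -⟩ := stab (G := G)
  exact h ▸ inv_it n

/-- The fixed point equation of backward induction. -/
def GT.Fix (G : GT p) (F : G.V → G.V → Prop) : Prop :=
  ∀ x y, F x y ↔ G.E x y ∧ ¬ ∃ z, G.E x z ∧ G.Dom F (G.turn x) y z

theorem passive {x y : G.V} (he : G.E x y) (hb : ¬ G.best x y) :
    ∃ z, G.E x z ∧ G.Dom G.best (G.turn x) y z := by
  have : ∀ n, ¬ (G.step^[n] G.E) x y → ∃ z, G.E x z ∧ G.Dom G.best (G.turn x) y z := by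
    intro n
    induction n with
    | zero => exact fun h => absurd he h
    | succ n ih =>
      intro h
      by_cases h' : (G.step^[n] G.E) x y
      · rw [Function.iterate_succ_apply'] at h
        obtain ⟨z, -, hz, d⟩ := not_not.1 (fun c => h ⟨h', c⟩)
        exact ⟨z, (inv_it n).1 _ _ hz, fun u v hu hv ru rv =>
          d u v hu hv (rmono (fun _ _ t => t n) ru) (rmono (fun _ _ t => t n) rv)⟩
      · exact ih h'
  obtain ⟨n, hn⟩ := not_forall.1 hb
  exact this n hn

theorem passive' {x y : G.V} (h : ∃ z, G.E x z ∧ G.Dom G.best (G.turn x) y z) :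
    ∃ z, G.best x z ∧ G.Dom G.best (G.turn x) y z := by
  obtain ⟨z, ⟨hz, d⟩, hm⟩ := inv_best.max (G.turn x)
    {z | G.E x z ∧ G.Dom G.best (G.turn x) y z} h
  refine ⟨z, by_contra fun c => ?_, d⟩
  obtain ⟨w, hw, d'⟩ := passive hz c
  exact hm w ⟨hw, inv_best.tr d d'⟩ d'

theorem fix_best : G.Fix G.best := by
  intro x y
  refine ⟨fun h => ⟨inv_best.1 _ _ h, fun c => ?_⟩, fun ⟨h1, h2⟩ =>
    by_contra fun c => h2 (passive h1 c)⟩
  obtain ⟨z, hz, d⟩ := passive' c
  obtain ⟨n, e1, e2⟩ := stab (G := G)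
  rw [Function.iterate_succ_apply', e1] at e2
  have h' : G.step G.best x y := by rw [e2]; exact h
  exact h'.2 ⟨z, fun e => inv_best.irr _ y (by rw [e] at d; exact d), hz, d⟩

theorem rtg_of {F F' : G.V → G.V → Prop} (hF : ∀ x y, F x y → G.E x y) {y u : G.V}
    (h : ∀ w, ReflTransGen G.E y w → ∀ t, F w t → F' w t) (r : ReflTransGen F y u) :
    ReflTransGen F' y u := by
  induction r with
  | refl => exact .refl
  | tail r1 r2 ih => exact ih.tail (h _ (rmono hF r1) _ r2)

theorem fix_uniq {F F' : G.V → G.V → Prop} (h : G.Fix F) (h' : G.Fix F') : F = F' := by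
  have key : ∀ x w, ReflTransGen G.E x w → ∀ t, F w t ↔ F' w t := by
    intro x
    induction x using G.ind with
    | h x ih =>
      intro w hw t
      rcases hw.cases_head with rfl | ⟨y, hy, hw⟩
      · have r : ∀ y u, G.E x y → (ReflTransGen F y u ↔ ReflTransGen F' y u) := fun y u hy =>
          ⟨rtg_of (fun a b c => ((h a b).1 c).1) fun w hw t => (ih y hy w hw t).1,
            rtg_of (fun a b c => ((h' a b).1 c).1) fun w hw t => (ih y hy w hw t).2⟩
        rw [h, h']
        refine and_congr_right fun ht => not_congr (exists_congr fun z =>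
          and_congr_right fun hz => ?_)
        simp only [GT.Dom, r t _ ht, r z _ hz]
      · exact ih y hy w hw t
  funext x y
  exact propext (key x x .refl y)

theorem lt_pair {a : ℕ} (h : 0 < a) (b : ℕ) : b < Nat.pair a b := by
  unfold Nat.pair
  split_ifs <;> nlinarith

theorem Md.code_inj {a b : Md p} (h : a.code = b.code) : a = b := by
  cases a <;> cases b <;> simp [Md.code, Fin.val_inj] at h ⊢ <;> exact h

theorem Fm.code_inj {a b : Fm p} (h : a.code = b.code) : a = b := by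
  induction a generalizing b with
  | imp a1 a2 ih1 ih2 =>
    cases b <;> simp [Fm.code] at h
    rw [ih1 h.1, ih2 h.2]
  | dia m a ih =>
    cases b <;> simp [Fm.code] at h
    rw [Md.code_inj h.1, ih h.2]
  | _ => cases b <;> simp [Fm.code, Fin.val_inj] at h ⊢ <;> exact h

end Pool.Agent.H32.Ba
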