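import Pool.Agent.H32.Ba1
import Pool.Agent.H37.CI

set_option autoImplicit false

namespace Pool.Agent.H32.Ba

open Pool.Agent.H37

def bt (x i : ℕ) : Prop := x / 2 ^ i % 2 = 1

theorem bt_iff (x i : ℕ) : bt x i ↔ x.testBit i = true := by
  rw [Nat.testBit_eq_decide_div_mod_eq]; simp [bt]

theorem ex_bits (N : ℕ) (P : ℕ → Prop) : ∃ x < 2 ^ N, ∀ i < N, (bt x i ↔ P i) := by
  classical
  refine ⟨Nat.ofBits fun i : Fin N => decide (P i), Nat.ofBits_lt_two_pow _, fun i hi => ?_⟩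
  rw [bt_iff, Nat.testBit_ofBits_lt _ _ hi]; simp

def tr (t m : ℕ) : Prop := bt t (Nat.pair 0 m)
def lv (t i a : ℕ) : Prop := bt t (Nat.pair 1 (Nat.pair i a))
def oc (t i a m : ℕ) : Prop := bt t (Nat.pair 2 (Nat.pair i (Nat.pair a m)))
def tn (t i : ℕ) : Prop := bt t (Nat.pair 3 i)
def lf (t : ℕ) : Prop := bt t (Nat.pair 4 0)
def bad (t : ℕ) : Prop := bt t (Nat.pair 5 0)
def ch (C s b : ℕ) : Prop := bt C (2 * s + b)
def LL (n : ℕ) : ℕ := 2 * n + 4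
def NN (p n : ℕ) : ℕ := Nat.pair 5 (Nat.pair p (Nat.pair (LL n) n)) + 1
def MM (p n : ℕ) : ℕ := 2 ^ NN p n

def LocD (M L g C t m k i w : ℕ) : Prop :=
  (k = 0 → (tr t m ↔ ∃ s < M, ∃ b < 2, ch C s b ∧ tr s w)) ∧
  (k = 1 → (tr t m ↔ tn t i ∧ ∃ s < M, ∃ b < 2, ch C s b ∧ tr s w)) ∧
  (k = 2 → (tr t m ↔ ∃ s < M, ∃ b < 2, ch C s b ∧ (tr s w ∨ tr s m))) ∧
  (k = 3 → (tr t m ↔ lf t ∧ ∃ a < L, ∃ a' < L, lv t i a ∧ a ≤ a' ∧ oc g i a' w)) ∧
  (k = 4 → (tr t m ↔ ∃ s < M, ch C s 1 ∧ tr s w)) ∧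
  (k = 5 → (tr t m ↔ tr t w ∨ ∃ s < M, ch C s 1 ∧ tr s m))

def Loc (M L g C t m : ℕ) : Prop :=
  (m.unpair.1 = 1 → ¬ tr t m) ∧
  (m.unpair.1 = 2 → (tr t m ↔ (tr t m.unpair.2.unpair.1 → tr t m.unpair.2.unpair.2))) ∧
  (m.unpair.1 = 3 → (tr t m ↔ lf t)) ∧ (m.unpair.1 = 4 → (tr t m ↔ tn t m.unpair.2)) ∧
  (m.unpair.1 = 5 → LocD M L g C t m m.unpair.2.unpair.1.unpair.1 m.unpair.2.unpair.1.unpair.2
    m.unpair.2.unpair.2)

def RLeaf (p n L t : ℕ) : Prop :=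
  (∀ i < p + 1, ¬ tn t i ∧ ∃ a < L, ∀ a' < L, (lv t i a' ↔ a' = a)) ∧
  ∀ i < p + 1, ∀ a < L, ∀ m < n + 1, (oc t i a m ↔ lv t i a ∧ tr t m)

def RDom (M L C i : ℕ) : Prop :=
  (∀ y < M, ch C y 1 → ∀ z < M, ∀ b < 2, ch C z b →
    ∃ a < L, ∃ a' < L, lv y i a ∧ lv z i a' ∧ a' ≤ a) ∧
  ∀ y < M, ch C y 0 → ∃ z < M, ch C z 1 ∧
    ∀ a < L, ∀ a' < L, lv y i a → lv z i a' → a < a' ∨ (a = a' ∧ a % 2 = 0)

def RNode (p n M L C t : ℕ) : Prop :=
  (∃ i < p + 1, (∀ j < p + 1, (tn t j ↔ j = i)) ∧ RDom M L C i) ∧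
  (∀ i < p + 1, ∀ a < L, (lv t i a ↔ ∃ s < M, ch C s 1 ∧ lv s i a)) ∧
  ∀ i < p + 1, ∀ a < L, ∀ m < n + 1, (oc t i a m ↔ ∃ s < M, ∃ b < 2, ch C s b ∧ oc s i a m)

def Rule (p n M L g c C t : ℕ) : Prop :=
  (∀ m < n + 1, bt c m → Loc M L g C t m) ∧ (lf t ↔ ∀ s < M, ∀ b < 2, ¬ ch C s b) ∧
  (bad t ↔ ¬ tr t n ∨ ∃ s < M, ∃ b < 2, ch C s b ∧ bad s) ∧
  (lf t → RLeaf p n L t) ∧ (¬ lf t → RNode p n M L C t)

def Top (p n L g : ℕ) : Prop := ∀ i < p + 1, ∀ a < L, ∀ m < n + 1, oc g i a m →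
  ∃ a' < L, a ≤ a' ∧ a' % 2 = 1 ∧ oc g i a' m

def Wf1 (p c m : ℕ) : Prop :=
  m.unpair.1 = 0 ∨ (m.unpair.1 = 1 ∧ m.unpair.2 = 0) ∨
  (m.unpair.1 = 2 ∧ m.unpair.2.unpair.1 < m ∧ m.unpair.2.unpair.2 < m ∧
    bt c m.unpair.2.unpair.1 ∧ bt c m.unpair.2.unpair.2) ∨
  (m.unpair.1 = 3 ∧ m.unpair.2 = 0) ∨ (m.unpair.1 = 4 ∧ m.unpair.2 < p + 1) ∨
  (m.unpair.1 = 5 ∧ m.unpair.2.unpair.2 < m ∧ bt c m.unpair.2.unpair.2 ∧
    m.unpair.2.unpair.1.unpair.1 < 6 ∧ m.unpair.2.unpair.1.unpair.2 < p + 1 ∧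
    (m.unpair.2.unpair.1.unpair.2 = 0 ∨ m.unpair.2.unpair.1.unpair.1 = 1 ∨
      m.unpair.2.unpair.1.unpair.1 = 3))

def Wf (p n c : ℕ) : Prop := ∀ m < n + 1, bt c m → Wf1 p c m

def Clo (p n M L g c S : ℕ) : Prop := ∀ C < 2 ^ (2 * M), ∀ s < M,
  (∀ y < M, ∀ b < 2, ch C y b → bt S y) → Rule p n M L g c C s → bt S s

def Real (p n M L g c : ℕ) : Prop := ∀ S < 2 ^ M, Clo p n M L g c S → bt S g

def IsC (p n : ℕ) : Prop := ∃ c < 2 ^ (n + 1), Wf p n c ∧ bt c n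

def NV (p n : ℕ) : Prop := ∃ c < 2 ^ (n + 1), Wf p n c ∧ bt c n ∧
  ∃ g < MM p n, bad g ∧ Top p n (LL n) g ∧ Real p n (MM p n) (LL n) g c

/-- Decidable predicates. -/
def DP {α : Type} [Primcodable α] (P : α → Prop) : Prop :=
  ∃ f : α → Bool, CI ∅ f ∧ ∀ a, (f a = true ↔ P a)

section
variable {α : Type} [Primcodable α] {P Q : α → Prop} {f g : α → ℕ}

theorem DP.and (h : DP P) (h' : DP Q) : DP fun a => P a ∧ Q a := by
  obtain ⟨f, f1, f2⟩ := h; obtain ⟨g, g1, g2⟩ := h'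
  exact ⟨_, f1.and g1, fun a => by simp [f2, g2]⟩
theorem DP.or (h : DP P) (h' : DP Q) : DP fun a => P a ∨ Q a := by
  obtain ⟨f, f1, f2⟩ := h; obtain ⟨g, g1, g2⟩ := h'
  exact ⟨_, f1.or g1, fun a => by simp [f2, g2]⟩
theorem DP.not (h : DP P) : DP fun a => ¬ P a := by
  obtain ⟨f, f1, f2⟩ := h
  exact ⟨_, f1.not, fun a => by simp [← f2]⟩
theorem DP.of (h : DP P) (e : ∀ a, P a ↔ Q a) : DP Q := by
  obtain ⟨f, f1, f2⟩ := h
  exact ⟨f, f1, fun a => (f2 a).trans (e a)⟩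
theorem DP.imp (h : DP P) (h' : DP Q) : DP fun a => P a → Q a :=
  (h.not.or h').of fun a => by tauto
theorem DP.iff (h : DP P) (h' : DP Q) : DP fun a => P a ↔ Q a :=
  ((h.imp h').and (h'.imp h)).of fun a => by tauto
theorem DP.eq (hf : CI ∅ f) (hg : CI ∅ g) : DP fun a => f a = g a :=
  ⟨_, CI.eq hf hg, fun a => by simp⟩
theorem DP.lt (hf : CI ∅ f) (hg : CI ∅ g) : DP fun a => f a < g a :=
  ⟨_, CI.lt hf hg, fun a => by simp⟩
theorem DP.le (hf : CI ∅ f) (hg : CI ∅ g) : DP fun a => f a ≤ g a :=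
  ⟨_, CI.le hf hg, fun a => by simp⟩
theorem DP.bt (hf : CI ∅ f) (hg : CI ∅ g) : DP fun a => bt (f a) (g a) :=
  DP.eq (f := fun a => f a / 2 ^ g a % 2) (g := fun _ => 1) (by fun_prop) (by fun_prop)
theorem DP.ball {R : α → ℕ → Prop} (hf : CI ∅ f) (h : DP fun q : α × ℕ => R q.1 q.2) :
    DP fun a => ∀ i < f a, R a i := by
  obtain ⟨g, g1, g2⟩ := h
  refine ⟨fun a => (List.range (f a)).all fun i => g (a, i), by fun_prop, fun a => ?_⟩
  simp [g2]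
theorem DP.bex {R : α → ℕ → Prop} (hf : CI ∅ f) (h : DP fun q : α × ℕ => R q.1 q.2) :
    DP fun a => ∃ i < f a, R a i := by
  obtain ⟨g, g1, g2⟩ := h
  refine ⟨fun a => (List.range (f a)).any fun i => g (a, i), by fun_prop, fun a => ?_⟩
  simp [g2]
theorem DP.cp (h : DP P) : ComputablePred P := by
  obtain ⟨f, f1, f2⟩ := h
  exact ComputablePred.computable_iff.2 ⟨f, f1.computable, funext fun a => propext (f2 a).symm⟩

variable {M L C t m k i w c n S : α → ℕ} {p : ℕ}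

theorem DP.locD (h1 : CI ∅ M) (h2 : CI ∅ L) (h3 : CI ∅ g) (h4 : CI ∅ C) (h5 : CI ∅ t)
    (h6 : CI ∅ m) (h7 : CI ∅ k) (h8 : CI ∅ i) (h9 : CI ∅ w) :
    DP fun a => LocD (M a) (L a) (g a) (C a) (t a) (m a) (k a) (i a) (w a) := by
  unfold LocD tr tn lf lv oc ch
  repeat' first
    | refine DP.bt (by fun_prop) (by fun_prop)
    | refine DP.eq (by fun_prop) (by fun_prop)
    | refine DP.le (by fun_prop) (by fun_prop)
    | refine DP.bex (by fun_prop) ?_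
    | refine DP.and ?_ ?_
    | refine DP.or ?_ ?_
    | refine DP.iff ?_ ?_
    | refine DP.imp ?_ ?_

theorem DP.loc (h1 : CI ∅ M) (h2 : CI ∅ L) (h3 : CI ∅ g) (h4 : CI ∅ C) (h5 : CI ∅ t)
    (h6 : CI ∅ m) : DP fun a => Loc (M a) (L a) (g a) (C a) (t a) (m a) := by
  unfold Loc tr tn lf
  repeat' first
    | refine DP.locD h1 h2 h3 h4 h5 h6 (by fun_prop) (by fun_prop) (by fun_prop)
    | refine DP.bt (by fun_prop) (by fun_prop)
    | refine DP.eq (by fun_prop) (by fun_prop)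
    | refine DP.and ?_ ?_
    | refine DP.iff ?_ ?_
    | refine DP.not ?_
    | refine DP.imp ?_ ?_

theorem DP.rleaf (h1 : CI ∅ n) (h2 : CI ∅ L) (h5 : CI ∅ t) :
    DP fun a => RLeaf p (n a) (L a) (t a) := by
  unfold RLeaf tr tn lv oc
  repeat' first
    | refine DP.bt (by fun_prop) (by fun_prop)
    | refine DP.eq (by fun_prop) (by fun_prop)
    | refine DP.bex (by fun_prop) ?_
    | refine DP.ball (by fun_prop) ?_
    | refine DP.and ?_ ?_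
    | refine DP.iff ?_ ?_
    | refine DP.not ?_

theorem DP.rdom (h1 : CI ∅ M) (h2 : CI ∅ L) (h4 : CI ∅ C) (h8 : CI ∅ i) :
    DP fun a => RDom (M a) (L a) (C a) (i a) := by
  unfold RDom lv ch
  repeat' first
    | refine DP.bt (by fun_prop) (by fun_prop)
    | refine DP.eq (by fun_prop) (by fun_prop)
    | refine DP.le (by fun_prop) (by fun_prop)
    | refine DP.lt (by fun_prop) (by fun_prop)
    | refine DP.bex (by fun_prop) ?_
    | refine DP.ball (by fun_prop) ?_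
    | refine DP.and ?_ ?_
    | refine DP.or ?_ ?_
    | refine DP.imp ?_ ?_

theorem DP.rnode (h0 : CI ∅ n) (h1 : CI ∅ M) (h2 : CI ∅ L) (h4 : CI ∅ C) (h5 : CI ∅ t) :
    DP fun a => RNode p (n a) (M a) (L a) (C a) (t a) := by
  unfold RNode tn lv oc ch
  repeat' first
    | refine DP.rdom (by fun_prop) (by fun_prop) (by fun_prop) (by fun_prop)
    | refine DP.bt (by fun_prop) (by fun_prop)
    | refine DP.eq (by fun_prop) (by fun_prop)
    | refine DP.bex (by fun_prop) ?_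
    | refine DP.ball (by fun_prop) ?_
    | refine DP.and ?_ ?_
    | refine DP.iff ?_ ?_

theorem DP.rule (h0 : CI ∅ n) (h1 : CI ∅ M) (h2 : CI ∅ L) (h3 : CI ∅ g) (h6 : CI ∅ c)
    (h4 : CI ∅ C) (h5 : CI ∅ t) :
    DP fun a => Rule p (n a) (M a) (L a) (g a) (c a) (C a) (t a) := by
  unfold Rule tr lf bad ch
  repeat' first
    | refine DP.rleaf h0 h2 h5
    | refine DP.rnode h0 h1 h2 h4 h5
    | refine DP.loc (by fun_prop) (by fun_prop) (by fun_prop) (by fun_prop) (by fun_prop)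
        (by fun_prop)
    | refine DP.bt (by fun_prop) (by fun_prop)
    | refine DP.bex (by fun_prop) ?_
    | refine DP.ball (by fun_prop) ?_
    | refine DP.and ?_ ?_
    | refine DP.or ?_ ?_
    | refine DP.iff ?_ ?_
    | refine DP.not ?_
    | refine DP.imp ?_ ?_

theorem DP.top (h0 : CI ∅ n) (h2 : CI ∅ L) (h3 : CI ∅ g) :
    DP fun a => Top p (n a) (L a) (g a) := by
  unfold Top oc
  repeat' first
    | refine DP.bt (by fun_prop) (by fun_prop)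
    | refine DP.eq (by fun_prop) (by fun_prop)
    | refine DP.le (by fun_prop) (by fun_prop)
    | refine DP.bex (by fun_prop) ?_
    | refine DP.ball (by fun_prop) ?_
    | refine DP.and ?_ ?_
    | refine DP.imp ?_ ?_

theorem DP.wf (h0 : CI ∅ n) (h6 : CI ∅ c) : DP fun a => Wf p (n a) (c a) := by
  unfold Wf Wf1
  repeat' first
    | refine DP.bt (by fun_prop) (by fun_prop)
    | refine DP.eq (by fun_prop) (by fun_prop)
    | refine DP.lt (by fun_prop) (by fun_prop)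
    | refine DP.ball (by fun_prop) ?_
    | refine DP.and ?_ ?_
    | refine DP.or ?_ ?_
    | refine DP.imp ?_ ?_

theorem DP.real (h0 : CI ∅ n) (h1 : CI ∅ M) (h2 : CI ∅ L) (h3 : CI ∅ g) (h6 : CI ∅ c) :
    DP fun a => Real p (n a) (M a) (L a) (g a) (c a) := by
  unfold Real Clo ch
  repeat' first
    | refine DP.rule (by fun_prop) (by fun_prop) (by fun_prop) (by fun_prop) (by fun_prop)
        (by fun_prop) (by fun_prop)
    | refine DP.bt (by fun_prop) (by fun_prop)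
    | refine DP.ball (by fun_prop) ?_
    | refine DP.imp ?_ ?_
end

theorem dp_main (p : ℕ) : DP fun n => IsC p n ∧ ¬ NV p n := by
  unfold IsC NV bad MM NN LL
  repeat' first
    | refine DP.wf (by fun_prop) (by fun_prop)
    | refine DP.top (by fun_prop) (by fun_prop) (by fun_prop)
    | refine DP.real (by fun_prop) (by fun_prop) (by fun_prop) (by fun_prop) (by fun_prop)
    | refine DP.bt (by fun_prop) (by fun_prop)
    | refine DP.bex (by fun_prop) ?_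
    | refine DP.and ?_ ?_
    | refine DP.not ?_

end Pool.Agent.H32.Ba
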