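import Pool.Agent.H32.Ba2

set_option autoImplicit false

namespace Pool.Agent.H32.Ba

open Relation Classical

theorem pair_mono {a b c d : ℕ} (h1 : a ≤ c) (h2 : b ≤ d) : Nat.pair a b ≤ Nat.pair c d := by
  refine le_trans ?_ (show Nat.pair a d ≤ _ from ?_)
  · rcases h2.eq_or_lt with rfl | h
    · exact le_rfl
    · exact (Nat.pair_lt_pair_right a h).le
  · rcases h1.eq_or_lt with rfl | h
    · exact le_rfl
    · exact (Nat.pair_lt_pair_left d h).le

theorem wf_code {p n c : ℕ} (h : Wf p n c) : ∀ m, m < n + 1 → bt c m → ∃ φ : Fm p, φ.code = m := by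
  intro m
  induction m using Nat.strong_induction_on with
  | _ m ih =>
    intro hm hb
    have e0 := Nat.pair_unpair m
    have e1 := Nat.pair_unpair m.unpair.2
    have e2 := Nat.pair_unpair m.unpair.2.unpair.1
    rcases h m hm hb with h | ⟨h, h'⟩ | ⟨h, a, b, c, d⟩ | ⟨h, h'⟩ | ⟨h, h'⟩ | ⟨h, a, b, c, d, e⟩
    · exact ⟨.var m.unpair.2, by rw [Fm.code, ← h, e0]⟩
    · exact ⟨.bot, by rw [Fm.code, ← h, ← h', e0]⟩
    · obtain ⟨φ, hφ⟩ := ih _ a (by omega) c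
      obtain ⟨ψ, hψ⟩ := ih _ b (by omega) d
      exact ⟨.imp φ ψ, by rw [Fm.code, hφ, hψ, e1, ← h, e0]⟩
    · exact ⟨.fin, by rw [Fm.code, ← h, ← h', e0]⟩
    · exact ⟨.turn ⟨_, h'⟩, by rw [Fm.code, ← h, e0]⟩
    · obtain ⟨φ, hφ⟩ := ih _ a (by omega) b
      have : ∃ k : Md p, k.code = m.unpair.2.unpair.1 := by
        rw [← e2]
        generalize m.unpair.2.unpair.1.unpair.1 = k at c e
        generalize m.unpair.2.unpair.1.unpair.2 = i at d e
        interval_cases k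
        · exact ⟨.move, by simp at e; rw [e]; rfl⟩
        · exact ⟨.movei ⟨i, d⟩, rfl⟩
        · exact ⟨.plus, by simp at e; rw [e]; rfl⟩
        · exact ⟨.pref ⟨i, d⟩, rfl⟩
        · exact ⟨.best, by simp at e; rw [e]; rfl⟩
        · exact ⟨.star, by simp at e; rw [e]; rfl⟩
      obtain ⟨k, hk⟩ := this
      exact ⟨.dia k φ, by rw [Fm.code, hφ, hk, e1, ← h, e0]⟩

theorem lt_imp1 {p : ℕ} (a b : Fm p) : a.code < (Fm.imp a b).code :=
  (Nat.left_le_pair _ _).trans_lt (lt_pair two_pos _)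
theorem lt_imp2 {p : ℕ} (a b : Fm p) : b.code < (Fm.imp a b).code :=
  (Nat.right_le_pair _ _).trans_lt (lt_pair two_pos _)
theorem lt_dia {p : ℕ} (k : Md p) (b : Fm p) : b.code < (Fm.dia k b).code :=
  (Nat.right_le_pair _ _).trans_lt (lt_pair (by norm_num) _)

theorem ex_wf (p n : ℕ) : ∃ c < 2 ^ (n + 1), Wf p n c ∧
    ∀ m < n + 1, (bt c m ↔ ∃ φ : Fm p, φ.code = m) := by
  obtain ⟨c, hc, h⟩ := ex_bits (n + 1) fun m => ∃ φ : Fm p, φ.code = m
  refine ⟨c, hc, fun m hm hb => ?_, h⟩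
  obtain ⟨φ, rfl⟩ := (h m hm).1 hb
  cases φ with
  | var k => simp [Wf1, Fm.code]
  | bot => simp [Wf1, Fm.code]
  | imp a b =>
    have h1 := lt_imp1 a b
    have h2 := lt_imp2 a b
    have h3 := (h a.code (by omega)).2 ⟨a, rfl⟩
    have h4 := (h b.code (by omega)).2 ⟨b, rfl⟩
    simp only [Fm.code] at h1 h2
    simp [Wf1, Fm.code, h1, h2, h3, h4]
  | fin => simp [Wf1, Fm.code]
  | turn i => simp [Wf1, Fm.code, Nat.lt_succ_iff.1 i.2]
  | dia k a =>
    have h1 := lt_dia k a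
    have h3 := (h a.code (by omega)).2 ⟨a, rfl⟩
    simp only [Fm.code] at h1
    cases k <;> simp only [Md.code] at h1 <;> simp [Wf1, Fm.code, Md.code, h1, h3, Fin.is_le]

variable {p : ℕ} (G : GT p) (val : ℕ → G.V → Prop) (n : ℕ)

def T (x : G.V) (m : ℕ) : Prop := ∃ ψ : Fm p, ψ.code = m ∧ G.Sat val ψ x

theorem T_code (x : G.V) (φ : Fm p) : T G val x φ.code ↔ G.Sat val φ x :=
  ⟨fun ⟨_, h, s⟩ => Fm.code_inj h ▸ s, fun s => ⟨φ, rfl, s⟩⟩

def Lo (i : Fin (p + 1)) (u : G.V) (m : ℕ) : Prop :=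
  (∃ v, G.leaf v ∧ T G val v m) ∧ ∀ v, G.leaf v → T G val v m → G.le i v u ∧ ¬ G.le i u v

def Tp (i : Fin (p + 1)) (u : G.V) : Prop :=
  ∃ m < n + 1, (∃ v, G.leaf v ∧ T G val v m ∧ G.le i u v) ∧ ∀ v, G.leaf v → T G val v m → G.le i v u

noncomputable def lev (i : Fin (p + 1)) (u : G.V) : ℕ :=
  2 * ((Finset.range (n + 1)).filter (Lo G val i u)).card + if Tp G val n i u then 1 else 0

variable {G val n}

theorem lev_lt (i : Fin (p + 1)) (u : G.V) : lev G val n i u < LL n := by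
  have := Finset.card_filter_le (Finset.range (n + 1)) (Lo G val i u)
  rw [Finset.card_range] at this
  unfold lev LL
  split_ifs <;> omega

theorem lo_mono {i : Fin (p + 1)} {u v : G.V} (hu : G.leaf u) (hv : G.leaf v) (h : G.le i u v) :
    (Finset.range (n + 1)).filter (Lo G val i u) ⊆ (Finset.range (n + 1)).filter (Lo G val i v) := by
  intro m hm
  rw [Finset.mem_filter] at hm ⊢
  refine ⟨hm.1, hm.2.1, fun w hw t => ?_⟩
  obtain ⟨a, b⟩ := hm.2.2 w hw t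
  exact ⟨G.trans i _ _ _ hw hu hv a h, fun c => b (G.trans i _ _ _ hu hv hw h c)⟩

theorem lo_lt {i : Fin (p + 1)} {u v : G.V} (hu : G.leaf u) (hv : G.leaf v) (h : G.le i u v)
    (h' : ¬ G.le i v u) (t : Tp G val n i u) :
    ((Finset.range (n + 1)).filter (Lo G val i u)).card <
      ((Finset.range (n + 1)).filter (Lo G val i v)).card := by
  obtain ⟨m, hm, ⟨w, hw, tw, lw⟩, t2⟩ := t
  refine Finset.card_lt_card ⟨lo_mono hu hv h, fun c => ?_⟩
  have : m ∈ (Finset.range (n + 1)).filter (Lo G val i v) :=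
    Finset.mem_filter.2 ⟨Finset.mem_range.2 hm, ⟨w, hw, tw⟩, fun z hz tz =>
      ⟨G.trans i _ _ _ hz hu hv (t2 z hz tz) h,
        fun c => h' (G.trans i _ _ _ hv hz hu c (t2 z hz tz))⟩⟩
  exact ((Finset.mem_filter.1 (c this)).2.2 w hw tw).2 lw

theorem lev_mono {i : Fin (p + 1)} {u v : G.V} (hu : G.leaf u) (hv : G.leaf v) (h : G.le i u v) :
    lev G val n i u ≤ lev G val n i v := by
  have h1 := Finset.card_le_card (lo_mono (val := val) (n := n) hu hv h)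
  unfold lev
  by_cases t : Tp G val n i u
  · by_cases h' : G.le i v u
    · have : Tp G val n i v := by
        obtain ⟨m, hm, ⟨w, hw, tw, lw⟩, t2⟩ := t
        exact ⟨m, hm, ⟨w, hw, tw, G.trans i _ _ _ hv hu hw h' lw⟩, fun z hz tz =>
          G.trans i _ _ _ hz hu hv (t2 z hz tz) h⟩
      rw [if_pos t, if_pos this]; omega
    · have := lo_lt hu hv h h' t
      split_ifs <;> omega
  · rw [if_neg t]; omega

theorem lev_odd {i : Fin (p + 1)} {u v : G.V} (hu : G.leaf u) (hv : G.leaf v)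
    (h : lev G val n i u ≤ lev G val n i v) (ho : lev G val n i v % 2 = 1) : G.le i u v := by
  by_contra c
  have h1 := (G.total i u v hu hv).resolve_left c
  have t : Tp G val n i v := by
    by_contra t
    unfold lev at ho
    rw [if_neg t] at ho; omega
  have := lo_lt hv hu h1 c t
  unfold lev at h
  split_ifs at h <;> omega

theorem lev_top (i : Fin (p + 1)) {u : G.V} (hu : G.leaf u) {m : ℕ} (hm : m < n + 1)
    (t : T G val u m) : ∃ v, G.leaf v ∧ T G val v m ∧ lev G val n i u ≤ lev G val n i v ∧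
      lev G val n i v % 2 = 1 := by
  haveI := G.fin
  let R : G.V → G.V → Prop := fun a b => G.leaf a ∧ G.leaf b ∧ G.le i b a ∧ ¬ G.le i a b
  haveI : Std.Irrefl R := ⟨fun a h => h.2.2.2 h.2.2.1⟩
  haveI : IsTrans G.V R := ⟨fun a b c h1 h2 => ⟨h1.1, h2.2.1,
    G.trans i _ _ _ h2.2.1 h1.2.1 h1.1 h2.2.2.1 h1.2.2.1,
    fun d => h1.2.2.2 (G.trans i _ _ _ h1.1 h2.2.1 h1.2.1 d h2.2.2.1)⟩⟩
  obtain ⟨v, ⟨hv, tv⟩, hmax⟩ := (Finite.wellFounded_of_trans_of_irrefl R).has_min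
    {v | G.leaf v ∧ T G val v m} ⟨u, hu, t⟩
  have k : ∀ z, G.leaf z → T G val z m → G.le i z v := fun z hz tz => by
    by_contra c
    exact hmax z ⟨hz, tz⟩ ⟨hz, hv, (G.total i z v hz hv).resolve_left c, c⟩
  refine ⟨v, hv, tv, lev_mono hu hv (k u hu t), ?_⟩
  have : Tp G val n i v := ⟨m, hm, ⟨v, hv, tv, k v hv tv⟩, k⟩
  unfold lev
  rw [if_pos this]; omega

variable (G val n)

def LV (x : G.V) (i a : ℕ) : Prop :=
  ∃ h : i < p + 1, ∃ u, G.leaf u ∧ ReflTransGen G.best x u ∧ lev G val n ⟨i, h⟩ u = a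
def OC (x : G.V) (i a m : ℕ) : Prop :=
  ∃ h : i < p + 1, ∃ u, G.leaf u ∧ ReflTransGen G.E x u ∧ lev G val n ⟨i, h⟩ u = a ∧ T G val u m
def At (x : G.V) (j : ℕ) : Prop :=
  (j.unpair.1 = 0 ∧ T G val x j.unpair.2) ∨
  (j.unpair.1 = 1 ∧ LV G val n x j.unpair.2.unpair.1 j.unpair.2.unpair.2) ∨
  (j.unpair.1 = 2 ∧ OC G val n x j.unpair.2.unpair.1 j.unpair.2.unpair.2.unpair.1
    j.unpair.2.unpair.2.unpair.2) ∨
  (j.unpair.1 = 3 ∧ ¬ G.leaf x ∧ (G.turn x).val = j.unpair.2) ∨ (j.unpair.1 = 4 ∧ G.leaf x) ∨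
  (j.unpair.1 = 5 ∧ ∃ y, ReflTransGen G.E x y ∧ ¬ T G val y n)

noncomputable def ty (x : G.V) : ℕ := (ex_bits (NN p n) (At G val n x)).choose

noncomputable def cs (x : G.V) : ℕ := (ex_bits (2 * MM p n) fun j =>
  ∃ y, G.E x y ∧ ty G val n y = j / 2 ∧ (j % 2 = 1 ↔ G.best x y)).choose

variable {G val n}

theorem ty_lt (x : G.V) : ty G val n x < MM p n := (ex_bits (NN p n) (At G val n x)).choose_spec.1

theorem ty_bt (x : G.V) {k r : ℕ} (hk : k ≤ 5) (hr : r ≤ Nat.pair p (Nat.pair (LL n) n)) :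
    bt (ty G val n x) (Nat.pair k r) ↔ At G val n x (Nat.pair k r) :=
  (ex_bits (NN p n) (At G val n x)).choose_spec.2 _ (Nat.lt_succ_of_le (pair_mono hk hr))

theorem ty_tr (x : G.V) {m : ℕ} (hm : m < n + 1) : tr (ty G val n x) m ↔ T G val x m := by
  rw [tr, ty_bt x (by norm_num) ((Nat.lt_succ_iff.1 hm).trans
    ((Nat.right_le_pair _ _).trans (Nat.right_le_pair _ _)))]
  simp [At]

theorem ty_lv (x : G.V) {i a : ℕ} (hi : i < p + 1) (ha : a < LL n) :
    lv (ty G val n x) i a ↔ LV G val n x i a := by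
  rw [lv, ty_bt x (by norm_num) (pair_mono (Nat.lt_succ_iff.1 hi)
    (ha.le.trans (Nat.left_le_pair _ _)))]
  simp [At]

theorem ty_oc (x : G.V) {i a m : ℕ} (hi : i < p + 1) (ha : a < LL n) (hm : m < n + 1) :
    oc (ty G val n x) i a m ↔ OC G val n x i a m := by
  rw [oc, ty_bt x (by norm_num) (pair_mono (Nat.lt_succ_iff.1 hi)
    (pair_mono ha.le (Nat.lt_succ_iff.1 hm)))]
  simp [At]

theorem ty_tn (x : G.V) {i : ℕ} (hi : i < p + 1) :
    tn (ty G val n x) i ↔ ¬ G.leaf x ∧ (G.turn x).val = i := by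
  rw [tn, ty_bt x (by norm_num) ((Nat.lt_succ_iff.1 hi).trans (Nat.left_le_pair _ _))]
  simp [At]

theorem ty_lf (x : G.V) : lf (ty G val n x) ↔ G.leaf x := by
  rw [lf, ty_bt x (by norm_num) (Nat.zero_le _)]
  simp [At]

theorem ty_bad (x : G.V) : bad (ty G val n x) ↔ ∃ y, ReflTransGen G.E x y ∧ ¬ T G val y n := by
  rw [bad, ty_bt x (by norm_num) (Nat.zero_le _)]
  simp [At]

theorem cs_lt (x : G.V) : cs G val n x < 2 ^ (2 * MM p n) := (ex_bits (2 * MM p n) _).choose_spec.1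

theorem cs_ch (x : G.V) {s b : ℕ} (hs : s < MM p n) (hb : b < 2) :
    ch (cs G val n x) s b ↔ ∃ y, G.E x y ∧ ty G val n y = s ∧ (b = 1 ↔ G.best x y) := by
  have := (ex_bits (2 * MM p n) fun j =>
    ∃ y, G.E x y ∧ ty G val n y = j / 2 ∧ (j % 2 = 1 ↔ G.best x y)).choose_spec.2 (2 * s + b)
    (by omega)
  rw [show (2 * s + b) / 2 = s by omega, show (2 * s + b) % 2 = b by omega] at this
  exact this

theorem cs_ex (x : G.V) (P : ℕ → Prop) :
    (∃ s < MM p n, ∃ b < 2, ch (cs G val n x) s b ∧ P s) ↔ ∃ y, G.E x y ∧ P (ty G val n y) := by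
  constructor
  · rintro ⟨s, hs, b, hb, h, hp⟩
    obtain ⟨y, hy, rfl, -⟩ := (cs_ch x hs hb).1 h
    exact ⟨y, hy, hp⟩
  · rintro ⟨y, hy, hp⟩
    by_cases h : G.best x y
    · exact ⟨_, ty_lt y, 1, by norm_num, (cs_ch x (ty_lt y) (by norm_num)).2
        ⟨y, hy, rfl, by simp [h]⟩, hp⟩
    · exact ⟨_, ty_lt y, 0, by norm_num, (cs_ch x (ty_lt y) (by norm_num)).2
        ⟨y, hy, rfl, by simp [h]⟩, hp⟩

theorem cs_ex1 (x : G.V) (P : ℕ → Prop) :
    (∃ s < MM p n, ch (cs G val n x) s 1 ∧ P s) ↔ ∃ y, G.best x y ∧ P (ty G val n y) := by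
  constructor
  · rintro ⟨s, hs, h, hp⟩
    obtain ⟨y, hy, rfl, hb⟩ := (cs_ch x hs (by norm_num)).1 h
    exact ⟨y, hb.1 rfl, hp⟩
  · rintro ⟨y, hy, hp⟩
    exact ⟨_, ty_lt y, (cs_ch x (ty_lt y) (by norm_num)).2
      ⟨y, inv_best.1 _ _ hy, rfl, by simp [hy]⟩, hp⟩

theorem leaf_rtg {A : G.V → G.V → Prop} (hA : ∀ a b, A a b → G.E a b) {x u : G.V} (hx : G.leaf x)
    (h : ReflTransGen A x u) : u = x := by
  rcases h.cases_head with rfl | ⟨y, hy, -⟩
  · rfl
  · exact absurd (hA _ _ hy) (hx y)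

theorem loc_ty (x : G.V) (φ : Fm p) (hφ : φ.code < n + 1) :
    Loc (MM p n) (LL n) (ty G val n G.root) (cs G val n x) (ty G val n x) φ.code := by
  have e := (ty_tr (val := val) x hφ).trans (T_code G val x φ)
  cases φ with
  | var k => simp [Loc, Fm.code]
  | bot => simpa [Loc, Fm.code, GT.Sat] using e
  | imp a b =>
    have h1 := (ty_tr (val := val) x ((lt_imp1 a b).trans hφ)).trans (T_code G val x a)
    have h2 := (ty_tr (val := val) x ((lt_imp2 a b).trans hφ)).trans (T_code G val x b)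
    simp only [Fm.code] at e
    simp [Loc, Fm.code, e, h1, h2, GT.Sat]
  | fin =>
    simp only [Fm.code] at e
    simp [Loc, Fm.code, e, ty_lf, GT.Sat]
  | turn i =>
    simp only [Fm.code] at e
    simp [Loc, Fm.code, e, ty_tn x i.2, GT.Sat, Fin.val_inj]
  | dia k a =>
    have h1 := fun y => (ty_tr (val := val) y ((lt_dia k a).trans hφ)).trans (T_code G val y a)
    have h2 := fun y => (ty_tr (val := val) y hφ).trans (T_code G val y (.dia k a))
    have ha := (lt_dia k a).trans hφ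
    refine ⟨by simp [Fm.code], by simp [Fm.code], by simp [Fm.code], by simp [Fm.code], fun _ => ?_⟩
    unfold LocD
    simp only [cs_ex, cs_ex1, h2]
    cases k with
    | move => simp [Fm.code, Md.code, h1, GT.Sat, GT.acc]
    | movei i =>
      simp only [Fm.code, Md.code, Nat.unpair_pair, h1, ty_tn x i.2, GT.Sat, GT.acc, Fin.val_inj]
      simp only [OfNat.one_ne_ofNat, one_ne_zero, false_imp_iff, true_and, and_true, true_imp_iff]
      exact ⟨fun ⟨y, ⟨a, b⟩, c⟩ => ⟨⟨fun l => l y a, b⟩, y, a, c⟩,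
        fun ⟨⟨_, b⟩, y, a, c⟩ => ⟨y, ⟨a, b⟩, c⟩⟩
    | plus =>
      simp only [Fm.code, Md.code, Nat.unpair_pair, h1, GT.Sat, GT.acc]
      refine ⟨by simp, by simp, fun _ => ⟨fun ⟨y, a, c⟩ => ?_, ?_⟩, by simp, by simp, by simp⟩
      · obtain ⟨z, hz, r⟩ := TransGen.head'_iff.1 a
        rcases reflTransGen_iff_eq_or_transGen.1 r with rfl | r
        · exact ⟨_, hz, Or.inl c⟩
        · exact ⟨z, hz, Or.inr ⟨y, r, c⟩⟩
      · rintro ⟨z, hz, c | ⟨y, r, c⟩⟩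
        · exact ⟨z, .single hz, c⟩
        · exact ⟨y, .head hz r, c⟩
    | pref i =>
      simp only [Fm.code, Md.code, Nat.unpair_pair, GT.Sat, GT.acc, ty_lf]
      refine ⟨by simp, by simp, by simp, fun _ => ⟨fun ⟨y, ⟨a1, a2, a3⟩, c⟩ => ?_, ?_⟩, by simp,
        by simp⟩
      · exact ⟨a1, _, lev_lt i x, _, lev_lt i y, (ty_lv x i.2 (lev_lt i x)).2
          ⟨i.2, x, a1, .refl, rfl⟩, lev_mono a1 a2 a3, (ty_oc _ i.2 (lev_lt i y) ha).2
          ⟨i.2, y, a2, G.reach y, rfl, (T_code G val y a).2 c⟩⟩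
      · rintro ⟨a1, l, hl, l', hl', b1, b2, b3⟩
        obtain ⟨_, u, -, ru, rfl⟩ := (ty_lv x i.2 hl).1 b1
        obtain ⟨_, v, hv, -, rfl, tv⟩ := (ty_oc _ i.2 hl' ha).1 b3
        obtain rfl := leaf_rtg inv_best.1 a1 ru
        obtain ⟨w, hw, tw, l1, l2⟩ := lev_top i hv ha tv
        exact ⟨w, ⟨a1, hw, lev_odd a1 hw (b2.trans l1) l2⟩, (T_code G val w a).1 tw⟩
    | best => simp [Fm.code, Md.code, h1, GT.Sat, GT.acc]
    | star =>
      simp only [Fm.code, Md.code, Nat.unpair_pair, h1, GT.Sat, GT.acc]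
      refine ⟨by simp, by simp, by simp, by simp, by simp, fun _ => ⟨fun ⟨y, a, c⟩ => ?_, ?_⟩⟩
      · rcases a.cases_head with rfl | ⟨z, hz, r⟩
        · exact Or.inl c
        · exact Or.inr ⟨z, hz, y, r, c⟩
      · rintro (c | ⟨z, hz, y, r, c⟩)
        · exact ⟨x, .refl, c⟩
        · exact ⟨y, .head hz r, c⟩

theorem rule_ty {c : ℕ} (hc : Wf p n c) (x : G.V) :
    Rule p n (MM p n) (LL n) (ty G val n G.root) c (cs G val n x) (ty G val n x) := by
  refine ⟨fun m hm hb => ?_, ?_, ?_, fun hl => ?_, fun hl => ?_⟩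
  · obtain ⟨φ, rfl⟩ := wf_code hc m hm hb
    exact loc_ty x φ hm
  · rw [ty_lf]
    have := cs_ex (val := val) (n := n) x fun _ => True
    constructor
    · intro l s hs b hb h
      obtain ⟨y, hy, -⟩ := this.1 ⟨s, hs, b, hb, h, trivial⟩
      exact l y hy
    · intro h y hy
      obtain ⟨s, hs, b, hb, h', -⟩ := this.2 ⟨y, hy, trivial⟩
      exact h s hs b hb h'
  · simp only [cs_ex, ty_bad, ty_tr x (Nat.lt_succ_self n)]
    constructor
    · rintro ⟨y, r, h⟩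
      rcases r.cases_head with rfl | ⟨z, hz, r⟩
      · exact Or.inl h
      · exact Or.inr ⟨z, hz, y, r, h⟩
    · rintro (h | ⟨z, hz, y, r, h⟩)
      · exact ⟨x, .refl, h⟩
      · exact ⟨y, .head hz r, h⟩
  · rw [ty_lf] at hl
    refine ⟨fun i hi => ⟨by simp [ty_tn x hi, hl], _, lev_lt (val := val) ⟨i, hi⟩ x,
      fun a ha => ?_⟩, fun i hi a ha m hm => ?_⟩
    · rw [ty_lv x hi ha]
      constructor
      · rintro ⟨_, u, -, r, rfl⟩
        rw [leaf_rtg inv_best.1 hl r]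
      · rintro rfl
        exact ⟨hi, x, hl, .refl, rfl⟩
    · rw [ty_lv x hi ha, ty_oc x hi ha hm, ty_tr x hm]
      constructor
      · rintro ⟨_, u, hu, r, e, t⟩
        obtain rfl := leaf_rtg (fun _ _ h => h) hl r
        exact ⟨⟨hi, u, hu, .refl, e⟩, t⟩
      · rintro ⟨⟨_, u, hu, r, e⟩, t⟩
        obtain rfl := leaf_rtg inv_best.1 hl r
        exact ⟨hi, u, hu, .refl, e, t⟩
  · rw [ty_lf] at hl
    refine ⟨⟨G.turn x, (G.turn x).2, fun j hj => by simp [ty_tn x hj, hl, eq_comm], ?_, ?_⟩,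
      fun i hi a ha => ?_, fun i hi a ha m hm => ?_⟩
    · intro s hs h1 s' hs' b hb h2
      obtain ⟨y, -, rfl, hy⟩ := (cs_ch x hs (by norm_num)).1 h1
      obtain ⟨z, hz, rfl, -⟩ := (cs_ch x hs' hb).1 h2
      have := ((fix_best x y).1 (hy.1 rfl)).2
      have nd : ¬ G.Dom G.best (G.turn x) y z := fun d => this ⟨z, hz, d⟩
      unfold GT.Dom at nd
      push Not at nd
      obtain ⟨u, v, hu, hv, ru, rv, h⟩ := nd
      have l : G.le (G.turn x) v u := (G.total _ u v hu hv).elim h id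
      exact ⟨_, lev_lt _ u, _, lev_lt _ v, (ty_lv y (G.turn x).2 (lev_lt _ u)).2
        ⟨_, u, hu, ru, rfl⟩, (ty_lv z (G.turn x).2 (lev_lt _ v)).2 ⟨_, v, hv, rv, rfl⟩,
        lev_mono hv hu l⟩
    · intro s hs h1
      obtain ⟨y, hy, rfl, hb⟩ := (cs_ch x hs (by norm_num)).1 h1
      obtain ⟨z, hz, d⟩ := passive' (passive hy fun c => by simpa using hb.2 c)
      refine (cs_ex1 x _).2 ⟨z, hz, fun a ha a' ha' b1 b2 => ?_⟩
      obtain ⟨_, u, hu, ru, rfl⟩ := (ty_lv y (G.turn x).2 ha).1 b1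
      obtain ⟨_, v, hv, rv, rfl⟩ := (ty_lv z (G.turn x).2 ha').1 b2
      obtain ⟨d1, d2⟩ := d u v hu hv ru rv
      rcases (lev_mono (val := val) (n := n) hu hv d1).eq_or_lt with h | h
      · refine Or.inr ⟨h, by_contra fun o => d2 (lev_odd hv hu h.ge ?_)⟩
        exact (Nat.mod_two_eq_zero_or_one _).resolve_left o
      · exact Or.inl h
    · simp only [cs_ex1, ty_lv _ hi ha]
      constructor
      · rintro ⟨_, u, hu, r, e⟩
        rcases r.cases_head with rfl | ⟨z, hz, r⟩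
        · exact absurd hu hl
        · exact ⟨z, hz, hi, u, hu, r, e⟩
      · rintro ⟨z, hz, _, u, hu, r, e⟩
        exact ⟨hi, u, hu, .head hz r, e⟩
    · simp only [cs_ex, ty_oc _ hi ha hm]
      constructor
      · rintro ⟨_, u, hu, r, e⟩
        rcases r.cases_head with rfl | ⟨z, hz, r⟩
        · exact absurd hu hl
        · exact ⟨z, hz, hi, u, hu, r, e⟩
      · rintro ⟨z, hz, _, u, hu, r, e⟩
        exact ⟨hi, u, hu, .head hz r, e⟩

theorem nv_of {φ : Fm p} (h : ¬ Valid φ) : NV p φ.code := by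
  unfold Valid at h
  push Not at h
  obtain ⟨G, val, x, hx⟩ := h
  obtain ⟨c, hc, w, hb⟩ := ex_wf p φ.code
  refine ⟨c, hc, w, (hb _ (Nat.lt_succ_self _)).2 ⟨φ, rfl⟩, ty G val φ.code G.root, ty_lt _,
    (ty_bad _).2 ⟨x, G.reach x, fun t => hx ((T_code G val x φ).1 t)⟩,
    fun i hi a ha m hm o => ?_, fun S _ hS => ?_⟩
  · obtain ⟨_, u, hu, -, rfl, t⟩ := (ty_oc _ hi ha hm).1 o
    obtain ⟨v, hv, tv, l1, l2⟩ := lev_top ⟨i, hi⟩ hu hm t
    exact ⟨_, lev_lt _ v, l1, l2, (ty_oc _ hi (lev_lt _ v) hm).2 ⟨hi, v, hv, G.reach v, rfl, tv⟩⟩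
  · have : ∀ y, bt S (ty G val φ.code y) := fun y => by
      induction y using G.ind with
      | h y ih =>
        refine hS _ (cs_lt y) _ (ty_lt y) (fun s hs b hb h => ?_) (rule_ty w y)
        obtain ⟨z, hz, rfl, -⟩ := (cs_ch y hs hb).1 h
        exact ih z hz
    exact this _

end Pool.Agent.H32.Ba
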