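import Pool.Agent.H32.Ba3

set_option autoImplicit false

namespace Pool.Agent.H32.Ba

open Relation Classical

variable (p n M L g c : ℕ)

def Der : ℕ → ℕ → Prop
  | 0, _ => False
  | r + 1, t => ∃ C, Rule p n M L g c C t ∧ ∀ s < M, ∀ b < 2, ch C s b → Der r s

variable {p n M L g c}

theorem Der.succ : ∀ {r t : ℕ}, Der p n M L g c r t → Der p n M L g c (r + 1) t
  | 0, _, h => h.elim
  | _ + 1, _, ⟨C, h1, h2⟩ => ⟨C, h1, fun s hs b hb h => (h2 s hs b hb h).succ⟩

theorem Der.mono {r r' t : ℕ} (h : Der p n M L g c r t) (hr : r ≤ r') : Der p n M L g c r' t := by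
  induction hr with
  | refl => exact h
  | step _ ih => exact ih.succ

theorem real_der (hg : g < M) (h : Real p n M L g c) : ∃ r, Der p n M L g c (r + 1) g := by
  obtain ⟨S, hS, e⟩ := ex_bits M fun t => ∃ r, Der p n M L g c r t
  refine ((e g hg).1 (h S hS fun C _ s hs h1 h2 => (e s hs).2 ?_)).imp fun r hr => hr.succ
  · have : ∀ y : Fin M, ∃ r, ∀ b < 2, ch C y b → Der p n M L g c r y := fun y => by
      by_cases h : ∃ b < 2, ch C y b
      · obtain ⟨b, hb, h⟩ := h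
        obtain ⟨r, hr⟩ := (e y y.2).1 (h1 y y.2 b hb h)
        exact ⟨r, fun _ _ _ => hr⟩
      · exact ⟨0, fun b hb h' => absurd ⟨b, hb, h'⟩ h⟩
    choose f hf using this
    exact ⟨Finset.univ.sup f + 1, C, h2, fun y hy b hb h =>
      (hf ⟨y, hy⟩ b hb h).mono (Finset.le_sup (Finset.mem_univ _))⟩

variable (p n M L g c) (R : ℕ)

def hd : List (Fin M × Fin 2) → ℕ
  | [] => g
  | e :: _ => e.1

noncomputable def kids (l : List (Fin M × Fin 2)) : ℕ :=
  epsilon fun C => Rule p n M L g c C (hd M g l) ∧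
    ∀ s < M, ∀ b < 2, ch C s b → Der p n M L g c (R - l.length) s

inductive Ok : List (Fin M × Fin 2) → Prop
  | nil : Ok []
  | cons (e : Fin M × Fin 2) (l : List (Fin M × Fin 2)) : Ok l →
      ch (kids p n M L g c R l) e.1 e.2 → Ok (e :: l)

variable {p n M L g c R}

theorem ok_inv (hD : Der p n M L g c (R + 1) g) {l : List (Fin M × Fin 2)}
    (h : Ok p n M L g c R l) : l.length ≤ R ∧ Der p n M L g c (R - l.length + 1) (hd M g l) := by
  induction h with
  | nil => exact ⟨Nat.zero_le _, hD⟩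
  | cons e l _ h ih =>
    have := (epsilon_spec ih.2).2 e.1 e.1.2 e.2 e.2.2 h
    rcases hr : R - l.length with _ | r
    · rw [hr] at this; exact this.elim
    · rw [hr] at this
      refine ⟨by simp only [List.length_cons]; omega, ?_⟩
      rw [show R - (e :: l).length = r by simp only [List.length_cons]; omega]
      exact this

theorem ok_rule (hD : Der p n M L g c (R + 1) g) {l : List (Fin M × Fin 2)}
    (h : Ok p n M L g c R l) : Rule p n M L g c (kids p n M L g c R l) (hd M g l) :=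
  (epsilon_spec (ok_inv hD h).2).1

noncomputable def lvl (i : ℕ) (l : List (Fin M × Fin 2)) : ℕ :=
  epsilon fun a => a < L ∧ ∀ a' < L, (lv (hd M g l) i a' ↔ a' = a)

def dp (l : List (Fin M × Fin 2)) : ℕ := l.countP fun e => e.2 = 0

noncomputable def GG (hD : Der p n M L g c (R + 1) g) : GT p where
  V := {l // Ok p n M L g c R l}
  fin := ((List.finite_length_le (Fin M × Fin 2) R).subset fun _ h => (ok_inv hD h).1).to_subtype
  E x y := ∃ e, y.1 = e :: x.1
  root := ⟨[], .nil⟩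
  reach := by
    rintro ⟨l, h⟩
    induction h with
    | nil => exact .refl
    | cons e l h _ ih => exact ih.tail ⟨e, rfl⟩
  par := by
    rintro a b v ⟨e, h⟩ ⟨e', h'⟩
    exact Subtype.ext (List.cons.inj (h.symm.trans h')).2
  acyc := by
    have : ∀ x y : {l // Ok p n M L g c R l}, TransGen (fun x y => ∃ e, y.1 = e :: x.1) x y →
        x.1.length < y.1.length := fun x y h => by
      induction h with
      | single h => obtain ⟨e, h⟩ := h; simp [h]
      | tail _ h ih => obtain ⟨e, h⟩ := h; simp only [h, List.length_cons]; omega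
    exact fun v h => lt_irrefl _ (this v v h)
  turn x := epsilon fun i : Fin (p + 1) => tn (hd M g x.1) i
  le i u v := lvl (L := L) (g := g) i u.1 < lvl (L := L) (g := g) i v.1 ∨
    (lvl (L := L) (g := g) i u.1 = lvl (L := L) (g := g) i v.1 ∧
      (lvl (L := L) (g := g) i u.1 % 2 = 1 ∨ dp v.1 ≤ dp u.1))
  total := fun _ _ _ _ _ => by omega
  trans := fun _ _ _ _ _ _ _ => by omega

variable (hD : Der p n M L g c (R + 1) g)

def FF (x y : (GG hD).V) : Prop := ∃ s, y.1 = (s, 1) :: x.1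

theorem FE (x y : (GG hD).V) (h : FF hD x y) : (GG hD).E x y := h.elim fun _ h => ⟨_, h⟩

theorem e_ch {x y : (GG hD).V} {e : Fin M × Fin 2} (h : y.1 = e :: x.1) :
    ch (kids p n M L g c R x.1) e.1 e.2 ∧ hd M g y.1 = e.1 := by
  obtain ⟨l, hl⟩ := y
  dsimp only at h
  subst h
  cases hl with
  | cons _ _ _ h => exact ⟨h, rfl⟩

theorem kid (x : (GG hD).V) (P : ℕ → Prop) :
    (∃ s < M, ∃ b < 2, ch (kids p n M L g c R x.1) s b ∧ P s) ↔
      ∃ y, (GG hD).E x y ∧ P (hd M g y.1) := by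
  constructor
  · rintro ⟨s, hs, b, hb, h, hp⟩
    exact ⟨⟨(⟨s, hs⟩, ⟨b, hb⟩) :: x.1, .cons _ _ x.2 h⟩, ⟨_, rfl⟩, hp⟩
  · rintro ⟨y, ⟨e, h⟩, hp⟩
    obtain ⟨h1, h2⟩ := e_ch hD h
    exact ⟨e.1, e.1.2, e.2, e.2.2, h1, h2 ▸ hp⟩

theorem kid1 (x : (GG hD).V) (P : ℕ → Prop) :
    (∃ s < M, ch (kids p n M L g c R x.1) s 1 ∧ P s) ↔ ∃ y, FF hD x y ∧ P (hd M g y.1) := by
  constructor
  · rintro ⟨s, hs, h, hp⟩
    exact ⟨⟨(⟨s, hs⟩, 1) :: x.1, .cons _ _ x.2 h⟩, ⟨_, rfl⟩, hp⟩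
  · rintro ⟨y, ⟨e, h⟩, hp⟩
    obtain ⟨h1, h2⟩ := e_ch hD h
    exact ⟨e, e.2, h1, h2 ▸ hp⟩

theorem lf_iff (x : (GG hD).V) : lf (hd M g x.1) ↔ (GG hD).leaf x := by
  rw [(ok_rule hD x.2).2.1]
  have := kid hD x fun _ => True
  constructor
  · intro h y hy
    obtain ⟨s, hs, b, hb, h', -⟩ := this.2 ⟨y, hy, trivial⟩
    exact h s hs b hb h'
  · intro l s hs b hb h
    obtain ⟨y, hy, -⟩ := this.1 ⟨s, hs, b, hb, h, trivial⟩
    exact l y hy

theorem r_leaf {x : (GG hD).V} (h : (GG hD).leaf x) : RLeaf p n L (hd M g x.1) :=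
  (ok_rule hD x.2).2.2.2.1 ((lf_iff hD x).2 h)

theorem r_node {x : (GG hD).V} (h : ¬ (GG hD).leaf x) :
    RNode p n M L (kids p n M L g c R x.1) (hd M g x.1) :=
  (ok_rule hD x.2).2.2.2.2 fun l => h ((lf_iff hD x).1 l)

theorem lvl_spec {x : (GG hD).V} (h : (GG hD).leaf x) {i : ℕ} (hi : i < p + 1) :
    lvl (L := L) (g := g) i x.1 < L ∧
      ∀ a' < L, (lv (hd M g x.1) i a' ↔ a' = lvl (L := L) (g := g) i x.1) :=
  epsilon_spec ((r_leaf hD h).1 i hi).2

theorem turn_spec {x : (GG hD).V} (h : ¬ (GG hD).leaf x) :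
    (∀ j < p + 1, (tn (hd M g x.1) j ↔ j = ((GG hD).turn x).val)) ∧
      RDom M L (kids p n M L g c R x.1) ((GG hD).turn x).val := by
  obtain ⟨i, hi, h1, h2⟩ := (r_node hD h).1
  have : tn (hd M g x.1) ((GG hD).turn x).val :=
    epsilon_spec (p := fun i : Fin (p + 1) => tn (hd M g x.1) i) ⟨⟨i, hi⟩, (h1 i hi).2 rfl⟩
  rw [(h1 _ ((GG hD).turn x).2).1 this]
  exact ⟨h1, h2⟩

theorem lv_iff {i a : ℕ} (hi : i < p + 1) (ha : a < L) (x : (GG hD).V) :
    lv (hd M g x.1) i a ↔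
      ∃ u, (GG hD).leaf u ∧ ReflTransGen (FF hD) x u ∧ lvl (L := L) (g := g) i u.1 = a := by
  induction x using (GG hD).ind with
  | h x ih =>
    by_cases hx : (GG hD).leaf x
    · rw [(lvl_spec hD hx hi).2 a ha]
      constructor
      · rintro rfl; exact ⟨x, hx, .refl, rfl⟩
      · rintro ⟨u, -, r, rfl⟩; rw [leaf_rtg (FE hD) hx r]
    · rw [(r_node hD hx).2.1 i hi a ha, kid1 hD x fun s => lv s i a]
      constructor
      · rintro ⟨y, hy, h⟩
        obtain ⟨u, hu, r, e⟩ := (ih y (FE hD _ _ hy)).1 h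
        exact ⟨u, hu, .head hy r, e⟩
      · rintro ⟨u, hu, r, e⟩
        rcases r.cases_head with rfl | ⟨y, hy, r⟩
        · exact absurd hu hx
        · exact ⟨y, hy, (ih y (FE hD _ _ hy)).2 ⟨u, hu, r, e⟩⟩

theorem oc_iff {i a m : ℕ} (hi : i < p + 1) (ha : a < L) (hm : m < n + 1) (x : (GG hD).V) :
    oc (hd M g x.1) i a m ↔ ∃ u, (GG hD).leaf u ∧ ReflTransGen (GG hD).E x u ∧
      lvl (L := L) (g := g) i u.1 = a ∧ tr (hd M g u.1) m := by
  induction x using (GG hD).ind with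
  | h x ih =>
    by_cases hx : (GG hD).leaf x
    · rw [(r_leaf hD hx).2 i hi a ha m hm, (lvl_spec hD hx hi).2 a ha]
      constructor
      · rintro ⟨rfl, t⟩; exact ⟨x, hx, .refl, rfl, t⟩
      · rintro ⟨u, -, r, rfl, t⟩
        obtain rfl := leaf_rtg (fun _ _ h => h) hx r
        exact ⟨rfl, t⟩
    · rw [(r_node hD hx).2.2 i hi a ha m hm, kid hD x fun s => oc s i a m]
      constructor
      · rintro ⟨y, hy, h⟩
        obtain ⟨u, hu, r, e⟩ := (ih y hy).1 h
        exact ⟨u, hu, .head hy r, e⟩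
      · rintro ⟨u, hu, r, e⟩
        rcases r.cases_head with rfl | ⟨y, hy, r⟩
        · exact absurd hu hx
        · exact ⟨y, hy, (ih y hy).2 ⟨u, hu, r, e⟩⟩

theorem dp_F {x u : (GG hD).V} (r : ReflTransGen (FF hD) x u) : dp u.1 = dp x.1 := by
  induction r with
  | refl => rfl
  | tail _ h ih => obtain ⟨s, h⟩ := h; rw [h, ← ih]; simp [dp]

theorem fix_F : (GG hD).Fix (FF hD) := by
  intro x y
  constructor
  · intro hy
    refine ⟨FE hD _ _ hy, ?_⟩
    rintro ⟨z, ⟨e, hz⟩, d⟩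
    have hx : ¬ (GG hD).leaf x := fun l => l y (FE hD _ _ hy)
    obtain ⟨s, hs⟩ := hy
    obtain ⟨a1, a2⟩ := e_ch hD hs
    obtain ⟨b1, b2⟩ := e_ch hD hz
    obtain ⟨a, ha, a', ha', l1, l2, l3⟩ := (turn_spec hD hx).2.1 s s.2 a1 e.1 e.1.2 e.2 e.2.2 b1
    rw [← b2] at l2
    obtain ⟨u, hu, ru, rfl⟩ := (lv_iff hD ((GG hD).turn x).2 ha y).1 (by rw [a2]; exact l1)
    obtain ⟨v, hv, rv, rfl⟩ := (lv_iff hD ((GG hD).turn x).2 ha' z).1 l2
    refine (d u v hu hv ru rv).2 ?_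
    have h1 : dp u.1 = dp x.1 := by rw [dp_F hD ru, hs]; simp [dp]
    have h2 : dp x.1 ≤ dp v.1 := by
      rw [dp_F hD rv, hz, dp, dp, List.countP_cons]; omega
    show _ ∨ _
    omega
  · rintro ⟨⟨⟨s, b⟩, hy⟩, h⟩
    have hx : ¬ (GG hD).leaf x := fun l => l y ⟨_, hy⟩
    by_contra nf
    have hb : b = 0 := by
      fin_cases b
      · rfl
      · exact absurd ⟨s, hy⟩ nf
    subst hb
    obtain ⟨a1, a2⟩ := e_ch hD hy
    obtain ⟨z, hz, l⟩ := (kid1 hD x _).1 ((turn_spec hD hx).2.2 s s.2 a1)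
    refine h ⟨z, FE hD _ _ hz, fun u v hu hv ru rv => ?_⟩
    have lu := (lvl_spec hD hu ((GG hD).turn x).2).1
    have lv' := (lvl_spec hD hv ((GG hD).turn x).2).1
    have := l _ lu _ lv' (by
      have := (lv_iff hD ((GG hD).turn x).2 lu y).2 ⟨u, hu, ru, rfl⟩
      rwa [a2] at this) ((lv_iff hD ((GG hD).turn x).2 lv' z).2 ⟨v, hv, rv, rfl⟩)
    have h1 : dp u.1 = dp x.1 + 1 := by rw [dp_F hD ru, hy]; simp [dp]
    have h2 : dp v.1 = dp x.1 := by
      obtain ⟨s', hs'⟩ := hz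
      rw [dp_F hD rv, hs']; simp [dp]
    constructor
    · show _ ∨ _
      omega
    · show ¬ (_ ∨ _)
      omega

theorem best_F : (GG hD).best = FF hD := fix_uniq fix_best (fix_F hD)

theorem truth (hw : Wf p n c) (ht : Top p n L g) (φ : Fm p) (h1 : φ.code < n + 1)
    (h2 : bt c φ.code) (x : (GG hD).V) :
    (GG hD).Sat (fun k y => tr (hd M g y.1) (Nat.pair 0 k)) φ x ↔ tr (hd M g x.1) φ.code := by
  have lc := fun x : (GG hD).V => (ok_rule hD x.2).1 _ h1 h2
  have w := hw _ h1 h2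
  induction φ generalizing x with
  | var k => rfl
  | bot => exact ⟨False.elim, (lc x).1 (by simp [Fm.code])⟩
  | imp a b iha ihb =>
    simp [Wf1, Fm.code] at w
    have ea := (lt_imp1 a b).trans h1
    have eb := (lt_imp2 a b).trans h1
    rw [(lc x).2.1 (by simp [Fm.code])]
    simp only [Fm.code, Nat.unpair_pair, GT.Sat]
    exact imp_congr
      (iha ea w.2.2.1 x (fun x => (ok_rule hD x.2).1 _ ea w.2.2.1) (hw _ ea w.2.2.1))
      (ihb eb w.2.2.2 x (fun x => (ok_rule hD x.2).1 _ eb w.2.2.2) (hw _ eb w.2.2.2))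
  | fin => rw [(lc x).2.2.1 (by simp [Fm.code]), lf_iff]; rfl
  | turn i =>
    rw [(lc x).2.2.2.1 (by simp [Fm.code])]
    simp only [Fm.code, Nat.unpair_pair, GT.Sat]
    by_cases hx : (GG hD).leaf x
    · simp [hx, ((r_leaf hD hx).1 i i.2).1]
    · rw [(turn_spec hD hx).1 i i.2]; simp [hx, Fin.val_inj, eq_comm]
  | dia k a ih =>
    have ea := (lt_dia k a).trans h1
    have ba : bt c a.code := by
      simp [Wf1, Fm.code] at w
      exact w.2.1
    have ih := fun x => ih ea ba x (fun x => (ok_rule hD x.2).1 _ ea ba) (hw _ ea ba)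
    have ld := fun x => (lc x).2.2.2.2 (by simp [Fm.code])
    simp only [GT.Sat, ih]
    generalize hm : (Fm.dia k a).code = m at ld ⊢
    have e1 : m.unpair.2.unpair.2 = a.code := by simp [← hm, Fm.code]
    have e2 : m.unpair.2.unpair.1 = k.code := by simp [← hm, Fm.code]
    simp only [e1, e2] at ld
    cases k with
    | move => rw [(ld x).1 (by simp [Md.code]), kid hD x fun s => tr s a.code]; rfl
    | movei i =>
      rw [(ld x).2.1 (by simp [Md.code]), kid hD x fun s => tr s a.code]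
      simp only [Md.code, Nat.unpair_pair, GT.acc]
      constructor
      · rintro ⟨y, ⟨a1, a2⟩, a3⟩
        exact ⟨((turn_spec hD fun l => l y a1).1 i i.2).2 (by rw [a2]), y, a1, a3⟩
      · rintro ⟨a2, y, a1, a3⟩
        exact ⟨y, ⟨a1, Fin.ext (((turn_spec hD fun l => l y a1).1 i i.2).1 a2).symm⟩, a3⟩
    | plus =>
      induction x using (GG hD).ind with
      | h x ihx =>
        rw [(ld x).2.2.1 (by simp [Md.code]), kid hD x fun s => tr s a.code ∨ tr s m]
        constructor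
        · rintro ⟨y, r, t⟩
          obtain ⟨z, hz, r⟩ := TransGen.head'_iff.1 r
          rcases reflTransGen_iff_eq_or_transGen.1 r with rfl | r
          · exact ⟨_, hz, Or.inl t⟩
          · exact ⟨z, hz, Or.inr ((ihx z hz).1 ⟨y, r, t⟩)⟩
        · rintro ⟨z, hz, t | t⟩
          · exact ⟨z, .single hz, t⟩
          · obtain ⟨y, r, t⟩ := (ihx z hz).2 t
            exact ⟨y, .head hz r, t⟩
    | pref i =>
      rw [(ld x).2.2.2.1 (by simp [Md.code]), lf_iff]
      simp only [Md.code, Nat.unpair_pair, GT.acc]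
      constructor
      · rintro ⟨y, ⟨a1, a2, a3⟩, t⟩
        refine ⟨a1, _, (lvl_spec hD a1 i.2).1, _, (lvl_spec hD a2 i.2).1,
          ((lvl_spec hD a1 i.2).2 _ (lvl_spec hD a1 i.2).1).2 rfl, ?_,
          (oc_iff hD i.2 (lvl_spec hD a2 i.2).1 ea (GG hD).root).2
            ⟨y, a2, (GG hD).reach y, rfl, t⟩⟩
        rcases a3 with h | h <;> omega
      · rintro ⟨a1, l, hl, l', hl', b1, b2, b3⟩
        obtain rfl := ((lvl_spec hD a1 i.2).2 _ hl).1 b1
        obtain ⟨l2, hl2, c1, c2, c3⟩ := ht i i.2 l' hl' _ ea b3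
        obtain ⟨v, hv, -, rfl, t⟩ := (oc_iff hD i.2 hl2 ea (GG hD).root).1 c3
        refine ⟨v, ⟨a1, hv, ?_⟩, t⟩
        show _ ∨ _
        omega
    | best =>
      rw [(ld x).2.2.2.2.1 (by simp [Md.code]), kid1 hD x fun s => tr s a.code]
      simp only [GT.acc, best_F]
    | star =>
      simp only [GT.acc, best_F]
      induction x using (GG hD).ind with
      | h x ihx =>
        rw [(ld x).2.2.2.2.2 (by simp [Md.code]), kid1 hD x fun s => tr s m]
        constructor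
        · rintro ⟨y, r, t⟩
          rcases r.cases_head with rfl | ⟨z, hz, r⟩
          · exact Or.inl t
          · exact Or.inr ⟨z, hz, (ihx z (FE hD _ _ hz)).1 ⟨y, r, t⟩⟩
        · rintro (t | ⟨z, hz, t⟩)
          · exact ⟨x, .refl, t⟩
          · obtain ⟨y, r, t⟩ := (ihx z (FE hD _ _ hz)).2 t
            exact ⟨y, .head hz r, t⟩

theorem bad_ex (x : (GG hD).V) (h : bad (hd M g x.1)) : ∃ y : (GG hD).V, ¬ tr (hd M g y.1) n := by
  induction x using (GG hD).ind with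
  | h x ih =>
    rcases (ok_rule hD x.2).2.2.1.1 h with h | h
    · exact ⟨x, h⟩
    · obtain ⟨y, hy, h⟩ := (kid hD x bad).1 h
      exact ih y hy h

omit hD in
theorem of_nv {φ : Fm p} (h : NV p φ.code) : ¬ Valid φ := by
  obtain ⟨c, -, hw, hb, g, hg, b, ht, hr⟩ := h
  obtain ⟨R, hD⟩ := real_der hg hr
  obtain ⟨y, hy⟩ := bad_ex hD (GG hD).root b
  exact fun v => hy ((truth hD hw ht φ (Nat.lt_succ_self _) hb y).1 (v _ _ _))

omit hD in
theorem decid (p : ℕ) : ComputablePred fun n => ∃ φ : Fm p, φ.code = n ∧ Valid φ := by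
  refine ((dp_main p).of fun n => ⟨?_, ?_⟩).cp
  · rintro ⟨⟨c, -, hw, hb⟩, h⟩
    obtain ⟨φ, rfl⟩ := wf_code hw n (Nat.lt_succ_self _) hb
    exact ⟨φ, rfl, by_contra fun v => h (nv_of v)⟩
  · rintro ⟨φ, rfl, v⟩
    obtain ⟨c, hc, w, hb⟩ := ex_wf p φ.code
    exact ⟨⟨c, hc, w, (hb _ (Nat.lt_succ_self _)).2 ⟨φ, rfl⟩⟩, fun h => of_nv h v⟩

end Pool.Agent.H32.Ba
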