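import Mathlib

set_option autoImplicit false

namespace Pool.Agent.H32.Ba

open Relation

/-- Finite game trees for the players `Fin (p + 1)`. -/
structure GT (p : ℕ) where
  V : Type
  fin : Finite V
  E : V → V → Prop
  root : V
  reach : ∀ v, ReflTransGen E root v
  par : ∀ a b v, E a v → E b v → a = b
  acyc : ∀ v, ¬ TransGen E v v
  turn : V → Fin (p + 1)
  le : Fin (p + 1) → V → V → Prop
  total : ∀ i u v, (∀ w, ¬ E u w) → (∀ w, ¬ E v w) → le i u v ∨ le i v u
  trans : ∀ i u v w, (∀ t, ¬ E u t) → (∀ t, ¬ E v t) → (∀ t, ¬ E w t) →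
    le i u v → le i v w → le i u w

variable {p : ℕ}

/-- End nodes. -/
def GT.leaf (G : GT p) (u : G.V) : Prop := ∀ w, ¬ G.E u w

/-- Every end node reachable from `y` along `A` is strictly worse for `i` than every end node
reachable from `z` along `A`. -/
def GT.Dom (G : GT p) (A : G.V → G.V → Prop) (i : Fin (p + 1)) (y z : G.V) : Prop :=
  ∀ u v, G.leaf u → G.leaf v → ReflTransGen A y u → ReflTransGen A z v → G.le i u v ∧ ¬ G.le i v u

/-- One stage of relational backward induction: the moves that stay active. -/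
def GT.step (G : GT p) (A : G.V → G.V → Prop) (x y : G.V) : Prop :=
  A x y ∧ ¬ ∃ z, z ≠ y ∧ A x z ∧ G.Dom A (G.turn x) y z

/-- The moves active at every stage. -/
def GT.best (G : GT p) (x y : G.V) : Prop := ∀ n : ℕ, (G.step^[n] G.E) x y

/-- Modalities. -/
inductive Md (p : ℕ)
  | move
  | movei (i : Fin (p + 1))
  | plus
  | pref (i : Fin (p + 1))
  | best
  | star

/-- Formulas; the other connectives and the boxes are the usual abbreviations. -/
inductive Fm (p : ℕ)
  | var (k : ℕ)
  | bot
  | imp (a b : Fm p)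
  | fin
  | turn (i : Fin (p + 1))
  | dia (m : Md p) (a : Fm p)

/-- The relation of each modality. -/
def GT.acc (G : GT p) : Md p → G.V → G.V → Prop
  | .move, x, y => G.E x y
  | .movei i, x, y => G.E x y ∧ G.turn x = i
  | .plus, x, y => TransGen G.E x y
  | .pref i, x, y => G.leaf x ∧ G.leaf y ∧ G.le i x y
  | .best, x, y => G.best x y
  | .star, x, y => ReflTransGen G.best x y

/-- Truth at a node. -/
def GT.Sat (G : GT p) (val : ℕ → G.V → Prop) : Fm p → G.V → Prop
  | .var k, x => val k x
  | .bot, _ => False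
  | .imp a b, x => G.Sat val a x → G.Sat val b x
  | .fin, x => G.leaf x
  | .turn i, x => ¬ G.leaf x ∧ G.turn x = i
  | .dia m a, x => ∃ y, G.acc m x y ∧ G.Sat val a y

/-- Validity: truth at every node of every finite game tree under every valuation. -/
def Valid (φ : Fm p) : Prop := ∀ (G : GT p) (val : ℕ → G.V → Prop) (x : G.V), G.Sat val φ x

/-- Numbers of modalities. -/
def Md.code : Md p → ℕ
  | .move => Nat.pair 0 0
  | .movei i => Nat.pair 1 i
  | .plus => Nat.pair 2 0
  | .pref i => Nat.pair 3 i
  | .best => Nat.pair 4 0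
  | .star => Nat.pair 5 0

/-- Goedel numbers of formulas. -/
def Fm.code : Fm p → ℕ
  | .var k => Nat.pair 0 k
  | .bot => Nat.pair 1 0
  | .imp a b => Nat.pair 2 (Nat.pair a.code b.code)
  | .fin => Nat.pair 3 0
  | .turn i => Nat.pair 4 i
  | .dia m a => Nat.pair 5 (Nat.pair m.code a.code)

end Pool.Agent.H32.Ba
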