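import Mathlib

set_option autoImplicit false

namespace Pool.Agent.H32.BddDeg

open MvPolynomial

abbrev R := MvPolynomial ℕ ℕ

theorem mem_mul {x y : R} {m m' : ℕ →₀ ℕ} (h : m ∈ x.support) (h' : m' ∈ y.support) :
    m + m' ∈ (x * y).support := by
  classical
  rw [mem_support_iff] at *
  rw [coeff_mul]
  intro h0
  rw [Finset.sum_eq_zero_iff] at h0
  have := h0 (m, m') (by simp)
  exact mul_ne_zero h h' this

theorem mem_mul' {x y : R} {n : ℕ →₀ ℕ} (h : n ∈ (x * y).support) :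
    ∃ m ∈ x.support, ∃ m' ∈ y.support, n = m + m' := by
  classical
  have := support_mul x y h
  rw [Finset.mem_add] at this
  obtain ⟨m, hm, m', hm', e⟩ := this
  exact ⟨m, hm, m', hm', e.symm⟩

theorem mem_add {x y : R} {m : ℕ →₀ ℕ} : m ∈ (x + y).support ↔ m ∈ x.support ∨ m ∈ y.support := by
  simp only [mem_support_iff, coeff_add]
  omega

def Top (f : R) (e : ℕ) (i : ℕ) : Prop := ∃ m ∈ f.support, m i = e

def Sim (f : R) (u w : ℕ) : Prop := ∃ m ∈ f.support, m u ≠ 0 ∧ m w ≠ 0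

def Phi (f : R) (e : ℕ) : Prop :=
  ∀ u v, Top f e u → Top f e v → ∃ w, Top f e w ∧ Sim f u w ∧ Sim f w v

open Classical in
noncomputable def deg (d : ℕ) (f : R) : ℕ := Nat.findGreatest (fun k => ∃ i, Top f k i) d

theorem deg_le (d : ℕ) (f : R) : deg d f ≤ d := by
  classical
  unfold deg
  convert Nat.findGreatest_le d

theorem le_deg {d : ℕ} {f : R} (hf : ∀ i, degreeOf i f ≤ d) {m : ℕ →₀ ℕ} (hm : m ∈ f.support)
    (i : ℕ) : m i ≤ deg d f := by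
  classical
  unfold deg
  convert Nat.le_findGreatest (P := fun k => ∃ i, Top f k i)
    ((monomial_le_degreeOf i hm).trans (hf i)) ⟨i, m, hm, rfl⟩

theorem deg_pos {d : ℕ} {f : R} (h0 : f ≠ 0) (hc : coeff 0 f = 0) (hf : ∀ i, degreeOf i f ≤ d) :
    0 < deg d f := by
  obtain ⟨m, hm⟩ := support_nonempty.2 h0
  have hm0 : m ≠ 0 := by
    rintro rfl
    exact (mem_support_iff.1 hm) hc
  obtain ⟨i, hi⟩ := Finsupp.ne_iff.1 hm0
  have := le_deg hf hm i
  simp only [Finsupp.coe_zero, Pi.zero_apply] at hi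
  omega

theorem deg_top {d : ℕ} {f : R} (h : 0 < deg d f) : ∃ i, Top f (deg d f) i := by
  classical
  have h' : Nat.findGreatest (fun k => ∃ i, Top f k i) d ≠ 0 := by
    unfold deg at h
    intro h2
    have : (0 : ℕ) < 0 := by convert h using 1; convert h2.symm
    omega
  have := Nat.findGreatest_of_ne_zero rfl h'
  unfold deg
  convert this

theorem core {x y : R} {e : ℕ} (he : 0 < e) (hx : ∃ i, Top x e i) (hy : ∃ i, Top y e i)
    (hxy : ∀ m ∈ (x * y).support, ∀ i, m i ≤ e) :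
    Phi (x * y) e ∧ ¬ Phi (x + y) e := by
  obtain ⟨a, ma, hma, ea⟩ := hx
  obtain ⟨b, mb, hmb, eb⟩ := hy
  have dx : ∀ i, Top x e i → ∀ m ∈ y.support, m i = 0 := by
    rintro i ⟨m, hm, em⟩ m' hm'
    have := hxy _ (mem_mul hm hm') i
    simp only [Finsupp.coe_add, Pi.add_apply] at this
    omega
  have dy : ∀ i, Top y e i → ∀ m ∈ x.support, m i = 0 := by
    rintro i ⟨m, hm, em⟩ m' hm'
    have := hxy _ (mem_mul hm' hm) i
    simp only [Finsupp.coe_add, Pi.add_apply] at this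
    omega
  have ta : Top (x * y) e a := ⟨ma + mb, mem_mul hma hmb, by
    simp [ea, dx a ⟨ma, hma, ea⟩ mb hmb]⟩
  have tb : Top (x * y) e b := ⟨ma + mb, mem_mul hma hmb, by
    simp [eb, dy b ⟨mb, hmb, eb⟩ ma hma]⟩
  constructor
  · rintro u v ⟨n, hn, en⟩ ⟨n', hn', en'⟩
    obtain ⟨p, hp, q, hq, rfl⟩ := mem_mul' hn
    obtain ⟨p', hp', q', hq', rfl⟩ := mem_mul' hn'
    simp only [Finsupp.coe_add, Pi.add_apply] at en en'
    by_cases h1 : p u ≠ 0
    · by_cases h2 : p' v ≠ 0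
      · refine ⟨b, tb, ⟨p + mb, mem_mul hp hmb, ?_, ?_⟩, ⟨p' + mb, mem_mul hp' hmb, ?_, ?_⟩⟩ <;>
          simp only [Finsupp.coe_add, Pi.add_apply] <;> omega
      · refine ⟨u, ⟨p + q, hn, en⟩, ⟨p + q, hn, ?_, ?_⟩, ⟨p + q', mem_mul hp hq', ?_, ?_⟩⟩ <;>
          simp only [Finsupp.coe_add, Pi.add_apply] <;> omega
    · by_cases h2 : p' v ≠ 0
      · refine ⟨u, ⟨p + q, hn, en⟩, ⟨p + q, hn, ?_, ?_⟩, ⟨p' + q, mem_mul hp' hq, ?_, ?_⟩⟩ <;>
          simp only [Finsupp.coe_add, Pi.add_apply] <;> omega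
      · refine ⟨a, ta, ⟨ma + q, mem_mul hma hq, ?_, ?_⟩, ⟨ma + q', mem_mul hma hq', ?_, ?_⟩⟩ <;>
          simp only [Finsupp.coe_add, Pi.add_apply] <;> omega
  · intro h
    obtain ⟨w, ⟨m, hm, em⟩, ⟨p, hp, p1, p2⟩, ⟨q, hq, q1, q2⟩⟩ :=
      h a b ⟨ma, mem_add.2 (Or.inl hma), ea⟩ ⟨mb, mem_add.2 (Or.inr hmb), eb⟩
    rcases mem_add.1 hm with hm | hm
    · rcases mem_add.1 hq with hq | hq
      · exact q2 (dy b ⟨mb, hmb, eb⟩ q hq)
      · exact q1 (dx w ⟨m, hm, em⟩ q hq)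
    · rcases mem_add.1 hp with hp | hp
      · exact p2 (dy w ⟨m, hm, em⟩ p hp)
      · exact p1 (dx a ⟨ma, hma, ea⟩ p hp)

open Classical in
noncomputable def col (d : ℕ) (f : R) : Fin (d + 1) × Bool :=
  (⟨deg d f, Nat.lt_succ_of_le (deg_le d f)⟩, decide (Phi f (deg d f)))

theorem main (d : ℕ) (x y : R) (hx0 : x ≠ 0) (hxc : coeff 0 x = 0) (hx : ∀ i, degreeOf i x ≤ d)
    (hxy : ∀ i, degreeOf i (x * y) ≤ d)
    (e1 : col d y = col d x) (e2 : col d (x + y) = col d x) (e3 : col d (x * y) = col d x) :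
    False := by
  simp only [col, Prod.mk.injEq, Fin.mk.injEq, decide_eq_decide] at e1 e2 e3
  have hp := deg_pos hx0 hxc hx
  have t1 := deg_top hp
  have t2 := deg_top (e1.1 ▸ hp : 0 < deg d y)
  rw [e1.1] at t2
  obtain ⟨c1, c2⟩ := core hp t1 t2 (fun m hm i => e3.1 ▸ le_deg hxy hm i)
  rw [e2.1] at e2
  rw [e3.1] at e3
  exact c2 (e2.2.2 (e3.2.1 c1))

end Pool.Agent.H32.BddDeg
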