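import Mathlib

set_option autoImplicit false

namespace Pool.Agent.H32.BinRecol

open Finset Classical

/-! A simple binary matroid is a finite set `T` of vectors of a vector space over `ZMod 2`. -/

variable {W V : Type} [AddCommGroup W] [Module (ZMod 2) W] [AddCommGroup V] [Module (ZMod 2) V]

/-- Circuits: minimal nonempty subsets with sum zero. -/
def IsCircuit (T : Finset W) (Z : Finset T) : Prop :=
  Minimal (fun Z : Finset T => Z.Nonempty ∧ ∑ e ∈ Z, (e : W) = 0) Z

/-- Cocircuits: minimal nonempty supports of linear functionals (rows space of the matrix). -/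
def IsCocircuit (T : Finset W) (C : Finset T) : Prop :=
  Minimal (fun C : Finset T => C.Nonempty ∧
    ∃ f : W →ₗ[ZMod 2] ZMod 2, ∀ e : T, e ∈ C ↔ f e = 1) C

/-- Matroid homomorphisms from `T` to `S`. -/
def IsHom (T : Finset W) (S : Finset V) (t : T → V) : Prop :=
  (∀ e, t e ∈ S) ∧ ∀ Z, IsCircuit T Z → ∑ e ∈ Z, t e = 0

/-- Adjacency in the colouring graph. -/
def Adj (T : Finset W) (t t' : T → V) : Prop :=
  t ≠ t' ∧ ∃ (C : Finset T) (c : V), IsCocircuit T C ∧ (∀ e ∈ C, t' e = t e + c) ∧
    ∀ e, e ∉ C → t' e = t e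

/-- Any two homomorphisms are joined by a path in the colouring graph. -/
def ColConn (T : Finset W) (S : Finset V) : Prop :=
  ∀ t t', IsHom T S t → IsHom T S t' →
    Relation.ReflTransGen (fun a b => IsHom T S a ∧ IsHom T S b ∧ Adj T a b) t t'

/-- `S'` is the image of a dismantling retraction of `S`. -/
def Step (S S' : Finset V) : Prop :=
  ∃ r : S → V, IsHom S S r ∧ (∀ e (h : r e ∈ S), r ⟨r e, h⟩ = r e) ∧
    Adj S Subtype.val r ∧ ∀ v, v ∈ S' ↔ ∃ e, r e = v

lemma two (v : V) : v + v = 0 := by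
  rw [← two_smul (ZMod 2), show (2 : ZMod 2) = 0 from rfl, zero_smul]

lemma z01 (x : ZMod 2) : x = 0 ∨ x = 1 := by revert x; decide

lemma hom_lin {T : Finset W} {S : Finset V} (L : W →ₗ[ZMod 2] V) (h : ∀ e : T, L e ∈ S) :
    IsHom T S (fun e => L e) :=
  ⟨h, fun Z hZ => by rw [← map_sum, hZ.1.2, map_zero]⟩

lemma sum_zero {T : Finset W} {S : Finset V} {t : T → V} (h : IsHom T S t) (Z : Finset T) :
    ∑ e ∈ Z, (e : W) = 0 → ∑ e ∈ Z, t e = 0 := by
  induction Z using Finset.strongInduction with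
  | H Z ih =>
    intro hZ
    rcases Z.eq_empty_or_nonempty with rfl | hne
    · simp
    obtain ⟨C, hC, hm⟩ := exists_minimal_le_of_wellFoundedLT
      (fun Z : Finset T => Z.Nonempty ∧ ∑ e ∈ Z, (e : W) = 0) Z ⟨hne, hZ⟩
    have h1 := sum_sdiff (f := fun e : T => (e : W)) hC
    rw [hm.1.2, add_zero, hZ] at h1
    rw [← sum_sdiff hC, h.2 C hm, add_zero]
    exact ih _ (sdiff_ssubset hC hm.1.1) h1

lemma ext_lin {T : Finset W} {S : Finset V} {t : T → V} (h : IsHom T S t) :
    ∃ L : W →ₗ[ZMod 2] V, ∀ e : T, L e = t e := by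
  let P := Fintype.linearCombination (ZMod 2) (fun e : T => (e : W))
  let Q := Fintype.linearCombination (ZMod 2) t
  have key : ∀ {U : Type} [AddCommGroup U] [Module (ZMod 2) U] (c : T → ZMod 2) (u : T → U),
      ∑ e, c e • u e = ∑ e ∈ univ.filter (fun e => c e = 1), u e := by
    intro U _ _ c u
    rw [sum_filter]
    refine sum_congr rfl fun e _ => ?_
    rcases z01 (c e) with h | h <;> simp [h]
  have hk : LinearMap.ker P ≤ LinearMap.ker Q := by
    intro c hc
    simp only [LinearMap.mem_ker, P, Q, Fintype.linearCombination_apply, key] at hc ⊢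
    exact sum_zero h _ hc
  obtain ⟨L, hL⟩ := ((LinearMap.ker P).liftQ Q hk ∘ₗ
    P.quotKerEquivRange.symm.toLinearMap).exists_extend
  refine ⟨L, fun e => ?_⟩
  have h1 : P (Pi.single e 1) = e := by simp [P]
  have h2 := LinearMap.congr_fun hL ⟨P (Pi.single e 1), LinearMap.mem_range_self _ _⟩
  simp only [LinearMap.comp_apply, Submodule.subtype_apply, LinearEquiv.coe_coe,
    LinearMap.quotKerEquivRange_symm_apply_image, Submodule.mkQ_apply, Submodule.liftQ_apply] at h2
  rw [← h1, h2]; simp [Q]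

lemma Adj.form {T : Finset W} {t t' : T → V} (h : Adj T t t') :
    ∃ (f : W →ₗ[ZMod 2] ZMod 2) (c : V), c ≠ 0 ∧ ∀ e : T, t' e = t e + f e • c := by
  obtain ⟨hne, C, c, hC, h1, h2⟩ := h
  obtain ⟨f, hf⟩ := hC.1.2
  have : ∀ e : T, t' e = t e + f e • c := fun e => by
    rcases z01 (f e) with h | h
    · rw [h2 e (fun hh => by simp [(hf e).1 hh] at h), h, zero_smul, add_zero]
    · rw [h1 e ((hf e).2 h), h, one_smul]
  exact ⟨f, c, fun hc => hne (funext fun e => by rw [this, hc, smul_zero, add_zero]), this⟩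

lemma Adj.map {T : Finset W} {S : Finset V} {a b : T → V} (L : V →ₗ[ZMod 2] V)
    (h : Adj T a b) : (fun e => L (a e)) = (fun e => L (b e)) ∨
      Adj T (fun e => L (a e)) (fun e => L (b e)) := by
  obtain ⟨-, C, c, hC, h1, h2⟩ := h
  by_cases e : (fun e => L (a e)) = (fun e => L (b e))
  · exact Or.inl e
  · exact Or.inr ⟨e, C, L c, hC, fun e he => by simp [h1 e he], fun e he => by simp [h2 e he]⟩

lemma IsHom.map {T : Finset W} {S S' : Finset V} {a : T → V} (L : V →ₗ[ZMod 2] V)
    (h : IsHom T S a) (hL : ∀ v ∈ S, L v ∈ S') : IsHom T S' (fun e => L (a e)) :=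
  ⟨fun e => hL _ (h.1 e), fun Z hZ => by rw [← map_sum, h.2 Z hZ, map_zero]⟩

lemma core {S : Finset V} (hc : ColConn S S) (hs : ∀ S', ¬ Step S S') (g : S → V)
    (hg : IsHom S S g) : Function.Injective g := by
  have hid : IsHom S S Subtype.val := hom_lin (S := S) LinearMap.id fun e => e.2
  have : ∃ L : V →ₗ[ZMod 2] V, (∀ v ∈ S, L v ∈ S) ∧ ∀ e, L (g e) = e := by
    have p := hc _ _ hid hg
    clear hg
    induction p with
    | refl => exact ⟨LinearMap.id, fun _ h => h, fun _ => rfl⟩
    | @tail a b _ hab ih =>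
      obtain ⟨L, h1, h2⟩ := ih
      obtain ⟨-, hb, hab⟩ := hab
      have e0 : (fun e => L (a e)) = Subtype.val := funext h2
      rcases hab.map (S := S) L with h | h
      · exact ⟨L, h1, fun e => by rw [← congrFun h e, h2]⟩
      rw [e0] at h
      obtain ⟨f, c, -, hf⟩ := h.form
      have hb' := hb.map L h1
      rcases z01 (f c) with h0 | h0
      · refine ⟨(LinearMap.id + f.smulRight c) ∘ₗ L, fun v hv => ?_, fun e => ?_⟩
        · have := hb'.1 ⟨L v, h1 v hv⟩
          simp only [hf] at this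
          simpa using this
        · have := hf e
          simp [this, h0, add_assoc, two]
      · refine absurd ⟨_, hb', fun e he => ?_, h, fun v => mem_image.trans (by simp)⟩
          (hs (univ.image fun e => L (b e)))
        have e1 := hf e
        have e2 := hf ⟨_, he⟩
        have e3 : f (L (b e)) = 0 := by
          rw [e1]; simp [h0, CharTwo.add_self_eq_zero]
        show L (b ⟨L (b e), he⟩) = L (b e)
        rw [e2]
        show L (b e) + f (L (b e)) • c = _
        rw [e3, zero_smul, add_zero]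
  obtain ⟨L, -, h⟩ := this
  exact fun x y e => Subtype.ext (by rw [← h x, e, h y])

lemma single {S : Finset V} (hne : S.Nonempty) (hc : ColConn (S ×ˢ S) S)
    (core : ∀ g : S → V, IsHom S S g → Function.Injective g) : S.card = 1 := by
  have h1 : IsHom (S ×ˢ S) S fun e => LinearMap.fst (ZMod 2) V V e :=
    hom_lin _ fun e => (mem_product.1 e.2).1
  have h2 : IsHom (S ×ˢ S) S fun e => LinearMap.snd (ZMod 2) V V e :=
    hom_lin _ fun e => (mem_product.1 e.2).2
  have key : ∀ t, Relation.ReflTransGen (fun a b => IsHom (S ×ˢ S) S a ∧ IsHom (S ×ˢ S) S b ∧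
      Adj (S ×ˢ S) a b) (fun e => LinearMap.fst (ZMod 2) V V e) t →
      ∀ x y : ↥(S ×ˢ S), x.1.1 = y.1.1 → t x = t y := by
    intro t p
    induction p with
    | refl => exact fun x y h => h
    | @tail a b _ hab ih =>
      obtain ⟨ha, hb, hab⟩ := hab
      obtain ⟨f, c, hc0, hf⟩ := hab.form
      rintro ⟨⟨x, y⟩, hxy⟩ ⟨⟨x', y'⟩, hxy'⟩ (rfl : x = x')
      by_contra hne'
      have hy := (mem_product.1 hxy).2
      have hy' := (mem_product.1 hxy').2
      have d : f (x, y) ≠ f (x, y') := fun e => hne' (by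
        rw [hf, hf, ih ⟨_, hxy⟩ ⟨_, hxy'⟩ rfl]; simp only [e])
      obtain ⟨L, hL⟩ := ext_lin ha
      have hg : IsHom S S fun e => (L ∘ₗ (LinearMap.id.prod LinearMap.id)) e :=
        hom_lin _ fun e => by
          have := ha.1 ⟨(e.1, e.1), mem_product.2 ⟨e.2, e.2⟩⟩
          rw [← hL] at this; exact this
      have hsurj : Function.Surjective fun e : S => (⟨_, hg.1 e⟩ : S) :=
        Finite.surjective_of_injective fun u v e => core _ hg (congrArg Subtype.val e)
      have hS : ∀ s ∈ S, s + c ∈ S := by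
        intro s hs
        obtain ⟨u, hu⟩ := hsurj ⟨s, hs⟩
        have hu' : a ⟨(u.1, u.1), mem_product.2 ⟨u.2, u.2⟩⟩ = s := by
          rw [← hL]; exact congrArg Subtype.val hu
        have w : ∀ z (hz : z ∈ S), f (u.1, z) = 1 → s + c ∈ S := fun z hz h => by
          have := hb.1 ⟨(u.1, z), mem_product.2 ⟨u.2, hz⟩⟩
          rwa [hf, ih ⟨(u.1, z), mem_product.2 ⟨u.2, hz⟩⟩ ⟨(u.1, u.1), mem_product.2 ⟨u.2, u.2⟩⟩ rfl,
            hu', h, one_smul] at this
        rcases z01 (f (u.1, y)) with k | k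
        · rcases z01 (f (u.1, y')) with k' | k'
          · refine absurd ?_ d
            have e1 : (x, y) = (u.1, y) + (x - u.1, 0) := by simp
            have e2 : (x, y') = (u.1, y') + (x - u.1, 0) := by simp
            rw [e1, e2, map_add, map_add, k, k']
          · exact w _ hy' k'
        · exact w _ hy k
      obtain ⟨p, hp⟩ : ∃ p : Module.Dual (ZMod 2) V, p c ≠ 0 := by
        by_contra hh
        push Not at hh
        exact hc0 ((Module.forall_dual_apply_eq_zero_iff _ c).1 hh)
      have hp1 := (z01 _).resolve_left hp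
      have hk : IsHom S S fun e => (LinearMap.id + p.smulRight c : V →ₗ[ZMod 2] V) e :=
        hom_lin _ fun e => by
          rcases z01 (p e) with h | h
          · simp [h]
          · simpa [h] using hS _ e.2
      have := core _ hk (a₁ := ⟨y, hy⟩) (a₂ := ⟨y + c, hS y hy⟩) (by
        simp [hp1, add_smul, add_assoc, add_left_comm c, two])
      exact hc0 (by simpa using this)
  obtain ⟨s, hs⟩ := hne
  refine card_eq_one.2 ⟨s, eq_singleton_iff_unique_mem.2 ⟨hs, fun x hx => ?_⟩⟩
  exact key _ (hc _ _ h1 h2) ⟨(s, x), mem_product.2 ⟨hs, hx⟩⟩ ⟨(s, s), mem_product.2 ⟨hs, hs⟩⟩ rfl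

theorem main (S : Finset V) : S.Nonempty →
    (∀ (W : Type) [AddCommGroup W] [Module (ZMod 2) W] (T : Finset W), ColConn T S) →
    ∃ S', Relation.ReflTransGen Step S S' ∧ S'.card = 1 := by
  induction S using Finset.strongInduction with
  | H S ih =>
    intro hne hc
    by_cases hs : ∃ S', Step S S'
    · obtain ⟨S', hS'⟩ := hs
      obtain ⟨r, h1, h2, h3, h4⟩ := id hS'
      have sub : S' ⊆ S := fun v hv => by obtain ⟨e, rfl⟩ := (h4 v).1 hv; exact h1.1 e
      obtain ⟨L, hL⟩ := ext_lin h1
      have fix : ∀ v ∈ S', L v = v := fun v hv => by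
        obtain ⟨e, rfl⟩ := (h4 v).1 hv
        exact (hL ⟨_, h1.1 e⟩).trans (h2 e _)
      have into : ∀ v ∈ S, L v ∈ S' := fun v hv => (h4 _).2 ⟨⟨v, hv⟩, (hL ⟨v, hv⟩).symm⟩
      obtain ⟨S'', p, hp⟩ := ih S' ⟨sub, fun h => h3.1 (funext fun e => by
        rw [← hL, fix _ (h e.2)])⟩ (by obtain ⟨s, hs⟩ := hne; exact ⟨_, into s hs⟩) (by
          intro W _ _ T t t' ht ht'
          have p := hc W T t t' ⟨fun e => sub (ht.1 e), ht.2⟩ ⟨fun e => sub (ht'.1 e), ht'.2⟩
          have q : Relation.ReflTransGen (fun a b => IsHom T S' a ∧ IsHom T S' b ∧ Adj T a b)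
              (fun e => L (t e)) (fun e => L (t' e)) := by
            clear ht'
            induction p with
            | refl => exact .refl
            | tail _ hab ih =>
              rcases hab.2.2.map (S := S) L with h | h
              · exact h ▸ ih
              · exact ih.tail ⟨hab.1.map L into, hab.2.1.map L into, h⟩
          rwa [funext fun e => fix _ (ht.1 e), funext fun e => fix _ (ht'.1 e)] at q)
      exact ⟨S'', .head hS' p, hp⟩
    · push Not at hs
      exact ⟨S, .refl, single hne (hc _ _) (core (hc _ _) hs)⟩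

end Pool.Agent.H32.BinRecol
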