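import Mathlib

set_option autoImplicit false

namespace Pool.Agent.H32.Brauer

open Filter

theorem ulim {κ : Type} [Finite κ] (U : Ultrafilter ℕ) (f : ℕ → κ) :
    ∃ c, ∀ᶠ N in (U : Filter ℕ), f N = c := by
  obtain ⟨c, hc⟩ := Ultrafilter.eq_pure_of_finite (U.map f)
  refine ⟨c, ?_⟩
  have : {c} ∈ U.map f := by rw [hc]; simp
  exact this

theorem brauer_aux {κ : Type} [Finite κ] (m : ℕ) (C : Finset κ) :
    ∀ χ : ℕ → κ, (∀ t, 0 < t → χ t ∈ C) →
      ∃ b w, 0 < b ∧ 0 < w ∧ χ b = χ w ∧ χ (b + m * w) = χ w := by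
  classical
  induction C using Finset.strongInduction with
  | H C ih =>
    intro χ hχ
    by_contra hno
    have h1 : ∀ N : ℕ, ∃ a, 0 < a ∧ ∃ c ∈ C, ∀ t, 0 < t → t ≤ N → χ (a * t) ≠ c := by
      intro N
      obtain ⟨a, ha, b, c, hc⟩ := Combinatorics.exists_mono_homothetic_copy
        (Finset.range (m * N + 1)) (fun n => χ (n + 1))
      have h0 : χ (b + 1) = c := by simpa using hc 0 (by simp)
      refine ⟨a, ha, c, h0 ▸ hχ _ (by omega), ?_⟩
      intro t ht htN hcon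
      apply hno
      refine ⟨b + 1, a * t, by omega, Nat.mul_pos ha ht, h0.trans hcon.symm, ?_⟩
      have := hc (m * t) (by
        simp only [Finset.mem_range]
        have := Nat.mul_le_mul_left m htN
        omega)
      simp only [smul_eq_mul] at this
      rw [hcon, ← this]
      congr 1
      ring
    choose a ha c hcC hc using h1
    let U := Filter.hyperfilter ℕ
    obtain ⟨c0, hc0⟩ := ulim U c
    choose χ' hχ' using fun t => ulim U (fun N => χ (a N * t))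
    have hge : ∀ t : ℕ, ∀ᶠ N in (U : Filter ℕ), t ≤ N := by
      intro t
      apply Filter.hyperfilter_le_cofinite
      rw [Nat.cofinite_eq_atTop]
      exact Filter.eventually_ge_atTop t
    have hc0C : c0 ∈ C := by
      obtain ⟨N, hN⟩ := hc0.exists
      exact hN ▸ hcC N
    obtain ⟨b, w, hb, hw, e1, e2⟩ := ih (C.erase c0) (Finset.erase_ssubset hc0C) χ' (by
      intro t ht
      obtain ⟨N, hN1, hN2, hN3⟩ := (hc0.and ((hχ' t).and (hge t))).exists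
      rw [Finset.mem_erase, ← hN1, ← hN2]
      exact ⟨hc N t ht hN3, hχ _ (Nat.mul_pos (ha N) ht)⟩)
    obtain ⟨N, hN1, hN2, hN3⟩ := ((hχ' b).and ((hχ' w).and (hχ' (b + m * w)))).exists
    apply hno
    refine ⟨a N * b, a N * w, Nat.mul_pos (ha N) hb, Nat.mul_pos (ha N) hw, by
      rw [hN1, hN2, e1], ?_⟩
    rw [hN2, ← e2, ← hN3]
    congr 1
    ring

theorem brauer {κ : Type} [Finite κ] (m : ℕ) (χ : ℕ → κ) :
    ∃ b w, 0 < b ∧ 0 < w ∧ χ b = χ w ∧ χ (b + m * w) = χ w := by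
  have := Fintype.ofFinite κ
  exact brauer_aux m Finset.univ χ (fun _ _ => Finset.mem_univ _)

theorem step {κ : Type} [Finite κ] (m : ℕ) (χ : ℕ → κ) (S : Finset ℕ) :
    ∃ w, 0 < w ∧ ∀ P ∈ S, 0 < P →
      ∃ y, 0 < y ∧ χ y = χ (P * w) ∧ χ (y + m * (P * w)) = χ (P * w) := by
  obtain ⟨b, w, hb, hw, e1, e2⟩ := brauer m (fun n => fun P : S => χ (P * n))
  refine ⟨w, hw, fun P hP hP0 => ⟨P * b, Nat.mul_pos hP0 hb, congrFun e1 ⟨P, hP⟩, ?_⟩⟩
  have := congrFun e2 ⟨P, hP⟩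
  simp only at this
  rw [← this]
  congr 1
  ring

theorem both {κ : Type} [Finite κ] (m : ℕ) (χ : ℕ → κ) :
    ∃ w z y, 0 < w ∧ 0 < z ∧ 0 < y ∧ χ w = χ (w * z) ∧ χ z = χ (w * z) ∧ χ y = χ (w * z) ∧
      χ (y + m * (w * z)) = χ (w * z) := by
  classical
  choose F hF0 hF using step m χ
  let nx : Finset ℕ → Finset ℕ := fun S => S ∪ S.image (· * F S)
  let G : Set ℕ := {n | 0 < n ∧ ∃ y, 0 < y ∧ χ y = χ n ∧ χ (y + m * n) = χ n}
  have key : ∀ (a : Stream' ℕ) (n : ℕ), n ∈ Hindman.FP a → ∀ S, a = Stream'.corec F nx S →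
      ∀ P ∈ S, 0 < P → P * n ∈ G := by
    intro a n hn
    induction hn with
    | head' a =>
      intro S hS P hP hP0
      have : a.head = F S := by rw [hS, Stream'.corec_eq]; rfl
      rw [this]
      exact ⟨Nat.mul_pos hP0 (hF0 S), hF S P hP hP0⟩
    | tail' a n h ih =>
      intro S hS P hP hP0
      exact ih (nx S) (by rw [hS, Stream'.corec_eq]; rfl) P (Finset.mem_union_left _ hP) hP0
    | cons' a n h ih =>
      intro S hS P hP hP0
      have : a.head = F S := by rw [hS, Stream'.corec_eq]; rfl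
      rw [this, ← mul_assoc]
      exact ih (nx S) (by rw [hS, Stream'.corec_eq]; rfl) _
        (Finset.mem_union_right _ (Finset.mem_image_of_mem _ hP)) (Nat.mul_pos hP0 (hF0 S))
  obtain ⟨s, ⟨c, rfl⟩, b, hb⟩ := Hindman.FP_partition_regular (Stream'.corec F nx {1})
    (Set.range fun c : κ => G ∩ χ ⁻¹' {c}) (Set.finite_range _) (by
      intro n hn
      have := key _ n hn {1} rfl 1 (by simp) one_pos
      rw [one_mul] at this
      exact ⟨_, ⟨χ n, rfl⟩, this, rfl⟩)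
  have h0 := hb (Hindman.FP.singleton b 0)
  have h1 := hb (Hindman.FP.singleton b 1)
  have h2 := hb (Hindman.FP.mul_two b 0 1 one_pos)
  obtain ⟨⟨_, y, hy, e1, e2⟩, e3⟩ := h2
  refine ⟨b.get 0, b.get 1, y, h0.1.1, h1.1.1, hy, ?_, ?_, e1, e2⟩
  · exact (h0.2 : _ = c).trans (e3 : _ = c).symm
  · exact (h1.2 : _ = c).trans (e3 : _ = c).symm

theorem main : ¬ (∀ (k : ℕ) (a b c : Fin k → ℤ) (n : ℕ),
      (∀ i, a i ≠ 0 ∧ b i ≠ 0 ∧ c i ≠ 0) → 1 ≤ n →
      ((∀ (r : ℕ) (χ : ℤ → Fin r), ∃ (x y w z : Fin k → ℤ) (col : Fin r),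
          ∀ i, x i ≠ 0 ∧ y i ≠ 0 ∧ w i ≠ 0 ∧ z i ≠ 0 ∧
            a i * x i + b i * y i = c i * w i * z i ^ n ∧
            χ (x i) = col ∧ χ (y i) = col ∧ χ (w i) = col ∧ χ (z i) = col) ↔
        ∃ q : ℚ, ∀ i, q ^ n = (a i : ℚ) / (c i : ℚ) ∨ q ^ n = (b i : ℚ) / (c i : ℚ) ∨
          q ^ n = ((a i : ℚ) + (b i : ℚ)) / (c i : ℚ))) := by
  intro h
  have h1 := (h 2 ![1, 2] ![-1, 1] ![2, 3] 1 (by decide) le_rfl).1 (by
    intro r χ
    obtain ⟨w, z, y, hw, hz, hy, e1, e2, e3, e4⟩ := both 2 (fun n : ℕ => χ n)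
    have hwz : 0 < w * z := Nat.mul_pos hw hz
    refine ⟨![((y + 2 * (w * z) : ℕ) : ℤ), ((w * z : ℕ) : ℤ)], ![(y : ℤ), ((w * z : ℕ) : ℤ)],
      ![w, w], ![z, z], χ ((w * z : ℕ) : ℤ), ?_⟩
    rw [Fin.forall_fin_two]
    refine ⟨⟨?_, ?_, ?_, ?_, ?_, e4, e3, e1, e2⟩, ⟨?_, ?_, ?_, ?_, ?_, rfl, rfl, e1, e2⟩⟩
    all_goals simp only [Matrix.cons_val_zero, Matrix.cons_val_one]
    all_goals first | omega | (push_cast; ring))
  obtain ⟨q, hq⟩ := h1
  have h0 := hq 0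
  have h2 := hq 1
  simp only [Matrix.cons_val_zero, Matrix.cons_val_one, pow_one] at h0 h2
  rcases h0 with h0 | h0 | h0 <;> rcases h2 with h2 | h2 | h2 <;> rw [h0] at h2 <;> norm_num at h2

end Pool.Agent.H32.Brauer
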