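import Mathlib

set_option autoImplicit false

namespace Pool.Agent.H32.CSing

open Finset Classical Equiv

variable {A B : Type}

/-- `f ≃ g`: equal up to a permutation of the arguments. -/
def Sim {n : ℕ} (f g : (Fin n → A) → B) : Prop := ∃ τ : Perm (Fin n), ∀ a, f a = g (a ∘ τ)

/-- The identification minor for the pair `i < j`: the `i`-th entry is inserted at place `j`. -/
def minor {n : ℕ} (f : (Fin (n + 1) → A) → B) (i : Fin n) (j : Fin (n + 1)) : (Fin n → A) → B :=
  fun a => f (Fin.insertNth j (a i) a)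

/-- The pairs `i < j` of argument places of an `(n+1)`-ary function. -/
def Pairs (n : ℕ) : Type := {p : Fin n × Fin (n + 1) // (p.1 : ℕ) < p.2}

/-- Equal decks: the multisets of similarity classes of identification minors agree. -/
def SameDeck {n : ℕ} (f g : (Fin (n + 1) → A) → B) : Prop :=
  ∃ φ : Perm (Pairs n), ∀ I, Sim (minor f I.1.1 I.1.2) (minor g (φ I).1.1 (φ I).1.2)

/-- The singletons of a tuple in their order of occurrence. -/
noncomputable def sing {n : ℕ} (a : Fin n → A) : List A :=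
  (List.ofFn a).filter fun x => (List.ofFn a).count x = 1

/-- Determined by content and singletons. -/
def DetCS {n : ℕ} (f : (Fin n → A) → B) : Prop :=
  ∀ a b, (List.ofFn a : Multiset A) = (List.ofFn b : Multiset A) → sing a = sing b → f a = f b

lemma es {n m : ℕ} (τ : Fin n → Fin m) (hτ : Function.Injective τ) (k : ℕ) : ∀ a b, a + b = k →
    ∀ S : Finset (Fin n), 2 ^ k ≤ #S → (∃ T ⊆ S, #T = a ∧ StrictMonoOn τ T) ∨
      ∃ T ⊆ S, #T = b ∧ StrictAntiOn τ T := by
  induction k with
  | zero => intro a b h S _; exact Or.inl ⟨∅, by simp, by simp; omega, by simp [StrictMonoOn]⟩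
  | succ k ih =>
    rintro (_ | a) b h S hS
    · exact Or.inl ⟨∅, by simp, rfl, by simp [StrictMonoOn]⟩
    rcases b with _ | b
    · exact Or.inr ⟨∅, by simp, rfl, by simp [StrictAntiOn]⟩
    have hne : S.Nonempty := card_pos.1 (lt_of_lt_of_le (by positivity) hS)
    have hp := S.min'_mem hne
    have lt : ∀ x ∈ S.erase (S.min' hne), S.min' hne < x := fun x hx =>
      lt_of_le_of_ne (S.min'_le x (mem_erase.1 hx).2) (mem_erase.1 hx).1.symm
    generalize S.min' hne = p at hp lt
    have c := card_filter_add_card_filter_not (s := S.erase p) fun x => τ p < τ x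
    rw [card_erase_of_mem hp] at c
    have sub : ∀ (P : Fin n → Prop) [DecidablePred P] (T : Finset (Fin n)),
      T ⊆ {x ∈ S.erase p | P x} → T ⊆ S := fun P _ T h => h.trans ((filter_subset _ _).trans (erase_subset _ _))
    have nm : ∀ (P : Fin n → Prop) [DecidablePred P] (T : Finset (Fin n)),
      T ⊆ {x ∈ S.erase p | P x} → p ∉ T := fun P _ T h hp => by simpa using h hp
    by_cases h1 : 2 ^ k ≤ #{x ∈ S.erase p | τ p < τ x}
    · rcases ih a (b + 1) (by omega) _ h1 with ⟨T, t1, t2, t3⟩ | ⟨T, t1, t2, t3⟩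
      · refine Or.inl ⟨insert p T, insert_subset hp (sub _ _ t1),
          by rw [card_insert_of_notMem (nm _ _ t1), t2], fun x hx y hy l => ?_⟩
        rw [mem_coe, mem_insert] at hx hy
        rcases hy with rfl | hy
        · rcases hx with rfl | hx
          exacts [absurd l (lt_irrefl _), absurd l (lt x (mem_filter.1 (t1 hx)).1).not_gt]
        · rcases hx with rfl | hx
          exacts [(mem_filter.1 (t1 hy)).2, t3 hx hy l]
      · exact Or.inr ⟨T, sub _ _ t1, t2, t3⟩
    · rcases ih (a + 1) b (by omega) {x ∈ S.erase p | ¬ τ p < τ x} (by rw [pow_succ] at hS; omega)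
        with ⟨T, t1, t2, t3⟩ | ⟨T, t1, t2, t3⟩
      · exact Or.inl ⟨T, sub _ _ t1, t2, t3⟩
      · refine Or.inr ⟨insert p T, insert_subset hp (sub _ _ t1),
          by rw [card_insert_of_notMem (nm _ _ t1), t2], fun x hx y hy l => ?_⟩
        rw [mem_coe, mem_insert] at hx hy
        rcases hy with rfl | hy
        · rcases hx with rfl | hx
          exacts [absurd l (lt_irrefl _), absurd l (lt x (mem_filter.1 (t1 hx)).1).not_gt]
        · rcases hx with rfl | hx
          exacts [lt_of_le_of_ne (not_lt.1 (mem_filter.1 (t1 hy)).2) fun e => l.ne' (hτ e),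
            t3 hx hy l]

lemma sing_eq {m s : ℕ} (a : Fin m → A) (e : Fin s → Fin m) (he : StrictMono e)
    (h : ∀ p, (List.ofFn a).count (a p) = 1 ↔ ∃ t, e t = p) : sing a = List.ofFn (a ∘ e) := by
  have : (List.finRange m).filter (fun p => (List.ofFn a).count (a p) = 1) = List.ofFn e :=
    List.Pairwise.eq_of_mem_iff (r := (· < ·)) ((List.pairwise_lt_finRange m).filter _)
      (List.pairwise_ofFn.2 fun _ _ l => he l) (by simp [h])
  rw [← List.map_ofFn, ← this, sing]
  have : ∀ l : List A, (List.ofFn a).filter (fun x => l.count x = 1) =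
      ((List.finRange m).filter fun p => l.count (a p) = 1).map a := fun l => by
    rw [List.ofFn_eq_map, List.filter_map]
    rfl
  exact this _

lemma det {m s : ℕ} {f : (Fin m → A) → B} (hf : DetCS f) (c : Fin m → A) (e e' : Fin s → Fin m)
    (he : StrictMono e) (he' : StrictMono e')
    (h : ∀ p, (List.ofFn c).count (c p) = 1 ↔ ∃ t, e t = p) (σ : Perm (Fin m))
    (hσ : ∀ t, σ (e' t) = e t) : f (c ∘ σ) = f c := by
  have p := σ.ofFn_comp_perm c
  refine hf _ _ (Multiset.coe_eq_coe.2 p) ?_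
  rw [sing_eq c e he h, sing_eq _ e' he' fun q => ?_]
  · exact congrArg _ (funext fun t => congrArg c (hσ t))
  · rw [p.count_eq, Function.comp_apply, h]
    exact exists_congr fun t => by rw [← hσ, σ.apply_eq_iff_eq]

lemma ins {n : ℕ} (c : Fin (n + 1) → A) (q j : Fin (n + 1)) (ρ : Perm (Fin n)) :
    ∃ σ : Perm (Fin (n + 1)), (∀ k, σ (j.succAbove k) = q.succAbove (ρ k)) ∧
      (Fin.insertNth j (c q) (fun k => c (q.succAbove (ρ k))) : Fin (n + 1) → A) = c ∘ σ := by
  refine ⟨(finSuccEquiv' j).trans (ρ.optionCongr.trans (finSuccEquiv' q).symm), by simp, ?_⟩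
  rw [Fin.insertNth_eq_iff]
  exact ⟨by simp, funext fun k => by simp [Fin.removeNth]⟩

lemma cnt {m : ℕ} (c : Fin m → A) (x : A) : (List.ofFn c).count x = #{p | c p = x} := by
  rw [← Multiset.coe_count, ← Fin.univ_val_map, Multiset.count_map]
  simp only [eq_comm (a := x)]
  rfl

theorem weak [Fintype A] {n : ℕ} (hn : 2 ^ (2 * Fintype.card A) + 2 ≤ n)
    (f g : (Fin (n + 1) → A) → B) (hf : DetCS f) (hg : DetCS g) (h : SameDeck f g) : Sim f g := by
  have hk : 2 * Fintype.card A < 2 ^ (2 * Fintype.card A) := Nat.lt_two_pow_self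
  obtain ⟨φ, hφ⟩ := h
  obtain ⟨τ, hτ⟩ := hφ ⟨(⟨0, by omega⟩, ⟨1, by omega⟩), Nat.one_pos⟩
  generalize (φ _).1.1 = i, (φ _).1.2 = j at hτ
  simp only [minor] at hτ
  generalize (⟨0, by omega⟩ : Fin n) = i0 at hτ
  generalize (⟨1, by omega⟩ : Fin (n + 1)) = j0 at hτ
  have key : ∀ T : Finset (Fin n), T ⊆ univ \ {i0, τ i} → #T = Fintype.card A →
      ∀ c : Fin (n + 1) → A, ∃ (s : ℕ) (e : Fin s → Fin (n + 1)) (d : Fin s → Fin n)
        (σ : Perm (Fin (n + 1))), StrictMono e ∧ StrictMono d ∧ (∀ t, d t ∈ T) ∧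
        (∀ p, (List.ofFn c).count (c p) = 1 ↔ ∃ t, e t = p) ∧
        (∀ t, σ (j.succAbove (τ.symm (d t))) = e t) ∧ f c = g (c ∘ σ) := by
    intro T hT hc c
    obtain ⟨x, -, hx⟩ := exists_lt_card_fiber_of_mul_lt_card_of_maps_to (s := univ) (t := univ)
      (f := c) (n := 2) (fun _ _ => mem_univ _) (by simp; omega)
    obtain ⟨q, q1, q2, m0, m1, m2, n1, n2, n3⟩ := two_lt_card_iff.1 hx
    obtain ⟨r1, rfl⟩ := Fin.exists_succAbove_eq n1.symm
    obtain ⟨r2, rfl⟩ := Fin.exists_succAbove_eq n2.symm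
    have hx' : (List.ofFn c).count x ≠ 1 := by rw [cnt]; omega
    simp only [mem_filter, mem_univ, true_and] at m0 m1 m2
    let S : Finset (Fin n) := {k | (List.ofFn c).count (c (q.succAbove k)) = 1}
    have hS : #S ≤ #T := by
      rw [hc, ← card_univ]
      refine card_le_card_of_injOn (fun k => c (q.succAbove k)) (fun _ _ => mem_univ _)
        fun k hk l hl e => ?_
      have := (mem_filter.1 hk).2
      rw [cnt] at this
      exact Fin.succAbove_right_injective (p := q)
        (card_le_one.1 this.le _ (by simp) _ (by simpa using e.symm))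
    obtain ⟨T', t1, t2⟩ := exists_subset_card_eq hS
    let e := S.orderEmbOfFin rfl
    let d := T'.orderEmbOfFin t2
    have de : ∀ t, d t ∈ T := fun t => t1 (T'.orderEmbOfFin_mem t2 t)
    have dn : ∀ t, d t ≠ i0 ∧ d t ≠ τ i := fun t => by simpa using hT (de t)
    have ee : ∀ t, (List.ofFn c).count (c (q.succAbove (e t))) = 1 := fun t =>
      (mem_filter.1 (S.orderEmbOfFin_mem rfl t)).2
    obtain ⟨ρ, hρ⟩ := Perm.exists_extending_pair
      (f := Sum.elim d (Subtype.val : ({i0, τ i} : Finset (Fin n)) → Fin n))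
      (g := Sum.elim e fun y => if y.1 = i0 then r1 else r2)
      (d.injective.sumElim Subtype.val_injective fun t y h => by
        have := dn t; have := y.2; grind)
      (e.injective.sumElim (fun y z h => by
        have := y.2; have := z.2; apply Subtype.ext; grind) fun t y h => by
          have := ee t; grind)
    have a0 : c (q.succAbove (ρ i0)) = c q := by
      have := hρ (.inr ⟨i0, by simp⟩)
      grind
    have a1 : c (q.succAbove (ρ (τ i))) = c q := by
      have := hρ (.inr ⟨τ i, by simp⟩)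
      grind
    have hρ' : ∀ t, ρ (d t) = e t := fun t => hρ (.inl t)
    have he : ∀ p, (List.ofFn c).count (c p) = 1 ↔ ∃ t, q.succAbove (e t) = p := fun p => by
      refine ⟨fun h => ?_, by rintro ⟨t, rfl⟩; exact ee t⟩
      obtain ⟨k, rfl⟩ := Fin.exists_succAbove_eq (show p ≠ q by rintro rfl; exact hx' (m0 ▸ h))
      obtain ⟨t, ht⟩ : k ∈ Set.range e := by simpa [e, S] using h
      exact ⟨t, congrArg _ ht⟩
    have se := (Fin.strictMono_succAbove q).comp e.strictMono
    obtain ⟨σ0, s1, s2⟩ := ins c q j0 ρ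
    obtain ⟨σ, s3, s4⟩ := ins c q j (τ.trans ρ)
    refine ⟨_, _, d, σ, se, d.strictMono, de, he, fun t => by simp [s3, hρ'], ?_⟩
    have := hτ fun k => c (q.succAbove (ρ k))
    rw [← det hf c _ _ se ((Fin.strictMono_succAbove j0).comp d.strictMono) he σ0
      (fun t => by simp [s1, hρ']), ← s2, ← s4, ← a0, this, Function.comp_apply, a1, a0]
    rfl
  have cd : 2 ^ (2 * Fintype.card A) ≤ #(univ \ {i0, τ i} : Finset (Fin n)) := by
    have := le_card_sdiff {i0, τ i} (univ : Finset (Fin n))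
    have := card_le_two (a := i0) (b := τ i)
    simp only [card_univ, Fintype.card_fin] at *
    omega
  rcases es τ.symm τ.symm.injective _ _ _ (two_mul _).symm _ cd with ⟨T, t1, t2, t3⟩ | ⟨T, t1, t2, t3⟩
  · refine ⟨1, fun c => ?_⟩
    obtain ⟨s, e, d, σ, h1, h2, h3, h4, h5, h6⟩ := key T t1 t2 c
    exact h6.trans (det hg c e _ h1
      (fun x y l => Fin.strictMono_succAbove j (t3 (h3 x) (h3 y) (h2 l))) h4 σ h5)
  · refine ⟨Fin.revPerm, fun c => ?_⟩
    obtain ⟨s, e, d, σ, h1, h2, h3, h4, h5, h6⟩ := key T t1 t2 c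
    rw [h6, ← det hg (c ∘ Fin.revPerm) (fun t => (e t.rev).rev)
      (fun t => j.succAbove (τ.symm (d t.rev)))
      (fun x y l => Fin.rev_lt_rev.2 (h1 (Fin.rev_lt_rev.2 l)))
      (fun x y l => Fin.strictMono_succAbove j (t3 (h3 _) (h3 _) (h2 (Fin.rev_lt_rev.2 l))))
      (fun p => ?_) (σ.trans Fin.revPerm) (fun t => by simp [h5])]
    · exact congrArg g (funext fun k => by simp)
    · rw [(Fin.revPerm.ofFn_comp_perm c).count_eq, Function.comp_apply, h4]
      exact ⟨fun ⟨t, h⟩ => ⟨t.rev, by simp [h]⟩, fun ⟨t, h⟩ => ⟨t.rev, by simp [← h]⟩⟩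

theorem inf [Infinite A] [Nontrivial B] {n : ℕ} : ∃ f g : (Fin (n + 1) → A) → B,
    DetCS f ∧ DetCS g ∧ SameDeck f g ∧ ¬ Sim f g := by
  obtain ⟨x, y, hxy⟩ := exists_pair_ne B
  refine ⟨fun _ => x, fun a => if Function.Injective a then y else x, fun _ _ _ _ => rfl,
    fun a b h _ => ?_, ⟨1, fun I => ⟨1, fun a => ?_⟩⟩, fun ⟨τ, h⟩ => ?_⟩
  · simp only [← List.nodup_ofFn, (Multiset.coe_eq_coe.1 h).nodup_iff]
  · simp only [minor]
    rw [if_neg fun h => Fin.succAbove_ne _ _ (h (a₁ := I.1.2.succAbove I.1.1) (a₂ := I.1.2) (by simp))]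
  · have := h (fun k => Infinite.natEmbedding A k)
    beta_reduce at this
    rw [if_pos] at this
    · exact hxy this
    · exact ((Infinite.natEmbedding A).injective.comp Fin.val_injective).comp τ.injective

end Pool.Agent.H32.CSing
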