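import Pool.Agent.H32.CapDefs

set_option autoImplicit false

namespace Pool.Agent.H32.Cap

open Finset Classical

def A (n v : ℕ) : ℕ := v + (3 * n ^ 2 + 1) * (v ^ 2 + (3 * n ^ 2 + 1) * v ^ 3)

lemma A_mono (n : ℕ) : StrictMono (A n) := fun a b h => by
  unfold A
  have := Nat.mul_le_mul_left (3 * n ^ 2 + 1) (Nat.add_le_add (Nat.pow_le_pow_left h.le 2)
    (Nat.mul_le_mul_left (3 * n ^ 2 + 1) (Nat.pow_le_pow_left h.le 3)))
  omega

lemma dig {B a b c d : ℕ} (ha : a < B) (hc : c < B) (h : a + B * b = c + B * d) : a = c ∧ b = d := by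
  have h1 := congrArg (· % B) h
  simp only [Nat.add_mul_mod_self_left, Nat.mod_eq_of_lt ha, Nat.mod_eq_of_lt hc] at h1
  exact ⟨h1, Nat.eq_of_mul_eq_mul_left (by omega : 0 < B) (by omega)⟩

lemma b3 {n u w z v x y : ℕ} (h1 : u < n) (h2 : w < n) (h3 : z < n) (h4 : v < n) (h5 : x < n)
    (h6 : y < n) (h : A n u + A n w + A n z = A n v + A n x + A n y) (a : u ≠ v) (b : w ≠ x)
    (c : y ≠ z) : (u = y ∧ w = v ∧ z = x) ∨ (u = x ∧ w = y ∧ z = v) := by
  have sq : ∀ i < n, i ≤ n ^ 2 ∧ i ^ 2 ≤ n ^ 2 := fun i hi =>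
    ⟨by nlinarith, Nat.pow_le_pow_left hi.le 2⟩
  have := sq u h1; have := sq w h2; have := sq z h3; have := sq v h4; have := sq x h5
  have := sq y h6
  obtain ⟨p1, e⟩ := dig (B := 3 * n ^ 2 + 1) (a := u + w + z) (c := v + x + y)
    (b := u ^ 2 + w ^ 2 + z ^ 2 + (3 * n ^ 2 + 1) * (u ^ 3 + w ^ 3 + z ^ 3))
    (d := v ^ 2 + x ^ 2 + y ^ 2 + (3 * n ^ 2 + 1) * (v ^ 3 + x ^ 3 + y ^ 3))
    (by omega) (by omega) (by unfold A at h; linarith)
  obtain ⟨p2, p3⟩ := dig (by omega) (by omega) e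
  zify at p1 p2 p3 a b c ⊢
  generalize (u : ℤ) = u, (w : ℤ) = w, (z : ℤ) = z, (v : ℤ) = v, (x : ℤ) = x, (y : ℤ) = y at *
  obtain rfl : z = v + x + y - u - w := by omega
  have k : 6 * ((u - v) * ((u - x) * (u - y))) = 0 := by
    linear_combination 2 * p3 + (3 * u - 3 * (v + x + y)) * p2
  rcases mul_eq_zero.1 ((mul_eq_zero.1 ((mul_eq_zero.1 k).resolve_left (by norm_num))).resolve_left
    (sub_ne_zero.2 a)) with e | e
  · obtain rfl : u = x := by omega
    have : 2 * ((w - v) * (w - y)) = 0 := by linear_combination p2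
    rcases mul_eq_zero.1 ((mul_eq_zero.1 this).resolve_left (by norm_num)) with e | e <;> omega
  · obtain rfl : u = y := by omega
    have : 2 * ((w - v) * (w - x)) = 0 := by linear_combination p2
    rcases mul_eq_zero.1 ((mul_eq_zero.1 this).resolve_left (by norm_num)) with e | e <;> omega

variable {n : ℕ} {adj : ℕ → ℕ → Bool}

def Good (n : ℕ) (adj : ℕ → ℕ → Bool) (f g : ℕ) : Prop :=
  f < n ∧ g < n ∧ f ≠ g ∧ adj f g = false ∧ adj g f = false

def Ind (n : ℕ) (adj : ℕ → ℕ → Bool) (S : Finset ℕ) : Prop :=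
  (∀ v ∈ S, v < n) ∧ ∀ u ∈ S, ∀ v ∈ S, u ≠ v → adj u v = false

lemma swap {ι : Type} {α : ℕ} (hα : ∀ S, Ind n adj S → #S ≤ α) (R : Finset ι) (s : ι → ℕ)
    (h : ∀ X ∈ R, ∀ Y ∈ R, X ≠ Y → ∃ f g, Good n adj f g ∧ s X + A n g = s Y + A n f) :
    #R ≤ α + 1 := by
  choose! f g h1 h2 using h
  rcases R.eq_empty_or_nonempty with rfl | ⟨O, hO⟩
  · simp
  have tri : ∀ Y ∈ R.erase O, ∀ Z ∈ R.erase O, Y ≠ Z → Good n adj (f Y Z) (g Y Z) ∧
      ¬ (f O Y = f O Z ∧ g O Y = g O Z) ∧ ((f O Y = f O Z ∧ f Y Z = g O Y ∧ g O Z = g Y Z) ∨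
        (f O Y = g Y Z ∧ f Y Z = f O Z ∧ g O Z = g O Y)) := by
    intro Y hY Z hZ hne
    obtain ⟨y1, y2⟩ := mem_erase.1 hY
    obtain ⟨z1, z2⟩ := mem_erase.1 hZ
    have a := h1 O hO Y y2 y1.symm
    have b := h1 O hO Z z2 z1.symm
    have c := h1 Y y2 Z z2 hne
    have a' := h2 O hO Y y2 y1.symm
    have b' := h2 O hO Z z2 z1.symm
    have c' := h2 Y y2 Z z2 hne
    refine ⟨c, fun e => c.2.2.1 ((A_mono n).injective ?_),
      b3 a.1 c.1 b.2.1 a.2.1 c.2.1 b.1 (by omega) a.2.2.1 c.2.2.1 b.2.2.1⟩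
    rw [e.1, e.2] at a'; omega
  have fin : ∀ k : ι → ℕ, (∀ Y ∈ R.erase O, k Y < n) →
      (∀ Y ∈ R.erase O, ∀ Z ∈ R.erase O, Y ≠ Z → k Y ≠ k Z ∧ adj (k Y) (k Z) = false) →
      #R ≤ α + 1 := fun k k1 k2 => by
    have := hα ((R.erase O).image k) ⟨fun v hv => by
      obtain ⟨Y, hY, rfl⟩ := mem_image.1 hv; exact k1 Y hY, fun u hu v hv e => by
      obtain ⟨Y, hY, rfl⟩ := mem_image.1 hu
      obtain ⟨Z, hZ, rfl⟩ := mem_image.1 hv
      exact (k2 Y hY Z hZ fun e' => e (e' ▸ rfl)).2⟩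
    rw [card_image_of_injOn fun Y hY Z hZ e => by_contra fun e' => (k2 Y hY Z hZ e').1 e,
      card_erase_of_mem hO] at this
    omega
  have b : ∀ Y ∈ R.erase O, Good n adj (f O Y) (g O Y) := fun Y hY =>
    h1 O hO Y (mem_erase.1 hY).2 (mem_erase.1 hY).1.symm
  by_cases c : ∀ Y ∈ R.erase O, ∀ Z ∈ R.erase O, f O Y = f O Z
  · refine fin (g O) (fun Y hY => (b Y hY).2.1) fun Y hY Z hZ e => ?_
    have := tri Y hY Z hZ e
    have := c Y hY Z hZ
    unfold Good at *; grind
  · push Not at c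
    obtain ⟨U, hU, V, hV, c⟩ := c
    have uv : U ≠ V := fun e => c (e ▸ rfl)
    have k : ∀ Y ∈ R.erase O, g O Y = g O U := fun Y hY => by
      have t1 := (tri U hU V hV uv).2.2
      by_cases c1 : Y = U
      · rw [c1]
      by_cases c2 : Y = V
      · rw [c2]; omega
      have t2 := (tri Y hY U hU c1).2.2
      have t3 := (tri Y hY V hV c2).2.2
      omega
    refine fin (f O) (fun Y hY => (b Y hY).1) fun Y hY Z hZ e => ?_
    obtain ⟨t1, t2, t3⟩ := tri Y hY Z hZ e
    have k1 := k Y hY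
    have k2 := k Z hZ
    have ne : f O Y ≠ f O Z := fun e => t2 ⟨e, by omega⟩
    rcases t3 with t3 | t3
    · exact absurd t3.1 ne
    · exact ⟨ne, by rw [t3.1, ← t3.2.1]; exact t1.2.2.2.2⟩

def Rel (n : ℕ) (adj : ℕ → ℕ → Bool) (X Y : Finset ℕ) : Prop :=
  (X ⊆ Y ∧ #Y = #X + 1) ∨ (Y ⊆ X ∧ #X = #Y + 1) ∨
    (#X = #Y ∧ ∃ f g, Good n adj f g ∧ ∑ i ∈ X, i + A n g = ∑ i ∈ Y, i + A n f)

lemma fam {α : ℕ} (hα : ∀ S, Ind n adj S → #S ≤ α) (R : Finset (Finset ℕ))
    (h : ∀ X ∈ R, ∀ Y ∈ R, X ≠ Y → Rel n adj X Y) : #R ≤ α + 2 := by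
  rcases R.eq_empty_or_nonempty with rfl | hne
  · simp
  obtain ⟨O, hO, hm⟩ := exists_min_image R card hne
  have sw : ∀ k, #{X ∈ R | #X = k} ≤ α + 1 := fun k => swap hα _ (fun X => ∑ i ∈ X, i)
    fun X hX Y hY e => by
      obtain ⟨a, b⟩ := mem_filter.1 hX
      obtain ⟨c, d⟩ := mem_filter.1 hY
      rcases h X a Y c e with h | h | h
      exacts [by omega, by omega, h.2]
  have e : R ⊆ {X ∈ R | #X = #O} ∪ {X ∈ R | #X = #O + 1} := fun X hX => by
    have := hm X hX
    have := h O hO X hX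
    simp only [mem_union, mem_filter, hX, true_and]
    by_cases c : O = X
    · simp [c]
    · rcases this c with h | h | h <;> omega
  have := (card_le_card e).trans (card_union_le _ _)
  have s1 := sw #O
  have s2 := sw (#O + 1)
  by_contra hc
  obtain ⟨X, hX, X', hX', e1⟩ := one_lt_card.1 (show 1 < #{X ∈ R | #X = #O} by omega)
  obtain ⟨Y, hY, Y', hY', e2⟩ := one_lt_card.1 (show 1 < #{X ∈ R | #X = #O + 1} by omega)
  have sub : ∀ X ∈ {X ∈ R | #X = #O}, ∀ Y ∈ {X ∈ R | #X = #O + 1}, X ⊆ Y := fun X hX Y hY => by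
    obtain ⟨a, b⟩ := mem_filter.1 hX
    obtain ⟨c, d⟩ := mem_filter.1 hY
    rcases h X a Y c (fun e => by rw [e] at b; omega) with h | h | h
    exacts [h.1, by omega, by omega]
  have a := (mem_filter.1 hX).2
  have b := (mem_filter.1 hX').2
  have : #X < #(X ∪ X') := card_lt_card ⟨subset_union_left, fun s =>
    e1 (eq_of_subset_of_card_le (subset_union_right.trans s) (by omega)).symm⟩
  have u : ∀ Y ∈ {X ∈ R | #X = #O + 1}, X ∪ X' = Y := fun Y hY =>
    eq_of_subset_of_card_le (union_subset (sub X hX Y hY) (sub X' hX' Y hY))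
      (by have := (mem_filter.1 hY).2; omega)
  exact e2 ((u Y hY).symm.trans (u Y' hY'))

lemma fac {β : Type} (l d : List β) : (∃ x y, l = x ++ d ++ y) ↔
    ∃ p, p + d.length ≤ l.length ∧ ∀ i < d.length, l[p + i]? = d[i]? := by
  constructor
  · rintro ⟨x, y, rfl⟩
    refine ⟨x.length, by simp, fun i hi => ?_⟩
    rw [List.append_assoc, List.getElem?_append_right (by omega), Nat.add_sub_cancel_left,
      List.getElem?_append_left hi]
  · rintro ⟨p, h1, h2⟩
    refine ⟨l.take p, l.drop (p + d.length), ?_⟩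
    have : d = (l.drop p).take d.length := List.ext_getElem? fun i => by
      by_cases c : i < d.length
      · rw [List.getElem?_take_of_lt c, List.getElem?_drop, h2 i c]
      · rw [List.getElem?_eq_none (by omega), List.getElem?_eq_none (by simp; omega)]
    rw [List.append_assoc, ← List.drop_drop]
    nth_rewrite 1 [this]
    rw [List.take_append_drop, List.take_append_drop]

def ex {t : ℕ} (u : Fin t → Bool) (i : ℕ) : Bool := if h : i < t then u ⟨i, h⟩ else false

def G {t : ℕ} (u v : Fin t → Bool) (i : ℕ) : Option Bool :=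
  if ex u i = ex v i then none else some (ex u i)

def p2 (σ : Bool) (a : ℕ) (τ : Bool) : List (Option Bool) :=
  some σ :: (List.replicate a none ++ [some τ])

def p3 (σ : Bool) (a : ℕ) (τ : Bool) (b : ℕ) (ρ : Bool) : List (Option Bool) :=
  some σ :: (List.replicate a none ++ p2 τ b ρ)

lemma occ {t : ℕ} (u v : Fin t → Bool) (d : List (Option Bool)) (σ : Bool) :
    (∃ x y, dif u v = x ++ (d ++ [some σ]) ++ y) ↔
      ∃ p, ∀ i ≤ d.length, some (G u v (p + i)) = (d ++ [some σ])[i]? := by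
  have e : ∀ i < t, (dif u v)[i]? = some (G u v i) := fun i hi => by simp [dif, G, ex, hi]
  rw [fac]
  refine exists_congr fun p => ⟨fun ⟨h1, h2⟩ i hi => ?_, fun h => ?_⟩
  · simp only [dif, List.length_append, List.length_ofFn, List.length_singleton] at h1
    rw [← h2 i (by simp; omega), e _ (by omega)]
  · have : p + d.length < t := by
      by_contra c
      simpa [G, ex, c] using h _ le_rfl
    refine ⟨by simp [dif]; omega, fun i hi => ?_⟩
    simp only [List.length_append, List.length_singleton] at hi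
    rw [e _ (by omega), h i (by omega)]

lemma occ2 {t : ℕ} (u v : Fin t → Bool) (σ : Bool) (a : ℕ) (τ : Bool) :
    (∃ x y, dif u v = x ++ p2 σ a τ ++ y) ↔ ∃ p, G u v p = some σ ∧ G u v (p + a + 1) = some τ ∧
      ∀ i, p < i → i < p + a + 1 → G u v i = none := by
  refine (occ u v (some σ :: List.replicate a none) τ).trans (exists_congr fun p =>
    ⟨fun h => ⟨by simpa using h 0, by simpa [add_assoc] using h (a + 1), fun i h1 h2 => ?_⟩,
      fun ⟨h1, h2, h3⟩ i hi => ?_⟩)
  · obtain ⟨j, rfl⟩ := Nat.exists_eq_add_of_lt h1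
    simpa [add_assoc, List.getElem?_append, show j < a by omega] using h (j + 1) (by simp; omega)
  · rcases i with _ | i
    · simpa using h1
    · simp only [List.length_cons, List.length_replicate] at hi
      by_cases c : i < a
      · simp [List.getElem?_append, c, h3 (p + (i + 1)) (by omega) (by omega)]
      · obtain rfl : i = a := by omega
        simpa [add_assoc] using h2

lemma occ3 {t : ℕ} (u v : Fin t → Bool) (σ : Bool) (a : ℕ) (τ : Bool) (b : ℕ) (ρ : Bool) :
    (∃ x y, dif u v = x ++ p3 σ a τ b ρ ++ y) ↔ ∃ p, G u v p = some σ ∧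
      G u v (p + a + 1) = some τ ∧ G u v (p + a + b + 2) = some ρ ∧
      ∀ i, p < i → i < p + a + b + 2 → i ≠ p + a + 1 → G u v i = none := by
  have e : p3 σ a τ b ρ = (some σ :: List.replicate a none ++ some τ :: List.replicate b none) ++
    [some ρ] := by simp [p3, p2]
  have g : ∀ i ≤ a + b + 2, (p3 σ a τ b ρ)[i]? = some (if i = 0 then some σ else if i = a + 1 then
      some τ else if i = a + b + 2 then some ρ else none) := fun i hi => by
    rcases i with _ | i
    · simp [p3]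
    rw [if_neg (by omega)]
    simp only [p3, p2, List.getElem?_cons_succ, List.getElem?_append, List.length_replicate]
    by_cases h1 : i < a
    · simp [h1, show i ≠ a by omega, show i ≠ a + b + 1 by omega]
    obtain ⟨j, rfl⟩ := Nat.exists_eq_add_of_le (not_lt.1 h1)
    rw [if_neg h1, Nat.add_sub_cancel_left]
    rcases j with _ | j
    · simp
    rw [if_neg (by omega), List.getElem?_cons_succ]
    by_cases h2 : j < b
    · simp [List.getElem?_append, h2, show a + (j + 1) ≠ a + b + 1 by omega]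
    · obtain rfl : j = b := by omega
      simp [add_assoc]
  rw [e, occ, ← e]
  simp only [List.length_append, List.length_cons, List.length_replicate]
  refine exists_congr fun p => ⟨fun h => ⟨?_, ?_, ?_, fun i h1 h2 h3 => ?_⟩,
    fun ⟨h1, h2, h3, h4⟩ i hi => ?_⟩
  · simpa [g] using h 0 (by omega)
  · simpa [g (a + 1) (by omega), add_assoc] using h (a + 1) (by omega)
  · have := h (a + b + 2) (by omega)
    rw [g _ le_rfl, if_neg (by omega), if_neg (by omega), if_pos rfl] at this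
    simpa [add_assoc] using this
  · have := h (i - p) (by omega)
    rw [g _ (by omega), if_neg (by omega), if_neg (by omega), if_neg (by omega),
      show p + (i - p) = i by omega] at this
    simpa using this
  · rw [g _ (by omega)]
    split_ifs with c1 c2 c3
    · simp [c1, h1]
    · simp [c2, ← add_assoc, h2]
    · simp [c3, ← add_assoc, h3]
    · rw [h4 _ (by omega) (by omega) (by omega)]

end Pool.Agent.H32.Cap
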