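import Pool.Agent.H32.Cap1
import Pool.Agent.H38.NP.Graphs
import Pool.Agent.H37.SimInc

set_option autoImplicit false

namespace Pool.Agent.H32.Cap

open Finset Classical Pool.Agent.H38.NP

variable {n : ℕ} {adj : ℕ → ℕ → Bool} {T t : ℕ}

def okd (n : ℕ) (adj : ℕ → ℕ → Bool) (a : ℕ) : Bool :=
  (List.range n).any fun f => (List.range n).any fun g =>
    decide (f ≠ g) && (!adj f g && (!adj g f && decide (A n f = A n g + (a + 1))))

lemma okd_iff {a : ℕ} : okd n adj a = true ↔ ∃ f g, Good n adj f g ∧ A n f = A n g + (a + 1) := by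
  simp only [okd, Good, List.any_eq_true, List.mem_range, Bool.and_eq_true, decide_eq_true_eq,
    Bool.not_eq_true']
  exact ⟨fun ⟨f, a, g, b, c, d, e, h⟩ => ⟨f, g, ⟨a, b, c, d, e⟩, h⟩,
    fun ⟨f, g, ⟨a, b, c, d, e⟩, h⟩ => ⟨f, a, g, b, c, d, e, h⟩⟩

def DD (n : ℕ) (adj : ℕ → ℕ → Bool) (T : ℕ) : List (List (Option Bool)) :=
  ((List.range T).flatMap fun a => p2 true a true :: p2 false a false ::
    cond (okd n adj a) [] [p2 true a false, p2 false a true]) ++
  (List.range T).flatMap fun a => (List.range T).flatMap fun b =>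
    [p3 true a true b true, p3 true a true b false, p3 true a false b true, p3 true a false b false,
      p3 false a true b true, p3 false a true b false, p3 false a false b true,
      p3 false a false b false]

lemma mem_DD {d : List (Option Bool)} : d ∈ DD n adj T ↔
    (∃ σ a τ, a < T ∧ (σ = τ ∨ okd n adj a = false) ∧ d = p2 σ a τ) ∨
      ∃ σ a τ b ρ, a < T ∧ b < T ∧ d = p3 σ a τ b ρ := by
  simp only [DD, List.mem_append, List.mem_flatMap, List.mem_range]
  refine or_congr ⟨fun ⟨a, h, e⟩ => ?_, fun ⟨σ, a, τ, h, c, e⟩ => ⟨a, h, ?_⟩⟩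
    ⟨fun ⟨a, h, b, h', e⟩ => ?_, fun ⟨σ, a, τ, b, ρ, h, h', e⟩ => ⟨a, h, b, h', ?_⟩⟩
  · cases c : okd n adj a <;> simp only [c, cond_true, cond_false, List.mem_cons,
      List.not_mem_nil, or_false] at e
    · rcases e with e | e | e | e <;> exact ⟨_, a, _, h, .inr c, e⟩
    · rcases e with e | e <;> exact ⟨_, a, _, h, .inl rfl, e⟩
  · rcases c with rfl | c
    · cases σ <;> simp [e]
    · cases σ <;> cases τ <;> simp [e, c]
  · simp only [List.mem_cons, List.not_mem_nil, or_false] at e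
    rcases e with e | e | e | e | e | e | e | e <;> exact ⟨_, a, _, b, _, h, h', e⟩
  · cases σ <;> cases τ <;> cases ρ <;> simp [e]

def win (T : ℕ) (s : ℕ) (u : Fin t → Bool) : Finset ℕ := {i ∈ range T | ex u (s + i) = true}

lemma G_some {u v : Fin t → Bool} {i : ℕ} {σ : Bool} :
    G u v i = some σ ↔ ex u i = σ ∧ ex v i = !σ := by
  unfold G; cases ex u i <;> cases ex v i <;> cases σ <;> simp

lemma G_none {u v : Fin t → Bool} {i : ℕ} : G u v i = none ↔ ex u i = ex v i := by
  unfold G; cases ex u i <;> cases ex v i <;> simp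

lemma window (u v : Fin t → Bool) (s : ℕ) (h : ∀ d ∈ DD n adj T, ¬ ∃ x y, dif u v = x ++ d ++ y)
    (hne : win T s u ≠ win T s v) : Rel n adj (win T s u) (win T s v) := by
  have m : ∀ (w : Fin t → Bool) i, i ∈ win T s w ↔ i < T ∧ ex w (s + i) = true := by simp [win]
  have nx : ∀ k, (∃ i, k ≤ i ∧ i < T ∧ ex u (s + i) ≠ ex v (s + i)) → ∃ i, k ≤ i ∧ i < T ∧
      G u v (s + i) = some (ex u (s + i)) ∧ ∀ j, s + k ≤ j → j < s + i → G u v j = none :=
    fun k e => by
      refine ⟨Nat.find e, (Nat.find_spec e).1, (Nat.find_spec e).2.1, by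
        simp [G, (Nat.find_spec e).2.2], fun j h1 h2 => G_none.2 ?_⟩
      have q := Nat.find_min e (show j - s < Nat.find e by omega)
      have := (Nat.find_spec e).2.1
      rw [show s + (j - s) = j by omega] at q
      by_contra c
      exact q ⟨by omega, by omega, c⟩
  obtain ⟨i0, -, a1, a2, a3⟩ := nx 0 (by
    by_contra c
    push Not at c
    exact hne (by ext i; simp only [m]; exact and_congr_right fun h => by rw [c i i.zero_le h]))
  have e0 : ∀ j < i0, ex u (s + j) = ex v (s + j) := fun j h => G_none.1 (a3 _ (by omega) (by omega))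
  have a2' := (G_some.1 a2).2
  by_cases c1 : ∃ i, i0 + 1 ≤ i ∧ i < T ∧ ex u (s + i) ≠ ex v (s + i)
  swap
  · push Not at c1
    have e : ∀ j < T, j ≠ i0 → ex u (s + j) = ex v (s + j) := fun j h h' =>
      (lt_or_gt_of_ne h').elim (e0 j) fun h'' => c1 j h'' h
    cases c : ex u (s + i0) <;> rw [c] at a2'
    · have : win T s v = insert i0 (win T s u) := by ext j; simp only [m, mem_insert]; grind
      rw [this]
      exact .inl ⟨subset_insert _ _, card_insert_of_notMem (by simp [m, c])⟩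
    · have : win T s u = insert i0 (win T s v) := by ext j; simp only [m, mem_insert]; grind
      rw [this]
      exact .inr (.inl ⟨subset_insert _ _, card_insert_of_notMem (by simp [m, a2'])⟩)
  obtain ⟨i1, b0, b1, b2, b3⟩ := nx _ c1
  obtain ⟨a, rfl⟩ : ∃ a, i1 = i0 + a + 1 := ⟨i1 - i0 - 1, by omega⟩
  by_cases c2 : ∃ i, i0 + a + 1 + 1 ≤ i ∧ i < T ∧ ex u (s + i) ≠ ex v (s + i)
  · obtain ⟨i2, d0, d1, d2, d3⟩ := nx _ c2
    obtain ⟨b, rfl⟩ : ∃ b, i2 = i0 + a + b + 2 := ⟨i2 - i0 - a - 2, by omega⟩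
    refine (h _ (mem_DD.2 (.inr ⟨_, a, _, b, _, by omega, by omega, rfl⟩)) ((occ3 u v _ a _ b _).2
      ⟨s + i0, a2, by simpa only [add_assoc] using b2, by simpa only [add_assoc] using d2,
        fun i h1 h2 h3 => ?_⟩)).elim
    rcases lt_or_gt_of_ne h3 with h4 | h4
    exacts [b3 i (by omega) (by omega), d3 i (by omega) (by omega)]
  push Not at c2
  have b2' := (G_some.1 b2).2
  have e : ∀ j < T, j ≠ i0 → j ≠ i0 + a + 1 → ex u (s + j) = ex v (s + j) := fun j h h1 h2 => by
    rcases lt_or_gt_of_ne h1 with h1 | h1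
    · exact e0 j h1
    rcases lt_or_gt_of_ne h2 with h2 | h2
    exacts [G_none.1 (b3 _ (by omega) (by omega)), c2 j h2 h]
  have k : ¬ (ex u (s + i0) = ex u (s + (i0 + a + 1)) ∨ okd n adj a = false) := fun c =>
    h _ (mem_DD.2 (.inl ⟨_, a, _, by omega, c, rfl⟩)) ((occ2 u v _ a _).2
      ⟨s + i0, a2, by simpa only [add_assoc] using b2, fun i h1 h2 => b3 i (by omega) (by omega)⟩)
  simp only [not_or, Bool.not_eq_false] at k
  obtain ⟨f, g, o1, o2⟩ := okd_iff.1 k.2
  have k := k.1
  clear h nx a2 a3 b2 b3 c1 c2 e0 hne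
  refine .inr (.inr ?_)
  cases c : ex u (s + i0) <;> cases c' : ex u (s + (i0 + a + 1)) <;> rw [c, c'] at k <;>
    rw [c] at a2' <;> rw [c'] at b2' <;> try exact (k rfl).elim
  · have x : win T s u = insert (i0 + a + 1) ((win T s v).erase i0) := by
      ext j; simp only [m, mem_insert, mem_erase]; grind
    have y : win T s v = insert i0 ((win T s v).erase i0) :=
      (insert_erase (by simp [m, a1, a2'])).symm
    have z : i0 + a + 1 ∉ (win T s v).erase i0 := by simp [m, b2']
    rw [x, y, card_insert_of_notMem (by simpa using z), card_insert_of_notMem (by simp),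
      sum_insert (by simpa using z), sum_insert (by simp)]
    exact ⟨by simp, f, g, o1, by simp only [erase_insert_eq_erase, erase_idem]; omega⟩
  · have x : win T s v = insert (i0 + a + 1) ((win T s u).erase i0) := by
      ext j; simp only [m, mem_insert, mem_erase]; grind
    have y : win T s u = insert i0 ((win T s u).erase i0) :=
      (insert_erase (by simp [m, a1, c])).symm
    have z : i0 + a + 1 ∉ (win T s u).erase i0 := by simp [m, c']
    rw [x, y, card_insert_of_notMem (by simp), card_insert_of_notMem (by simpa using z),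
      sum_insert (by simp), sum_insert (by simpa using z)]
    exact ⟨by simp, g, f, ⟨o1.2.1, o1.1, o1.2.2.1.symm, o1.2.2.2.2, o1.2.2.2.1⟩,
      by simp only [erase_insert_eq_erase, erase_idem]; omega⟩

lemma upper {α : ℕ} (hα : ∀ S, Ind n adj S → #S ≤ α) (hT : 0 < T) :
    delta (DD n adj T) t ≤ (α + 2) ^ (t / T + 1) := by
  refine Finset.sup_le fun W hW => ?_
  replace hW := (mem_filter.1 hW).2
  have := card_le_card_of_injOn (s := W) (t := Fintype.piFinset fun j : Fin (t / T + 1) =>
    W.image (win T (j * T))) (fun u j => win T (j * T) u)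
    (fun u hu => by simpa using fun j => ⟨u, hu, rfl⟩) fun u _ v _ e => by
      ext i
      have h1 : i / T < t / T + 1 := Nat.lt_succ_of_le (Nat.div_le_div_right i.2.le)
      have := congrArg (i % T ∈ ·) (congrFun e ⟨_, h1⟩)
      simpa [win, Nat.mod_lt _ hT, Nat.div_add_mod', ex] using this
  refine this.trans ?_
  rw [Fintype.card_piFinset]
  refine (prod_le_pow_card _ _ (α + 2) fun j _ => fam hα _ fun X hX Y hY e => ?_).trans (by simp)
  obtain ⟨u, hu, rfl⟩ := mem_image.1 hX
  obtain ⟨v, hv, rfl⟩ := mem_image.1 hY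
  exact window u v _ (hW u hu v hv fun e' => e (e' ▸ rfl)) e

lemma lower {S : Finset ℕ} (hS : Ind n adj S) (m : ℕ) :
    #S ^ m ≤ delta (DD n adj T) (m * (T + A n n)) := by
  generalize hP : T + A n n = P
  let cc : (Fin m → ℕ) → ℕ → ℕ := fun c j => if h : j < m then c ⟨j, h⟩ else 0
  let w : (Fin m → ℕ) → Fin (m * P) → Bool := fun c i => decide (i % P = A n (cc c (i / P)))
  have lt : ∀ c ∈ Fintype.piFinset fun _ : Fin m => S, ∀ j < m, cc c j ∈ S := fun c hc j hj => by
    simpa [cc, hj] using Fintype.mem_piFinset.1 hc _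
  have lA : ∀ x ∈ S, A n x < A n n := fun x hx => A_mono n (hS.1 x hx)
  have : #S ^ m = #((Fintype.piFinset fun _ : Fin m => S).image w) := by
    rw [card_image_of_injOn, Fintype.card_piFinset]; · simp
    intro c hc c' hc' e
    ext j
    have h1 := lA _ (lt c hc j j.2)
    have h2 : A n (cc c j) + j * P < m * P := by
      have := Nat.mul_le_mul_right P (Nat.succ_le_of_lt j.2)
      rw [Nat.succ_mul] at this; omega
    have := congrFun e ⟨_, h2⟩
    simp only [w, Nat.add_mul_mod_self_right, Nat.add_mul_div_right _ _ (by omega : 0 < P),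
      Nat.mod_eq_of_lt (by omega : A n (cc c j) < P),
      Nat.div_eq_of_lt (by omega : A n (cc c j) < P), zero_add, decide_true] at this
    simpa [cc] using (A_mono n).injective (of_decide_eq_true this.symm)
  rw [this]
  refine le_sup (f := card) (mem_filter.2 ⟨mem_univ _, fun u hu v hv _ d hd => ?_⟩)
  obtain ⟨c, hc, rfl⟩ := mem_image.1 hu
  obtain ⟨c', hc', rfl⟩ := mem_image.1 hv
  have k : ∀ i σ, G (w c) (w c') i = some σ → cc c (i / P) ∈ S ∧ cc c' (i / P) ∈ S ∧
      cc c (i / P) ≠ cc c' (i / P) ∧ i % P = A n (cond σ (cc c (i / P)) (cc c' (i / P))) :=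
    fun i σ h => by
      obtain ⟨h1, h2⟩ := G_some.1 h
      by_cases hi : i < m * P
      · have := Nat.div_lt_of_lt_mul (mul_comm m P ▸ hi)
        refine ⟨lt c hc _ this, lt c' hc' _ this, ?_⟩
        simp only [ex, hi, dif_pos, w] at h1 h2
        cases σ
        · have q := of_decide_eq_false h1
          have := of_decide_eq_true h2
          exact ⟨fun e => q (e ▸ this), this⟩
        · have q := of_decide_eq_false h2
          have := of_decide_eq_true h1
          exact ⟨fun e => q (e ▸ this), this⟩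
      · simp only [ex, hi, dif_neg, not_false_eq_true] at h1 h2
        cases σ <;> simp at h1 h2
  have k2 : ∀ p a σ τ, a < T → G (w c) (w c') p = some σ → G (w c) (w c') (p + a + 1) = some τ →
      (p + a + 1) / P = p / P ∧ (p + a + 1) % P = p % P + (a + 1) := fun p a σ τ h h1 h2 => by
    obtain ⟨a1, a2, -, a3⟩ := k _ _ h1
    have : p % P < A n n := by cases σ; exacts [a3 ▸ lA _ a2, a3 ▸ lA _ a1]
    have := (Nat.div_mod_unique (a := p + a + 1) (b := P) (c := p % P + (a + 1)) (d := p / P)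
      (by omega)).2 ⟨by have := Nat.mod_add_div p P; omega, by omega⟩
    exact this
  rcases mem_DD.1 hd with ⟨σ, a, τ, h, e, rfl⟩ | ⟨σ, a, τ, b, ρ, h, h', rfl⟩
  · rw [occ2]
    rintro ⟨p, h1, h2, -⟩
    obtain ⟨q1, q2⟩ := k2 _ _ _ _ h h1 h2
    obtain ⟨a1, a2, a3, a4⟩ := k _ _ h1
    obtain ⟨-, -, -, a5⟩ := k _ _ h2
    rw [q1, q2, a4] at a5
    rcases e with rfl | e
    · omega
    refine absurd ((okd_iff (adj := adj)).2 ⟨_, _, ?_, a5.symm⟩) (by simp [e])
    have b1 := hS.1 _ a1
    have b2 := hS.1 _ a2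
    have b3 := hS.2 _ a1 _ a2 a3
    have b4 := hS.2 _ a2 _ a1 a3.symm
    cases σ <;> cases τ <;> simp only [cond_true, cond_false] at a5 ⊢
    exacts [by omega, ⟨b1, b2, a3, b3, b4⟩, ⟨b2, b1, a3.symm, b4, b3⟩, by omega]
  · rw [occ3]
    rintro ⟨p, h1, h2, h3, -⟩
    obtain ⟨q1, q2⟩ := k2 _ _ _ _ h h1 h2
    rw [show p + a + b + 2 = p + a + 1 + b + 1 by omega] at h3
    obtain ⟨q3, q4⟩ := k2 _ _ _ _ h' h2 h3
    obtain ⟨-, -, -, a4⟩ := k _ _ h1
    obtain ⟨-, -, -, a5⟩ := k _ _ h2
    obtain ⟨-, -, -, a6⟩ := k _ _ h3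
    rw [q3, q4, q1, q2, a4] at a6
    rw [q1, q2, a4] at a5
    cases σ <;> cases τ <;> cases ρ <;> simp only [cond_true, cond_false] at a5 a6 <;> omega

end Pool.Agent.H32.Cap
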