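import Pool.Agent.H32.Cap2

set_option autoImplicit false

namespace Pool.Agent.H32.Cap

open Finset Classical Pool.Agent.H38.NP Filter

lemma lg_nonneg (m : ℕ) : 0 ≤ Real.logb 2 m := by
  rcases m with _ | m
  · simp
  · exact Real.logb_nonneg (by norm_num) (by simp)

lemma lg_le {m b e : ℕ} (h : m ≤ b ^ e) : Real.logb 2 m ≤ e * Real.logb 2 b := by
  rcases m with _ | m
  · simpa using mul_nonneg e.cast_nonneg (lg_nonneg b)
  · rw [← Real.logb_pow]
    exact Real.logb_le_logb_of_le (by norm_num) (by positivity) (by exact_mod_cast h)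

lemma yes {D : List (List (Option Bool))} {j P : ℕ} (hP : 0 < P)
    (h : ∀ m, (2 ^ j) ^ m ≤ delta D (m * P)) : (j : ℝ) / P ≤ cap D := by
  refine le_limsup_of_frequently_le (frequently_atTop.2 fun a => ⟨(a + 1) * P, by nlinarith, ?_⟩)
    (isBoundedUnder_of ⟨1, fun t => ?_⟩)
  · have := Real.logb_le_logb_of_le (b := 2) (by norm_num) (by positivity)
      (show (2 : ℝ) ^ (j * (a + 1)) ≤ delta D ((a + 1) * P) by
        rw [pow_mul]; exact_mod_cast h _)
    rw [Real.logb_pow, Real.logb_self_eq_one (by norm_num)] at this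
    rw [div_le_div_iff₀ (by positivity) (by positivity)]
    push_cast at *
    nlinarith [show (0 : ℝ) < P by positivity]
  · refine div_le_one_of_le₀ ((lg_le (b := 2) (e := t) (Finset.sup_le fun W _ =>
      (card_le_univ W).trans (by simp))).trans (by simp)) t.cast_nonneg

lemma no {D : List (List (Option Bool))} {j M K : ℕ} (hK : K + 1 = 2 ^ j) (h0 : 0 < K)
    (h : ∀ t, delta D t ≤ K ^ (t / ((K + 1) * j * M + 1) + 1)) :
    cap D < (j : ℝ) / (((K + 1) * j * M + 1 + M : ℕ) : ℝ) := by
  generalize hT : (K + 1) * j * M + 1 = T at *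
  have T0 : (0 : ℝ) < T := by exact_mod_cast (by omega : 0 < T)
  have K0 : (0 : ℝ) < K := by exact_mod_cast h0
  have l2 : Real.log 2 < 1 := by have := Real.log_two_lt_d9; linarith
  have l0 : 0 < Real.log 2 := Real.log_pos (by norm_num)
  have e : Real.logb 2 K < j - 1 / (K + 1) := by
    have a := Real.log_le_sub_one_of_pos (show (0 : ℝ) < K / (K + 1) by positivity)
    rw [Real.log_div K0.ne' (by positivity), show Real.log (K + 1) = j * Real.log 2 by
      rw [← Real.log_pow]; exact_mod_cast congrArg (fun x : ℕ => Real.log x) hK,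
      show (K : ℝ) / (K + 1) - 1 = -(1 / (K + 1)) by field_simp; ring] at a
    rw [Real.logb, div_lt_iff₀ l0]
    nlinarith [show (0 : ℝ) < 1 / (K + 1) by positivity]
  have e2 : Real.logb 2 K / T < (j : ℝ) / ((T + M : ℕ) : ℝ) := by
    refine (div_lt_div_of_pos_right e T0).trans_le ?_
    push_cast
    rw [div_le_div_iff₀ T0 (by positivity)]
    have : (j : ℝ) * M ≤ 1 / (K + 1) * T := by
      rw [one_div, ← div_eq_inv_mul, le_div_iff₀ (by positivity), ← hT]; push_cast; linarith
    nlinarith [show (0 : ℝ) ≤ 1 / (K + 1) * M by positivity]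
  obtain ⟨c, c1, c2⟩ := exists_between e2
  refine lt_of_le_of_lt (limsup_le_of_le (isCoboundedUnder_le_of_le _ fun t =>
    div_nonneg (lg_nonneg _) t.cast_nonneg) ?_) c2
  have := (tendsto_const_div_atTop_nhds_zero_nat (Real.logb 2 K)).eventually
    (gt_mem_nhds (sub_pos.2 c1))
  filter_upwards [this, eventually_gt_atTop 0] with t h1 h2
  have t0 : (0 : ℝ) < t := by exact_mod_cast h2
  refine (div_le_div_of_nonneg_right (lg_le (h t)) t0.le).trans ?_
  have : ((t / T : ℕ) : ℝ) * Real.logb 2 K / t ≤ Real.logb 2 K / T :=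
    (div_le_div_of_nonneg_right (mul_le_mul_of_nonneg_right Nat.cast_div_le (lg_nonneg K))
      t0.le).trans_eq (by field_simp)
  push_cast
  rw [add_mul, add_div, one_mul]
  linarith

def ad (n : ℕ) (E : List (ℕ × ℕ)) (v w : ℕ) : Bool :=
  decide (v < 3 * n ∧ w < 3 * n ∧ v % 3 = w % 3 ∧ (v / 3, w / 3) ∈ E)

def J (k : ℕ) : ℕ := sz (Bin.mk (3 * k))

def KK (k : ℕ) : ℕ := (fun x => 2 * x)^[J k] 1

lemma it (i : ℕ) : (fun x => 2 * x)^[i] 1 = 2 ^ i := by
  induction i with
  | zero => rfl
  | succ i ih => rw [Function.iterate_succ_apply', ih, pow_succ']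

lemma KK_bd (k : ℕ) : 3 * k < 2 ^ J k ∧ 2 ^ J k ≤ 6 * k + 1 := by
  have e : J k = (3 * k).size := Nat.size_eq_bits_len _
  rw [e]
  refine ⟨Nat.lt_size_self _, ?_⟩
  rcases h : (3 * k).size with _ | s
  · simp
  · have := Nat.lt_size.1 (show s < (3 * k).size by omega)
    rw [pow_succ]; omega

@[fun_prop] lemma pt_J {α : Type} [Enc α] {f : α → ℕ} (hf : PT f) : PT fun a => J (f a) := by
  unfold J
  exact PT.sz (Pool.Agent.H37.pt_bin (by fun_prop))

@[fun_prop] lemma pt_KK {α : Type} [Enc α] {f : α → ℕ} (hf : PT f) : PT fun a => KK (f a) :=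
  PT.iterate (step := fun _ x => 2 * x) (by fun_prop) (pt_J hf) (by fun_prop)
    (((PB.const 6).mul hf.nat_pb).add (PB.const 1)) fun a i hi => by
      rw [sz_nat, it]
      exact (Nat.pow_le_pow_right (by omega) hi).trans (KK_bd _).2

@[fun_prop] lemma pt_A {α : Type} [Enc α] {f g : α → ℕ} (hf : PT f) (hg : PT g) :
    PT fun a => A (f a) (g a) := by
  unfold A; fun_prop

@[fun_prop] lemma pt_p2 {α : Type} [Enc α] {f : α → ℕ} (σ τ : Bool) (hf : PT f) :
    PT fun a => p2 σ (f a) τ := by
  unfold p2; fun_prop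

@[fun_prop] lemma pt_p3 {α : Type} [Enc α] {f g : α → ℕ} (σ τ ρ : Bool) (hf : PT f) (hg : PT g) :
    PT fun a => p3 σ (f a) τ (g a) ρ := by
  unfold p3; fun_prop

lemma pt_DD {α : Type} [Enc α] {n m T : α → ℕ} {E : α → List (ℕ × ℕ)} (hn : PT n) (hm : PT m)
    (hE : PT E) (hT : PT T) : PT fun a => DD (n a) (ad (m a) (E a)) (T a) := by
  have : PT fun p : α × ℕ => okd (n p.1) (ad (m p.1) (E p.1)) p.2 := by
    unfold okd ad; fun_prop
  unfold DD; fun_prop

def NN (n k : ℕ) : ℕ := 3 * n + (KK k - 3 * k)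

def TT (n k : ℕ) : ℕ := KK k * J k * A (NN n k) (NN n k) + 1

theorem hard : NPH Valid Yes := by
  refine indep_nph.reduce (fun p => (DD (NN p.1 p.2.2) (ad p.1 p.2.1) (TT p.1 p.2.2),
    Bin.mk (J p.2.2), Bin.mk (TT p.1 p.2.2 + A (NN p.1 p.2.2) (NN p.1 p.2.2))))
    (PT.mk (pt_DD (by unfold NN; fun_prop) (by fun_prop) (by fun_prop) (by unfold TT NN; fun_prop))
      (PT.mk (Pool.Agent.H37.pt_bin (by fun_prop))
        (Pool.Agent.H37.pt_bin (by unfold TT NN; fun_prop)))) fun ⟨n, E, k⟩ ⟨_, hk⟩ => ?_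
  have T0 : 0 < TT n k := Nat.succ_pos _
  have kb := (KK_bd k).1
  have ke : KK k = 2 ^ J k := it _
  simp only at hk
  refine ⟨⟨List.ne_nil_of_mem (mem_DD.2 (.inl ⟨true, 0, true, T0, .inl rfl, rfl⟩)),
    by simp only; omega⟩, fun ⟨S, hS, hc⟩ => yes (by simp only; omega) fun m => ?_, fun h => ?_⟩
  · simp only at hS hc
    refine le_trans (Nat.pow_le_pow_left ?_ m) (lower (S := (S ×ˢ range 3).image
      (fun p => 3 * p.1 + p.2) ∪ Ico (3 * n) (NN n k)) ⟨fun v hv => ?_, fun u hu v hv e => ?_⟩ m)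
    · rw [card_union_of_disjoint, card_image_of_injOn]
      · simp [NN, hc]; omega
      · intro ⟨a, b⟩ h ⟨c, d⟩ h' e
        simp only [coe_product, Set.mem_prod, coe_range, Set.mem_Iio, Prod.mk.injEq] at h h' e ⊢
        omega
      · simp only [disjoint_left, mem_image, mem_product, mem_range, mem_Ico]
        rintro _ ⟨⟨a, b⟩, h, rfl⟩
        have := hS.1 a h.1
        simp only at h ⊢; omega
    · simp only [mem_union, mem_image, mem_product, mem_range, mem_Ico, NN] at hv ⊢
      rcases hv with ⟨⟨a, b⟩, h, rfl⟩ | h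
      · have := hS.1 a h.1
        simp only at h ⊢; omega
      · omega
    · simp only [mem_union, mem_image, mem_product, mem_range, mem_Ico, ad,
        decide_eq_false_iff_not] at hu hv ⊢
      rintro ⟨h1, h2, h3, h4⟩
      obtain ⟨⟨a, b⟩, h, rfl⟩ := hu.resolve_right (by omega)
      obtain ⟨⟨c, d⟩, h', rfl⟩ := hv.resolve_right (by omega)
      simp only at *
      rw [show (3 * a + b) / 3 = a by omega, show (3 * c + d) / 3 = c by omega] at h4
      exact hS.2 a h.1 c h'.1 (by omega) h4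
  by_contra c
  have c' : ∀ S, IndepN n E S → #S + 1 ≤ k := fun S hS =>
    lt_of_le_of_ne (hk S hS) fun e => c ⟨S, hS, e⟩
  have k0 := c' ∅ ⟨by simp, by simp⟩
  obtain ⟨K, hK⟩ : ∃ K, KK k = K + 2 + 1 := ⟨KK k - 3, by omega⟩
  refine absurd h (not_le.2 ?_)
  have := no (D := DD (NN n k) (ad n E) (TT n k)) (M := A (NN n k) (NN n k)) (hK.symm.trans ke)
    (by omega) fun t => by
      rw [← hK]
      refine upper (fun S hS => ?_) T0
      have f : ∀ r < 3, #{x ∈ range n | 3 * x + r ∈ S} + 1 ≤ k := fun r hr =>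
        c' _ ⟨fun v hv => mem_range.1 (mem_filter.1 hv).1, fun u hu v hv e h => by
          simp only [mem_filter, mem_range] at hu hv
          have := hS.2 _ hu.2 _ hv.2 (by omega)
          simp only [ad, decide_eq_false_iff_not] at this
          exact this ⟨by omega, by omega, by omega, by
            rwa [show (3 * u + r) / 3 = u by omega, show (3 * v + r) / 3 = v by omega]⟩⟩
      have g : S ⊆ (range 3).biUnion (fun r => {x ∈ range n | 3 * x + r ∈ S}.image (3 * · + r)) ∪
          Ico (3 * n) (NN n k) := fun v hv => by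
        have := hS.1 v hv
        simp only [mem_union, mem_biUnion, mem_image, mem_filter, mem_range, mem_Ico]
        by_cases q : v < 3 * n
        · exact .inl ⟨v % 3, by omega, v / 3, ⟨by omega, by rwa [Nat.div_add_mod]⟩,
            Nat.div_add_mod _ _⟩
        · omega
      have := (card_le_card g).trans ((card_union_le _ _).trans (Nat.add_le_add_right
        (card_biUnion_le_card_mul _ _ (k - 1) fun r hr => card_image_le.trans
          (Nat.le_sub_one_of_lt (f r (mem_range.1 hr)))) _))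
      simp only [card_range, Nat.card_Ico, NN] at this
      omega
  rwa [← hK] at this

end Pool.Agent.H32.Cap
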