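import Pool.Agent.H38.NP.Defs

set_option autoImplicit false

namespace Pool.Agent.H32.Cap

open Classical Pool.Agent.H38.NP

/-- The difference `u - v`; `none`, `some true`, `some false` stand for `0`, `+`, `-`. -/
def dif {t : ℕ} (u v : Fin t → Bool) : List (Option Bool) :=
  List.ofFn fun i => if u i = v i then none else some (u i)

/-- No pattern of `D` is a factor of a difference of two distinct words of `W`. -/
def Avoids (D : List (List (Option Bool))) {t : ℕ} (W : Finset (Fin t → Bool)) : Prop :=
  ∀ u ∈ W, ∀ v ∈ W, u ≠ v → ∀ d ∈ D, ¬ ∃ x y, dif u v = x ++ d ++ y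

/-- `δ_t(D)`. -/
noncomputable def delta (D : List (List (Option Bool))) (t : ℕ) : ℕ :=
  (Finset.univ.filter fun W : Finset (Fin t → Bool) => Avoids D W).sup Finset.card

/-- The capacity of `D`. -/
noncomputable def cap (D : List (List (Option Bool))) : ℝ :=
  Filter.limsup (fun t : ℕ => Real.logb 2 (delta D t) / t) Filter.atTop

/-- Input: the list `D` and a rational `r = p / q` with `p`, `q` in binary. -/
abbrev Inst := List (List (Option Bool)) × Bin × Bin

def Valid (x : Inst) : Prop := x.1 ≠ [] ∧ x.2.2.val ≠ 0

def Yes (x : Inst) : Prop := (x.2.1.val : ℝ) / x.2.2.val ≤ cap x.1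

end Pool.Agent.H32.Cap
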