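import Mathlib

set_option autoImplicit false

namespace Pool.Agent.H32.Chordal

open SimpleGraph Finset

variable {V : Type} (G : SimpleGraph V)

def Pth (U : Set V) (a b : V) (k : ℕ) (p : ℕ → V) : Prop :=
  p 0 = a ∧ p k = b ∧ (∀ i < k, G.Adj (p i) (p (i + 1))) ∧ ∀ i ≤ k, p i ∈ U

theorem pth_of (U : Set V) (a b : V) (ha : a ∈ U)
    (h : Relation.ReflTransGen (fun x y => G.Adj x y ∧ x ∈ U ∧ y ∈ U) a b) :
    ∃ k p, Pth G U a b k p := by
  induction h with
  | refl => exact ⟨0, fun _ => a, rfl, rfl, by simp, fun _ _ => ha⟩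
  | @tail b c _ h ih =>
    obtain ⟨k, p, h1, h2, h3, h4⟩ := ih
    refine ⟨k + 1, fun i => if i ≤ k then p i else c, by simp [h1], by simp, fun i hi => ?_,
      fun i _ => ?_⟩
    · rcases (Nat.lt_succ_iff.1 hi).eq_or_lt with rfl | h5
      · simpa [h2] using h.1
      · simpa [h5.le, Nat.succ_le_of_lt h5] using h3 i h5
    · dsimp only
      split_ifs with h5
      exacts [h4 i h5, h.2.2]

theorem short {U : Set V} {a b : V} {k : ℕ} {p : ℕ → V} (h : Pth G U a b k p) (i d : ℕ)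
    (hi : i + d ≤ k) (h0 : i + d = k → p i = b)
    (h1 : i + d < k → G.Adj (p i) (p (i + 1 + d))) :
    Pth G U a b (k - d) fun t => if t ≤ i then p t else p (t + d) := by
  obtain ⟨e1, e2, e3, e4⟩ := h
  refine ⟨by simp [e1], ?_, fun t ht => ?_, fun t ht => ?_⟩
  · dsimp only
    split_ifs with h2
    · rw [show k - d = i by omega]
      exact h0 (by omega)
    · rwa [show k - d + d = k by omega]
  · dsimp only
    rcases lt_trichotomy t i with h2 | rfl | h2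
    · rw [if_pos h2.le, if_pos (by omega)]
      exact e3 t (by omega)
    · rw [if_pos le_rfl, if_neg (by omega)]
      exact h1 (by omega)
    · rw [if_neg (by omega), if_neg (by omega), show t + 1 + d = t + d + 1 by omega]
      exact e3 _ (by omega)
  · dsimp only
    split_ifs <;> exact e4 _ (by omega)

theorem cyc (hG : ∀ n, 4 ≤ n → IsEmpty (cycleGraph n ↪g G)) (C : Set V) (v a b : V)
    (hC : ∀ c ∈ C, c ≠ v ∧ ¬ G.Adj v c) (ha : G.Adj v a) (hb : G.Adj v b) (hab : a ≠ b)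
    (h : Relation.ReflTransGen
      (fun x y => G.Adj x y ∧ x ∈ C ∪ {a, b} ∧ y ∈ C ∪ {a, b}) a b) : G.Adj a b := by
  classical
  by_contra hn
  have hex := pth_of G _ a b (by simp) h
  obtain ⟨p, hp⟩ := Nat.find_spec hex
  have hmin : ∀ d q, 0 < d → d ≤ Nat.find hex → ¬ Pth G (C ∪ {a, b}) a b (Nat.find hex - d) q :=
    fun d q h1 h2 h3 => Nat.find_min hex (by omega) ⟨q, h3⟩
  generalize Nat.find hex = k at hp hmin
  have inj : ∀ i j, i < j → j ≤ k → p i ≠ p j := by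
    intro i j h1 h2 e
    refine hmin (j - i) _ (by omega) (by omega) (short G hp i (j - i) (by omega) (fun h3 => ?_)
      fun h3 => ?_)
    · rw [e, show j = k by omega, hp.2.1]
    · rw [e, show i + 1 + (j - i) = j + 1 by omega]
      exact hp.2.2.1 j (by omega)
  have chord : ∀ i j, i + 1 < j → j ≤ k → ¬ G.Adj (p i) (p j) := by
    intro i j h1 h2 e
    refine hmin (j - i - 1) _ (by omega) (by omega) (short G hp i (j - i - 1) (by omega)
      (fun h3 => by omega) fun h3 => ?_)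
    rwa [show i + 1 + (j - i - 1) = j by omega]
  have k2 : 2 ≤ k := by
    by_contra h1
    obtain rfl | rfl : k = 0 ∨ k = 1 := by omega
    · exact hab (hp.1.symm.trans hp.2.1)
    · exact hn (by simpa [hp.1, hp.2.1] using hp.2.2.1 0 one_pos)
  have adj : ∀ i j, i ≤ k → j ≤ k → (G.Adj (p i) (p j) ↔ i + 1 = j ∨ j + 1 = i) := by
    intro i j hi hj
    refine ⟨fun e => ?_, ?_⟩
    · by_contra h1
      rcases lt_trichotomy i j with h2 | rfl | h2
      · exact chord i j (by omega) hj e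
      · exact e.ne rfl
      · exact chord j i (by omega) hi e.symm
    · rintro (rfl | rfl)
      exacts [hp.2.2.1 i (by omega), (hp.2.2.1 j (by omega)).symm]
  have nev : ∀ i ≤ k, p i ≠ v := by
    intro i hi
    rcases hp.2.2.2 i hi with h1 | h1 | h1
    · exact (hC _ h1).1
    · rw [h1]; exact ha.ne'
    · rw [h1]; exact hb.ne'
  have adv : ∀ i ≤ k, (G.Adj v (p i) ↔ i = 0 ∨ i = k) := by
    intro i hi
    refine ⟨fun e => ?_, ?_⟩
    · by_contra h0
      rcases hp.2.2.2 i hi with h1 | h1 | h1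
      · exact (hC _ h1).2 e
      · exact inj 0 i (by omega) hi (hp.1.trans h1.symm)
      · exact inj i k (by omega) le_rfl (h1.trans hp.2.1.symm)
    · rintro (rfl | rfl)
      exacts [hp.1 ▸ ha, hp.2.1 ▸ hb]
  have sub : ∀ x y : Fin (k + 2), (x - y).val = 1 ↔ x.val = y.val + 1 ∨ (x.val = 0 ∧ y.val = k + 1) := by
    intro x y
    have := x.2
    have := y.2
    rcases le_or_gt y x with h1 | h1
    · rw [Fin.coe_sub_iff_le.2 h1]
      have : y.val ≤ x.val := h1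
      omega
    · rw [Fin.coe_sub_iff_lt.2 h1]
      have : x.val < y.val := h1
      omega
  refine (hG (k + 2) (by omega)).false ⟨⟨fun i => if i.val ≤ k then p i else v, fun x y e => ?_⟩, ?_⟩
  · have := x.2
    have := y.2
    apply Fin.ext
    dsimp only at e
    split_ifs at e with h1 h2 h2
    · by_contra h3
      rcases lt_or_gt_of_ne h3 with h4 | h4
      exacts [inj _ _ h4 h2 e, inj _ _ h4 h1 e.symm]
    · exact absurd e (nev _ h1)
    · exact absurd e.symm (nev _ h2)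
    · omega
  · intro x y
    have := x.2
    have := y.2
    rw [cycleGraph_adj', sub, sub]
    simp only [Function.Embedding.coeFn_mk]
    split_ifs with h1 h2 h2
    · rw [adj _ _ h1 h2]; omega
    · rw [G.adj_comm, adv _ h1]; omega
    · rw [adv _ h2]; omega
    · simp only [G.irrefl, false_iff]; omega

def Simp (S : Finset V) (x : V) : Prop :=
  ∀ a ∈ S, ∀ b ∈ S, G.Adj x a → G.Adj x b → a ≠ b → G.Adj a b

theorem dirac (hG : ∀ n, 4 ≤ n → IsEmpty (cycleGraph n ↪g G)) (S : Finset V) :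
    ∀ v ∈ S, ∀ u ∈ S, u ≠ v → ¬ G.Adj v u → ∃ x ∈ S, x ≠ v ∧ ¬ G.Adj v x ∧ Simp G S x := by
  classical
  induction S using Finset.strongInduction with
  | H S ih =>
  intro v hv u hu huv hadj
  let A : Set V := {w | w ∈ S ∧ w ≠ v ∧ ¬ G.Adj v w}
  let C : Set V := {w | Relation.ReflTransGen (fun x y => G.Adj x y ∧ y ∈ A) u w}
  have hA : ∀ c ∈ C, c ∈ A := by
    intro c hc
    rcases Relation.ReflTransGen.cases_tail hc with rfl | ⟨_, _, h⟩
    exacts [⟨hu, huv, hadj⟩, h.2]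
  let S' : Finset V := {w ∈ S | w ∈ C ∨ ∃ c ∈ C, G.Adj c w}
  have hT : ∀ w ∈ S', w ∉ C → G.Adj v w ∧ ∃ c ∈ C, G.Adj c w := by
    intro w hw h
    obtain ⟨h1, h2⟩ := mem_filter.1 hw
    obtain ⟨c, hc, h3⟩ := h2.resolve_left h
    refine ⟨?_, c, hc, h3⟩
    by_contra h4
    refine h (Relation.ReflTransGen.tail hc ⟨h3, h1, ?_, h4⟩)
    rintro rfl
    exact (hA c hc).2.2 h3.symm
  have hcl : ∀ a ∈ S', ∀ b ∈ S', a ∉ C → b ∉ C → a ≠ b → G.Adj a b := by
    intro a ha b hb h1 h2 hab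
    obtain ⟨h3, c, hc, h4⟩ := hT a ha h1
    obtain ⟨h5, d, hd, h6⟩ := hT b hb h2
    have key : ∀ w ∈ C, Relation.ReflTransGen
        (fun x y => G.Adj x y ∧ x ∈ C ∪ {a, b} ∧ y ∈ C ∪ {a, b}) u w := by
      intro w hw
      induction hw with
      | refl => exact .refl
      | tail h h' ih => exact ih.tail ⟨h'.1, Or.inl h, Or.inl (h.tail h')⟩
    have sy : ∀ w, Relation.ReflTransGen
        (fun x y => G.Adj x y ∧ x ∈ C ∪ {a, b} ∧ y ∈ C ∪ {a, b}) u w → Relation.ReflTransGen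
        (fun x y => G.Adj x y ∧ x ∈ C ∪ {a, b} ∧ y ∈ C ∪ {a, b}) w u := by
      intro w hw
      induction hw with
      | refl => exact .refl
      | tail _ h' ih => exact .head ⟨h'.1.symm, h'.2.2, h'.2.1⟩ ih
    exact cyc G hG C v a b (fun c hc => (hA c hc).2) h3 h5 hab
      (((sy c (key c hc)).head ⟨h4.symm, by simp, Or.inl hc⟩).trans
        ((key d hd).tail ⟨h6, Or.inl hd, by simp⟩))
  have hlt : S' ⊂ S := by
    refine (filter_subset _ _).ssubset_of_mem_notMem hv fun h => ?_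
    by_cases h1 : v ∈ C
    · exact (hA v h1).2.1 rfl
    · exact (hT v h h1).1.ne rfl
  suffices ∃ x ∈ C, Simp G S' x by
    obtain ⟨x, h1, h2⟩ := this
    exact ⟨x, (hA x h1).1, (hA x h1).2.1, (hA x h1).2.2, fun a ha b hb h3 h4 =>
      h2 a (mem_filter.2 ⟨ha, Or.inr ⟨x, h1, h3⟩⟩) b (mem_filter.2 ⟨hb, Or.inr ⟨x, h1, h4⟩⟩) h3 h4⟩
  by_cases h1 : ∃ s ∈ S', s ∉ C ∧ ∃ w ∈ S', w ≠ s ∧ ¬ G.Adj s w
  · obtain ⟨s, hs, h2, w, hw, h3, h4⟩ := h1
    obtain ⟨x, hx, h5, h6, h7⟩ := ih S' hlt s hs w hw h3 h4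
    exact ⟨x, by_contra fun h8 => h6 (hcl s hs x hx h2 h8 h5.symm), h7⟩
  · push Not at h1
    by_cases h2 : ∃ s ∈ S', ∃ w ∈ S', w ≠ s ∧ ¬ G.Adj s w
    · obtain ⟨s, hs, w, hw, h3, h4⟩ := h2
      obtain ⟨x, hx, h5, h6, h7⟩ := ih S' hlt s hs w hw h3 h4
      exact ⟨x, by_contra fun h8 => h6 (h1 x hx h8 s hs h5.symm).symm, h7⟩
    · push Not at h2
      exact ⟨u, .refl, fun a ha b hb _ _ h => h2 a ha b hb h.symm⟩

theorem peo (hG : ∀ n, 4 ≤ n → IsEmpty (cycleGraph n ↪g G)) (S : Finset V) :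
    ∃ r : V → ℕ, Set.InjOn r S ∧ ∀ x ∈ S, ∀ a ∈ S, ∀ b ∈ S, G.Adj x a → G.Adj x b → r x < r a →
      r x < r b → a ≠ b → G.Adj a b := by
  classical
  induction S using Finset.strongInduction with
  | H S ih =>
  rcases S.eq_empty_or_nonempty with rfl | ⟨v, hv⟩
  · simp
  obtain ⟨x, hx, h⟩ : ∃ x ∈ S, Simp G S x := by
    by_cases h2 : ∃ s ∈ S, ∃ w ∈ S, w ≠ s ∧ ¬ G.Adj s w
    · obtain ⟨s, hs, w, hw, h3, h4⟩ := h2
      obtain ⟨x, hx, -, -, h7⟩ := dirac G hG S s hs w hw h3 h4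
      exact ⟨x, hx, h7⟩
    · push Not at h2
      exact ⟨v, hv, fun a ha b hb _ _ h => h2 a ha b hb h.symm⟩
  obtain ⟨r, h1, h2⟩ := ih _ (erase_ssubset hx)
  refine ⟨fun y => if y = x then 0 else r y + 1, fun a ha b hb e => ?_,
    fun y hy a ha b hb h3 h4 h5 h6 h7 => ?_⟩
  · dsimp only at e
    split_ifs at e with h3 h4 h4
    · rw [h3, h4]
    · exact h1 (mem_erase.2 ⟨h3, ha⟩) (mem_erase.2 ⟨h4, hb⟩) (by omega)
  · by_cases h8 : y = x
    · subst h8
      exact h a ha b hb h3 h4 h7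
    · dsimp only at h5 h6
      rw [if_neg h8] at h5 h6
      split_ifs at h5 h6 with h9 h10
      · omega
      · omega
      · omega
      · exact h2 y (mem_erase.2 ⟨h8, hy⟩) a (mem_erase.2 ⟨h9, ha⟩) b (mem_erase.2 ⟨by assumption, hb⟩)
          h3 h4 (by omega) (by omega) h7

theorem dom [Fintype V] [DecidableEq V] [DecidableRel G.Adj]
    (hG : ∀ n, 4 ≤ n → IsEmpty (cycleGraph n ↪g G)) (f : V → ℝ) (h0 : ∀ v, 0 ≤ f v)
    (h1 : ∀ v, ∑ u ∈ insert v (G.neighborFinset v), f u = 1) :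
    ∃ D : Finset V, (∀ v, v ∈ D ∨ ∃ d ∈ D, G.Adj v d) ∧ (#D : ℝ) ≤ ∑ v, f v := by
  obtain ⟨r, hr, hp⟩ := peo G hG univ
  have hr' : Function.Injective r := fun a b e => hr (by simp) (by simp) e
  let nb : V → Finset V := fun v => {u ∈ insert v (G.neighborFinset v) | 0 < f u}
  have mem : ∀ v u, u ∈ nb v ↔ (u = v ∨ G.Adj v u) ∧ 0 < f u := by simp [nb]
  have s1 : ∀ v, ∑ u ∈ nb v, f u = 1 := fun v => by
    rw [← h1 v, sum_filter_of_ne fun x _ h => (h0 x).lt_of_ne' h]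
  have eq : ∀ v w, nb v ⊆ nb w → nb v = nb w := by
    intro v w h
    by_contra h2
    obtain ⟨x, h3, h4⟩ := exists_of_ssubset (h.ssubset_of_ne h2)
    have := sum_lt_sum_of_subset h h3 h4 ((mem _ _).1 h3).2 fun j _ _ => h0 j
    rw [s1, s1] at this
    exact lt_irrefl _ this
  have late : ∀ v, (∀ u ∈ nb v, u ≠ v → r v < r u) → ∀ w ∈ nb v, w ≠ v → nb v = nb w := by
    intro v h w hw hwv
    have h2 := ((mem _ _).1 hw).1.resolve_left hwv
    refine eq v w fun u hu => (mem _ _).2 ⟨?_, ((mem _ _).1 hu).2⟩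
    by_cases h3 : u = v
    · exact Or.inr (h3 ▸ h2.symm)
    · by_cases h4 : w = u
      · exact Or.inl h4.symm
      · exact Or.inr (hp v (mem_univ _) w (mem_univ _) u (mem_univ _) h2
          (((mem _ _).1 hu).1.resolve_left h3) (h w hw hwv) (h u hu h3) h4)
  have cl : ∀ n v, r v = n → 0 < f v → ∀ w ∈ nb v, nb v = nb w := by
    intro n
    induction n using Nat.strong_induction_on with
    | _ n ih =>
    intro v hn hv w hw
    by_cases h : ∀ u ∈ nb v, u ≠ v → r v < r u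
    · by_cases h2 : w = v
      · rw [h2]
      · exact late v h w hw h2
    · push Not at h
      obtain ⟨u, hu, h2, h3⟩ := h
      have h4 := ih (r u) (hn ▸ h3.lt_of_ne (hr'.ne h2)) u rfl ((mem _ _).1 hu).2
      have h5 := h4 v ((mem _ _).2 ⟨Or.inr (((mem _ _).1 hu).1.resolve_left h2).symm, hv⟩)
      rw [← h5] at hw ⊢
      exact h4 w hw
  have cl' : ∀ v, 0 < f v → ∀ w ∈ nb v, nb v = nb w := fun v => cl _ v rfl
  have ne : ∀ v, (nb v).Nonempty := fun v => nonempty_of_sum_ne_zero (by rw [s1]; norm_num)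
  let D : Finset V := {d | 0 < f d ∧ ∀ u ∈ nb d, r u ≤ r d}
  have top : ∀ u, 0 < f u → ∃ d ∈ D, d ∈ nb u ∧ r u ≤ r d := by
    intro u hu
    obtain ⟨d, h2, h3⟩ := exists_max_image _ r (ne u)
    exact ⟨d, mem_filter.2 ⟨mem_univ _, ((mem _ _).1 h2).2, cl' u hu d h2 ▸ h3⟩, h2,
      h3 u ((mem _ _).2 ⟨Or.inl rfl, hu⟩)⟩
  refine ⟨D, fun v => ?_, ?_⟩
  · by_contra h
    push Not at h
    have h2 : ∀ d ∈ D, d ∉ nb v := fun d hd h3 =>
      ((mem _ _).1 h3).1.elim (fun e => h.1 (e ▸ hd)) (h.2 d hd)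
    have h3 : ¬ 0 < f v := fun h3 => by
      obtain ⟨d, h4, h5, -⟩ := top v h3
      exact h2 d h4 h5
    obtain ⟨w, hw⟩ := ne v
    obtain ⟨d, h4, h5, -⟩ := top w ((mem _ _).1 hw).2
    refine h2 d h4 (late v (fun u hu h6 => ?_) w hw (fun e => h3 (e ▸ ((mem _ _).1 hw).2)) ▸ h5)
    obtain ⟨d, h7, h8, h9⟩ := top u ((mem _ _).1 hu).2
    have h10 : d ≠ u := fun e => h2 d h7 (e ▸ hu)
    by_contra h11
    exact h.2 d h7 (hp u (mem_univ _) v (mem_univ _) d (mem_univ _)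
      (((mem _ _).1 hu).1.resolve_left h6).symm (((mem _ _).1 h8).1.resolve_left h10)
      ((not_lt.1 h11).lt_of_ne (hr'.ne h6)) (h9.lt_of_ne (hr'.ne h10.symm))
      fun e => h.1 (e ▸ h7))
  · have h2 : (D : Set V).PairwiseDisjoint nb := by
      intro a ha b hb hab
      have ha' := (mem_filter.1 ha).2
      have hb' := (mem_filter.1 hb).2
      refine disjoint_left.2 fun x h3 h4 => hab (hr' ?_)
      have e := (cl' a ha'.1 x h3).trans (cl' b hb'.1 x h4).symm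
      exact le_antisymm (hb'.2 a (e ▸ (mem _ _).2 ⟨Or.inl rfl, ha'.1⟩))
        (ha'.2 b (e ▸ (mem _ _).2 ⟨Or.inl rfl, hb'.1⟩))
    calc (#D : ℝ) = ∑ d ∈ D, ∑ u ∈ nb d, f u := by simp [s1]
      _ = ∑ u ∈ D.biUnion nb, f u := (sum_biUnion h2).symm
      _ ≤ _ := sum_le_sum_of_subset_of_nonneg (subset_univ _) fun i _ _ => h0 i

theorem weak [Fintype V] [DecidableEq V] [DecidableRel G.Adj] (f g : V → ℝ) (h0 : ∀ v, 0 ≤ f v)
    (h1 : ∀ v, ∑ u ∈ insert v (G.neighborFinset v), f u = 1)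
    (h2 : ∀ v, 1 ≤ ∑ u ∈ insert v (G.neighborFinset v), g u) : ∑ v, f v ≤ ∑ v, g v := by
  calc ∑ v, f v ≤ ∑ v, ∑ u ∈ insert v (G.neighborFinset v), f v * g u :=
        sum_le_sum fun v _ => by
          rw [← mul_sum]
          exact le_mul_of_one_le_right (h0 v) (h2 v)
    _ = ∑ u, ∑ v ∈ insert u (G.neighborFinset u), f v * g u :=
        sum_comm' fun x y => by simp [eq_comm, G.adj_comm]
    _ = _ := sum_congr rfl fun u _ => by rw [← sum_mul, h1, one_mul]

end Pool.Agent.H32.Chordal
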