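import Mathlib

set_option autoImplicit false

namespace Pool.Agent.H32.ColChk

def go (k : ℕ) : List (List ℕ) → List ℕ → Bool
  | [], _ => false
  | nb :: r, c => (List.range k).all fun t => nb.any (fun j => c.getD j k == t) || go k r (c ++ [t])

theorem sound (k : ℕ) (f : ℕ → ℕ) (hf : ∀ i, f i < k) (r : List (List ℕ)) : ∀ c : List ℕ,
    (∀ j < c.length, c.getD j k = f j) →
    (∀ i < r.length, ∀ j ∈ r.getD i [], f j ≠ f (c.length + i)) → go k r c = false := by
  induction r with
  | nil => intro c _ _; rfl
  | cons nb r ih =>
    intro c h1 h2
    rw [go, List.all_eq_false]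
    refine ⟨f c.length, List.mem_range.2 (hf _), ?_⟩
    rw [ih (c ++ [f c.length])]
    · simp only [Bool.or_false, List.any_eq_true, beq_iff_eq, not_exists, not_and]
      intro j hj e
      rcases lt_or_ge j c.length with h | h
      · exact h2 0 (by simp) j (by simpa using hj) (by rw [← h1 j h, e]; rfl)
      · rw [List.getD_eq_default _ _ h] at e
        exact (hf _).ne' e
    · intro j hj
      rw [List.length_append, List.length_singleton] at hj
      rcases lt_or_ge j c.length with h | h
      · rw [List.getD_append _ _ _ _ h, h1 j h]
      · obtain rfl : j = c.length := by omega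
        simp
    · intro i hi j hj
      have := h2 (i + 1) (by simpa using hi) j (by simpa using hj)
      rwa [List.length_append, List.length_singleton, add_assoc, add_comm 1]

/-- Back-neighbour lists of an edge list. -/
def back {n : ℕ} (E : List (Fin n × Fin n)) : List (List ℕ) :=
  (List.range n).map fun i => (E.filter fun p => p.2.val == i).map fun p => p.1.val

theorem no_col {n k : ℕ} (hk : 0 < k) (E : List (Fin n × Fin n)) (h : go k (back E) [] = true)
    (c : Fin n → Fin k) : ¬ ∀ p ∈ E, c p.1 ≠ c p.2 := by
  intro hc
  have := sound k (fun i => if h : i < n then (c ⟨i, h⟩).val else 0) (fun i => by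
    split_ifs
    exacts [Fin.is_lt _, hk]) (back E) [] (by simp) fun i hi j hj => by
      have hi' : i < n := by simpa [back] using hi
      rw [List.getD_eq_getElem _ _ hi] at hj
      simp only [back, List.getElem_map, List.getElem_range, List.mem_map, List.mem_filter,
        beq_iff_eq] at hj
      obtain ⟨p, ⟨h1, rfl⟩, rfl⟩ := hj
      simpa [Fin.ext_iff] using hc p h1
  rw [h] at this
  exact absurd this (by simp)

end Pool.Agent.H32.ColChk
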