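import Mathlib

set_option autoImplicit false

namespace Pool.Agent.H32.Compactible

open Set

variable {E : Type*} {n : ℕ}

/-- `f` restricted to `X` is a local automorphism of the relation `A`. -/
def LocalAut (A : Set (Fin n → E)) (X : Set E) (f : E → E) : Prop :=
  InjOn f X ∧ ∀ x : Fin n → E, (∀ i, x i ∈ X) → (x ∈ A ↔ f ∘ x ∈ A)

open Classical in
/-- `D` is an interval mod `A`: every local automorphism with domain and range inside `D`,
extended by the identity on the complement of `D`, is a local automorphism. -/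
def IsInterval (A : Set (Fin n → E)) (D : Set E) : Prop :=
  ∀ (X : Set E) (f : E → E), X ⊆ D → MapsTo f X D → LocalAut A X f →
    LocalAut A (X ∪ Dᶜ) (fun e => if e ∈ D then f e else e)

/-- The complement of every interval is a finite union of intervals. -/
def IsCompactible (A : Set (Fin n → E)) : Prop :=
  ∀ D, IsInterval A D → ∃ F : Set (Set E), F.Finite ∧ (∀ U ∈ F, IsInterval A U) ∧ ⋃₀ F = Dᶜ

def Sw (A : Set (Fin n → E)) (D : Set E) : Prop :=
  ∀ x y : Fin n → E, (∀ i, x i ∉ D → y i = x i) → (∀ i, x i ∈ D → y i ∈ D) →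
    (∀ i j, x i ∈ D → x j ∈ D → (x i = x j ↔ y i = y j)) →
    (∀ s : Fin n → Fin n, (∀ k, x (s k) ∈ D) → (x ∘ s ∈ A ↔ y ∘ s ∈ A)) → (x ∈ A ↔ y ∈ A)

lemma sw_iff (A : Set (Fin n → E)) (D : Set E) : IsInterval A D ↔ Sw A D := by
  classical
  constructor
  · intro h x y h1 h2 h3 h4
    let f : E → E := fun e => if h : ∃ i, x i = e then y h.choose else e
    have hf : ∀ i, x i ∈ D → f (x i) = y i := by
      intro i hi
      have hh : ∃ j, x j = x i := ⟨i, rfl⟩
      have := hh.choose_spec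
      simp only [f, dif_pos hh]
      exact (h3 _ _ (by rw [this]; exact hi) hi).1 this
    have key := h {e | e ∈ D ∧ ∃ i, x i = e} f (fun e he => he.1)
      (by rintro e ⟨he, i, rfl⟩; rw [hf i he]; exact h2 i he)
      ⟨by
        rintro a ⟨ha, i, rfl⟩ b ⟨hb, j, rfl⟩ hab
        rw [hf i ha, hf j hb] at hab
        exact (h3 i j ha hb).2 hab, by
        intro z hz
        choose s hs using fun k => (hz k).2
        have e1 : z = x ∘ s := by ext k; exact (hs k).symm
        have hD : ∀ k, x (s k) ∈ D := fun k => (hs k).symm ▸ (hz k).1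
        have e2 : f ∘ z = y ∘ s := by ext k; simp [e1, hf _ (hD k)]
        rw [e2, e1]; exact h4 s hD⟩
    have := key.2 x (fun i => by
      by_cases hi : x i ∈ D
      · exact Or.inl ⟨hi, i, rfl⟩
      · exact Or.inr hi)
    rw [this]
    have e : (fun e => if e ∈ D then f e else e) ∘ x = y := by
      ext i
      by_cases hi : x i ∈ D
      · simp [hi, hf i hi]
      · simp [hi, h1 i hi]
    rw [e]
  · intro h X f hX hm hf
    have hin : ∀ a, a ∈ X ∪ Dᶜ → a ∈ D → a ∈ X := fun a ha hD => ha.resolve_right (fun h => h hD)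
    refine ⟨?_, ?_⟩
    · intro a ha b hb hab
      by_cases h1 : a ∈ D <;> by_cases h2 : b ∈ D <;> simp only [h1, h2, if_true, if_false] at hab
      · exact hf.1 (hin a ha h1) (hin b hb h2) hab
      · exact absurd (hab ▸ hm (hin a ha h1)) h2
      · exact absurd (hab.symm ▸ hm (hin b hb h2)) h1
      · exact hab
    · intro z hz
      apply h
      · intro i hi; simp [hi]
      · intro i hi; simpa [hi] using hm (hin _ (hz i) hi)
      · intro i j hi hj
        simp only [Function.comp, hi, hj, if_true]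
        exact ⟨fun e => by rw [e], fun e => hf.1 (hin _ (hz i) hi) (hin _ (hz j) hj) e⟩
      · intro s hs
        rw [hf.2 (z ∘ s) (fun k => hin _ (hz _) (hs k))]
        have : f ∘ z ∘ s = ((fun e => if e ∈ D then f e else e) ∘ z) ∘ s := by
          ext k; simp [hs k]
        rw [this]

lemma Sw.inter {A : Set (Fin n → E)} {U V : Set E} (hU : Sw A U) (hV : Sw A V) :
    Sw A (U ∩ V) := by
  intro x y h1 h2 h3 h4
  have hyU : ∀ i, x i ∈ U → y i ∈ U := fun i hi => by
    by_cases hv : x i ∈ V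
    · exact (h2 i ⟨hi, hv⟩).1
    · rw [h1 i (fun h => hv h.2)]; exact hi
  have hinj : ∀ i j, x i = x j ↔ y i = y j := by
    intro i j
    by_cases hi : x i ∈ U ∩ V <;> by_cases hj : x j ∈ U ∩ V
    · exact h3 i j hi hj
    · exact ⟨fun e => absurd (e ▸ hi) hj, fun e => absurd (h1 j hj ▸ e ▸ h2 i hi) hj⟩
    · exact ⟨fun e => absurd (e ▸ hj) hi, fun e => absurd (h1 i hi ▸ e ▸ h2 j hj) hi⟩
    · rw [h1 i hi, h1 j hj]
  apply hU x y (fun i hi => h1 i (fun h => hi h.1)) hyU (fun i j _ _ => hinj i j)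
  intro s hs
  apply hV (x ∘ s) (y ∘ s) (fun i hi => h1 _ (fun h => hi h.2))
    (fun i hi => (h2 _ ⟨hs i, hi⟩).2) (fun i j _ _ => hinj _ _)
  intro t ht
  exact h4 (s ∘ t) (fun k => ⟨hs _, ht k⟩)

/-- type of a tuple -/
def tp (A : Set (Fin n → E)) (t : Fin n → E) : ((Fin n → Fin n) → Prop) × (Fin n → Fin n → Prop) :=
  (fun s => t ∘ s ∈ A, fun i j => t i = t j)

def T (A : Set (Fin n → E)) (Y : Set E) := tp A '' {t | ∀ i, t i ∈ Y}

lemma T_mono (A : Set (Fin n → E)) {X Y : Set E} (h : X ⊆ Y) : T A X ⊆ T A Y :=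
  image_mono (fun _ ht i => h (ht i))

lemma Sw.diff {A : Set (Fin n → E)} {X Y : Set E} (hX : Sw A X) (hY : Sw A Y)
    (hT : T A Y ⊆ T A (Y \ X)) : Sw A (X \ Y) := by
  classical
  intro x y h1 h2 h3 h4
  have hxy : ∀ i, x i ∈ Y → y i = x i := fun i hi => h1 i (fun h => h.2 hi)
  have hyY : ∀ i, x i ∉ Y → y i ∉ Y := fun i hi => by
    by_cases hx : x i ∈ X
    · exact (h2 i ⟨hx, hi⟩).2
    · rw [h1 i (fun h => hx h.1)]; exact hi
  by_cases h0 : ∃ i0, x i0 ∈ Y
  · obtain ⟨i0, hi0⟩ := h0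
    let t : Fin n → E := fun i => if x i ∈ Y then x i else x i0
    obtain ⟨t', ht', e⟩ := hT ⟨t, fun i => by
      by_cases hi : x i ∈ Y <;> simp [t, hi, hi0], rfl⟩
    have e1 : ∀ s : Fin n → Fin n, t' ∘ s ∈ A ↔ t ∘ s ∈ A := fun s =>
      iff_of_eq (congrFun (congrArg Prod.fst e) s)
    have e2 : ∀ i j, t' i = t' j ↔ t i = t j := fun i j =>
      iff_of_eq (congrFun (congrFun (congrArg Prod.snd e) i) j)
    have step : ∀ z : Fin n → E, (∀ i, x i ∈ Y → z i = x i) → (∀ i, x i ∉ Y → z i ∉ Y) →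
        (z ∈ A ↔ (fun i => if x i ∈ Y then t' i else z i) ∈ A) := by
      intro z hz1 hz2
      have hm : ∀ i, z i ∈ Y → x i ∈ Y := fun i hi => by_contra fun h => hz2 i h hi
      apply hY
      · intro i hi
        have : x i ∉ Y := fun h => hi (hz1 i h ▸ h)
        simp [this]
      · intro i hi
        simpa [hm i hi] using (ht' i).1
      · intro i j hi hj
        simp only [hm i hi, hm j hj, if_true, e2, t, hz1 i (hm i hi), hz1 j (hm j hj)]
      · intro s hs
        have a1 : z ∘ s = t ∘ s := by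
          ext k; simp [t, hm _ (hs k), hz1 _ (hm _ (hs k))]
        have a2 : (fun i => if x i ∈ Y then t' i else z i) ∘ s = t' ∘ s := by
          ext k; simp [hm _ (hs k)]
        rw [a1, a2, e1]
    rw [step x (fun _ _ => rfl) (fun _ h => h), step y hxy hyY]
    have hm : ∀ i, (if x i ∈ Y then t' i else x i) ∈ X → x i ∈ X \ Y := by
      intro i hi
      by_cases h : x i ∈ Y
      · simp only [h, if_true] at hi; exact absurd hi (ht' i).2
      · simp only [h, if_false] at hi; exact ⟨hi, h⟩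
    apply hX
    · intro i hi
      by_cases h : x i ∈ Y
      · simp [h]
      · simp only [h, if_false] at hi ⊢
        exact h1 i (fun hh => hi hh.1)
    · intro i hi
      simpa [(hm i hi).2] using (h2 i (hm i hi)).1
    · intro i j hi hj
      simpa [(hm i hi).2, (hm j hj).2] using h3 i j (hm i hi) (hm j hj)
    · intro s hs
      have a1 : (fun i => if x i ∈ Y then t' i else x i) ∘ s = x ∘ s := by
        ext k; simp [(hm _ (hs k)).2]
      have a2 : (fun i => if x i ∈ Y then t' i else y i) ∘ s = y ∘ s := by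
        ext k; simp [(hm _ (hs k)).2]
      rw [a1, a2]; exact h4 s (fun k => hm _ (hs k))
  · push Not at h0
    exact hX x y (fun i hi => h1 i (fun h => hi h.1)) (fun i hi => (h2 i ⟨hi, h0 i⟩).1)
      (fun i j hi hj => h3 i j ⟨hi, h0 i⟩ ⟨hj, h0 j⟩) (fun s hs => h4 s (fun k => ⟨hs k, h0 _⟩))

def Good (A : Set (Fin n → E)) (S : Set E) : Prop :=
  ∃ G : Set (Set E), G.Finite ∧ (∀ U ∈ G, IsInterval A U) ∧ G.PairwiseDisjoint id ∧ ⋃₀ G = S

lemma main {A : Set (Fin n → E)} (hA : IsCompactible A) (s : ℕ) :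
    ∀ (m : ℕ) (F : Set (Set E)), F.Finite → (∀ U ∈ F, IsInterval A U) →
      (∀ U ∈ F, (T A U).ncard < s + 1) → {U ∈ F | (T A U).ncard = s}.ncard = m →
      (∀ F' : Set (Set E), F'.Finite → (∀ U ∈ F', IsInterval A U) →
        (∀ U ∈ F', (T A U).ncard < s) → Good A (⋃₀ F')) → Good A (⋃₀ F) := by
  intro m
  induction m using Nat.strong_induction_on with
  | _ m ih =>
  intro F hF hI hs hm base
  by_cases h0 : ∃ V ∈ F, (T A V).ncard = s
  swap
  · push Not at h0
    exact base F hF hI (fun U hU => by have := hs U hU; have := h0 U hU; omega)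
  obtain ⟨V, hV, hVs⟩ := h0
  have hfin : {U ∈ F | (T A U).ncard = s}.Finite := hF.subset (fun _ h => h.1)
  have hlt : ({U ∈ F | (T A U).ncard = s} \ {V}).ncard < m := by
    rw [← hm]; exact ncard_sdiff_singleton_lt_of_mem ⟨hV, hVs⟩ hfin
  by_cases hc : ∀ U ∈ F, U ≠ V → T A V ⊆ T A (V \ U)
  · have hle : ∀ U, (T A (U \ V)).ncard ≤ (T A U).ncard := fun U =>
      ncard_le_ncard (T_mono A sdiff_subset) (toFinite _)
    suffices hh : Good A (⋃₀ ((fun U => U \ V) '' (F \ {V}))) by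
      obtain ⟨G, g1, g2, g3, g4⟩ := hh
      have hd : ∀ U ∈ G, Disjoint V U := by
        intro U hU
        rw [Set.disjoint_left]
        intro a ha haU
        have : a ∈ ⋃₀ G := ⟨U, hU, haU⟩
        rw [g4] at this
        obtain ⟨_, ⟨W, _, rfl⟩, hW⟩ := this
        exact hW.2 ha
      refine ⟨insert V G, g1.insert V, ?_, g3.insert (fun U hU _ => hd U hU), ?_⟩
      · rintro U (rfl | hU)
        exacts [hI _ hV, g2 U hU]
      · rw [sUnion_insert, g4]
        ext a
        constructor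
        · rintro (ha | ⟨_, ⟨W, hW, rfl⟩, ha⟩)
          exacts [⟨V, hV, ha⟩, ⟨W, hW.1, ha.1⟩]
        · rintro ⟨W, hW, ha⟩
          by_cases hv : a ∈ V
          · exact Or.inl hv
          · exact Or.inr ⟨_, ⟨W, ⟨hW, fun e => hv (e ▸ ha)⟩, rfl⟩, ha, hv⟩
    refine ih _ (lt_of_le_of_lt ?_ hlt) ((fun U => U \ V) '' (F \ {V}))
      (hF.sdiff.image _) ?_ ?_ rfl base
    · refine le_trans (ncard_le_ncard (t := (fun U => U \ V) ''
        ({U ∈ F | (T A U).ncard = s} \ {V})) ?_ (hfin.sdiff.image _)) (ncard_image_le hfin.sdiff)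
      rintro _ ⟨⟨W, hW, rfl⟩, h⟩
      refine ⟨W, ⟨⟨hW.1, ?_⟩, hW.2⟩, rfl⟩
      have := hle W; have := hs W hW.1
      simp only at h
      omega
    · rintro _ ⟨W, hW, rfl⟩
      rw [sw_iff]
      exact ((sw_iff _ _).1 (hI W hW.1)).diff ((sw_iff _ _).1 (hI V hV)) (hc W hW.1 hW.2)
    · rintro _ ⟨W, hW, rfl⟩
      exact lt_of_le_of_lt (hle W) (hs W hW.1)
  · push Not at hc
    obtain ⟨U, hU, hUV, hT⟩ := hc
    obtain ⟨Z, z1, z2, z3⟩ := hA U (hI U hU)
    have hsm : ∀ W ∈ Z, (T A (V ∩ W)).ncard < s := by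
      intro W hW
      rw [← hVs]
      refine lt_of_le_of_lt (ncard_le_ncard (T_mono A (Y := V \ U) ?_) (toFinite _))
        (ncard_lt_ncard ⟨T_mono A sdiff_subset, hT⟩ (toFinite _))
      intro a ha
      have : a ∈ ⋃₀ Z := ⟨W, hW, ha.2⟩
      rw [z3] at this
      exact ⟨ha.1, this⟩
    have e : ⋃₀ F = ⋃₀ ((F \ {V}) ∪ (fun W => V ∩ W) '' Z) := by
      ext a
      constructor
      · rintro ⟨W, hW, ha⟩
        by_cases hW' : W = V
        · by_cases hu : a ∈ U
          · exact ⟨U, Or.inl ⟨hU, hUV⟩, hu⟩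
          · have : a ∈ ⋃₀ Z := by rw [z3]; exact hu
            obtain ⟨W', hW2, ha'⟩ := this
            exact ⟨_, Or.inr ⟨W', hW2, rfl⟩, hW' ▸ ha, ha'⟩
        · exact ⟨W, Or.inl ⟨hW, hW'⟩, ha⟩
      · rintro ⟨W, hW | ⟨W', _, rfl⟩, ha⟩
        exacts [⟨W, hW.1, ha⟩, ⟨V, hV, ha.1⟩]
    rw [e]
    refine ih _ (lt_of_le_of_lt (ncard_le_ncard ?_ hfin.sdiff) hlt) _ (hF.sdiff.union (z1.image _))
      ?_ ?_ rfl base
    · rintro W ⟨hW | ⟨W', hW', rfl⟩, h⟩
      · exact ⟨⟨hW.1, h⟩, hW.2⟩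
      · exact absurd h (hsm W' hW').ne
    · rintro W (hW | ⟨W', hW', rfl⟩)
      · exact hI W hW.1
      · rw [sw_iff]
        exact ((sw_iff _ _).1 (hI V hV)).inter ((sw_iff _ _).1 (z2 W' hW'))
    · rintro W (hW | ⟨W', hW', rfl⟩)
      · exact hs W hW.1
      · exact (hsm W' hW').trans (Nat.lt_succ_self s)

theorem good {A : Set (Fin n → E)} (hA : IsCompactible A) (s : ℕ) :
    ∀ F : Set (Set E), F.Finite → (∀ U ∈ F, IsInterval A U) →
      (∀ U ∈ F, (T A U).ncard < s) → Good A (⋃₀ F) := by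
  induction s with
  | zero =>
    intro F _ _ h
    have : F = ∅ := eq_empty_of_forall_notMem fun U hU => absurd (h U hU) (by omega)
    exact ⟨∅, finite_empty, by simp, pairwiseDisjoint_empty, by rw [this]⟩
  | succ s ih => exact fun F h1 h2 h3 => main hA s _ F h1 h2 h3 rfl ih

end Pool.Agent.H32.Compactible
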