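import Pool.Agent.H32.ConeDefs

set_option autoImplicit false

namespace Pool.Agent.H32.Cone

variable {X Y W Q : Type}

inductive Pa (E : Set (Q × List X × List Y × Q)) : Q → List X → List Y → Q → Prop
  | nil (q : Q) : Pa E q [] [] q
  | cons {p q r : Q} {u u' : List X} {v v' : List Y} :
      (p, u, v, q) ∈ E → Pa E q u' v' r → Pa E p (u ++ u') (v ++ v') r

theorem Pa.trans {E : Set (Q × List X × List Y × Q)} {p q r : Q} {u u' : List X} {v v' : List Y}
    (h : Pa E p u v q) (h' : Pa E q u' v' r) : Pa E p (u ++ u') (v ++ v') r := by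
  induction h with
  | nil => exact h'
  | cons a _ ih => rw [List.append_assoc, List.append_assoc]; exact .cons a (ih h')

theorem Pa.cons' {E : Set (Q × List X × List Y × Q)} {p q r : Q} {u u' a : List X}
    {v v' b : List Y} (h : (p, u, v, q) ∈ E) (h' : Pa E q u' v' r) (e : a = u ++ u')
    (e' : b = v ++ v') : Pa E p a b r := e ▸ e' ▸ .cons h h'

def Rat (ρ : List X → List Y → Prop) : Prop :=
  ∃ (Q : Type) (E : Set (Q × List X × List Y × Q)) (I F : Set Q), E.Finite ∧ I.Finite ∧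
    ∀ u v, ρ u v ↔ ∃ p ∈ I, ∃ q ∈ F, Pa E p u v q

theorem Rat.symm {ρ : List X → List Y → Prop} (h : Rat ρ) : Rat fun v u => ρ u v := by
  obtain ⟨Q, E, I, F, h1, h2, h3⟩ := h
  refine ⟨Q, (fun e => (e.1, e.2.2.1, e.2.1, e.2.2.2)) '' E, I, F, h1.image _, h2, fun v u => ?_⟩
  refine (h3 u v).trans <| exists_congr fun p => and_congr_right' <| exists_congr fun q =>
    and_congr_right' ⟨fun h => ?_, fun h => ?_⟩
  · induction h with
    | nil => exact .nil _
    | cons a _ ih => exact .cons ⟨_, a, rfl⟩ ih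
  · induction h with
    | nil => exact .nil _
    | cons a _ ih => obtain ⟨e, a, h⟩ := a; cases h; exact .cons a ih

theorem Rat.iUnion {ι : Type} [Finite ι] {ρ : ι → List X → List Y → Prop} (h : ∀ i, Rat (ρ i)) :
    Rat fun u v => ∃ i, ρ i u v := by
  choose Q E I F h1 h2 h3 using h
  refine ⟨Σ i, Q i, ⋃ i, (fun e => (⟨i, e.1⟩, e.2.1, e.2.2.1, ⟨i, e.2.2.2⟩)) '' E i,
    ⋃ i, Sigma.mk i '' I i, {s | s.2 ∈ F s.1}, Set.finite_iUnion fun i => (h1 i).image _,
    Set.finite_iUnion fun i => (h2 i).image _, fun u v => ⟨fun this => ?_, ?_⟩⟩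
  · have ⟨i, h⟩ := this
    obtain ⟨p, a, q, b, c⟩ := (h3 i u v).1 h
    refine ⟨⟨i, p⟩, Set.mem_iUnion.2 ⟨i, p, a, rfl⟩, ⟨i, q⟩, b, ?_⟩
    clear a b h this
    induction c with
    | nil => exact .nil _
    | cons a _ ih => exact .cons (Set.mem_iUnion.2 ⟨i, _, a, rfl⟩) ih
  · rintro ⟨s, a, t, b, c⟩
    obtain ⟨i, p, a', rfl⟩ := Set.mem_iUnion.1 a
    refine ⟨i, (h3 i u v).2 ⟨p, a', ?_⟩⟩
    clear a a'
    generalize e : (⟨i, p⟩ : Σ i, Q i) = s at c
    induction c generalizing p with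
    | nil => subst e; exact ⟨p, b, .nil _⟩
    | cons a _ ih =>
      obtain ⟨j, e', a', h⟩ := Set.mem_iUnion.1 a
      cases h
      cases e
      obtain ⟨q, c1, c2⟩ := ih b _ rfl
      exact ⟨q, c1, .cons a' c2⟩

theorem Rat.comp [Finite Y] {ρ : List X → List Y → Prop} {σ : List Y → List W → Prop} (h : Rat ρ)
    (h' : Rat σ) : Rat fun u w => ∃ v, ρ u v ∧ σ v w := by
  obtain ⟨Q, E, I, F, h1, h2, h3⟩ := h
  obtain ⟨Q', E', I', F', g1, g2, g3⟩ := h'
  obtain ⟨L, hL⟩ := (g1.image fun e => e.2.1.length).bddAbove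
  obtain ⟨M, hM⟩ := (h1.image fun e => e.2.2.1.length).bddAbove
  let S : Set Q := I ∪ (fun e => e.2.2.2) '' E
  let S' : Set Q' := I' ∪ (fun e => e.2.2.2) '' E'
  let D : Set ((Q × Q' × List Y) × List X × List W × (Q × Q' × List Y)) :=
    (fun z : (Q × List X × List Y × Q) × Q' × List Y =>
      ((z.1.1, z.2.1, z.2.2), z.1.2.1, [], (z.1.2.2.2, z.2.1, z.2.2 ++ z.1.2.2.1))) ''
      (E ×ˢ S' ×ˢ {b | b.length ≤ L}) ∪
    (fun z : (Q' × List Y × List W × Q') × Q × List Y =>
      ((z.2.1, z.1.1, z.1.2.1 ++ z.2.2), [], z.1.2.2.1, (z.2.1, z.1.2.2.2, z.2.2))) ''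
      (E' ×ˢ S ×ˢ {b | b.length ≤ L + M})
  refine ⟨_, D, I ×ˢ I' ×ˢ {[]}, F ×ˢ F' ×ˢ {[]}, ((h1.prod ((g2.union (g1.image _)).prod
    (List.finite_length_le _ _))).image _).union ((g1.prod ((h2.union (h1.image _)).prod
    (List.finite_length_le _ _))).image _), h2.prod (g2.prod (Set.finite_singleton _)),
    fun u w => ⟨?_, ?_⟩⟩
  · rintro ⟨v, a, b⟩
    obtain ⟨p, a1, q, a2, a3⟩ := (h3 _ _).1 a
    obtain ⟨p', b1, q', b2, b3⟩ := (g3 _ _).1 b
    refine ⟨(p, p', []), ⟨a1, b1, rfl⟩, (q, q', []), ⟨a2, b2, rfl⟩, ?_⟩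
    have key : ∀ p' v' w, Pa E' p' v' w q' → p' ∈ S' → ∀ p u v, Pa E p u v q → p ∈ S →
        ∀ b : List Y, b.length ≤ L + M → b ++ v = v' → Pa D (p, p', b) u w (q, q', []) := by
      intro p' v' w h
      clear a2 a3 b2 b3
      induction h with
      | nil p' =>
        intro c p u v h
        induction h with
        | nil => intro _ b _ e; obtain rfl : b = [] := by simpa using e
                 exact .nil _
        | cons a _ ih =>
          intro _ b _ e
          simp only [List.append_eq_nil_iff] at e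
          obtain ⟨rfl, rfl, rfl⟩ := e
          exact .cons' (.inl ⟨(_, p', []), ⟨a, c, by simp⟩, rfl⟩)
            (ih (.inr ⟨_, a, rfl⟩) _ (by simp) rfl) rfl rfl
      | @cons p' r' q' m m' o o' a' _ ih' =>
        intro c p u v h
        have hm : m.length ≤ L := hL ⟨_, a', rfl⟩
        have st : ∀ p u v, Pa E p u v q → p ∈ S → ∀ b : List Y, b.length ≤ L + M →
            m ++ b ++ v = m ++ m' → Pa D (p, p', m ++ b) u (o ++ o') (q, q', []) :=
          fun p u v h c' b hb e => .cons' (.inr ⟨(_, p, b), ⟨a', c', hb⟩, rfl⟩)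
            (ih' (.inr ⟨_, a', rfl⟩) p u v h c' b hb (by simpa using e)) rfl rfl
        generalize hq : q = q0 at h
        induction h with
        | nil =>
          intro c' b hb e
          subst hq
          obtain rfl : b = m ++ m' := by simpa using e
          exact st _ _ _ (.nil _) c' m' (by simp at hb; omega) (by simp)
        | @cons p r _ u u' v v' a h ih =>
          intro c' b hb e
          subst hq
          rcases List.append_eq_append_iff.1 e with ⟨k, rfl, -⟩ | ⟨k, rfl, -⟩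
          · have : v.length ≤ M := hM ⟨_, a, rfl⟩
            simp only [List.length_append] at hm
            exact .cons' (.inl ⟨(_, p', b), ⟨a, c, by simp; omega⟩, rfl⟩)
              (ih rfl (.inr ⟨_, a, rfl⟩) (b ++ v) (by simp; omega) (by simpa using e)) rfl rfl
          · exact st _ _ _ (.cons a h) c' k (by simp at hb; omega) e
    exact key _ _ _ b3 (.inl b1) _ _ _ a3 (.inl a1) [] (by simp) rfl
  · rintro ⟨s, a, t, b, c⟩
    have : ∃ v v', Pa E s.1 u v t.1 ∧ Pa E' s.2.1 v' w t.2.1 ∧ s.2.2 ++ v = v' ++ t.2.2 := by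
      clear a b
      induction c with
      | nil => exact ⟨[], [], .nil _, .nil _, by simp⟩
      | cons a _ ih =>
        obtain ⟨v, v', c1, c2, c3⟩ := ih
        rcases a with ⟨z, a, h⟩ | ⟨z, a, h⟩ <;> cases h
        · exact ⟨_, v', .cons a.1 c1, c2, by simpa using c3⟩
        · exact ⟨v, _, c1, .cons a.1 c2, by simpa using c3⟩
    obtain ⟨v, v', c1, c2, c3⟩ := this
    rw [a.2.2, b.2.2] at c3
    obtain rfl : v = v' := by simpa using c3
    exact ⟨v, (h3 _ _).2 ⟨_, a.1, _, b.1, c1⟩, (g3 _ _).2 ⟨_, a.2.1, _, b.2.1, c2⟩⟩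

theorem Rat.reg [Finite Y] {ρ : List X → List Y → Prop} (h : Rat ρ) :
    Language.IsRegular {v | ∃ u, ρ u v} := by
  obtain ⟨Q, E, I, F, h1, h2, h3⟩ := h
  obtain ⟨M, hM⟩ := (h1.image fun e => e.2.2.1.length).bddAbove
  let S : Set Q := I ∪ (fun e => e.2.2.2) '' E
  refine .of_finite_range_leftQuotient ((((h2.union (h1.image fun e => e.2.2.2)).prod
    (List.finite_length_le Y M)).finite_subsets.image fun T : Set (Q × List Y) =>
      ({w | ∃ s ∈ T, ∃ u w', ∃ q ∈ F, w = s.2 ++ w' ∧ Pa E s.1 u w' q} : Language Y)).subset ?_)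
  rintro _ ⟨v, rfl⟩
  refine ⟨{s | s ∈ S ×ˢ {l | l.length ≤ M} ∧ ∃ p ∈ I, ∃ u, Pa E p u (v ++ s.2) s.1},
    fun s h => h.1, Set.ext fun w => ⟨?_, ?_⟩⟩
  · rintro ⟨s, ⟨-, p, a, u, b⟩, u', w', q, c, rfl, d⟩
    exact ⟨_, (h3 _ _).2 ⟨p, a, q, c, by simpa using b.trans d⟩⟩
  · rintro ⟨u, h⟩
    obtain ⟨p, a, q, b, c⟩ := (h3 _ _).1 h
    have : ∀ p u o q, Pa E p u o q → p ∈ S → ∀ v w, o = v ++ w → ∃ s ∈ S ×ˢ {l | l.length ≤ M},
        ∃ u1 u2 w', Pa E p u1 (v ++ s.2) s.1 ∧ w = s.2 ++ w' ∧ Pa E s.1 u2 w' q := by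
      intro p u o q h
      induction h with
      | nil p =>
        intro c v w e
        obtain ⟨rfl, rfl⟩ : v = [] ∧ w = [] := by simpa using e
        exact ⟨(p, []), ⟨c, by simp⟩, [], [], [], .nil _, rfl, .nil _⟩
      | @cons p r q u u' o o' a h ih =>
        intro c v w e
        rcases List.append_eq_append_iff.1 e with ⟨k, rfl, rfl⟩ | ⟨k, rfl, rfl⟩
        · obtain ⟨s, c1, u1, u2, w', c2, c3, c4⟩ := ih (.inr ⟨_, a, rfl⟩) k w rfl
          exact ⟨s, c1, _, u2, w', .cons' a c2 rfl (by simp), c3, c4⟩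
        · have : (v ++ k).length ≤ M := hM ⟨_, a, rfl⟩
          exact ⟨(r, k), ⟨.inr ⟨_, a, rfl⟩, by simp at this ⊢; omega⟩, _, _, _,
            .cons' a (.nil _) rfl (by simp), rfl, h⟩
    obtain ⟨s, c1, u1, u2, w', c2, c3, c4⟩ := this _ _ _ _ c (.inl a) v w rfl
    exact ⟨s, ⟨c1, p, a, u1, c2⟩, u2, w', q, b, c3, c4⟩

theorem Rat.nivat {Z : Type} [Finite Z] (h : Z → List X) (g : Z → List Y) {R : Language Z}
    (hR : R.IsRegular) : Rat fun u v => ∃ z ∈ R, List.flatMap h z = u ∧ List.flatMap g z = v := by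
  obtain ⟨σ, _, M, rfl⟩ := hR
  refine ⟨σ, Set.range fun z : σ × Z => (z.1, h z.2, g z.2, M.step z.1 z.2), {M.start}, M.accept,
    Set.finite_range _, Set.finite_singleton _, fun u v => ⟨?_, ?_⟩⟩
  · rintro ⟨z, a, rfl, rfl⟩
    refine ⟨_, rfl, _, a, ?_⟩
    generalize M.start = p
    clear a
    induction z generalizing p with
    | nil => exact .nil _
    | cons a z ih => exact .cons ⟨(p, a), rfl⟩ (ih _)
  · rintro ⟨_, rfl, q, a, b⟩
    suffices ∃ z, M.evalFrom M.start z = q ∧ List.flatMap h z = u ∧ List.flatMap g z = v by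
      obtain ⟨z, rfl, c⟩ := this
      exact ⟨z, a, c⟩
    clear a
    generalize M.start = p at b
    induction b with
    | nil => exact ⟨[], rfl, rfl, rfl⟩
    | cons a _ ih =>
      obtain ⟨z, c, rfl, rfl⟩ := ih
      obtain ⟨y, a⟩ := a
      cases a
      exact ⟨y.2 :: z, c, rfl, rfl⟩

theorem inCone_iff {L : Language X} {K : Language Y} :
    InCone L K ↔ ∃ ρ, Rat ρ ∧ ∀ v, v ∈ K ↔ ∃ u ∈ L, ρ u v := by
  constructor
  · rintro ⟨Z, _, h, g, R, hR, e⟩
    refine ⟨_, Rat.nivat h g hR, fun v => (e v).trans ⟨?_, ?_⟩⟩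
    · rintro ⟨z, a, b, c⟩
      exact ⟨_, b, z, a, rfl, c⟩
    · rintro ⟨_, b, z, a, rfl, c⟩
      exact ⟨z, a, b, c⟩
  · rintro ⟨ρ, ⟨Q, E, I, F, h1, h2, h3⟩, e⟩
    haveI := h1.to_subtype
    let D : Set (Q × List X × List E × Q) := Set.range fun e : E => (e.1.1, [], [e], e.1.2.2.2)
    refine ⟨E, inferInstance, fun e => e.1.2.1, fun e => e.1.2.2.1, _,
      Rat.reg ⟨Q, D, I, F, Set.finite_range _, h2, fun _ _ => Iff.rfl⟩, fun v => ?_⟩
    simp only [e, h3]
    constructor
    · rintro ⟨u, a, p, b, q, c, d⟩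
      suffices ∃ z : List E, Pa D p [] z q ∧ z.flatMap (fun e => e.1.2.1) = u ∧
          z.flatMap (fun e => e.1.2.2.1) = v by
        obtain ⟨z, d1, rfl, d2⟩ := this
        exact ⟨z, ⟨_, p, b, q, c, d1⟩, a, d2⟩
      clear a b c
      induction d with
      | nil => exact ⟨[], .nil _, rfl, rfl⟩
      | cons a _ ih =>
        obtain ⟨z, c, rfl, rfl⟩ := ih
        exact ⟨⟨_, a⟩ :: z, .cons' ⟨⟨_, a⟩, rfl⟩ c rfl rfl, rfl, rfl⟩
    · rintro ⟨z, ⟨u, p, b, q, c, d⟩, a, rfl⟩
      refine ⟨_, a, p, b, q, c, ?_⟩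
      clear a b c
      induction d with
      | nil => exact .nil _
      | cons a _ ih =>
        obtain ⟨y, a⟩ := a
        cases a
        exact .cons y.2 ih

theorem InCone.trans [Finite Y] {L : Language X} {K : Language Y} {M : Language W}
    (h : InCone L K) (h' : InCone K M) : InCone L M := by
  obtain ⟨ρ, a, b⟩ := inCone_iff.1 h
  obtain ⟨σ, c, d⟩ := inCone_iff.1 h'
  refine inCone_iff.2 ⟨_, a.comp c, fun v => ?_⟩
  simp only [d, b]
  exact ⟨fun ⟨x, ⟨u, a, b⟩, c⟩ => ⟨u, a, x, b, c⟩, fun ⟨u, a, x, b, c⟩ => ⟨x, ⟨u, a, b⟩, c⟩⟩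

theorem InCone.reg [Finite X] [Finite Y] {L : Language X} {K : Language Y}
    (h : InCone L K) (hL : L.IsRegular) : K.IsRegular := by
  obtain ⟨ρ, a, b⟩ := inCone_iff.1 h
  have := ((Rat.nivat (fun x => [x]) (fun x => [x]) hL).comp a).reg
  refine cast (congrArg _ (Set.ext fun v => ?_)) this
  exact Iff.trans (by simp) (b v).symm

theorem reg_fin [Finite Y] {K : Set (List Y)} (h : K.Finite) : Language.IsRegular K := by
  have := Rat.reg (X := Unit) ⟨Bool, (fun v => (false, [], v, true)) '' K, {false}, {true},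
    h.image _, Set.finite_singleton _, fun _ _ => Iff.rfl⟩
  refine cast (congrArg _ (Set.ext fun v => ⟨?_, fun h => ?_⟩)) this
  · rintro ⟨u, _, rfl, _, rfl, h⟩
    cases h with
    | cons a b =>
      obtain ⟨v, a, e⟩ := a
      cases e
      cases b with
      | nil => simpa using a
      | cons a => obtain ⟨v, a, e⟩ := a; cases e
  · exact ⟨_, _, rfl, _, rfl, .cons' ⟨v, h, rfl⟩ (.nil _) rfl (by simp)⟩

theorem Rat.bl {k : ℕ} (e f : Fin k → List X) : Rat fun u v => ∃ x : Fin k → ℕ,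
    u = (List.finRange k).flatMap (fun i => e i ++ (List.replicate (x i) (f i)).flatten) ∧
      v = blocks (fun i => [i]) x := by
  let D : Set ((List (Fin k) × Bool) × List X × List (Fin k) × (List (Fin k) × Bool)) :=
    ⋃ i, ⋃ l ∈ {l | (i :: l) <:+ List.finRange k}, {((i :: l, false), e i, [], (i :: l, true)),
      ((i :: l, true), f i, [i], (i :: l, true)), ((i :: l, true), [], [], (l, false))}
  have hD : ∀ i l z, (i :: l) <:+ List.finRange k → z ∈ ({((i :: l, false), e i, [], (i :: l, true)),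
      ((i :: l, true), f i, [i], (i :: l, true)), ((i :: l, true), [], [], (l, false))} : Set _) →
      z ∈ D := fun i l z a b => Set.mem_iUnion.2 ⟨i, Set.mem_iUnion₂.2 ⟨l, a, b⟩⟩
  refine ⟨_, D, {(List.finRange k, false)}, {([], false)}, Set.finite_iUnion fun i =>
    Set.Finite.biUnion ((List.finite_length_le _ k).subset fun l h => by
      have := List.IsSuffix.length_le h
      simp at this ⊢
      omega) fun _ _ => Set.toFinite _, Set.finite_singleton _, fun u v => ⟨?_, ?_⟩⟩
  · rintro ⟨x, rfl, rfl⟩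
    refine ⟨_, rfl, _, rfl, ?_⟩
    unfold blocks
    suffices ∀ l, l <:+ List.finRange k → Pa D (l, false) (l.flatMap fun i => e i ++
        (List.replicate (x i) (f i)).flatten) (l.flatMap fun i =>
          (List.replicate (x i) [i]).flatten) ([], false) from this _ List.suffix_rfl
    intro l h
    induction l with
    | nil => exact .nil _
    | cons i l ih =>
      simp only [List.flatMap_cons, List.append_assoc]
      refine .cons' (hD i l _ h (.inl rfl)) ?_ rfl rfl
      induction x i with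
      | zero => exact .cons' (hD i l _ h (.inr (.inr rfl)))
                  (ih ((List.suffix_cons _ _).trans h)) rfl rfl
      | succ n ih => exact .cons' (hD i l _ h (.inr (.inl rfl))) ih (by simp [List.replicate_succ])
                      (by simp [List.replicate_succ])
  · rintro ⟨_, rfl, _, rfl, h⟩
    have : ∀ s u v t, Pa D s u v t → t = ([], false) → ∃ x : Fin k → ℕ,
        (if s.2 then (s.1.take 1).flatMap e else []) ++ u =
          s.1.flatMap (fun i => e i ++ (List.replicate (x i) (f i)).flatten) ∧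
        v = s.1.flatMap fun i => (List.replicate (x i) [i]).flatten := by
      intro s u v t h
      induction h with
      | nil => rintro rfl; exact ⟨0, rfl, rfl⟩
      | cons a _ ih =>
        intro ht
        obtain ⟨x, c1, c2⟩ := ih ht
        obtain ⟨i, a⟩ := Set.mem_iUnion.1 a
        obtain ⟨l, hl, a⟩ := Set.mem_iUnion₂.1 a
        have hi : ∀ j ∈ l, j ≠ i := fun j hj e => (List.nodup_cons.1
          ((List.nodup_finRange k).sublist (List.IsSuffix.sublist hl))).1 (e ▸ hj)
        have g : ∀ (n : ℕ) (Z : Type) (φ : Fin k → ℕ → List Z), (l.flatMap fun j =>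
            φ j (Function.update x i n j)) = l.flatMap fun j => φ j (x j) := fun n Z φ =>
          List.flatMap_congr fun j hj => by rw [Function.update_of_ne (hi j hj)]
        rcases a with a | a | a <;> cases a
        · exact ⟨x, by simpa using c1, c2⟩
        · refine ⟨Function.update x i (x i + 1), ?_, ?_⟩
          · rw [List.flatMap_cons, g _ _ fun j n => e j ++ (List.replicate n (f j)).flatten]
            simpa [List.replicate_succ] using c1
          · rw [List.flatMap_cons, g _ _ fun j n => (List.replicate n [j]).flatten]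
            simpa [List.replicate_succ] using c2
        · refine ⟨Function.update x i 0, ?_, ?_⟩
          · rw [List.flatMap_cons, g _ _ fun j n => e j ++ (List.replicate n (f j)).flatten]
            simpa using c1
          · rw [List.flatMap_cons, g _ _ fun j n => (List.replicate n [j]).flatten]
            simpa using c2
    exact this _ _ _ _ h rfl

end Pool.Agent.H32.Cone
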