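import Pool.Agent.H32.PtaDefs

set_option autoImplicit false

namespace Pool.Agent.H32.Pta

open Pointwise

section path
variable {Q M : Type} [AddCommMonoid M] (E : Q → Q → Set M)

inductive P (S : Set Q) : Q → Q → M → Prop
  | one {p q : Q} {w : M} : w ∈ E p q → P S p q w
  | cons {p r q : Q} {w w' : M} : w ∈ E p r → r ∈ S → P S r q w' → P S p q (w + w')

variable {E}

theorem P.mono {S S' : Set Q} (h : S ⊆ S') {p q : Q} {w : M} (H : P E S p q w) : P E S' p q w := by
  induction H with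
  | one a => exact .one a
  | cons a b _ ih => exact .cons a (h b) ih

theorem P.trans {S : Set Q} {p r q : Q} {w w' : M} (H : P E S p r w) (hr : r ∈ S)
    (H' : P E S r q w') : P E S p q (w + w') := by
  induction H with
  | one a => exact .cons a hr H'
  | cons a b _ ih => rw [add_assoc]; exact .cons a b (ih hr H')

theorem P.semi (hE : ∀ p q, IsSemilinearSet (E p q)) {S : Set Q} (hS : S.Finite) :
    ∀ p q, IsSemilinearSet {w | P E S p q w} := by
  induction S, hS using Set.Finite.induction_on with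
  | empty =>
    intro p q
    have : {w | P E ∅ p q w} = E p q := Set.ext fun w =>
      ⟨fun h => by cases h with | one a => exact a | cons _ b => exact b.elim, .one⟩
    rw [this]
    exact hE p q
  | @insert r S _ _ ih =>
    intro p q
    have : {w | P E (insert r S) p q w} = {w | P E S p q w} ∪ ({w | P E S p r w} +
        (AddSubmonoid.closure {w | P E S r r w} : Set M) + {w | P E S r q w}) := by
      ext w
      constructor
      · intro h
        induction h with
        | one a => exact .inl (.one a)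
        | @cons p r' q w w' a b _ ih =>
          rcases b with rfl | b
          · rcases ih with h | ⟨_, ⟨x, hx, y, hy, rfl⟩, z, hz, rfl⟩
            · exact .inr ⟨_, ⟨w, .one a, 0, zero_mem _, rfl⟩, w', h, by simp⟩
            · exact .inr ⟨_, ⟨w, .one a, x + y, add_mem (AddSubmonoid.subset_closure hx) hy, rfl⟩,
                z, hz, by simp [add_assoc]⟩
          · rcases ih with h | ⟨_, ⟨x, hx, y, hy, rfl⟩, z, hz, rfl⟩
            · exact .inl (.cons a b h)
            · exact .inr ⟨_, ⟨w + x, .cons a b hx, y, hy, rfl⟩, z, hz, by simp [add_assoc]⟩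
      · rintro (h | ⟨_, ⟨x, hx, y, hy, rfl⟩, z, hz, rfl⟩)
        · exact P.mono (Set.subset_insert _ _) h
        · refine P.trans ?_ (Set.mem_insert _ _) (P.mono (Set.subset_insert _ _) hz)
          replace hx := P.mono (Set.subset_insert r _) hx
          induction hy using AddSubmonoid.closure_induction_left generalizing x with
          | zero => simpa using hx
          | add_left a ha b _ ih =>
            simpa [add_assoc] using
              ih (x + a) (hx.trans (Set.mem_insert _ _) (P.mono (Set.subset_insert _ _) ha))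
    rw [this]
    exact (ih p q).union (((ih p r).add (ih r r).closure).add (ih r q))

end path

variable {m : ℕ}

def Cl (s t : Fin m → ℕ) (B : ℕ) : Prop := ∀ i, s i ≤ t i + B ∧ t i ≤ s i + B

theorem lip1 {U : Set ((Fin m → ℕ) × ℕ)} (hU : IsLinearSet U)
    (hf : ∀ t n n', (t, n) ∈ U → (t, n') ∈ U → n = n') :
    ∃ L : ℕ, ∀ x ∈ U, ∀ y ∈ U, ∀ B, Cl x.1 y.1 B → x.2 ≤ y.2 + L * B := by
  obtain ⟨a, T, -, rfl⟩ := hU
  let c : (Fin m → ℕ) × ℕ →+ (Fin m → ℚ) × ℚ :=
    { toFun := fun x => (fun i => x.1 i, x.2)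
      map_zero' := by ext <;> simp
      map_add' := fun x y => by ext <;> simp }
  have h1 : ∀ v ∈ Submodule.span ℚ (c '' T), ∃ N : ℕ, 0 < N ∧ ∃ x ∈ AddSubmonoid.closure T,
      ∃ y ∈ AddSubmonoid.closure T, (N : ℚ) • v = c x - c y := by
    intro v hv
    induction hv using Submodule.span_induction with
    | mem _ h =>
      obtain ⟨x, hx, rfl⟩ := h
      exact ⟨1, one_pos, x, AddSubmonoid.subset_closure hx, 0, zero_mem _, by simp⟩
    | zero => exact ⟨1, one_pos, 0, zero_mem _, 0, zero_mem _, by simp⟩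
    | add u v _ _ h1 h2 =>
      obtain ⟨N, a1, x, a2, y, a3, a4⟩ := h1
      obtain ⟨N', b1, x', b2, y', b3, b4⟩ := h2
      refine ⟨N * N', by positivity, N' • x + N • x', add_mem (nsmul_mem a2 _) (nsmul_mem b2 _),
        N' • y + N • y', add_mem (nsmul_mem a3 _) (nsmul_mem b3 _), ?_⟩
      simp only [map_add, map_nsmul, ← Nat.cast_smul_eq_nsmul ℚ, Nat.cast_mul]
      linear_combination (norm := module) (N' : ℚ) • a4 + (N : ℚ) • b4
    | smul q v _ h =>
      obtain ⟨N, a1, x, a2, y, a3, a4⟩ := h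
      have e : (q.den : ℚ) * q = q.num := by simp
      obtain ⟨k, h | h⟩ := q.num.eq_nat_or_neg
      · refine ⟨q.den * N, by have := q.den_pos; positivity, k • x, nsmul_mem a2 _, k • y,
          nsmul_mem a3 _, ?_⟩
        simp only [map_nsmul, ← Nat.cast_smul_eq_nsmul ℚ, Nat.cast_mul]
        rw [h, Int.cast_natCast] at e
        rw [smul_smul, mul_right_comm, e, mul_smul, a4, smul_sub]
      · refine ⟨q.den * N, by have := q.den_pos; positivity, k • y, nsmul_mem a3 _, k • x,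
          nsmul_mem a2 _, ?_⟩
        simp only [map_nsmul, ← Nat.cast_smul_eq_nsmul ℚ, Nat.cast_mul]
        rw [h, Int.cast_neg, Int.cast_natCast] at e
        rw [smul_smul, mul_right_comm, e, mul_smul, a4, neg_smul, smul_sub, neg_sub]
  have h2 : ((0 : Fin m → ℚ), (1 : ℚ)) ∉ Submodule.span ℚ (c '' T) := fun h => by
    obtain ⟨N, a1, x, a2, y, a3, a4⟩ := h1 _ h
    have e1 : x.1 = y.1 := funext fun i => by
      have := congrFun (congrArg Prod.fst a4) i
      simp only [c, Prod.smul_mk, smul_zero, Pi.zero_apply, Prod.fst_sub, AddMonoidHom.coe_mk,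
        ZeroHom.coe_mk, Pi.sub_apply] at this
      exact_mod_cast sub_eq_zero.1 this.symm
    have e2 := congrArg Prod.snd a4
    have e3 := hf (a.1 + x.1) (a.2 + x.2) (a.2 + y.2) ⟨x, a2, rfl⟩ ⟨y, a3, by rw [e1]; rfl⟩
    simp [c, Nat.add_left_cancel e3] at e2
    omega
  obtain ⟨φ, h3, h4⟩ := Submodule.exists_dual_map_eq_bot_of_notMem h2 inferInstance
  have h5 : ∀ x ∈ AddSubmonoid.closure T, φ (c x) = 0 := by
    intro x hx
    induction hx using AddSubmonoid.closure_induction with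
    | mem x hx =>
      exact (Submodule.eq_bot_iff _).1 h4 _ ⟨_, Submodule.subset_span ⟨x, hx, rfl⟩, rfl⟩
    | zero => simp
    | add x y _ _ a b => simp [a, b]
  have h6 : ∀ x, φ (c x) = ∑ i, (x.1 i : ℚ) * φ (Pi.single i 1, 0) + x.2 * φ (0, 1) := by
    intro x
    simp only [← smul_eq_mul, ← map_smul, ← map_sum, ← map_add]
    congr 1
    ext i
    · simp [c, Prod.fst_sum, Pi.single_apply]
    · simp [c, Prod.snd_sum]
  obtain ⟨L, hL⟩ := exists_nat_ge ((∑ i, |φ (Pi.single i 1, 0)|) / |φ (0, 1)|)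
  have h0 := abs_pos.2 h3
  refine ⟨L, ?_⟩
  rintro _ ⟨x, hx, rfl⟩ _ ⟨y, hy, rfl⟩ B hB
  have h7 : φ (c (a + x)) = φ (c (a + y)) := by simp [h5 x hx, h5 y hy]
  simp only [vadd_eq_add] at hB ⊢
  generalize a + x = u, a + y = v at *
  rw [h6, h6] at h7
  have h8 : ((u.2 : ℚ) - v.2) * φ (0, 1) = ∑ i, ((v.1 i : ℚ) - u.1 i) * φ (Pi.single i 1, 0) := by
    simp only [sub_mul, Finset.sum_sub_distrib]
    linarith
  have h9 : |(u.2 : ℚ) - v.2| * |φ (0, 1)| ≤ B * ∑ i, |φ (Pi.single i 1, 0)| := by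
    rw [← abs_mul, h8, Finset.mul_sum]
    refine (Finset.abs_sum_le_sum_abs _ _).trans (Finset.sum_le_sum fun i _ => ?_)
    rw [abs_mul]
    refine mul_le_mul_of_nonneg_right (abs_le.2 ?_) (abs_nonneg _)
    have a1 : (u.1 i : ℚ) ≤ v.1 i + B := by exact_mod_cast (hB i).1
    have a2 : (v.1 i : ℚ) ≤ u.1 i + B := by exact_mod_cast (hB i).2
    constructor <;> linarith
  rw [div_le_iff₀ h0] at hL
  have : |(u.2 : ℚ) - v.2| ≤ L * B := le_of_mul_le_mul_right (h9.trans (by
    have := mul_le_mul_of_nonneg_left hL (Nat.cast_nonneg (α := ℚ) B)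
    linarith)) h0
  have : (u.2 : ℚ) ≤ v.2 + L * B := by linarith [le_abs_self ((u.2 : ℚ) - v.2)]
  exact_mod_cast this

theorem lip {R : Set ((Fin m → ℕ) × ℕ)} (hR : IsSemilinearSet R) :
    ∃ (L : ℕ) (X : Set (Set ((Fin m → ℕ) × ℕ))), X.Finite ∧
      (∀ t n, (t, n) ∈ R → (∀ n', (t, n') ∈ R → n' = n) → ∃ U ∈ X, (t, n) ∈ U) ∧
      ∀ U ∈ X, ∀ x ∈ U, ∀ y ∈ U, ∀ B, Cl x.1 y.1 B → x.2 ≤ y.2 + L * B := by
  let f : ((Fin m → ℕ) × ℕ) × ℕ →+ (Fin m → ℕ) × ℕ := AddMonoidHom.fst _ _
  let g : ((Fin m → ℕ) × ℕ) × ℕ →+ (Fin m → ℕ) × ℕ :=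
    ((AddMonoidHom.fst _ _).comp f).prod (AddMonoidHom.snd _ _)
  obtain ⟨X, h1, h2, h3⟩ := hR.sdiff (((hR.preimage g).inter (isSemilinearSet_setOfPred_eq 0 0
    ((AddMonoidHom.snd _ _).comp f) (AddMonoidHom.snd _ _)).compl).image f)
  have h4 : ∀ t n, (t, n) ∈ ⋃₀ X ↔ (t, n) ∈ R ∧ ∀ n', (t, n') ∈ R → n' = n := by
    simp [← h3, f, g, eq_comm]
  choose! L hL using fun U (hU : U ∈ X) => lip1 (h2 U hU) fun t n n' a b =>
    ((h4 t n').1 ⟨U, hU, b⟩).2 n ((h4 t n).1 ⟨U, hU, a⟩).1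
  obtain ⟨L0, h5⟩ := (h1.image L).bddAbove
  exact ⟨L0, X, h1, fun t n a b => (h4 t n).2 ⟨a, b⟩, fun U hU x hx y hy B hB =>
    (hL U hU x hx y hy B hB).trans (by gcongr; exact h5 ⟨U, hU, rfl⟩)⟩

end Pool.Agent.H32.Pta
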