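import Pool.Agent.H32.ConeA
import Pool.Agent.H32.PtaA

set_option autoImplicit false

namespace Pool.Agent.H32.Cone

open Pointwise Pool.Agent.H32.Pta

section cls
variable {M : Type} [AddCommMonoid M]

def CC (Sm A : Set M) : Prop :=
  ∃ X : Set (M × Set M), X.Finite ∧ (∀ z ∈ X, z.2.Finite ∧ z.2 ⊆ Sm) ∧
    ∀ w, w ∈ A ↔ ∃ z ∈ X, ∃ s ∈ AddSubmonoid.closure z.2, w = z.1 + s

variable {Sm A B : Set M}

theorem CC.union (h : CC Sm A) (h' : CC Sm B) : CC Sm (A ∪ B) := by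
  obtain ⟨X, a, b, c⟩ := h
  obtain ⟨Y, a', b', c'⟩ := h'
  refine ⟨X ∪ Y, a.union a', fun z h => h.elim (b z) (b' z), fun w => ?_⟩
  simp only [Set.mem_union, c, c', or_and_right, exists_or]

theorem CC.add (h : CC Sm A) (h' : CC Sm B) : CC Sm (A + B) := by
  obtain ⟨X, a, b, c⟩ := h
  obtain ⟨Y, a', b', c'⟩ := h'
  refine ⟨Set.image2 (fun x y => (x.1 + y.1, x.2 ∪ y.2)) X Y, a.image2 _ a', ?_, fun w => ⟨?_, ?_⟩⟩
  · rintro _ ⟨x, hx, y, hy, rfl⟩
    exact ⟨(b x hx).1.union (b' y hy).1, Set.union_subset (b x hx).2 (b' y hy).2⟩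
  · rintro ⟨u, hu, v, hv, rfl⟩
    obtain ⟨x, hx, s, hs, rfl⟩ := (c u).1 hu
    obtain ⟨y, hy, t, ht, rfl⟩ := (c' v).1 hv
    exact ⟨_, ⟨x, hx, y, hy, rfl⟩, s + t,
      add_mem (AddSubmonoid.closure_mono Set.subset_union_left hs)
        (AddSubmonoid.closure_mono Set.subset_union_right ht), add_add_add_comm _ _ _ _⟩
  · rintro ⟨_, ⟨x, hx, y, hy, rfl⟩, s, hs, rfl⟩
    rw [AddSubmonoid.closure_union, AddSubmonoid.mem_sup] at hs
    obtain ⟨s, hs, t, ht, rfl⟩ := hs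
    exact ⟨_, (c _).2 ⟨x, hx, s, hs, rfl⟩, _, (c' _).2 ⟨y, hy, t, ht, rfl⟩,
      add_add_add_comm _ _ _ _⟩

theorem CC.of_semi (hS : ∀ a b, a + b ∈ Sm → b ∈ Sm) (h : IsSemilinearSet A) (hA : A ⊆ Sm) :
    CC Sm A := by
  obtain ⟨X, a, b, rfl⟩ := h
  choose! c T h1 h2 using b
  refine ⟨(fun U => (c U, T U)) '' X, a.image _, ?_, fun w => ⟨?_, ?_⟩⟩
  · rintro _ ⟨U, hU, rfl⟩
    exact ⟨h1 U hU, fun t ht => hS (c U) t (hA ⟨U, hU,
      (h2 U hU).ge ⟨t, AddSubmonoid.subset_closure ht, rfl⟩⟩)⟩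
  · rintro ⟨U, hU, hw⟩
    rw [h2 U hU] at hw
    obtain ⟨s, hs, rfl⟩ := hw
    exact ⟨_, ⟨U, hU, rfl⟩, s, hs, rfl⟩
  · rintro ⟨_, ⟨U, hU, rfl⟩, s, hs, rfl⟩
    refine ⟨U, hU, ?_⟩
    have := h2 U hU
    exact this.ge ⟨s, hs, rfl⟩

theorem CC.fin (h : A.Finite) : CC Sm A :=
  ⟨(fun a => (a, ∅)) '' A, h.image _, by rintro _ ⟨_, _, rfl⟩; simp, by simp⟩

theorem CC.semi (h : CC Sm A) : IsSemilinearSet A := by
  obtain ⟨X, a, b, c⟩ := h
  have : A = ⋃ z ∈ X, z.1 +ᵥ (AddSubmonoid.closure z.2 : Set M) := by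
    ext w
    simp [c, Set.mem_vadd_set, eq_comm]
  rw [this]
  exact .biUnion a fun z hz => .vadd _ (.closure_of_finite (b z hz).1)

theorem CC.biUnion {ι : Type} {s : Set ι} (hs : s.Finite) {f : ι → Set M}
    (h : ∀ i, CC Sm (f i)) : CC Sm (⋃ i ∈ s, f i) := by
  induction s, hs using Set.Finite.induction_on with
  | empty => simpa using .fin Set.finite_empty
  | insert _ _ ih => rw [Set.biUnion_insert]; exact (h _).union ih

theorem P_cc {Q : Type} {E : Q → Q → Set M} (hE : ∀ p q, (E p q).Finite)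
    (hd : ∀ a b, a + b ∈ Sm → b ∈ Sm)
    (hL : ∀ S r, (AddSubmonoid.closure {w | P E S r r w} : Set M) ⊆ Sm) {S : Set Q}
    (hS : S.Finite) : ∀ p q, CC Sm {w | P E S p q w} := by
  induction S, hS using Set.Finite.induction_on with
  | empty =>
    intro p q
    have : {w | P E ∅ p q w} = E p q := Set.ext fun w =>
      ⟨fun h => by cases h with | one a => exact a | cons _ b => exact b.elim, .one⟩
    rw [this]
    exact .fin (hE p q)
  | @insert r S _ _ ih =>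
    intro p q
    have : {w | P E (insert r S) p q w} = {w | P E S p q w} ∪ ({w | P E S p r w} +
        (AddSubmonoid.closure {w | P E S r r w} : Set M) + {w | P E S r q w}) := by
      ext w
      constructor
      · intro h
        induction h with
        | one a => exact .inl (.one a)
        | @cons p r' q w w' a b _ ih =>
          rcases b with rfl | b
          · rcases ih with h | ⟨_, ⟨x, hx, y, hy, rfl⟩, z, hz, rfl⟩
            · exact .inr ⟨_, ⟨w, .one a, 0, zero_mem _, rfl⟩, w', h, by simp⟩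
            · exact .inr ⟨_, ⟨w, .one a, x + y, add_mem (AddSubmonoid.subset_closure hx) hy, rfl⟩,
                z, hz, by simp [add_assoc]⟩
          · rcases ih with h | ⟨_, ⟨x, hx, y, hy, rfl⟩, z, hz, rfl⟩
            · exact .inl (.cons a b h)
            · exact .inr ⟨_, ⟨w + x, .cons a b hx, y, hy, rfl⟩, z, hz, by simp [add_assoc]⟩
      · rintro (h | ⟨_, ⟨x, hx, y, hy, rfl⟩, z, hz, rfl⟩)
        · exact P.mono (Set.subset_insert _ _) h
        · refine P.trans ?_ (Set.mem_insert _ _) (P.mono (Set.subset_insert _ _) hz)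
          replace hx := P.mono (Set.subset_insert r _) hx
          induction hy using AddSubmonoid.closure_induction_left generalizing x with
          | zero => simpa using hx
          | add_left a ha b _ ih =>
            simpa [add_assoc] using
              ih (x + a) (hx.trans (Set.mem_insert _ _) (P.mono (Set.subset_insert _ _) ha))
    rw [this]
    exact (ih p q).union (((ih p r).add (.of_semi hd (ih r r).semi.closure (hL _ _))).add (ih r q))

theorem big (φ : M →+ ℕ) {T : Set M} (hT : T.Finite) (K : ℕ) : ∃ N, ∀ s ∈ AddSubmonoid.closure T,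
    N < φ s → ∃ t ∈ T, φ t ≠ 0 ∧ ∃ s' ∈ AddSubmonoid.closure T, s = K • t + s' := by
  induction T, hT using Set.Finite.induction_on with
  | empty => exact ⟨0, by simp⟩
  | @insert t T _ _ ih =>
    obtain ⟨N, ih⟩ := ih
    refine ⟨N + K * φ t, fun s hs h => ?_⟩
    have hm := AddSubmonoid.closure_mono (Set.subset_insert t T)
    have ht : t ∈ AddSubmonoid.closure (insert t T) :=
      AddSubmonoid.subset_closure (Set.mem_insert _ _)
    rw [Set.insert_eq, AddSubmonoid.closure_union, AddSubmonoid.mem_sup] at hs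
    obtain ⟨_, ha, s, hs, rfl⟩ := hs
    obtain ⟨a, rfl⟩ := AddSubmonoid.mem_closure_singleton.1 ha
    by_cases c : K ≤ a ∧ φ t ≠ 0
    · obtain ⟨b, rfl⟩ := Nat.exists_eq_add_of_le c.1
      exact ⟨t, .inl rfl, c.2, b • t + s, add_mem (nsmul_mem ht _) (hm hs),
        by rw [add_smul, add_assoc]⟩
    · obtain ⟨t', a1, a2, s', a3, rfl⟩ := ih s hs (by
        rw [map_add, map_nsmul, smul_eq_mul] at h
        by_cases e : φ t = 0
        · simpa [e] using h
        · have := Nat.mul_le_mul_right (φ t) (not_le.1 fun x => c ⟨x, e⟩).le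
          omega)
      exact ⟨t', .inr a1, a2, a • t + s', add_mem (nsmul_mem ht _) (hm a3), add_left_comm _ _ _⟩

end cls

variable {k : ℕ}

def sw (y : Fin k → ℕ) : List (Fin k) := blocks (fun i => [i]) y

def cnt (u : List (Fin k)) : Fin k → ℕ := fun i => u.count i

theorem cnt_sw (y : Fin k → ℕ) : cnt (sw y) = y := by
  ext i
  simp only [cnt, sw, blocks, List.count_flatMap, List.flatten_replicate_singleton]
  rw [← List.ofFn_id, List.map_ofFn, List.sum_ofFn]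
  simp [List.count_replicate]

theorem sw_inj {x y : Fin k → ℕ} (h : sw x = sw y) : x = y := by
  rw [← cnt_sw x, h, cnt_sw]

theorem sw_sorted (y : Fin k → ℕ) : (sw y).Pairwise (· ≤ ·) := by
  simp only [sw, blocks, List.flatten_replicate_singleton, List.pairwise_flatMap]
  refine ⟨fun a _ => by simp, (List.pairwise_le_finRange k).imp fun h x hx y hy => ?_⟩
  rwa [List.eq_of_mem_replicate hx, List.eq_of_mem_replicate hy]

def Sim (f : Fin k → ℕ) : Prop := ∀ a b, f a ≠ 0 → f b ≠ 0 → a = b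

theorem sim_loop {u a b : List (Fin k)} {y : Fin k → ℕ} (h : a ++ (u ++ (u ++ b)) = sw y) :
    Sim (cnt u) := by
  have := sw_sorted y
  rw [← h] at this
  simp only [List.pairwise_append, List.mem_append] at this
  intro i j hi hj
  rw [cnt, ← Nat.pos_iff_ne_zero, List.count_pos_iff] at hi hj
  exact le_antisymm (this.2.1.2.2 i hi j (.inl hj)) (this.2.1.2.2 j hj i (.inl hi))

theorem Rat.cc {ρ : List (Fin k) → List (Fin k) → Prop} (h : Rat ρ)
    (hs : ∀ u v, ρ u v → (∃ x, u = sw x) ∧ ∃ y, v = sw y) :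
    CC {w | Sim w.1 ∧ Sim w.2} {w : (Fin k → ℕ) × (Fin k → ℕ) | ρ (sw w.1) (sw w.2)} := by
  obtain ⟨Q, E, I, F, h1, h2, h3⟩ := h
  let Use : Q → Prop := fun r => ∃ p ∈ I, ∃ q ∈ F, ∃ u v u' v', Pa E p u v r ∧ Pa E r u' v' q
  let E' : Q → Q → Set ((Fin k → ℕ) × (Fin k → ℕ)) := fun p q =>
    {w | Use p ∧ ((p = q ∧ w = 0) ∨ ∃ u v, (p, u, v, q) ∈ E ∧ w = (cnt u, cnt v))}
  let S : Set Q := I ∪ (fun e => e.2.2.2) '' E
  have hS : S.Finite := h2.union (h1.image _)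
  have ca : ∀ u v : List (Fin k), cnt (u ++ v) = cnt u + cnt v := fun u v => by
    ext i; simp [cnt]
  have c0 : (0 : (Fin k → ℕ) × (Fin k → ℕ)) = (cnt [], cnt []) := rfl
  have a : ∀ S p q w, P E' S p q w → Use p ∧ ∃ u v, Pa E p u v q ∧ w = (cnt u, cnt v) := by
    intro S p q w h
    induction h with
    | one a =>
      obtain ⟨a, ⟨rfl, rfl⟩ | ⟨u, v, b, rfl⟩⟩ := a
      · exact ⟨a, _, _, .nil _, c0⟩
      · exact ⟨a, u, v, .cons' b (.nil _) (by simp) (by simp), rfl⟩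
    | cons a _ _ ih =>
      obtain ⟨-, u', v', c, rfl⟩ := ih
      obtain ⟨a, ⟨rfl, rfl⟩ | ⟨u, v, b, rfl⟩⟩ := a
      · exact ⟨a, _, _, c, zero_add _⟩
      · exact ⟨a, _, _, .cons b c, by simp [ca]⟩
  have b : ∀ p u v q, Pa E p u v q → q ∈ F → p ∈ S → (∃ p0 ∈ I, ∃ u0 v0, Pa E p0 u0 v0 p) →
      q ∈ S ∧ P E' S p q (cnt u, cnt v) := by
    intro p u v q h
    induction h with
    | nil p =>
      rintro c d ⟨p0, a, u, v, b⟩
      exact ⟨d, .one ⟨⟨p0, a, p, c, u, v, _, _, b, .nil _⟩, .inl ⟨rfl, rfl⟩⟩⟩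
    | cons e h ih =>
      rintro c - ⟨p0, a, u, v, b⟩
      obtain ⟨d1, d2⟩ := ih c (.inr ⟨_, e, rfl⟩) ⟨p0, a, _, _, b.trans (.cons e (.nil _))⟩
      refine ⟨d1, ?_⟩
      rw [ca, ca]
      exact .cons (w := (_, _)) (w' := (_, _))
        ⟨⟨p0, a, _, c, u, v, _, _, b, .cons e h⟩, .inr ⟨_, _, e, rfl⟩⟩ (.inr ⟨_, e, rfl⟩) d2
  have : {w : (Fin k → ℕ) × (Fin k → ℕ) | ρ (sw w.1) (sw w.2)} =
      ⋃ p ∈ I, ⋃ q ∈ S ∩ F, {w | P E' S p q w} := by
    ext w
    simp only [Set.mem_iUnion, Set.mem_ofPred_eq]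
    constructor
    · intro h
      obtain ⟨p, a1, q, a2, a3⟩ := (h3 _ _).1 h
      obtain ⟨d1, d2⟩ := b _ _ _ _ a3 a2 (.inl a1) ⟨p, a1, _, _, .nil _⟩
      exact ⟨p, a1, q, ⟨d1, a2⟩, by simpa [cnt_sw] using d2⟩
    · rintro ⟨p, a1, q, a2, a3⟩
      obtain ⟨-, u, v, c, rfl⟩ := a _ _ _ _ a3
      have := (h3 _ _).2 ⟨p, a1, q, a2.2, c⟩
      obtain ⟨⟨x, rfl⟩, y, rfl⟩ := hs _ _ this
      simpa [cnt_sw] using this
  rw [this]
  refine .biUnion h2 fun p => .biUnion (hS.inter_of_left _) fun q => P_cc (fun p q => ?_) ?_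
    (fun S r w hw => ?_) hS p q
  · refine ((h1.image fun e => (cnt e.2.1, cnt e.2.2.1)).insert 0).subset ?_
    rintro w ⟨-, ⟨-, rfl⟩ | ⟨u, v, b, rfl⟩⟩
    · exact .inl rfl
    · exact .inr ⟨_, b, rfl⟩
  · refine fun a b h => ⟨fun i j c d => h.1 i j ?_ ?_, fun i j c d => h.2 i j ?_ ?_⟩ <;>
      simp [c, d]
  · have : (w = 0 ∨ Use r) ∧ ∃ u v, Pa E r u v r ∧ w = (cnt u, cnt v) := by
      induction hw using AddSubmonoid.closure_induction with
      | mem w h => exact ⟨.inr (a _ _ _ _ h).1, (a _ _ _ _ h).2⟩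
      | zero => exact ⟨.inl rfl, _, _, .nil _, c0⟩
      | add x y _ _ hx hy =>
        obtain ⟨a1, u, v, a2, a3⟩ := hx
        obtain ⟨b1, u', v', b2, b3⟩ := hy
        refine ⟨?_, _, _, a2.trans b2, by simp [a3, b3, ca]⟩
        rcases a1 with rfl | a1
        · simpa using b1
        · exact .inr a1
    obtain ⟨rfl | ⟨p, a1, q, a2, u1, v1, u2, v2, a3, a4⟩, u, v, c, d⟩ := this
    · exact ⟨fun _ _ h => (h rfl).elim, fun _ _ h => (h rfl).elim⟩
    · obtain ⟨⟨x, e1⟩, y, e2⟩ := hs _ _ ((h3 _ _).2 ⟨p, a1, q, a2, a3.trans (c.trans (c.trans a4))⟩)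
      exact d ▸ ⟨sim_loop e1, sim_loop e2⟩

end Pool.Agent.H32.Cone
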