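import Pool.Agent.H32.ConeB

set_option autoImplicit false

namespace Pool.Agent.H32.Cone

variable {k : ℕ}

def Dg (x : Fin k → ℕ) : Prop := ∀ a b, x a = x b

theorem third (hk : 3 ≤ k) {f g : Fin k → ℕ} (hf : Sim f) (hg : Sim g) :
    ∃ a, f a = 0 ∧ g a = 0 := by
  by_contra h
  have h' : ∀ a, f a ≠ 0 ∨ g a ≠ 0 := fun a => by
    by_contra c
    exact h ⟨a, by simpa using c⟩
  have e : ∀ a b : Fin k, a.1 ≠ b.1 → ¬ (f a ≠ 0 ∧ f b ≠ 0) ∧ ¬ (g a ≠ 0 ∧ g b ≠ 0) :=
    fun a b c => ⟨fun d => c (congrArg _ (hf a b d.1 d.2)), fun d => c (congrArg _ (hg a b d.1 d.2))⟩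
  have a1 := e ⟨0, by omega⟩ ⟨1, by omega⟩ (by simp)
  have a2 := e ⟨0, by omega⟩ ⟨2, by omega⟩ (by simp)
  have a3 := e ⟨1, by omega⟩ ⟨2, by omega⟩ (by simp)
  have b1 := h' ⟨0, by omega⟩
  have b2 := h' ⟨1, by omega⟩
  have b3 := h' ⟨2, by omega⟩
  tauto

theorem comp_line (hk : 3 ≤ k) (c : (Fin k → ℕ) × (Fin k → ℕ)) {T : Set ((Fin k → ℕ) × (Fin k → ℕ))}
    (hT : T.Finite) (hS : T ⊆ {w | Sim w.1 ∧ Sim w.2}) :
    ∃ N : ℕ, ∃ l : (Fin k → ℚ) × (Fin k → ℚ), (∀ j, 0 < l.2 j) ∧ ∀ n > N,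
      ∀ s ∈ AddSubmonoid.closure T, (∀ i, (c + s).1 i = n) →
        (∀ s' ∈ AddSubmonoid.closure T, (c + s').2 = (c + s).2 → Dg (c + s').1) →
          ∀ j, ((c + s).2 j : ℚ) = l.1 j + l.2 j * n := by
  obtain ⟨K, hK⟩ := ((hT.prod (Set.finite_univ (α := Fin k))).image fun z => z.1.2 z.2).bddAbove
  choose N hN using fun i : Fin k =>
    big ((Pi.evalAddMonoidHom (fun _ => ℕ) i).comp (AddMonoidHom.fst _ _)) hT K
  obtain ⟨N0, hN0⟩ := (Set.finite_range fun i => N i + c.1 i).bddAbove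
  refine ⟨N0, ?_⟩
  by_cases H : ∃ n > N0, ∃ s ∈ AddSubmonoid.closure T, (∀ i, (c + s).1 i = n) ∧
    ∀ s' ∈ AddSubmonoid.closure T, (c + s').2 = (c + s).2 → Dg (c + s').1
  swap
  · exact ⟨(0, 1), fun _ => one_pos, fun n a s b c d => (H ⟨n, a, s, b, c, d⟩).elim⟩
  obtain ⟨n, h1, s, h2, h3, h4⟩ := H
  have sc : ∀ t ∈ T, t ∈ AddSubmonoid.closure T := fun t h => AddSubmonoid.subset_closure h
  have F1 : ∀ t ∈ T, ∀ i, t.1 i ≠ 0 → ∃ j, t.2 j ≠ 0 := by
    intro t ht i hi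
    by_contra h
    have e : t.2 = 0 := funext fun j => by
      by_contra c
      exact h ⟨j, c⟩
    obtain ⟨a, ha, -⟩ := third hk (hS ht).1 (hS ht).1
    have := h4 (s + t) (add_mem h2 (sc t ht)) (by simp [e]) i a
    have a1 := h3 i
    have a2 := h3 a
    simp only [Prod.fst_add, Pi.add_apply] at this a1 a2
    omega
  choose t t1 t2 s0 t3 t4 using fun i => hN i s h2 (by
    have a1 := h3 i
    have a2 : N i + c.1 i ≤ N0 := hN0 ⟨i, rfl⟩
    simp only [Prod.fst_add, Pi.add_apply] at a1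
    show N i < s.1 i
    omega)
  replace t2 : ∀ i, (t i).1 i ≠ 0 := t2
  have F2 : ∀ i, ∀ t' ∈ T, ∀ j, (t i).2 j ≠ 0 → t'.2 j ≠ 0 →
      ∀ a, t'.2 j * (t i).1 a = (t i).2 j * t'.1 a := by
    intro i t' ht j a1 a2 a
    obtain ⟨r, hr⟩ := Nat.exists_eq_add_of_le (show t'.2 j ≤ K from hK ⟨(t', j), ⟨ht, trivial⟩, rfl⟩)
    obtain ⟨b, b1, b2⟩ := third hk (hS (t1 i)).1 (hS ht).1
    have := h4 (r • t i + (t i).2 j • t' + s0 i) (add_mem (add_mem (nsmul_mem (sc _ (t1 i)) _)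
      (nsmul_mem (sc _ ht) _)) (t3 i)) (by
        rw [t4 i, hr]
        ext b
        have : (t i).2 j * t'.2 b = t'.2 j * (t i).2 b := by
          by_cases e : b = j
          · rw [e, mul_comm]
          · have e1 : t'.2 b = 0 := by_contra fun c => e ((hS ht).2 b j c a2)
            have e2 : (t i).2 b = 0 := by_contra fun c => e ((hS (t1 i)).2 b j c a1)
            simp [e1, e2]
        simp only [Prod.snd_add, Pi.add_apply, Prod.smul_snd, Pi.smul_apply, smul_eq_mul, add_mul]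
        omega) a b
    have c1 := h3 a
    have c2 := h3 b
    rw [t4 i, hr] at c1 c2
    simp only [Prod.fst_add, Pi.add_apply, Prod.smul_fst, Pi.smul_apply, smul_eq_mul, add_mul, b1,
      b2] at this c1 c2
    omega
  choose j hj using fun i => F1 _ (t1 i) i (t2 i)
  have inj : Function.Injective j := fun i i' e => by
    have := F2 i _ (t1 i') (j i) (hj i) (e ▸ hj i') i
    refine (hS (t1 i')).1 i i' (fun c => ?_) (t2 i')
    rw [c, mul_zero, e] at this
    exact mul_ne_zero (hj i') (t2 i) this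
  have sur := Finite.surjective_of_injective inj
  have key : ∀ i, ∀ s ∈ AddSubmonoid.closure T, s.2 (j i) * (t i).1 i = (t i).2 (j i) * s.1 i := by
    intro i s hs
    induction hs using AddSubmonoid.closure_induction with
    | mem t' ht =>
      by_cases c : t'.2 (j i) = 0
      · by_cases d : t'.1 i = 0
        · simp [c, d]
        · obtain ⟨j', e⟩ := F1 _ ht i d
          obtain ⟨i', rfl⟩ := sur j'
          have := F2 i' _ ht _ (hj i') e i
          obtain rfl : i = i' := (hS (t1 i')).1 i i' (fun c => by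
            rw [c, mul_zero] at this
            exact mul_ne_zero (hj i') d this.symm) (t2 i')
          exact this
      · exact F2 i _ ht _ (hj i) c i
    | zero => simp
    | add x y _ _ a b => simp [add_mul, mul_add, a, b]
  choose g hg using sur
  refine ⟨(fun b => c.2 b - ((t (g b)).2 b : ℚ) / (t (g b)).1 (g b) * c.1 (g b),
    fun b => ((t (g b)).2 b : ℚ) / (t (g b)).1 (g b)), fun b => ?_, fun n _ s a1 a2 _ b => ?_⟩
  · have a1 := hj (g b)
    rw [hg] at a1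
    have a2 := t2 (g b)
    positivity
  · have b1 := key (g b) s a1
    rw [hg] at b1
    have b2 : ((t (g b)).1 (g b) : ℚ) ≠ 0 := Nat.cast_ne_zero.2 (t2 _)
    have b3 : (s.2 b : ℚ) * (t (g b)).1 (g b) = (t (g b)).2 b * s.1 (g b) := by exact_mod_cast b1
    rw [← a2 (g b)]
    simp only [Prod.fst_add, Prod.snd_add, Pi.add_apply, Nat.cast_add]
    field_simp
    linear_combination b3

theorem CC.lines (hk : 3 ≤ k) {V : Set ((Fin k → ℕ) × (Fin k → ℕ))}
    (h : CC {w | Sim w.1 ∧ Sim w.2} V) : ∃ N : ℕ, ∃ Λ : Set ((Fin k → ℚ) × (Fin k → ℚ)), Λ.Finite ∧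
      (∀ l ∈ Λ, ∀ j, 0 < l.2 j) ∧ ∀ n > N, ∀ y, (fun _ => n, y) ∈ V → (∀ x, (x, y) ∈ V → Dg x) →
        ∃ l ∈ Λ, ∀ j, (y j : ℚ) = l.1 j + l.2 j * n := by
  obtain ⟨X, a, b, c⟩ := h
  choose! N l h1 h2 using fun z (hz : z ∈ X) => comp_line hk z.1 (b z hz).1 (b z hz).2
  obtain ⟨N0, hN⟩ := (a.image N).bddAbove
  refine ⟨N0, l '' X, a.image _, ?_, fun n hn y d e => ?_⟩
  · rintro _ ⟨z, hz, rfl⟩
    exact h1 z hz
  · obtain ⟨z, hz, s, hs, f⟩ := (c _).1 d
    have := h2 z hz n ((hN ⟨z, hz, rfl⟩).trans_lt hn) s hs (fun i => by rw [← f])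
      fun s' a1 a2 => e _ (by
        rw [← f] at a2
        exact (c _).2 ⟨z, hz, s', a1, Prod.ext rfl a2.symm⟩)
    rw [← f] at this
    exact ⟨_, ⟨z, hz, rfl⟩, this⟩

theorem period {R : Language (Fin k)} (h : R.IsRegular) : ∃ T m : ℕ, 0 < m ∧ ∀ y z : Fin k → ℕ,
    (∀ j, T ≤ y j) → sw y ∈ R → sw (y + m • z) ∈ R := by
  obtain ⟨σ, _, M, rfl⟩ := h
  have e : ∃ a b : ℕ, a < b ∧ ∀ j s, M.evalFrom s (List.replicate a j) =
      M.evalFrom s (List.replicate b j) := by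
    obtain ⟨a, b, c, d⟩ := Finite.exists_ne_map_eq_of_infinite
      fun (n : ℕ) (j : Fin k) (s : σ) => M.evalFrom s (List.replicate n j)
    rcases lt_or_gt_of_ne c with c | c
    · exact ⟨a, b, c, fun j s => congrFun (congrFun d j) s⟩
    · exact ⟨b, a, c, fun j s => (congrFun (congrFun d j) s).symm⟩
  obtain ⟨a, b, c, d⟩ := e
  obtain ⟨m, rfl⟩ := Nat.exists_eq_add_of_le c.le
  refine ⟨a, m, by omega, fun y z hy h => ?_⟩
  have e : ∀ j s n z, a ≤ n → M.evalFrom s (List.replicate (n + m * z) j) =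
      M.evalFrom s (List.replicate n j) := by
    intro j s n z hn
    obtain ⟨r, rfl⟩ := Nat.exists_eq_add_of_le hn
    induction z with
    | zero => rfl
    | succ z ih =>
      rw [← ih, show a + r + m * (z + 1) = a + m + (r + m * z) by ring, add_assoc a r,
        List.replicate_add, List.replicate_add a (r + _), DFA.evalFrom_of_append,
        DFA.evalFrom_of_append, d]
  have : ∀ (l : List (Fin k)) s, M.evalFrom s (l.flatMap fun i => List.replicate ((y + m • z) i) i) =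
      M.evalFrom s (l.flatMap fun i => List.replicate (y i) i) := by
    intro l
    induction l with
    | nil => simp
    | cons i l ih =>
      intro s
      simp only [List.flatMap_cons, DFA.evalFrom_of_append, ih]
      exact congrArg (M.evalFrom · _) (e i s _ _ (hy i))
  simp only [sw, blocks, List.flatten_replicate_singleton] at h ⊢
  exact (congrArg (· ∈ M.accept) (this _ _)).mpr h

theorem prog {D : Set (Fin k → ℕ)} (h : IsSemilinearSet D) (hD : D.Infinite) :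
    ∃ c d, d ≠ 0 ∧ ∀ t : ℕ, c + t • d ∈ D := by
  obtain ⟨X, a, b, rfl⟩ := h
  by_contra H
  refine hD (a.sUnion fun U hU => ?_)
  obtain ⟨c, T, -, rfl⟩ := b U hU
  refine (Set.finite_singleton c).subset ?_
  rintro _ ⟨d, hd, rfl⟩
  by_contra e
  exact H ⟨c, d, fun f => e (by simp [f]), fun t => ⟨_, hU, t • d, nsmul_mem hd _, rfl⟩⟩

theorem pig {Λ : Set ((Fin k → ℚ) × (Fin k → ℚ))} (h : Λ.Finite) : ∃ B : ℕ, ∀ y e : Fin k → ℚ,
    (∀ t : Fin B, ∃ l ∈ Λ, ∃ n : ℚ, ∀ j, y j + t * e j = l.1 j + l.2 j * n) →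
      ∃ l ∈ Λ, ∃ n μ : ℚ, ∀ j, y j = l.1 j + l.2 j * n ∧ e j = l.2 j * μ := by
  have := h.fintype
  refine ⟨Fintype.card Λ + 1, fun y e H => ?_⟩
  choose l a n b using H
  obtain ⟨s, t, c, d⟩ := Fintype.exists_ne_map_eq_of_card_lt (fun t => (⟨l t, a t⟩ : Λ)) (by simp)
  have d' : l s = l t := congrArg Subtype.val d
  have c' : (s : ℚ) - t ≠ 0 := sub_ne_zero.2 fun e => c (Fin.ext (by exact_mod_cast e))
  refine ⟨l t, a t, n t - t * ((n s - n t) / (s - t)), (n s - n t) / (s - t), fun j => ?_⟩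
  have b1 := b s j
  have b2 := b t j
  rw [d'] at b1
  have : e j = (l t).2 j * ((n s - n t) / (s - t)) := by
    field_simp
    linear_combination b1 - b2
  exact ⟨by linear_combination b2 - t * this, this⟩

theorem sne_iff (v : List (Fin k)) : v ∈ Sne k ↔ ∃ x, v = sw x ∧ ¬ Dg x := by
  refine exists_congr fun x => and_congr_right' ⟨fun ⟨i, j, _, h⟩ c => h (c i j), fun h => ?_⟩
  by_contra c
  have c' : ∀ i j : Fin k, i.1 + 1 = j.1 → x i = x j := fun i j e => by_contra fun d => c ⟨i, j, e, d⟩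
  have : ∀ n (h : n < k), x ⟨n, h⟩ = x ⟨0, by omega⟩ := fun n => by
    induction n with
    | zero => intro; rfl
    | succ n ih => intro h; rw [← ih (by omega)]; exact (c' _ _ rfl).symm
  exact h fun a b => (this a.1 a.2).trans (this b.1 b.2).symm

end Pool.Agent.H32.Cone
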