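import Pool.Agent.H32.ConeC

set_option autoImplicit false

namespace Pool.Agent.H32.Cone

variable {k : ℕ}

theorem core (hk : 3 ≤ k) {ρ : List (Fin k) → List (Fin k) → Prop} (h : Rat ρ)
    (hs : ∀ u v, ρ u v → (∃ x, u = sw x) ∧ ∃ y, v = sw y) {K : Language (Fin k)}
    (hK : ∀ v, v ∈ K ↔ ∃ u ∈ Sne k, ρ u v) : K.IsRegular ∨ InCone K (Sne k) := by
  have hc := h.cc hs
  obtain ⟨N, Λ, a1, a2, a3⟩ := hc.lines hk
  let z0 : Fin k := ⟨0, by omega⟩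
  let sm : Set (Fin k → ℕ) := (fun n _ => n) '' Set.Iic N
  have fs : sm.Finite := (Set.finite_Iic N).image _
  let R : Language (Fin k) := {v | ∃ u ∈ (sw '' sm)ᶜ, ρ u v}
  have hR : R.IsRegular := InCone.reg (inCone_iff.2 ⟨ρ, h, fun _ => Iff.rfl⟩)
    (reg_fin (fs.image sw)).compl
  have e1 : ∀ y, sw y ∈ R ↔ ∃ x, ρ (sw x) (sw y) ∧ x ∉ sm := fun y =>
    ⟨fun ⟨u, a, b⟩ => by
      obtain ⟨⟨x, rfl⟩, -⟩ := hs _ _ b
      exact ⟨x, b, fun c => a ⟨x, c, rfl⟩⟩,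
    fun ⟨x, a, b⟩ => ⟨_, fun ⟨_, c, d⟩ => b (sw_inj d ▸ c), a⟩⟩
  have e2 : ∀ y, sw y ∈ K ↔ ∃ x, ρ (sw x) (sw y) ∧ ¬ Dg x := fun y => by
    simp only [hK, sne_iff]
    exact ⟨fun ⟨_, ⟨x, a, b⟩, c⟩ => ⟨x, a ▸ c, b⟩, fun ⟨x, a, b⟩ => ⟨_, ⟨x, rfl, b⟩, a⟩⟩
  have e3 : ∀ x : Fin k → ℕ, x ∈ AddSubmonoid.closure {(1 : Fin k → ℕ)} ↔ Dg x := fun x => by
    rw [AddSubmonoid.mem_closure_singleton]
    exact ⟨fun ⟨n, a⟩ => a ▸ fun _ _ => rfl, fun a => ⟨x z0, funext fun i => by simpa using a z0 i⟩⟩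
  let D : Set (Fin k → ℕ) := {y | sw y ∈ R ∧ sw y ∉ K}
  have hD : IsSemilinearSet D := by
    have := ((hc.semi.sdiff ((IsSemilinearSet.of_finite fs).preimage
      (AddMonoidHom.fst _ (Fin k → ℕ)))).image (AddMonoidHom.snd _ _)).sdiff
      ((hc.semi.sdiff ((IsSemilinearSet.closure_of_finite (Set.finite_singleton 1)).preimage
      (AddMonoidHom.fst _ (Fin k → ℕ)))).image (AddMonoidHom.snd _ _))
    refine cast (congrArg _ (Set.ext fun y => ?_)) this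
    simp [D, e1, e2, e3]
  have hl : ∀ y ∈ D, ∃ l ∈ Λ, ∃ n : ℚ, ∀ j, (y j : ℚ) = l.1 j + l.2 j * n := by
    rintro y ⟨b1, b2⟩
    obtain ⟨x, c1, c2⟩ := (e1 y).1 b1
    have c3 : ∀ x, ρ (sw x) (sw y) → Dg x := fun x c => by_contra fun d => b2 ((e2 y).2 ⟨x, c, d⟩)
    have c4 : x = fun _ => x z0 := funext fun i => c3 x c1 i z0
    obtain ⟨l, d1, d2⟩ := a3 (x z0) (not_le.1 fun d => c2 ⟨_, d, c4.symm⟩) y (c4 ▸ c1) c3
    exact ⟨l, d1, _, d2⟩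
  by_cases fD : D.Finite
  · refine .inl (cast (congrArg _ (Set.ext fun v => ⟨?_, fun a => ?_⟩))
      (hR.inf (reg_fin (fD.image sw)).compl))
    · rintro ⟨b1, b2⟩
      have ⟨u, _, c⟩ := b1
      obtain ⟨-, y, rfl⟩ := hs _ _ c
      exact by_contra fun d => b2 ⟨y, ⟨b1, d⟩, rfl⟩
    · have ⟨u, _, c⟩ := (hK v).1 a
      obtain ⟨-, y, rfl⟩ := hs _ _ c
      obtain ⟨x, c1, c2⟩ := (e2 y).1 a
      exact ⟨(e1 y).2 ⟨x, c1, fun ⟨n, _, e⟩ => c2 (e ▸ fun _ _ => rfl)⟩,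
        fun ⟨y', b, e⟩ => b.2 (e ▸ a)⟩
  right
  obtain ⟨c0, d, d0, hd⟩ := prog hD fD
  obtain ⟨B0, hB⟩ := pig a1
  obtain ⟨T, m0, p1, p2⟩ := period hR
  have dp : ∀ j, 0 < d j := by
    obtain ⟨l, b1, n, μ, b2⟩ := hB (fun j => c0 j) (fun j => d j) fun t => by
      simpa using hl _ (hd t)
    obtain ⟨i, hi⟩ := Function.ne_iff.1 d0
    have : μ ≠ 0 := fun e => hi (by simpa [e] using (b2 i).2)
    intro j
    have := mul_ne_zero (a2 l b1 j).ne' this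
    rw [← (b2 j).2] at this
    exact Nat.pos_of_ne_zero (by exact_mod_cast this)
  let c := c0 + T • d
  obtain ⟨m1, hm⟩ := ((a1.prod (Set.finite_univ (α := Fin k × Fin k))).image
    fun z : ((Fin k → ℚ) × (Fin k → ℚ)) × Fin k × Fin k =>
    ⌈|(z.1.1 z.2.1 - c z.2.1) / z.1.2 z.2.1 - (z.1.1 z.2.2 - c z.2.2) / z.1.2 z.2.2| *
      z.1.2 z.2.1⌉₊).bddAbove
  let m := m0 * (m1 + 1)
  let φ : ℕ → (Fin k → ℕ) → Fin k → ℕ := fun t x i => c i + m * d i * t + x i * (m * d i)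
  have hφ : ∀ t x, sw (φ t x) ∈ R := fun t x => by
    have := p2 c (fun i => (m1 + 1) * d i * (t + x i)) (fun j => by
      have := Nat.le_mul_of_pos_right T (dp j)
      simp only [c, Pi.add_apply, Pi.smul_apply, smul_eq_mul]
      omega) (hd T).1
    refine cast (congrArg (sw · ∈ R) (funext fun i => ?_)) this
    simp only [φ, m, Pi.add_apply, Pi.smul_apply, smul_eq_mul]
    ring
  refine inCone_iff.2 ⟨_, Rat.iUnion fun t : Fin B0 => Rat.bl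
    (fun i => List.replicate (c i + m * d i * t) i) (fun i => List.replicate (m * d i) i), fun v => ?_⟩
  have e4 : ∀ (t : ℕ) x, ((List.finRange k).flatMap fun i => List.replicate (c i + m * d i * t) i ++
      (List.replicate (x i) (List.replicate (m * d i) i)).flatten) = sw (φ t x) := fun t x => by
    simp only [sw, blocks, φ, List.flatten_replicate_replicate, List.flatten_replicate_singleton,
      ← List.replicate_add]
  simp only [e4, sne_iff]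
  constructor
  · rintro ⟨x, rfl, b⟩
    by_contra H
    obtain ⟨l, b1, n, μ, b2⟩ := hB (fun j => c j + x j * (m * d j)) (fun j => m * d j) fun t => by
      obtain ⟨l, b1, n, b2⟩ := hl (φ t x) ⟨hφ t x, fun e => H ⟨_, e, t, x, rfl, rfl⟩⟩
      refine ⟨l, b1, n, fun j => (b2 j) ▸ ?_⟩
      simp only [φ]
      push_cast
      ring
    refine b fun i j => by_contra fun e => ?_
    have f1 : (⌈|(l.1 i - c i) / l.2 i - (l.1 j - c j) / l.2 j| * l.2 i⌉₊) ≤ m1 :=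
      hm ⟨(l, i, j), ⟨b1, trivial⟩, rfl⟩
    rw [Nat.ceil_le] at f1
    have f2 : ∀ i, (l.1 i - c i) / l.2 i = x i * μ - n := fun i => by
      have := (a2 l b1 i).ne'
      field_simp
      linear_combination -(b2 i).1 + x i * (b2 i).2
    have f3 : (1 : ℚ) ≤ |(x i : ℚ) - x j| := by
      have : (1 : ℤ) ≤ |(x i : ℤ) - x j| := Int.one_le_abs (sub_ne_zero.2 (by exact_mod_cast e))
      exact_mod_cast this
    have f4 : (m1 : ℚ) + 1 ≤ m * d i := by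
      have : m1 + 1 ≤ m * d i := (Nat.le_mul_of_pos_left _ p1).trans (Nat.le_mul_of_pos_right _ (dp i))
      exact_mod_cast this
    rw [f2, f2, ← abs_of_pos (a2 l b1 i), ← abs_mul, show (x i * μ - n - (x j * μ - n)) * l.2 i =
      (x i - x j) * (l.2 i * μ) by ring, ← (b2 i).2, abs_mul, abs_of_nonneg (a := (m : ℚ) * d i)
      (by positivity)] at f1
    nlinarith [Nat.cast_nonneg (α := ℚ) m1]
  · rintro ⟨_, b, t, x, rfl, rfl⟩
    refine ⟨x, rfl, fun e => (hd (T + m * (t + x z0))).2 ?_⟩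
    refine cast (congrArg (sw · ∈ K) (funext fun i => ?_)) b
    simp only [φ, c, Pi.add_apply, Pi.smul_apply, smul_eq_mul, e i z0]
    ring

theorem main (hk : 3 ≤ k) {X : Type} [Finite X] {L : Language X} (hb : Bounded k L)
    (h : InCone (Sne k) L) : L.IsRegular ∨ InCone L (Sne k) := by
  obtain ⟨w, hw⟩ := hb
  let K : Language (Fin k) := {v | ∃ y, v = sw y ∧ blocks w y ∈ L}
  have r := Rat.bl (fun _ => []) w
  have h1 : InCone L K := inCone_iff.2 ⟨_, r, fun v =>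
    ⟨fun ⟨y, a, b⟩ => ⟨_, b, y, rfl, a⟩, fun ⟨_, a, y, b, c⟩ => ⟨y, c, by subst b; exact a⟩⟩⟩
  have h2 : InCone K L := inCone_iff.2 ⟨_, r.symm, fun u => ⟨fun a => ?_, ?_⟩⟩
  · obtain ⟨ρ, a, b⟩ := inCone_iff.1 (h.trans h1)
    have s := Rat.bl (k := k) (fun _ => []) fun i => [i]
    refine (core hk (s.comp (a.comp s)) ?_ fun v => ⟨fun c => ?_, ?_⟩).imp h2.reg h1.trans
    · rintro _ _ ⟨_, ⟨x, c, -⟩, _, -, y, -, d⟩
      exact ⟨⟨x, c⟩, y, d⟩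
    · obtain ⟨u, c1, c2⟩ := (b v).1 c
      obtain ⟨y, rfl, -⟩ := c
      have ⟨x, e, _⟩ := c1
      exact ⟨u, c1, u, ⟨x, e, e⟩, _, c2, y, rfl, rfl⟩
    · rintro ⟨_, c1, _, ⟨x, rfl, rfl⟩, _, c2, y, rfl, rfl⟩
      exact (b _).2 ⟨_, c1, c2⟩
  · obtain ⟨y, rfl⟩ := hw u a
    exact ⟨_, ⟨y, rfl, a⟩, y, rfl, rfl⟩
  · rintro ⟨_, ⟨y, rfl, a⟩, x, rfl, b⟩
    obtain rfl : y = x := sw_inj b
    exact a

end Pool.Agent.H32.Cone
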