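import Mathlib

set_option autoImplicit false

namespace Pool.Agent.H32.Cone

/-- `K` lies in the rational cone generated by `L` (Nivat form `g(h⁻¹(L) ∩ R)`) -/
def InCone {X Y : Type} (L : Language X) (K : Language Y) : Prop :=
  ∃ (Z : Type) (_ : Finite Z) (h : Z → List X) (g : Z → List Y) (R : Language Z), R.IsRegular ∧
    ∀ v, v ∈ K ↔ ∃ z ∈ R, List.flatMap h z ∈ L ∧ List.flatMap g z = v

/-- the word `w₁^n₁ ⋯ w_k^n_k` -/
def blocks {X : Type} {k : ℕ} (w : Fin k → List X) (n : Fin k → ℕ) : List X :=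
  (List.finRange k).flatMap fun i => (List.replicate (n i) (w i)).flatten

/-- `L ⊆ w₁* ⋯ w_k*` for some words -/
def Bounded {X : Type} (k : ℕ) (L : Language X) : Prop :=
  ∃ w : Fin k → List X, ∀ u ∈ L, ∃ n, u = blocks w n

/-- the language `a₁^n₁ ⋯ a_k^n_k` with `n_j ≠ n_(j+1)` for some `j` -/
def Sne (k : ℕ) : Language (Fin k) :=
  {u | ∃ n : Fin k → ℕ, u = blocks (fun i => [i]) n ∧ ∃ i j : Fin k, i.1 + 1 = j.1 ∧ n i ≠ n j}

end Pool.Agent.H32.Cone
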