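import Mathlib

set_option autoImplicit false

namespace Pool.Agent.H32.Congr

variable {E : Type} [NormedAddCommGroup E] [InnerProductSpace ℝ E]

theorem lin {ι : Type} (p q : ι → E) (h : ∀ i j, inner ℝ (p i) (p j) = inner ℝ (q i) (q j))
    (S : Finset ι) : ∃ L : E ≃ₗᵢ[ℝ] E, ∀ i ∈ S, L (p i) = q i := by
  classical
  induction S using Finset.induction_on with
  | empty => exact ⟨LinearIsometryEquiv.refl ℝ E, by simp⟩
  | insert i S _ ih =>
    obtain ⟨L, hL⟩ := ih
    have hn : ‖L (p i)‖ = ‖q i‖ := by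
      rw [L.norm_map, norm_eq_sqrt_real_inner, norm_eq_sqrt_real_inner, h]
    refine ⟨L.trans (ℝ ∙ (L (p i) - q i))ᗮ.reflection, ?_⟩
    intro j hj
    rcases Finset.mem_insert.1 hj with rfl | hj
    · exact Submodule.reflection_sub hn
    · rw [LinearIsometryEquiv.trans_apply, hL j hj]
      apply Submodule.reflection_mem_subspace_eq_self
      rw [Submodule.mem_orthogonal_singleton_iff_inner_right, inner_sub_left, ← h i j, ← hL j hj,
        L.inner_map_map, sub_self]

theorem exists_isometry {ι : Type} [Fintype ι] (p q : ι → E)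
    (h : ∀ i j, dist (p i) (p j) = dist (q i) (q j)) : ∃ T : E ≃ᵢ E, ∀ i, T (p i) = q i := by
  rcases isEmpty_or_nonempty ι with hι | ⟨⟨o⟩⟩
  · exact ⟨IsometryEquiv.refl E, fun i => hι.elim i⟩
  obtain ⟨L, hL⟩ := lin (fun i => p i - p o) (fun i => q i - q o) (by
    intro i j
    simp only [real_inner_eq_norm_mul_self_add_norm_mul_self_sub_norm_sub_mul_self_div_two,
      sub_sub_sub_cancel_right, ← dist_eq_norm, h]) Finset.univ
  refine ⟨((IsometryEquiv.addRight (-p o)).trans L.toIsometryEquiv).trans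
    (IsometryEquiv.addRight (q o)), fun i => ?_⟩
  have := hL i (Finset.mem_univ _)
  simp only [IsometryEquiv.trans_apply, IsometryEquiv.addRight_apply,
    LinearIsometryEquiv.coe_toIsometryEquiv]
  rw [← sub_eq_add_neg, this, sub_add_cancel]

end Pool.Agent.H32.Congr
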