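import Mathlib

/-! An abstract two-sided word game behind the equation `X Z = Z Y`. -/

namespace Pool.Agent.H32.Conj

variable {α : Type}

structure Sys (α : Type) where
  adj : α → α → Prop
  con : α → Prop
  EA : α → List α → α → Prop
  ED : α → List α → α → Prop
  h : α
  k0 : α

namespace Sys

variable (S : Sys α)

def L0 (w : List α) : Prop :=
  w = [S.h] ∨ (∃ a β b, S.EA a β b ∧ w = β ++ [b]) ∨ ∃ a β b, S.ED a β b ∧ w = a :: β

def cs (l : List α) : Prop := l.length ≤ 3 ∧ ∀ a ∈ l, S.con a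

def J (w : List α) : Prop :=
  ¬ w.IsChain S.adj ∧ w ≠ [S.h, S.k0] ∧
    ∃ a y b, S.cs a ∧ S.cs b ∧ (y = [] ∨ S.L0 y) ∧ w = a ++ y ++ b

def L (w : List α) : Prop := S.L0 w ∨ S.J w

def Y (w : List α) : Prop := S.L w ∨ w = [S.h, S.k0]

structure Good : Prop where
  cc : ∀ a b, S.con a → S.con b → ¬ S.adj a b
  hc : ¬ S.con S.h
  ha : ∀ a, ¬ S.adj a S.h
  hb : ∀ a, ¬ S.adj S.h a
  kc : S.con S.k0
  edge : ∀ a β b, S.EA a β b ∨ S.ED a β b → S.con a ∧ S.con b ∧
    (a :: β ++ [b]).IsChain S.adj ∧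
    (∃ f β', β = f :: β' ∧ ¬ S.con f ∧ ∀ x, S.adj x f → x = a) ∧
    ∃ β' e, β = β' ++ [e] ∧ ¬ S.con e ∧ ∀ x, S.adj e x → x = b

variable {S}

theorem cs_nil : S.cs [] := ⟨by simp, by simp⟩

theorem cs_one {a : α} (h : S.con a) : S.cs [a] := ⟨by simp, by simpa using h⟩

theorem Good.L_ne (G : S.Good) {w : List α} (h : S.L w) : w ≠ [] := by
  rintro rfl
  rcases h with (h | ⟨a, β, b, _, h⟩ | ⟨a, β, b, _, h⟩) | h
  · simp at h
  · simp at h
  · simp at h
  · exact h.1 List.isChain_nil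

theorem Good.Y_ne (G : S.Good) {w : List α} (h : S.Y w) : w ≠ [] := by
  rcases h with h | rfl
  · exact G.L_ne h
  · simp

theorem Good.two (G : S.Good) {a b : α} (ha : S.con a) (hb : S.con b) (u v : List α) :
    ¬ (u ++ a :: b :: v).IsChain S.adj := fun h =>
  G.cc a b ha hb (List.isChain_cons_cons.1 h.right_of_append).1

theorem Good.padR (G : S.Good) {a b : α} {w : List α} (ha : S.con a) (hb : S.con b)
    (hw : S.L0 w) : S.L (w ++ [a, b]) := by
  refine Or.inr ⟨G.two ha hb _ [], fun e => ?_, [], w, [a, b], cs_nil, ⟨by simp, by simp [ha, hb]⟩,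
    Or.inr hw, rfl⟩
  have e2 := congrArg List.length e
  have := List.length_pos_iff.2 (G.L_ne (Or.inl hw))
  simp only [List.length_append, List.length_cons, List.length_nil] at e2
  omega

theorem Good.padL (G : S.Good) {a b : α} {w : List α} (ha : S.con a) (hb : S.con b)
    (hw : S.L0 w) : S.L (a :: b :: w) :=
  Or.inr ⟨G.two ha hb [] _, fun e => G.hc (by simp at e; exact e.1 ▸ ha), [a, b], w, [],
    ⟨by simp, by simp [ha, hb]⟩, cs_nil, Or.inr hw, by simp⟩

theorem Good.closA (G : S.Good) {b : α} {y : List α} (hb : S.con b) (hy : S.Y y) :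
    (∃ β b', S.EA b β b' ∧ y = β ++ [b']) ∨ S.L (b :: y) ∨
      ∃ a y', S.con a ∧ S.L y' ∧ y = a :: y' := by
  have ne : ∀ z, b :: z ≠ [S.h, S.k0] := fun z e => G.hc (by simp at e; exact e.1 ▸ hb)
  rcases hy with (hy | ⟨h1, h2, a, y0, c, ha, hc, hy0, rfl⟩) | rfl
  · by_cases hch : (b :: y).IsChain S.adj
    · rcases hy with rfl | ⟨a, β, b', e, rfl⟩ | ⟨a, β, b', e, rfl⟩
      · exact absurd (List.isChain_cons_cons.1 hch).1 (G.ha _)
      · obtain ⟨-, -, -, ⟨f, β', rfl, -, hf⟩, -⟩ := G.edge _ _ _ (Or.inl e)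
        obtain rfl := hf b (List.isChain_cons_cons.1 hch).1
        exact Or.inl ⟨_, _, e, rfl⟩
      · exact absurd (List.isChain_cons_cons.1 hch).1
          (G.cc _ _ hb (G.edge _ _ _ (Or.inr e)).1)
    · exact Or.inr (Or.inl (Or.inr ⟨hch, ne _, [b], y, [], cs_one hb, cs_nil, Or.inr hy, by simp⟩))
  · by_cases hl : a.length < 3
    · refine Or.inr (Or.inl (Or.inr ⟨fun h => h1 h.tail, ne _, b :: a, y0, c,
        ⟨by simp; omega, ?_⟩, hc, hy0, by simp⟩))
      intro x hx
      rcases List.mem_cons.1 hx with rfl | hx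
      · exact hb
      · exact ha.2 x hx
    · obtain ⟨hl2, ha⟩ := ha
      rcases a with _ | ⟨a0, _ | ⟨a1, _ | ⟨a2, _ | ⟨a3, a⟩⟩⟩⟩ <;> simp at hl hl2
      swap
      · omega
      simp only [List.mem_cons, List.not_mem_nil, or_false, forall_eq_or_imp, forall_eq] at ha
      refine Or.inr (Or.inr ⟨a0, [a1, a2] ++ y0 ++ c, ha.1, Or.inr
        ⟨by simpa using G.two ha.2.1 ha.2.2 [] (y0 ++ c), fun e => G.hc ?_,
          [a1, a2], y0, c, ⟨by simp, by simp [ha.2.1, ha.2.2]⟩, hc, hy0, rfl⟩, rfl⟩)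
      simp at e
      exact e.1 ▸ ha.2.1
  · exact Or.inr (Or.inl (Or.inr ⟨fun h => G.ha _ (List.isChain_cons_cons.1 h).1, ne _, [b],
      [S.h], [S.k0], cs_one hb, cs_one G.kc, Or.inr (Or.inl rfl), rfl⟩))

theorem Good.closB (G : S.Good) {a : α} {x : List α} (ha : S.con a) (hx : S.L x) :
    (∃ a' β, S.ED a' β a ∧ x = a' :: β) ∨ S.Y (x ++ [a]) ∨
      ∃ x' b, S.con b ∧ S.L x' ∧ x = x' ++ [b] := by
  by_cases hne : x ++ [a] = [S.h, S.k0]
  · exact Or.inr (Or.inl (Or.inr hne))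
  rcases hx with hx | ⟨h1, h2, c, y0, b, hc, hb, hy0, rfl⟩
  · by_cases hch : (x ++ [a]).IsChain S.adj
    · rcases hx with rfl | ⟨a', β, b', e, rfl⟩ | ⟨a', β, b', e, rfl⟩
      · exact absurd (List.isChain_cons_cons.1 hch).1 (G.hb _)
      · exact absurd (by simpa using hch) (G.two (G.edge _ _ _ (Or.inl e)).2.1 ha β [])
      · obtain ⟨-, -, -, -, ⟨β', f, rfl, -, hf⟩⟩ := G.edge _ _ _ (Or.inr e)
        have : ((a' :: β') ++ f :: a :: []).IsChain S.adj := by simpa using hch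
        obtain rfl := hf a (List.isChain_cons_cons.1 this.right_of_append).1
        exact Or.inl ⟨_, _, e, rfl⟩
    · exact Or.inr (Or.inl (Or.inl (Or.inr ⟨hch, hne, [], x, [a], cs_nil, cs_one ha, Or.inr hx,
        by simp⟩)))
  · by_cases hl : b.length < 3
    · refine Or.inr (Or.inl (Or.inl (Or.inr ⟨fun h => h1 h.left_of_append, hne, c, y0, b ++ [a],
        hc, ⟨by simp; omega, ?_⟩, hy0, by simp⟩)))
      intro x hx
      rcases List.mem_append.1 hx with hx | hx
      · exact hb.2 x hx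
      · rw [List.mem_singleton.1 hx]; exact ha
    · obtain ⟨hl2, hb⟩ := hb
      rcases b with _ | ⟨b0, _ | ⟨b1, _ | ⟨b2, _ | ⟨b3, b⟩⟩⟩⟩ <;> simp at hl hl2
      swap
      · omega
      simp only [List.mem_cons, List.not_mem_nil, or_false, forall_eq_or_imp, forall_eq] at hb
      refine Or.inr (Or.inr ⟨c ++ y0 ++ [b0, b1], b2, hb.2.2, Or.inr ⟨G.two hb.1 hb.2.1 _ [],
        fun e => G.hc ?_, c, y0, [b0, b1], hc, ⟨by simp, by simp [hb.1, hb.2.1]⟩, hy0, rfl⟩,
        by simp⟩)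
      have e2 := congrArg List.length e
      simp only [List.length_append, List.length_cons, List.length_nil] at e2
      obtain rfl : c = [] := List.length_eq_zero_iff.1 (by omega)
      obtain rfl : y0 = [] := List.length_eq_zero_iff.1 (by omega)
      simp at e
      exact e.1 ▸ hb.1

/-- the data needed for the defender to survive with a window of `k` factors -/
structure Plan (S : Sys α) (Mis : List α → α → ℕ → Prop) (k : ℕ) : Prop where
  k0 : 0 < k
  m0 : Mis [S.k0] S.k0 0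
  mc : ∀ M b n, Mis M b n → S.con b
  mA : ∀ M b n β b', Mis M b n → S.EA b β b' → Mis (M ++ β ++ [b']) b' (n + 1)
  m1 : ∀ M b n, Mis M b n → ∃ us : List (List α), (∀ u ∈ us, S.L0 u) ∧ n = us.length ∧
    M = us.flatten ++ [b]
  m3 : ∀ M b, Mis M b (k + 1) → ∃ y M', S.L0 y ∧ M = y ++ M' ∧ Mis M' b k
  mz : ∀ M b, Mis M b 0 → M = [b] ∧ ∀ a β, S.ED a β b → S.EA a β b ∧ Mis [a] a 0
  ms : ∀ M b n, Mis M b (n + 1) → ∃ M' a β, S.EA a β b ∧ M = M' ++ β ++ [b] ∧ Mis M' a n

def ZZ (S : Sys α) (Mis : List α → α → ℕ → Prop) (k : ℕ) (w : List α) : Prop :=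
  ∃ (us : List (List α)) (M : List α) (n : ℕ) (vs : List (List α)), (∀ u ∈ us, S.L u) ∧
    (∀ v ∈ vs, S.Y v) ∧ ((M = [] ∧ n = 0) ∨ (0 < n ∧ ∃ b, Mis M b n)) ∧
    k = us.length + n + vs.length ∧ w = us.flatten ++ M ++ vs.flatten

variable {Mis : List α → α → ℕ → Prop} {k : ℕ}

theorem al (us vs : List (List α)) (hu : ∀ u ∈ us, S.L u) (hv : ∀ v ∈ vs, S.Y v)
    (hk : k = us.length + vs.length) : S.ZZ Mis k (us.flatten ++ vs.flatten) :=
  ⟨us, [], 0, vs, hu, hv, Or.inl ⟨rfl, rfl⟩, hk, by simp⟩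

theorem pop (us vs : List (List α)) (hu : ∀ u ∈ us, S.L u) (hv : ∀ v ∈ vs, S.Y v)
    (hk : k + 1 = us.length + vs.length) (h : us ≠ []) :
    ∃ x z, S.L x ∧ S.ZZ Mis k z ∧ us.flatten ++ vs.flatten = x ++ z := by
  rcases us with _ | ⟨x, us⟩
  · exact absurd rfl h
  · exact ⟨x, _, hu x (by simp), al us vs (fun u h => hu u (by simp [h])) hv
      (by simp at hk; omega), by simp⟩

theorem Good.right (G : S.Good) (P : S.Plan Mis k) : ∀ (vs : List (List α)) (M : List α) (n : ℕ),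
    (∀ v ∈ vs, S.Y v) → ((M = [] ∧ n = 0) ∨ (0 < n ∧ ∃ b, Mis M b n)) → k + 1 = n + vs.length →
    ∃ x z, S.L x ∧ S.ZZ Mis k z ∧ M ++ vs.flatten = x ++ z := by
  have hk0 := P.k0
  intro vs
  induction vs with
  | nil =>
    rintro M n hv (⟨-, rfl⟩ | ⟨-, b, hM⟩) hk
    · simp at hk
    · obtain rfl : n = k + 1 := by simpa using hk.symm
      obtain ⟨y, M', h1, rfl, h2⟩ := P.m3 M b hM
      exact ⟨y, M', Or.inl h1, ⟨[], M', k, [], by simp, hv, Or.inr ⟨hk0, b, h2⟩,
        by simp, by simp⟩, by simp⟩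
  | cons y vs ih =>
    intro M n hv hM hk
    have hy := hv y (by simp)
    have hv' : ∀ v ∈ vs, S.Y v := fun v h => hv v (by simp [h])
    simp only [List.length_cons] at hk
    rcases hM with ⟨rfl, rfl⟩ | ⟨hn, b, hM⟩
    · rcases hy with hy | rfl
      · simpa using pop (Mis := Mis) (k := k) [y] vs (by simpa using hy) hv' (by simp; omega)
          (by simp)
      rcases vs with _ | ⟨y, vs⟩
      · simp at hk; omega
      have hv'' : ∀ v ∈ vs, S.Y v := fun v h => hv' v (by simp [h])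
      have hh : S.L0 [S.h] := Or.inl rfl
      simp only [List.length_cons] at hk
      rcases G.closA G.kc (hv' y (by simp)) with ⟨β, b', e, rfl⟩ | h | ⟨a, y', h1, h2, rfl⟩
      · exact ⟨[S.h], _, Or.inl hh, ⟨[], _, 1, vs, by simp, hv'',
          Or.inr ⟨by omega, _, P.mA _ _ _ _ _ P.m0 e⟩, by simp; omega, rfl⟩, by simp⟩
      · simpa using pop (Mis := Mis) (k := k) [[S.h], S.k0 :: y] vs
          (by simp [h, show S.L [S.h] from Or.inl hh]) hv'' (by simp; omega) (by simp)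
      · simpa using pop (Mis := Mis) (k := k) [[S.h] ++ [S.k0, a], y'] vs
          (by simpa [h2] using G.padR G.kc h1 hh) hv'' (by simp; omega) (by simp)
    · have hb := P.mc _ _ _ hM
      rcases G.closA hb hy with ⟨β, b', e, rfl⟩ | h | ⟨a, y', h1, h2, rfl⟩
      · obtain ⟨x, z, h1, h2, h3⟩ := ih _ (n + 1) hv'
          (Or.inr ⟨by omega, _, P.mA _ _ _ _ _ hM e⟩) (by omega)
        exact ⟨x, z, h1, h2, by simpa using h3⟩
      · obtain ⟨us, u1, u2, rfl⟩ := P.m1 _ _ _ hM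
        simpa using pop (Mis := Mis) (k := k) (us ++ [b :: y]) vs (fun u hu => by
          rcases List.mem_append.1 hu with hu | hu
          · exact Or.inl (u1 u hu)
          · rw [List.mem_singleton.1 hu]; exact h) hv' (by simp; omega) (by simp)
      · obtain ⟨us, u1, u2, rfl⟩ := P.m1 _ _ _ hM
        rcases List.eq_nil_or_concat us with rfl | ⟨us, x, rfl⟩
        · simp at u2; omega
        simp only [List.concat_eq_append, List.length_append, List.length_singleton] at u1 u2 ⊢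
        simpa using pop (Mis := Mis) (k := k) (us ++ [x ++ [b, a], y']) vs (fun u hu => by
          simp only [List.mem_append, List.mem_cons, List.not_mem_nil, or_false] at hu
          rcases hu with hu | rfl | rfl
          · exact Or.inl (u1 u (by simp [hu]))
          · exact G.padR hb h1 (u1 x (by simp))
          · exact h2) hv' (by simp; omega) (by simp)

theorem Good.left (G : S.Good) (P : S.Plan Mis k) (us : List (List α)) (M : List α) (n : ℕ)
    (hu : ∀ u ∈ us, S.L u) (hM : (M = [] ∧ n = 0) ∨ (0 < n ∧ ∃ b, Mis M b n))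
    (hk : k + 1 = us.length + n) (h0 : us ≠ []) :
    ∃ z y, S.ZZ Mis k z ∧ S.Y y ∧ us.flatten ++ M = z ++ y := by
  rcases List.eq_nil_or_concat us with rfl | ⟨us, x, rfl⟩
  · exact absurd rfl h0
  simp only [List.concat_eq_append, List.length_append, List.length_singleton] at hk hu ⊢
  have hx := hu x (by simp)
  have hu' : ∀ u ∈ us, S.L u := fun u h => hu u (by simp [h])
  rcases hM with ⟨rfl, rfl⟩ | ⟨hn, b, hM⟩
  · exact ⟨_, x, al us [] hu' (by simp) (by simp; omega), Or.inl hx, by simp⟩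
  obtain ⟨n, rfl⟩ : ∃ m, n = m + 1 := ⟨n - 1, by omega⟩
  obtain ⟨M', a, β, e, rfl, h⟩ := P.ms _ _ _ hM
  have hy : S.L0 (β ++ [b]) := Or.inr (Or.inl ⟨_, _, _, e, rfl⟩)
  rcases n with _ | n
  swap
  · exact ⟨_, β ++ [b], ⟨us ++ [x], M', n + 1, [], hu, by simp, Or.inr ⟨by omega, _, h⟩,
      by simp; omega, rfl⟩, Or.inl (Or.inl hy), by simp⟩
  obtain ⟨rfl, hz⟩ := P.mz _ _ h
  have ha := P.mc _ _ _ h
  rcases G.closB ha hx with ⟨a', β', e', rfl⟩ | h' | ⟨x', c, h1, h2, rfl⟩
  · obtain ⟨e1, e2⟩ := hz a' β' e'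
    exact ⟨_, β ++ [b], ⟨us, _, 1, [], hu', by simp, Or.inr ⟨by omega, _, P.mA _ _ _ _ _ e2 e1⟩,
      by simp; omega, rfl⟩, Or.inl (Or.inl hy), by simp⟩
  · exact ⟨_, β ++ [b], al us [x ++ [a]] hu' (by simpa using h') (by simp; omega),
      Or.inl (Or.inl hy), by simp⟩
  · exact ⟨_, c :: a :: (β ++ [b]), al us [x'] hu' (by simp [Sys.Y, h2]) (by simp; omega),
      Or.inl (G.padL h1 ha hy), by simp⟩

/-- the equation `L Z = Z Y` -/
def Sol (S : Sys α) (Z : List α → Prop) : Prop :=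
  ∀ w, (∃ x z, S.L x ∧ Z z ∧ w = x ++ z) ↔ ∃ z y, Z z ∧ S.Y y ∧ w = z ++ y

theorem flat_le {l : ℕ} : ∀ us : List (List α), (∀ u ∈ us, u.length ≤ l) →
    us.flatten.length ≤ us.length * l
  | [], _ => by simp
  | u :: us, h => by
    have := flat_le us fun v hv => h v (by simp [hv])
    have := h u (by simp)
    rw [List.flatten_cons, List.length_append, List.length_cons, Nat.add_mul]; omega

theorem Good.sol (G : S.Good) (P : S.Plan Mis k) : ∃ Z, (∃ z, Z z) ∧ S.Sol Z ∧
    ∀ l, (∀ w, S.Y w → w.length ≤ l) → ∀ z, Z z → z.length ≤ k * l + 1 := by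
  refine ⟨S.ZZ Mis k, ⟨_, al (List.replicate k [S.h]) [] ?_ (by simp) (by simp)⟩,
    fun w => ⟨?_, ?_⟩, ?_⟩
  · intro u hu
    rw [List.eq_of_mem_replicate hu]
    exact Or.inl (Or.inl rfl)
  · rintro ⟨x, z, hx, ⟨us, M, n, vs, hu, hv, hM, hk, rfl⟩, rfl⟩
    have hu' : ∀ u ∈ x :: us, S.L u := by simpa [hx] using hu
    rcases List.eq_nil_or_concat vs with rfl | ⟨vs, y, rfl⟩
    · obtain ⟨z, y, h1, h2, h3⟩ := G.left P (x :: us) M n hu' hM (by simp at hk ⊢; omega) (by simp)
      exact ⟨z, y, h1, h2, by simpa using h3⟩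
    · simp only [List.concat_eq_append, List.length_append, List.length_singleton] at hk hv ⊢
      exact ⟨(x :: us).flatten ++ M ++ vs.flatten, y, ⟨x :: us, M, n, vs, hu',
        fun v h => hv v (by simp [h]), hM, by simp; omega, rfl⟩, hv y (by simp), by simp⟩
  · rintro ⟨z, y, ⟨us, M, n, vs, hu, hv, hM, hk, rfl⟩, hy, rfl⟩
    have hv' : ∀ v ∈ vs ++ [y], S.Y v := fun v h => by
      rcases List.mem_append.1 h with h | h
      · exact hv v h
      · rw [List.mem_singleton.1 h]; exact hy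
    rcases us with _ | ⟨x, us⟩
    · obtain ⟨x, z, h1, h2, h3⟩ := G.right P (vs ++ [y]) M n hv' hM (by simp at hk ⊢; omega)
      exact ⟨x, z, h1, h2, by simpa using h3⟩
    · exact ⟨x, us.flatten ++ M ++ (vs ++ [y]).flatten, hu x (by simp), ⟨us, M, n, vs ++ [y],
        fun u h => hu u (by simp [h]), hv', hM, by simp at hk ⊢; omega, rfl⟩, by simp⟩
  · rintro l hl z ⟨us, M, n, vs, hu, hv, hM, rfl, rfl⟩
    have h1 := flat_le us fun u h => hl u (Or.inl (hu u h))
    have h2 := flat_le vs fun u h => hl u (hv u h)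
    have h3 : M.length ≤ n * l + 1 := by
      rcases hM with ⟨rfl, -⟩ | ⟨-, b, hM⟩
      · simp
      · obtain ⟨ws, u1, rfl, rfl⟩ := P.m1 _ _ _ hM
        have := flat_le ws fun u h => hl u (Or.inl (Or.inl (u1 u h)))
        rw [List.length_append]; simpa using this
    rw [List.length_append, List.length_append, Nat.add_mul, Nat.add_mul]; omega

variable {Z : List α → Prop}

theorem Sol.app (H : S.Sol Z) {z y : List α} (hz : Z z) (hy : S.Y y) :
    ∃ x z', S.L x ∧ Z z' ∧ z ++ y = x ++ z' := (H _).2 ⟨z, y, hz, hy, rfl⟩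

theorem Good.flush (G : S.Good) (H : S.Sol Z) : ∀ (n : ℕ) (z : List α) (j : ℕ), z.length ≤ n →
    Z (z ++ List.replicate j S.h) → ∃ j, Z (List.replicate j S.h) := by
  intro n
  induction n with
  | zero =>
    intro z j hz h
    obtain rfl : z = [] := List.length_eq_zero_iff.1 (by omega)
    exact ⟨j, by simpa using h⟩
  | succ n ih =>
    intro z j hz h
    obtain ⟨x, z', h1, h2, h3⟩ := H.app h (Or.inl (Or.inl (Or.inl rfl)))
    have hx := List.length_pos_iff.2 (G.L_ne h1)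
    rw [List.append_assoc, ← List.replicate_succ'] at h3
    rcases List.append_eq_append_iff.1 h3 with ⟨c, rfl, e⟩ | ⟨c, rfl, rfl⟩
    · refine ⟨z'.length, ?_⟩
      have : z' = List.replicate z'.length S.h := List.eq_replicate_iff.2 ⟨rfl, fun b hb =>
        List.eq_of_mem_replicate (n := j + 1) (by rw [e]; simp [hb])⟩
      rw [← this]; exact h2
    · exact ih c (j + 1) (by simp at hz; omega) h2

theorem Good.L0_head (G : S.Good) {x : List α} (hx : S.L0 (S.h :: x)) : x = [] := by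
  rcases hx with e | ⟨a, β, b, e, e2⟩ | ⟨a, β, b, e, e2⟩
  · simpa using e
  · obtain ⟨-, -, hch, ⟨f, β', rfl, -, -⟩, -⟩ := G.edge _ _ _ (Or.inl e)
    simp only [List.cons_append, List.cons.injEq] at e2 hch
    rw [← e2.1] at hch
    exact absurd (List.isChain_cons_cons.1 hch).1 (G.ha _)
  · simp only [List.cons.injEq] at e2
    exact absurd (e2.1 ▸ (G.edge _ _ _ (Or.inr e)).1) G.hc

theorem Good.forced_h (G : S.Good) {i : ℕ} {u x z : List α} (hu : (S.k0 :: u).IsChain S.adj)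
    (hx : S.L x) (e : List.replicate (i + 1) S.h ++ S.k0 :: u = x ++ z) :
    z = List.replicate i S.h ++ S.k0 :: u := by
  rcases x with _ | ⟨x0, x⟩
  · exact absurd rfl (G.L_ne hx)
  simp only [List.replicate_succ, List.cons_append, List.cons.injEq] at e
  obtain ⟨rfl, e⟩ := e
  suffices x = [] by subst this; exact e.symm
  rcases hx with hx | ⟨h1, h2, a, y, b, ha, hb, hy, e2⟩
  · exact G.L0_head hx
  rcases a with _ | ⟨a0, a⟩
  swap
  · simp only [List.cons_append, List.cons.injEq] at e2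
    exact absurd (e2.1 ▸ ha.2 a0 (by simp)) G.hc
  rcases y with _ | ⟨y0, y⟩
  · simp only [List.nil_append] at e2
    exact absurd (hb.2 S.h (by simp [← e2])) G.hc
  simp only [List.nil_append, List.cons_append, List.cons.injEq] at e2
  obtain ⟨rfl, rfl⟩ := e2
  obtain rfl := G.L0_head (hy.resolve_left (by simp))
  rcases b with _ | ⟨b0, b⟩
  · rfl
  exfalso
  have hb0 := hb.2 b0 (by simp)
  rcases i with _ | i
  swap
  · simp only [List.replicate_succ, List.cons_append, List.nil_append, List.cons.injEq] at e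
    exact G.hc (e.1 ▸ hb0)
  simp only [List.replicate_zero, List.cons_append, List.nil_append, List.cons.injEq] at e
  obtain ⟨rfl, rfl⟩ := e
  rcases b with _ | ⟨b1, b⟩
  · exact h2 rfl
  · exact G.two G.kc (hb.2 b1 (by simp)) [] _ hu

theorem Good.forced_v (G : S.Good) {a c : α} {u u' x z : List α} (ha : S.con a) (hc : S.con c)
    (hu : (a :: u).IsChain S.adj) (e' : a :: u = u' ++ [c]) (hx : S.L x) (e : a :: u = x ++ z) :
    ∃ β b z', S.ED a β b ∧ x = a :: β ∧ z = b :: z' := by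
  rcases hx with (rfl | ⟨a', β, b, h, rfl⟩ | ⟨a', β, b, h, rfl⟩) | hx
  · simp only [List.cons_append, List.cons.injEq] at e
    exact absurd (e.1 ▸ ha) G.hc
  · obtain ⟨-, -, -, ⟨f, β', rfl, hf, -⟩, -⟩ := G.edge _ _ _ (Or.inl h)
    simp only [List.cons_append, List.cons.injEq] at e
    exact absurd (e.1 ▸ ha) hf
  · obtain ⟨-, -, -, -, ⟨β', f, rfl, hf, hf'⟩⟩ := G.edge _ _ _ (Or.inr h)
    have e0 := e
    simp only [List.cons_append, List.cons.injEq] at e0
    obtain ⟨rfl, -⟩ := e0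
    rcases z with _ | ⟨b', z⟩
    · rw [e'] at e
      have : [c] = [f] := List.append_inj_right' (s₂ := a :: β') (by simpa using e) rfl
      simp only [List.cons.injEq, and_true] at this
      exact absurd (this ▸ hc) hf
    · rw [e] at hu
      have : ((a :: β') ++ f :: b' :: z).IsChain S.adj := by simpa using hu
      obtain rfl := hf' b' (List.isChain_cons_cons.1 this.right_of_append).1
      exact ⟨_, _, _, h, rfl, rfl⟩
  · exact absurd (e ▸ hu : (x ++ z).IsChain S.adj).left_of_append hx.1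

end Sys

end Pool.Agent.H32.Conj
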