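import Pool.Agent.H32.ConjA

/-! The word game attached to a weighted automaton over a stream of symbols. -/

namespace Pool.Agent.H32.Conj

inductive Pth {γ : Type} (R : γ → γ → Prop) : γ → γ → ℕ → Prop
  | refl (x : γ) : Pth R x x 0
  | tail {x y z : γ} {n : ℕ} : Pth R x y n → R y z → Pth R x z (n + 1)

theorem Pth.trans {γ : Type} {R : γ → γ → Prop} {x y z : γ} {n m : ℕ} (h : Pth R x y n)
    (h' : Pth R y z m) : Pth R x z (n + m) := by
  induction h' with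
  | refl => exact h
  | tail _ e ih => exact ih.tail e

theorem Pth.one {γ : Type} {R : γ → γ → Prop} {x y : γ} (h : R x y) : Pth R x y 1 :=
  (Pth.refl x).tail h

theorem Pth.head {γ : Type} {R : γ → γ → Prop} {x y z : γ} {n : ℕ} (h : R x y)
    (h' : Pth R y z n) : Pth R x z (n + 1) := by
  rw [Nat.add_comm]; exact (Pth.one h).trans h'

theorem Pth.zero {γ : Type} {R : γ → γ → Prop} {x y : γ} (h : Pth R x y 0) : x = y := by
  cases h; rfl

theorem Pth.cases_head {γ : Type} {R : γ → γ → Prop} {x z : γ} {n : ℕ} (h : Pth R x z (n + 1)) :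
    ∃ y, R x y ∧ Pth R y z n := by
  induction n generalizing z with
  | zero =>
    cases h with
    | tail h e => cases h.zero; exact ⟨_, e, Pth.refl _⟩
  | succ n ih =>
    cases h with
    | tail h e =>
      obtain ⟨y, e1, e2⟩ := ih h
      exact ⟨y, e1, e2.tail e⟩

theorem Pth.of_eq {γ : Type} {R : γ → γ → Prop} {x y : γ} {n m : ℕ} (h : Pth R x y n)
    (e : n = m) : Pth R x y m := e ▸ h

def blk (t p n : ℕ) : List (ℕ × ℕ) := (List.range n).map fun i => (t, p + i)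

def phi (K : ℕ) (s : ℕ → ℕ) (g : ℕ) : ℕ × ℕ := (s (g / (2 * K + 2)), g % (2 * K + 2))

def seg (K : ℕ) (s : ℕ → ℕ) (g n : ℕ) : List (ℕ × ℕ) := (List.range n).map fun i => phi K s (g + i)

def pos (K : ℕ) (x : ℕ × ℕ) : ℕ := x.1 * (2 * K + 2) + (2 * x.2 + 1)

def adj (K : ℕ) (a b : ℕ × ℕ) : Prop :=
  (a.1 = b.1 ∧ a.2 + 1 = b.2 ∧ b.2 < 2 * K + 2) ∨ (a.2 + 1 = 2 * K + 2 ∧ b.2 = 0)

def E (K B : ℕ) (D : ℕ → ℕ → ℕ → ℕ → Prop) (a : ℕ × ℕ) (β : List (ℕ × ℕ)) (b : ℕ × ℕ) : Prop :=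
  ∃ t t' m m', t < B ∧ t' < B ∧ m < K ∧ m' < K ∧ a = (t, 2 * m + 1) ∧ b = (t', 2 * m' + 1) ∧
    ((t' = t ∧ m' = m + 1 ∧ m % 3 ≠ 2 ∧ β = [(t, 2 * m + 2)]) ∨
      (m % 3 = 2 ∧ D (m / 3) t t' m' ∧ β = blk t (2 * m + 2) (2 * K - 2 * m) ++ blk t' 0 (2 * m' + 1)))

def GE (K B : ℕ) (D : ℕ → ℕ → ℕ → ℕ → Prop) (s : ℕ → ℕ) (x y : ℕ × ℕ) : Prop :=
  s x.1 < B ∧ s y.1 < B ∧ x.2 < K ∧ y.2 < K ∧
    ((y.1 = x.1 ∧ y.2 = x.2 + 1 ∧ x.2 % 3 ≠ 2) ∨
      (y.1 = x.1 + 1 ∧ x.2 % 3 = 2 ∧ D (x.2 / 3) (s x.1) (s y.1) y.2))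

def sys (K B : ℕ) (DA DD : ℕ → ℕ → ℕ → ℕ → Prop) : Sys (ℕ × ℕ) where
  adj := adj K
  con a := a.1 < B ∧ ∃ m < K, a.2 = 2 * m + 1
  EA := E K B DA
  ED := E K B DD
  h := (0, 2 * K + 2)
  k0 := (0, 17)

variable {K B : ℕ} {D DA DD : ℕ → ℕ → ℕ → ℕ → Prop} {s : ℕ → ℕ}

theorem phi_eq (r p : ℕ) (hp : p < 2 * K + 2) : phi K s (r * (2 * K + 2) + p) = (s r, p) := by
  simp only [phi]
  rw [Nat.mul_comm, Nat.mul_add_div (by omega), Nat.mul_add_mod, Nat.div_eq_of_lt hp,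
    Nat.mod_eq_of_lt hp, Nat.add_zero]

theorem phi_pos {x : ℕ × ℕ} (h : x.2 < K) : phi K s (pos K x) = (s x.1, 2 * x.2 + 1) :=
  phi_eq _ _ (by omega)

theorem seg_add (g n m : ℕ) : seg K s g (n + m) = seg K s g n ++ seg K s (g + n) m := by
  simp [seg, List.range_add, Nat.add_assoc]

theorem seg_one (g : ℕ) : seg K s g 1 = [phi K s g] := by simp [seg]

theorem seg_len (g n : ℕ) : (seg K s g n).length = n := by simp [seg]

theorem seg_cons (g n : ℕ) : seg K s g (n + 1) = phi K s g :: seg K s (g + 1) n := by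
  rw [Nat.add_comm n, seg_add, seg_one]; rfl

theorem seg_snoc (g n : ℕ) : seg K s g (n + 1) = seg K s g n ++ [phi K s (g + n)] := by
  rw [seg_add, seg_one]

theorem adj_phi (g : ℕ) : adj K (phi K s g) (phi K s (g + 1)) := by
  have h := Nat.mod_lt g (show 2 * K + 2 > 0 by omega)
  have e := Nat.div_add_mod' g (2 * K + 2)
  generalize g / (2 * K + 2) = r at e
  generalize g % (2 * K + 2) = p at e h
  subst e
  rw [phi_eq r p h]
  by_cases hp : p + 1 < 2 * K + 2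
  · rw [Nat.add_assoc, phi_eq r _ hp]
    exact Or.inl ⟨rfl, rfl, hp⟩
  · rw [show r * (2 * K + 2) + p + 1 = (r + 1) * (2 * K + 2) + 0 by rw [Nat.add_mul]; omega,
      phi_eq _ _ (by omega)]
    exact Or.inr ⟨by simp; omega, rfl⟩

theorem seg_chain (n : ℕ) : ∀ g, (seg K s g n).IsChain (adj K) := by
  induction n with
  | zero => intro g; simp [seg]
  | succ n ih =>
    intro g
    rcases n with _ | n
    · simp [seg]
    · have := ih (g + 1)
      rw [seg_cons] at this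
      rw [seg_cons, seg_cons]
      exact List.isChain_cons_cons.2 ⟨adj_phi g, this⟩

theorem blk_seg (r p n : ℕ) (h : p + n ≤ 2 * K + 2) :
    blk (s r) p n = seg K s (r * (2 * K + 2) + p) n := by
  refine List.map_congr_left fun i hi => ?_
  rw [Nat.add_assoc, phi_eq _ _ (by have := List.mem_range.1 hi; omega)]

theorem seg_congr {s' : ℕ → ℕ} {r g n : ℕ} (h : ∀ i ≤ r, s' i = s i)
    (hg : g + n ≤ (r + 1) * (2 * K + 2)) : seg K s' g n = seg K s g n := by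
  refine List.map_congr_left fun i hi => ?_
  have := List.mem_range.1 hi
  simp only [phi]
  rw [h]
  exact Nat.le_of_lt_succ ((Nat.div_lt_iff_lt_mul (by omega)).2 (by rw [Nat.succ_eq_add_one]; omega))

theorem seg_split {g n : ℕ} {u v : List (ℕ × ℕ)} (h : seg K s g n = u ++ v) :
    u.length ≤ n ∧ v = seg K s (g + u.length) (n - u.length) := by
  have hl := congrArg List.length h
  rw [seg_len, List.length_append] at hl
  refine ⟨by omega, ?_⟩
  rw [show n = u.length + (n - u.length) by omega, seg_add] at h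
  exact (List.append_inj h (seg_len _ _)).2.symm

theorem seg_edge {g1 g2 g3 n : ℕ} (h1 : g1 ≤ g2) (h2 : g3 = g2 + n + 1) :
    seg K s g1 (g3 + 1 - g1) =
      seg K s g1 (g2 + 1 - g1) ++ seg K s (g2 + 1) n ++ [phi K s g3] := by
  rw [show g3 + 1 - g1 = (g2 + 1 - g1) + n + 1 by omega, seg_snoc, seg_add,
    show g1 + (g2 + 1 - g1) = g2 + 1 by omega, show g1 + (g2 + 1 - g1 + n) = g3 by omega]

theorem seg_head {g1 g2 g3 n : ℕ} (h1 : g2 ≤ g3) (h2 : g2 = g1 + n + 1) :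
    seg K s g1 (g3 + 1 - g1) =
      (phi K s g1 :: seg K s (g1 + 1) n) ++ seg K s g2 (g3 + 1 - g2) := by
  rw [show g3 + 1 - g1 = (n + 1) + (g3 + 1 - g2) by omega, seg_add, seg_cons,
    show g1 + (n + 1) = g2 by omega]

theorem GE.toE {x y : ℕ × ℕ} (h : GE K B D s x y) : ∃ n, pos K y = pos K x + n + 1 ∧
    E K B D (phi K s (pos K x)) (seg K s (pos K x + 1) n) (phi K s (pos K y)) := by
  obtain ⟨r, m⟩ := x
  obtain ⟨r', m'⟩ := y
  obtain ⟨h1, h2, h3, h4, h⟩ := h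
  simp only at h1 h2 h3 h4 h
  rcases h with ⟨rfl, rfl, h⟩ | ⟨rfl, h, h'⟩
  · refine ⟨1, by simp only [pos]; omega, _, _, m, m + 1, h1, h1, h3, h4, phi_pos h3, phi_pos h4,
      Or.inl ⟨rfl, rfl, h, ?_⟩⟩
    rw [seg_one, pos, Nat.add_assoc, phi_eq _ _ (by simp only; omega)]
  · have e : (r + 1) * (2 * K + 2) = r * (2 * K + 2) + (2 * K + 2) := by ring
    refine ⟨(2 * K - 2 * m) + (2 * m' + 1), by simp only [pos]; omega, _, _, m, m', h1, h2, h3, h4,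
      phi_pos h3, phi_pos h4, Or.inr ⟨h, h', ?_⟩⟩
    rw [seg_add, blk_seg (K := K) r _ _ (by omega), blk_seg (K := K) (r + 1) _ _ (by omega)]
    simp only [pos]
    congr 2
    omega

theorem E.toGE {a b : ℕ × ℕ} {β : List (ℕ × ℕ)} (h : E K B D a β b) (s : ℕ → ℕ) {x : ℕ × ℕ}
    (hx : x.2 < K) (ha : a = phi K s (pos K x)) : ∃ s' y, (∀ i ≤ x.1, s' i = s i) ∧
      (b = phi K s (pos K x + β.length + 1) → s' = s) ∧ GE K B D s' x y ∧
      pos K y = pos K x + β.length + 1 ∧ b = phi K s' (pos K y) ∧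
      β = seg K s' (pos K x + 1) β.length := by
  obtain ⟨r, m0⟩ := x
  obtain ⟨t, t', m, m', h1, h2, h3, h4, rfl, rfl, h⟩ := h
  rw [phi_pos hx] at ha
  simp only [Prod.mk.injEq] at ha hx
  obtain ⟨rfl, ha⟩ := ha
  obtain rfl : m0 = m := by omega
  rcases h with ⟨rfl, rfl, h, rfl⟩ | ⟨h, h', rfl⟩
  · refine ⟨s, (r, m0 + 1), fun _ _ => rfl, fun _ => rfl, ⟨h1, h1, h3, h4, Or.inl ⟨rfl, rfl, h⟩⟩,
      by simp only [pos, List.length_singleton]; omega, by rw [phi_pos (x := (r, m0 + 1)) h4], ?_⟩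
    rw [List.length_singleton, seg_one, pos, Nat.add_assoc, phi_eq _ _ (by simp only; omega)]
  · have e : (r + 1) * (2 * K + 2) = r * (2 * K + 2) + (2 * K + 2) := by ring
    have e1 : Function.update s (r + 1) t' r = s r := Function.update_of_ne (by omega) _ _
    have e2 : Function.update s (r + 1) t' (r + 1) = t' := Function.update_self _ _ _
    have hl : (blk (s r) (2 * m0 + 2) (2 * K - 2 * m0) ++ blk t' 0 (2 * m' + 1)).length =
      (2 * K - 2 * m0) + (2 * m' + 1) := by simp [blk]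
    have hp : pos K (r + 1, m') = pos K (r, m0) + ((2 * K - 2 * m0) + (2 * m' + 1)) + 1 := by
      simp only [pos]; omega
    rw [hl]
    refine ⟨Function.update s (r + 1) t', (r + 1, m'),
      fun i hi => Function.update_of_ne (by simp only at hi; omega) _ _, fun hb => ?_,
      ⟨by rw [e1]; exact h1, by rw [e2]; exact h2, h3, h4, Or.inr ⟨rfl, h, by rw [e1, e2]; exact h'⟩⟩,
      hp, by rw [phi_pos h4, e2], ?_⟩
    · rw [← hp, phi_pos h4] at hb
      simp only [Prod.mk.injEq, and_true] at hb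
      rw [hb, Function.update_eq_self]
    · rw [seg_add]
      have a1 := blk_seg (K := K) (s := Function.update s (r + 1) t') r (2 * m0 + 2)
        (2 * K - 2 * m0) (by omega)
      have a2 := blk_seg (K := K) (s := Function.update s (r + 1) t') (r + 1) 0
        (2 * m' + 1) (by omega)
      rw [e1] at a1
      rw [e2] at a2
      rw [a1, a2]
      simp only [pos]
      congr 2
      omega

theorem good (hK : 8 < K) (hB : 0 < B) : (sys K B DA DD).Good := by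
  refine ⟨?_, ?_, ?_, ?_, ⟨hB, 8, hK, rfl⟩, ?_⟩
  · rintro a b ⟨-, m, h1, h2⟩ ⟨-, m', h3, h4⟩ (h | h) <;> omega
  · rintro ⟨-, m, h1, h2⟩
    simp only [sys] at h2; omega
  · rintro a (h | h) <;> simp only [sys] at h <;> omega
  · rintro a (h | h) <;> simp only [sys] at h <;> omega
  have key : ∀ D a β b, E K B D a β b → (sys K B DA DD).con a ∧ (sys K B DA DD).con b ∧
      (a :: β ++ [b]).IsChain (adj K) ∧
      (∃ f β', β = f :: β' ∧ ¬ (sys K B DA DD).con f ∧ ∀ x, adj K x f → x = a) ∧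
      ∃ β' e, β = β' ++ [e] ∧ ¬ (sys K B DA DD).con e ∧ ∀ x, adj K e x → x = b := by
    intro D a β b h
    have h0 := h
    obtain ⟨t, t', m, m', h1, h2, h3, h4, rfl, rfl, h⟩ := h
    refine ⟨⟨h1, m, h3, rfl⟩, ⟨h2, m', h4, rfl⟩, ?_, ?_, ?_⟩
    · obtain ⟨s', y, e1, -, -, e3, e4, e5⟩ := h0.toGE (fun _ => t) (x := (0, m)) h3
        (by rw [phi_pos (x := (0, m)) h3])
      have := seg_chain (K := K) (s := s') (β.length + 1 + 1) (pos K (0, m))
      rw [seg_snoc, seg_cons, ← e5, phi_pos h3, e1 _ le_rfl,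
        show pos K (0, m) + (β.length + 1) = pos K y by omega, ← e4] at this
      exact this
    · have : ∃ β', β = (t, 2 * m + 2) :: β' := by
        rcases h with ⟨-, -, -, rfl⟩ | ⟨-, -, rfl⟩
        · exact ⟨_, rfl⟩
        · rw [show 2 * K - 2 * m = (2 * K - 2 * m - 1) + 1 by omega, blk, List.range_succ_eq_map]
          exact ⟨_, rfl⟩
      obtain ⟨β', rfl⟩ := this
      refine ⟨_, _, rfl, ?_, ?_⟩
      · rintro ⟨-, j, -, hj⟩
        simp only at hj; omega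
      · rintro ⟨x1, x2⟩ (hx | hx) <;> simp only [Prod.mk.injEq] at hx ⊢ <;> omega
    · have : ∃ β', β = β' ++ [(t', 2 * m')] := by
        rcases h with ⟨rfl, rfl, -, rfl⟩ | ⟨-, -, rfl⟩
        · exact ⟨[], rfl⟩
        · refine ⟨blk t (2 * m + 2) (2 * K - 2 * m) ++ blk t' 0 (2 * m'), ?_⟩
          simp [blk, List.range_succ]
      obtain ⟨β', rfl⟩ := this
      refine ⟨_, _, rfl, ?_, ?_⟩
      · rintro ⟨-, j, -, hj⟩
        simp only at hj; omega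
      · rintro ⟨x1, x2⟩ (hx | hx) <;> simp only [Prod.mk.injEq] at hx ⊢ <;> omega
  rintro a β b (h | h)
  · exact key _ _ _ _ h
  · exact key _ _ _ _ h

theorem Pth.facts {x y : ℕ × ℕ} {n : ℕ} (h : Pth (GE K B D s) x y n) (h1 : s x.1 < B)
    (h2 : x.2 < K) : s y.1 < B ∧ y.2 < K ∧ pos K x ≤ pos K y ∧ x.1 ≤ y.1 := by
  induction h with
  | refl => exact ⟨h1, h2, le_rfl, le_rfl⟩
  | tail _ e ih =>
    obtain ⟨-, -, a3, a4⟩ := ih
    obtain ⟨n, e1, -⟩ := e.toE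
    obtain ⟨-, b1, -, b2, b3⟩ := e
    exact ⟨b1, b2, by omega, by omega⟩

theorem GE.congr {s' : ℕ → ℕ} {x y : ℕ × ℕ} (h : GE K B D s x y) (hs : ∀ i ≤ y.1, s' i = s i) :
    GE K B D s' x y := by
  obtain ⟨b0, b1, b2, b3, b4⟩ := h
  have e1 := hs x.1 (by omega)
  have e2 := hs y.1 le_rfl
  exact ⟨e1 ▸ b0, e2 ▸ b1, b2, b3, by rw [e1, e2]; exact b4⟩

theorem Pth.congr {s' : ℕ → ℕ} {x y : ℕ × ℕ} {n : ℕ} (h : Pth (GE K B D s) x y n)
    (hs : ∀ i ≤ y.1, s' i = s i) : Pth (GE K B D s') x y n := by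
  induction h with
  | refl => exact Pth.refl _
  | tail _ e ih =>
    refine (ih fun i hi => hs i ?_).tail (e.congr hs)
    obtain ⟨-, -, -, -, b4⟩ := e
    omega

theorem pos_lt {y : ℕ × ℕ} (h : y.2 < K) : pos K y + 1 ≤ (y.1 + 1) * (2 * K + 2) := by
  simp only [pos]; rw [Nat.add_mul]; omega

def Mis (K B : ℕ) (DA : ℕ → ℕ → ℕ → ℕ → Prop) (M : List (ℕ × ℕ)) (b : ℕ × ℕ) (n : ℕ) : Prop :=
  ∃ s x y, Pth (GE K B DA s) x y n ∧ s x.1 < B ∧ x.2 < K ∧ x.2 / 3 ≠ 3 ∧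
    b = phi K s (pos K y) ∧ M = seg K s (pos K x) (pos K y + 1 - pos K x)

theorem plan {k : ℕ} (hK : 8 < K) (hB : 0 < B) (hk : 0 < k)
    (H1 : ∀ s x y n, Pth (GE K B DA s) x y n → x.2 / 3 ≠ 3 → Pth (GE K B DD s) x y n)
    (H2 : ∀ σ t t' m, DD σ t t' m → m / 3 ≠ 3 → DA σ t t' m ∧ σ ≠ 3)
    (H3 : ∀ s x y, Pth (GE K B DA s) x y (k + 1) → x.2 / 3 ≠ 3 →
      ∃ x', GE K B DD s x x' ∧ x'.2 / 3 ≠ 3 ∧ Pth (GE K B DA s) x' y k) :
    (sys K B DA DD).Plan (Mis K B DA) k := by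
  have base : ∀ t m, t < B → m < K → m / 3 ≠ 3 → Mis K B DA [(t, 2 * m + 1)] (t, 2 * m + 1) 0 :=
    fun t m h1 h2 h3 => ⟨fun _ => t, (0, m), (0, m), Pth.refl _, h1, h2, h3,
      by rw [phi_pos (x := (0, m)) h2], by
      rw [Nat.add_sub_cancel_left, seg_one, phi_pos (x := (0, m)) h2]⟩
  refine ⟨hk, base 0 8 hB hK (by omega), ?_, ?_, ?_, ?_, ?_, ?_⟩
  · rintro M b n ⟨s, x, y, p, h1, h2, h3, rfl, rfl⟩
    obtain ⟨a1, a2, -⟩ := p.facts h1 h2
    rw [phi_pos a2]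
    exact ⟨a1, _, a2, rfl⟩
  · rintro M b n β b' ⟨s, x, y, p, h1, h2, h3, rfl, rfl⟩ e
    obtain ⟨a1, a2, a3, a4⟩ := p.facts h1 h2
    obtain ⟨s', z, e1, -, e2, e3, e4, e5⟩ := E.toGE e s a2 rfl
    refine ⟨s', x, z, (p.congr e1).tail e2, by rw [e1 _ a4]; exact h1, h2, h3, e4, ?_⟩
    have := pos_lt a2
    rw [seg_edge a3 e3, ← e5, ← e4, seg_congr e1 (by omega)]
  · rintro M b n ⟨s, x, y, p, h1, h2, h3, rfl, rfl⟩
    have p' := H1 s x y n p h3
    clear p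
    induction p' with
    | refl => exact ⟨[], by simp, rfl, by rw [Nat.add_sub_cancel_left, seg_one]; rfl⟩
    | @tail y z n' p e ih =>
      obtain ⟨us, a1, a2, a3⟩ := ih
      obtain ⟨j, e1, e2⟩ := e.toE
      refine ⟨us ++ [phi K s (pos K y) :: seg K s (pos K y + 1) j], fun u hu => ?_, by simp [a2], ?_⟩
      · rcases List.mem_append.1 hu with hu | hu
        · exact a1 u hu
        · rw [List.mem_singleton.1 hu]
          exact Or.inr (Or.inr ⟨_, _, _, e2, rfl⟩)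
      · rw [seg_edge (p.facts h1 h2).2.2.1 e1, a3]; simp
  · rintro M b ⟨s, x, y, p, h1, h2, h3, rfl, rfl⟩
    obtain ⟨x', e, a1, p'⟩ := H3 s x y p h3
    obtain ⟨j, e1, e2⟩ := e.toE
    exact ⟨_, _, Or.inr (Or.inr ⟨_, _, _, e2, rfl⟩),
      seg_head (p'.facts e.2.1 e.2.2.2.1).2.2.1 e1,
      ⟨s, x', y, p', e.2.1, e.2.2.2.1, a1, rfl, rfl⟩⟩
  · rintro M b ⟨s, x, y, p, h1, h2, h3, rfl, rfl⟩
    cases p.zero
    refine ⟨by rw [Nat.add_sub_cancel_left, seg_one], ?_⟩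
    rintro a β ⟨t, t', m, m', a1, a2, a3, a4, rfl, a5, h⟩
    have a6 := a5
    rw [phi_pos h2] at a6
    simp only [Prod.mk.injEq] at a6
    obtain rfl : m' = x.2 := by omega
    rcases h with h | h
    · exact ⟨⟨t, t', m, _, a1, a2, a3, a4, rfl, a5, Or.inl h⟩, base _ _ a1 a3 (by omega)⟩
    · obtain ⟨b1, b2⟩ := H2 _ _ _ _ h.2.1 h3
      exact ⟨⟨t, t', m, _, a1, a2, a3, a4, rfl, a5, Or.inr ⟨h.1, b1, h.2.2⟩⟩, base _ _ a1 a3 b2⟩
  · rintro M b n ⟨s, x, y, p, h1, h2, h3, rfl, rfl⟩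
    cases p with
    | tail p e =>
      obtain ⟨j, e1, e2⟩ := e.toE
      exact ⟨_, _, _, e2, seg_edge (p.facts h1 h2).2.2.1 e1, s, x, _, p, h1, h2, h3, rfl, rfl⟩

variable {Z : List (ℕ × ℕ) → Prop}

def St (K : ℕ) (Z : List (ℕ × ℕ) → Prop) (s : ℕ → ℕ) (i : ℕ) (x y : ℕ × ℕ) : Prop :=
  pos K x ≤ pos K y ∧ y.2 < K ∧
    Z (List.replicate i (0, 2 * K + 2) ++ seg K s (pos K x) (pos K y + 1 - pos K x))

theorem St.congr {s' : ℕ → ℕ} {i : ℕ} {x y : ℕ × ℕ} (h : St K Z s i x y)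
    (hs : ∀ i ≤ y.1, s' i = s i) : St K Z s' i x y := by
  have := pos_lt h.2.1
  have := h.1
  exact ⟨h.1, h.2.1, by rw [seg_congr hs (by omega)]; exact h.2.2⟩

theorem St.le {i : ℕ} {x y : ℕ × ℕ} (h : St K Z s i x y) : x.1 ≤ y.1 := by
  have h1 := pos_lt h.2.1
  have h2 := h.1
  have : x.1 * (2 * K + 2) < (y.1 + 1) * (2 * K + 2) := by simp only [pos] at h1 h2 ⊢; omega
  exact Nat.le_of_lt_succ (Nat.lt_of_mul_lt_mul_right this)

theorem st_init (hK : 8 < K) (hB : 0 < B) (H : (sys K B DA DD).Sol Z) (hz : ∃ z, Z z)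
    (h0 : s 0 = 0) : ∃ j, St K Z s j (0, 8) (0, 8) := by
  have G := good (DA := DA) (DD := DD) hK hB
  obtain ⟨z, hz⟩ := hz
  obtain ⟨j, hj⟩ := G.flush H _ z 0 le_rfl (by simpa using hz)
  obtain ⟨x, z', a1, a2, a3⟩ := H.app hj (Or.inr rfl)
  have := G.forced_h (i := j) (u := []) (by simp) a1 (by rw [← a3, List.replicate_succ']; simp)
  refine ⟨j, le_rfl, hK, ?_⟩
  rw [Nat.add_sub_cancel_left, seg_one, phi_pos hK, h0]
  rw [this] at a2
  exact a2

theorem St.step_h (hK : 8 < K) (hB : 0 < B) (H : (sys K B DA DD).Sol Z) (h0 : s 0 = 0) {i : ℕ}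
    {y y' : ℕ × ℕ} (h : St K Z s (i + 1) (0, 8) y) (e : GE K B DA s y y') :
    St K Z s i (0, 8) y' := by
  have G := good (DA := DA) (DD := DD) hK hB
  obtain ⟨j, e1, e2⟩ := e.toE
  obtain ⟨x, z', a1, a2, a3⟩ := H.app h.2.2 (Or.inl (Or.inl (Or.inr (Or.inl ⟨_, _, _, e2, rfl⟩))))
  have hle := h.1
  rw [List.append_assoc, ← List.append_assoc (seg ..), ← seg_edge hle e1] at a3
  have hc := seg_chain (K := K) (s := s) (pos K y' + 1 - pos K (0, 8)) (pos K (0, 8))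
  refine ⟨by omega, e.2.2.2.1, ?_⟩
  rw [show pos K y' + 1 - pos K (0, 8) = (pos K y' - pos K (0, 8)) + 1 by omega, seg_cons,
    phi_pos hK, h0] at a3 hc ⊢
  rw [G.forced_h hc a1 a3] at a2
  exact a2

theorem St.step (hK : 8 < K) (hB : 0 < B) (H : (sys K B DA DD).Sol Z) {x y y' : ℕ × ℕ}
    (h : St K Z s 0 x y) (hx : x.2 < K) (hs : s x.1 < B) (e : GE K B DA s y y') :
    ∃ x', GE K B DD s x x' ∧ St K Z s 0 x' y' := by
  have G := good (DA := DA) (DD := DD) hK hB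
  obtain ⟨j, e1, e2⟩ := e.toE
  obtain ⟨u, z', a1, a2, a3⟩ := H.app h.2.2 (Or.inl (Or.inl (Or.inr (Or.inl ⟨_, _, _, e2, rfl⟩))))
  have hle := h.1
  rw [List.replicate_zero, List.nil_append, ← List.append_assoc (seg ..)] at a3
  have a4 := seg_edge (K := K) (s := s) hle e1
  rw [← a4] at a3
  have a5 := a3
  have hc := seg_chain (K := K) (s := s) (pos K y' + 1 - pos K x) (pos K x)
  rw [show pos K y' + 1 - pos K x = (pos K y' - pos K x) + 1 by omega, seg_cons] at a3 hc a4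
  obtain ⟨β, b, z'', b1, rfl, rfl⟩ := G.forced_v (by rw [phi_pos hx]; exact ⟨hs, _, hx, rfl⟩)
    (G.edge _ _ _ (Or.inl e2)).2.1 hc a4 a1 a3
  obtain ⟨c1, c2⟩ := seg_split a5
  have c3 := congrArg List.length c2
  simp only [List.length_cons, seg_len] at c1 c2 c3
  obtain ⟨s', x', -, d1, d2, d3, -⟩ := E.toGE b1 s hx rfl
  have c4 := c2
  rw [← c3, seg_cons] at c4
  obtain rfl := d1 (List.cons.inj c4).1
  refine ⟨x', d2, by omega, e.2.2.2.1, ?_⟩
  rw [c2] at a2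
  rw [List.replicate_zero, List.nil_append, d3, show pos K y' + 1 - (pos K x + β.length + 1) =
    pos K y' + 1 - pos K x - (β.length + 1) by omega]
  exact a2

end Pool.Agent.H32.Conj
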