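import Pool.Agent.H32.ConjB
import Pool.Agent.H77.TrsA

/-! The automaton checking traces of a register machine; the halting case. -/

namespace Pool.Agent.H32.Conj

open Pool.Agent.H77.Trs Function

structure Mc where
  kd : ℕ → ℕ
  rg : ℕ → ℕ
  nx : ℕ → ℕ → Bool
  st : ℕ

namespace Mc

variable (M : Mc)

def vl (f : ℕ → ℕ) : ℕ → ℕ → ℕ
  | 0 => fun _ => 0
  | y + 1 => update (vl f y) (M.rg (f y)) (nw (M.kd (f y)) (vl f y (M.rg (f y))))

def ok (f : ℕ → ℕ) (y : ℕ) : Prop := cond (M.kd (f y)) (M.vl f y (M.rg (f y)))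

def cons (t t' : ℕ) : Prop := t' < 2 ∨ (t < 2 ∧ t' = M.st) ∨ (2 ≤ t ∧ M.nx t t' = true)

def lev (σ t : ℕ) : ℕ :=
  if M.rg t = (σ - 4) / 2 then
    (if M.kd t = 0 then 2 - 2 * (σ % 2) else if M.kd t = 1 then 2 * (σ % 2) else 1) else 1

def Dc (σ t m : ℕ) : Prop :=
  (t < 2 ∧ σ ≤ 2 ∧ (σ = 2 ∨ σ = t) ∧ m % 3 = 1 ∧ m / 3 ≠ 2 ∧ m / 3 ≠ 3) ∨
  (2 ≤ t ∧ σ ≤ 2 ∧ m = 3 * σ + 1) ∨
  (2 ≤ t ∧ 4 ≤ σ ∧ ((3 * σ + M.lev σ t ≤ m ∧ m ≤ 3 * σ + 2) ∨
    (M.rg t = (σ - 4) / 2 ∧ M.kd t = 1 + σ % 2 ∧ m = 7 + σ % 2)))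

def DA (σ t t' m : ℕ) : Prop :=
  M.Dc σ t' m ∨ (m = 10 ∧ (σ = 2 ∨ (σ < 2 ∧ σ = t') ∨ (σ = 3 ∧ M.cons t t')))

def DD (σ _t t' m : ℕ) : Prop := M.Dc σ t' m ∨ (m = 10 ∧ σ ≤ 2)

variable {M}

theorem lev_le (σ t : ℕ) : M.lev σ t ≤ 2 := by
  unfold lev; split_ifs <;> omega

theorem lev_val {f : ℕ → ℕ} {y : ℕ} (h : M.ok f y) (σ : ℕ) :
    (σ % 2 = 0 → M.lev σ (f y) + M.vl f y ((σ - 4) / 2) = 1 + M.vl f (y + 1) ((σ - 4) / 2)) ∧
    (σ % 2 = 1 → M.lev σ (f y) + M.vl f (y + 1) ((σ - 4) / 2) = 1 + M.vl f y ((σ - 4) / 2)) := by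
  obtain ⟨h1, -⟩ := h
  unfold lev
  simp only [vl]
  by_cases hc : M.rg (f y) = (σ - 4) / 2
  · rw [← hc, update_self, if_pos rfl]
    unfold nw
    split_ifs with a b
    · omega
    · have := h1 b; omega
    · omega
  · rw [update_of_ne (Ne.symm hc), if_neg hc]; omega

theorem vl_le (f : ℕ → ℕ) (y c : ℕ) : M.vl f y c ≤ y := by
  induction y generalizing c with
  | zero => simp [vl]
  | succ y ih =>
    have := ih c
    simp only [vl]
    by_cases hc : c = M.rg (f y)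
    · rw [← hc, update_self]; unfold nw; split_ifs <;> omega
    · rw [update_of_ne hc]; omega

theorem Dc.ne {σ t m : ℕ} (h : M.Dc σ t m) : m / 3 ≠ 3 ∧ σ ≠ 3 := by
  have := lev_le (M := M) σ t
  rcases h with h | h | ⟨h1, h2, h | h⟩ <;> omega

end Mc

variable {K B : ℕ} {D : ℕ → ℕ → ℕ → ℕ → Prop} {s : ℕ → ℕ} {M : Mc}

theorem ge_short {r m : ℕ} (h1 : s r < B) (h2 : m + 1 < K) (h3 : m % 3 ≠ 2) :
    GE K B D s (r, m) (r, m + 1) := ⟨h1, h1, by omega, h2, Or.inl ⟨rfl, rfl, h3⟩⟩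

theorem ge_cross {r σ m : ℕ} (h1 : s r < B) (h2 : s (r + 1) < B) (h3 : 3 * σ + 2 < K) (h4 : m < K)
    (h : D σ (s r) (s (r + 1)) m) : GE K B D s (r, 3 * σ + 2) (r + 1, m) :=
  ⟨h1, h2, h3, h4, Or.inr ⟨rfl, by simp only; omega, by
    simp only; rw [show (3 * σ + 2) / 3 = σ by omega]; exact h⟩⟩

theorem up {r σ i : ℕ} (h1 : s r < B) (h2 : 3 * σ + 2 < K) (h3 : i ≤ 2) :
    Pth (GE K B D s) (r, 3 * σ + i) (r, 3 * σ + 2) (2 - i) := by
  have a1 : GE K B D s (r, 3 * σ + 0) (r, 3 * σ + 1) := ge_short h1 (by omega) (by omega)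
  have a2 : GE K B D s (r, 3 * σ + 1) (r, 3 * σ + 2) := ge_short h1 (by omega) (by omega)
  interval_cases i
  · exact (Pth.one a1).tail a2
  · exact Pth.one a2
  · exact Pth.refl _

theorem big {r σ σ' i : ℕ} (h1 : s r < B) (h2 : s (r + 1) < B) (h3 : 3 * σ + 2 < K)
    (h4 : 3 * σ' + 2 < K) (h5 : i ≤ 2) (h : D σ (s r) (s (r + 1)) (3 * σ' + i)) :
    Pth (GE K B D s) (r, 3 * σ + 2) (r + 1, 3 * σ' + 2) (3 - i) :=
  (Pth.head (ge_cross h1 h2 h3 (by omega) h) (up h2 h4 h5)).of_eq (by omega)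

theorem upath {x y : ℕ × ℕ} {n : ℕ} (p : Pth (GE K B M.DA s) x y n) (hx : x.2 = 10 ∨ x.2 = 11)
    (hs : s x.1 < B) : (y.2 = 10 ∨ y.2 = 11) ∧ 2 * y.1 + y.2 = 2 * x.1 + x.2 + n ∧ x.1 ≤ y.1 ∧
      (∀ i, x.1 ≤ i → i ≤ y.1 → s i < B) ∧ ∀ i, x.1 ≤ i → i < y.1 → M.cons (s i) (s (i + 1)) := by
  induction p with
  | refl => exact ⟨hx, rfl, le_rfl, fun i a b => by rw [le_antisymm b a]; exact hs,
      fun i a b => by omega⟩
  | @tail y z n _ e ih =>
    obtain ⟨a1, a2, a3, a4, a5⟩ := ih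
    obtain ⟨-, b1, -, -, b | ⟨b2, b3, b4⟩⟩ := e
    · exact ⟨by omega, by omega, by omega, fun i a c => a4 i a (by omega),
        fun i a c => a5 i a (by omega)⟩
    · rw [show y.2 / 3 = 3 by omega] at b4
      rcases b4 with b4 | ⟨b4, b5 | b5 | ⟨-, b5⟩⟩
      · exact absurd rfl b4.ne.2
      · omega
      · omega
      refine ⟨by omega, by omega, by omega, fun i a c => ?_, fun i a c => ?_⟩
      · by_cases h : i = z.1
        · rw [h]; exact b1
        · exact a4 i a (by omega)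
      · by_cases h : i = y.1
        · rw [h, ← b2]; exact b5
        · exact a5 i a (by omega)

theorem usub (hK : 11 < K) {y : ℕ × ℕ} (hy : y.2 = 10 ∨ y.2 = 11) : ∀ d q, q + d = y.1 →
    (∀ i, q ≤ i → i ≤ y.1 → s i < B) → (∀ i, q ≤ i → i < y.1 → M.cons (s i) (s (i + 1))) →
    Pth (GE K B M.DA s) (q, 10) y (2 * d + (y.2 - 10)) := by
  obtain ⟨l, m⟩ := y
  intro d
  induction d with
  | zero =>
    rintro q rfl h1 -
    rcases hy with rfl | rfl
    · exact Pth.refl _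
    · exact Pth.one (ge_short (h1 _ le_rfl le_rfl) hK (by omega))
  | succ d ih =>
    intro q hq h1 h2
    simp only at hq h1 h2
    have a1 := h1 q le_rfl (by omega)
    refine (Pth.head (ge_short a1 hK (by omega)) (Pth.head (ge_cross (σ := 3) a1
      (h1 _ (by omega) (by omega)) hK (by omega) (Or.inr ⟨rfl, Or.inr (Or.inr
        ⟨rfl, h2 q le_rfl (by omega)⟩)⟩)) (ih (q + 1) (by simp only; omega)
          (fun i a b => h1 i (by omega) b) fun i a b => h2 i (by omega) b))).of_eq (by omega)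

theorem land (hK : 11 < K) : ∀ d r, (∀ i, r ≤ i → i ≤ r + d + 1 → s i < B) →
    ∃ e < 2, ∀ σ, σ = e ∨ σ = 2 ∨ (σ < 2 ∧ σ = s (r + 1)) →
      Pth (GE K B M.DD s) (r, 3 * σ + 2) (r + d + 1, 10) (2 * d + 1) := by
  intro d
  induction d with
  | zero =>
    intro r h
    exact ⟨0, by omega, fun σ hσ => Pth.one (ge_cross (h _ le_rfl (by omega))
      (h _ (by omega) le_rfl) (by omega) (by omega) (Or.inr ⟨rfl, by omega⟩))⟩
  | succ d ih =>
    intro r h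
    obtain ⟨e, he, ih⟩ := ih (r + 1) fun i a b => h i (by omega) (by omega)
    have a1 := h r le_rfl (by omega)
    have a2 := h (r + 1) (by omega) (by omega)
    rw [show r + (d + 1) + 1 = r + 1 + d + 1 by omega]
    by_cases hs : s (r + 1) < 2
    · refine ⟨s (r + 1), hs, fun σ hσ => ((big (σ' := e) (i := 1) a1 a2 (by omega) (by omega)
        (by omega) (Or.inl (Or.inl ⟨hs, by omega, by omega, by omega, by omega, by omega⟩))).trans
          (ih e (Or.inl rfl))).of_eq (by omega)⟩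
    · refine ⟨e, he, fun σ hσ => ((big (σ' := σ) (i := 1) a1 a2 (by omega) (by omega)
        (by omega) (Or.inl (Or.inr (Or.inl ⟨by omega, by omega, rfl⟩)))).trans
          (ih σ (by omega))).of_eq (by omega)⟩

theorem GE.toD {x y : ℕ × ℕ} (e : GE K B M.DA s x y) (hy : y.2 / 3 ≠ 3) : GE K B M.DD s x y := by
  obtain ⟨a1, a2, a3, a4, a | ⟨a5, a6, a | a⟩⟩ := e
  · exact ⟨a1, a2, a3, a4, Or.inl a⟩
  · exact ⟨a1, a2, a3, a4, Or.inr ⟨a5, a6, Or.inl a⟩⟩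
  · omega

theorem GE.toU {x y : ℕ × ℕ} (e : GE K B M.DA s x y) (hx : x.2 / 3 ≠ 3) (hy : y.2 / 3 = 3) :
    ∃ r σ, x = (r, 3 * σ + 2) ∧ y = (r + 1, 10) ∧ (σ = 2 ∨ (σ < 2 ∧ σ = s (r + 1))) := by
  obtain ⟨r, m⟩ := x
  obtain ⟨r', m'⟩ := y
  obtain ⟨a1, a2, a3, a4, a | ⟨a5, a6, a | ⟨a, a7⟩⟩⟩ := e
  · simp only at *; omega
  · exact absurd hy a.ne.1
  · simp only at *
    subst a5 a
    exact ⟨r, m / 3, by rw [Prod.mk.injEq]; omega, rfl, by omega⟩

theorem H1 (hK : 11 < K) : ∀ (n : ℕ) (x y : ℕ × ℕ), Pth (GE K B M.DA s) x y n → x.2 / 3 ≠ 3 →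
    Pth (GE K B M.DD s) x y n := by
  intro n
  induction n with
  | zero => intro x y p _; cases p.zero; exact Pth.refl _
  | succ n ih =>
    intro x y p hx
    obtain ⟨x1, e, p⟩ := p.cases_head
    by_cases h1 : x1.2 / 3 = 3
    · obtain ⟨r, σ, rfl, rfl, hσ⟩ := e.toU hx h1
      obtain ⟨a1, a2, a3, a4, -⟩ := upath p (Or.inl rfl) e.2.1
      obtain ⟨l, m⟩ := y
      simp only at a1 a2 a3 a4
      obtain ⟨d, rfl⟩ : ∃ d, l = r + d + 1 := ⟨l - r - 1, by omega⟩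
      obtain ⟨e', -, hl⟩ := land (M := M) (s := s) (B := B) hK d r fun i a b => by
        by_cases h : i = r
        · rw [h]; exact e.1
        · exact a4 i (by omega) b
      rcases a1 with rfl | rfl
      · exact (hl σ (Or.inr hσ)).of_eq (by omega)
      · exact ((hl σ (Or.inr hσ)).tail (ge_short (a4 _ a3 le_rfl) hK (by omega))).of_eq (by omega)
    · exact Pth.head (e.toD h1) (ih _ _ p h1)

theorem nrun {σ : ℕ} (hK : 11 < K) (hσ : σ ≤ 2) (a : ℕ) : ∀ d,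
    (∀ i, a ≤ i → i ≤ a + d → s i < B) → (∀ i, a < i → i ≤ a + d → 2 ≤ s i) →
    Pth (GE K B M.DA s) (a, 3 * σ + 2) (a + d, 3 * σ + 2) (2 * d) := by
  intro d
  induction d with
  | zero => intro _ _; exact Pth.refl _
  | succ d ih =>
    intro h1 h2
    exact ((ih (fun i a b => h1 i a (by omega)) fun i a b => h2 i a (by omega)).trans
      (big (i := 1) (h1 _ (by omega) (by omega)) (h1 _ (by omega) le_rfl) (by omega) (by omega)
        (by omega) (Or.inl (Or.inr (Or.inl ⟨h2 _ (by omega) le_rfl, hσ, rfl⟩))))).of_eq (by omega)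

theorem crun {σ : ℕ} (hK : 3 * σ + 2 < K) (hσ : 4 ≤ σ) (a : ℕ) : ∀ d,
    (∀ i, a ≤ i → i ≤ a + d → s i < B) → (∀ i, a < i → i ≤ a + d → 2 ≤ s i) →
    (∀ y < d, M.ok (fun y => s (a + y + 1)) y) → ∀ n,
      (σ % 2 = 0 → n + M.vl (fun y => s (a + y + 1)) d ((σ - 4) / 2) = 2 * d) →
      (σ % 2 = 1 → 2 * d ≤ n ∧ n ≤ 2 * d + M.vl (fun y => s (a + y + 1)) d ((σ - 4) / 2)) →
      Pth (GE K B M.DA s) (a, 3 * σ + 2) (a + d, 3 * σ + 2) n := by
  intro d
  induction d with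
  | zero =>
    intro _ _ _ n a1 a2
    simp only [Mc.vl] at a1 a2
    exact (Pth.refl _).of_eq (by omega)
  | succ d ih =>
    intro h1 h2 h3 n a1 a2
    obtain ⟨b1, b2⟩ := Mc.lev_val (h3 d (by omega)) σ
    have b3 := Mc.lev_le (M := M) σ (s (a + d + 1))
    have b4 := Mc.vl_le (M := M) (fun y => s (a + y + 1)) d ((σ - 4) / 2)
    obtain ⟨i, i1, i2, i3, i4, i5⟩ : ∃ i, M.lev σ (s (a + d + 1)) ≤ i ∧ i ≤ 2 ∧ 3 - i ≤ n ∧
        (σ % 2 = 0 → n - (3 - i) + M.vl (fun y => s (a + y + 1)) d ((σ - 4) / 2) = 2 * d) ∧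
        (σ % 2 = 1 → 2 * d ≤ n - (3 - i) ∧
          n - (3 - i) ≤ 2 * d + M.vl (fun y => s (a + y + 1)) d ((σ - 4) / 2)) := by
      by_cases h : σ % 2 = 1 ∧ n = 2 * (d + 1) ∧ M.lev σ (s (a + d + 1)) = 0
      · exact ⟨1, by omega, by omega, by omega, by omega, by omega⟩
      · exact ⟨_, le_rfl, b3, by omega, by omega, by omega⟩
    exact ((ih (fun i a b => h1 i a (by omega)) (fun i a b => h2 i a (by omega))
      (fun y hy => h3 y (by omega)) _ i4 i5).trans (big (i := i) (h1 _ (by omega) (by omega))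
      (h1 _ (by omega) le_rfl) hK hK i2 (Or.inl (Or.inr (Or.inr
        ⟨h2 _ (by omega) le_rfl, hσ, Or.inl ⟨by omega, by omega⟩⟩))))).of_eq (by omega)

theorem H3 {T : ℕ} (hK : ∀ t, 3 * (5 + 2 * M.rg t) + 2 < K)
    (hT : ∀ f : ℕ → ℕ, f 0 = M.st → (∀ y, y + 1 < T → M.nx (f y) (f (y + 1)) = true) →
      ∃ y < T, ¬ M.ok f y) {x y : ℕ × ℕ} {n : ℕ} (p : Pth (GE K B M.DA s) x y (n + 1))
    (hx : x.2 / 3 ≠ 3) (hn : 2 * T + 8 ≤ n) : ∃ x', GE K B M.DD s x x' ∧ x'.2 / 3 ≠ 3 ∧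
      Pth (GE K B M.DA s) x' y n := by
  have hK1 : 17 < K := by have := hK 0; omega
  obtain ⟨x1, e, p⟩ := p.cases_head
  by_cases h1 : x1.2 / 3 = 3
  swap
  · exact ⟨x1, e.toD h1, h1, p⟩
  obtain ⟨r, σ, rfl, rfl, hσ⟩ := e.toU hx h1
  obtain ⟨a1, a2, a3, a4, a5⟩ := upath p (Or.inl rfl) e.2.1
  simp only at a2 a3 a4 a5
  have b0 : s r < B := e.1
  have b1 : s (r + 1) < B := e.2.1
  have us : ∀ q, r + 1 ≤ q → q ≤ y.1 →
      Pth (GE K B M.DA s) (q, 10) y (2 * (y.1 - q) + (y.2 - 10)) := fun q c1 c2 =>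
    usub (by omega) a1 _ q (by omega) (fun i a b => a4 i (by omega) b)
      fun i a b => a5 i (by omega) b
  have fu : ∀ q, r + 1 ≤ q → q + 1 ≤ y.1 →
      Pth (GE K B M.DA s) (q, 3 * 2 + 2) y (2 * (y.1 - (q + 1)) + (y.2 - 10) + 1) := fun q c1 c2 =>
    Pth.head (ge_cross (a4 _ c1 (by omega)) (a4 _ (by omega) c2) (by omega) (by omega)
      (Or.inr ⟨rfl, Or.inl rfl⟩)) (us _ (by omega) c2)
  by_cases hs : s (r + 1) < 2
  swap
  · obtain rfl : σ = 2 := by omega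
    exact ⟨(r + 1, 3 * 2 + 1), ge_cross b0 b1 (by omega) (by omega)
      (Or.inl (Or.inr (Or.inl ⟨by omega, le_rfl, rfl⟩))), by simp,
      (Pth.head (ge_short b1 (by omega) (by omega)) (fu _ le_rfl (by omega))).of_eq (by omega)⟩
  have mode : ∀ σ', 3 * σ' + 2 < K → σ' ≠ 2 → σ' ≠ 3 →
      GE K B M.DD s (r, 3 * σ + 2) (r + 1, 3 * σ' + 1) := fun σ' c1 c2 c3 =>
    ge_cross b0 b1 (by omega) (by omega)
      (Or.inl (Or.inl ⟨hs, by omega, by omega, by omega, by omega, by omega⟩))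
  by_cases hq : ∃ d, d ≤ T ∧ s (r + 1 + d + 1) < 2
  · classical
    obtain ⟨c1, c2⟩ := Nat.find_spec hq
    have c3 := fun d => Nat.find_min hq (m := d)
    generalize Nat.find hq = d at c1 c2 c3
    refine ⟨(r + 1, 3 * s (r + 1 + d + 1) + 1), mode _ (by omega) (by omega) (by omega),
      by simp only; omega, (Pth.head (ge_short b1 (by omega) (by omega))
        ((nrun (σ := s (r + 1 + d + 1)) (by omega) (by omega) (r + 1) d
          (fun i a b => a4 i a (by omega)) fun i a b => ?_).trans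
          (Pth.head (ge_cross (a4 _ (by omega) (by omega)) (a4 _ (by omega) (by omega)) (by omega)
            (by omega) (Or.inr ⟨rfl, Or.inr (Or.inl ⟨c2, rfl⟩)⟩))
            (us _ (by omega) (by omega))))).of_eq (by omega)⟩
    have := c3 (i - r - 2) (by omega)
    rw [show r + 1 + (i - r - 2) + 1 = i by omega] at this
    omega
  have c0 : ∀ i, r + 1 < i → i ≤ r + 1 + T + 1 → 2 ≤ s i := fun i a b => by
    by_contra h
    exact hq ⟨i - r - 2, by omega, by rw [show r + 1 + (i - r - 2) + 1 = i by omega]; omega⟩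
  have hf := hT (fun y => s (r + 1 + y + 1)) (by
    have := c0 (r + 1 + 1) (by omega) (by omega)
    rcases a5 (r + 1) le_rfl (by omega) with h | h | h
    · omega
    · exact h.2
    · omega) fun j hj => by
      have := c0 (r + 1 + j + 1) (by omega) (by omega)
      have := c0 (r + 1 + j + 1 + 1) (by omega) (by omega)
      rcases a5 (r + 1 + j + 1) (by omega) (by omega) with h | h | h
      · omega
      · omega
      · exact h.2
  classical
  obtain ⟨c1, c2⟩ := Nat.find_spec hf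
  have c3 := fun d => Nat.find_min hf (m := d)
  generalize Nat.find hf = d at c1 c2 c3
  have hc := hK (s (r + 1 + d + 1))
  have key : ∀ b ≤ 1, M.kd (s (r + 1 + d + 1)) = 1 + b →
      (b = 0 → M.vl (fun y => s (r + 1 + y + 1)) d (M.rg (s (r + 1 + d + 1))) = 0) →
      (b = 1 → M.vl (fun y => s (r + 1 + y + 1)) d (M.rg (s (r + 1 + d + 1))) ≠ 0) →
      ∃ x', GE K B M.DD s (r, 3 * σ + 2) x' ∧ x'.2 / 3 ≠ 3 ∧
      Pth (GE K B M.DA s) x' y n := by
    intro b hb e1 e2 e3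
    obtain ⟨σ', hσ'⟩ : ∃ σ', σ' = 4 + 2 * M.rg (s (r + 1 + d + 1)) + b := ⟨_, rfl⟩
    have p0 := crun (M := M) (s := s) (B := B) (K := K) (σ := σ') (by omega)
      (by omega) (r + 1) d (fun i a b => a4 i a (by omega)) (fun i a b => c0 i a (by omega))
      (fun j hj => by
        by_contra h
        exact c3 j hj ⟨by omega, h⟩) (2 * d + b)
    rw [show (σ' - 4) / 2 = M.rg (s (r + 1 + d + 1)) by omega] at p0
    exact ⟨(r + 1, 3 * σ' + 1), mode _ (by omega) (by omega) (by omega),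
      by simp only; omega, (Pth.head (ge_short b1 (by omega) (by omega))
      (((p0 (by omega) (by omega)).trans
        (big (σ' := 2) (i := 1 + b) (a4 _ (by omega) (by omega)) (a4 _ (by omega) (by omega))
          (by omega) (by omega) (by omega) (Or.inl (Or.inr (Or.inr ⟨c0 _ (by omega) (by omega),
            by omega, Or.inr ⟨by omega, by omega, by omega⟩⟩))))).trans
        (fu _ (by omega) (by omega)))).of_eq (by omega)⟩
  simp only [Mc.ok, H77.Trs.cond, not_and_or, Classical.not_imp, not_not] at c2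
  rcases c2 with ⟨c2, c4⟩ | ⟨c2, c4⟩
  · exact key 0 (by omega) c2 (fun _ => c4) (by omega)
  · exact key 1 le_rfl c2 (by omega) fun _ => c4

theorem halt_sol {T : ℕ} (hB : 0 < B) (hK : ∀ t, 3 * (5 + 2 * M.rg t) + 2 < K)
    (hT : ∀ f : ℕ → ℕ, f 0 = M.st → (∀ y, y + 1 < T → M.nx (f y) (f (y + 1)) = true) →
      ∃ y < T, ¬ M.ok f y) : ∃ k Z, (∃ z, Z z) ∧ (sys K B M.DA M.DD).Sol Z ∧
      ∀ l, (∀ w, (sys K B M.DA M.DD).Y w → w.length ≤ l) → ∀ z, Z z → z.length ≤ k * l + 1 := by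
  have hK1 : 17 < K := by have := hK 0; omega
  refine ⟨_, (good (by omega) hB).sol (plan (k := 2 * T + 8) (by omega) hB (by omega)
    (fun s x y n p hx => H1 (by omega) n x y p hx) ?_
    fun s x y p hx => H3 hK hT p hx le_rfl)⟩
  rintro σ t t' m (h | h) hm
  · exact ⟨Or.inl h, h.ne.2⟩
  · omega

end Pool.Agent.H32.Conj
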