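import Pool.Agent.H32.ConjC

/-! The case of a machine that runs forever. -/

namespace Pool.Agent.H32.Conj

open Pool.Agent.H77.Trs Function

variable {K B : ℕ} {M : Mc} {f : ℕ → ℕ} {Z : List (ℕ × ℕ) → Prop}

def Run (M : Mc) (B : ℕ) (f : ℕ → ℕ) : Prop :=
  f 0 = M.st ∧ ∀ y, 2 ≤ f y ∧ f y < B ∧ M.nx (f y) (f (y + 1)) = true ∧ M.ok f y

def Fut (B : ℕ) (f s : ℕ → ℕ) (q : ℕ) : Prop :=
  (∀ i, s i < B) ∧ s q < 2 ∧ ∀ y, s (q + y + 1) = f y

def Att (q : ℕ) (y : ℕ × ℕ) : Prop := q ≤ y.1 + 1 ∧ (y.2 = 8 ∨ y.2 = 10 ∨ y.2 = 11)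

theorem att (hK : 11 < K) (R : Run M B f) {s : ℕ → ℕ} {q : ℕ} (F : Fut B f s q) {y : ℕ × ℕ}
    (A : Att q y) : ∃ y', GE K B M.DA s y y' ∧ Att q y' ∧
      2 * y'.1 + y'.2 % 3 = 2 * y.1 + y.2 % 3 + 1 := by
  obtain ⟨l, m⟩ := y
  obtain ⟨hq, hm⟩ := A
  simp only at hq hm
  have hc : M.cons (s l) (s (l + 1)) := by
    by_cases h : l + 1 = q
    · exact Or.inl (h ▸ F.2.1)
    by_cases h' : l = q
    · exact Or.inr (Or.inl ⟨h' ▸ F.2.1, by rw [h', ← R.1, ← F.2.2 0]⟩)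
    obtain ⟨j, rfl⟩ : ∃ j, l = q + j + 1 := ⟨l - q - 1, by omega⟩
    have := F.2.2 (j + 1)
    rw [← Nat.add_assoc] at this
    rw [this, F.2.2]
    exact Or.inr (Or.inr ⟨(R.2 j).1, (R.2 j).2.2.1⟩)
  rcases hm with rfl | rfl | rfl
  · exact ⟨(l + 1, 10), ge_cross (σ := 2) (F.1 _) (F.1 _) (by omega) (by omega)
      (Or.inr ⟨rfl, Or.inl rfl⟩), ⟨by simp only; omega, by simp⟩, by simp only; omega⟩
  · exact ⟨(l, 11), ge_short (F.1 _) hK (by omega), ⟨hq, by simp⟩, by simp only⟩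
  · exact ⟨(l + 1, 10), ge_cross (σ := 3) (F.1 _) (F.1 _) (by omega) (by omega)
      (Or.inr ⟨rfl, Or.inr (Or.inr ⟨rfl, hc⟩)⟩), ⟨by simp only; omega, by simp⟩,
      by simp only; omega⟩

theorem deadU (hK : 11 < K) (R : Run M B f) (H : (sys K B M.DA M.DD).Sol Z) {s : ℕ → ℕ} {q : ℕ}
    (F : Fut B f s q) : ∀ (μ : ℕ) (x y : ℕ × ℕ), 11 ≤ μ + x.2 → x.2 / 3 = 3 → Att q y →
      ¬ St K Z s 0 x y := by
  have hB : 0 < B := by have := F.1 0; omega
  intro μ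
  induction μ using Nat.strong_induction_on with
  | _ μ ih =>
  intro x y h1 h2 A S
  obtain ⟨y', e, A', -⟩ := att hK R F A
  obtain ⟨x', e', S'⟩ := S.step (by omega) hB H (by omega) (F.1 _) e
  obtain ⟨-, -, -, -, h | ⟨-, -, h | h⟩⟩ := e'
  · exact ih (μ - 1) (by omega) x' y' (by omega) (by omega) A' S'
  · exact h.ne.2 h2
  · omega

def Inv (M : Mc) (f s : ℕ → ℕ) (d q0 q : ℕ) (x y : ℕ × ℕ) : Prop :=
  (x.2 / 3 < 2 → s q ≠ x.2 / 3) ∧
  (x.2 / 3 = 2 → 2 * y.1 + y.2 % 3 + 2 ≤ d + (2 * x.1 + x.2 % 3)) ∧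
  (4 ≤ x.2 / 3 → x.2 / 3 % 2 = 0 → 2 * y.1 + y.2 % 3 + 1 + M.vl f (x.1 - q0) ((x.2 / 3 - 4) / 2) ≤
    d + (2 * x.1 + x.2 % 3)) ∧
  (4 ≤ x.2 / 3 → x.2 / 3 % 2 = 1 → 2 * y.1 + y.2 % 3 + 1 ≤
    d + (2 * x.1 + x.2 % 3) + M.vl f (x.1 - q0) ((x.2 / 3 - 4) / 2))

theorem phase (hK : 11 < K) (R : Run M B f) (H : (sys K B M.DA M.DD).Sol Z) : ∀ (d μ : ℕ)
    (s : ℕ → ℕ) (q0 q : ℕ) (x y : ℕ × ℕ), Fut B f s q → Att q y → q0 ≤ x.1 → x.1 < q →
    3 * q ≤ μ + 3 * x.1 + x.2 % 3 → (∀ j, q0 + j + 1 < q → s (q0 + j + 1) = f j) → x.2 < K →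
    Inv M f s d q0 q x y → ¬ St K Z s 0 x y := by
  have hB : 2 < B := by have := R.2 0; omega
  intro d
  induction d using Nat.strong_induction_on with
  | _ d ihd =>
  intro μ
  induction μ using Nat.strong_induction_on with
  | _ μ ih =>
  intro s q0 q x y F A h1 h2 h3 h4 h5 I S
  obtain ⟨y', e, A', e0⟩ := att hK R F A
  obtain ⟨x', e', S'⟩ := S.step (by omega) (by omega) H h5 (F.1 _) e
  by_cases hU : x'.2 / 3 = 3
  · exact deadU hK R H F 11 x' y' (by omega) hU A' S'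
  obtain ⟨i1, i2, i3, i4⟩ := I
  obtain ⟨r, m⟩ := x
  obtain ⟨r', m'⟩ := x'
  obtain ⟨-, -, -, hm', h | ⟨g1, g2, h | h⟩⟩ := e'
  · simp only at h h1 h2 h3 h5 i1 i2 i3 i4 hm' hU
    obtain ⟨rfl, rfl, h⟩ := h
    refine ih (μ - 1) (by omega) s q0 q _ y' F A' h1 h2 (by simp only; omega) h4 hm' ?_ S'
    simp only [Inv]
    rw [show (m + 1) / 3 = m / 3 by omega]
    omega
  swap
  · omega
  simp only at h h1 h2 h3 h5 i1 i2 i3 i4 hm' hU g1 g2
  subst g1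
  by_cases hq : r + 1 < q
  · obtain ⟨j, rfl⟩ : ∃ j, r = q0 + j := ⟨r - q0, by omega⟩
    rw [h4 j hq] at h
    obtain ⟨c1, -, -, c2⟩ := R.2 j
    obtain ⟨c3, c4⟩ := Mc.lev_val c2 (m / 3)
    have c5 := Mc.lev_le (M := M) (m / 3) (f j)
    rw [Nat.add_sub_cancel_left] at i3 i4
    refine ih (μ - 1) (by omega) s q0 q _ y' F A' (by simp only; omega) hq (by simp only; omega)
      h4 hm' ?_ S'
    simp only [Inv]
    rw [show q0 + j + 1 - q0 = j + 1 by omega]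
    rcases h with h | h | ⟨-, h, h' | ⟨h', h6, h7⟩⟩
    · omega
    · rw [show m' / 3 = m / 3 by omega]; omega
    · rw [show m' / 3 = m / 3 by omega]; omega
    · obtain ⟨c6, c7⟩ := c2
      rw [h'] at c6 c7
      omega
  obtain rfl : q = r + 1 := by omega
  have hs := F.2.1
  have hle := S'.le
  obtain ⟨l, ma⟩ := y'
  obtain ⟨A1, A2⟩ := A'
  simp only at hle A1 A2 e0
  rcases h with ⟨-, h6, h7, h8, h9, -⟩ | h | h
  swap
  · omega
  swap
  · omega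
  have hd := i2 (by omega)
  let s' : ℕ → ℕ := fun i => if i ≤ l then s i else if i = l + 1 then (if m' / 3 = 0 then 1 else 0)
    else f (i - l - 2)
  have s1 : s' (l + 1) = if m' / 3 = 0 then 1 else 0 := by simp [s']
  refine ihd (d - 1) (by omega) (3 * (l + 1)) s' (r + 1) (l + 1) (r + 1, m') (l, ma)
    ⟨fun i => ?_, by rw [s1]; split_ifs <;> omega, fun j => ?_⟩ ⟨le_rfl, A2⟩ le_rfl
    (by simp only; omega) (by simp only; omega) (fun j hj => ?_) hm' ?_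
    (S'.congr fun i hi => if_pos hi)
  · have := F.1 i
    have := R.2 (i - l - 2)
    simp only [s']
    split_ifs <;> omega
  · simp only [s']
    rw [if_neg (by omega), if_neg (by omega), show l + 1 + j + 1 - l - 2 = j by omega]
  · simp only [s']
    rw [if_pos (by omega), F.2.2]
  · simp only [Inv, s1, Nat.sub_self, Mc.vl]
    split_ifs <;> omega

theorem run_nosol (hK : 11 < K) (R : Run M B f) (H : (sys K B M.DA M.DD).Sol Z) :
    ¬ ∃ z, Z z := by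
  intro hz
  have hB : 2 < B := by have := R.2 0; omega
  let s : ℕ → ℕ := fun i => if i ≤ 1 then 0 else f (i - 2)
  have F : Fut B f s 1 := ⟨fun i => by
    have := R.2 (i - 2)
    simp only [s]
    split_ifs <;> omega, by simp [s], fun j => by
    simp only [s]
    rw [if_neg (by omega), show 1 + j + 1 - 2 = j by omega]⟩
  have key : ∀ j y, Att 1 y → ¬ St K Z s j (0, 8) y := by
    intro j
    induction j with
    | zero =>
      intro y A
      exact phase hK R H (2 * y.1 + y.2 % 3 + 2) 3 s 0 1 (0, 8) y F A le_rfl (by simp) (by simp)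
        (fun j hj => by omega) (by simp only; omega) (by simp only [Inv]; omega)
    | succ j ih =>
      intro y A S
      obtain ⟨y', e, A', -⟩ := att hK R F A
      exact ih y' A' (S.step_h (by omega) (by omega) H rfl e)
  obtain ⟨j, hj⟩ := st_init (s := s) (by omega) (by omega) H hz rfl
  exact key j _ ⟨le_rfl, Or.inl rfl⟩ hj

end Pool.Agent.H32.Conj
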