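import Mathlib

/-! Instances of the conjugacy problem for finite sets of words. -/

namespace Pool.Agent.H32.Conj

/-- the set of words listed in `X` -/
def lang (X : List (List ℕ)) : Language ℕ := {w | w ∈ X}

/-- `X` and `Y` list nonempty words over the alphabet `{0, …, m - 1}` -/
def Inst (m : ℕ) (X Y : List (List ℕ)) : Prop :=
  ∀ w, w ∈ X ∨ w ∈ Y → w ≠ [] ∧ ∀ a ∈ w, a < m

/-- `Z` is a nonempty set of words over `{0, …, m - 1}` with `X Z = Z Y` -/
def Conj (m : ℕ) (X Y : List (List ℕ)) (Z : Language ℕ) : Prop :=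
  (∃ z, z ∈ Z) ∧ (∀ z ∈ Z, ∀ a ∈ z, a < m) ∧ lang X * Z = Z * lang Y

end Pool.Agent.H32.Conj
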