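import Pool.Agent.H32.ConjD
import Pool.Agent.H37.CI

/-! A fixed machine whose traces end exactly on a non-computable set of inputs. -/

namespace Pool.Agent.H32.Conj

open Pool.Agent.H77.Trs Pool.Agent.H38.CM Pool.Agent.H30.MulM Pool.Agent.H37 Function Relation

theorem rin_det : ∀ (w : W) (s : H30.MulM.St w) (b b' : Bool) (v : ℕ → ℕ),
    H77.Trs.cond (rin w s b).2.1 (v (rin w s b).2.2) →
    H77.Trs.cond (rin w s b').2.1 (v (rin w s b').2.2) → rin w s b = rin w s b'
  | .inc _, _, _, _, _, _, _ => rfl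
  | .skip, _, _, _, _, _, _ => rfl
  | .seq a _, .inl s, b, b', v, h, h' => by simp only [rin, rin_det a s b b' v h h']
  | .seq _ c, .inr s, b, b', v, h, h' => by simp only [rin, rin_det c s b b' v h h']
  | .loop _ _, none, true, true, _, _, _ => rfl
  | .loop _ _, none, false, false, _, _, _ => rfl
  | .loop _ _, none, true, false, _, h, h' => absurd (h'.2 rfl) (h.1 rfl)
  | .loop _ _, none, false, true, _, h, h' => absurd (h.2 rfl) (h'.1 rfl)
  | .loop _ c, some s, b, b', v, h, h' => by simp only [rin, rin_det c s b b' v h h']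

theorem rin_tot : ∀ (w : W) (s : H30.MulM.St w) (v : ℕ → ℕ),
    ∃ b, H77.Trs.cond (rin w s b).2.1 (v (rin w s b).2.2)
  | .inc _, _, _ => ⟨true, by simp [rin, H77.Trs.cond]⟩
  | .skip, _, _ => ⟨true, by simp [rin, H77.Trs.cond]⟩
  | .seq a _, .inl s, v => rin_tot a s v
  | .seq _ c, .inr s, v => rin_tot c s v
  | .loop r _, none, v => by
    by_cases h : v r = 0
    · exact ⟨false, by simp [rin, H77.Trs.cond, h]⟩
    · exact ⟨true, by simp [rin, H77.Trs.cond, h]⟩
  | .loop _ c, some s, v => rin_tot c s v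

theorem ci_tbl {β : Type} [Primcodable β] (g : ℕ → β) (n : ℕ) (d : β) :
    CI ∅ fun t => if t < n then g t else d := by
  have : CI ∅ fun t => ((List.range n).map g).getD t d := by fun_prop
  refine this.of_eq fun t => ?_
  split_ifs with h
  · simp [h]
  · simp [List.getD, List.getElem?_eq_none (l := (List.range n).map g) (i := t) (by simpa using h)]

theorem init_succ (j : ℕ) : update (init j) 0 (init j 0 + 1) = init (j + 1) := by
  simp [init]

theorem exists_mc : ∃ (n0 R : ℕ) (kd rg : ℕ → ℕ) (nx : ℕ → ℕ → Bool) (P : ℕ → Prop),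
    CI ∅ kd ∧ CI ∅ rg ∧ CI ∅ (fun p : ℕ × ℕ => nx p.1 p.2) ∧ (∀ t, rg t < R) ∧
    ¬ ComputablePred P ∧
    (∀ x, P x → ∃ T, ∀ f : ℕ → ℕ, f 0 = n0 + x → (∀ y, y + 1 < T → nx (f y) (f (y + 1)) = true) →
      ∃ y < T, ¬ (Mc.mk kd rg nx (n0 + x)).ok f y) ∧
    ∀ x, ¬ P x → ∃ f, Run ⟨kd, rg, nx, n0 + x⟩ (n0 + x + 1) f := by
  classical
  obtain ⟨w, hw⟩ := H38.CM.exists_undec
  have := H30.MulM.St.finite w
  obtain ⟨n, ⟨e⟩⟩ := Finite.exists_equiv_fin (H30.MulM.St w × Bool)
  obtain ⟨k, hk⟩ := Finite.exists_le fun y : H30.MulM.St w × Bool => (rin w y.1 y.2).2.2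
  let c : H30.MulM.St w × Bool → ℕ := fun y => (e y).val + 2
  have c1 : ∀ y, 2 ≤ c y ∧ c y < n + 2 := fun y => by have := (e y).2; simp only [c]; omega
  let dc : ℕ → Option (H30.MulM.St w × Bool) := fun t =>
    if h : 2 ≤ t ∧ t < n + 2 then some (e.symm ⟨t - 2, by omega⟩) else none
  have d1 : ∀ y, dc (c y) = some y := fun y => by
    simp only [dc]
    rw [dif_pos (c1 y)]
    simp [c]
  have d2 : ∀ t y, dc t = some y → t = c y := fun t y h => by
    simp only [dc] at h
    split_ifs at h with h'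
    obtain rfl := Option.some.inj h
    simp only [c, Equiv.apply_symm_apply]; omega
  have d3 : ∀ i, dc (n + 2 + i) = none := fun i => dif_neg (by omega)
  let kd : ℕ → ℕ := fun t => if t < n + 3 then (dc t).elim 3 fun y => (rin w y.1 y.2).2.1 else 0
  let rg : ℕ → ℕ := fun t => if t < n + 3 then (dc t).elim 0 fun y => (rin w y.1 y.2).2.2 else 0
  let tg : ℕ → Option (H30.MulM.St w) := fun t =>
    (dc t).elim (some (entry w)) fun y => (rin w y.1 y.2).1
  let n1 : ℕ → ℕ → Bool := fun t t' => decide (∃ y, t' = c y ∧ tg t = some y.1)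
  let nx : ℕ → ℕ → Bool := fun t t' => if t < n + 3 then n1 t t' else t' + 1 == t
  have k1 : ∀ y, kd (c y) = (rin w y.1 y.2).2.1 := fun y => by
    have := c1 y
    simp only [kd]; rw [if_pos (by omega), d1]; rfl
  have r1 : ∀ y, rg (c y) = (rin w y.1 y.2).2.2 := fun y => by
    have := c1 y
    simp only [rg]; rw [if_pos (by omega), d1]; rfl
  have x1 : ∀ y t', nx (c y) t' = true ↔ ∃ y', t' = c y' ∧ (rin w y.1 y.2).1 = some y'.1 :=
    fun y t' => by
      have := c1 y
      simp only [nx, n1, tg]; rw [if_pos (by omega), decide_eq_true_iff, d1]; simp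
  have k2 : kd (n + 2 + 0) = 3 := by simp only [kd]; rw [if_pos (by omega), d3]; rfl
  have k3 : ∀ i, kd (n + 2 + (i + 1)) = 0 := fun i => if_neg (by omega)
  have r2 : ∀ i, rg (n + 2 + i) = 0 := fun i => by
    simp only [rg]; rw [d3]; split_ifs <;> rfl
  have x2 : ∀ t', nx (n + 2 + 0) t' = true ↔ ∃ y', t' = c y' ∧ entry w = y'.1 := fun t' => by
    simp only [nx, n1, tg]; rw [if_pos (by omega), decide_eq_true_iff, d3]; simp
  have x3 : ∀ i t', nx (n + 2 + (i + 1)) t' = true ↔ t' = n + 2 + i := fun i t' => by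
    simp only [nx]; rw [if_neg (by omega)]; simp; omega
  refine ⟨n + 2, k + 1, kd, rg, nx, _, ci_tbl _ _ _, ci_tbl _ _ _, ?_, fun t => ?_, hw, ?_, ?_⟩
  · have h1 := ci_tbl (fun t => (List.range (n + 2)).map (n1 t)) (n + 3) []
    have h2 : CI ∅ fun p : ℕ × ℕ => cond (decide (p.1 < n + 3))
      (((fun t => if t < n + 3 then (List.range (n + 2)).map (n1 t) else []) p.1).getD p.2 false)
      (p.2 + 1 == p.1) := by
      refine CI.cond (by fun_prop) (CI.getD (h1.comp (by fun_prop)) (by fun_prop) (by fun_prop))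
        (by fun_prop)
    refine h2.of_eq fun p => ?_
    simp only [nx]
    by_cases h : p.1 < n + 3
    · simp only [h, decide_true, cond_true, if_true]
      by_cases h' : p.2 < n + 2
      · simp [h']
      · rw [List.getD_eq_default _ _ (by simpa using h')]
        refine (decide_eq_false ?_).symm
        rintro ⟨y, h1, -⟩
        have := c1 y
        omega
    · simp [h]
  · simp only [rg]
    split_ifs
    · rcases dc t with _ | y
      · simp
      · exact Nat.lt_succ_of_le (hk y)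
    · omega
  · rintro x ⟨u, hu⟩
    have A : ∀ d, ReflTransGen (RS w) d (none, u) → ∃ T, ∀ (f : ℕ → ℕ) y0 y,
        d.1 = some y.1 → f y0 = c y → (Mc.mk kd rg nx (n + 2 + x)).vl f y0 = d.2 →
        (∀ j, j + 1 < y0 + T → nx (f j) (f (j + 1)) = true) →
        ∃ j < y0 + T, ¬ (Mc.mk kd rg nx (n + 2 + x)).ok f j := by
      intro d hd
      induction hd using ReflTransGen.head_induction_on with
      | refl => exact ⟨0, fun f y0 y h => by cases h⟩
      | head hs _ ih =>
        obtain ⟨s, b, e1, e2, e3, e4⟩ := hs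
        obtain ⟨T, hT⟩ := ih
        refine ⟨T + 2, fun f y0 ⟨s', b'⟩ h1 h2 h3 h4 => ?_⟩
        obtain rfl : s = s' := Option.some.inj (e1.symm.trans h1)
        by_cases ho : (Mc.mk kd rg nx (n + 2 + x)).ok f y0
        swap
        · exact ⟨y0, by omega, ho⟩
        simp only [Mc.ok] at ho
        rw [h2, h3, k1, r1] at ho
        have e5 := rin_det w s b' b _ ho e3
        have h5 := h4 y0 (by omega)
        rw [h2, x1] at h5
        obtain ⟨y', h5, h6⟩ := h5
        obtain ⟨j, j1, j2⟩ := hT f (y0 + 1) y' (by rw [e2, ← e5]; exact h6) h5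
          (by simp only [Mc.vl]; rw [h2, h3, k1, r1, e4, ← e5]) fun j hj => h4 j (by omega)
        exact ⟨j, by omega, j2⟩
    obtain ⟨T, hT⟩ := A _ (rrun hu)
    refine ⟨x + 1 + T + 1, fun f h0 h => ?_⟩
    have B : ∀ j ≤ x, f j = n + 2 + (x - j) ∧ (Mc.mk kd rg nx (n + 2 + x)).vl f j = init j := by
      intro j
      induction j with
      | zero => intro _; exact ⟨h0, by simp [Mc.vl, init]⟩
      | succ j ih =>
        intro hj
        obtain ⟨a1, a2⟩ := ih (by omega)
        rw [show x - j = x - (j + 1) + 1 by omega] at a1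
        have := h j (by omega)
        rw [a1, x3] at this
        refine ⟨this, ?_⟩
        simp only [Mc.vl]
        rw [a1, a2, k3, r2]
        exact init_succ j
    obtain ⟨a1, a2⟩ := B x le_rfl
    rw [Nat.sub_self] at a1
    have := h x (by omega)
    rw [a1, x2] at this
    obtain ⟨y', a3, a4⟩ := this
    obtain ⟨j, j1, j2⟩ := hT f (x + 1) y' (by rw [a4]) a3 (by
      simp only [Mc.vl]
      rw [a1, a2, k2, r2]
      simp [nw]) fun j hj => h j (by omega)
    exact ⟨j, by omega, j2⟩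
  · intro x hx
    let G : ℕ × (ℕ → ℕ) → Prop := fun p => H77.Trs.cond (kd p.1) (p.2 (rg p.1)) ∧
      ((∃ y, p.1 = c y ∧ ¬ ∃ v', H30.MulM.K w y.1 p.2 v') ∨
        ∃ i ≤ x, p.1 = n + 2 + i ∧ p.2 = init (x - i))
    have G1 : ∀ i ≤ x, G (n + 2 + i, init (x - i)) := fun i hi => ⟨by
      rcases i with _ | i
      · simp only; rw [k2]; simp [H77.Trs.cond]
      · simp only; rw [k3]; simp [H77.Trs.cond], Or.inr ⟨i, hi, rfl, rfl⟩⟩
    have G2 : ∀ s v, (¬ ∃ v', H30.MulM.K w s v v') → ∃ b, G (c (s, b), v) := fun s v h => by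
      obtain ⟨b, hb⟩ := rin_tot w s v
      exact ⟨b, by simp only; rw [k1, r1]; exact hb, Or.inl ⟨_, rfl, h⟩⟩
    have step0 : ∀ t v, G (t, v) → ∃ q : {p // G p}, nx t q.1.1 = true ∧
        q.1.2 = update v (rg t) (nw (kd t) (v (rg t))) := by
      rintro t v ⟨h1, ⟨y, h0, h2⟩ | ⟨i, hi, h0, h2⟩⟩ <;> simp only at h0 h1 h2
      · subst h0
        rw [k1, r1] at h1 ⊢
        have h3 := fun v' => rK_step w y.1 y.2 (v' := v') h1
        rcases hs : (rin w y.1 y.2).1 with _ | s
        · rw [hs] at h3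
          exact absurd ⟨_, h3 _ rfl⟩ h2
        · rw [hs] at h3
          obtain ⟨b, hb⟩ := G2 s _ fun ⟨v', h⟩ => h2 ⟨v', h3 v' h⟩
          exact ⟨⟨_, hb⟩, (x1 _ _).2 ⟨_, rfl, hs⟩, rfl⟩
      · subst h0 h2
        rcases i with _ | i
        · obtain ⟨b, hb⟩ := G2 (entry w) (init x) fun ⟨v', h⟩ => hx ⟨v', K_entry w h⟩
          refine ⟨⟨_, hb⟩, (x2 _).2 ⟨_, rfl, rfl⟩, ?_⟩
          simp only
          rw [k2, r2]
          simp [nw]
        · refine ⟨⟨_, G1 i (by omega)⟩, (x3 _ _).2 rfl, ?_⟩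
          simp only
          rw [k3, r2, show x - i = x - (i + 1) + 1 by omega]
          exact (init_succ _).symm
    have step : ∀ p : {p // G p}, ∃ q : {p // G p}, nx p.1.1 q.1.1 = true ∧
        q.1.2 = update p.1.2 (rg p.1.1) (nw (kd p.1.1) (p.1.2 (rg p.1.1))) :=
      fun p => step0 p.1.1 p.1.2 p.2
    choose F F1 F2 using step
    let g : ℕ → {p // G p} := fun y => F^[y] ⟨_, G1 x le_rfl⟩
    have g1 : ∀ y, g (y + 1) = F (g y) := fun y => iterate_succ_apply' _ _ _
    have g2 : ∀ y, (Mc.mk kd rg nx (n + 2 + x)).vl (fun y => (g y).1.1) y = (g y).1.2 := by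
      intro y
      induction y with
      | zero => simp [Mc.vl, init, g]
      | succ y ih => simp only [Mc.vl]; rw [ih, g1, F2]
    refine ⟨fun y => (g y).1.1, rfl, fun y => ?_⟩
    have g3 : 2 ≤ (g y).1.1 ∧ (g y).1.1 < n + 2 + x + 1 := by
      rcases (g y).2.2 with ⟨y, h, -⟩ | ⟨i, h, h', -⟩
      · have := c1 y; omega
      · omega
    refine ⟨g3.1, g3.2, by simp only; rw [g1]; exact F1 _, ?_⟩
    simp only [Mc.ok]
    rw [g2]
    exact (g y).2.1

end Pool.Agent.H32.Conj
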