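import Pool.Agent.H32.ConjE

/-! The two finite sets as explicit computable lists. -/

namespace Pool.Agent.H32.Conj

open Pool.Agent.H37

abbrev Wd := List (ℕ × ℕ)

def EL (K B : ℕ) (d : ℕ → ℕ → ℕ → ℕ → Bool) : List ((ℕ × ℕ) × Wd × (ℕ × ℕ)) :=
  (List.range B).flatMap fun t => (List.range B).flatMap fun t' =>
    (List.range K).flatMap fun m => (List.range K).flatMap fun m' =>
      cond (t' == t && m' == m + 1 && m % 3 != 2)
        [((t, 2 * m + 1), [(t, 2 * m + 2)], (t', 2 * m' + 1))] [] ++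
      cond (m % 3 == 2 && d (m / 3) t t' m')
        [((t, 2 * m + 1), blk t (2 * m + 2) (2 * K - 2 * m) ++ blk t' 0 (2 * m' + 1),
          (t', 2 * m' + 1))] []

theorem mem_cond {β : Type} {c : Bool} {a b : β} : a ∈ cond c [b] [] ↔ c = true ∧ a = b := by
  cases c <;> simp

theorem mem_EL {K B : ℕ} {d : ℕ → ℕ → ℕ → ℕ → Bool} {D : ℕ → ℕ → ℕ → ℕ → Prop}
    (hd : ∀ σ t t' m, d σ t t' m = true ↔ D σ t t' m) (a : ℕ × ℕ) (β : Wd) (b : ℕ × ℕ) :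
    (a, β, b) ∈ EL K B d ↔ E K B D a β b := by
  simp only [EL, List.mem_flatMap, List.mem_range, List.mem_append, mem_cond, Bool.and_eq_true,
    beq_iff_eq, bne_iff_ne, hd, Prod.mk.injEq, E]
  constructor
  · rintro ⟨t, h1, t', h2, m, h3, m', h4, ⟨⟨⟨a1, a2⟩, a3⟩, a4, a5, a6⟩ | ⟨⟨a1, a2⟩, a4, a5, a6⟩⟩
    · exact ⟨t, t', m, m', h1, h2, h3, h4, a4, a6, Or.inl ⟨a1, a2, a3, a5⟩⟩
    · exact ⟨t, t', m, m', h1, h2, h3, h4, a4, a6, Or.inr ⟨a1, a2, a5⟩⟩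
  · rintro ⟨t, t', m, m', h1, h2, h3, h4, a4, a6, ⟨a1, a2, a3, a5⟩ | ⟨a1, a2, a5⟩⟩
    · exact ⟨t, h1, t', h2, m, h3, m', h4, Or.inl ⟨⟨⟨a1, a2⟩, a3⟩, a4, a5, a6⟩⟩
    · exact ⟨t, h1, t', h2, m, h3, m', h4, Or.inr ⟨⟨a1, a2⟩, a4, a5, a6⟩⟩

def L0l (K B : ℕ) (dA dD : ℕ → ℕ → ℕ → ℕ → Bool) : List Wd :=
  [(0, 2 * K + 2)] :: ((EL K B dA).map (fun e => e.2.1 ++ [e.2.2]) ++
    (EL K B dD).map fun e => e.1 :: e.2.1)

def Cl (K B : ℕ) : Wd := (List.range B).flatMap fun t => (List.range K).map fun m => (t, 2 * m + 1)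

def ext (C : Wd) (S : List Wd) : List Wd := [] :: C.flatMap fun a => S.map fun l => a :: l

theorem mem_ext {C : Wd} {S : List Wd} {n : ℕ} (h : ∀ l, l ∈ S ↔ l.length ≤ n ∧ ∀ a ∈ l, a ∈ C)
    (l : Wd) : l ∈ ext C S ↔ l.length ≤ n + 1 ∧ ∀ a ∈ l, a ∈ C := by
  rcases l with _ | ⟨a, l⟩
  · simp [ext]
  · simp [ext, h, and_left_comm]

def c3 (K B : ℕ) : List Wd := ext (Cl K B) (ext (Cl K B) (ext (Cl K B) [[]]))

def adjB (K : ℕ) (a b : ℕ × ℕ) : Bool :=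
  (a.1 == b.1 && a.2 + 1 == b.2 && decide (b.2 < 2 * K + 2)) || (a.2 + 1 == 2 * K + 2 && b.2 == 0)

def chP (K : ℕ) (l : Wd) : Option (ℕ × ℕ) × Bool :=
  l.foldr (fun a p => (some a, p.2 && p.1.elim true (adjB K a))) (none, true)

theorem chP_eq (K : ℕ) (l : Wd) : (chP K l).1 = l.head? ∧ ((chP K l).2 = true ↔ l.IsChain (adj K)) := by
  induction l with
  | nil => simp [chP]
  | cons a l ih =>
    refine ⟨rfl, ?_⟩
    show ((chP K l).2 && (chP K l).1.elim true (adjB K a)) = true ↔ _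
    rw [Bool.and_eq_true, ih.1, ih.2]
    rcases l with _ | ⟨b, l⟩
    · simp
    · simp [adjB, adj, and_comm, and_assoc, and_left_comm]

def Jl (K B : ℕ) (dA dD : ℕ → ℕ → ℕ → ℕ → Bool) : List Wd :=
  ((c3 K B).flatMap fun a => ([] :: L0l K B dA dD).flatMap fun y => (c3 K B).map fun b =>
    a ++ y ++ b).filter fun w => !(chP K w).2 && w != [(0, 2 * K + 2), (0, 17)]

def Ll (K B : ℕ) (dA dD : ℕ → ℕ → ℕ → ℕ → Bool) : List Wd := L0l K B dA dD ++ Jl K B dA dD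

theorem mem_Ll {K B : ℕ} {dA dD : ℕ → ℕ → ℕ → ℕ → Bool} {DA DD : ℕ → ℕ → ℕ → ℕ → Prop}
    (hA : ∀ σ t t' m, dA σ t t' m = true ↔ DA σ t t' m)
    (hD : ∀ σ t t' m, dD σ t t' m = true ↔ DD σ t t' m) (w : Wd) :
    w ∈ Ll K B dA dD ↔ (sys K B DA DD).L w := by
  have h0 : ∀ w, w ∈ L0l K B dA dD ↔ (sys K B DA DD).L0 w := by
    intro w
    simp only [L0l, List.mem_cons, List.mem_append, List.mem_map, Prod.exists, mem_EL hA, mem_EL hD,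
      Sys.L0, sys, eq_comm (a := w)]
  have hC : ∀ a, a ∈ Cl K B ↔ (sys K B DA DD).con a := by
    rintro ⟨t, p⟩
    simp only [Cl, List.mem_flatMap, List.mem_range, List.mem_map, Prod.mk.injEq, sys]
    constructor
    · rintro ⟨_, h1, m, h2, rfl, rfl⟩
      exact ⟨h1, m, h2, rfl⟩
    · rintro ⟨h1, m, h2, rfl⟩
      exact ⟨t, h1, m, h2, rfl, rfl⟩
  have h3 : ∀ l, l ∈ c3 K B ↔ (sys K B DA DD).cs l := by
    intro l
    rw [c3, mem_ext (n := 2) (mem_ext (mem_ext (n := 0) fun l => by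
      rcases l with _ | _ <;> simp))]
    simp only [hC, Sys.cs]
  rw [Ll, List.mem_append, h0, Sys.L]
  refine or_congr Iff.rfl ?_
  simp only [Jl, List.mem_filter, List.mem_flatMap, List.mem_map, List.mem_cons, h0, h3,
    Bool.and_eq_true, Bool.not_eq_eq_eq_not, Bool.not_true, bne_iff_ne, Sys.J,
    Bool.eq_false_iff, ne_eq, (chP_eq K w).2]
  constructor
  · rintro ⟨⟨a, h1, y, h2, b, h4, rfl⟩, h5, h6⟩
    exact ⟨h5, h6, a, y, b, h1, h4, h2, rfl⟩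
  · rintro ⟨h5, h6, a, y, b, h1, h4, h2, rfl⟩
    exact ⟨⟨a, h1, y, h2, b, h4, rfl⟩, h5, h6⟩

def dc (M : Mc) (σ t m : ℕ) : Bool :=
  (decide (t < 2) && decide (σ ≤ 2) && (σ == 2 || σ == t) && m % 3 == 1 && m / 3 != 2 &&
    m / 3 != 3) ||
  (decide (2 ≤ t) && decide (σ ≤ 2) && m == 3 * σ + 1) ||
  (decide (2 ≤ t) && decide (4 ≤ σ) && ((decide (3 * σ + M.lev σ t ≤ m) && decide (m ≤ 3 * σ + 2)) ||
    (M.rg t == (σ - 4) / 2 && M.kd t == 1 + σ % 2 && m == 7 + σ % 2)))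

def dA (M : Mc) (σ t t' m : ℕ) : Bool :=
  dc M σ t' m || (m == 10 && (σ == 2 || (decide (σ < 2) && σ == t') || (σ == 3 &&
    (decide (t' < 2) || (decide (t < 2) && t' == M.st) || (decide (2 ≤ t) && M.nx t t')))))

def dD (M : Mc) (σ _t t' m : ℕ) : Bool := dc M σ t' m || (m == 10 && decide (σ ≤ 2))

theorem dc_iff (M : Mc) (σ t m : ℕ) : dc M σ t m = true ↔ M.Dc σ t m := by
  simp [dc, Mc.Dc, and_assoc, or_assoc]

theorem dA_iff (M : Mc) (σ t t' m : ℕ) : dA M σ t t' m = true ↔ M.DA σ t t' m := by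
  simp [dA, Mc.DA, Mc.cons, dc_iff, or_assoc]

theorem dD_iff (M : Mc) (σ t t' m : ℕ) : dD M σ t t' m = true ↔ M.DD σ t t' m := by
  simp [dD, Mc.DD, dc_iff]

section
variable {α : Type} [Primcodable α]

@[fun_prop] theorem ci_blk {t p n : α → ℕ} (ht : CI ∅ t) (hp : CI ∅ p) (hn : CI ∅ n) :
    CI ∅ fun a => blk (t a) (p a) (n a) := by
  unfold blk; fun_prop

theorem ci_EL (K : ℕ) {B : ℕ → ℕ} {d : ℕ → ℕ → ℕ → ℕ → ℕ → Bool} (hB : CI ∅ B)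
    (hd : CI ∅ fun p : ℕ × ℕ × ℕ × ℕ × ℕ => d p.1 p.2.1 p.2.2.1 p.2.2.2.1 p.2.2.2.2) :
    CI ∅ fun x => EL K (B x) (d x) := by
  unfold EL
  refine CI.flatMap (CI.flatMap (CI.flatMap (CI.flatMap (CI.append (by fun_prop) (CI.cond
    (CI.and (by fun_prop) ?_) (by fun_prop) (by fun_prop))) (by fun_prop)) (by fun_prop))
    (by fun_prop)) (by fun_prop)
  exact hd.comp (g := fun p : (((ℕ × ℕ) × ℕ) × ℕ) × ℕ =>
    (p.1.1.1.1, p.1.2 / 3, p.1.1.1.2, p.1.1.2, p.2)) (by fun_prop)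

@[fun_prop] theorem ci_ext {C : α → Wd} {S : α → List Wd} (hC : CI ∅ C) (hS : CI ∅ S) :
    CI ∅ fun a => ext (C a) (S a) := by
  unfold ext; fun_prop

@[fun_prop] theorem ci_chP (K : ℕ) {l : α → Wd} (hl : CI ∅ l) : CI ∅ fun a => chP K (l a) := by
  unfold chP adjB; fun_prop

end

theorem ci_Ll (K : ℕ) {B : ℕ → ℕ} {dA dD : ℕ → ℕ → ℕ → ℕ → ℕ → Bool} (hB : CI ∅ B)
    (hA : CI ∅ fun p : ℕ × ℕ × ℕ × ℕ × ℕ => dA p.1 p.2.1 p.2.2.1 p.2.2.2.1 p.2.2.2.2)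
    (hD : CI ∅ fun p : ℕ × ℕ × ℕ × ℕ × ℕ => dD p.1 p.2.1 p.2.2.1 p.2.2.2.1 p.2.2.2.2) :
    CI ∅ fun x => Ll K (B x) (dA x) (dD x) := by
  have h1 := ci_EL K hB hA
  have h2 := ci_EL K hB hD
  have h0 : CI ∅ fun x => L0l K (B x) (dA x) (dD x) := by
    unfold L0l
    exact CI.cons (by fun_prop) (CI.append (CI.map (by fun_prop) h1) (CI.map (by fun_prop) h2))
  have hC : CI ∅ fun x => Cl K (B x) := by unfold Cl; fun_prop
  have h3 : CI ∅ fun x => c3 K (B x) := ci_ext hC (ci_ext hC (ci_ext hC (CI.const _)))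
  refine CI.append h0 ?_
  unfold Jl
  refine CI.filter (by fun_prop) (CI.flatMap (CI.flatMap (CI.map (by fun_prop) ?_) ?_) h3)
  · exact h3.comp (g := fun p : (ℕ × Wd) × Wd => p.1.1) (by fun_prop)
  · exact CI.cons (by fun_prop) (h0.comp (g := fun p : ℕ × Wd => p.1) (by fun_prop))

/-- The reduction, over the alphabet of pairs. -/
theorem exists_red : ∃ (P : ℕ → Prop) (L : ℕ → List Wd) (S : ℕ → Sys (ℕ × ℕ)) (c : Wd),
    ¬ ComputablePred P ∧ CI ∅ L ∧ (∀ x, (S x).Good) ∧ (∀ x w, w ∈ L x ↔ (S x).L w) ∧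
    (∀ x, c = [(S x).h, (S x).k0]) ∧ (∀ x, P x → ∃ k Z, (∃ z, Z z) ∧ (S x).Sol Z ∧
      ∀ l, (∀ w, (S x).Y w → w.length ≤ l) → ∀ z, Z z → z.length ≤ k * l + 1) ∧
    ∀ x, (∃ Z, (∃ z, Z z) ∧ (S x).Sol Z) → P x := by
  obtain ⟨n0, R, kd, rg, nx, P, c1, c2, c3, hR, hP, h1, h2⟩ := exists_mc
  let M : ℕ → Mc := fun x => ⟨kd, rg, nx, n0 + x⟩
  have hc : CI ∅ fun p : ℕ × ℕ × ℕ × ℕ × ℕ => dc (M p.1) p.2.1 p.2.2.2.1 p.2.2.2.2 := by
    simp only [dc, Mc.lev, M]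
    fun_prop
  refine ⟨P, fun x => Ll (6 * R + 18) (n0 + x + 1) (dA (M x)) (dD (M x)),
    fun x => sys (6 * R + 18) (n0 + x + 1) (M x).DA (M x).DD,
    [(0, 2 * (6 * R + 18) + 2), (0, 17)], hP,
    ci_Ll _ (by fun_prop) ?_ ?_, fun x => good (by omega) (by omega),
    fun x => mem_Ll (dA_iff _) (dD_iff _), fun x => rfl, fun x h => ?_, fun x => ?_⟩
  · have : CI ∅ fun p : ℕ × ℕ × ℕ × ℕ × ℕ => nx p.2.2.1 p.2.2.2.1 :=
      c3.comp (g := fun p : ℕ × ℕ × ℕ × ℕ × ℕ => (p.2.2.1, p.2.2.2.1)) (by fun_prop)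
    unfold dA
    refine CI.or hc (CI.and (by fun_prop) (CI.or (by fun_prop) (CI.and (by fun_prop)
      (CI.or (by simp only [M]; fun_prop) (CI.and (by fun_prop) this)))))
  · unfold dD
    exact CI.or hc (by fun_prop)
  · obtain ⟨T, hT⟩ := h1 x h
    exact halt_sol (by omega) (fun t => by have := hR t; simp only [M]; omega) hT
  · rintro ⟨Z, hz, H⟩
    by_contra h
    obtain ⟨f, hf⟩ := h2 x h
    exact run_nosol (by omega) hf H hz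

end Pool.Agent.H32.Conj
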