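import Pool.Agent.H32.ConjF
import Pool.Agent.H32.ConjDefs

/-! The reduction over the alphabet of numbers. -/

namespace Pool.Agent.H32.Conj

open Pool.Agent.H37

def enc (w : Wd) : List ℕ := w.map fun a => Nat.pair a.1 a.2

def dec (w : List ℕ) : Wd := w.map Nat.unpair

theorem dec_enc (w : Wd) : dec (enc w) = w := by simp [dec, enc, Function.comp_def]

theorem enc_dec (w : List ℕ) : enc (dec w) = w := by simp [dec, enc, Function.comp_def]

theorem enc_app (u v : Wd) : enc (u ++ v) = enc u ++ enc v := List.map_append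

theorem dec_app (u v : List ℕ) : dec (u ++ v) = dec u ++ dec v := List.map_append

theorem mem_enc {L : List Wd} {w : List ℕ} : w ∈ lang (L.map enc) ↔ dec w ∈ L := by
  show w ∈ L.map enc ↔ _
  rw [List.mem_map]
  exact ⟨fun ⟨u, h, e⟩ => by rw [← e, dec_enc]; exact h, fun h => ⟨_, h, enc_dec w⟩⟩

theorem fin_words (m n : ℕ) : {w : List ℕ | w.length ≤ n ∧ ∀ a ∈ w, a < m}.Finite := by
  refine ((List.finite_length_le (Fin m) n).image (List.map Fin.val)).subset ?_
  rintro w ⟨h1, h2⟩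
  exact ⟨w.pmap (fun a h => (⟨a, h⟩ : Fin m)) h2, by simpa using h1, by simp [List.map_pmap]⟩

theorem undec (Q : Language ℕ → Prop) (hQ : ∀ Z : Language ℕ, Set.Finite Z → Q Z) :
    ¬ ∃ f : ℕ × List (List ℕ) × List (List ℕ) → Bool, Computable f ∧
      ∀ m X Y, Inst m X Y → (f (m, X, Y) = true ↔ ∃ Z, Q Z ∧ Conj m X Y Z) := by
  rintro ⟨f, hf, H⟩
  obtain ⟨P, L, S, c, hP, hL, G, h1, h2, h3, h4⟩ := exists_red
  let m : ℕ → ℕ := fun x => ((c :: L x).map enc).flatten.sum + 1
  have hY : ∀ x w, w ∈ c :: L x ↔ (S x).Y w := fun x w => by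
    rw [List.mem_cons, h1, Sys.Y, or_comm, h2 x]
  have hm : ∀ x w, w ∈ lang ((c :: L x).map enc) → ∀ a ∈ w, a < m x := fun x w hw a ha =>
    Nat.lt_succ_of_le (List.le_sum_of_mem (List.mem_flatten.2 ⟨w, hw, ha⟩))
  have hXY : ∀ x w, w ∈ lang ((L x).map enc) → w ∈ lang ((c :: L x).map enc) := fun x w hw =>
    mem_enc.2 (List.mem_cons_of_mem _ (mem_enc.1 hw))
  have hI : ∀ x, Inst (m x) ((L x).map enc) ((c :: L x).map enc) := fun x w hw => by
    have hw : w ∈ lang ((c :: L x).map enc) := hw.elim (hXY x w) id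
    refine ⟨?_, hm x w hw⟩
    rintro rfl
    exact (G x).Y_ne ((hY x _).1 (mem_enc.1 hw)) rfl
  have hc : CI ∅ fun x => (m x, (L x).map enc, (c :: L x).map enc) := by
    simp only [m]
    unfold enc
    fun_prop
  refine hP (ComputablePred.computable_iff.2 ⟨_, hf.comp hc.computable,
    funext fun x => propext ?_⟩)
  rw [H _ _ _ (hI x)]
  constructor
  · intro hx
    obtain ⟨k, Z, ⟨z, hz⟩, HZ, hb⟩ := h3 x hx
    obtain ⟨j, hj⟩ := (G x).flush HZ _ z 0 le_rfl (by simpa using hz)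
    have hl := hb ((c :: L x).map List.length).sum fun w hw =>
      List.le_sum_of_mem (List.mem_map.2 ⟨w, (hY x w).2 hw, rfl⟩)
    refine ⟨{w | Z (dec w) ∧ ∀ a ∈ w, a < m x}, hQ _ ((fin_words (m x) _).subset fun w hw =>
      ⟨by simpa [dec] using hl _ hw.1, hw.2⟩), ⟨enc (List.replicate j (S x).h),
      by rw [dec_enc]; exact hj, fun a ha => ?_⟩, fun z hz => hz.2, Language.ext fun w => ?_⟩
    · refine hm x (enc [(S x).h]) (mem_enc.2 ?_) a ?_
      · rw [dec_enc, hY]; exact Or.inl (Or.inl (Or.inl rfl))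
      · simp only [enc, List.map_replicate] at ha
        simp [enc, List.eq_of_mem_replicate ha]
    · simp only [Language.mem_mul]
      constructor
      · rintro ⟨u, hu, v, hv, rfl⟩
        obtain ⟨z, y, a1, a2, a3⟩ := (HZ _).1 ⟨dec u, dec v, (h1 x _).1 (mem_enc.1 hu), hv.1, rfl⟩
        have e : enc z ++ enc y = u ++ v := by rw [← enc_app, ← a3, ← dec_app, enc_dec]
        refine ⟨enc z, ⟨by rw [dec_enc]; exact a1, fun a ha => ?_⟩, enc y,
          mem_enc.2 (by rw [dec_enc]; exact (hY x _).2 a2), e⟩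
        rcases List.mem_append.1 (e ▸ List.mem_append_left _ ha : a ∈ u ++ v) with h | h
        · exact hm x u (hXY x u hu) a h
        · exact hv.2 a h
      · rintro ⟨u, hu, v, hv, rfl⟩
        obtain ⟨y, z, a1, a2, a3⟩ := (HZ _).2 ⟨dec u, dec v, hu.1, (hY x _).1 (mem_enc.1 hv), rfl⟩
        have e : enc y ++ enc z = u ++ v := by rw [← enc_app, ← a3, ← dec_app, enc_dec]
        refine ⟨enc y, mem_enc.2 (by rw [dec_enc]; exact (h1 x _).2 a1), enc z,
          ⟨by rw [dec_enc]; exact a2, fun a ha => ?_⟩, e⟩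
        rcases List.mem_append.1 (e ▸ List.mem_append_right _ ha : a ∈ u ++ v) with h | h
        · exact hu.2 a h
        · exact hm x v hv a h
  · rintro ⟨Z, -, ⟨z, hz⟩, -, HZ⟩
    refine h4 x ⟨fun w => enc w ∈ Z, ⟨dec z, by beta_reduce; rw [enc_dec]; exact hz⟩,
      fun w => ⟨?_, ?_⟩⟩
    · rintro ⟨u, v, a1, a2, rfl⟩
      have : enc (u ++ v) ∈ lang ((L x).map enc) * Z := Language.mem_mul.2
        ⟨enc u, mem_enc.2 (by rw [dec_enc]; exact (h1 x _).2 a1), enc v, a2, (enc_app _ _).symm⟩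
      rw [HZ] at this
      obtain ⟨z, b1, y, b2, e⟩ := Language.mem_mul.1 this
      exact ⟨dec z, dec y, by beta_reduce; rw [enc_dec]; exact b1, (hY x _).1 (mem_enc.1 b2),
        by rw [← dec_app, e, dec_enc]⟩
    · rintro ⟨u, v, a1, a2, rfl⟩
      have : enc (u ++ v) ∈ Z * lang ((c :: L x).map enc) := Language.mem_mul.2
        ⟨enc u, a1, enc v, mem_enc.2 (by rw [dec_enc]; exact (hY x _).2 a2), (enc_app _ _).symm⟩
      rw [← HZ] at this
      obtain ⟨y, b1, z, b2, e⟩ := Language.mem_mul.1 this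
      exact ⟨dec y, dec z, (h1 x _).1 (mem_enc.1 b1), by beta_reduce; rw [enc_dec]; exact b2,
        by rw [← dec_app, e, dec_enc]⟩

end Pool.Agent.H32.Conj
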