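import Mathlib

set_option autoImplicit false

namespace Pool.Agent.H32.ConnLimA

open Filter Topology Finset

theorem analytic (a : ℕ → ℝ) (ha : ∀ n, 0 ≤ a n) (ε : ℝ) (hε : 0 < ε)
    (hup : ∀ᶠ n in atTop, ε * a n ≤ ∑ S ∈ univ.filter (fun S : Finset (Fin n) =>
      S.Nonempty ∧ 2 * S.card ≤ n), 2 ^ (S.card.choose 2) * a (Sᶜ.card))
    (hlow : ∀ m, (2 : ℝ) ^ (m * m) ≤ ((m + m : ℕ) : ℝ) ^ (m + m) * a (m + m)) : False := by
  obtain ⟨t, ht1, ht⟩ : ∃ t : ℝ, 1 < t ∧ t ^ 20 = 2 :=
    ⟨(2 : ℝ) ^ ((20 : ℕ) : ℝ)⁻¹, Real.one_lt_rpow (by norm_num) (by norm_num),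
      Real.rpow_inv_natCast_pow (by norm_num) (by norm_num)⟩
  have ht0 : 0 < t := by linarith
  have lim0 : Tendsto (fun n : ℕ => (n : ℝ) / t ^ n) atTop (𝓝 0) := by
    simpa using tendsto_pow_const_div_const_pow_of_one_lt 1 ht1
  have lim1 : ∀ᶠ n : ℕ in atTop, Real.exp ((n : ℝ) / t ^ n) < 1 + ε := by
    have := (Real.continuous_exp.tendsto 0).comp lim0
    rw [Real.exp_zero] at this
    exact this.eventually (gt_mem_nhds (by linarith))
  obtain ⟨N, hN⟩ := eventually_atTop.1 (hup.and lim1)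
  obtain ⟨C, hC0, hC⟩ : ∃ C : ℝ, 0 ≤ C ∧ ∀ n < N, a n ≤ C :=
    ⟨∑ n ∈ range N, a n, sum_nonneg fun n _ => ha n, fun n hn =>
      single_le_sum (fun n _ => ha n) (mem_range.2 hn)⟩
  have bound : ∀ n, a n ≤ C * t ^ (4 * n ^ 2) := by
    intro n
    induction n using Nat.strong_induction_on with
    | _ n ih =>
      by_cases hn : n < N
      · exact (hC n hn).trans (le_mul_of_one_le_right hC0 (one_le_pow₀ ht1.le))
      obtain ⟨h1, h2⟩ := hN n (by omega)
      have h3 : ∀ S ∈ univ.filter (fun S : Finset (Fin n) => S.Nonempty ∧ 2 * S.card ≤ n),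
          (2 : ℝ) ^ (S.card.choose 2) * a (Sᶜ.card) ≤
            C * t ^ (4 * n ^ 2) * (1 / t ^ n) ^ S.card := by
        intro S hS
        obtain ⟨-, hS1, hS2⟩ := mem_filter.1 hS
        have hk := hS1.card_pos
        have hc : Sᶜ.card + S.card = n := by simp [card_compl]; omega
        generalize Sᶜ.card = m at *
        generalize S.card = k at *
        have h4 : 2 * k.choose 2 ≤ k * k := by
          rw [Nat.choose_two_right]
          exact (Nat.mul_div_le _ _).trans (Nat.mul_le_mul_left _ (Nat.sub_le _ _))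
        have h5 : 20 * k.choose 2 + 4 * m ^ 2 + n * k ≤ 4 * n ^ 2 := by
          subst hc
          have : k ≤ m := by omega
          nlinarith
        rw [one_div, inv_pow, ← pow_mul, ← div_eq_mul_inv, le_div_iff₀ (by positivity), ← ht,
          ← pow_mul]
        calc t ^ (20 * k.choose 2) * a m * t ^ (n * k)
            ≤ t ^ (20 * k.choose 2) * (C * t ^ (4 * m ^ 2)) * t ^ (n * k) := by
              gcongr
              exact ih m (by omega)
          _ = C * t ^ (20 * k.choose 2 + 4 * m ^ 2 + n * k) := by ring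
          _ ≤ _ := by gcongr; exact ht1.le
      have h6 : ∑ S ∈ univ.filter (fun S : Finset (Fin n) => S.Nonempty ∧ 2 * S.card ≤ n),
          (1 / t ^ n) ^ S.card ≤ ε := by
        have h7 := Fintype.sum_pow_mul_eq_add_pow (Fin n) (1 / t ^ n) 1
        simp only [one_pow, mul_one, Fintype.card_fin] at h7
        have h8 : (1 / t ^ n + 1) ^ n ≤ Real.exp ((n : ℝ) / t ^ n) := by
          rw [div_eq_mul_one_div (n : ℝ), Real.exp_nat_mul]
          gcongr
          exact Real.add_one_le_exp _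
        have h9 := Finset.sum_erase_add univ (fun S : Finset (Fin n) => (1 / t ^ n) ^ S.card)
          (mem_univ ∅)
        simp only [card_empty, pow_zero] at h9
        have h10 : ∑ S ∈ univ.filter (fun S : Finset (Fin n) => S.Nonempty ∧ 2 * S.card ≤ n),
            (1 / t ^ n) ^ S.card ≤ ∑ S ∈ (univ : Finset (Finset (Fin n))).erase ∅,
              (1 / t ^ n) ^ S.card := by
          apply sum_le_sum_of_subset_of_nonneg
          · intro S hS
            exact mem_erase.2 ⟨(mem_filter.1 hS).2.1.ne_empty, mem_univ _⟩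
          · intros; positivity
        linarith
      have h11 := h1.trans (sum_le_sum h3)
      rw [← mul_sum] at h11
      have h12 := h11.trans (mul_le_mul_of_nonneg_left h6 (by positivity))
      rw [mul_comm ε] at h12
      exact le_of_mul_le_mul_right h12 hε
  have lim2 : ∀ᶠ n : ℕ in atTop, (n : ℝ) / t ^ n < 1 / 2 :=
    lim0.eventually (gt_mem_nhds (by norm_num))
  have lim3 : ∀ᶠ n : ℕ in atTop, C < 2 ^ n :=
    (tendsto_pow_atTop_atTop_of_one_lt (by norm_num : (1 : ℝ) < 2)).eventually_gt_atTop C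
  obtain ⟨M, hM⟩ := eventually_atTop.1 (lim2.and lim3)
  obtain ⟨h1, h2⟩ := hM (M + 1 + (M + 1)) (by omega)
  have h3 := hlow (M + 1)
  have h4 := bound (M + 1 + (M + 1))
  have hpos : 0 < M + 1 + (M + 1) := by omega
  have e1 : (2 : ℝ) ^ ((M + 1) * (M + 1)) =
      (t ^ (M + 1 + (M + 1))) ^ (M + 1 + (M + 1)) * t ^ (4 * (M + 1 + (M + 1)) ^ 2) := by
    rw [← ht, ← pow_mul, ← pow_mul, ← pow_add]
    congr 1
    ring
  rw [e1] at h3
  generalize M + 1 + (M + 1) = n at *
  have hn : (0 : ℝ) < n := by exact_mod_cast hpos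
  rw [div_lt_iff₀ (by positivity)] at h1
  have h5 : ((2 : ℝ) * n) ^ n ≤ (t ^ n) ^ n := pow_le_pow_left₀ (by positivity) (by linarith) n
  have h6 : (t ^ n) ^ n * t ^ (4 * n ^ 2) ≤ (n : ℝ) ^ n * C * t ^ (4 * n ^ 2) := by
    rw [mul_assoc]
    exact h3.trans (mul_le_mul_of_nonneg_left h4 (by positivity))
  have h7 := le_of_mul_le_mul_right h6 (by positivity)
  have h8 : (n : ℝ) ^ n * C < n ^ n * 2 ^ n := mul_lt_mul_of_pos_left h2 (by positivity)
  rw [mul_pow] at h5
  linarith

end Pool.Agent.H32.ConnLimA
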