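import Mathlib
import Pool.Agent.H32.ConnLimA

set_option autoImplicit false

namespace Pool.Agent.H32.ConnLim

open Filter Topology Finset SimpleGraph

variable {W : Type} (H : SimpleGraph W) {T : ℕ → Type} (π : ∀ n, SimpleGraph (Fin n) → T n)

def X (n : ℕ) : Set (SimpleGraph (Fin n)) := {G | IsEmpty (H ↪g G)}

def P3 : Prop := ∀ n (G G' : SimpleGraph (Fin n)), π n G = π n G' → Nonempty (G ≃g G')

def P1 : Prop := ∀ k m n (e : Fin k ⊕ Fin m ≃ Fin n) (G0 : SimpleGraph (Fin k))
  (G1 G1' : SimpleGraph (Fin m)), π m G1 = π m G1' →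
    π n ((G0 ⊕g G1).comap e.symm) = π n ((G0 ⊕g G1').comap e.symm)

theorem card_graphs (k : ℕ) : Nat.card (SimpleGraph (Fin k)) ≤ 2 ^ k.choose 2 := by
  classical
  have h := card_edgeFinset_top_eq_card_choose_two (V := Fin k)
  rw [Fintype.card_fin] at h
  rw [← h, ← card_powerset, ← Nat.card_eq_finsetCard]
  refine Nat.card_le_card_of_injective (fun G => ⟨G.edgeFinset, mem_powerset.2
    (edgeFinset_mono le_top)⟩) fun G G' hG => ?_
  exact edgeFinset_inj.1 (congrArg Subtype.val hG)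

theorem piece (h1 : P1 π) (n : ℕ) (S : Finset (Fin n)) :
    (π n '' {G | G ∈ X H n ∧ ∀ u ∈ S, ∀ v, G.Adj u v → v ∈ S}).ncard ≤
      2 ^ S.card.choose 2 * (π _ '' X H Sᶜ.card).ncard := by
  classical
  let e := finSumEquivOfFinset (s := S) rfl rfl
  let F : SimpleGraph (Fin S.card) × T Sᶜ.card → T n := fun x =>
    π n ((x.1 ⊕g Function.invFun (π _) x.2).comap e.symm)
  have hfin : (π _ '' X H Sᶜ.card).Finite := (Set.toFinite _).image _
  have hsub : π n '' {G | G ∈ X H n ∧ ∀ u ∈ S, ∀ v, G.Adj u v → v ∈ S} ⊆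
      F '' (Set.univ ×ˢ (π _ '' X H Sᶜ.card)) := by
    rintro _ ⟨G, ⟨hG, hS⟩, rfl⟩
    refine ⟨(G.comap (fun i => e (Sum.inl i)), π _ (G.comap (fun i => e (Sum.inr i)))),
      ⟨trivial, _, ⟨fun f => hG.false ?_⟩, rfl⟩, ?_⟩
    · exact (Embedding.comap ⟨fun i => e (Sum.inr i), e.injective.comp Sum.inr_injective⟩ G).comp f
    · simp only [F]
      rw [h1 _ _ _ e _ _ _ (Function.invFun_eq ⟨_, rfl⟩)]
      congr 1
      ext u v
      obtain ⟨u, rfl⟩ := e.surjective u
      obtain ⟨v, rfl⟩ := e.surjective v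
      have hl : ∀ i, e (Sum.inl i) ∈ S := fun i => S.orderEmbOfFin_mem rfl i
      have hr : ∀ i, e (Sum.inr i) ∉ S := fun i => mem_compl.1 (Sᶜ.orderEmbOfFin_mem rfl i)
      simp only [comap_adj, Equiv.symm_apply_apply]
      rcases u with u | u <;> rcases v with v | v
      · simp
      · simp only [not_adj_sum_inl_inr, false_iff]
        exact fun h => hr v (hS _ (hl u) _ h)
      · rw [adj_comm]
        simp only [not_adj_sum_inl_inr, false_iff]
        exact fun h => hr u (hS _ (hl v) _ h.symm)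
      · simp
  calc _ ≤ _ := Set.ncard_le_ncard hsub ((Set.finite_univ.prod hfin).image _)
    _ ≤ _ := Set.ncard_image_le (Set.finite_univ.prod hfin)
    _ = _ := Set.ncard_prod
    _ ≤ _ := by
      rw [Set.ncard_univ]
      exact Nat.mul_le_mul_right _ (card_graphs _)

theorem upper (h1 : P1 π) (n : ℕ) (hn : 0 < n) :
    (π n '' {G | G ∈ X H n ∧ ¬ G.Connected}).ncard ≤
      ∑ S ∈ univ.filter (fun S : Finset (Fin n) => S.Nonempty ∧ 2 * S.card ≤ n),
        2 ^ S.card.choose 2 * (π _ '' X H Sᶜ.card).ncard := by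
  classical
  refine le_trans ?_ (sum_le_sum fun S _ => piece H π h1 n S)
  refine le_trans (Set.ncard_le_ncard ?_ ?_) (Finset.set_ncard_biUnion_le _ _)
  · rintro _ ⟨G, ⟨hG, hc⟩, rfl⟩
    have : Nonempty (Fin n) := ⟨⟨0, hn⟩⟩
    rw [connected_iff_exists_forall_reachable] at hc
    push Not at hc
    obtain ⟨x⟩ := this
    obtain ⟨y, hy⟩ := hc x
    let R : Finset (Fin n) := univ.filter fun v => G.Reachable x v
    have hcard : R.card + Rᶜ.card = n := by simp
    simp only [Set.mem_iUnion, mem_filter, mem_univ, true_and]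
    by_cases h : 2 * R.card ≤ n
    · refine ⟨R, ⟨⟨x, by simp [R]⟩, h⟩, G, ⟨hG, fun u hu v huv => ?_⟩, rfl⟩
      simp only [R, mem_filter, mem_univ, true_and] at hu ⊢
      exact hu.trans huv.reachable
    · refine ⟨Rᶜ, ⟨⟨y, by simp [R, hy]⟩, by omega⟩, G, ⟨hG, fun u hu v huv => ?_⟩, rfl⟩
      simp only [R, mem_compl, mem_filter, mem_univ, true_and] at hu ⊢
      exact fun h => hu (h.trans huv.symm.reachable)
  · exact Set.Finite.subset ((Set.toFinite (Set.univ : Set (SimpleGraph (Fin n)))).image (π n))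
      (by intro x hx; simp only [Set.mem_iUnion] at hx; obtain ⟨S, -, G, -, rfl⟩ := hx
          exact ⟨G, trivial, rfl⟩)

theorem fibre (h3 : P3 π) (n : ℕ) (s : Set (SimpleGraph (Fin n))) :
    s.ncard ≤ n ^ n * (π n '' s).ncard := by
  classical
  obtain ⟨s, rfl⟩ := (Set.toFinite s).exists_finset_coe
  rw [← coe_image, Set.ncard_coe_finset, Set.ncard_coe_finset]
  apply card_le_mul_card_image
  intro b hb
  obtain ⟨G, -, rfl⟩ := mem_image.1 hb
  calc _ ≤ (univ.image fun f : Fin n → Fin n => G.comap f).card := by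
        apply card_le_card
        intro G' hG'
        obtain ⟨φ⟩ := h3 n G' G (mem_filter.1 hG').2
        refine mem_image.2 ⟨φ, mem_univ _, ?_⟩
        ext u v
        exact φ.map_adj_iff
    _ ≤ _ := card_image_le.trans (by simp)

def Part (α : Bool → Prop) : Prop := ∃ f : W → Bool, ∀ u v, u ≠ v → f u = f v → (H.Adj u v ↔ α (f u))

def fam (α : Bool → Prop) (m : ℕ) (R : Fin m → Fin m → Bool) : SimpleGraph (Fin m ⊕ Fin m) where
  Adj u v := match u, v with
    | .inl i, .inl j => i ≠ j ∧ α false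
    | .inr i, .inr j => i ≠ j ∧ α true
    | .inl i, .inr j => R i j = true
    | .inr i, .inl j => R j i = true
  symm := ⟨by rintro (i | i) (j | j) h <;> first | exact h | exact ⟨h.1.symm, h.2⟩⟩
  loopless := ⟨by rintro (i | i) h <;> exact h.1 rfl⟩

theorem lower (α : Bool → Prop) (hα : ¬ Part H α) (m : ℕ) :
    2 ^ (m * m) ≤ (X H (m + m)).ncard := by
  let F : (Fin m → Fin m → Bool) → SimpleGraph (Fin (m + m)) :=
    fun R => (fam α m R).comap finSumFinEquiv.symm
  have hF : Function.Injective F := by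
    intro R R' h
    funext i j
    have : (F R).Adj (finSumFinEquiv (Sum.inl i)) (finSumFinEquiv (Sum.inr j)) ↔
        (F R').Adj (finSumFinEquiv (Sum.inl i)) (finSumFinEquiv (Sum.inr j)) := by rw [h]
    simp only [F, comap_adj, Equiv.symm_apply_apply, fam] at this
    exact Bool.eq_iff_iff.2 this
  have hsub : Set.range F ⊆ X H (m + m) := by
    rintro _ ⟨R, rfl⟩
    refine ⟨fun f => hα ⟨fun u => (finSumFinEquiv.symm (f u)).isRight, fun u v huv h => ?_⟩⟩
    rw [← f.map_adj_iff]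
    have hne : finSumFinEquiv.symm (f u) ≠ finSumFinEquiv.symm (f v) :=
      fun h => huv (f.injective (finSumFinEquiv.symm.injective h))
    simp only [F, comap_adj] at h ⊢
    generalize finSumFinEquiv.symm (f u) = a at *
    generalize finSumFinEquiv.symm (f v) = b at *
    rcases a with a | a <;> rcases b with b | b <;> simp_all [fam]
  refine le_trans ?_ (Set.ncard_le_ncard hsub (Set.toFinite _))
  rw [Set.ncard_range_of_injective hF]
  simp [← pow_mul]

theorem triple {V : Type} (G : SimpleGraph V) (hG : ¬ G.Preconnected) (y z : V) (h : G.Adj y z) :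
    ∃ x y z, G.Adj y z ∧ x ≠ y ∧ x ≠ z ∧ ¬ G.Adj x y ∧ ¬ G.Adj x z := by
  have : ∃ x, ¬ G.Reachable x y := by
    by_contra hc
    push Not at hc
    exact hG fun u v => (hc u).trans (hc v).symm
  obtain ⟨x, hx⟩ := this
  refine ⟨x, y, z, h, ?_, ?_, fun h' => hx h'.reachable,
    fun h' => hx (h'.reachable.trans h.symm.reachable)⟩
  · rintro rfl; exact hx (Reachable.refl _)
  · rintro rfl; exact hx h.symm.reachable

theorem special (hH : ¬ H.Preconnected) (p1 : Part H fun _ => True) (p2 : Part H fun _ => False)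
    (p3 : Part H fun b => b = true) :
    ∃ (f g : W → Bool) (c : Bool), (∀ u v, H.Adj u v ↔ u ≠ v ∧ f u = f v) ∧
      (∀ u v, H.Adj u v → g u ≠ g v) ∧ ∀ u v, f u = c → f v = c → u = v := by
  obtain ⟨f, hf⟩ := p1
  obtain ⟨g, hg⟩ := p2
  obtain ⟨s, hs⟩ := p3
  have hr : ∀ u v, f u = f v → H.Reachable u v := by
    intro u v h
    by_cases huv : u = v
    · rw [huv]
    · exact ((hf u v huv h).2 trivial).reachable
  have hA : ∀ u v, H.Adj u v ↔ u ≠ v ∧ f u = f v := by
    intro u v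
    refine ⟨fun h => ⟨h.ne, ?_⟩, fun h => (hf u v h.1 h.2).2 trivial⟩
    by_contra hne
    apply hH
    have key : ∀ w, H.Reachable u w := by
      intro w
      by_cases hw : f u = f w
      · exact hr _ _ hw
      · exact h.reachable.trans (hr v w (by revert hne hw; cases f u <;> cases f v <;> cases f w <;> simp))
    exact fun a b => (key a).symm.trans (key b)
  have hB : ∀ u v, H.Adj u v → ∃ w, f w = f u ∧ s w = true := by
    intro u v h
    by_cases hu : s u = true
    · exact ⟨u, rfl, hu⟩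
    by_cases hv : s v = true
    · exact ⟨v, ((hA u v).1 h).2.symm, hv⟩
    · exact absurd ((hs u v h.ne (by simp_all)).1 h) hu
  have hC : ∃ c, ∀ u v, f u = c → f v = c → u = v := by
    by_contra hc
    push Not at hc
    obtain ⟨u, v, h1, h2, h3⟩ := hc true
    obtain ⟨u', v', h1', h2', h3'⟩ := hc false
    obtain ⟨w, hw, hw2⟩ := hB u v ((hA u v).2 ⟨h3, h1.trans h2.symm⟩)
    obtain ⟨w', hw', hw2'⟩ := hB u' v' ((hA u' v').2 ⟨h3', h1'.trans h2'.symm⟩)
    have hne : f w ≠ f w' := by rw [hw, hw', h1, h1']; simp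
    exact hne ((hA w w').1 ((hs w w' (fun h => hne (h ▸ rfl)) (hw2.trans hw2'.symm)).2 hw2)).2
  obtain ⟨c, hc⟩ := hC
  exact ⟨f, g, c, hA, fun u v h e => (hg u v h.ne e).1 h, hc⟩

theorem emb {V : Type} (G : SimpleGraph V) (f g : W → Bool) (c : Bool)
    (hA : ∀ u v, H.Adj u v ↔ u ≠ v ∧ f u = f v) (hg : ∀ u v, H.Adj u v → g u ≠ g v)
    (hc : ∀ u v, f u = c → f v = c → u = v) (x y z : V) (h : G.Adj y z) (h1 : x ≠ y) (h2 : x ≠ z)
    (h3 : ¬ G.Adj x y) (h4 : ¬ G.Adj x z) : Nonempty (H ↪g G) := by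
  let φ : W → V := fun u => if f u = c then x else if g u = true then y else z
  have hyz := h.ne
  have h5 : ¬ G.Adj y x := fun h => h3 h.symm
  have h6 : ¬ G.Adj z x := fun h => h4 h.symm
  have h7 := h.symm
  have key : ∀ u v, u ≠ v → φ u ≠ φ v ∧ (G.Adj (φ u) (φ v) ↔ H.Adj u v) := by
    intro u v huv
    have e1 := hA u v
    have e2 := hg u v
    have e3 := hc u v
    simp only [φ]
    cases c <;> cases hfu : f u <;> cases hfv : f v <;> cases hgu : g u <;> cases hgv : g v <;>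
      simp_all [h1.symm, h2.symm, hyz.symm]
  refine ⟨⟨⟨φ, fun u v e => ?_⟩, fun {u v} => ?_⟩⟩
  · by_contra huv
    exact (key u v huv).1 e
  · by_cases huv : u = v
    · subst huv; simp
    · exact (key u v huv).2

def multi (n j : ℕ) : SimpleGraph (Fin n) where
  Adj u v := u ≠ v ∧ ¬ (u.val ≤ j ∧ v.val ≤ j)
  symm := ⟨fun u v h => ⟨h.1.symm, fun h' => h.2 h'.symm⟩⟩
  loopless := ⟨fun u h => h.1 rfl⟩

theorem multi_ne (n j j' : ℕ) (h : j < j') (h' : j' < n) (φ : multi n j ≃g multi n j') : False := by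
  let A : Set (Fin n) := {u | u.val ≤ j'}
  have h1 : ∀ u ∈ A, (φ.symm u).val ≤ j := by
    intro u hu
    obtain ⟨v, hv, huv⟩ : ∃ v ∈ A, u ≠ v := by
      by_cases h0 : u.val = 0
      · exact ⟨⟨j', h'⟩, le_refl j', fun e => by rw [e] at h0; simp at h0; omega⟩
      · exact ⟨⟨0, by omega⟩, Nat.zero_le _, fun e => by rw [e] at h0; exact h0 rfl⟩
    have : ¬ (multi n j).Adj (φ.symm u) (φ.symm v) := by
      rw [φ.symm.map_adj_iff]
      exact fun h => h.2 ⟨hu, hv⟩
    by_contra hc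
    exact this ⟨fun e => huv (φ.symm.injective e), fun h => hc h.1⟩
  let F : Fin (j' + 1) → Fin (j + 1) := fun i =>
    ⟨(φ.symm ⟨i.val, by omega⟩).val, Nat.lt_succ_of_le (h1 _ (Nat.le_of_lt_succ i.2))⟩
  have hF : Function.Injective F := by
    intro a b e
    have e' : (φ.symm ⟨a.val, by omega⟩).val = (φ.symm ⟨b.val, by omega⟩).val :=
      congrArg (fun x : Fin (j + 1) => x.val) e
    have := φ.symm.injective (Fin.ext e')
    exact Fin.ext (congrArg (fun x : Fin n => x.val) this)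
  have := Fintype.card_le_of_injective F hF
  simp at this
  omega

theorem small (hH : ¬ H.Preconnected) (h1 : P1 π) (h3 : P3 π) (ε : ℝ) (hε : 0 < ε) :
    ¬ ∀ᶠ n in atTop, 0 < (π n '' {G | G ∈ X H n ∧ ¬ G.Connected}).ncard ∧
      ε * (π n '' X H n).ncard ≤ (π n '' {G | G ∈ X H n ∧ ¬ G.Connected}).ncard := by
  intro hev
  have main : ∀ α : Bool → Prop, Part H α := by
    intro α
    by_contra hα
    refine ConnLimA.analytic (fun n => (π n '' X H n).ncard) (fun n => Nat.cast_nonneg _) ε hε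
      ?_ ?_
    · filter_upwards [hev, eventually_gt_atTop 0] with n hn hn0
      refine hn.2.trans ?_
      exact_mod_cast upper H π h1 n hn0
    · intro m
      exact_mod_cast (lower H α hα m).trans (fibre π h3 _ _)
  obtain ⟨f, g, c, hA, hg, hc⟩ := special H hH (main _) (main _) (main _)
  have hbot : ∀ n, 0 < n → ∀ G ∈ X H n, ¬ G.Connected → G = ⊥ := by
    intro n hn G hG hc'
    have : Nonempty (Fin n) := ⟨⟨0, hn⟩⟩
    ext y z
    simp only [bot_adj, iff_false]
    intro h
    obtain ⟨x, y, z, h, a1, a2, a3, a4⟩ := triple G (fun hp => hc' ⟨hp⟩) y z h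
    exact hG.false (emb H G f g c hA hg hc x y z h a1 a2 a3 a4).some
  by_cases he : ∃ y z, H.Adj y z
  · obtain ⟨y, z, h⟩ := he
    obtain ⟨x, y, z, h, a1, a2, a3, a4⟩ := triple H hH y z h
    have hm : ∀ n j, multi n j ∈ X H n := by
      intro n j
      refine ⟨fun φ => ?_⟩
      have b1 : (φ y).val ≤ j := by
        by_contra hc
        exact a3 (φ.map_adj_iff.1 ⟨fun e => a1 (φ.injective e), fun h => hc h.2⟩)
      have b2 : (φ z).val ≤ j := by
        by_contra hc
        exact a4 (φ.map_adj_iff.1 ⟨fun e => a2 (φ.injective e), fun h => hc h.2⟩)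
      exact (φ.map_adj_iff.2 h).2 ⟨b1, b2⟩
    have hlow : ∀ n, n ≤ (π n '' X H n).ncard := by
      intro n
      have hinj : Function.Injective fun j : Fin n => π n (multi n j) := by
        intro j j' e
        obtain ⟨φ⟩ := h3 n _ _ e
        rcases lt_trichotomy j.val j'.val with h | h | h
        · exact (multi_ne n _ _ h j'.2 φ).elim
        · exact Fin.ext h
        · exact (multi_ne n _ _ h j.2 φ.symm).elim
      have := Set.ncard_range_of_injective hinj
      simp only [Nat.card_eq_fintype_card, Fintype.card_fin] at this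
      refine this.symm.le.trans (Set.ncard_le_ncard ?_ ((Set.toFinite (X H n)).image _))
      rintro _ ⟨j, rfl⟩
      exact ⟨_, hm _ _, rfl⟩
    have hbig : ∀ᶠ n : ℕ in atTop, 1 / ε < n :=
      tendsto_natCast_atTop_atTop.eventually_gt_atTop _
    obtain ⟨n, ⟨-, hn⟩, hn1, hn0⟩ := (hev.and (hbig.and (eventually_gt_atTop 0))).exists
    have hd : (π n '' {G | G ∈ X H n ∧ ¬ G.Connected}).ncard ≤ 1 := by
      rw [← Set.ncard_singleton (π n ⊥)]
      refine Set.ncard_le_ncard ?_ (Set.finite_singleton _)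
      rintro _ ⟨G, ⟨hG, hc'⟩, rfl⟩
      rw [hbot n hn0 G hG hc']
      rfl
    have hd' : ((π n '' {G | G ∈ X H n ∧ ¬ G.Connected}).ncard : ℝ) ≤ 1 := by exact_mod_cast hd
    have hl : (n : ℝ) ≤ (π n '' X H n).ncard := by exact_mod_cast hlow n
    rw [div_lt_iff₀ hε] at hn1
    nlinarith
  · push Not at he
    obtain ⟨n, ⟨hn, -⟩, hn1⟩ := (hev.and (eventually_gt_atTop 1)).exists
    obtain ⟨_, G, ⟨hG, hc'⟩, rfl⟩ := Set.nonempty_of_ncard_ne_zero hn.ne'
    rw [hbot n (by omega) G hG hc'] at hG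
    refine hG.false ⟨⟨fun u => if f u = true then ⟨0, by omega⟩ else ⟨1, hn1⟩, fun u v e => ?_⟩,
      fun {u v} => by simp [he]⟩
    by_contra huv
    have := he u v
    rw [hA] at this
    cases hu : f u <;> cases hv : f v <;> simp_all

theorem main (hH : ¬ H.Preconnected) (h1 : P1 π) (h3 : P3 π) :
    ¬ ∃ p : ℝ, 0 < p ∧ p < 1 ∧ Tendsto (fun n =>
      ((π n '' {G | G ∈ X H n ∧ G.Connected}).ncard : ℝ) / (π n '' X H n).ncard) atTop (𝓝 p) := by
  rintro ⟨p, h0, hp, ht⟩
  apply small H π hH h1 h3 ((1 - p) / 2) (by linarith)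
  filter_upwards [ht.eventually (gt_mem_nhds (by linarith : p < (1 + p) / 2)),
    ht.eventually (lt_mem_nhds h0)] with n hn hn0
  have hsum : (π n '' X H n).ncard ≤ (π n '' {G | G ∈ X H n ∧ G.Connected}).ncard +
      (π n '' {G | G ∈ X H n ∧ ¬ G.Connected}).ncard := by
    refine le_trans (Set.ncard_le_ncard ?_ ?_) (Set.ncard_union_le _ _)
    · rintro _ ⟨G, hG, rfl⟩
      by_cases h : G.Connected
      · exact Or.inl ⟨G, ⟨hG, h⟩, rfl⟩
      · exact Or.inr ⟨G, ⟨hG, h⟩, rfl⟩
    · exact ((Set.toFinite _).image _).union ((Set.toFinite _).image _)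
  have hsum' : ((π n '' X H n).ncard : ℝ) ≤ (π n '' {G | G ∈ X H n ∧ G.Connected}).ncard +
      (π n '' {G | G ∈ X H n ∧ ¬ G.Connected}).ncard := by exact_mod_cast hsum
  have ha : (0 : ℝ) < (π n '' X H n).ncard := by
    rcases (Nat.cast_nonneg (α := ℝ) (π n '' X H n).ncard).eq_or_lt with h | h
    · rw [← h, div_zero] at hn0
      exact absurd hn0 (lt_irrefl _)
    · exact h
  rw [div_lt_iff₀ ha] at hn
  have h5 : (1 - p) / 2 * (π n '' X H n).ncard <
      ((π n '' {G | G ∈ X H n ∧ ¬ G.Connected}).ncard : ℝ) := by linarith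
  refine ⟨?_, h5.le⟩
  have : (0 : ℝ) < (π n '' {G | G ∈ X H n ∧ ¬ G.Connected}).ncard :=
    lt_trans (mul_pos (by linarith) ha) h5
  exact_mod_cast this

end Pool.Agent.H32.ConnLim
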