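import Mathlib
import Pool.Agent.H32.ColChk

set_option autoImplicit false

namespace Pool.Agent.H32.DiracC

def E : List (Fin 10 × Fin 10) := [(0, 1), (0, 2), (0, 3), (0, 4), (0, 5), (1, 2), (1, 5), (1, 6), (2, 4), (2, 7), (2, 8), (2, 9), (3, 4), (3, 5), (3, 6), (3, 7), (3, 8), (4, 5), (4, 9), (5, 6), (5, 9), (6, 7), (6, 8), (6, 9), (7, 8)]

def F : List (Fin 17 × Fin 17) := [(0, 1), (0, 2), (0, 4), (0, 5), (0, 11), (0, 12), (1, 5), (1, 6), (1, 12), (1, 13), (2, 4), (2, 7), (2, 8), (2, 9), (2, 11), (2, 14), (2, 15), (2, 16), (3, 4), (3, 5), (3, 6), (3, 7), (3, 8), (3, 10), (4, 5), (4, 9), (5, 6), (5, 9), (6, 7), (6, 8), (6, 9), (7, 8), (10, 11), (10, 12), (10, 13), (10, 14), (10, 15), (11, 12), (11, 16), (12, 13), (12, 16), (13, 14), (13, 15), (13, 16), (14, 15)]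

def G1 : SimpleGraph (Fin 10) := SimpleGraph.fromRel fun u v => (u, v) ∈ E

instance : DecidableRel G1.Adj := fun u v =>
  decidable_of_iff _ (SimpleGraph.fromRel_adj _ u v).symm

theorem noE (c : Fin 10 → Fin 4) (h : ∀ p ∈ E, c p.1 ≠ c p.2) : False :=
  ColChk.no_col (by norm_num) E (by decide +kernel) c h

theorem noF (c : Fin 17 → Fin 4) (h : ∀ p ∈ F, c p.1 ≠ c p.2) : False :=
  ColChk.no_col (by norm_num) F (by decide +kernel) c h

def T : List (Fin 10 × Fin 10 × ℕ) := [(0, 1, 208464), (0, 2, 495172), (0, 3, 224548), (0, 4, 470116), (0, 5, 467812), (1, 2, 208468), (1, 5, 79780), (1, 6, 204196), (2, 4, 208484), (2, 7, 494436), (2, 8, 445284), (2, 9, 740772), (3, 4, 208228), (3, 5, 1001892), (3, 6, 77220), (3, 7, 478052), (3, 8, 379748), (4, 5, 208740), (4, 9, 478628), (5, 6, 207716), (5, 9, 1002916), (6, 7, 461668), (6, 8, 314212), (6, 9, 216484), (7, 8, 510820)]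

def col (m : ℕ) (v : Fin 10) : Fin 4 := ⟨m / 4 ^ v.val % 4, Nat.mod_lt _ (by norm_num)⟩

theorem del : ∀ u v, G1.Adj u v → ∃ t ∈ T, ∀ a b, G1.Adj a b → ¬ (a = u ∧ b = v) →
    ¬ (a = v ∧ b = u) → col t.2.2 a ≠ col t.2.2 b := by decide +kernel

theorem chi : G1.chromaticNumber = (5 : ℕ) := by
  refine SimpleGraph.chromaticNumber_eq_iff_colorable_not_colorable.2 ⟨?_, fun ⟨c⟩ => ?_⟩
  · exact ⟨SimpleGraph.Coloring.mk ![4, 0, 1, 1, 2, 3, 2, 0, 3, 0] (by decide +kernel)⟩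
  · have : ∀ p ∈ E, G1.Adj p.1 p.2 := by decide +kernel
    exact noE c fun p hp => c.valid (this p hp)

theorem crit (H : G1.Subgraph) (hH : H ≠ ⊤) : H.coe.chromaticNumber < (5 : ℕ) := by
  have h1 : ∃ u v, G1.Adj u v ∧ ¬ H.Adj u v := by
    by_contra h
    push Not at h
    have h2 : ∀ u, ∃ v, G1.Adj u v := by decide +kernel
    refine hH (SimpleGraph.Subgraph.ext (Set.eq_univ_of_forall fun u => ?_) ?_)
    · obtain ⟨v, hv⟩ := h2 u
      exact (h u v hv).fst_mem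
    · ext u v
      exact ⟨fun h3 => h3.adj_sub, h u v⟩
  obtain ⟨u, v, h2, h3⟩ := h1
  obtain ⟨t, -, ht⟩ := del u v h2
  have h4 : H.coe.Colorable 4 := ⟨SimpleGraph.Coloring.mk (fun a => col t.2.2 a.1) fun {a b} hab =>
    ht _ _ (SimpleGraph.Subgraph.Adj.adj_sub hab) (fun e => h3 (e.1 ▸ e.2 ▸ hab))
      fun e => h3 (e.1 ▸ e.2 ▸ hab.symm)⟩
  exact h4.chromaticNumber_le.trans_lt (by norm_cast)

def f1 : Fin 10 ↪ Fin 17 := ⟨fun i => ⟨i.val, by omega⟩, by decide⟩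

def f2 : Fin 10 ↪ Fin 17 :=
  ⟨fun i => if i.val < 3 then ⟨i.val, by omega⟩ else ⟨i.val + 7, by omega⟩, by decide⟩

theorem edges : ∀ p ∈ F, s(p.1, p.2) ≠ s(1, 2) ∧
    ((((∃ u v, G1.Adj u v ∧ f1 u = p.1 ∧ f1 v = p.2) ∨ ∃ u v, G1.Adj u v ∧ f2 u = p.1 ∧ f2 v = p.2) ∧
      s(p.1, p.2) ≠ s(f1 0, f1 3) ∧ s(p.1, p.2) ≠ s(f2 0, f2 3)) ∨ p = (3, 10)) := by
  decide +kernel

end Pool.Agent.H32.DiracC
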