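import Mathlib

set_option autoImplicit false

namespace Pool.Agent.H32.DistCut

def L : Type := Fin 31

instance : Fintype L := inferInstanceAs (Fintype (Fin 31))
instance : DecidableEq L := inferInstanceAs (DecidableEq (Fin 31))
instance (n : ℕ) : OfNat L n := inferInstanceAs (OfNat (Fin 31) n)

def code (a : Fin 31) : ℕ :=
  (451869185547979103260019217798513620257982921623115968820775075690372530432 >>> (8 * a.val)) % 256

def supT : ℕ := 0x1ef7bdef7bdef7bdef7bdef7bdef7bdef7bdef7bddef7bdf7bbdef7bdef7bdef7bdef7bdef7bdefbbcef39ef77bce77bce73bde739cef79ce739cf77bbdefdeef7bdef7bdeef7bdef7bdef7bdef7eef37ad7bddef39def39cdef5ad6b7bd6b5ad6bdde6f59f7bbde73bde739bdeb3acef7aceb3acfbdef7bd8c6318c6318c6318c6318c6318c6318f7bdef7b17c6318bdef7be318c6317bdef7bdefeef7bdee316b5ad6b5ad6b5ad6b5ad6b5ad6b5bddef7bdc62d5b56d5b56b6adad5adab6b56b5afbbcef398c5ad4a5ad4a52d6a5294b5a94a5294f779de7318b5693b56939dab4a4e76ad2939ce7eef7bdee2f6b5ad294a52b5ad6b5a5294a5294bddef7bdc5ed5b565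194636adad5aca32946318fbbcef398bdad4a4a50842d6a529494a1084210f779de7317b56939460f7dab4a4e728c20f7bdfeef3bce62f6ad2728c1eeb56949ce51841ef73bddeef7bc62d6b5ad6b5acd6b5ad6b5ad6b5ad6fbbddef78c5ab6adab6ad5ac6b58c6b1ad6318cf779bd6b18b5a94b5a94a35ab5ad6d6ad6b5ad7eef37ace316b5296b52946b56a5a9ad5a96a5abdde6f5ac62d5a4ed5a4e6d62d694b58b5a5294fbbcdeb38c5ab49dab49cdac5a9286b16a4a128f77bbdef17b5ad694a52935ad6b5a739ce739cfeef77bde2f6adab28ca316b1ad630e639cc631bdde6f5ac5ed6a52528420d6ad6b59ce5294a52fbbcdeb38bdad4a4a50841ad5a96a39ca4290a4f779bd6b17b56939460f7b58b5a527314a318c7eef37ace2f6ad2728c1ef6b16a4a0e62906218bdde6f5ac5ed5a4e5183dcd62d6949cc528c610fbbcdeb38bdab49ca307b9ac5a928398a418820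

def infT : ℕ := 0x1eef37ace2f6ad2728c1ee6b16a4a0e629062083bde6f59b4ad5a4e5183dcd62d4941cc520c410739cd6b34852749c1f07b9695a92828ca418820def5bd65a76b169398a30b58b52507314831041ad6b5acacab4ad25194615a56a4a0a32906208339ce73951148520822080a429484104420840062d46ad58bdab49ca307b9ac5a928398a418820bca07292f79460f9460f71cc520c473148310416b51ab55a56ad2728c1ee6b16a4a0e629062082b59b128ac6b59ce317bdcc62509418c310c41052945ad54852749c1f07b9695a92828ca4188209ce694a26f9ce737bdef725294250318c4310412940e524a528c1f28c1ee398a4188e62906208231798628c6317be317bdc630c43118c310c410421029490841f07c1f07b8a32906228ca4188207bde3189ef7bdef7bdef70c6310c4318c431040e73821039ce739ce739ce084200802108020081ad5b56a69dac5a4e628c2d62d4941cc520c41031896250c33189498c31858c4a12831862188205ad6b5a9655a56928ca30ad2b52505194831040a5294a5288a42904110405214a4208221042001294a52848d294a46318c294a50940c6310c41021084210812108408421010842108108421080039ca7290e7398a3398a309cc520c47314831040630cc3118c630c6630c6131862188c618862080a5294a4294a328ca328c25194831146520c41010842108421044110441008221042208841080018c631886318c6318c6308c6310c4318c43104021084210842108421084010842108421084200021084200842108421084210840100421004010000000000000000000000000000000000000000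

def tab (T : ℕ) (a b : Fin 31) : Fin 31 :=
  ⟨(T >>> (5 * (31 * a.val + b.val))) % 32 % 31, Nat.mod_lt _ (by norm_num)⟩

def leb (a b : Fin 31) : Bool := code a &&& code b == code a

instance : DistribLattice L where
  le a b := leb a b = true
  le_refl := by decide +kernel
  le_trans := by decide +kernel
  le_antisymm := by decide +kernel
  sup := tab supT
  inf := tab infT
  le_sup_left := by decide +kernel
  le_sup_right := by decide +kernel
  sup_le := by decide +kernel
  inf_le_left := by decide +kernel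
  inf_le_right := by decide +kernel
  le_inf := by decide +kernel
  le_sup_inf := by
    change ∀ x y z : Fin 31,
      leb (tab infT (tab supT x y) (tab supT x z)) (tab supT x (tab infT y z)) = true
    decide +kernel

instance : DecidableLE L := fun a b => inferInstanceAs (Decidable (leb a b = true))
instance : DecidableLT L := fun a b => decidable_of_iff _ lt_iff_le_not_ge.symm

def K : Finset L := {1, 3, 5, 9, 11}
def S : Finset L := {0, 2, 4, 8, 10}

theorem step : ∀ a ∈ S, ∀ b : L, a < b → b ∉ S → b ∉ K → b ≠ 25 → ∃ c, a < c ∧ c < b := by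
  decide +kernel

theorem max_mem {C : Set L} (hC : IsMaxChain (· ≤ ·) C) (c : L)
    (h : ∀ d ∈ C, c ≤ d ∨ d ≤ c) : c ∈ C := by
  rw [hC.2 (hC.1.insert fun d hd _ => h d hd) (Set.subset_insert _ _)]
  exact Set.mem_insert _ _

theorem cut (C : Set L) (hC : IsMaxChain (· ≤ ·) C) : ∃ c ∈ C, c = 25 ∨ c ∈ K := by
  by_contra h
  push Not at h
  have h0 : ∀ d : L, 0 ≤ d := by decide +kernel
  have h1 : ∀ d : L, d ≤ 30 := by decide +kernel
  obtain ⟨b, hb⟩ := Set.Finite.exists_minimal (Set.toFinite {c | c ∈ C ∧ c ∉ S})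
    ⟨30, max_mem hC _ fun d _ => Or.inr (h1 d), by decide⟩
  obtain ⟨a, ha⟩ := Set.Finite.exists_maximal (Set.toFinite {c | c ∈ C ∧ c ∈ S ∧ c < b})
    ⟨0, max_mem hC _ fun d _ => Or.inl (h0 d), by decide, (h0 b).lt_of_ne fun e =>
      hb.1.2 (e ▸ by decide)⟩
  have no : ∀ d ∈ C, a < d → ¬ d < b := by
    intro d hd h2 h3
    by_cases h4 : d ∈ S
    · exact h2.not_ge (ha.2 ⟨hd, h4, h3⟩ h2.le)
    · exact h3.not_ge (hb.2 ⟨hd, h4⟩ h3.le)
  obtain ⟨c, h2, h3⟩ := step a ha.1.2.1 b ha.1.2.2 hb.1.2 (h b hb.1.1).2 (h b hb.1.1).1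
  refine no c (max_mem hC c fun d hd => ?_) h2 h3
  rcases hC.1.total hd ha.1.1 with h4 | h4
  · exact Or.inr (h4.trans h2.le)
  · rcases hC.1.total hd hb.1.1 with h5 | h5
    · rcases h4.eq_or_lt with h6 | h6
      · exact Or.inr (h6 ▸ h2.le)
      · rcases h5.eq_or_lt with h7 | h7
        · exact Or.inl (h7 ▸ h3.le)
        · exact absurd h7 (no d hd h6)
    · exact Or.inl (h3.le.trans h5)

def ch : Fin 5 → Finset L := ![{0, 2, 4, 10, 11, 26, 27, 29, 30}, {0, 2, 4, 5, 7, 13, 27, 29, 30},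
  {0, 2, 8, 9, 19, 20, 28, 29, 30}, {0, 2, 3, 6, 12, 21, 22, 29, 30},
  {0, 1, 14, 15, 16, 18, 23, 24, 30}]

theorem ch_max (i : Fin 5) : IsMaxChain (· ≤ ·) (ch i : Set L) := by
  have h1 : ∀ i, ∀ a ∈ ch i, ∀ b ∈ ch i, a ≤ b ∨ b ≤ a := by decide +kernel
  have h2 : ∀ i, ∀ z, (∀ a ∈ ch i, a ≠ z → a ≤ z ∨ z ≤ a) → z ∈ ch i := by decide +kernel
  exact ⟨fun a ha b hb _ => h1 i a ha b hb, fun t ht hs =>
    hs.antisymm fun z hz => h2 i z fun a ha hne => ht (hs ha) hz hne⟩

theorem lower (T : Finset L) (h1 : ∀ k ∈ T, ¬ k ≤ 25 ∧ ¬ 25 ≤ k)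
    (h2 : ∀ C : Set L, IsMaxChain (· ≤ ·) C → ∃ c ∈ C, c = 25 ∨ c ∈ T) : 5 ≤ T.card := by
  have h3 : ∀ i, (25 : L) ∉ ch i := by decide +kernel
  have h4 : ∀ i j, ∀ c ∈ ch i, c ∈ ch j → ¬ c ≤ 25 → ¬ 25 ≤ c → i = j := by decide +kernel
  have h5 : ∀ i, ∃ c ∈ ch i, c ∈ T := fun i => by
    obtain ⟨c, hc, h⟩ := h2 _ (ch_max i)
    exact ⟨c, hc, h.resolve_left fun e => h3 i (e ▸ hc)⟩
  choose f hf1 hf2 using h5
  simpa using Finset.card_le_card_of_injOn (s := Finset.univ) f (fun i _ => hf2 i)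
    fun i _ j _ e => h4 i j _ (hf1 i) (e ▸ hf1 j) (h1 _ (hf2 i)).1 (h1 _ (hf2 i)).2

def inc (a b : Fin 31) : Bool := !leb a b && !leb b a

def go : List (Fin 31) → ℕ → List (Fin 31) → Bool
  | _, 0, G => (List.finRange 31).any fun z => G.all (inc z)
  | [], _ + 1, _ => true
  | a :: l, k + 1, G => (!G.all (inc a) || go l k (a :: G)) && go l (k + 1) G

theorem sound (l : List (Fin 31)) : ∀ (k : ℕ) (G : List (Fin 31)), go l k G = true →
    ∀ R : List (Fin 31), R.Sublist l → R.length = k → R.Pairwise (fun a b => inc b a = true) →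
      (∀ a ∈ R, G.all (inc a) = true) → ∃ z, ∀ a, a ∈ R ∨ a ∈ G → inc z a = true := by
  have base : ∀ l G : List (Fin 31), go l 0 G = true →
      ∃ z, ∀ a, a ∈ ([] : List (Fin 31)) ∨ a ∈ G → inc z a = true := by
    intro l G h
    cases l <;> simpa [go] using h
  induction l with
  | nil =>
    intro k G h R hR hk _ _
    obtain rfl := List.sublist_nil.1 hR
    subst hk
    exact base _ _ h
  | cons a l ih =>
    intro k G h R hR hk h1 h2
    cases k with
    | zero =>
      obtain rfl := List.length_eq_zero_iff.1 hk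
      exact base _ _ h
    | succ k =>
      simp only [go, Bool.and_eq_true, Bool.or_eq_true, Bool.not_eq_true'] at h
      cases hR with
      | cons _ hR => exact ih _ G h.2 R hR hk h1 h2
      | cons_cons _ hR =>
        rename_i R
        rw [List.pairwise_cons] at h1
        have h3 := h.1.resolve_left (by simp only [h2 a List.mem_cons_self]; simp)
        obtain ⟨z, hz⟩ := ih k _ h3 R hR (by simpa using hk) h1.2 fun b hb => by
          rw [List.all_cons, h1.1 b hb, h2 b (List.mem_cons_of_mem _ hb)]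
          rfl
        refine ⟨z, fun b hb => hz b ?_⟩
        simp only [List.mem_cons] at hb ⊢
        tauto

theorem run : go (List.finRange 31) 5 [25] = true := by decide +kernel

theorem inc_iff (a b : L) : inc a b = true ↔ ¬ a ≤ b ∧ ¬ b ≤ a := by
  change _ ↔ ¬ leb a b = true ∧ ¬ leb b a = true
  simp [inc]

theorem no_six (A : Finset L) (hA : IsMaxAntichain (· ≤ ·) (A : Set L)) (hx : 25 ∈ A) :
    A.card ≠ 6 := by
  intro h6
  have key : ∀ a ∈ A, ∀ b ∈ A, a ≠ b → inc a b = true := fun a ha b hb h =>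
    (inc_iff a b).2 ⟨hA.1 ha hb h, hA.1 hb ha h.symm⟩
  let R : List L := (List.finRange 31).filter fun a => decide (a ∈ A.erase 25)
  have hn : R.Nodup := (List.nodup_finRange 31).filter _
  have hm : ∀ a, a ∈ R ↔ a ∈ A.erase 25 := fun a =>
    List.mem_filter.trans ⟨fun h => of_decide_eq_true h.2,
      fun h => ⟨List.mem_finRange _, decide_eq_true h⟩⟩
  have hl : R.length = 5 := by
    rw [← List.toFinset_card_of_nodup hn,
      show R.toFinset = A.erase 25 from Finset.ext fun a => List.mem_toFinset.trans (hm a),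
      Finset.card_erase_of_mem hx, h6]
  obtain ⟨z, hz⟩ : ∃ z : L, ∀ a : L, a ∈ R ∨ a ∈ [(25 : L)] → inc z a = true :=
    sound _ 5 [25] run R List.filter_sublist hl
    (List.Pairwise.imp_of_mem (fun {a b} ha hb h => key b (Finset.mem_of_mem_erase ((hm b).1 hb))
      a (Finset.mem_of_mem_erase ((hm a).1 ha)) (Ne.symm h)) hn)
    fun a ha => by
      have h := Finset.mem_erase.1 ((hm a).1 ha)
      rw [List.all_cons, List.all_nil, Bool.and_true]
      exact key a h.2 25 hx h.1
  have h1 : ∀ a ∈ A, ¬ z ≤ a ∧ ¬ a ≤ z := fun a ha => (inc_iff z a).1 (hz a (by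
    by_cases e : a = 25
    · exact Or.inr (e ▸ List.mem_singleton_self _)
    · exact Or.inl ((hm a).2 (Finset.mem_erase.2 ⟨e, ha⟩))))
  have h2 := hA.2 (hA.1.insert (a := z) (fun b hb _ => (h1 b hb).2) fun b hb _ => (h1 b hb).1)
    (Set.subset_insert _ _)
  have h3 : (z : L) ∈ (A : Set L) := h2 ▸ Set.mem_insert _ _
  exact (h1 z h3).1 le_rfl

end Pool.Agent.H32.DistCut
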