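import Mathlib
import Pool.Agent.H32.Congr

set_option autoImplicit false

namespace Pool.Agent.H32.FourBar

open Real

abbrev E := EuclideanSpace ℝ (Fin 2)

theorem dist_sq (a b : E) : dist a b ^ 2 = (a 0 - b 0) ^ 2 + (a 1 - b 1) ^ 2 := by
  rw [EuclideanSpace.dist_eq, Real.sq_sqrt (by positivity), Fin.sum_univ_two]
  simp [Real.dist_eq, sq_abs]

def G : SimpleGraph (Fin 4) := SimpleGraph.cycleGraph 4

noncomputable def gam (r : ℝ) : Fin 4 → E :=
  ![!₂[3 / 2 - (6 + |r|) / (2 * √(1 + |r|)), √|r| * √(24 - |r|) / (2 * √(1 + |r|))],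
    !₂[3 / 2, 0],
    !₂[3 / 2 - (4 + |r|) / (2 * √(1 + |r|)), -((√r - √(-r)) * √(8 - |r|)) / (2 * √(1 + |r|))],
    !₂[3 / 2 - √(1 + |r|), 0]]

noncomputable def vv (r : ℝ) : ℝ :=
  (2 + |r| * (16 - |r|) + r * (√(24 - |r|) * √(8 - |r|))) / (2 * (1 + |r|))

theorem sig_sq (r : ℝ) : (√r - √(-r)) ^ 2 = |r| := by
  rcases le_total 0 r with h | h
  · rw [Real.sqrt_eq_zero'.2 (by linarith : -r ≤ 0), sub_zero, Real.sq_sqrt h, abs_of_nonneg h]
  · rw [Real.sqrt_eq_zero'.2 h, zero_sub, neg_sq, Real.sq_sqrt (by linarith), abs_of_nonpos h]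

theorem sig_mul (r : ℝ) : √|r| * (√r - √(-r)) = r := by
  rcases le_total 0 r with h | h
  · rw [Real.sqrt_eq_zero'.2 (by linarith : -r ≤ 0), sub_zero, abs_of_nonneg h,
      Real.mul_self_sqrt h]
  · rw [Real.sqrt_eq_zero'.2 h, zero_sub, abs_of_nonpos h, mul_neg,
      Real.mul_self_sqrt (by linarith), neg_neg]

theorem gam_d (r : ℝ) (hr : |r| < 1) :
    dist (gam r 0) (gam r 1) ^ 2 = 9 ∧ dist (gam r 1) (gam r 2) ^ 2 = 4 ∧
    dist (gam r 2) (gam r 3) ^ 2 = 1 ∧ dist (gam r 3) (gam r 0) ^ 2 = 4 ∧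
    dist (gam r 1) (gam r 3) ^ 2 = 1 + |r| ∧ dist (gam r 0) (gam r 2) ^ 2 = vv r := by
  have h0 := abs_nonneg r
  have hx : 0 < √(1 + |r|) := Real.sqrt_pos.2 (by linarith)
  have e1 : √(1 + |r|) ^ 2 = 1 + |r| := Real.sq_sqrt (by linarith)
  have e2 : √|r| ^ 2 = |r| := Real.sq_sqrt h0
  have e3 : √(24 - |r|) ^ 2 = 24 - |r| := Real.sq_sqrt (by linarith)
  have e4 : √(8 - |r|) ^ 2 = 8 - |r| := Real.sq_sqrt (by linarith)
  have e5 := sig_sq r
  have e6 := sig_mul r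
  simp only [dist_sq, gam, vv, Matrix.cons_val_zero, Matrix.cons_val_one, Matrix.cons_val_two,
    Matrix.cons_val_three, Matrix.head_cons, Matrix.tail_cons]
  generalize √(1 + |r|) = x at *
  generalize √|r| = s at *
  generalize √(24 - |r|) = a at *
  generalize √(8 - |r|) = b at *
  generalize √r - √(-r) = σ at *
  generalize |r| = k at *
  have hk : k = x ^ 2 - 1 := by linarith
  have f1 : (s * a) ^ 2 = k * (24 - k) := by rw [mul_pow, e2, e3]
  have f2 : (σ * b) ^ 2 = k * (8 - k) := by rw [mul_pow, e5, e4]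
  have f3 : (s * a) * (σ * b) = r * (a * b) := by rw [← e6]; ring
  generalize s * a = P at *
  generalize σ * b = Q at *
  rw [← e1, ← f3]
  refine ⟨?_, ?_, ?_, ?_, ?_, ?_⟩
  · field_simp
    subst hk; linear_combination f1
  · field_simp
    subst hk; linear_combination f2
  · field_simp
    subst hk; linear_combination f2
  · field_simp
    subst hk; linear_combination f1
  · ring
  · field_simp
    linear_combination f1 + f2

theorem gam_cont : Continuous gam := by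
  have hx : ∀ r : ℝ, 2 * √(1 + |r|) ≠ 0 := fun r => by positivity
  apply continuous_pi
  intro i
  fin_cases i <;> simp only [gam] <;> apply (PiLp.continuous_toLp 2 _).comp <;>
    apply continuous_pi <;> intro j <;> fin_cases j <;> simp <;> fun_prop (disch := exact hx)

theorem cm (q : Fin 4 → E) (h1 : dist (q 0) (q 1) ^ 2 = 9) (h2 : dist (q 1) (q 2) ^ 2 = 4)
    (h3 : dist (q 2) (q 3) ^ 2 = 1) (h4 : dist (q 3) (q 0) ^ 2 = 4) (u v : ℝ)
    (hu : dist (q 1) (q 3) ^ 2 = u) (hv : dist (q 0) (q 2) ^ 2 = v) :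
    u * v * (18 - u - v) - 15 * (u + v) + 14 = 0 := by
  have key : ∀ a b c d e f : ℝ, a = dist (q 0) (q 1) ^ 2 → b = dist (q 1) (q 2) ^ 2 →
      c = dist (q 2) (q 3) ^ 2 → d = dist (q 3) (q 0) ^ 2 → e = dist (q 0) (q 2) ^ 2 →
      f = dist (q 1) (q 3) ^ 2 →
      e * f * (a + b + c + d - e - f) + a * c * (b + d + e + f - a - c) +
        b * d * (a + c + e + f - b - d) - a * b * e - c * d * e - a * d * f - b * c * f = 0 := by
    intro a b c d e f ha hb hc hd he hf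
    rw [ha, hb, hc, hd, he, hf]
    simp only [dist_sq]
    ring
  have := key 9 4 1 4 v u h1.symm h2.symm h3.symm h4.symm hv.symm hu.symm
  linear_combination this

noncomputable def phi (u v : ℝ) : ℝ :=
  (2 * u * v - 2 - (u - 1) * (17 - u)) / (√(25 - u) * √(9 - u))

theorem phi_vv (r : ℝ) (hr : |r| < 1) : phi (1 + |r|) (vv r) = r := by
  have h0 := abs_nonneg r
  have e1 : 25 - (1 + |r|) = 24 - |r| := by ring
  have e2 : 9 - (1 + |r|) = 8 - |r| := by ring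
  have h3 : 0 < √(24 - |r|) := Real.sqrt_pos.2 (by linarith)
  have h4 : 0 < √(8 - |r|) := Real.sqrt_pos.2 (by linarith)
  rw [phi, vv, e1, e2]
  field_simp
  ring

theorem phi_abs (u v : ℝ) (h1 : 1 ≤ u) (h2 : u < 2)
    (h : u * v * (18 - u - v) - 15 * (u + v) + 14 = 0) : |phi u v| = u - 1 := by
  have h3 : 0 < √(25 - u) := Real.sqrt_pos.2 (by linarith)
  have h4 : 0 < √(9 - u) := Real.sqrt_pos.2 (by linarith)
  have e3 : √(25 - u) ^ 2 = 25 - u := Real.sq_sqrt (by linarith)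
  have e4 : √(9 - u) ^ 2 = 9 - u := Real.sq_sqrt (by linarith)
  have : phi u v ^ 2 = (u - 1) ^ 2 := by
    rw [phi, div_pow, mul_pow, e3, e4, div_eq_iff (by nlinarith)]
    linear_combination (-4 * u) * h
  rw [← Real.sqrt_sq_eq_abs, this, Real.sqrt_sq (by linarith)]

theorem vv_phi (u v : ℝ) (h1 : 1 ≤ u) (h2 : u < 2)
    (h : u * v * (18 - u - v) - 15 * (u + v) + 14 = 0) : vv (phi u v) = v := by
  have h3 : 0 < √(25 - u) := Real.sqrt_pos.2 (by linarith)
  have h4 : 0 < √(9 - u) := Real.sqrt_pos.2 (by linarith)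
  have e1 : 24 - (u - 1) = 25 - u := by ring
  have e2 : 8 - (u - 1) = 9 - u := by ring
  have e3 : 1 + (u - 1) = u := by ring
  rw [vv, phi_abs u v h1 h2 h, e1, e2, e3, phi]
  field_simp
  ring

theorem vv_mono (a b : ℝ) (ha : 0 ≤ a) (hab : a ≤ b) (hb : b ≤ 1 / 2) : vv a ≤ vv b := by
  have hb0 : 0 ≤ b := ha.trans hab
  rw [vv, vv, abs_of_nonneg ha, abs_of_nonneg hb0]
  have k : ∀ c : ℝ, 8 ≤ c → a * (c - a) / (1 + a) ≤ b * (c - b) / (1 + b) := by
    intro c hc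
    rw [div_le_div_iff₀ (by linarith) (by linarith)]
    have : 0 ≤ (b - a) * (c - a - b - a * b) := mul_nonneg (by linarith) (by nlinarith)
    nlinarith
  have k1 : (2 + a * (16 - a)) / (2 * (1 + a)) ≤ (2 + b * (16 - b)) / (2 * (1 + b)) := by
    rw [div_le_div_iff₀ (by linarith) (by linarith)]
    have : 0 ≤ (b - a) * (14 - a - b - a * b) := mul_nonneg (by linarith) (by nlinarith)
    nlinarith
  have k2 : ∀ x : ℝ, 0 ≤ x → x ≤ 1 / 2 → x * (√(24 - x) * √(8 - x)) / (2 * (1 + x)) =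
      √(x * (24 - x) / (1 + x) * (x * (8 - x) / (1 + x))) / 2 := by
    intro x hx hx'
    have : x * (24 - x) / (1 + x) * (x * (8 - x) / (1 + x)) =
        (x * (√(24 - x) * √(8 - x)) / (1 + x)) ^ 2 := by
      rw [div_pow, mul_pow, mul_pow, Real.sq_sqrt (by linarith), Real.sq_sqrt (by linarith)]
      field_simp
    rw [this, Real.sqrt_sq (by positivity)]
    field_simp
  rw [add_div, add_div (2 + b * (16 - b)), k2 a ha (hab.trans hb), k2 b hb0 hb]
  have k3 := Real.sqrt_le_sqrt (mul_le_mul (k 24 (by norm_num)) (k 8 le_rfl)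
    (div_nonneg (mul_nonneg ha (by linarith)) (by linarith))
    (div_nonneg (mul_nonneg hb0 (by linarith)) (by linarith)))
  linarith

abbrev Rel : (Fin 4 → E) → (Fin 4 → E) → Prop :=
  fun q q' => ∃ T : E ≃ᵢ E, ∀ i, T (q i) = q' i

noncomputable def dq (i j : Fin 4) : Quot Rel → ℝ :=
  Quot.lift (fun q => dist (q i) (q j) ^ 2) (by
    rintro q q' ⟨T, hT⟩
    simp only [← hT, T.dist_eq])

theorem dq_cont (i j : Fin 4) : Continuous (dq i j) :=
  continuous_quot_lift _ (by fun_prop)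

theorem dist_ext (q q' : Fin 4 → E) (R : ℝ → ℝ → Prop) (h0 : R 0 0)
    (h1 : R (dist (q 0) (q 1)) (dist (q' 0) (q' 1)))
    (h2 : R (dist (q 1) (q 2)) (dist (q' 1) (q' 2)))
    (h3 : R (dist (q 2) (q 3)) (dist (q' 2) (q' 3)))
    (h4 : R (dist (q 3) (q 0)) (dist (q' 3) (q' 0)))
    (h5 : R (dist (q 1) (q 3)) (dist (q' 1) (q' 3)))
    (h6 : R (dist (q 0) (q 2)) (dist (q' 0) (q' 2))) :
    ∀ i j, R (dist (q i) (q j)) (dist (q' i) (q' j)) := by
  intro i j
  fin_cases i <;> fin_cases j <;>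
    first
    | assumption
    | (rw [dist_self, dist_self]; exact h0)
    | (rw [dist_comm (q _), dist_comm (q' _)]; assumption)

theorem sq_eq {a b : ℝ} (ha : 0 ≤ a) (hb : 0 ≤ b) (h : a ^ 2 = b ^ 2) : a = b :=
  (pow_left_inj₀ ha hb two_ne_zero).1 h

theorem gam_edge (r : ℝ) (hr : |r| < 1) (i j : Fin 4) (h : G.Adj i j) :
    dist (gam r i) (gam r j) = dist (gam 0 i) (gam 0 j) := by
  obtain ⟨a1, a2, a3, a4, -, -⟩ := gam_d r hr
  obtain ⟨b1, b2, b3, b4, -, -⟩ := gam_d 0 (by simp)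
  have c1 := sq_eq dist_nonneg dist_nonneg (a1.trans b1.symm)
  have c2 := sq_eq dist_nonneg dist_nonneg (a2.trans b2.symm)
  have c3 := sq_eq dist_nonneg dist_nonneg (a3.trans b3.symm)
  have c4 := sq_eq dist_nonneg dist_nonneg (a4.trans b4.symm)
  fin_cases i <;> fin_cases j <;>
    first
    | assumption
    | (rw [dist_comm (gam r _), dist_comm (gam 0 _)]; assumption)
    | exact absurd h (by unfold G; decide)

def C : Set (Quot Rel) := {x | ∃ q : Fin 4 → E, Quot.mk Rel q = x ∧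
  ∀ i j : Fin 4, G.Adj i j → dist (q i) (q j) = dist (gam 0 i) (gam 0 j)}

def O : Set (Quot Rel) := {x | dq 1 3 x < 2}

theorem O_open : IsOpen O := isOpen_lt (dq_cont 1 3) continuous_const

theorem mem_spec (x : Quot Rel) (hx : x ∈ O ∩ C) :
    1 ≤ dq 1 3 x ∧ dq 1 3 x < 2 ∧ |phi (dq 1 3 x) (dq 0 2 x)| = dq 1 3 x - 1 ∧
      Quot.mk Rel (gam (phi (dq 1 3 x) (dq 0 2 x))) = x := by
  obtain ⟨hO, q, rfl, hq⟩ := hx
  obtain ⟨b1, b2, b3, b4, -, -⟩ := gam_d 0 (by simp)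
  have c1 := hq 0 1 (by unfold G; decide)
  have c2 := hq 1 2 (by unfold G; decide)
  have c3 := hq 2 3 (by unfold G; decide)
  have c4 := hq 3 0 (by unfold G; decide)
  change dist (q 1) (q 3) ^ 2 < 2 at hO
  change 1 ≤ dist (q 1) (q 3) ^ 2 ∧ dist (q 1) (q 3) ^ 2 < 2 ∧
    |phi (dist (q 1) (q 3) ^ 2) (dist (q 0) (q 2) ^ 2)| = dist (q 1) (q 3) ^ 2 - 1 ∧
    Quot.mk Rel (gam (phi (dist (q 1) (q 3) ^ 2) (dist (q 0) (q 2) ^ 2))) = _
  have hcm := cm q (c1 ▸ b1) (c2 ▸ b2) (c3 ▸ b3) (c4 ▸ b4) _ _ rfl rfl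
  have d2 : dist (q 1) (q 2) = 2 := sq_eq dist_nonneg (by norm_num) (by rw [c2, b2]; norm_num)
  have d3 : dist (q 2) (q 3) = 1 := sq_eq dist_nonneg (by norm_num) (by rw [c3, b3]; norm_num)
  have h1 : 1 ≤ dist (q 1) (q 3) ^ 2 := by
    have := dist_triangle_right (q 1) (q 2) (q 3)
    nlinarith
  have ha := phi_abs _ _ h1 hO hcm
  have hv := vv_phi _ _ h1 hO hcm
  refine ⟨h1, hO, ha, Quot.sound ?_⟩
  have hr : |phi (dist (q 1) (q 3) ^ 2) (dist (q 0) (q 2) ^ 2)| < 1 := by linarith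
  obtain ⟨-, -, -, -, a5, a6⟩ := gam_d _ hr
  apply Pool.Agent.H32.Congr.exists_isometry
  refine dist_ext _ _ (· = ·) rfl ?_ ?_ ?_ ?_ ?_ ?_
  · rw [c1]; exact gam_edge _ hr _ _ (by unfold G; decide)
  · rw [c2]; exact gam_edge _ hr _ _ (by unfold G; decide)
  · rw [c3]; exact gam_edge _ hr _ _ (by unfold G; decide)
  · rw [c4]; exact gam_edge _ hr _ _ (by unfold G; decide)
  · exact sq_eq dist_nonneg dist_nonneg (by rw [a5, ha]; ring)
  · exact sq_eq dist_nonneg dist_nonneg (by rw [a6, hv])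

theorem abs_lt' (b : Set.Ioo (0 : ℝ) 1) : |2 * (b : ℝ) - 1| < 1 := by
  have := b.2.1
  have := b.2.2
  rw [abs_lt]; constructor <;> linarith

noncomputable def hom : ↥(O ∩ C) ≃ₜ ↥(Set.Ioo (0 : ℝ) 1) where
  toFun x := ⟨(phi (dq 1 3 x.1) (dq 0 2 x.1) + 1) / 2, by
    obtain ⟨h1, h2, h3, -⟩ := mem_spec x.1 x.2
    have : |phi (dq 1 3 x.1) (dq 0 2 x.1)| < 1 := by linarith
    rw [abs_lt] at this
    constructor <;> linarith [this.1, this.2]⟩
  invFun b := ⟨Quot.mk Rel (gam (2 * b - 1)), by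
    refine ⟨?_, _, rfl, gam_edge _ (abs_lt' b)⟩
    change dist _ _ ^ 2 < 2
    rw [(gam_d _ (abs_lt' b)).2.2.2.2.1]
    linarith [abs_lt' b]⟩
  left_inv x := by
    apply Subtype.ext
    have : 2 * ((phi (dq 1 3 x.1) (dq 0 2 x.1) + 1) / 2) - 1 = phi (dq 1 3 x.1) (dq 0 2 x.1) := by
      ring
    simp only [this]
    exact (mem_spec x.1 x.2).2.2.2
  right_inv b := by
    apply Subtype.ext
    change (phi (dist _ _ ^ 2) (dist _ _ ^ 2) + 1) / 2 = _
    rw [(gam_d _ (abs_lt' b)).2.2.2.2.1, (gam_d _ (abs_lt' b)).2.2.2.2.2, phi_vv _ (abs_lt' b)]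
    ring
  continuous_toFun := by
    apply Continuous.subtype_mk
    have h1 : Continuous fun x : ↥(O ∩ C) => dq 1 3 x.1 := (dq_cont 1 3).comp continuous_subtype_val
    have h2 : Continuous fun x : ↥(O ∩ C) => dq 0 2 x.1 := (dq_cont 0 2).comp continuous_subtype_val
    have h3 : ∀ x : ↥(O ∩ C), √(25 - dq 1 3 x.1) * √(9 - dq 1 3 x.1) ≠ 0 := by
      intro x
      have := (mem_spec x.1 x.2).2.1
      exact mul_ne_zero (Real.sqrt_pos.2 (by linarith)).ne' (Real.sqrt_pos.2 (by linarith)).ne'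
    unfold phi
    fun_prop (disch := exact h3)
  continuous_invFun := by
    apply Continuous.subtype_mk
    exact continuous_quot_mk.comp (gam_cont.comp (by fun_prop))

noncomputable def ng : E ≃ᵢ E := IsometryEquiv.neg E

theorem ng_sq : ng * ng = 1 := by
  ext x : 1
  simp [ng]

theorem ng_ne : ng ≠ 1 := by
  intro h
  have := congrArg (fun T : E ≃ᵢ E => T !₂[1, 0] 0) h
  simp [ng] at this
  norm_num at this

noncomputable def Gam : Subgroup (E ≃ᵢ E) where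
  carrier := {1, ng}
  one_mem' := Or.inl rfl
  mul_mem' := by
    rintro a b (rfl | rfl) (rfl | rfl)
    · simp
    · simp
    · simp
    · exact Or.inl ng_sq
  inv_mem' := by
    rintro a (rfl | rfl)
    · simp
    · exact Or.inr (inv_eq_of_mul_eq_one_right ng_sq)

instance : Finite Gam := (Set.toFinite ({1, ng} : Set (E ≃ᵢ E))).to_subtype

def sw : Equiv.Perm (Fin 4) := Equiv.swap 0 1 * Equiv.swap 2 3

open Classical in
noncomputable def th : Gam →* Equiv.Perm (Fin 4) where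
  toFun γ := if (γ : E ≃ᵢ E) = 1 then 1 else sw
  map_one' := by simp
  map_mul' := by
    rintro ⟨a, rfl | rfl⟩ ⟨b, rfl | rfl⟩
    · simp
    · simp
    · simp
    · simp only [Subgroup.coe_mul, ng_sq, ng_ne, if_true, if_false]
      decide

theorem th_ng : th ⟨ng, Or.inr rfl⟩ = sw := by simp [th, ng_ne]

theorem th_one : th ⟨1, Or.inl rfl⟩ = 1 := by simp [th]

theorem th_adj (γ : Gam) (u v : Fin 4) : G.Adj u v ↔ G.Adj (th γ u) (th γ v) := by
  obtain ⟨a, rfl | rfl⟩ := γ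
  · rw [th_one]; rfl
  · rw [th_ng]
    unfold G
    revert u v
    decide

theorem th_sym (γ : Gam) (i : Fin 4) : (γ : E ≃ᵢ E) (gam 0 i) = gam 0 (th γ i) := by
  obtain ⟨a, rfl | rfl⟩ := γ
  · rw [th_one]; rfl
  · rw [th_ng]
    have e0 : sw 0 = 1 := by decide
    have e1 : sw 1 = 0 := by decide
    have e2 : sw 2 = 3 := by decide
    have e3 : sw 3 = 2 := by decide
    fin_cases i <;> simp only [Fin.zero_eta, Fin.mk_one, Fin.reduceFinMk, e0, e1, e2, e3] <;>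
      ext j <;> fin_cases j <;> simp [ng, gam] <;> norm_num

theorem half (t : ℝ) (ht : t ∈ Set.Icc (0 : ℝ) 1) : |t / 2| = t / 2 ∧ |t / 2| < 1 := by
  have h := abs_of_nonneg (by linarith [ht.1] : 0 ≤ t / 2)
  exact ⟨h, by linarith [ht.2]⟩

theorem mono (i j : Fin 4) :
    MonotoneOn (fun t => dist (gam (t / 2) i) (gam (t / 2) j)) (Set.Icc (0 : ℝ) 1) := by
  intro a ha b hb hab
  obtain ⟨a1, a2, a3, a4, a5, a6⟩ := gam_d _ (half a ha).2
  obtain ⟨b1, b2, b3, b4, b5, b6⟩ := gam_d _ (half b hb).2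
  refine dist_ext (gam (a / 2)) (gam (b / 2)) (· ≤ ·) le_rfl ?_ ?_ ?_ ?_ ?_ ?_ i j <;>
    refine le_of_sq_le_sq ?_ dist_nonneg
  · rw [a1, b1]
  · rw [a2, b2]
  · rw [a3, b3]
  · rw [a4, b4]
  · rw [a5, b5, (half a ha).1, (half b hb).1]; linarith
  · rw [a6, b6]
    exact vv_mono _ _ (by linarith [ha.1]) (by linarith) (by linarith [hb.2])

theorem inj : Set.InjOn (fun t : ℝ => Quot.mk Rel (gam (t / 2))) (Set.Icc (0 : ℝ) 1) := by
  intro a ha b hb h
  have h2 : dist (gam (a / 2) 1) (gam (a / 2) 3) ^ 2 = dist (gam (b / 2) 1) (gam (b / 2) 3) ^ 2 :=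
    congrArg (dq 1 3) h
  rw [(gam_d _ (half a ha).2).2.2.2.2.1, (gam_d _ (half b hb).2).2.2.2.2.1, (half a ha).1,
    (half b hb).1] at h2
  linarith

theorem nosym (T : E ≃ᵢ E)
    (h : ∀ (γ : Gam) (i : Fin 4), (γ : E ≃ᵢ E) (T (gam (1 / 2) i)) = T (gam (1 / 2) (th γ i))) :
    False := by
  have h0 := h ⟨ng, Or.inr rfl⟩ 0
  have h2 := h ⟨ng, Or.inr rfl⟩ 2
  have e0 : sw 0 = 1 := by decide
  have e2 : sw 2 = 3 := by decide
  rw [th_ng, e0] at h0
  rw [th_ng, e2] at h2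
  have hd : dist (gam (1 / 2) 0) (gam (1 / 2) 2) = dist (gam (1 / 2) 1) (gam (1 / 2) 3) := by
    rw [← T.dist_eq (gam (1 / 2) 1), ← h0, ← h2, IsometryEquiv.dist_eq, T.dist_eq]
  have ha : |(1 / 2 : ℝ)| = 1 / 2 := abs_of_nonneg (by norm_num)
  obtain ⟨-, -, -, -, a5, a6⟩ := gam_d (1 / 2) (by rw [ha]; norm_num)
  rw [hd, a5, vv, ha] at a6
  have : 0 ≤ √(24 - 1 / 2) * √(8 - 1 / 2) := by positivity
  rw [eq_div_iff (by norm_num)] at a6
  linarith

theorem moves : dist (gam (1 / 2) 1) (gam (1 / 2) 3) ≠ dist (gam 0 1) (gam 0 3) := by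
  intro h
  have ha : |(1 / 2 : ℝ)| = 1 / 2 := abs_of_nonneg (by norm_num)
  have a5 := (gam_d (1 / 2) (by rw [ha]; norm_num)).2.2.2.2.1
  have b5 := (gam_d 0 (by simp)).2.2.2.2.1
  rw [h, b5, ha] at a5
  norm_num at a5

end Pool.Agent.H32.FourBar
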