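import Mathlib
import Pool.Agent.H32.FourBar

set_option autoImplicit false

namespace Pool.Agent.H32.Dixon

open Filter Topology
open Pool.Agent.H32.FourBar (E dist_sq sq_eq)

abbrev V (m : ℕ) := Fin m × Bool × Bool

def G (m : ℕ) : SimpleGraph (V m) where
  Adj a b := (a.2.2 = b.2.2 ∧ a.2.1 ≠ b.2.1) ∨ (a.2.2 ≠ b.2.2 ∧ a.1 = b.1 ∧ a.2.1 = b.2.1)
  symm := ⟨fun _ _ h => h.imp (fun h => ⟨h.1.symm, h.2.symm⟩)
    (fun h => ⟨h.1.symm, h.2.1.symm, h.2.2.symm⟩)⟩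
  loopless := ⟨fun _ h => h.elim (fun h => h.2 rfl) (fun h => h.1 rfl)⟩

noncomputable def q (m : ℕ) (s t : ℝ) (a : V m) : E :=
  !₂[(if a.2.1 then 0 else √(((a.1 : ℝ) + 1) ^ 2 + s)) +
      (if a.2.2 then (1 - t ^ 2 - 2 * t) / (2 * (1 + t ^ 2)) else 0),
     (if a.2.1 then √(((a.1 : ℝ) + 1) ^ 2 - s) else 0) +
      (if a.2.2 then (1 - t ^ 2 + 2 * t) / (2 * (1 + t ^ 2)) else 0)]

theorem q_cont (m : ℕ) : Continuous fun x : ℝ × ℝ => q m x.1 x.2 := by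
  have h : ∀ x : ℝ × ℝ, 2 * (1 + x.2 ^ 2) ≠ 0 := fun x => by positivity
  apply continuous_pi
  rintro ⟨i, b, c⟩
  apply (PiLp.continuous_toLp 2 _).comp
  apply continuous_pi
  intro j
  fin_cases j <;> cases b <;> cases c <;> simp <;> fun_prop (disch := exact h)

theorem sq_rt (i : ℕ) (s : ℝ) (hs : |s| < 1) :
    √(((i : ℝ) + 1) ^ 2 + s) ^ 2 = (i + 1) ^ 2 + s ∧ √(((i : ℝ) + 1) ^ 2 - s) ^ 2 = (i + 1) ^ 2 - s := by
  have h0 : (0 : ℝ) ≤ i := Nat.cast_nonneg i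
  rw [abs_lt] at hs
  constructor <;> apply Real.sq_sqrt <;> nlinarith [hs.1, hs.2]

theorem rt0 (i : ℕ) : √(((i : ℝ) + 1) ^ 2) = i + 1 := Real.sqrt_sq (by positivity)

theorem q_edge (m : ℕ) (s t : ℝ) (hs : |s| < 1) (a b : V m) (h : (G m).Adj a b) :
    dist (q m s t a) (q m s t b) = dist (q m 0 0 a) (q m 0 0 b) := by
  apply sq_eq dist_nonneg dist_nonneg
  obtain ⟨i, b1, c1⟩ := a
  obtain ⟨j, b2, c2⟩ := b
  have h1 := sq_rt i s hs
  have h2 := sq_rt j s hs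
  have h3 : (1 + t ^ 2) ≠ 0 := by positivity
  rcases h with ⟨h, h'⟩ | ⟨h, h', h''⟩
  · cases b1 <;> cases b2 <;> cases c1 <;> cases c2 <;> simp at h h' <;>
      simp [dist_sq, q, rt0, h1, h2] <;> ring
  · simp only at h h' h''
    subst h' h''
    cases c1 <;> cases c2 <;> simp at h <;> simp [dist_sq, q] <;> field_simp <;> ring

theorem dixon (i j : ℕ) (s : ℝ) (hs : |s| < 1) (h0 : s ≠ 0)
    (h : (√(((i : ℝ) + 1) ^ 2 + s) - √(((j : ℝ) + 1) ^ 2 + s)) ^ 2 = ((i : ℝ) - j) ^ 2) : i = j := by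
  have h1 := (sq_rt i s hs).1
  have h2 := (sq_rt j s hs).1
  generalize √(((i : ℝ) + 1) ^ 2 + s) = x at *
  generalize √(((j : ℝ) + 1) ^ 2 + s) = y at *
  have h3 : x * y = (i + 1) * (j + 1) + s := by linear_combination (h1 + h2 - h) / 2
  have h4 : s * ((i : ℝ) - j) ^ 2 = 0 := by
    linear_combination (x * y + (i + 1) * (j + 1) + s) * h3 - y ^ 2 * h1 - ((i + 1) ^ 2 + s) * h2
  have h5 := pow_eq_zero_iff two_ne_zero |>.1 ((mul_eq_zero.1 h4).resolve_left h0)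
  exact_mod_cast sub_eq_zero.1 h5

theorem rot (x y t : ℝ) (h0 : t ≠ 0)
    (h1 : (x + (1 - t ^ 2 - 2 * t) / (2 * (1 + t ^ 2))) ^ 2 +
      (y + (1 - t ^ 2 + 2 * t) / (2 * (1 + t ^ 2))) ^ 2 = (x + 1 / 2) ^ 2 + (y + 1 / 2) ^ 2)
    (h2 : (x + (1 - t ^ 2 + 2 * t) / (2 * (1 + t ^ 2))) ^ 2 +
      (y + (1 - t ^ 2 - 2 * t) / (2 * (1 + t ^ 2))) ^ 2 = (x + 1 / 2) ^ 2 + (y + 1 / 2) ^ 2) :
    x = 0 ∧ y = 0 := by
  have h3 : (1 + t ^ 2) ≠ 0 := by positivity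
  field_simp at h1 h2
  have h4 : t * (1 + t ^ 2) * (x - y) = 0 := by linear_combination (h2 - h1) / 16
  have h5 : t ^ 2 * (1 + t ^ 2) * (x + y) = 0 := by linear_combination -(h2 + h1) / 16
  have h6 := (mul_eq_zero.1 h4).resolve_left (mul_ne_zero h0 h3)
  have h7 := (mul_eq_zero.1 h5).resolve_left (mul_ne_zero (pow_ne_zero 2 h0) h3)
  constructor <;> linarith

theorem flex (m : ℕ) (a b : V m) (s : ℝ) (hs : |s| < 1) (h0 : s ≠ 0)
    (h1 : dist (q m s 0 a) (q m s 0 b) = dist (q m 0 0 a) (q m 0 0 b))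
    (h2 : dist (q m 0 s a) (q m 0 s b) = dist (q m 0 0 a) (q m 0 0 b))
    (h3 : dist (q m 0 (-s) a) (q m 0 (-s) b) = dist (q m 0 0 a) (q m 0 0 b)) :
    (a.2.2 = b.2.2 → a.2.1 = b.2.1 → a.1 = b.1) ∧
      (a.2.2 = true → b.2.2 = false → a.1 = b.1 ∧ a.2.1 = b.2.1) := by
  obtain ⟨i, b1, c1⟩ := a
  obtain ⟨j, b2, c2⟩ := b
  have h1' := congrArg (· ^ 2) h1
  have h2' := congrArg (· ^ 2) h2
  have h3' := congrArg (· ^ 2) h3
  constructor
  · intro e1 e2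
    simp only at e1 e2
    subst e1 e2
    apply Fin.ext
    cases b1
    · apply dixon _ _ s hs h0
      simpa [dist_sq, q, rt0] using h1'
    · apply dixon _ _ (-s) (by simpa using hs) (by simpa using h0)
      simpa [dist_sq, q, rt0, sub_eq_add_neg] using h1'
  · intro e1 e2
    simp only at e1 e2
    subst e1 e2
    simp only [dist_sq, q, Matrix.cons_val_zero, Matrix.cons_val_one, if_true, add_zero, sub_zero,
      rt0, Bool.false_eq_true, if_false] at h2' h3'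
    have hi : (0 : ℝ) ≤ (i : ℕ) := Nat.cast_nonneg _
    have hj : (0 : ℝ) ≤ (j : ℕ) := Nat.cast_nonneg _
    obtain ⟨e1, e2⟩ := rot ((if b1 = true then 0 else ((i : ℕ) : ℝ) + 1) -
      (if b2 = true then 0 else ((j : ℕ) : ℝ) + 1)) ((if b1 = true then ((i : ℕ) : ℝ) + 1 else 0) -
      (if b2 = true then ((j : ℕ) : ℝ) + 1 else 0)) s h0 (by linear_combination h2')
      (by linear_combination h3')
    cases b1 <;> cases b2 <;> simp [sub_eq_zero] at e1 e2 ⊢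
    · exact Fin.ext e1
    · linarith
    · linarith
    · exact Fin.ext e2

theorem q_inj (m : ℕ) : Function.Injective (q m 0 0) := by
  rintro ⟨i, b1, c1⟩ ⟨j, b2, c2⟩ h
  have h0 := congrArg (fun x : E => 2 * x 0) h
  have h1 := congrArg (fun x : E => 2 * x 1) h
  cases b1 <;> cases b2 <;> cases c1 <;> cases c2 <;>
    simp [q, rt0, mul_add] at h0 h1 ⊢ <;> norm_cast at h0 h1 <;> first | omega | exact Fin.ext (by omega)

theorem three (m : ℕ) (S : Set (V m)) (hS : 3 ≤ S.ncard)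
    (h : ∀ a ∈ S, ∀ b ∈ S, (a.2.2 = b.2.2 → a.2.1 = b.2.1 → a.1 = b.1) ∧
      (a.2.2 = true → b.2.2 = false → a.1 = b.1 ∧ a.2.1 = b.2.1)) : False := by
  obtain ⟨a, ha, b, hb, c, hc, h1, h2, h3⟩ := (Set.two_lt_ncard (Set.toFinite S)).1 hS
  have k1 := h a ha b hb
  have k2 := h b hb a ha
  have k3 := h a ha c hc
  have k4 := h c hc a ha
  have k5 := h b hb c hc
  have k6 := h c hc b hb
  obtain ⟨i, b1, c1⟩ := a
  obtain ⟨j, b2, c2⟩ := b
  obtain ⟨k, b3, c3⟩ := c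
  clear h ha hb hc hS
  cases b1 <;> cases b2 <;> cases b3 <;> cases c1 <;> cases c2 <;> cases c3 <;>
    simp [Fin.ext_iff] at h1 h2 h3 k1 k2 k3 k4 k5 k6 <;> omega

theorem noncol (m : ℕ) (v : V (m + 2)) :
    ¬ Collinear ℝ (q (m + 2) 0 0 '' (G (m + 2)).neighborSet v) := by
  intro h
  obtain ⟨i, b, c⟩ := v
  have m1 : ((0 : Fin (m + 2)), !b, c) ∈ (G (m + 2)).neighborSet (i, b, c) :=
    Or.inl ⟨rfl, by cases b <;> simp⟩
  have m2 : ((1 : Fin (m + 2)), !b, c) ∈ (G (m + 2)).neighborSet (i, b, c) :=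
    Or.inl ⟨rfl, by cases b <;> simp⟩
  have m3 : (i, b, !c) ∈ (G (m + 2)).neighborSet (i, b, c) :=
    Or.inr ⟨by cases c <;> simp, rfl, rfl⟩
  obtain ⟨d, hd⟩ := (collinear_iff_of_mem (Set.mem_image_of_mem _ m1)).1 h
  obtain ⟨r, hr⟩ := hd _ (Set.mem_image_of_mem _ m2)
  obtain ⟨r', hr'⟩ := hd _ (Set.mem_image_of_mem _ m3)
  have a0 := congrArg (fun x : E => x 0) hr
  have a1 := congrArg (fun x : E => x 1) hr
  have b0 := congrArg (fun x : E => x 0) hr'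
  have b1 := congrArg (fun x : E => x 1) hr'
  have hi : (0 : ℝ) ≤ (i : ℕ) := Nat.cast_nonneg _
  cases b <;> cases c <;> simp [q, rt0] at a0 a1 b0 b1
  · rcases a0 with a0 | a0
    · rw [a0] at a1; linarith
    · rw [a0] at b0; linarith
  · rcases a0 with a0 | a0
    · rw [a0] at a1; linarith
    · rw [a0] at b0; linarith
  · rcases a1 with a1 | a1
    · rw [a1] at a0; linarith
    · rw [a1] at b1; linarith
  · rcases a1 with a1 | a1
    · rw [a1] at a0; linarith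
    · rw [a1] at b1; linarith

theorem edges (m : ℕ) : 2 * m ^ 2 ≤ (G m).edgeSet.ncard := by
  let F : Fin m × Fin m × Bool → Sym2 (V m) := fun x => s((x.1, false, x.2.2), (x.2.1, true, x.2.2))
  have hF : Function.Injective F := by
    rintro ⟨i, j, c⟩ ⟨i', j', c'⟩ h
    simp [F] at h
    simp [h]
  have := Set.ncard_range_of_injective hF
  simp only [Nat.card_eq_fintype_card, Fintype.card_prod, Fintype.card_fin, Fintype.card_bool]
    at this
  refine le_trans (by rw [this]; nlinarith) (Set.ncard_le_ncard (s := Set.range F) ?_ (Set.toFinite _))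
  rintro _ ⟨x, rfl⟩
  exact Or.inl ⟨rfl, by simp⟩

theorem nonrigid (m : ℕ) {W : Type} (f : W → V m) (hf : 3 ≤ (Set.range f).ncard)
    (U : Set (W → E)) (hU : U ∈ 𝓝 (q m 0 0 ∘ f)) (A : W → W → Prop)
    (hA : ∀ u v, A u v → (G m).Adj (f u) (f v))
    (h : ∀ r ∈ U, (∀ u v, A u v → dist (r u) (r v) = dist (q m 0 0 (f u)) (q m 0 0 (f v))) →
      ∀ u v, dist (r u) (r v) = dist (q m 0 0 (f u)) (q m 0 0 (f v))) : False := by
  have hc : ∀ g : ℝ → ℝ × ℝ, Continuous g → g 0 = (0, 0) →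
      ∀ᶠ s in 𝓝 (0 : ℝ), q m (g s).1 (g s).2 ∘ f ∈ U := by
    intro g hg h0
    have : Continuous fun s => q m (g s).1 (g s).2 ∘ f :=
      continuous_pi fun w => (continuous_apply (f w)).comp ((q_cont m).comp hg)
    apply this.continuousAt.eventually_mem
    simpa only [h0] using hU
  have e1 := hc (fun s => (s, 0)) (by fun_prop) rfl
  have e2 := hc (fun s => (0, s)) (by fun_prop) rfl
  have e3 := hc (fun s => (0, -s)) (by fun_prop) (by simp)
  have e4 : ∀ᶠ s in 𝓝 (0 : ℝ), |s| < 1 :=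
    continuous_abs.continuousAt.eventually_lt continuousAt_const (by simp)
  obtain ⟨s, ⟨h1, h2, h3, h4⟩, h0⟩ :=
    (((e1.and (e2.and (e3.and e4))).filter_mono nhdsWithin_le_nhds).and
      (self_mem_nhdsWithin (a := (0 : ℝ)) (s := {0}ᶜ))).exists
  apply three m _ hf
  rintro _ ⟨a, rfl⟩ _ ⟨b, rfl⟩
  exact flex m _ _ s h4 h0 (h _ h1 (fun u v huv => q_edge m _ _ h4 _ _ (hA u v huv)) a b)
    (h _ h2 (fun u v huv => q_edge m _ _ (by simp) _ _ (hA u v huv)) a b)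
    (h _ h3 (fun u v huv => q_edge m _ _ (by simp) _ _ (hA u v huv)) a b)

end Pool.Agent.H32.Dixon
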