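import Mathlib

set_option autoImplicit false

namespace Pool.Agent.H32.EquiPoly

open Finset Complex Polynomial Filter Classical

/-- The rectangular lattice `Λ(m)`, with the plane identified with `ℂ`. -/
def Lat (m : ℕ) : Set ℂ := {z | ∃ a b : ℤ, z.re = a ∧ z.im = b * √m}

/-- `P 0, …, P (n-1)` (indices read mod `n`) are the vertices, in counterclockwise order, of a
strictly convex equilateral `n`-gon: all other vertices lie strictly left of each side. -/
def ConvexEquilateral (n : ℕ) (P : ℕ → ℂ) : Prop :=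
  (∀ k, P (k + n) = P k) ∧ (∃ l : ℝ, ∀ k, ‖P (k + 1) - P k‖ = l) ∧
    ∀ i j, i + 1 < j → j < i + n →
      0 < (P (i + 1) - P i).re * (P j - P i).im - (P (i + 1) - P i).im * (P j - P i).re

lemma poly (S : Finset ℂ) (hn : 0 < #S) (h1 : ∀ z ∈ S, ‖z‖ = 1) (h0 : ∑ z ∈ S, z = 0) :
    ∃ v : ℕ → ℂ, (∀ k, v k ∈ S) ∧ ∀ D : ℝ, 0 < D →
      ConvexEquilateral #S fun k => D * ∑ j ∈ range k, v j := by
  have ex : ∀ z ∈ S, exp (arg z * I) = z := fun z hz => by
    simpa [h1 z hz] using norm_mul_exp_arg_mul_I z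
  have io : Set.InjOn arg S := fun x hx y hy e => by rw [← ex x hx, e, ex y hy]
  have hc := card_image_of_injOn io
  generalize #S = n at *
  let e := (S.image arg).orderEmbOfFin hc
  have em : ∀ k, ∃ z ∈ S, arg z = e k := fun k => mem_image.1 ((S.image arg).orderEmbOfFin_mem hc k)
  let θ : ℕ → ℝ := fun k => e ⟨k % n, Nat.mod_lt _ hn⟩ + 2 * Real.pi * (k / n : ℕ)
  have per : ∀ k, θ (k + n) = θ k + 2 * Real.pi := fun k => by
    simp only [θ, Nat.add_mod_right, Nat.add_div_right _ hn]; push_cast; ring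
  have mono : StrictMono θ := strictMono_nat_of_lt_succ fun k => by
    simp only [θ]
    have := Nat.mod_lt k hn
    by_cases h : k % n + 1 < n
    · have a : (k + 1) % n = k % n + 1 := by rw [Nat.add_mod, Nat.mod_eq_of_lt (a := 1) (by omega),
        Nat.mod_eq_of_lt h]
      have b : (k + 1) / n = k / n := Nat.succ_div_of_mod_ne_zero (by omega)
      rw [b]
      exact add_lt_add_left (e.strictMono (by simp [Fin.lt_def, a])) _
    · have a : (k + 1) % n = 0 := by
        rw [← Nat.mod_add_mod, show k % n + 1 = n by omega, Nat.mod_self]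
      rw [Nat.succ_div_of_mod_eq_zero a]
      obtain ⟨x, -, hx⟩ := em ⟨k % n, this⟩
      obtain ⟨y, -, hy⟩ := em ⟨(k + 1) % n, Nat.mod_lt _ hn⟩
      rw [← hx, ← hy]; push_cast
      linarith [arg_le_pi x, neg_pi_lt_arg y]
  have ve : ∀ k, exp (θ k * I) = exp (e ⟨k % n, Nat.mod_lt _ hn⟩ * I) := fun k => by
    simp only [θ]; push_cast
    rw [add_mul, exp_add, show 2 * (Real.pi : ℂ) * (k / n : ℕ) * I = (k / n : ℕ) * (2 * Real.pi * I)
      by ring, exp_nat_mul_two_pi_mul_I, mul_one]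
  have z0 : ∑ j ∈ range n, exp (θ j * I) = 0 := by
    rw [← h0, ← sum_congr rfl ex, ← sum_image (f := fun t : ℝ => exp (t * I)) io, sum_range,
      ← (S.image arg).map_orderEmbOfFin_univ hc, sum_map]
    exact sum_congr rfl fun j _ => by simp [ve, Nat.mod_eq_of_lt j.2, e]
  have pp : ∀ k, ∑ j ∈ range (k + n), exp (θ j * I) = ∑ j ∈ range k, exp (θ j * I) := fun k => by
    rw [add_comm, sum_range_add, z0, zero_add]
    exact sum_congr rfl fun j _ => by simp [ve]
  refine ⟨fun k => exp (θ k * I), fun k => ?_, fun D hD => ⟨fun k => by simp only [pp],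
    ⟨D, fun k => ?_⟩, fun i j h2 h3 => ?_⟩⟩
  · obtain ⟨x, hx, hx'⟩ := em ⟨k % n, Nat.mod_lt _ hn⟩
    simp only [ve, ← hx', ex x hx, hx]
  · simp [sum_range_succ, mul_add, abs_of_pos hD]
  have cr : ∀ j, i ≤ j → (exp (θ i * I)).re * (∑ k ∈ Ico i j, exp (θ k * I)).im -
      (exp (θ i * I)).im * (∑ k ∈ Ico i j, exp (θ k * I)).re = ∑ k ∈ Ico i j, Real.sin (θ k - θ i) := by
    intro j _
    simp only [re_sum, im_sum, exp_ofReal_mul_I_re, exp_ofReal_mul_I_im, mul_sum, ← sum_sub_distrib,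
      Real.sin_sub]
    exact sum_congr rfl fun k _ => by ring
  have t := cr (i + n) (by omega)
  rw [sum_Ico_eq_sub _ (by omega), pp, sub_self] at t
  have g : 0 < ∑ k ∈ Ico i j, Real.sin (θ k - θ i) := by
    by_cases c : θ j - θ i ≤ Real.pi
    · refine sum_pos' (fun k hk => Real.sin_nonneg_of_nonneg_of_le_pi ?_ ?_)
        ⟨i + 1, mem_Ico.2 (by omega), Real.sin_pos_of_pos_of_lt_pi ?_ ?_⟩
      · linarith [mono.monotone (mem_Ico.1 hk).1]
      · linarith [mono (mem_Ico.1 hk).2]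
      · linarith [mono (Nat.lt_add_one i)]
      · linarith [mono h2]
    · rw [← sum_Ico_consecutive _ (by omega : i ≤ j) h3.le] at t
      have := sum_neg (s := Ico j (i + n)) (f := fun k => Real.sin (θ k - θ i)) (fun k hk => by
        rw [← Real.sin_sub_two_pi]
        refine Real.sin_neg_of_neg_of_neg_pi_lt ?_ ?_
        · linarith [mono (mem_Ico.1 hk).2, per i]
        · linarith [mono.monotone (mem_Ico.1 hk).1]) ⟨j, mem_Ico.2 (by omega)⟩
      simp at t; linarith
  rw [← cr j (by omega), sum_Ico_eq_sub _ (by omega)] at g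
  simp only [sum_range_succ, ← mul_sub, add_sub_cancel_left, re_ofReal_mul, im_ofReal_mul]
  nlinarith [mul_pos (mul_pos hD hD) g]

variable (m : ℕ)

noncomputable def K : Subfield ℂ where
  carrier := {z | ∃ a b : ℚ, z.re = a ∧ z.im = b * √m}
  zero_mem' := ⟨0, 0, by simp⟩
  one_mem' := ⟨1, 0, by simp⟩
  add_mem' := fun ⟨a, b, h1, h2⟩ ⟨c, d, h3, h4⟩ => ⟨a + c, b + d, by simp [*, add_mul]⟩
  neg_mem' := fun ⟨a, b, h1, h2⟩ => ⟨-a, -b, by simp [*]⟩
  mul_mem' := fun ⟨a, b, h1, h2⟩ ⟨c, d, h3, h4⟩ => ⟨a * c - b * d * m, a * d + b * c, by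
    have := Real.mul_self_sqrt (Nat.cast_nonneg m)
    simp only [mul_re, mul_im, h1, h2, h3, h4]; push_cast
    exact ⟨by linear_combination (-b * d) * this, by ring⟩⟩
  inv_mem' := fun z ⟨a, b, h1, h2⟩ => ⟨a / (a * a + b * b * m), -b / (a * a + b * b * m), by
    have := Real.mul_self_sqrt (Nat.cast_nonneg m)
    have e : normSq z = a * a + b * b * m := by
      rw [normSq_apply, h1, h2]; linear_combination (b * b) * this
    simp only [inv_re, inv_im, e, h1, h2]; push_cast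
    exact ⟨rfl, by ring⟩⟩

def U : Set ℂ := {z | z ∈ K m ∧ ‖z‖ = 1}

def Q (k : ℕ) (x : ℂ) : Prop :=
  ∀ F : Finset ℂ, ∃ S : Finset ℂ, (∀ z ∈ S, z ∈ U m ∧ z ∉ F) ∧ #S = k ∧ ∑ z ∈ S, z = x

variable {m}

lemma Q.add {k l : ℕ} {x y : ℂ} (h : Q m k x) (h' : Q m l y) : Q m (k + l) (x + y) := fun F => by
  obtain ⟨S, a, b, c⟩ := h F
  obtain ⟨T, d, e, f⟩ := h' (F ∪ S)
  have : Disjoint S T := disjoint_right.2 fun z hz h => (d z hz).2 (mem_union_right _ h)
  refine ⟨S ∪ T, fun z hz => (mem_union.1 hz).elim (a z) fun h =>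
    ⟨(d z h).1, fun h' => (d z h).2 (mem_union_left _ h')⟩,
    by rw [card_union_of_disjoint this, b, e], by rw [sum_union this, c, f]⟩

lemma Q.mul {k : ℕ} {x : ℂ} (h : Q m k x) (n : ℕ) : Q m (n * k) (n * x) := by
  induction n with
  | zero => exact fun F => ⟨∅, by simp⟩
  | succ n ih => simpa [add_mul] using ih.add h

lemma inf (hm : 0 < m) : (U m).Infinite := by
  have hs : 0 < √(m : ℝ) := Real.sqrt_pos.2 (by exact_mod_cast hm)
  have h0 : ∀ t : ℕ, (⟨1, -(t * √m)⟩ : ℂ) ≠ 0 := fun t h => by simpa using congrArg re h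
  refine Set.infinite_of_injective_forall_mem
    (f := fun t : ℕ => (⟨1, t * √m⟩ : ℂ) / ⟨1, -(t * √m)⟩) (fun a b h => ?_) fun t =>
      ⟨div_mem ⟨1, t, by simp⟩ ⟨1, -t, by simp⟩, ?_⟩
  · have := congrArg im ((div_eq_div_iff (h0 a) (h0 b)).1 h)
    simp only [mul_im] at this
    exact_mod_cast mul_right_cancel₀ hs.ne' (by linarith : (a : ℝ) * √m = b * √m)
  · rw [norm_div, div_eq_one_iff_eq (norm_ne_zero_iff.2 (h0 t))]
    simp [Complex.norm_def, normSq_mk]

lemma gen (hm : 0 < m) {p : ℂ → Prop} (h : ∀ᶠ v in cofinite, p v) : ∃ v ∈ U m, p v := by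
  obtain ⟨v, h1, h2⟩ := (inf hm).exists_notMem_finite h
  exact ⟨v, h1, not_not.1 h2⟩

lemma two (hm : 0 < m) : Q m 2 0 := fun F => by
  obtain ⟨v, ⟨a, b⟩, c, d⟩ := gen hm (F.eventually_cofinite_notMem.and
    (F.image fun z => -z).eventually_cofinite_notMem)
  have : v ≠ -v := fun h => by simp [self_eq_neg.1 h] at b
  refine ⟨{v, -v}, fun z hz => ?_, card_pair this, by simp [sum_pair this]⟩
  rcases mem_insert.1 hz with rfl | hz
  · exact ⟨⟨a, b⟩, c⟩
  · rw [mem_singleton.1 hz]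
    exact ⟨⟨neg_mem a, by simpa using b⟩, fun h => d (mem_image.2 ⟨_, h, neg_neg v⟩)⟩

lemma five (hm : 0 < m) {e : ℂ} (he : e ∈ U m) : Q m 5 e := fun F => by
  have e0 : e ≠ 0 := fun h => by simpa [h] using he.2
  have nz : ∀ p : ℂ[X], (¬ ∀ v, p.eval v = 0) → ∀ᶠ v in cofinite, p.eval v ≠ 0 := fun p h =>
    by simpa [Filter.eventually_cofinite] using
      finite_setOf_isRoot (p := p) fun h0 => h fun v => by simp [h0]
  let q : ℂ[X] := X ^ 3 + X ^ 2 + 1
  let r : ℂ[X] := X ^ 3 + X + 1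
  let P : Fin 5 → ℂ[X] := ![-X * q, -X ^ 3 * q, X ^ 3 * r, X ^ 2 * r, r]
  obtain ⟨v, ⟨a, b⟩, ⟨c, d⟩, f⟩ := gen hm (((nz q fun h => by simpa [q] using h 0).and
    (eventually_all.2 fun i => eventually_all.2 fun j => eventually_all.2 fun hij : i ≠ j =>
      nz (P i - P j) fun h => by
        have := h 2
        fin_cases i <;> fin_cases j <;> simp [P, q, r] at this hij <;> norm_num at this)).and
    (eventually_all.2 fun i => (eventually_all_finset F).2 fun c _ =>
      nz (C e * P i - C c * q) fun h => by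
        have h1 := h 1
        have h2 := h 2
        apply e0
        fin_cases i <;> simp [P, q, r] at h1 h2 <;> grind))
  have io : Function.Injective fun i => e * (P i).eval v / q.eval v := fun i j h => by_contra fun n =>
    d i j n (by rw [eval_sub, sub_eq_zero]; exact mul_left_cancel₀ e0 ((div_left_inj' c).1 h))
  have nr : ‖r.eval v‖ = ‖q.eval v‖ := by
    have h : (starRingEnd ℂ) v * v = 1 := by simp [conj_mul', b]
    have : q.eval v = v ^ 3 * (starRingEnd ℂ) (r.eval v) := by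
      simp [q, r]
      linear_combination (-v ^ 2 - (1 + (starRingEnd ℂ) v * v + ((starRingEnd ℂ) v * v) ^ 2)) * h
    rw [this]; simp only [norm_mul, norm_pow, b, norm_conj, one_pow, one_mul]
  have kq : q.eval v ∈ K m := by simp only [q, eval_add, eval_pow, eval_X, eval_one]; aesop
  have kr : r.eval v ∈ K m := by simp only [r, eval_add, eval_pow, eval_X, eval_one]; aesop
  refine ⟨univ.image _, fun z hz => ?_, by rw [card_image_of_injective _ io]; simp, ?_⟩
  · obtain ⟨i, -, rfl⟩ := mem_image.1 hz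
    refine ⟨⟨div_mem (mul_mem he.1 ?_) kq, ?_⟩, fun h => f i _ h (by simp; field_simp; ring)⟩
    · fin_cases i <;> simp only [P] <;> aesop
    · rw [norm_div, div_eq_one_iff_eq (norm_ne_zero_iff.2 c), norm_mul, he.2, one_mul]
      fin_cases i <;> simp [P, b, nr]
  · rw [sum_image fun i _ j _ h => io h, ← sum_div, div_eq_iff c]
    simp [Fin.sum_univ_five, P, q, r]; ring

lemma all (hm : m % 4 = 3) (n : ℕ) (hn : 5 * m ≤ n) : Q m n 0 := by
  have h0 : 0 < m := by omega
  rcases Nat.even_or_odd' n with ⟨k, rfl | rfl⟩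
  · simpa [mul_comm] using (two h0).mul k
  obtain ⟨t, ht⟩ : ∃ t, m = 4 * t + 3 := ⟨m / 4, by omega⟩
  have s := Real.mul_self_sqrt (Nat.cast_nonneg (α := ℝ) m)
  have hu : ∀ c : ℚ, c * c = 1 → (⟨-(2 * t + 1) / (2 * t + 2), c / (2 * t + 2) * √m⟩ : ℂ) ∈ U m :=
    fun c hc => ⟨⟨-(2 * t + 1) / (2 * t + 2), c / (2 * t + 2), by simp⟩, by
      have hc' : (c : ℝ) * c = 1 := by exact_mod_cast hc
      have hm' : (m : ℝ) = 4 * t + 3 := by exact_mod_cast ht
      rw [Complex.norm_def, normSq_mk, Real.sqrt_eq_one]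
      field_simp
      linear_combination (c : ℝ) ^ 2 * s + m * hc' + hm'⟩
  have := ((((five h0 (hu 1 (by simp))).add (five h0 (hu (-1) (by simp)))).mul (t + 1)).add
    ((five h0 (e := 1) ⟨one_mem _, by simp⟩).mul (2 * t + 1))).add ((two h0).mul (k - (10 * t + 7)))
  rw [show (t + 1) * (5 + 5) + (2 * t + 1) * 5 + (k - (10 * t + 7)) * 2 = 2 * k + 1 by omega] at this
  refine (congrArg _ ?_).mp this
  apply Complex.ext <;> simp
  · field_simp; ring
  · right; ring

lemma den (S : Finset ℂ) (h : ∀ z ∈ S, z ∈ K m) : ∃ D : ℕ, 0 < D ∧ ∀ z ∈ S, (D : ℝ) * z ∈ Lat m := by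
  choose! a b h1 h2 using h
  refine ⟨∏ z ∈ S, ((a z).den * (b z).den), prod_pos fun z _ => by positivity, fun z hz => ?_⟩
  obtain ⟨c, hc⟩ := dvd_prod_of_mem (fun z => (a z).den * (b z).den) hz
  refine ⟨(a z).num * (b z).den * c, (b z).num * (a z).den * c, ?_, ?_⟩
  · rw [re_ofReal_mul, hc, h1 z hz, Rat.cast_def]
    push_cast; field_simp
  · rw [im_ofReal_mul, hc, h2 z hz, Rat.cast_def]
    push_cast; field_simp

theorem main (hm : m % 4 = 3) (n : ℕ) (hn : 5 * m ≤ n) :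
    ∃ P, ConvexEquilateral n P ∧ ∀ k, P k ∈ Lat m := by
  obtain ⟨S, h1, rfl, h2⟩ := all hm n hn ∅
  obtain ⟨v, h3, h4⟩ := poly S (by omega) (fun z hz => (h1 z hz).1.2) h2
  obtain ⟨D, h5, h6⟩ := den S fun z hz => (h1 z hz).1.1
  refine ⟨_, h4 D (by exact_mod_cast h5), fun k => ?_⟩
  induction k with
  | zero => exact ⟨0, 0, by simp⟩
  | succ k ih =>
    obtain ⟨a, b, e1, e2⟩ := ih
    obtain ⟨c, d, e3, e4⟩ := h6 _ (h3 k)
    exact ⟨a + c, b + d, by rw [sum_range_succ, mul_add, add_re, e1, e3]; simp,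
      by rw [sum_range_succ, mul_add, add_im, e2, e4]; simp [add_mul]⟩

end Pool.Agent.H32.EquiPoly
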