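import Mathlib

/-! Subdirect and fiber products of free semigroups, with words as lists of numbers. -/

namespace Pool.Agent.H32.Fib

/-- the free semigroup on the alphabet `{0, …, n - 1}` -/
def Plus (n : ℕ) : Set (List ℕ) := {w | w ≠ [] ∧ ∀ a ∈ w, a < n}

/-- the subsemigroup generated by the pairs listed in `X` -/
def Gen (X : List (List ℕ × List ℕ)) : Set (List ℕ × List ℕ) :=
  {p | ∃ l : List (List ℕ × List ℕ), l ≠ [] ∧ (∀ x ∈ l, x ∈ X) ∧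
    p = ((l.map Prod.fst).flatten, (l.map Prod.snd).flatten)}

def Subdirect (n m : ℕ) (X : List (List ℕ × List ℕ)) : Prop :=
  (∀ x ∈ X, x.1 ∈ Plus n ∧ x.2 ∈ Plus m) ∧ (∀ u ∈ Plus n, ∃ v, (u, v) ∈ Gen X) ∧
    ∀ v ∈ Plus m, ∃ u, (u, v) ∈ Gen X

/-- `φ` restricts to a surjective homomorphism from the free semigroup onto `Q` -/
def Epi (n : ℕ) {Q : Type} [Semigroup Q] (φ : List ℕ → Q) : Prop :=
  (∀ u ∈ Plus n, ∀ v ∈ Plus n, φ (u ++ v) = φ u * φ v) ∧ ∀ q, ∃ u ∈ Plus n, φ u = q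

def Fiber (n m : ℕ) (S : Set (List ℕ × List ℕ)) : Prop :=
  ∃ (Q : Type) (_ : Semigroup Q) (φ ψ : List ℕ → Q), Epi n φ ∧ Epi m ψ ∧
    S = {p | p.1 ∈ Plus n ∧ p.2 ∈ Plus m ∧ φ p.1 = ψ p.2}

end Pool.Agent.H32.Fib
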