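import Mathlib

set_option autoImplicit false

namespace Pool.Agent.H32.FibreDeg

open Polynomial TensorProduct

variable {A B : Type} [CommRing A] [CommRing B] [Algebra A B]

def H (B : Type) [CommRing B] [Algebra A B] (χ : A →+* ℂ) : Set (B →+* ℂ) :=
  {ψ | ψ.comp (algebraMap A B) = χ}

theorem exlift (K L : Type) [Field K] [Field L] [Algebra K L] [Algebra K ℂ] [Module.Finite K L] :
    ∃ φ : L →ₐ[K] ℂ, Function.Injective φ :=
  ⟨IsAlgClosed.lift, (IsAlgClosed.lift : L →ₐ[K] ℂ).toRingHom.injective⟩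

theorem discrete (χ : A →+* ℂ) [Algebra.FiniteType A B] (hfin : (H B χ).Finite)
    (p : Ideal A) [p.IsPrime] (hp : p = RingHom.ker χ) :
    DiscreteTopology (PrimeSpectrum (p.Fiber B)) := by
  let χ' : p.ResidueField →+* ℂ := Ideal.ResidueField.lift p χ hp.le (by
    intro x hx
    have : χ x ≠ 0 := by
      intro h
      exact hx (hp ▸ h)
    simpa [IsUnit.mem_submonoid_iff] using this)
  have hχ' : ∀ a, χ' (algebraMap A _ a) = χ a := fun a => by simp [χ']
  letI : Algebra p.ResidueField ℂ := χ'.toAlgebra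
  have : IsJacobsonRing (p.Fiber B) := isJacobsonRing_of_finiteType (A := p.ResidueField)
  rw [PrimeSpectrum.discreteTopology_iff_finite_isMaximal_and_sInf_le_nilradical]
  constructor
  · have h1 : ∀ M : {I : Ideal (p.Fiber B) | I.IsMaximal},
        ∃ Φ : p.Fiber B →ₐ[p.ResidueField] ℂ, RingHom.ker Φ = M.1 := by
      rintro ⟨M, hM⟩
      have hM' : M.IsMaximal := hM
      letI := Ideal.Quotient.field M
      have : Module.Finite p.ResidueField (p.Fiber B ⧸ M) :=
        finite_of_finite_type_of_isJacobsonRing _ _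
      obtain ⟨φ, hφ⟩ := exlift p.ResidueField (p.Fiber B ⧸ M)
      refine ⟨φ.comp (Ideal.Quotient.mkₐ _ M), ?_⟩
      ext x
      simp only [RingHom.mem_ker, AlgHom.comp_apply, Ideal.Quotient.mkₐ_eq_mk]
      rw [map_eq_zero_iff _ hφ, Ideal.Quotient.eq_zero_iff_mem]
    choose Φ hΦ using h1
    have := hfin.to_subtype
    refine Finite.of_injective (β := H B χ) (fun M => ⟨(Φ M).toRingHom.comp
      (Algebra.TensorProduct.includeRight (R := A) (A := p.ResidueField)).toRingHom, ?_⟩) ?_
    · ext a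
      simp only [RingHom.coe_comp, Function.comp_apply, AlgHom.toRingHom_eq_coe, RingHom.coe_coe,
        AlgHom.commutes]
      rw [IsScalarTower.algebraMap_apply A p.ResidueField (p.Fiber B), AlgHom.commutes, ← hχ']
      rfl
    · intro M N h
      have h2 : Φ M = Φ N := by
        ext1 z
        induction z using TensorProduct.induction_on with
        | zero => simp
        | add x y hx hy => rw [map_add, map_add, hx, hy]
        | tmul k b =>
          have h3 : Φ M (1 ⊗ₜ b) = Φ N (1 ⊗ₜ b) := RingHom.congr_fun (congrArg Subtype.val h) b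
          have h4 : (k ⊗ₜ[A] b : p.Fiber B) = k • (1 ⊗ₜ[A] b) := by
            rw [TensorProduct.smul_tmul', smul_eq_mul, mul_one]
          rw [h4, map_smul, map_smul, h3]
      apply Subtype.ext
      rw [← hΦ M, ← hΦ N, h2]
  · have h1 : (nilradical (p.Fiber B)).jacobson = nilradical (p.Fiber B) :=
      IsJacobsonRing.out inferInstance (Ideal.radical_isRadical _)
    rw [← h1, Ideal.jacobson]
    exact sInf_le_sInf fun I hI => hI.2

theorem zmt (χ : A →+* ℂ) [Algebra.FiniteType A B] (hfin : (H B χ).Finite) (ψ : B →+* ℂ)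
    (hψ : ψ ∈ H B χ) :
    ∃ r, ψ r ≠ 0 ∧ IsIntegral A r ∧ ∀ x, ∃ m, IsIntegral A (r ^ m * x) := by
  let q : PrimeSpectrum B := ⟨RingHom.ker ψ, RingHom.ker_isPrime ψ⟩
  have hqp : q.asIdeal.IsPrime := q.2
  have hd := discrete χ hfin (q.comap (algebraMap A B)).asIdeal (by
    rw [← (hψ : ψ.comp (algebraMap A B) = χ)]
    ext a
    simp [q])
  have := (PrimeSpectrum.preimageHomeomorphFiber A B (q.comap (algebraMap A B))).symm.discreteTopology
  have hq : Algebra.QuasiFiniteAt A q.asIdeal :=
    Algebra.QuasiFiniteAt.of_isOpen_singleton_fiber q (isOpen_discrete _)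
  exact Algebra.zariskisMainProperty_iff.1 (Algebra.ZariskisMainProperty.of_finiteType q.asIdeal)

theorem algebraic [IsDomain B] (χ : A →+* ℂ) [Algebra.FiniteType A B] (hfin : (H B χ).Finite)
    (ψ : B →+* ℂ) (hψ : ψ ∈ H B χ) (x : B) :
    ∃ r y : B, r ≠ 0 ∧ IsIntegral A r ∧ IsIntegral A y ∧ r * x = y := by
  obtain ⟨r, h0, h1, h2⟩ := zmt χ hfin ψ hψ
  obtain ⟨m, hm⟩ := h2 x
  refine ⟨r ^ m, _, pow_ne_zero _ ?_, h1.pow m, hm, rfl⟩
  rintro rfl
  exact h0 (map_zero _)

theorem separate [Algebra ℚ A] [Algebra ℚ B] [IsScalarTower ℚ A B] (χ : A →+* ℂ)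
    [Algebra.FiniteType A B] (hfin : (H B χ).Finite) :
    ∃ a : B, IsIntegral A a ∧ Set.InjOn (fun ψ : B →+* ℂ => ψ a) (H B χ) := by
  have := hfin.to_subtype
  let W : Submodule ℚ B := (integralClosure A B).toSubmodule.restrictScalars ℚ
  let ι := {x : H B χ × H B χ // x.1 ≠ x.2}
  let f : ι → (W →ₗ[ℚ] ℂ) := fun x =>
    (x.1.1.1.toRatAlgHom.toLinearMap - x.1.2.1.toRatAlgHom.toLinearMap).comp W.subtype
  obtain ⟨a, ha⟩ := Submodule.exists_forall_notMem_of_forall_ne_top
    (fun x : ι => LinearMap.ker (f x)) (by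
      rintro ⟨⟨ψ, ψ'⟩, hne⟩ htop
      apply hne
      have hw : ∀ y : B, IsIntegral A y → ψ.1 y = ψ'.1 y := by
        intro y hy
        have hy' : y ∈ W := hy
        have : (⟨y, hy'⟩ : W) ∈ LinearMap.ker (f ⟨(ψ, ψ'), hne⟩) := by
          have h5 : LinearMap.ker (f ⟨(ψ, ψ'), hne⟩) = ⊤ := htop
          rw [h5]; trivial
        simpa [f, sub_eq_zero] using this
      obtain ⟨r, h0, h1, h2⟩ := zmt χ hfin ψ.1 ψ.2
      apply Subtype.ext
      ext x
      obtain ⟨m, hm⟩ := h2 x
      have h3 := hw _ hm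
      rw [map_mul, map_mul, map_pow, map_pow, ← hw r h1] at h3
      exact mul_left_cancel₀ (pow_ne_zero _ h0) h3)
  refine ⟨a.1, a.2, fun ψ hψ ψ' hψ' h => ?_⟩
  by_contra hne
  apply ha ⟨(⟨ψ, hψ⟩, ⟨ψ', hψ'⟩), fun h => hne (congrArg Subtype.val h)⟩
  simpa [f, sub_eq_zero] using h

theorem le_deg (χ : A →+* ℂ) (a : B) (ha : IsIntegral A a)
    (hinj : Set.InjOn (fun ψ : B →+* ℂ => ψ a) (H B χ)) :
    (H B χ).encard ≤ (minpoly A a).natDegree := by
  classical
  have hm : ((minpoly A a).map χ).Monic := (minpoly.monic ha).map χ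
  rw [← hinj.encard_image]
  calc _ ≤ ((((minpoly A a).map χ).roots.toFinset : Finset ℂ) : Set ℂ).encard := by
        apply Set.encard_le_encard
        rintro _ ⟨ψ, hψ, rfl⟩
        simp only [Finset.mem_coe, Multiset.mem_toFinset, mem_roots hm.ne_zero, IsRoot.def]
        rw [eval_map, ← (hψ : ψ.comp (algebraMap A B) = χ), ← hom_eval₂, ← aeval_def,
          minpoly.aeval, map_zero]
    _ ≤ _ := by
        rw [Set.encard_coe_eq_coe_finsetCard, Nat.cast_le]
        exact (Multiset.toFinset_card_le _).trans ((card_roots' _).trans natDegree_map_le)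

theorem deg_le [IsDomain A] [IsDomain B] [IsIntegrallyClosed A] [CharZero A] [FaithfulSMul A B]
    [Algebra.IsAlgebraic A B] (χ : A →+* ℂ) (hχ : Function.Injective χ) (a : B)
    (ha : IsIntegral A a) : ((minpoly A a).natDegree : ℕ∞) ≤ (H B χ).encard := by
  classical
  let K := FractionRing A
  let L := FractionRing B
  letI : Algebra K L := FractionRing.liftAlgebra A L
  have : IsScalarTower A K L := FractionRing.isScalarTower_liftAlgebra A L
  letI : Algebra K ℂ := (IsFractionRing.lift (K := K) hχ).toAlgebra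
  have : Algebra.IsAlgebraic K L := inferInstance
  have h1 := minpoly.isIntegrallyClosed_eq_field_fractions K L ha
  have h2 : (minpoly K (algebraMap B L a)).natDegree = (minpoly A a).natDegree := by
    rw [h1, (minpoly.monic ha).natDegree_map]
  have h3 := Algebra.IsAlgebraic.range_eval_eq_rootSet_minpoly (F := K) (K := L) ℂ
    (algebraMap B L a)
  have hint : IsIntegral K (algebraMap B L a) := Algebra.IsIntegral.isIntegral _
  have h4 := card_rootSet_eq_natDegree (K := ℂ) (minpoly.irreducible hint).separable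
    (IsAlgClosed.splits _)
  rw [← h2, ← h4, ← Set.toFinset_card, ← Set.encard_eq_coe_toFinset_card, ← h3]
  calc _ ≤ ((fun ψ : B →+* ℂ => ψ a) '' H B χ).encard := by
        apply Set.encard_le_encard
        rintro _ ⟨φ, rfl⟩
        refine ⟨φ.toRingHom.comp (algebraMap B L), ?_, rfl⟩
        ext x
        simp only [RingHom.coe_comp, Function.comp_apply, AlgHom.toRingHom_eq_coe, RingHom.coe_coe]
        rw [← IsScalarTower.algebraMap_apply, IsScalarTower.algebraMap_apply A K L, φ.commutes]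
        exact IsFractionRing.lift_algebraMap hχ x
    _ ≤ _ := Set.encard_image_le _ _

theorem main [IsDomain A] [IsDomain B] [IsIntegrallyClosed A] [Algebra ℚ A] [Algebra ℚ B]
    [IsScalarTower ℚ A B] [FaithfulSMul A B] [Algebra.FiniteType A B] [Algebra.IsAlgebraic A B]
    (χ χ' : A →+* ℂ) (hfin : (H B χ).Finite) (hχ : Function.Injective χ') :
    (H B χ).encard ≤ (H B χ').encard := by
  have : CharZero A := algebraRat.charZero A
  obtain ⟨a, ha, hinj⟩ := separate χ hfin
  exact (le_deg χ a ha hinj).trans (deg_le χ' hχ a ha)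

end Pool.Agent.H32.FibreDeg
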