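import Mathlib

set_option autoImplicit false

namespace Pool.Agent.H32.FreeDDC

open FreeGroup Finset

/-- Distinct difference configuration. -/
def IsDDC {G : Type} [Group G] (D : Finset G) : Prop :=
  ∀ g ∈ D, ∀ h ∈ D, ∀ g' ∈ D, ∀ h' ∈ D, g ≠ h → g' ≠ h' → g⁻¹ * h = g'⁻¹ * h' → g = g' ∧ h = h'

variable {α : Type} [DecidableEq α]

lemma split : ∀ (u v : List (α × Bool)), u.length = v.length → u ≠ v →
    ∃ p x y a b, u = p ++ x :: a ∧ v = p ++ y :: b ∧ x ≠ y
  | [], [], _, h => absurd rfl h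
  | [], _ :: _, h, _ => by simp at h
  | _ :: _, [], h, _ => by simp at h
  | x :: u, y :: v, h1, h2 => by
    by_cases e : x = y
    · obtain ⟨p, x', y', a, b, e1, e2, e3⟩ := split u v (by simpa using h1)
        (fun h => h2 (by rw [e, h]))
      exact ⟨x :: p, x', y', a, b, by simp [e1], by simp [e2, e], e3⟩
    · exact ⟨[], x, y, u, v, rfl, rfl, e⟩

lemma red_inv {x y : α × Bool} {a b : List (α × Bool)} (h1 : IsReduced (x :: a))
    (h2 : IsReduced (y :: b)) (h : x ≠ y) : IsReduced (invRev (x :: a) ++ y :: b) := by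
  refine List.IsChain.append ?_ h2 ?_
  · rw [invRev, List.isChain_reverse, List.isChain_map]
    exact List.IsChain.imp (fun a b h e => by simp [h e.symm]) h1
  · intro s hs t ht
    simp [invRev] at hs ht
    subst hs ht
    intro e
    by_contra hc
    exact h (Prod.ext e (by revert hc; cases x.2 <;> cases y.2 <;> simp))

lemma red_right {p a : List (α × Bool)} (h : IsReduced (p ++ a)) : IsReduced a :=
  (List.isChain_append.1 h).2.1

lemma rect {u v u' v' : List (α × Bool)} {r : ℕ} (hu : IsReduced u) (hv : IsReduced v)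
    (hu' : IsReduced u') (hv' : IsReduced v') (l1 : u.length = r) (l2 : v.length = r)
    (l3 : u'.length = r) (l4 : v'.length = r) (h1 : u ≠ v) (h2 : u' ≠ v')
    (h : (mk u)⁻¹ * mk v = (mk u')⁻¹ * mk v') :
    ∃ k : ℕ, (∀ j < k, u[j]? = v[j]? ∧ u'[j]? = v'[j]?) ∧
      ∀ j, k ≤ j → u[j]? = u'[j]? ∧ v[j]? = v'[j]? := by
  obtain ⟨p, x, y, a, b, rfl, rfl, e⟩ := split u v (l1.trans l2.symm) h1
  obtain ⟨q, x', y', a', b', rfl, rfl, e'⟩ := split u' v' (l3.trans l4.symm) h2
  have c : ∀ p a b : List (α × Bool), (mk (p ++ a))⁻¹ * mk (p ++ b) = mk (invRev a ++ b) := by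
    intro p a b
    rw [← mul_mk, ← mul_mk, ← mul_mk, ← inv_mk]; group
  rw [c, c] at h
  have h3 := reduce.sound h
  rw [(red_inv (red_right hu) (red_right hv) e).reduce_eq,
    (red_inv (red_right hu') (red_right hv') e').reduce_eq] at h3
  have h4 := congrArg List.length h3
  simp only [List.length_append, List.length_cons, invRev_length] at l1 l2 l3 l4 h4
  obtain ⟨h5, h6⟩ := List.append_inj h3 (by simp only [invRev_length, List.length_cons]; omega)
  have h7 := invRev_injective h5
  have hpq : q.length = p.length := by omega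
  refine ⟨p.length, fun j hj => ?_, fun j hj => ?_⟩
  · simp only [List.getElem?_append_left hj, List.getElem?_append_left (hpq ▸ hj), and_self]
  · simp only [List.getElem?_append_right hj, List.getElem?_append_right (hpq ▸ hj), hpq, h7, h6,
      and_self]

section blocks
variable {N : ℕ} (e : Fin (N + 1) ≃ α × Bool) (s : α × Bool)

def gen : List (Fin N) → List (α × Bool)
  | [] => [s]
  | d :: ds => e ((e.symm (((gen ds).headD s).1, !((gen ds).headD s).2)).succAbove d) :: gen ds

omit [DecidableEq α] in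
lemma gen_facts : ∀ ds, (gen e s ds).length = ds.length + 1 ∧ IsReduced (gen e s ds) ∧
    (gen e s ds).getLast? = some s
  | [] => by simp [gen]
  | d :: ds => by
    obtain ⟨h1, h2, h3⟩ := gen_facts ds
    rw [gen]
    cases hg : gen e s ds with
    | nil => simp [hg] at h1
    | cons t w =>
      rw [hg] at h1 h2 h3
      refine ⟨by simpa using h1, isReduced_cons_cons.2 ⟨fun h => ?_, h2⟩, by simpa using h3⟩
      by_contra hc
      refine Fin.succAbove_ne (e.symm (t.1, !t.2)) d ?_
      rw [Equiv.eq_symm_apply]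
      simp only [List.headD_cons] at h hc
      exact Prod.ext h (by revert hc; cases t.2 <;> simp)

omit [DecidableEq α] in
lemma gen_inj : ∀ ds es, gen e s ds = gen e s es → ds = es
  | [], [], _ => rfl
  | [], d :: ds, h => by have := congrArg List.length h; simp [(gen_facts e s _).1] at this
  | d :: ds, [], h => by have := congrArg List.length h; simp [(gen_facts e s _).1] at this
  | d :: ds, d' :: es, h => by
    rw [gen, gen, List.cons.injEq] at h
    have := gen_inj ds es h.2
    subst this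
    rw [Fin.succAbove_right_injective (e.injective h.1)]

include e in
lemma blocks (b : α) (hb : b ≠ s.1) (m : ℕ) : ∃ B : Finset (List (α × Bool)), B.card = N ^ m ∧
    ∀ w ∈ B, w.length = m + 2 ∧ IsReduced (s :: w) ∧ w.getLast? = some s := by
  let f : (Fin m → Fin N) → List (α × Bool) := fun x =>
    (b, ((gen e s (List.ofFn x)).headD s).2) :: gen e s (List.ofFn x)
  refine ⟨univ.image f, ?_, ?_⟩
  · rw [card_image_of_injective _ (fun x y h => List.ofFn_injective (gen_inj e s _ _
      (List.cons.inj h).2))]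
    simp
  · intro w hw
    obtain ⟨x, -, rfl⟩ := mem_image.1 hw
    obtain ⟨h1, h2, h3⟩ := gen_facts e s (List.ofFn x)
    simp only [f]
    cases hg : gen e s (List.ofFn x) with
    | nil => simp [hg] at h1
    | cons t w =>
      rw [hg] at h1 h2 h3
      exact ⟨by simpa using h1, isReduced_cons_cons.2 ⟨fun h => absurd h.symm hb,
        isReduced_cons_cons.2 ⟨fun _ => rfl, h2⟩⟩, by simpa using h3⟩
end blocks

lemma avg {β F : Type} [Fintype β] [DecidableEq β] [Field F] [Fintype F] [DecidableEq F] (M : ℕ)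
    (B : Finset (List β)) (hB : ∀ w ∈ B, w.length = M) (hF : 2 * B.card ≤ Fintype.card F) :
    ∃ (c : Fin M → Option β → F) (Y : Finset (List β)), Y ⊆ B ∧ B.card ≤ 2 * Y.card ∧
      Set.InjOn (fun w : List β => ∑ i : Fin M, c i w[i.val]?) Y := by
  let val : (Fin M → Option β → F) → List β → F := fun c w => ∑ i : Fin M, c i w[i.val]?
  let T := Fintype.card (Fin M → Option β → F)
  have h1 : ∀ p ∈ B.offDiag, (univ.filter fun c => val c p.1 = val c p.2).card *
      Fintype.card F = T := by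
    intro p hp
    obtain ⟨p1, p2, hne⟩ := mem_offDiag.1 hp
    have : ∃ i : Fin M, p.1[i.val]? ≠ p.2[i.val]? := by
      by_contra hc
      push Not at hc
      refine hne (List.ext_getElem? fun j => ?_)
      by_cases hj : j < M
      · exact hc ⟨j, hj⟩
      · rw [List.getElem?_eq_none (by rw [hB _ p1]; omega),
          List.getElem?_eq_none (by rw [hB _ p2]; omega)]
    obtain ⟨i, hi⟩ := this
    let φ : (Fin M → Option β → F) →+ F := AddMonoidHom.mk' (fun c => val c p.1 - val c p.2)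
      (fun a b => by simp only [val, Pi.add_apply, sum_add_distrib]; ring)
    have hs : Function.Surjective φ := fun t => ⟨Pi.single i (Pi.single p.1[i.val]? t), by
      simp only [φ, val, AddMonoidHom.mk'_apply]
      rw [sum_eq_single i, sum_eq_single i] <;> simp +contextual [hi.symm]⟩
    have h2 := AddSubgroup.card_mul_index φ.ker
    rw [AddSubgroup.index_ker, AddMonoidHom.range_eq_top.2 hs, AddSubgroup.card_top,
      Nat.card_eq_fintype_card (α := F), Nat.card_eq_fintype_card (α := Fin M → Option β → F)] at h2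
    refine Eq.trans ?_ h2
    congr 1
    rw [← Fintype.card_coe, ← Nat.card_eq_fintype_card]
    exact Nat.card_congr (Equiv.subtypeEquivRight fun c => by
      simp [φ, AddMonoidHom.mem_ker, sub_eq_zero])
  have h2 : ∃ c ∈ (univ : Finset (Fin M → Option β → F)),
      (B.offDiag.filter fun p => val c p.1 = val c p.2).card * Fintype.card F ≤
        B.card * B.card := by
    refine exists_le_of_sum_le univ_nonempty ?_
    have : ∑ c : Fin M → Option β → F, (B.offDiag.filter fun p => val c p.1 = val c p.2).card =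
        ∑ p ∈ B.offDiag, (univ.filter fun c => val c p.1 = val c p.2).card := by
      simp only [card_filter]; exact sum_comm
    rw [← sum_mul, this, sum_mul, sum_congr rfl h1, sum_const, sum_const, smul_eq_mul, smul_eq_mul,
      card_univ, mul_comm, offDiag_card]
    exact Nat.mul_le_mul_left _ (Nat.sub_le _ _)
  obtain ⟨c, -, hc⟩ := h2
  set C := B.offDiag.filter fun p => val c p.1 = val c p.2
  refine ⟨c, B \ C.image Prod.fst, sdiff_subset, ?_, ?_⟩
  · have h3 := le_card_sdiff (C.image Prod.fst) B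
    have h4 : (C.image Prod.fst).card ≤ C.card := card_image_le
    have h5 : C.card * (2 * B.card) ≤ B.card * B.card := (Nat.mul_le_mul_left _ hF).trans hc
    rcases Nat.eq_zero_or_pos B.card with h | h
    · omega
    · have : 2 * C.card ≤ B.card := Nat.le_of_mul_le_mul_right (by nlinarith) h
      omega
  · intro x hx y hy hxy
    by_contra hne
    obtain ⟨x1, x2⟩ := Finset.mem_sdiff.1 hx
    exact x2 (mem_image.2 ⟨(x, y), mem_filter.2 ⟨mem_offDiag.2
      ⟨x1, (Finset.mem_sdiff.1 hy).1, hne⟩, hxy⟩, rfl⟩)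

theorem core [Fintype α] {N : ℕ} (e : Fin (N + 1) ≃ α × Bool) (a b : α) (hab : b ≠ a)
    (hN : 2 ≤ N) (m : ℕ) : ∃ D : Finset (FreeGroup α), IsDDC D ∧
      (∀ g ∈ D, norm g ≤ 3 * m + 8) ∧ N ^ (2 * m) ≤ 4 * D.card := by
  classical
  obtain ⟨B, hB, hB'⟩ := blocks e (a, true) b hab m
  obtain ⟨C, hC, hC'⟩ := blocks e (a, true) b hab (m + 2)
  have hpos : 0 < N ^ m := by positivity
  obtain ⟨P, hP, h1, h2⟩ := Nat.exists_prime_lt_and_le_two_mul (2 * N ^ m) (by omega)
  haveI := Fact.mk hP
  obtain ⟨c, Y, hY, hYc, hinj⟩ := avg (F := ZMod P) (m + 2) B (fun w hw => (hB' w hw).1)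
    (by rw [ZMod.card, hB]; omega)
  set val : List (α × Bool) → ZMod P := fun w => ∑ i : Fin (m + 2), c i w[i.val]? with hval
  obtain ⟨v0, hv0⟩ : ∃ v0, v0 ∉ Y.image val := by
    by_contra hc
    push Not at hc
    have := (card_le_card (fun x _ => hc x : univ ⊆ Y.image val)).trans
      (card_image_le.trans (card_le_card hY))
    rw [card_univ, ZMod.card, hB] at this
    omega
  have nz : ∀ y ∈ Y, val y - v0 ≠ 0 := fun y hy h =>
    hv0 (mem_image.2 ⟨y, hy, sub_eq_zero.1 h⟩)
  obtain ⟨z⟩ : Nonempty (ZMod P ↪ C) := Function.Embedding.nonempty_of_card_le (by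
    rw [ZMod.card, Fintype.card_coe, hC, pow_add]
    have := Nat.mul_le_mul_left (N ^ m) (Nat.pow_le_pow_left hN 2)
    omega)
  let Z : List (α × Bool) × List (α × Bool) → List (α × Bool) := fun p =>
    (z ((val p.1 - v0) * (val p.2 - v0))).1
  let w : List (α × Bool) × List (α × Bool) → List (α × Bool) := fun p => p.1 ++ (p.2 ++ Z p)
  have hw : ∀ p ∈ Y ×ˢ Y, IsReduced (w p) ∧ (w p).length = 3 * m + 8 ∧
      p.1.length = m + 2 ∧ p.2.length = m + 2 := by
    intro p hp
    obtain ⟨a1, a2, a3⟩ := hB' _ (hY (mem_product.1 hp).1)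
    obtain ⟨b1, b2, b3⟩ := hB' _ (hY (mem_product.1 hp).2)
    obtain ⟨c1, c2, -⟩ := hC' _ (z ((val p.1 - v0) * (val p.2 - v0))).2
    refine ⟨?_, by simp only [w, Z, List.length_append, a1, b1, c1]; omega, a1, b1⟩
    have j : ∀ u v : List (α × Bool), IsReduced ((a, true) :: u) → u.getLast? = some (a, true) →
        IsReduced ((a, true) :: v) → IsReduced ((a, true) :: (u ++ v)) := by
      intro u v h1 h2 h3
      obtain ⟨u', rfl⟩ := List.getLast?_eq_some_iff.1 h2
      exact IsReduced.append_overlap (L₁ := (a, true) :: u') (L₂ := [(a, true)]) h1 h3 (by simp)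
    have jj := j _ _ a2 a3 (j _ _ b2 b3 c2)
    exact red_right (p := [(a, true)]) jj
  have g1 : ∀ p ∈ Y ×ˢ Y, ∀ j < m + 2, (w p)[j]? = p.1[j]? := fun p hp j hj =>
    List.getElem?_append_left (by rw [(hw p hp).2.2.1]; exact hj)
  have g2 : ∀ p ∈ Y ×ˢ Y, ∀ j < m + 2, (w p)[m + 2 + j]? = p.2[j]? := fun p hp j hj => by
    simp only [w]
    rw [List.getElem?_append_right (by rw [(hw p hp).2.2.1]; omega), (hw p hp).2.2.1,
      Nat.add_sub_cancel_left, List.getElem?_append_left (by rw [(hw p hp).2.2.2]; exact hj)]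
  have g3 : ∀ p ∈ Y ×ˢ Y, ∀ j, (w p)[m + 2 + (m + 2 + j)]? = (Z p)[j]? := fun p hp j => by
    simp only [w]
    rw [List.getElem?_append_right (by rw [(hw p hp).2.2.1]; omega), (hw p hp).2.2.1,
      Nat.add_sub_cancel_left, List.getElem?_append_right (by rw [(hw p hp).2.2.2]; omega),
      (hw p hp).2.2.2, Nat.add_sub_cancel_left]
  have ex : ∀ u v : List (α × Bool), u.length = m + 2 → v.length = m + 2 →
      (∀ j < m + 2, u[j]? = v[j]?) → u = v := fun u v l1 l2 h => List.ext_getElem? fun j => by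
    by_cases hj : j < m + 2
    · exact h j hj
    · rw [List.getElem?_eq_none (by omega), List.getElem?_eq_none (by omega)]
  have E1 : ∀ p ∈ Y ×ˢ Y, ∀ q ∈ Y ×ˢ Y, (∀ j < m + 2, (w p)[j]? = (w q)[j]?) → p.1 = q.1 :=
    fun p hp q hq h => ex _ _ (hw p hp).2.2.1 (hw q hq).2.2.1 fun j hj => by
      rw [← g1 p hp j hj, ← g1 q hq j hj, h j hj]
  have E2 : ∀ p ∈ Y ×ˢ Y, ∀ q ∈ Y ×ˢ Y,
      (∀ j < m + 2, (w p)[m + 2 + j]? = (w q)[m + 2 + j]?) → p.2 = q.2 :=
    fun p hp q hq h => ex _ _ (hw p hp).2.2.2 (hw q hq).2.2.2 fun j hj => by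
      rw [← g2 p hp j hj, ← g2 q hq j hj, h j hj]
  have E3 : ∀ p ∈ Y ×ˢ Y, ∀ q ∈ Y ×ˢ Y,
      (∀ j, (w p)[m + 2 + (m + 2 + j)]? = (w q)[m + 2 + (m + 2 + j)]?) →
      (val p.1 - v0) * (val p.2 - v0) = (val q.1 - v0) * (val q.2 - v0) :=
    fun p hp q hq h => z.injective (Subtype.ext (List.ext_getElem? fun j => by
      rw [← g3 p hp j, ← g3 q hq j, h j]))
  have E4 : ∀ p ∈ Y ×ˢ Y, ∀ q ∈ Y ×ˢ Y, (p.1 = q.1 ∨ p.2 = q.2) →
      (val p.1 - v0) * (val p.2 - v0) = (val q.1 - v0) * (val q.2 - v0) → p = q := by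
    intro p hp q hq h h'
    obtain ⟨p1, p2⟩ := mem_product.1 hp
    obtain ⟨q1, q2⟩ := mem_product.1 hq
    rcases h with h | h
    · rw [h] at h'
      exact Prod.ext h (hinj p2 q2 (sub_left_injective (mul_left_cancel₀ (nz _ q1) h')))
    · rw [h] at h'
      exact Prod.ext (hinj p1 q1 (sub_left_injective (mul_right_cancel₀ (nz _ q2) h'))) h
  refine ⟨(Y ×ˢ Y).image fun p => mk (w p), ?_, ?_, ?_⟩
  · intro g hg h hh g' hg' h' hh' n1 n2 hd
    obtain ⟨p, hp, rfl⟩ := mem_image.1 hg
    obtain ⟨q, hq, rfl⟩ := mem_image.1 hh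
    obtain ⟨p', hp', rfl⟩ := mem_image.1 hg'
    obtain ⟨q', hq', rfl⟩ := mem_image.1 hh'
    have hpq : p ≠ q := fun e => n1 (by rw [e])
    obtain ⟨k, k1, k2⟩ := rect (hw p hp).1 (hw q hq).1 (hw p' hp').1 (hw q' hq').1 (hw p hp).2.1
      (hw q hq).2.1 (hw p' hp').2.1 (hw q' hq').2.1 (fun e => n1 (by rw [e]))
      (fun e => n2 (by rw [e])) hd
    suffices p = p' ∧ q = q' by rw [this.1, this.2]; exact ⟨rfl, rfl⟩
    by_cases c1 : k ≤ m + 2
    · exact ⟨E4 p hp p' hp' (Or.inr (E2 p hp p' hp' fun j _ => (k2 _ (by omega)).1))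
        (E3 p hp p' hp' fun j => (k2 _ (by omega)).1),
        E4 q hq q' hq' (Or.inr (E2 q hq q' hq' fun j _ => (k2 _ (by omega)).2))
        (E3 q hq q' hq' fun j => (k2 _ (by omega)).2)⟩
    have x1 := E1 p hp q hq fun j _ => (k1 j (by omega)).1
    have x2 := E1 p' hp' q' hq' fun j _ => (k1 j (by omega)).2
    by_cases c2 : m + 2 + (m + 2) ≤ k
    · exact absurd (Prod.ext x1 (E2 p hp q hq fun j _ => (k1 _ (by omega)).1)) hpq
    have z1 := E3 p hp p' hp' fun j => (k2 _ (by omega)).1
    have z2 := E3 q hq q' hq' fun j => (k2 _ (by omega)).2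
    have ad : val p.2 - val q.2 = val p'.2 - val q'.2 := by
      simp only [hval, ← sum_sub_distrib]
      refine sum_congr rfl fun i _ => ?_
      rw [← g2 p hp i i.2, ← g2 q hq i i.2, ← g2 p' hp' i i.2, ← g2 q' hq' i i.2]
      by_cases hi : m + 2 + i.val < k
      · rw [(k1 _ hi).1, (k1 _ hi).2, sub_self, sub_self]
      · rw [(k2 _ (not_lt.1 hi)).1, (k2 _ (not_lt.1 hi)).2]
    have ne : val p.2 - val q.2 ≠ 0 := fun h => hpq (Prod.ext x1
      (hinj (mem_product.1 hp).2 (mem_product.1 hq).2 (sub_eq_zero.1 h)))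
    have x3 : val p.1 = val p'.1 := by
      refine mul_right_cancel₀ ne ?_
      rw [← x1] at z2
      rw [← x2] at z2
      linear_combination z1 - z2 - (val p'.1 - v0) * ad
    have x4 : p.1 = p'.1 := hinj (mem_product.1 hp).1 (mem_product.1 hp').1 x3
    exact ⟨E4 p hp p' hp' (Or.inl x4) z1, E4 q hq q' hq' (Or.inl (by rw [← x1, ← x2, x4])) z2⟩
  · intro g hg
    obtain ⟨p, hp, rfl⟩ := mem_image.1 hg
    exact norm_mk_le.trans (hw p hp).2.1.le
  · rw [card_image_of_injOn, card_product, two_mul, pow_add, ← hB]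
    · nlinarith
    · intro p hp q hq h
      have := reduce.sound h
      rw [(hw p hp).1.reduce_eq, (hw q hq).1.reduce_eq] at this
      exact Prod.ext (E1 p hp q hq fun j _ => by rw [this]) (E2 p hp q hq fun j _ => by rw [this])

end Pool.Agent.H32.FreeDDC
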