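import Pool.Agent.H32.FvDefs

set_option autoImplicit false

namespace Pool.Agent.H32.Fv

open CategoryTheory

@[ext] structure G where
  x : ZMod 5
  y : ZMod 5
  z : ZMod 5
  t : ZMod 4
  deriving DecidableEq

def eqv : (ZMod 5 × ZMod 5 × ZMod 5 × ZMod 4) ≃ G :=
  ⟨fun a => ⟨a.1, a.2.1, a.2.2.1, a.2.2.2⟩, fun g => (g.x, g.y, g.z, g.t), fun _ => rfl,
    fun _ => rfl⟩

instance : Fintype G := Fintype.ofEquiv _ eqv

def p (t : ZMod 4) : ZMod 5 := 2 ^ t.val
theorem p_add : ∀ s t : ZMod 4, p (s + t) = p s * p t := by decide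
theorem p_zero : p 0 = 1 := by decide
theorem p4 : ∀ s : ZMod 4, p s ^ 4 = 1 := by decide
theorem p_neg : ∀ s : ZMod 4, p (-s) = p s ^ 3 := by decide

instance : Mul G := ⟨fun g h => ⟨g.x + p g.t * h.x, g.y + p g.t ^ 2 * h.y,
  g.z + p g.t ^ 3 * h.z + g.x * (p g.t ^ 2 * h.y), g.t + h.t⟩⟩
instance : One G := ⟨⟨0, 0, 0, 0⟩⟩
instance : Inv G := ⟨fun g => ⟨-(p g.t ^ 3 * g.x), -(p g.t ^ 2 * g.y),
  p g.t * (g.x * g.y - g.z), -g.t⟩⟩

@[simp] theorem mx (g h : G) : (g * h).x = g.x + p g.t * h.x := rfl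
@[simp] theorem my (g h : G) : (g * h).y = g.y + p g.t ^ 2 * h.y := rfl
@[simp] theorem mz (g h : G) :
    (g * h).z = g.z + p g.t ^ 3 * h.z + g.x * (p g.t ^ 2 * h.y) := rfl
@[simp] theorem mt (g h : G) : (g * h).t = g.t + h.t := rfl
@[simp] theorem ox : (1 : G).x = 0 := rfl
@[simp] theorem oy : (1 : G).y = 0 := rfl
@[simp] theorem oz : (1 : G).z = 0 := rfl
@[simp] theorem ot : (1 : G).t = 0 := rfl
@[simp] theorem ix (g : G) : g⁻¹.x = -(p g.t ^ 3 * g.x) := rfl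
@[simp] theorem iy (g : G) : g⁻¹.y = -(p g.t ^ 2 * g.y) := rfl
@[simp] theorem iz (g : G) : g⁻¹.z = p g.t * (g.x * g.y - g.z) := rfl
@[simp] theorem it (g : G) : g⁻¹.t = -g.t := rfl

instance : Group G := Group.ofLeftAxioms
  (fun a b c => by
    ext
    · simp only [mx, mt, p_add]; ring
    · simp only [my, mt, p_add]; ring
    · simp only [mx, my, mz, mt, p_add]; ring
    · simp only [mt]; ring)
  (fun a => by ext <;> simp [p_zero])
  (fun a => by
    have h := p4 a.t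
    ext
    · simp only [mx, ix, it, ox, p_neg]; ring
    · simp only [my, iy, it, oy, p_neg]; linear_combination (p a.t ^ 2 * a.y) * h
    · simp only [mz, iz, ix, it, oz, p_neg]
      linear_combination (p a.t * (p a.t ^ 4 + 1) * (a.z - a.x * a.y)) * h
    · simp)

theorem cardG : Nat.card G = 500 := by
  rw [← Nat.card_congr eqv]; simp

abbrev R4 := ℤ × ℤ × ℤ × ℤ
abbrev R := R4 × R4

def m4 (a b : R4) : R4 :=
  let c0 := a.1 * b.1
  let c1 := a.1 * b.2.1 + a.2.1 * b.1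
  let c2 := a.1 * b.2.2.1 + a.2.1 * b.2.1 + a.2.2.1 * b.1
  let c3 := a.1 * b.2.2.2 + a.2.1 * b.2.2.1 + a.2.2.1 * b.2.1 + a.2.2.2 * b.1
  let c4 := a.2.1 * b.2.2.2 + a.2.2.1 * b.2.2.1 + a.2.2.2 * b.2.1
  let c5 := a.2.2.1 * b.2.2.2 + a.2.2.2 * b.2.2.1
  let c6 := a.2.2.2 * b.2.2.2
  (c0 + c5 - c4, c1 + c6 - c4, c2 - c4, c3 - c4)

def mul (a b : R) : R := (m4 a.1 b.1 - m4 a.2 b.2, m4 a.1 b.2 + m4 a.2 b.1)

noncomputable def ζ : ℂ := Complex.exp (2 * Real.pi * Complex.I / (5 : ℕ))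

theorem hprim : IsPrimitiveRoot ζ 5 := Complex.isPrimitiveRoot_exp 5 (by norm_num)

theorem hζ : 1 + ζ + ζ ^ 2 + ζ ^ 3 + ζ ^ 4 = 0 := by
  have := hprim.geom_sum_eq_zero (by norm_num)
  simpa [Finset.sum_range_succ] using this

noncomputable def ev4 (a : R4) : ℂ := a.1 + a.2.1 * ζ + a.2.2.1 * ζ ^ 2 + a.2.2.2 * ζ ^ 3

theorem ev4_add (a b : R4) : ev4 (a + b) = ev4 a + ev4 b := by
  simp only [ev4, Prod.fst_add, Prod.snd_add]; push_cast; ring

theorem ev4_sub (a b : R4) : ev4 (a - b) = ev4 a - ev4 b := by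
  simp only [ev4, Prod.fst_sub, Prod.snd_sub]; push_cast; ring

theorem ev4_m4 (a b : R4) : ev4 (m4 a b) = ev4 a * ev4 b := by
  obtain ⟨a0, a1, a2, a3⟩ := a
  obtain ⟨b0, b1, b2, b3⟩ := b
  simp only [ev4, m4]
  push_cast
  linear_combination (-(a1 * b3 + a2 * b2 + a3 * b1 : ℂ) - (a2 * b3 + a3 * b2) * (ζ - 1)
    - a3 * b3 * ζ * (ζ - 1)) * hζ

noncomputable def ev : R →+ ℂ where
  toFun a := ev4 a.1 + ev4 a.2 * Complex.I
  map_zero' := by simp [ev4]
  map_add' a b := by simp only [Prod.fst_add, Prod.snd_add, ev4_add]; ring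

theorem ev_apply (a : R) : ev a = ev4 a.1 + ev4 a.2 * Complex.I := rfl

theorem ev_mul (a b : R) : ev (mul a b) = ev a * ev b := by
  simp only [ev_apply, mul, ev4_add, ev4_sub, ev4_m4]
  linear_combination (-(ev4 a.2 * ev4 b.2)) * Complex.I_mul_I

def z5 (a : ZMod 5) : R4 :=
  if a = 0 then (1, 0, 0, 0) else if a = 1 then (0, 1, 0, 0) else if a = 2 then (0, 0, 1, 0)
  else if a = 3 then (0, 0, 0, 1) else (-1, -1, -1, -1)

def e (a : ZMod 5) (k : ZMod 4) : R :=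
  if k = 0 then (z5 a, 0) else if k = 1 then (0, z5 a) else if k = 2 then (-z5 a, 0)
  else (0, -z5 a)

theorem e_add : ∀ (a b : ZMod 5) (k l : ZMod 4), e (a + b) (k + l) = mul (e a k) (e b l) := by
  decide +kernel

def cst (n : ℤ) : R := ((n, 0, 0, 0), 0)

theorem ev_cst (n : ℤ) : ev (cst n) = n := by simp [ev_apply, cst, ev4]

theorem e_zero : ev (e 0 0) = 1 := by
  have : e 0 0 = cst 1 := by decide
  rw [this, ev_cst]; simp

def ch {X : Type} [Fintype X] [DecidableEq X] (act : G → X → X) (c : G → X → ZMod 5)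
    (k : ZMod 4) (g : G) : R :=
  ∑ q, if act g q = q then e (c g q) (k * g.t) else 0

theorem mono {X : Type} [Fintype X] [DecidableEq X] (act : G → X → X) (c : G → X → ZMod 5)
    (k : ZMod 4) (h1 : ∀ q, act 1 q = q) (hm : ∀ g h q, act (g * h) q = act g (act h q))
    (c1 : ∀ q, c 1 q = 0) (hc : ∀ g h q, c (g * h) q = c g (act h q) + c h q) :
    ∃ V : FDRep ℂ G, V.character = fun g => ev (ch act c k g) := by
  let M : G → Matrix X X ℂ := fun g r q => if act g q = r then ev (e (c g q) (k * g.t)) else 0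
  have M1 : M 1 = 1 := by
    ext r q
    simp only [M, h1, c1, ot, mul_zero, e_zero, Matrix.one_apply, eq_comm]
  have Mm : ∀ g h, M (g * h) = M g * M h := by
    intro g h
    ext r q
    rw [Matrix.mul_apply, Finset.sum_eq_single (act h q)]
    · simp only [M, hm, hc, mt, mul_add, e_add, ev_mul, if_true]
      split_ifs <;> simp
    · intro b _ hb
      simp only [M, if_neg (Ne.symm hb), mul_zero]
    · simp
  let ρ : Representation ℂ G (X → ℂ) :=
    { toFun := fun g => Matrix.toLin' (M g)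
      map_one' := by rw [M1, Matrix.toLin'_one]; rfl
      map_mul' := fun g h => by rw [Mm, Matrix.toLin'_mul]; rfl }
  refine ⟨FDRep.of ρ, ?_⟩
  funext g
  change LinearMap.trace ℂ (X → ℂ) (Matrix.toLin' (M g)) = _
  rw [Matrix.trace_toLin'_eq, ch, map_sum]
  refine Finset.sum_congr rfl fun q _ => ?_
  simp only [Matrix.diag, M]
  split_ifs <;> simp

end Pool.Agent.H32.Fv
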