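import Pool.Agent.H32.FvA

set_option autoImplicit false

namespace Pool.Agent.H32.Fv

open CategoryTheory

def par (t : ZMod 4) : ZMod 2 := (t.val : ZMod 2)
def sg (s : ZMod 2) : ZMod 5 := if s = 0 then 1 else -1
theorem par_add : ∀ s t : ZMod 4, par (s + t) = par s + par t := by decide
theorem par_zero : par 0 = 0 := by decide
theorem sg_p : ∀ (s : ZMod 4) (a : ZMod 2), sg (par s + a) * p s ^ 2 = sg a := by decide

def chL (k : ZMod 4) : G → R := ch (fun _ (u : Unit) => u) (fun _ _ => 0) k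
def chD (b : ZMod 5) (k : ZMod 4) : G → R :=
  ch (fun g (s : ZMod 2) => par g.t + s) (fun g s => b * sg (par g.t + s) * g.y) k
def chF (b : ZMod 5) : G → R :=
  ch (fun g (s : ZMod 4) => g.t + s)
    (fun g s => p (g.t + s) ^ 3 * g.x + b * p (g.t + s) ^ 2 * g.y) 0
def chH : G → R :=
  ch (fun g (q : ZMod 5 × ZMod 4) => (g.x + p g.t * q.1, g.t + q.2))
    (fun g q => p (g.t + q.2) * (g.z - (g.x + p g.t * q.1) * g.y)) 0

theorem repL (k : ZMod 4) : ∃ V : FDRep ℂ G, V.character = fun g => ev (chL k g) :=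
  mono _ _ k (fun _ => rfl) (fun _ _ _ => rfl) (fun _ => rfl) (fun _ _ _ => by simp)

theorem repD (b : ZMod 5) (k : ZMod 4) :
    ∃ V : FDRep ℂ G, V.character = fun g => ev (chD b k g) :=
  mono _ _ k (fun _ => by simp [par_zero]) (fun _ _ _ => by simp [par_add, add_assoc])
    (fun _ => by simp) (fun g h q => by
      have := sg_p g.t (par h.t + q)
      simp only [mt, my, par_add, add_assoc]
      linear_combination (b * h.y) * this)

theorem repF (b : ZMod 5) : ∃ V : FDRep ℂ G, V.character = fun g => ev (chF b g) :=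
  mono _ _ 0 (fun _ => by simp) (fun _ _ _ => by simp [add_assoc])
    (fun _ => by simp) (fun g h q => by
      have := p4 g.t
      simp only [mt, mx, my, p_add]
      linear_combination (p h.t ^ 3 * p q ^ 3 * h.x + b * p h.t ^ 2 * p q ^ 2 * h.y) * this)

theorem repH : ∃ V : FDRep ℂ G, V.character = fun g => ev (chH g) :=
  mono _ _ 0 (fun _ => by simp [p_zero])
    (fun g h q => by
      refine Prod.ext ?_ ?_
      · simp only [mt, mx, p_add]; ring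
      · simp only [mt]; ring)
    (fun _ => by simp) (fun g h q => by
      have := p4 g.t
      simp only [mt, mx, my, mz, p_add]
      linear_combination (p h.t * p q.2 * (h.z - (h.x + p h.t * q.1) * h.y)) * this)

def tD (b : ZMod 5) (k : ZMod 4) (g : G) : R :=
  if par g.t = 0 then e (b * g.y) (k * g.t) + e (-(b * g.y)) (k * g.t) else 0
def tF (b : ZMod 5) (g : G) : R :=
  if g.t = 0 then e (g.x + b * g.y) 0 + e (3 * g.x - b * g.y) 0 + e (4 * g.x + b * g.y) 0 +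
    e (2 * g.x - b * g.y) 0 else 0
def tH (g : G) : R :=
  if g.t = 0 ∧ g.x = 0 ∧ g.y = 0 then (if g.z = 0 then cst 20 else cst (-5)) else 0

theorem eL (k : ZMod 4) (g : G) : chL k g = e 0 (k * g.t) := by simp [chL, ch]

theorem eD0 : ∀ (b : ZMod 5) (k t : ZMod 4) (y : ZMod 5),
    chD b k ⟨0, y, 0, t⟩ = tD b k ⟨0, y, 0, t⟩ := by decide +kernel
theorem eD (b : ZMod 5) (k : ZMod 4) (g : G) : chD b k g = tD b k g := eD0 b k g.t g.y

theorem eF0 : ∀ (b x y : ZMod 5) (t : ZMod 4), chF b ⟨x, y, 0, t⟩ = tF b ⟨x, y, 0, t⟩ := by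
  decide +kernel
theorem eF (b : ZMod 5) (g : G) : chF b g = tF b g := eF0 b g.x g.y g.t

theorem eH0 : ∀ y z : ZMod 5, chH ⟨0, y, z, 0⟩ = tH ⟨0, y, z, 0⟩ := by decide +kernel
theorem eH (g : G) : chH g = tH g := by
  obtain ⟨x, y, z, t⟩ := g
  by_cases h : t = 0 ∧ x = 0
  · obtain ⟨rfl, rfl⟩ := h
    exact eH0 y z
  · rw [tH, if_neg (fun h' => h ⟨h'.1, h'.2.1⟩), chH, ch]
    refine Finset.sum_eq_zero fun q _ => if_neg fun h' => h ?_
    have h2 : t = 0 := by simpa using congrArg Prod.snd h'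
    have h1 := congrArg Prod.fst h'
    simp only [h2, p_zero, one_mul, add_eq_right] at h1
    exact ⟨h2, h1⟩

def ψ (i : Fin 14) : G → R :=
  match i with
  | 0 => fun g => e 0 (0 * g.t) | 1 => fun g => e 0 (2 * g.t) | 2 => tF 0 | 3 => tH
  | 4 => fun g => e 0 (1 * g.t) | 5 => fun g => e 0 (3 * g.t)
  | 6 => tD 1 0 | 7 => tD 1 1 | 8 => tD 2 0 | 9 => tD 2 1
  | 10 => tF 1 | 11 => tF 2 | 12 => tF 3 | 13 => tF 4

def dg : Fin 14 → ℤ := ![1, 1, 4, 20, 1, 1, 2, 2, 2, 2, 4, 4, 4, 4]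

theorem repψ (i : Fin 14) : ∃ V : FDRep ℂ G, V.character = fun g => ev (ψ i g) := by
  have hL := repL
  have hD := repD
  have hF := repF
  have hH := repH
  simp only [eL, eD, eF, eH] at hL hD hF hH
  fin_cases i
  exacts [hL _, hL _, hF _, hH, hL _, hL _, hD _ _, hD _ _, hD _ _, hD _ _,
    hF _, hF _, hF _, hF _]

theorem sumG (f : G → R) : ∑ g, f g = ∑ x, ∑ y, ∑ z, ∑ t, f ⟨x, y, z, t⟩ := by
  rw [← eqv.sum_comp]
  simp only [Fintype.sum_prod_type]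
  rfl

def nm (i : Fin 14) : R :=
  ∑ x, ∑ y, ∑ z, ∑ t, mul (ψ i ⟨x, y, z, t⟩) (ψ i (⟨x, y, z, t⟩ : G)⁻¹)

theorem nm0 : nm 0 = cst 500 := by decide +kernel
theorem nm1 : nm 1 = cst 500 := by decide +kernel
theorem nm2 : nm 2 = cst 500 := by decide +kernel
theorem nm3 : nm 3 = cst 500 := by decide +kernel
theorem nm4 : nm 4 = cst 500 := by decide +kernel
theorem nm5 : nm 5 = cst 500 := by decide +kernel
theorem nm6 : nm 6 = cst 500 := by decide +kernel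
theorem nm7 : nm 7 = cst 500 := by decide +kernel
theorem nm8 : nm 8 = cst 500 := by decide +kernel
theorem nm9 : nm 9 = cst 500 := by decide +kernel
theorem nm10 : nm 10 = cst 500 := by decide +kernel
theorem nm11 : nm 11 = cst 500 := by decide +kernel
theorem nm12 : nm 12 = cst 500 := by decide +kernel
theorem nm13 : nm 13 = cst 500 := by decide +kernel

theorem normψ (i : Fin 14) : ∑ g : G, mul (ψ i g) (ψ i g⁻¹) = cst 500 := by
  rw [sumG]
  fin_cases i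
  exacts [nm0, nm1, nm2, nm3, nm4, nm5, nm6, nm7, nm8, nm9, nm10, nm11, nm12, nm13]

def RG (t : ZMod 4) : Prop := ∀ x y z : ZMod 5,
  ∑ i : Fin 14, dg i • ψ i ⟨x, y, z, t⟩ = if (⟨x, y, z, t⟩ : G) = 1 then cst 500 else 0

theorem rg0 : RG 0 := by unfold RG; decide +kernel
theorem rg1 : RG 1 := by unfold RG; decide +kernel
theorem rg2 : RG 2 := by unfold RG; decide +kernel
theorem rg3 : RG 3 := by unfold RG; decide +kernel

theorem regψ (g : G) : ∑ i : Fin 14, dg i • ψ i g = if g = 1 then cst 500 else 0 := by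
  obtain ⟨x, y, z, t⟩ := g
  have h : ∀ t : ZMod 4, t = 0 ∨ t = 1 ∨ t = 2 ∨ t = 3 := by decide
  rcases h t with rfl | rfl | rfl | rfl
  exacts [rg0 x y z, rg1 x y z, rg2 x y z, rg3 x y z]

def t1 (i : Fin 14) : Bool := i.val < 4 || (6 ≤ i.val && i.val < 10)
def t2 (i : Fin 14) : Bool := i.val < 6

theorem noz (i : Fin 14) (hi : i ≠ 3) (g : G) : ψ i g = ψ i ⟨g.x, g.y, 0, g.t⟩ := by
  fin_cases i <;> first | rfl | exact absurd rfl hi

theorem pat1' : ∀ i : Fin 14, t1 i = true → ∀ (x y : ZMod 5) (t : ZMod 4),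
    (ψ i ⟨x, y, 0, t⟩).2 = 0 ∧ (ψ i ⟨x, y, 0, t⟩).1.2.1 = 0 ∧
      (ψ i ⟨x, y, 0, t⟩).1.2.2.1 = (ψ i ⟨x, y, 0, t⟩).1.2.2.2 := by
  decide +kernel

theorem pat1 (i : Fin 14) (h : t1 i = true) (g : G) :
    (ψ i g).2 = 0 ∧ (ψ i g).1.2.1 = 0 ∧ (ψ i g).1.2.2.1 = (ψ i g).1.2.2.2 := by
  by_cases hi : i = 3
  · subst hi
    simp only [ψ, tH]
    split_ifs <;> simp [cst]
  · rw [noz i hi]; exact pat1' i h _ _ _

theorem pat2' : ∀ i : Fin 14, t2 i = true → ∀ (x y : ZMod 5) (t : ZMod 4),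
    (ψ i ⟨x, y, 0, t⟩).1.2 = 0 ∧ (ψ i ⟨x, y, 0, t⟩).2.2 = 0 := by
  decide +kernel

theorem pat2 (i : Fin 14) (h : t2 i = true) (g : G) : (ψ i g).1.2 = 0 ∧ (ψ i g).2.2 = 0 := by
  by_cases hi : i = 3
  · subst hi
    simp only [ψ, tH]
    split_ifs <;> simp [cst]
  · rw [noz i hi]; exact pat2' i h _ _ _

theorem npat1' : ∀ i : Fin 14, t1 i = false → ∃ (x y : ZMod 5) (t : ZMod 4),
    ψ i ⟨x, y, 0, t⟩ = ((0, 0, 0, 0), (1, 0, 0, 0)) ∨ ψ i ⟨x, y, 0, t⟩ = ((1, 1, 2, 0), 0) := by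
  decide +kernel

theorem npat1 (i : Fin 14) (h : t1 i = false) : ∃ g : G,
    ψ i g = ((0, 0, 0, 0), (1, 0, 0, 0)) ∨ ψ i g = ((1, 1, 2, 0), 0) :=
  let ⟨_, _, _, h⟩ := npat1' i h
  ⟨_, h⟩

theorem npat2' : ∀ i : Fin 14, t2 i = false → ∃ y : ZMod 5,
    ψ i ⟨0, y, 0, 0⟩ = ((0, 0, 1, 1), 0) ∨ ψ i ⟨0, y, 0, 0⟩ = ((0, 0, 2, 2), 0) := by
  decide +kernel

theorem npat2 (i : Fin 14) (h : t2 i = false) : ∃ g : G,
    ψ i g = ((0, 0, 1, 1), 0) ∨ ψ i g = ((0, 0, 2, 2), 0) :=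
  let ⟨_, h⟩ := npat2' i h
  ⟨_, h⟩

theorem tcard : ∀ a b : Bool,
    (Finset.univ.filter fun i : Fin 14 => t1 i = a ∧ t2 i = b).card ≤ 4 := by
  decide +kernel

end Pool.Agent.H32.Fv
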