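import Pool.Agent.H32.FvB
import Pool.Agent.H32.FvC

set_option autoImplicit false

namespace Pool.Agent.H32.Fv

open CategoryTheory

theorem classify (χ : G → ℂ) (h : χ ∈ Irr G) : ∃ i, χ = fun g => ev (ψ i g) := by
  obtain ⟨V, hV, rfl⟩ := h
  choose W hW using repψ
  have hc : (Nat.card G : ℂ) ≠ 0 := by rw [cardG]; norm_num
  have : Invertible (Nat.card G : ℂ) := invertibleOfNonzero hc
  have hs : ∀ i, Simple (W i) := fun i => by
    rw [FDRep.simple_iff_char_is_norm_one, hW, cardG]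
    simp only [← ev_mul]
    rw [← map_sum, normψ, ev_cst]
    norm_num
  by_contra hne
  have h0 : ∀ i, ∑ g : G, (W i).character g * V.character g⁻¹ = 0 := fun i => by
    have := hs i
    have h1 := FDRep.char_orthonormal (W i) V
    rw [if_neg (fun ⟨φ⟩ => hne ⟨i, by rw [← hW i, FDRep.char_iso φ]⟩)] at h1
    simpa [hc] using h1
  have h1 : ∑ i, (dg i : ℂ) * ∑ g : G, (W i).character g * V.character g⁻¹ = 0 := by
    simp only [h0, mul_zero, Finset.sum_const_zero]
  simp only [Finset.mul_sum] at h1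
  rw [Finset.sum_comm] at h1
  have h2 : ∀ g : G, ∑ i, (dg i : ℂ) * ((W i).character g * V.character g⁻¹) =
      if g = 1 then 500 * V.character 1 else 0 := fun g => by
    simp only [← mul_assoc, ← Finset.sum_mul, hW, ← zsmul_eq_mul, ← map_zsmul]
    rw [← map_sum, regψ]
    split_ifs with e
    · rw [e, inv_one, ev_cst]; norm_num
    · rw [map_zero, zero_mul]
  simp only [h2, Finset.sum_ite_eq', Finset.mem_univ, if_true] at h1
  exact char_one_ne V (by simpa using h1)

theorem q1 (i : Fin 14) : (∀ z ∈ fieldOf fun g => ev (ψ i g), Q1 z) ↔ t1 i = true := by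
  rw [fieldOf, adj1]
  constructor
  · intro h
    by_contra hn
    obtain ⟨g, hg | hg⟩ := npat1 i (by simpa using hn)
    · have := h _ ⟨g, rfl⟩
      simp [Q1, hg, ev_apply, ev4] at this
    · have := h _ ⟨g, rfl⟩
      apply vim
      have e : ev (ψ i g) = 1 + ζ + 2 * ζ ^ 2 := by simp [hg, ev_apply, ev4]
      simpa only [Q1, e] using this
  · rintro h _ ⟨g, rfl⟩
    obtain ⟨h1, h2, h3⟩ := pat1 i h g
    have e : ev (ψ i g) = (ψ i g).1.1 + (ψ i g).1.2.2.2 * (ζ ^ 2 + ζ ^ 3) := by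
      simp only [ev_apply, ev4, h1, h2, h3]; simp; ring
    simp only [Q1, e, Complex.add_im (_ : ℂ) (_ * _), Complex.mul_im, θim]
    simp

theorem q2 (i : Fin 14) : (∀ z ∈ fieldOf fun g => ev (ψ i g), Q2 z) ↔ t2 i = true := by
  rw [fieldOf, adj2]
  constructor
  · intro h
    by_contra hn
    obtain ⟨g, hg | hg⟩ := npat2 i (by simpa using hn)
    · obtain ⟨a, b, h1, -⟩ := h _ ⟨g, rfl⟩
      have e : ev (ψ i g) = ζ ^ 2 + ζ ^ 3 := by simp [hg, ev_apply, ev4]
      exact θirr a (by simpa only [e] using h1)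
    · obtain ⟨a, b, h1, -⟩ := h _ ⟨g, rfl⟩
      have e : ev (ψ i g) = ((2 : ℝ) : ℂ) * (ζ ^ 2 + ζ ^ 3) := by
        simp [hg, ev_apply, ev4]; ring
      simp only [e, Complex.re_ofReal_mul] at h1
      exact θirr (a / 2) (by push_cast; linarith)
  · rintro h _ ⟨g, rfl⟩
    obtain ⟨h1, h2⟩ := pat2 i h g
    exact ⟨(ψ i g).1.1, (ψ i g).2.1, by simp [ev_apply, ev4, h1, h2],
      by simp [ev_apply, ev4, h1, h2]⟩

theorem bound (F : IntermediateField ℚ ℂ) :
    {χ | χ ∈ Irr G ∧ fieldOf χ = F}.encard ≤ 4 := by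
  classical
  let T := Finset.univ.filter fun i : Fin 14 =>
    t1 i = decide (∀ z ∈ F, Q1 z) ∧ t2 i = decide (∀ z ∈ F, Q2 z)
  have hsub : {χ | χ ∈ Irr G ∧ fieldOf χ = F} ⊆
      (fun i g => ev (ψ i g)) '' (T : Set (Fin 14)) := by
    rintro χ ⟨h1, h2⟩
    obtain ⟨i, rfl⟩ := classify χ h1
    refine ⟨i, ?_, rfl⟩
    simp only [T, Finset.coe_filter, Finset.mem_univ, true_and, Set.mem_ofPred_eq, ← h2, q1, q2]
    simp
  refine (Set.encard_le_encard hsub).trans ((Set.encard_image_le _ _).trans ?_)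
  rw [Set.encard_coe_eq_coe_finsetCard]
  exact_mod_cast tcard _ _

end Pool.Agent.H32.Fv
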