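import Mathlib

set_option autoImplicit false

namespace Pool.Agent.H32.Fv

open CategoryTheory

/-- The complex irreducible characters of `G`: characters of simple finite-dimensional
complex representations. -/
def Irr (G : Type) [Group G] : Set (G → ℂ) :=
  {χ | ∃ V : FDRep ℂ G, Simple V ∧ V.character = χ}

/-- The field of values `ℚ(χ)`. -/
noncomputable def fieldOf {G : Type} (χ : G → ℂ) : IntermediateField ℚ ℂ :=
  IntermediateField.adjoin ℚ (Set.range χ)

/-- `N 0 = G > N 1 > ... > N r = 1` is a chief series: all terms are normal in `G`, the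
inclusions are strict, and no normal subgroup of `G` lies strictly between consecutive terms. -/
def IsChiefSeries {G : Type} [Group G] {r : ℕ} (N : Fin (r + 1) → Subgroup G) : Prop :=
  N 0 = ⊤ ∧ N (Fin.last r) = ⊥ ∧ (∀ i, (N i).Normal) ∧
    ∀ i : Fin r, N i.succ < N i.castSucc ∧
      ∀ M : Subgroup G, M.Normal → N i.succ ≤ M → M ≤ N i.castSucc →
        M = N i.succ ∨ M = N i.castSucc

end Pool.Agent.H32.Fv
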