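import Pool.Agent.H32.GenDefs

namespace Pool.Agent.H32.Gen

/-- Dickson nearfield multiplicative group of order 63 -/
@[ext] structure H where
  i : ZMod 63
  deriving DecidableEq, Fintype

def s (i : ZMod 63) : ℕ := 4 ^ (i.val % 3)

theorem s_mul : ∀ i j : ZMod 63, ((s (i + s i * j) : ℕ) : ZMod 63) = s i * s j := by
  decide +kernel

theorem val_mul : ∀ i j : ZMod 63,
    (i + s i * j : ZMod 63).val % 3 = (i.val % 3 + j.val % 3) % 3 := by
  decide +kernel

theorem inv_eq : ∀ i : ZMod 63,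
    -((s (-i) : ℕ) : ZMod 63) * i + s (-((s (-i) : ℕ) : ZMod 63) * i) * i = 0 := by
  decide +kernel

instance : Mul H := ⟨fun a b => ⟨a.i + s a.i * b.i⟩⟩
instance : One H := ⟨⟨0⟩⟩
instance : Inv H := ⟨fun a => ⟨-((s (-a.i) : ℕ) : ZMod 63) * a.i⟩⟩
theorem H.mul_i (a b : H) : (a * b).i = a.i + s a.i * b.i := rfl

instance : Group H := Group.ofLeftAxioms
  (fun a b c => by
    ext; simp only [H.mul_i]; rw [s_mul]; ring)
  (fun a => by ext; rw [H.mul_i]; show 0 + ((s 0 : ℕ) : ZMod 63) * a.i = a.i; simp [s])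
  (fun a => by ext; rw [H.mul_i]; exact inv_eq a.i)

theorem card_H : Nat.card H = 63 := by
  rw [Nat.card_eq_fintype_card]; decide +kernel

theorem gen_H : ∀ h : H, ∃ m : Fin 7, ∃ n : Fin 9, h = (⟨9⟩ : H) ^ m.val * (⟨1⟩ : H) ^ n.val := by
  decide +kernel

abbrev F := GaloisField 2 6

theorem card_F : Nat.card F = 64 := by
  rw [GaloisField.card 2 6 (by norm_num)]; norm_num

theorem ex_om : ∃ w : F, orderOf w = 63 ∧ ∀ x : F, x ≠ 0 → ∃ n : ℕ, x = w ^ n := by
  obtain ⟨g, hg⟩ := IsCyclic.exists_monoid_generator (α := Fˣ)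
  obtain ⟨g', hg'⟩ := IsCyclic.exists_generator (α := Fˣ)
  refine ⟨g', ?_, fun x hx => ?_⟩
  · rw [orderOf_units, orderOf_eq_card_of_forall_mem_zpowers hg', Nat.card_units, card_F]
  · have := hg' (Units.mk0 x hx)
    rw [← mem_powers_iff_mem_zpowers] at this
    obtain ⟨n, hn⟩ := this
    exact ⟨n, by have := congrArg Units.val hn; simpa using this.symm⟩

noncomputable def om : F := ex_om.choose
theorem ord_om : orderOf om = 63 := ex_om.choose_spec.1
theorem om_pow {a b : ℕ} : om ^ a = om ^ b ↔ (a : ZMod 63) = b := by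
  have h0 : om ≠ 0 := by
    intro h; have := ord_om; rw [h] at this; simp at this
  rw [ZMod.natCast_eq_natCast_iff, ← ord_om]
  have : om = ((Units.mk0 om h0 : Fˣ) : F) := rfl
  rw [this, ← Units.val_pow_eq_pow_val, ← Units.val_pow_eq_pow_val, Units.val_inj,
    pow_eq_pow_iff_modEq, orderOf_units]
theorem om_ne : om ≠ 0 := by
  intro h; have := ord_om; rw [h] at this; simp at this

theorem pow64 (x : F) : x ^ 64 = x := by
  by_cases hx : x = 0
  · simp [hx]
  · obtain ⟨n, rfl⟩ := ex_om.choose_spec.2 x hx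
    show (om ^ n) ^ 64 = om ^ n
    rw [← pow_mul, om_pow]; push_cast
    have : (64 : ZMod 63) = 1 := by decide
    rw [this, mul_one]

theorem pow4mod (x : F) (n : ℕ) : x ^ 4 ^ (n % 3) = x ^ 4 ^ n := by
  induction n using Nat.strong_induction_on with
  | _ n ih =>
    by_cases h : n < 3
    · rw [Nat.mod_eq_of_lt h]
    · obtain ⟨m, rfl⟩ : ∃ m, n = m + 3 := ⟨n - 3, by omega⟩
      rw [Nat.add_mod_right, ih m (by omega), pow_add, pow_mul]
      exact (pow64 _).symm

noncomputable def act (h : H) (x : F) : F := om ^ h.i.val * x ^ s h.i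

theorem act_add (h : H) (x y : F) : act h (x + y) = act h x + act h y := by
  unfold act s
  have : (4 : ℕ) ^ (h.i.val % 3) = 2 ^ (2 * (h.i.val % 3)) := by rw [pow_mul]; norm_num
  rw [this, add_pow_char_pow, mul_add]

theorem act_zero (h : H) : act h 0 = 0 := by
  simp [act, s]

theorem act_mul (a b : H) (x : F) : act (a * b) x = act a (act b x) := by
  unfold act
  rw [mul_pow, ← mul_assoc, ← pow_mul, ← pow_add, ← pow_mul, H.mul_i]
  congr 1
  · rw [om_pow]; push_cast; simp only [ZMod.natCast_val, ZMod.cast_id', id]; ring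
  · unfold s
    rw [← pow_add, ← pow4mod x (_ + _)]
    have := val_mul a.i b.i
    unfold s at this
    rw [this, add_comm]

theorem act_one (x : F) : act 1 x = x := by
  show om ^ (0 : ZMod 63).val * x ^ s 0 = x
  simp [s]

theorem fpf_aux : ∀ i k : ZMod 63, i + k * s i = k → i = 0 := by decide +kernel

theorem fpf (h : H) (x : F) (hx : x ≠ 0) (e : act h x = x) : h = 1 := by
  obtain ⟨n, rfl⟩ := ex_om.choose_spec.2 x hx
  change om ^ _ * (om ^ n) ^ _ = om ^ n at e
  rw [← pow_mul, ← pow_add, om_pow] at e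
  push_cast at e
  simp only [ZMod.natCast_val, ZMod.cast_id', id] at e
  ext; exact fpf_aux _ _ e

theorem act_tr (x : F) (hx : x ≠ 0) : ∃ h : H, act h 1 = x := by
  obtain ⟨n, rfl⟩ := ex_om.choose_spec.2 x hx
  refine ⟨⟨n⟩, ?_⟩
  show om ^ _ * 1 ^ _ = om ^ n
  rw [one_pow, mul_one, om_pow]; simp

theorem act_tr2 (x y : F) (hx : x ≠ 0) (hy : y ≠ 0) : ∃ h : H, act h x = y := by
  obtain ⟨a, rfl⟩ := act_tr x hx
  obtain ⟨b, rfl⟩ := act_tr y hy
  exact ⟨b * a⁻¹, by rw [← act_mul, inv_mul_cancel_right]⟩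

@[ext] structure GG where
  v : F
  h : H

noncomputable instance : Mul GG := ⟨fun a b => ⟨a.v + act a.h b.v, a.h * b.h⟩⟩
noncomputable instance : One GG := ⟨⟨0, 1⟩⟩
noncomputable instance : Inv GG := ⟨fun a => ⟨act a.h⁻¹ a.v, a.h⁻¹⟩⟩
@[simp] theorem mul_v (a b : GG) : (a * b).v = a.v + act a.h b.v := rfl
@[simp] theorem mul_h (a b : GG) : (a * b).h = a.h * b.h := rfl
theorem xx (x : F) : x + x = 0 := CharTwo.add_self_eq_zero x

noncomputable instance : Group GG := Group.ofLeftAxioms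
  (fun a b c => by
    ext1
    · simp [act_add, act_mul, add_assoc]
    · simp [mul_assoc])
  (fun a => by
    ext1
    · show 0 + act 1 a.v = a.v
      simp [act_one]
    · exact one_mul a.h)
  (fun a => by
    ext1
    · exact xx _
    · exact inv_mul_cancel a.h)

@[simp] theorem one_v : (1 : GG).v = 0 := rfl
@[simp] theorem one_h : (1 : GG).h = 1 := rfl
@[simp] theorem inv_v (a : GG) : a⁻¹.v = act a.h⁻¹ a.v := rfl
@[simp] theorem inv_h (a : GG) : a⁻¹.h = a.h⁻¹ := rfl

def eqv : GG ≃ F × H := ⟨fun a => (a.v, a.h), fun p => ⟨p.1, p.2⟩, fun _ => rfl, fun _ => rfl⟩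
instance : Finite GG := Finite.of_equiv _ eqv.symm
theorem card_G : Nat.card GG = 4032 := by
  rw [Nat.card_congr eqv, Nat.card_prod, card_F, card_H]

noncomputable def pr : GG →* H := ⟨⟨GG.h, rfl⟩, fun _ _ => rfl⟩

noncomputable def St (x : F) : Subgroup GG where
  carrier := {g | g.v + act g.h x = x}
  one_mem' := by simp [act_one]
  mul_mem' := by
    intro a b ha hb
    simp only [Set.mem_ofPred_eq, mul_v, mul_h] at *
    rw [act_mul, add_assoc, ← act_add, hb, ha]
  inv_mem' := by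
    intro a ha
    simp only [Set.mem_ofPred_eq, inv_v, inv_h] at *
    rw [← act_add]
    conv_rhs => rw [← act_one x, ← inv_mul_cancel a.h, act_mul]
    congr 1
    have := xx a.v
    linear_combination this - ha

theorem mem_St {x : F} {g : GG} : g ∈ St x ↔ g.v + act g.h x = x := Iff.rfl

theorem card_St (x : F) : Nat.card (St x) = 63 := by
  rw [← card_H]
  refine Nat.card_congr ⟨fun g => g.1.h, fun h => ⟨⟨x + act h x, h⟩, ?_⟩, ?_, fun _ => rfl⟩
  · rw [mem_St]; show x + act h x + act h x = x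
    rw [add_assoc, xx, add_zero]
  · rintro ⟨g, hg⟩
    rw [mem_St] at hg
    ext1; ext1
    · show x + act g.h x = g.v
      linear_combination xx (act g.h x) - hg
    · rfl

theorem coatom (x : F) : IsCoatom (St x) := by
  refine ⟨fun h => ?_, fun K hK => ?_⟩
  · have : (⟨1, 1⟩ : GG) ∈ St x := h ▸ Subgroup.mem_top _
    rw [mem_St] at this
    simp [act_one] at this
  · obtain ⟨g, hg, hn⟩ := SetLike.exists_of_lt hK
    rw [mem_St] at hn
    rw [eq_top_iff]; intro k _
    by_cases hk : k ∈ St x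
    · exact hK.le hk
    rw [mem_St] at hk
    obtain ⟨h, hh⟩ := act_tr2 (g.v + act g.h x + x) (k.v + act k.h x + x)
      (fun e => hn (by linear_combination e - xx x)) (fun e => hk (by linear_combination e - xx x))
    have h1 : (⟨x + act h x, h⟩ : GG) ∈ St x := by
      rw [mem_St]; show x + act h x + act h x = x
      rw [add_assoc, xx, add_zero]
    have h2 : ((⟨x + act h x, h⟩ : GG) * g)⁻¹ * k ∈ St x := by
      rw [mem_St]
      simp only [mul_v, mul_h, inv_v, inv_h]
      rw [act_mul, ← act_add, ← act_add]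
      conv_rhs => rw [← act_one x, ← inv_mul_cancel (h * g.h), act_mul]
      congr 1
      rw [act_add, act_add] at hh
      rw [act_mul]
      linear_combination -hh + xx (act h x) + xx (act h g.v) - xx (act h x) + xx (act h x)
        - xx x + xx x + xx x - xx x
    have := K.mul_mem (K.mul_mem (hK.le h1) hg) (hK.le h2)
    rwa [mul_inv_cancel_left] at this

theorem fixes (g : GG) (hg : g.h ≠ 1) : ∃ x, g ∈ St x := by
  have inj : Function.Injective fun x : F => x + act g.h x := by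
    intro x y e
    by_contra hne
    refine hg (fpf _ (x + y) (fun e' => hne (by linear_combination e' - xx y)) ?_)
    rw [act_add]; simp only at e
    linear_combination e + xx (act g.h y) - xx x
  obtain ⟨x, hx⟩ := Finite.injective_iff_surjective.1 inj g.v
  exact ⟨x, by rw [mem_St]; simp only at hx; linear_combination xx (act g.h x) - hx⟩

theorem noncyc : ∀ h : H, ∃ k : H, ∀ n : Fin 63, h ^ n.val ≠ k := by decide +kernel

theorem ex_max (g : GG) : ∃ M : Subgroup GG, IsCoatom M ∧ g ∈ M ∧ ∀ t : GG, t.h = 1 → t ∈ M := by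
  obtain ⟨k, hk⟩ := noncyc g.h
  have hne : (Subgroup.zpowers g.h).comap pr ≠ ⊤ := by
    intro e
    have : (⟨0, k⟩ : GG) ∈ (Subgroup.zpowers g.h).comap pr := e ▸ Subgroup.mem_top _
    rw [Subgroup.mem_comap, ← mem_powers_iff_mem_zpowers] at this
    obtain ⟨n, hn⟩ := this
    refine hk ⟨n % 63, Nat.mod_lt _ (by norm_num)⟩ ?_
    have := pow_mod_natCard g.h n
    rw [card_H] at this
    exact this.trans hn
  obtain ⟨M, hM, hle⟩ := (eq_top_or_exists_le_coatom _).resolve_left hne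
  exact ⟨M, hM, hle (Subgroup.mem_zpowers _), fun t ht => hle (by
    rw [Subgroup.mem_comap]; show t.h ∈ _; rw [ht]; exact one_mem _)⟩

noncomputable def ga : GG := ⟨0, ⟨1⟩⟩
noncomputable def gb : GG := ⟨1 + act ⟨9⟩ 1, ⟨9⟩⟩

theorem gen2 : Subgroup.closure {ga, gb} = ⊤ := by
  set K := Subgroup.closure {ga, gb}
  have ha : ga ∈ K := Subgroup.subset_closure (by simp)
  have hb : gb ∈ K := Subgroup.subset_closure (by simp)
  have hs : ∀ h : H, ∃ g ∈ K, g.h = h := by
    intro h
    obtain ⟨m, n, e⟩ := gen_H h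
    refine ⟨gb ^ m.val * ga ^ n.val, K.mul_mem (K.pow_mem hb _) (K.pow_mem ha _), ?_⟩
    show pr (gb ^ m.val * ga ^ n.val) = h
    rw [map_mul, map_pow, map_pow, e]; rfl
  have hb1 : gb ∈ St 1 := by
    rw [mem_St]; show 1 + act ⟨9⟩ 1 + act ⟨9⟩ 1 = 1
    rw [add_assoc, xx, add_zero]
  obtain ⟨t, htK, ht1, ht0⟩ : ∃ t ∈ K, t.h = 1 ∧ t.v ≠ 0 := by
    refine ⟨ga * gb * ga⁻¹ * (gb ^ 4)⁻¹, K.mul_mem (K.mul_mem (K.mul_mem ha hb) (K.inv_mem ha))
      (K.inv_mem (K.pow_mem hb 4)), ?_, fun e => ?_⟩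
    · show pr (ga * gb * ga⁻¹ * (gb ^ 4)⁻¹) = 1
      rw [map_mul, map_mul, map_mul, map_inv, map_inv, map_pow]
      show (⟨1⟩ : H) * ⟨9⟩ * (⟨1⟩ : H)⁻¹ * ((⟨9⟩ : H) ^ 4)⁻¹ = 1
      decide +kernel
    · have e1 : ga * gb * ga⁻¹ * (gb ^ 4)⁻¹ = 1 := by
        ext1
        · exact e
        · show pr (ga * gb * ga⁻¹ * (gb ^ 4)⁻¹) = 1
          rw [map_mul, map_mul, map_mul, map_inv, map_inv, map_pow]
          show (⟨1⟩ : H) * ⟨9⟩ * (⟨1⟩ : H)⁻¹ * ((⟨9⟩ : H) ^ 4)⁻¹ = 1
          decide +kernel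
      have e2 : gb = ga⁻¹ * gb ^ 4 * ga := by
        rw [mul_inv_eq_one] at e1; rw [← e1]; group
      have h4 := (St 1).pow_mem hb1 4
      rw [mem_St] at h4 hb1
      set y := act ga.h⁻¹ 1 with hy
      have hy' : act ga.h y = 1 := by rw [hy, ← act_mul, mul_inv_cancel, act_one]
      have h5 : gb.v + act gb.h y = y := by
        conv_lhs => rw [e2]
        simp only [mul_v, mul_h, inv_v, inv_h]
        have : ga.v = 0 := rfl
        rw [this, act_zero, act_zero, act_mul, act_mul, hy', zero_add, add_zero, ← act_add, h4]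
      have h6 : gb.h = 1 := by
        refine fpf _ (y + 1) (fun e' => ?_) (by rw [act_add]; linear_combination h5 + hb1 - xx gb.v)
        have : y = 1 := by linear_combination e' - xx (1 : F)
        rw [this] at hy'
        exact absurd (fpf _ 1 one_ne_zero hy') (by show (⟨1⟩ : H) ≠ 1; decide +kernel)
      exact absurd h6 (by show (⟨9⟩ : H) ≠ 1; decide +kernel)
  have hv : ∀ v : F, (⟨v, 1⟩ : GG) ∈ K := by
    intro v
    by_cases h0 : v = 0
    · subst h0; exact K.one_mem
    obtain ⟨h, hh⟩ := act_tr2 t.v v ht0 h0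
    obtain ⟨g, hg, rfl⟩ := hs h
    have : g * t * g⁻¹ = ⟨v, 1⟩ := by
      ext1
      · simp only [mul_v, mul_h, inv_v, ht1, mul_one]
        rw [← act_mul, mul_inv_cancel, act_one, hh]; linear_combination xx g.v
      · simp [ht1]
    exact this ▸ K.mul_mem (K.mul_mem hg htK) (K.inv_mem hg)
  rw [eq_top_iff]; intro k _
  obtain ⟨g, hg, e⟩ := hs k.h
  have : k = ⟨k.v + g.v, 1⟩ * g := by
    ext1
    · simp only [mul_v, act_one]; linear_combination -xx g.v
    · simp [e]
  exact this ▸ K.mul_mem (hv _) hg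

end Pool.Agent.H32.Gen
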