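import Mathlib

namespace Pool.Agent.H32.Gen

variable {G : Type} [Group G]

/-- `⌈P⌉`: the intersection of the maximal subgroups that contain `P`. -/
def ceil (P : Set G) : Subgroup G := sInf {M : Subgroup G | IsCoatom M ∧ P ⊆ M}

/-- The deficiency: least size of a set `Q` such that `S ∪ Q` generates `G`. -/
noncomputable def defi (S : Set G) : ℕ :=
  sInf {n | ∃ Q : Finset G, Q.card = n ∧ Subgroup.closure (S ∪ Q) = ⊤}

/-- The class `X_L` is an option of the class `X_I`. -/
def Opt (I L : Subgroup G) : Prop :=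
  ∃ (P : Set G) (g : G), ceil P = I ∧ Subgroup.closure P ≠ ⊤ ∧ g ∉ P ∧ ceil (insert g P) = L

end Pool.Agent.H32.Gen
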