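import Mathlib

/-! Languages with finitely many composable types: triviality in a group is decided by short
words. -/

namespace Pool.Agent.H32.Hom

theorem chain {T : Type} {U : Set T} (hf : U.Finite) {n : ℕ} (hn : U.ncard ≤ n) (P : ℕ → Set T)
    (h1 : ∀ k, P k ⊆ U) (h2 : ∀ k, P k ⊆ P (k + 1)) : ∃ k ≤ n, P (k + 1) ⊆ P k := by
  by_contra h
  push Not at h
  have : ∀ k ≤ n + 1, k ≤ (P k).ncard := by
    intro k
    induction k with
    | zero => simp
    | succ k ih =>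
      intro hk
      have := Set.ncard_lt_ncard (⟨h2 k, h k (by omega)⟩ : P k ⊂ P (k + 1)) (hf.subset (h1 _))
      have := ih (by omega)
      omega
  have := this _ le_rfl
  have := Set.ncard_le_ncard (h1 (n + 1)) hf
  omega

theorem gen {S T G : Type} [Group G] {U : Set T} (hf : U.Finite) {n : ℕ} (hn : U.ncard ≤ n)
    (W : T → Set (List S)) {t0 : T} (h0 : t0 ∈ U)
    (dec : ∀ t ∈ U, ∀ w ∈ W t, 2 ≤ w.length → ∃ t1 ∈ U, ∃ t2 ∈ U, ∃ w1 ∈ W t1, ∃ w2 ∈ W t2,
      w1 ≠ [] ∧ w2 ≠ [] ∧ w = w1 ++ w2 ∧ ∀ v1 ∈ W t1, ∀ v2 ∈ W t2, v1 ++ v2 ∈ W t)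
    (ψ : List S → G) (hψ : ∀ u v, ψ (u ++ v) = ψ u * ψ v)
    (h : ∀ w ∈ W t0, w.length ≤ (n + 2) * 2 ^ n → ψ w = 1) : ∀ w ∈ W t0, ψ w = 1 := by
  obtain ⟨k, hk, a⟩ := chain hf hn (fun k => {t ∈ U | ∃ w ∈ W t, w.length ≤ 2 ^ k})
    (fun _ _ h => h.1) fun k t ⟨a, w, b, c⟩ => ⟨a, w, b, by rw [pow_succ]; omega⟩
  have s0 : ∀ m, ∀ t ∈ U, ∀ w ∈ W t, w.length ≤ m → ∃ v ∈ W t, v.length ≤ 2 ^ k := by
    intro m
    induction m with
    | zero => exact fun t _ w hw h => ⟨w, hw, h.trans (Nat.zero_le _)⟩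
    | succ m ih =>
      intro t ht w hw hl
      by_cases h2 : 2 ≤ w.length
      · obtain ⟨t1, a1, t2, a2, w1, b1, w2, b2, c1, c2, rfl, d⟩ := dec t ht w hw h2
        have := List.length_pos_iff.2 c1
        have := List.length_pos_iff.2 c2
        rw [List.length_append] at hl
        obtain ⟨v1, e1, f1⟩ := ih t1 a1 w1 b1 (by omega)
        obtain ⟨v2, e2, f2⟩ := ih t2 a2 w2 b2 (by omega)
        exact (a ⟨ht, _, d _ e1 _ e2, by rw [List.length_append, pow_succ]; omega⟩).2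
      · exact ⟨w, hw, by have := Nat.one_le_two_pow (n := k); omega⟩
  have s1 : ∀ t ∈ U, ∀ w ∈ W t, ∃ v ∈ W t, v.length ≤ 2 ^ n := fun t ht w hw => by
    obtain ⟨v, a, b⟩ := s0 _ t ht w hw le_rfl
    exact ⟨v, a, b.trans (Nat.pow_le_pow_right (by omega) hk)⟩
  let Q : ℕ → Set T := fun k => {t ∈ U | ∃ x y : List S, x.length + y.length ≤ k * 2 ^ n ∧
    ∀ w ∈ W t, x ++ w ++ y ∈ W t0}
  obtain ⟨j, hj, q⟩ := chain hf hn Q (fun _ _ h => h.1)
    fun k t ⟨a, x, y, b, c⟩ => ⟨a, x, y, by rw [add_mul]; omega, c⟩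
  have D : ∀ t ∈ Q j, ∀ w ∈ W t, ∀ v ∈ W t, w.length ≤ 2 * 2 ^ n → v.length ≤ 2 * 2 ^ n →
      ψ w = ψ v := by
    rintro t ⟨-, x, y, b, c⟩ w hw v hv l1 l2
    have := Nat.mul_le_mul_right (2 ^ n) hj
    have e1 := h _ (c w hw) (by simp only [List.length_append, add_mul]; omega)
    have e2 := h _ (c v hv) (by simp only [List.length_append, add_mul]; omega)
    rw [← e2, hψ, hψ, hψ, hψ] at e1
    simpa using e1
  have s3 : ∀ m, ∀ t ∈ Q j, ∀ w ∈ W t, w.length ≤ m → ∀ v ∈ W t, v.length ≤ 2 * 2 ^ n →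
      ψ w = ψ v := by
    intro m
    induction m with
    | zero => exact fun t ht w hw h v hv l => D t ht w hw v hv (by omega) l
    | succ m ih =>
      intro t ht w hw hl v hv l
      by_cases h2 : 2 ≤ w.length
      · obtain ⟨t1, a1, t2, a2, w1, b1, w2, b2, c1, c2, rfl, d⟩ := dec t ht.1 w hw h2
        have := List.length_pos_iff.2 c1
        have := List.length_pos_iff.2 c2
        rw [List.length_append] at hl
        obtain ⟨v1, e1, f1⟩ := s1 t1 a1 w1 b1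
        obtain ⟨v2, e2, f2⟩ := s1 t2 a2 w2 b2
        have ht' := ht
        obtain ⟨-, x, y, b, c⟩ := ht'
        have g1 : t1 ∈ Q j := q ⟨a1, x, v2 ++ y, by rw [List.length_append, add_mul]; omega,
          fun w hw => by simpa using c _ (d _ hw _ e2)⟩
        have g2 : t2 ∈ Q j := q ⟨a2, x ++ v1, y, by rw [List.length_append, add_mul]; omega,
          fun w hw => by simpa using c _ (d _ e1 _ hw)⟩
        rw [hψ, ih t1 g1 w1 b1 (by omega) v1 e1 (by omega),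
          ih t2 g2 w2 b2 (by omega) v2 e2 (by omega), ← hψ]
        exact D t ht _ (d _ e1 _ e2) v hv (by rw [List.length_append]; omega) l
      · exact D t ht w hw v hv (by have := Nat.one_le_two_pow (n := n); omega) l
  intro w hw
  obtain ⟨v, a, b⟩ := s1 t0 h0 w hw
  rw [s3 _ t0 ⟨h0, [], [], by simp, by simp⟩ w hw le_rfl v a (by omega)]
  exact h v a (by rw [add_mul]; omega)

end Pool.Agent.H32.Hom
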