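import Pool.Agent.H32.HomDefs
import Pool.Agent.H32.HomA
import Pool.Agent.H37.CI

/-! Virtually free groups: cocycle into a free group, triangulation, word problem. -/

namespace Pool.Agent.H32.Hom

open Pool.Agent.H37 FreeGroup

theorem ev_app {ι G : Type} [Group G] (a : ι → G) (u v : List (ι × Bool)) :
    ev a (u ++ v) = ev a u * ev a v := by simp [ev]

theorem ev_inv {ι G : Type} [Group G] (a : ι → G) (w : List (ι × Bool)) :
    ev a (invRev w) = (ev a w)⁻¹ := by
  have : ∀ w, ev a w = FreeGroup.lift a (mk w) := fun _ => rfl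
  rw [this, this, ← inv_mk, _root_.map_inv]

structure Coc (H : Type) [Group H] (k m : ℕ) where
  make ::
  σ : H → Fin k → Fin k
  β : H → Fin k → FreeGroup (Fin m)
  ω0 : Fin k
  σ1 : ∀ ω, σ 1 ω = ω
  β1 : ∀ ω, β 1 ω = 1
  σm : ∀ g h ω, σ (g * h) ω = σ g (σ h ω)
  βm : ∀ g h ω, β (g * h) ω = β g (σ h ω) * β h ω
  inj : ∀ g h ω, σ g ω = σ h ω → β g ω = β h ω → g = h

theorem exists_coc (H : Type) [Group H] [Group.FG H] (F : Subgroup H) [F.FiniteIndex]
    [IsFreeGroup F] : ∃ k m, Nonempty (Coc H k m) := by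
  have : Finite (IsFreeGroup.Generators F) := by
    have : Group.FG (FreeGroup (IsFreeGroup.Generators F)) :=
      Group.fg_of_surjective (f := (IsFreeGroup.toFreeGroup F).toMonoidHom)
        (IsFreeGroup.toFreeGroup F).surjective
    have : Group.FG (Abelianization (FreeGroup (IsFreeGroup.Generators F))) :=
      QuotientGroup.fg _
    have : AddGroup.FG (FreeAbelianGroup (IsFreeGroup.Generators F)) := AddGroup.fg_of_group_fg
    have : Module.Finite ℤ (FreeAbelianGroup (IsFreeGroup.Generators F)) :=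
      Module.Finite.iff_addGroup_fg.2 this
    exact Module.Finite.finite_basis (FreeAbelianGroup.basis _)
  obtain ⟨m, ⟨e⟩⟩ := Finite.exists_equiv_fin (IsFreeGroup.Generators F)
  obtain ⟨k, ⟨c⟩⟩ := Finite.exists_equiv_fin (H ⧸ F)
  let ρ := (IsFreeGroup.toFreeGroup F).trans (freeGroupCongr e)
  have hm : ∀ (h : H) (ω : H ⧸ F), (h • ω).out⁻¹ * (h * ω.out) ∈ F := fun h ω => by
    rw [← QuotientGroup.eq, QuotientGroup.out_eq']
    exact (MulAction.Quotient.mk_smul_out F h ω).symm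
  refine ⟨k, m, ⟨⟨fun h ω => c (h • c.symm ω), fun h ω => ρ ⟨_, hm h (c.symm ω)⟩,
    c ((1 : H) : H ⧸ F), by simp, fun ω => ?_, by simp [mul_smul], fun g h ω => ?_,
    fun g h ω h1 h2 => ?_⟩⟩⟩
  · rw [← _root_.map_one ρ]; congr 1; simp
  · rw [← _root_.map_mul]; congr 1
    ext; simp [mul_smul, mul_assoc]
  · have := congrArg Subtype.val (ρ.injective h2)
    simp only [c.injective h1] at this
    simpa using this

variable {H : Type} [Group H] {k m : ℕ} (C : Coc H k m)

theorem Coc.sep (ω : Fin k) : ∀ l : List H, l ≠ [] → ∀ A B, (C.β l.prod ω).toWord = A ++ B →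
    ∃ l1 y l2 y1 y2, l = l1 ++ y :: l2 ∧ C.β y (C.σ l2.prod ω) = y1 * y2 ∧
      FreeGroup.norm y1 ≤ FreeGroup.norm (y1 * y2) ∧ FreeGroup.norm y2 ≤ FreeGroup.norm (y1 * y2) ∧ y2 * C.β l2.prod ω = mk B := by
  intro l
  induction l with
  | nil => simp
  | cons y l ih =>
    intro _ A B e
    have r : Red ((C.β y (C.σ l.prod ω)).toWord ++ (C.β l.prod ω).toWord) (A ++ B) := by
      rw [← e, List.prod_cons, C.βm, toWord_mul]; exact reduce.red
    obtain ⟨L3, L4, e1, -, r2⟩ := Red.to_append_iff.1 r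
    rw [← (Red.exact.2 ⟨_, r2, .refl⟩ : mk L4 = mk B)]
    have key : ∀ c, (C.β y (C.σ l.prod ω)).toWord = L3 ++ c → L4 = c ++ (C.β l.prod ω).toWord →
        ∃ l1 y' l2 y1 y2, y :: l = l1 ++ y' :: l2 ∧ C.β y' (C.σ l2.prod ω) = y1 * y2 ∧
        FreeGroup.norm y1 ≤ FreeGroup.norm (y1 * y2) ∧ FreeGroup.norm y2 ≤ FreeGroup.norm (y1 * y2) ∧ y2 * C.β l2.prod ω = mk L4 := by
      intro c e2 e3
      have e4 : C.β y (C.σ l.prod ω) = mk L3 * mk c := by rw [mul_mk, ← e2, mk_toWord]
      have e5 : FreeGroup.norm (mk L3 * mk c) = L3.length + c.length := by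
        rw [← e4, FreeGroup.norm, e2, List.length_append]
      exact ⟨[], y, l, _, _, rfl, e4, norm_mk_le.trans (by omega), norm_mk_le.trans (by omega),
        by rw [e3, ← mul_mk, mk_toWord]⟩
    rcases List.append_eq_append_iff.1 e1 with ⟨c, e2, e3⟩ | ⟨c, e2, e3⟩
    · by_cases hl : l = []
      · subst hl
        simp only [List.prod_nil, C.β1, toWord_one, List.nil_eq, List.append_eq_nil_iff] at e3
        exact key [] (by simp [e2, e3.1]) (by simp [e3.2, C.β1])
      · obtain ⟨l1, y', l2, y1, y2, rfl, h⟩ := ih hl _ _ e3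
        exact ⟨y :: l1, y', l2, y1, y2, rfl, h⟩
    · exact key c e2 e3

def Coc.ball (n : ℕ) : Set H := {g | ∃ ω, FreeGroup.norm (C.β g ω) ≤ n}

theorem Coc.tri (K : ℕ) (l : List H) (h2 : 2 ≤ l.length) (hl : ∀ y ∈ l, ∀ ω, FreeGroup.norm (C.β y ω) ≤ K)
    (hb : l.prod ∈ C.ball (2 * K)) : ∃ l1 l2, l1 ≠ [] ∧ l2 ≠ [] ∧ l = l1 ++ l2 ∧
      l1.prod ∈ C.ball (2 * K) ∧ l2.prod ∈ C.ball (2 * K) := by
  obtain ⟨ω, hω⟩ := hb
  have e := (List.take_append_drop K (C.β l.prod ω).toWord).symm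
  obtain ⟨l1, y, l2, y1, y2, e1, a1, a2, a3, a4⟩ := C.sep ω l (by rintro rfl; simp at h2) _ _ e
  have hA : FreeGroup.norm (mk ((C.β l.prod ω).toWord.take K)) ≤ K := norm_mk_le.trans (by simp)
  have hB : FreeGroup.norm (mk ((C.β l.prod ω).toWord.drop K)) ≤ K :=
    norm_mk_le.trans (by rw [FreeGroup.norm] at hω; simp; omega)
  have e2 := congrArg mk e
  rw [mk_toWord, ← mul_mk] at e2
  generalize mk ((C.β l.prod ω).toWord.take K) = A at *
  generalize mk ((C.β l.prod ω).toWord.drop K) = B at *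
  have hy := hl y (by simp [e1]) (C.σ l2.prod ω)
  rw [a1] at hy
  have b1 : C.β (y * l2.prod) ω = y1 * B := by rw [C.βm, a1, mul_assoc, a4]
  have b2 : C.β l1.prod (C.σ (y * l2.prod) ω) = A * y1⁻¹ := by
    rw [e1, List.prod_append, List.prod_cons, C.βm, b1, ← mul_assoc, mul_right_cancel_iff] at e2
    simp [← e2]
  by_cases h : l2 = []
  · refine ⟨l1, y :: l2, ?_, by simp, e1, ⟨C.σ (y * l2.prod) ω, ?_⟩, ω, ?_⟩
    · rintro rfl
      simp [e1, h] at h2
    · rw [b2]
      have := FreeGroup.norm_mul_le A y1⁻¹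
      rw [norm_inv_eq] at this
      omega
    · rw [List.prod_cons, b1]
      have := FreeGroup.norm_mul_le y1 B
      omega
  · refine ⟨l1 ++ [y], l2, by simp, h, by simp [e1], ⟨C.σ l2.prod ω, ?_⟩, ω, ?_⟩
    · rw [List.prod_append, List.prod_singleton, C.βm, ← C.σm, b2, a1, mul_assoc,
        inv_mul_cancel_left]
      have := FreeGroup.norm_mul_le A y2
      omega
    · rw [eq_inv_mul_of_mul_eq a4]
      have := FreeGroup.norm_mul_le y2⁻¹ B
      rw [norm_inv_eq] at this
      omega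

theorem Coc.card (n : ℕ) : (C.ball n).Finite ∧ (C.ball n).ncard ≤ k * k * (2 * m + 1) ^ n := by
  have : ∀ g : C.ball n, ∃ ω, FreeGroup.norm (C.β g ω) ≤ n := fun g => g.2
  choose o ho using this
  let f : C.ball n → Fin k × Fin k × (Fin n → Option (Fin m × Bool)) := fun g =>
    (o g, C.σ g (o g), fun i => (C.β g (o g)).toWord[i.val]?)
  have hf : Function.Injective f := fun g h e => by
    simp only [f, Prod.mk.injEq] at e
    obtain ⟨e1, e2, e3⟩ := e
    have a := ho g
    have b := ho h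
    rw [← e1] at e2 e3 b
    refine Subtype.ext (C.inj _ _ _ e2 (toWord_injective (List.ext_getElem? fun i => ?_)))
    by_cases hi : i < n
    · exact congrFun e3 ⟨i, hi⟩
    · rw [FreeGroup.norm] at a b
      rw [List.getElem?_eq_none (by omega), List.getElem?_eq_none (by omega)]
  refine ⟨Finite.of_injective f hf, (Nat.card_le_card_of_injective f hf).trans ?_⟩
  simp [mul_assoc, mul_comm]

theorem Coc.lip {r : ℕ} (a : Fin r → H) : ∃ c, ∀ w ω, FreeGroup.norm (C.β (ev a w) ω) ≤ c * w.length := by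
  obtain ⟨c, hc⟩ := Finite.exists_le fun p : (Fin r × Bool) × Fin k => FreeGroup.norm (C.β (ev a [p.1]) p.2)
  refine ⟨c, fun w => ?_⟩
  induction w with
  | nil => simp [ev, C.β1]
  | cons x w ih =>
    intro ω
    rw [← List.singleton_append, ev_app, C.βm]
    have := hc (x, C.σ (ev a w) ω)
    have := ih ω
    refine (FreeGroup.norm_mul_le _ _).trans ?_
    simp only [List.singleton_append, List.length_cons, mul_add] at *
    omega

theorem ci_red : CI ∅ (reduce : List (Fin m × Bool) → List (Fin m × Bool)) := by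
  refine CI.of_eq (f := fun w : List (Fin m × Bool) => w.foldr (fun x l => l.head?.elim [x] fun y =>
    cond (decide (x.1 = y.1) && decide (x.2 = !y.2)) l.tail (x :: l)) []) (by fun_prop) fun w => ?_
  induction w with
  | nil => rfl
  | cons x w ih =>
    rw [List.foldr_cons, ih, reduce.cons]
    cases reduce w with
    | nil => rfl
    | cons y l => by_cases h1 : x.1 = y.1 <;> by_cases h2 : x.2 = !y.2 <;> simp [h1, h2]

include C in
theorem Coc.wp {r : ℕ} (a : Fin r → H) :
    ∃ f : List (Fin r × Bool) → Bool, CI ∅ f ∧ ∀ w, f w = true ↔ ev a w = 1 := by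
  let t : (Fin r × Bool) × Fin k → Fin k × List (Fin m × Bool) := fun p =>
    (C.σ (ev a [p.1]) p.2, (C.β (ev a [p.1]) p.2).toWord)
  have ht : CI ∅ t := CI.dom_finite t CI.id'
  let st : List (Fin r × Bool) → Fin k × List (Fin m × Bool) := fun w =>
    w.foldr (fun x s => ((t (x, s.1)).1, (t (x, s.1)).2 ++ s.2)) (C.ω0, [])
  have hs : CI ∅ st := by
    clear_value t
    simp only [st]
    fun_prop
  have e : ∀ w, (st w).1 = C.σ (ev a w) C.ω0 ∧ mk (st w).2 = C.β (ev a w) C.ω0 := by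
    intro w
    induction w with
    | nil => exact ⟨(C.σ1 _).symm, (C.β1 _).symm⟩
    | cons x w ih =>
      rw [← List.singleton_append, ev_app, C.σm, C.βm, ← ih.1, ← ih.2]
      exact ⟨rfl, by rw [← mk_toWord (x := C.β _ _), mul_mk]; rfl⟩
  have hr := ci_red (m := m)
  refine ⟨fun w => (st w).1 == C.ω0 && reduce (st w).2 == [], by clear_value st; fun_prop,
    fun w => ?_⟩
  simp only [Bool.and_eq_true, beq_iff_eq, ← toWord_mk, toWord_eq_nil_iff, e]
  exact ⟨fun h => C.inj _ _ _ (h.1.trans (C.σ1 _).symm) (h.2.trans (C.β1 _).symm),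
    fun h => by rw [h]; exact ⟨C.σ1 _, C.β1 _⟩⟩

end Pool.Agent.H32.Hom
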