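import Mathlib

/-! Evaluation of group words. -/

namespace Pool.Agent.H32.Hom

/-- the value of a word in the letters `a i` (sign `true`) and their inverses (sign `false`) -/
def ev {ι G : Type} [Group G] (a : ι → G) (w : List (ι × Bool)) : G :=
  (w.map fun p => cond p.2 (a p.1) (a p.1)⁻¹).prod

end Pool.Agent.H32.Hom
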