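import Mathlib

set_option autoImplicit false

namespace Pool.Agent.H32.Int

open Filter Classical

/-- measurable Koenig selection -/
theorem sel {Z : Type} [MeasurableSpace Z] {r : ℕ} (K : Z → ℕ → (ℕ → Fin (r + 1)) → Prop)
    (hm : ∀ m c, Measurable fun z => K z m c)
    (hl : ∀ z m c c', (∀ n < m, c n = c' n) → K z m c → K z m c')
    (ha : ∀ z m m' c, m ≤ m' → K z m' c → K z m c) :
    ∃ (E : Z → Prop) (l : Z → ℕ → Fin (r + 1)), Measurable E ∧
      (∀ n i, Measurable fun z => l z n = i) ∧ (∀ z c, (∀ m, K z m c) → E z) ∧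
      ∀ z, E z → ∀ m, K z m (l z) := by
  let Ext : Z → List (Fin (r + 1)) → Prop := fun z u =>
    ∀ m, ∃ v : List (Fin (r + 1)), K z m (fun n => (u ++ v).getD n 0)
  have mE : ∀ u, Measurable fun z => Ext z u := fun u =>
    Measurable.forall fun m => Measurable.exists fun v => hm _ _
  have step : ∀ z u, Ext z u → ∃ i, Ext z (u ++ [i]) := by
    intro z u h
    by_contra hc
    simp only [Ext, not_exists, not_forall] at hc
    choose m hm' using hc
    obtain ⟨v, hv⟩ := h (Finset.univ.sup m)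
    cases v with
    | nil =>
      refine hm' 0 [] (ha _ _ _ _ (Finset.le_sup (Finset.mem_univ _)) (hl _ _ _ _ ?_ hv))
      intro n _
      simp only [List.append_nil, List.getD_eq_getElem?_getD]
      rcases lt_trichotomy n u.length with h | h | h
      · rw [List.getElem?_append_left h]
      · subst h; simp
      · rw [List.getElem?_eq_none (by omega), List.getElem?_eq_none (by simp; omega)]
    | cons i v =>
      refine hm' i v (ha _ _ _ _ (Finset.le_sup (Finset.mem_univ _)) ?_)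
      simpa using hv
  let nx : Z → List (Fin (r + 1)) → Fin (r + 1) := fun z u => epsilon fun i => Ext z (u ++ [i])
  have mn : ∀ u i, Measurable fun z => nx z u = i := fun u i =>
    (measurable_of_finite fun P : Fin (r + 1) → Prop => epsilon P = i).comp
      (measurable_pi_lambda _ fun j => mE (u ++ [j]))
  let U : Z → ℕ → List (Fin (r + 1)) := fun z n => Nat.rec [] (fun _ u => u ++ [nx z u]) n
  have Us : ∀ z n, U z (n + 1) = U z n ++ [nx z (U z n)] := fun _ _ => rfl
  have mU : ∀ n u, Measurable fun z => U z n = u := by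
    intro n
    induction n with
    | zero => intro u; exact (measurable_const : Measurable fun _ : Z => ([] : List (Fin (r + 1))) = u)
    | succ n ih =>
      intro w
      have : (fun z => U z (n + 1) = w) =
          fun z => ∃ u i, U z n = u ∧ nx z u = i ∧ u ++ [i] = w := by
        funext z; simp [Us]
      rw [this]
      exact Measurable.exists fun u => Measurable.exists fun i =>
        (ih u).and ((mn u i).and measurable_const)
  have len : ∀ z n, (U z n).length = n := by
    intro z n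
    induction n with
    | zero => rfl
    | succ n ih => simp [Us, ih]
  have coh : ∀ z m n, n < m → ∀ v, (U z m ++ v).getD n 0 = nx z (U z n) := by
    intro z m
    induction m with
    | zero => intro n h; omega
    | succ m ih =>
      intro n h v
      rw [Us, List.append_assoc]
      rcases Nat.lt_succ_iff_lt_or_eq.1 h with h | rfl
      · exact ih n h _
      · rw [List.getD_append_right _ _ _ _ (by rw [len]), len]; simp
  refine ⟨fun z => Ext z [], fun z n => nx z (U z n), mE _, fun n i => ?_, fun z c h m => ?_,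
    fun z h m => ?_⟩
  · have : (fun z => nx z (U z n) = i) = fun z => ∃ u, U z n = u ∧ nx z u = i := by
      funext z; simp
    rw [this]
    exact Measurable.exists fun u => (mU n u).and (mn u i)
  · refine ⟨(List.range m).map c, hl _ _ _ _ (fun n hn => ?_) (h m)⟩
    simp [hn]
  · have : ∀ n, Ext z (U z n) := by
      intro n
      induction n with
      | zero => exact h
      | succ n ih => exact epsilon_spec (step z _ ih)
    obtain ⟨v, hv⟩ := this m m
    exact hl _ _ _ _ (fun n hn => coh z m n hn v) hv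

abbrev Y (r : ℕ) := Fin (r + 1) × Fin (r + 2) × Finset ℕ → Prop

variable {r : ℕ}

def Safe (φ : Y r) (t : Fin (r + 2)) (s : ℕ) (c : ℕ → Fin (r + 1)) : Prop :=
  ∀ i G t', t' ≠ t → φ (i, t', G) → (∀ n ∈ G, s ≤ n) → ¬ ∀ n ∈ G, c n = i

def Good (φ : Y r) (b : ℕ → Fin (r + 1) → Prop) (t : Fin (r + 2)) (s : ℕ)
    (c : ℕ → Fin (r + 1)) : Prop := Safe φ t s c ∧ ∀ n, s ≤ n → ¬ b n (c n)

def Valid (φ : Y r) (t : Fin (r + 2)) (c : ℕ → Fin (r + 1)) : Prop :=
  Safe φ t 0 c ∧ ∀ i (H : Set ℕ), H.Infinite → (∀ n ∈ H, c n = i) →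
    ∃ G : Finset ℕ, ↑G ⊆ H ∧ φ (i, t, G)

theorem Valid.ne {φ : Y r} {t t' : Fin (r + 2)} {c c' : ℕ → Fin (r + 1)} {s : ℕ}
    (h : Valid φ t c) (ht : t ≠ t') (h' : Safe φ t' s c') : ∀ᶠ n in atTop, c n ≠ c' n := by
  have : ∀ i, {n | s ≤ n ∧ c n = i ∧ c' n = i}.Finite := fun i => by
    by_contra hc
    obtain ⟨G, h1, h2⟩ := h.2 i _ hc fun n hn => hn.2.1
    exact h' i G t ht h2 (fun n hn => (h1 hn).1) fun n hn => (h1 hn).2.2
  have h2 := (Set.finite_iUnion this).compl_mem_cofinite
  rw [Nat.cofinite_eq_atTop] at h2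
  filter_upwards [h2, eventually_ge_atTop s] with n h1 h3 e
  exact h1 (Set.mem_iUnion.2 ⟨c n, h3, rfl, e.symm⟩)

theorem stepA (b : Y r → ℕ → Fin (r + 1) → Prop) (hb : ∀ n i, Measurable fun φ => b φ n i)
    (t : Fin (r + 2)) : ∃ (E : Y r → Prop) (L : Y r → ℕ → Fin (r + 1) → Prop), Measurable E ∧
      (∀ n i, Measurable fun φ => L φ n i) ∧ (∀ φ s c, Good φ (b φ) t s c → E φ) ∧
      (∀ φ, E φ → ∃ s c, Good φ (b φ) t s c ∧ ∀ n i, L φ n i ↔ c n = i) ∧
      ∀ φ n i, L φ n i → E φ := by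
  have := fun s : ℕ => sel (r := r) (fun (φ : Y r) m c =>
    (∀ i G t', t' ≠ t → φ (i, t', G) → (∀ n ∈ G, s ≤ n ∧ n < m) → ¬ ∀ n ∈ G, c n = i) ∧
      ∀ n, s ≤ n → n < m → ¬ b φ n (c n))
    (fun m c => (Measurable.forall fun i => Measurable.forall fun G => Measurable.forall fun t' =>
      measurable_const.imp ((measurable_pi_apply _).imp measurable_const)).and
      (Measurable.forall fun n => measurable_const.imp (measurable_const.imp (hb _ _).not)))
    (fun φ m c c' e h => ⟨fun i G t' h1 h2 h3 h4 => h.1 i G t' h1 h2 h3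
      fun n hn => (e n (h3 n hn).2).trans (h4 n hn), fun n h1 h2 => e n h2 ▸ h.2 n h1 h2⟩)
    (fun φ m m' c e h => ⟨fun i G t' h1 h2 h3 => h.1 i G t' h1 h2
      fun n hn => ⟨(h3 n hn).1, (h3 n hn).2.trans_le e⟩, fun n h1 h2 => h.2 n h1 (h2.trans_le e)⟩)
  choose E l mE ml h1 h2 using this
  refine ⟨fun φ => ∃ s, E s φ, fun φ n i => ∃ s, (E s φ ∧ ∀ s' < s, ¬ E s' φ) ∧ l s φ n = i,
    Measurable.exists mE, fun n i => Measurable.exists fun s => ((mE s).and
      (Measurable.forall fun s' => measurable_const.imp (mE s').not)).and (ml s n i),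
    fun φ s c h => ⟨s, h1 s φ c fun m => ⟨fun i G t' a1 a2 a3 => h.1 i G t' a1 a2
      fun n hn => (a3 n hn).1, fun n a1 _ => h.2 n a1⟩⟩, fun φ h => ?_,
    fun φ n i ⟨s, h, _⟩ => ⟨s, h.1⟩⟩
  refine ⟨Nat.find h, l _ φ, ⟨fun i G t' a1 a2 a3 => (h2 _ φ (Nat.find_spec h) (G.sup id + 1)).1
    i G t' a1 a2 fun n hn => ⟨a3 n hn, Nat.lt_succ_of_le (Finset.le_sup (f := id) hn)⟩,
    fun n hn => (h2 _ φ (Nat.find_spec h) (n + 1)).2 n hn (Nat.lt_succ_self n)⟩, fun n i => ?_⟩
  refine ⟨fun ⟨s, ⟨a1, a2⟩, a3⟩ => ?_, fun e => ⟨_, ⟨Nat.find_spec h, fun s' => Nat.find_min h⟩, e⟩⟩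
  rwa [(Nat.find_eq_iff h).2 ⟨a1, a2⟩]

theorem iter (j : ℕ) : ∃ (b : Y r → ℕ → Fin (r + 1) → Prop) (W : Y r → Fin (r + 2) → Prop),
    (∀ n i, Measurable fun φ => b φ n i) ∧ (∀ t, Measurable fun φ => W φ t) ∧
    (∀ φ t c, Valid φ t c → W φ t ∧ ∀ᶠ n in atTop, ¬ b φ n (c n)) ∧
    ∀ φ, (∀ t, W φ t) → ∀ᶠ n in atTop, j ≤ (Finset.univ.filter (b φ n)).card := by
  induction j with
  | zero =>
    exact ⟨fun _ _ _ => False, fun _ _ => True, fun _ _ => measurable_const,
      fun _ => measurable_const, by simp, by simp⟩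
  | succ j ih =>
    obtain ⟨b, W, mb, mW, h1, h2⟩ := ih
    choose E L mE mL e1 e2 e3 using stepA b mb
    refine ⟨fun φ n i => b φ n i ∨ ∃ t t', t ≠ t' ∧ L t φ n i ∧ L t' φ n i,
      fun φ t => W φ t ∧ E t φ, fun n i => (mb n i).or (Measurable.exists fun t =>
        Measurable.exists fun t' => measurable_const.and ((mL t n i).and (mL t' n i))),
      fun t => (mW t).and (mE t), fun φ t c hv => ?_, fun φ h => ?_⟩
    · obtain ⟨a1, a2⟩ := h1 φ t c hv
      obtain ⟨s, hs⟩ := eventually_atTop.1 a2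
      refine ⟨⟨a1, e1 t φ s c ⟨fun i G t' x y _ => hv.1 i G t' x y fun _ _ => Nat.zero_le _, hs⟩⟩, ?_⟩
      have : ∀ t', ∀ᶠ n in atTop, t ≠ t' → ¬ L t' φ n (c n) := fun t' => by
        by_cases ht : t = t'
        · simp [ht]
        by_cases he : E t' φ
        · obtain ⟨s', c', g, hl⟩ := e2 t' φ he
          filter_upwards [hv.ne ht g.1] with n hn _ h
          exact hn ((hl n _).1 h).symm
        · exact Eventually.of_forall fun n _ h => he (e3 _ _ _ _ h)
      filter_upwards [a2, eventually_all.2 this] with n b1 b2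
      rintro (h | ⟨t1, t2, h, c1, c2⟩)
      · exact b1 h
      · by_cases e : t = t1
        · exact b2 t2 (e ▸ h) c2
        · exact b2 t1 e c1
    · choose s c g hl using fun t => e2 t φ (h t).2
      filter_upwards [h2 φ fun t => (h t).1, eventually_all.2 fun t => eventually_ge_atTop (s t)]
        with n b1 b2
      obtain ⟨t1, t2, ht, e⟩ := Fintype.exists_ne_map_eq_of_card_lt (fun t => c t n) (by simp)
      refine Nat.succ_le_of_lt (b1.trans_lt (Finset.card_lt_card ⟨fun i => ?_, fun hs => ?_⟩))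
      · simp +contextual
      · have := hs (x := c t1 n) (by
          simp only [Finset.mem_filter, Finset.mem_univ, true_and]
          exact Or.inr ⟨t1, t2, ht, (hl _ _ _).2 rfl, (hl _ _ _).2 e.symm⟩)
        simp only [Finset.mem_filter, Finset.mem_univ, true_and] at this
        exact (g t1).2 n (b2 t1) this

theorem exW (r : ℕ) : ∃ W : Y r → Fin (r + 2) → Prop, (∀ t, Measurable fun φ => W φ t) ∧
    (∀ φ t c, Valid φ t c → W φ t) ∧ ∀ φ, ¬ ∀ t, W φ t := by
  obtain ⟨b, W, -, mW, h1, h2⟩ := iter (r := r) (r + 2)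
  refine ⟨W, mW, fun φ t c h => (h1 φ t c h).1, fun φ h => ?_⟩
  obtain ⟨n, hn⟩ := (h2 φ h).exists
  have := (Finset.card_filter_le (Finset.univ : Finset (Fin (r + 1))) (b φ n))
  simp at this
  omega

end Pool.Agent.H32.Int
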