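import Pool.Agent.H32.IntA

set_option autoImplicit false

namespace Pool.Agent.H32.Int

open Filter Classical Function

def pre (p : ℕ → ℕ) (n : ℕ) : List ℕ := (List.range n).map p

def lst (x : ℕ) : List ℕ := Denumerable.ofNat (List ℕ) x.unpair.2

def el (e : ℕ) (p : ℕ → ℕ) (n : ℕ) : ℕ := Nat.pair e (Encodable.encode (pre (update p e 0) n))

def AA (p : ℕ → ℕ) : Set ℕ :=
  {x | x.unpair.1 < (lst x).length ∧ lst x = pre (update p x.unpair.1 0) (lst x).length}

theorem lst_el (e : ℕ) (p : ℕ → ℕ) (n : ℕ) : lst (el e p n) = pre (update p e 0) n := by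
  simp [lst, el]

theorem len_pre (p : ℕ → ℕ) (n : ℕ) : (pre p n).length = n := by simp [pre]

theorem pre_eq {p q : ℕ → ℕ} {n : ℕ} : pre p n = pre q n ↔ ∀ j < n, p j = q j := by
  simp [pre]

theorem el_mem {e n : ℕ} (h : e < n) (p q : ℕ → ℕ) :
    el e q n ∈ AA p ↔ ∀ j < n, j ≠ e → q j = p j := by
  simp only [AA, Set.mem_ofPred_eq, lst_el, len_pre, pre_eq]
  simp only [el, Nat.unpair_pair, h, true_and]
  refine forall₂_congr fun j _ => ?_
  by_cases e : j = e <;> simp [e]

theorem el_inj (e : ℕ) (p : ℕ → ℕ) : Injective (el e p) := fun a b h => by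
  have := congrArg (fun x => (lst x).length) h
  simpa [lst_el, len_pre] using this

theorem el_congr {e n : ℕ} {p q : ℕ → ℕ} (h : ∀ j < n, j ≠ e → p j = q j) :
    el e p n = el e q n := by
  unfold el
  rw [pre_eq.2]
  intro j hj
  by_cases e : j = e <;> simp [e, h j hj]

theorem meas_dep (P : (ℕ → ℕ) → Prop) (m : ℕ) (h : ∀ p q, (∀ j < m, p j = q j) → P p → P q) :
    Measurable P := by
  have : P = fun p => ∃ l : List ℕ, (∀ j, j < m → p j = l.getD j 0) ∧ P (fun j => l.getD j 0) := by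
    funext p
    refine propext ⟨fun hp => ⟨pre p m, fun j hj => by simp [pre, hj], h p _ ?_ hp⟩,
      fun ⟨l, h1, h2⟩ => h _ _ (fun j hj => (h1 j hj).symm) h2⟩
    intro j hj
    simp [pre, hj]
  rw [this]
  exact Measurable.exists fun l => (Measurable.forall fun j => measurable_const.imp
    ((measurable_of_countable fun x : ℕ => x = l.getD j 0).comp (measurable_pi_apply j))).and
    measurable_const

def phi {r : ℕ} (F : Fin (r + 1) → Finset ℕ → ℕ → Prop) (e : ℕ) (p : ℕ → ℕ) : Y r :=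
  fun z => F z.1 (z.2.2.image fun n => el e p (e + 1 + n)) (el (e + 1) (update p e z.2.1) (e + 2))

theorem phi_meas {r : ℕ} (F : Fin (r + 1) → Finset ℕ → ℕ → Prop) (e : ℕ) :
    Measurable (phi F e) := by
  refine measurable_pi_lambda _ fun z => meas_dep _ (z.2.2.sup id + e + 2) fun p q h hp => ?_
  unfold phi at hp ⊢
  rw [← Finset.image_congr (f := fun n => el e p (e + 1 + n)),
    ← el_congr (p := update p e z.2.1)]
  · exact hp
  · intro j hj _
    by_cases e : j = e <;> simp [e, h j (by omega)]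
  · intro n hn
    have : n ≤ z.2.2.sup id := Finset.le_sup (f := id) hn
    exact el_congr fun j hj _ => h j (by omega)

theorem phi_upd {r : ℕ} (F : Fin (r + 1) → Finset ℕ → ℕ → Prop) (e : ℕ) (p : ℕ → ℕ) (v : ℕ) :
    phi F e (update p e v) = phi F e p := by
  funext z
  simp [phi, el]

theorem bad_meagre {r : ℕ} (F : Fin (r + 1) → Finset ℕ → ℕ → Prop)
    (W : Y r → Fin (r + 2) → Prop) (mW : ∀ t, Measurable fun φ => W φ t)
    (hW : ∀ φ, ¬ ∀ t, W φ t) :
    ∀ᶠ p : ℕ → ℕ in residual (ℕ → ℕ), ¬ ∀ e (t : Fin (r + 2)), p e = t → W (phi F e p) t := by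
  have hm : MeasurableSet {p : ℕ → ℕ | ∀ e (t : Fin (r + 2)), p e = t → W (phi F e p) t} :=
    measurableSet_setOfPred.2 (Measurable.forall fun e => Measurable.forall fun t =>
      ((measurable_of_countable fun x : ℕ => x = t).comp (measurable_pi_apply e)).imp
        ((mW t).comp (phi_meas F e)))
  obtain ⟨U, hU, h⟩ := hm.residualEq_isOpen
  rcases U.eq_empty_or_nonempty with rfl | ⟨p0, hp0⟩
  · filter_upwards [h] with p hp h'
    exact (eq_iff_iff.1 hp).1 h'
  exfalso
  obtain ⟨I, u, hu, hI⟩ := isOpen_pi_iff.1 hU p0 hp0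
  let e := I.sup id + 1
  let s : ℕ → (ℕ → ℕ) → ℕ → ℕ := fun t p => update p e (Equiv.swap 0 t (p e))
  have sc : ∀ t, Continuous (s t) := fun t =>
    continuous_id.update e (continuous_of_discreteTopology.comp (continuous_apply e))
  have si : ∀ t, Involutive (s t) := fun t p => by simp [s]
  have so : ∀ t, IsOpenMap (s t) := fun t =>
    (Homeomorph.mk (si t).toPerm (sc t) (sc t)).isOpenMap
  have h2 := eventually_all.2 fun t : Fin (r + 2) =>
    (tendsto_residual_of_isOpenMap (sc t) (so t)).eventually h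
  have ho : IsOpen {p : ℕ → ℕ | p e = 0 ∧ ∀ j ∈ I, p j = p0 j} :=
    ((isOpen_discrete {0}).preimage (continuous_apply e)).inter
      (isOpen_set_pi (s := fun j => {p0 j}) I.finite_toSet fun _ _ => isOpen_discrete _)
  obtain ⟨p, ⟨h3, h4⟩, h5⟩ := (dense_of_mem_residual h2).inter_open_nonempty _ ho
    ⟨update p0 e 0, by simp, fun j hj => by
      have : j ≤ I.sup id := Finset.le_sup (f := id) hj
      rw [update_of_ne (by omega)]⟩
  refine hW (phi F e p) fun t => ?_
  have h6 : s t p = update p e t := by simp [s, h3]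
  have := (eq_iff_iff.1 (h5 t)).2 (hI fun j hj => by
    have : j ≤ I.sup id := Finset.le_sup (f := id) hj
    rw [h6, update_of_ne (by omega), h4 j hj]
    exact (hu j hj).2) e t (by simp [h6])
  rwa [h6, phi_upd] at this

theorem core {ι : Type} [Countable ι] (F : ι → Finset ℕ → ℕ → Prop) :
    ∃ p : ℕ → ℕ, ∀ (r : ℕ) (f : Fin (r + 1) → ι) (B : Fin (r + 1) → Set ℕ),
      (∀ x ∈ AA p, ∃ i, x ∈ B i) →
      (∀ i (G : Finset ℕ) y, ↑G ⊆ B i → F (f i) G y → y ∈ AA p) →
      (∀ i H y, H.Infinite → H ⊆ B i → y ∈ AA p → ∃ G : Finset ℕ, ↑G ⊆ H ∧ F (f i) G y) →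
      False := by
  choose W mW h1 h2 using exW
  have := eventually_countable_forall.2 fun R : Σ r : ℕ, Fin (r + 1) → ι =>
    bad_meagre (fun i => F (R.2 i)) (W R.1) (mW R.1) (h2 R.1)
  obtain ⟨p, hp⟩ := (dense_of_mem_residual this).nonempty
  refine ⟨p, fun r f B hc hS hT => hp ⟨r, f⟩ fun e t ht => h1 r _ t ?_ ?_⟩
  · exact fun n => choose (hc (el e p (e + 1 + n)) ((el_mem (by omega) _ _).2 fun _ _ _ => rfl))
  have hs := fun n => choose_spec (hc (el e p (e + 1 + n))
    ((el_mem (by omega) _ _).2 fun _ _ _ => rfl))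
  refine ⟨fun i G t' h3 h4 _ h5 => h3 ?_, fun i H hH h3 => ?_⟩
  · have := (el_mem (by omega) _ _).1 (hS i _ _ (by
      simp only [Finset.coe_image]
      rintro _ ⟨n, hn, rfl⟩
      exact h5 n hn ▸ hs n) h4) e (by omega) (by omega)
    rw [update_self, ht] at this
    exact Fin.ext this
  · obtain ⟨G, h4, h5⟩ := hT i ((fun n => el e p (e + 1 + n)) '' H)
      (el (e + 1) (update p e t) (e + 2))
      (hH.image fun a _ b _ h => by simpa using el_inj e p h)
      (by rintro _ ⟨n, hn, rfl⟩; exact h3 n hn ▸ hs n)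
      ((el_mem (by omega) _ _).2 fun j _ _ => by rw [← ht, update_eq_self])
    obtain ⟨G', h6, rfl⟩ := Finset.subset_set_image_iff.1 h4
    exact ⟨G', h6, h5⟩

end Pool.Agent.H32.Int
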