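import Mathlib

set_option autoImplicit false

namespace Pool.Agent.H32.Int

open Classical in
/-- characteristic function of a set of naturals -/
noncomputable def chi (A : Set ℕ) : ℕ →. ℕ := fun n => Part.some (if n ∈ A then 1 else 0)

/-- oracle programs (Turing operators); the clauses are those of `Nat.RecursiveIn` -/
inductive OC : Type
  | zero | succ | left | right | oracle
  | pair (a b : OC) | comp (a b : OC) | prec (a b : OC) | rfind (a : OC)

/-- the function computed by an oracle program with oracle `g` -/
def OC.eval (g : ℕ →. ℕ) : OC → ℕ →. ℕ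
  | zero => fun _ => 0
  | succ => Nat.succ
  | left => fun n => (Nat.unpair n).1
  | right => fun n => (Nat.unpair n).2
  | oracle => g
  | pair a b => fun n => Nat.pair <$> a.eval g n <*> b.eval g n
  | comp a b => fun n => b.eval g n >>= a.eval g
  | prec a b => fun p => (Nat.unpair p).2.rec (a.eval g (Nat.unpair p).1) fun y IH => do
      let i ← IH
      b.eval g (Nat.pair (Nat.unpair p).1 (Nat.pair y i))
  | rfind a => fun x => Nat.rfind fun n => (fun m => m = 0) <$> a.eval g (Nat.pair x n)

def Introreducible (A : Set ℕ) : Prop :=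
  A.Infinite ∧ ∀ C ⊆ A, C.Infinite → TuringReducible (chi A) (chi C)

/-- one Turing operator computes `A` from every infinite subset of `B` -/
def UiT (A B : Set ℕ) : Prop := ∃ c : OC, ∀ C ⊆ B, C.Infinite → c.eval (chi C) = chi A

def UnifIntroreducible (A : Set ℕ) : Prop := A.Infinite ∧ UiT A A

/-- the finite set with canonical index `u` -/
def D (u : ℕ) : Set ℕ := {x | u.testBit x = true}

/-- value at `X` of the enumeration operator given by `T` -/
def app (T X : Set ℕ) : Set ℕ := {n | ∃ u, D u ⊆ X ∧ Nat.pair u n ∈ T}

def Introenumerable (A : Set ℕ) : Prop :=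
  A.Infinite ∧ ∀ C ⊆ A, C.Infinite → ∃ T : Set ℕ, REPred (· ∈ T) ∧ app T C = A

/-- one enumeration operator enumerates `A` from every infinite subset of `B` -/
def UiE (A B : Set ℕ) : Prop :=
  ∃ T : Set ℕ, REPred (· ∈ T) ∧ ∀ C ⊆ B, C.Infinite → app T C = A

end Pool.Agent.H32.Int
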