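import Pool.Agent.H32.IntB
import Pool.Agent.H32.IntDefs
import Pool.Agent.H37.CI

set_option autoImplicit false

namespace Pool.Agent.H32.Int

open Filter Classical Function Pool.Agent.H37

theorem red_iff (f g : ℕ →. ℕ) : TuringReducible f g ↔ ∃ c : OC, c.eval g = f := by
  rw [TuringReducible, RecursiveIn.iff_nat]
  constructor
  · intro h
    induction h with
    | zero => exact ⟨.zero, rfl⟩
    | succ => exact ⟨.succ, rfl⟩
    | left => exact ⟨.left, rfl⟩
    | right => exact ⟨.right, rfl⟩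
    | oracle g' h => exact ⟨.oracle, h.symm⟩
    | pair _ _ h1 h2 => obtain ⟨a, rfl⟩ := h1; obtain ⟨b, rfl⟩ := h2; exact ⟨.pair a b, rfl⟩
    | comp _ _ h1 h2 => obtain ⟨a, rfl⟩ := h1; obtain ⟨b, rfl⟩ := h2; exact ⟨.comp a b, rfl⟩
    | prec _ _ h1 h2 => obtain ⟨a, rfl⟩ := h1; obtain ⟨b, rfl⟩ := h2; exact ⟨.prec a b, rfl⟩
    | rfind _ h1 => obtain ⟨a, rfl⟩ := h1; exact ⟨.rfind a, rfl⟩
  · rintro ⟨c, rfl⟩
    induction c with
    | zero => exact .zero
    | succ => exact .succ
    | left => exact .left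
    | right => exact .right
    | oracle => exact .oracle _ rfl
    | pair a b h1 h2 => exact .pair h1 h2
    | comp a b h1 h2 => exact .comp h1 h2
    | prec a b h1 h2 => exact .prec h1 h2
    | rfind a h1 => exact .rfind h1

def OC.subst (d : OC) : OC → OC
  | .oracle => d
  | .pair a b => .pair (d.subst a) (d.subst b)
  | .comp a b => .comp (d.subst a) (d.subst b)
  | .prec a b => .prec (d.subst a) (d.subst b)
  | .rfind a => .rfind (d.subst a)
  | c => c

theorem eval_subst (g : ℕ →. ℕ) (d c : OC) : (d.subst c).eval g = c.eval (d.eval g) := by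
  induction c <;> simp_all [OC.subst, OC.eval]

def OC.enc : OC → ℕ
  | .zero => Nat.pair 0 0
  | .succ => Nat.pair 1 0
  | .left => Nat.pair 2 0
  | .right => Nat.pair 3 0
  | .oracle => Nat.pair 4 0
  | .pair a b => Nat.pair 5 (Nat.pair a.enc b.enc)
  | .comp a b => Nat.pair 6 (Nat.pair a.enc b.enc)
  | .prec a b => Nat.pair 7 (Nat.pair a.enc b.enc)
  | .rfind a => Nat.pair 8 a.enc

theorem enc_inj (a : OC) : ∀ b : OC, a.enc = b.enc → a = b := by
  induction a <;> intro b <;> cases b <;> simp_all [OC.enc, Nat.pair_eq_pair] <;> grind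

instance : Countable OC := Function.Injective.countable enc_inj

theorem use (g : ℕ →. ℕ) (gs : ℕ → ℕ →. ℕ) (h : ∀ j, ∀ᶠ k in atTop, gs k j = g j) (c : OC) :
    ∀ n x, x ∈ c.eval g n → ∀ᶠ k in atTop, x ∈ c.eval (gs k) n := by
  induction c with
  | oracle => intro n x hx; filter_upwards [h n] with k hk; simp only [OC.eval] at *; rwa [hk]
  | pair a b h1 h2 =>
    intro n x hx
    simp only [OC.eval, Seq.seq, Part.map_eq_map, Part.bind_eq_bind, Part.mem_bind_iff,
      Part.mem_map_iff] at hx ⊢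
    obtain ⟨_, ⟨u, hu, rfl⟩, v, hv, rfl⟩ := hx
    filter_upwards [h1 _ _ hu, h2 _ _ hv] with k a1 a2
    exact ⟨_, ⟨u, a1, rfl⟩, v, a2, rfl⟩
  | comp a b h1 h2 =>
    intro n x hx
    simp only [OC.eval, Part.bind_eq_bind, Part.mem_bind_iff] at hx ⊢
    obtain ⟨u, hu, hv⟩ := hx
    filter_upwards [h1 _ _ hv, h2 _ _ hu] with k a1 a2
    exact ⟨u, a2, a1⟩
  | prec a b h1 h2 =>
    intro n
    simp only [OC.eval]
    induction n.unpair.2 with
    | zero => exact h1 _
    | succ m ih =>
      intro x hx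
      simp only [Part.bind_eq_bind, Part.mem_bind_iff] at hx ih ⊢
      obtain ⟨u, hu, hv⟩ := hx
      filter_upwards [ih _ hu, h2 _ _ hv] with k a1 a2
      exact ⟨u, a1, a2⟩
  | rfind a h1 =>
    intro n x hx
    simp only [OC.eval, Nat.mem_rfind, Part.map_eq_map, Part.mem_map_iff] at hx ⊢
    obtain ⟨⟨u, hu, e⟩, h3⟩ := hx
    have : ∀ m ∈ Finset.range x, ∀ᶠ k in atTop,
        ∃ v ∈ a.eval (gs k) (Nat.pair n m), decide (v = 0) = false := fun m hm => by
      obtain ⟨v, hv, e⟩ := h3 (Finset.mem_range.1 hm)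
      filter_upwards [h1 _ _ hv] with k hk using ⟨v, hk, e⟩
    filter_upwards [h1 _ _ hu, (eventually_all_finset _).2 this] with k a1 a2
    exact ⟨⟨u, a1, e⟩, fun hm => a2 _ (Finset.mem_range.2 hm)⟩
  | _ => intro n x hx; exact Eventually.of_forall fun _ => hx

theorem one_chi {A : Set ℕ} {y : ℕ} : 1 ∈ chi A y ↔ y ∈ A := by
  by_cases h : y ∈ A <;> simp [chi, h]

theorem reveal {p : ℕ → ℕ} {C : Set ℕ} (h : C ⊆ AA p) (hC : C.Infinite) :
    ∃ e0, ∀ j, j ≠ e0 → ∃ x ∈ C, j ≠ x.unpair.1 ∧ j < (lst x).length := by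
  by_contra hc
  push Not at hc
  obtain ⟨a, -, ha⟩ := hc 0
  obtain ⟨b, hab, hb⟩ := hc a
  refine hC ((((Set.finite_le_nat (a + b)).prod (Set.finite_le_nat (a + b))).image
    fun z => el z.1 p z.2).subset fun x hx => ⟨(x.unpair.1, (lst x).length), ?_, ?_⟩)
  · have h1 := ha x hx
    have h2 := hb x hx
    have h3 := (h hx).1
    simp only [Set.mem_prod, Set.mem_ofPred_eq]
    omega
  · simp only [el]
    rw [← (h hx).2]
    simp [lst]

theorem val {p : ℕ → ℕ} {x j : ℕ} (h : x ∈ AA p) (h1 : j ≠ x.unpair.1)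
    (h2 : j < (lst x).length) : (lst x).getD j 0 = p j := by
  rw [h.2]
  simp [pre, h2, h1]

theorem AA_inf (p : ℕ → ℕ) : (AA p).Infinite :=
  Set.infinite_of_injective_forall_mem (f := fun n => el 0 p (n + 1))
    (fun a b h => by simpa using el_inj 0 p h)
    fun n => (el_mem (by omega) _ _).2 fun _ _ _ => rfl

@[fun_prop] theorem ci_lst {α : Type} [Primcodable α] {O : Set (ℕ →. ℕ)} {f : α → ℕ}
    (h : CI O f) : CI O fun a => lst (f a) := by
  unfold lst; fun_prop

theorem introred (p : ℕ → ℕ) : Introreducible (AA p) := by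
  refine ⟨AA_inf p, fun C h hC => ?_⟩
  obtain ⟨e0, he⟩ := reveal h hC
  obtain ⟨χ, hχ⟩ : ∃ χ : ℕ → ℕ, χ = fun n => if n ∈ C then 1 else 0 := ⟨_, rfl⟩
  have h0 := CI.self χ
  have hO : chi C = fun n => Part.some (χ n) := by rw [hχ]; rfl
  rw [TuringReducible, hO]
  set O : Set (ℕ →. ℕ) := {fun n => Part.some (χ n)}
  obtain ⟨f, f1, f2⟩ := CI.exists_choice (O := O) (p := fun j x : ℕ => j == e0 ||
    (χ x == 1 && j != x.unpair.1 && decide (j < (lst x).length)))
    (by fun_prop) fun j => by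
      by_cases e : j = e0
      · simp [e]
      · obtain ⟨x, a, b, c⟩ := he j e
        exact ⟨x, by simp [a, b, c, hχ]⟩
  have hp : CI O p := by
    refine CI.of_eq (f := fun j => bif j == e0 then p e0 else (lst (f j)).getD j 0)
      (by fun_prop) fun j => ?_
    by_cases e : j = e0
    · simp [e]
    · have := f2 j
      simp only [hχ, Bool.or_eq_true, beq_iff_eq, e, false_or, Bool.and_eq_true, bne_iff_ne,
        decide_eq_true_eq, ite_eq_left_iff, zero_ne_one, imp_false, not_not] at this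
      rw [beq_false_of_ne e, cond_false, val (h this.1.1) this.1.2 this.2]
  refine CI.ri (CI.of_eq (f := fun x : ℕ => bif (decide (x.unpair.1 < (lst x).length) &&
    lst x == (List.range (lst x).length).map fun j => bif j == x.unpair.1 then 0 else p j)
    then 1 else 0) (by fun_prop) fun x => ?_)
  have : (fun j => bif j == x.unpair.1 then 0 else p j) = update p x.unpair.1 0 := by
    funext j; by_cases e : j = x.unpair.1 <;> simp [e, Bool.cond_eq_ite]
  rw [this]
  by_cases e : x ∈ AA p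
  · rw [if_pos e]
    have := e.2
    unfold pre at this
    rw [← this]
    simp [e.1]
  · rw [if_neg e]
    simp only [AA, Set.mem_ofPred_eq, pre, not_and] at e
    by_cases e' : x.unpair.1 < (lst x).length
    · simp [e', e e', Bool.cond_eq_ite]
    · simp [e']

theorem introenum (p : ℕ → ℕ) : Introenumerable (AA p) := by
  refine ⟨AA_inf p, fun C h hC => ?_⟩
  obtain ⟨e0, he⟩ := reveal h hC
  let th : ℕ → Bool := fun z => decide (z.unpair.2.unpair.1 < (lst z.unpair.2).length) &&
    (List.range (lst z.unpair.2).length).all fun j =>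
      bif j == z.unpair.2.unpair.1 then (lst z.unpair.2).getD j 0 == 0 else
        ((j == e0 && (lst z.unpair.2).getD j 0 == p e0) || (List.range z.unpair.1).any fun x =>
          z.unpair.1 / 2 ^ x % 2 == 1 && j != x.unpair.1 && decide (j < (lst x).length) &&
            (lst x).getD j 0 == (lst z.unpair.2).getD j 0)
  have ht : CI ∅ th := by unfold th; fun_prop
  refine ⟨{z | th z = true}, (ComputablePred.computable_iff.2 ⟨th, ht.computable, rfl⟩).to_re, ?_⟩
  ext y
  simp only [app, Set.mem_ofPred_eq, th, Nat.unpair_pair, Bool.and_eq_true, decide_eq_true_eq,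
    List.all_eq_true, List.mem_range, Bool.cond_eq_ite, beq_iff_eq, Bool.ite_eq_true_distrib,
    Bool.or_eq_true, List.any_eq_true, bne_iff_ne]
  constructor
  · rintro ⟨u, h1, h2, h3⟩
    refine ⟨h2, List.ext_getElem (by simp [pre]) fun j a _ => ?_⟩
    have := h3 j a
    rw [List.getD_eq_getElem _ _ a] at this
    simp only [pre, List.getElem_map, List.getElem_range]
    by_cases e : j = y.unpair.1
    · rw [if_pos e] at this
      rw [this, e, update_self]
    · rw [if_neg e] at this
      rw [update_of_ne e]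
      rcases this with ⟨b, c⟩ | ⟨x, -, ⟨⟨b, c⟩, d⟩, f⟩
      · rw [c, b]
      · rw [← f, val (h (h1 _)) c d]
        simp [D, Nat.testBit_eq_decide_div_mod_eq, b]
  · intro hy
    choose! g g1 g2 g3 using he
    let G := ((Finset.range (lst y).length).erase e0).image g
    have hG : ∀ x, (Finset.equivBitIndices.symm G).testBit x = true ↔ x ∈ G := by
      intro x
      conv_rhs => rw [← Finset.equivBitIndices.apply_symm_apply G]
      rw [Finset.equivBitIndices_apply, List.mem_toFinset, Nat.mem_bitIndices]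
    refine ⟨Finset.equivBitIndices.symm G, fun x hx => ?_, hy.1, fun j hj => ?_⟩
    · obtain ⟨j, hj, rfl⟩ := Finset.mem_image.1 ((hG x).1 hx)
      exact g1 j (Finset.mem_erase.1 hj).1
    by_cases e : j = y.unpair.1
    · rw [if_pos e, hy.2]
      simp [pre, ← e, hj]
    rw [if_neg e, val hy e hj]
    by_cases e' : j = e0
    · exact Or.inl ⟨e', by rw [e']⟩
    have := (hG (g j)).2 (Finset.mem_image_of_mem _ (Finset.mem_erase.2 ⟨e', Finset.mem_range.2 hj⟩))
    refine Or.inr ⟨g j, Nat.lt_two_pow_self.trans_le (Nat.ge_two_pow_of_testBit this),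
      ⟨⟨?_, g2 j e'⟩, g3 j e'⟩, val (h (g1 j e')) (g2 j e') (g3 j e')⟩
    simpa [Nat.testBit_eq_decide_div_mod_eq] using this

theorem main : ∃ A : Set ℕ, Introreducible A ∧ Introenumerable A ∧
    (¬ ∃ (n : ℕ) (B : Fin (n + 1) → Set ℕ), A = ⋃ i, B i ∧ ∀ i, UiT A (B i)) ∧
    ¬ ∃ (n : ℕ) (B : Fin (n + 1) → Set ℕ), A = ⋃ i, B i ∧ ∀ i, UiE A (B i) := by
  obtain ⟨p, hp⟩ := core (ι := Option (OC ⊕ Nat.Partrec.Code)) fun o G y =>
    (∃ c, o = some (.inl c) ∧ 1 ∈ c.eval (chi G) y) ∨
      ∃ c, o = some (.inr c) ∧ y ∈ app {z | (c.eval z).Dom} G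
  refine ⟨AA p, introred p, introenum p, fun ⟨n, B, h1, h2⟩ => ?_, fun ⟨n, B, h1, h2⟩ => ?_⟩
  · choose c hc using h2
    refine hp n (fun i => if (B i).Infinite then some (.inl (c i)) else none) B
      (fun x hx => Set.mem_iUnion.1 (h1 ▸ hx)) (fun i G y hG h => ?_) fun i H y a1 a2 a3 => ?_
    · by_cases hi : (B i).Infinite
      swap
      · simp [hi] at h
      simp only [hi, if_true, Option.some.injEq, Sum.inl.injEq, exists_eq_left', reduceCtorEq,
        false_and, exists_false, or_false] at h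
      obtain ⟨k, hk⟩ := (use _ (fun k => chi {x | x ∈ B i ∧ (x < k → x ∈ G)}) (fun j => by
        filter_upwards [eventually_gt_atTop j] with k hk
        have : j ∈ G → j ∈ B i := fun h => hG h
        simp only [chi, Set.mem_ofPred_eq, hk, true_imp_iff, and_iff_right_of_imp this,
          Finset.mem_coe]) _ _ _ h).exists
      rw [hc i {x | x ∈ B i ∧ (x < k → x ∈ G)} (fun x hx => hx.1)
        ((hi.sdiff (Set.finite_lt_nat k)).mono fun x hx => ⟨hx.1, fun h => (hx.2 h).elim⟩)] at hk
      exact one_chi.1 hk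
    · have := one_chi.2 a3
      rw [← hc i H a2 a1] at this
      obtain ⟨k, hk⟩ := (use _ (fun k => chi ((Finset.range k).filter (· ∈ H) : Finset ℕ))
        (fun j => by
          filter_upwards [eventually_gt_atTop j] with k hk
          simp [chi, hk]) _ _ _ this).exists
      exact ⟨_, fun x hx => by simp at hx; exact hx.2, Or.inl ⟨c i, by simp [a1.mono a2], hk⟩⟩
  · choose T hT hc using h2
    have : ∀ i, ∃ c : Nat.Partrec.Code, {z | (c.eval z).Dom} = T i := fun i => by
      obtain ⟨c, hc⟩ := Nat.Partrec.Code.exists_code.1 (hT i)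
      exact ⟨c, by ext z; simp [hc, Part.dom_iff_mem]⟩
    choose c e using this
    refine hp n (fun i => if (B i).Infinite then some (.inr (c i)) else none) B
      (fun x hx => Set.mem_iUnion.1 (h1 ▸ hx)) (fun i G y hG h => ?_) fun i H y a1 a2 a3 => ?_
    · by_cases hi : (B i).Infinite
      swap
      · simp [hi] at h
      simp only [hi, if_true, Option.some.injEq, Sum.inr.injEq, exists_eq_left', reduceCtorEq,
        false_and, exists_false, false_or, e] at h
      obtain ⟨u, a, b⟩ := h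
      rw [← hc i _ subset_rfl hi]
      exact ⟨u, a.trans hG, b⟩
    · rw [← hc i H a2 a1] at a3
      obtain ⟨u, a, b⟩ := a3
      refine ⟨(Finset.range u).filter (· ∈ H), fun x hx => by simp at hx; exact hx.2,
        Or.inr ⟨c i, by simp [a1.mono a2], u, fun x hx => ?_, by rw [e]; exact b⟩⟩
      simpa using ⟨Nat.lt_two_pow_self.trans_le (Nat.ge_two_pow_of_testBit hx), a hx⟩

theorem uit_of {A B : Set ℕ} (hA : Introreducible A) (h : B ⊆ A) (hB : UnifIntroreducible B) :
    UiT A B := by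
  obtain ⟨d, hd⟩ := hB.2
  obtain ⟨c, hc⟩ := (red_iff _ _).1 (hA.2 B h hB.1)
  exact ⟨d.subst c, fun C a b => by rw [eval_subst, hd C a b, hc]⟩

end Pool.Agent.H32.Int
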