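import Mathlib

set_option autoImplicit false

namespace Pool.Agent.H32.Ix

universe u
variable {X : Type u}

/-- `g` lies in `P^1(a)`; maps are composed left to right by `PEquiv.trans`, `⊥` is the empty map -/
def P1 (a g : X ≃. X) : Prop := g = PEquiv.refl X ∨ (a = ⊥ ∧ g = ⊥) ∨
  (a ≠ ⊥ ∧ ∀ m : X ≃. X, m.trans a ≠ ⊥ → (m.trans a).trans g ≠ ⊥)

def CC (a b : X ≃. X) : Prop :=
  ∃ g h, P1 a g ∧ P1 b h ∧ a.trans g = g.trans b ∧ b.trans h = h.trans a

/-- powers of `a` -/
def pw (a : X ≃. X) : ℕ → X ≃. X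
  | 0 => PEquiv.refl X
  | n + 1 => a.trans (pw a n)

/-- the connected component of `x` in the digraph of `a` -/
def comp (a : X ≃. X) (x : X) : Set X := {y | ∃ n, pw a n x = some y ∨ pw a n y = some x}

/-- the number of components containing a point with property `T` -/
def num (a : X ≃. X) (T : X → Prop) : Cardinal.{u} :=
  Cardinal.mk {S : Set X // ∃ x, T x ∧ S = comp a x}

/-- `x` lies on a cycle of length `n` -/
def Cyc (a : X ≃. X) (n : ℕ) (x : X) : Prop :=
  pw a n x = some x ∧ ∀ m, 0 < m → m < n → pw a m x ≠ some x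

/-- `x` lies on a right ray or a double ray -/
def Ray (a : X ≃. X) (x : X) : Prop :=
  (∀ n, ∃ y, pw a n x = some y) ∧ ∀ n, 0 < n → pw a n x ≠ some x

/-- `x` lies on a double ray -/
def Dbl (a : X ≃. X) (x : X) : Prop := Ray a x ∧ ∀ n, ∃ y, pw a n y = some x

/-- `x` is the end point of a chain with at least `k` edges or of a left ray -/
def Ter (a : X ≃. X) (k : ℕ∞) (x : X) : Prop :=
  a x = none ∧ ∀ n : ℕ, (n : ℕ∞) ≤ k → ∃ y, pw a n y = some x

end Pool.Agent.H32.Ix
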