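import Pool.Agent.H32.IxHall
import Pool.Agent.H32.IxDefs

set_option autoImplicit false

namespace Pool.Agent.H32.Ix

universe u
variable {X : Type u} {a b g : X ≃. X}

def St (a : X ≃. X) (n : ℕ) (x y : X) : Prop := pw a n x = some y

theorem st0 {x y : X} : St a 0 x y ↔ x = y := by simp [St, pw]

theorem stS {n : ℕ} {x y : X} : St a (n + 1) x y ↔ ∃ u, a x = some u ∧ St a n u y :=
  PEquiv.trans_eq_some _ _ _ _

theorem St.fn {n : ℕ} {x y z : X} (h : St a n x y) (h' : St a n x z) : y = z :=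
  Option.some.inj (h.symm.trans h')

theorem St.inj {n : ℕ} {x y z : X} (h : St a n x z) (h' : St a n y z) : x = y :=
  PEquiv.inj _ h h'

theorem stA {m n : ℕ} {x z : X} : St a (m + n) x z ↔ ∃ y, St a m x y ∧ St a n y z := by
  induction m generalizing x with
  | zero => simp [st0]
  | succ m ih =>
    rw [Nat.add_right_comm, stS]
    simp only [ih, stS]
    exact ⟨fun ⟨u, h, y, h1, h2⟩ => ⟨y, ⟨u, h, h1⟩, h2⟩, fun ⟨y, ⟨u, h, h1⟩, h2⟩ => ⟨u, h, y, h1, h2⟩⟩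

theorem St.add {m n : ℕ} {x y z : X} (h : St a m x y) (h' : St a n y z) : St a (m + n) x z :=
  stA.2 ⟨y, h, h'⟩

theorem st1 {x y : X} : St a 1 x y ↔ a x = some y := by simp [stS (n := 0), st0]

theorem St.subL {m n : ℕ} {x y z : X} (h : St a (m + n) x z) (h' : St a m x y) : St a n y z := by
  obtain ⟨u, h1, h2⟩ := stA.1 h
  rwa [h'.fn h1]

theorem St.subR {m n : ℕ} {x y z : X} (h : St a (m + n) x z) (h' : St a n y z) : St a m x y := by
  obtain ⟨u, h1, h2⟩ := stA.1 h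
  rwa [h'.inj h2]

def Cn (a : X ≃. X) (x y : X) : Prop := ∃ n, St a n x y ∨ St a n y x

theorem Cn.symm {x y : X} (h : Cn a x y) : Cn a y x := h.imp fun _ h => h.symm

theorem Cn.rfl {x : X} : Cn a x x := ⟨0, .inl (st0.2 (Eq.refl x))⟩

theorem Cn.trans {x y z : X} (h : Cn a x y) (h' : Cn a y z) : Cn a x z := by
  obtain ⟨i, h | h⟩ := h <;> obtain ⟨j, h' | h'⟩ := h'
  · exact ⟨_, .inl (h.add h')⟩
  · rcases le_total i j with e | e <;> obtain ⟨k, rfl⟩ := Nat.exists_eq_add_of_le' e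
    exacts [⟨k, .inr (h'.subR h)⟩, ⟨k, .inl (h.subR h')⟩]
  · rcases le_total i j with e | e <;> obtain ⟨k, rfl⟩ := Nat.exists_eq_add_of_le e
    exacts [⟨k, .inl (h'.subL h)⟩, ⟨k, .inr (h.subL h')⟩]
  · exact ⟨_, .inr (h'.add h)⟩

theorem comp_eq {x y : X} : comp a x = comp a y ↔ Cn a x y :=
  ⟨fun h => show y ∈ comp a x from h ▸ Cn.rfl, fun h =>
    Set.ext fun _ => ⟨fun h' => h.symm.trans h', fun h' => h.trans h'⟩⟩

def Sp (a : X ≃. X) (x : X) : Prop := ∃ y, a x = some y ∨ a y = some x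

section nec
variable (hg : P1 a g) (e : a.trans g = g.trans b)
include e

theorem cm (x z : X) : (∃ u, a x = some u ∧ g u = some z) ↔ ∃ v, g x = some v ∧ b v = some z := by
  rw [← PEquiv.trans_eq_some, ← PEquiv.trans_eq_some, e]

theorem refl' {n : ℕ} {x y x' y' : X} (h : St b n x' y') (h1 : g x = some x') (h2 : g y = some y') :
    St a n x y := by
  induction n generalizing x x' with
  | zero => exact st0.2 (PEquiv.inj g h1 (st0.1 h ▸ h2))
  | succ n ih =>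
    obtain ⟨z, h3, h4⟩ := stS.1 h
    obtain ⟨u, h5, h6⟩ := (cm e x z).2 ⟨x', h1, h3⟩
    exact stS.2 ⟨u, h5, ih h4 h6⟩

theorem numle {T T' : X → Prop} (h : ∀ x, T x → ∃ x', g x = some x' ∧ T' x') :
    num a T ≤ num b T' := by
  choose k h1 h2 using h
  refine Cardinal.mk_le_of_injective (f := fun S => ⟨comp b (k _ S.2.choose_spec.1), _,
    h2 _ _, rfl⟩) fun S S' e1 => Subtype.ext ?_
  obtain ⟨n, h⟩ := comp_eq.1 (congrArg Subtype.val e1)
  rw [S.2.choose_spec.2, S'.2.choose_spec.2]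
  exact comp_eq.2 ⟨n, h.imp (fun h => refl' e h (h1 _ _) (h1 _ _))
    fun h => refl' e h (h1 _ _) (h1 _ _)⟩

include hg

theorem imd {x y : X} (h : a x = some y) : ∃ z, g y = some z := by
  classical
  rcases hg with rfl | ⟨rfl, -⟩ | ⟨-, hg⟩
  · exact ⟨y, rfl⟩
  · simp at h
  · by_contra hn
    refine hg (PEquiv.single x x) (fun h1 => ?_) (PEquiv.ext fun w => ?_)
    · have : ((PEquiv.single x x).trans a) x = some y :=
        (PEquiv.trans_eq_some _ _ _ _).2 ⟨x, by simp, h⟩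
      simp [h1] at this
    · refine Option.eq_none_iff_forall_ne_some.2 fun z hz => hn ?_
      obtain ⟨u, h1, h2⟩ := (PEquiv.trans_eq_some _ _ _ _).1 hz
      obtain ⟨v, h3, h4⟩ := (PEquiv.trans_eq_some _ _ _ _).1 h1
      obtain rfl : v = x := ((PEquiv.mem_single_iff _ _ _ _).1 h3).2
      exact ⟨z, Option.some.inj (h.symm.trans h4) ▸ h2⟩

theorem dmd {x y : X} (h : a x = some y) : ∃ z, g x = some z := by
  obtain ⟨z, h1⟩ := imd hg e h
  obtain ⟨v, h2, -⟩ := (cm e x z).1 ⟨y, h, h1⟩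
  exact ⟨v, h2⟩

theorem pres {n : ℕ} {x y x' : X} (h : St a n x y) (h1 : g x = some x') :
    ∃ y', g y = some y' ∧ St b n x' y' := by
  induction n generalizing x x' with
  | zero => exact ⟨x', st0.1 h ▸ h1, st0.2 rfl⟩
  | succ n ih =>
    obtain ⟨u, h3, h4⟩ := stS.1 h
    obtain ⟨z, h5⟩ := imd hg e h3
    obtain ⟨v, h6, h7⟩ := (cm e x z).1 ⟨u, h3, h5⟩
    obtain ⟨y', h8, h9⟩ := ih h4 h5
    exact ⟨y', h8, stS.2 ⟨z, Option.some.inj (h6.symm.trans h1) ▸ h7, h9⟩⟩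

theorem back {n : ℕ} {x y x' : X} (h : St a n y x) (h1 : g x = some x') : ∃ y', St b n y' x' := by
  cases n with
  | zero => exact ⟨x', st0.2 rfl⟩
  | succ n =>
    obtain ⟨u, h3, -⟩ := stS.1 h
    obtain ⟨y', h4⟩ := dmd hg e h3
    obtain ⟨z, h5, h6⟩ := pres hg e h h4
    exact ⟨y', Option.some.inj (h5.symm.trans h1) ▸ h6⟩

theorem rayp {x : X} (h : Ray a x) : ∃ x', g x = some x' ∧ Ray b x' := by
  obtain ⟨y, h1⟩ := h.1 1
  obtain ⟨x', h2⟩ := dmd hg e (st1.1 h1)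
  refine ⟨x', h2, fun n => ?_, fun n hn h3 => h.2 n hn (refl' e h3 h2 h2)⟩
  obtain ⟨y, h3⟩ := h.1 n
  obtain ⟨y', -, h4⟩ := pres hg e h3 h2
  exact ⟨y', h4⟩

theorem nec : (∀ n, 1 ≤ n → num a (Cyc a n) ≤ num b (Cyc b n)) ∧ num a (Ray a) ≤ num b (Ray b) ∧
    num a (Dbl a) ≤ num b (Dbl b) ∧ ∀ k, 1 ≤ k → num a (Ter a k) ≤ num b (Ter b k) := by
  refine ⟨fun n hn => numle e fun x h => ?_, numle e fun x => rayp hg e, numle e fun x h => ?_,
    fun k hk => numle e fun x h => ?_⟩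
  · obtain ⟨n, rfl⟩ := Nat.exists_eq_add_of_le' hn
    obtain ⟨u, h1, -⟩ := stS.1 h.1
    obtain ⟨x', h2⟩ := dmd hg e h1
    obtain ⟨y', h3, h4⟩ := pres hg e h.1 h2
    exact ⟨x', h2, Option.some.inj (h3.symm.trans h2) ▸ h4,
      fun m h5 h6 h7 => h.2 m h5 h6 (refl' e h7 h2 h2)⟩
  · obtain ⟨x', h1, h2⟩ := rayp hg e h.1
    exact ⟨x', h1, h2, fun n => (h.2 n).elim fun y hy => back hg e hy h1⟩
  · obtain ⟨y, h1⟩ := h.2 1 hk
    obtain ⟨x', h2⟩ := imd hg e (st1.1 h1)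
    refine ⟨x', h2, Option.eq_none_iff_forall_ne_some.2 fun z hz => ?_,
      fun n hn => (h.2 n hn).elim fun y hy => back hg e hy h2⟩
    obtain ⟨u, h3, -⟩ := (cm e x z).2 ⟨x', h2, hz⟩
    simp [h.1] at h3

end nec

end Pool.Agent.H32.Ix
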