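import Pool.Agent.H32.IxA

set_option autoImplicit false

namespace Pool.Agent.H32.Ix

universe u
variable {X : Type u} {a b : X ≃. X}

def Emb (a b : X ≃. X) (x y : X) : Prop := (∀ k, St a k x x ↔ St b k y y) ∧
  (∀ k, (∃ u, St a k x u) ↔ ∃ v, St b k y v) ∧ ∀ k u, St a k u x → ∃ v, St b k v y

def Lk (a b : X ≃. X) (x y u v : X) : Prop :=
  ∃ i, (St a i x u ∧ St b i y v) ∨ (St a i u x ∧ St b i v y)

theorem Lk.fn {x y u v v' : X} (h : ∀ k, St a k x x → St b k y y) (h1 : Lk a b x y u v)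
    (h2 : Lk a b x y u v') : v = v' := by
  have FF : ∀ i j v v', i ≤ j → St a i x u → St b i y v → St a j x u → St b j y v' → v = v' := by
    intro i j v v' e h1 h2 h3 h4
    obtain ⟨k, rfl⟩ := Nat.exists_eq_add_of_le' e
    exact ((h k (h3.subR h1)).add h2).fn h4
  have FB : ∀ i j v v', St a i x u → St b i y v → St a j u x → St b j v' y → v = v' :=
    fun i j v v' h1 h2 h3 h4 => ((h _ (h1.add h3)).subL h2).inj h4
  have BB : ∀ i j v v', i ≤ j → St a i u x → St b i v y → St a j u x → St b j v' y → v = v' := by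
    intro i j v v' e h1 h2 h3 h4
    obtain ⟨k, rfl⟩ := Nat.exists_eq_add_of_le e
    exact (h2.add (h k (h3.subL h1))).inj h4
  obtain ⟨i, ⟨h1, h1'⟩ | ⟨h1, h1'⟩⟩ := h1 <;> obtain ⟨j, ⟨h2, h2'⟩ | ⟨h2, h2'⟩⟩ := h2
  · rcases le_total i j with e | e
    exacts [FF _ _ _ _ e h1 h1' h2 h2', (FF _ _ _ _ e h2 h2' h1 h1').symm]
  · exact FB _ _ _ _ h1 h1' h2 h2'
  · exact (FB _ _ _ _ h2 h2' h1 h1').symm
  · rcases le_total i j with e | e
    exacts [BB _ _ _ _ e h1 h1' h2 h2', (BB _ _ _ _ e h2 h2' h1 h1').symm]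

theorem Lk.sw {x y u v : X} (h : Lk a b x y u v) : Lk b a y x v u :=
  h.imp fun _ h => h.imp And.symm And.symm

theorem Lk.cn {x y u v : X} (h : Lk a b x y u v) : Cn a x u :=
  h.imp fun _ h => h.imp And.left And.left

theorem Lk.s1 {x y u v u' : X} (h : ∀ k, (∃ u, St a k x u) → ∃ v, St b k y v)
    (h1 : Lk a b x y u v) (h2 : a u = some u') : ∃ v', b v = some v' ∧ Lk a b x y u' v' := by
  have F : ∀ i, St a i x u → St b i y v → ∃ v', b v = some v' ∧ Lk a b x y u' v' := by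
    intro i h3 h4
    have h5 := h3.add (st1.2 h2)
    obtain ⟨v', h6⟩ := h _ ⟨_, h5⟩
    exact ⟨v', st1.1 (h6.subL h4), _, .inl ⟨h5, h6⟩⟩
  obtain ⟨i, ⟨h3, h4⟩ | ⟨h3, h4⟩⟩ := h1
  · exact F i h3 h4
  cases i with
  | zero => exact F 0 (st0.2 (st0.1 h3).symm) (st0.2 (st0.1 h4).symm)
  | succ i =>
    obtain ⟨w, h5, h6⟩ := stS.1 h3
    obtain ⟨v', h7, h8⟩ := stS.1 h4
    exact ⟨v', h7, i, .inr ⟨Option.some.inj (h5.symm.trans h2) ▸ h6, h8⟩⟩

theorem build (Bs : X → X → Prop) (h1 : ∀ x y, Bs x y → Emb a b x y)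
    (h2 : ∀ x y x' y', Bs x y → Bs x' y' → Cn a x x' ∨ Cn b y y' → x = x' ∧ y = y')
    (h3 : ∀ u, Sp a u → ∃ x y, Bs x y ∧ Cn a x u) : ∃ g, P1 a g ∧ a.trans g = g.trans b := by
  classical
  by_cases ha : a = ⊥
  · exact ⟨⊥, .inr (.inl ⟨ha, rfl⟩), by simp⟩
  let G : X → X → Prop := fun u v => ∃ x y, Bs x y ∧ Lk a b x y u v
  have g1 : ∀ u v v', G u v → G u v' → v = v' := by
    rintro u v v' ⟨x, y, h4, h5⟩ ⟨x', y', h6, h7⟩
    obtain ⟨rfl, rfl⟩ := h2 _ _ _ _ h4 h6 (.inl (h5.cn.trans h7.cn.symm))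
    exact h5.fn (fun k => ((h1 _ _ h4).1 k).1) h7
  have g2 : ∀ u u' v, G u v → G u' v → u = u' := by
    rintro u u' v ⟨x, y, h4, h5⟩ ⟨x', y', h6, h7⟩
    obtain ⟨rfl, rfl⟩ := h2 _ _ _ _ h4 h6 (.inr (h5.sw.cn.trans h7.sw.cn.symm))
    exact h5.sw.fn (fun k => ((h1 _ _ h4).1 k).2) h7.sw
  have g3 : ∀ u, Sp a u → ∃ v, G u v := by
    intro u hu
    obtain ⟨x, y, h4, i, h5 | h5⟩ := h3 u hu
    · obtain ⟨v, h6⟩ := ((h1 _ _ h4).2.1 i).1 ⟨u, h5⟩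
      exact ⟨v, x, y, h4, i, .inl ⟨h5, h6⟩⟩
    · obtain ⟨v, h6⟩ := (h1 _ _ h4).2.2 i u h5
      exact ⟨v, x, y, h4, i, .inr ⟨h5, h6⟩⟩
  have f1 : ∀ u v, (if h : ∃ v, G u v then some h.choose else none) = some v ↔ G u v := by
    intro u v
    split_ifs with h
    · exact ⟨fun e => Option.some.inj e ▸ h.choose_spec,
        fun e => congrArg some (g1 _ _ _ h.choose_spec e)⟩
    · exact ⟨fun e => (by cases e), fun e => (h ⟨v, e⟩).elim⟩
  have f2 : ∀ u v, (if h : ∃ u, G u v then some h.choose else none) = some u ↔ G u v := by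
    intro u v
    split_ifs with h
    · exact ⟨fun e => Option.some.inj e ▸ h.choose_spec,
        fun e => congrArg some (g2 _ _ _ h.choose_spec e)⟩
    · exact ⟨fun e => (by cases e), fun e => (h ⟨u, e⟩).elim⟩
  let g : X ≃. X := ⟨fun u => if h : ∃ v, G u v then some h.choose else none,
    fun v => if h : ∃ u, G u v then some h.choose else none, fun u v => (f2 u v).trans (f1 u v).symm⟩
  have hg : ∀ u v, g u = some v ↔ G u v := f1
  refine ⟨g, .inr (.inr ⟨ha, fun m hm e => hm (PEquiv.ext fun w => ?_)⟩), PEquiv.ext fun u =>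
    Option.ext fun z => ?_⟩
  · refine Option.eq_none_iff_forall_ne_some.2 fun y hy => ?_
    obtain ⟨x, -, h4⟩ := (PEquiv.trans_eq_some _ _ _ _).1 hy
    obtain ⟨v, h5⟩ := g3 y ⟨x, .inr h4⟩
    have : ((m.trans a).trans g) w = some v :=
      (PEquiv.trans_eq_some _ _ _ _).2 ⟨y, hy, (hg _ _).2 h5⟩
    simp [e] at this
  · rw [PEquiv.trans_eq_some, PEquiv.trans_eq_some]
    simp only [hg]
    constructor
    · rintro ⟨u', h4, h5⟩
      obtain ⟨v, x, y, h6, h7⟩ := g3 u ⟨u', .inl h4⟩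
      obtain ⟨v', h8, h9⟩ := h7.s1 (fun k => ((h1 _ _ h6).2.1 k).1) h4
      exact ⟨v, ⟨x, y, h6, h7⟩, g1 _ _ _ ⟨x, y, h6, h9⟩ h5 ▸ h8⟩
    · rintro ⟨v, ⟨x, y, h6, h7⟩, h4⟩
      obtain ⟨u', h8, h9⟩ := h7.sw.s1 (fun k => ((h1 _ _ h6).2.1 k).2) h4
      exact ⟨u', h8, x, y, h6, h9.sw⟩

def cl (a : X ≃. X) (x : X) : (ℕ → Prop) × Prop := (fun k => St a k x x, ∀ n, ∃ u, St a n x u)

theorem cl_st {i : ℕ} {x y : X} (h : St a i x y) : cl a x = cl a y := by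
  refine Prod.ext (funext fun k => propext ⟨fun h1 => ?_, fun h1 => ?_⟩)
    (propext ⟨fun h1 n => ?_, fun h1 n => ?_⟩)
  · exact St.subL (Nat.add_comm k i ▸ St.add h1 h) h
  · exact St.subR (Nat.add_comm i k ▸ St.add h h1) h
  · obtain ⟨u, h2⟩ := h1 (i + n)
    exact ⟨u, h2.subL h⟩
  · obtain ⟨u, h2⟩ := h1 n
    obtain ⟨w, h3, -⟩ := stA.1 (Nat.add_comm i n ▸ h.add h2)
    exact ⟨w, h3⟩

theorem cl_cn {x y : X} (h : Cn a x y) : cl a x = cl a y := by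
  obtain ⟨i, h | h⟩ := h
  exacts [cl_st h, (cl_st h).symm]

theorem Emb.cl {x y : X} (h : Emb a b x y) : cl a x = cl b y :=
  Prod.ext (funext fun k => propext (h.1 k)) (propext (forall_congr' h.2.1))

def Good (a b : X ≃. X) (T : X → Prop) : Prop :=
  ∃ f : {S // ∃ x, T x ∧ S = comp a x} → Set X, Function.Injective f ∧
    ∀ S, ∃ x y, S.1 = comp a x ∧ f S = comp b y ∧ Emb a b x y

theorem Good.mono {T T' : X → Prop} (h : Good a b T') (h' : ∀ x, T x → ∃ y, T' y ∧ Cn a x y) :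
    Good a b T := by
  obtain ⟨f, h1, h2⟩ := h
  let i : {S // ∃ x, T x ∧ S = comp a x} → {S // ∃ x, T' x ∧ S = comp a x} := fun S => ⟨S.1, by
    obtain ⟨x, h3, h4⟩ := S.2
    obtain ⟨y, h5, h6⟩ := h' x h3
    exact ⟨y, h5, h4.trans (comp_eq.2 h6)⟩⟩
  exact ⟨fun S => f (i S), fun S S' e => Subtype.ext (congrArg (fun x => x.1) (h1 e)),
    fun S => h2 (i S)⟩

theorem glue (h : ∀ κ, Good a b fun x => Sp a x ∧ cl a x = κ) :
    ∃ g, P1 a g ∧ a.trans g = g.trans b := by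
  choose f h1 x y h2 h3 h4 using h
  have hc : ∀ κ S, cl a (x κ S) = κ := fun κ S => by
    obtain ⟨u, ⟨-, h5⟩, h6⟩ := S.2
    exact (cl_cn (comp_eq.1 ((h2 κ S).symm.trans h6))).trans h5
  refine build (fun u v => ∃ κ S, u = x κ S ∧ v = y κ S) ?_ ?_ fun u hu => ?_
  · rintro _ _ ⟨κ, S, rfl, rfl⟩
    exact h4 κ S
  · rintro _ _ _ _ ⟨κ, S, rfl, rfl⟩ ⟨κ', S', rfl, rfl⟩ h5
    obtain rfl : κ = κ' := by
      rw [← hc κ S, ← hc κ' S']
      rcases h5 with h5 | h5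
      · exact cl_cn h5
      · rw [(h4 κ S).cl, (h4 κ' S').cl, cl_cn h5]
    obtain rfl : S = S' := by
      rcases h5 with h5 | h5
      · exact Subtype.ext ((h2 κ S).trans ((comp_eq.2 h5).trans (h2 κ S').symm))
      · exact h1 κ ((h3 κ S).trans ((comp_eq.2 h5).trans (h3 κ S').symm))
    exact ⟨rfl, rfl⟩
  · exact ⟨_, _, ⟨cl a u, ⟨comp a u, u, ⟨hu, rfl⟩, rfl⟩, rfl, rfl⟩,
      comp_eq.1 (h2 (cl a u) ⟨comp a u, u, ⟨hu, rfl⟩, rfl⟩).symm⟩

end Pool.Agent.H32.Ix
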