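import Pool.Agent.H32.IxB

set_option autoImplicit false

namespace Pool.Agent.H32.Ix

universe u
variable {X : Type u} {a b : X ≃. X}

theorem St.mul {n : ℕ} {x : X} (h : St a n x x) (k : ℕ) : St a (n * k) x x := by
  induction k with
  | zero => exact st0.2 rfl
  | succ k ih => exact ih.add h

theorem cyc_iff {n : ℕ} {x : X} (hn : 1 ≤ n) (h : Cyc a n x) (k : ℕ) : St a k x x ↔ n ∣ k := by
  refine ⟨fun h1 => ?_, fun ⟨c, e⟩ => e ▸ St.mul h.1 c⟩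
  by_contra h2
  refine h.2 (k % n) (Nat.pos_of_ne_zero fun e => h2 (Nat.dvd_of_mod_eq_zero e))
    (Nat.mod_lt _ hn) ?_
  exact St.subL (by rw [Nat.div_add_mod]; exact h1) (St.mul h.1 (k / n))

theorem cyc_f {n : ℕ} {x : X} (hn : 1 ≤ n) (h : St a n x x) (k : ℕ) :
    (∃ u, St a k x u) ∧ ∃ u, St a k u x := by
  obtain ⟨n, rfl⟩ := Nat.exists_eq_add_of_le' hn
  have h1 := h.mul k
  constructor
  · obtain ⟨u, h2, -⟩ := stA.1 (show St a (k + n * k) x x by rwa [Nat.succ_mul, Nat.add_comm] at h1)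
    exact ⟨u, h2⟩
  · obtain ⟨u, -, h2⟩ := stA.1 (show St a (n * k + k) x x by rwa [Nat.succ_mul] at h1)
    exact ⟨u, h2⟩

theorem goodC {n : ℕ} (hn : 1 ≤ n) (h : num a (Cyc a n) ≤ num b (Cyc b n)) :
    Good a b (Cyc a n) := by
  obtain ⟨f⟩ := Cardinal.le_def _ _ |>.1 h
  refine ⟨fun S => (f S).1, Subtype.val_injective.comp f.injective, fun S => ?_⟩
  obtain ⟨x, h1, h2⟩ := S.2
  obtain ⟨y, h3, h4⟩ := (f S).2
  exact ⟨x, y, h2, h4, fun k => (cyc_iff hn h1 k).trans (cyc_iff hn h3 k).symm,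
    fun k => iff_of_true (cyc_f hn h1.1 k).1 (cyc_f hn h3.1 k).1, fun k _ _ => (cyc_f hn h3.1 k).2⟩

theorem Ray.per {x : X} (h : Ray a x) (k : ℕ) : St a k x x ↔ k = 0 :=
  ⟨fun h1 => by_contra fun e => h.2 k (Nat.pos_of_ne_zero e) h1, fun e => e ▸ st0.2 rfl⟩

theorem Ray.cn {x y : X} (h : Ray a x) (h' : Cn a x y) : Ray a y := by
  have := cl_cn h'
  exact ⟨(congrArg Prod.snd this).mp h.1, fun n hn h1 =>
    h.2 n hn ((congrFun (congrArg Prod.fst this) n).mpr h1)⟩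

theorem sR (a : X ≃. X) (S : Set X) (h : ∃ x, (Ray a x ∧ ((0 : ℕ∞) ≠ 0 → Dbl a x)) ∧ S = comp a x) :
    ∃ p, ∀ k : ℕ∞, k ≤ p ↔ ∃ x, (Ray a x ∧ (k ≠ 0 → Dbl a x)) ∧ S = comp a x := by
  by_cases hd : ∃ x, Dbl a x ∧ S = comp a x
  · obtain ⟨x, h1, h2⟩ := hd
    exact ⟨⊤, fun k => iff_of_true le_top ⟨x, ⟨h1.1, fun _ => h1⟩, h2⟩⟩
  · refine ⟨0, fun k => ⟨fun e => by rwa [le_zero_iff.1 e], fun ⟨x, h1, h2⟩ => ?_⟩⟩
    by_contra e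
    exact hd ⟨x, h1.2 (by simpa using e), h2⟩

theorem goodR (h : num a (Ray a) ≤ num b (Ray b)) (h' : num a (Dbl a) ≤ num b (Dbl b)) :
    Good a b (Ray a) := by
  obtain ⟨f, h1, h2⟩ := hall2 (fun k S => ∃ x, (Ray a x ∧ (k ≠ 0 → Dbl a x)) ∧ S = comp a x)
    (fun k S => ∃ x, (Ray b x ∧ (k ≠ 0 → Dbl b x)) ∧ S = comp b x) (fun k => by
      have e : ∀ c : X ≃. X, ∀ x, (Ray c x ∧ Dbl c x) = Dbl c x :=
        fun c x => propext ⟨And.right, fun h => ⟨h.1, h⟩⟩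
      by_cases hk : k = 0
      · simpa [hk, num] using h
      · simpa [hk, num, e] using h')
    (fun k S ⟨x, h1, h2⟩ => ⟨x, ⟨h1.1, fun e => (e rfl).elim⟩, h2⟩) (sR a) (sR b)
  refine Good.mono (T' := fun x => Ray a x ∧ ((0 : ℕ∞) ≠ 0 → Dbl a x)) ⟨f, h1, fun S => ?_⟩
    fun x hx => ⟨x, ⟨hx, fun e => (e rfl).elim⟩, .rfl⟩
  obtain ⟨x, ⟨h3, -⟩, h4⟩ := S.2
  have E : ∀ y, Ray b y → (∀ k u, St a k u x → ∃ v, St b k v y) → Emb a b x y := fun y hy h =>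
    ⟨fun k => (h3.per k).trans (hy.per k).symm, fun k => iff_of_true (h3.1 k) (hy.1 k), h⟩
  by_cases hd : ∀ n, ∃ y, St a n y x
  · obtain ⟨y, ⟨h5, h6⟩, h7⟩ := h2 S 1 ⟨x, ⟨h3, fun _ => ⟨h3, hd⟩⟩, h4⟩
    exact ⟨x, y, h4, h7, E y h5 fun k _ _ => (h6 one_ne_zero).2 k⟩
  · push Not at hd
    obtain ⟨n, hn⟩ := hd
    obtain ⟨y, ⟨h5, -⟩, h7⟩ := h2 S 0 S.2
    obtain ⟨z, h8⟩ := h5.1 n
    refine ⟨x, z, h4, h7.trans (comp_eq.2 ⟨n, .inl h8⟩), E z (h5.cn ⟨n, .inl h8⟩) fun k u hu => ?_⟩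
    rcases le_total k n with e | e
    · obtain ⟨j, rfl⟩ := Nat.exists_eq_add_of_le' e
      obtain ⟨v, -, h9⟩ := stA.1 h8
      exact ⟨v, h9⟩
    · obtain ⟨j, rfl⟩ := Nat.exists_eq_add_of_le' e
      obtain ⟨v, -, h9⟩ := stA.1 hu
      exact (hn v h9).elim

theorem ter0 {x u : X} (h : a x = none) {k : ℕ} (h1 : St a k x u) : k = 0 := by
  cases k with
  | zero => rfl
  | succ k =>
    obtain ⟨v, h2, -⟩ := stS.1 h1
    simp [h] at h2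

theorem teru {x y : X} (h : a x = none) (h' : a y = none) (e : comp a x = comp a y) : x = y := by
  obtain ⟨i, h1 | h1⟩ := comp_eq.1 e
  · obtain rfl := ter0 h h1
    exact st0.1 h1
  · obtain rfl := ter0 h' h1
    exact (st0.1 h1).symm

theorem sT (a : X ≃. X) (S : Set X) (h : ∃ x, Ter a (max 1 0) x ∧ S = comp a x) :
    ∃ p, ∀ k : ℕ∞, k ≤ p ↔ ∃ x, Ter a (max 1 k) x ∧ S = comp a x := by
  obtain ⟨x, h1, h2⟩ := h
  refine ⟨⨆ n : {n : ℕ // ∃ y, St a n y x}, (n.1 : ℕ∞), fun k => ⟨fun hk => ⟨x, ⟨h1.1, fun n hn => ?_⟩,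
    h2⟩, fun ⟨y, h3, h4⟩ => ?_⟩⟩
  · rcases le_max_iff.1 hn with hn | hn
    · exact h1.2 n (le_max_of_le_left hn)
    by_contra h5
    cases n with
    | zero => exact h5 ⟨x, st0.2 rfl⟩
    | succ n =>
      have : (⨆ n : {n : ℕ // ∃ y, St a n y x}, (n.1 : ℕ∞)) ≤ n := iSup_le fun ⟨m, y, hm⟩ => by
        refine Nat.cast_le.2 (not_lt.1 fun e => h5 ?_)
        obtain ⟨j, rfl⟩ := Nat.exists_eq_add_of_le' (Nat.succ_le_of_lt e)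
        obtain ⟨v, -, h9⟩ := stA.1 hm
        exact ⟨v, h9⟩
      have := Nat.cast_le.1 (hn.trans (hk.trans this))
      omega
  · obtain rfl := teru h1.1 h3.1 (h2.symm.trans h4)
    exact ENat.forall_natCast_le_iff_le.1 fun n hn => le_iSup
      (fun n : {n : ℕ // ∃ y, St a n y x} => (n.1 : ℕ∞)) ⟨n, h3.2 n (le_max_of_le_right hn)⟩

theorem goodT (h : ∀ k, 1 ≤ k → num a (Ter a k) ≤ num b (Ter b k)) :
    Good a b (Ter a (max 1 0)) := by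
  obtain ⟨f, h1, h2⟩ := hall2 (fun k S => ∃ x, Ter a (max 1 k) x ∧ S = comp a x)
    (fun k S => ∃ x, Ter b (max 1 k) x ∧ S = comp b x) (fun k => h _ (le_max_left _ _))
    (fun k S ⟨x, h1, h2⟩ => ⟨x, ⟨h1.1, fun n hn => h1.2 n
      (hn.trans (max_le_max le_rfl zero_le))⟩, h2⟩) (sT a) (sT b)
  refine ⟨f, h1, fun S => ?_⟩
  obtain ⟨x, h3, h4⟩ := S.2
  obtain ⟨y, h5, h6⟩ := h2 S 0 S.2
  refine ⟨x, y, h4, h6, fun k => ⟨fun e => ter0 h3.1 e ▸ st0.2 rfl, fun e => ter0 h5.1 e ▸ st0.2 rfl⟩,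
    fun k => ⟨fun ⟨_, e⟩ => ⟨y, ter0 h3.1 e ▸ st0.2 rfl⟩, fun ⟨_, e⟩ => ⟨x, ter0 h5.1 e ▸ st0.2 rfl⟩⟩,
    fun k u hu => ?_⟩
  obtain ⟨z, h7, h8⟩ := h2 S k ⟨x, ⟨h3.1, fun n hn => by
    rcases le_max_iff.1 hn with hn | hn
    · exact h3.2 n (le_max_of_le_left hn)
    · obtain ⟨j, rfl⟩ := Nat.exists_eq_add_of_le' (Nat.cast_le.1 hn)
      obtain ⟨v, -, h9⟩ := stA.1 hu
      exact ⟨v, h9⟩⟩, h4⟩
  obtain rfl := teru h5.1 h7.1 (h6.symm.trans h8)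
  exact h7.2 k (le_max_right _ _)

theorem suff (h1 : ∀ n, 1 ≤ n → num a (Cyc a n) ≤ num b (Cyc b n))
    (h2 : num a (Ray a) ≤ num b (Ray b)) (h3 : num a (Dbl a) ≤ num b (Dbl b))
    (h4 : ∀ k, 1 ≤ k → num a (Ter a k) ≤ num b (Ter b k)) :
    ∃ g, P1 a g ∧ a.trans g = g.trans b := by
  classical
  refine glue fun κ => ?_
  by_cases c1 : ∃ k, 0 < k ∧ κ.1 k
  · refine (goodC (Nat.find_spec c1).1 (h1 _ (Nat.find_spec c1).1)).mono ?_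
    rintro x ⟨-, rfl⟩
    exact ⟨x, ⟨(Nat.find_spec c1).2, fun m h5 h6 h7 => Nat.find_min c1 h6 ⟨h5, h7⟩⟩, .rfl⟩
  by_cases c2 : κ.2
  · refine (goodR h2 h3).mono ?_
    rintro x ⟨-, rfl⟩
    exact ⟨x, ⟨c2, fun n hn h => c1 ⟨n, hn, h⟩⟩, .rfl⟩
  refine (goodT h4).mono ?_
  rintro x ⟨hx, rfl⟩
  have c3 : ∃ n, ¬ ∃ u, St a (n + 1) x u := by
    by_contra h
    push Not at h
    exact c2 fun n => Nat.casesOn n ⟨x, st0.2 rfl⟩ h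
  obtain ⟨n, h5, t, h6⟩ : ∃ n, (¬ ∃ u, St a (n + 1) x u) ∧ ∃ t, St a n x t := by
    refine ⟨Nat.find c3, Nat.find_spec c3, ?_⟩
    rcases e : Nat.find c3 with _ | m
    · exact ⟨x, st0.2 rfl⟩
    · exact not_not.1 (Nat.find_min c3 (by omega))
  have h7 : a t = none :=
    Option.eq_none_iff_forall_ne_some.2 fun z hz => h5 ⟨z, h6.add (st1.2 hz)⟩
  refine ⟨t, ⟨h7, fun m hm => ?_⟩, n, .inl h6⟩
  have hm' : m ≤ 1 := by simpa using hm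
  obtain rfl | rfl : m = 0 ∨ m = 1 := by omega
  · exact ⟨t, st0.2 rfl⟩
  cases n with
  | zero =>
    obtain rfl := st0.1 h6
    obtain ⟨y, h8 | h8⟩ := hx
    · simp [h7] at h8
    · exact ⟨y, st1.2 h8⟩
  | succ n =>
    obtain ⟨v, -, h9⟩ := stA.1 h6
    exact ⟨v, h9⟩

theorem main (a b : X ≃. X) : CC a b ↔ (∀ n, 1 ≤ n → num a (Cyc a n) = num b (Cyc b n)) ∧
    num a (Ray a) = num b (Ray b) ∧ num a (Dbl a) = num b (Dbl b) ∧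
      ∀ k, 1 ≤ k → num a (Ter a k) = num b (Ter b k) := by
  constructor
  · rintro ⟨g, h, h1, h2, h3, h4⟩
    obtain ⟨a1, a2, a3, a4⟩ := nec h1 h3
    obtain ⟨b1, b2, b3, b4⟩ := nec h2 h4
    exact ⟨fun n hn => le_antisymm (a1 n hn) (b1 n hn), le_antisymm a2 b2, le_antisymm a3 b3,
      fun n hn => le_antisymm (a4 n hn) (b4 n hn)⟩
  · rintro ⟨h1, h2, h3, h4⟩
    obtain ⟨g, g1, g2⟩ := suff (fun n hn => (h1 n hn).le) h2.le h3.le fun n hn => (h4 n hn).le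
    obtain ⟨h, k1, k2⟩ := suff (fun n hn => (h1 n hn).ge) h2.ge h3.ge fun n hn => (h4 n hn).ge
    exact ⟨g, h, g1, k1, g2, k2⟩

end Pool.Agent.H32.Ix
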