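import Mathlib

set_option autoImplicit false

namespace Pool.Agent.H32.Ix

open Cardinal

universe u

theorem fin_of_int {A B : Type u} (p : A → ℕ) (q : B → ℕ)
    (h : ∀ i k, #{a | i ≤ p a ∧ p a ≤ k} ≤ #{b | i ≤ q b + 1 ∧ q b ≤ k + 1}) (L : Finset ℕ) :
    #{a | p a ∈ L} ≤ #{b | ∃ i ∈ L, q b ≤ i + 1 ∧ i ≤ q b + 1} := by
  induction L using Finset.strongInduction with
  | _ L ih =>
  rcases L.eq_empty_or_nonempty with rfl | hL
  · simp
  by_cases c : ∀ j, L.min' hL ≤ j + 1 → j ≤ L.max' hL + 1 → ∃ i ∈ L, j ≤ i + 1 ∧ i ≤ j + 1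
  · exact (mk_le_mk_of_subset (t := {a | L.min' hL ≤ p a ∧ p a ≤ L.max' hL})
      fun a ha => ⟨L.min'_le _ ha, L.le_max' _ ha⟩).trans
      ((h _ _).trans (mk_le_mk_of_subset fun b hb => c _ hb.1 hb.2))
  push Not at c
  obtain ⟨j, c1, c2, c3⟩ := c
  have m1 := c3 _ (L.min'_mem hL)
  have m2 := c3 _ (L.max'_mem hL)
  have m3 := L.min'_le_max' hL
  have i1 := ih (L.filter (· < j)) (Finset.filter_ssubset.2 ⟨_, L.max'_mem hL, by omega⟩)
  have i2 := ih (L.filter (j < ·)) (Finset.filter_ssubset.2 ⟨_, L.min'_mem hL, by omega⟩)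
  refine le_trans (mk_le_mk_of_subset (t := {a | p a ∈ L.filter (· < j)} ∪
    {a | p a ∈ L.filter (j < ·)}) fun a ha => ?_) ((mk_union_le _ _).trans
      ((add_le_add i1 i2).trans ?_))
  · have := c3 _ ha
    simp only [Set.mem_union, Set.mem_ofPred_eq, Finset.mem_filter] at ha ⊢
    by_cases e : p a < j
    exacts [.inl ⟨ha, e⟩, .inr ⟨ha, by omega⟩]
  · rw [← mk_union_of_disjoint]
    · refine mk_le_mk_of_subset ?_
      rintro b (⟨i, hi, h⟩ | ⟨i, hi, h⟩) <;> exact ⟨i, (Finset.mem_filter.1 hi).1, h⟩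
    · rw [Set.disjoint_left]
      rintro b ⟨i, hi, h⟩ ⟨k, hk, h'⟩
      rw [Finset.mem_filter] at hi hk
      have := c3 i hi.1
      have := c3 k hk.1
      omega

theorem hall3 {A B : Type u} (p : A → ℕ) (q : B → ℕ)
    (h0 : ∀ i k, #{a | i ≤ p a ∧ p a ≤ k} ≤ #{b | i ≤ q b + 1 ∧ q b ≤ k + 1}) :
    ∃ f : A → B, Function.Injective f ∧ ∀ a, q (f a) ≤ p a + 1 ∧ p a ≤ q (f a) + 1 := by
  classical
  have h := fin_of_int p q h0
  let N : ℕ → Set B := fun i => {b | q b ≤ i + 1 ∧ i ≤ q b + 1}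
  obtain ⟨f1, h1, h2⟩ := (Finset.all_card_le_biUnion_card_iff_exists_injective
    (fun a : {a // (N (p a)).Finite} => a.2.toFinset)).1 fun s => by
      have := h (s.image fun a => p a.1)
      rw [← Nat.cast_le (α := Cardinal.{u}), ← Cardinal.mk_coe_finset, ← Cardinal.mk_coe_finset]
      refine le_trans (Cardinal.mk_le_of_injective (f := fun a => ⟨a.1.1, 
        by rw [Set.mem_ofPred_eq]; exact Finset.mem_image.2 ⟨a.1, a.2, rfl⟩⟩)
        fun a b e => ?_) (this.trans (Cardinal.mk_le_of_injective (f := fun b => ⟨b.1, by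
          obtain ⟨_, hi, h⟩ := b.2
          obtain ⟨a, ha, rfl⟩ := Finset.mem_image.1 hi
          exact Finset.mem_biUnion.2 ⟨a, ha, a.2.mem_toFinset.2 h⟩⟩) fun a b e => ?_))
      · exact Subtype.ext (Subtype.ext (congrArg (fun x => x.1) e))
      · exact Subtype.ext (congrArg (fun x => x.1) e)
  have k1 : ∀ i, (N i).Infinite → ∃ j, (j ≤ i + 1 ∧ i ≤ j + 1) ∧ {b | q b = j}.Infinite ∧
      Nonempty ({a | p a = i} ↪ {b | q b = j}) := by
    intro i hi
    obtain ⟨j, hj, hm⟩ := Finset.exists_max_image {i - 1, i, i + 1} (fun j => #{b | q b = j})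
      ⟨i, by simp⟩
    have e1 : #(N i) ≤ #{b | q b = j} + #{b | q b = j} + #{b | q b = j} := by
      refine le_trans (Cardinal.mk_le_mk_of_subset (t := ({b | q b = i - 1} ∪ {b | q b = i}) ∪
        {b | q b = i + 1}) fun b hb => ?_) ((Cardinal.mk_union_le _ _).trans (add_le_add
          ((Cardinal.mk_union_le _ _).trans (add_le_add (hm _ (by simp)) (hm _ (by simp))))
          (hm _ (by simp))))
      simp only [N, Set.mem_union, Set.mem_ofPred_eq] at hb ⊢
      omega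
    have e2 : ℵ₀ ≤ #{b | q b = j} := by
      by_contra e
      rw [not_le] at e
      exact (Cardinal.add_lt_aleph0 (Cardinal.add_lt_aleph0 e e) e).not_ge
        ((Cardinal.aleph0_le_mk_iff.2 hi.to_subtype).trans e1)
    rw [Cardinal.add_eq_self e2, Cardinal.add_eq_self e2] at e1
    refine ⟨j, by simp at hj; omega, Set.infinite_coe_iff.1 (Cardinal.aleph0_le_mk_iff.1 e2),
      (Cardinal.le_def _ _).1 (le_trans ?_ e1)⟩
    simpa [N] using h {i}
  choose j hj1 hj2 hj3 using k1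
  have k2 : ∀ j, {b | q b = j}.Infinite →
      Nonempty ({b | q b = j} × ULift.{u} ℕ ↪ {b | q b = j}) := fun j hj => by
    have := hj.to_subtype
    exact (Cardinal.le_def _ _).1 (by simp)
  let f2 : ∀ a, (N (p a)).Infinite → B := fun a ha =>
    ((k2 _ (hj2 _ ha)).some ((hj3 _ ha).some ⟨a, rfl⟩, ⟨p a⟩)).1
  have q2 : ∀ a ha, q (f2 a ha) = j (p a) ha := fun a ha => Subtype.prop (p := fun b => q b = _) _
  have i2 : ∀ a ha a' ha', f2 a ha = f2 a' ha' → a = a' := by
    intro a ha a' ha' e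
    have e1 : j (p a) ha = j (p a') ha' := by rw [← q2, ← q2, e]
    have g : ∀ j1 j2 h1 h2 x y, j1 = j2 → ((k2 j1 h1).some x).1 = ((k2 j2 h2).some y).1 →
        x.1.1 = y.1.1 ∧ x.2 = y.2 := by
      rintro j1 _ h1 h2 x y rfl e
      rw [(k2 j1 h1).some.injective (Subtype.ext e)]
      exact ⟨rfl, rfl⟩
    obtain ⟨e2, e3⟩ := g _ _ (hj2 _ ha) (hj2 _ ha') _ _ e1 e
    have g2 : ∀ i1 i2 h1 h2 x y, i1 = i2 → ((hj3 i1 h1).some x).1 = ((hj3 i2 h2).some y).1 →
        x.1 = y.1 := by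
      rintro i1 _ h1 h2 x y rfl e
      rw [(hj3 i1 h1).some.injective (Subtype.ext e)]
    exact g2 _ _ ha ha' _ _ (congrArg ULift.down e3) e2
  have n1 : ∀ a, f1 a ∈ N (p a.1) := fun a => a.2.mem_toFinset.1 (h2 a)
  have d : ∀ a a' ha', f1 a ≠ f2 a' ha' := fun a a' ha' e =>
    hj2 _ ha' (a.2.subset fun b hb => by
      have := n1 a
      simp only [N, Set.mem_ofPred_eq] at hb this ⊢
      rwa [hb, ← q2, ← e])
  refine ⟨fun a => if ha : (N (p a)).Finite then f1 ⟨a, ha⟩ else f2 a ha, fun a a' e => ?_,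
    fun a => ?_⟩
  · by_cases ha : (N (p a)).Finite <;> by_cases ha' : (N (p a')).Finite <;>
      simp only [ha, ha', dif_pos, dif_neg, not_false_eq_true] at e
    exacts [congrArg Subtype.val (h1 e), (d _ _ _ e).elim, (d _ _ _ e.symm).elim, i2 _ _ _ _ e]
  · by_cases ha : (N (p a)).Finite <;> simp only [ha, dif_pos, dif_neg, not_false_eq_true]
    · exact n1 ⟨a, ha⟩
    · rw [q2]; exact hj1 _ ha

theorem md {A B : Type u} (R : A → B → Prop) (P : A → Prop) (Q : B → Prop) (f : {a // P a} → B)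
    (g : {b // Q b} → A) (hf : Function.Injective f) (hg : Function.Injective g)
    (h1 : ∀ a, R a.1 (f a)) (h2 : ∀ b, R (g b) b.1) : ∃ M : A → B → Prop, (∀ a b, M a b → R a b) ∧
      (∀ a b a' b', M a b → M a' b' → a = a' ∨ b = b' → a = a' ∧ b = b') ∧
      (∀ a, P a → ∃ b, M a b) ∧ ∀ b, Q b → ∃ a, M a b := by
  classical
  obtain ⟨H, ⟨i1, i2⟩, h3⟩ := Function.Embedding.schroeder_bernstein_of_rel
    (α := A ⊕ (A ⊕ B) × ℕ) (β := B ⊕ (A ⊕ B) × ℕ)
    (f := Sum.elim (fun a => if h : P a then .inl (f ⟨a, h⟩) else .inr (.inl a, 0))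
      fun d => .inr (d.1, d.2 + 1))
    (g := Sum.elim (fun b => if h : Q b then .inl (g ⟨b, h⟩) else .inr (.inr b, 0))
      fun d => .inr (d.1, d.2 + 1))
    (by
      rintro (a | ⟨d, n⟩) (a' | ⟨d', n'⟩) e <;> simp only [Sum.elim_inl, Sum.elim_inr] at e <;>
        (try split_ifs at e) <;> simp_all [hf.eq_iff])
    (by
      rintro (a | ⟨d, n⟩) (a' | ⟨d', n'⟩) e <;> simp only [Sum.elim_inl, Sum.elim_inr] at e <;>
        (try split_ifs at e) <;> simp_all [hg.eq_iff])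
    (fun x y => match x, y with
      | .inl a, .inl b => R a b
      | .inl a, .inr _ => ¬ P a
      | .inr _, .inl b => ¬ Q b
      | .inr _, .inr _ => True)
    (by
      rintro (a | d) <;> simp only [Sum.elim_inl, Sum.elim_inr]
      split_ifs with h
      exacts [h1 ⟨a, h⟩, h])
    (by
      rintro (a | d) <;> simp only [Sum.elim_inl, Sum.elim_inr]
      split_ifs with h
      exacts [h2 ⟨a, h⟩, h])
  refine ⟨fun a b => H (.inl a) = .inl b, fun a b e => ?_, fun a b a' b' e e' c => ?_,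
    fun a ha => ?_, fun b hb => ?_⟩
  · have := h3 (.inl a)
    rwa [e] at this
  · rcases c with rfl | rfl
    · exact ⟨rfl, Sum.inl.inj (e.symm.trans e')⟩
    · exact ⟨Sum.inl.inj (i1 (e.trans e'.symm)), rfl⟩
  · have := h3 (.inl a)
    rcases e : H (.inl a) with b | d
    · exact ⟨b, e⟩
    · rw [e] at this
      exact (this ha).elim
  · obtain ⟨a | d, e⟩ := i2 (.inl b)
    · exact ⟨a, e⟩
    · have := h3 (.inr d)
      rw [e] at this
      exact (this hb).elim

end Pool.Agent.H32.Ix
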