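import Pool.Agent.H32.IxDefs

set_option autoImplicit false

namespace Pool.Agent.H32.Ix

universe u
variable {X : Type u}

def PC (a b : X ≃. X) : Prop := ∃ u v : X ≃. X, a = u.trans v ∧ b = v.trans u

/-- `x` lies on a right ray -/
def Rr (a : X ≃. X) (x : X) : Prop := Ray a x ∧ ¬ ∀ n, ∃ y, pw a n y = some x

/-- `x` is the end point of a chain with exactly `k` edges -/
def Ch (a : X ≃. X) (k : ℕ) (x : X) : Prop :=
  a x = none ∧ (∃ y, pw a k y = some x) ∧ ¬ ∃ y, pw a (k + 1) y = some x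

/-- for `1 ≤ i`, `a` has at most as many chains with between `i` and `k` edges as `b` has chains
with between `i - 1` and `k + 1` edges -/
def HallI (a b : X ≃. X) : Prop := ∀ i k : ℕ, 1 ≤ i →
  num a (fun x => ∃ j, i ≤ j ∧ j ≤ k ∧ Ch a j x) ≤
    num b fun y => ∃ j, i ≤ j + 1 ∧ j ≤ k + 1 ∧ Ch b j y

end Pool.Agent.H32.Ix
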