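import Pool.Agent.H32.IxC
import Pool.Agent.H32.IxD
import Pool.Agent.H32.IxDefs2

set_option autoImplicit false

namespace Pool.Agent.H32.Ix

universe u
variable {X : Type u} {a b g : X ≃. X}

theorem St.down {m n : ℕ} {x y : X} (h : St a n y x) (e : m ≤ n) : ∃ z, St a m z x := by
  obtain ⟨j, rfl⟩ := Nat.exists_eq_add_of_le' e
  obtain ⟨v, -, h9⟩ := stA.1 h
  exact ⟨v, h9⟩

theorem init {x : X} (h : ¬ ∀ n, ∃ y, St a n y x) :
    ∃ k, (∃ y, St a k y x) ∧ ¬ ∃ y, St a (k + 1) y x := by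
  by_contra c
  push Not at c
  refine h fun n => ?_
  induction n with
  | zero => exact ⟨x, st0.2 rfl⟩
  | succ n ih => exact c n ih

theorem pres2 (e : a.trans g = g.trans b) {n : ℕ} {x y y' : X} (h : St a n x y)
    (h1 : g y = some y') : ∃ x', g x = some x' ∧ St b n x' y' := by
  induction n generalizing x with
  | zero => exact ⟨y', (st0.1 h).symm ▸ h1, st0.2 rfl⟩
  | succ n ih =>
    obtain ⟨u, h3, h4⟩ := stS.1 h
    obtain ⟨z, h5, h6⟩ := ih h4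
    obtain ⟨v, h7, h8⟩ := (cm e x z).1 ⟨u, h3, h5⟩
    exact ⟨v, h7, stS.2 ⟨z, h8, h6⟩⟩

theorem numle2 (e : a.trans g = g.trans b) {T T' : X → Prop}
    (h : ∀ x, T x → ∃ y y' z, Cn a x y ∧ g y = some y' ∧ Cn b y' z ∧ T' z) :
    num a T ≤ num b T' := by
  refine le_trans (b := num a fun y => ∃ y' z, g y = some y' ∧ Cn b y' z ∧ T' z) ?_
    ((numle e (T' := fun y' => ∃ z, Cn b y' z ∧ T' z)
      fun y ⟨y', z, h1, h2⟩ => ⟨y', h1, z, h2⟩).trans ?_)
  · refine Cardinal.mk_subtype_mono ?_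
    rintro S ⟨x, h1, rfl⟩
    obtain ⟨y, y', z, h2, h3⟩ := h x h1
    exact ⟨y, ⟨y', z, h3⟩, comp_eq.2 h2⟩
  · refine Cardinal.mk_subtype_mono ?_
    rintro S ⟨x, ⟨z, h1, h2⟩, rfl⟩
    exact ⟨z, h2, comp_eq.2 h1⟩

def Cond (a b : X ≃. X) : Prop := (∀ n, 1 ≤ n → num a (Cyc a n) ≤ num b (Cyc b n)) ∧
  num a (Dbl a) ≤ num b (Dbl b) ∧ num a (Rr a) ≤ num b (Rr b) ∧
    num a (Ter a ⊤) ≤ num b (Ter b ⊤) ∧ HallI a b

theorem nec2 (u v : X ≃. X) : Cond (u.trans v) (v.trans u) := by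
  have e : (u.trans v).trans u = u.trans (v.trans u) := PEquiv.trans_assoc _ _ _
  have e' : (v.trans u).trans v = v.trans (u.trans v) := PEquiv.trans_assoc _ _ _
  have tr : ∀ x y, (u.trans v) x = some y ↔ ∃ w, u x = some w ∧ v w = some y :=
    PEquiv.trans_eq_some _ _
  have tr' : ∀ x y, (v.trans u) x = some y ↔ ∃ w, v x = some w ∧ u w = some y :=
    PEquiv.trans_eq_some _ _
  generalize u.trans v = a at *
  generalize v.trans u = b at *
  have pr : ∀ {n x y x' y'}, St a n x y → u x = some x' → u y = some y' → St b n x' y' :=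
    fun h h1 h2 => by
      obtain ⟨z, h3, h4⟩ := pres2 e h h2
      exact Option.some.inj (h3.symm.trans h1) ▸ h4
  have ray : ∀ x, Ray a x → ∃ x' x1, u x = some x' ∧ v x' = some x1 ∧ a x = some x1 ∧ Ray b x' := by
    intro x h
    obtain ⟨x1, h1⟩ := h.1 1
    obtain ⟨x', h2, h3⟩ := (tr _ _).1 (st1.1 h1)
    refine ⟨x', x1, h2, h3, st1.1 h1, fun n => ?_, fun n hn h4 => h.2 n hn (refl' e h4 h2 h2)⟩
    obtain ⟨y, h4⟩ := h.1 (n + 1)
    obtain ⟨w, h5, h6⟩ := stA.1 h4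
    obtain ⟨w', h7, -⟩ := (tr _ _).1 (st1.1 h6)
    exact ⟨w', pr h5 h2 h7⟩
  have ter : ∀ t y, a t = none → a y = some t → ∃ y' z, u y = some y' ∧ v y' = some t ∧
      b z = none ∧ (z = y' ∨ b y' = some z) := by
    intro t y h1 h2
    obtain ⟨y', h3, h4⟩ := (tr _ _).1 h2
    rcases h5 : b y' with _ | z
    · exact ⟨y', y', h3, h4, h5, .inl rfl⟩
    refine ⟨y', z, h3, h4, Option.eq_none_iff_forall_ne_some.2 fun w hw => ?_, .inr h5⟩
    obtain ⟨t', h6, h7⟩ := (tr' _ _).1 h5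
    obtain ⟨s, h8, -⟩ := (tr' _ _).1 hw
    obtain rfl := Option.some.inj (h6.symm.trans h4)
    have := (tr _ _).2 ⟨z, h7, h8⟩
    simp [h1] at this
  refine ⟨fun n hn => numle e fun x h => ?_, numle e fun x h => ?_, numle e fun x h => ?_,
    numle2 e fun t h => ?_, fun i K hi => numle2 e ?_⟩
  · obtain ⟨y, h1⟩ := (cyc_f hn h.1 1).1
    obtain ⟨x', h2, -⟩ := (tr _ _).1 (st1.1 h1)
    exact ⟨x', h2, pr h.1 h2 h2, fun m h5 h6 h7 => h.2 m h5 h6 (refl' e h7 h2 h2)⟩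
  · obtain ⟨x', x1, h1, -, -, h2⟩ := ray x h.1
    refine ⟨x', h1, h2, fun n => ?_⟩
    obtain ⟨y, h3⟩ := h.2 n
    obtain ⟨y', -, h4⟩ := pres2 e h3 h1
    exact ⟨y', h4⟩
  · obtain ⟨x', x1, h1, h5, h6, h2⟩ := ray x h.1
    refine ⟨x', h1, h2, fun c => h.2 fun n => ?_⟩
    obtain ⟨y, h3⟩ := c (n + 1)
    obtain ⟨y', -, h4⟩ := pres2 e' h3 h5
    exact ⟨y', h4.subR (st1.2 h6)⟩
  · obtain ⟨y, h1⟩ := h.2 1 le_top
    obtain ⟨y', z, h2, h3, h4, h5⟩ := ter t y h.1 (st1.1 h1)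
    have : ∀ n, ∃ w, St b n w y' := fun n => by
      obtain ⟨w, h6⟩ := h.2 (n + 1) le_top
      obtain ⟨w', -, h7⟩ := pres2 e (St.subR h6 h1) h2
      exact ⟨w', h7⟩
    refine ⟨y, y', z, ⟨1, .inr h1⟩, h2, ?_, h4, fun n _ => ?_⟩ <;> rcases h5 with rfl | h5
    exacts [.rfl, ⟨1, .inl (st1.2 h5)⟩, this n, (this n).elim fun w hw =>
      (hw.add (st1.2 h5)).down (Nat.le_succ n)]
  · rintro t ⟨k, hk, hK, h1, ⟨w, h2⟩, h3⟩
    obtain _ | k := k
    · omega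
    obtain ⟨y, h4, h5⟩ := stA.1 h2
    obtain ⟨y', z, h6, h7, h8, h9⟩ := ter t y h1 (st1.1 h5)
    obtain ⟨w', -, p1⟩ := pres2 e h4 h6
    have p2 : ∀ n s, St b n s y' → n ≤ k + 1 := fun n s hs => by
      obtain ⟨s', -, h⟩ := pres2 e' hs h7
      exact not_lt.1 fun c => h3 (h.down c)
    have p3 : ∀ n s, St b n s z → n ≤ k + 2 := fun n s hs => by
      rcases h9 with rfl | h9
      · exact (p2 n s hs).trans (by omega)
      cases n with
      | zero => omega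
      | succ n => exact Nat.succ_le_succ (p2 n s (hs.subR (st1.2 h9)))
    have p4 : ∃ s, St b k s z := by
      rcases h9 with rfl | h9
      exacts [⟨w', p1⟩, (p1.add (st1.2 h9)).down (Nat.le_succ k)]
    obtain ⟨j, ⟨s, p5⟩, p6⟩ := init (a := b) (x := z) fun c => by
      obtain ⟨s, hs⟩ := c (k + 3)
      have := p3 _ _ hs
      omega
    refine ⟨y, y', z, ⟨1, .inr h5⟩, h6, ?_, j, hk.trans ?_, (p3 _ _ p5).trans (by omega), h8, ⟨s, p5⟩, p6⟩
    · rcases h9 with rfl | h9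
      exacts [.rfl, ⟨1, .inl (st1.2 h9)⟩]
    · obtain ⟨s', p7⟩ := p4
      exact Nat.succ_le_succ (not_lt.1 fun c => p6 (p7.down c))

theorem toPC (e : a.trans g = g.trans b) (h1 : ∀ x y, a x = some y → ∃ z, g x = some z)
    (h2 : ∀ x y, b x = some y → ∃ z, g z = some y) : PC a b := by
  classical
  let G : X → X → Prop := fun y x => (∃ w, g w = some y ∧ a w = some x) ∨
    ∃ z, b y = some z ∧ g x = some z
  have c1 : ∀ w y x z, g w = some y → b y = some z → g x = some z → a w = some x := by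
    intro w y x z k1 k2 k3
    obtain ⟨u, k4, k5⟩ := (cm e w z).2 ⟨y, k1, k2⟩
    exact PEquiv.inj g k5 k3 ▸ k4
  have c2 : ∀ w y x z, g w = some y → a w = some x → g x = some z → b y = some z := by
    intro w y x z k1 k2 k3
    obtain ⟨u, k4, k5⟩ := (cm e w z).1 ⟨x, k2, k3⟩
    exact Option.some.inj (k4.symm.trans k1) ▸ k5
  have g1 : ∀ u v v', G u v → G u v' → v = v' := by
    rintro u v v' (⟨w, k1, k2⟩ | ⟨z, k1, k2⟩) (⟨w', k3, k4⟩ | ⟨z', k3, k4⟩)
    · obtain rfl := PEquiv.inj g k1 k3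
      exact Option.some.inj (k2.symm.trans k4)
    · exact Option.some.inj (k2.symm.trans (c1 _ _ _ _ k1 k3 k4))
    · exact Option.some.inj ((c1 _ _ _ _ k3 k1 k2).symm.trans k4)
    · obtain rfl := Option.some.inj (k1.symm.trans k3)
      exact PEquiv.inj g k2 k4
  have g2 : ∀ u u' v, G u v → G u' v → u = u' := by
    rintro u u' v (⟨w, k1, k2⟩ | ⟨z, k1, k2⟩) (⟨w', k3, k4⟩ | ⟨z', k3, k4⟩)
    · obtain rfl := PEquiv.inj a k2 k4
      exact Option.some.inj (k1.symm.trans k3)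
    · exact PEquiv.inj b (c2 _ _ _ _ k1 k2 k4) k3
    · exact PEquiv.inj b k1 (c2 _ _ _ _ k3 k4 k2)
    · obtain rfl := Option.some.inj (k2.symm.trans k4)
      exact PEquiv.inj b k1 k3
  have f1 : ∀ u v, (if h : ∃ v, G u v then some h.choose else none) = some v ↔ G u v := by
    intro u v
    split_ifs with h
    · exact ⟨fun e => Option.some.inj e ▸ h.choose_spec,
        fun e => congrArg some (g1 _ _ _ h.choose_spec e)⟩
    · exact ⟨fun e => (by cases e), fun e => (h ⟨v, e⟩).elim⟩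
  have f2 : ∀ u v, (if h : ∃ u, G u v then some h.choose else none) = some u ↔ G u v := by
    intro u v
    split_ifs with h
    · exact ⟨fun e => Option.some.inj e ▸ h.choose_spec,
        fun e => congrArg some (g2 _ _ _ h.choose_spec e)⟩
    · exact ⟨fun e => (by cases e), fun e => (h ⟨u, e⟩).elim⟩
  let v : X ≃. X := ⟨fun u => if h : ∃ v, G u v then some h.choose else none,
    fun v => if h : ∃ u, G u v then some h.choose else none, fun u v => (f2 u v).trans (f1 u v).symm⟩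
  have hv : ∀ x y, v x = some y ↔ G x y := f1
  refine ⟨g, v, PEquiv.ext fun w => Option.ext fun x => ?_,
    PEquiv.ext fun y => Option.ext fun z => ?_⟩ <;> rw [PEquiv.trans_eq_some] <;> simp only [hv]
  · refine ⟨fun k => (h1 _ _ k).imp fun y hy => ⟨hy, .inl ⟨w, hy, k⟩⟩, ?_⟩
    rintro ⟨y, k, ⟨w', k1, k2⟩ | ⟨z, k1, k2⟩⟩
    exacts [PEquiv.inj g k1 k ▸ k2, c1 _ _ _ _ k k1 k2]
  · refine ⟨fun k => (h2 _ _ k).imp fun x hx => ⟨.inr ⟨z, k, hx⟩, hx⟩, ?_⟩
    rintro ⟨x, ⟨w', k1, k2⟩ | ⟨z', k1, k2⟩, k⟩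
    exacts [c2 _ _ _ _ k1 k2 k, Option.some.inj (k2.symm.trans k) ▸ k1]

end Pool.Agent.H32.Ix
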