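import Pool.Agent.H32.IxE

set_option autoImplicit false

namespace Pool.Agent.H32.Ix

universe u
variable {X : Type u} {a b : X ≃. X}

def Emb2 (a b : X ≃. X) (x y : X) : Prop := (∀ k, St a k x x ↔ St b k y y) ∧
  (∀ k, (∃ u, St a (k + 1) x u) → ∃ v, St b k y v) ∧ (∀ k, (∃ v, St b k y v) → ∃ u, St a k x u) ∧
  (∀ k, (∃ u, St a k u x) → ∃ v, St b k v y) ∧ ∀ k, (∃ v, St b (k + 1) v y) → ∃ u, St a k u x

theorem build2 (Bs : X → X → Prop) (h1 : ∀ x y, Bs x y → Emb2 a b x y)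
    (h2 : ∀ x y x' y', Bs x y → Bs x' y' → Cn a x x' ∨ Cn b y y' → x = x' ∧ y = y')
    (h3 : ∀ u, Sp a u → ∃ x y, Bs x y ∧ Cn a x u) (h4 : ∀ u, Sp b u → ∃ x y, Bs x y ∧ Cn b y u) :
    PC a b := by
  classical
  let G : X → X → Prop := fun u v => ∃ x y, Bs x y ∧ Lk a b x y u v
  have g1 : ∀ u v v', G u v → G u v' → v = v' := by
    rintro u v v' ⟨x, y, h4, h5⟩ ⟨x', y', h6, h7⟩
    obtain ⟨rfl, rfl⟩ := h2 _ _ _ _ h4 h6 (.inl (h5.cn.trans h7.cn.symm))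
    exact h5.fn (fun k => ((h1 _ _ h4).1 k).1) h7
  have g2 : ∀ u u' v, G u v → G u' v → u = u' := by
    rintro u u' v ⟨x, y, h4, h5⟩ ⟨x', y', h6, h7⟩
    obtain ⟨rfl, rfl⟩ := h2 _ _ _ _ h4 h6 (.inr (h5.sw.cn.trans h7.sw.cn.symm))
    exact h5.sw.fn (fun k => ((h1 _ _ h4).1 k).2) h7.sw
  have f1 : ∀ u v, (if h : ∃ v, G u v then some h.choose else none) = some v ↔ G u v := by
    intro u v
    split_ifs with h
    · exact ⟨fun e => Option.some.inj e ▸ h.choose_spec,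
        fun e => congrArg some (g1 _ _ _ h.choose_spec e)⟩
    · exact ⟨fun e => (by cases e), fun e => (h ⟨v, e⟩).elim⟩
  have f2 : ∀ u v, (if h : ∃ u, G u v then some h.choose else none) = some u ↔ G u v := by
    intro u v
    split_ifs with h
    · exact ⟨fun e => Option.some.inj e ▸ h.choose_spec,
        fun e => congrArg some (g2 _ _ _ h.choose_spec e)⟩
    · exact ⟨fun e => (by cases e), fun e => (h ⟨u, e⟩).elim⟩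
  let g : X ≃. X := ⟨fun u => if h : ∃ v, G u v then some h.choose else none,
    fun v => if h : ∃ u, G u v then some h.choose else none, fun u v => (f2 u v).trans (f1 u v).symm⟩
  have hg : ∀ u v, g u = some v ↔ G u v := f1
  refine toPC (g := g) (PEquiv.ext fun u => Option.ext fun z => ?_) (fun u u' hu => ?_)
    fun v0 v hv => ?_
  · rw [PEquiv.trans_eq_some, PEquiv.trans_eq_some]
    simp only [hg]
    constructor
    · rintro ⟨u', h4, x, y, h5, h6⟩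
      have B : ∀ i, St a i u' x → St b i z y → ∃ v, G u v ∧ b v = some z := by
        intro i h7 h8
        have h9 : St a (i + 1) u x := stS.2 ⟨u', h4, h7⟩
        obtain ⟨v, k1⟩ := (h1 _ _ h5).2.2.2.1 _ ⟨u, h9⟩
        obtain ⟨w, k2, k3⟩ := stS.1 k1
        exact ⟨v, ⟨x, y, h5, _, .inr ⟨h9, k1⟩⟩, k3.inj h8 ▸ k2⟩
      obtain ⟨i, ⟨h7, h8⟩ | ⟨h7, h8⟩⟩ := h6
      · cases i with
        | zero => exact B 0 (st0.2 (st0.1 h7).symm) (st0.2 (st0.1 h8).symm)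
        | succ i =>
          obtain ⟨v, k1, k2⟩ := stA.1 h8
          exact ⟨v, ⟨x, y, h5, i, .inl ⟨h7.subR (st1.2 h4), k1⟩⟩, st1.1 k2⟩
      · exact B i h7 h8
    · rintro ⟨v, ⟨x, y, h6, h7⟩, h4⟩
      obtain ⟨u', h8, h9⟩ := h7.sw.s1 (h1 _ _ h6).2.2.1 h4
      exact ⟨u', h8, x, y, h6, h9.sw⟩
  · simp only [hg]
    obtain ⟨x, y, h4, i, h5 | h5⟩ := h3 u ⟨u', .inl hu⟩
    · obtain ⟨v, h6⟩ := (h1 _ _ h4).2.1 i ⟨u', h5.add (st1.2 hu)⟩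
      exact ⟨v, x, y, h4, i, .inl ⟨h5, h6⟩⟩
    · obtain ⟨v, h6⟩ := (h1 _ _ h4).2.2.2.1 i ⟨u, h5⟩
      exact ⟨v, x, y, h4, i, .inr ⟨h5, h6⟩⟩
  · simp only [hg]
    obtain ⟨x, y, h4, i, h5 | h5⟩ := h4 v ⟨v0, .inr hv⟩
    · obtain ⟨u, h6⟩ := (h1 _ _ h4).2.2.1 i ⟨v, h5⟩
      exact ⟨u, x, y, h4, i, .inl ⟨h6, h5⟩⟩
    · obtain ⟨u, h6⟩ := (h1 _ _ h4).2.2.2.2 i ⟨v0, stS.2 ⟨v, hv, h5⟩⟩
      exact ⟨u, x, y, h4, i, .inr ⟨h6, h5⟩⟩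

def Cp (a b : X ≃. X) (x y : X) : Prop := (∃ n, 1 ≤ n ∧ Cyc a n x ∧ Cyc b n y) ∨
  (Dbl a x ∧ Dbl b y) ∨ (Rr a x ∧ Rr b y) ∨ (Ter a ⊤ x ∧ Ter b ⊤ y) ∨
    ∃ k j, Ch a k x ∧ Ch b j y ∧ j ≤ k + 1 ∧ k ≤ j + 1

theorem Cp.symm {x y : X} (h : Cp a b x y) : Cp b a y x := by
  rcases h with ⟨n, h1, h2, h3⟩ | h | h | h | ⟨k, j, h1, h2, h3, h4⟩
  exacts [.inl ⟨n, h1, h3, h2⟩, .inr (.inl h.symm), .inr (.inr (.inl h.symm)),
    .inr (.inr (.inr (.inl h.symm))), .inr (.inr (.inr (.inr ⟨j, k, h2, h1, h4, h3⟩)))]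

theorem ini0 {k n : ℕ} {x y u : X} (h : St a k y x) (h' : ¬ ∃ y, St a (k + 1) y x)
    (h1 : St a n u y) : n = 0 :=
  by_contra fun e => h' ((h1.add h).down (by omega))

theorem Ch.le {k n : ℕ} {x u : X} (h : Ch a k x) (h1 : St a n u x) : n ≤ k :=
  not_lt.1 fun c => h.2.2 (h1.down c)

theorem Cp.emb {x y : X} (h : Cp a b x y) : ∃ x' y', Cn a x x' ∧ Cn b y y' ∧ Emb2 a b x' y' := by
  have T : ∀ x y, a x = none → b y = none → (∀ k, (∃ u, St a k u x) → ∃ v, St b k v y) →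
      (∀ k, (∃ v, St b (k + 1) v y) → ∃ u, St a k u x) → Emb2 a b x y := fun x y h1 h2 h3 h4 =>
    ⟨fun k => ⟨fun e => ter0 h1 e ▸ st0.2 rfl, fun e => ter0 h2 e ▸ st0.2 rfl⟩,
      fun k ⟨_, e⟩ => (by cases ter0 h1 e), fun k ⟨_, e⟩ => ⟨x, ter0 h2 e ▸ st0.2 rfl⟩, h3, h4⟩
  rcases h with ⟨n, hn, h1, h3⟩ | ⟨h1, h2⟩ | ⟨h1, h2⟩ | ⟨h1, h2⟩ | ⟨k, j, h1, h2, h3, h4⟩
  · exact ⟨x, y, .rfl, .rfl, fun k => (cyc_iff hn h1 k).trans (cyc_iff hn h3 k).symm,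
      fun k _ => (cyc_f hn h3.1 k).1, fun k _ => (cyc_f hn h1.1 k).1,
      fun k _ => (cyc_f hn h3.1 k).2, fun k _ => (cyc_f hn h1.1 k).2⟩
  · exact ⟨x, y, .rfl, .rfl, fun k => (h1.1.per k).trans (h2.1.per k).symm, fun k _ => h2.1.1 k,
      fun k _ => h1.1.1 k, fun k _ => h2.2 k, fun k _ => h1.2 k⟩
  · obtain ⟨k, ⟨x', h3⟩, h4⟩ := init h1.2
    obtain ⟨j, ⟨y', h5⟩, h6⟩ := init h2.2
    have r1 := h1.1.cn ⟨k, .inr h3⟩
    have r2 := h2.1.cn ⟨j, .inr h5⟩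
    exact ⟨x', y', ⟨k, .inr h3⟩, ⟨j, .inr h5⟩, fun k => (r1.per k).trans (r2.per k).symm,
      fun k _ => r2.1 k, fun k _ => r1.1 k, fun k ⟨_, e⟩ => ⟨y', ini0 h3 h4 e ▸ st0.2 rfl⟩,
      fun k ⟨_, e⟩ => by cases ini0 h5 h6 e⟩
  · exact ⟨x, y, .rfl, .rfl, T x y h1.1 h2.1 (fun k _ => h2.2 k le_top) fun k _ => h1.2 k le_top⟩
  obtain ⟨u0, p1⟩ := h1.2.1
  obtain ⟨v0, p2⟩ := h2.2.1
  rcases le_or_gt k j with c | c
  · exact ⟨x, y, .rfl, .rfl, T x y h1.1 h2.1 (fun m ⟨_, e⟩ => St.down p2 ((h1.le e).trans c))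
      fun m ⟨_, e⟩ => St.down p1 (by have := h2.le e; omega)⟩
  obtain rfl : k = j + 1 := by omega
  obtain ⟨x0, p3, p4⟩ := stA.1 p1
  have f : ∀ m w, St a (m + 1) x0 w → m = 0 := fun m w e =>
    ter0 h1.1 (St.subL (Nat.add_comm m 1 ▸ e) p4)
  refine ⟨x0, y, ⟨1, .inr p4⟩, .rfl, fun m => ⟨fun e => ?_, fun e => ter0 h2.1 e ▸ st0.2 rfl⟩,
    fun m ⟨_, e⟩ => ⟨y, f m _ e ▸ st0.2 rfl⟩, fun m ⟨_, e⟩ => ⟨x0, ter0 h2.1 e ▸ st0.2 rfl⟩,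
    fun m ⟨_, e⟩ => St.down p2 (by have := h1.le (e.add p4); omega),
    fun m ⟨_, e⟩ => St.down p3 (by have := h2.le e; omega)⟩
  exact f m _ (e.add p4) ▸ st0.2 rfl

def cl2 (a : X ≃. X) (x : X) : ((ℕ → Prop) × Prop) × Prop := (cl a x, ∀ n, ∃ u, St a n u x)

theorem cl2_cn {x y : X} (h : Cn a x y) : cl2 a x = cl2 a y := by
  have : ∀ {i x y}, St a i x y → (∀ n, ∃ u, St a n u x) = ∀ n, ∃ u, St a n u y := fun {i x y} h =>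
    propext ⟨fun h1 n => (h1 n).elim fun u hu => (hu.add h).down (Nat.le_add_right _ _),
      fun h1 n => (h1 (n + i)).imp fun u hu => hu.subR h⟩
  refine Prod.ext (cl_cn h) ?_
  obtain ⟨i, h | h⟩ := h
  exacts [this h, (this h).symm]

theorem Cp.cl {x y : X} (h : Cp a b x y) : cl2 a x = cl2 b y := by
  obtain ⟨x', y', h1, h2, h⟩ := h.emb
  rw [cl2_cn h1, cl2_cn h2]
  exact Prod.ext (Prod.ext (funext fun k => propext (h.1 k)) (propext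
    ⟨fun c n => h.2.1 n (c _), fun c n => h.2.2.1 n (c _)⟩)) (propext
      ⟨fun c n => h.2.2.2.1 n (c _), fun c n => h.2.2.2.2 n (c _)⟩)

def RC (a b : X ≃. X) (S S' : Set X) : Prop := ∃ x y, S = comp a x ∧ S' = comp b y ∧ Cp a b x y

def Good2 (a b : X ≃. X) (T : X → Prop) : Prop :=
  ∃ f : {S // ∃ x, T x ∧ S = comp a x} → Set X, Function.Injective f ∧ ∀ S, RC a b S.1 (f S)

theorem Good2.mono {T T' : X → Prop} (h : Good2 a b T') (h' : ∀ x, T x → ∃ y, T' y ∧ Cn a x y) :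
    Good2 a b T := by
  obtain ⟨f, h1, h2⟩ := h
  let i : {S // ∃ x, T x ∧ S = comp a x} → {S // ∃ x, T' x ∧ S = comp a x} := fun S => ⟨S.1, by
    obtain ⟨x, h3, h4⟩ := S.2
    obtain ⟨y, h5, h6⟩ := h' x h3
    exact ⟨y, h5, h4.trans (comp_eq.2 h6)⟩⟩
  exact ⟨fun S => f (i S), fun S S' e => Subtype.ext (congrArg (fun x => x.1) (h1 e)),
    fun S => h2 (i S)⟩

theorem goodG {T T' : X → Prop} (h : num a T ≤ num b T') (hc : ∀ x y, T x → T' y → Cp a b x y) :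
    Good2 a b T := by
  obtain ⟨f⟩ := Cardinal.le_def _ _ |>.1 h
  refine ⟨fun S => (f S).1, Subtype.val_injective.comp f.injective, fun S => ?_⟩
  obtain ⟨x, h1, h2⟩ := S.2
  obtain ⟨y, h3, h4⟩ := (f S).2
  exact ⟨x, y, h2, h4, hc x y h1 h3⟩

theorem glue2 (h : ∀ κ, Good2 a b fun x => Sp a x ∧ cl2 a x = κ) : Good2 a b (Sp a) := by
  choose f h1 x y h2 h3 h4 using h
  have hc : ∀ κ S, cl2 a (x κ S) = κ := fun κ S => by
    obtain ⟨u, ⟨-, h5⟩, h6⟩ := S.2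
    exact (cl2_cn (comp_eq.1 ((h2 κ S).symm.trans h6))).trans h5
  have k : ∀ κ κ' S S', f κ S = f κ' S' → S.1 = S'.1 := by
    intro κ κ' S S' e
    obtain rfl : κ = κ' := by
      rw [← hc κ S, ← hc κ' S', (h4 κ S).cl, (h4 κ' S').cl]
      exact cl2_cn (comp_eq.1 ((h3 κ S).symm.trans (e.trans (h3 κ' S'))))
    exact congrArg Subtype.val (h1 κ e)
  exact ⟨fun S => f (cl2 a S.2.choose) ⟨S.1, _, ⟨S.2.choose_spec.1, rfl⟩, S.2.choose_spec.2⟩,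
    fun S S' e => Subtype.ext (k _ _ _ _ e), fun S => ⟨_, _, h2 _ ⟨S.1, _⟩, h3 _ _, h4 _ _⟩⟩

theorem chu {k j : ℕ} {x y : X} (h : Ch a k x) (h' : Ch a j y) (e : comp a x = comp a y) :
    k = j := by
  obtain rfl := teru h.1 h'.1 e
  exact le_antisymm (h.2.1.elim fun _ h1 => h'.le h1) (h'.2.1.elim fun _ h1 => h.le h1)

theorem goodH (h : HallI a b) : Good2 a b fun x => ∃ k, k ≠ 0 ∧ Ch a k x := by
  have e1 : ∀ S : {S // ∃ x, (∃ k, k ≠ 0 ∧ Ch a k x) ∧ S = comp a x},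
      ∃ k x, k ≠ 0 ∧ Ch a k x ∧ S.1 = comp a x := fun ⟨_, x, ⟨k, h1, h2⟩, h3⟩ => ⟨k, x, h1, h2, h3⟩
  have e2 : ∀ S : {S // ∃ x, (∃ k, Ch b k x) ∧ S = comp b x},
      ∃ k x, Ch b k x ∧ S.1 = comp b x := fun ⟨_, x, ⟨k, h2⟩, h3⟩ => ⟨k, x, h2, h3⟩
  choose p x p0 p1 p2 using e1
  choose q y q1 q2 using e2
  obtain ⟨f, h1, h2⟩ := hall3 p q fun i K => by
    refine le_trans (Cardinal.mk_le_of_injective (f := fun S => ⟨S.1.1, x S.1,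
      ⟨p S.1, max_le S.2.1 (Nat.pos_of_ne_zero (p0 S.1)), S.2.2, p1 S.1⟩, p2 S.1⟩)
        fun S S' e => ?_) ((h (max i 1) K (le_max_right _ _)).trans
        (Cardinal.mk_le_of_injective (f := fun S => ⟨⟨S.1, by
          obtain ⟨z, ⟨j, -, -, h3⟩, h4⟩ := S.2
          exact ⟨z, ⟨j, h3⟩, h4⟩⟩, by
          obtain ⟨S, z, ⟨j, h5, h6, h3⟩, h4⟩ := S
          rw [Set.mem_ofPred_eq, chu (q1 _) h3 ((q2 _).symm.trans h4)]
          exact ⟨(le_max_left _ _).trans h5, h6⟩⟩) fun S S' e => ?_))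
    · exact Subtype.ext (Subtype.ext (congrArg (fun x => x.1) e))
    · exact Subtype.ext (congrArg (fun x => x.1.1) e)
  exact ⟨fun S => (f S).1, Subtype.val_injective.comp h1, fun S => ⟨x S, y (f S), p2 S, q2 _,
    .inr (.inr (.inr (.inr ⟨_, _, p1 S, q1 _, h2 S⟩)))⟩⟩

theorem goodAll (h : Cond a b) : Good2 a b (Sp a) := by
  classical
  obtain ⟨h1, h2, h3, h4, h5⟩ := h
  refine glue2 fun κ => ?_
  by_cases c1 : ∃ k, 0 < k ∧ κ.1.1 k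
  · refine (goodG (h1 _ (Nat.find_spec c1).1)
      fun x y k1 k2 => .inl ⟨_, (Nat.find_spec c1).1, k1, k2⟩).mono ?_
    rintro x ⟨-, rfl⟩
    exact ⟨x, ⟨(Nat.find_spec c1).2, fun m h5 h6 h7 => Nat.find_min c1 h6 ⟨h5, h7⟩⟩, .rfl⟩
  by_cases c2 : κ.1.2
  · by_cases c3 : κ.2
    · refine (goodG h2 fun x y k1 k2 => .inr (.inl ⟨k1, k2⟩)).mono ?_
      rintro x ⟨-, rfl⟩
      exact ⟨x, ⟨⟨c2, fun n hn h => c1 ⟨n, hn, h⟩⟩, c3⟩, .rfl⟩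
    · refine (goodG h3 fun x y k1 k2 => .inr (.inr (.inl ⟨k1, k2⟩))).mono ?_
      rintro x ⟨-, rfl⟩
      exact ⟨x, ⟨⟨c2, fun n hn h => c1 ⟨n, hn, h⟩⟩, c3⟩, .rfl⟩
  have key : ∀ x, (¬ ∀ n, ∃ u, St a n x u) → ∃ n t, St a n x t ∧ a t = none := by
    intro x hx
    by_contra c
    push Not at c
    refine hx fun n => ?_
    induction n with
    | zero => exact ⟨x, st0.2 rfl⟩
    | succ n ih =>
      obtain ⟨u, hu⟩ := ih
      obtain ⟨z, hz⟩ := Option.ne_none_iff_exists'.1 (c n u hu)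
      exact ⟨z, hu.add (st1.2 hz)⟩
  by_cases c3 : κ.2
  · refine (goodG h4 fun x y k1 k2 => .inr (.inr (.inr (.inl ⟨k1, k2⟩)))).mono ?_
    rintro x ⟨-, rfl⟩
    obtain ⟨n, t, k1, k2⟩ := key x c2
    exact ⟨t, ⟨k2, fun m _ => (c3 m).elim fun u hu => (hu.add k1).down (Nat.le_add_right _ _)⟩,
      n, .inl k1⟩
  refine (goodH h5).mono ?_
  rintro x ⟨hx, rfl⟩
  obtain ⟨n, t, k1, k2⟩ := key x c2
  obtain ⟨k, k3, k4⟩ := init (a := a) (x := t) fun c =>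
    c3 fun m => (c (m + n)).imp fun u hu => hu.subR k1
  refine ⟨t, ⟨k, ?_, k2, k3, k4⟩, n, .inl k1⟩
  rintro rfl
  cases n with
  | zero =>
    obtain rfl := st0.1 k1
    obtain ⟨y, h8 | h8⟩ := hx
    · simp [k2] at h8
    · exact k4 ⟨y, st1.2 h8⟩
  | succ n => exact k4 (k1.down (by omega))

theorem suff2 (h : Cond a b) (h' : Cond b a) : PC a b := by
  obtain ⟨f, f1, f2⟩ := goodAll h
  obtain ⟨g, g1, g2⟩ := goodAll h'
  obtain ⟨M, m1, m2, m3, m4⟩ := md (RC a b) _ _ f g f1 g1 f2 fun S => by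
    obtain ⟨y, x, k1, k2, k3⟩ := g2 S
    exact ⟨x, y, k2, k1, k3.symm⟩
  have : ∀ S S', M S S' → ∃ x y, S = comp a x ∧ S' = comp b y ∧ Emb2 a b x y := fun S S' k => by
    obtain ⟨x, y, k1, k2, k3⟩ := m1 S S' k
    obtain ⟨x', y', k4, k5, k6⟩ := k3.emb
    exact ⟨x', y', k1.trans (comp_eq.2 k4), k2.trans (comp_eq.2 k5), k6⟩
  choose x y k1 k2 k3 using this
  refine build2 (fun u v => ∃ S S' k, u = x S S' k ∧ v = y S S' k) ?_ ?_ (fun u hu => ?_)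
    fun u hu => ?_
  · rintro _ _ ⟨S, S', k, rfl, rfl⟩
    exact k3 S S' k
  · rintro _ _ _ _ ⟨S, S', k, rfl, rfl⟩ ⟨T, T', l, rfl, rfl⟩ c
    obtain ⟨rfl, rfl⟩ := m2 S S' T T' k l (c.imp
      (fun c => (k1 _ _ k).trans ((comp_eq.2 c).trans (k1 _ _ l).symm))
      fun c => (k2 _ _ k).trans ((comp_eq.2 c).trans (k2 _ _ l).symm))
    exact ⟨rfl, rfl⟩
  · obtain ⟨S', k⟩ := m3 (comp a u) ⟨u, hu, rfl⟩
    exact ⟨_, _, ⟨_, _, k, rfl, rfl⟩, comp_eq.1 (k1 _ _ k).symm⟩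
  · obtain ⟨S', k⟩ := m4 (comp b u) ⟨u, hu, rfl⟩
    exact ⟨_, _, ⟨_, _, k, rfl, rfl⟩, comp_eq.1 (k2 _ _ k).symm⟩

theorem main2 (a b : X ≃. X) : PC a b ↔ (∀ n, 1 ≤ n → num a (Cyc a n) = num b (Cyc b n)) ∧
    num a (Dbl a) = num b (Dbl b) ∧ num a (Rr a) = num b (Rr b) ∧
      num a (Ter a ⊤) = num b (Ter b ⊤) ∧ HallI a b ∧ HallI b a := by
  constructor
  · rintro ⟨u, v, rfl, rfl⟩
    obtain ⟨a1, a2, a3, a4, a5⟩ := nec2 u v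
    obtain ⟨b1, b2, b3, b4, b5⟩ := nec2 v u
    exact ⟨fun n hn => le_antisymm (a1 n hn) (b1 n hn), le_antisymm a2 b2, le_antisymm a3 b3,
      le_antisymm a4 b4, a5, b5⟩
  · rintro ⟨h1, h2, h3, h4, h5, h6⟩
    exact suff2 ⟨fun n hn => (h1 n hn).le, h2.le, h3.le, h4.le, h5⟩
      ⟨fun n hn => (h1 n hn).ge, h2.ge, h3.ge, h4.ge, h6⟩

end Pool.Agent.H32.Ix
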