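import Mathlib

set_option autoImplicit false

namespace Pool.Agent.H32.Ix

open Cardinal

universe u

theorem rank {A : Type u} (S : Set A) : ∃ o : A → Ordinal.{u}, Set.InjOn o S ∧
    ∀ a ∈ S, #{b // b ∈ S ∧ o b < o a} < #S := by
  classical
  obtain ⟨r, wo, h⟩ := Cardinal.exists_ord_eq S
  refine ⟨fun a => if h : a ∈ S then Ordinal.typein r ⟨a, h⟩ else 0, fun a ha b hb e => ?_,
    fun a ha => ?_⟩
  · simp only [ha, hb, dif_pos] at e
    exact congrArg Subtype.val ((Ordinal.typein r).injective e)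
  · refine lt_of_le_of_lt ?_ (Cardinal.card_typein_lt (r := r) ⟨a, ha⟩ h)
    rw [Ordinal.card_typein]
    refine Cardinal.mk_le_of_injective (f := fun b => ⟨⟨b.1, b.2.1⟩, by
      have := b.2.2
      simp only [ha, b.2.1, dif_pos] at this
      exact (Ordinal.typein_lt_typein r).1 this⟩) fun a b e => ?_
    exact Subtype.ext (congrArg (fun x => x.1.1) e)

theorem hall {A B : Type u} (p : A → ℕ∞) (q : B → ℕ∞)
    (h : ∀ k, #{a // k ≤ p a} ≤ #{b // k ≤ q b}) :
    ∃ f : A → B, Function.Injective f ∧ ∀ a, p a ≤ q (f a) := by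
  classical
  let c : A → Cardinal := fun a => #{b // p a ≤ q b}
  have hS : ∀ T : Set A, T.Nonempty → ∃ a ∈ T, #T ≤ c a := by
    intro T hT
    obtain ⟨a, ha, h1⟩ := (InvImage.wf p wellFounded_lt).has_min T hT
    exact ⟨a, ha, le_trans (Cardinal.mk_le_mk_of_subset (t := {b | p a ≤ p b})
      fun b hb => not_lt.1 (h1 b hb)) (h (p a))⟩
  choose o ho1 ho2 using fun κ : Cardinal.{u} => rank {a | c a = κ}
  let R : A → A → Prop := fun b a => Prod.Lex (· < ·) (· < ·) (c b, o (c b) b) (c a, o (c a) a)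
  have wf : WellFounded R := InvImage.wf (fun a => (c a, o (c a) a))
    (WellFounded.prod_lex wellFounded_lt wellFounded_lt)
  have key : ∀ a, #{b // R b a} < c a := by
    intro a
    obtain ⟨a1, h1, h2⟩ := hS {b | c b ≤ c a} ⟨a, le_refl (c a)⟩
    have h3 : #{b | c b < c a} + #{b | c b = c a} ≤ c a := by
      rw [← Cardinal.mk_union_of_disjoint (by
        rw [Set.disjoint_left]; exact fun b hb hb' => ne_of_lt hb hb')]
      exact (Cardinal.mk_le_mk_of_subset (t := {b | c b ≤ c a})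
        fun b hb => show c b ≤ c a from le_iff_lt_or_eq.2 hb).trans (h2.trans (show c a1 ≤ c a from h1))
    have h4 := ho2 (c a) a rfl
    have h5 : #{b // R b a} ≤ #{b | c b < c a} +
        #{b // b ∈ {b | c b = c a} ∧ o (c a) b < o (c a) a} := by
      refine le_trans (Cardinal.mk_le_mk_of_subset (s := {b | R b a}) fun b hb => ?_)
        (Cardinal.mk_union_le _ {b | b ∈ {b | c b = c a} ∧ o (c a) b < o (c a) a})
      rcases Prod.lex_def.1 hb with h | ⟨h, h'⟩
      · exact .inl h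
      · exact .inr ⟨h, by simp only at h h'; rwa [h] at h'⟩
    refine h5.trans_lt ?_
    rcases lt_or_ge (c a) ℵ₀ with hf | hf
    · exact lt_of_lt_of_le ((Cardinal.add_lt_add_iff_of_left_lt_aleph0
        ((le_self_add.trans h3).trans_lt hf)).2 h4) h3
    · refine Cardinal.add_lt_of_lt hf ?_ (h4.trans_le (le_add_self.trans h3))
      rcases Set.eq_empty_or_nonempty {b | c b < c a} with e | e
      · rw [e]; simpa using Cardinal.aleph0_pos.trans_le hf
      · obtain ⟨a2, h6, h7⟩ := hS _ e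
        exact h7.trans_lt h6
  have ex : ∀ a (g : ∀ b, R b a → B), ∃ y, p a ≤ q y ∧ ∀ b h, g b h ≠ y := by
    intro a g
    by_contra hn
    push Not at hn
    refine (key a).not_ge ?_
    choose k hk e using hn
    refine Cardinal.mk_le_of_injective (f := fun y : {b // p a ≤ q b} =>
      (⟨k y.1 y.2, hk y.1 y.2⟩ : {b // R b a})) fun y y' e1 => Subtype.ext ?_
    rw [← e y.1 y.2, ← e y'.1 y'.2]
    have := congrArg Subtype.val e1
    simp only at this
    simp only [this]
  choose F hF1 hF2 using ex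
  let f : A → B := wf.fix F
  have hf : ∀ a, f a = F a fun b _ => f b := fun a => wf.fix_eq F a
  have hn : ∀ a b, R b a → f b ≠ f a := fun a b h => by rw [hf a]; exact hF2 a (fun b _ => f b) b h
  refine ⟨f, fun a b e => ?_, fun a => by rw [hf a]; exact hF1 a _⟩
  by_contra hab
  rcases lt_trichotomy (c a) (c b) with h1 | h1 | h1
  · exact hn b a (Prod.lex_def.2 (.inl h1)) e
  · rcases lt_trichotomy (o (c a) a) (o (c b) b) with h2 | h2 | h2
    · exact hn b a (Prod.lex_def.2 (.inr ⟨h1, h2⟩)) e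
    · exact hab (ho1 (c b) h1 rfl (by rwa [h1] at h2))
    · exact hn a b (Prod.lex_def.2 (.inr ⟨h1.symm, h2⟩)) e.symm
  · exact hn a b (Prod.lex_def.2 (.inl h1)) e.symm

theorem hall2 {A B : Type u} (P : ℕ∞ → A → Prop) (Q : ℕ∞ → B → Prop)
    (h : ∀ k, #{a // P k a} ≤ #{b // Q k b}) (hQ : ∀ k b, Q k b → Q 0 b)
    (sP : ∀ a, P 0 a → ∃ p, ∀ k, k ≤ p ↔ P k a) (sQ : ∀ b, Q 0 b → ∃ q, ∀ k, k ≤ q ↔ Q k b) :
    ∃ f : {a // P 0 a} → B, Function.Injective f ∧ ∀ a k, P k a.1 → Q k (f a) := by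
  choose p hp using sP
  choose q hq using sQ
  obtain ⟨f, h1, h2⟩ := hall (A := {a // P 0 a}) (B := {b // Q 0 b}) (fun a => p a.1 a.2)
    (fun b => q b.1 b.2) fun k => by
      refine le_trans (Cardinal.mk_le_of_injective (f := fun a => (⟨a.1.1, (hp _ _ _).1 a.2⟩ :
        {a // P k a})) fun a b e => ?_) ((h k).trans (Cardinal.mk_le_of_injective
          (f := fun b => ⟨⟨b.1, hQ k _ b.2⟩, (hq _ _ _).2 b.2⟩) fun a b e => ?_))
      · exact Subtype.ext (Subtype.ext (congrArg (fun x => x.1) e))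
      · exact Subtype.ext (congrArg (fun x => x.1.1) e)
  exact ⟨fun a => (f a).1, Subtype.val_injective.comp h1, fun a k hk =>
    (hq _ (f a).2 k).1 (((hp _ a.2 k).2 hk).trans (h2 a))⟩

end Pool.Agent.H32.Ix
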