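import Mathlib

set_option autoImplicit false

namespace Pool.Agent.H32.JT

open Classical in
/-- The elementary symmetric function `e_m` in the `i`-th infinite sequence of variables
`x^(i)_0, x^(i)_1, ...`, as a formal power series in all variables `x^(i)_j`: the sum of all
squarefree monomials in exactly `m` variables of the `i`-th sequence.  It is `1` for `m = 0`
and `0` for `m < 0`. -/
noncomputable def E {k : ℕ} (i : Fin k) (m : ℤ) : MvPowerSeries (Fin k × ℕ) ℤ :=
  fun d => if (∀ s, d s ≤ 1) ∧ (∀ s, d s ≠ 0 → s.1 = i) ∧ (d.support.card : ℤ) = m then 1 else 0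

/-- The `n × n` dual Jacobi-Trudi matrix with entries `e_{(lam a - a) - (mu b - b)}` in the `i`-th
sequence of variables. -/
noncomputable def JT {k n : ℕ} (i : Fin k) (lam mu : Fin n → ℕ) :
    Matrix (Fin n) (Fin n) (MvPowerSeries (Fin k × ℕ) ℤ) :=
  Matrix.of fun a b => E i (((lam a : ℤ) - (a : ℕ)) - ((mu b : ℤ) - (b : ℕ)))

end Pool.Agent.H32.JT
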