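import Mathlib
import Pool.Agent.H32.JTDefs

set_option autoImplicit false

namespace Pool.Agent.H32.JT
open Finset

/-- exponent vector of a squarefree monomial -/
noncomputable def ex {N : ℕ} (i : Fin 2) (t : Finset (Fin N)) : Fin 2 × Fin N →₀ ℕ :=
  Finsupp.equivFunOnFinite.symm fun s => if s.1 = i ∧ s.2 ∈ t then 1 else 0

lemma ex_apply {N : ℕ} (i : Fin 2) (t : Finset (Fin N)) (s : Fin 2 × Fin N) :
    ex i t s = if s.1 = i ∧ s.2 ∈ t then 1 else 0 := rfl

lemma ex_inj {N : ℕ} (i : Fin 2) : Function.Injective (ex (N := N) i) := by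
  intro t t' h
  ext a
  have := DFunLike.congr_fun h (i, a)
  simp only [ex_apply, true_and] at this
  by_cases h1 : a ∈ t <;> by_cases h2 : a ∈ t' <;> simp_all

noncomputable def pe (N : ℕ) (i : Fin 2) (m : ℕ) : MvPolynomial (Fin 2 × Fin N) ℤ :=
  ∑ d ∈ (powersetCard m (univ : Finset (Fin N))).image (ex i), MvPolynomial.monomial d 1

lemma eval_pe (N : ℕ) (i : Fin 2) (m : ℕ) :
    MvPolynomial.eval (fun _ => (1 : ℤ)) (pe N i m) = (N.choose m : ℤ) := by
  simp [pe, MvPolynomial.eval_monomial, card_image_of_injective _ (ex_inj i)]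

def emb {N : ℕ} (π : Fin 2 → Equiv.Perm (Fin N)) : Fin 2 × Fin N ↪ Fin 2 × ℕ :=
  ⟨fun s => (s.1, (π s.1 s.2 : ℕ)), by
    rintro ⟨i, a⟩ ⟨j, b⟩ h
    simp only [Prod.mk.injEq] at h
    obtain ⟨rfl, h⟩ := h
    simp only [Prod.mk.injEq, true_and]
    exact (π i).injective (Fin.ext h)⟩

lemma mem_iff {N : ℕ} (i : Fin 2) (m : ℕ) (d : Fin 2 × Fin N →₀ ℕ) :
    d ∈ (powersetCard m (univ : Finset (Fin N))).image (ex i) ↔
      (∀ s, d s ≤ 1) ∧ (∀ s, d s ≠ 0 → s.1 = i) ∧ d.support.card = m := by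
  have hsup : ∀ t : Finset (Fin N), (ex i t).support.card = t.card := by
    intro t
    have : (ex i t).support = t.map ⟨fun a => (i, a), fun a b h => by simpa using h⟩ := by
      ext ⟨j, a⟩
      simp only [Finsupp.mem_support_iff, ex_apply, mem_map, Function.Embedding.coeFn_mk,
        Prod.mk.injEq]
      constructor
      · intro h
        by_cases h1 : j = i ∧ a ∈ t
        · exact ⟨a, h1.2, h1.1.symm, rfl⟩
        · simp [h1] at h
      · rintro ⟨b, hb, rfl, rfl⟩
        simp [hb]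
    rw [this, card_map]
  simp only [mem_image, mem_powersetCard, subset_univ, true_and]
  constructor
  · rintro ⟨t, rfl, rfl⟩
    refine ⟨fun s => ?_, fun s hs => ?_, hsup t⟩
    · rw [ex_apply]; split_ifs <;> omega
    · rw [ex_apply] at hs
      by_contra h
      simp [h] at hs
  · rintro ⟨h1, h2, h3⟩
    have hd : ex i (univ.filter fun a => d (i, a) ≠ 0) = d := by
      ext ⟨j, a⟩
      rw [ex_apply]
      simp only [mem_filter, mem_univ, true_and]
      have a1 := h1 (j, a)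
      have a2 := h2 (j, a)
      by_cases hj : j = i
      · subst hj
        simp only [true_and]
        split_ifs with h <;> omega
      · rw [if_neg (fun h => hj h.1)]
        by_contra h
        exact hj (a2 (fun h' => h h'.symm))
    refine ⟨_, ?_, hd⟩
    rw [← hsup, hd, h3]

lemma kill_E {N : ℕ} (π : Fin 2 → Equiv.Perm (Fin N)) (i : Fin 2) (m : ℕ) :
    MvPowerSeries.killCompl (emb π) (E i (m : ℤ)) =
      (pe N i m : MvPowerSeries (Fin 2 × Fin N) ℤ) := by
  classical
  ext d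
  rw [MvPowerSeries.coeff_killCompl, MvPolynomial.coeff_coe, pe, MvPolynomial.coeff_sum]
  simp only [MvPolynomial.coeff_monomial, sum_ite_eq', mem_iff]
  rw [MvPowerSeries.coeff_apply, E]
  have key : ((∀ s, Finsupp.embDomain (emb π) d s ≤ 1) ∧
      (∀ s, Finsupp.embDomain (emb π) d s ≠ 0 → s.1 = i) ∧
      ((Finsupp.embDomain (emb π) d).support.card : ℤ) = m) ↔
      ((∀ s, d s ≤ 1) ∧ (∀ s, d s ≠ 0 → s.1 = i) ∧ d.support.card = m) := by
    rw [Finsupp.support_embDomain, card_map, Nat.cast_inj]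
    refine and_congr ⟨fun h s => ?_, fun h s => ?_⟩ (and_congr ⟨fun h s hs => ?_, fun h s hs => ?_⟩
      Iff.rfl)
    · have := h (emb π s)
      rwa [Finsupp.embDomain_apply_self] at this
    · by_cases hs : s ∈ Set.range (emb π)
      · obtain ⟨u, rfl⟩ := hs
        rw [Finsupp.embDomain_apply_self]; exact h u
      · rw [Finsupp.embDomain_of_notMem_range _ _ _ hs]; omega
    · exact h (emb π s) (by rwa [Finsupp.embDomain_apply_self])
    · by_cases hr : s ∈ Set.range (emb π)
      · obtain ⟨u, rfl⟩ := hr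
        rw [Finsupp.embDomain_apply_self] at hs
        exact h u hs
      · exact absurd (Finsupp.embDomain_of_notMem_range _ _ _ hr) hs
  by_cases hc : (∀ s, d s ≤ 1) ∧ (∀ s, d s ≠ 0 → s.1 = i) ∧ d.support.card = m
  · rw [if_pos hc, if_pos (key.mpr hc)]
  · rw [if_neg hc, if_neg (fun h => hc (key.mp h))]

def ia : Matrix (Fin 3) (Fin 3) ℕ := !![13, 16, 17; 12, 15, 16; 9, 12, 13]
def ib : Matrix (Fin 3) (Fin 3) ℕ := !![17, 18, 21; 14, 15, 18; 13, 14, 17]

noncomputable def F : MvPowerSeries (Fin 2 × ℕ) ℤ :=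
  (Matrix.of fun a b => E 0 (ia a b : ℤ) * E 1 (ib a b : ℤ)).det

noncomputable def P (N : ℕ) : MvPolynomial (Fin 2 × Fin N) ℤ :=
  (Matrix.of fun a b => pe N 0 (ia a b) * pe N 1 (ib a b)).det

lemma kill_F {N : ℕ} (π : Fin 2 → Equiv.Perm (Fin N)) :
    MvPowerSeries.killCompl (emb π) F = (P N : MvPowerSeries (Fin 2 × Fin N) ℤ) := by
  have h1 := (MvPowerSeries.killCompl (R := ℤ) (emb π)).map_det
    (Matrix.of fun a b => E 0 (ia a b : ℤ) * E 1 (ib a b : ℤ))
  have h2 := (MvPolynomial.coeToMvPowerSeries.ringHom (σ := Fin 2 × Fin N) (R := ℤ)).map_det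
    (Matrix.of fun a b => pe N 0 (ia a b) * pe N 1 (ib a b))
  rw [F, h1]
  change _ = MvPolynomial.coeToMvPowerSeries.ringHom (P N)
  rw [P, h2]
  congr 1
  ext a b : 2
  simp only [AlgHom.mapMatrix_apply, RingHom.mapMatrix_apply, Matrix.map_apply, Matrix.of_apply,
    map_mul, kill_E]
  rfl

def cv (N : ℕ) : Matrix (Fin 3) (Fin 3) ℤ := fun a b =>
  ((N.descFactorial (ia a b) / (ia a b).factorial : ℕ) : ℤ) *
    ((N.descFactorial (ib a b) / (ib a b).factorial : ℕ) : ℤ)

lemma eval_P' (N : ℕ) : MvPolynomial.eval (fun _ => (1 : ℤ)) (P N) = (cv N).det := by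
  rw [P, RingHom.map_det]
  congr 1
  ext a b
  simp only [RingHom.mapMatrix_apply, Matrix.map_apply, Matrix.of_apply, map_mul, eval_pe,
    Nat.choose_eq_descFactorial_div_factorial, cv]

lemma eval_P : MvPolynomial.eval (fun _ => (1 : ℤ)) (P 1000) < 0 := by
  rw [eval_P', Matrix.det_fin_three]
  decide +kernel

lemma neg_coeff : ∃ d, MvPolynomial.coeff d (P 1000) < 0 := by
  by_contra h
  push Not at h
  have := eval_P
  rw [MvPolynomial.eval_eq] at this
  simp only [one_pow, prod_const_one, mul_one] at this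
  exact absurd this (not_lt.mpr (sum_nonneg fun d _ => h d))

theorem main : ∃ d : Fin 2 × ℕ →₀ ℕ, (∀ i, Antitone fun j => d (i, j)) ∧
    MvPowerSeries.coeff d F < 0 := by
  obtain ⟨d, hd⟩ := neg_coeff
  let π : Fin 2 → Equiv.Perm (Fin 1000) := fun i =>
    (Tuple.sort fun a => OrderDual.toDual (d (i, a))).symm
  refine ⟨Finsupp.embDomain (emb π) d, fun i j j' hj => ?_, ?_⟩
  · have val : ∀ a : Fin 1000, Finsupp.embDomain (emb π) d (i, (a : ℕ)) = d (i, (π i).symm a) := by
      intro a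
      have : (i, (a : ℕ)) = emb π (i, (π i).symm a) := by simp [emb]
      rw [this, Finsupp.embDomain_apply_self]
    by_cases h : j' < 1000
    · have h1 := val ⟨j', h⟩
      have h2 := val ⟨j, by omega⟩
      simp only at h1 h2
      simp only [h1, h2]
      exact Tuple.monotone_sort (fun a => OrderDual.toDual (d (i, a)))
        (show (⟨j, by omega⟩ : Fin 1000) ≤ ⟨j', h⟩ from hj)
    · have : (i, j') ∉ Set.range (emb π) := by
        rintro ⟨u, hu⟩
        have := congrArg Prod.snd hu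
        simp only [emb, Function.Embedding.coeFn_mk] at this
        have := (π u.1 u.2).isLt
        omega
      simp only [Finsupp.embDomain_of_notMem_range _ _ _ this, Nat.zero_le]
  · rw [← MvPowerSeries.coeff_killCompl, kill_F, MvPolynomial.coeff_coe]
    exact hd

def lam : Fin 2 → Fin 3 → ℕ := ![![15, 15, 13], ![19, 17, 17]]
def mu : Fin 2 → Fin 3 → ℕ := ![![2, 0, 0], ![2, 2, 0]]

lemma idx0 (a b : Fin 3) :
    (((lam 0 a : ℤ) - (a : ℕ)) - ((mu 0 b : ℤ) - (b : ℕ))) = (ia a b : ℤ) := by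
  revert a b; decide

lemma idx1 (a b : Fin 3) :
    (((lam 1 a : ℤ) - (a : ℕ)) - ((mu 1 b : ℤ) - (b : ℕ))) = (ib a b : ℤ) := by
  revert a b; decide

lemma F_eq : (Matrix.of fun a b => JT (0 : Fin 2) (lam 0) (mu 0) a b *
    JT (1 : Fin 2) (lam 1) (mu 1) a b).det = F := by
  simp only [JT, Matrix.of_apply, idx0, idx1, F]

end Pool.Agent.H32.JT
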