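import Mathlib

set_option autoImplicit false

namespace Pool.Agent.H32.LowRam

open Finset

def G (n b a m : ℕ) : SimpleGraph (Fin n) :=
  SimpleGraph.fromRel fun u v => b ≤ v.val ∧ (b ≤ u.val ∨ ∃ t < m, v.val = b + (u.val * m + t) % a)

theorem adj {n b a m : ℕ} {u v : Fin n} : (G n b a m).Adj u v ↔ u ≠ v ∧
    ((b ≤ v.val ∧ (b ≤ u.val ∨ ∃ t < m, v.val = b + (u.val * m + t) % a)) ∨
      (b ≤ u.val ∧ (b ≤ v.val ∨ ∃ t < m, u.val = b + (v.val * m + t) % a))) := by
  simp [G]

theorem card_lt (n k : ℕ) (h : k ≤ n) : #{v : Fin n | v.val < k} = k := by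
  rw [Fin.card_filter_val_lt]
  omega

theorem indep (n l m p q : ℕ) (hp : 1 ≤ p) (hq : 1 ≤ q) (h : l * m ≤ p * q)
    (hn : l + m + p + q ≤ n) (S : Finset (Fin n))
    (hS : Maximal (G n (l + q) (m + p) m).IsIndepSet (S : Set (Fin n))) : l + 1 ≤ #S := by
  classical
  have key : ∀ j : Fin n, (∀ u ∈ S, ¬ (G n (l + q) (m + p) m).Adj u j) → j ∈ S := by
    intro j hj
    have h1 : (G n (l + q) (m + p) m).IsIndepSet (insert j (S : Set (Fin n))) := by
      intro x hx y hy hxy
      rcases hx with rfl | hx <;> rcases hy with rfl | hy
      · exact absurd rfl hxy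
      · exact fun h => hj y hy h.symm
      · exact hj x hx
      · exact hS.1 hx hy hxy
    exact hS.2 h1 (Set.subset_insert _ _) (Set.mem_insert _ _)
  by_cases hK : ∃ u ∈ S, l + q ≤ u.val
  · obtain ⟨u, hu, hu'⟩ := hK
    let I : Finset (Fin n) := {v : Fin n | v.val < l + q}
    let N : Finset (Fin n) := {v ∈ I | ∃ t < m, u.val = l + q + (v.val * m + t) % (m + p)}
    have hN : #N ≤ q := by
      have hc : ∀ v ∈ N, ∃ t < m, u.val = l + q + (v.val * m + t) % (m + p) :=
        fun v hv => (mem_filter.1 hv).2
      choose! f hf1 hf2 using hc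
      rw [← card_range q]
      refine card_le_card_of_injOn (fun v => (v.val * m + f v) / (m + p)) (fun v hv => ?_)
        (fun v hv w hw hvw => ?_)
      · have h1 := hf1 v hv
        have h2 : v.val + 1 ≤ l + q := (mem_filter.1 (mem_filter.1 hv).1).2
        simp only [coe_range, Set.mem_Iio]
        rw [Nat.div_lt_iff_lt_mul (by omega)]
        have := Nat.mul_le_mul_right m h2
        nlinarith
      · have h1 := hf2 v hv
        have h2 := hf2 w hw
        have h3 : v.val * m + f v = w.val * m + f w := by
          rw [← Nat.div_add_mod (v.val * m + f v) (m + p), ← Nat.div_add_mod (w.val * m + f w) (m + p)]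
          simp only at hvw
          rw [hvw]
          omega
        have h4 := hf1 v hv
        have h5 := hf1 w hw
        apply Fin.ext
        rcases lt_trichotomy v.val w.val with h6 | h6 | h6
        · have := Nat.mul_le_mul_right m (Nat.succ_le_of_lt h6)
          simp only [Nat.succ_mul] at this
          omega
        · exact h6
        · have := Nat.mul_le_mul_right m (Nat.succ_le_of_lt h6)
          simp only [Nat.succ_mul] at this
          omega
    have hsub : insert u (I \ N) ⊆ S := by
      intro j hj
      rcases mem_insert.1 hj with rfl | hj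
      · exact hu
      · obtain ⟨h1, h2⟩ := mem_sdiff.1 hj
        have h3 : j.val < l + q := (mem_filter.1 h1).2
        refine key j fun w hw hadj => ?_
        have h4 := adj.1 hadj
        have h5 : l + q ≤ w.val := by omega
        by_cases hwu : w = u
        · subst hwu
          refine h2 (mem_filter.2 ⟨h1, ?_⟩)
          rcases h4.2 with h6 | h6
          · omega
          · rcases h6.2 with h7 | h7
            · omega
            · exact h7
        · exact hS.1 hw hu hwu (adj.2 ⟨hwu, Or.inl ⟨hu', Or.inl h5⟩⟩)
    have h1 := card_le_card hsub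
    rw [card_insert_of_notMem (by simp [I]; omega)] at h1
    have h2 := le_card_sdiff N I
    have h3 : #I = l + q := card_lt n _ (by omega)
    omega
  · push Not at hK
    have hsub : ({v : Fin n | v.val < l + q} : Finset (Fin n)) ⊆ S := by
      intro j hj
      have h3 : j.val < l + q := (mem_filter.1 hj).2
      refine key j fun w hw hadj => ?_
      have h4 := adj.1 hadj
      have := hK w hw
      omega
    have h1 := card_le_card hsub
    rw [card_lt n _ (by omega)] at h1
    omega

theorem clique (n l m p q : ℕ) (hp : 1 ≤ p) (hn : l + m + p + q ≤ n) (S : Finset (Fin n))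
    (hS : Maximal (G n (l + q) (m + p) m).IsClique (S : Set (Fin n))) : m + 1 ≤ #S := by
  classical
  have key : ∀ j : Fin n, (∀ u ∈ S, u ≠ j → (G n (l + q) (m + p) m).Adj u j) → j ∈ S := by
    intro j hj
    have h1 : (G n (l + q) (m + p) m).IsClique (insert j (S : Set (Fin n))) := by
      intro x hx y hy hxy
      rcases hx with rfl | hx <;> rcases hy with rfl | hy
      · exact absurd rfl hxy
      · exact (hj y hy hxy.symm).symm
      · exact hj x hx hxy
      · exact hS.1 hx hy hxy
    exact hS.2 h1 (Set.subset_insert _ _) (Set.mem_insert _ _)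
  have hlt : ∀ x, x % (m + p) < m + p := fun x => Nat.mod_lt _ (by omega)
  by_cases hK : ∃ u ∈ S, u.val < l + q
  · obtain ⟨u, hu, hu'⟩ := hK
    let f : ℕ → Fin n := fun t => ⟨l + q + (u.val * m + t) % (m + p), by
      have := hlt (u.val * m + t); omega⟩
    have hsub : insert u ((range m).image f) ⊆ S := by
      intro j hj
      rcases mem_insert.1 hj with rfl | hj
      · exact hu
      · obtain ⟨t, ht, rfl⟩ := mem_image.1 hj
        refine key _ fun w hw hne => adj.2 ⟨hne, Or.inl ⟨by simp [f], ?_⟩⟩
        by_cases hwu : w = u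
        · subst hwu
          exact Or.inr ⟨t, mem_range.1 ht, rfl⟩
        · have := adj.1 (hS.1 hw hu hwu)
          omega
    have h1 := card_le_card hsub
    rw [card_insert_of_notMem, card_image_of_injOn, card_range] at h1
    · exact h1
    · intro s hs t ht hst
      have h2 : (u.val * m + s) % (m + p) = (u.val * m + t) % (m + p) := by
        have := congrArg Fin.val hst
        simpa [f] using this
      have h3 : s ≡ t [MOD (m + p)] := Nat.ModEq.add_left_cancel' _ h2
      simp only [coe_range, Set.mem_Iio] at hs ht
      exact Nat.ModEq.eq_of_lt_of_lt h3 (by omega) (by omega)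
    · intro hu2
      obtain ⟨t, -, ht⟩ := mem_image.1 hu2
      have := congrArg Fin.val ht
      simp only [f] at this
      omega
  · push Not at hK
    have hsub : univ \ ({v : Fin n | v.val < l + q} : Finset (Fin n)) ⊆ S := by
      intro j hj
      have h3 : l + q ≤ j.val := by simpa using hj
      exact key j fun w hw hne => adj.2 ⟨hne, Or.inl ⟨h3, Or.inl (hK w hw)⟩⟩
    have h1 := card_le_card hsub
    have h2 := le_card_sdiff ({v : Fin n | v.val < l + q} : Finset (Fin n)) univ
    rw [card_lt n _ (by omega), card_univ, Fintype.card_fin] at h2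
    omega

end Pool.Agent.H32.LowRam
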