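import Pool.Agent.H32.MonDefs2

set_option autoImplicit false

namespace Pool.Agent.H32.Lr

/-- every rule is length-reducing -/
def LenRed {A : Type} (R : Set (List A × List A)) : Prop :=
  ∀ x y, (x, y) ∈ R → y.length < x.length

end Pool.Agent.H32.Lr
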