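import Pool.Agent.H32.MonB
import Pool.Agent.H32.LrDefs

set_option autoImplicit false

namespace Pool.Agent.H32.Lr

open Relation
open Mon (Step Confluent cls cls_eq rt_ctx tri suf)

section gen
variable {A : Type} {R : Set (List A × List A)}

theorem step_lt (hm : LenRed R) {a b : List A} (h : Step R a b) : b.length < a.length := by
  obtain ⟨p, q, x, y, h, rfl, rfl⟩ := h
  have := hm x y h
  simp
  omega

theorem rt_eq (hm : LenRed R) {a b : List A} (h : ReflTransGen (Step R) a b) :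
    a = b ∨ b.length < a.length := by
  induction h with
  | refl => exact .inl rfl
  | tail _ h ih =>
    have := step_lt hm h
    rcases ih with rfl | ih <;> exact .inr (by omega)

theorem newman' (hm : LenRed R) (h : ∀ u v w, Step R u v → Step R u w →
    ∃ z, ReflTransGen (Step R) v z ∧ ReflTransGen (Step R) w z) : Confluent R := by
  intro u
  induction hn : u.length using Nat.strong_induction_on generalizing u with
  | _ n ih =>
  have hl : ∀ a, Step R u a → a.length < n := fun a h => hn ▸ step_lt hm h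
  intro v w hv hw
  rcases hv.cases_head with rfl | ⟨a, ha, hv⟩
  · exact ⟨w, hw, .refl⟩
  rcases hw.cases_head with rfl | ⟨b, hb, hw⟩
  · exact ⟨v, .refl, hv.head ha⟩
  obtain ⟨c, h1, h2⟩ := h u a b ha hb
  obtain ⟨d, h3, h4⟩ := ih _ (hl a ha) a rfl v c hv h1
  obtain ⟨e, h5, h6⟩ := ih _ (hl b hb) b rfl w d hw (h2.trans h4)
  exact ⟨e, h3.trans h6, h5⟩

theorem nf (hm : LenRed R) (a : List A) :
    ∃ b, ReflTransGen (Step R) a b ∧ ∀ c, ¬ Step R b c := by
  induction hn : a.length using Nat.strong_induction_on generalizing a with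
  | _ n ih =>
  by_cases h : ∃ c, Step R a c
  · obtain ⟨c, h⟩ := h
    obtain ⟨b, h1, h2⟩ := ih _ (hn ▸ step_lt hm h) c rfl
    exact ⟨b, h1.head h, h2⟩
  · exact ⟨a, .refl, fun c hc => h ⟨c, hc⟩⟩

end gen

inductive Ab (Q C : Type) : Type
  | p | B | z | w (c : C) | E (q : Q) | F (q : Q) (c : C) | S (q : Q) (c : C)

open Ab

instance {Q C : Type} [Finite Q] [Finite C] : Finite (Ab Q C) :=
  Finite.of_surjective (fun a : Fin 7 × Option Q × Option C => match a with
    | (0, _, _) => p | (1, _, _) => B | (3, _, some c) => w c | (4, some q, _) => E q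
    | (5, some q, some c) => F q c | (6, some q, some c) => S q c | _ => (z : Ab Q C)) (by
    rintro (_ | _ | _ | c | q | ⟨q, c⟩ | ⟨q, c⟩)
    exacts [⟨(0, none, none), rfl⟩, ⟨(1, none, none), rfl⟩, ⟨(2, none, none), rfl⟩,
      ⟨(3, none, some c), rfl⟩, ⟨(4, some q, none), rfl⟩, ⟨(5, some q, some c), rfl⟩,
      ⟨(6, some q, some c), rfl⟩])

variable {Q C : Type} (δ : Q → C → Q × List C) (f : Q) (L : ℕ)

inductive Rl : List (Ab Q C) → Ab Q C → Ab Q C → List (Ab Q C) → Prop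
  | pw (c) : Rl [p] p (w c) [w c, p]
  | pb : Rl [p] p B [B, p]
  | pe (q) : Rl [p] p (E q) [E q, p]
  | fe (q c r) : Rl [p] (F q c) (E r) [E r, F q c]
  | fb (q c) : Rl [F q c] B (w c) [B, S q c]
  | sw (q c d) : Rl [p] (S q c) (w d) [w d, S q c]
  | se (q c) : (δ q c).1 ≠ f →
      Rl (List.replicate L p) (S q c) (E q) ((δ q c).2.map w ++ [E (δ q c).1])
  | sz (q c) : (δ q c).1 = f → Rl (List.replicate L p) (S q c) (E q) [z]

def RR : Set (List (Ab Q C) × List (Ab Q C)) :=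
  {r | (∃ k s t y, Rl δ f L k s t y ∧ r = (k ++ [s] ++ [t], y)) ∨
    ∃ a, r = ([z, a], [z]) ∨ r = ([a, z], [z])}

variable {δ f L}

theorem lenred (hL : ∀ q c, (δ q c).2.length ≤ L) : LenRed (RR δ f L) := by
  rintro a b (⟨k, s, t, y, hn, h⟩ | ⟨a, h | h⟩) <;> cases h
  · cases hn <;> simp
    exact hL _ _
  · simp
  · simp

theorem finite [Finite Q] [Finite C] (hL : ∀ q c, (δ q c).2.length ≤ L) : (RR δ f L).Finite := by
  refine ((List.finite_length_le _ (L + 3)).prod (List.finite_length_le _ (L + 3))).subset ?_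
  rintro ⟨a, b⟩ h
  have := lenred hL a b h
  have h1 : a.length ≤ L + 3 := by
    rcases h with ⟨k, s, t, y, hn, h⟩ | ⟨a, h | h⟩ <;> cases h
    · cases hn <;> simp
    · simp
    · simp
  exact ⟨h1, by simp only [Set.mem_ofPred_eq]; omega⟩

theorem zero_of {x : List (Ab Q C)} (hp : z ∈ x) : ReflTransGen (Step (RR δ f L)) x [z] := by
  obtain ⟨u, v, rfl⟩ := List.append_of_mem hp
  clear hp
  induction u with
  | nil =>
    induction v with
    | nil => exact .refl
    | cons a v ih => exact .head ⟨[], v, _, _, .inr ⟨a, .inl rfl⟩, rfl, rfl⟩ ih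
  | cons a u ih =>
    exact .tail (by simpa using rt_ctx ih [a] []) ⟨[], [], _, _, .inr ⟨a, .inr rfl⟩, rfl, rfl⟩

theorem stepc {a b : List (Ab Q C)} (h : Step (RR δ f L) a b) : (z ∈ a ∧ z ∈ b) ∨ (∃ u v k s t y,
    Rl δ f L k s t y ∧ a = u ++ (k ++ [s]) ++ t :: v ∧ b = u ++ y ++ v) := by
  obtain ⟨u, v, x, y, h, rfl, rfl⟩ := h
  rcases h with ⟨k, s, t, y, hn, h⟩ | ⟨a, h | h⟩ <;> cases h
  · exact .inr ⟨u, v, k, s, t, _, hn, by simp, rfl⟩
  · simp
  · simp

theorem Rl.st {k y : List (Ab Q C)} {s t : Ab Q C} (h : Rl δ f L k s t y) (u v : List (Ab Q C)) :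
    Step (RR δ f L) (u ++ (k ++ [s]) ++ t :: v) (u ++ y ++ v) :=
  ⟨u, v, _, _, .inl ⟨k, s, t, y, h, rfl⟩, by simp, rfl⟩

theorem zkeep {a b : List (Ab Q C)} (h : Step (RR δ f L) a b) (hz : z ∈ a) : z ∈ b := by
  rcases stepc h with h1 | ⟨u, v, k, s, t, y, h1, rfl, rfl⟩
  · exact h1.2
  · clear h
    cases h1 <;> simp at hz ⊢ <;> tauto

theorem sp {k y k' y' u u' m : List (Ab Q C)} {s t s' t' : Ab Q C} (h : Rl δ f L k s t y)
    (h' : Rl δ f L k' s' t' y') (e : u' ++ (k' ++ [s']) = u ++ (k ++ [s]) ++ t :: m) :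
    ∃ m', m = m' ++ (k' ++ [s']) ∧ u' = u ++ (k ++ [s]) ++ t :: m' := by
  by_cases c : t ∈ k' ++ [s']
  · have : ∃ q c, k' = [F q c] ∧ s' = B ∧ s = p ∧ t = B := by
      cases h <;> cases h' <;> first | exact ⟨_, _, rfl, rfl, rfl, rfl⟩ | simp at c
    obtain ⟨q, c1, rfl, rfl, rfl, rfl⟩ := this
    rcases List.eq_nil_or_concat m with rfl | ⟨m1, a, rfl⟩
    · have := congrArg (fun l => l.reverse) e
      simp at this
    · have e' : (u' ++ [F q c1]) ++ [B] = (u ++ (k ++ [p]) ++ B :: m1) ++ [a] := by simpa using e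
      obtain ⟨e1, e2⟩ := List.append_inj' e' rfl
      obtain ⟨m', rfl, h2⟩ := suf e1 (by simp)
      exact ⟨m', by simp_all, h2⟩
  · exact suf e c

theorem confluent (hL : ∀ q c, (δ q c).2.length ≤ L) : Confluent (RR δ f L) := by
  refine newman' (lenred hL) fun a b c hb hc => ?_
  rcases stepc hb with h | ⟨u, v, k, s, t, y, h, rfl, rfl⟩
  · exact ⟨_, zero_of h.2, zero_of (zkeep hc h.1)⟩
  rcases stepc hc with h' | ⟨u', v', k', s', t', y', h', e, rfl⟩
  · exact ⟨_, zero_of (zkeep hb h'.1), zero_of h'.2⟩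
  rcases tri e with ⟨e1, rfl, rfl⟩ | ⟨m, e1, rfl⟩ | ⟨m, e1, rfl⟩
  · have e2 : (u ++ k) ++ [s] = (u' ++ k') ++ [s'] := by simpa using e1
    obtain ⟨e3, e4⟩ := List.append_inj' e2 rfl
    obtain rfl : s = s' := by simpa using e4
    have : k = k' ∧ y = y' := by
      cases h <;> cases h' <;> simp_all
    obtain ⟨rfl, rfl⟩ := this
    rw [List.append_cancel_right e3]
    exact ⟨_, .refl, .refl⟩
  · obtain ⟨m', rfl, rfl⟩ := sp h h' e1
    exact ⟨u ++ y ++ m' ++ y' ++ v', .single (by simpa using h'.st (u ++ y ++ m') v'),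
      .single (by simpa using h.st u (m' ++ y' ++ v'))⟩
  · obtain ⟨m', rfl, rfl⟩ := sp h' h e1
    exact ⟨u' ++ y' ++ m' ++ y ++ v, .single (by simpa using h'.st u' (m' ++ y ++ v)),
      .single (by simpa using h.st (u' ++ y' ++ m') v)⟩

end Pool.Agent.H32.Lr
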