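import Pool.Agent.H32.LrA

set_option autoImplicit false

namespace Pool.Agent.H32.Lr

open Relation Ab
open Mon (Step Confluent cls cls_eq rt_ctx tri suf con)

variable {Q C : Type} (δ : Q → C → Q × List C) (f : Q) (L : ℕ)

abbrev RT := ReflTransGen (Step (RR δ f L))

def NZ (x : List (Ab Q C)) : Prop := ∀ y, RT δ f L x y → z ∉ y

def Mv (a b : Q × List C) : Prop := ∃ q c l, a = (q, c :: l) ∧ b = ((δ q c).1, l ++ (δ q c).2)

def Halts (a : Q × List C) : Prop := ∃ l, ReflTransGen (Mv δ) a (f, l)

variable {δ f L}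

theorem split {A : Type} {u k v y T : List A} {t : A} (h : u ++ k ++ t :: v = y ++ T) :
    (∃ a, y = u ++ k ++ t :: a ∧ v = a ++ T) ∨ (∃ a c, y = u ++ a ∧ k = a ++ c ∧ T = c ++ t :: v) ∨
      ∃ d, u = y ++ d ∧ T = d ++ k ++ t :: v := by
  rcases List.append_eq_append_iff.1 h with ⟨m, h1, h2⟩ | ⟨m, h1, h2⟩
  · cases m with
    | nil => exact .inr (.inl ⟨k, [], by simpa using h1, by simp, by simpa using h2.symm⟩)
    | cons a m =>
      obtain ⟨rfl, rfl⟩ := List.cons.inj h2
      exact .inl ⟨m, h1, rfl⟩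
  · rcases List.append_eq_append_iff.1 h1 with ⟨n, h3, h4⟩ | ⟨n, h3, h4⟩
    · exact .inr (.inl ⟨n, m, h3, h4, h2⟩)
    · exact .inr (.inr ⟨n, h3, by simp [h2, h4]⟩)

def na : Ab Q C → Prop
  | z => False | E _ => False | _ => True

theorem Rl.na {k y : List (Ab Q C)} {s t : Ab Q C} (h : Rl δ f L k s t y) (ht : na t) :
    ∀ a ∈ y, na a := by
  cases h <;> simp_all [Lr.na]

theorem nzA {X T : List (Ab Q C)} (hX : NZ δ f L X) (hT : ∀ a ∈ T, na a) : NZ δ f L (X ++ T) := by
  have : ∀ x, RT δ f L (X ++ T) x →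
      ∃ y r T', x = y ++ T' ∧ RT δ f L X (y ++ r) ∧ ∀ a ∈ T', na a := by
    intro x hx
    induction hx with
    | refl => exact ⟨X, [], T, rfl, by simpa using .refl, hT⟩
    | tail _ h ih =>
      obtain ⟨y, r, T', rfl, h1, h2⟩ := ih
      rcases stepc h with h3 | ⟨u, v, k, s, t, o, h3, e, rfl⟩
      · rcases List.mem_append.1 h3.1 with h4 | h4
        · exact (hX _ h1 (by simp [h4])).elim
        · exact (h2 _ h4).elim
      rcases split e.symm with ⟨a, rfl, rfl⟩ | ⟨a, c, rfl, e2, rfl⟩ | ⟨d, rfl, rfl⟩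
      · exact ⟨u ++ o ++ a, r, T', by simp, h1.tail (by simpa using h3.st u (a ++ r)), h2⟩
      · refine ⟨u, a ++ r, o ++ v, by simp, by simpa using h1, fun b hb => ?_⟩
        rcases List.mem_append.1 hb with hb | hb
        exacts [h3.na (h2 _ (by simp)) b hb, h2 b (by simp [hb])]
      · refine ⟨y, r, d ++ (o ++ v), by simp, h1, fun b hb => ?_⟩
        rcases List.mem_append.1 hb with hb | hb
        · exact h2 b (by simp [hb])
        rcases List.mem_append.1 hb with hb | hb
        exacts [h3.na (h2 _ (by simp)) b hb, h2 b (by simp [hb])]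
  intro x hx hz
  obtain ⟨y, r, T', rfl, h1, h2⟩ := this x hx
  rcases List.mem_append.1 hz with h4 | h4
  · exact hX _ h1 (by simp [h4])
  · exact h2 _ h4

def ok : Ab Q C → Prop
  | p => True | w _ => True | S _ _ => True | _ => False

def sl : Ab Q C → Option C
  | S _ c => some c | _ => none

def wl : Ab Q C → Option C
  | w c => some c | _ => none

def tape (Z : List (Ab Q C)) : List C := (Z.filterMap sl).reverse ++ Z.filterMap wl

theorem fp (n : ℕ) : (List.replicate n (p : Ab Q C)).filterMap wl = [] ∧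
    (List.replicate n (p : Ab Q C)).filterMap sl = [] := by
  simp [wl, sl]

theorem nzB {X : List (Ab Q C)} (hX : NZ δ f L X) {q0 : Q} {l : List C}
    (hn : ¬ Halts δ f (q0, l)) : NZ δ f L (X ++ B :: (l.map w ++ [E q0])) := by
  have key : ∀ x, RT δ f L (X ++ B :: (l.map w ++ [E q0])) x → ∃ y r Z q T,
      x = y ++ B :: (Z ++ E q :: T) ∧ RT δ f L X (y ++ r) ∧ (∀ a ∈ Z, ok a) ∧ (∀ a ∈ T, a = p) ∧
        ReflTransGen (Mv δ) (q0, l) (q, tape Z) := by
    intro x hx
    induction hx with
    | refl =>
      exact ⟨X, [], l.map w, q0, [], rfl, by simpa using .refl, by simp [ok], by simp,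
        by simpa [tape, sl, wl] using .refl⟩
    | tail _ h ih =>
      obtain ⟨y, r, Z, q, T, rfl, h1, h2, h3, h4⟩ := ih
      rcases stepc h with h5 | ⟨u, v, k, s, t, o, h5, e, rfl⟩
      · have := h5.1
        simp only [List.mem_append, List.mem_cons, reduceCtorEq, false_or] at this
        rcases this with h6 | h6 | h6
        exacts [(hX _ h1 (by simp [h6])).elim, (h2 _ h6).elim, by simpa using h3 _ h6]
      clear h
      rcases tri e.symm with ⟨rfl, rfl, rfl⟩ | ⟨m, rfl, rfl⟩ | ⟨m, e1, e2⟩
      · cases h5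
        exact ⟨u, [p, p] ++ r, p :: Z, q, T, by simp, by simpa using h1, by simpa [ok] using h2, h3,
          by simpa [tape, sl, wl, List.filterMap_cons] using h4⟩
      · exact ⟨u ++ o ++ m, r, Z, q, T, by simp, h1.tail (by simpa using h5.st u (m ++ r)),
          h2, h3, h4⟩
      rcases tri e2 with ⟨rfl, rfl, rfl⟩ | ⟨n, rfl, rfl⟩ | ⟨n, rfl, rfl⟩
      · obtain ⟨m', rfl, rfl⟩ := suf e1 (by cases h5 <;> simp)
        have h7 : ∀ a ∈ m', ok a := fun a ha => h2 a (by simp [ha])
        have h8 : ∀ c, Mv δ (q, tape (m' ++ (List.replicate L p ++ [S q c])))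
            ((δ q c).1, tape (m' ++ (δ q c).2.map w)) := fun c =>
          ⟨q, c, tape m', by simp [tape, fp, sl, wl, List.filterMap_cons],
            by simp [tape, sl, wl]⟩
        cases h5 with
        | pe =>
          exact ⟨y, r, m', q, p :: T, by simp, h1, h7, by simpa using h3,
            by simpa [tape, sl, wl, List.filterMap_cons] using h4⟩
        | fe q' c => exact (h2 (F q' c) (by simp)).elim
        | se _ c =>
          refine ⟨y, r, m' ++ (δ q c).2.map w, (δ q c).1, T, by simp, h1, fun a ha => ?_, h3,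
            h4.tail (h8 c)⟩
          rcases List.mem_append.1 ha with ha | ha
          · exact h7 a ha
          · obtain ⟨d, -, rfl⟩ := List.mem_map.1 ha
            trivial
        | sz _ c hc => exact (hn ⟨_, hc ▸ h4.tail (h8 c)⟩).elim
      · have := h3 t (by simp)
        cases h5 <;> simp at this
      · by_cases hB : B ∈ k ++ [s]
        · have : ∃ q' c, k = [F q' c] ∧ s = B ∧ t = w c ∧ o = [B, S q' c] := by
            have := h2 t (by simp)
            cases h5 <;> first | exact ⟨_, _, rfl, rfl, rfl, rfl⟩ | simp [ok] at hB this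
          obtain ⟨q', c, rfl, rfl, rfl, rfl⟩ := this
          have e3 : (u ++ [F q' c]) ++ B :: [] = y ++ B :: m := by simpa using e1
          obtain ⟨rfl, rfl⟩ : u ++ [F q' c] = y ∧ [] = m := by
            rcases tri e3 with ⟨h6, -, h7⟩ | ⟨a, -, h7⟩ | ⟨a, -, h7⟩
            · exact ⟨h6, h7⟩
            · simp at h7
            · exact (h2 B (by simp [h7])).elim
          exact ⟨u, F q' c :: r, S q' c :: n, q, T, by simp, by simpa using h1,
            by simpa [ok] using h2, h3, by simpa [tape, sl, wl, List.filterMap_cons] using h4⟩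
        obtain ⟨m', rfl, rfl⟩ := suf e1 hB
        have h7 := h2 t (by simp)
        have h8 := h2 s (by simp)
        refine ⟨y, r, m' ++ o ++ n, q, T, by simp, h1, fun a ha => ?_, h3, ?_⟩
        · simp only [List.mem_append] at ha
          rcases ha with (ha | ha) | ha
          · exact h2 a (by simp [ha])
          · clear h2 h4
            revert a
            cases h5 <;> simp [ok] at h7 h8 ⊢
          · exact h2 a (by simp [ha])
        · clear h2
          cases h5 <;> simp [ok] at h7 h8 <;>
            simpa [tape, sl, wl, List.filterMap_cons] using h4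
  intro x hx hz
  obtain ⟨y, r, Z, q, T, rfl, h1, h2, h3, h4⟩ := key x hx
  simp only [List.mem_append, List.mem_cons, reduceCtorEq, false_or] at hz
  rcases hz with h6 | h6 | h6
  exacts [hX _ h1 (by simp [h6]), h2 _ h6, by simpa using h3 _ h6]

end Pool.Agent.H32.Lr
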