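import Pool.Agent.H32.LrB

set_option autoImplicit false

namespace Pool.Agent.H32.Lr

open Relation Ab
open Mon (Step Confluent cls cls_eq rt_ctx tri suf con IsZ PP CConj dl dl_val)

variable {Q C : Type} {δ : Q → C → Q × List C} {f : Q} {L : ℕ}

def pf : Ab Q C → Prop
  | p => True | F _ _ => True | E _ => True | _ => False

theorem nzP {X : List (Ab Q C)} (hX : ∀ a ∈ X, pf a) : NZ δ f L X := by
  have : ∀ x, RT δ f L X x → ∀ a ∈ x, pf a := by
    intro x hx
    induction hx with
    | refl => exact hX
    | tail _ h ih =>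
      rcases stepc h with h3 | ⟨u, v, k, s, t, o, h3, rfl, rfl⟩
      · exact (ih _ h3.1).elim
      have h7 := ih t (by simp)
      have h8 := ih s (by simp)
      intro a ha
      simp only [List.mem_append] at ha
      rcases ha with (ha | ha) | ha
      · exact ih a (by simp [ha])
      · clear ih h
        revert a
        cases h3 <;> simp [pf] at h7 h8 ⊢
      · exact ih a (by simp [ha])
  exact fun x hx hz => this x hx _ hz

theorem pass1 {x : Ab Q C} (h : Rl δ f L [p] p x [x, p]) (k : ℕ) :
    RT δ f L (List.replicate (2 * k) p ++ [x]) (x :: List.replicate k p) := by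
  induction k with
  | zero => exact .refl
  | succ k ih =>
    have e : List.replicate (2 * (k + 1)) (p : Ab Q C) = List.replicate (2 * k) p ++ [p, p] := by
      rw [show 2 * (k + 1) = 2 * k + 2 from rfl, List.replicate_add]; rfl
    rw [e, List.replicate_succ']
    exact .head (by simpa using h.st (List.replicate (2 * k) p) []) (by simpa using rt_ctx ih [] [p])

theorem pass {Y : List (Ab Q C)} (h : ∀ x ∈ Y, Rl δ f L [p] p x [x, p]) (k : ℕ) :
    ∃ N, RT δ f L (List.replicate N p ++ Y) (Y ++ List.replicate k p) := by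
  induction Y with
  | nil => exact ⟨k, by simpa using .refl⟩
  | cons x Y ih =>
    obtain ⟨N, h1⟩ := ih fun a ha => h a (by simp [ha])
    exact ⟨2 * N, .trans (by simpa using rt_ctx (pass1 (h x (by simp)) N) [] Y)
      (by simpa using rt_ctx h1 [x] [])⟩

variable (δ f L) in
def Go (X Y : List (Ab Q C)) : Prop := ∃ m, (∀ a ∈ m, pf a) ∧ RT δ f L (m ++ X) Y

theorem Go.trans {X Y W : List (Ab Q C)} (h : Go δ f L X Y) (h' : Go δ f L Y W) : Go δ f L X W := by
  obtain ⟨m, h1, h2⟩ := h
  obtain ⟨n, h3, h4⟩ := h'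
  refine ⟨n ++ m, fun a ha => ?_, .trans (by simpa using rt_ctx h2 n []) h4⟩
  rcases List.mem_append.1 ha with ha | ha
  exacts [h3 a ha, h1 a ha]

theorem go1 {X Y : List (Ab Q C)} (h : Step (RR δ f L) X Y) : Go δ f L X Y :=
  ⟨[], by simp, .single h⟩

theorem goP (r : Q) (l : List C) (k : ℕ) (V : List (Ab Q C)) :
    Go δ f L (E r :: B :: (l.map w ++ V)) (E r :: B :: (l.map w ++ (List.replicate k p ++ V))) := by
  obtain ⟨N, h⟩ := pass (δ := δ) (f := f) (L := L) (Y := E r :: B :: l.map w) (by
    simp only [List.mem_cons, List.mem_map]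
    rintro _ (rfl | rfl | ⟨c, -, rfl⟩)
    exacts [.pe _, .pb, .pw _]) k
  exact ⟨List.replicate N p, fun a ha => by rw [List.eq_of_mem_replicate ha]; trivial,
    by simpa using rt_ctx h [] V⟩

theorem goS (r q : Q) (c : C) (l l' : List C) (V : List (Ab Q C)) :
    Go δ f L (E r :: B :: (l.map w ++ S q c :: (l'.map w ++ V)))
      (E r :: B :: ((l ++ l').map w ++ S q c :: V)) := by
  induction l' generalizing l with
  | nil => exact ⟨[], by simp, by simpa using .refl⟩
  | cons d l' ih =>
    refine (goP r l 1 _).trans (.trans (go1 ?_) (by simpa using ih (l ++ [d])))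
    simpa using (Rl.sw q c d).st (E r :: B :: l.map w) (l'.map w ++ V)

theorem goM (r q : Q) (c : C) (l : List C) :
    Go δ f L (E r :: B :: ((c :: l).map w ++ [E q]))
      (E r :: B :: (l.map w ++ (List.replicate L p ++ [S q c, E q]))) := by
  refine .trans (Y := E r :: B :: S q c :: (l.map w ++ [E q])) ⟨[p, F q c], by simp [pf], ?_⟩
    (.trans (by simpa using goS r q c [] l [E q]) (goP r l L _))
  exact .tail (.single ((Rl.fe q c r).st [] (B :: ((c :: l).map w ++ [E q]))))
    ((Rl.fb q c).st [E r] (l.map w ++ [E q]))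

theorem goH (r : Q) {a : Q × List C} (h : Halts δ f a) (hq : a.1 ≠ f) :
    ∃ Y, z ∈ Y ∧ Go δ f L (E r :: B :: (a.2.map w ++ [E a.1])) Y := by
  obtain ⟨l', h⟩ := h
  induction h using ReflTransGen.head_induction_on with
  | refl => exact (hq rfl).elim
  | head hs _ ih =>
    obtain ⟨q, c, l, rfl, rfl⟩ := hs
    by_cases hc : (δ q c).1 = f
    · exact ⟨E r :: B :: (l.map w ++ [z]), by simp, (goM r q c l).trans
        (go1 (by simpa using (Rl.sz q c hc).st (E r :: B :: l.map w) []))⟩
    · obtain ⟨Y, h1, h2⟩ := ih hc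
      exact ⟨Y, h1, (goM r q c l).trans (.trans
        (go1 (by simpa using (Rl.se q c hc).st (E r :: B :: l.map w) [])) h2)⟩

theorem app {A : Type} {R : Set (List A × List A)} (u v : List A) :
    cls R u * cls R v = cls R (u ++ v) := by simp [cls]

theorem surj {A : Type} {R : Set (List A × List A)} (x : (con R).Quotient) : ∃ u, cls R u = x :=
  Con.mk'_surjective x

theorem NZ.left {X T : List (Ab Q C)} (h : NZ δ f L (X ++ T)) : NZ δ f L X := fun y hy hz =>
  h (y ++ T) (by simpa using rt_ctx hy [] T) (by simp [hz])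

theorem isz (hL : ∀ q c, (δ q c).2.length ≤ L) (x : List (Ab Q C)) :
    IsZ (cls (RR δ f L) x) ↔ ¬ NZ δ f L x := by
  constructor
  · intro h hn
    have := (h (cls _ [z])).1
    rw [app, cls_eq (confluent hL)] at this
    obtain ⟨d, h1, h2⟩ := this
    refine hn d h2 ?_
    clear h2
    induction h1 with
    | refl => simp
    | tail _ h ih => exact zkeep h ih
  · intro h g
    obtain ⟨g, rfl⟩ := surj g
    simp only [NZ, not_forall, not_not] at h
    obtain ⟨y, h1, h2⟩ := h
    rw [app, app, cls_eq (confluent hL), cls_eq (confluent hL)]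
    exact ⟨⟨[z], .trans (by simpa using rt_ctx h1 [] g) (zero_of (x := y ++ g) (by simp [h2])),
      h1.trans (zero_of h2)⟩, ⟨[z], .trans (by simpa using rt_ctx h1 g [])
        (zero_of (x := g ++ y) (by simp [h2])), h1.trans (zero_of h2)⟩⟩

theorem key (hL : ∀ q c, (δ q c).2.length ≤ L) {q : Q} (hq : q ≠ f) (l : List C) :
    CConj (cls (RR δ f L) (E q :: B :: l.map w)) (cls (RR δ f L) (B :: (l.map w ++ [E q]))) ↔
      ¬ Halts δ f (q, l) := by
  have hT : ∀ a ∈ (B : Ab Q C) :: l.map w, na a := by simp [na]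
  have ha : ∀ m, (∀ a ∈ m, pf a) → NZ δ f L (m ++ E q :: B :: l.map w) := fun m hm => by
    have := nzA (nzP (δ := δ) (f := f) (L := L) (X := m ++ [E q]) (by
      simpa [or_imp, forall_and, pf] using hm)) hT
    rwa [List.append_assoc] at this
  have ha0 : ¬ IsZ (cls (RR δ f L) (E q :: B :: l.map w)) := by
    simpa [isz hL] using ha [] (by simp)
  constructor
  · rintro ⟨g, -, hg, -, e, -⟩ hh
    obtain ⟨g0, rfl⟩ := surj g
    obtain ⟨g, h1, h2⟩ := nf (lenred (f := f) hL) g0
    rw [(cls_eq (confluent hL)).2 ⟨g, h1, .refl⟩] at hg e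
    have hg := hg.2 ha0
    by_cases hz : z ∈ g
    · refine ha0 (one_mul (cls (RR δ f L) (E q :: B :: l.map w)) ▸ hg 1 ?_)
      rw [one_mul, app, isz hL]
      exact fun h => h _ .refl (by simp [hz])
    rw [app, app, cls_eq (confluent hL)] at e
    obtain ⟨d, h3, h4⟩ := e
    obtain rfl : E q :: B :: l.map w ++ g = d := by
      rcases h3.cases_head with h | ⟨c, h, -⟩
      · exact h
      rcases stepc h with h5 | ⟨u, v, k, s, t, o, h5, e, -⟩
      · exact (hz (by simpa using h5.1)).elim
      rcases split e.symm with ⟨a, e1, -⟩ | ⟨a, c, e1, e2, rfl⟩ | ⟨d, -, rfl⟩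
      · have : ∀ x ∈ k ++ [s], x ∈ E q :: B :: l.map w := fun x hx => by
          rw [e1]; exact List.mem_append_left _ (List.mem_append_right _ hx)
        clear e1 e h
        cases h5 <;> simp [or_imp, forall_and] at this
      · cases a with
        | nil =>
          obtain rfl : k ++ [s] = c := e2
          exact (h2 _ (by simpa using h5.st [] v)).elim
        | cons b a =>
          have : b ∈ E q :: B :: l.map w := by rw [e1]; simp
          have h6 : (k ++ [s]).head? = some b := by rw [e2]; rfl
          clear e2 e h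
          cases h5 <;> cases L <;> simp [List.replicate_succ] at h6 <;> simp [← h6] at this
      · exact (h2 _ (h5.st d v)).elim
    have e := (rt_eq (lenred hL) h4).resolve_right (by simp; omega)
    cases g with
    | nil => simp at e
    | cons b g =>
      obtain rfl : b = E q := (List.cons.inj e).1
      obtain ⟨Y, h5, m, h6, h7⟩ := goH (L := L) q hh hq
      have := hg (cls _ m)
      rw [app, app, isz hL, isz hL] at this
      exact this (fun h => h (Y ++ g) (by simpa using rt_ctx h7 [] g) (by simp [h5])) (ha m h6)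
  · intro hh
    refine ⟨cls _ [E q], cls _ (B :: l.map w), ⟨fun h => (ha0 h).elim, fun _ m => ?_⟩,
      ⟨fun h => ?_, fun _ m => ?_⟩, by simp [app], by simp [app]⟩
    · obtain ⟨m, rfl⟩ := surj m
      rw [app, app, isz hL, isz hL]
      refine fun h h' => h ?_
      have := nzB (NZ.left (X := m ++ [E q]) (T := B :: l.map w) (by simpa using h')) hh
      rw [List.append_assoc] at this
      simpa using this
    · rw [isz hL] at h
      exact (h (by simpa using nzB (nzP (X := []) (by simp)) hh)).elim
    · obtain ⟨m, rfl⟩ := surj m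
      rw [app, app, isz hL, isz hL]
      exact fun h h' => h (nzA h' hT)

open Pool.Agent.H38.CM

theorem queue (P : W) (q : Option (St P)) (l : List (Fin (bd P))) :
    Halts (dl P) none (q, l) ↔ ∃ l', ReflTransGen (QStep P) (q, l.map Fin.val) (none, l') := by
  constructor
  · rintro ⟨l', h⟩
    generalize e : (q, l) = o at h
    induction h using ReflTransGen.head_induction_on generalizing q l with
    | refl => exact ⟨_, by rw [show q = none from congrArg Prod.fst e]⟩
    | head hs _ ih =>
      obtain ⟨q', c, r, rfl, rfl⟩ := hs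
      obtain ⟨rfl, rfl⟩ := Prod.mk.inj e
      cases q with
      | none => exact ⟨_, .refl⟩
      | some q =>
        obtain ⟨l1, h'⟩ := ih _ _ rfl
        exact ⟨l1, .head ⟨q, c, r.map Fin.val, rfl, by simp [dl_val]; rfl⟩ h'⟩
  · rintro ⟨l', h⟩
    generalize e : (q, l.map Fin.val) = o at h
    induction h using ReflTransGen.head_induction_on generalizing q l with
    | refl => exact ⟨l, by rw [show q = none from congrArg Prod.fst e]⟩
    | head hs _ ih =>
      obtain ⟨q', c, r, rfl, rfl⟩ := hs
      obtain ⟨rfl, e'⟩ := Prod.mk.inj e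
      obtain ⟨c, l, rfl, rfl, rfl⟩ := List.map_eq_cons_iff.1 e'
      obtain ⟨J, h1⟩ := ih (dl P (some q') c).1 (l ++ (dl P (some q') c).2)
        (by simp [dl_val]; rfl)
      exact ⟨J, h1.head ⟨_, c, l, rfl, rfl⟩⟩

open Pool.Agent.H37 in
theorem main : ∃ (A : Type) (_ : Finite A) (_ : Primcodable A) (R : Set (List A × List A)),
    R.Finite ∧ LenRed R ∧ Confluent R ∧
      ¬ ComputablePred fun x : List A × List A => CConj (cls R x.1) (cls R x.2) := by
  obtain ⟨P, hP⟩ := exists_undec
  haveI := St.finite P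
  obtain ⟨L, hL⟩ := (Set.finite_range fun a : Option (St P) × Fin (bd P) =>
    (dl P a.1 a.2).2.length).bddAbove
  have hL' : ∀ q c, (dl P q c).2.length ≤ L := fun q c => hL ⟨(q, c), rfl⟩
  obtain ⟨n, ⟨e⟩⟩ := Finite.exists_equiv_fin (Ab (Option (St P)) (Fin (bd P)))
  letI := Primcodable.ofEquiv _ e
  refine ⟨_, inferInstance, inferInstance, RR (dl P) none L, finite hL', lenred hL', confluent hL',
    fun H => hP ?_⟩
  have h3 := bd_ge P
  obtain ⟨g, hg, e⟩ := ComputablePred.computable_iff.1 H.not
  let a : ℕ → List (Ab (Option (St P)) (Fin (bd P))) := fun n =>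
    List.replicate n (w ⟨2, by omega⟩) ++ [w ⟨0, by omega⟩]
  have ha : CI ∅ fun n => (E (some (entry P)) :: B :: a n, B :: (a n ++ [E (some (entry P))])) := by
    unfold a; fun_prop
  refine ComputablePred.computable_iff.2 ⟨_, hg.comp ha.computable, funext fun n => propext ?_⟩
  have := key (f := none) hL' (q := some (entry P)) (by simp)
    (List.replicate n ⟨2, by omega⟩ ++ [⟨0, by omega⟩])
  rw [queue P] at this
  rw [halts_iff P _ (List.replicate n 2) ⟨by simp, fun r => by
    by_cases hr : r = 0 <;> simp [init, hr, List.count_replicate]⟩, ← congrFun e (_, _)]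
  simpa [a] using this.not.symm

end Pool.Agent.H32.Lr
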