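import Mathlib

set_option autoImplicit false

/-! Weighted matrix-tree theorem in the form `det (L + J) = n ^ 2 * τ`. -/

namespace Pool.Agent.H32.MTree

open Finset Matrix Classical

variable {V : Type} [Fintype V]

def Good (f : V → V) (r : V) : Prop := f r = r ∧ ∀ v, ∃ k, f^[k] v = r

noncomputable def X (v u x : V) : ℝ :=
  if u = v then 1 else (if x = v then 1 else 0) - (if x = u then 1 else 0)

noncomputable def M (f : V → V) : Matrix V V ℝ := Matrix.of fun v x => X v (f v) x

omit [Fintype V] in
lemma Good.fix {f : V → V} {r : V} (h : Good f r) {v : V} (hv : f v = v) : v = r := by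
  obtain ⟨k, hk⟩ := h.2 v
  rw [Function.iterate_fixed hv] at hk
  exact hk

omit [Fintype V] in
lemma Good.depth {f : V → V} {r : V} (h : Good f r) :
    ∃ d : V → ℕ, ∀ v, v ≠ r → d (f v) < d v := by
  refine ⟨fun v => Nat.find (h.2 v), fun v hv => ?_⟩
  have h1 := Nat.find_spec (h.2 v)
  rcases hk : Nat.find (h.2 v) with _ | k
  · rw [hk] at h1
    exact absurd h1 hv
  · rw [hk, Function.iterate_succ_apply] at h1
    have := Nat.find_min' (h.2 (f v)) h1
    show Nat.find (h.2 (f v)) < Nat.find (h.2 v)
    omega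

lemma det_good {f : V → V} {r : V} (h : Good f r) : (M f).det = Fintype.card V := by
  obtain ⟨d, hd⟩ := h.depth
  set P : Matrix V V ℝ := Matrix.of fun v u =>
    (if u = v then 1 else 0) - (if v ≠ r ∧ u = f v then 1 else 0) with hP
  have hP1 : P.det = 1 := by
    rw [det_apply, Finset.sum_eq_single 1]
    · simp only [Equiv.Perm.sign_one, Equiv.Perm.coe_one, id_eq, one_smul]
      apply Finset.prod_eq_one
      intro v _
      have : ¬ (v ≠ r ∧ v = f v) := fun h' => h'.1 (h.fix h'.2.symm)
      simp [hP, this]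
    · intro σ _ hσ
      by_contra hne
      have hne' : ∏ i, P (σ i) i ≠ 0 := fun h0 => hne (by rw [h0]; simp)
      rw [Finset.prod_ne_zero_iff] at hne'
      have h1 : ∀ i, σ i = i ∨ d i < d (σ i) := by
        intro i
        by_contra hc
        push Not at hc
        apply hne' i (mem_univ _)
        have h2 : ¬ (σ i ≠ r ∧ i = f (σ i)) := by
          rintro ⟨h3, h4⟩
          have := hd _ h3
          rw [← h4] at this
          omega
        have h3 : ¬ i = σ i := fun e => hc.1 e.symm
        simp only [hP, Matrix.of_apply, if_neg h2, if_neg h3, sub_zero]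
      have h2 : ∑ i, d (σ i) = ∑ i, d i := Equiv.sum_comp σ d
      have h3 : ∀ i ∈ (univ : Finset V), d i ≤ d (σ i) := by
        intro i _
        rcases h1 i with h | h
        · rw [h]
        · exact h.le
      have h4 := (Finset.sum_eq_sum_iff_of_le h3).1 h2.symm
      apply hσ
      ext i
      rcases h1 i with h | h
      · simpa using h
      · have := h4 i (mem_univ _)
        omega
    · simp
  have hsum : ∀ v, ∑ x, P v x = if v = r then 1 else 0 := by
    intro v
    by_cases hv : v = r <;> simp [hP, Finset.sum_sub_distrib, hv]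
  have hM : M f = P * (1 + replicateCol Unit (fun _ : V => (1 : ℝ)) *
      replicateRow Unit (fun u : V => 1 - if u = r then (1 : ℝ) else 0)) := by
    ext v u
    rw [Matrix.mul_add, Matrix.mul_one, Matrix.add_apply, Matrix.mul_apply]
    simp only [Matrix.mul_apply, replicateCol_apply, replicateRow_apply, univ_unique,
      sum_singleton, one_mul]
    rw [← Finset.sum_mul, hsum]
    by_cases hv : v = r
    · subst hv
      simp [M, X, hP, h.1]
    · have : f v ≠ v := fun e => hv (h.fix e)
      simp [M, X, hP, hv, this]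
  rw [hM, det_mul, hP1, one_mul, det_one_add_replicateCol_mul_replicateRow]
  simp [dotProduct, Finset.sum_sub_distrib]

lemma det_bad [Nonempty V] {f : V → V} (h : ¬ ∃ r, Good f r) : (M f).det = 0 := by
  rw [← Matrix.exists_mulVec_eq_zero_iff]
  have key : ∀ x : V → ℝ, (∀ v, f v ≠ v → x v = x (f v)) → (∀ v, f v = v → ∑ u, x u = 0) →
      M f *ᵥ x = 0 := by
    intro x h1 h2
    ext v
    by_cases hv : f v = v
    · simp [M, X, mulVec, dotProduct, hv, h2 v hv]
    · simp [M, X, mulVec, dotProduct, hv, sub_mul, Finset.sum_sub_distrib, ← h1 v hv]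
  by_cases hfix : ∃ r, f r = r
  · obtain ⟨r, hr⟩ := hfix
    set U := univ.filter fun v => ∃ k, f^[k] v = r with hU
    have hr' : r ∈ U := by
      simp only [hU, mem_filter, mem_univ, true_and]
      exact ⟨0, rfl⟩
    obtain ⟨w, hw⟩ : ∃ w, w ∉ U := by
      by_contra hc
      push Not at hc
      exact h ⟨r, hr, fun v => by simpa [hU] using hc v⟩
    refine ⟨fun v => if v ∈ U then -((Uᶜ).card : ℝ) else U.card, ?_, key _ ?_ ?_⟩
    · intro h0
      have := congrFun h0 w
      simp only [if_neg hw, Pi.zero_apply, Nat.cast_eq_zero, card_eq_zero] at this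
      rw [this] at hr'
      simp at hr'
    · intro v hv
      have : v ∈ U ↔ f v ∈ U := by
        simp only [hU, mem_filter, mem_univ, true_and]
        constructor
        · rintro ⟨_ | k, hk⟩
          · exact absurd (by rw [show v = r from hk, hr]) hv
          · exact ⟨k, hk⟩
        · rintro ⟨k, hk⟩
          exact ⟨k + 1, hk⟩
      simp only [this]
    · intro _ _
      rw [← Finset.sum_add_sum_compl U, Finset.sum_congr rfl (fun v hv => if_pos hv),
        Finset.sum_congr rfl (fun v hv => if_neg (mem_compl.1 hv))]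
      simp [mul_comm]
  · push Not at hfix
    refine ⟨fun _ => 1, ?_, key _ (fun _ _ => rfl) fun v hv => absurd hv (hfix v)⟩
    intro h0
    have := congrFun h0 (Classical.arbitrary V)
    simp at this

noncomputable def edges (f : V → V) (r : V) : Finset (Sym2 V) :=
  (univ.erase r).image fun v => s(v, f v)

omit [Fintype V] in
lemma Good.inj {f : V → V} {r : V} (h : Good f r) {v w : V} (hv : v ≠ r) (hw : w ≠ r)
    (e : s(v, f v) = s(w, f w)) : v = w := by
  obtain ⟨d, hd⟩ := h.depth
  rcases Sym2.eq_iff.1 e with e | e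
  · exact e.1
  · have h1 := hd v hv
    have h2 := hd w hw
    rw [e.2] at h1
    rw [← e.1] at h2
    omega

lemma Good.card {f : V → V} {r : V} (h : Good f r) : (edges f r).card + 1 = Fintype.card V := by
  rw [edges, card_image_of_injOn, card_erase_add_one (mem_univ r), card_univ]
  intro v hv w hw e
  exact h.inj (ne_of_mem_erase hv) (ne_of_mem_erase hw) e

lemma Good.nodiag {f : V → V} {r : V} (h : Good f r) : ∀ e ∈ edges f r, ¬ e.IsDiag := by
  intro e he
  obtain ⟨v, hv, rfl⟩ := mem_image.1 he
  rw [Sym2.mk_isDiag_iff]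
  exact fun e => ne_of_mem_erase hv (h.fix e.symm)

lemma card_edge (T : Finset (Sym2 V)) (hT : ∀ e ∈ T, ¬ e.IsDiag) :
    Nat.card (SimpleGraph.fromEdgeSet (T : Set (Sym2 V))).edgeSet = T.card := by
  have : (SimpleGraph.fromEdgeSet (T : Set (Sym2 V))).edgeSet = (T : Set (Sym2 V)) := by
    rw [SimpleGraph.edgeSet_fromEdgeSet]
    ext e
    simp only [Set.mem_sdiff, mem_coe, Sym2.mem_diagSet]
    exact ⟨fun h => h.1, fun h => ⟨h, hT e h⟩⟩
  rw [this]
  simp

lemma Good.tree {f : V → V} {r : V} (h : Good f r) :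
    (SimpleGraph.fromEdgeSet (edges f r : Set (Sym2 V))).IsTree := by
  rw [SimpleGraph.isTree_iff_connected_and_card, card_edge _ h.nodiag, h.card]
  refine ⟨?_, by simp⟩
  have key : ∀ k v, f^[k] v = r →
      (SimpleGraph.fromEdgeSet (edges f r : Set (Sym2 V))).Reachable v r := by
    intro k
    induction k with
    | zero => intro v hv; rw [show v = r from hv]
    | succ k ih =>
      intro v hv
      by_cases hvr : v = r
      · rw [hvr]
      · refine SimpleGraph.Reachable.trans (SimpleGraph.Adj.reachable ?_) (ih (f v) hv)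
        rw [SimpleGraph.fromEdgeSet_adj]
        exact ⟨mem_coe.2 (mem_image.2 ⟨v, mem_erase.2 ⟨hvr, mem_univ _⟩, rfl⟩),
          fun e => hvr (h.fix e.symm)⟩
  haveI : Nonempty V := ⟨r⟩
  refine ⟨fun u v => ?_⟩
  obtain ⟨k, hk⟩ := h.2 u
  obtain ⟨l, hl⟩ := h.2 v
  exact (key k u hk).trans (key l v hl).symm

lemma edges_inj {f g : V → V} {r : V} (hf : Good f r) (hg : Good g r)
    (e : edges f r = edges g r) : f = g := by
  have key : ∀ v, f v ≠ g v → f (f v) ≠ g (f v) := by
    intro v hv
    have hvr : v ≠ r := fun e => hv (by rw [e, hf.1, hg.1])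
    have : s(v, f v) ∈ edges g r := e ▸ mem_image.2 ⟨v, mem_erase.2 ⟨hvr, mem_univ _⟩, rfl⟩
    obtain ⟨w, hw, hw'⟩ := mem_image.1 this
    rcases Sym2.eq_iff.1 hw' with h | h
    · exact absurd (by rw [← h.2, h.1]) hv
    · intro h2
      obtain ⟨d, hd⟩ := hf.depth
      have h3 := hd v hvr
      have h4 := hd w (ne_of_mem_erase hw)
      rw [← h.1, h.2] at h2
      rw [h2] at h4
      rw [← h.1] at h3
      omega
  funext v
  by_contra hv
  have : ∀ k, f (f^[k] v) ≠ g (f^[k] v) := by
    intro k
    induction k with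
    | zero => exact hv
    | succ k ih => rw [Function.iterate_succ_apply']; exact key _ ih
  obtain ⟨k, hk⟩ := hf.2 v
  exact this k (by rw [hk, hf.1, hg.1])

lemma edges_surj (r : V) (T : Finset (Sym2 V)) (hT : ∀ e ∈ T, ¬ e.IsDiag)
    (ht : (SimpleGraph.fromEdgeSet (T : Set (Sym2 V))).IsTree) :
    ∃ f, Good f r ∧ edges f r = T := by
  set G := SimpleGraph.fromEdgeSet (T : Set (Sym2 V)) with hG
  have hex : ∀ v, ∃ u, (v = r → u = r) ∧ (v ≠ r → G.Adj v u ∧ G.dist u r < G.dist v r) := by
    intro v
    by_cases hv : v = r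
    · exact ⟨r, fun _ => rfl, fun h => absurd hv h⟩
    · obtain ⟨p, hp⟩ := ht.connected.exists_walk_length_eq_dist v r
      cases p with
      | nil => exact absurd rfl hv
      | cons h q =>
        refine ⟨_, fun e => absurd e hv, fun _ => ⟨h, ?_⟩⟩
        have := SimpleGraph.dist_le q
        simp at hp
        omega
  choose f h1 h2 using hex
  have hg : Good f r := by
    refine ⟨h1 r rfl, fun v => ?_⟩
    induction hn : G.dist v r using Nat.strong_induction_on generalizing v with
    | _ n ih =>
      by_cases hv : v = r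
      · exact ⟨0, hv⟩
      · obtain ⟨k, hk⟩ := ih _ (hn ▸ (h2 v hv).2) (f v) rfl
        exact ⟨k + 1, hk⟩
  refine ⟨f, hg, Finset.eq_of_subset_of_card_le ?_ ?_⟩
  · intro e he
    obtain ⟨v, hv, rfl⟩ := mem_image.1 he
    have := (h2 v (ne_of_mem_erase hv)).1
    rw [hG, SimpleGraph.fromEdgeSet_adj] at this
    exact mem_coe.1 this.1
  · have h3 := (SimpleGraph.isTree_iff_connected_and_card.1 ht).2
    rw [card_edge _ hT, Nat.card_eq_fintype_card, ← hg.card] at h3
    omega

noncomputable def tau (m : Sym2 V → ℝ) : ℝ :=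
  ∑ T ∈ (univ : Finset (Finset (Sym2 V))).filter
    (fun T : Finset (Sym2 V) => (SimpleGraph.fromEdgeSet (T : Set (Sym2 V))).IsTree), ∏ e ∈ T, m e

noncomputable def c (m : Sym2 V → ℝ) (v u : V) : ℝ := if u = v then 1 else m s(v, u)

lemma rooted (m : Sym2 V → ℝ) (hm : ∀ e, e.IsDiag → m e = 0) (r : V) :
    ∑ f ∈ univ.filter (fun f : V → V => Good f r), ∏ v, c m v (f v) = tau m := by
  rw [tau, ← Finset.sum_filter_of_ne (p := fun T : Finset (Sym2 V) => ∀ e ∈ T, ¬ e.IsDiag)
    (s := (univ : Finset (Finset (Sym2 V))).filter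
      (fun T : Finset (Sym2 V) => (SimpleGraph.fromEdgeSet (T : Set (Sym2 V))).IsTree))]
  · refine Finset.sum_bij (fun f _ => edges f r) ?_ ?_ ?_ ?_
    · intro f hf
      have h := (mem_filter.1 hf).2
      exact mem_filter.2 ⟨mem_filter.2 ⟨mem_univ _, h.tree⟩, h.nodiag⟩
    · intro f hf g hg e
      exact edges_inj (mem_filter.1 hf).2 (mem_filter.1 hg).2 e
    · intro T hT
      obtain ⟨h1, h2⟩ := mem_filter.1 hT
      obtain ⟨f, hf, e⟩ := edges_surj r T h2 (mem_filter.1 h1).2
      exact ⟨f, mem_filter.2 ⟨mem_univ _, hf⟩, e⟩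
    · intro f hf
      have h := (mem_filter.1 hf).2
      rw [edges, prod_image fun v hv w hw e =>
        h.inj (ne_of_mem_erase hv) (ne_of_mem_erase hw) e, ← mul_prod_erase _ _ (mem_univ r)]
      rw [show c m r (f r) = 1 by simp [c, h.1], one_mul]
      apply prod_congr rfl
      intro v hv
      have : f v ≠ v := fun e => ne_of_mem_erase hv (h.fix e)
      simp [c, this]
  · intro T _ hne e he hd
    exact hne (prod_eq_zero he (hm e hd))

/-- The matrix `L + J`. -/
noncomputable def LJ (m : Sym2 V → ℝ) : Matrix V V ℝ :=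
  Matrix.of fun v x => (if x = v then ∑ u, m s(v, u) else 0) - m s(v, x) + 1

theorem det_LJ [Nonempty V] (m : Sym2 V → ℝ) (hm : ∀ e, e.IsDiag → m e = 0) :
    (LJ m).det = (Fintype.card V : ℝ) ^ 2 * tau m := by
  have hrow : LJ m = fun v => ∑ u, c m v u • X v u := by
    funext v x
    have h0 : m s(v, v) = 0 := hm _ (by simp)
    rw [Finset.sum_apply, ← add_sum_erase _ _ (mem_univ v)]
    have h1 : ∑ u ∈ univ.erase v, (c m v u • X v u) x =
        ∑ u, m s(v, u) * ((if x = v then 1 else 0) - (if x = u then 1 else 0)) := by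
      rw [← add_sum_erase _ _ (mem_univ v), h0, zero_mul, zero_add]
      apply sum_congr rfl
      intro u hu
      simp [c, X, ne_of_mem_erase hu]
    rw [h1]
    by_cases hx : x = v <;> simp [LJ, c, X, hx, mul_sub, Finset.sum_sub_distrib] <;> ring
  have h2 : (LJ m).det = ∑ f : V → V, (∏ v, c m v (f v)) * (M f).det := by
    have := (Matrix.detRowAlternating (n := V) (R := ℝ)).toMultilinearMap.map_sum
      (fun v u => c m v u • X v u)
    rw [hrow]
    refine Eq.trans this (sum_congr rfl fun f _ => ?_)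
    exact (Matrix.detRowAlternating (n := V) (R := ℝ)).toMultilinearMap.map_smul_univ
      (fun v => c m v (f v)) (fun v => X v (f v))
  have h3 : ∀ f : V → V, (∏ v, c m v (f v)) * (M f).det =
      ∑ r, if Good f r then (Fintype.card V : ℝ) * ∏ v, c m v (f v) else 0 := by
    intro f
    by_cases h : ∃ r, Good f r
    · obtain ⟨r, hr⟩ := h
      rw [det_good hr, sum_eq_single r]
      · simp [hr, mul_comm]
      · intro b _ hb
        rw [if_neg fun hb' => hb (hr.fix hb'.1)]
      · simp
    · rw [det_bad h, mul_zero]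
      exact (sum_eq_zero fun r _ => if_neg fun hr => h ⟨r, hr⟩).symm
  rw [h2, sum_congr rfl fun f _ => h3 f, sum_comm]
  simp only [← sum_filter, ← mul_sum, rooted m hm]
  simp [sq, mul_assoc]

end Pool.Agent.H32.MTree
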