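import Pool.Agent.H32.MonDefs

set_option autoImplicit false

namespace Pool.Agent.H32.Mon

open Relation

section gen
variable {A : Type} {R : Set (List A × List A)}

theorem Step.ctx {a b : List A} (h : Step R a b) (p q : List A) :
    Step R (p ++ a ++ q) (p ++ b ++ q) := by
  obtain ⟨u, v, x, y, h, rfl, rfl⟩ := h
  exact ⟨p ++ u, v ++ q, x, y, h, by simp, by simp⟩

theorem rt_ctx {a b : List A} (h : ReflTransGen (Step R) a b) (p q : List A) :
    ReflTransGen (Step R) (p ++ a ++ q) (p ++ b ++ q) := by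
  induction h with
  | refl => exact .refl
  | tail _ h ih => exact ih.tail (h.ctx p q)

theorem newman (hm : Monadic R) (h : ∀ u v w, Step R u v → Step R u w →
    ∃ z, ReflTransGen (Step R) v z ∧ ReflTransGen (Step R) w z) : Confluent R := by
  intro u
  induction hn : u.length using Nat.strong_induction_on generalizing u with
  | _ n ih =>
  have hl : ∀ a, Step R u a → a.length < n := by
    rintro _ ⟨p, q, x, y, h, rfl, rfl⟩
    have := (hm x y h).2
    simp at hn ⊢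
    omega
  have hl' : ∀ a b, ReflTransGen (Step R) a b → b.length ≤ a.length := by
    intro a b h
    induction h with
    | refl => rfl
    | tail _ h ih =>
      obtain ⟨p, q, x, y, h, rfl, rfl⟩ := h
      have := (hm x y h).2
      simp at ih ⊢
      omega
  intro v w hv hw
  rcases hv.cases_head with rfl | ⟨a, ha, hv⟩
  · exact ⟨w, hw, .refl⟩
  rcases hw.cases_head with rfl | ⟨b, hb, hw⟩
  · exact ⟨v, .refl, hv.head ha⟩
  obtain ⟨c, h1, h2⟩ := h u a b ha hb
  obtain ⟨d, h3, h4⟩ := ih _ (hl a ha) a rfl v c hv h1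
  obtain ⟨e, h5, h6⟩ := ih _ (hl b hb) b rfl w d hw (h2.trans h4)
  exact ⟨e, h3.trans h6, h5⟩

theorem cls_eq (hc : Confluent R) {a b : List A} : cls R a = cls R b ↔
    ∃ z, ReflTransGen (Step R) a z ∧ ReflTransGen (Step R) b z := by
  constructor
  · intro h
    let c : Con (FreeMonoid A) :=
      { r := fun a b => ∃ z, ReflTransGen (Step R) a.toList z ∧ ReflTransGen (Step R) b.toList z
        iseqv := ⟨fun a => ⟨_, .refl, .refl⟩, fun ⟨z, h1, h2⟩ => ⟨z, h2, h1⟩,
          fun ⟨z, h1, h2⟩ ⟨z', h3, h4⟩ => by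
            obtain ⟨e, h5, h6⟩ := hc _ _ _ h2 h3
            exact ⟨e, h1.trans h5, h4.trans h6⟩⟩
        mul' := fun {a b c d} ⟨z, h1, h2⟩ ⟨z', h3, h4⟩ => ⟨z ++ z', by
          simpa using (rt_ctx h1 [] c.toList).trans (by simpa using rt_ctx h3 z []), by
          simpa using (rt_ctx h2 [] d.toList).trans (by simpa using rt_ctx h4 z [])⟩ }
    have : con R ≤ c := Con.conGen_le.2 fun a b h =>
      ⟨_, .single ⟨[], [], _, _, h, by simp, by simp⟩, .refl⟩
    exact this ((Con.eq _).1 h)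
  · have : ∀ a b, ReflTransGen (Step R) a b → cls R a = cls R b := by
      intro a b h
      induction h with
      | refl => rfl
      | tail _ h ih =>
        obtain ⟨p, q, x, y, h, rfl, rfl⟩ := h
        have : cls R x = cls R y := (Con.eq _).2 (ConGen.Rel.of _ _ h)
        simp only [cls, FreeMonoid.ofList_append, map_mul] at ih this ⊢
        rw [ih, this]
    exact fun ⟨z, h1, h2⟩ => (this _ _ h1).trans (this _ _ h2).symm

theorem tri {u v u' v' : List A} {a b : A} (h : u ++ a :: v = u' ++ b :: v') :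
    (u = u' ∧ a = b ∧ v = v') ∨ (∃ m, u' = u ++ a :: m ∧ v = m ++ b :: v') ∨
      ∃ m, u = u' ++ b :: m ∧ v' = m ++ a :: v := by
  rcases List.append_eq_append_iff.1 h with ⟨m, h1, h2⟩ | ⟨m, h1, h2⟩ <;> cases m <;> simp_all

theorem suf {u l p k : List A} {c : A} (h : u ++ l = p ++ c :: k) (hc : c ∉ l) :
    ∃ k', k = k' ++ l ∧ u = p ++ c :: k' := by
  rcases List.append_eq_append_iff.1 h with ⟨m, h1, h2⟩ | ⟨m, h1, h2⟩
  · simp [h2] at hc
  · cases m with
    | nil => exact (hc (by simp at h2; simp [← h2])).elim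
    | cons a m => simp_all

theorem uniq {u v u' v' : List A} {a b : A} (h : u ++ a :: v = u' ++ b :: v') (h1 : b ∉ u)
    (h2 : b ∉ v) : u = u' ∧ a = b ∧ v = v' := by
  rcases tri h with h | ⟨m, -, rfl⟩ | ⟨m, rfl, -⟩
  · exact h
  · simp at h2
  · simp at h1

end gen

inductive Al (Q C : Type) : Type
  | w (c : C) | h | d | j (q : Q) (c : C) | s | t | x (q : Q) | x0 | y0 | y1 | z

open Al

variable {Q C : Type} (δ : Q → C → Q × List C) (f : Q) (L : ℕ)

instance [Finite Q] [Finite C] : Finite (Al Q C) :=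
  Finite.of_surjective (α := C ⊕ (Q × C) ⊕ Q ⊕ Fin 8)
    (Sum.elim w (Sum.elim (fun p => j p.1 p.2) (Sum.elim x ![h, d, s, t, x0, y0, y1, z]))) fun a => by
    cases a
    exacts [⟨.inl _, rfl⟩, ⟨.inr (.inr (.inr 0)), rfl⟩, ⟨.inr (.inr (.inr 1)), rfl⟩,
      ⟨.inr (.inl (_, _)), rfl⟩, ⟨.inr (.inr (.inr 2)), rfl⟩, ⟨.inr (.inr (.inr 3)), rfl⟩,
      ⟨.inr (.inr (.inl _)), rfl⟩, ⟨.inr (.inr (.inr 4)), rfl⟩, ⟨.inr (.inr (.inr 5)), rfl⟩,
      ⟨.inr (.inr (.inr 6)), rfl⟩, ⟨.inr (.inr (.inr 7)), rfl⟩]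

def ty : Al Q C → ℕ
  | w _ => 0 | h => 0 | d => 0 | j _ _ => 1 | s => 1 | t => 1 | x _ => 2 | x0 => 2 | y0 => 3
  | y1 => 3 | z => 4

inductive N : List (Al Q C) → Al Q C → Al Q C → Al Q C → Prop
  | lx (q : Q) (c : C) : N ((δ q c).2.map w) (x (δ q c).1) (j q c) (x q)
  | l0 : N [d] x0 s (x f)
  | ry (q : Q) (c : C) : N [j q c] y1 (w c) y1
  | r0 : N [t] y0 h y1

inductive Pt : Al Q C → List (Al Q C) → Al Q C → Prop
  | xy (q : Q) : Pt (x q) [] y1
  | yx (a : Al Q C) (m : List (Al Q C)) (b : Al Q C) : ty a = 3 → ty b = 2 →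
      (∀ e ∈ m, ty e = 0) → m.length ≤ L + 1 → Pt a m b

def RR : Set (List (Al Q C) × List (Al Q C)) :=
  {r | (∃ l c e c', N δ f l c e c' ∧ r = (l ++ [c, e], [c'])) ∨
    (∃ a m b, Pt L a m b ∧ r = (a :: m ++ [b], [z])) ∨ ∃ a, r = ([z, a], [z]) ∨ r = ([a, z], [z])}

variable {δ f L}

theorem N.ty {l : List (Al Q C)} {c e c' : Al Q C} (h : N δ f l c e c') :
    ty c' = ty c ∧ ((ty c = 2 ∧ ty e = 1 ∧ ∀ a ∈ l, ty a = 0) ∨
      (ty c = 3 ∧ ty e = 0 ∧ ∃ a, ty a = 1 ∧ l = [a])) := by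
  cases h <;> simp [Mon.ty]

theorem N.nm {l : List (Al Q C)} {c e c' a : Al Q C} (h : N δ f l c e c') (ha : 2 ≤ Mon.ty a) :
    a ∉ l ∧ a ≠ e := by
  refine ⟨fun hl => ?_, ?_⟩
  · rcases h.ty.2 with ⟨-, -, h⟩ | ⟨-, -, b, h, rfl⟩
    · have := h a hl; omega
    · simp at hl; subst hl; omega
  · rintro rfl
    have := h.ty
    omega

theorem Pt.ty {a b : Al Q C} {m : List (Al Q C)} (h : Pt L a m b) :
    2 ≤ ty a ∧ 2 ≤ ty b ∧ ∀ e ∈ m, ty e = 0 := by
  cases h <;> simp_all [Mon.ty]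

theorem monadic : Monadic (RR δ f L) := by
  rintro a b (⟨l, c, e, c', -, h⟩ | ⟨a, m, b, -, h⟩ | ⟨a, h | h⟩) <;> cases h <;> simp

theorem zero_of {p : List (Al Q C)} (hp : z ∈ p) : ReflTransGen (Step (RR δ f L)) p [z] := by
  obtain ⟨u, v, rfl⟩ := List.append_of_mem hp
  clear hp
  induction u with
  | nil =>
    induction v with
    | nil => exact .refl
    | cons a v ih => exact .head ⟨[], v, _, _, .inr (.inr ⟨a, .inl rfl⟩), rfl, rfl⟩ ih
  | cons a u ih =>
    exact .tail (by simpa using rt_ctx ih [a] []) ⟨[], [], _, _, .inr (.inr ⟨a, .inr rfl⟩), rfl, rfl⟩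

theorem zero_pt {a b : Al Q C} {m : List (Al Q C)} (h : Pt L a m b) (p q : List (Al Q C)) :
    ReflTransGen (Step (RR δ f L)) (p ++ a :: (m ++ b :: q)) [z] :=
  .head ⟨p, q, _, _, .inr (.inl ⟨a, m, b, h, rfl⟩), by simp, rfl⟩ (zero_of (by simp))

theorem pres {a b c e c' : Al Q C} {m l p q u v : List (Al Q C)} (h : Pt L a m b)
    (hn : N δ f l c e c') (E : p ++ a :: (m ++ b :: q) = (u ++ l) ++ c :: e :: v) :
    ReflTransGen (Step (RR δ f L)) (u ++ c' :: v) [z] := by
  obtain ⟨t1, t2, t3⟩ := h.ty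
  have t4 := hn.ty
  rcases tri E with ⟨rfl, rfl, E'⟩ | ⟨k, E1, E2⟩ | ⟨k, rfl, E'⟩
  · cases m with
    | nil => exact ((hn.nm t2).2 (List.cons.inj E').1).elim
    | cons e' m =>
      obtain ⟨rfl, rfl⟩ := List.cons.inj E'
      cases h with
      | yx _ _ _ h1 h2 h3 h4 =>
        exact zero_pt (.yx _ _ _ (by omega) h2 (fun e he => h3 e (by simp [he]))
          (by simp at h4; omega)) _ _
  · obtain ⟨k', rfl, rfl⟩ := suf E1 (hn.nm t1).1
    rcases tri E2 with ⟨rfl, rfl, rfl⟩ | ⟨n, E3, rfl⟩ | ⟨n, rfl, -⟩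
    · generalize hm : k' ++ l = m at h
      cases h with
      | xy q => cases hn <;> simp at hm
      | yx _ _ _ h1 h2 h3 h4 =>
        subst hm
        simpa using zero_pt (.yx a k' c' h1 (by omega) (fun e he => h3 e (by simp [he]))
          (by simp at h4; omega)) p v
    · obtain ⟨k'', rfl, rfl⟩ := suf E3 (hn.nm t2).1
      simpa using zero_pt h p (k'' ++ c' :: v)
    · have := t3 c (by simp)
      omega
  · cases k with
    | nil => exact ((hn.nm t1).2 (List.cons.inj E').1.symm).elim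
    | cons e' k =>
      obtain ⟨rfl, rfl⟩ := List.cons.inj E'
      simpa using zero_pt h (u ++ c' :: k) q

theorem nn (hL : ∀ q c, (δ q c).2.length ≤ L) {c e c' a g a' : Al Q C} {l u v n k : List (Al Q C)}
    {u' v' : List (Al Q C)} (h : N δ f l c e c') (h' : N δ f n a g a')
    (E1 : u' ++ n = u ++ l ++ c :: k) (E2 : e :: v = k ++ a :: g :: v') :
    ∃ r, ReflTransGen (Step (RR δ f L)) (u ++ c' :: v) r ∧
      ReflTransGen (Step (RR δ f L)) (u' ++ a' :: v') r := by
  have t1 := h.ty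
  have t2 := h'.ty
  obtain ⟨k', rfl, rfl⟩ := suf E1 (h'.nm (by omega)).1
  cases k' with
  | cons e' k' =>
    obtain ⟨rfl, rfl⟩ := List.cons.inj E2
    exact ⟨u ++ c' :: k' ++ a' :: v',
      .single ⟨u ++ c' :: k', v', _, _, .inl ⟨_, _, _, _, h', rfl⟩, by simp, by simp⟩,
      .single ⟨u, k' ++ a' :: v', _, _, .inl ⟨_, _, _, _, h, rfl⟩, by simp, by simp⟩⟩
  | nil =>
    cases n with
    | nil => exact ((h.nm (by omega)).2 (List.cons.inj E2).1.symm).elim
    | cons e' n =>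
      obtain ⟨rfl, rfl⟩ := List.cons.inj E2
      refine ⟨[z], ?_⟩
      rcases t2.2 with ⟨a1, a2, a3⟩ | ⟨a1, a2, b, a3, a4⟩
      · have := a3 e (by simp)
        have hl : (e :: n).length ≤ L + 1 := by
          generalize e :: n = o at h'
          cases h' <;> simp
          exact (hL _ _).trans (Nat.le_succ _)
        exact ⟨zero_pt (.yx _ _ _ (by omega) a1 (fun e he => a3 e (by simp [he]))
          (by simp at hl; omega)) _ _, by
            simpa using zero_pt (.yx c [] a' (by omega) (by omega) (by simp) (by simp)) (u ++ l) v'⟩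
      · obtain ⟨rfl, rfl⟩ := List.cons.inj a4
        have i1 : ∃ q q', c = x q ∧ c' = x q' ∨ e = s := by
          cases h <;> simp [ty] at a3 ⊢
          exact ⟨f⟩
        have i2 : a = y1 ∧ a' = y1 ∧ e ≠ s ∨ e = t := by
          generalize ho : [e] = o at h'
          cases h' <;> simp_all [ty]
        have i3 : e ≠ t := by cases h <;> simp
        obtain ⟨rfl, rfl, i4⟩ := i2.resolve_right i3
        obtain ⟨q, q', i⟩ := i1
        obtain ⟨rfl, rfl⟩ := i.resolve_right i4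
        exact ⟨zero_pt (.xy _) _ _, by simpa using zero_pt (.xy q) (u ++ l) v'⟩

theorem confluent (hL : ∀ q c, (δ q c).2.length ≤ L) : Confluent (RR δ f L) := by
  refine newman monadic ?_
  have hz : ∀ a b, Step (RR δ f L) a b → z ∈ a → z ∈ b := by
    rintro _ _ ⟨u, v, _, _, ⟨l, c, e, c', hn, h⟩ | ⟨a, m, b, -, h⟩ | ⟨a, h | h⟩, rfl, rfl⟩ <;>
      cases h <;> try simp
    have := hn.nm (a := z) (by simp [ty])
    have : z ≠ c := by rintro rfl; cases hn
    tauto
  rintro a b c hb hc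
  by_cases h0 : z ∈ a
  · exact ⟨_, zero_of (hz _ _ hb h0), zero_of (hz _ _ hc h0)⟩
  obtain ⟨u, v, _, _, ⟨l, c, e, c', hn, h⟩ | ⟨a, m, b, hp, h⟩ | ⟨a, h | h⟩, rfl, rfl⟩ := hb <;>
    cases h <;> try (simp at h0; done)
  all_goals
    obtain ⟨u', v', _, _, ⟨l', a', g, a'', hn', h⟩ | ⟨a', m', b', hp', h⟩ | ⟨a, h | h⟩, E, rfl⟩ :=
      hc <;> cases h <;> try (rw [E] at h0; simp at h0; done)
  · have E' : (u ++ l) ++ c :: e :: v = (u' ++ l') ++ a' :: g :: v' := by simpa using E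
    simp only [List.append_assoc, List.cons_append, List.nil_append]
    rcases tri E' with ⟨E1, rfl, E2⟩ | ⟨k, E1, E2⟩ | ⟨k, E1, E2⟩
    · obtain ⟨rfl, rfl⟩ := List.cons.inj E2
      have : u = u' ∧ c' = a'' := by
        generalize hc : c = c0 at hn'
        cases hn <;> cases hn' <;> simp_all
      exact ⟨_, .refl, by rw [this.1, this.2]⟩
    · exact nn hL hn hn' E1 E2
    · obtain ⟨r, h1, h2⟩ := nn hL hn' hn E1 E2
      exact ⟨r, h2, h1⟩
  · exact ⟨_, by simpa using pres (p := u') (q := v') hp' hn (by simpa using E.symm),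
      zero_of (by simp)⟩
  · exact ⟨_, zero_of (by simp),
      by simpa using pres (p := u) (q := v) hp hn' (by simpa using E)⟩
  · exact ⟨_, zero_of (by simp), zero_of (by simp)⟩

theorem finite [Finite Q] [Finite C] (hL : ∀ q c, (δ q c).2.length ≤ L) : (RR δ f L).Finite := by
  refine ((List.finite_length_le _ (L + 4)).prod (List.finite_length_le _ 1)).subset ?_
  rintro _ (⟨l, c, e, c', hn, rfl⟩ | ⟨a, m, b, hp, rfl⟩ | ⟨a, rfl | rfl⟩) <;> simp
  · cases hn <;> simp
    exact (hL _ _).trans (by omega)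
  · cases hp
    · simp
    · omega

end Pool.Agent.H32.Mon
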