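import Pool.Agent.H32.MonA
import Pool.Agent.H38.CM.Queue
import Pool.Agent.H37.CI

set_option autoImplicit false

namespace Pool.Agent.H32.Mon

open Relation Al

variable {Q C : Type} (δ : Q → C → Q × List C) {f : Q} {L : ℕ}

inductive Run : Q → List (Q × C) → Q → Prop
  | nil (q : Q) : Run q [] q
  | snoc {q p : Q} {J : List (Q × C)} (c : C) : Run q J p → Run q (J ++ [(p, c)]) (δ p c).1

def al (J : List (Q × C)) : List (Al Q C) := (J.flatMap fun a => (δ a.1 a.2).2).map w
def ix (J : List (Q × C)) : List (Al Q C) := J.reverse.map fun a => j a.1 a.2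
def be (J : List (Q × C)) : List (Al Q C) := J.map fun a => w a.2

variable {δ}

theorem back {a b : List (Al Q C)} (hs : Step (RR δ f L) a b) (hz : z ∉ b) :
    ∃ u v l c e c', N δ f l c e c' ∧ a = u ++ l ++ c :: e :: v ∧ b = u ++ c' :: v := by
  obtain ⟨u, v, _, _, ⟨l, c, e, c', hn, h⟩ | ⟨a, m, b, hp, h⟩ | ⟨a, h | h⟩, rfl, rfl⟩ := hs <;>
    cases h <;> try (simp at hz; done)
  exact ⟨u, v, l, c, e, c', hn, by simp, by simp⟩

theorem ancA (W : List C) (i : Q) {a : List (Al Q C)}
    (H : ReflTransGen (Step (RR δ f L)) a (h :: W.map w ++ [x i, t, y0])) : ∃ J q, Run δ i J q ∧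
    (a = (h :: W.map w ++ al δ J) ++ x q :: (ix J ++ [t, y0]) ∨
      q = f ∧ a = (h :: W.map w ++ al δ J ++ [d]) ++ x0 :: s :: (ix J ++ [t, y0])) := by
  induction H using ReflTransGen.head_induction_on with
  | refl => exact ⟨[], i, .nil i, .inl (by simp [al, ix])⟩
  | head hs _ ih =>
    obtain ⟨J, q, hr, rfl | ⟨rfl, rfl⟩⟩ := ih
    · obtain ⟨u, v, l, c, e, c', hn, rfl, E⟩ := back hs (by simp [al, ix])
      obtain ⟨rfl, E', rfl⟩ := uniq E (by cases hn <;> simp [al]) (by cases hn <;> simp [ix])
      cases hn <;> cases E'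
      · rename_i c
        exact ⟨_, _, hr.snoc c, .inl (by simp [al, ix])⟩
      · exact ⟨_, _, hr, .inr ⟨rfl, by simp⟩⟩
    · obtain ⟨u, v, l, c, e, c', hn, rfl, E⟩ := back hs (by simp [al, ix])
      have : c' ∈ u ++ c' :: v := by simp
      rw [← E] at this
      cases hn <;> simp [al, ix] at this

theorem ancB {a : List (Al Q C)} (H : ReflTransGen (Step (RR δ f L)) a [x0, s, y1, d]) :
    ∃ J, a = (x0 :: s :: ix J) ++ y1 :: (be J ++ [d]) ∨
      a = (x0 :: s :: ix J ++ [t]) ++ y0 :: h :: (be J ++ [d]) := by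
  induction H using ReflTransGen.head_induction_on with
  | refl => exact ⟨[], .inl (by simp [be, ix])⟩
  | head hs _ ih =>
    obtain ⟨J, rfl | rfl⟩ := ih
    · obtain ⟨u, v, l, c, e, c', hn, rfl, E⟩ := back hs (by simp [be, ix])
      have : c' = y1 := by
        have : c' ∈ u ++ c' :: v := by simp
        rw [← E] at this
        cases hn <;> simp [be, ix] at this ⊢
      subst this
      obtain ⟨rfl, -, rfl⟩ := uniq E (by simp [ix]) (by simp [be])
      cases hn with
      | ry q c => exact ⟨(q, c) :: J, .inl (by simp [be, ix])⟩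
      | r0 => exact ⟨J, .inr (by simp)⟩
    · obtain ⟨u, v, l, c, e, c', hn, rfl, E⟩ := back hs (by simp [be, ix])
      have : c' ∈ u ++ c' :: v := by simp
      rw [← E] at this
      cases hn <;> simp [be, ix] at this

theorem irr {a b : List (Al Q C)} (H : ReflTransGen (Step (RR δ f L)) a b)
    (h : ∀ c, ¬ Step (RR δ f L) a c) : b = a := by
  rcases H.cases_head with rfl | ⟨c, hc, -⟩
  · rfl
  · exact (h c hc).elim

theorem irrA (W : List C) (i : Q) (c : List (Al Q C)) :
    ¬ Step (RR δ f L) (h :: W.map w ++ [x i, t, y0]) c := by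
  rintro ⟨u, v, _, _, ⟨l, c, e, c', hn, H⟩ | ⟨a, m, b, hp, H⟩ | ⟨a, H | H⟩, E, -⟩ <;> cases H
  · have : ∀ a ∈ l ++ [c, e], a ∈ h :: W.map w ++ [x i, t, y0] := fun a ha => by
      rw [E]; simp only [List.mem_append] at ha ⊢; tauto
    cases hn
    · simpa using this _ (List.mem_append_right _ (List.mem_cons_of_mem _ List.mem_cons_self))
    · simp at this
    · simp at this
    · have E' : (h :: W.map w ++ [x i, t]) ++ y0 :: [] = (u ++ [t]) ++ y0 :: h :: v := by
        simpa using E
      simpa using (uniq E' (by simp) (by simp)).2.2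
  · have : ∀ e ∈ a :: m ++ [b], e ∈ h :: W.map w ++ [x i, t, y0] := fun a ha => by
      rw [E]; simp only [List.mem_append] at ha ⊢; tauto
    cases hp with
    | xy q => simp at this
    | yx _ _ _ h1 =>
      have : a = y0 := by
        have := this a (by simp)
        cases a <;> simp [ty] at this h1 ⊢
      subst this
      have E' : (h :: W.map w ++ [x i, t]) ++ y0 :: [] = u ++ y0 :: (m ++ b :: v) := by
        simpa using E
      simpa using (uniq E' (by simp) (by simp)).2.2
  all_goals
    have : z ∈ h :: W.map w ++ [x i, t, y0] := by rw [E]; simp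
    simp at this

theorem irrB (c : List (Al Q C)) : ¬ Step (RR δ f L) [x0, s, y1, d] c := by
  rintro ⟨u, v, _, _, ⟨l, c, e, c', hn, H⟩ | ⟨a, m, b, hp, H⟩ | ⟨a, H | H⟩, E, -⟩ <;> cases H
  · have : ∀ a ∈ l ++ [c, e], a ∈ [x0, s, y1, d] := fun a ha => by
      rw [E]; simp only [List.mem_append] at ha ⊢; tauto
    cases hn
    · simpa using this _ (List.mem_append_right _ (List.mem_cons_of_mem _ List.mem_cons_self))
    · have E' : [] ++ x0 :: [s, y1, d] = (u ++ [d]) ++ x0 :: s :: v := by simpa using E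
      simpa using (uniq E' (by simp) (by simp)).1
    · simp at this
    · simp at this
  · have : ∀ e ∈ a :: m ++ [b], e ∈ [x0, s, y1, d] := fun a ha => by
      rw [E]; simp only [List.mem_append] at ha ⊢; tauto
    cases hp with
    | xy q => simp at this
    | yx _ _ _ _ h1 =>
      have : b = x0 := by
        have := this b (by simp)
        cases b <;> simp [ty] at this h1 ⊢
      subst this
      have E' : [] ++ x0 :: [s, y1, d] = (u ++ a :: m) ++ x0 :: v := by simpa using E
      simpa using (uniq E' (by simp) (by simp)).1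
  all_goals
    have : z ∈ ([x0, s, y1, d] : List (Al Q C)) := by rw [E]; simp
    simp at this

theorem key (hL : ∀ q c, (δ q c).2.length ≤ L) (W : List C) (i : Q) :
    PConj (cls (RR δ f L) (h :: W.map w ++ [x i, t, y0])) (cls (RR δ f L) [x0, s, y1, d]) ↔
      ∃ J, Run δ i J f ∧ W.map w ++ al δ J = be J := by
  have hm : ∀ u v, cls (RR δ f L) u * cls (RR δ f L) v = cls (RR δ f L) (u ++ v) := by
    simp [cls]
  constructor
  · rintro ⟨u, v, h1, h2⟩
    obtain ⟨u, rfl⟩ : ∃ u', cls _ u' = u := Con.mk'_surjective u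
    obtain ⟨v, rfl⟩ : ∃ u', cls _ u' = v := Con.mk'_surjective v
    rw [hm, cls_eq (confluent hL)] at h1 h2
    obtain ⟨_, a1, a2⟩ := h1
    obtain ⟨_, b1, b2⟩ := h2
    rw [irr a1 (irrA W i)] at a2
    rw [irr b1 irrB] at b2
    obtain ⟨J, q, hr, E1⟩ := ancA W i a2
    obtain ⟨J', E2⟩ := ancB b2
    have m1 : y0 ∈ u ++ v := by rcases E1 with E | ⟨-, E⟩ <;> simp [E]
    have m2 : x0 ∈ v ++ u := by rcases E2 with E | E <;> simp [E]
    rw [List.mem_append, or_comm, ← List.mem_append] at m1 m2
    replace E1 := E1.resolve_left fun E => by simp [E, al, ix] at m2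
    obtain ⟨rfl, E1⟩ := E1
    replace E2 := E2.resolve_left fun E => by simp [E, be, ix] at m1
    cases v with
    | nil => rw [List.append_nil] at E1; simp [E1] at E2
    | cons a v =>
      obtain rfl : a = x0 := (List.cons.inj E2).1
      obtain ⟨rfl, -, rfl⟩ := uniq E1.symm (by simp [al]) (by simp [ix])
      have E' : (x0 :: s :: ix J ++ [t]) ++ y0 :: (h :: W.map w ++ al δ J ++ [d]) =
          (x0 :: s :: ix J' ++ [t]) ++ y0 :: h :: (be J' ++ [d]) := by simpa using E2
      obtain ⟨e1, -, e2⟩ := uniq E' (by simp [ix]) (by simp [al])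
      have : J = J' := by
        simp only [ix, List.cons_append, List.cons.injEq, true_and, List.append_cancel_right_eq]
          at e1
        exact List.reverse_injective (List.map_injective_iff.2 (fun a b h => by
          simpa [Prod.ext_iff] using h) e1)
      subst this
      exact ⟨J, hr, by simpa [← List.append_assoc] using e2⟩
  · rintro ⟨J, hr, E⟩
    have h1 : ∀ J q, Run δ i J q →
        ReflTransGen (Step (RR δ f L)) (al δ J ++ x q :: ix J) [x i] := by
      intro J q h
      induction h with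
      | nil => exact .refl
      | @snoc p J c _ ih =>
        exact .head ⟨al δ J, ix J, _, _, .inl ⟨_, _, _, _, .lx p c, rfl⟩, by simp [al, ix],
          by simp⟩ ih
    have h2 : ∀ J, ReflTransGen (Step (RR δ f L)) (ix J ++ y1 :: be J) [y1] := by
      intro J
      induction J with
      | nil => exact .refl
      | cons a J ih =>
        exact .head ⟨ix J, be J, _, _, .inl ⟨_, _, _, _, .ry a.1 a.2, rfl⟩, by simp [be, ix],
          by simp⟩ ih
    refine ⟨cls _ (h :: W.map w ++ al δ J ++ [d]), cls _ (x0 :: s :: ix J ++ [t, y0]), ?_, ?_⟩ <;>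
      rw [hm, cls_eq (confluent hL)] <;> refine ⟨_, .refl, ?_⟩
    · exact .head ⟨h :: W.map w ++ al δ J, ix J ++ [t, y0], _, _, .inl ⟨_, _, _, _, .l0, rfl⟩,
        by simp, rfl⟩ (by simpa using rt_ctx (h1 J f hr) (h :: W.map w) [t, y0])
    · rw [List.cons_append (a := h), E]
      exact .head ⟨x0 :: s :: ix J, be J ++ [d], _, _, .inl ⟨_, _, _, _, .r0, rfl⟩,
        by simp, rfl⟩ (by simpa using rt_ctx (h2 J) [x0, s] [d])

theorem Run.head {q p : Q} {J : List (Q × C)} (h : Run δ q J p) :
    (J = [] ∧ p = q) ∨ ∃ c J', J = (q, c) :: J' ∧ Run δ (δ q c).1 J' p := by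
  induction h with
  | nil => exact .inl ⟨rfl, rfl⟩
  | snoc c _ ih =>
    rcases ih with ⟨rfl, rfl⟩ | ⟨c', J', rfl, h⟩
    · exact .inr ⟨c, [], rfl, .nil _⟩
    · exact .inr ⟨c', _, rfl, h.snoc c⟩

theorem Run.cons {q p : Q} {J : List (Q × C)} {c : C} (h : Run δ (δ q c).1 J p) :
    Run δ q ((q, c) :: J) p := by
  induction h with
  | nil => exact (Run.nil q).snoc c
  | snoc c' _ ih => exact ih.snoc c'

open Pool.Agent.H38.CM

def dl (P : W) : Option (St P) → Fin (bd P) → Option (St P) × List (Fin (bd P))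
  | none, _ => (none, [])
  | some q, c => ((qs P q c).1, (qs P q c).2.map fun n => ⟨n % bd P, Nat.mod_lt _
      (lt_of_lt_of_le (by omega) (bd_ge P))⟩)

theorem dl_val (P : W) (q : St P) (c : Fin (bd P)) :
    (dl P (some q) c).2.map Fin.val = (qs P q c).2 := by
  simp only [dl, List.map_map]
  conv_rhs => rw [← List.map_id (qs P q c).2]
  exact List.map_congr_left fun n hn => Nat.mod_eq_of_lt (qs_lt _ P q c le_rfl c.2 n hn)

theorem queue (P : W) (q : Option (St P)) (l : List (Fin (bd P))) (hl : l ≠ []) :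
    (∃ J, Run (dl P) q J none ∧ l.map w ++ al (dl P) J = be J) ↔
      ∃ l', ReflTransGen (QStep P) (q, l.map Fin.val) (none, l') := by
  constructor
  · rintro ⟨J, h1, h2⟩
    induction J generalizing q l with
    | nil => simp [al, be, hl] at h2
    | cons a J ih =>
      cases q with
      | none => exact ⟨_, .refl⟩
      | some q =>
        obtain ⟨c, J', e, h⟩ := h1.head.resolve_left (by simp)
        obtain ⟨rfl, rfl⟩ := List.cons.inj e
        obtain ⟨c', l, rfl⟩ := List.exists_cons_of_ne_nil hl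
        simp only [be, List.map_cons, List.cons_append, List.cons.injEq, w.injEq] at h2
        obtain ⟨rfl, h2⟩ := h2
        obtain ⟨l', h'⟩ := ih _ (l ++ (dl P (some q) c').2) (by simp [dl, qs_ne_nil]) h
          (by simpa [al, be] using h2)
        exact ⟨l', .head ⟨q, c', l.map Fin.val, rfl, by simp [dl_val]; rfl⟩ h'⟩
  · rintro ⟨l', h⟩
    clear hl
    generalize e : (q, l.map Fin.val) = o at h
    induction h using ReflTransGen.head_induction_on generalizing q l with
    | refl =>
      obtain rfl : q = none := congrArg Prod.fst e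
      refine ⟨l.map fun c => (none, c), ?_, by simp [al, be, dl, List.flatMap_map, List.flatMap_eq_nil_iff.2]⟩
      clear e
      induction l with
      | nil => exact .nil _
      | cons c l ih => exact Run.cons ih
    | head hs _ ih =>
      obtain ⟨p, c, r, rfl, rfl⟩ := hs
      obtain ⟨rfl, e'⟩ := Prod.mk.inj e
      obtain ⟨c, l, rfl, rfl, rfl⟩ := List.map_eq_cons_iff.1 e'
      obtain ⟨J, h1, h2⟩ := ih (dl P (some p) c).1 (l ++ (dl P (some p) c).2)
        (by simp [dl_val]; rfl)
      exact ⟨_, h1.cons, by simpa [al, be] using h2⟩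

open Pool.Agent.H37 in
theorem main : ∃ (A : Type) (_ : Finite A) (_ : Primcodable A) (R : Set (List A × List A)),
    R.Finite ∧ Monadic R ∧ Confluent R ∧
      ¬ ComputablePred fun p : List A × List A => PConj (cls R p.1) (cls R p.2) := by
  obtain ⟨P, hP⟩ := exists_undec
  haveI := St.finite P
  obtain ⟨L, hL⟩ := (Set.finite_range fun a : Option (St P) × Fin (bd P) =>
    (dl P a.1 a.2).2.length).bddAbove
  have hL' : ∀ q c, (dl P q c).2.length ≤ L := fun q c => hL ⟨(q, c), rfl⟩
  obtain ⟨n, ⟨e⟩⟩ := Finite.exists_equiv_fin (Al (Option (St P)) (Fin (bd P)))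
  letI := Primcodable.ofEquiv _ e
  refine ⟨_, inferInstance, inferInstance, RR (dl P) none L, finite hL', monadic, confluent hL',
    fun H => hP ?_⟩
  have h3 := bd_ge P
  obtain ⟨g, hg, e⟩ := ComputablePred.computable_iff.1 H
  let a : ℕ → List (Al (Option (St P)) (Fin (bd P))) := fun n =>
    h :: (List.replicate n (w ⟨2, by omega⟩) ++ [w ⟨0, by omega⟩]) ++ [x (some (entry P)), t, y0]
  have ha : CI ∅ fun n => (a n, ([x0, s, y1, d] : List (Al (Option (St P)) (Fin (bd P))))) := by
    unfold a; fun_prop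
  refine ComputablePred.computable_iff.2 ⟨_, hg.comp ha.computable, funext fun n => propext ?_⟩
  have := key (f := none) hL' (List.replicate n ⟨2, by omega⟩ ++ [⟨0, by omega⟩]) (some (entry P))
  rw [queue P _ _ (by simp)] at this
  rw [halts_iff P _ (List.replicate n 2) ⟨by simp, fun r => by
    by_cases hr : r = 0 <;> simp [init, hr, List.count_replicate]⟩, ← congrFun e (a n, _)]
  simpa [a] using this.symm

end Pool.Agent.H32.Mon
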