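import Pool.Agent.H32.MonDefs

set_option autoImplicit false

namespace Pool.Agent.H32.Mon

variable {M : Type} [Monoid M]

/-- `x` is a zero of the monoid -/
def IsZ (x : M) : Prop := ∀ y, x * y = x ∧ y * x = x

/-- `g` lies in the set `P(a)` -/
def PP (a g : M) : Prop := (IsZ a → IsZ g) ∧ (¬ IsZ a → ∀ m, IsZ (m * a * g) → IsZ (m * a))

def CConj (a b : M) : Prop := ∃ g h : M, PP a g ∧ PP b h ∧ a * g = g * b ∧ b * h = h * a

end Pool.Agent.H32.Mon
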