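import Pool.Agent.H32.MonA
import Pool.Agent.H32.MonDefs2

set_option autoImplicit false

namespace Pool.Agent.H32.Mon

open Relation

variable {A : Type}

def Syn (P : List A → Prop) (w w' : List A) : Prop := ∀ p s, P (p ++ w ++ s) ↔ P (p ++ w' ++ s)

def Idx (X : Type) (P : List A → Prop) : Prop := ∃ η : List A → X, ∀ w w', η w = η w' → Syn P w w'

abbrev T (X : Type) : Type := X → X → Prop

theorem nerodeR {X : Type} {P : List A → Prop} (st : List A → X)
    (h : ∀ w w', st w = st w' → ∀ s, P (w ++ s) → P (w' ++ s)) : Idx (T X) P := by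
  refine ⟨fun w x y => ∃ p, st p = x ∧ st (p ++ w) = y, ?_⟩
  have : ∀ w w', ((fun x y => ∃ p, st p = x ∧ st (p ++ w) = y) =
      fun x y => ∃ p, st p = x ∧ st (p ++ w') = y) → ∀ p s, P (p ++ w ++ s) → P (p ++ w' ++ s) := by
    intro w w' e p s hp
    obtain ⟨p', h1, h2⟩ := (congrFun₂ e (st p) (st (p ++ w))).mp ⟨p, rfl, rfl⟩
    simpa using h _ _ h1 _ (by simpa using h _ _ h2.symm s hp)
  exact fun w w' e p s => ⟨this w w' e p s, this w' w e.symm p s⟩

theorem nerodeL {X : Type} {P : List A → Prop} (st : List A → X)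
    (h : ∀ w w', st w = st w' → ∀ s, P (s ++ w) → P (s ++ w')) : Idx (T X) P := by
  obtain ⟨η, hη⟩ := nerodeR (P := fun w => P w.reverse) (fun w => st w.reverse)
    fun w w' e s => by simpa using h _ _ e s.reverse
  exact ⟨fun w => η w.reverse, fun w w' e p s => by simpa using hη _ _ e s.reverse p.reverse⟩

def pw (d : List A) : ℕ → List A
  | 0 => []
  | n + 1 => d ++ pw d n

theorem pw_add (d : List A) (m n : ℕ) : pw d (m + n) = pw d m ++ pw d n := by
  induction m with
  | zero => simp [pw]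
  | succ m ih => rw [Nat.succ_add]; simp [pw, ih]

theorem pw_comm (d s : List A) (n : ℕ) : pw d n ++ (d ++ s) = d ++ (pw d n ++ s) := by
  induction n with
  | zero => simp [pw]
  | succ m ih => simp [pw, ih]

theorem pw_len (d : List A) (n : ℕ) : (pw d n).length = n * d.length := by
  induction n with
  | zero => simp [pw]
  | succ m ih => simp [pw, ih]; ring

theorem conj {d e : List A} (hd : d ≠ []) (c : List A) (h : d ++ c = c ++ e) :
    ∃ x y k, d = x ++ y ∧ e = y ++ x ∧ c = pw (x ++ y) k ++ x := by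
  induction hn : c.length using Nat.strong_induction_on generalizing c with
  | _ n ih =>
  rcases List.append_eq_append_iff.1 h with ⟨m, h1, h2⟩ | ⟨m, h1, h2⟩
  · obtain ⟨x, y, k, a1, a2, a3⟩ := ih m.length (by
      have := List.length_pos_iff.2 hd
      rw [← hn, h1]; simp; omega) m (h1.symm.trans h2) rfl
    exact ⟨x, y, k + 1, a1, a2, by rw [h1, a3, pw, ← a1]; simp⟩
  · exact ⟨c, m, 0, h1, h2, by simp [pw]⟩

structure Cg (r : List A → List A → Prop) (k : ℕ) : Prop where
  refl : ∀ w, r w w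
  trans : ∀ {a b c}, r a b → r b c → r a c
  app : ∀ {a b c d}, r a b → r c d → r (a ++ c) (b ++ d)
  pig : ∀ f : ℕ → List A, ∃ i j, i < j ∧ j ≤ k ∧ r (f j) (f i)

theorem Cg.short {r : List A → List A → Prop} {k : ℕ} (h : Cg r k) (w : List A) :
    ∃ w', w'.length ≤ k ∧ r w w' := by
  induction hn : w.length using Nat.strong_induction_on generalizing w with
  | _ n ih =>
  by_cases hw : w.length ≤ k
  · exact ⟨w, hw, h.refl w⟩
  obtain ⟨i, j, h1, h2, h3⟩ := h.pig fun i => w.take i
  obtain ⟨w', h4, h5⟩ := ih _ (by rw [← hn]; simp; omega) (w.take i ++ w.drop j) rfl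
  exact ⟨w', h4, h.trans (by simpa using h.app h3 (h.refl (w.drop j))) h5⟩

theorem Cg.pow {r : List A → List A → Prop} {k : ℕ} (h : Cg r k) (d : List A) (n : ℕ) :
    ∃ n' ≤ k, r (pw d n) (pw d n') := by
  induction n using Nat.strong_induction_on with
  | _ n ih =>
  by_cases hw : n ≤ k
  · exact ⟨n, hw, h.refl _⟩
  obtain ⟨i, j, h1, h2, h3⟩ := h.pig (pw d)
  obtain ⟨n', h4, h5⟩ := ih (i + (n - j)) (by omega)
  refine ⟨n', h4, h.trans ?_ h5⟩
  rw [pw_add, show n = j + (n - j) by omega, pw_add, Nat.add_sub_cancel_left]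
  exact h.app h3 (h.refl _)

theorem Cg.pw2 {r : List A → List A → Prop} {k : ℕ} (h : Cg r k) {d d' : List A} (hd : r d d')
    (n : ℕ) : r (pw d n) (pw d' n) := by
  induction n with
  | zero => exact h.refl _
  | succ n ih => exact h.app hd ih

theorem Syn.app {P : List A → Prop} {a b c d : List A} (h : Syn P a b) (h' : Syn P c d) :
    Syn P (a ++ c) (b ++ d) := fun p s => by
  have h1 := h p (c ++ s)
  have h2 := h' (p ++ b) s
  simp only [List.append_assoc] at *
  exact h1.trans h2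

theorem cg3 {X Y Z : Type} [Finite X] [Finite Y] [Finite Z] {P Q S : List A → Prop}
    (h1 : Idx X P) (h2 : Idx Y Q) (h3 : Idx Z S) :
    Cg (fun w w' => Syn P w w' ∧ Syn Q w w' ∧ Syn S w w') (Nat.card (X × Y × Z)) := by
  obtain ⟨a, ha⟩ := h1
  obtain ⟨b, hb⟩ := h2
  obtain ⟨c, hc⟩ := h3
  refine ⟨fun w => ⟨fun _ _ => Iff.rfl, fun _ _ => Iff.rfl, fun _ _ => Iff.rfl⟩,
    fun h h' => ⟨fun p s => (h.1 p s).trans (h'.1 p s), fun p s => (h.2.1 p s).trans (h'.2.1 p s),
      fun p s => (h.2.2 p s).trans (h'.2.2 p s)⟩,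
    fun h h' => ⟨h.1.app h'.1, h.2.1.app h'.2.1, h.2.2.app h'.2.2⟩, fun f => ?_⟩
  haveI := Fintype.ofFinite (X × Y × Z)
  obtain ⟨i, j, h, e⟩ := Fintype.exists_ne_map_eq_of_card_lt
    (fun i : Fin (Nat.card (X × Y × Z) + 1) => (a (f i), b (f i), c (f i)))
    (by rw [Fintype.card_fin, Nat.card_eq_fintype_card]; omega)
  simp only [Prod.mk.injEq] at e
  rcases lt_or_gt_of_ne h with h | h
  · exact ⟨i, j, h, by omega, ha _ _ e.1.symm, hb _ _ e.2.1.symm, hc _ _ e.2.2.symm⟩
  · exact ⟨j, i, h, by omega, ha _ _ e.1, hb _ _ e.2.1, hc _ _ e.2.2⟩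

theorem Syn.to {P : List A → Prop} {a b : List A} (h : Syn P a b) (ha : P a) : P b := by
  simpa using (h [] []).1 (by simpa using ha)

/-- the word equation with recognisable constraints has a short solution -/
theorem weq {P Q S : List A → Prop} {k : ℕ}
    (h : Cg (fun w w' => Syn P w w' ∧ Syn Q w w' ∧ Syn S w w') k) {a b g1 g2 g3 g4 : List A}
    (e1 : g1 ++ g2 = g3 ++ g4) (e2 : a ++ g2 = g3 ++ b) (hP : P (g1 ++ g2)) (hQ : Q g1)
    (hS : S g4) : ∃ g1 g2 g3 g4 : List A, g1 ++ g2 = g3 ++ g4 ∧ a ++ g2 = g3 ++ b ∧ P (g1 ++ g2) ∧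
      Q g1 ∧ S g4 ∧ (g1 ++ g2).length ≤ (a.length + b.length + 2 * k + 1) * (k + 3) := by
  rcases List.append_eq_append_iff.1 e2 with ⟨c, rfl, rfl⟩ | ⟨c, rfl, rfl⟩
  · rw [List.append_assoc] at e1
    rcases List.append_eq_append_iff.1 e1 with ⟨d, rfl, e⟩ | ⟨d, rfl, e⟩
    · by_cases hd : d = []
      · subst hd
        obtain rfl : b = g4 := by simpa using e
        obtain ⟨c', h1, h2⟩ := h.short c
        refine ⟨g1, c' ++ b, g1 ++ c', b, by simp, by simp,
          (h.app (h.refl g1) (h.app h2 (h.refl b))).1.to hP, hQ, hS, ?_⟩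
        simp; nlinarith
      · rw [← List.append_assoc] at e
        obtain ⟨d', rfl⟩ : g4 <:+ b := List.suffix_of_suffix_length_le
          (List.suffix_append (d ++ c) g4) (e ▸ List.suffix_append c b) (by
            have := congrArg List.length e; simp at this; omega)
        rw [← List.append_assoc, List.append_cancel_right_eq] at e
        obtain ⟨x, y, n, rfl, rfl, rfl⟩ := conj hd c e.symm
        obtain ⟨n', h1, h2⟩ := h.pow (x ++ y) n
        refine ⟨g1, pw (x ++ y) n' ++ x ++ (y ++ x ++ g4), g1 ++ (x ++ y) ++ (pw (x ++ y) n' ++ x),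
          g4, ?_, by simp, (h.app (h.refl g1) (h.app (h.app h2 (h.refl _)) (h.refl _))).1.to hP,
          hQ, hS, ?_⟩
        · simpa using pw_comm (x ++ y) (x ++ g4) n'
        · simp [pw_len]; nlinarith
    · by_cases hd : d = []
      · subst hd
        obtain rfl : g4 = b := by simpa using e
        obtain ⟨c', h1, h2⟩ := h.short c
        refine ⟨a ++ [], c' ++ g4, a ++ c', g4, by simp, by simp,
          (h.app (h.refl _) (h.app h2 (h.refl _))).1.to hP, hQ, hS, ?_⟩
        simp; nlinarith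
      · rw [← List.append_assoc] at e
        obtain ⟨d', rfl⟩ : b <:+ g4 := List.suffix_of_suffix_length_le
          (List.suffix_append (d ++ c) b) (e ▸ List.suffix_append c g4) (by
            have := congrArg List.length e; simp at this; omega)
        rw [← List.append_assoc, List.append_cancel_right_eq] at e
        obtain ⟨x, y, n, rfl, rfl, rfl⟩ := conj hd c e.symm
        obtain ⟨x', a1, a2⟩ := h.short x
        obtain ⟨y', b1, b2⟩ := h.short y
        obtain ⟨n', h1, h2⟩ := h.pow (x' ++ y') n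
        refine ⟨a ++ (x' ++ y'), pw (x' ++ y') n' ++ x' ++ b, a ++ (pw (x' ++ y') n' ++ x'),
          y' ++ x' ++ b, ?_, by simp, (h.app (h.app (h.refl _) (h.app a2 b2)) (h.app (h.app
            (h.trans (h.pw2 (h.app a2 b2) n) h2) a2) (h.refl _))).1.to hP,
          (h.app (h.refl _) (h.app a2 b2)).2.1.to hQ,
          (h.app (h.app b2 a2) (h.refl _)).2.2.to hS, ?_⟩
        · simpa using (pw_comm (x' ++ y') (x' ++ b) n').symm
        · have := Nat.mul_le_mul h1 (add_le_add a1 b1)
          simp [pw_len]; nlinarith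
  · rcases List.append_eq_append_iff.1 e1 with ⟨d, rfl, rfl⟩ | ⟨d, rfl, rfl⟩
    · exact ⟨_, _, _, _, e1, e2, hP, hQ, hS, by simp; nlinarith⟩
    · obtain ⟨d', h1, h2⟩ := h.short d
      refine ⟨g3 ++ d', g2, g3, d' ++ g2, by simp, by simp,
        (h.app (h.app (h.refl _) h2) (h.refl _)).1.to hP, (h.app (h.refl _) h2).2.1.to hQ,
        (h.app h2 (h.refl _)).2.2.to hS, by simp; nlinarith⟩

end Pool.Agent.H32.Mon
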