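import Pool.Agent.H32.MonC

set_option autoImplicit false

namespace Pool.Agent.H32.Mon

open Relation

variable {A : Type} {R : Set (List A × List A)}

def Irr (R : Set (List A × List A)) (w : List A) : Prop := ∀ v, ¬ Step R w v

theorem cls_app (u v : List A) : cls R (u ++ v) = cls R u * cls R v := by simp [cls]

theorem cls_surj (x : (con R).Quotient) : ∃ u, cls R u = x := Con.mk'_surjective x

theorem cls_rule {x y : List A} (h : (x, y) ∈ R) : cls R x = cls R y :=
  (Con.eq _).2 (ConGen.Rel.of _ _ h)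

theorem Irr.left {a b : List A} (h : Irr R (a ++ b)) : Irr R a := fun _ hv =>
  h _ (by simpa using hv.ctx [] b)

theorem Irr.right {a b : List A} (h : Irr R (a ++ b)) : Irr R b := fun _ hv =>
  h _ (by simpa using hv.ctx a [])

theorem irr_eq (hc : Confluent R) {u v : List A} (hu : Irr R u) (hv : Irr R v)
    (h : cls R u = cls R v) : u = v := by
  obtain ⟨z, h1, h2⟩ := (cls_eq hc).1 h
  rcases h1.cases_head with rfl | ⟨c, h1, -⟩
  · rcases h2.cases_head with rfl | ⟨c, h2, -⟩
    · rfl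
    · exact (hv c h2).elim
  · exact (hu c h1).elim

theorem exists_irr (hm : Monadic R) (w : List A) :
    ∃ v, Irr R v ∧ cls R v = cls R w ∧ v.length ≤ w.length := by
  induction hn : w.length using Nat.strong_induction_on generalizing w with
  | _ n ih =>
  by_cases h : Irr R w
  · exact ⟨w, h, rfl, hn.le⟩
  simp only [Irr, not_forall, not_not] at h
  obtain ⟨_, p, q, x, y, h, rfl, rfl⟩ := h
  have := (hm x y h).2
  obtain ⟨v, h1, h2, h3⟩ := ih (p ++ y ++ q).length (by simp at hn ⊢; omega) _ rfl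
  exact ⟨v, h1, by simp only [h2, cls_app, cls_rule h], by simp at hn h3; omega⟩

theorem freeze {L : ℕ} (hL : ∀ x y, (x, y) ∈ R → x.length ≤ L) {a b c : List A}
    (h1 : Irr R (a ++ b)) (h2 : Irr R (b ++ c)) (h : L ≤ b.length) : Irr R (a ++ b ++ c) := by
  rintro _ ⟨u, v, x, y, hr, e, rfl⟩
  rcases List.append_eq_append_iff.1 e with ⟨k, e1, rfl⟩ | ⟨k, e1, rfl⟩
  · rw [List.append_assoc] at e1
    rcases List.append_eq_append_iff.1 e1 with ⟨m, rfl, rfl⟩ | ⟨m, rfl, e2⟩
    · have := hL _ _ hr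
      simp at this
      obtain rfl : k = [] := List.length_eq_zero_iff.1 (by omega)
      exact h1 _ ⟨u, [], _, y, hr, by simp, rfl⟩
    · exact h2 _ ⟨m, v, x, y, hr, by rw [← List.append_assoc, e2], rfl⟩
  · exact h1 _ ⟨u, k, x, y, hr, e1, rfl⟩

theorem struct (hm : Monadic R) {p q : List A} (hp : Irr R p) (hq : Irr R q) (z : List A)
    (hz : z.length ≤ 1) : ∃ p1 p2 q1 q2 z', p = p1 ++ p2 ∧ q = q1 ++ q2 ∧ z'.length ≤ 1 ∧
      cls R (p2 ++ z ++ q1) = cls R z' ∧ Irr R (p1 ++ z' ++ q2) := by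
  induction hn : (p ++ z ++ q).length using Nat.strong_induction_on generalizing p q z with
  | _ n ih =>
  by_cases h : Irr R (p ++ z ++ q)
  · exact ⟨p, [], [], q, z, by simp, by simp, hz, by simp, h⟩
  simp only [Irr, not_forall, not_not] at h
  obtain ⟨_, u, v, x, y, h, e, rfl⟩ := h
  have hl := hm x y h
  have : ∃ s t, p = u ++ s ∧ q = t ++ v ∧ x = s ++ z ++ t := by
    rcases List.append_eq_append_iff.1 e with ⟨k, e1, rfl⟩ | ⟨k, e1, rfl⟩
    · rw [List.append_assoc] at e1
      rcases List.append_eq_append_iff.1 e1 with ⟨m, rfl, rfl⟩ | ⟨m, rfl, e2⟩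
      · exact ⟨m, k, rfl, rfl, by simp⟩
      · cases m with
        | nil => exact ⟨[], k, by simp, rfl, by simpa using e2.symm⟩
        | cons a m =>
          rcases List.append_eq_append_iff.1 e2 with ⟨o, e3, rfl⟩ | ⟨o, rfl, rfl⟩
          · exact (hq _ ⟨o, v, x, y, h, rfl, rfl⟩).elim
          · simp only [List.length_append, List.length_cons] at hz
            obtain rfl : o = [] := List.length_eq_zero_iff.1 (by omega)
            exact (hq _ ⟨[], v, _, y, h, by simp, rfl⟩).elim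
    · rcases List.append_eq_append_iff.1 e1 with ⟨m, e2, rfl⟩ | ⟨m, rfl, rfl⟩
      · by_cases hk : k = []
        · subst hk
          rcases List.append_eq_append_iff.1 e2 with ⟨o, rfl, rfl⟩ | ⟨o, rfl, rfl⟩
          · exact ⟨o, [], rfl, by simp, by simp⟩
          · simp at hz hl
            obtain rfl : o = [] := List.length_eq_zero_iff.1 (by omega)
            exact ⟨[], [], by simp, by simp, by simp⟩
        · have := List.length_pos_iff.2 hk
          simp at hz
          obtain rfl : m = [] := List.length_eq_zero_iff.1 (by omega)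
          exact (hp _ ⟨u, [], x, y, h, by simpa using e2.symm, rfl⟩).elim
      · exact (hp _ ⟨u, m, x, y, h, rfl, rfl⟩).elim
  obtain ⟨s, t, rfl, rfl, rfl⟩ := this
  obtain ⟨p1, p2, q1, q2, z', rfl, rfl, a1, a2, a3⟩ := ih (u ++ y ++ v).length
    (by simp at hn hl ⊢; omega) hp.left hq.right y hl.1 rfl
  refine ⟨p1, p2 ++ s, t ++ q1, q2, z', by simp, by simp, a1, ?_, a3⟩
  rw [← a2]
  have := cls_rule h
  simp only [cls_app, mul_assoc] at this ⊢
  rw [← this]
  simp only [mul_assoc]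

abbrev V (A : Type) (N : ℕ) : Type := Fin N → Option A

def enc (N : ℕ) (l : List A) : V A N := fun i => l[i]?

theorem enc_inj {N : ℕ} {a b : List A} (ha : a.length ≤ N) (hb : b.length ≤ N)
    (h : enc N a = enc N b) : a = b := by
  refine List.ext_getElem? fun i => ?_
  by_cases hi : i < N
  · exact congrFun h ⟨i, hi⟩
  · rw [List.getElem?_eq_none (by omega), List.getElem?_eq_none (by omega)]

def sh (N : ℕ) (P : List A → Prop) : V A N → Prop := fun v => ∃ t, t.length ≤ N ∧ enc N t = v ∧ P t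

theorem sh_eq {N : ℕ} {P Q : List A → Prop} (h : sh N P = sh N Q) {t : List A}
    (ht : t.length ≤ N) (hp : P t) : Q t := by
  obtain ⟨t', h1, h2, h3⟩ := (congrFun h (enc N t)).mp ⟨t, ht, rfl, hp⟩
  exact enc_inj h1 ht h2 ▸ h3

abbrev I (A : Type) (N : ℕ) : Type := T (Prop × V A N)
abbrev G (A : Type) (N : ℕ) : Type := T (I A N × (V A N → Prop) × Prop)
abbrev H (A : Type) (N : ℕ) : Type := T (I A N × (V A N → G A N → Prop))

variable {L N : ℕ} (hL : ∀ x y, (x, y) ∈ R → x.length ≤ L) (hN : L ≤ N)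
include hL hN

theorem idxI : Idx (I A N) (Irr R) := by
  refine nerodeL (fun w => (Irr R w, enc N (w.take N))) fun w w' e s h => ?_
  obtain ⟨e1, e2⟩ := Prod.mk.inj e
  have e3 := enc_inj (by simp) (by simp) e2
  have h1 : Irr R (s ++ w'.take N) := by
    rw [← e3]
    exact Irr.left (b := w.drop N) (by simpa using h)
  by_cases hw : N ≤ w'.length
  · simpa using freeze hL h1 (c := w'.drop N) (by simpa using e1.mp h.right) (by simp; omega)
  · rwa [List.take_of_length_le (by omega)] at h1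

variable (hm : Monadic R)
include hm

theorem idxR {a : List A} (ha : Irr R a) (S : (con R).Quotient → Prop)
    (hS : ∀ w, Irr R w → S (cls R w) → w.length < L) (h : a.length + L + 1 ≤ N) :
    Idx (G A N) fun w => Irr R w ∧ S (cls R (a ++ w)) := by
  obtain ⟨η, hη⟩ := idxI hL hN
  refine nerodeR (fun w => (η w, sh N fun t => cls R (a ++ w) = cls R t, True))
    fun w w' e s ⟨h1, h2⟩ => ?_
  simp only [Prod.mk.injEq] at e
  refine ⟨by simpa using (hη _ _ e.1 [] s).1 (by simpa using h1), ?_⟩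
  obtain ⟨a1, a2, w1, w2, z, rfl, rfl, b1, b2, b3⟩ := struct hm ha h1.left [] (by simp)
  have e1 : cls R (a1 ++ a2 ++ (w1 ++ w2)) = cls R (a1 ++ z ++ w2) := by
    simp only [cls_app, List.append_nil, mul_assoc] at b2 ⊢
    rw [← b2, mul_assoc]
  rw [← List.append_assoc, cls_app] at h2 ⊢
  by_cases hw : L ≤ w2.length
  · have := hS _ (freeze hL b3 (c := s) (Irr.right (a := w1) (by simpa using h1)) hw)
      (by rwa [cls_app, ← e1])
    simp at this
    omega
  · rwa [sh_eq e.2.1 (by simp at h ⊢; omega) e1, ← e1]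

theorem idxL {a : List A} (ha : Irr R a) (S : (con R).Quotient → Prop)
    (hS : ∀ w, Irr R w → S (cls R w) → w.length < L) (h : a.length + L + 1 ≤ N) :
    Idx (G A N) fun w => Irr R w ∧ S (cls R (w ++ a)) := by
  obtain ⟨η, hη⟩ := idxI hL hN
  refine nerodeL (fun w => (η w, sh N fun t => cls R (w ++ a) = cls R t, True))
    fun w w' e s ⟨h1, h2⟩ => ?_
  simp only [Prod.mk.injEq] at e
  refine ⟨by simpa using (hη _ _ e.1 s []).1 (by simpa using h1), ?_⟩
  obtain ⟨w1, w2, a1, a2, z, rfl, rfl, b1, b2, b3⟩ := struct hm h1.right ha [] (by simp)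
  have e1 : cls R (w1 ++ w2 ++ (a1 ++ a2)) = cls R (w1 ++ (z ++ a2)) := by
    simp only [cls_app, List.append_nil, mul_assoc] at b2 ⊢
    rw [← b2, mul_assoc]
  rw [List.append_assoc, cls_app] at h2 ⊢
  by_cases hw : L ≤ w1.length
  · have := hS _ (freeze hL (a := s) (Irr.left (b := w2) (by simpa using h1))
      (c := z ++ a2) (by simpa using b3) hw) (by rwa [List.append_assoc, cls_app, ← e1])
    simp at this
    omega
  · rwa [sh_eq e.2.1 (by simp at h ⊢; omega) e1, ← e1]

variable (hc : Confluent R) (hZ : ∀ w, Irr R w → IsZ (cls R w) → w.length < L)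
include hc hZ

theorem idxLang {a : List A} (ha : Irr R a) (h : a.length + L + 1 ≤ N) :
    Idx (G A N) fun n => Irr R n ∧ ¬ IsZ (cls R n) ∧ ∃ m, cls R n = m * cls R a := by
  obtain ⟨η, hη⟩ := idxI hL hN
  refine nerodeL (fun w => (η w, sh N fun t => w = t, ∃ m, cls R w = m * cls R a))
    fun w w' e s ⟨h1, h2, m, h3⟩ => ?_
  simp only [Prod.mk.injEq] at e
  by_cases hw : w.length ≤ N
  · exact sh_eq e.2.1 hw rfl ▸ ⟨h1, h2, m, h3⟩
  have hw' : ¬ w'.length ≤ N := fun hw' => hw (sh_eq e.2.1.symm hw' rfl ▸ hw')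
  have h4 : Irr R (s ++ w') := by simpa using (hη _ _ e.1 s []).1 (by simpa using h1)
  refine ⟨h4, fun h5 => by have := hZ _ h4 h5; simp at this; omega, ?_⟩
  obtain ⟨m, rfl⟩ := cls_surj m
  obtain ⟨m', h5, h6, -⟩ := exists_irr hm m
  obtain ⟨m1, m2, a1, a2, z, rfl, rfl, b1, b2, b3⟩ := struct hm h5 ha [] (by simp)
  have e1 : s ++ w = m1 ++ (z ++ a2) := irr_eq hc h1 (by simpa using b3) (by
    simp only [h3, ← h6, cls_app, List.append_nil, mul_assoc] at b2 ⊢
    rw [← b2, mul_assoc])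
  obtain ⟨k, rfl⟩ : z ++ a2 <:+ w := List.suffix_of_suffix_length_le
    (e1 ▸ List.suffix_append _ _) (List.suffix_append s w) (by simp at h ⊢; omega)
  obtain ⟨m, h7⟩ := e.2.2.mp ⟨cls R k * cls R m2, by
    simp only [cls_app, List.append_nil, mul_assoc] at b2 ⊢
    rw [← b2, mul_assoc]⟩
  exact ⟨cls R s * m, by rw [cls_app, h7, mul_assoc]⟩

theorem idxP {a : List A} (ha : Irr R a) (h : a.length + L + 1 ≤ N) :
    Idx (H A N) fun g => Irr R g ∧ ∀ m, IsZ (m * cls R a * cls R g) → IsZ (m * cls R a) := by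
  obtain ⟨η, hη⟩ := idxI hL hN
  obtain ⟨τ, hτ⟩ := idxLang hL hN hm hc hZ ha h
  suffices Idx (H A N) fun g => Irr R g →
      ¬ ∀ m, IsZ (m * cls R a * cls R g) → IsZ (m * cls R a) by
    obtain ⟨θ, hθ⟩ := this
    exact ⟨θ, fun w w' e p s => by simpa using not_congr (hθ w w' e p s)⟩
  refine nerodeR (fun w => (η w, fun v x => sh N
    (fun t => ∃ n, τ n = x ∧ cls R (n ++ w) = cls R t) v)) fun w w' e s h1 h2 h3 => ?_
  simp only [Prod.mk.injEq] at e
  have h4 : Irr R (w ++ s) := by simpa using (hη _ _ e.1 [] s).2 (by simpa using h2)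
  refine h1 h4 fun m h5 => ?_
  by_contra h6
  obtain ⟨n0, h7⟩ := cls_surj (m * cls R a)
  obtain ⟨n, h8, h9, -⟩ := exists_irr hm n0
  obtain ⟨n1, n2, w1, w2, z, rfl, rfl, b1, b2, b3⟩ := struct hm h8 h4.left [] (by simp)
  have e1 : cls R (n2 ++ (w1 ++ w2)) = cls R (z ++ w2) := by
    simp only [cls_app, List.append_nil, mul_assoc] at b2 ⊢
    rw [← b2, mul_assoc]
  have h10 : IsZ (cls R (n1 ++ z ++ w2 ++ s)) := by
    rw [← h7, ← h9] at h5
    simp only [cls_app, mul_assoc] at e1 h5 ⊢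
    rwa [← mul_assoc (cls R z), ← e1, mul_assoc, mul_assoc]
  by_cases hw : L ≤ w2.length
  · have := hZ _ (freeze hL b3 (c := s) (Irr.right (a := w1) (by simpa using h4)) hw) h10
    simp at this
    omega
  obtain ⟨n', c1, c2⟩ := sh_eq (funext fun v => congrFun₂ e.2 v (τ n2)) (t := z ++ w2)
    (by simp; omega) ⟨n2, rfl, e1⟩
  obtain ⟨-, c3, m', c4⟩ := (hτ _ _ c1 n1 []).2
    (by simpa [h9, h7] using ⟨h8, h6, m, rfl⟩)
  rw [c4] at c3
  refine c3 (h3 m' ?_)
  rw [← c4]
  simp only [cls_app, mul_assoc, List.append_nil] at c2 h10 ⊢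
  rwa [← mul_assoc (cls R n'), c2, mul_assoc]

end Pool.Agent.H32.Mon
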