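import Mathlib

set_option autoImplicit false

namespace Pool.Agent.H32.Mon

variable {A : Type}

/-- one rewriting step `u x v → u y v` -/
def Step (R : Set (List A × List A)) (w w' : List A) : Prop :=
  ∃ u v x y, (x, y) ∈ R ∧ w = u ++ x ++ v ∧ w' = u ++ y ++ v

def Monadic (R : Set (List A × List A)) : Prop :=
  ∀ x y, (x, y) ∈ R → y.length ≤ 1 ∧ y.length < x.length

def Confluent (R : Set (List A × List A)) : Prop :=
  ∀ u v w, Relation.ReflTransGen (Step R) u v → Relation.ReflTransGen (Step R) u w →
    ∃ z, Relation.ReflTransGen (Step R) v z ∧ Relation.ReflTransGen (Step R) w z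

/-- the smallest congruence on the free monoid containing `R` -/
def con (R : Set (List A × List A)) : Con (FreeMonoid A) :=
  conGen fun a b => (FreeMonoid.toList a, FreeMonoid.toList b) ∈ R

/-- the class of a word in the monoid presented by `R` -/
def cls (R : Set (List A × List A)) (u : List A) : (con R).Quotient :=
  (con R).mk' (FreeMonoid.ofList u)

def PConj {M : Type} [Monoid M] (a b : M) : Prop := ∃ u v : M, a = u * v ∧ b = v * u

end Pool.Agent.H32.Mon
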