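import Pool.Agent.H32.MonD
import Pool.Agent.H37.CI

set_option autoImplicit false

namespace Pool.Agent.H32.Mon

open Relation Pool.Agent.H37

variable {A : Type} {R : Set (List A × List A)}

instance finI [Finite A] (N : ℕ) : Finite (I A N) := inferInstance
instance finG [Finite A] (N : ℕ) : Finite (G A N) := inferInstance
instance finH0 [Finite A] (N : ℕ) : Finite (V A N → G A N → Prop) := inferInstance
instance finH1 [Finite A] (N : ℕ) : Finite (I A N × (V A N → G A N → Prop)) := inferInstance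
instance finH [Finite A] (N : ℕ) : Finite (H A N) := inferInstance

noncomputable def kk (A : Type) (N : ℕ) : ℕ := Nat.card (H A N × G A N × G A N)

theorem kk_ci [Finite A] : CI ∅ (kk A) := by
  unfold kk
  simp only [Nat.card_prod, Nat.card_fun, Nat.card_eq_fintype_card (α := Prop), Fintype.card_prop,
    Nat.card_fin]
  fun_prop

section
variable [Finite A] {L : ℕ} (hL : ∀ x y, (x, y) ∈ R → x.length ≤ L) (hm : Monadic R)
  (hc : Confluent R) (hZ : ∀ w, Irr R w → IsZ (cls R w) → w.length < L)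
include hL hm hc hZ

theorem boundM (a g : List A) {N : ℕ} (hN : a.length + g.length + L + 1 ≤ N) :
    (∀ m, IsZ (m * cls R a * cls R g) → IsZ (m * cls R a)) ↔ ∀ m : List A,
      m.length ≤ kk A N → IsZ (cls R (m ++ a ++ g)) → IsZ (cls R (m ++ a)) := by
  refine ⟨fun h m _ => by simpa only [cls_app] using h (cls R m), fun h m h1 => ?_⟩
  by_contra h2
  obtain ⟨m0, rfl⟩ := cls_surj m
  obtain ⟨m, h3, h4, -⟩ := exists_irr hm m0
  obtain ⟨a', a1, a2, a3⟩ := exists_irr hm a
  obtain ⟨c, c1, c2, c3⟩ := exists_irr hm (a ++ g)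
  obtain ⟨m', h5, -, h6, h7⟩ := (cg3 (X := H A N) (P := fun _ => True)
    ⟨fun _ _ _ => True, fun _ _ _ _ _ => Iff.rfl⟩
    (idxL hL (N := N) (by omega) hm a1 IsZ hZ (by omega))
    (idxL hL (N := N) (by omega) hm c1 IsZ hZ (by simp at c3; omega))).short m
  have h8 := h7.to ⟨h3, by rwa [cls_app, c2, h4, cls_app, ← mul_assoc]⟩
  have h9 := h m' h5 (by simpa [cls_app, c2] using h8.2)
  have := (h6 [] []).2 (by simpa [cls_app, a2] using ⟨h8.1, by simpa [cls_app] using h9⟩)
  simp [cls_app, a2, h4] at this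
  exact h2 this.2

theorem boundG (a b : List A) {N : ℕ} (hN : 2 * (a.length + b.length) + L + 3 ≤ N)
    (g : (con R).Quotient) (h1 : ∀ m, IsZ (m * cls R a * g) → IsZ (m * cls R a))
    (h2 : cls R a * g = g * cls R b) : ∃ g : List A, g.length ≤ (N + 2 * kk A N) * (kk A N + 3) ∧
      (∀ m, IsZ (m * cls R a * cls R g) → IsZ (m * cls R a)) ∧
        cls R (a ++ g) = cls R (g ++ b) := by
  obtain ⟨g0, rfl⟩ := cls_surj g
  obtain ⟨g, g1, g2, -⟩ := exists_irr hm g0
  obtain ⟨a', a1, a2, a3⟩ := exists_irr hm a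
  obtain ⟨b', b1, b2, b3⟩ := exists_irr hm b
  simp only [cls_app, ← a2, ← b2, ← g2] at h1 h2 ⊢
  obtain ⟨p1, p2, u1, u2, z, rfl, e1, c1, c2, c3⟩ := struct hm a1 g1 [] (by simp)
  obtain ⟨u3, u4, q1, q2, z', e2, rfl, d1, d2, d3⟩ := struct hm g1 b1 [] (by simp)
  have c4 : cls R (p1 ++ p2 ++ u1) = cls R (p1 ++ z) := by
    simp only [cls_app, List.append_nil, mul_assoc] at c2 ⊢
    rw [c2]
  have d4 : cls R (u4 ++ (q1 ++ q2)) = cls R (z' ++ q2) := by
    simp only [cls_app, List.append_nil, mul_assoc] at d2 ⊢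
    rw [← d2, mul_assoc]
  rw [List.append_assoc] at d3
  have e3 : p1 ++ z ++ u2 = u3 ++ (z' ++ q2) := irr_eq hc c3 d3 (by
    rw [cls_app, ← c4, cls_app, mul_assoc, ← cls_app u1, ← e1, h2, cls_app u3, ← d4, e2]
    simp only [cls_app, mul_assoc])
  simp only [List.length_append] at a3 b3
  obtain ⟨v1, v2, v3, v4, f1, f2, f3, f4, f5, f6⟩ := weq (cg3
    (idxP hL (N := N) (by omega) hm hc hZ a1 (by simp; omega))
    (idxR (L := L + a.length + 2) (N := N) (fun x y h => (hL x y h).trans (by omega)) (by omega) hm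
      a1 (· = cls R (p1 ++ z)) (fun w h h' => by rw [irr_eq hc h c3.left h']; simp; omega)
      (by simp; omega))
    (idxL (L := L + b.length + 2) (N := N) (fun x y h => (hL x y h).trans (by omega)) (by omega) hm
      b1 (· = cls R (z' ++ q2)) (fun w h h' => by rw [irr_eq hc h d3.right h']; simp; omega)
      (by simp; omega))) (e1.symm.trans e2) e3 (e1 ▸ ⟨g1, h1⟩) ⟨(e1 ▸ g1).left, c4⟩
      ⟨(e2 ▸ g1).right, d4⟩
  refine ⟨v1 ++ v2, f6.trans (Nat.mul_le_mul_right _ (by simp [kk]; omega)), f3.2, ?_⟩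
  rw [← cls_app, ← List.append_assoc, cls_app, f4.2, ← cls_app, f2, f1, cls_app, ← f5.2]
  simp only [cls_app, mul_assoc]

end

theorem cconj_iff {M : Type} [Monoid M] (a b : M) : CConj a b ↔ (IsZ a ∧ IsZ b) ∨
    (¬ IsZ a ∧ ¬ IsZ b ∧ (∃ g, (∀ m, IsZ (m * a * g) → IsZ (m * a)) ∧ a * g = g * b) ∧
      ∃ g, (∀ m, IsZ (m * b * g) → IsZ (m * b)) ∧ b * g = g * a) := by
  have : ∀ a b h : M, IsZ a → PP b h → b * h = h * a → IsZ b := fun a b h h1 h2 h3 => by
    by_contra hb
    exact hb (by simpa using h2.2 hb 1 (by rwa [one_mul, h3, (h1 h).2]))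
  constructor
  · rintro ⟨g, h, h1, h2, h3, h4⟩
    by_cases ha : IsZ a
    · exact .inl ⟨ha, this a b h ha h2 h4⟩
    · have hb := fun hb => ha (this b a g hb h1 h3)
      exact .inr ⟨ha, hb, ⟨g, h1.2 ha, h3⟩, h, h2.2 hb, h4⟩
  · rintro (⟨h1, h2⟩ | ⟨h1, h2, ⟨g, h3, h4⟩, h, h5, h6⟩)
    · obtain rfl : a = b := (h1 b).1.symm.trans (h2 a).2
      exact ⟨a, a, ⟨id, fun h => (h h1).elim⟩, ⟨id, fun h => (h h1).elim⟩, rfl, rfl⟩
    · exact ⟨g, h, ⟨fun h => (h1 h).elim, fun _ => h3⟩, ⟨fun h => (h2 h).elim, fun _ => h5⟩, h4, h6⟩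

def ws (al : List A) (n : ℕ) : List (List A) :=
  (fun l => [] :: l.flatMap fun w => al.map fun a => a :: w)^[n] [[]]

theorem mem_ws {al : List A} (h : ∀ a, a ∈ al) (n : ℕ) (w : List A) :
    w ∈ ws al n ↔ w.length ≤ n := by
  induction n generalizing w with
  | zero => simp [ws]
  | succ n ih =>
    unfold ws at ih ⊢
    rw [Function.iterate_succ_apply']
    cases w <;> simp [ih, h]

def sc [DecidableEq A] (rl : List (List A × List A)) (w : List A) : List (List A) :=
  w :: (List.range (w.length + 1)).flatMap fun i =>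
    (rl.filter fun r => decide ((w.drop i).take r.1.length = r.1)).map
      fun r => w.take i ++ r.2 ++ w.drop (i + r.1.length)

theorem mem_sc [DecidableEq A] {rl : List (List A × List A)} (h : ∀ r, r ∈ rl ↔ r ∈ R)
    (w v : List A) : v ∈ sc rl w ↔ v = w ∨ Step R w v := by
  simp only [sc, List.mem_cons, List.mem_flatMap, List.mem_range, List.mem_map, List.mem_filter,
    decide_eq_true_eq, h]
  refine or_congr_right ⟨?_, ?_⟩
  · rintro ⟨i, -, ⟨x, y⟩, ⟨h1, h2⟩, rfl⟩
    refine ⟨_, _, x, y, h1, ?_, rfl⟩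
    simp only at h2 ⊢
    conv_rhs => rw [← h2]
    rw [h2, ← List.drop_drop, List.append_assoc]
    conv_rhs => enter [2, 1]; rw [← h2]
    simp
  · rintro ⟨u, v, x, y, h1, rfl, rfl⟩
    exact ⟨u.length, by simp, (x, y), ⟨h1, by simp⟩, by simp⟩

def ds [DecidableEq A] (rl : List (List A × List A)) (w : List A) : List (List A) :=
  (fun l => l.flatMap fun x => sc rl x)^[w.length] [w]

theorem mem_ds [DecidableEq A] {rl : List (List A × List A)} (h : ∀ r, r ∈ rl ↔ r ∈ R)
    (hm : Monadic R) (w v : List A) : v ∈ ds rl w ↔ ReflTransGen (Step R) w v := by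
  have : ∀ n v, (v ∈ (fun l => l.flatMap fun x => sc rl x)^[n] [w] → ReflTransGen (Step R) w v) ∧
      (ReflTransGen (Step R) w v → w.length ≤ v.length + n →
        v ∈ (fun l => l.flatMap fun x => sc rl x)^[n] [w]) := by
    have hl : ∀ a b, Step R a b → b.length < a.length := by
      rintro _ _ ⟨p, q, x, y, h, rfl, rfl⟩
      have := (hm x y h).2
      simp
      omega
    have hl' : ∀ b, ReflTransGen (Step R) w b → b.length ≤ w.length := by
      intro b h
      induction h with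
      | refl => rfl
      | tail _ h ih => exact (hl _ _ h).le.trans ih
    have hs : ∀ n, w ∈ (fun l => l.flatMap fun x => sc rl x)^[n] [w] := by
      intro n
      induction n with
      | zero => simp
      | succ n ih =>
        rw [Function.iterate_succ_apply']
        exact List.mem_flatMap.2 ⟨w, ih, (mem_sc h _ _).2 (.inl rfl)⟩
    intro n
    induction n with
    | zero =>
      refine fun v => ⟨by simp +contextual [ReflTransGen.refl], fun h1 h2 => ?_⟩
      rcases h1.cases_tail with rfl | ⟨c, h3, h4⟩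
      · simp
      · have := hl _ _ h4
        have := hl' _ h3
        omega
    | succ n ih =>
      refine fun v => ⟨fun h1 => ?_, fun h1 h2 => ?_⟩
      · rw [Function.iterate_succ_apply'] at h1
        obtain ⟨c, h2, h3⟩ := List.mem_flatMap.1 h1
        rcases (mem_sc h _ _).1 h3 with rfl | h3
        · exact (ih _).1 h2
        · exact ((ih _).1 h2).tail h3
      · rcases h1.cases_tail with rfl | ⟨c, h3, h4⟩
        · exact hs _
        · rw [Function.iterate_succ_apply']
          have := hl _ _ h4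
          exact List.mem_flatMap.2 ⟨c, (ih c).2 h3 (by omega), (mem_sc h _ _).2 (.inr h4)⟩
  exact ⟨(this _ v).1, fun h => (this _ v).2 h (by omega)⟩

theorem isZ_iff (w : List A) : IsZ (cls R w) ↔
    ∀ x, cls R (w ++ [x]) = cls R w ∧ cls R ([x] ++ w) = cls R w := by
  refine ⟨fun h x => by simpa only [cls_app] using h _, fun h y => ?_⟩
  obtain ⟨y, rfl⟩ := cls_surj y
  simp only [cls_app] at h
  induction y with
  | nil => exact ⟨mul_one _, one_mul _⟩
  | cons x y ih =>
    rw [← List.singleton_append, cls_app, ← mul_assoc, (h x).1, mul_assoc, ih.2, (h x).2]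
    exact ⟨ih.1, rfl⟩

theorem mainC [Finite A] [Primcodable A] (hf : R.Finite) (hm : Monadic R) (hc : Confluent R) :
    ComputablePred fun p : List A × List A => CConj (cls R p.1) (cls R p.2) := by
  classical
  haveI := Fintype.ofFinite A
  obtain ⟨al, hal⟩ : ∃ al : List A, ∀ a, a ∈ al := ⟨Finset.univ.toList, by simp⟩
  obtain ⟨rl, hrl⟩ : ∃ rl : List (List A × List A), ∀ r, r ∈ rl ↔ r ∈ R :=
    ⟨hf.toFinset.toList, by simp⟩
  obtain ⟨L, hL, hZ⟩ : ∃ L, (∀ x y, (x, y) ∈ R → x.length ≤ L) ∧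
      ∀ w, Irr R w → IsZ (cls R w) → w.length < L := by
    obtain ⟨L, hL⟩ := (hf.image fun r => r.1.length).bddAbove
    have hL' : ∀ x y, (x, y) ∈ R → x.length ≤ L := fun x y h => hL ⟨_, h, rfl⟩
    by_cases h : ∃ w, Irr R w ∧ IsZ (cls R w)
    · obtain ⟨w, h1, h2⟩ := h
      refine ⟨L + w.length + 1, fun x y h => (hL' x y h).trans (by omega), fun v h3 h4 => ?_⟩
      rw [irr_eq hc h3 h1 ((h4 _).1.symm.trans (h2 _).2)]
      omega
    · exact ⟨L, hL', fun w h1 h2 => (h ⟨w, h1, h2⟩).elim⟩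
  obtain ⟨eq, eq1, eq2⟩ : ∃ eq : List A × List A → Bool, CI ∅ eq ∧
      ∀ u v, eq (u, v) = true ↔ cls R u = cls R v := by
    have h1 : CI ∅ (sc rl) := by unfold sc; fun_prop
    have h2 : CI ∅ (ds rl) := by unfold ds; fun_prop
    refine ⟨fun p => (ds rl p.1).any fun x => (ds rl p.2).any fun y => decide (x = y),
      by fun_prop, fun u v => ?_⟩
    simp [cls_eq hc, mem_ds hrl hm]
  obtain ⟨zz, zz1, zz2⟩ : ∃ zz : List A → Bool, CI ∅ zz ∧ ∀ u, zz u = true ↔ IsZ (cls R u) :=
    ⟨fun u => al.all fun x => eq (u ++ [x], u) && eq ([x] ++ u, u), by fun_prop, fun u => by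
      simp only [List.all_eq_true, hal, true_imp_iff, Bool.and_eq_true, eq2, isZ_iff]⟩
  have hw : CI ∅ (ws al) := by unfold ws; fun_prop
  have hk := kk_ci (A := A)
  obtain ⟨pm, pm1, pm2⟩ : ∃ pm : List A × List A → Bool, CI ∅ pm ∧ ∀ a g, pm (a, g) = true ↔
      ∀ m, IsZ (m * cls R a * cls R g) → IsZ (m * cls R a) :=
    ⟨fun p => (ws al (kk A (p.1.length + p.2.length + L + 1))).all fun m =>
      !zz (m ++ p.1 ++ p.2) || zz (m ++ p.1), by fun_prop, fun a g => by
      rw [boundM hL hm hc hZ a g le_rfl]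
      simp only [List.all_eq_true, mem_ws hal, Bool.or_eq_true,
        Bool.not_eq_true', ← Bool.not_eq_true, zz2, imp_iff_not_or]⟩
  obtain ⟨ee, ee1, ee2⟩ : ∃ ee : List A × List A → Bool, CI ∅ ee ∧ ∀ a b, ee (a, b) = true ↔
      ∃ g, (∀ m, IsZ (m * cls R a * g) → IsZ (m * cls R a)) ∧ cls R a * g = g * cls R b := by
    refine ⟨fun p => (ws al ((2 * (p.1.length + p.2.length) + L + 3 +
      2 * kk A (2 * (p.1.length + p.2.length) + L + 3)) *
        (kk A (2 * (p.1.length + p.2.length) + L + 3) + 3))).any fun g =>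
      pm (p.1, g) && eq (p.1 ++ g, g ++ p.2), by fun_prop, fun a b => ?_⟩
    simp only [List.any_eq_true, mem_ws hal, Bool.and_eq_true, pm2, eq2]
    exact ⟨fun ⟨g, _, h1, h2⟩ => ⟨_, h1, by simpa only [cls_app] using h2⟩,
      fun ⟨g, h1, h2⟩ => boundG hL hm hc hZ a b le_rfl g h1 h2⟩
  refine ComputablePred.computable_iff.2 ⟨fun p => (zz p.1 && zz p.2) ||
    (!zz p.1 && (!zz p.2 && (ee (p.1, p.2) && ee (p.2, p.1)))), CI.computable (by fun_prop),
    funext fun p => propext ?_⟩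
  simp only [cconj_iff, Bool.or_eq_true, Bool.and_eq_true, Bool.not_eq_true', ← Bool.not_eq_true,
    zz2, ee2]

end Pool.Agent.H32.Mon
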