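import Pool.Agent.H32.NcDefs

open Pointwise

namespace Pool.Agent.H32.Nc

abbrev PP := Equiv.Perm (Fin 8)
def dg (c x : ℕ) : ℕ := c / 8 ^ x % 8
def f (c : ℕ) : Fin 8 → Fin 8 := fun x => ⟨dg c x, Nat.mod_lt _ (by norm_num)⟩
def pk (a0 a1 a2 a3 a4 a5 a6 a7 : ℕ) : ℕ :=
  a0 + 8 * (a1 + 8 * (a2 + 8 * (a3 + 8 * (a4 + 8 * (a5 + 8 * (a6 + 8 * a7))))))
def cm (c d : ℕ) : ℕ := pk (dg c (dg d 0)) (dg c (dg d 1)) (dg c (dg d 2)) (dg c (dg d 3))
  (dg c (dg d 4)) (dg c (dg d 5)) (dg c (dg d 6)) (dg c (dg d 7))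
def e : ℕ := 16434824
def nf (c : ℕ) : ℕ := cm c e
def pw (g : ℕ) : ℕ → ℕ
  | 0 => e
  | n + 1 => cm (pw g n) g

theorem dg_lt (c x : ℕ) : dg c x < 8 := Nat.mod_lt _ (by norm_num)

theorem f_cm (c d : ℕ) : f (cm c d) = f c ∘ f d := by
  funext x
  have h0 := dg_lt c (dg d 0); have h1 := dg_lt c (dg d 1); have h2 := dg_lt c (dg d 2)
  have h3 := dg_lt c (dg d 3); have h4 := dg_lt c (dg d 4); have h5 := dg_lt c (dg d 5)
  have h6 := dg_lt c (dg d 6); have h7 := dg_lt c (dg d 7)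
  apply Fin.ext
  show dg (cm c d) x = dg c (dg d x)
  unfold cm pk
  rw [dg]
  fin_cases x <;> simp only [] <;> omega

def R (π : PP) (c : ℕ) : Prop := ⇑π = f c
theorem R_mul {π ρ : PP} {c d : ℕ} (h : R π c) (k : R ρ d) : R (π * ρ) (cm c d) := by
  unfold R at *; rw [f_cm, ← h, ← k]; rfl
theorem R_one : R 1 e := by unfold R; decide +kernel
theorem R_pw {π : PP} {c : ℕ} (h : R π c) : ∀ n, R (π ^ n) (pw c n)
  | 0 => by rw [pow_zero]; exact R_one
  | n + 1 => by rw [pow_succ]; exact R_mul (R_pw h n) h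
theorem R_eq {π ρ : PP} {c : ℕ} (h : R π c) (k : R ρ c) : π = ρ :=
  Equiv.coe_fn_injective (h.trans k.symm)
def cd (π : PP) : ℕ := pk (π 0) (π 1) (π 2) (π 3) (π 4) (π 5) (π 6) (π 7)
theorem R_cd {π : PP} {c : ℕ} (h : R π c) : cd π = nf c := by
  unfold cd; rw [h]; rfl
theorem R_nf {π : PP} {c : ℕ} (h : R π c) : R π (nf c) := by
  have := R_mul h R_one; rwa [mul_one] at this
theorem R_iff {π ρ : PP} {c d : ℕ} (h : R π c) (k : R ρ d) : π = ρ ↔ nf c = nf d :=
  ⟨fun e => by rw [← R_cd h, ← R_cd k, e], fun e => R_eq (R_nf h) (e ▸ R_nf k)⟩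
theorem nf_e : nf e = e := by decide +kernel
theorem R_one_iff {π : PP} {c : ℕ} (h : R π c) : π = 1 ↔ nf c = e := by
  rw [R_iff h R_one, nf_e]
theorem exR {c : ℕ} (h : Function.Injective (f c)) : ∃ π, R π c :=
  ⟨Equiv.ofBijective _ (Finite.injective_iff_bijective.1 h), rfl⟩

def Ok (L : List ℕ) : Prop := e ∈ L ∧ (∀ c ∈ L, ∀ d ∈ L, cm c d ∈ L) ∧
  (∀ c ∈ L, Function.Injective (f c) ∧ nf c = c) ∧ L.Nodup
instance (L : List ℕ) : Decidable (Ok L) := by unfold Ok; infer_instance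

def sg (L : List ℕ) (h : Ok L) : Subgroup PP where
  carrier := {π | ∃ c ∈ L, R π c}
  one_mem' := ⟨e, h.1, R_one⟩
  mul_mem' := fun ⟨c, hc, h1⟩ ⟨d, hd, h2⟩ => ⟨_, h.2.1 c hc d hd, R_mul h1 h2⟩
  inv_mem' := by
    rintro π ⟨c, hc, h1⟩
    have hp : ∀ n, pw c n ∈ L := fun n => by
      induction n with
      | zero => exact h.1
      | succ n ih => exact h.2.1 _ ih c hc
    have : π⁻¹ = π ^ (orderOf π - 1) := by
      rw [inv_eq_iff_mul_eq_one, ← pow_succ', Nat.sub_add_cancel (orderOf_pos π), pow_orderOf_eq_one]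
    exact ⟨_, hp _, this ▸ R_pw h1 _⟩

theorem card_sg (L : List ℕ) (h : Ok L) : Nat.card (sg L h) = L.length := by
  rw [← List.toFinset_card_of_nodup h.2.2.2, ← Nat.card_eq_finsetCard]
  refine Nat.card_eq_of_bijective (fun π => ⟨cd π.1, ?_⟩) ⟨?_, ?_⟩
  · obtain ⟨c, hc, h1⟩ := π.2
    rw [R_cd h1, (h.2.2.1 c hc).2]; simpa using hc
  · rintro ⟨π, c, hc, h1⟩ ⟨ρ, d, hd, h2⟩ e
    simp only [Subtype.mk.injEq] at e ⊢
    rw [R_iff h1 h2, ← R_cd h1, ← R_cd h2, e]
  · rintro ⟨c, hc⟩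
    have hc' : c ∈ L := by simpa using hc
    obtain ⟨π, h1⟩ := exR (h.2.2.1 c hc').1
    exact ⟨⟨π, c, hc', h1⟩, Subtype.ext ((R_cd h1).trans (h.2.2.1 c hc').2)⟩

theorem perm_eq {K : Type} [Group K] {A B : Subgroup K} (h : (B : Set K) * A ⊆ A * B) :
    (A : Set K) * B = B * A := by
  refine Set.Subset.antisymm ?_ h
  rintro _ ⟨a, ha, b, hb, rfl⟩
  obtain ⟨a', ha', b', hb', e⟩ := h ⟨b⁻¹, B.inv_mem hb, a⁻¹, A.inv_mem ha, rfl⟩
  refine ⟨b'⁻¹, B.inv_mem hb', a'⁻¹, A.inv_mem ha', ?_⟩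
  simp only at e ⊢
  rw [← mul_inv_rev, e, ← mul_inv_rev, inv_inv]

theorem coe_sup' {K : Type} [Group K] {A B : Subgroup K} (h : (B : Set K) * A ⊆ A * B) :
    ((A ⊔ B : Subgroup K) : Set K) = A * B := by
  let H : Subgroup K :=
    { carrier := (A : Set K) * B
      one_mem' := ⟨1, A.one_mem, 1, B.one_mem, mul_one 1⟩
      mul_mem' := by
        rintro _ _ ⟨a, ha, b, hb, rfl⟩ ⟨a', ha', b', hb', rfl⟩
        obtain ⟨x, hx, y, hy, e⟩ := h ⟨b, hb, a', ha', rfl⟩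
        refine ⟨a * x, A.mul_mem ha hx, y * b', B.mul_mem hy hb', ?_⟩
        simp only at e ⊢
        rw [mul_assoc, ← mul_assoc x, e]; group
      inv_mem' := by
        rintro _ ⟨a, ha, b, hb, rfl⟩
        exact h ⟨b⁻¹, B.inv_mem hb, a⁻¹, A.inv_mem ha, (mul_inv_rev a b).symm⟩ }
  refine Set.Subset.antisymm (show A ⊔ B ≤ H from sup_le (fun a ha => ⟨a, ha, 1, B.one_mem, mul_one a⟩)
    (fun b hb => ⟨1, A.one_mem, b, hb, one_mul b⟩)) ?_
  rintro _ ⟨a, ha, b, hb, rfl⟩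
  exact Subgroup.mul_mem_sup ha hb

def Chk (L : List ℕ) : Prop := ∀ g ∈ L, nf (pw g 7) = e → nf g ≠ e → ∀ x ∈ L, nf (pw x 2) = e →
  nf x ≠ e → ∃ k ∈ List.range 7, nf (pw (cm x (cm (cm (pw g k) x) (pw g (7 - k)))) 3) = e ∧
    nf (cm x (cm (cm (pw g k) x) (pw g (7 - k)))) ≠ e
instance (L : List ℕ) : Decidable (Chk L) := by unfold Chk; infer_instance

theorem noS (X : Subgroup PP) (L : List ℕ) (hX : ∀ π ∈ X, ∃ c ∈ L, R π c) (hc : Chk L) :
    ¬ Edge X 2 7 := by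
  rintro ⟨S, hS, -, -, hp, P, hP⟩
  haveI : Fact (Nat.Prime 2) := ⟨by norm_num⟩
  haveI : Fact (Nat.Prime 7) := ⟨by norm_num⟩
  obtain ⟨g, hg⟩ := exists_prime_orderOf_dvd_card' (G := S) 7
    (Nat.dvd_of_mem_primeFactors (by rw [hp]; simp))
  obtain ⟨x, hx⟩ := exists_prime_orderOf_dvd_card' (G := P) 2
    (P.dvd_card_of_dvd_card (Nat.dvd_of_mem_primeFactors (by rw [hp]; simp)))
  obtain ⟨c, hcL, h1⟩ := hX g.1 (hS g.2)
  obtain ⟨d, hdL, h2⟩ := hX x.1.1 (hS x.1.2)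
  have g7 : g ^ 7 = 1 := hg ▸ pow_orderOf_eq_one g
  have x2 : x ^ 2 = 1 := by have := pow_orderOf_eq_one x; rwa [hx] at this
  obtain ⟨k, hk, h3, h4⟩ := hc c hcL ((R_one_iff (R_pw h1 7)).1 (congrArg Subtype.val g7))
    (fun e => by
      have : g = 1 := Subtype.ext ((R_one_iff h1).2 e)
      rw [this] at hg; simp at hg) d hdL
    ((R_one_iff (R_pw h2 2)).1 (congrArg (fun t : P => t.1.1) x2))
    (fun e => by
      have : x = 1 := Subtype.ext (Subtype.ext ((R_one_iff h2).2 e))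
      rw [this] at hx; simp at hx)
  have hk' : k ≤ 7 := (List.mem_range.1 hk).le
  have hi : g ^ (7 - k) = (g ^ k)⁻¹ := by
    rw [eq_inv_iff_mul_eq_one, ← pow_add, Nat.sub_add_cancel hk', g7]
  have hy : x.1 * (g ^ k * x.1 * g ^ (7 - k)) ∈ (P : Subgroup S) :=
    Subgroup.mul_mem _ x.2 (by rw [hi]; exact hP.conj_mem _ x.2 _)
  have hR : R (x.1 * (g ^ k * x.1 * g ^ (7 - k)) : S).1 _ :=
    R_mul h2 (R_mul (R_mul (R_pw h1 k) h2) (R_pw h1 (7 - k)))
  obtain ⟨n, hn⟩ := P.isPGroup' ⟨_, hy⟩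
  have e1 := congrArg (fun t : P => t.1.1) hn
  have e3 := (R_one_iff (R_pw hR 3)).2 h3
  refine h4 ((R_one_iff hR).1 ?_)
  have := (pow_gcd_eq_one.2 ⟨e3, e1⟩)
  rwa [show Nat.gcd 3 (2 ^ n) = 1 from Nat.Coprime.pow_right n (by norm_num), pow_one] at this

theorem prm {L M N : List ℕ} (hL : Ok L) (hM : Ok M)
    (h1 : ∀ a ∈ L, ∀ b ∈ M, cm a b ∈ N ∧ cm b a ∈ N) (h2 : ∀ c ∈ N, ∃ a ∈ L, ∃ b ∈ M, c = cm a b)
    (hc : Chk N) : (sg M hM : Set PP) * sg L hL ⊆ sg L hL * sg M hM ∧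
      ¬ Edge (sg L hL ⊔ sg M hM) 2 7 := by
  have h : (sg M hM : Set PP) * sg L hL ⊆ sg L hL * sg M hM := by
    rintro _ ⟨β, ⟨b, hb, r2⟩, α, ⟨a, ha, r1⟩, rfl⟩
    obtain ⟨a', ha', b', hb', e⟩ := h2 _ (h1 a ha b hb).2
    obtain ⟨α', r3⟩ := exR (hL.2.2.1 a' ha').1
    obtain ⟨β', r4⟩ := exR (hM.2.2.1 b' hb').1
    exact ⟨α', ⟨a', ha', r3⟩, β', ⟨b', hb', r4⟩, R_eq (R_mul r3 r4) (e ▸ R_mul r2 r1)⟩
  refine ⟨h, noS _ N (fun π hπ => ?_) hc⟩
  rw [← SetLike.mem_coe, coe_sup' h] at hπ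
  obtain ⟨α, ⟨a, ha, r1⟩, β, ⟨b, hb, r2⟩, rfl⟩ := hπ
  exact ⟨_, (h1 a ha b hb).1, R_mul r1 r2⟩

def LA : List ℕ := [3099600, 3501792, 4073328, 4619160, 5622904, 6009696, 7072520, 7542136, 7665840, 8863400, 9032688, 10413144, 11644808, 12130776, 12369168, 12932920, 13609064, 13824720, 15342824, 15521184, 16434824]
def LB : List ℕ := [9926280, 9954504, 11760840, 11789960, 14571144, 14599368, 16405704, 16434824]
def LC : List ℕ := [371511, 2178540, 5015934, 6823845, 9925825, 11788371, 14570010, 16434824]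
def LV : List ℕ := [342391, 2206526, 4988389, 6852524, 9924691, 11788826, 14570689, 16434824]
def LAB : List ℕ := [2784600, 2813720, 2841048, 2870168, 3043152, 3079440, 3099600, 3135888, 3243240, 3272360, 3356136, 3385256, 3501792, 3538080, 3614688, 3650976, 3758328, 3787448, 3814776, 3843896, 4016880, 4053168, 4073328, 4109616, 4619160, 4647384, 4677400, 4705624, 5136264, 5164488, 5208840, 5237064, 5307120, 5365360, 5420016, 5478256, 5564664, 5622904, 5649336, 5707576, 5824224, 5896800, 5937120, 6009696, 6081768, 6154344, 6166440, 6239016, 6712272, 6748560, 6770512, 6806800, 6970824, 6999944, 7043400, 7072520, 7400120, 7429240, 7513016, 7542136, 7665840, 7687792, 7742448, 7836976, 7917224, 7960680, 8001000, 8102696, 8182944, 8219232, 8295840, 8332128, 8746920, 8775144, 8863400, 8891624, 8976240, 9032688, 9092720, 9149168, 9233784, 9262008, 9350264, 9378488, 9781128, 9809352, 9926280, 9954504, 10010448, 10066896, 10155600,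 10212048, 10267992, 10296216, 10413144, 10441368, 10840032, 10876320, 10956512, 10992800, 11069240, 11125688, 11156600, 11213048, 11334960, 11355120, 11415152, 11507888, 11615688, 11644808, 11760840, 11789960, 12103448, 12130776, 12219480, 12305048, 12369168, 12425616, 12478032, 12534480, 12932920, 12961144, 12991160, 13019384, 13162464, 13235040, 13278944, 13351520, 13420008, 13464360, 13508264, 13609064, 13679568, 13737808, 13824720, 13882960, 13937112, 13967128, 14054040, 14140504, 14498568, 14526792, 14571144, 14599368, 15026032, 15062320, 15084272, 15120560, 15255464, 15328040, 15342824, 15415400, 15521184, 15557472, 15637664, 15673952, 15772568, 15801688, 15917720, 15946840, 16038288, 16096528, 16147152, 16205392, 16333128, 16362248, 16405704, 16434824]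
def LAC : List ℕ := [371511, 446355, 517797, 572390, 720153, 738045, 859068, 947317, 977354, 1105650, 1139551, 1291689, 1449630, 1521751, 1551564, 1636180, 1693881, 1713131, 1924195, 1951054, 2037546, 2178540, 2249982, 2324826, 2723175, 2842371, 2868782, 2895165, 3076262, 3099600, 3241861, 3271226, 3311091, 3425695, 3501792, 3649842, 3816071, 3845660, 3901653, 3958955, 4051348, 4073328, 4299183, 4353867, 4445812, 4471285, 4619160, 4645116, 5015934, 5135809, 5206572, 5422095, 5443165, 5479110, 5535502, 5622904, 5706211, 5787369, 5820703, 6009696, 6081075, 6152965, 6195105, 6336302, 6509223, 6540625, 6623092, 6710319, 6805890, 6823845, 6996087, 7072520, 7371882, 7426510, 7542136, 7627732, 7665840, 7741881, 7914949, 7961121, 8028986, 8260749, 8296470, 8333892, 8518230, 8559803, 8595405, 8674519, 8863400, 8888670, 8939385, 8974763, 9032688, 9235989, 9347975, 9407153, 9735642, 9777726, 9925825, 10028655, 10067778, 10212363,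 10238858, 10293493, 10413144, 10536890, 10580787, 10610145, 10878084, 10880982, 10954811, 11069639, 11157041, 11240348, 11357766, 11470095, 11508770, 11540151, 11644808, 11788371, 12072060, 12130776, 12218570, 12329702, 12369168, 12533913, 12667599, 12762722, 12817693, 12875107, 12932920, 12960234, 13236237, 13240955, 13277124, 13393548, 13504855, 13609064, 13642713, 13676733, 13824720, 13936167, 13995793, 14140035, 14451948, 14498113, 14570010, 14740124, 14824341, 14854385, 15027229, 15119622, 15141602, 15226974, 15342824, 15413580, 15483762, 15521184, 15556905, 15772995, 15827630, 15947281, 16058763, 16094260, 16148034, 16259859, 16359525, 16434824]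
def LBC : List ℕ := [342391, 342846, 343525, 343980, 371070, 371511, 372204, 372645, 2177406, 2177847, 2178540, 2178981, 2206071, 2206526, 2207205, 2207660, 4987255, 4987710, 4988389, 4988844, 5015934, 5016375, 5017068, 5017509, 6822270, 6822711, 6823404, 6823845, 6850935, 6851390, 6852069, 6852524, 9924691, 9925146, 9925825, 9926280, 9953370, 9953811, 9954504, 9954945, 11759706, 11760147, 11760840, 11761281, 11788371, 11788826, 11789505, 11789960, 14569555, 14570010, 14570689, 14571144, 14598234, 14598675, 14599368, 14599809, 16404570, 16405011, 16405704, 16406145, 16433235, 16433690, 16434369, 16434824]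
def LS : List ℕ := [342391, 681597, 1007370, 1178793, 1361374, 1809108, 2007971, 2206526, 2870595, 3077172, 3168151, 3501792, 3813866, 4130973, 4408047, 4619160, 4988389, 5422662, 5736241, 5822523, 6152524, 6482385, 6803622, 6852524, 7542136, 7744527, 7959301, 8145522, 8631693, 8817914, 9032688, 9235079, 9924691, 9973593, 10294830, 10624691, 10954692, 11040974, 11354553, 11788826, 12158055, 12369168, 12646242, 12963349, 13275423, 13609064, 13700043, 13906620, 14570689, 14769244, 14968107, 15415841, 15598422, 15769845, 16095618, 16434824]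

theorem okA : Ok LA := by decide +kernel
theorem okB : Ok LB := by decide +kernel
theorem okC : Ok LC := by decide +kernel
theorem okV : Ok LV := by decide +kernel
theorem okS : Ok LS := by decide +kernel
theorem pAB : (sg LB okB : Set PP) * sg LA okA ⊆ sg LA okA * sg LB okB ∧
    ¬ Edge (sg LA okA ⊔ sg LB okB) 2 7 :=
  prm (N := LAB) okA okB (by decide +kernel) (by decide +kernel) (by decide +kernel)
theorem pAC : (sg LC okC : Set PP) * sg LA okA ⊆ sg LA okA * sg LC okC ∧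
    ¬ Edge (sg LA okA ⊔ sg LC okC) 2 7 :=
  prm (N := LAC) okA okC (by decide +kernel) (by decide +kernel) (by decide +kernel)
theorem pBC : (sg LC okC : Set PP) * sg LB okB ⊆ sg LB okB * sg LC okC ∧
    ¬ Edge (sg LB okB ⊔ sg LC okC) 2 7 :=
  prm (N := LBC) okB okC (by decide +kernel) (by decide +kernel) (by decide +kernel)
theorem D0 : ∀ s ∈ LS, ∃ v ∈ LV, ∃ a ∈ LA, s = cm v a := by decide +kernel
theorem D7 : ∀ v ∈ LV, ∃ b ∈ LB, ∃ c ∈ LC, v = cm b c := by decide +kernel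
theorem D1 : ∀ c ∈ LS, ∀ d ∈ LS, cm c d = cm d c ∨
    ((c ∉ LV ∨ d ∉ LV) ∧ ∃ t ∈ LV, t ≠ e ∧ cm c d = cm t (cm d c)) := by decide +kernel
theorem D2 : ∀ g ∈ LS, g ∉ LV → ∀ t ∈ LV, t ≠ e → ∀ u ∈ LV, u = e ∨
    ∃ i ∈ List.range 7, cm u (pw g i) = cm (pw g i) t := by decide +kernel
theorem D3 : ∀ g ∈ LS, g ∉ LV → ∀ s ∈ LS, ∃ j ∈ List.range 7, cm s (pw g j) ∈ LV := by
  decide +kernel
theorem D4 : ∀ c ∈ LS, (∀ d ∈ LS, nf (cm d c) = nf (cm c d)) → nf c = e := by decide +kernel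
theorem D5 : ∀ c ∈ LS, ∀ v ∈ LV, ∃ u ∈ LV, cm c v = cm u c := by decide +kernel
theorem D6 : ∀ c ∈ LV, c ∈ LS := by decide +kernel

theorem VS : sg LV okV ≤ sg LS okS := fun _ ⟨c, hc, h⟩ => ⟨c, D6 c hc, h⟩

theorem full (T : Subgroup PP) (hT : T ≤ sg LS okS) {g t : PP} {c d : ℕ} (hg : g ∈ T) (ht : t ∈ T)
    (rg : R g c) (rt : R t d) (hc : c ∈ LS) (hc' : c ∉ LV) (hd : d ∈ LV) (hd' : d ≠ e) :
    sg LS okS ≤ T := by
  have hV : sg LV okV ≤ T := by
    rintro u ⟨a, ha, ru⟩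
    rcases D2 c hc hc' d hd hd' a ha with rfl | ⟨i, -, h⟩
    · rw [R_eq ru R_one]; exact T.one_mem
    · have : u * g ^ i = g ^ i * t := R_eq (R_mul ru (R_pw rg i)) (h ▸ R_mul (R_pw rg i) rt)
      rw [← eq_mul_inv_iff_mul_eq] at this
      rw [this]
      exact T.mul_mem (T.mul_mem (T.pow_mem hg i) ht) (T.inv_mem (T.pow_mem hg i))
  rintro s ⟨a, ha, rs⟩
  obtain ⟨j, -, h⟩ := D3 c hc hc' a ha
  have := T.mul_mem (hV ⟨_, h, R_mul rs (R_pw rg j)⟩) (T.inv_mem (T.pow_mem hg j))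
  rwa [mul_inv_cancel_right] at this

theorem schmidt : Schmidt (sg LS okS) 2 7 := by
  have hcard : Nat.card (sg LS okS) = 56 := card_sg LS okS
  haveI : Fact (Nat.Prime 2) := ⟨by norm_num⟩
  refine ⟨fun hn => ?_, fun T hT => ?_, ?_, ?_⟩
  · haveI : Nontrivial (sg LS okS) := Finite.one_lt_card_iff_nontrivial.1 (by rw [hcard]; norm_num)
    refine Group.IsNilpotent.center_ne_bot (G := sg LS okS) (eq_bot_iff.2 ?_)
    rintro ⟨z, c, hc, rz⟩ hz
    rw [Subgroup.mem_center_iff] at hz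
    refine Subgroup.mem_bot.2 (Subtype.ext ((R_one_iff rz).2 (D4 c hc fun d hd => ?_)))
    obtain ⟨w, rw⟩ := exR (okS.2.2.1 d hd).1
    exact (R_iff (R_mul rw rz) (R_mul rz rw)).1 (congrArg Subtype.val (hz ⟨w, d, hd, rw⟩))
  · have hcomm : ∀ x y : T, x * y = y * x := by
      intro x y
      obtain ⟨c, hc, rx⟩ := hT.le x.2
      obtain ⟨d, hd, ry⟩ := hT.le y.2
      rcases D1 c hc d hd with h | ⟨h1, t, ht, hte, h2⟩
      · exact Subtype.ext (R_eq (R_mul rx ry) (h ▸ R_mul ry rx))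
      · exfalso
        obtain ⟨τ, rt⟩ := exR (okV.2.2.1 t ht).1
        have : x.1 * y.1 = τ * (y.1 * x.1) := R_eq (R_mul rx ry) (h2 ▸ R_mul rt (R_mul ry rx))
        rw [← mul_inv_eq_iff_eq_mul] at this
        have hτ : τ ∈ T := this ▸ T.mul_mem (T.mul_mem x.2 y.2) (T.inv_mem (T.mul_mem y.2 x.2))
        rcases h1 with h1 | h1
        · exact hT.not_ge (full T hT.le x.2 hτ rx rt hc h1 ht hte)
        · exact hT.not_ge (full T hT.le y.2 hτ ry rt hd h1 ht hte)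
    letI : CommGroup T := { (inferInstance : Group T) with mul_comm := hcomm }
    exact CommGroup.isNilpotent
  · rw [hcard]; simp [Nat.primeFactors, Nat.primeFactorsList_ofNat]
  · refine ⟨Sylow.ofCard ((sg LV okV).subgroupOf (sg LS okS)) ?_, ⟨?_⟩⟩
    · rw [Nat.card_congr (Subgroup.subgroupOfEquivOfLe VS).toEquiv, hcard, card_sg,
        ← Nat.primeFactorsList_count_eq]
      simp [Nat.primeFactorsList_ofNat, LV]
    · rintro ⟨v, hv⟩ hv' ⟨s, c, hc, rs⟩
      obtain ⟨d, hd, rv⟩ : v ∈ sg LV okV := hv'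
      obtain ⟨u, hu, h⟩ := D5 c hc d hd
      obtain ⟨υ, ru⟩ := exR (okV.2.2.1 u hu).1
      have : s * v = υ * s := R_eq (R_mul rs rv) (h ▸ R_mul ru rs)
      show s * v * s⁻¹ ∈ sg LV okV
      rw [this, mul_inv_cancel_right]; exact ⟨u, hu, ru⟩

theorem S_le : sg LS okS ≤ sg LA okA ⊔ sg LB okB ⊔ sg LC okC := by
  rintro s ⟨c, hc, rs⟩
  obtain ⟨v, hv, a, ha, rfl⟩ := D0 c hc
  obtain ⟨b, hb, d, hd, rfl⟩ := D7 v hv
  obtain ⟨α, r1⟩ := exR (okA.2.2.1 a ha).1
  obtain ⟨β, r2⟩ := exR (okB.2.2.1 b hb).1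
  obtain ⟨γ, r3⟩ := exR (okC.2.2.1 d hd).1
  rw [R_eq rs (R_mul (R_mul r2 r3) r1)]
  exact mul_mem (mul_mem (Subgroup.mem_sup_left (Subgroup.mem_sup_right ⟨b, hb, r2⟩))
    (Subgroup.mem_sup_right ⟨d, hd, r3⟩)) (Subgroup.mem_sup_left (Subgroup.mem_sup_left ⟨a, ha, r1⟩))

end Pool.Agent.H32.Nc
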