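import Mathlib

namespace Pool.Agent.H32.Nc

variable {K : Type} [Group K]

/-- `S` is a Schmidt `(p,q)`-group. -/
def Schmidt (S : Subgroup K) (p q : ℕ) : Prop :=
  ¬ Group.IsNilpotent S ∧ (∀ T : Subgroup K, T < S → Group.IsNilpotent T) ∧
    (Nat.card S).primeFactors = {p, q} ∧ ∃ P : Sylow p S, (P : Subgroup S).Normal

/-- `(p,q)` is an edge of the N-critical graph of `X`. -/
def Edge (X : Subgroup K) (p q : ℕ) : Prop := ∃ S ≤ X, Schmidt S p q

end Pool.Agent.H32.Nc
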