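import Mathlib

set_option autoImplicit false

namespace Pool.Agent.H32.OddSym

open Finset

variable {G : Type} [Group G] [Fintype G]

theorem sq_inj (h : Odd (Fintype.card G)) : Function.Injective (fun x : G => x ^ 2) := by
  have hc : (Nat.card G).Coprime 2 := by
    rw [Nat.card_eq_fintype_card]
    exact (Nat.coprime_two_right).2 h
  exact (powCoprime hc).injective

theorem conj_bij (h : Odd (Fintype.card G)) (x : G) :
    Function.Bijective (fun g : G => g * x⁻¹ * g) := by
  apply Finite.injective_iff_bijective.1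
  intro a b hab
  have : (a * x⁻¹) ^ 2 = (b * x⁻¹) ^ 2 := by
    simp only [sq]
    have h2 : a * x⁻¹ * a * x⁻¹ = b * x⁻¹ * b * x⁻¹ := by
      have := congrArg (· * x⁻¹) hab
      simpa using this
    simpa [mul_assoc] using h2
  have := sq_inj h this
  simpa using this

open Classical in
noncomputable def S {r : ℕ} (χ : G → Fin r) (c : Fin r) (g : G) : Finset G :=
  univ.filter (fun x => χ x = c ∧ χ (g * x⁻¹ * g) = c)

open Classical in
theorem sum_S (h : Odd (Fintype.card G)) {r : ℕ} (χ : G → Fin r) (c : Fin r) :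
    ∑ g, (S χ c g).card = (univ.filter (fun x => χ x = c)).card ^ 2 := by
  simp only [S, card_filter]
  rw [Finset.sum_comm, sq, Finset.sum_mul]
  apply Finset.sum_congr rfl
  intro x _
  by_cases hx : χ x = c
  · simp only [hx, true_and, if_true, one_mul]
    exact (conj_bij h x).sum_comp (fun y => if χ y = c then 1 else 0)
  · simp [hx]

open Classical in
theorem even_erase (h : Odd (Fintype.card G)) {r : ℕ} (χ : G → Fin r) (c : Fin r) :
    Even ((S χ c 1).erase 1).card := by
  have : ∑ _x ∈ (S χ c 1).erase 1, (1 : ZMod 2) = 0 := by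
    apply Finset.sum_involution (fun x _ => x⁻¹)
    · intro a _; rfl
    · intro a ha _ hh
      have ha1 : a ≠ 1 := (mem_erase.1 ha).1
      apply ha1
      apply sq_inj h
      simp only [sq, mul_one]
      nth_rewrite 1 [← hh]
      simp
    · intro a _; simp
    · intro a ha
      simp only [S, mem_erase, mem_filter, mem_univ, true_and, one_mul, mul_one, inv_inv] at ha ⊢
      exact ⟨by simpa using ha.1, ha.2.2, ha.2.1⟩
  rw [Finset.sum_const, nsmul_eq_mul, mul_one] at this
  exact (ZMod.natCast_eq_zero_iff_even).1 this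

theorem main (h : Odd (Fintype.card G)) (r : ℕ) (hr : 1 < r) (χ : G → Fin r) :
    ∃ (A : Finset G) (g : G) (c : Fin r),
      (∀ a ∈ A, χ a = c) ∧
      (∀ x : G, x ∈ A ↔ g * x⁻¹ * g ∈ A) ∧
      (1 : ℝ) / ((r : ℝ) ^ 2) < (A.card : ℝ) / (Fintype.card G : ℝ) := by
  classical
  by_contra hcon
  push Not at hcon
  have hn : (0 : ℝ) < Fintype.card G := by exact_mod_cast Fintype.card_pos
  have hr0 : (0 : ℝ) < r := by exact_mod_cast (by omega : 0 < r)
  have hle : ∀ p : Fin r × G, ((S χ p.1 p.2).card : ℝ) ≤ Fintype.card G / (r : ℝ) ^ 2 := by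
    rintro ⟨c, g⟩
    have := hcon (S χ c g) g c (by
      intro a ha; simp only [S, mem_filter] at ha; exact ha.2.1) (by
      intro x
      simp only [S, mem_filter, mem_univ, true_and]
      have : g * (g * x⁻¹ * g)⁻¹ * g = x := by group
      rw [this]; exact and_comm)
    rw [div_le_iff₀ hn] at this
    calc _ ≤ _ := this
      _ = _ := by ring
  have hsum : ∑ p : Fin r × G, ((S χ p.1 p.2).card : ℝ) =
      ∑ c : Fin r, ((univ.filter (fun x => χ x = c)).card : ℝ) ^ 2 := by
    rw [Fintype.sum_prod_type]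
    apply Finset.sum_congr rfl
    intro c _
    exact_mod_cast sum_S h χ c
  have htot : ∑ c : Fin r, ((univ.filter (fun x => χ x = c)).card : ℝ) = Fintype.card G := by
    have := Finset.card_eq_sum_card_fiberwise (s := (univ : Finset G)) (t := (univ : Finset (Fin r)))
      (f := χ) (fun _ _ => mem_coe.2 (mem_univ _))
    rw [Finset.card_univ] at this
    exact_mod_cast this.symm
  have hcs := sq_sum_le_card_mul_sum_sq (s := (univ : Finset (Fin r)))
    (f := fun c => ((univ.filter (fun x => χ x = c)).card : ℝ))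
  rw [htot, ← hsum] at hcs
  simp only [card_univ, Fintype.card_fin] at hcs
  have heq : ∀ p : Fin r × G, ((S χ p.1 p.2).card : ℝ) = Fintype.card G / (r : ℝ) ^ 2 := by
    by_contra hne
    push Not at hne
    obtain ⟨p, hp⟩ := hne
    have hlt : ∑ p : Fin r × G, ((S χ p.1 p.2).card : ℝ) <
        ∑ _p : Fin r × G, (Fintype.card G / (r : ℝ) ^ 2) :=
      Finset.sum_lt_sum (fun q _ => hle q) ⟨p, mem_univ _, lt_of_le_of_ne (hle p) hp⟩
    simp only [sum_const, card_univ, Fintype.card_prod, Fintype.card_fin, nsmul_eq_mul,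
      Nat.cast_mul] at hlt
    have h2 := mul_lt_mul_of_pos_left hlt hr0
    have h3 : (r : ℝ) * (r * Fintype.card G * (Fintype.card G / (r : ℝ) ^ 2)) =
        (Fintype.card G : ℝ) ^ 2 := by field_simp
    linarith
  have : Nontrivial (Fin r) := Fin.nontrivial_iff_two_le.2 hr
  obtain ⟨c', hc'⟩ := exists_ne (χ 1)
  have e1 := heq (χ 1, 1)
  have e2 := heq (c', 1)
  have e3 : (S χ (χ 1) 1).card = (S χ c' 1).card := by
    have : ((S χ (χ 1) 1).card : ℝ) = (S χ c' 1).card := e1.trans e2.symm
    exact_mod_cast this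
  have m1 : (1 : G) ∈ S χ (χ 1) 1 := by simp [S]
  have m2 : (1 : G) ∉ S χ c' 1 := by
    simp only [S, mem_filter, not_and]
    intro _ hh; exact absurd hh.symm hc'
  have p1 := even_erase h χ (χ 1)
  have p2 := even_erase h χ c'
  rw [Finset.erase_eq_of_notMem m2] at p2
  have := Finset.card_erase_add_one m1
  rw [← e3, ← this] at p2
  rw [Nat.even_add_one] at p2
  exact p2 p1

end Pool.Agent.H32.OddSym
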