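import Pool.Agent.H32.OrphDefs

set_option autoImplicit false

namespace Pool.Agent.H32.Orph

open Classical Finset

def pv (k a : ℕ) (x : Bool) (b : ℕ) : ℕ :=
  if (a = 0 ∧ x = true) ∨ k ≤ a + 2 then b else if b = a + 1 then a + 2 else
    if b = a + 2 then a + 1 else b

variable {k : ℕ}

def p (a : Fin k) (x : Bool) (b : Fin k) : Fin k :=
  ⟨pv k a x b, by have := b.2; unfold pv; split_ifs <;> omega⟩

theorem pp (a : Fin k) (x : Bool) (b : Fin k) : p a x (p a x b) = b := by
  ext; simp only [p, pv]; split_ifs <;> omega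

def f (s t : Fin k × Bool) : Fin k × Bool :=
  (p s.1 s.2 t.1, if s.1.1 + 1 = k then s.2 else xor s.2 t.2)

def Dead (a a' : Fin k) {l : ℕ} (u : Fin l → Fin k × Bool) : Prop :=
  ¬ ∃ v : Fin (l + 1) → Fin k × Bool, (v 0 = (a, false) ∨ v 0 = (a', true)) ∧
    ∀ i : Fin l, f (v i.castSucc) (v i.succ) = u i

def w (a a' : Fin k) : ℕ := if a = a' then 0 else 2 ^ max a.1 a'.1

theorem w_sum (hk : 16 ≤ k) (a a' : Fin k) :
    ∑ b, w (p a false b) (p a' true b) ≤ k * (w a a' + 1) := by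
  by_cases h : a = a' ∧ a.1 ≠ 0
  · obtain ⟨rfl, h⟩ := h
    have : ∀ b, w (p a false b) (p a true b) = 0 := fun b => if_pos (by ext; simp [p, pv, h])
    simp [this]
  have h1 : ∑ b, w (p a false b) (p a' true b) ≤ ∑ b ∈ univ.filter
      (fun b : Fin k => b.1 ∈ ({a.1 + 1, a.1 + 2, a'.1 + 1, a'.1 + 2} : Finset ℕ)),
      2 ^ (max a.1 a'.1 + 2) := by
    rw [sum_filter]
    refine sum_le_sum fun b _ => ?_
    unfold w
    split_ifs with h1 h2 h2
    · exact Nat.zero_le _
    · omega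
    · refine Nat.pow_le_pow_right (by omega) ?_
      simp only [mem_insert, mem_singleton] at h2
      simp only [p, pv]
      split_ifs <;> omega
    · simp only [mem_insert, mem_singleton] at h2
      refine (h1 ?_).elim
      ext
      simp only [p, pv]
      split_ifs <;> omega
  have h2 : (univ.filter
      (fun b : Fin k => b.1 ∈ ({a.1 + 1, a.1 + 2, a'.1 + 1, a'.1 + 2} : Finset ℕ))).card ≤ 4 :=
    (card_le_card_of_injOn (fun b => b.1) (fun b hb => by simpa using hb)
      Fin.val_injective.injOn).trans card_le_four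
  rw [sum_const, smul_eq_mul] at h1
  have h3 : 2 ^ max a.1 a'.1 ≤ w a a' + 1 := by
    unfold w
    split_ifs with e
    · subst e
      have : a.1 = 0 := by tauto
      simp [this]
    · omega
  calc _ ≤ 4 * 2 ^ (max a.1 a'.1 + 2) := h1.trans (Nat.mul_le_mul_right _ h2)
    _ = 16 * 2 ^ max a.1 a'.1 := by ring
    _ ≤ _ := Nat.mul_le_mul hk h3

theorem dead_cons {a a' b b' : Fin k} {c : Fin k × Bool} {l : ℕ} {u : Fin l → Fin k × Bool}
    (h1 : f (a, false) (b, false) = c ∨ f (a', true) (b, false) = c)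
    (h2 : f (a, false) (b', true) = c ∨ f (a', true) (b', true) = c)
    (h : Dead a a' (Fin.cons c u : Fin (l + 1) → _)) : Dead b b' u := by
  rintro ⟨v, h3, h4⟩
  have : ∃ s, (s = (a, false) ∨ s = (a', true)) ∧ f s (v 0) = c := by
    rcases h3 with e | e <;> rw [e]
    · rcases h1 with e | e
      · exact ⟨_, Or.inl rfl, e⟩
      · exact ⟨_, Or.inr rfl, e⟩
    · rcases h2 with e | e
      · exact ⟨_, Or.inl rfl, e⟩
      · exact ⟨_, Or.inr rfl, e⟩
  obtain ⟨s, h5, h6⟩ := this
  refine h ⟨Fin.cons s v, h5, fun i => ?_⟩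
  refine Fin.cases h6 (fun i => ?_) i
  exact h4 i

theorem count (hk : 16 ≤ k) (l : ℕ) : ∀ a a' : Fin k,
    (∑ u : Fin l → Fin k × Bool, if Dead a a' u then 1 else 0) * 2 ^ (k - 1) ≤
      (w a a' + l) * (2 * k) ^ l := by
  induction l with
  | zero =>
    intro a a'
    rw [sum_eq_zero fun u _ => if_neg fun h => h ⟨fun _ => (a, false), Or.inl rfl, by simp⟩]
    omega
  | succ l ih =>
    intro a a'
    by_cases hb : a ≠ a' ∧ (a.1 + 1 = k ∨ a'.1 + 1 = k)
    · rw [mul_comm]
      refine Nat.mul_le_mul ?_ ((sum_le_card_nsmul _ _ 1 fun u _ => by split_ifs <;> omega).trans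
        (by simp [mul_comm]))
      have : 2 ^ (k - 1) ≤ w a a' := by
        rw [w, if_neg hb.1]
        exact Nat.pow_le_pow_right (by omega) (by omega)
      omega
    rw [← (Fin.consEquiv fun _ => Fin k × Bool).sum_comp, Fintype.sum_prod_type,
      Fintype.sum_prod_type, sum_mul]
    have : ∀ b : Fin k, (∑ z : Bool, ∑ u : Fin l → Fin k × Bool,
        if Dead a a' (Fin.consEquiv (fun _ => Fin k × Bool) ((b, z), u)) then 1 else 0) *
        2 ^ (k - 1) ≤ 2 * ((w (p a false b) (p a' true b) + l) * (2 * k) ^ l) := fun b => by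
      have hw : w (p a' true b) (p a false b) = w (p a false b) (p a' true b) := by
        simp [w, eq_comm, max_comm]
      have e : a.1 + 1 = k → a' = a ∧ p a true b = b ∧ p a false b = b := fun e =>
        ⟨by tauto, by ext; simp [p, pv, ← e], by ext; simp [p, pv, ← e]⟩
      have e' : a.1 + 1 ≠ k → a'.1 + 1 ≠ k := fun e e' => by
        have : a = a' := by tauto
        exact e (this ▸ e')
      rw [Fintype.sum_bool, add_mul, two_mul]
      refine add_le_add (le_trans (Nat.mul_le_mul_right _ (sum_le_sum fun u _ => ?_))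
        (hw ▸ ih (p a' true b) (p a false b))) (le_trans (Nat.mul_le_mul_right _
          (sum_le_sum fun u _ => ?_)) (ih (p a false b) (p a' true b)))
      all_goals
        split_ifs with h1 h2 <;> try omega
        refine (h2 (dead_cons ?_ ?_ h1)).elim
        all_goals
          by_cases t : a.1 + 1 = k
          · obtain ⟨rfl, e1, e2⟩ := e t
            simp [f, t, e1, e2]
          · simp [f, t, e' t, pp]
    refine (sum_le_sum fun b _ => this b).trans ?_
    rw [← mul_sum, ← sum_mul, sum_add_distrib]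
    have := w_sum hk a a'
    simp only [sum_const, card_univ, Fintype.card_fin, smul_eq_mul]
    calc _ ≤ 2 * ((k * (w a a' + 1) + k * l) * (2 * k) ^ l) := by gcongr
      _ = _ := by ring

theorem rho_le (hk : 16 ≤ k) (l : ℕ) (hl : l ≤ 2 ^ (k - 2)) : rho (f (k := k)) l ≤ 1 / 2 := by
  have h := count hk l ⟨0, by omega⟩ ⟨0, by omega⟩
  have h1 : Nat.card {u : Fin l → Fin k × Bool // Orphan f u} ≤
      ∑ u : Fin l → Fin k × Bool, if Dead ⟨0, by omega⟩ ⟨0, by omega⟩ u then 1 else 0 := by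
    rw [Nat.card_eq_fintype_card, Fintype.card_subtype, card_filter]
    refine sum_le_sum fun u _ => ?_
    split_ifs with a b <;> try omega
    exact (b fun ⟨v, _, hv⟩ => a ⟨v, hv⟩).elim
  have h2 : 2 ^ (k - 1) = 2 * 2 ^ (k - 2) := by
    rw [← pow_succ']; congr 1; omega
  have h3 : Nat.card {u : Fin l → Fin k × Bool // Orphan f u} * 2 ≤ (2 * k) ^ l := by
    refine Nat.le_of_mul_le_mul_right ?_ (Nat.two_pow_pos (k - 2))
    rw [mul_assoc, ← h2]
    refine ((Nat.mul_le_mul_right _ h1).trans h).trans ?_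
    rw [mul_comm]
    exact Nat.mul_le_mul_left _ (by simpa [w] using hl)
  have h4 : Nat.card (Fin k × Bool) = 2 * k := by simp [mul_comm]
  have : (0 : ℝ) < ((2 * k : ℕ) : ℝ) ^ l := pow_pos (Nat.cast_pos.2 (by omega)) _
  rw [rho, h4, div_le_div_iff₀ this two_pos, one_mul]
  exact_mod_cast h3

theorem orphan (hk : 16 ≤ k) (ho : k % 2 = 1) :
    ∃ u : Fin (k + 1) → Fin k × Bool, Orphan f u := by
  refine ⟨fun j => (⟨min j (k - 1), by omega⟩, decide (k - 1 ≤ j)), fun ⟨v, hv⟩ => ?_⟩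
  have h : ∀ j (hj : j < k + 1), pv k (v ⟨j, by omega⟩).1 (v ⟨j, by omega⟩).2
      (v ⟨j + 1, by omega⟩).1 = min j (k - 1) ∧ (if (v ⟨j, by omega⟩).1.1 + 1 = k then
        (v ⟨j, by omega⟩).2 else xor (v ⟨j, by omega⟩).2 (v ⟨j + 1, by omega⟩).2) =
        decide (k - 1 ≤ j) := fun j hj => by
    have := hv ⟨j, hj⟩
    simp only [f, Prod.ext_iff, Fin.ext_iff] at this
    exact this
  have inv : ∀ j (hj : j + 1 < k), (v ⟨j + 1, by omega⟩).1.1 =
      if (v ⟨j + 1, by omega⟩).2 = true then (if j = 0 then 0 else 2 * (j / 2) + 1)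
      else 2 * ((j + 1) / 2) := by
    intro j
    induction j with
    | zero =>
      intro _
      have := (h 0 (by omega)).1
      unfold pv at this
      split_ifs at this ⊢ <;> omega
    | succ j ih =>
      intro hj
      have h1 := ih (by omega)
      obtain ⟨h2, h3⟩ := h (j + 1) (by omega)
      unfold pv at h2
      rw [decide_eq_false (by omega)] at h3
      revert h1 h2 h3
      cases (v ⟨j + 1, by omega⟩).2 <;> cases (v ⟨j + 1 + 1, by omega⟩).2 <;> simp <;>
        split_ifs <;> omega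
  obtain ⟨t, rfl⟩ : ∃ t, k = t + 2 := ⟨k - 2, by omega⟩
  have h1 := inv t (by omega)
  obtain ⟨h2, h3⟩ := h (t + 1) (by omega)
  obtain ⟨-, h4⟩ := h (t + 1 + 1) (by omega)
  unfold pv at h2
  rw [decide_eq_true (by omega)] at h3 h4
  revert h1 h2 h3 h4
  cases (v ⟨t + 1, by omega⟩).2 <;> cases (v ⟨t + 1 + 1, by omega⟩).2 <;> simp <;>
    split_ifs <;> omega

theorem poly (P : MvPolynomial (Fin 2) ℝ) : ∃ (C : ℝ) (d : ℕ), 0 ≤ C ∧ ∀ (N : ℝ) (x : Fin 2 → ℝ),
    1 ≤ N → (∀ i, |x i| ≤ N) → |MvPolynomial.eval x P| ≤ C * N ^ d := by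
  induction P using MvPolynomial.induction_on with
  | C a => exact ⟨|a|, 0, abs_nonneg a, by simp⟩
  | add P Q h1 h2 =>
    obtain ⟨C, d, a, b⟩ := h1
    obtain ⟨C', d', a', b'⟩ := h2
    refine ⟨C + C', d + d', by positivity, fun N x h hx => ?_⟩
    rw [map_add, add_mul]
    refine (abs_add_le _ _).trans (add_le_add ((b N x h hx).trans ?_) ((b' N x h hx).trans ?_)) <;>
      gcongr <;> omega
  | mul_X P i h =>
    obtain ⟨C, d, a, b⟩ := h
    refine ⟨C, d + 1, a, fun N x h hx => ?_⟩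
    rw [map_mul, MvPolynomial.eval_X, abs_mul, pow_succ, ← mul_assoc]
    exact mul_le_mul (b N x h hx) (hx i) (abs_nonneg _) (by positivity)

theorem big (C : ℝ) (d : ℕ) : ∃ k : ℕ, 16 ≤ k ∧ k % 2 = 1 ∧ C * (2 * k : ℝ) ^ d ≤ 2 ^ (k - 2) := by
  have h := (tendsto_pow_const_div_const_pow_of_one_lt d (one_lt_two (α := ℝ))).const_mul
    (C * 2 ^ d * 4)
  obtain ⟨n, hn⟩ := Filter.eventually_atTop.1 (h.eventually (gt_mem_nhds (by simp : _ < (1 : ℝ))))
  refine ⟨2 * n + 17, by omega, by omega, ?_⟩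
  have := hn (2 * n + 17) (by omega)
  rw [← mul_div_assoc, div_lt_one (by positivity)] at this
  have e : (2 : ℝ) ^ (2 * n + 17) = 4 * 2 ^ (2 * n + 17 - 2) := by
    rw [show 2 * n + 17 - 2 = 2 * n + 15 by omega]; ring
  rw [mul_pow]
  linarith

end Pool.Agent.H32.Orph
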