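import Mathlib

set_option autoImplicit false

namespace Pool.Agent.H32.Orph

/-- `u` has no preimage of length `l + 1` under the local rule `f` -/
def Orphan {S : Type} (f : S → S → S) {l : ℕ} (u : Fin l → S) : Prop :=
  ¬ ∃ v : Fin (l + 1) → S, ∀ i : Fin l, f (v i.castSucc) (v i.succ) = u i

/-- proportion of orphans among the words of length `l` -/
noncomputable def rho {S : Type} (f : S → S → S) (l : ℕ) : ℝ :=
  (Nat.card {u : Fin l → S // Orphan f u} : ℝ) / (Nat.card S : ℝ) ^ l

end Pool.Agent.H32.Orph
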