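import Pool.Agent.H32.PctlDefs

/-! Reachability probabilities in tree-like chains. -/

namespace Pool.Agent.H32.Pctl

open MeasureTheory ProbabilityTheory Finset Preorder Filter Topology Relation Classical

variable {S : Type} [Fintype S] [MeasurableSpace S] [DiscreteMeasurableSpace S] {M : MC S}
  {μ : S → Measure (ℕ → S)}

theorem cyl_eq (n : ℕ) (y : ℕ → S) : {x : ℕ → S | ∀ i ≤ n, x i = y i} =
    frestrictLe (π := fun _ => S) n ⁻¹' {frestrictLe n y} := by
  ext x
  simp only [Set.mem_ofPred_eq, Set.mem_preimage, Set.mem_singleton_iff, funext_iff,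
    frestrictLe_apply]
  exact ⟨fun h i => h i (mem_Iic.1 i.2), fun h i hi => h ⟨i, mem_Iic.2 hi⟩⟩

theorem exists_law (M : MC S) : ∃ μ, M.IsLaw μ := by
  let pm : S → PMF S := fun s => PMF.ofFintype (fun u => ENNReal.ofReal (M.P s u)) (by
    rw [← ENNReal.ofReal_sum_of_nonneg fun u _ => M.nonneg s u, M.sum_one]; simp)
  let κ : ∀ n : ℕ, Kernel (Π _ : Iic n, S) S := fun n => Kernel.ofFunOfCountable fun x =>
    (pm (x ⟨n, mem_Iic.2 le_rfl⟩)).toMeasure
  haveI : ∀ n, IsMarkovKernel (κ n) := fun n => ⟨fun x => by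
    simp only [κ, Kernel.ofFunOfCountable, Kernel.coe_mk]; infer_instance⟩
  refine ⟨fun o => Kernel.trajMeasure (X := fun _ => S) (Measure.dirac o) κ,
    fun o => ⟨inferInstance, ?_, ?_⟩⟩
  · have : {x : ℕ → S | x 0 = o} = {x | ∀ i ≤ 0, x i = (fun _ => o) i} := by ext x; simp
    beta_reduce
    rw [this, cyl_eq, ← Measure.map_apply (measurable_frestrictLe 0) (measurableSet_singleton _),
      Kernel.trajMeasure, Measure.map_comp _ _ (by fun_prop),
      Kernel.traj_map_frestrictLe, Kernel.partialTraj_self, Measure.id_comp,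
      Measure.map_dirac' (by fun_prop), Measure.dirac_apply' _ (measurableSet_singleton _)]
    refine Set.indicator_of_mem ?_ _
    rfl
  · intro y n
    have e : {x : ℕ → S | ∀ i ≤ n + 1, x i = y i} =
        (fun x : ℕ → S => (frestrictLe (π := fun _ => S) n x, x (n + 1))) ⁻¹'
        ({frestrictLe n y} ×ˢ {y (n + 1)}) := by
      ext x
      have := Set.ext_iff.1 (cyl_eq n y) x
      simp only [Set.mem_preimage, Set.mem_singleton_iff] at this
      simp only [Set.mem_preimage, Set.mem_prod, Set.mem_singleton_iff, ← this, Set.mem_ofPred_eq]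
      constructor
      · intro h
        exact ⟨fun i hi => h i (by omega), h _ le_rfl⟩
      · rintro ⟨h1, h2⟩ i hi
        rcases Nat.lt_or_eq_of_le hi with h | rfl
        · exact h1 i (by omega)
        · exact h2
    rw [e, ← Measure.map_apply (by fun_prop)
      ((measurableSet_singleton _).prod (measurableSet_singleton _)),
      ← Kernel.map_frestrictLe_trajMeasure_compProd_eq_map_trajMeasure,
      Measure.compProd_apply_prod (measurableSet_singleton _) (measurableSet_singleton _),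
      lintegral_singleton' (Kernel.measurable_coe _ (measurableSet_singleton _)),
      Measure.map_apply (measurable_frestrictLe n) (measurableSet_singleton _), ← cyl_eq, mul_comm]
    congr 1
    simp only [κ, Kernel.ofFunOfCountable, Kernel.coe_mk]
    rw [PMF.toMeasure_apply_singleton _ _ (measurableSet_singleton _)]
    rfl

noncomputable def rN (M : MC S) (A : S → Prop) : ℕ → S → ℝ
  | 0, s => if A s then 1 else 0
  | n + 1, s => if A s then 1 else ∑ u, M.P s u * rN M A n u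

omit [MeasurableSpace S] [DiscreteMeasurableSpace S] in
theorem rN_nonneg (A : S → Prop) : ∀ n s, 0 ≤ rN M A n s
  | 0, s => by unfold rN; split_ifs <;> norm_num
  | n + 1, s => by
    unfold rN; split_ifs
    · norm_num
    · exact sum_nonneg fun u _ => mul_nonneg (M.nonneg _ _) (rN_nonneg A n u)

theorem cyl_hit (L : M.IsLaw μ) (A : S → Prop) (s : S) : ∀ (n j : ℕ) (w : ℕ → S),
    μ s ({ρ | ∀ i ≤ j, ρ i = w i} ∩ {ρ | ∃ i ≤ n, A (ρ (j + i))}) =
      μ s {ρ | ∀ i ≤ j, ρ i = w i} * ENNReal.ofReal (rN M A n (w j)) := by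
  have pos : ∀ (n j : ℕ) (w : ℕ → S), A (w j) →
      {ρ : ℕ → S | ∀ i ≤ j, ρ i = w i} ∩ {ρ | ∃ i ≤ n, A (ρ (j + i))} =
        {ρ | ∀ i ≤ j, ρ i = w i} := fun n j w h =>
    Set.inter_eq_left.2 fun ρ hρ => ⟨0, Nat.zero_le _, by rw [Nat.add_zero, hρ j le_rfl]; exact h⟩
  intro n
  induction n with
  | zero =>
    intro j w
    unfold rN
    split_ifs with h
    · rw [pos 0 j w h]; simp
    · rw [Set.eq_empty_of_forall_notMem (s := _ ∩ _)]
      · simp
      · rintro ρ ⟨h1, i, hi, h2⟩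
        obtain rfl : i = 0 := by omega
        exact h (by rwa [Nat.add_zero, h1 j le_rfl] at h2)
  | succ n ih =>
    intro j w
    unfold rN
    split_ifs with h
    · rw [pos _ j w h]; simp
    have e : {ρ : ℕ → S | ∀ i ≤ j, ρ i = w i} ∩ {ρ | ∃ i ≤ n + 1, A (ρ (j + i))} =
        ⋃ u, ({ρ | ∀ i ≤ j + 1, ρ i = Function.update w (j + 1) u i} ∩
          {ρ | ∃ i ≤ n, A (ρ (j + 1 + i))}) := by
      ext ρ
      simp only [Set.mem_inter_iff, Set.mem_ofPred_eq, Set.mem_iUnion]
      constructor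
      · rintro ⟨h1, i, hi, h2⟩
        rcases i with _ | i
        · exact absurd (by rwa [Nat.add_zero, h1 j le_rfl] at h2) h
        refine ⟨ρ (j + 1), fun t ht => ?_, i, by omega, by rwa [Nat.add_assoc, Nat.add_comm 1]⟩
        by_cases ht' : t = j + 1
        · rw [ht', Function.update_self]
        · rw [Function.update_of_ne ht', h1 t (by omega)]
      · rintro ⟨u, h1, i, hi, h2⟩
        exact ⟨fun t ht => by rw [h1 t (by omega), Function.update_of_ne (by omega)],
          i + 1, by omega, by rwa [Nat.add_assoc, Nat.add_comm 1] at h2⟩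
    rw [e, measure_iUnion, tsum_fintype, ENNReal.ofReal_sum_of_nonneg
      fun u _ => mul_nonneg (M.nonneg _ _) (rN_nonneg A n u), mul_sum]
    · refine sum_congr rfl fun u _ => ?_
      rw [ih, (L s).2.2, Function.update_self, Function.update_of_ne (by omega),
        ENNReal.ofReal_mul (M.nonneg _ _), mul_assoc]
      congr 2
      ext ρ
      exact forall₂_congr fun i hi => by rw [Function.update_of_ne (by omega)]
    · intro u u' hu
      refine Set.disjoint_left.2 fun ρ h1 h2 => hu ?_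
      have a1 := h1.1 (j + 1) le_rfl
      have a2 := h2.1 (j + 1) le_rfl
      rw [Function.update_self] at a1 a2
      rw [← a1, a2]
    · intro u
      refine MeasurableSet.inter ?_ ?_
      · rw [cyl_eq]; exact measurable_frestrictLe _ (measurableSet_singleton _)
      · have : {ρ : ℕ → S | ∃ i ≤ n, A (ρ (j + 1 + i))} =
          ⋃ i, ⋃ _ : i ≤ n, (fun ρ : ℕ → S => ρ (j + 1 + i)) ⁻¹' {t | A t} := by ext; simp
        rw [this]
        exact MeasurableSet.iUnion fun i => MeasurableSet.iUnion fun _ =>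
          measurable_pi_apply _ MeasurableSet.of_discrete

/-- the probability of reaching `A` -/
noncomputable def H (μ : S → Measure (ℕ → S)) (A : S → Prop) (s : S) : ℝ :=
  (μ s {ρ | ∃ i, A (ρ i)}).toReal

theorem tend (L : M.IsLaw μ) (A : S → Prop) (s : S) :
    Tendsto (fun n => rN M A n s) atTop (𝓝 (H μ A s)) := by
  have := (L s).1
  have h0 : {ρ : ℕ → S | ∀ i ≤ 0, ρ i = (fun _ => s) i} = {ρ | ρ 0 = s} := by ext; simp
  have h1 : ∀ n, μ s {ρ | ∃ i ≤ n, A (ρ i)} = ENNReal.ofReal (rN M A n s) := by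
    intro n
    have := cyl_hit L A s n 0 fun _ => s
    rw [h0, (L s).2.1, one_mul, Measure.measure_inter_eq_of_ae] at this
    · simpa using this
    · exact (prob_compl_eq_zero_iff (μ := μ s) (s := {ρ | ρ 0 = s})
        (measurable_pi_apply (X := fun _ : ℕ => S) 0 (measurableSet_singleton s))).2 (L s).2.1
  have h2 := tendsto_measure_iUnion_atTop (μ := μ s) (s := fun n => {ρ : ℕ → S | ∃ i ≤ n, A (ρ i)})
    fun a b hab ρ ⟨i, hi, h⟩ => ⟨i, hi.trans hab, h⟩
  have h3 : (⋃ n, {ρ : ℕ → S | ∃ i ≤ n, A (ρ i)}) = {ρ | ∃ i, A (ρ i)} := by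
    ext ρ
    simp only [Set.mem_iUnion, Set.mem_ofPred_eq]
    exact ⟨fun ⟨_, i, _, h⟩ => ⟨i, h⟩, fun ⟨i, h⟩ => ⟨i, i, le_rfl, h⟩⟩
  rw [h3] at h2
  refine ((ENNReal.tendsto_toReal (measure_ne_top _ _)).comp h2).congr fun n => ?_
  simp [h1, rN_nonneg]

theorem H_pos (L : M.IsLaw μ) {A : S → Prop} {s : S} (h : A s) : H μ A s = 1 := by
  refine tendsto_nhds_unique (tend L A s) (tendsto_const_nhds.congr fun n => ?_)
  cases n <;> simp [rN, h]

theorem H_neg (L : M.IsLaw μ) {A : S → Prop} {s : S} (h : ¬ A s) :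
    H μ A s = ∑ u, M.P s u * H μ A u := by
  refine tendsto_nhds_unique ((tendsto_add_atTop_iff_nat 1).2 (tend L A s))
    ((tendsto_finsetSum _ fun u _ => (tend L A u).const_mul (M.P s u)).congr fun n => ?_)
  simp [rN, h]

theorem H_nonneg (A : S → Prop) (s : S) : 0 ≤ H μ A s := ENNReal.toReal_nonneg

theorem H_le (L : M.IsLaw μ) (A : S → Prop) (s : S) : H μ A s ≤ 1 := by
  have := (L s).1
  exact measureReal_le_one

def MC.Leaf (M : MC S) (s : S) : Prop := ∀ u, ¬ M.E s u

omit [MeasurableSpace S] [DiscreteMeasurableSpace S] in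
theorem MC.Leaf.sum {s : S} (h : M.Leaf s) (f : S → ℝ) : ∑ u, M.P s u * f u = f s := by
  have h0 : ∀ u, u ≠ s → M.P s u = 0 := fun u hu =>
    le_antisymm (not_lt.1 fun h' => h u ⟨hu.symm, h'⟩) (M.nonneg _ _)
  have h1 := M.sum_one s
  rw [sum_eq_single s (fun u _ hu => h0 u hu) (by simp)] at h1
  rw [sum_eq_single s (fun u _ hu => by rw [h0 u hu, zero_mul]) (by simp), h1, one_mul]

theorem H_leaf (L : M.IsLaw μ) {A : S → Prop} {s : S} (hs : M.Leaf s) (h : ¬ A s) :
    H μ A s = 0 := by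
  refine tendsto_nhds_unique (tend L A s) (tendsto_const_nhds.congr fun n => ?_)
  induction n with
  | zero => simp [rN, h]
  | succ n ih => rw [rN, if_neg h, hs.sum, ← ih]

omit [MeasurableSpace S] [DiscreteMeasurableSpace S] in
theorem MC.TreeLike.ind (T : M.TreeLike) {Q : S → Prop}
    (h : ∀ s, (∀ u, TransGen M.E s u → Q u) → Q s) (s : S) : Q s := by
  obtain ⟨r, h1, h2, h3, -⟩ := T
  have ac : ∀ u, ¬ TransGen M.E u u := by
    intro u
    induction h1 u with
    | refl =>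
      intro h
      obtain ⟨b, -, hb⟩ := TransGen.tail'_iff.1 h
      exact h2 b hb
    | tail _ e ih =>
      intro h
      obtain ⟨b, hb, hb'⟩ := TransGen.tail'_iff.1 h
      obtain rfl := h3 _ _ _ e hb'
      exact ih (TransGen.head' e hb)
  haveI : IsTrans S fun u s => TransGen M.E s u := ⟨fun _ _ _ a b => b.trans a⟩
  haveI : Std.Irrefl fun u s => TransGen M.E s u := ⟨ac⟩
  exact (Finite.wellFounded_of_trans_of_irrefl fun u s => TransGen M.E s u).induction s h

omit [MeasurableSpace S] [DiscreteMeasurableSpace S] in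
theorem MC.TreeLike.edge (T : M.TreeLike) {s u : S} (hs : ¬ M.Leaf s) (h : M.P s u ≠ 0) :
    M.E s u := by
  obtain ⟨r, -, -, -, h4⟩ := T
  have := lt_of_le_of_ne (M.nonneg s u) h.symm
  exact ⟨by rintro rfl; exact hs ((h4 s).1 this), this⟩

def MC.Harm (M : MC S) (f : S → ℝ) : Prop := ∀ s, f s = ∑ u, M.P s u * f u

omit [MeasurableSpace S] [DiscreteMeasurableSpace S] in
theorem MC.TreeLike.uniq (T : M.TreeLike) {f g : S → ℝ} (hf : M.Harm f) (hg : M.Harm g)
    (h : ∀ s, M.Leaf s → f s = g s) (s : S) : f s = g s := by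
  refine T.ind (Q := fun s => f s = g s) (fun s ih => ?_) s
  by_cases hs : M.Leaf s
  · exact h s hs
  rw [hf, hg]
  refine sum_congr rfl fun u _ => ?_
  by_cases hu : M.P s u = 0
  · simp [hu]
  · rw [ih u (TransGen.single (T.edge hs hu))]

theorem H_zero (L : M.IsLaw μ) {A : S → Prop} {s u : S} (h : H μ A s = 0) (hu : M.P s u ≠ 0) :
    ¬ A s ∧ H μ A u = 0 := by
  have hA : ¬ A s := fun h' => by rw [H_pos L h'] at h; norm_num at h
  rw [H_neg L hA, sum_eq_zero_iff_of_nonneg fun u _ => mul_nonneg (M.nonneg _ _) (H_nonneg _ _)] at h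
  exact ⟨hA, (mul_eq_zero.1 (h u (mem_univ _))).resolve_left hu⟩

theorem H_one (L : M.IsLaw μ) {A : S → Prop} {s u : S} (h : H μ A s = 1) (hA : ¬ A s)
    (hu : M.P s u ≠ 0) : H μ A u = 1 := by
  have h1 : ∑ u, M.P s u * (1 - H μ A u) = 0 := by
    simp only [mul_sub, mul_one, sum_sub_distrib, M.sum_one, ← H_neg L hA, h, sub_self]
  rw [sum_eq_zero_iff_of_nonneg fun u _ => mul_nonneg (M.nonneg _ _) (sub_nonneg.2 (H_le L _ _))] at h1
  have := (mul_eq_zero.1 (h1 u (mem_univ _))).resolve_left hu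
  linarith

/-- the probability of ending in a leaf with property `A` -/
noncomputable def V (μ : S → Measure (ℕ → S)) (A : S → Prop) : S → ℝ :=
  H μ fun t => H μ (fun u => ¬ A u) t = 0

theorem V_harm (L : M.IsLaw μ) (A : S → Prop) : M.Harm (V μ A) := by
  intro s
  by_cases h : H μ (fun u => ¬ A u) s = 0
  · rw [V, H_pos L h, ← M.sum_one s]
    refine sum_congr rfl fun u _ => ?_
    by_cases hu : M.P s u = 0
    · simp [hu]
    · rw [H_pos L (A := fun t => H μ (fun u => ¬ A u) t = 0) (H_zero L h hu).2, mul_one]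
  · exact H_neg L h

theorem V_leaf (L : M.IsLaw μ) (A : S → Prop) {s : S} (hs : M.Leaf s) :
    V μ A s = if A s then 1 else 0 := by
  split_ifs with h
  · exact H_pos L (H_leaf L hs (not_not.2 h))
  · exact H_leaf L hs (by rw [H_pos L (A := fun u => ¬ A u) h]; norm_num)

theorem V_sum (T : M.TreeLike) (L : M.IsLaw μ) {B : ℕ → S → Prop}
    (hB : ∀ a a' t, B a t → B a' t → a = a') (I : Finset ℕ) {A : S → Prop}
    (hA : ∀ t, A t ↔ ∃ a ∈ I, B a t) (s : S) : V μ A s = ∑ a ∈ I, V μ (B a) s := by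
  refine T.uniq (g := fun s => ∑ a ∈ I, V μ (B a) s) (V_harm L A) (fun s => ?_) (fun s hs => ?_) s
  · simp only [mul_sum]
    rw [sum_comm]
    exact sum_congr rfl fun a _ => V_harm L _ s
  · simp only [V_leaf L _ hs]
    split_ifs with h
    · obtain ⟨a, ha, h⟩ := (hA s).1 h
      rw [sum_eq_single a (fun b _ hb => if_neg fun h' => hb (hB _ _ _ h' h)) (fun h => absurd ha h),
        if_pos h]
    · exact (sum_eq_zero fun a ha => if_neg fun h' => h ((hA s).2 ⟨a, ha, h'⟩)).symm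

theorem stop (T : M.TreeLike) (L : M.IsLaw μ) {U D G : S → Prop}
    (hG : ∀ s u, G s → M.P s u ≠ 0 → G u) (hD : ∀ t, G t → D t → H μ U t = 0) (s : S) :
    G s → H μ (fun t => U t ∨ D t) s = 1 → ∃ w : S → ℝ, (∀ u, 0 ≤ w u) ∧
      (∀ u, w u ≠ 0 → U u ∧ G u ∧ ReflTransGen M.E s u) ∧ ∑ u, w u = H μ U s ∧
      ∀ f, M.Harm f → (∀ t, G t → D t → f t = 0) → f s = ∑ u, w u * f u := by
  refine T.ind (Q := fun s => G s → H μ (fun t => U t ∨ D t) s = 1 → ∃ w : S → ℝ, (∀ u, 0 ≤ w u) ∧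
      (∀ u, w u ≠ 0 → U u ∧ G u ∧ ReflTransGen M.E s u) ∧ ∑ u, w u = H μ U s ∧
      ∀ f, M.Harm f → (∀ t, G t → D t → f t = 0) → f s = ∑ u, w u * f u) (fun s ih hs h1 => ?_) s
  by_cases hU : U s
  · refine ⟨fun u => if u = s then 1 else 0, fun u => by positivity, fun u hu => ?_,
      by simp [H_pos L hU], fun f _ _ => by simp⟩
    obtain rfl : u = s := by simpa using hu
    exact ⟨hU, hs, ReflTransGen.refl⟩
  by_cases hDs : D s
  · exact ⟨fun _ => 0, fun _ => le_rfl, fun u hu => absurd rfl hu, by simp [hD s hs hDs],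
      fun f _ h => by simp [h s hs hDs]⟩
  have hUD : ¬ (U s ∨ D s) := not_or.2 ⟨hU, hDs⟩
  have hl : ¬ M.Leaf s := fun h => by rw [H_leaf L h hUD] at h1; norm_num at h1
  have : ∀ t, ∃ w : S → ℝ, M.P s t ≠ 0 → (∀ u, 0 ≤ w u) ∧
      (∀ u, w u ≠ 0 → U u ∧ G u ∧ ReflTransGen M.E t u) ∧ ∑ u, w u = H μ U t ∧
      ∀ f, M.Harm f → (∀ t, G t → D t → f t = 0) → f t = ∑ u, w u * f u := fun t => by
    by_cases ht : M.P s t = 0
    · exact ⟨fun _ => 0, fun h => absurd ht h⟩
    · obtain ⟨w, hw⟩ := ih t (TransGen.single (T.edge hl ht)) (hG _ _ hs ht) (H_one L h1 hUD ht)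
      exact ⟨w, fun _ => hw⟩
  choose w hw using this
  refine ⟨fun u => ∑ t, M.P s t * w t u, fun u => sum_nonneg fun t _ => ?_, fun u hu => ?_, ?_,
    fun f hf h => ?_⟩
  · by_cases ht : M.P s t = 0
    · simp [ht]
    · exact mul_nonneg (M.nonneg _ _) ((hw t ht).1 u)
  · obtain ⟨t, -, ht⟩ := exists_ne_zero_of_sum_ne_zero hu
    obtain ⟨a1, a2, a3⟩ := (hw t (left_ne_zero_of_mul ht)).2.1 u (right_ne_zero_of_mul ht)
    exact ⟨a1, a2, ReflTransGen.head (T.edge hl (left_ne_zero_of_mul ht)) a3⟩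
  · rw [sum_comm, H_neg L hU]
    refine sum_congr rfl fun t _ => ?_
    by_cases ht : M.P s t = 0
    · simp [ht]
    · rw [← mul_sum, (hw t ht).2.2.1]
  · simp only [sum_mul]
    rw [sum_comm, hf s]
    refine sum_congr rfl fun t _ => ?_
    by_cases ht : M.P s t = 0
    · simp [ht]
    · rw [(hw t ht).2.2.2 f hf h, mul_sum]
      exact sum_congr rfl fun u _ => by ring

theorem conv {ι : Type} [Fintype ι] {w x y : ι → ℝ} {β : ℝ} (hβ : 0 < β) (h0 : ∀ u, 0 ≤ w u)
    (h1 : ∑ u, w u = 1 / 4) (h : ∀ u, w u ≠ 0 → x u ^ 2 ≤ β * y u) :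
    4 * (∑ u, w u * x u) ^ 2 ≤ β * ∑ u, w u * y u ∧
      (4 * (∑ u, w u * x u) ^ 2 = β * ∑ u, w u * y u → ∀ u, w u ≠ 0 →
        x u = 4 * ∑ u, w u * x u ∧ y u = 4 * ∑ u, w u * y u) := by
  set a := ∑ u, w u * x u with ha
  set b := ∑ u, w u * y u with hb
  have e : ∑ u, w u * ((x u - 4 * a) ^ 2 + (β * y u - x u ^ 2)) = β * b - 4 * a ^ 2 := by
    have : ∀ u, w u * ((x u - 4 * a) ^ 2 + (β * y u - x u ^ 2)) =
      β * (w u * y u) - 8 * a * (w u * x u) + 16 * a ^ 2 * w u := fun u => by ring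
    simp only [this, sum_add_distrib, sum_sub_distrib, ← mul_sum, ← ha, ← hb, h1]
    ring
  have nn : ∀ u ∈ univ, 0 ≤ w u * ((x u - 4 * a) ^ 2 + (β * y u - x u ^ 2)) := fun u _ => by
    by_cases hu : w u = 0
    · simp [hu]
    · exact mul_nonneg (h0 u) (add_nonneg (sq_nonneg _) (sub_nonneg.2 (h u hu)))
  refine ⟨by have := sum_nonneg nn; linarith, fun h2 u hu => ?_⟩
  rw [h2, sub_self, sum_eq_zero_iff_of_nonneg nn] at e
  have h3 := (mul_eq_zero.1 (e u (mem_univ _))).resolve_left hu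
  have h4 := h u hu
  have h5 : x u = 4 * a := by nlinarith [sq_nonneg (x u - 4 * a)]
  refine ⟨h5, mul_left_cancel₀ hβ.ne' ?_⟩
  rw [h5] at h3
  nlinarith

end Pool.Agent.H32.Pctl
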