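import Pool.Agent.H77.TrsA

/-! A register machine that stops only with all registers empty. -/

namespace Pool.Agent.H32.Pctl

open Pool.Agent.H38.CM Pool.Agent.H77.Trs Function

inductive R0 (z : ℕ) (kd rg : ℕ → ℕ) (al : ℕ → ℕ → Prop) : ℕ → (ℕ → ℕ) → Prop
  | stop : R0 z kd rg al z fun _ => 0
  | step {q q' : ℕ} {v : ℕ → ℕ} : q ≠ z → H77.Trs.cond (kd q) (v (rg q)) → al q q' →
      R0 z kd rg al q' (update v (rg q) (nw (kd q) (v (rg q)))) → R0 z kd rg al q v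

theorem exists_r0 : ∃ (N k z s0 : ℕ) (kd rg : ℕ → ℕ) (al : ℕ → ℕ → Prop), s0 < N ∧
    (∀ q, rg q < k) ∧ (∀ q q', al q q' → q' < N) ∧
    ¬ ComputablePred fun x : ℕ => R0 z kd rg al s0 (init x) := by
  obtain ⟨n, k, z, kd, rg, al, hz, hk, hal, h⟩ := exists_rm
  have k0 : 0 < k := by have := hk 0; omega
  let kd' : ℕ → ℕ := fun q => if q < n then kd q else if q < n + k then 1 else 3
  let rg' : ℕ → ℕ := fun q => if q < n then rg q else if q < n + k then q - n else 0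
  let tg : ℕ → ℕ → Prop := fun p q' => (p ≠ z ∧ q' = p) ∨ (p = z ∧ (q' = z ∨ (n ≤ q' ∧ q' < n + k)))
  let al' : ℕ → ℕ → Prop := fun q q' => ∃ p, tg p q' ∧
    ((q < n ∧ al q p) ∨ (q = n + k ∧ al z p) ∨ (n ≤ q ∧ q < n + k ∧ p = z))
  have e1 : ∀ q < n, kd' q = kd q ∧ rg' q = rg q := fun q h => ⟨if_pos h, if_pos h⟩
  have e2 : ∀ r < k, kd' (n + r) = 1 ∧ rg' (n + r) = r := fun r h => by
    simp only [kd', rg']
    rw [if_neg (by omega), if_pos (by omega), if_neg (by omega), if_pos (by omega)]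
    exact ⟨rfl, by omega⟩
  have e3 : ∀ v : ℕ → ℕ, update v (rg' (n + k)) (nw (kd' (n + k)) (v (rg' (n + k)))) = v := by
    intro v; simp [kd', nw]
  have A : ∀ q v, R0 z kd' rg' al' q v → q < n → ∃ m, RH z kd rg al q v m := by
    intro q v h
    induction h with
    | stop => exact fun _ => ⟨0, .stop _⟩
    | step a1 a2 a3 _ ih =>
      intro hq
      rw [(e1 _ hq).1, (e1 _ hq).2] at a2 ih
      obtain ⟨p, ⟨-, rfl⟩ | ⟨rfl, -⟩, ⟨-, b⟩ | b | b⟩ := a3
      · obtain ⟨m, hm⟩ := ih (hal _ _ b).2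
        exact ⟨_, .step a1 a2 b hm⟩
      · omega
      · omega
      · exact ⟨_, .step a1 a2 b (.stop _)⟩
      · omega
      · omega
  have C : ∀ t (v : ℕ → ℕ), ∑ r ∈ Finset.range k, v r = t → (∀ r, k ≤ r → v r = 0) →
      ∃ q', tg z q' ∧ R0 z kd' rg' al' q' v := by
    intro t
    induction t with
    | zero =>
      intro v h1 h2
      obtain rfl : v = fun _ => 0 := funext fun r => by
        by_cases h : r < k
        · exact Finset.sum_eq_zero_iff.1 h1 r (Finset.mem_range.2 h)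
        · exact h2 r (by omega)
      exact ⟨z, Or.inr ⟨rfl, Or.inl rfl⟩, .stop⟩
    | succ t ih =>
      intro v h1 h2
      obtain ⟨r, hr, h3⟩ := Finset.exists_ne_zero_of_sum_ne_zero (s := Finset.range k) (f := v)
        (by omega)
      have hr' := Finset.mem_range.1 hr
      obtain ⟨q', a1, a2⟩ := ih (update v r (v r - 1)) (by
        rw [Finset.sum_update_of_mem hr]
        rw [← Finset.add_sum_erase _ _ hr, Finset.erase_eq] at h1
        omega) fun s hs => by rw [update_of_ne (by omega), h2 s hs]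
      refine ⟨n + r, Or.inr ⟨rfl, Or.inr (by omega)⟩, .step (q' := q') (by omega) ?_
        ⟨z, a1, Or.inr (Or.inr ⟨by omega, by omega, rfl⟩)⟩ ?_⟩ <;> rw [(e2 r hr').1, (e2 r hr').2]
      · exact ⟨fun _ => h3, by omega⟩
      · exact a2
  have B : ∀ q v m, RH z kd rg al q v m → (∀ r, k ≤ r → v r = 0) →
      ∃ q', tg q q' ∧ R0 z kd' rg' al' q' v := by
    intro q v m h
    induction h with
    | stop v => exact C _ v rfl
    | @step q q1 m v a1 a2 a3 _ ih =>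
      intro hv
      have hq := (hal _ _ a3).1
      obtain ⟨q2, b1, b2⟩ := ih fun r hr => by
        have := hk q
        rw [update_of_ne (by omega), hv r hr]
      refine ⟨q, Or.inl ⟨a1, rfl⟩, .step a1 ?_ ⟨q1, b1, Or.inl ⟨hq, a3⟩⟩ ?_⟩ <;>
        rw [(e1 _ hq).1, (e1 _ hq).2]
      · exact a2
      · exact b2
  refine ⟨n + k + 1, k, z, n + k, kd', rg', al', by omega, fun q => ?_, ?_,
    fun h' => h (h'.of_eq fun x => ⟨fun h => ?_, ?_⟩)⟩
  · have := hk q
    simp only [rg']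
    split_ifs <;> omega
  · rintro q q' ⟨p, ⟨-, rfl⟩ | ⟨rfl, h⟩, ⟨-, b⟩ | ⟨-, b⟩ | b⟩
    · have := hal _ _ b; omega
    · have := hal _ _ b; omega
    · omega
    · omega
    · omega
    · omega
  · generalize hq : n + k = q at h
    generalize hv : init x = v at h
    cases h with
    | stop => omega
    | step a1 a2 a3 a4 =>
      subst hq
      rw [e3] at a4
      obtain ⟨p, ⟨-, rfl⟩ | ⟨rfl, -⟩, b | ⟨-, b⟩ | b⟩ := a3
      · omega
      · obtain ⟨m, hm⟩ := A _ _ a4 (hal _ _ b).2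
        exact ⟨_, m, b, hm⟩
      · omega
      · omega
      · exact ⟨_, 0, b, .stop _⟩
      · omega
  · rintro ⟨q, m, h1, h2⟩
    obtain ⟨q', a1, a2⟩ := B _ _ _ h2 fun r hr => by rw [init, update_of_ne (by omega)]
    refine .step (by omega) ?_ ⟨q, a1, Or.inr (Or.inl ⟨rfl, h1⟩)⟩ (by rw [e3]; exact a2)
    simp [kd', H77.Trs.cond]

theorem R0.seq {z : ℕ} {kd rg : ℕ → ℕ} {al : ℕ → ℕ → Prop} {q0 : ℕ} {v0 : ℕ → ℕ}
    (h : R0 z kd rg al q0 v0) : ∃ (m : ℕ) (q : ℕ → ℕ) (v : ℕ → ℕ → ℕ), q 0 = q0 ∧ v 0 = v0 ∧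
      q m = z ∧ v m = (fun _ => 0) ∧ ∀ i < m, q i ≠ z ∧ H77.Trs.cond (kd (q i)) (v i (rg (q i))) ∧
        al (q i) (q (i + 1)) ∧ v (i + 1) = update (v i) (rg (q i)) (nw (kd (q i)) (v i (rg (q i)))) := by
  induction h with
  | stop => exact ⟨0, fun _ => z, fun _ _ => 0, rfl, rfl, rfl, rfl, fun i h => by omega⟩
  | @step q0 q1 v0 a1 a2 a3 _ ih =>
    obtain ⟨m, q, v, b1, b2, b3, b4, b5⟩ := ih
    refine ⟨m + 1, fun i => Nat.casesOn i q0 q, fun i => Nat.casesOn i v0 v, rfl, rfl, b3, b4, ?_⟩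
    rintro (_ | i) hi
    · exact ⟨a1, a2, by simpa [b1] using a3, b2⟩
    · exact b5 i (by omega)

end Pool.Agent.H32.Pctl
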