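import Pool.Agent.H32.PctlA
import Pool.Agent.H32.PctlB

/-! The formula simulating a register machine, and its soundness. -/

namespace Pool.Agent.H32.Pctl

open MeasureTheory Finset Relation Classical Pool.Agent.H38.CM Pool.Agent.H77.Trs Function

def tt : Fm := .or (.atom 0) (.neg (.atom 0))
def bA (n : ℕ) (f : ℕ → Fm) : Fm := ((List.range n).map f).foldr .and tt
def bO (n : ℕ) (f : ℕ → Fm) : Fm := ((List.range n).map f).foldr .or (.neg tt)
noncomputable def cnd (c : Prop) (φ : Fm) : Fm := if c then φ else tt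
noncomputable def cnj (c : Prop) (φ : Fm) : Fm := if c then φ else .neg tt
def imp (a : ℕ) (φ : Fm) : Fm := .or (.neg (.atom a)) φ
def lab (a : ℕ) : Fm := .and (.atom a) (bA a fun b => .neg (.atom b))
def pf (ψ : Fm) (p q : ℕ) : Fm := .PF ψ .eq p (q - p)
def ms (ψ : Fm) (p q : ℕ) : Fm := pf (pf (.neg ψ) 0 1) p q
def fX (w p : ℕ) : Fm := bO 16 fun i => lab (2 * (16 * w + i) + p)

structure Pr where
  N : ℕ
  k : ℕ
  z : ℕ
  kd : ℕ → ℕ
  rg : ℕ → ℕ
  al : ℕ → ℕ → Prop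

namespace Pr

variable (R : Pr)

def KK (q w : ℕ) : ℕ :=
  if w / 2 = R.rg q then
    (if R.kd q = 0 then 8 * (1 + w % 2) else if R.kd q = 1 then 2 - w % 2 else 4) else 4
def ty (q p : ℕ) : ℕ := 64 * R.k + 2 + 2 * q + p
def sd (p : ℕ) : ℕ := 64 * R.k + p
noncomputable def suc (q p : ℕ) : Fm := bO R.N fun q' => cnj (R.al q q') (.atom (R.ty q' (1 - p)))
def full (w p : ℕ) : Fm := ms (fX w p) (17 - 2 * p) (64 * R.k)

noncomputable def stp (q p : ℕ) : Fm :=
  .and (pf (R.suc q p) 1 4) (.and (pf (.or (R.suc q p) (.atom (R.sd p))) 1 1) (.and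
    (bA (2 * R.k) fun w => bA 16 fun i =>
      .and (cnd (i < R.KK q w) (ms (.or (lab (2 * (16 * w + i) + p)) (fX w (1 - p))) 5 (64 * R.k)))
        (cnd (¬ i < R.KK q w) (ms (lab (2 * (16 * w + i) + p)) 1 (64 * R.k))))
    (.and (cnd (R.kd q = 2) (R.full (2 * R.rg q) p))
      (cnd (R.kd q = 1) (.neg (R.full (2 * R.rg q) p))))))

noncomputable def psi : Fm := bA 2 fun p => .and
  (imp (R.sd p) (.and (pf (bO R.N fun q => bO 2 fun p' => .atom (R.ty q p')) 0 1)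
    (bA (2 * R.k) fun w => ms (fX w (1 - p)) 0 1)))
  (bA R.N fun q => imp (R.ty q p)
    (.and (cnd (q = R.z) (bA (2 * R.k) fun w => R.full w p)) (cnd (q ≠ R.z) (R.stp q p))))

noncomputable def phi (s0 x : ℕ) : Fm :=
  .and (ms (fX 0 0) (16 * 2 ^ x + 1) (64 * R.k * 2 ^ x))
    (.and (ms (fX 1 0) (16 * 4 ^ x + 1) (64 * R.k * 4 ^ x))
      (.and (.atom (R.ty s0 0)) (.and (bA (2 * R.k) fun w => cnd (2 ≤ w) (R.full w 0))
        (pf (.neg R.psi) 0 1))))

end Pr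

variable {S : Type} [Fintype S] [MeasurableSpace S] [DiscreteMeasurableSpace S] {M : MC S}
  {μ : S → Measure (ℕ → S)} {s : S}

noncomputable def fr (p q : ℕ) : ℝ := p / (p + (q - p : ℕ))

theorem fr_eq {p q : ℕ} (h : p ≤ q) : fr p q = p / q := by
  rw [fr, Nat.cast_sub h]; congr 1; ring

theorem fr_zero (q : ℕ) : fr 0 q = 0 := by simp [fr]

section
omit [DiscreteMeasurableSpace S]

theorem sat_tt : Sat M μ tt s := Classical.em _

theorem sat_and {φ ψ : Fm} : Sat M μ (.and φ ψ) s ↔ Sat M μ φ s ∧ Sat M μ ψ s := Iff.rfl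
theorem sat_or {φ ψ : Fm} : Sat M μ (.or φ ψ) s ↔ Sat M μ φ s ∨ Sat M μ ψ s := Iff.rfl
theorem sat_neg {φ : Fm} : Sat M μ (.neg φ) s ↔ ¬ Sat M μ φ s := Iff.rfl
theorem sat_atom {a : ℕ} : Sat M μ (.atom a) s ↔ M.v s a := Iff.rfl

theorem sat_bA {n : ℕ} {f : ℕ → Fm} : Sat M μ (bA n f) s ↔ ∀ i < n, Sat M μ (f i) s := by
  simp only [bA, ← List.mem_range]
  induction List.range n with
  | nil => simp [sat_tt]
  | cons a l ih => simp [sat_and, ih]

theorem sat_bO {n : ℕ} {f : ℕ → Fm} : Sat M μ (bO n f) s ↔ ∃ i < n, Sat M μ (f i) s := by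
  simp only [bO, ← List.mem_range]
  induction List.range n with
  | nil => simp [sat_tt, sat_neg]
  | cons a l ih => simp [sat_or, ih]

theorem sat_cnd {c : Prop} {φ : Fm} : Sat M μ (cnd c φ) s ↔ (c → Sat M μ φ s) := by
  unfold cnd; split_ifs with h <;> simp [h, sat_tt]

theorem sat_cnj {c : Prop} {φ : Fm} : Sat M μ (cnj c φ) s ↔ c ∧ Sat M μ φ s := by
  unfold cnj; split_ifs with h <;> simp [h, sat_tt, sat_neg]

theorem sat_imp {a : ℕ} {φ : Fm} : Sat M μ (imp a φ) s ↔ (M.v s a → Sat M μ φ s) :=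
  imp_iff_not_or.symm

theorem sat_pf {ψ : Fm} {p q : ℕ} :
    Sat M μ (pf ψ p q) s ↔ H μ (fun t => Sat M μ ψ t) s = fr p q := Iff.rfl

theorem sat_ms {ψ : Fm} {p q : ℕ} :
    Sat M μ (ms ψ p q) s ↔ V μ (fun t => Sat M μ ψ t) s = fr p q := by
  simp only [ms, sat_pf, fr_zero, sat_neg, V]

def Lb (M : MC S) (a : ℕ) (t : S) : Prop := M.v t a ∧ ∀ b < a, ¬ M.v t b

theorem sat_lab {a : ℕ} : Sat M μ (lab a) s ↔ Lb M a s := by
  simp only [lab, sat_and, sat_atom, sat_bA, sat_neg, Lb]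

end

omit [MeasurableSpace S] [DiscreteMeasurableSpace S] in
theorem Lb_uniq (a a' : ℕ) (t : S) (h : Lb M a t) (h' : Lb M a' t) : a = a' := by
  rcases lt_trichotomy a a' with c | c | c
  · exact absurd h.1 (h'.2 a c)
  · exact c
  · exact absurd h'.1 (h.2 a' c)

noncomputable def XS (M : MC S) (μ : S → Measure (ℕ → S)) (w p : ℕ) (s : S) : ℝ :=
  ∑ i ∈ range 16, V μ (Lb M (2 * (16 * w + i) + p)) s

theorem XS_harm (L : M.IsLaw μ) (w p : ℕ) : M.Harm (XS M μ w p) := fun s => by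
  simp only [XS, mul_sum]
  rw [sum_comm]
  exact sum_congr rfl fun a _ => V_harm L _ s

theorem V_fX (T : M.TreeLike) (L : M.IsLaw μ) (w p : ℕ) :
    V μ (fun t => Sat M μ (fX w p) t) s = XS M μ w p s := by
  rw [V_sum T L Lb_uniq ((range 16).image fun i => 2 * (16 * w + i) + p), sum_image, XS]
  · intro a _ b _ h
    simp only at h; omega
  · intro t
    simp [fX, sat_bO, sat_lab]

theorem V_or (T : M.TreeLike) (L : M.IsLaw μ) (w i : ℕ) {p : ℕ} (hp : p < 2) :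
    V μ (fun t => Sat M μ (.or (lab (2 * (16 * w + i) + p)) (fX w (1 - p))) t) s =
      V μ (Lb M (2 * (16 * w + i) + p)) s + XS M μ w (1 - p) s := by
  rw [V_sum T L Lb_uniq (insert (2 * (16 * w + i) + p)
    ((range 16).image fun i => 2 * (16 * w + i) + (1 - p))), sum_insert, sum_image, XS]
  · intro a _ b _ h
    simp only at h; omega
  · simp only [mem_image, not_exists, not_and]
    intro j _; omega
  · intro t
    simp [fX, sat_bO, sat_lab, sat_or]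

def Suc (R : Pr) (M : MC S) (q p : ℕ) (t : S) : Prop := ∃ q' < R.N, R.al q q' ∧ M.v t (R.ty q' (1 - p))

def Sem (R : Pr) (M : MC S) (μ : S → Measure (ℕ → S)) (s : S) : Prop := ∀ p < 2,
  (M.v s (R.sd p) → H μ (fun t => ∃ q < R.N, ∃ p' < 2, M.v t (R.ty q p')) s = 0 ∧
    ∀ w < 2 * R.k, XS M μ w (1 - p) s = 0) ∧
  ∀ q < R.N, M.v s (R.ty q p) →
    (q = R.z → ∀ w < 2 * R.k, XS M μ w p s = (17 - 2 * p) / (64 * R.k)) ∧
    (q ≠ R.z → H μ (Suc R M q p) s = 1 / 4 ∧ H μ (fun t => Suc R M q p t ∨ M.v t (R.sd p)) s = 1 ∧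
      (∀ w < 2 * R.k, ∀ i < 16,
        (i < R.KK q w → V μ (Lb M (2 * (16 * w + i) + p)) s + XS M μ w (1 - p) s = 5 / (64 * R.k)) ∧
        (¬ i < R.KK q w → V μ (Lb M (2 * (16 * w + i) + p)) s = 1 / (64 * R.k))) ∧
      (R.kd q = 2 → XS M μ (2 * R.rg q) p s = (17 - 2 * p) / (64 * R.k)) ∧
      (R.kd q = 1 → ¬ XS M μ (2 * R.rg q) p s = (17 - 2 * p) / (64 * R.k)))

variable {R : Pr}

theorem sat_full (T : M.TreeLike) (L : M.IsLaw μ) (hk : 0 < R.k) {w p : ℕ} (hp : p < 2) :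
    Sat M μ (R.full w p) s ↔ XS M μ w p s = (17 - 2 * p) / (64 * R.k) := by
  rw [Pr.full, sat_ms, V_fX T L, fr_eq (by omega), Nat.cast_sub (by omega)]
  push_cast; rfl

theorem sat_psi (T : M.TreeLike) (L : M.IsLaw μ) (hk : 0 < R.k) : Sat M μ R.psi s ↔ Sem R M μ s := by
  have e1 : fr 1 4 = 1 / 4 := by norm_num [fr]
  have e2 : fr 1 1 = 1 := by norm_num [fr]
  have e3 : fr 5 (64 * R.k) = 5 / (64 * R.k) := by rw [fr_eq (by omega)]; push_cast; rfl
  have e4 : fr 1 (64 * R.k) = 1 / (64 * R.k) := by rw [fr_eq (by omega)]; push_cast; rfl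
  have e5 : ∀ q p, (fun t => Sat M μ (R.suc q p) t) = Suc R M q p := fun q p => by
    funext t; simp only [Pr.suc, sat_bO, sat_cnj, sat_atom, Suc]
  rw [Pr.psi, sat_bA]
  refine forall₂_congr fun p hp => ?_
  have e6 : ∀ a, (fun t => Sat M μ (lab a) t) = Lb M a := fun a => funext fun t => propext sat_lab
  simp only [sat_and, sat_imp, sat_pf, sat_bA, sat_ms, V_fX T L, fr_zero, sat_cnd, Pr.stp,
    sat_full T L hk hp, V_or T L _ _ hp, e1, e2, e3, e4, e5, e6, sat_neg]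
  simp only [sat_bO, sat_atom, sat_or, Pr.suc, sat_cnj]
  rfl

theorem H_mono (L : M.IsLaw μ) {A B : S → Prop} (h : ∀ t, A t → B t) (s : S) :
    H μ A s ≤ H μ B s := by
  have := (L s).1
  exact ENNReal.toReal_mono (measure_ne_top _ _) (measure_mono fun ρ ⟨i, hi⟩ => ⟨i, h _ hi⟩)

theorem sum16 {K : ℕ} (hK : K ≤ 16) {f : ℕ → ℝ} {a b : ℝ}
    (h : ∀ i < 16, (i < K → f i = a) ∧ (¬ i < K → f i = b)) :
    ∑ i ∈ range 16, f i = K * a + (16 - K) * b := by
  rw [← sum_range_add_sum_Ico _ hK, sum_congr rfl (g := fun _ => a) fun i hi =>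
    (h i (by have := mem_range.1 hi; omega)).1 (mem_range.1 hi), sum_congr rfl (g := fun _ => b)
    fun i hi => (h i (mem_Ico.1 hi).2).2 (by have := mem_Ico.1 hi; omega)]
  simp [Nat.cast_sub hK]

theorem KK_le (q w : ℕ) : R.KK q w ≤ 16 := by unfold Pr.KK; split_ifs <;> omega

theorem KK_val {q r : ℕ} {v : ℕ → ℕ} (h : H77.Trs.cond (R.kd q) (v (R.rg q))) :
    (R.KK q (2 * r) : ℝ) * 2 ^ v r = 4 * 2 ^ update v (R.rg q) (nw (R.kd q) (v (R.rg q))) r ∧
    (R.KK q (2 * r + 1) : ℝ) * 4 ^ v r = 4 * 4 ^ update v (R.rg q) (nw (R.kd q) (v (R.rg q))) r := by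
  unfold Pr.KK
  rw [show 2 * r / 2 = r by omega, show (2 * r + 1) / 2 = r by omega, show 2 * r % 2 = 0 by omega,
    show (2 * r + 1) % 2 = 1 by omega]
  by_cases hr : r = R.rg q
  · rw [← hr] at h ⊢
    rw [update_self, if_pos rfl, if_pos rfl]
    unfold nw
    split_ifs with a b
    · constructor <;> push_cast <;> ring
    · obtain ⟨j, hj⟩ := Nat.exists_eq_succ_of_ne_zero (h.1 b)
      rw [hj]
      constructor <;> simp <;> ring
    · simp
  · rw [update_of_ne hr, if_neg hr, if_neg hr]; simp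

theorem KK_sq (q r : ℕ) : (R.KK q (2 * r) : ℝ) ^ 2 = 4 * R.KK q (2 * r + 1) ∧
    (0 : ℝ) < R.KK q (2 * r + 1) := by
  unfold Pr.KK
  rw [show 2 * r / 2 = r by omega, show (2 * r + 1) / 2 = r by omega, show 2 * r % 2 = 0 by omega,
    show (2 * r + 1) % 2 = 1 by omega]
  split_ifs <;> norm_num

noncomputable def X (R : Pr) (M : MC S) (μ : S → Measure (ℕ → S)) (w p : ℕ) (s : S) : ℝ :=
  (1 - 2 * p) * (64 * R.k * XS M μ w p s - 16)

theorem X_one (hk : 0 < R.k) {w p : ℕ} (hp : p < 2) :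
    XS M μ w p s = (17 - 2 * p) / (64 * R.k) ↔ X R M μ w p s = 1 := by
  have : (0 : ℝ) < R.k := by exact_mod_cast hk
  rw [eq_div_iff (by positivity), X]
  interval_cases p <;> norm_num <;> constructor <;> intro h <;> linarith

theorem sound (T : M.TreeLike) (L : M.IsLaw μ) (hrg : ∀ q, R.rg q < R.k) (s : S) :
    H μ (fun t => ¬ Sem R M μ t) s = 0 → ∀ q < R.N, ∀ p < 2, M.v s (R.ty q p) →
      (∀ r < R.k, X R M μ (2 * r) p s ^ 2 ≤ X R M μ (2 * r + 1) p s) ∧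
      ∀ v : ℕ → ℕ, (∀ r, R.k ≤ r → v r = 0) → (∀ r < R.k, X R M μ (2 * r) p s * 2 ^ v r = 1 ∧
        X R M μ (2 * r + 1) p s * 4 ^ v r = 1) → R0 R.z R.kd R.rg R.al q v := by
  have hk : 0 < R.k := by have := hrg 0; omega
  have hk' : (0 : ℝ) < R.k := by exact_mod_cast hk
  have GS : ∀ t, H μ (fun t => ¬ Sem R M μ t) t = 0 → Sem R M μ t := fun t h => by
    by_contra h'
    rw [H_pos L (A := fun t => ¬ Sem R M μ t) h'] at h
    norm_num at h
  have pw : ∀ n : ℕ, (1 : ℝ) * 2 ^ n = 1 → n = 0 := fun n h => by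
    by_contra hn
    have := one_lt_pow₀ (show (1 : ℝ) < 2 by norm_num) hn
    linarith
  refine T.ind (Q := fun s => H μ (fun t => ¬ Sem R M μ t) s = 0 → ∀ q < R.N, ∀ p < 2,
    M.v s (R.ty q p) → (∀ r < R.k, X R M μ (2 * r) p s ^ 2 ≤ X R M μ (2 * r + 1) p s) ∧
      ∀ v : ℕ → ℕ, (∀ r, R.k ≤ r → v r = 0) → (∀ r < R.k, X R M μ (2 * r) p s * 2 ^ v r = 1 ∧
        X R M μ (2 * r + 1) p s * 4 ^ v r = 1) → R0 R.z R.kd R.rg R.al q v)
    (fun s ih hs q hq p hp hv => ?_) s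
  obtain ⟨h1, h2⟩ := (GS s hs p hp).2 q hq hv
  by_cases hz : q = R.z
  · have h3 := fun w hw => (X_one hk hp).1 (h1 hz w hw)
    refine ⟨fun r hr => by rw [h3 _ (by omega), h3 _ (by omega)]; norm_num, fun v a1 a2 => ?_⟩
    obtain rfl : v = fun _ => 0 := funext fun r => by
      by_cases hr : r < R.k
      · have := (a2 r hr).1
        rw [h3 _ (by omega)] at this
        exact pw _ this
      · exact a1 r (by omega)
    rw [hz]; exact .stop
  obtain ⟨b1, b2, b3, b4, b5⟩ := h2 hz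
  obtain ⟨w, w1, w2, w3, w4⟩ := stop T L (U := Suc R M q p) (D := fun t => M.v t (R.sd p))
    (G := fun t => H μ (fun t => ¬ Sem R M μ t) t = 0) (fun s u h hu => (H_zero L h hu).2)
    (fun t h h' => le_antisymm ((H_mono L (fun u ⟨q', c1, _, c2⟩ => ⟨q', c1, _, by omega, c2⟩)
      t).trans_eq ((GS t h p hp).1 h').1) (H_nonneg _ _)) s hs b2
  rw [b1] at w3
  have hU : ¬ Suc R M q p s := fun h => by rw [H_pos L h] at b1; norm_num at b1
  have IH : ∀ u, w u ≠ 0 → ∃ q', R.al q q' ∧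
      (∀ r < R.k, X R M μ (2 * r) (1 - p) u ^ 2 ≤ X R M μ (2 * r + 1) (1 - p) u) ∧
      ∀ v : ℕ → ℕ, (∀ r, R.k ≤ r → v r = 0) → (∀ r < R.k, X R M μ (2 * r) (1 - p) u * 2 ^ v r = 1 ∧
        X R M μ (2 * r + 1) (1 - p) u * 4 ^ v r = 1) → R0 R.z R.kd R.rg R.al q' v := by
    intro u hu
    obtain ⟨⟨q', c1, c2, c3⟩, c4, c5⟩ := w2 u hu
    rcases reflTransGen_iff_eq_or_transGen.1 c5 with rfl | c5
    · exact absurd ⟨q', c1, c2, c3⟩ hU
    · exact ⟨q', c2, ih u c5 c4 q' c1 _ (by omega) c3⟩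
  have key : ∀ j < 2 * R.k, X R M μ j p s = R.KK q j * ∑ u, w u * X R M μ j (1 - p) u := by
    intro j hj
    have c1 := w4 _ (XS_harm L j (1 - p)) fun t h h' => ((GS t h p hp).1 h').2 j hj
    have c2 : XS M μ j p s = R.KK q j * (5 / (64 * R.k) - XS M μ j (1 - p) s) +
        (16 - R.KK q j) * (1 / (64 * R.k)) := sum16 (KK_le q j) fun i hi =>
      ⟨fun h => eq_sub_of_add_eq ((b3 j hj i hi).1 h), (b3 j hj i hi).2⟩
    have c3 : ∑ u, w u * X R M μ j (1 - p) u =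
        (1 - 2 * (1 - p : ℕ)) * (64 * R.k * XS M μ j (1 - p) s - 4) := by
      have : ∀ u, w u * X R M μ j (1 - p) u = (1 - 2 * (1 - p : ℕ)) * (64 * R.k) *
        (w u * XS M μ j (1 - p) u) - (1 - 2 * (1 - p : ℕ)) * 16 * w u := fun u => by rw [X]; ring
      simp only [this, sum_sub_distrib, ← mul_sum, ← c1, w3]
      ring
    rw [c3, X, c2]
    interval_cases p <;> field_simp <;> norm_num <;> ring
  have cv := fun r hr => conv (x := X R M μ (2 * r) (1 - p)) (y := X R M μ (2 * r + 1) (1 - p))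
    one_pos w1 w3 fun u hu => by
      obtain ⟨_, _, h, _⟩ := IH u hu
      rw [one_mul]; exact h r hr
  refine ⟨fun r hr => ?_, fun v a1 a2 => ?_⟩
  · obtain ⟨c1, c2⟩ := KK_sq (R := R) q r
    rw [key _ (by omega), key _ (by omega), mul_pow, c1]
    nlinarith [(cv r hr).1]
  have hc : H77.Trs.cond (R.kd q) (v (R.rg q)) := by
    have c1 := (a2 _ (hrg q)).1
    refine ⟨fun h h0 => b5 h ((X_one hk hp).2 ?_), fun h => pw _ ?_⟩
    · rw [h0] at c1; simpa using c1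
    · rwa [(X_one hk hp).1 (b4 h)] at c1
  obtain ⟨u, -, hu⟩ := exists_ne_zero_of_sum_ne_zero (s := univ) (f := w) (by rw [w3]; norm_num)
  obtain ⟨q', c1, -, c2⟩ := IH u hu
  refine .step hz hc c1 (c2 _ (fun r hr => ?_) fun r hr => ?_)
  · have := hrg q
    rw [update_of_ne (by omega), a1 r hr]
  obtain ⟨d1, d2⟩ := KK_sq (R := R) q r
  obtain ⟨d3, d4⟩ := KK_val (R := R) (r := r) hc
  obtain ⟨d5, d6⟩ := a2 r hr
  rw [key _ (by omega)] at d5 d6
  have d7 : (4 : ℝ) ^ v r = (2 ^ v r) ^ 2 := by rw [← pow_mul, mul_comm, pow_mul]; norm_num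
  obtain ⟨e1, e2⟩ := (cv r hr).2 (by
    have h4 : (0 : ℝ) < 4 ^ v r := by positivity
    refine mul_left_cancel₀ (mul_pos d2 h4).ne' ?_
    have := congrArg (· ^ 2) d5
    simp only [mul_pow, d1, ← d7] at this
    linarith) u hu
  rw [e1, e2]
  constructor
  · linear_combination d5 - (∑ u, w u * X R M μ (2 * r) (1 - p) u) * d3
  · linear_combination d6 - (∑ u, w u * X R M μ (2 * r + 1) (1 - p) u) * d4

theorem sat_phi (T : M.TreeLike) (L : M.IsLaw μ) (hk : 0 < R.k) (s0 x : ℕ) :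
    Sat M μ (R.phi s0 x) s ↔ M.v s (R.ty s0 0) ∧ H μ (fun t => ¬ Sem R M μ t) s = 0 ∧
      ∀ r < R.k, X R M μ (2 * r) 0 s * 2 ^ init x r = 1 ∧ X R M μ (2 * r + 1) 0 s * 4 ^ init x r = 1 := by
  have hk' : (0 : ℝ) < R.k := by exact_mod_cast hk
  have e : ∀ (b w : ℕ), 0 < b → (XS M μ w 0 s = fr (16 * b + 1) (64 * R.k * b) ↔
      X R M μ w 0 s * b = 1) := fun b w hb => by
    have : (0 : ℝ) < b := by exact_mod_cast hb
    rw [fr_eq (by nlinarith), eq_div_iff (by positivity), X]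
    push_cast
    constructor <;> intro h <;> linarith
  simp only [Pr.phi, sat_and, sat_ms, V_fX T L, sat_atom, sat_bA, sat_cnd, sat_pf, sat_neg,
    sat_psi T L hk, fr_zero, sat_full T L hk (show 0 < 2 by omega), X_one hk (show 0 < 2 by omega),
    e _ _ (show 0 < 2 ^ x by positivity), e _ _ (show 0 < 4 ^ x by positivity)]
  push_cast
  constructor
  · rintro ⟨h1, h2, h3, h4, h5⟩
    refine ⟨h3, h5, fun r hr => ?_⟩
    rcases r with _ | r
    · exact ⟨h1, h2⟩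
    · rw [h4 _ (by omega) (by omega), h4 _ (by omega) (by omega)]
      simp [init]
  · rintro ⟨h1, h2, h3⟩
    refine ⟨(h3 0 hk).1, (h3 0 hk).2, h1, fun w hw hw' => ?_, h2⟩
    have := h3 (w / 2) (by omega)
    rw [init, update_of_ne (by omega)] at this
    rcases Nat.even_or_odd' w with ⟨r, rfl | rfl⟩
    · simpa using this.1
    · rw [show (2 * r + 1) / 2 = r by omega] at this
      simpa using this.2

end Pool.Agent.H32.Pctl
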