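import Pool.Agent.H32.PctlC

/-! A halting run gives a tree-like model. -/

namespace Pool.Agent.H32.Pctl

open MeasureTheory Finset Relation Classical Pool.Agent.H38.CM Pool.Agent.H77.Trs Function

section
variable {m : ℕ} {J : Type} [Fintype J] {lp : ℕ → J → ℝ}

noncomputable def cP (lp : ℕ → J → ℝ) : Fin (m + 1) × Option J → Fin (m + 1) × Option J → ℝ
  | (i, none), (i', none) => if i'.val = i.val + 1 then 1 / 4 else 0
  | (i, none), (i', some j) => if i' = i then lp i j else 0
  | (i, some j), u => if u = (i, some j) then 1 else 0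

theorem sum_sp (i : Fin (m + 1)) (f : Fin (m + 1) × Option J → ℝ) :
    ∑ u, cP lp (i, none) u * f u = (if h : i.val + 1 < m + 1 then 1 / 4 * f (⟨i + 1, h⟩, none) else 0)
      + ∑ j, lp i j * f (i, some j) := by
  rw [Fintype.sum_prod_type_right, Fintype.sum_option]
  congr 1
  · split_ifs with h
    · rw [sum_eq_single ⟨i + 1, h⟩ (fun b _ hb => by
        rw [cP, if_neg fun e => hb (Fin.ext e), zero_mul]) (by simp), cP, if_pos rfl]
    · exact sum_eq_zero fun b _ => by rw [cP, if_neg (by omega), zero_mul]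
  · exact sum_congr rfl fun j _ => by simp [cP]

noncomputable def comb (m : ℕ) (lp : ℕ → J → ℝ) (h1 : ∀ i ≤ m, ∀ j, 0 < lp i j)
    (h2 : ∀ i ≤ m, ∑ j, lp i j = if i < m then 3 / 4 else 1)
    (val : Fin (m + 1) × Option J → ℕ → Prop) : MC (Fin (m + 1) × Option J) where
  P := cP lp
  nonneg := by
    rintro ⟨i, _ | j⟩ ⟨i', _ | j'⟩ <;> simp only [cP] <;> split_ifs <;>
      first | exact (h1 i (by omega) _).le | norm_num
  sum_one := by
    rintro ⟨i, _ | j⟩
    · have := sum_sp (lp := lp) i fun _ => 1
      simp only [mul_one] at this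
      rw [this, h2 i (by omega)]
      split_ifs <;> first | omega | norm_num
    · simp [cP]
  v := val

variable {h1 : ∀ i ≤ m, ∀ j, 0 < lp i j} {h2 : ∀ i ≤ m, ∑ j, lp i j = if i < m then 3 / 4 else 1}
  {val : Fin (m + 1) × Option J → ℕ → Prop}

theorem comb_E (s u : Fin (m + 1) × Option J) : (comb m lp h1 h2 val).E s u ↔ s.2 = none ∧
    ((u.2 = none ∧ u.1.val = s.1.val + 1) ∨ (u.2 ≠ none ∧ u.1 = s.1)) := by
  obtain ⟨i, _ | j⟩ := s <;> obtain ⟨i', _ | j'⟩ := u <;> simp only [MC.E, comb, cP]
  · split_ifs with h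
    · simp [h, Fin.ext_iff]
    · simp [h]
  · split_ifs with h
    · simp [h, h1 i (by omega)]
    · simp [h]
  · simp
  · split_ifs with h
    · simp [h]
    · simp

theorem comb_leaf [Nonempty J] (s : Fin (m + 1) × Option J) :
    (comb m lp h1 h2 val).Leaf s ↔ s.2 ≠ none := by
  simp only [MC.Leaf, comb_E]
  exact ⟨fun h e => h (s.1, some (Classical.arbitrary J)) ⟨e, Or.inr ⟨by simp, rfl⟩⟩,
    fun h u e => h e.1⟩

theorem comb_tree [Nonempty J] : (comb m lp h1 h2 val).TreeLike := by
  refine ⟨(0, none), ?_, fun s => by simp [comb_E], ?_, fun s => ?_⟩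
  · have : ∀ n (h : n < m + 1), ReflTransGen (comb m lp h1 h2 val).E (0, none) (⟨n, h⟩, none) := by
      intro n
      induction n with
      | zero => intro _; exact ReflTransGen.refl
      | succ n ih => intro h; exact (ih (by omega)).tail ((comb_E _ _).2 (by simp))
    rintro ⟨i, _ | j⟩
    · exact this i i.2
    · exact (this i i.2).tail ((comb_E _ _).2 (by simp))
  · rintro ⟨i, j⟩ ⟨i', j'⟩ u a b
    rw [comb_E] at a b
    obtain ⟨rfl, a⟩ := a
    obtain ⟨rfl, b⟩ := b
    simp only [Prod.mk.injEq, and_true, Fin.ext_iff] at a b ⊢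
    rcases a with a | a <;> rcases b with b | b <;> first | omega | simp_all
  · refine Iff.trans ?_ (comb_leaf s).symm
    obtain ⟨i, _ | j⟩ := s <;> simp [comb, cP]

end

theorem complete {R : Pr} (hrg : ∀ q, R.rg q < R.k) (hal : ∀ q q', R.al q q' → q' < R.N) {s0 x : ℕ}
    (hs : s0 < R.N) (h : R0 R.z R.kd R.rg R.al s0 (init x)) : HasTreeModel (R.phi s0 x) := by
  obtain ⟨m, q, v, q0, v0, qm, vm, hq⟩ := h.seq
  have hk : 0 < R.k := by have := hrg 0; omega
  have hk' : (0 : ℝ) < R.k := by exact_mod_cast hk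
  have qN : ∀ i ≤ m, q i < R.N := by
    rintro (_ | i) hi
    · rw [q0]; exact hs
    · exact hal _ _ (hq i (by omega)).2.2.1
  let vv : ℕ → ℕ → ℝ := fun i w => 1 / (if w % 2 = 0 then 2 else 4) ^ v i (w / 2)
  have vv1 : ∀ i w, 0 ≤ vv i w ∧ vv i w ≤ 1 := fun i w => by
    simp only [vv]
    split_ifs <;> exact ⟨by positivity, by
      rw [div_le_one (by positivity)]; exact one_le_pow₀ (by norm_num)⟩
  let sg : ℕ → ℝ := fun i => 1 - 2 * (i % 2 : ℕ)
  have sg1 : ∀ i, sg i = 1 ∨ sg i = -1 := fun i => by
    simp only [sg]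
    rcases Nat.mod_two_eq_zero_or_one i with h | h <;> rw [h] <;> norm_num
  have sg2 : ∀ i, sg (i + 1) = - sg i := fun i => by
    simp only [sg]
    rcases Nat.mod_two_eq_zero_or_one i with h | h
    · rw [h, show (i + 1) % 2 = 1 by omega]; norm_num
    · rw [h, show (i + 1) % 2 = 0 by omega]; norm_num
  let A : ℕ → ℕ → ℝ := fun i c => if i < m then
    1 + sg i * (if c % 16 < R.KK (q i) (c / 16) then vv (i + 1) (c / 16) / 4 else 0)
    else if i = m then 1 + sg i / 16 else 0
  have A1 : ∀ i c, (i ≤ m → 3 / 4 ≤ A i c) ∧ 0 ≤ A i c ∧ A i c ≤ 5 / 4 := fun i c => by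
    have := vv1 (i + 1) (c / 16)
    simp only [A]
    rcases sg1 i with h | h <;> rw [h] <;> split_ifs <;>
      refine ⟨fun _ => ?_, ?_, ?_⟩ <;> first | linarith | omega
  have A0 : ∀ i w t, t < 16 → i < m → A i (16 * w + t) =
      1 + sg i * (if t < R.KK (q i) w then vv (i + 1) w / 4 else 0) := fun i w t ht hi => by
    simp only [A]
    rw [if_pos hi, show (16 * w + t) % 16 = t by omega, show (16 * w + t) / 16 = w by omega]
  have A2 : ∀ i ≤ m, ∀ w, ∑ t ∈ range 16, A i (16 * w + t) = 16 + sg i * vv i w := by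
    intro i hi w
    by_cases him : i < m
    · rw [sum16 (KK_le (R := R) (q i) w) (a := 1 + sg i * (vv (i + 1) w / 4)) (b := 1) fun t ht =>
        ⟨fun h => by rw [A0 i w t ht him, if_pos h], fun h => by rw [A0 i w t ht him, if_neg h]; ring⟩]
      have : (R.KK (q i) w : ℝ) * vv (i + 1) w = 4 * vv i w := by
        obtain ⟨c1, c2⟩ := KK_val (R := R) (r := w / 2) (hq i him).2.1
        rw [← (hq i him).2.2.2] at c1 c2
        simp only [vv]
        split_ifs with h
        · rw [show 2 * (w / 2) = w by omega] at c1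
          field_simp; linarith
        · rw [show 2 * (w / 2) + 1 = w by omega] at c2
          field_simp; linarith
      linear_combination sg i / 4 * this
    · obtain rfl : i = m := by omega
      simp [A, vv, vm]; ring
  let lp0 : ℕ → Fin (32 * R.k) → ℝ := fun i c => (A i c - A (i + 2) c / 16) / (64 * R.k)
  let lp : ℕ → Option (Fin (32 * R.k)) → ℝ := fun i j =>
    j.elim ((if i < m then 3 / 4 else 1) - ∑ c, lp0 i c) (lp0 i)
  have h1 : ∀ i ≤ m, ∀ j, 0 < lp i j := by
    rintro i hi (_ | c)
    · have : ∑ c, lp0 i c ≤ 5 / 8 := by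
        refine (sum_le_card_nsmul _ _ (5 / 4 / (64 * R.k : ℝ)) fun c _ => ?_).trans_eq ?_
        · have := A1 i c
          have := A1 (i + 2) c
          exact div_le_div_of_nonneg_right (by linarith) (by positivity)
        · simp; field_simp; norm_num
      simp only [lp, Option.elim]
      split_ifs <;> linarith
    · have := (A1 i c).1 hi
      have := A1 (i + 2) c
      exact div_pos (by linarith) (by positivity)
  have h2 : ∀ i ≤ m, ∑ j, lp i j = if i < m then 3 / 4 else 1 := fun i _ => by
    rw [Fintype.sum_option]; simp [lp]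
  let val : Fin (m + 1) × Option (Option (Fin (32 * R.k))) → ℕ → Prop := fun s a =>
    s.2.elim (a = R.ty (q s.1) (s.1 % 2)) fun j =>
      a = R.sd (s.1 % 2) ∨ ∃ c : Fin (32 * R.k), j = some c ∧ a = 2 * c + s.1 % 2
  letI : MeasurableSpace (Fin (m + 1) × Option (Option (Fin (32 * R.k)))) := ⊤
  haveI : DiscreteMeasurableSpace (Fin (m + 1) × Option (Option (Fin (32 * R.k)))) :=
    ⟨fun _ => trivial⟩
  set M := comb m lp h1 h2 val with hM
  obtain ⟨μ, L⟩ := exists_law M
  have T : M.TreeLike := comb_tree
  have lf : ∀ i j, M.Leaf (i, some j) := fun i j => (comb_leaf _).2 (by simp)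
  have v1 : ∀ i a, M.v (i, none) a ↔ a = R.ty (q i) (i % 2) := fun _ _ => Iff.rfl
  have v2 : ∀ i j a, M.v (i, some j) a ↔
      a = R.sd (i % 2) ∨ ∃ c : Fin (32 * R.k), j = some c ∧ a = 2 * c + i % 2 := fun _ _ _ => Iff.rfl
  have lb : ∀ i j (c : Fin (32 * R.k)) p, p < 2 →
      (Lb M (2 * c + p) (i, some j) ↔ j = some c ∧ p = i % 2) := by
    intro i j c p hp
    have := c.2
    simp only [Lb, v2, Pr.sd]
    constructor
    · rintro ⟨h | ⟨c', rfl, h⟩, -⟩
      · omega
      · exact ⟨congrArg _ (Fin.ext (by omega)), by omega⟩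
    · rintro ⟨rfl, rfl⟩
      refine ⟨Or.inr ⟨c, rfl, rfl⟩, fun b hb => ?_⟩
      rintro (h | ⟨c', h, h'⟩)
      · omega
      · cases h; omega
  have vs : ∀ (c : Fin (32 * R.k)) p, p < 2 → ∀ s, V μ (Lb M (2 * c + p)) s =
      s.2.elim (if p = s.1 % 2 then A s.1 c / (64 * R.k) else A (s.1 + 1) c / 4 / (64 * R.k))
        fun j => if j = some c ∧ p = s.1 % 2 then 1 else 0 := by
    intro c p hp
    refine T.uniq (V_harm L _) ?_ ?_
    · rintro ⟨i, _ | j⟩
      · refine Eq.trans ?_ (sum_sp i _).symm
        simp only [Option.elim]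
        rw [Fintype.sum_option]
        have a3 : ∀ t, m < t → A t c = 0 := fun t ht => by
          simp only [A]; rw [if_neg (by omega), if_neg (by omega)]
        by_cases hp' : p = i % 2
        · simp only [hp', and_true, if_true, reduceCtorEq, if_false, Option.some.injEq, mul_ite,
            mul_one, mul_zero, sum_ite_eq', mem_univ, zero_add, lp, lp0, Option.elim]
          split_ifs with h h'
          · omega
          · ring
          · rw [a3 (i + 2) (by omega)]; ring
        · simp only [hp', and_false, if_false, mul_zero, sum_const_zero, add_zero]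
          split_ifs with h h'
          · ring
          · omega
          · rw [a3 (i + 1) (by omega)]; ring
      · rw [(lf i j).sum]
    · rintro ⟨i, _ | j⟩ hl
      · exact absurd rfl ((comb_leaf _).1 hl)
      · rw [V_leaf L _ hl]
        simp only [lb i j c p hp, Option.elim]
  have xs : ∀ w < 2 * R.k, ∀ i : Fin (m + 1), XS M μ w (i % 2) (i, none) =
      (16 + sg i * vv i w) / (64 * R.k) ∧ (i < m → XS M μ w (1 - i % 2) (i, none) =
        (16 + sg (i + 1) * vv (i + 1) w) / 4 / (64 * R.k)) := by
    intro w hw i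
    constructor
    · rw [← A2 i (by omega), sum_div]
      refine sum_congr rfl fun t ht => ?_
      have := mem_range.1 ht
      exact (vs ⟨16 * w + t, by omega⟩ _ (by omega) _).trans (if_pos rfl)
    · intro hi
      rw [← A2 (i + 1) (by omega), sum_div, sum_div]
      refine sum_congr rfl fun t ht => ?_
      have := mem_range.1 ht
      exact (vs ⟨16 * w + t, by omega⟩ _ (by omega) _).trans (if_neg (by simp only; omega))
  have xx : ∀ w < 2 * R.k, ∀ i : Fin (m + 1), X R M μ w (i % 2) (i, none) = vv i w := by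
    intro w hw i
    rw [X, (xs w hw i).1]
    show sg i * _ = _
    rcases sg1 i with h | h <;> rw [h] <;> field_simp <;> ring
  have sem : ∀ s, Sem R M μ s := by
    rintro ⟨i, _ | j⟩ p hp
    · refine ⟨fun h => ?_, fun q' hq' h => ?_⟩
      · simp only [v1, Pr.sd, Pr.ty] at h; omega
      simp only [v1, Pr.ty] at h
      obtain rfl : p = i % 2 := by omega
      obtain rfl : q' = q i := by omega
      simp only [X_one hk hp]
      refine ⟨fun hz w hw => ?_, fun hz => ?_⟩
      · have : i.val = m := by
          by_contra h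
          exact (hq i (by omega)).1 hz
        rw [xx w hw, this]
        simp [vv, vm]
      have him : i.val < m := by
        by_contra h
        exact hz (by rw [show i.val = m by omega, qm])
      obtain ⟨-, c1, c2, -⟩ := hq i him
      have n1 : ¬ Suc R M (q i) (i % 2) (i, none) := by
        rintro ⟨q', -, -, h⟩
        simp only [v1, Pr.ty] at h; omega
      have n2 : Suc R M (q i) (i % 2) (⟨i + 1, by omega⟩, none) :=
        ⟨q (i + 1), qN _ him, c2, (v1 _ _).2 (by simp only [Pr.ty]; omega)⟩
      have r2 : 2 * R.rg (q i) < 2 * R.k := by have := hrg (q i); omega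
      refine ⟨?_, ?_, fun w hw t ht => ?_, fun h => ?_, fun h => ?_⟩
      · rw [H_neg L n1]
        refine (sum_sp i _).trans ?_
        rw [dif_pos (by omega), H_pos L n2, sum_eq_zero, add_zero, mul_one]
        intro j _
        rw [H_leaf L (lf i j), mul_zero]
        rintro ⟨q', -, -, h | ⟨c, -, h⟩⟩
        · simp only [Pr.ty, Pr.sd] at h; omega
        · have := c.2
          simp only [Pr.ty] at h; omega
      · rw [H_neg L (by
          rintro (h | h)
          · exact n1 h
          · simp only [v1, Pr.ty, Pr.sd] at h; omega)]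
        refine (sum_sp i _).trans ?_
        rw [dif_pos (by omega), H_pos L (Or.inl n2), sum_congr rfl (g := fun j => lp i j)
          fun j _ => by rw [H_pos L (Or.inr ((v2 _ _ _).2 (Or.inl rfl))), mul_one],
          h2 i (by omega), if_pos him]
        norm_num
      · have e := (vs ⟨16 * w + t, by omega⟩ _ hp (i, none)).trans (if_pos rfl)
        simp only at e
        rw [e, (xs w hw i).2 him, A0 i w t ht him, sg2]
        refine ⟨fun h => ?_, fun h => ?_⟩
        · rw [if_pos h]; ring
        · rw [if_neg h]; ring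
      · rw [xx _ r2]
        simp [vv, c1.2 h]
      · rw [xx _ r2]
        have := one_lt_pow₀ (show (1 : ℝ) < 2 by norm_num) (c1.1 h)
        simp only [vv, Nat.mul_mod_right, if_true, Nat.mul_div_cancel_left _ (show 0 < 2 by omega)]
        rw [div_eq_one_iff_eq (by positivity)]
        exact this.ne
    · refine ⟨fun h => ⟨H_leaf L (lf i j) ?_, fun w hw => sum_eq_zero fun t ht => ?_⟩,
        fun q' _ h => ?_⟩
      · rintro ⟨q', -, p', -, h | ⟨c, -, h⟩⟩
        · simp only [Pr.ty, Pr.sd] at h; omega
        · have := c.2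
          simp only [Pr.ty] at h; omega
      · have := mem_range.1 ht
        refine (vs ⟨16 * w + t, by omega⟩ _ (by omega) _).trans (if_neg ?_)
        rintro ⟨-, h'⟩
        rcases h with h | ⟨c, -, h⟩
        · simp only [Pr.sd] at h h'; omega
        · have := c.2
          simp only [Pr.sd] at h; omega
      · rcases h with h | ⟨c, -, h⟩
        · simp only [Pr.ty, Pr.sd] at h; omega
        · have := c.2
          simp only [Pr.ty] at h; omega
  refine ⟨_, inferInstance, inferInstance, inferInstance, M, μ, T, L, (0, none),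
    (sat_phi T L hk s0 x).2 ⟨(v1 _ _).2 (by simp [q0]), by simp [H, sem], fun r hr => ?_⟩⟩
  have a1 := xx (2 * r) (by omega) 0
  have a2 := xx (2 * r + 1) (by omega) 0
  simp only [Fin.val_zero, Nat.zero_mod] at a1 a2
  rw [a1, a2]
  simp only [vv, v0]
  rw [if_pos (by omega), if_neg (by omega), show 2 * r / 2 = r by omega,
    show (2 * r + 1) / 2 = r by omega]
  constructor <;> field_simp

end Pool.Agent.H32.Pctl
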