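import Mathlib

/-! Markov chains, the F,G-fragment of PCTL and tree-like models. -/

namespace Pool.Agent.H32.Pctl

open MeasureTheory

/-- the five comparisons -/
inductive Cmp : Type
  | lt : Cmp
  | le : Cmp
  | eq : Cmp
  | ge : Cmp
  | gt : Cmp

def Cmp.holds : Cmp → ℝ → ℝ → Prop
  | .lt, x, r => x < r
  | .le, x, r => x ≤ r
  | .eq, x, r => x = r
  | .ge, x, r => x ≥ r
  | .gt, x, r => x > r

def Cmp.code : Cmp → ℕ
  | .lt => 0
  | .le => 1
  | .eq => 2
  | .ge => 3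
  | .gt => 4

/-- state formulae; the pair `p, d` stands for the rational constant `p / (p + d)` in `[0, 1]` -/
inductive Fm : Type
  | atom (a : ℕ) : Fm
  | neg (φ : Fm) : Fm
  | and (φ ψ : Fm) : Fm
  | or (φ ψ : Fm) : Fm
  | PF (φ : Fm) (c : Cmp) (p d : ℕ) : Fm
  | PG (φ : Fm) (c : Cmp) (p d : ℕ) : Fm

/-- the Gödel number of a formula -/
def Fm.code : Fm → ℕ
  | .atom a => Nat.pair 0 a
  | .neg φ => Nat.pair 1 φ.code
  | .and φ ψ => Nat.pair 2 (Nat.pair φ.code ψ.code)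
  | .or φ ψ => Nat.pair 3 (Nat.pair φ.code ψ.code)
  | .PF φ c p d => Nat.pair 4 (Nat.pair φ.code (Nat.pair c.code (Nat.pair p d)))
  | .PG φ c p d => Nat.pair 5 (Nat.pair φ.code (Nat.pair c.code (Nat.pair p d)))

/-- a finite Markov chain with a valuation of the atomic propositions -/
structure MC (S : Type) [Fintype S] where
  P : S → S → ℝ
  nonneg : ∀ s u, 0 ≤ P s u
  sum_one : ∀ s, ∑ u, P s u = 1
  v : S → ℕ → Prop

variable {S : Type} [Fintype S]

/-- edges other than self-loops -/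
def MC.E (M : MC S) (s u : S) : Prop := s ≠ u ∧ 0 < M.P s u

/-- the graph is a rooted tree directed away from the root, with self-loops exactly at leaves -/
def MC.TreeLike (M : MC S) : Prop :=
  ∃ root, (∀ u, Relation.ReflTransGen M.E root u) ∧ (∀ s, ¬ M.E s root) ∧
    (∀ s s' u, M.E s u → M.E s' u → s = s') ∧ ∀ s, 0 < M.P s s ↔ ∀ u, ¬ M.E s u

variable [MeasurableSpace S]

/-- `μ s` is the probability measure on runs from `s`, fixed by its values on cylinders -/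
def MC.IsLaw (M : MC S) (μ : S → Measure (ℕ → S)) : Prop :=
  ∀ s, IsProbabilityMeasure (μ s) ∧ μ s {ρ | ρ 0 = s} = 1 ∧ ∀ (w : ℕ → S) (n : ℕ),
    μ s {ρ | ∀ i ≤ n + 1, ρ i = w i} =
      μ s {ρ | ∀ i ≤ n, ρ i = w i} * ENNReal.ofReal (M.P (w n) (w (n + 1)))

def Sat (M : MC S) (μ : S → Measure (ℕ → S)) : Fm → S → Prop
  | .atom a, s => M.v s a
  | .neg φ, s => ¬ Sat M μ φ s
  | .and φ ψ, s => Sat M μ φ s ∧ Sat M μ ψ s
  | .or φ ψ, s => Sat M μ φ s ∨ Sat M μ ψ s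
  | .PF φ c p d, s => c.holds (μ s {ρ | ∃ i, Sat M μ φ (ρ i)}).toReal (p / (p + d))
  | .PG φ c p d, s => c.holds (μ s {ρ | ∀ i, Sat M μ φ (ρ i)}).toReal (p / (p + d))

/-- `φ` holds at some state of some tree-like Markov chain -/
def HasTreeModel (φ : Fm) : Prop :=
  ∃ (S : Type) (_ : Fintype S) (_ : MeasurableSpace S) (_ : DiscreteMeasurableSpace S)
    (M : MC S) (μ : S → Measure (ℕ → S)), M.TreeLike ∧ M.IsLaw μ ∧ ∃ s, Sat M μ φ s

end Pool.Agent.H32.Pctl
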