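import Mathlib

set_option autoImplicit false

namespace Pool.Agent.H32.PellPat

open Polynomial

def pell : ℕ → ℕ × ℕ
  | 0 => (3, 2)
  | n + 1 => (3 * (pell n).1 + 4 * (pell n).2, 2 * (pell n).1 + 3 * (pell n).2)

theorem pell_spec (n : ℕ) :
    0 < (pell n).1 ∧ 0 < (pell n).2 ∧ (pell n).1 ^ 2 = 2 * (pell n).2 ^ 2 + 1 := by
  induction n with
  | zero => decide
  | succ n ih =>
    obtain ⟨h1, h2, h3⟩ := ih
    simp only [pell]
    refine ⟨by omega, by omega, by nlinarith⟩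

theorem pell_mono : StrictMono (fun n => (pell n).1) := by
  apply strictMono_nat_of_lt_succ
  intro n
  have := pell_spec n
  simp only [pell]
  omega

theorem nat_side (r : ℕ) (c : ℕ → Fin r) : ∃ x y : ℕ, 0 < x ∧ 0 < y ∧
    x ^ 2 ≠ 2 * y ^ 2 + 1 ∧ c (x ^ 2) = c (2 * y ^ 2 + 1) := by
  obtain ⟨k, l, hkl, h⟩ := Finite.exists_ne_map_eq_of_infinite (fun n => c ((pell n).1 ^ 2))
  refine ⟨(pell k).1, (pell l).2, (pell_spec k).1, (pell_spec l).2.1, ?_, ?_⟩
  · rw [← (pell_spec l).2.2]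
    intro h2
    exact hkl (pell_mono.injective (Nat.pow_left_injective two_ne_zero h2))
  · rw [← (pell_spec l).2.2]
    exact h

noncomputable def col (p : ℕ[X]) : Fin 2 :=
  ⟨padicValNat 2 p.leadingCoeff % 2, Nat.mod_lt _ two_pos⟩

theorem poly_side (a x y : ℕ[X]) (ha : a ≠ 0) (hx : x ≠ 0) (hy : y ≠ 0) (hy0 : y.coeff 0 = 0) :
    col (a * x ^ 2) ≠ col (2 * a * y ^ 2 + a) := by
  have hyd : 0 < y.natDegree := by
    by_contra h
    have h0 : y.natDegree = 0 := by omega
    apply hy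
    rw [eq_C_of_natDegree_eq_zero h0, hy0, map_zero]
  have h2 : (2 : ℕ[X]) = C 2 := rfl
  have hd : a.natDegree < (2 * a * y ^ 2).natDegree := by
    rw [natDegree_mul (mul_ne_zero (by rw [h2]; simp) ha) (pow_ne_zero _ hy),
      natDegree_mul (by rw [h2]; simp) ha, natDegree_pow]
    omega
  have l1 : (a * x ^ 2).leadingCoeff = a.leadingCoeff * x.leadingCoeff ^ 2 := by simp
  have l2 : (2 * a * y ^ 2 + a).leadingCoeff = 2 * a.leadingCoeff * y.leadingCoeff ^ 2 := by
    rw [leadingCoeff_add_of_degree_lt' (degree_lt_degree hd), leadingCoeff_mul, leadingCoeff_mul,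
      leadingCoeff_pow, h2, leadingCoeff_C]
  have ha' := leadingCoeff_ne_zero.2 ha
  have hx' := leadingCoeff_ne_zero.2 hx
  have hy' := leadingCoeff_ne_zero.2 hy
  intro h
  simp only [col, Fin.mk.injEq, l1, l2] at h
  rw [padicValNat.mul ha' (pow_ne_zero _ hx'), padicValNat.mul (mul_ne_zero two_ne_zero ha')
    (pow_ne_zero _ hy'), padicValNat.mul two_ne_zero ha', padicValNat.pow, padicValNat.pow,
    padicValNat_self] at h
  omega

end Pool.Agent.H32.PellPat
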