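import Pool.Agent.H32.PtaA

set_option autoImplicit false

namespace Pool.Agent.H32.Pta

open Pointwise Function

inductive Sy : Type
  | s | a | b | l

instance : Finite Sy := Finite.of_surjective (α := Fin 4) ![.s, .a, .b, .l] fun x => by
  cases x
  exacts [⟨0, rfl⟩, ⟨1, rfl⟩, ⟨2, rfl⟩, ⟨3, rfl⟩]

def rk : Sy → ℕ
  | .s => 2
  | .a => 1
  | .b => 1
  | .l => 0

def lf : Tr rk := .node .l Fin.elim0
def ap : ℕ → Tr rk → Tr rk
  | 0, t => t
  | n + 1, t => .node .a fun _ => ap n t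
def bp : ℕ → Tr rk
  | 0 => lf
  | n + 1 => .node .b fun _ => bp n
def T (x y : ℕ → ℕ) : ℕ → Tr rk
  | 0 => lf
  | k + 1 => ap (x k) (.node .s ![bp (y k), T x y k])

theorem T_congr (x : ℕ → ℕ) {y y' : ℕ → ℕ} (k : ℕ) (h : ∀ i < k, y i = y' i) :
    T x y k = T x y' k := by
  induction k with
  | zero => rfl
  | succ k ih => rw [T, T, h k (by omega), ih fun i hi => h i (by omega)]

def A0 : PTAR rk where
  m := 2
  m_pos := by omega
  Q := Bool
  finQ := inferInstance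
  q0 := false
  Δ := fun σ => match σ with
    | .s => {(false, ![(true, some 0), (false, none)])}
    | .a => {(false, fun _ => (false, some ![1, 0]))}
    | .b => {(true, fun _ => (true, some ![0, 1]))}
    | .l => Set.univ
  finΔ := fun σ => by
    cases σ
    · exact Set.finite_singleton _
    · exact Set.finite_singleton _
    · exact Set.finite_singleton _
    · haveI : IsEmpty (Fin (rk .l)) := Fin.isEmpty
      exact Set.finite_univ
  C := {v | v 0 = v 1}
  semi := by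
    simpa using isSemilinearSet_setOfPred_eq (M := Fin 2 → ℕ) 0 0
      (Pi.evalAddMonoidHom (fun _ => ℕ) 0) (Pi.evalAddMonoidHom (fun _ => ℕ) 1)

theorem A0_l (q : Bool) (v : Fin 2 → ℕ) : A0.Acc lf q v ↔ v 0 = v 1 :=
  ⟨fun h => h.1 rfl, fun h => ⟨fun _ => h, Fin.elim0, trivial, fun i => i.elim0⟩⟩

theorem A0_b (n : ℕ) (v : Fin 2 → ℕ) : A0.Acc (bp n) true v ↔ v 0 = v 1 + n := by
  induction n generalizing v with
  | zero => exact A0_l _ _
  | succ n ih =>
    refine Iff.trans ⟨?_, fun h => ⟨by simp [rk], _, rfl, fun _ => h⟩⟩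
      ((ih (v + ![0, 1])).trans (show v 0 + 0 = v 1 + 1 + n ↔ _ by omega))
    rintro ⟨-, τ, h1, h2⟩
    obtain rfl := (Prod.mk.inj h1).2
    exact h2 (0 : Fin 1)

theorem A0_a (n : ℕ) (t : Tr rk) (v : Fin 2 → ℕ) :
    A0.Acc (ap n t) false v ↔ A0.Acc t false (v + ![n, 0]) := by
  induction n generalizing v with
  | zero => rw [show v + ![0, 0] = v by ext i; fin_cases i <;> simp]; rfl
  | succ n ih =>
    rw [show v + ![n + 1, 0] = v + ![1, 0] + ![n, 0] by rw [add_assoc]; congr 1; ext i; fin_cases i <;> simp [add_comm], ← ih]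
    refine ⟨?_, fun h => ⟨by simp [rk], _, rfl, fun _ => h⟩⟩
    rintro ⟨-, τ, h1, h2⟩
    obtain rfl := (Prod.mk.inj h1).2
    exact h2 (0 : Fin 1)

theorem A0_T (x y : ℕ → ℕ) (k : ℕ) : T x y k ∈ A0.lang ↔ ∀ i < k, y i = x i := by
  induction k with
  | zero => exact iff_of_true ((A0_l _ _).2 rfl) (by simp)
  | succ k ih =>
    rw [Nat.forall_lt_succ_right, ← ih]
    refine (A0_a _ _ _).trans ⟨?_, fun h => ⟨by simp [rk], _, rfl,
      (Fin.forall_fin_two (p := fun i => A0.Acc (![bp (y k), T x y k] i) _ _)).2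
        ⟨(A0_b _ _).2 (show 0 + x k + 0 = 0 + 0 + 0 + y k by omega), h.1⟩⟩⟩
    rintro ⟨-, τ, h1, h2⟩
    obtain rfl := (Prod.mk.inj h1).2
    have : 0 + x k + 0 = 0 + 0 + 0 + y k := (A0_b _ _).1 (h2 (0 : Fin 2))
    exact ⟨h2 (1 : Fin 2), by omega⟩

variable (A : PTAR rk) (hA : A.IsPTA)
include hA

theorem semiB (p : A.Q) : IsSemilinearSet {x : (Fin A.m → ℕ) × ℕ | A.Acc (bp x.2) p x.1} := by
  haveI := A.finQ
  let E : A.Q → A.Q → Set ((Fin A.m → ℕ) × ℕ) := fun p q =>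
    {w | w.2 = 1 ∧ (p, fun _ => (q, some w.1)) ∈ A.Δ .b}
  have hE : ∀ p q, IsSemilinearSet (E p q) := fun p q => .of_finite
    (((A.finΔ .b).image fun x => (((x.2 (0 : Fin 1)).2.getD 0, 1) : (Fin A.m → ℕ) × ℕ)).subset
      fun w hw => ⟨_, hw.2, Prod.ext rfl hw.1.symm⟩)
  let W : A.Q → A.Q → Set ((Fin A.m → ℕ) × ℕ) := fun p q =>
    {w | (p = q ∧ w = 0) ∨ P E Set.univ p q w}
  have hW : ∀ q, IsSemilinearSet (W p q) := fun q =>
    (IsSemilinearSet.of_finite ((Set.finite_singleton 0).subset fun w hw => hw.2)).union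
      (P.semi hE Set.finite_univ p q)
  let V := ((Fin A.m → ℕ) × ℕ) × (Fin A.m → ℕ)
  let f : V →+ (Fin A.m → ℕ) × ℕ := AddMonoidHom.fst _ _
  let g : V →+ (Fin A.m → ℕ) := AddMonoidHom.snd _ _
  have := IsSemilinearSet.biUnion (s := {q | ∃ τ, (q, τ) ∈ A.Δ .l}) (Set.toFinite _) fun q _ =>
    (((hW q).preimage (g.prod ((AddMonoidHom.snd _ _).comp f))).inter
      (A.semi.preimage ((AddMonoidHom.fst _ _).comp f + g))).image f
  refine cast (congrArg IsSemilinearSet (Set.ext fun x => ?_)) this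
  obtain ⟨t, n⟩ := x
  have e : ∀ n t p q (e : Fin A.m → ℕ), (p, fun _ => (q, some e)) ∈ A.Δ .b →
      A.Acc (bp n) q (t + e) → A.Acc (bp (1 + n)) p t := fun n t p q e h1 h2 => by
    rw [add_comm]; exact ⟨by simp [rk], _, h1, fun _ => h2⟩
  simp only [Set.mem_iUnion, Set.mem_image, Set.mem_inter_iff, Set.mem_preimage, Set.mem_ofPred_eq]
  constructor
  · rintro ⟨q, ⟨τ, h1⟩, ⟨_, w⟩, ⟨h2, h3⟩, rfl⟩
    have h4 : A.Acc (bp 0) q (t + w) := ⟨fun _ => h3, τ, h1, fun i => i.elim0⟩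
    rcases h2 with ⟨rfl, h2⟩ | h2
    · obtain ⟨rfl, rfl⟩ : w = 0 ∧ n = 0 := Prod.mk.inj h2
      simpa using h4
    · have : ∀ p q w, P E Set.univ p q w → ∀ k t, A.Acc (bp k) q (t + w.1) →
          A.Acc (bp (w.2 + k)) p t := by
        intro p q w h
        induction h with
        | one a => exact fun k t h => a.1 ▸ e _ _ _ _ _ a.2 h
        | cons a _ _ ih =>
          intro k t h
          rw [Prod.snd_add, a.1, add_assoc]
          exact e _ _ _ _ _ a.2 (ih k _ (by simpa [add_assoc] using h))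
      exact this _ _ _ h2 0 t h4
  · intro h
    suffices ∃ q w, (∃ τ, (q, τ) ∈ A.Δ .l) ∧ (w, n) ∈ W p q ∧ t + w ∈ A.C by
      obtain ⟨q, w, h1, h2, h3⟩ := this
      exact ⟨q, h1, ((t, n), w), ⟨h2, h3⟩, rfl⟩
    clear this hW
    induction n generalizing p t with
    | zero => exact ⟨p, 0, ⟨_, h.2.choose_spec.1⟩, .inl ⟨rfl, rfl⟩, by simpa using h.1 rfl⟩
    | succ n ih =>
      obtain ⟨-, τ, h1, h2⟩ := h
      obtain ⟨e, he⟩ := Option.ne_none_iff_exists'.1 (hA _ _ h1 (0 : Fin 1))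
      have h3 := h2 (0 : Fin 1)
      simp only at he
      rw [he] at h3
      obtain ⟨q, w, h4, h5, h6⟩ := ih _ _ h3
      have h7 : (e, 1) ∈ E p (τ (0 : Fin 1)).1 := ⟨rfl, by
        have : τ = fun _ => ((τ (0 : Fin 1)).1, some e) := funext fun i => by
          rw [← he, Subsingleton.elim (α := Fin 1) i 0]
        rwa [← this]⟩
      refine ⟨q, e + w, h4, .inr ?_, by simpa [upd, add_assoc] using h6⟩
      rcases h5 with ⟨rfl, h5⟩ | h5
      · obtain ⟨rfl, rfl⟩ : w = 0 ∧ n = 0 := Prod.mk.inj h5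
        simpa using P.one h7
      · simpa [add_comm n 1] using P.cons h7 (Set.mem_univ _) h5

theorem bound : ∃ K, ∀ σ q τ, (q, τ) ∈ A.Δ σ → ∀ i s j,
    s j ≤ upd s (τ i).2 j ∧ upd s (τ i).2 j ≤ s j + K := by
  have : (⋃ σ, ⋃ i, ⋃ j, (fun x : A.Q × (Fin (rk σ) → A.Q × Option (Fin A.m → ℕ)) =>
      (x.2 i).2.getD 0 j) '' A.Δ σ).Finite :=
    Set.finite_iUnion fun σ => Set.finite_iUnion fun i => Set.finite_iUnion fun j =>
      (A.finΔ σ).image _
  obtain ⟨K, hK⟩ := this.bddAbove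
  refine ⟨K, fun σ q τ h i s j => ?_⟩
  have := hK (Set.mem_iUnion.2 ⟨σ, Set.mem_iUnion.2 ⟨i, Set.mem_iUnion.2 ⟨j, _, h, rfl⟩⟩⟩)
  obtain ⟨e, he⟩ := Option.ne_none_iff_exists'.1 (hA _ _ h i)
  simp only at he this
  rw [he] at this ⊢
  simpa [upd] using this

theorem notPTA : A.lang ≠ A0.lang := by
  intro hL
  haveI := A.finQ
  obtain ⟨K, hK⟩ := bound A hA
  choose L X h1 h2 h3 using fun p => lip (semiB A hA p)
  obtain ⟨L0, hL0⟩ := (Set.finite_range L).bddAbove
  let S : ℕ → ℕ := fun k => Nat.rec 0 (fun _ s => s + (L0 * (K * (s + 1)) + s + 1) + 1) k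
  let x : ℕ → ℕ := fun k => L0 * (K * (S k + 1)) + S k + 1
  have hS : ∀ k, S (k + 1) = S k + x k + 1 := fun _ => rfl
  have ha : ∀ n t q s, A.Acc (ap n t) q s → ∃ q' s', (∀ j, s j ≤ s' j ∧ s' j ≤ s j + K * n) ∧
      A.Acc t q' s' ∧ ∀ t', A.Acc t' q' s' → A.Acc (ap n t') q s := by
    intro n t
    induction n with
    | zero => exact fun q s h => ⟨q, s, by simp, h, fun _ h => h⟩
    | succ n ih =>
      rintro q s ⟨-, τ, a1, a2⟩
      obtain ⟨q', s', b1, b2, b3⟩ := ih _ _ (a2 (0 : Fin 1))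
      refine ⟨q', s', fun j => ?_, b2, fun t' h => ⟨by simp [rk], τ, a1, fun i => ?_⟩⟩
      · have := hK _ _ _ a1 (0 : Fin 1) s j
        have := b1 j
        rw [mul_add]
        omega
      · rw [Subsingleton.elim (α := Fin 1) i 0]
        exact b3 t' h
  have key : ∀ k q s, A.Acc (T x x k) q s → (∀ y, A.Acc (T x y k) q s → ∀ i < k, y i = x i) →
      ∃ (p : ℕ → A.Q) (t : ℕ → Fin A.m → ℕ), ∀ i < k, (∃ U ∈ X (p i), (t i, x i) ∈ U) ∧
        (∀ j, s j ≤ t i j ∧ t i j ≤ s j + K * S k) ∧ ∀ j < i, Cl (t i) (t j) (K * (S i + 1)) := by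
    intro k
    induction k with
    | zero => exact fun q s _ _ => ⟨fun _ => q, fun _ => s, by simp⟩
    | succ k ih =>
      intro q s a1 a2
      obtain ⟨q', s', b1, ⟨-, τ, b2, b3⟩, b4⟩ := ha _ _ _ _ a1
      have c : ∀ y, A.Acc (bp (y k)) (τ (0 : Fin 2)).1 (upd s' (τ (0 : Fin 2)).2) →
          A.Acc (T x y k) (τ (1 : Fin 2)).1 (upd s' (τ (1 : Fin 2)).2) → ∀ i < k + 1, y i = x i :=
        fun y c1 c2 => a2 y (b4 _ ⟨by simp [rk], τ, b2,
          (Fin.forall_fin_two (p := fun i => A.Acc (![bp (y k), T x y k] i) _ _)).2 ⟨c1, c2⟩⟩)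
      obtain ⟨p, t, d⟩ := ih _ _ (b3 (1 : Fin 2)) fun y hy i hi => by
        have := c (update y k (x k)) (by rw [update_self]; exact b3 (0 : Fin 2))
          (by rwa [T_congr x k fun i hi => update_of_ne hi.ne _ _]) i (by omega)
        rwa [update_of_ne hi.ne] at this
      have k0 := hK _ _ _ b2 (0 : Fin 2) s'
      have k1 := hK _ _ _ b2 (1 : Fin 2) s'
      refine ⟨update p k (τ (0 : Fin 2)).1, update t k (upd s' (τ (0 : Fin 2)).2), fun i hi => ?_⟩
      rcases Nat.lt_succ_iff_lt_or_eq.1 hi with hi | rfl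
      · simp only [update_of_ne hi.ne]
        refine ⟨(d i hi).1, fun j => ?_, fun j hj => ?_⟩
        · have := (d i hi).2.1 j
          have := k1 j
          have := b1 j
          rw [hS, mul_add, mul_add]
          omega
        · rw [update_of_ne (by omega)]
          exact (d i hi).2.2 j hj
      · simp only [update_self]
        refine ⟨h2 _ _ _ (b3 (0 : Fin 2)) fun n' hn => ?_, fun j => ?_, fun j hj r => ?_⟩
        · simpa using c (update x i n') (by rw [update_self]; exact hn)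
            (by rw [T_congr x i fun i hi => update_of_ne hi.ne _ _]; exact b3 (1 : Fin 2)) i hi
        · have := k0 j
          have := b1 j
          rw [hS, mul_add, mul_add]
          omega
        · rw [update_of_ne hj.ne]
          have := (d j hj).2.1 r
          have := k0 r
          have := k1 r
          rw [mul_add]
          omega
  haveI := fun p => (h1 p).to_subtype
  haveI := Fintype.ofFinite (Σ p, X p)
  obtain ⟨p, t, d⟩ := key (Fintype.card (Σ p, X p) + 1) A.q0 0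
    (show T x x (Fintype.card (Σ p, X p) + 1) ∈ A.lang from hL ▸ (A0_T x x _).2 fun _ _ => rfl)
    fun y hy => (A0_T x y _).1 (hL ▸ hy)
  choose U u1 u2 using fun i : Fin (Fintype.card (Σ p, X p) + 1) => (d i i.2).1
  obtain ⟨i, j, hij, e⟩ : ∃ i j : Fin (Fintype.card (Σ p, X p) + 1), j < i ∧
      (⟨p i, U i, u1 i⟩ : Σ p, X p) = ⟨p j, U j, u1 j⟩ := by
    obtain ⟨i, j, h, e⟩ := Fintype.exists_ne_map_eq_of_card_lt
      (fun i : Fin (Fintype.card (Σ p, X p) + 1) => (⟨p i, U i, u1 i⟩ : Σ p, X p)) (by simp)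
    rcases lt_or_gt_of_ne h with h | h
    · exact ⟨j, i, h, e.symm⟩
    · exact ⟨i, j, h, e⟩
  have e' : U i = U j := congrArg (fun z : Σ p, X p => z.2.1) e
  have := h3 _ _ (u1 i) _ (u2 i) _ (e' ▸ u2 j) _ ((d i i.2).2.2 j hij)
  have m1 : S (j + 1) ≤ S i := monotone_nat_of_le_succ (f := S) (fun n => by rw [hS]; omega) hij
  have m2 := Nat.mul_le_mul_right (K * (S i + 1)) (hL0 ⟨p i, rfl⟩)
  have m3 : x i = L0 * (K * (S i + 1)) + S i + 1 := rfl
  rw [hS] at m1
  simp only at this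
  omega

end Pool.Agent.H32.Pta
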