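import Mathlib

set_option autoImplicit false

namespace Pool.Agent.H32.Pta

/-- finite trees over the ranked alphabet `(S, rk)` -/
inductive Tr {S : Type} (rk : S → ℕ) : Type
  | node (σ : S) (ch : Fin (rk σ) → Tr rk) : Tr rk

/-- Parikh tree automata with reset; `none` is the reset symbol -/
structure PTAR {S : Type} (rk : S → ℕ) : Type 1 where
  m : ℕ
  m_pos : 1 ≤ m
  Q : Type
  finQ : Finite Q
  q0 : Q
  Δ : (σ : S) → Set (Q × (Fin (rk σ) → Q × Option (Fin m → ℕ)))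
  finΔ : ∀ σ, (Δ σ).Finite
  C : Set (Fin m → ℕ)
  semi : IsSemilinearSet C

variable {S : Type} {rk : S → ℕ}

/-- new counter value: add the vector, or reset -/
def upd {m : ℕ} (s : Fin m → ℕ) : Option (Fin m → ℕ) → Fin m → ℕ
  | none => 0
  | some e => s + e

/-- the tree has a run whose root carries the pair `(q, s)` -/
def PTAR.Acc (A : PTAR rk) : Tr rk → A.Q → (Fin A.m → ℕ) → Prop
  | .node σ ch, q, s => (rk σ = 0 → s ∈ A.C) ∧
      ∃ τ, (q, τ) ∈ A.Δ σ ∧ ∀ i, A.Acc (ch i) (τ i).1 (upd s (τ i).2)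

def PTAR.lang (A : PTAR rk) : Set (Tr rk) := {t | A.Acc t A.q0 0}

/-- no transition uses the reset symbol -/
def PTAR.IsPTA (A : PTAR rk) : Prop := ∀ σ, ∀ x ∈ A.Δ σ, ∀ i, (x.2 i).2 ≠ none

end Pool.Agent.H32.Pta
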