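import Pool.Agent.H32.RBCutDefs
import Pool.Agent.H38.NP.Graphs

set_option autoImplicit false

namespace Pool.Agent.H32.RBCut

open Pool.Agent.H38.NP Finset

abbrev I := ℕ × List (ℕ × ℕ) × ℕ

def fu (n y : ℕ) : ℕ := (y - 2 - n) / n
def fv (n y : ℕ) : ℕ := (y - 2 - n) % n
def A (n : ℕ) (E : List (ℕ × ℕ)) (y : ℕ) : ℕ :=
  if fu n y = fv n y ∨ (fu n y, fv n y) ∉ E then 2 + fu n y else 1
def B (n : ℕ) (E : List (ℕ × ℕ)) (y : ℕ) : ℕ :=
  if fu n y = fv n y ∨ (fu n y, fv n y) ∉ E then 2 + fv n y else 1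
def W (n : ℕ) : Finset ℕ := Ico (2 + n) (2 + n + n * n)

lemma lt {n y : ℕ} (h : y ∈ W n) : fu n y < n ∧ fv n y < n := by
  rw [W, mem_Ico] at h
  have : 0 < n := Nat.pos_of_ne_zero fun e => by simp [e] at h; omega
  exact ⟨Nat.div_lt_of_lt_mul (by omega), Nat.mod_lt _ this⟩

lemma AB {n y : ℕ} (E : List (ℕ × ℕ)) (h : y ∈ W n) :
    0 < A n E y ∧ A n E y < 2 + n ∧ 0 < B n E y ∧ B n E y < 2 + n := by
  have := lt h
  unfold A B; split_ifs <;> omega

lemma cardW (n : ℕ) (P : ℕ → ℕ → Prop) [∀ u v, Decidable (P u v)] :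
    #{y ∈ W n | P (fu n y) (fv n y)} = #{p ∈ range n ×ˢ range n | P p.1 p.2} := by
  refine card_bij (fun y _ => (fu n y, fv n y)) (fun y hy => ?_) (fun x hx y hy e => ?_)
    fun ⟨u, v⟩ hp => ?_
  · simpa [lt (mem_filter.1 hy).1] using (mem_filter.1 hy).2
  · have a := mem_Ico.1 (mem_filter.1 hx).1
    have b := mem_Ico.1 (mem_filter.1 hy).1
    have c := Nat.div_add_mod (x - 2 - n) n
    have d := Nat.div_add_mod (y - 2 - n) n
    simp only [fu, fv, Prod.mk.injEq] at e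
    rw [e.1, e.2] at c; omega
  · simp only [mem_filter, mem_product, mem_range] at hp
    have e : 2 + n + n * u + v - 2 - n = v + n * u := by omega
    have a : fu n (2 + n + n * u + v) = u := by
      rw [fu, e, Nat.add_mul_div_left _ _ (by omega), Nat.div_eq_of_lt hp.1.2, zero_add]
    have b : fv n (2 + n + n * u + v) = v := by
      rw [fv, e, Nat.add_mul_mod_self_left, Nat.mod_eq_of_lt hp.1.2]
    have : n * (u + 1) ≤ n * n := Nat.mul_le_mul_left _ hp.1.1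
    exact ⟨2 + n + n * u + v, mem_filter.2 ⟨mem_Ico.2 ⟨by omega, by nlinarith [hp.1.2]⟩,
      by rw [a, b]; exact hp.2⟩, by rw [a, b]⟩

lemma back {n k : ℕ} {E : List (ℕ × ℕ)} (hk : k ≤ n) (X : Finset ℕ) (h1 : 1 ∉ X)
    (hb : #{u ∈ range n | 2 + u ∈ X} ≤ k)
    (hr : #{y ∈ W n | ¬ (A n E y ∈ X ∧ B n E y ∈ X)} ≤ n * n - k * k) :
    ∃ S, IndepN n E S ∧ #S = k := by
  set S := {u ∈ range n | 2 + u ∈ X}
  have a := card_filter_add_card_filter_not (s := W n) fun y => A n E y ∈ X ∧ B n E y ∈ X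
  have b : #{y ∈ W n | A n E y ∈ X ∧ B n E y ∈ X} =
      #{p ∈ range n ×ˢ range n | (p.1 = p.2 ∨ (p.1, p.2) ∉ E) ∧ 2 + p.1 ∈ X ∧ 2 + p.2 ∈ X} := by
    rw [← cardW n fun u v => (u = v ∨ (u, v) ∉ E) ∧ 2 + u ∈ X ∧ 2 + v ∈ X]
    refine congrArg _ (filter_congr fun y _ => ?_)
    unfold A B; split_ifs with h <;> simp [h, h1]
  have c : {p ∈ range n ×ˢ range n | (p.1 = p.2 ∨ (p.1, p.2) ∉ E) ∧ 2 + p.1 ∈ X ∧ 2 + p.2 ∈ X} ⊆
      S ×ˢ S := fun p hp => by
    simp only [S, mem_filter, mem_product] at hp ⊢; tauto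
  have d := card_le_card c
  have e := Nat.mul_le_mul hb hb
  have f := Nat.mul_le_mul hk hk
  rw [card_product] at d
  rw [b, show #(W n) = n * n by simp [W]] at a
  have g := eq_of_subset_of_card_le c (by rw [card_product]; omega)
  refine ⟨S, ⟨fun v hv => mem_range.1 (mem_filter.1 hv).1, fun u hu v hv huv => ?_⟩,
    Nat.mul_self_inj.1 (by omega)⟩
  have : (u, v) ∈ S ×ˢ S := mem_product.2 ⟨hu, hv⟩
  rw [← g] at this
  exact (mem_filter.1 this).2.1.resolve_left huv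

lemma forth {n : ℕ} {E : List (ℕ × ℕ)} {S : Finset ℕ} (hS : IndepN n E S) :
    ∃ X ⊆ range (2 + n + n * n), 0 ∈ X ∧ 1 ∉ X ∧ (∀ u < n, 2 + u ∈ X ↔ u ∈ S) ∧
      (∀ y ∈ W n, y ∈ X ↔ A n E y ∈ X ∨ B n E y ∈ X) ∧
      #{y ∈ W n | ¬ (A n E y ∈ X ∧ B n E y ∈ X)} ≤ n * n - #S * #S := by
  let Y := S.image (2 + ·)
  let X := insert 0 (Y ∪ {y ∈ W n | A n E y ∈ Y ∨ B n E y ∈ Y})
  have Yl : ∀ x ∈ Y, 2 ≤ x ∧ x < 2 + n := fun x hx => by
    obtain ⟨u, hu, rfl⟩ := mem_image.1 hx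
    have := hS.1 u hu; omega
  have sm : ∀ x, 0 < x → x < 2 + n → (x ∈ X ↔ x ∈ Y) := fun x a b => by
    simp only [X, W, mem_insert, mem_union, mem_filter, mem_Ico]
    exact ⟨fun h => by rcases h with h | h | h <;> first | omega | exact h, fun h => .inr (.inl h)⟩
  have it : ∀ u < n, 2 + u ∈ X ↔ u ∈ S := fun u hu => by
    rw [sm _ (by omega) (by omega)]; simp [Y]
  refine ⟨X, fun x hx => ?_, mem_insert_self _ _, fun h => ?_, it, fun y hy => ?_, ?_⟩
  · simp only [X, W, mem_insert, mem_union, mem_filter, mem_Ico, mem_range] at hx ⊢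
    rcases hx with h | h | h
    · omega
    · have := Yl x h; omega
    · omega
  · have := Yl 1 ((sm 1 (by omega) (by omega)).1 h); omega
  · have := AB E hy
    have := mem_Ico.1 hy
    rw [sm (A n E y) (by omega) (by omega), sm (B n E y) (by omega) (by omega)]
    simp only [X, mem_insert, mem_union, mem_filter, hy, true_and]
    exact ⟨fun h => by
      rcases h with h | h | h <;> first | omega | exact h | (have := Yl _ h; omega),
      fun h => .inr (.inr h)⟩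
  · have a := card_filter_add_card_filter_not (s := W n) fun y => fu n y ∈ S ∧ fv n y ∈ S
    rw [cardW n fun u v => u ∈ S ∧ v ∈ S, show #(W n) = n * n by simp [W],
      show {p ∈ range n ×ˢ range n | p.1 ∈ S ∧ p.2 ∈ S} = S ×ˢ S by
        ext p; simpa using fun a b => ⟨hS.1 _ a, hS.1 _ b⟩, card_product] at a
    refine (card_le_card fun y hy => ?_).trans (Nat.eq_sub_of_add_eq' a).le
    simp only [mem_filter] at hy ⊢
    refine ⟨hy.1, fun h => hy.2 ?_⟩
    have := lt hy.1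
    have g : fu n y = fv n y ∨ (fu n y, fv n y) ∉ E := or_iff_not_imp_left.2 (hS.2 _ h.1 _ h.2)
    simp only [A, B, if_pos g, it _ this.1, it _ this.2, h, and_self]

def redU (p : I) : InstU :=
  (2 + p.1 + p.1 * p.1, edgesOf (2 + p.1 + p.1 * p.1) (fun x y => decide (2 + p.1 ≤ y) &&
    (decide (x = 0) || decide (x = A p.1 p.2.1 y) || decide (x = B p.1 p.2.1 y))),
    edgesOf (2 + p.1) (fun x y => decide (x = 1) && decide (2 ≤ y)), 0, 1,
    p.1 * p.1 - p.2.2 * p.2.2, p.2.2)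

theorem hardU : NPH ValidU YesU := by
  refine indep_nph.reduce redU (PT.mk (by fun_prop) (PT.mk (PT.edgesOf (by fun_prop)
    (by unfold A B fu fv; fun_prop)) (PT.mk (PT.edgesOf (by fun_prop) (by fun_prop)) (by fun_prop))))
    fun ⟨n, E, k⟩ h => ?_
  have hk : k ≤ n := by have := h.1; simp only at this; omega
  have mR : ∀ x y, (x, y) ∈ (redU (n, E, k)).2.1 ↔
      y ∈ W n ∧ (x = 0 ∨ x = A n E y ∨ x = B n E y) := fun x y => by
    simp only [redU, mem_edgesOf, Bool.and_eq_true, Bool.or_eq_true, decide_eq_true_eq, or_assoc]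
    exact ⟨fun h => ⟨mem_Ico.2 ⟨h.2.2.1, h.2.1⟩, h.2.2.2⟩, fun h => by
      have := AB E h.1; have := mem_Ico.1 h.1; omega⟩
  have mB : ∀ x y, (x, y) ∈ (redU (n, E, k)).2.2.1 ↔ x = 1 ∧ 2 ≤ y ∧ y < 2 + n := fun x y => by
    simp only [redU, mem_edgesOf, Bool.and_eq_true, decide_eq_true_eq]; omega
  have cB : ∀ X : Finset ℕ, 1 ∉ X →
      cutU (redU (n, E, k)).2.2.1 X = #{u ∈ range n | 2 + u ∈ X} := fun X h1 => by
    refine (card_bij (fun u _ => (1, 2 + u)) (fun u hu => ?_) (fun _ _ _ _ e => by simpa using e)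
      fun ⟨x, y⟩ hp => ?_).symm
    · simpa [mB, h1] using hu
    · simp only [mem_filter, List.mem_toFinset, mB] at hp
      obtain ⟨⟨rfl, a, b⟩, c⟩ := hp
      obtain ⟨u, rfl⟩ := Nat.exists_eq_add_of_le a
      exact ⟨u, mem_filter.2 ⟨mem_range.2 (by omega), by simpa [h1] using c⟩, rfl⟩
  refine ⟨⟨fun ⟨x, y⟩ hp => ?_, fun ⟨x, y⟩ a b => ?_, by omega, by omega, by omega⟩,
    fun ⟨S, hS, hc⟩ => ?_, fun ⟨X, _, h0, h1, hr, hb⟩ => back hk X h1 ((cB X h1).ge.trans hb) ?_⟩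
  · dsimp only
    rcases List.mem_append.1 hp with h | h
    · have a := (mR _ _).1 h; have := AB E a.1; have := mem_Ico.1 a.1; omega
    · have := (mB _ _).1 h; omega
  · have := mem_Ico.1 ((mR _ _).1 a).1; have := (mB _ _).1 b; omega
  · obtain ⟨X, a, h0, h1, b, c, d⟩ := forth hS
    simp only at hc
    refine ⟨X, a, h0, h1, le_trans (card_le_card_of_injOn Prod.snd (fun ⟨x, y⟩ hp => ?_)
      fun ⟨x, y⟩ hp ⟨x', y'⟩ hp' e => ?_) (hc ▸ d), (cB X h1).le.trans
        (hc ▸ card_le_card fun u hu => (b u (by simp_all)).1 (mem_filter.1 hu).2)⟩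
    · obtain ⟨p1, p2⟩ := mem_filter.1 hp
      have := (mR _ _).1 (List.mem_toFinset.1 p1)
      have := c y this.1
      refine mem_filter.2 ?_
      grind
    · obtain ⟨p1, p2⟩ := mem_filter.1 hp
      obtain ⟨p3, p4⟩ := mem_filter.1 hp'
      have := (mR _ _).1 (List.mem_toFinset.1 p1)
      have := (mR _ _).1 (List.mem_toFinset.1 p3)
      have := c y' this.1
      grind
  · refine le_trans (card_le_card_of_surjOn Prod.snd fun y hy => ?_) hr
    obtain ⟨a, b⟩ := mem_filter.1 hy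
    have : ∃ x, (x = 0 ∨ x = A n E y ∨ x = B n E y) ∧ ¬ (x ∈ X ↔ y ∈ X) := by grind
    obtain ⟨x, c, d⟩ := this
    exact ⟨(x, y), mem_filter.2 ⟨List.mem_toFinset.2 ((mR _ _).2 ⟨a, c⟩), d⟩, rfl⟩

lemma up (L L' : List (ℕ × ℕ)) (X X' : Finset ℕ) (h1 : ∀ x y, (x, y) ∈ L → x < y)
    (h2 : ∀ x y, (x, y) ∈ L' → x ∈ X' → y ∉ X' → ((x, y) ∈ L ∨ (y, x) ∈ L) ∧ x ∈ X ∧ y ∉ X) :
    cutD L' X' ≤ cutU L X :=
  card_le_card_of_injOn (fun p => if p.1 < p.2 then p else (p.2, p.1)) (fun ⟨x, y⟩ hp => by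
    simp only [coe_filter, List.mem_toFinset, Set.mem_ofPred_eq] at hp ⊢
    have := h2 x y hp.1 hp.2.1 hp.2.2
    have := h1 x y
    have := h1 y x
    split_ifs <;> grind) fun ⟨x, y⟩ hp ⟨x', y'⟩ hp' e => by
    simp only [coe_filter, List.mem_toFinset, Set.mem_ofPred_eq] at hp hp' e
    split_ifs at e <;> grind

lemma dn (L L' : List (ℕ × ℕ)) (X X' : Finset ℕ) (h1 : ∀ x y, (x, y) ∈ L → x < y)
    (h2 : ∀ x y, (x, y) ∈ L →
      (x, y) ∈ L' ∧ (y, x) ∈ L' ∧ (x ∈ X ↔ x ∈ X') ∧ (y ∈ X ↔ y ∈ X')) :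
    cutU L X ≤ cutD L' X' :=
  card_le_card_of_injOn (fun p => if p.1 ∈ X then p else (p.2, p.1)) (fun ⟨x, y⟩ hp => by
    simp only [coe_filter, List.mem_toFinset, Set.mem_ofPred_eq] at hp ⊢
    have := h2 x y hp.1
    split_ifs <;> grind) fun ⟨x, y⟩ hp ⟨x', y'⟩ hp' e => by
    simp only [coe_filter, List.mem_toFinset, Set.mem_ofPred_eq] at hp hp' e
    have := h1 x y hp.1
    have := h1 x' y' hp'.1
    split_ifs at e <;> grind

def redD : InstU → InstD := fun p =>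
  (p.1 + (p.2.2.2.2.2.2 + 1) + (p.2.2.2.2.2.2 + 1), p.2.1 ++ p.2.1.map fun q => (q.2, q.1),
    edgesOf (p.1 + (p.2.2.2.2.2.2 + 1) + (p.2.2.2.2.2.2 + 1)) (fun x y => decide (x ≠ y ∧
      ((x, y) ∈ p.2.2.1 ∨ (y, x) ∈ p.2.2.1 ∨
      (p.1 ≤ y ∧ y < p.1 + (p.2.2.2.2.2.2 + 1)) ∨ p.1 + (p.2.2.2.2.2.2 + 1) ≤ x ∨
      (y = p.2.2.2.1 ∧ p.1 ≤ x) ∨ (x = p.2.2.2.2.1 ∧ p.1 ≤ y)))), p.2.2.2.2.2.1, p.2.2.2.2.2.2)

theorem hardD : NPH ValidD YesD := by
  refine hardU.reduce redD (PT.mk (by fun_prop) (PT.mk (by fun_prop)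
    (PT.mk (PT.edgesOf (by fun_prop) (by fun_prop)) (by fun_prop))))
    fun ⟨n, R, B, s, t, r, b⟩ ⟨v1, v2, v3, v4, v5⟩ => ?_
  have vR : ∀ x y, (x, y) ∈ R → x < y ∧ y < n := fun x y h => v1 _ (List.mem_append_left _ h)
  have vB : ∀ x y, (x, y) ∈ B → x < y ∧ y < n := fun x y h => v1 _ (List.mem_append_right _ h)
  have vD : ∀ x y, (x, y) ∈ R → (x, y) ∉ B := fun x y => v2 _
  generalize hR : (redD (n, R, B, s, t, r, b)).2.1 = R'
  generalize hB : (redD (n, R, B, s, t, r, b)).2.2.1 = B'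
  have mR : ∀ x y, (x, y) ∈ R' ↔ (x, y) ∈ R ∨ (y, x) ∈ R := fun x y => by
    simp [← hR, redD]
  have mB : ∀ x y, (x, y) ∈ B' ↔ x < n + (b + 1) + (b + 1) ∧ y < n + (b + 1) + (b + 1) ∧ x ≠ y ∧
      ((x, y) ∈ B ∨ (y, x) ∈ B ∨ (n ≤ y ∧ y < n + (b + 1)) ∨ n + (b + 1) ≤ x ∨
      (y = s ∧ n ≤ x) ∨ (x = t ∧ n ≤ y)) := fun x y => by
    simp only [← hB, redD, mem_edgesOf, decide_eq_true_eq]
  have e : redD (n, R, B, s, t, r, b) = (n + (b + 1) + (b + 1), R', B', r, b) := by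
    rw [← hR, ← hB]; rfl
  rw [e]
  clear e hR hB v1 v2
  refine ⟨⟨fun ⟨x, y⟩ hp => by
      have := vR x y; have := vR y x; have := mR x y; have := mB x y
      rw [List.mem_append] at hp
      clear vR vB vD mR mB
      grind, fun ⟨x, y⟩ a c => by
      have := vR x y; have := vR y x; have := vB x y; have := vB y x; have := vD x y
      have := vD y x; rw [mR] at a; rw [mB] at c
      clear vR vB vD mR mB
      grind⟩,
    fun ⟨X, a, h0, h1, hr, hb⟩ => ?_, fun ⟨X, a, ⟨x0, h0⟩, hr, hb⟩ => ?_⟩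
  · have a' : ∀ x ∈ X, x < n := fun x hx => mem_range.1 (a hx)
    refine ⟨X ∪ Ico n (n + (b + 1)), ⟨fun x hx => ?_, fun h => ?_⟩, ⟨s, mem_union_left _ h0⟩,
      (up _ _ X _ (fun x y h => (vR x y h).1) fun x y h1 h2 h3 => ?_).trans hr,
      (up _ _ X _ (fun x y h => (vB x y h).1) fun x y h1 h2 h3 => ?_).trans hb⟩
    · have := a' x
      simp only [mem_union, mem_Ico, mem_range] at hx ⊢
      clear vR vB vD mR mB a'
      grind
    · have := h (mem_range.2 (by omega : t < _))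
      simp only [mem_union, mem_Ico, h1, false_or] at this
      omega
    · have := vR x y; have := vR y x
      simp only [mem_union, mem_Ico, mR] at h1 h2 h3
      clear vR vB vD mR mB a'
      grind
    · have := vB x y; have := vB y x; have := a' x
      simp only [mem_union, mem_Ico, mB] at h1 h2 h3
      clear vR vB vD mR mB a'
      grind
  · obtain ⟨y0, y1, y2⟩ := exists_of_ssubset a
    have a' := mem_range.1 (a.1 h0)
    rw [mem_range] at y1
    refine ⟨X ∩ range n, inter_subset_right, ?_, ?_,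
      (dn _ _ _ X (fun x y h => (vR x y h).1) fun x y h => ?_).trans hr,
      (dn _ _ _ X (fun x y h => (vB x y h).1) fun x y h => ?_).trans hb⟩
    · by_contra hs
      simp only [mem_inter, mem_range, v3, and_true] at hs
      have := (card_le_card_of_injOn (s := Ico n (n + (b + 1)))
        (fun c => if c ∈ X then (c, s) else (x0, c)) (fun c hc => by
          simp only [coe_filter, List.mem_toFinset, Set.mem_ofPred_eq, coe_Ico, Set.mem_Ico] at hc ⊢
          split_ifs <;> rw [mB] <;> clear vR vB vD mR mB <;> grind) fun c hc d hd e => by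
            simp only [coe_Ico, Set.mem_Ico] at hc hd e
            clear vR vB vD mR mB
            split_ifs at e <;> grind).trans hb
      simp at this
    · intro ht
      replace ht := (mem_inter.1 ht).1
      have := (card_le_card_of_injOn (s := Ico (n + (b + 1)) (n + (b + 1) + (b + 1)))
        (fun c => if c ∈ X then (c, y0) else (t, c)) (fun c hc => by
          simp only [coe_filter, List.mem_toFinset, Set.mem_ofPred_eq, coe_Ico, Set.mem_Ico] at hc ⊢
          split_ifs <;> rw [mB] <;> clear vR vB vD mR mB <;> grind) fun c hc d hd e => by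
            simp only [coe_Ico, Set.mem_Ico] at hc hd e
            clear vR vB vD mR mB
            split_ifs at e <;> grind).trans hb
      simp at this
    · have := vR x y h
      simp [mR, h, this.2, this.1.trans this.2]
    · have := vB x y h
      simp only [mB, h, mem_inter, mem_range, this.2, this.1.trans this.2, and_true, true_or,
        or_true]
      omega

end Pool.Agent.H32.RBCut
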