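import Pool.Agent.H38.NP.Defs

set_option autoImplicit false

namespace Pool.Agent.H32.RBCut

/-- Undirected input: `n`, red edges, blue edges, `s`, `t`, `r`, `b`. -/
abbrev InstU := ℕ × List (ℕ × ℕ) × List (ℕ × ℕ) × ℕ × ℕ × ℕ × ℕ

/-- Directed input: `n`, red arcs, blue arcs, `r`, `b`. -/
abbrev InstD := ℕ × List (ℕ × ℕ) × List (ℕ × ℕ) × ℕ × ℕ

/-- Number of listed edges with exactly one end in `X`. -/
def cutU (E : List (ℕ × ℕ)) (X : Finset ℕ) : ℕ :=
  (E.toFinset.filter fun p => ¬ (p.1 ∈ X ↔ p.2 ∈ X)).card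

/-- Number of listed arcs with tail in `X` and head outside `X`. -/
def cutD (A : List (ℕ × ℕ)) (X : Finset ℕ) : ℕ :=
  (A.toFinset.filter fun p => p.1 ∈ X ∧ p.2 ∉ X).card

/-- A simple graph on `{0, …, n-1}` (edges written `u < v`), each edge with one colour. -/
def ValidU : InstU → Prop
  | (n, R, B, s, t, _, _) => (∀ p ∈ R ++ B, p.1 < p.2 ∧ p.2 < n) ∧ (∀ p ∈ R, p ∉ B) ∧
      s < n ∧ t < n ∧ s ≠ t

/-- Some `s`-`t` cut has at most `r` red and at most `b` blue edges. -/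
def YesU : InstU → Prop
  | (n, R, B, s, t, r, b) => ∃ X ⊆ Finset.range n, s ∈ X ∧ t ∉ X ∧ cutU R X ≤ r ∧ cutU B X ≤ b

/-- A loopless digraph on `{0, …, n-1}` without parallel arcs, each arc with one colour. -/
def ValidD : InstD → Prop
  | (n, R, B, _, _) => (∀ p ∈ R ++ B, p.1 ≠ p.2 ∧ p.1 < n ∧ p.2 < n) ∧ ∀ p ∈ R, p ∉ B

/-- Some nonempty proper vertex set is left by at most `r` red and at most `b` blue arcs. -/
def YesD : InstD → Prop
  | (n, R, B, r, b) => ∃ X ⊂ Finset.range n, X.Nonempty ∧ cutD R X ≤ r ∧ cutD B X ≤ b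

end Pool.Agent.H32.RBCut
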