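import Mathlib

set_option autoImplicit false

namespace Pool.Agent.H32.RandExt

open Finset Filter Topology Classical

lemma avoid_le0 {α β : Type} [DecidableEq α] (U : Finset α) (k : ℕ) (O C : β → Finset α) (J : Finset β)
    (hO : ∀ j ∈ J, O j ⊆ U) (hOC : ∀ j ∈ J, Disjoint (O j) (C j))
    (hk : ∀ j ∈ J, (O j ∪ C j).card ≤ k)
    (hd : ∀ i ∈ J, ∀ j ∈ J, i ≠ j → Disjoint (O i ∪ C i) (O j ∪ C j)) :
    ((U.powerset.filter fun A => ∀ j ∈ J, ¬ (O j ⊆ A ∧ Disjoint (C j) A)).card : ℝ) ≤
      (1 - 1 / 2 ^ k) ^ J.card * 2 ^ U.card := by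
  induction J using Finset.induction_on with
  | empty => simp
  | insert j J hj ih =>
    have ih' := ih (fun i hi => hO i (mem_insert_of_mem hi)) (fun i hi => hOC i (mem_insert_of_mem hi))
      (fun i hi => hk i (mem_insert_of_mem hi))
      (fun a ha b hb => hd a (mem_insert_of_mem ha) b (mem_insert_of_mem hb))
    set E := U.powerset.filter fun A => ∀ j ∈ J, ¬ (O j ⊆ A ∧ Disjoint (C j) A) with hE
    set M := E.filter fun A => O j ⊆ A ∧ Disjoint (C j) A with hM
    have h1 : E.card ≤ 2 ^ k * M.card := by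
      have : E.card ≤ ((O j ∪ C j).powerset ×ˢ M).card := by
        refine card_le_card_of_injOn (fun A => (A ∩ (O j ∪ C j), (A \ (O j ∪ C j)) ∪ O j)) ?_ ?_
        · intro A hA
          have hA' := mem_filter.1 (mem_coe.1 hA)
          refine mem_coe.2 (mem_product.2 ⟨mem_powerset.2 inter_subset_right, mem_filter.2
            ⟨mem_filter.2 ⟨mem_powerset.2 (union_subset (sdiff_subset.trans (mem_powerset.1 hA'.1))
              (hO j (mem_insert_self _ _))), ?_⟩, subset_union_right, ?_⟩⟩)
          · intro i hi h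
            have hdd := disjoint_left.1 (hd i (mem_insert_of_mem hi) j (mem_insert_self _ _)
              (fun e => hj (e ▸ hi)))
            refine hA'.2 i hi ⟨fun a ha => ?_, disjoint_left.2 fun a ha haA => ?_⟩
            · rcases mem_union.1 (h.1 ha) with h' | h'
              · exact (mem_sdiff.1 h').1
              · exact absurd (mem_union_left _ h') (hdd (mem_union_left _ ha))
            · exact disjoint_left.1 h.2 ha (mem_union_left _ (mem_sdiff.2
                ⟨haA, hdd (mem_union_right _ ha)⟩))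
          · refine disjoint_left.2 fun a ha h => ?_
            rcases mem_union.1 h with h' | h'
            · exact (mem_sdiff.1 h').2 (mem_union_right _ ha)
            · exact disjoint_left.1 (hOC j (mem_insert_self _ _)) h' ha
        · intro A _ B _ h
          have e1 := congrArg Prod.fst h
          have e2 := congrArg Prod.snd h
          simp only at e1 e2
          ext a
          have f1 := congrArg (a ∈ ·) e1
          have f2 := congrArg (a ∈ ·) e2
          simp only [mem_inter, mem_union, Finset.mem_sdiff, eq_iff_iff] at f1 f2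
          tauto
      rw [card_product, card_powerset] at this
      exact this.trans (Nat.mul_le_mul_right _ (Nat.pow_le_pow_right (by norm_num)
        (hk j (mem_insert_self _ _))))
    have h2 : (U.powerset.filter fun A => ∀ i ∈ insert j J, ¬ (O i ⊆ A ∧ Disjoint (C i) A)) =
        E.filter fun A => ¬ (O j ⊆ A ∧ Disjoint (C j) A) := by
      ext A
      simp only [hE, mem_filter, forall_mem_insert]
      tauto
    have h3 := card_filter_add_card_filter_not (s := E) (fun A => O j ⊆ A ∧ Disjoint (C j) A)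
    rw [h2, card_insert_of_notMem hj, pow_succ]
    have h4 : (E.card : ℝ) ≤ 2 ^ k * M.card := by exact_mod_cast h1
    have h5 : (M.card : ℝ) + (E.filter fun A => ¬ (O j ⊆ A ∧ Disjoint (C j) A)).card = E.card := by
      exact_mod_cast h3
    have h6 : (0 : ℝ) < 2 ^ k := by positivity
    have h7 : (1 : ℝ) / 2 ^ k * E.card ≤ M.card := by
      rw [div_mul_eq_mul_div, div_le_iff₀ h6]; linarith
    have h8 : (0 : ℝ) ≤ 1 - 1 / 2 ^ k := by
      rw [sub_nonneg, div_le_one h6]; exact one_le_pow₀ (by norm_num)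
    nlinarith [mul_le_mul_of_nonneg_left ih' h8]

lemma avoid_le {α β : Type} [DecidableEq α] (U : Finset α) (k : ℕ) (O C : β → Finset α)
    (J : Finset β) (P : Finset α → Prop) (inst : DecidablePred P)
    (hP : ∀ A, P A → ∀ j ∈ J, ¬ (O j ⊆ A ∧ Disjoint (C j) A))
    (hO : ∀ j ∈ J, O j ⊆ U) (hOC : ∀ j ∈ J, Disjoint (O j) (C j))
    (hk : ∀ j ∈ J, (O j ∪ C j).card ≤ k)
    (hd : ∀ i ∈ J, ∀ j ∈ J, i ≠ j → Disjoint (O i ∪ C i) (O j ∪ C j)) :
    ((U.powerset.filter P).card : ℝ) ≤ (1 - 1 / 2 ^ k) ^ J.card * 2 ^ U.card := by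
  refine le_trans ?_ (avoid_le0 U k O C J hO hOC hk hd)
  exact_mod_cast card_le_card fun A hA => mem_filter.2 ⟨(mem_filter.1 hA).1, hP A (mem_filter.1 hA).2⟩

/-- union bound and limit -/
lemma tendsto_good {α : ℕ → Type} {γ : ℕ → Type} (U : ∀ n, Finset (α n)) (I : ∀ n, Finset (γ n))
    (bad : ∀ n, γ n → Finset (α n) → Prop) (good : ∀ n, Finset (α n) → Prop) (c c' k N : ℕ)
    (hI : ∀ n, (I n).card ≤ n ^ c)
    (hb : ∀ n, ∀ i ∈ I n, (((U n).powerset.filter (bad n i)).card : ℝ) ≤
      (1 - 1 / 2 ^ k) ^ (n - c') * 2 ^ (U n).card)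
    (hg : ∀ n, N ≤ n → ∀ A ⊆ U n, (∀ i ∈ I n, ¬ bad n i A) → good n A) :
    Tendsto (fun n => (((U n).powerset.filter (good n)).card : ℝ) / 2 ^ (U n).card) atTop (𝓝 1) := by
  set q : ℝ := 1 - 1 / 2 ^ k with hq
  have h6 : (0 : ℝ) < 2 ^ k := by positivity
  have q0 : 0 ≤ q := by rw [hq, sub_nonneg, div_le_one h6]; exact one_le_pow₀ (by norm_num)
  have q1 : q < 1 := by rw [hq]; have : (0 : ℝ) < 1 / 2 ^ k := by positivity
                        linarith
  have t1 : Tendsto (fun n : ℕ => ((n + c' : ℕ) : ℝ) ^ c * q ^ n) atTop (𝓝 0) := by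
    have a := (tendsto_pow_const_mul_const_pow_of_abs_lt_one c
      (r := q) (by rw [abs_of_nonneg q0]; exact q1)).const_mul (2 ^ c)
    rw [mul_zero] at a
    refine squeeze_zero' (Eventually.of_forall fun n => by positivity) ?_ a
    filter_upwards [eventually_ge_atTop c'] with n hn
    rw [← mul_assoc, ← mul_pow]
    refine mul_le_mul_of_nonneg_right (pow_le_pow_left₀ (by positivity) ?_ _) (by positivity)
    have : (c' : ℝ) ≤ n := by exact_mod_cast hn
    push_cast; linarith
  have t2 : Tendsto (fun n : ℕ => (n : ℝ) ^ c * q ^ (n - c')) atTop (𝓝 0) := by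
    rw [← tendsto_add_atTop_iff_nat c']
    simpa using t1
  have t3 := t2.const_sub 1
  rw [sub_zero] at t3
  refine tendsto_of_tendsto_of_tendsto_of_le_of_le' t3 tendsto_const_nhds ?_
    (Eventually.of_forall fun n => ?_)
  · filter_upwards [eventually_ge_atTop N] with n hn
    have p : (0 : ℝ) < 2 ^ (U n).card := by positivity
    rw [le_div_iff₀ p]
    have h3 := card_filter_add_card_filter_not (s := (U n).powerset) (good n)
    rw [card_powerset] at h3
    have h4 : ((U n).powerset.filter fun A => ¬ good n A) ⊆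
        (I n).biUnion fun i => (U n).powerset.filter (bad n i) := by
      intro A hA
      obtain ⟨h1, h2⟩ := mem_filter.1 hA
      by_contra hc
      refine h2 (hg n hn A (mem_powerset.1 h1) fun i hi hb => hc ?_)
      exact mem_biUnion.2 ⟨i, hi, mem_filter.2 ⟨h1, hb⟩⟩
    have h5 := (card_le_card h4).trans card_biUnion_le
    have h6 : (((U n).powerset.filter fun A => ¬ good n A).card : ℝ) ≤
        ∑ i ∈ I n, (((U n).powerset.filter (bad n i)).card : ℝ) := by exact_mod_cast h5
    have h7 := h6.trans (sum_le_card_nsmul _ _ _ (hb n))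
    rw [nsmul_eq_mul] at h7
    have h8 : ((I n).card : ℝ) ≤ (n : ℝ) ^ c := by exact_mod_cast hI n
    have h9 := mul_le_mul_of_nonneg_right h8 (show 0 ≤ q ^ (n - c') * 2 ^ (U n).card by positivity)
    have h10 : (((U n).powerset.filter (good n)).card : ℝ) +
        ((U n).powerset.filter fun A => ¬ good n A).card = 2 ^ (U n).card := by exact_mod_cast h3
    nlinarith
  · have p : (0 : ℝ) < 2 ^ (U n).card := by positivity
    rw [div_le_one p]
    have := card_filter_le (U n).powerset (good n)
    rw [card_powerset] at this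
    exact_mod_cast this

noncomputable def UU (n : ℕ) : Finset (Sym2 (Fin n)) := (⊤ : SimpleGraph (Fin n)).edgeFinset
def gr {n : ℕ} (A : Finset (Sym2 (Fin n))) : SimpleGraph (Fin n) :=
  SimpleGraph.fromEdgeSet (A : Set _)

lemma card_eq {n : ℕ} (E : SimpleGraph (Fin n) → Prop) :
    Nat.card {G : SimpleGraph (Fin n) // E G} =
      ((UU n).powerset.filter fun A => E (gr A)).card := by
  rw [Nat.card_eq_fintype_card, Fintype.card_subtype]
  symm
  refine card_bij (fun A _ => gr A) (fun A hA => mem_filter.2 ⟨mem_univ _, (mem_filter.1 hA).2⟩)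
    (fun A hA B hB h => ?_) fun G hG => ⟨G.edgeFinset, mem_filter.2 ⟨mem_powerset.2
      (SimpleGraph.edgeFinset_mono le_top), by simpa [gr] using (mem_filter.1 hG).2⟩, by simp [gr]⟩
  have b : ∀ A ∈ (UU n).powerset.filter fun A => E (gr A), (gr A).edgeSet = A := fun A hA => by
    rw [gr, SimpleGraph.edgeSet_fromEdgeSet, sdiff_eq_left]
    refine Set.disjoint_left.2 fun e he hd => ?_
    have := mem_powerset.1 (mem_filter.1 hA).1 he
    exact SimpleGraph.not_isDiag_of_mem_edgeSet _ (SimpleGraph.mem_edgeFinset.1 this) hd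
  exact coe_injective ((b A hA).symm.trans (h ▸ b B hB))

/-- extension property for `k + k` vertices -/
def Ext {V : Type} (k : ℕ) (G : SimpleGraph V) : Prop :=
  ∀ s r : Fin k → V, (∀ i j, s i ≠ r j) →
    ∃ z, (∀ i, G.Adj z (s i)) ∧ ∀ j, z ≠ r j ∧ ¬ G.Adj z (r j)

theorem graph_tendsto (k N : ℕ) (E : ∀ n, SimpleGraph (Fin n) → Prop)
    (hE : ∀ n, N ≤ n → ∀ G, Ext k G → E n G) :
    Tendsto (fun n : ℕ => (Nat.card {G : SimpleGraph (Fin n) // E n G} : ℝ) /
      (2 : ℝ) ^ (n.choose 2)) atTop (𝓝 1) := by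
  have hU : ∀ n, n.choose 2 = (UU n).card := fun n => by
    rw [UU, SimpleGraph.card_edgeFinset_top_eq_card_choose_two, Fintype.card_fin]
  simp only [card_eq, hU]
  let J : ∀ n, (Fin k → Fin n) × (Fin k → Fin n) → Finset (Fin n) := fun n p =>
    univ \ (univ.image p.1 ∪ univ.image p.2)
  have hJ : ∀ n p z, z ∈ J n p ↔ (∀ i, p.1 i ≠ z) ∧ ∀ i, p.2 i ≠ z := by
    intro n p z; simp [J]
  refine tendsto_good UU (fun n => univ.filter fun p : (Fin k → Fin n) × (Fin k → Fin n) =>
      ∀ i j, p.1 i ≠ p.2 j)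
    (fun n p A => ∀ z ∈ J n p, ¬ ((univ.image fun i => s(z, p.1 i)) ⊆ A ∧
      Disjoint (univ.image fun i => s(z, p.2 i)) A)) (fun n A => E n (gr A)) (k + k) (k + k)
      (k + k) N (fun n => ?_) (fun n p hp => ?_) (fun n hn A _ h => hE n hn _ ?_)
  · refine (card_filter_le _ _).trans ?_
    simp [pow_add]
  · refine (avoid_le (UU n) (k + k) _ _ (J n p) _ _ (fun A h => h) ?_ ?_ ?_ ?_).trans ?_
    · intro z hz e he
      obtain ⟨i, _, rfl⟩ := mem_image.1 he
      simpa [UU] using (((hJ n p z).1 hz).1 i).symm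
    · intro z hz
      refine disjoint_left.2 fun e h1 h2 => ?_
      obtain ⟨i, _, rfl⟩ := mem_image.1 h1
      obtain ⟨j, _, e⟩ := mem_image.1 h2
      exact (mem_filter.1 hp).2 i j (Sym2.congr_right.1 e).symm
    · intro z _
      exact (card_union_le _ _).trans (add_le_add (card_image_le.trans (by simp))
        (card_image_le.trans (by simp)))
    · intro y hy z hz hyz
      obtain ⟨y1, y2⟩ := (hJ n p y).1 hy
      refine disjoint_left.2 fun e h1 h2 => ?_
      simp only [mem_union, mem_image, mem_univ, true_and] at h1 h2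
      rcases h1 with ⟨i, rfl⟩ | ⟨i, rfl⟩ <;> rcases h2 with ⟨j, e⟩ | ⟨j, e⟩ <;>
        rcases Sym2.eq_iff.1 e with h | h <;>
        first | exact hyz h.1.symm | exact y1 _ h.2 | exact y2 _ h.2
    · refine mul_le_mul_of_nonneg_right (pow_le_pow_of_le_one ?_ ?_ ?_) (by positivity)
      · rw [sub_nonneg, div_le_one (by positivity)]; exact one_le_pow₀ (by norm_num)
      · have : (0 : ℝ) < 1 / 2 ^ (k + k) := by positivity
        linarith
      · have h1 := card_sdiff_add_card_eq_card
          (subset_univ (univ.image p.1 ∪ univ.image p.2))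
        have h2 : (univ.image p.1 ∪ univ.image p.2).card ≤ k + k :=
          (card_union_le _ _).trans (add_le_add (card_image_le.trans (by simp))
            (card_image_le.trans (by simp)))
        simp only [card_univ, Fintype.card_fin] at h1
        simp only [J]
        omega
  · intro s r hsr
    have := h (s, r) (mem_filter.2 ⟨mem_univ _, hsr⟩)
    push Not at this
    obtain ⟨z, hz, h1, h2⟩ := this
    obtain ⟨y1, y2⟩ := (hJ n _ z).1 hz
    refine ⟨z, fun i => ?_, fun j => ⟨(y2 j).symm, fun h => ?_⟩⟩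
    · exact (SimpleGraph.fromEdgeSet_adj _).2 ⟨h1 (mem_image_of_mem _ (mem_univ i)), (y1 i).symm⟩
    · exact disjoint_left.1 h2 (mem_image_of_mem _ (mem_univ j))
        ((SimpleGraph.fromEdgeSet_adj _).1 h).1

end Pool.Agent.H32.RandExt
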