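import Pool.Agent.H32.RandExt

set_option autoImplicit false

namespace Pool.Agent.H32.RandShell

open Finset Filter Topology Pool.Agent.H32.RandExt

/-- The pure complex with facet set `D` (facet size `d`) is shellable: the facets can be listed
as `F 0, F 1, …` so that for every `j > 0` all maximal faces of the intersection of the complex
generated by `F j` with the complex generated by the earlier facets have `d - 1` elements. -/
def Shellable {α : Type} (d : ℕ) (D : Finset (Finset α)) : Prop :=
  ∃ (t : ℕ) (F : Fin t → Finset α), Function.Injective F ∧ (∀ A, A ∈ D ↔ ∃ j, F j = A) ∧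
    ∀ j : Fin t, 0 < j.val → ∀ s : Finset α,
      Maximal (fun s : Finset α => s ⊆ F j ∧ ∃ i, i < j ∧ s ⊆ F i) s → s.card = d - 1

variable {α : Type} [DecidableEq α]

def Ext (d : ℕ) (V : Finset α) (D : Finset (Finset α)) : Prop :=
  ∀ S ⊆ V, S.card ≤ d + 1 → ∃ z ∈ V, z ∉ S ∧ ∀ T ⊆ S, T.card = d → insert z T ∈ D

def Sh (d : ℕ) (D : Finset (Finset α)) (f : Finset α → ℕ) : Prop :=
  Set.InjOn f D ∧ ∀ F ∈ D, ∀ G ∈ D, f G < f F →
    ∃ K ∈ D, f K < f F ∧ G ∩ F ⊆ K ∧ (K ∩ F).card = d

lemma card_inter_lt {F G : Finset α} (h : F.card = G.card) (hne : G ≠ F) :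
    (G ∩ F).card < F.card :=
  card_lt_card ⟨inter_subset_right, fun hh => hne
    (eq_of_subset_of_card_le (hh.trans inter_subset_left) h.ge).symm⟩

lemma ridge {d : ℕ} {F K : Finset α} {a : α} (ha : a ∈ F) (hF : F.card = d + 1)
    (hK : K.card = d + 1) (hne : K ≠ F) (h : F.erase a ⊆ K) : (K ∩ F).card = d := by
  have h1 := card_inter_lt (hF.trans hK.symm) hne
  have h2 := card_le_card (subset_inter h (erase_subset a F))
  rw [card_erase_of_mem ha] at h2
  omega

theorem sh [Countable α] (d : ℕ) : ∀ (V : Finset α) (D : Finset (Finset α)),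
    (∀ F ∈ D, F ⊆ V ∧ F.card = d + 1) → Ext d V D → ∃ f, Sh d D f := by
  classical
  obtain ⟨g, hg⟩ := exists_injective_nat (Finset α)
  induction d with
  | zero =>
    intro V D hD _
    refine ⟨g, hg.injOn, fun F hF G hG h => ⟨G, hG, h, inter_subset_left, ?_⟩⟩
    have := card_inter_lt ((hD F hF).2.trans (hD G hG).2.symm) (fun e => h.ne (by rw [e]))
    have := (hD F hF).2
    omega
  | succ d ih =>
    intro V D hD hE
    obtain ⟨v, hv, -⟩ := hE ∅ (empty_subset _) (by simp)
    set L := (D.filter (v ∈ ·)).image (·.erase v) with hL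
    have memL : ∀ F ∈ D, v ∈ F → F.erase v ∈ L := fun F hF h =>
      mem_image.2 ⟨F, mem_filter.2 ⟨hF, h⟩, rfl⟩
    have ofL : ∀ K ∈ L, v ∉ K ∧ insert v K ∈ D := by
      intro K hK
      obtain ⟨F, hF, rfl⟩ := mem_image.1 hK
      exact ⟨notMem_erase _ _, by
        rw [insert_erase (mem_filter.1 hF).2]; exact (mem_filter.1 hF).1⟩
    have key : ∀ S ⊆ V, v ∉ S → S.card ≤ d + 1 → ∃ z ∈ V, z ≠ v ∧ z ∉ S ∧
        (∀ T ⊆ S, T.card = d → insert v (insert z T) ∈ D) ∧
        (S.card = d + 1 → insert z S ∈ D) := by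
      intro S hS hvS hc
      obtain ⟨z, hz, h1, h2⟩ := hE (insert v S) (insert_subset hv hS)
        (by rw [card_insert_of_notMem hvS]; omega)
      refine ⟨z, hz, fun e => h1 (by simp [e]), fun e => h1 (mem_insert_of_mem e),
        fun T hT hT' => ?_, fun h => h2 S (subset_insert _ _) h⟩
      rw [insert_comm]
      exact h2 _ (insert_subset_insert _ hT)
        (by rw [card_insert_of_notMem (fun e => hvS (hT e)), hT'])
    obtain ⟨f', hf1, hf2⟩ := ih (V.erase v) L (by
      intro K hK
      obtain ⟨F, hF, rfl⟩ := mem_image.1 hK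
      obtain ⟨h1, h2⟩ := mem_filter.1 hF
      exact ⟨erase_subset_erase _ (hD F h1).1, by rw [card_erase_of_mem h2, (hD F h1).2]; rfl⟩) (by
      intro S hS hc
      have hvS : v ∉ S := fun e => notMem_erase v V (hS e)
      obtain ⟨z, hz, h1, h2, h3, -⟩ := key S (hS.trans (erase_subset _ _)) hvS hc
      refine ⟨z, mem_erase.2 ⟨h1, hz⟩, h2, fun T hT hT' => ?_⟩
      have := memL _ (h3 T hT hT') (mem_insert_self _ _)
      rwa [erase_insert] at this
      simp only [mem_insert, not_or]
      exact ⟨h1.symm, fun e => hvS (hT e)⟩)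
    let P2 : Finset α → Prop := fun F => ∃ a ∈ F, ∀ b ∈ F, b ≠ a → insert v (F.erase b) ∈ D
    set B1 := L.sup f' + 1 with hB1
    set B2 := D.sup g + 1 with hB2
    let f : Finset α → ℕ := fun F =>
      if v ∈ F then f' (F.erase v) else if P2 F then B1 + g F else B1 + B2 + g F
    have c1 : ∀ F ∈ D, v ∈ F → f F = f' (F.erase v) ∧ f F < B1 := fun F hF h => by
      have := le_sup (f := f') (memL F hF h)
      simp only [f, h, if_true, true_and]; omega
    have c2 : ∀ F ∈ D, v ∉ F → P2 F → f F = B1 + g F ∧ f F < B1 + B2 := fun F hF h h' => by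
      have := le_sup (f := g) hF
      simp only [f, h, h', if_true, if_false, true_and]; omega
    have c3 : ∀ F, v ∉ F → ¬ P2 F → f F = B1 + B2 + g F := fun F h h' => by
      simp only [f, h, h', if_false]
    refine ⟨f, ?_, ?_⟩
    · intro F hF G hG e
      have hF : F ∈ D := hF
      have hG : G ∈ D := hG
      by_cases h1 : v ∈ F <;> by_cases h2 : v ∈ G
      · have := hf1 (memL F hF h1) (memL G hG h2) (by rw [← (c1 F hF h1).1, e, (c1 G hG h2).1])
        rw [← insert_erase h1, this, insert_erase h2]
      · have := c1 F hF h1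
        by_cases h : P2 G
        · have := c2 G hG h2 h; omega
        · have := c3 G h2 h; omega
      · have := c1 G hG h2
        by_cases h : P2 F
        · have := c2 F hF h1 h; omega
        · have := c3 F h1 h; omega
      · apply hg
        by_cases h : P2 F <;> by_cases h' : P2 G
        · have := c2 F hF h1 h; have := c2 G hG h2 h'; omega
        · have := c2 F hF h1 h; have := c3 G h2 h'; omega
        · have := c3 F h1 h; have := c2 G hG h2 h'; omega
        · have := c3 F h1 h; have := c3 G h2 h'; omega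
    · intro F hF G hG hlt
      have hne : G ≠ F := fun e => hlt.ne (by rw [e])
      have hFc := (hD F hF).2
      have hlt' := card_inter_lt (hFc.trans (hD G hG).2.symm) hne
      by_cases h1 : v ∈ F
      · have a1 := c1 F hF h1
        have h2 : v ∈ G := by
          by_contra h2
          by_cases h : P2 G
          · have := c2 G hG h2 h; omega
          · have := c3 G h2 h; omega
        obtain ⟨K, hK, k1, k2, k3⟩ := hf2 _ (memL F hF h1) _ (memL G hG h2)
          (by rw [← a1.1, ← (c1 G hG h2).1]; exact hlt)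
        obtain ⟨k4, k5⟩ := ofL K hK
        refine ⟨insert v K, k5, ?_, ?_, ?_⟩
        · rw [(c1 _ k5 (mem_insert_self _ _)).1, erase_insert k4, a1.1]; exact k1
        · intro a ha
          by_cases e : a = v
          · simp [e]
          · exact mem_insert_of_mem (k2 (mem_inter.2 ⟨mem_erase.2 ⟨e, (mem_inter.1 ha).1⟩,
              mem_erase.2 ⟨e, (mem_inter.1 ha).2⟩⟩))
        · rw [insert_inter_of_mem h1, card_insert_of_notMem (fun e => k4 (mem_inter.1 e).1),
            ← k3, inter_erase, erase_eq_of_notMem (fun e => k4 (mem_inter.1 e).1)]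
      · have ex : ∃ a ∈ F, a ∉ G := by
          by_contra hc
          push Not at hc
          rw [inter_eq_right.2 hc] at hlt'
          omega
        have sub : ∀ a, a ∉ G → G ∩ F ⊆ F.erase a := fun a ha x hx =>
          mem_erase.2 ⟨fun e => ha (e ▸ (mem_inter.1 hx).1), (mem_inter.1 hx).2⟩
        by_cases h : P2 F
        · have a2 := c2 F hF h1 h
          obtain ⟨a, ha, hb⟩ := h
          by_cases hc : ∃ b ∈ F, b ≠ a ∧ b ∉ G
          · obtain ⟨b, b1, b2, b3⟩ := hc
            have k := hb b b1 b2
            refine ⟨_, k, ?_, (sub b b3).trans (subset_insert _ _), ridge b1 hFc (hD _ k).2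
              (fun e => h1 (e ▸ mem_insert_self _ _)) (subset_insert _ _)⟩
            have := c1 _ k (mem_insert_self _ _); omega
          · push Not at hc
            exact ⟨G, hG, hlt, inter_subset_left, ridge ha hFc (hD G hG).2 hne
              (fun x hx => hc x (mem_erase.1 hx).2 (mem_erase.1 hx).1)⟩
        · have a3 := c3 F h1 h
          obtain ⟨a, ha, haG⟩ := ex
          have hvS : v ∉ F.erase a := fun e => h1 (mem_erase.1 e).2
          have hc : (F.erase a).card = d + 1 := by rw [card_erase_of_mem ha, hFc]; rfl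
          obtain ⟨z, -, z1, z2, z3, z4⟩ := key (F.erase a) ((erase_subset _ _).trans (hD F hF).1)
            hvS hc.le
          have k := z4 hc
          have hv' : v ∉ insert z (F.erase a) := by
            simp only [mem_insert, not_or]; exact ⟨z1.symm, hvS⟩
          have p2 : P2 (insert z (F.erase a)) := by
            refine ⟨z, mem_insert_self _ _, fun b hb hbz => ?_⟩
            rw [erase_insert_of_ne hbz.symm]
            have hb' := (mem_insert.1 hb).resolve_left hbz
            exact z3 _ (erase_subset _ _) (by rw [card_erase_of_mem hb', hc]; rfl)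
          refine ⟨_, k, ?_, (sub a haG).trans (subset_insert _ _), ridge ha hFc (hD _ k).2
            (fun e => h (e ▸ p2)) (subset_insert _ _)⟩
          have := c2 _ k hv' p2; omega

lemma shellable_of {d : ℕ} {D : Finset (Finset α)} {f : Finset α → ℕ} (h : Sh d D f) :
    Shellable (d + 1) D := by
  let e := D.equivFin.symm
  let g : Fin D.card → ℕ := fun i => f (e i)
  have gi : Function.Injective g := fun i j hij =>
    e.injective (Subtype.ext (h.1 (e i).2 (e j).2 hij))
  let s := Tuple.sort g
  have sm : StrictMono (g ∘ s) := (Tuple.monotone_sort g).strictMono_of_injective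
    (gi.comp s.injective)
  refine ⟨D.card, fun j => (e (s j)).1, fun i j hij =>
    s.injective (e.injective (Subtype.ext hij)), fun A => ⟨fun hA =>
      ⟨s.symm (e.symm ⟨A, hA⟩), by simp⟩, by rintro ⟨j, rfl⟩; exact (e _).2⟩, ?_⟩
  rintro j - t ⟨⟨h1, i, hij, h2⟩, hmax⟩
  obtain ⟨K, hK, k1, k2, k3⟩ := h.2 _ (e (s j)).2 _ (e (s i)).2 (sm hij)
  have hts : t ⊆ K ∩ (e (s j)).1 := subset_inter ((subset_inter h2 h1).trans k2) h1
  have := hmax (y := K ∩ (e (s j)).1) ⟨inter_subset_right, s.symm (e.symm ⟨K, hK⟩),
    sm.lt_iff_lt.1 (by simpa [g] using k1), by simp⟩ hts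
  rw [Subset.antisymm hts this, k3]; rfl

open Classical in
theorem main (d : ℕ) : Tendsto (fun m : ℕ =>
    (((powersetCard (d + 1) (univ : Finset (Fin m))).powerset.filter
      (Shellable (d + 1))).card : ℝ) / 2 ^ (m.choose (d + 1))) atTop (𝓝 1) := by
  have hU : ∀ m, m.choose (d + 1) = (powersetCard (d + 1) (univ : Finset (Fin m))).card :=
    fun m => by simp
  simp only [hU]
  refine tendsto_good (fun m => powersetCard (d + 1) (univ : Finset (Fin m)))
    (fun m => powersetCard (d + 1) (univ : Finset (Fin m)))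
    (fun m S A => ∀ z ∈ univ \ S, ¬ ((powersetCard d S).image (insert z) ⊆ A ∧
      Disjoint (∅ : Finset (Finset (Fin m))) A)) (fun m => Shellable (d + 1)) (d + 1) (d + 1)
      (d + 1) (d + 1) (fun m => ?_) (fun m S hS => ?_) (fun m hm A hA h => ?_)
  · rw [← hU]; exact Nat.choose_le_pow _ _
  · have hc := (mem_powersetCard.1 hS).2
    refine (avoid_le _ (d + 1) (fun z => (powersetCard d S).image (insert z)) (fun _ => ∅)
      (univ \ S) _ _ (fun A h => h) ?_ (fun _ _ => disjoint_empty_right _) ?_ ?_).trans ?_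
    · intro z hz F hF
      obtain ⟨T, hT, rfl⟩ := mem_image.1 hF
      obtain ⟨t1, t2⟩ := mem_powersetCard.1 hT
      exact mem_powersetCard.2 ⟨subset_univ _, by
        rw [card_insert_of_notMem (fun e => (Finset.mem_sdiff.1 hz).2 (t1 e)), t2]⟩
    · intro z _
      rw [union_empty]
      exact card_image_le.trans (by rw [card_powersetCard, hc, Nat.choose_succ_self_right])
    · intro y hy z _ hyz
      rw [union_empty, union_empty]
      refine disjoint_left.2 fun F h1 h2 => ?_
      obtain ⟨T, _, rfl⟩ := mem_image.1 h1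
      obtain ⟨T', hT', e⟩ := mem_image.1 h2
      have : y ∈ insert z T' := e ▸ mem_insert_self _ _
      exact (Finset.mem_sdiff.1 hy).2 ((mem_powersetCard.1 hT').1
        ((mem_insert.1 this).resolve_left hyz))
    · rw [card_univ_sdiff, hc, Fintype.card_fin]
  · obtain ⟨f, hf⟩ := sh d univ A (fun F hF => mem_powersetCard.1 (hA hF)) (by
      intro S _ hS
      obtain ⟨S', h1, h2⟩ := exists_superset_card_eq hS (by simpa using hm)
      have := h S' (mem_powersetCard.2 ⟨subset_univ _, h2⟩)
      push Not at this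
      obtain ⟨z, hz, h3, -⟩ := this
      exact ⟨z, mem_univ _, fun e => (Finset.mem_sdiff.1 hz).2 (h1 e), fun T hT hT' =>
        h3 (mem_image_of_mem _ (mem_powersetCard.2 ⟨hT.trans h1, hT'⟩))⟩)
    exact shellable_of hf

end Pool.Agent.H32.RandShell
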