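import Mathlib

set_option autoImplicit false

namespace Pool.Agent.H32.Rbm

open Finset

lemma cone (a b c d t e0 e1 e2 e3 e4 e5 e6 e7 : ℝ) (h1 : b ≤ a) (h2 : c ≤ b) (h3 : d ≤ c)
    (h4 : 0 ≤ d) (f0 : e0 = max (a + b + c + d) t) (f1 : e1 = max (a + b + c - d) t)
    (f2 : e2 = max (a + b - c + d) t) (f3 : e3 = max (a + b - c - d) t)
    (f4 : e4 = max (a - b + c + d) t) (f5 : e5 = max (a - b + c - d) t)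
    (f6 : e6 = max |a - b - c + d| t) (f7 : e7 = max |a - b - c - d| t) :
    (0 ≤ e3 - e5 ∧ 0 ≤ e5 - e6 ∧ 0 ≤ e4 - e5 + e6 - e7 ∧ 0 ≤ e1 - e2 - e5 + e6 ∧
      0 ≤ e2 - e3 - e4 + e5 ∧ 0 ≤ e0 - e1 - e2 + e3 ∧ 0 ≤ e4 - e5 - e6 + e7) ∧
    ((e1 - e2 - e5 + e6 ≤ 0 ∧ e2 - e3 - e4 + e5 ≤ 0 ∧ e0 - e1 - e2 + e3 ≤ 0) ∨
      (e6 ≤ e7 ∧ ((e2 - e3 - e4 + e5 ≤ 0 ∧ e0 - e1 - e2 + e3 ≤ 0) ∨
        (e5 - e6 ≤ 0 ∧ e0 - e1 - e2 + e3 ≤ 0) ∨ (e3 - e5 ≤ 0 ∧ e5 - e6 ≤ 0)))) := by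
  have m : ∀ {x e : ℝ}, e = max x t → (e = x ∧ t ≤ x) ∨ (e = t ∧ x < t) := fun h => by
    rcases le_or_gt t _ with q | q
    exacts [.inl ⟨h.trans (max_eq_left q), q⟩, .inr ⟨h.trans (max_eq_right q.le), q⟩]
  rcases abs_cases (a - b - c + d) with ⟨k6, k6'⟩ | ⟨k6, k6'⟩ <;>
  rcases abs_cases (a - b - c - d) with ⟨k7, k7'⟩ | ⟨k7, k7'⟩ <;> (try (exfalso; linarith)) <;>
  rw [k6] at f6 <;> rw [k7] at f7 <;> clear k6 k7 <;>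
  rcases m f0 with ⟨f0, g0⟩ | ⟨f0, g0⟩ <;> (try (exfalso; linarith)) <;>
  rcases m f1 with ⟨f1, g1⟩ | ⟨f1, g1⟩ <;> (try (exfalso; linarith)) <;>
  rcases m f2 with ⟨f2, g2⟩ | ⟨f2, g2⟩ <;> (try (exfalso; linarith)) <;>
  rcases m f3 with ⟨f3, g3⟩ | ⟨f3, g3⟩ <;> (try (exfalso; linarith)) <;>
  rcases m f4 with ⟨f4, g4⟩ | ⟨f4, g4⟩ <;> (try (exfalso; linarith)) <;>
  rcases m f5 with ⟨f5, g5⟩ | ⟨f5, g5⟩ <;> (try (exfalso; linarith)) <;>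
  rcases m f6 with ⟨f6, g6⟩ | ⟨f6, g6⟩ <;> (try (exfalso; linarith)) <;>
  rcases m f7 with ⟨f7, g7⟩ | ⟨f7, g7⟩ <;> (try (exfalso; linarith)) <;>
  refine ⟨⟨by linarith, by linarith, by linarith, by linarith, by linarith, by linarith,
    by linarith⟩, ?_⟩ <;>
  first
    | exact .inl ⟨by linarith, by linarith, by linarith⟩
    | exact .inr ⟨by linarith, .inl ⟨by linarith, by linarith⟩⟩
    | exact .inr ⟨by linarith, .inr (.inl ⟨by linarith, by linarith⟩)⟩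
    | exact .inr ⟨by linarith, .inr (.inr ⟨by linarith, by linarith⟩)⟩

end Pool.Agent.H32.Rbm
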