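import Mathlib

set_option autoImplicit false

namespace Pool.Agent.H32.Rbm

def test (k x01 x02 x03 x12 x13 x23 r : ℕ) : Bool :=
  Nat.ble (r + 11) (x01 + x02 + x03 + x12 + x13 + x23) &&
  cond (Nat.beq k 0) (Nat.ble 2 x01 && Nat.ble 4 (x01 + x02) && Nat.ble 6 (x01 + x02 + x03))
  (Nat.ble 6 (x01 + x02 + x12) && Nat.ble (r + 23) (3 * (x01 + x02 + x03) + x12 + x13 + x23) &&
    cond (Nat.beq k 1) (Nat.ble 2 x01 && Nat.ble 4 (x01 + x02))
    (Nat.ble 12 (2 * x01 + x02 + x03 + x12 + x13) &&
      cond (Nat.beq k 2) (Nat.ble 2 x01) (Nat.ble 13 (x01 + x02 + x03 + x12 + x13 + x23 + r))))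

def dig (l a b : ℕ) : ℕ := l / 5 ^ (4 * a + b) % 5

def fl (s : Bool) (x : ℕ) : ℕ := cond s x (4 - x)

def xn (s t : Bool) : Bool := cond s t (!t)

abbrev Ty := (ℕ × ℕ × ℕ × ℕ) × (Bool × Bool × Bool) × ℕ

def tst (r : Bool) : Ty → ℕ → Bool
  | ((a, b, c, d), (t, u, v), k), l =>
    test k (fl t (dig l a b)) (fl u (dig l a c)) (fl v (dig l a d)) (fl (xn t u) (dig l b c))
      (fl (xn t v) (dig l b d)) (fl (xn u v) (dig l c d)) (cond (xn r (xn t (xn u v))) 2 0)

def perms : List (ℕ × ℕ × ℕ × ℕ) := [(0, 1, 2, 3), (0, 1, 3, 2), (0, 2, 1, 3), (0, 2, 3, 1), (0, 3, 1, 2), (0, 3, 2, 1),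
    (1, 0, 2, 3), (1, 0, 3, 2), (1, 2, 0, 3), (1, 2, 3, 0), (1, 3, 0, 2), (1, 3, 2, 0),
    (2, 0, 1, 3), (2, 0, 3, 1), (2, 1, 0, 3), (2, 1, 3, 0), (2, 3, 0, 1), (2, 3, 1, 0),
    (3, 0, 1, 2), (3, 0, 2, 1), (3, 1, 0, 2), (3, 1, 2, 0), (3, 2, 0, 1), (3, 2, 1, 0)]

def tys : List Ty := perms.flatMap fun p =>
  [true, false].flatMap fun t => [true, false].flatMap fun u => [true, false].flatMap fun v =>
    [(p, (t, u, v), 0), (p, (t, u, v), 1), (p, (t, u, v), 2), (p, (t, u, v), 3)]

def mk (p : ℕ → Bool) : List ℕ → ℕ
  | [] => 0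
  | l :: L => Nat.bit (p l) (mk p L)

def dd : List ℕ → List ℕ → List ℕ
  | [], acc => acc
  | x :: xs, acc => cond (acc.any (Nat.beq x)) (dd xs acc) (dd xs (x :: acc))

def prs : List ℕ → Bool
  | [] => true
  | x :: xs => (x :: xs).all (fun y => Nat.ble 1 (x &&& y)) && prs xs

def chk (r : Bool) (k : ℕ) (L : List ℕ) : Bool :=
  (L.all fun l => ([0, 1, 2, 3].all fun a => Nat.beq (dig l a a) 2 &&
    [0, 1, 2, 3].all fun b => Nat.beq (dig l a b) (dig l b a)) &&
    tst r ((0, 1, 2, 3), (true, true, true), k) l) &&
  prs (dd (tys.map fun τ => mk (tst r τ) L) [])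

lemma cp0 : chk false 0
    [77514726562, 70141601562, 76291976562, 76295914062, 82446289062, 75073164062] = true := by
  decide +kernel

lemma cp1 : chk false 1
    [76292367842, 77270586442, 76295914062, 75073164062, 82446289062, 82202538962, 76538086062,
    70141601562, 76293945942, 77514726562, 76294335962] = true := by
  decide +kernel

lemma cp2 : chk false 2
    [76295914062, 76294335962, 77270586442, 75317305442, 82446289062, 76295524042, 76538086062,
    81227476562, 77514726562, 70141601562, 82202538962, 76292367842] = true := by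
  decide +kernel

lemma cp3 : chk false 3
    [76292367842, 77514726562, 75317305442, 70386132962, 82202538962, 76538086062, 77270586442,
    76296304082, 81227476562, 82446289062, 71364351562, 76295524042] = true := by
  decide +kernel

lemma cm0 : chk true 0
    [63992007862, 76294335962, 86401211062, 82446289062, 76295914062, 81227476562, 76538086062,
    76292367842, 76295524042, 70386132962, 71608882962, 63993585962, 66674961062, 77514726562,
    71364351562, 82202538962, 75317305442, 77270586442, 83665101562, 65698320562, 76537306022] = true := by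
  decide +kernel

lemma cm1 : chk true 1
    [82446289062, 90796054562, 76295914062, 83421351462, 76538086062, 86401211062, 66674961062,
    76294335962, 65698320562, 71608882962, 77514726562, 83420961442, 71364351562, 82443132862,
    70386132962, 76293945942, 81227476562, 75806055722, 63992007862, 77510790322, 73856320942,
    76537306022, 63993585962] = true := by
  decide +kernel

lemma cm2 : chk true 2
    [63993585962, 70386132962, 71364351562, 80493008062, 82446289062, 65698320562, 76294335962,
    90796054562, 76295524042, 75317305442, 66674961062, 76538086062, 71608882962, 81227476562,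
    63992007862, 77514726562, 83421351462, 81471226662, 76295914062, 82443132862, 83420961442,
    76292367842, 77270586442] = true := by
  decide +kernel

lemma cm3 : chk true 3
    [77514726562, 70386132962, 82446289062, 83421351462, 82202538962, 83420961442, 76295524042,
    76538086062, 90796054562, 81227476562, 80493008062, 81471226662, 76296304082, 76292367842,
    65698320562, 71608491682, 75317305442, 77270586442, 71364351562] = true := by
  decide +kernel

end Pool.Agent.H32.Rbm
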