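import Mathlib

set_option autoImplicit false

namespace Pool.Agent.H32.Rbm

/-- The value `0` or `1` of a binary unit. -/
def bit (x : Bool) : ℝ := if x then 1 else 0

/-- Unnormalised weight of the visible state `v`. -/
noncomputable def wt {n m : ℕ} (W : Fin n → Fin m → ℝ) (b : Fin n → ℝ) (c : Fin m → ℝ)
    (v : Fin n → Bool) : ℝ :=
  ∑ h : Fin m → Bool, Real.exp (∑ i, b i * bit (v i) + ∑ j, c j * bit (h j) +
    ∑ i, ∑ j, bit (v i) * W i j * bit (h j))

/-- The set of all distributions `p_{W,b,c}`. -/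
def RBM (n m : ℕ) : Set ((Fin n → Bool) → ℝ) :=
  {p | ∃ (W : Fin n → Fin m → ℝ) (b : Fin n → ℝ) (c : Fin m → ℝ),
    p = fun v => wt W b c v / ∑ u, wt W b c u}

end Pool.Agent.H32.Rbm
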