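import Pool.Agent.H32.RbmA
import Pool.Agent.H32.RbmB
import Pool.Agent.H32.RbmDefs

set_option autoImplicit false

namespace Pool.Agent.H32.Rbm

open Finset

noncomputable section

def sg (s : Bool) : ℝ := cond s 1 (-1)

lemma sg_xn (s t : Bool) : sg (xn s t) = sg s * sg t := by cases s <;> cases t <;> simp [sg, xn]

lemma sg_sq (s : Bool) : sg s * sg s = 1 := by cases s <;> simp [sg]

def E (w : Fin 4 → ℝ) (c : ℝ) (v : Fin 4 → Bool) : ℝ := max |∑ i, sg (v i) * w i| c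

def L (l : ℕ) (i k : Fin 4) : ℝ := dig l i k - 2

def mu (M : Fin 4 → Fin 4 → ℝ) (r : ℝ) (v : Fin 4 → Bool) : ℝ :=
  ∑ i, ∑ k, M i k * sg (v i) * sg (v k) + 2 * r * ∏ i, sg (v i)

lemma sum16 (f : (Fin 4 → Bool) → ℝ) : ∑ v, f v = ∑ a, ∑ b, ∑ c, ∑ d, f ![a, b, c, d] := by
  simp only [← Fintype.sum_prod_type']
  refine (Fintype.sum_bijective (fun p : Bool × Bool × Bool × Bool => ![p.1, p.2.1, p.2.2.1, p.2.2.2])
    (by decide +kernel) _ _ fun _ => rfl).symm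

lemma base (w : Fin 4 → ℝ) (c : ℝ) (h1 : w 1 ≤ w 0) (h2 : w 2 ≤ w 1) (h3 : w 3 ≤ w 2)
    (h4 : 0 ≤ w 3) : ∃ k < 4, ∀ (x01 x02 x03 x12 x13 x23 r : ℕ) (M : Fin 4 → Fin 4 → ℝ) (ρ : ℝ),
      test k x01 x02 x03 x12 x13 x23 r = true → (∀ i, M i i = 0) → (∀ i k, M i k = M k i) →
      M 0 1 = x01 - 2 → M 0 2 = x02 - 2 → M 0 3 = x03 - 2 → M 1 2 = x12 - 2 → M 1 3 = x13 - 2 →
      M 2 3 = x23 - 2 → ρ = r - 1 → 0 ≤ ∑ v, mu M ρ v * E w c v := by
  obtain ⟨⟨p1, p2, p3, p4, p5, p6, p7⟩, hc⟩ := cone (w 0) (w 1) (w 2) (w 3) c _ _ _ _ _ _ _ _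
    h1 h2 h3 h4 rfl rfl rfl rfl rfl rfl rfl rfl
  have ab : ∀ x y : ℝ, 0 ≤ y → x = y ∨ x = -y → |x| = y := fun x y h e => (abs_eq h).2 e
  have ab' : ∀ x y : ℝ, x = y ∨ x = -y → |x| = |y| := fun x y e => abs_eq_abs.2 e
  have e : ∀ (M : Fin 4 → Fin 4 → ℝ) (ρ : ℝ), (∀ i, M i i = 0) → (∀ i k, M i k = M k i) →
      ∑ v, mu M ρ v * E w c v = 4 * (
      M 0 1 * (4 * (max (w 0 + w 1 - w 2 - w 3) c - max (w 0 - w 1 + w 2 - w 3) c)) +
      (M 0 1 + M 0 2) * (4 * (max (w 0 - w 1 + w 2 - w 3) c - max |w 0 - w 1 - w 2 + w 3| c)) +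
      (M 0 1 + M 0 2 + M 0 3) * (2 * (max (w 0 - w 1 + w 2 + w 3) c -
        max (w 0 - w 1 + w 2 - w 3) c + max |w 0 - w 1 - w 2 + w 3| c -
        max |w 0 - w 1 - w 2 - w 3| c)) +
      (M 0 1 + M 0 2 + M 1 2) * (2 * (max (w 0 + w 1 + w 2 - w 3) c -
        max (w 0 + w 1 - w 2 + w 3) c - max (w 0 - w 1 + w 2 - w 3) c +
        max |w 0 - w 1 - w 2 + w 3| c)) +
      (2 * M 0 1 + M 0 2 + M 0 3 + M 1 2 + M 1 3) * (2 * (max (w 0 + w 1 - w 2 + w 3) c -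
        max (w 0 + w 1 - w 2 - w 3) c - max (w 0 - w 1 + w 2 + w 3) c +
        max (w 0 - w 1 + w 2 - w 3) c)) +
      (M 0 1 + M 0 2 + M 0 3 + M 1 2 + M 1 3 + M 2 3 + ρ) * (max (w 0 + w 1 + w 2 + w 3) c -
        max (w 0 + w 1 + w 2 - w 3) c - max (w 0 + w 1 - w 2 + w 3) c +
        max (w 0 + w 1 - w 2 - w 3) c) +
      (M 0 1 + M 0 2 + M 0 3 + M 1 2 + M 1 3 + M 2 3 - ρ) * (max (w 0 - w 1 + w 2 + w 3) c -
        max (w 0 - w 1 + w 2 - w 3) c - max |w 0 - w 1 - w 2 + w 3| c +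
        max |w 0 - w 1 - w 2 - w 3| c)) := fun M ρ a b => by
    simp only [sum16, Fintype.sum_bool, mu, E, Fin.sum_univ_four, Fin.prod_univ_four,
      Matrix.cons_val, sg, cond_true, cond_false, a, b 1 0, b 2 0, b 3 0, b 2 1, b 3 1, b 3 2]
    rw [ab _ (w 0 + w 1 + w 2 + w 3) (by linarith) (.inl (by ring)),
      ab _ (w 0 + w 1 + w 2 - w 3) (by linarith) (.inl (by ring)),
      ab _ (w 0 + w 1 - w 2 + w 3) (by linarith) (.inl (by ring)),
      ab _ (w 0 + w 1 - w 2 - w 3) (by linarith) (.inl (by ring)),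
      ab _ (w 0 - w 1 + w 2 + w 3) (by linarith) (.inl (by ring)),
      ab _ (w 0 - w 1 + w 2 - w 3) (by linarith) (.inl (by ring)),
      ab' (1 * w 0 + -1 * w 1 + -1 * w 2 + 1 * w 3) (w 0 - w 1 - w 2 + w 3) (.inl (by ring)),
      ab' (1 * w 0 + -1 * w 1 + -1 * w 2 + -1 * w 3) (w 0 - w 1 - w 2 - w 3) (.inl (by ring)),
      ab' (-1 * w 0 + 1 * w 1 + 1 * w 2 + 1 * w 3) (w 0 - w 1 - w 2 - w 3) (.inr (by ring)),
      ab' (-1 * w 0 + 1 * w 1 + 1 * w 2 + -1 * w 3) (w 0 - w 1 - w 2 + w 3) (.inr (by ring)),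
      ab (-1 * w 0 + 1 * w 1 + -1 * w 2 + 1 * w 3) (w 0 - w 1 + w 2 - w 3) (by linarith)
        (.inr (by ring)),
      ab (-1 * w 0 + 1 * w 1 + -1 * w 2 + -1 * w 3) (w 0 - w 1 + w 2 + w 3) (by linarith)
        (.inr (by ring)),
      ab (-1 * w 0 + -1 * w 1 + 1 * w 2 + 1 * w 3) (w 0 + w 1 - w 2 - w 3) (by linarith)
        (.inr (by ring)),
      ab (-1 * w 0 + -1 * w 1 + 1 * w 2 + -1 * w 3) (w 0 + w 1 - w 2 + w 3) (by linarith)
        (.inr (by ring)),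
      ab (-1 * w 0 + -1 * w 1 + -1 * w 2 + 1 * w 3) (w 0 + w 1 + w 2 - w 3) (by linarith)
        (.inr (by ring)),
      ab (-1 * w 0 + -1 * w 1 + -1 * w 2 + -1 * w 3) (w 0 + w 1 + w 2 + w 3) (by linarith)
        (.inr (by ring))]
    ring
  generalize max (w 0 + w 1 + w 2 + w 3) c = e0, max (w 0 + w 1 + w 2 - w 3) c = e1,
    max (w 0 + w 1 - w 2 + w 3) c = e2, max (w 0 + w 1 - w 2 - w 3) c = e3,
    max (w 0 - w 1 + w 2 + w 3) c = e4, max (w 0 - w 1 + w 2 - w 3) c = e5,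
    max |w 0 - w 1 - w 2 + w 3| c = e6, max |w 0 - w 1 - w 2 - w 3| c = e7 at *
  have rl : ∀ {a b : ℕ}, a ≤ b → (a : ℝ) ≤ b := fun h => Nat.cast_le.2 h
  rcases hc with ⟨q1, q2, q3⟩ | ⟨q0, ⟨q1, q2⟩ | ⟨q1, q2⟩ | ⟨q1, q2⟩⟩
  · refine ⟨0, by omega, fun x01 x02 x03 x12 x13 x23 r M ρ t a b m1 m2 m3 m4 m5 m6 m7 => ?_⟩
    simp only [test, Nat.beq_refl, cond_true, Bool.and_eq_true, Nat.ble_eq] at t
    obtain ⟨t1, ⟨t2, t3⟩, t4⟩ := t
    have t1 := rl t1; have t2 := rl t2; have t3 := rl t3; have t4 := rl t4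
    push_cast at t1 t2 t3 t4
    rw [e M ρ a b, le_antisymm q1 p4, le_antisymm q2 p5, le_antisymm q3 p6, m1, m2, m3, m4, m5,
      m6, m7]
    nlinarith [mul_nonneg (sub_nonneg.2 t1) p7, mul_nonneg (sub_nonneg.2 t2) p1,
      mul_nonneg (sub_nonneg.2 t3) p2, mul_nonneg (sub_nonneg.2 t4) p3]
  · refine ⟨1, by omega, fun x01 x02 x03 x12 x13 x23 r M ρ t a b m1 m2 m3 m4 m5 m6 m7 => ?_⟩
    simp only [test, Nat.beq, cond_true, cond_false, Bool.and_eq_true, Nat.ble_eq] at t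
    obtain ⟨t1, ⟨t2, t3⟩, t4, t5⟩ := t
    have t1 := rl t1; have t2 := rl t2; have t3 := rl t3; have t4 := rl t4; have t5 := rl t5
    push_cast at t1 t2 t3 t4 t5
    rw [e M ρ a b, le_antisymm q1 p5, le_antisymm q2 p6, m1, m2, m3, m4, m5, m6, m7]
    nlinarith [mul_nonneg (sub_nonneg.2 t1) (sub_nonneg.2 q0), mul_nonneg (sub_nonneg.2 t2) p4,
      mul_nonneg (sub_nonneg.2 t3) p3, mul_nonneg (sub_nonneg.2 t4) p1,
      mul_nonneg (sub_nonneg.2 t5) p2]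
  · refine ⟨2, by omega, fun x01 x02 x03 x12 x13 x23 r M ρ t a b m1 m2 m3 m4 m5 m6 m7 => ?_⟩
    simp only [test, Nat.beq, cond_true, cond_false, Bool.and_eq_true, Nat.ble_eq] at t
    obtain ⟨t1, ⟨t2, t3⟩, t4, t5⟩ := t
    have t1 := rl t1; have t2 := rl t2; have t3 := rl t3; have t4 := rl t4; have t5 := rl t5
    push_cast at t1 t2 t3 t4 t5
    rw [e M ρ a b, le_antisymm q1 p2, le_antisymm q2 p6, m1, m2, m3, m4, m5, m6, m7]
    nlinarith [mul_nonneg (sub_nonneg.2 t1) (sub_nonneg.2 q0), mul_nonneg (sub_nonneg.2 t2) p4,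
      mul_nonneg (sub_nonneg.2 t3) p3, mul_nonneg (sub_nonneg.2 t4) p5,
      mul_nonneg (sub_nonneg.2 t5) p1]
  · refine ⟨3, by omega, fun x01 x02 x03 x12 x13 x23 r M ρ t a b m1 m2 m3 m4 m5 m6 m7 => ?_⟩
    simp only [test, Nat.beq, cond_true, cond_false, Bool.and_eq_true, Nat.ble_eq] at t
    obtain ⟨t1, ⟨t2, t3⟩, t4, t5⟩ := t
    have t1 := rl t1; have t2 := rl t2; have t3 := rl t3; have t4 := rl t4; have t5 := rl t5
    push_cast at t1 t2 t3 t4 t5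
    rw [e M ρ a b, le_antisymm q1 p1, le_antisymm q2 p2, m1, m2, m3, m4, m5, m6, m7]
    nlinarith [mul_nonneg (sub_nonneg.2 t1) (sub_nonneg.2 q0), mul_nonneg (sub_nonneg.2 t2) p4,
      mul_nonneg (sub_nonneg.2 t3) p3, mul_nonneg (sub_nonneg.2 t4) p5,
      mul_nonneg (sub_nonneg.2 t5) p6]

def ee (σ : Equiv.Perm (Fin 4)) (s : Fin 4 → Bool) : (Fin 4 → Bool) ≃ (Fin 4 → Bool) where
  toFun u := fun k => xn (s (σ.symm k)) (u (σ.symm k))
  invFun v := fun i => xn (s i) (v (σ i))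
  left_inv u := by ext i; simp only [Equiv.symm_apply_apply]; cases s i <;> cases u i <;> rfl
  right_inv v := by
    ext i; simp only [Equiv.apply_symm_apply]; cases s (σ.symm i) <;> cases v i <;> rfl

lemma ee_sg (σ : Equiv.Perm (Fin 4)) (s u : Fin 4 → Bool) (i : Fin 4) :
    sg (ee σ s u (σ i)) = sg (s i) * sg (u i) := by simp [ee, sg_xn]

lemma E_ee (σ : Equiv.Perm (Fin 4)) (s u : Fin 4 → Bool) (w : Fin 4 → ℝ) (c : ℝ) :
    E w c (ee σ s u) = E (fun i => sg (s i) * w (σ i)) c u := by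
  unfold E
  rw [← Equiv.sum_comp σ]
  simp only [ee_sg]
  congr 2
  exact sum_congr rfl fun i _ => by ring

lemma chi_ee (σ : Equiv.Perm (Fin 4)) (s u : Fin 4 → Bool) :
    ∏ i, sg (ee σ s u i) = (∏ i, sg (s i)) * ∏ i, sg (u i) := by
  rw [← Equiv.prod_comp σ]; simp only [ee_sg, prod_mul_distrib]

lemma srt (w : Fin 4 → ℝ) : ∃ (σ : Equiv.Perm (Fin 4)) (s : Fin 4 → Bool) (α : Fin 4 → ℝ),
    (∀ i, α i = sg (s i) * w (σ i)) ∧ α 1 ≤ α 0 ∧ α 2 ≤ α 1 ∧ α 3 ≤ α 2 ∧ 0 ≤ α 3 := by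
  have m := Tuple.monotone_sort fun i => -|w i|
  generalize Tuple.sort (fun i => -|w i|) = σ at m
  refine ⟨σ, fun i => decide (0 ≤ w (σ i)), fun i => |w (σ i)|, fun i => ?_,
    neg_le_neg_iff.1 (m (show (0 : Fin 4) ≤ 1 by decide)),
    neg_le_neg_iff.1 (m (show (1 : Fin 4) ≤ 2 by decide)),
    neg_le_neg_iff.1 (m (show (2 : Fin 4) ≤ 3 by decide)), abs_nonneg _⟩
  by_cases c : 0 ≤ w (σ i)
  · simp [c, sg, abs_of_nonneg c]
  · simp [c, sg, abs_of_neg (not_le.1 c)]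

def Sym (l : ℕ) : Prop := (∀ i, L l i i = 0) ∧ ∀ i k, L l i k = L l k i

lemma fl_eq (s : Bool) (l : ℕ) (i k : Fin 4) : sg s * L l i k = fl s (dig l i k) - 2 := by
  have : dig l i k ≤ 4 := Nat.le_of_lt_succ (Nat.mod_lt _ (by omega))
  cases s <;> simp [sg, L, fl, Nat.cast_sub this]
  ring

lemma typ (w : Fin 4 → ℝ) (c : ℝ) : ∃ τ ∈ tys, ∀ r l, Sym l → tst r τ l = true →
    0 ≤ ∑ v, mu (L l) (sg r) v * E w c v := by
  obtain ⟨σ, s, α, h0, h1, h2, h3, h4⟩ := srt w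
  obtain ⟨k, hk, h⟩ := base α c h1 h2 h3 h4
  refine ⟨((σ 0, σ 1, σ 2, σ 3), (xn (s 0) (s 1), xn (s 0) (s 2), xn (s 0) (s 3)), k), ?_,
    fun r l hl t => ?_⟩
  · have : ((σ 0).val, (σ 1).val, (σ 2).val, (σ 3).val) ∈ perms := by
      clear h0; revert σ; decide +kernel
    simp only [tys, List.mem_flatMap]
    refine ⟨_, this, xn (s 0) (s 1), by cases xn (s 0) (s 1) <;> simp, xn (s 0) (s 2),
      by cases xn (s 0) (s 2) <;> simp, xn (s 0) (s 3), by cases xn (s 0) (s 3) <;> simp, ?_⟩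
    interval_cases k <;> simp
  rw [← (ee σ s).sum_comp]
  have := h _ _ _ _ _ _ _ (fun i k => sg (s i) * sg (s k) * L l (σ i) (σ k))
    (sg r * ∏ i, sg (s i)) t (fun i => by simp [hl.1]) (fun i k => by rw [hl.2]; ring)
    (by rw [← fl_eq, sg_xn]) (by rw [← fl_eq, sg_xn]) (by rw [← fl_eq, sg_xn])
    (by rw [← fl_eq]; cases s 0 <;> cases s 1 <;> cases s 2 <;> simp [sg, xn])
    (by rw [← fl_eq]; cases s 0 <;> cases s 1 <;> cases s 3 <;> simp [sg, xn])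
    (by rw [← fl_eq]; cases s 0 <;> cases s 2 <;> cases s 3 <;> simp [sg, xn])
    (by rw [Fin.prod_univ_four]; cases r <;> cases s 0 <;> cases s 1 <;> cases s 2 <;>
      cases s 3 <;> norm_num [sg, xn])
  refine this.trans_eq (sum_congr rfl fun u _ => ?_)
  rw [E_ee, ← funext h0, mu, mu, chi_ee, ← Equiv.sum_comp σ (fun i => ∑ k, L l i k * _ * _)]
  congr 2
  · refine sum_congr rfl fun i _ => ?_
    rw [← Equiv.sum_comp σ (fun k => L l (σ i) k * _ * _)]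
    exact sum_congr rfl fun k _ => by simp only [ee_sg]; ring
  · ring

lemma mk_and (p q : ℕ → Bool) (l : List ℕ) (h : 1 ≤ mk p l &&& mk q l) :
    ∃ x ∈ l, p x = true ∧ q x = true := by
  induction l with
  | nil => simp [mk] at h
  | cons x l ih =>
    rw [mk, mk, Nat.land_bit] at h
    by_cases c : p x = true ∧ q x = true
    · exact ⟨x, by simp, c⟩
    · obtain ⟨y, hy, e⟩ := ih (by
        rw [show (p x && q x) = false by simpa using c, Nat.bit_false] at h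
        simp only at h; omega)
      exact ⟨y, by simp [hy], e⟩

lemma mem_dd (l acc : List ℕ) (x : ℕ) (h : x ∈ l ∨ x ∈ acc) : x ∈ dd l acc := by
  induction l generalizing acc with
  | nil => simpa [dd] using h
  | cons y l ih =>
    rw [dd]
    cases c : acc.any (Nat.beq y)
    · exact ih _ (by simp only [List.mem_cons] at h ⊢; tauto)
    · obtain ⟨z, hz, e⟩ := List.any_eq_true.1 c
      obtain rfl := Nat.eq_of_beq_eq_true e
      refine ih _ ?_
      rcases h with h | h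
      · rcases List.mem_cons.1 h with rfl | h
        exacts [.inr hz, .inl h]
      · exact .inr h

lemma prs_ok (l : List ℕ) (h : prs l = true) : ∀ x ∈ l, ∀ y ∈ l, 1 ≤ x &&& y := by
  induction l with
  | nil => simp
  | cons z l ih =>
    simp only [prs, Bool.and_eq_true, List.all_eq_true, Nat.ble_eq] at h
    intro x hx y hy
    rcases List.mem_cons.1 hx with rfl | hx'
    · exact h.1 y hy
    rcases List.mem_cons.1 hy with rfl | hy'
    · rw [Nat.land_comm]; exact h.1 x hx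
    · exact ih h.2 x hx' y hy'

lemma chk_ok (r : Bool) (k : ℕ) (hk : k < 4) (τ τ' : Ty) (h : τ ∈ tys) (h' : τ' ∈ tys) :
    ∃ l, Sym l ∧ tst r ((0, 1, 2, 3), (true, true, true), k) l = true ∧ tst r τ l = true ∧
      tst r τ' l = true := by
  obtain ⟨P, hP⟩ : ∃ P, chk r k P = true := by
    cases r <;> interval_cases k
    exacts [⟨_, cp0⟩, ⟨_, cp1⟩, ⟨_, cp2⟩, ⟨_, cp3⟩, ⟨_, cm0⟩, ⟨_, cm1⟩, ⟨_, cm2⟩, ⟨_, cm3⟩]
  simp only [chk, Bool.and_eq_true, List.all_eq_true, Nat.beq_eq] at hP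
  obtain ⟨l, hl, a, b⟩ := mk_and _ _ P (prs_ok _ hP.2 _ (mem_dd _ _ _ (.inl (List.mem_map_of_mem h)))
    _ (mem_dd _ _ _ (.inl (List.mem_map_of_mem h'))))
  have m : ∀ i : Fin 4, i.val ∈ [0, 1, 2, 3] := by decide
  obtain ⟨c, d⟩ := hP.1 l hl
  exact ⟨l, ⟨fun i => by simp [L, (c _ (m i)).1], fun i k => by rw [L, L, (c _ (m i)).2 _ (m k)]⟩,
    d, a, b⟩

lemma main (w : Fin 3 → Fin 4 → ℝ) (c : Fin 3 → ℝ) (K : ℝ)
    (h : ∀ v, |∑ j, E (w j) (c j) v - K - 200 * ∏ i, sg (v i)| ≤ 8) : False := by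
  obtain ⟨σ, s, α, h0, h1, h2, h3, h4⟩ := srt (w 0)
  obtain ⟨k, hk, b0⟩ := base α (c 0) h1 h2 h3 h4
  obtain ⟨τ, t1, b1⟩ := typ (fun i => sg (s i) * w 1 (σ i)) (c 1)
  obtain ⟨τ', t2, b2⟩ := typ (fun i => sg (s i) * w 2 (σ i)) (c 2)
  obtain ⟨r, hr⟩ : ∃ r, ∏ i, sg (s i) = -sg r := by
    refine ⟨!xn (s 0) (xn (s 1) (xn (s 2) (s 3))), ?_⟩
    rw [Fin.prod_univ_four]
    cases s 0 <;> cases s 1 <;> cases s 2 <;> cases s 3 <;> norm_num [sg, xn]
  obtain ⟨l, hl, a0, a1, a2⟩ := chk_ok r k hk τ τ' t1 t2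
  have b0 := b0 _ _ _ _ _ _ _ (L l) (sg r) a0 hl.1 hl.2 rfl rfl rfl rfl rfl rfl
    (by cases r <;> norm_num [sg, xn])
  have b1 := b1 r l hl a1
  have b2 := b2 r l hl a2
  have bd : ∀ v, |mu (L l) (sg r) v| ≤ 34 := fun v => by
    have s1 : ∀ x, |sg x| = 1 := fun x => by cases x <;> simp [sg]
    have s2 : ∀ i k, |L l i k| ≤ 2 := fun i k => by
      have : (dig l i k : ℝ) ≤ 4 := by
        exact_mod_cast Nat.le_of_lt_succ (Nat.mod_lt _ (by omega))
      have : (0 : ℝ) ≤ dig l i k := Nat.cast_nonneg _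
      rw [L, abs_le]; constructor <;> linarith
    refine (abs_add_le _ _).trans ?_
    have := (abs_sum_le_sum_abs _ _).trans (sum_le_sum (s := univ) (g := fun _ => ∑ _k : Fin 4, 2)
      (f := fun i => |∑ k, L l i k * sg (v i) * sg (v k)|) fun i _ =>
        (abs_sum_le_sum_abs _ _).trans (sum_le_sum fun k _ => by
          simpa [abs_mul, s1] using s2 i k))
    simp only [abs_mul, abs_prod, s1, prod_const_one, abs_two]
    norm_num at this ⊢
    linarith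
  have e : ∑ v, mu (L l) (sg r) v * (K + 200 * (-sg r * ∏ i, sg (v i))) = -6400 := by
    have := sg_sq r
    generalize sg r = ρ at *
    simp only [sum16, Fintype.sum_bool, mu, Fin.sum_univ_four, Fin.prod_univ_four,
      Matrix.cons_val, sg, cond_true, cond_false, hl.1]
    linear_combination -6400 * this
  have := sum_le_sum (s := univ) (g := fun _ => (34 * 8 : ℝ)) (f := fun v => mu (L l) (sg r) v *
      (∑ j, E (w j) (c j) (ee σ s v) - K - 200 * ∏ i, sg (ee σ s v i))) fun v _ =>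
    (le_abs_self _).trans ((abs_mul _ _).trans_le (mul_le_mul (bd v) (h _) (abs_nonneg _)
      (by norm_num)))
  simp only [Fin.sum_univ_three, E_ee, chi_ee, hr, ← funext h0, sub_sub, mul_sub, mul_add,
    sum_sub_distrib, sum_add_distrib] at this e
  norm_num at this e
  linarith

theorem not_univ : ∃ p ∈ stdSimplex ℝ (Fin 4 → Bool), (∀ v, 0 < p v) ∧ p ∉ closure (RBM 4 3) := by
  obtain ⟨Z, hZ⟩ : ∃ Z, Z = ∑ v : Fin 4 → Bool, Real.exp (100 * ∏ i, sg (v i)) := ⟨_, rfl⟩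
  have Z0 : 0 < Z := hZ ▸ sum_pos (fun _ _ => Real.exp_pos _) univ_nonempty
  refine ⟨fun v => Real.exp (100 * ∏ i, sg (v i)) / Z, ⟨fun v => by positivity, by
    rw [← sum_div, ← hZ, div_self Z0.ne']⟩, fun v => by positivity, fun h => ?_⟩
  obtain ⟨_, hq, W, b, c, rfl⟩ := mem_closure_iff.1 h (⋂ v : Fin 4 → Bool, (fun q => q v) ⁻¹'
    Set.Ioo (Real.exp (100 * ∏ i, sg (v i) - 1) / Z) (Real.exp (100 * ∏ i, sg (v i) + 1) / Z))
    (isOpen_iInter_of_finite fun v => isOpen_Ioo.preimage (continuous_apply v))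
    (Set.mem_iInter.2 fun v => ⟨by simp only; gcongr; linarith, by simp only; gcongr; linarith⟩)
  have pr : ∀ v, wt W b c v = Real.exp (∑ i, b i * bit (v i)) *
      ∏ j, (1 + Real.exp (c j + ∑ i, bit (v i) * W i j)) := fun v => by
    have := prod_univ_sum (fun _ : Fin 3 => (univ : Finset Bool))
      fun j x => Real.exp ((c j + ∑ i, bit (v i) * W i j) * bit x)
    simp only [Fintype.sum_bool, Fintype.piFinset_univ] at this
    simp only [bit, if_true, mul_one, Bool.false_eq_true, if_false, mul_zero, Real.exp_zero,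
      add_comm _ (1 : ℝ)] at this
    rw [wt]
    simp only [bit]
    rw [this, mul_sum]
    refine sum_congr rfl fun u _ => ?_
    rw [← Real.exp_sum, ← Real.exp_add, add_assoc, sum_comm, ← sum_add_distrib]
    simp only [add_mul, sum_mul]
  have sp : ∀ a : ℝ, Real.exp (max a 0) ≤ 1 + Real.exp a ∧
      1 + Real.exp a ≤ Real.exp (max a 0 + 1) := fun a => by
    have h1 := Real.exp_pos a
    have h2 := Real.add_one_le_exp 1
    rw [Real.exp_add]
    rcases le_total a 0 with q | q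
    · have := Real.exp_le_one_iff.2 q
      rw [max_eq_right q, Real.exp_zero]; constructor <;> linarith
    · have := Real.one_le_exp q
      rw [max_eq_left q]; constructor <;> nlinarith
  have bd : ∀ v, Real.exp (∑ i, b i * bit (v i) + ∑ j, max (c j + ∑ i, bit (v i) * W i j) 0) ≤
      wt W b c v ∧ wt W b c v ≤
      Real.exp (∑ i, b i * bit (v i) + ∑ j, (max (c j + ∑ i, bit (v i) * W i j) 0 + 1)) :=
    fun v => by
      rw [pr, Real.exp_add, Real.exp_add, Real.exp_sum univ fun j => max _ _,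
        Real.exp_sum univ fun j => max _ _ + 1]
      exact ⟨mul_le_mul_of_nonneg_left (prod_le_prod (fun _ _ => by positivity)
        fun j _ => (sp _).1) (by positivity), mul_le_mul_of_nonneg_left (prod_le_prod
          (fun _ _ => by positivity) fun j _ => (sp _).2) (by positivity)⟩
  obtain ⟨Y, hY⟩ : ∃ Y, Y = ∑ u, wt W b c u := ⟨_, rfl⟩
  have Y0 : 0 < Y := hY ▸ sum_pos (fun v _ => (Real.exp_pos _).trans_le (bd v).1) univ_nonempty
  have k : ∀ v : Fin 4 → Bool, |∑ i, b i * bit (v i) + ∑ j, max (c j + ∑ i, bit (v i) * W i j) 0 -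
      Real.log (Y / Z) - 100 * ∏ i, sg (v i)| ≤ 4 := fun v => by
    obtain ⟨a1, a2⟩ := Set.mem_iInter.1 hq v
    simp only [← hY] at a1 a2
    rw [lt_div_iff₀ Y0, div_mul_eq_mul_div, mul_div_assoc] at a1
    rw [div_lt_iff₀ Y0, div_mul_eq_mul_div, mul_div_assoc] at a2
    rw [← Real.exp_log (div_pos Y0 Z0), ← Real.exp_add] at a1 a2
    have a3 := Real.exp_lt_exp.1 (a1.trans_le (bd v).2)
    have a4 := Real.exp_lt_exp.1 ((bd v).1.trans_lt a2)
    rw [sum_add_distrib] at a3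
    norm_num at a3
    rw [abs_le]; constructor <;> linarith
  refine main (fun j i => W i j / 2) (fun j => |c j + ∑ i, W i j / 2|)
    (2 * Real.log (Y / Z) - ∑ i, b i - ∑ j, (c j + ∑ i, W i j / 2)) fun v => ?_
  have k1 := k v
  have k2 := k fun i => !v i
  have e1 : ∀ x, bit x = (1 + sg x) / 2 ∧ bit (!x) = (1 - sg x) / 2 ∧ sg (!x) = -sg x := fun x => by
    cases x <;> norm_num [bit, sg]
  have e2 : ∀ x y : ℝ, max (x + y) 0 + max (x - y) 0 = x + max |y| |x| := fun x y => by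
    rcases abs_cases x with h | h <;> rcases abs_cases y with h' | h' <;>
      simp only [max_def] <;> split_ifs <;> linarith
  have e3 : ∀ j, max (c j + ∑ i, bit (v i) * W i j) 0 + max (c j + ∑ i, bit (!v i) * W i j) 0 =
      c j + ∑ i, W i j / 2 + E (fun i => W i j / 2) |c j + ∑ i, W i j / 2| v := fun j => by
    rw [E, ← e2]
    simp only [(e1 _).1, (e1 _).2.2, Fin.sum_univ_four]
    congr 2 <;> ring
  have := e3 0; have := e3 1; have := e3 2
  simp only [(e1 _).2.2, Fin.prod_univ_four, Fin.sum_univ_three] at k1 k2 ⊢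
  have e4 : ∑ i, b i * bit (v i) + ∑ i, b i * bit (!v i) = ∑ i, b i := by
    simp only [(e1 _).1, (e1 _).2.2, Fin.sum_univ_four]; ring
  rw [abs_le] at k1 k2 ⊢
  constructor <;> linarith [k1.1, k1.2, k2.1, k2.2]

end

end Pool.Agent.H32.Rbm
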