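import Mathlib

set_option autoImplicit false

namespace Pool.Agent.H32.Rch

variable {S A B : Type} [Fintype S] [Fintype A] [Fintype B]

/-- One step of the reachability operator for a kernel `k`. -/
noncomputable def F (next : S → A → B → S) (k : S → A → B → ℝ) (T : Set S) (v : S → ℝ) : S → ℝ :=
  T.indicator (fun _ => (1 : ℝ)) + Tᶜ.indicator (fun x => ∑ a, ∑ b, k x a b * v (next x a b))

/-- The reachability probability. -/
noncomputable def RR (next : S → A → B → S) (k : S → A → B → ℝ) (T : Set S) (s : S) : ℝ :=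
  ⨆ n : ℕ, ((F next k T)^[n] (T.indicator (fun _ => (1 : ℝ)))) s

/-- Stochastic kernels. -/
def St (k : S → A → B → ℝ) : Prop := (∀ x a b, 0 ≤ k x a b) ∧ ∀ x, ∑ a, ∑ b, k x a b = 1

variable {next : S → A → B → S} {k k' : S → A → B → ℝ} {T : Set S}

theorem F_in {v : S → ℝ} {x : S} (h : x ∈ T) : F next k T v x = 1 := by
  simp [F, h]

theorem F_out {v : S → ℝ} {x : S} (h : x ∉ T) :
    F next k T v x = ∑ a, ∑ b, k x a b * v (next x a b) := by
  simp [F, h]

theorem sum_mono (hk : St k) {v w : S → ℝ} (h : ∀ y, v y ≤ w y) (x : S) :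
    ∑ a, ∑ b, k x a b * v (next x a b) ≤ ∑ a, ∑ b, k x a b * w (next x a b) :=
  Finset.sum_le_sum fun a _ => Finset.sum_le_sum fun b _ =>
    mul_le_mul_of_nonneg_left (h _) (hk.1 x a b)

theorem sum_add (hk : St k) (v : S → ℝ) (c : ℝ) (x : S) :
    ∑ a, ∑ b, k x a b * (v (next x a b) + c) = (∑ a, ∑ b, k x a b * v (next x a b)) + c := by
  simp only [mul_add, Finset.sum_add_distrib, ← Finset.sum_mul, hk.2 x, one_mul]

theorem sum_const (hk : St k) (c : ℝ) (x : S) : ∑ a, ∑ b, k x a b * c = c := by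
  simp only [← Finset.sum_mul, hk.2 x, one_mul]

theorem F_mono (hk : St k) {v w : S → ℝ} (h : ∀ y, v y ≤ w y) (x : S) :
    F next k T v x ≤ F next k T w x := by
  by_cases hx : x ∈ T
  · rw [F_in hx, F_in hx]
  · rw [F_out hx, F_out hx]; exact sum_mono hk h x

theorem it_le (hk : St k) {w : S → ℝ} (h0 : ∀ y, 0 ≤ w y) (h1 : ∀ y ∈ T, 1 ≤ w y)
    (h2 : ∀ x, x ∉ T → ∑ a, ∑ b, k x a b * w (next x a b) ≤ w x) (n : ℕ) :
    ∀ x, ((F next k T)^[n] (T.indicator (fun _ => (1 : ℝ)))) x ≤ w x := by
  induction n with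
  | zero =>
    intro x
    by_cases hx : x ∈ T
    · simpa [hx] using h1 x hx
    · simpa [hx] using h0 x
  | succ n ih =>
    intro x
    rw [Function.iterate_succ_apply']
    by_cases hx : x ∈ T
    · rw [F_in hx]; exact h1 x hx
    · rw [F_out hx]; exact (sum_mono hk ih x).trans (h2 x hx)

theorem it_one (hk : St k) (n : ℕ) (x : S) :
    ((F next k T)^[n] (T.indicator (fun _ => (1 : ℝ)))) x ≤ 1 :=
  it_le (w := fun _ => 1) hk (fun _ => zero_le_one) (fun _ _ => le_rfl)
    (fun x _ => (sum_const hk 1 x).le) n x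

theorem it_mono (hk : St k) (n : ℕ) :
    ∀ x, ((F next k T)^[n] (T.indicator (fun _ => (1 : ℝ)))) x ≤
      ((F next k T)^[n + 1] (T.indicator (fun _ => (1 : ℝ)))) x := by
  induction n with
  | zero =>
    intro x
    rw [Function.iterate_succ_apply']
    by_cases hx : x ∈ T
    · rw [F_in hx]; simp [hx]
    · rw [F_out hx]
      simp only [Function.iterate_zero, id, Set.indicator_of_notMem hx]
      exact Finset.sum_nonneg fun a _ => Finset.sum_nonneg fun b _ =>
        mul_nonneg (hk.1 x a b) (Set.indicator_nonneg (fun _ _ => zero_le_one) _)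
  | succ n ih =>
    intro x
    rw [Function.iterate_succ_apply', Function.iterate_succ_apply' (n := n + 1)]
    exact F_mono hk ih x

theorem bdd (hk : St k) (x : S) :
    BddAbove (Set.range fun n : ℕ => ((F next k T)^[n] (T.indicator (fun _ => (1 : ℝ)))) x) :=
  ⟨1, by rintro _ ⟨n, rfl⟩; exact it_one hk n x⟩

theorem tend (hk : St k) (x : S) :
    Filter.Tendsto (fun n : ℕ => ((F next k T)^[n] (T.indicator (fun _ => (1 : ℝ)))) x)
      Filter.atTop (nhds (RR next k T x)) :=
  tendsto_atTop_ciSup (monotone_nat_of_le_succ fun n => it_mono hk n x) (bdd hk x)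

theorem least (hk : St k) {w : S → ℝ} (h0 : ∀ y, 0 ≤ w y) (h1 : ∀ y ∈ T, 1 ≤ w y)
    (h2 : ∀ x, x ∉ T → ∑ a, ∑ b, k x a b * w (next x a b) ≤ w x) (x : S) :
    RR next k T x ≤ w x :=
  ciSup_le fun n => it_le hk h0 h1 h2 n x

theorem RR_nonneg (hk : St k) (x : S) : 0 ≤ RR next k T x := by
  refine le_trans ?_ (le_ciSup (bdd hk x) 0)
  exact Set.indicator_nonneg (fun _ _ => zero_le_one) _

theorem RR_le_one (hk : St k) (x : S) : RR next k T x ≤ 1 :=
  ciSup_le fun n => it_one hk n x

theorem RR_in (hk : St k) {x : S} (hx : x ∈ T) : RR next k T x = 1 := by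
  refine le_antisymm (RR_le_one hk x) (le_trans ?_ (le_ciSup (bdd hk x) 0))
  simp [hx]

theorem RR_out (hk : St k) {x : S} (hx : x ∉ T) :
    RR next k T x = ∑ a, ∑ b, k x a b * RR next k T (next x a b) := by
  have h1 := (tend (next := next) (T := T) hk x).comp (Filter.tendsto_add_atTop_nat 1)
  have h2 : Filter.Tendsto (fun n : ℕ => ∑ a, ∑ b, k x a b *
      ((F next k T)^[n] (T.indicator (fun _ => (1 : ℝ)))) (next x a b)) Filter.atTop
      (nhds (∑ a, ∑ b, k x a b * RR next k T (next x a b))) :=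
    tendsto_finsetSum _ fun a _ => tendsto_finsetSum _ fun b _ =>
      (tend hk _).const_mul _
  refine tendsto_nhds_unique h1 (h2.congr fun n => ?_)
  simp only [Function.comp]
  rw [Function.iterate_succ_apply', F_out hx]

/-- Policy improvement: a strict one-step improvement at one state never lowers a value. -/
theorem improve (hk : St k) (hk' : St k') {s : S} (hs : s ∉ T) (he : ∀ x, x ≠ s → k' x = k x)
    (hlt : RR next k T s < ∑ a, ∑ b, k' s a b * RR next k T (next s a b)) (x : S) :
    RR next k T x ≤ RR next k' T x := by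
  have key : ∀ c, 0 ≤ c → RR next k T s ≤ RR next k' T s + c →
      ∀ y, RR next k T y ≤ RR next k' T y + c := by
    intro c hc hsc y
    have := least (next := next) (T := T) hk
      (w := fun y => min (RR next k T y) (RR next k' T y + c))
      (fun y => le_min (RR_nonneg hk y) (add_nonneg (RR_nonneg hk' y) hc))
      (fun y hy => le_min (RR_in hk hy).ge (by rw [RR_in hk' hy]; linarith)) ?_ y
    · exact this.trans (min_le_right _ _)
    · intro z hz
      have h1 : ∑ a, ∑ b, k z a b * min (RR next k T (next z a b)) (RR next k' T (next z a b) + c)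
          ≤ RR next k T z := by
        rw [RR_out hk hz]
        exact sum_mono (v := fun y => min (RR next k T y) (RR next k' T y + c)) hk
          (fun y => min_le_left _ _) z
      refine le_min h1 ?_
      by_cases hzs : z = s
      · subst hzs; exact h1.trans hsc
      · rw [RR_out hk' hz, he z hzs, ← sum_add hk]
        exact sum_mono (v := fun y => min (RR next k T y) (RR next k' T y + c))
          (w := fun y => RR next k' T y + c) hk (fun y => min_le_right _ _) z
  by_cases hd : RR next k T s ≤ RR next k' T s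
  · simpa using key 0 le_rfl (by simpa using hd) x
  · exfalso
    push Not at hd
    have h := key (RR next k T s - RR next k' T s) (by linarith) (by linarith)
    have h2 := sum_mono (next := next) (w := fun y => RR next k' T y + (RR next k T s - RR next k' T s))
      hk' h s
    rw [sum_add hk', ← RR_out hk' hs] at h2
    linarith

/-- One-step deviations gain at most what the stationary deviation gains. -/
theorem onestep (hk : St k) (hk' : St k') {s : S} (hs : s ∉ T) (he : ∀ x, x ≠ s → k' x = k x)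
    {e : ℝ} (h0 : 0 ≤ e) (hne : RR next k' T s ≤ RR next k T s + e) :
    ∑ a, ∑ b, k' s a b * RR next k T (next s a b) ≤ RR next k T s + e := by
  by_cases h : RR next k T s < ∑ a, ∑ b, k' s a b * RR next k T (next s a b)
  · refine le_trans ?_ hne
    rw [RR_out hk' hs]
    exact sum_mono hk' (improve hk hk' hs he h) s
  · push Not at h; linarith

/-- Circulant 4 x 4 games whose prizes dominate: every equilibrium pays the average. -/
theorem cyc (p q a b : Fin 4 → ℝ) (v w : ℝ) (hp : ∀ r, 0 ≤ p r) (hq : ∀ c, 0 ≤ q c)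
    (hp1 : ∑ r, p r = 1) (hq1 : ∑ c, q c = 1) (ha : ∀ d, 0 ≤ a d) (hb : ∀ d, 0 ≤ b d)
    (ha0 : a 1 + a 2 + a 3 < a 0) (hb1 : b 0 + b 2 + b 3 < b 1)
    (hv : v = ∑ r, ∑ c, p r * q c * a (c - r)) (hw : w = ∑ r, ∑ c, p r * q c * b (c - r))
    (hf : ∀ r, ∑ c, q c * a (c - r) ≤ v) (hg : ∀ c, ∑ r, p r * b (c - r) ≤ w) :
    4 * v = ∑ d, a d ∧ 4 * w = ∑ d, b d := by
  have sf : ∑ r, ∑ c, q c * a (c - r) = ∑ d, a d := by
    rw [Finset.sum_comm]
    have : ∀ c : Fin 4, ∑ r, q c * a (c - r) = q c * ∑ d, a d := fun c => by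
      rw [← Finset.mul_sum]; congr 1
      exact Fintype.sum_equiv (Equiv.subLeft c) _ _ fun _ => rfl
    simp only [this, ← Finset.sum_mul, hq1, one_mul]
  have sg : ∑ c, ∑ r, p r * b (c - r) = ∑ d, b d := by
    rw [Finset.sum_comm]
    have : ∀ r : Fin 4, ∑ c, p r * b (c - r) = p r * ∑ d, b d := fun r => by
      rw [← Finset.mul_sum]; congr 1
      exact Fintype.sum_equiv (Equiv.subRight r) _ _ fun _ => rfl
    simp only [this, ← Finset.sum_mul, hp1, one_mul]
  have a0 : 0 < a 0 := by linarith [ha 1, ha 2, ha 3]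
  have b1 : 0 < b 1 := by linarith [hb 0, hb 2, hb 3]
  have v0 : 0 < v := by
    have := Finset.sum_le_sum fun r (_ : r ∈ Finset.univ) => hf r
    rw [sf, Fin.sum_univ_four] at this
    simp at this
    linarith [ha 1, ha 2, ha 3]
  have w0 : 0 < w := by
    have := Finset.sum_le_sum fun c (_ : c ∈ Finset.univ) => hg c
    rw [sg, Fin.sum_univ_four] at this
    simp at this
    linarith [hb 0, hb 2, hb 3]
  have ef : ∀ r, 0 < p r → ∑ c, q c * a (c - r) = v := by
    intro r hr
    have h : ∑ r, p r * (v - ∑ c, q c * a (c - r)) = 0 := by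
      simp only [mul_sub, Finset.sum_sub_distrib, ← Finset.sum_mul, hp1, one_mul, Finset.mul_sum,
        ← mul_assoc]
      linarith
    rw [Finset.sum_eq_zero_iff_of_nonneg fun r _ => mul_nonneg (hp r) (sub_nonneg.2 (hf r))] at h
    have := (mul_eq_zero.1 (h r (Finset.mem_univ r))).resolve_left hr.ne'
    linarith
  have eg : ∀ c, 0 < q c → ∑ r, p r * b (c - r) = w := by
    intro c hc
    have h : ∑ c, q c * (w - ∑ r, p r * b (c - r)) = 0 := by
      simp only [mul_sub, Finset.sum_sub_distrib, ← Finset.sum_mul, hq1, one_mul, Finset.mul_sum]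
      rw [hw, Finset.sum_comm, sub_eq_zero]
      exact Finset.sum_congr rfl fun _ _ => Finset.sum_congr rfl fun _ _ => by ring
    rw [Finset.sum_eq_zero_iff_of_nonneg fun c _ => mul_nonneg (hq c) (sub_nonneg.2 (hg c))] at h
    have := (mul_eq_zero.1 (h c (Finset.mem_univ c))).resolve_left hc.ne'
    linarith
  have lq : ∀ c, q c * a 0 ≤ v := fun c => by
    refine le_trans ?_ (hf c)
    have := Finset.single_le_sum (f := fun c' => q c' * a (c' - c))
      (fun i _ => mul_nonneg (hq i) (ha _)) (Finset.mem_univ c)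
    simpa using this
  have lp : ∀ r, p r * b 1 ≤ w := fun r => by
    refine le_trans ?_ (hg (r + 1))
    have := Finset.single_le_sum (f := fun r' => p r' * b (r + 1 - r'))
      (fun i _ => mul_nonneg (hp i) (hb _)) (Finset.mem_univ r)
    simpa using this
  have pq : ∀ r, 0 < p r → 0 < q r := by
    intro r hr
    refine lt_of_le_of_ne (hq r) fun h0 => ?_
    have e := ef r hr
    rw [← Fintype.sum_equiv (Equiv.addRight r) (fun d => q (d + r) * a d) _ (fun d => by simp),
      Fin.sum_univ_four, zero_add, ← h0] at e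
    have h1 := mul_le_mul_of_nonneg_right (lq (1 + r)) (ha 1)
    have h2 := mul_le_mul_of_nonneg_right (lq (2 + r)) (ha 2)
    have h3 := mul_le_mul_of_nonneg_right (lq (3 + r)) (ha 3)
    have h4 := mul_lt_mul_of_pos_left ha0 v0
    have h5 : v * a 0 = (0 * a 0 + q (1 + r) * a 1 + q (2 + r) * a 2 + q (3 + r) * a 3) * a 0 := by
      rw [e]
    nlinarith
  have qp : ∀ r, 0 < q (r + 1) → 0 < p r := by
    intro r hr
    refine lt_of_le_of_ne (hp r) fun h0 => ?_
    have e := eg (r + 1) hr
    rw [← Fintype.sum_equiv (Equiv.subLeft (r + 1)) (fun d => p (r + 1 - d) * b d) _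
      (fun d => by simp), Fin.sum_univ_four, add_sub_cancel_right, ← h0] at e
    have h1 := mul_le_mul_of_nonneg_right (lp (r + 1 - 0)) (hb 0)
    have h2 := mul_le_mul_of_nonneg_right (lp (r + 1 - 2)) (hb 2)
    have h3 := mul_le_mul_of_nonneg_right (lp (r + 1 - 3)) (hb 3)
    have h4 := mul_lt_mul_of_pos_left hb1 w0
    have h5 : w * b 1 = (p (r + 1 - 0) * b 0 + 0 * b 1 + p (r + 1 - 2) * b 2
      + p (r + 1 - 3) * b 3) * b 1 := by rw [e]
    nlinarith
  have st : ∀ r, 0 < p (r + 1) → 0 < p r := fun r h => qp r (pq _ h)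
  have s0 : 0 < p 1 → 0 < p 0 := st 0
  have s1 : 0 < p 2 → 0 < p 1 := st 1
  have s2 : 0 < p 3 → 0 < p 2 := st 2
  have s3 : 0 < p 0 → 0 < p 3 := st 3
  have p0 : 0 < p 0 := by
    by_contra h
    have h1 : ¬ 0 < p 1 := fun t => h (s0 t)
    have h2 : ¬ 0 < p 2 := fun t => h1 (s1 t)
    have h3 : ¬ 0 < p 3 := fun t => h2 (s2 t)
    rw [Fin.sum_univ_four] at hp1
    push Not at h h1 h2 h3
    linarith
  have pall : ∀ r, 0 < p r := by
    intro r
    fin_cases r
    · exact p0
    · exact s1 (s2 (s3 p0))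
    · exact s2 (s3 p0)
    · exact s3 p0
  constructor
  · rw [← sf, Finset.sum_congr rfl fun r _ => ef r (pall r)]; simp
  · rw [← sg, Finset.sum_congr rfl fun c _ => eg c (pq c (pall c))]; simp

end Pool.Agent.H32.Rch
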