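import Pool.Agent.H32.RchA

set_option autoImplicit false

namespace Pool.Agent.H32.Rch

/-- The game. States: 0, 1 waiting states; 2, 3 return states; 4 to 9 circulant states;
10 and 11 the two targets; 12 a sink. -/
def nx (x : Fin 13) (a b : Fin 4) : Fin 13 :=
  ![if a = 0 then 4 else 1, if b = 0 then 5 else 0, if a = 0 then 9 else 0,
    if b = 0 then 8 else 0, ![6, 11, 3, 12] (b - a), ![10, 7, 2, 12] (b - a),
    ![10, 10, 10, 8] (b - a), ![11, 11, 11, 9] (b - a), ![10, 10, 11, 8] (b - a),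
    ![11, 11, 10, 9] (b - a), 10, 11, 12] x

abbrev Sg := Fin 13 → Fin 4 → ℝ

def Sx (σ : Sg) : Prop := (∀ s a, 0 ≤ σ s a) ∧ ∀ s, ∑ a, σ s a = 1

def Eqn (σ τ : Sg) (V : Fin 13 → ℝ) : Prop :=
  ∀ x, V x = ∑ a, ∑ b, σ x a * τ x b * V (nx x a b)

theorem eqs {σ τ : Sg} (hσ : Sx σ) (hτ : Sx τ) {V : Fin 13 → ℝ} (h : Eqn σ τ V) :
    V 0 = σ 0 0 * V 4 + (1 - σ 0 0) * V 1 ∧ V 1 = τ 1 0 * V 5 + (1 - τ 1 0) * V 0 ∧
    V 2 = σ 2 0 * V 9 + (1 - σ 2 0) * V 0 ∧ V 3 = τ 3 0 * V 8 + (1 - τ 3 0) * V 0 := by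
  have s := fun x => hσ.2 x
  have t := fun x => hτ.2 x
  simp only [Fin.sum_univ_four] at s t
  refine ⟨?_, ?_, ?_, ?_⟩
  · have := h 0
    simp [nx, Fin.sum_univ_four] at this
    rw [this]
    linear_combination (σ 0 0 * V 4 + (σ 0 1 + σ 0 2 + σ 0 3) * V 1) * t 0 + V 1 * s 0
  · have := h 1
    simp [nx, Fin.sum_univ_four] at this
    rw [this]
    linear_combination (τ 1 0 * V 5 + (τ 1 1 + τ 1 2 + τ 1 3) * V 0) * s 1 + V 0 * t 1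
  · have := h 2
    simp [nx, Fin.sum_univ_four] at this
    rw [this]
    linear_combination (σ 2 0 * V 9 + (σ 2 1 + σ 2 2 + σ 2 3) * V 0) * t 2 + V 0 * s 2
  · have := h 3
    simp [nx, Fin.sum_univ_four] at this
    rw [this]
    linear_combination (τ 3 0 * V 8 + (τ 3 1 + τ 3 2 + τ 3 3) * V 0) * s 3 + V 0 * t 3

/-- The closed conditions satisfied by a stationary `e`-equilibrium. -/
def Base (σ τ : Sg) (X Y : Fin 13 → ℝ) (e : ℝ) : Prop :=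
  (∀ s a, 0 ≤ σ s a) ∧ (∀ s, ∑ a, σ s a = 1) ∧ (∀ s a, 0 ≤ τ s a) ∧ (∀ s, ∑ a, τ s a = 1) ∧
  (∀ x, 0 ≤ X x) ∧ (∀ x, 0 ≤ Y x) ∧ (∀ x, X x + Y x ≤ 1) ∧
  X 10 = 1 ∧ Y 11 = 1 ∧ X 12 = 0 ∧ Y 12 = 0 ∧
  (∀ x, X x = ∑ a, ∑ b, σ x a * τ x b * X (nx x a b)) ∧
  (∀ x, Y x = ∑ a, ∑ b, σ x a * τ x b * Y (nx x a b)) ∧
  (∀ x a, ∑ b, τ x b * X (nx x a b) ≤ X x + e) ∧ (∀ x b, ∑ a, σ x a * Y (nx x a b) ≤ Y x + e)

def Ext (X Y : Fin 13 → ℝ) (s t e : ℝ) : Prop :=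
  0 ≤ t ∧ t ≤ s ∧ s ≤ 1 ∧ X 0 = s * X 4 + (1 - s) * X 5 ∧ Y 0 = s * Y 4 + (1 - s) * Y 5 ∧
  X 1 = t * X 4 + (1 - t) * X 5 ∧ Y 1 = t * Y 4 + (1 - t) * Y 5 ∧
  (1 - s) * (X 5 - X 0) ≤ e ∧ t * (Y 4 - Y 1) ≤ e

theorem avg1 (q : Fin 4 → ℝ) (hq : ∑ c, q c = 1) (a : Fin 4 → ℝ) (v : ℝ)
    (hf : ∀ r, ∑ c, q c * a (c - r) ≤ v) : a 0 + a 1 + a 2 + a 3 ≤ 4 * v := by
  have sf : ∑ r, ∑ c, q c * a (c - r) = ∑ d, a d := by
    rw [Finset.sum_comm]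
    have : ∀ c : Fin 4, ∑ r, q c * a (c - r) = q c * ∑ d, a d := fun c => by
      rw [← Finset.mul_sum]; congr 1
      exact Fintype.sum_equiv (Equiv.subLeft c) _ _ fun _ => rfl
    simp only [this, ← Finset.sum_mul, hq, one_mul]
  have := Finset.sum_le_sum fun r (_ : r ∈ Finset.univ) => hf r
  rw [sf, Fin.sum_univ_four] at this
  simpa using this

theorem avg2 (p : Fin 4 → ℝ) (hp : ∑ c, p c = 1) (b : Fin 4 → ℝ) (v : ℝ)
    (hf : ∀ c, ∑ r, p r * b (c - r) ≤ v) : b 0 + b 1 + b 2 + b 3 ≤ 4 * v := by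
  have sg : ∑ c, ∑ r, p r * b (c - r) = ∑ d, b d := by
    rw [Finset.sum_comm]
    have : ∀ r : Fin 4, ∑ c, p r * b (c - r) = p r * ∑ d, b d := fun r => by
      rw [← Finset.mul_sum]; congr 1
      exact Fintype.sum_equiv (Equiv.subRight r) _ _ fun _ => rfl
    simp only [this, ← Finset.sum_mul, hp, one_mul]
  have := Finset.sum_le_sum fun r (_ : r ∈ Finset.univ) => hf r
  rw [sg, Fin.sum_univ_four] at this
  simpa using this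

theorem low {σ τ : Sg} {X Y : Fin 13 → ℝ} {e : ℝ} (h : Base σ τ X Y e) :
    (X 4 ≤ X 0 + e ∧ X 1 ≤ X 0 + e ∧ X 9 ≤ X 2 + e ∧ X 0 ≤ X 2 + e) ∧
    (Y 5 ≤ Y 1 + e ∧ Y 0 ≤ Y 1 + e ∧ Y 8 ≤ Y 3 + e ∧ Y 0 ≤ Y 3 + e) ∧
    (X 6 + X 11 + X 3 + X 12 ≤ 4 * (X 4 + e) ∧ X 10 + X 7 + X 2 + X 12 ≤ 4 * (X 5 + e) ∧
     X 10 + X 10 + X 10 + X 8 ≤ 4 * (X 6 + e) ∧ X 11 + X 11 + X 11 + X 9 ≤ 4 * (X 7 + e) ∧
     X 10 + X 10 + X 11 + X 8 ≤ 4 * (X 8 + e) ∧ X 11 + X 11 + X 10 + X 9 ≤ 4 * (X 9 + e)) ∧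
    (Y 6 + Y 11 + Y 3 + Y 12 ≤ 4 * (Y 4 + e) ∧ Y 10 + Y 7 + Y 2 + Y 12 ≤ 4 * (Y 5 + e) ∧
     Y 10 + Y 10 + Y 10 + Y 8 ≤ 4 * (Y 6 + e) ∧ Y 11 + Y 11 + Y 11 + Y 9 ≤ 4 * (Y 7 + e) ∧
     Y 10 + Y 10 + Y 11 + Y 8 ≤ 4 * (Y 8 + e) ∧ Y 11 + Y 11 + Y 10 + Y 9 ≤ 4 * (Y 9 + e)) := by
  obtain ⟨-, s1, -, t1, -, -, -, -, -, -, -, -, -, fx, fy⟩ := h
  have c1 : ∀ (x y : Fin 13) (a : Fin 4), (∀ b, nx x a b = y) → X y ≤ X x + e := fun x y a h => by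
    have := fx x a
    simp only [h, ← Finset.sum_mul, t1, one_mul] at this
    exact this
  have c2 : ∀ (x y : Fin 13) (b : Fin 4), (∀ a, nx x a b = y) → Y y ≤ Y x + e := fun x y b h => by
    have := fy x b
    simp only [h, ← Finset.sum_mul, s1, one_mul] at this
    exact this
  refine ⟨⟨c1 0 4 0 (by decide), c1 0 1 1 (by decide), c1 2 9 0 (by decide), c1 2 0 1 (by decide)⟩,
    ⟨c2 1 5 0 (by decide), c2 1 0 1 (by decide), c2 3 8 0 (by decide), c2 3 0 1 (by decide)⟩,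
    ⟨?_, ?_, ?_, ?_, ?_, ?_⟩, ⟨?_, ?_, ?_, ?_, ?_, ?_⟩⟩
  · exact avg1 (τ 4) (t1 4) (fun d => X (![6, 11, 3, 12] d)) _ (fx 4)
  · exact avg1 (τ 5) (t1 5) (fun d => X (![10, 7, 2, 12] d)) _ (fx 5)
  · exact avg1 (τ 6) (t1 6) (fun d => X (![10, 10, 10, 8] d)) _ (fx 6)
  · exact avg1 (τ 7) (t1 7) (fun d => X (![11, 11, 11, 9] d)) _ (fx 7)
  · exact avg1 (τ 8) (t1 8) (fun d => X (![10, 10, 11, 8] d)) _ (fx 8)
  · exact avg1 (τ 9) (t1 9) (fun d => X (![11, 11, 10, 9] d)) _ (fx 9)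
  · exact avg2 (σ 4) (s1 4) (fun d => Y (![6, 11, 3, 12] d)) _ (fy 4)
  · exact avg2 (σ 5) (s1 5) (fun d => Y (![10, 7, 2, 12] d)) _ (fy 5)
  · exact avg2 (σ 6) (s1 6) (fun d => Y (![10, 10, 10, 8] d)) _ (fy 6)
  · exact avg2 (σ 7) (s1 7) (fun d => Y (![11, 11, 11, 9] d)) _ (fy 7)
  · exact avg2 (σ 8) (s1 8) (fun d => Y (![10, 10, 11, 8] d)) _ (fy 8)
  · exact avg2 (σ 9) (s1 9) (fun d => Y (![11, 11, 10, 9] d)) _ (fy 9)

theorem pick {r u w v : ℝ} (h : v = r * u + (1 - r) * w) (h0 : 0 ≤ r) (h1 : r ≤ 1) :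
    min u w ≤ v := by
  have := min_le_left u w
  have := min_le_right u w
  nlinarith

theorem dec0 {r u w v : ℝ} (h : v = r * u + (1 - r) * w) (h0 : 0 ≤ r) (h1 : w ≤ v) (h2 : u < w) :
    r = 0 := by
  refine le_antisymm (not_lt.1 fun hc => ?_) h0
  have := mul_pos hc (sub_pos.2 h2)
  nlinarith

theorem dec1 {r u w v : ℝ} (h : v = r * u + (1 - r) * w) (h0 : r ≤ 1) (h1 : u ≤ v) (h2 : w < u) :
    r = 1 := by
  refine le_antisymm h0 (not_lt.1 fun hc => ?_)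
  have := mul_pos (sub_pos.2 hc) (sub_pos.2 h2)
  nlinarith

theorem exact_no {σ τ : Sg} {X Y : Fin 13 → ℝ} {s t : ℝ} (h : Base σ τ X Y 0)
    (g : Ext X Y s t 0) : False := by
  obtain ⟨⟨a1, a2, a3, a4⟩, ⟨b1, b2, b3, b4⟩, ⟨c4, c5, c6, c7, c8, c9⟩,
    ⟨d4, d5, d6, d7, d8, d9⟩⟩ := low h
  obtain ⟨s0, s1, t0, t1, x0, y0, xy, x10, y11, x12, y12, ex, ey, fx, fy⟩ := h
  obtain ⟨g0, g1, g2, g3, g4, g5, g6, g7, g8⟩ := g
  have hσ : Sx σ := ⟨s0, s1⟩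
  have hτ : Sx τ := ⟨t0, t1⟩
  obtain ⟨-, -, ex2, ex3⟩ := eqs hσ hτ ex
  obtain ⟨-, -, ey2, ey3⟩ := eqs hσ hτ ey
  have le1 : ∀ {ρ : Sg}, Sx ρ → ∀ x, ρ x 0 ≤ 1 := fun {ρ} hρ x => by
    have := hρ.2 x
    rw [Fin.sum_univ_four] at this
    linarith [hρ.1 x 1, hρ.1 x 2, hρ.1 x 3]
  have x11 : X 11 = 0 := by linarith [xy 11, x0 11]
  have y10 : Y 10 = 0 := by linarith [xy 10, y0 10]
  have x8 : X 8 = 2 / 3 := by linarith [xy 8]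
  have y8 : Y 8 = 1 / 3 := by linarith [xy 8]
  have x9 : X 9 = 1 / 3 := by linarith [xy 9]
  have y9 : Y 9 = 2 / 3 := by linarith [xy 9]
  have x6 : X 6 = 11 / 12 := by linarith [xy 6]
  have y6 : Y 6 = 1 / 12 := by linarith [xy 6]
  have x7 : X 7 = 1 / 12 := by linarith [xy 7]
  have y7 : Y 7 = 11 / 12 := by linarith [xy 7]
  have lx0 : 11 / 48 ≤ X 0 := by linarith [x0 3]
  have ly0 : 11 / 48 ≤ Y 0 := by
    refine le_trans (le_min ?_ ?_) (pick g4 (by linarith) g2)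
    · linarith [y0 3]
    · linarith [y0 2]
  have lx3 : 11 / 48 ≤ X 3 :=
    le_trans (le_min (by linarith) lx0) (pick ex3 (t0 3 0) (le1 hτ 3))
  have ly2 : 11 / 48 ≤ Y 2 :=
    le_trans (le_min (by linarith) ly0) (pick ey2 (s0 2 0) (le1 hσ 2))
  simp only [add_zero] at fx fy
  obtain ⟨u4, v4⟩ := cyc (σ 4) (τ 4) (fun d => X (![6, 11, 3, 12] d))
    (fun d => Y (![6, 11, 3, 12] d)) (X 4) (Y 4) (s0 4) (t0 4) (s1 4) (t1 4) (fun _ => x0 _)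
    (fun _ => y0 _) (show X 11 + X 3 + X 12 < X 6 by linarith [xy 3])
    (show Y 6 + Y 3 + Y 12 < Y 11 by linarith [xy 3]) (ex 4) (ey 4) (fx 4) (fy 4)
  obtain ⟨u5, v5⟩ := cyc (σ 5) (τ 5) (fun d => X (![10, 7, 2, 12] d))
    (fun d => Y (![10, 7, 2, 12] d)) (X 5) (Y 5) (s0 5) (t0 5) (s1 5) (t1 5) (fun _ => x0 _)
    (fun _ => y0 _) (show X 7 + X 2 + X 12 < X 10 by linarith [xy 2])
    (show Y 10 + Y 2 + Y 12 < Y 7 by linarith [xy 2]) (ex 5) (ey 5) (fx 5) (fy 5)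
  rw [Fin.sum_univ_four] at u4 v4 u5 v5
  change 4 * X 4 = X 6 + X 11 + X 3 + X 12 at u4
  change 4 * Y 4 = Y 6 + Y 11 + Y 3 + Y 12 at v4
  change 4 * X 5 = X 10 + X 7 + X 2 + X 12 at u5
  change 4 * Y 5 = Y 10 + Y 7 + Y 2 + Y 12 at v5
  -- decisions at the return states
  have k1 : 1 / 3 < Y 0 → X 3 = X 0 ∧ Y 3 = Y 0 := fun h => by
    have : τ 3 0 = 0 := dec0 ey3 (t0 3 0) (by linarith) (by linarith)
    constructor
    · rw [ex3, this]; ring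
    · rw [ey3, this]; ring
  have k2 : Y 0 < 1 / 3 → X 3 = 2 / 3 := fun h => by
    have : τ 3 0 = 1 := dec1 ey3 (le1 hτ 3) (by linarith) (by linarith)
    rw [ex3, this]; linarith
  have k3 : 1 / 3 < X 0 → Y 2 = Y 0 ∧ X 2 = X 0 := fun h => by
    have : σ 2 0 = 0 := dec0 ex2 (s0 2 0) (by linarith) (by linarith)
    constructor
    · rw [ey2, this]; ring
    · rw [ex2, this]; ring
  have k4 : X 0 < 1 / 3 → Y 2 = 2 / 3 := fun h => by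
    have : σ 2 0 = 1 := dec1 ex2 (le1 hσ 2) (by linarith) (by linarith)
    rw [ey2, this]; linarith
  clear ex ey fx fy ex2 ex3 ey2 ey3 c4 c5 c6 c7 c8 c9 d4 d5 d6 d7 d8 d9
  rcases eq_or_lt_of_le g2 with h1 | h1
  · subst h1
    have e1 : X 0 = X 4 := by linarith
    have e2 : Y 0 = Y 4 := by linarith
    obtain ⟨k6, k7⟩ := k1 (by linarith)
    have := k4 (by linarith)
    have ht : t = 0 := dec0 g6 g0 (by linarith) (by linarith)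
    subst ht
    linarith
  rcases eq_or_lt_of_le (g0.trans g1) with h0 | h0
  · subst h0
    have e1 : X 0 = X 5 := by linarith
    have e2 : Y 0 = Y 5 := by linarith
    obtain ⟨k6, k7⟩ := k3 (by linarith)
    have := k2 (by linarith)
    linarith
  · have m1 : X 4 ≤ X 5 := not_lt.1 fun hc => h1.ne (dec1 g3 g2 (by linarith) hc)
    have m2 : X 5 ≤ X 4 := by
      by_contra hc
      push Not at hc
      have : 0 < (1 - s) * s * (X 5 - X 4) := by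
        have := sub_pos.2 h1; have := sub_pos.2 hc; positivity
      rw [g3] at g7
      linarith
    have e1 : X 0 = X 5 := by
      have : X 4 = X 5 := le_antisymm m1 m2
      rw [g3, this]; ring
    obtain ⟨k6, k7⟩ := k3 (by linarith)
    have m3 : Y 5 < Y 4 := by linarith
    have ht : t = 0 := by
      refine le_antisymm (not_lt.1 fun hc => ?_) g0
      have : 0 < t * (1 - t) * (Y 4 - Y 5) := by
        have := sub_pos.2 m3; have : 0 < 1 - t := by linarith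
        positivity
      rw [g6] at g8
      linarith
    subst ht
    have := mul_pos h0 (sub_pos.2 m3)
    linarith

end Pool.Agent.H32.Rch
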