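import Pool.Agent.H32.RchB

set_option autoImplicit false

namespace Pool.Agent.H32.Rch

abbrev E := Sg × Sg × (Fin 13 → ℝ) × (Fin 13 → ℝ) × ℝ × ℝ × ℝ

def KK : Set E := {z | Base z.1 z.2.1 z.2.2.1 z.2.2.2.1 z.2.2.2.2.2.2 ∧
  Ext z.2.2.1 z.2.2.2.1 z.2.2.2.2.1 z.2.2.2.2.2.1 z.2.2.2.2.2.2 ∧
  0 ≤ z.2.2.2.2.2.2 ∧ z.2.2.2.2.2.2 ≤ 1}

theorem KK_closed : IsClosed KK := by
  unfold KK Base Ext
  simp only [Set.ofPred_and, Set.ofPred_forall]
  repeat' first
    | exact isClosed_le (by fun_prop) (by fun_prop)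
    | exact isClosed_eq (by fun_prop) (by fun_prop)
    | refine IsClosed.inter ?_ ?_
    | refine isClosed_iInter fun _ => ?_

theorem sx_le {ρ : Sg} (h0 : ∀ s a, 0 ≤ ρ s a) (h1 : ∀ s, ∑ a, ρ s a = 1) (x : Fin 13)
    (a : Fin 4) : ρ x a ≤ 1 := by
  rw [← h1 x]
  exact Finset.single_le_sum (fun i _ => h0 x i) (Finset.mem_univ a)

theorem KK_compact : IsCompact KK := by
  refine (isCompact_Icc (a := (0 : E)) (b := (1 : E))).of_isClosed_subset KK_closed ?_
  rintro ⟨σ, τ, X, Y, s, t, e⟩ ⟨⟨s0, s1, t0, t1, x0, y0, xy, -⟩, ⟨g0, g1, g2, -⟩, e0, e1⟩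
  simp only at s0 s1 t0 t1 x0 y0 xy g0 g1 g2 e0 e1
  refine ⟨⟨fun x a => s0 x a, fun x a => t0 x a, fun x => x0 x, fun x => y0 x, g0.trans g1, g0, e0⟩,
    ⟨fun x a => sx_le s0 s1 x a, fun x a => sx_le t0 t1 x a, fun x => ?_, fun x => ?_, g2,
      g1.trans g2, e1⟩⟩
  · show X x ≤ 1
    linarith [xy x, y0 x]
  · show Y x ≤ 1
    linarith [xy x, x0 x]

theorem gap : ∃ e0 : ℝ, 0 < e0 ∧ ∀ σ τ X Y s t e, 0 ≤ e → e < e0 → Base σ τ X Y e →
    Ext X Y s t e → False := by
  rcases KK.eq_empty_or_nonempty with h | h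
  · refine ⟨1, one_pos, fun σ τ X Y s t e h0 h1 hb hx => ?_⟩
    have : ((σ, τ, X, Y, s, t, e) : E) ∈ KK := ⟨hb, hx, h0, h1.le⟩
    rw [h] at this
    exact this
  · obtain ⟨z, hz, hm⟩ := KK_compact.exists_isMinOn h
      (f := fun z : E => z.2.2.2.2.2.2) (by fun_prop)
    obtain ⟨hb, hx, h0, h1⟩ := hz
    refine ⟨z.2.2.2.2.2.2, lt_of_le_of_ne h0 fun h => ?_, fun σ τ X Y s t e e0 e1 b x => ?_⟩
    · rw [← h] at hb hx
      exact exact_no hb hx
    · have : ((σ, τ, X, Y, s, t, e) : E) ∈ KK := ⟨b, x, e0, e1.le.trans h1⟩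
      exact absurd (hm this) (not_le.2 e1)

/-- The kernel of a profile. -/
def ker (σ τ : Sg) : Fin 13 → Fin 4 → Fin 4 → ℝ := fun x a b => σ x a * τ x b

theorem ker_st {σ τ : Sg} (hσ : Sx σ) (hτ : Sx τ) : St (ker σ τ) :=
  ⟨fun x a b => mul_nonneg (hσ.1 x a) (hτ.1 x b), fun x => by
    simp only [ker, ← Finset.mul_sum, hτ.2 x, mul_one, hσ.2 x]⟩

theorem eqn_of {σ τ : Sg} (hσ : Sx σ) (hτ : Sx τ) (y : Fin 13) (hy : ∀ a b, nx y a b = y) :
    Eqn σ τ (RR nx (ker σ τ) {y}) := by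
  intro x
  by_cases h : x = y
  · subst h
    simp only [hy]
    exact (sum_const (ker_st hσ hτ) _ x).symm
  · exact RR_out (ker_st hσ hτ) h

def up (ρ : Sg) (x : Fin 13) (a : Fin 4) : Sg := Function.update ρ x (Pi.single a 1)

theorem up_sx {ρ : Sg} (h : Sx ρ) (x : Fin 13) (a : Fin 4) : Sx (up ρ x a) := by
  constructor
  · intro s b
    by_cases hs : s = x
    · subst hs; simp only [up, Function.update_self, Pi.single_apply]; split_ifs <;> norm_num
    · simp only [up, Function.update_of_ne hs]; exact h.1 s b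
  · intro s
    by_cases hs : s = x
    · subst hs; simp [up]
    · simp only [up, Function.update_of_ne hs]; exact h.2 s

theorem up1 (σ τ : Sg) (x : Fin 13) (a : Fin 4) (V : Fin 13 → ℝ) :
    ∑ a', ∑ b, ker (up σ x a) τ x a' b * V (nx x a' b) = ∑ b, τ x b * V (nx x a b) := by
  simp [ker, up, Pi.single_apply, ite_mul]

theorem up2 (σ τ : Sg) (x : Fin 13) (b : Fin 4) (V : Fin 13 → ℝ) :
    ∑ a, ∑ b', ker σ (up τ x b) x a b' * V (nx x a b') = ∑ a, σ x a * V (nx x a b) := by
  simp [ker, up, Pi.single_apply, ite_mul]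

theorem ne1 (σ τ : Sg) (s : Fin 13) (a : Fin 4) (x : Fin 13) (h : x ≠ s) :
    ker (up σ s a) τ x = ker σ τ x := by
  funext a' b; simp [ker, up, h]

theorem ne2 (σ τ : Sg) (s : Fin 13) (a : Fin 4) (x : Fin 13) (h : x ≠ s) :
    ker σ (up τ s a) x = ker σ τ x := by
  funext a' b; simp [ker, up, h]

theorem zero_at {σ τ : Sg} (hσ : Sx σ) (hτ : Sx τ) (y z : Fin 13) (hz : ∀ a b, nx z a b = z)
    (h : y ≠ z) : RR nx (ker σ τ) {y} z = 0 := by
  have hk := ker_st hσ hτ
  refine le_antisymm ?_ (RR_nonneg hk z)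
  have := least (next := nx) (T := {y}) hk (w := fun x => if x = z then 0 else 1)
    (fun x => by split_ifs <;> norm_num) (fun x hx => by rw [hx]; simp [h]) ?_ z
  · simpa using this
  · intro x _
    by_cases hx : x = z
    · subst hx; simp [hz]
    · simp only [hx, if_false]
      refine le_trans (sum_mono (next := nx) (v := fun x => if x = z then 0 else 1)
        (w := fun _ => 1) hk (fun x => by split_ifs <;> norm_num) x) (sum_const hk 1 x).le

theorem main : ∃ e : ℝ, 0 < e ∧ ∀ σ τ : Sg, Sx σ → Sx τ →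
    (∀ s σ', Sx σ' → RR nx (ker σ' τ) {10} s ≤ RR nx (ker σ τ) {10} s + e) →
    (∀ s τ', Sx τ' → RR nx (ker σ τ') {11} s ≤ RR nx (ker σ τ) {11} s + e) → False := by
  obtain ⟨e0, he0, hg⟩ := gap
  refine ⟨min (e0 / 2) (1 / 100), by positivity, fun σ τ hσ hτ n1 n2 => ?_⟩
  generalize he : min (e0 / 2) (1 / 100) = e at n1 n2
  have ep : 0 ≤ e := by rw [← he]; positivity
  have e1 : e < e0 := by rw [← he]; exact (min_le_left _ _).trans_lt (by linarith)
  have e2 : e ≤ 1 / 100 := by rw [← he]; exact min_le_right _ _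
  have hk := ker_st hσ hτ
  have ex := eqn_of hσ hτ 10 (by decide)
  have ey := eqn_of hσ hτ 11 (by decide)
  have y10 := zero_at hσ hτ 11 10 (by decide) (by decide)
  have hb : Base σ τ (RR nx (ker σ τ) {10}) (RR nx (ker σ τ) {11}) e := by
    refine ⟨hσ.1, hσ.2, hτ.1, hτ.2, RR_nonneg hk, RR_nonneg hk, fun x => ?_, RR_in hk rfl,
      RR_in hk rfl, zero_at hσ hτ 10 12 (by decide) (by decide),
      zero_at hσ hτ 11 12 (by decide) (by decide), ex, ey, fun x a => ?_, fun x b => ?_⟩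
    · have := least (next := nx) (T := {10}) hk (w := fun x => 1 - RR nx (ker σ τ) {11} x)
        (fun x => sub_nonneg.2 (RR_le_one hk x)) (fun x hx => by rw [hx, y10]; norm_num) ?_ x
      · linarith
      · intro x _
        simp only [mul_sub, Finset.sum_sub_distrib, sum_const hk]
        exact sub_le_sub_left (ey x).le 1
    · by_cases h : x = 10
      · subst h
        have : ∀ b, nx 10 a b = 10 := fun _ => rfl
        simp only [this, ← Finset.sum_mul, hτ.2, one_mul]
        linarith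
      · rw [← up1 σ τ x a]
        exact onestep (T := {10}) (s := x) hk (ker_st (up_sx hσ x a) hτ) h (ne1 σ τ x a) ep (n1 x _ (up_sx hσ x a))
    · by_cases h : x = 11
      · subst h
        have : ∀ a, nx 11 a b = 11 := fun _ => rfl
        simp only [this, ← Finset.sum_mul, hσ.2, one_mul]
        linarith
      · rw [← up2 σ τ x b]
        exact onestep (T := {11}) (s := x) hk (ker_st hσ (up_sx hτ x b)) h (ne2 σ τ x b) ep (n2 x _ (up_sx hτ x b))
  obtain ⟨x0, x1, -, -⟩ := eqs hσ hτ ex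
  obtain ⟨y0, y1, -, -⟩ := eqs hσ hτ ey
  have p0 := hσ.1 0 0
  have p1 := sx_le hσ.1 hσ.2 0 0
  have q0 := hτ.1 1 0
  have q1 := sx_le hτ.1 hτ.2 1 0
  -- the two waiting deviations
  have w1 : 0 < τ 1 0 → RR nx (ker σ τ) {10} 5 ≤ RR nx (ker σ τ) {10} 0 + e := fun hq => by
    by_contra hc
    push Not at hc
    have hσ' := up_sx hσ 0 1
    have im := improve (next := nx) (T := {10}) hk (ker_st hσ' hτ) (s := 0) (by decide)
      (ne1 σ τ 0 1) (by
        rw [up1]
        have : ∀ b, nx 0 1 b = 1 := fun _ => rfl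
        simp only [this, ← Finset.sum_mul, hτ.2, one_mul]
        nlinarith) 5
    obtain ⟨z0, z1, -, -⟩ := eqs hσ' hτ (eqn_of hσ' hτ 10 (by decide))
    have : up σ 0 1 0 0 = 0 := by simp [up]
    rw [this] at z0
    have := n1 0 _ hσ'
    have h5 : RR nx (ker (up σ 0 1) τ) {10} 5 = RR nx (ker (up σ 0 1) τ) {10} 0 := by
      refine mul_left_cancel₀ hq.ne' ?_
      linarith
    linarith
  have w2 : 0 < σ 0 0 → RR nx (ker σ τ) {11} 4 ≤ RR nx (ker σ τ) {11} 1 + e := fun hq => by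
    by_contra hc
    push Not at hc
    have hτ' := up_sx hτ 1 1
    have im := improve (next := nx) (T := {11}) hk (ker_st hσ hτ') (s := 1) (by decide)
      (ne2 σ τ 1 1) (by
        rw [up2]
        have : ∀ a, nx 1 a 1 = 0 := fun _ => rfl
        simp only [this, ← Finset.sum_mul, hσ.2, one_mul]
        nlinarith) 4
    obtain ⟨z0, z1, -, -⟩ := eqs hσ hτ' (eqn_of hσ hτ' 11 (by decide))
    have : up τ 1 1 1 0 = 0 := by simp [up]
    rw [this] at z1
    have := n2 1 _ hτ'
    have h5 : RR nx (ker σ (up τ 1 1)) {11} 4 = RR nx (ker σ (up τ 1 1)) {11} 1 := by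
      refine mul_left_cancel₀ hq.ne' ?_
      linarith
    linarith
  by_cases hD : σ 0 0 + τ 1 0 - σ 0 0 * τ 1 0 = 0
  · have hp : σ 0 0 = 0 := by nlinarith
    have hq : τ 1 0 = 0 := by nlinarith
    have z : RR nx (ker σ τ) {10} 0 ≤ 0 := by
      have := least (next := nx) (T := {10}) hk
        (w := fun x => if x = 0 ∨ x = 1 then 0 else RR nx (ker σ τ) {10} x)
        (fun x => by split_ifs; exact le_rfl; exact RR_nonneg hk x)
        (fun x hx => by rw [hx]; simpa using (RR_in (next := nx) (T := {10}) hk rfl).ge) ?_ 0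
      · simpa using this
      · intro x _
        by_cases hx : x = 0 ∨ x = 1
        · rcases hx with rfl | rfl
          · simp [nx, ker, Fin.sum_univ_four, hp]
          · simp [nx, ker, Fin.sum_univ_four, hq]
        · simp only [hx, if_false]
          refine le_trans (sum_mono (next := nx)
            (v := fun x => if x = 0 ∨ x = 1 then 0 else RR nx (ker σ τ) {10} x)
            (w := RR nx (ker σ τ) {10}) hk
            (fun x => by split_ifs; exact RR_nonneg hk x; exact le_rfl) x) (ex x).ge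
    obtain ⟨⟨a1, -⟩, -, ⟨c4, -, c6, -⟩, -⟩ := low hb
    obtain ⟨-, -, -, -, u0, -, -, u10, -⟩ := hb
    linarith [u0 8, u0 11, u0 3, u0 12]
  · have hD' : 0 < σ 0 0 + τ 1 0 - σ 0 0 * τ 1 0 := lt_of_le_of_ne (by nlinarith) (Ne.symm hD)
    generalize RR nx (ker σ τ) {10} = X at *
    generalize RR nx (ker σ τ) {11} = Y at *
    generalize σ 0 0 = p at *
    generalize τ 1 0 = q at *
    obtain ⟨s, hs⟩ : ∃ s, s * (p + q - p * q) = p := ⟨p / (p + q - p * q), by field_simp⟩
    have s0 : 0 ≤ s := by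
      by_contra hc
      push Not at hc
      nlinarith
    have s1 : s ≤ 1 := by
      by_contra hc
      push Not at hc
      nlinarith
    have hx0 : X 0 = s * X 4 + (1 - s) * X 5 := by
      refine mul_left_cancel₀ hD ?_
      linear_combination x0 + (1 - p) * x1 - (X 4 - X 5) * hs
    have hy0 : Y 0 = s * Y 4 + (1 - s) * Y 5 := by
      refine mul_left_cancel₀ hD ?_
      linear_combination y0 + (1 - p) * y1 - (Y 4 - Y 5) * hs
    obtain ⟨-, -, -, -, u0, v0, uv, -⟩ := id hb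
    refine hg σ τ X Y s ((1 - q) * s) e ep e1 hb ⟨by nlinarith, by nlinarith, s1, hx0, hy0,
      by rw [x1, hx0]; ring, by rw [y1, hy0]; ring, ?_, ?_⟩
    · rcases eq_or_lt_of_le q0 with h | h
      · subst h
        have : s = 1 := mul_right_cancel₀ hD (by linarith)
        rw [this]; linarith
      · have := w1 h
        nlinarith
    · rcases eq_or_lt_of_le p0 with h | h
      · subst h
        have : s = 0 := mul_right_cancel₀ hD (by linarith)
        rw [this]; linarith
      · have := w2 h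
        have t0 : 0 ≤ (1 - q) * s := by nlinarith
        have t1 : (1 - q) * s ≤ 1 := by nlinarith
        nlinarith

end Pool.Agent.H32.Rch
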