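import Pool.Agent.H32.RchC

set_option autoImplicit false

namespace Pool.Agent.H32.Rch

theorem core : ∃ e : ℝ, 0 < e ∧ ∀ σ τ : Sg, Sx σ → Sx τ → ∀ Y : Fin 13 → ℝ,
    Base σ τ (RR nx (ker σ τ) {10}) Y e →
    (0 < τ 1 0 → RR nx (ker σ τ) {10} 5 ≤ RR nx (ker σ τ) {10} 0 + e) →
    (0 < σ 0 0 → Y 4 ≤ Y 1 + e) → False := by
  obtain ⟨e0, he0, hg⟩ := gap
  refine ⟨min (e0 / 2) (1 / 100), by positivity, fun σ τ hσ hτ Y hb w1 w2 => ?_⟩
  generalize he : min (e0 / 2) (1 / 100) = e at hb w1 w2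
  have ep : 0 ≤ e := by rw [← he]; positivity
  have e1 : e < e0 := by rw [← he]; exact (min_le_left _ _).trans_lt (by linarith)
  have e2 : e ≤ 1 / 100 := by rw [← he]; exact min_le_right _ _
  have hk := ker_st hσ hτ
  have ex := eqn_of hσ hτ 10 (by decide)
  have ey : Eqn σ τ Y := hb.2.2.2.2.2.2.2.2.2.2.2.2.1
  obtain ⟨x0, x1, -, -⟩ := eqs hσ hτ ex
  obtain ⟨y0, y1, -, -⟩ := eqs hσ hτ ey
  have p0 := hσ.1 0 0
  have p1 := sx_le hσ.1 hσ.2 0 0
  have q0 := hτ.1 1 0
  have q1 := sx_le hτ.1 hτ.2 1 0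
  by_cases hD : σ 0 0 + τ 1 0 - σ 0 0 * τ 1 0 = 0
  · have hp : σ 0 0 = 0 := by nlinarith
    have hq : τ 1 0 = 0 := by nlinarith
    have z : RR nx (ker σ τ) {10} 0 ≤ 0 := by
      have := least (next := nx) (T := {10}) hk
        (w := fun x => if x = 0 ∨ x = 1 then 0 else RR nx (ker σ τ) {10} x)
        (fun x => by split_ifs; exact le_rfl; exact RR_nonneg hk x)
        (fun x hx => by rw [hx]; simpa using (RR_in (next := nx) (T := {10}) hk rfl).ge) ?_ 0
      · simpa using this
      · intro x _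
        by_cases hx : x = 0 ∨ x = 1
        · rcases hx with rfl | rfl
          · simp [nx, ker, Fin.sum_univ_four, hp]
          · simp [nx, ker, Fin.sum_univ_four, hq]
        · simp only [hx, if_false]
          refine le_trans (sum_mono (next := nx)
            (v := fun x => if x = 0 ∨ x = 1 then 0 else RR nx (ker σ τ) {10} x)
            (w := RR nx (ker σ τ) {10}) hk
            (fun x => by split_ifs; exact RR_nonneg hk x; exact le_rfl) x) (ex x).ge
    obtain ⟨⟨a1, -⟩, -, ⟨c4, -, c6, -⟩, -⟩ := low hb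
    obtain ⟨-, -, -, -, u0, -, -, u10, -⟩ := hb
    linarith [u0 8, u0 11, u0 3, u0 12]
  · have hD' : 0 < σ 0 0 + τ 1 0 - σ 0 0 * τ 1 0 := lt_of_le_of_ne (by nlinarith) (Ne.symm hD)
    generalize RR nx (ker σ τ) {10} = X at *
    generalize σ 0 0 = p at *
    generalize τ 1 0 = q at *
    obtain ⟨s, hs⟩ : ∃ s, s * (p + q - p * q) = p := ⟨p / (p + q - p * q), by field_simp⟩
    have s0 : 0 ≤ s := by
      by_contra hc
      push Not at hc
      nlinarith
    have s1 : s ≤ 1 := by
      by_contra hc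
      push Not at hc
      nlinarith
    have hx0 : X 0 = s * X 4 + (1 - s) * X 5 := by
      refine mul_left_cancel₀ hD ?_
      linear_combination x0 + (1 - p) * x1 - (X 4 - X 5) * hs
    have hy0 : Y 0 = s * Y 4 + (1 - s) * Y 5 := by
      refine mul_left_cancel₀ hD ?_
      linear_combination y0 + (1 - p) * y1 - (Y 4 - Y 5) * hs
    obtain ⟨-, -, -, -, u0, v0, uv, -⟩ := id hb
    refine hg σ τ X Y s ((1 - q) * s) e ep e1 hb ⟨by nlinarith, by nlinarith, s1, hx0, hy0,
      by rw [x1, hx0]; ring, by rw [y1, hy0]; ring, ?_, ?_⟩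
    · rcases eq_or_lt_of_le q0 with h | h
      · subst h
        have : s = 1 := mul_right_cancel₀ hD (by linarith)
        rw [this]; linarith
      · have := w1 h
        nlinarith
    · rcases eq_or_lt_of_le p0 with h | h
      · subst h
        have : s = 0 := mul_right_cancel₀ hD (by linarith)
        rw [this]; linarith
      · have := w2 h
        have t0 : 0 ≤ (1 - q) * s := by nlinarith
        have t1 : (1 - q) * s ≤ 1 := by nlinarith
        nlinarith

theorem eqnU {σ τ : Sg} (hσ : Sx σ) (hτ : Sx τ) : Eqn σ τ (RR nx (ker σ τ) {10, 12}) := by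
  intro x
  by_cases h : x ∈ ({10, 12} : Set (Fin 13))
  · have : ∀ a b, nx x a b = x := by
      rcases h with rfl | rfl <;> exact fun _ _ => rfl
    simp only [this]
    exact (sum_const (ker_st hσ hτ) _ x).symm
  · exact RR_out (ker_st hσ hτ) h

theorem one_le_sum {f g : Fin 13 → ℝ} {e : ℝ} (h : ∀ y, f y ≤ g y) (hs : ∑ y, g y ≤ ∑ y, f y + e)
    (x : Fin 13) : g x ≤ f x + e := by
  have := Finset.single_le_sum (f := fun y => g y - f y) (fun y _ => sub_nonneg.2 (h y))
    (Finset.mem_univ x)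
  rw [Finset.sum_sub_distrib] at this
  linarith

/-- Reachability against safety, summed over all initial states. -/
theorem main2 : ∃ e : ℝ, 0 < e ∧ ∀ σ τ : Sg, Sx σ → Sx τ →
    (∀ σ', Sx σ' → ∑ s, RR nx (ker σ' τ) {10} s ≤ ∑ s, RR nx (ker σ τ) {10} s + e) →
    (∀ τ', Sx τ' → ∑ s, RR nx (ker σ τ) {10, 12} s ≤ ∑ s, RR nx (ker σ τ') {10, 12} s + e) →
    False := by
  obtain ⟨e, ep, hc⟩ := core
  refine ⟨e, ep, fun σ τ hσ hτ n1 n2 => ?_⟩
  have hk := ker_st hσ hτ
  have ex := eqn_of hσ hτ 10 (by decide)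
  have eu := eqnU hσ hτ
  have down : ∀ x b, ∑ a, σ x a * RR nx (ker σ τ) {10, 12} (nx x a b) ≤ RR nx (ker σ τ) {10, 12} x →
      ∀ y, RR nx (ker σ (up τ x b)) {10, 12} y ≤ RR nx (ker σ τ) {10, 12} y := fun x b h =>
    least (ker_st hσ (up_sx hτ x b)) (RR_nonneg hk) (fun y hy => (RR_in hk hy).ge) fun z hz => by
      by_cases hzx : z = x
      · subst hzx; rw [up2]; exact h
      · rw [ne2 σ τ x b z hzx]; exact (eu z).ge
  have u11 : RR nx (ker σ τ) {10, 12} 11 = 0 := by
    refine le_antisymm ?_ (RR_nonneg hk _)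
    have := least (next := nx) (T := {10, 12}) hk (w := fun x => if x = 11 then 0 else 1)
      (fun x => by split_ifs <;> norm_num) (fun x hx => by rcases hx with rfl | rfl <;> simp) ?_ 11
    · simpa using this
    · intro x _
      by_cases hx : x = 11
      · subst hx; simp [nx]
      · simp only [hx, if_false]
        refine le_trans (sum_mono (next := nx) (v := fun x => if x = 11 then 0 else 1)
          (w := fun _ => 1) hk (fun x => by split_ifs <;> norm_num) x) (sum_const hk 1 x).le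
  refine hc σ τ hσ hτ (fun x => 1 - RR nx (ker σ τ) {10, 12} x) ?_ (fun hq => ?_) (fun hq => ?_)
  · refine ⟨hσ.1, hσ.2, hτ.1, hτ.2, RR_nonneg hk, fun x => sub_nonneg.2 (RR_le_one hk x),
      fun x => ?_, RR_in hk rfl, by simp [u11], zero_at hσ hτ 10 12 (by decide) (by decide),
      by simp [RR_in (next := nx) (T := {10, 12}) (x := 12) hk (by simp)], ex, fun x => ?_,
      fun x a => ?_, fun x b => ?_⟩
    · have := least (next := nx) (T := {10}) hk (w := RR nx (ker σ τ) {10, 12}) (RR_nonneg hk)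
        (fun x hx => (RR_in hk (Or.inl hx)).ge) (fun x _ => (eu x).ge) x
      linarith
    · have := sum_const hk 1 x
      simp only [ker] at this
      simp only [mul_sub, Finset.sum_sub_distrib, this, ← eu x]
    · by_cases h : x = 10
      · subst h
        have : ∀ b, nx 10 a b = 10 := fun _ => rfl
        simp only [this, ← Finset.sum_mul, hτ.2, one_mul]
        linarith
      · by_cases h2 : RR nx (ker σ τ) {10} x < ∑ b, τ x b * RR nx (ker σ τ) {10} (nx x a b)
        · have hσ' := up_sx hσ x a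
          have im := improve (next := nx) (T := {10}) hk (ker_st hσ' hτ) (s := x) h
            (ne1 σ τ x a) (by rw [up1]; exact h2)
          rw [← up1 σ τ x a]
          exact onestep (T := {10}) (s := x) hk (ker_st hσ' hτ) h (ne1 σ τ x a) ep.le
            (one_le_sum im (n1 _ hσ') x)
        · push Not at h2; linarith
    · simp only [mul_sub, Finset.sum_sub_distrib, mul_one, hσ.2]
      by_cases h2 : ∑ a, σ x a * RR nx (ker σ τ) {10, 12} (nx x a b) ≤ RR nx (ker σ τ) {10, 12} x
      · have hτ' := up_sx hτ x b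
        have d := down x b h2
        have h3 := one_le_sum d (n2 _ hτ') x
        have h4 := eqnU hσ hτ' x
        have h5 := sum_mono (next := nx) (ker_st hσ hτ') d x
        rw [up2 σ τ x b (RR nx (ker σ τ) {10, 12})] at h5
        simp only [ker] at h5 h4 h3 ⊢
        linarith
      · push Not at h2; linarith
  · obtain ⟨x0, x1, -, -⟩ := eqs hσ hτ ex
    by_contra hc
    push Not at hc
    have hσ' := up_sx hσ 0 1
    have im := improve (next := nx) (T := {10}) hk (ker_st hσ' hτ) (s := 0) (by decide)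
      (ne1 σ τ 0 1) (by
        rw [up1]
        have : ∀ b, nx 0 1 b = 1 := fun _ => rfl
        simp only [this, ← Finset.sum_mul, hτ.2, one_mul]
        nlinarith)
    obtain ⟨z0, z1, -, -⟩ := eqs hσ' hτ (eqn_of hσ' hτ 10 (by decide))
    have : up σ 0 1 0 0 = 0 := by simp [up]
    rw [this] at z0
    have := one_le_sum im (n1 _ hσ') 0
    have h5 : RR nx (ker (up σ 0 1) τ) {10} 5 = RR nx (ker (up σ 0 1) τ) {10} 0 := by
      refine mul_left_cancel₀ hq.ne' ?_
      linarith
    linarith [im 5]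
  · obtain ⟨y0, y1, -, -⟩ := eqs hσ hτ eu
    by_contra hc
    push Not at hc
    have hτ' := up_sx hτ 1 1
    have d := down 1 1 (by
        have : ∀ a, nx 1 a 1 = 0 := fun _ => rfl
        simp only [this, ← Finset.sum_mul, hσ.2, one_mul]
        nlinarith)
    obtain ⟨z0, z1, -, -⟩ := eqs hσ hτ' (eqnU hσ hτ')
    have : up τ 1 1 1 0 = 0 := by simp [up]
    rw [this] at z1
    have := one_le_sum d (n2 _ hτ') 1
    have h5 : RR nx (ker σ (up τ 1 1)) {10, 12} 4 = RR nx (ker σ (up τ 1 1)) {10, 12} 1 := by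
      refine mul_left_cancel₀ hq.ne' ?_
      linarith
    linarith [d 4]

/-- The game with a uniformly random first move. -/
noncomputable def dl : Option (Fin 13) → Fin 4 → Fin 4 → Option (Fin 13) → ℝ
  | none, _, _, none => 0
  | none, _, _, some _ => 1 / 13
  | some x, a, b, t => if t = some (nx x a b) then 1 else 0

def lift (T : Set (Fin 13)) : Set (Option (Fin 13)) := {o | o.elim False (· ∈ T)}

theorem dl_nonneg : ∀ s a b t, 0 ≤ dl s a b t := by
  rintro (_ | x) a b (_ | t) <;> simp only [dl] <;> first | positivity | (split_ifs <;> norm_num)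

theorem dl_sum : ∀ s a b, ∑ t, dl s a b t = 1 := by
  rintro (_ | x) a b
  · simp [dl, Fintype.sum_option]
  · simp [dl]

abbrev So := Option (Fin 13) → Fin 4 → ℝ

noncomputable def G (σ τ : So) (T : Set (Option (Fin 13))) (x : Option (Fin 13) → ℝ) :
    Option (Fin 13) → ℝ :=
  T.indicator (fun _ => (1 : ℝ)) +
    Tᶜ.indicator (fun s => ∑ t, (∑ a, ∑ b, σ s a * τ s b * dl s a b t) * x t)

theorem G_some (σ τ : So) (T : Set (Fin 13)) (v : Option (Fin 13) → ℝ) (x : Fin 13) :
    G σ τ (lift T) v (some x) =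
      F nx (ker (fun y => σ (some y)) fun y => τ (some y)) T (fun y => v (some y)) x := by
  by_cases h : x ∈ T
  · rw [F_in h]
    have : some x ∈ lift T := h
    simp [G, this]
  · rw [F_out h]
    have : some x ∉ lift T := h
    simp only [G, Pi.add_apply, Set.indicator_of_notMem this, zero_add,
      Set.indicator_of_mem (Set.mem_compl this), Finset.sum_mul]
    rw [Finset.sum_comm]
    refine Finset.sum_congr rfl fun a _ => ?_
    rw [Finset.sum_comm]
    refine Finset.sum_congr rfl fun b _ => ?_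
    simp [dl, ker]

theorem G_none (σ τ : So) (hσ : ∑ a, σ none a = 1) (hτ : ∑ a, τ none a = 1) (T : Set (Fin 13))
    (v : Option (Fin 13) → ℝ) : G σ τ (lift T) v none = (∑ y, v (some y)) / 13 := by
  have : none ∉ lift T := id
  simp only [G, Pi.add_apply, Set.indicator_of_notMem this, zero_add,
    Set.indicator_of_mem (Set.mem_compl this), Fintype.sum_option, dl, ← Finset.sum_mul,
    ← Finset.mul_sum, hσ, hτ]
  ring

theorem G_it (σ τ : So) (T : Set (Fin 13)) (n : ℕ) :
    (fun y => (G σ τ (lift T))^[n + 1] 0 (some y)) =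
      (F nx (ker (fun y => σ (some y)) fun y => τ (some y)) T)^[n]
        (T.indicator fun _ => (1 : ℝ)) := by
  induction n with
  | zero =>
    funext y
    rw [Function.iterate_succ_apply', G_some]
    simp [F]
  | succ n ih =>
    funext y
    rw [Function.iterate_succ_apply', G_some, ih, Function.iterate_succ_apply']

theorem G_sup (σ τ : So) (h1 : ∀ s a, 0 ≤ σ s a) (h2 : ∀ s, ∑ a, σ s a = 1)
    (h3 : ∀ s a, 0 ≤ τ s a) (h4 : ∀ s, ∑ a, τ s a = 1) (T : Set (Fin 13)) :
    ⨆ n : ℕ, (G σ τ (lift T))^[n] 0 none =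
      (∑ y, RR nx (ker (fun y => σ (some y)) fun y => τ (some y)) T y) / 13 := by
  have hk : St (ker (fun y => σ (some y)) fun y => τ (some y)) :=
    ker_st ⟨fun _ => h1 _, fun _ => h2 _⟩ ⟨fun _ => h3 _, fun _ => h4 _⟩
  have e : ∀ n, (G σ τ (lift T))^[n + 2] 0 none = (∑ y, (F nx (ker (fun y => σ (some y))
      fun y => τ (some y)) T)^[n] (T.indicator fun _ => (1 : ℝ)) y) / 13 := fun n => by
    rw [Function.iterate_succ_apply', G_none σ τ (h2 _) (h4 _), ← G_it]
  have p : 0 ≤ (∑ y, RR nx (ker (fun y => σ (some y)) fun y => τ (some y)) T y) / 13 :=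
    div_nonneg (Finset.sum_nonneg fun y _ => RR_nonneg hk y) (by norm_num)
  have ub : ∀ n, (G σ τ (lift T))^[n] 0 none ≤
      (∑ y, RR nx (ker (fun y => σ (some y)) fun y => τ (some y)) T y) / 13 := by
    rintro (_ | _ | n)
    · exact p
    · rw [Function.iterate_succ_apply', G_none σ τ (h2 _) (h4 _)]
      simpa using p
    · rw [e]
      exact div_le_div_of_nonneg_right
        (Finset.sum_le_sum fun y _ => le_ciSup (bdd hk y) n) (by norm_num)
  refine le_antisymm (ciSup_le ub) ?_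
  refine le_of_tendsto' ((tendsto_finsetSum _ fun y _ => tend hk y).div_const 13) fun n => ?_
  rw [← e]
  exact le_ciSup (f := fun n => (G σ τ (lift T))^[n] 0 none) ⟨_, by rintro _ ⟨n, rfl⟩; exact ub n⟩ _

theorem main3 : ∃ e : ℝ, 0 < e ∧ ∀ σ τ : So, (∀ s a, 0 ≤ σ s a) → (∀ s, ∑ a, σ s a = 1) →
    (∀ s a, 0 ≤ τ s a) → (∀ s, ∑ a, τ s a = 1) →
    (∀ σ' : So, (∀ s a, 0 ≤ σ' s a) → (∀ s, ∑ a, σ' s a = 1) →
      ⨆ n : ℕ, (G σ' τ (lift {10}))^[n] 0 none ≤ (⨆ n : ℕ, (G σ τ (lift {10}))^[n] 0 none) + e) →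
    (∀ τ' : So, (∀ s a, 0 ≤ τ' s a) → (∀ s, ∑ a, τ' s a = 1) →
      ⨆ n : ℕ, (G σ τ (lift {10, 12}))^[n] 0 none ≤
        (⨆ n : ℕ, (G σ τ' (lift {10, 12}))^[n] 0 none) + e) → False := by
  obtain ⟨e, ep, hm⟩ := main2
  refine ⟨e / 13, by positivity, fun σ τ h1 h2 h3 h4 n1 n2 => ?_⟩
  refine hm (fun y => σ (some y)) (fun y => τ (some y)) ⟨fun _ => h1 _, fun _ => h2 _⟩
    ⟨fun _ => h3 _, fun _ => h4 _⟩ (fun ρ hρ => ?_) (fun ρ hρ => ?_)
  · have a1 : ∀ s a, 0 ≤ (fun o : Option (Fin 13) => o.elim (σ none) ρ) s a := by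
      rintro (_ | s) a
      · exact h1 _ _
      · exact hρ.1 _ _
    have a2 : ∀ s, ∑ a, (fun o : Option (Fin 13) => o.elim (σ none) ρ) s a = 1 := by
      rintro (_ | s)
      · exact h2 _
      · exact hρ.2 _
    have := n1 _ a1 a2
    rw [G_sup _ _ a1 a2 h3 h4, G_sup _ _ h1 h2 h3 h4] at this
    simp only [Option.elim] at this
    linarith
  · have a1 : ∀ s a, 0 ≤ (fun o : Option (Fin 13) => o.elim (τ none) ρ) s a := by
      rintro (_ | s) a
      · exact h3 _ _
      · exact hρ.1 _ _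
    have a2 : ∀ s, ∑ a, (fun o : Option (Fin 13) => o.elim (τ none) ρ) s a = 1 := by
      rintro (_ | s)
      · exact h4 _
      · exact hρ.2 _
    have := n2 _ a1 a2
    rw [G_sup _ _ h1 h2 a1 a2, G_sup _ _ h1 h2 h3 h4] at this
    simp only [Option.elim] at this
    linarith

end Pool.Agent.H32.Rch
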