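import Mathlib
import Pool.Agent.H32.FibreDeg

set_option autoImplicit false

namespace Pool.Agent.H32.Realis

open MvPolynomial Pool.Agent.H32.FibreDeg

theorem sqrt_ex (z : ℂ) : ∃ w : ℂ, w * w = z := by
  obtain ⟨w, hw⟩ := IsAlgClosed.exists_pow_nat_eq z (by norm_num : 0 < 2)
  exact ⟨w, by rw [← hw]; ring⟩

theorem rank_one {V : Type} (M : V → V → ℂ) (hs : ∀ a b, M a b = M b a)
    (h : ∀ a b c d, M a b * M c d = M a d * M c b) : ∃ y : V → ℂ, ∀ a b, M a b = y a * y b := by
  by_cases h0 : ∃ a, M a a ≠ 0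
  · obtain ⟨a, ha⟩ := h0
    obtain ⟨w, hw⟩ := sqrt_ex (M a a)
    have hw0 : w ≠ 0 := by rintro rfl; exact ha (by rw [← hw]; ring)
    refine ⟨fun b => M a b / w, fun b c => ?_⟩
    field_simp
    have := h a a b c
    rw [hs b a] at this
    linear_combination this + M b c * hw
  · push Not at h0
    refine ⟨fun _ => 0, fun b c => ?_⟩
    have := h b c c b
    rw [h0 b, hs c b, zero_mul] at this
    simpa using this

theorem rank_two {V : Type} (M : V → V → ℂ) (hs : ∀ a b, M a b = M b a)
    (h : ∀ a b c d e f, M a d * (M b e * M c f - M b f * M c e) -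
      M a e * (M b d * M c f - M b f * M c d) + M a f * (M b d * M c e - M b e * M c d) = 0) :
    ∃ x y : V → ℂ, ∀ a b, M a b = x a * x b + y a * y b := by
  by_cases h0 : ∃ a, M a a ≠ 0
  · obtain ⟨u, hu⟩ := h0
    obtain ⟨w, hw⟩ := sqrt_ex (M u u)
    have hw0 : w ≠ 0 := by rintro rfl; exact hu (by rw [← hw]; ring)
    obtain ⟨y, hy⟩ := rank_one (fun a b => M a b - M u a * M u b / M u u)
      (fun a b => by rw [hs a b, mul_comm]) (fun a b c d => by
        have := h u a c u b d
        rw [hs a u, hs c u] at this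
        field_simp
        linear_combination M u u * this)
    refine ⟨fun b => M u b / w, y, fun a b => ?_⟩
    rw [← hy a b, div_mul_div_comm, hw]
    ring
  · push Not at h0
    by_cases h1 : ∃ a b, M a b ≠ 0
    · obtain ⟨a, b, hab⟩ := h1
      refine ⟨fun c => M a c / 2 + M b c / M a b,
        fun c => Complex.I * (M a c / 2 - M b c / M a b), fun c d => ?_⟩
      have := h a b c a b d
      rw [h0 a, h0 b, hs b a, hs c a, hs c b] at this
      have hI : Complex.I * Complex.I = -1 := Complex.I_mul_I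
      have e : M c d = (M a c * M b d + M b c * M a d) / M a b := by
        field_simp
        apply mul_left_cancel₀ hab
        linear_combination -this
      rw [e]
      field_simp
      linear_combination (-(M a c * M a b - 2 * M b c) * (M a d * M a b - 2 * M b d)) * hI
    · push Not at h1
      exact ⟨fun _ => 0, fun _ => 0, fun a b => by simp [h1]⟩

variable (V : Type)

noncomputable def D (u v : V) : MvPolynomial (V × Fin 2) ℚ :=
  ∑ k : Fin 2, (X (u, k) - X (v, k)) ^ 2

noncomputable def B : Subalgebra ℚ (MvPolynomial (V × Fin 2) ℚ) :=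
  Algebra.adjoin ℚ (Set.range fun x : V × V => D V x.1 x.2)

variable {V}

noncomputable def δ (u v : V) : B V := ⟨D V u v, Algebra.subset_adjoin ⟨(u, v), rfl⟩⟩

theorem δ_symm (u v : V) : δ u v = δ v u := by
  apply Subtype.ext
  simp only [δ, D, Fin.sum_univ_two]
  ring

def dd (r : V → Fin 2 → ℂ) (u v : V) : ℂ := ∑ k : Fin 2, (r u k - r v k) ^ 2

noncomputable def ev (r : V → Fin 2 → ℂ) : B V →+* ℂ :=
  ((aeval fun x : V × Fin 2 => r x.1 x.2).comp (B V).val).toRingHom

theorem ev_δ (r : V → Fin 2 → ℂ) (u v : V) : ev r (δ u v) = dd r u v := by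
  simp [ev, δ, D, dd]

theorem hom_ext (ψ ψ' : B V →+* ℂ) (h : ∀ u v, ψ (δ u v) = ψ' (δ u v)) : ψ = ψ' := by
  have : ψ.toRatAlgHom = ψ'.toRatAlgHom := by
    apply AlgHom.ext_of_eq_adjoin (S := B V) rfl
    rintro _ ⟨⟨u, v⟩, rfl⟩
    exact h u v
  ext x
  exact AlgHom.congr_fun this x

theorem exists_real (o : V) (ψ : B V →+* ℂ) : ∃ r, ψ = ev r := by
  let N : V → V → B V := fun u v => δ o u + δ o v - δ u v
  have hN : ∀ a b c d e f, N a d * (N b e * N c f - N b f * N c e) -
      N a e * (N b d * N c f - N b f * N c d) + N a f * (N b d * N c e - N b e * N c d) = 0 := by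
    intro a b c d e f
    apply Subtype.ext
    simp only [N, δ, D, Fin.sum_univ_two, Subalgebra.coe_add, Subalgebra.coe_sub,
      Subalgebra.coe_mul, Subalgebra.coe_zero]
    ring
  obtain ⟨x, y, hxy⟩ := rank_two (fun u v => ψ (N u v) / 2)
    (fun a b => by simp only [N, δ_symm a b, add_comm]) (fun a b c d e f => by
      have := congrArg ψ (hN a b c d e f)
      simp only [map_add, map_sub, map_mul, map_zero] at this
      linear_combination this / 8)
  refine ⟨fun u => ![x u, y u], hom_ext _ _ fun u v => ?_⟩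
  have h0 : ∀ u : V, δ u u = 0 := fun u => Subtype.ext (by simp [δ, D])
  have h1 := hxy u u
  have h2 := hxy v v
  have h3 := hxy u v
  simp only [N, h0, map_add, map_sub, map_zero] at h1 h2 h3
  simp only [ev_δ, dd, Fin.sum_univ_two, Matrix.cons_val_zero, Matrix.cons_val_one]
  linear_combination h1 + h2 - 2 * h3

def Cl (G : SimpleGraph V) (q : V → Fin 2 → ℂ) : Set (Set (V → Fin 2 → ℂ)) :=
  {K | ∃ r : V → Fin 2 → ℂ, (∀ u v, G.Adj u v → dd r u v = dd q u v) ∧
    K = {s | ∀ u v, dd s u v = dd r u v}}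

noncomputable def δe (e : Sym2 V) : B V := Sym2.lift ⟨fun u v => δ u v, δ_symm⟩ e

noncomputable abbrev alg (G : SimpleGraph V) : Algebra (MvPolynomial G.edgeSet ℚ) (B V) :=
  (aeval (fun e : G.edgeSet => δe e.1) : MvPolynomial G.edgeSet ℚ →ₐ[ℚ] B V).toRingHom.toAlgebra

theorem cl_eq (G : SimpleGraph V) (o : V) (q : V → Fin 2 → ℂ) :
    letI := alg G
    (Cl G q).encard = (H (B V) ((ev q).comp (algebraMap (MvPolynomial G.edgeSet ℚ) (B V)))).encard := by
  letI := alg G
  have hX : ∀ e : G.edgeSet, algebraMap (MvPolynomial G.edgeSet ℚ) (B V) (X e) = δe e.1 :=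
    fun e => aeval_X _ e
  let F : (B V →+* ℂ) → Set (V → Fin 2 → ℂ) := fun ψ => {s | ∀ u v, dd s u v = ψ (δ u v)}
  have hF : Function.Injective F := by
    intro ψ ψ' h
    obtain ⟨r, rfl⟩ := exists_real o ψ
    have : r ∈ F (ev r) := fun u v => (ev_δ r u v).symm
    rw [h] at this
    exact hom_ext _ _ fun u v => by rw [ev_δ, this u v]
  rw [← hF.encard_image]
  congr 1
  ext K
  constructor
  · rintro ⟨r, hr, rfl⟩
    refine ⟨ev r, ?_, by simp only [F, ev_δ]⟩
    apply MvPolynomial.ringHom_ext
    · intro a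
      exact RingHom.congr_fun (RingHom.ext_rat
        (((ev r).comp (algebraMap (MvPolynomial G.edgeSet ℚ) (B V))).comp C)
        (((ev q).comp (algebraMap (MvPolynomial G.edgeSet ℚ) (B V))).comp C)) a
    · rintro ⟨e, he⟩
      induction e using Sym2.ind with
      | h u v =>
        simp only [RingHom.coe_comp, Function.comp_apply, hX, δe, Sym2.lift_mk, ev_δ]
        exact hr u v he
  · rintro ⟨ψ, hψ, rfl⟩
    obtain ⟨r, rfl⟩ := exists_real o ψ
    refine ⟨r, fun u v huv => ?_, by simp only [F, ev_δ]⟩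
    have := RingHom.congr_fun hψ (X ⟨s(u, v), huv⟩)
    simpa only [RingHom.coe_comp, Function.comp_apply, hX, δe, Sym2.lift_mk, ev_δ] using this

noncomputable def fam (o o' : V) : Option ({w : V // w ≠ o ∧ w ≠ o'} × Fin 2) → B V
  | none => δ o o'
  | some (w, k) => δ (![o, o'] k) w.1

theorem fam_indep (o o' : V) (h : o ≠ o') : AlgebraicIndependent ℚ (fam o o') := by
  classical
  rw [algebraicIndependent_iff]
  intro P hP
  have key : ∀ t : Option ({w : V // w ≠ o ∧ w ≠ o'} × Fin 2) → ℂ, t none ≠ 0 →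
      aeval t P = 0 := by
    intro t ht
    obtain ⟨a, ha⟩ := sqrt_ex (t none)
    have ha0 : a ≠ 0 := by rintro rfl; exact ht (by rw [← ha]; ring)
    let x : {w : V // w ≠ o ∧ w ≠ o'} → ℂ :=
      fun w => (t none + t (some (w, 0)) - t (some (w, 1))) / (2 * a)
    choose y hy using fun w => sqrt_ex (t (some (w, 0)) - x w ^ 2)
    let r : V → Fin 2 → ℂ := fun w =>
      if hw : w ≠ o ∧ w ≠ o' then ![x ⟨w, hw⟩, y ⟨w, hw⟩] else if w = o then ![0, 0] else ![a, 0]
    have r0 : r o = ![0, 0] := by simp [r]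
    have r1 : r o' = ![a, 0] := by simp [r, h.symm]
    have r2 : ∀ w : {w : V // w ≠ o ∧ w ≠ o'}, r w.1 = ![x w, y w] := fun w => by
      simp [r, w.2]
    have ht' : t = fun i => (ev r).toRatAlgHom (fam o o' i) := by
      funext i
      rcases i with _ | ⟨w, k⟩
      · simp [fam, ev_δ, dd, r0, r1, ← ha, sq]
      · fin_cases k
        · simp only [fam, RingHom.toRatAlgHom_apply, ev_δ, dd, Fin.sum_univ_two, Fin.zero_eta,
            Matrix.cons_val_zero, Matrix.cons_val_one, r0, r2]
          linear_combination -hy w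
        · simp only [fam, RingHom.toRatAlgHom_apply, ev_δ, dd, Fin.sum_univ_two, Fin.mk_one,
            Matrix.cons_val_zero, Matrix.cons_val_one, r1, r2]
          have hx : x w * (2 * a) = t none + t (some (w, 0)) - t (some (w, 1)) :=
            div_mul_cancel₀ _ (mul_ne_zero two_ne_zero ha0)
          linear_combination -hy w - ha + hx
    rw [ht', ← comp_aeval_apply, hP, map_zero]
  have h2 : MvPolynomial.map (algebraMap ℚ ℂ) (X none * P) = 0 := by
    apply MvPolynomial.funext
    intro t
    rw [eval_map, ← aeval_def, map_mul, aeval_X, map_zero]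
    by_cases ht : t none = 0
    · rw [ht, zero_mul]
    · rw [key t ht, mul_zero]
  have h3 := MvPolynomial.map_injective (algebraMap ℚ ℂ) (algebraMap ℚ ℂ).injective
    (h2.trans (map_zero _).symm)
  exact (mul_eq_zero.1 h3).resolve_left (X_ne_zero _)

theorem main [Fintype V] (G : SimpleGraph V) (hc : G.edgeSet.ncard + 3 = 2 * Fintype.card V)
    (p q : V → Fin 2 → ℂ) (hp : AlgebraicIndependent ℚ (fun x : V × Fin 2 => p x.1 x.2))
    (hq : (Cl G q).Finite) : (Cl G q).encard ≤ (Cl G p).encard := by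
  classical
  have hV : 1 < Fintype.card V := by omega
  obtain ⟨o, o', hoo⟩ := Fintype.exists_pair_of_one_lt_card hV
  letI := alg G
  let A := MvPolynomial G.edgeSet ℚ
  have tower : IsScalarTower ℚ A (B V) := IsScalarTower.of_algebraMap_eq fun x => by
    exact ((aeval (fun e : G.edgeSet => δe e.1) : A →ₐ[ℚ] B V).commutes x).symm
  have ftQ : Algebra.FiniteType ℚ (B V) :=
    Algebra.FiniteType.adjoin_of_finite (Set.finite_range _)
  have ft : Algebra.FiniteType A (B V) := Algebra.FiniteType.of_restrictScalars_finiteType ℚ _ _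
  have hfin : (H (B V) ((ev q).comp (algebraMap A (B V)))).Finite := by
    rw [← Set.encard_lt_top_iff, ← cl_eq G o q, Set.encard_lt_top_iff]
    exact hq
  have halg := algebraic _ hfin (ev q) rfl
  let S := Algebra.adjoin ℚ (Set.range fun e : G.edgeSet => δe e.1)
  have hint : ∀ y : B V, IsIntegral A y → IsIntegral S y := by
    rintro y ⟨f, hf, hy⟩
    let g : A →+* S := (algebraMap A (B V)).codRestrict S (fun a => by
      have : S = _ := Algebra.adjoin_range_eq_range_aeval ℚ _
      rw [this]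
      exact ⟨a, rfl⟩)
    refine ⟨f.map g, hf.map g, ?_⟩
    rw [Polynomial.eval₂_map]
    exact hy
  have algS : Algebra.IsAlgebraic S (B V) := ⟨fun x => by
    obtain ⟨r, y, h0, h1, h2, h3⟩ := halg x
    exact IsAlgebraic.of_mul (mem_nonZeroDivisors_of_ne_zero h0) (hint r h1).isAlgebraic
      (h3 ▸ (hint y h2).isAlgebraic)⟩
  have hcard : Cardinal.mk G.edgeSet ≤ Algebra.trdeg ℚ (B V) := by
    refine le_trans ?_ (fam_indep o o' hoo).cardinalMk_le_trdeg
    rw [Cardinal.mk_fintype, Cardinal.mk_fintype, Nat.cast_le, Fintype.card_option,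
      Fintype.card_prod, Fintype.card_fin, ← Nat.card_eq_fintype_card, Nat.card_coe_set_eq,
      Fintype.card_subtype]
    have : (Finset.univ.filter fun w : V => w ≠ o ∧ w ≠ o') = (Finset.univ.erase o).erase o' := by
      ext w
      simp [and_comm]
    rw [this, Finset.card_erase_of_mem (by simp [hoo.symm]), Finset.card_erase_of_mem (by simp),
      Finset.card_univ]
    omega
  have hind := (Algebra.IsAlgebraic.isTranscendenceBasis_of_le_trdeg_of_finite ℚ
    (fun e : G.edgeSet => δe e.1) hcard).1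
  have hinj : Function.Injective (algebraMap A (B V)) := hind
  have faith : FaithfulSMul A (B V) := (faithfulSMul_iff_algebraMap_injective _ _).2 hinj
  have algA : Algebra.IsAlgebraic A (B V) := ⟨fun x => by
    obtain ⟨r, y, h0, h1, h2, h3⟩ := halg x
    exact IsAlgebraic.of_mul (mem_nonZeroDivisors_of_ne_zero h0) h1.isAlgebraic
      (h3 ▸ h2.isAlgebraic)⟩
  rw [cl_eq G o q, cl_eq G o p]
  refine FibreDeg.main _ _ hfin ?_
  have hp' : Function.Injective (aeval (R := ℚ) fun x : V × Fin 2 => p x.1 x.2) := hp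
  exact (hp'.comp Subtype.val_injective).comp hinj

end Pool.Agent.H32.Realis
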