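import Pool.Agent.H86.RoeA

set_option autoImplicit false

namespace Pool.Agent.H32.RigidExp

open Finset Classical Equiv Pool.Agent.H86.Roe

/-- An injective realisation in the plane `ℂ` of `G` with edge lengths `lam`. -/
def Realises {V : Type} (G : SimpleGraph V) (lam : Sym2 V → ℝ) (r : V → ℂ) : Prop :=
  Function.Injective r ∧ ∀ u v, G.Adj u v → ‖r u - r v‖ = lam s(u, v)

/-- Equivalence under a direct isometry `z ↦ a z + b`, `‖a‖ = 1`. -/
def Congr {V : Type} (r r' : V → ℂ) : Prop := ∃ a b : ℂ, ‖a‖ = 1 ∧ ∀ v, r v = a * r' v + b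

/-- Some positive labelling has infinitely many classes of injective realisations. -/
def Movable {V : Type} (G : SimpleGraph V) : Prop :=
  ∃ lam : Sym2 V → ℝ, (∀ e ∈ G.edgeSet, 0 < lam e) ∧ ∃ R : ℕ → V → ℂ,
    (∀ n, Realises G lam (R n)) ∧ ∀ m n, m ≠ n → ¬ Congr (R m) (R n)

/-- The number of edges with exactly one endpoint in `S`. -/
noncomputable def bd {V : Type} [Fintype V] (G : SimpleGraph V) (S : Finset V) : ℕ :=
  #{p : V × V | p.1 ∈ S ∧ p.2 ∉ S ∧ G.Adj p.1 p.2}

lemma circ (p q : ℂ) (h : p ≠ q) (r s : ℝ) : {z : ℂ | ‖z - p‖ = r ∧ ‖z - q‖ = s}.Finite := by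
  by_contra hf
  obtain ⟨t, ht, hc⟩ := Set.Infinite.exists_subset_card_eq hf 3
  obtain ⟨x, y, z, h1, h2, h3, rfl⟩ := card_eq_three.1 hc
  have hx := ht (show x ∈ _ by simp)
  have hy := ht (show y ∈ _ by simp)
  have hz := ht (show z ∈ _ by simp)
  simp only [Set.mem_ofPred_eq, ← dist_eq_norm] at hx hy hz
  rcases EuclideanGeometry.eq_of_dist_eq_of_dist_eq_of_finrank_eq_two Complex.finrank_real_complex
    h h1 hx.1 hy.1 hz.1 hx.2 hy.2 hz.2 with e | e
  exacts [h2 e.symm, h3 e.symm]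

lemma not_mov {V : Type} [Fintype V] (G : SimpleGraph V) (u v : V) (h : G.Adj u v)
    (cl : ∀ P : V → Prop, P u → P v →
      (∀ a b c, a ≠ b → G.Adj c a → G.Adj c b → P a → P b → P c) → ∀ w, P w) : ¬ Movable G := by
  rintro ⟨lam, hl, R, hR, hne⟩
  have hl' : 0 < lam s(v, u) := hl _ h.symm
  let N : Set (V → ℂ) := {r | Realises G lam r ∧ r u = 0 ∧ r v = lam s(v, u)}
  have fin : ∀ w, ((fun r => r w) '' N).Finite := by
    refine cl _ ((Set.finite_singleton 0).subset ?_) ((Set.finite_singleton (lam s(v, u) : ℂ)).subset ?_) ?_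
    · rintro _ ⟨r, hr, rfl⟩; exact hr.2.1
    · rintro _ ⟨r, hr, rfl⟩; exact hr.2.2
    · intro a b c hab ha hb fa fb
      refine (((fa.prod fb).subset (Set.sep_subset _ fun p => p.1 ≠ p.2)).biUnion
        fun p hp => circ p.1 p.2 hp.2 (lam s(c, a)) (lam s(c, b))).subset ?_
      rintro _ ⟨r, hr, rfl⟩
      exact Set.mem_biUnion (x := (r a, r b))
        ⟨⟨⟨r, hr, rfl⟩, ⟨r, hr, rfl⟩⟩, fun e => hab (hr.1.1 e)⟩ ⟨hr.1.2 _ _ ha, hr.1.2 _ _ hb⟩
  have fN : N.Finite := (Set.Finite.pi' fin).subset fun r hr w => ⟨r, hr, rfl⟩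
  have hd : ∀ n, R n v - R n u ≠ 0 := fun n => sub_ne_zero.2 fun e => h.ne ((hR n).1 e).symm
  let A : ℕ → ℂ := fun n => lam s(v, u) / (R n v - R n u)
  have hA : ∀ n, ‖A n‖ = 1 := fun n => by
    simp only [A, norm_div, (hR n).2 _ _ h.symm, Complex.norm_real, Real.norm_eq_abs, abs_of_pos hl']
    exact div_self hl'.ne'
  have hA0 : ∀ n, A n ≠ 0 := fun n e => by simpa [e] using hA n
  obtain ⟨m, -, n, -, hmn, e⟩ := Set.infinite_univ.exists_ne_map_eq_of_mapsTo
    (f := fun n w => A n * (R n w - R n u)) (t := N) (fun n _ => ⟨⟨fun a b e => (hR n).1 (by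
      simpa [hA0] using e), fun a b hab => by
        rw [← mul_sub, norm_mul, hA, one_mul, sub_sub_sub_cancel_right, (hR n).2 _ _ hab]⟩,
      by simp, div_mul_cancel₀ _ (hd n)⟩) fN
  refine hne m n hmn ⟨A n / A m, R m u - A n / A m * R n u, by simp [hA], fun w => ?_⟩
  have := congrFun e w
  have := hA0 m
  field_simp
  linear_combination ‹A m * (R m w - R m u) = _›

abbrev C := Fin 20 × Bool × Bool

variable {α : Type} [Fintype α] (τ : Fin 20 → Perm α)

noncomputable def f (x : α) (c d : C) : α :=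
  if c.1 = d.1 ∧ c.2.1 ≠ d.2.1 then (if c.2.1 then (τ c.1).symm x else τ c.1 x) else x

def G : SimpleGraph (α × C) where
  Adj u v := u.2 ≠ v.2 ∧ v.1 = f τ u.1 u.2 v.2
  symm := ⟨by
    rintro ⟨x, j, s, e⟩ ⟨y, j', s', e'⟩ ⟨h1, h2⟩
    obtain rfl : y = f τ x (j, s, e) (j', s', e') := h2
    refine ⟨h1.symm, ?_⟩
    by_cases hj : j = j'
    · subst hj; cases s <;> cases s' <;> simp [f]
    · simp [f, hj, Ne.symm hj]⟩
  loopless := ⟨fun _ h => h.1 rfl⟩

lemma reg : (G τ).IsRegularOfDegree 79 := fun v => by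
  have : (G τ).neighborFinset v = (univ.erase v.2).image fun d => (f τ v.1 v.2 d, d) := by
    ext ⟨y, d⟩
    simp only [SimpleGraph.mem_neighborFinset, G, mem_image, mem_erase, mem_univ, and_true,
      Prod.mk.injEq]
    exact ⟨fun h => ⟨d, h.1.symm, h.2.symm, rfl⟩, by rintro ⟨_, h, rfl, rfl⟩; exact ⟨h.symm, rfl⟩⟩
  rw [← SimpleGraph.card_neighborFinset_eq_degree, this,
    card_image_of_injective _ fun a b e => congrArg Prod.snd e]
  simp

lemma adj1 (x : α) {c d : C} (h : c.1 ≠ d.1) : (G τ).Adj (x, c) (x, d) :=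
  ⟨fun e => h (congrArg Prod.fst e), by simp [f, h]⟩

lemma adj2 (x : α) (j : Fin 20) (e e' : Bool) : (G τ).Adj (x, j, false, e) (τ j x, j, true, e') :=
  ⟨by simp, by simp [f]⟩

lemma third : ∀ i j : Fin 20, ∃ k, i ≠ k ∧ k ≠ j := by decide +kernel

lemma closure (hτ : Exp τ) (x0 : α) (P : α × C → Prop) (h1 : P (x0, 0, false, false))
    (h2 : P (x0, 0, false, true)) (cl : ∀ a b c, a ≠ b → (G τ).Adj c a → (G τ).Adj c b →
      P a → P b → P c) : ∀ w, P w := by
  have cloud : ∀ x j s, P (x, j, s, false) → P (x, j, s, true) → ∀ c, P (x, c) := by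
    intro x j s p q
    have o : ∀ c : C, c.1 ≠ j → P (x, c) := fun c hc =>
      cl _ _ _ (by simp) (adj1 τ x hc) (adj1 τ x hc) p q
    intro c
    obtain ⟨k, hk, hk'⟩ := third c.1 j
    exact cl (x, k, false, false) (x, k, false, true) _ (by simp) (adj1 τ x hk) (adj1 τ x hk)
      (o _ hk') (o _ hk')
  let S : Finset α := {x | ∀ c, P (x, c)}
  have hS : ∀ j x, x ∈ S ↔ τ j x ∈ S := fun j x => by
    simp only [S, mem_filter, mem_univ, true_and]
    refine ⟨fun h => cloud _ j true ?_ ?_, fun h => cloud _ j false ?_ ?_⟩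
    · exact cl _ _ _ (by simp) (adj2 τ x j false _).symm (adj2 τ x j true _).symm (h _) (h _)
    · exact cl _ _ _ (by simp) (adj2 τ x j false _).symm (adj2 τ x j true _).symm (h _) (h _)
    · exact cl _ _ _ (by simp) (adj2 τ x j _ false) (adj2 τ x j _ true) (h _) (h _)
    · exact cl _ _ _ (by simp) (adj2 τ x j _ false) (adj2 τ x j _ true) (h _) (h _)
  have h0 : x0 ∈ S := by simpa only [S, mem_filter, mem_univ, true_and] using cloud _ _ _ h1 h2
  have z : ∀ T : Finset α, (∀ j x, x ∈ T ↔ τ j x ∈ T) → 2 * #T ≤ Fintype.card α → T = ∅ := by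
    intro T hT h
    have := hτ T h
    rw [sum_eq_zero fun j _ => card_eq_zero.2 (filter_eq_empty_iff.2 fun y hy =>
      not_not.2 ((hT j y).1 hy))] at this
    exact card_eq_zero.1 (by omega)
  by_cases h : 2 * #S ≤ Fintype.card α
  · simp [z S hS h] at h0
  · have := z Sᶜ (fun j x => by rw [mem_compl, mem_compl, hS j]) (by rw [card_compl]; omega)
    rw [compl_eq_empty_iff] at this
    intro w
    have hw : w.1 ∈ S := this ▸ mem_univ _
    exact (mem_filter.1 hw).2 w.2

lemma expand (hτ : Exp τ) (S : Finset (α × C)) (hS : 2 * #S ≤ Fintype.card (α × C)) :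
    #S ≤ 32160 * bd (G τ) S := by
  have one : ∀ (c d : C) (g : α → α), (∀ x, (G τ).Adj (x, c) (g x, d)) →
      #{x | (x, c) ∈ S ∧ (g x, d) ∉ S} ≤ bd (G τ) S := fun c d g hg =>
    card_le_card_of_injOn (fun x => ((x, c), (g x, d)))
      (fun x hx => by
        simp only [coe_filter, mem_univ, true_and, Set.mem_ofPred_eq] at hx ⊢
        exact ⟨hx.1, hx.2, hg x⟩)
      fun x _ y _ e => congrArg (fun p => p.1.1) e
  have two : ∀ c d : C, #{x | (x, c) ∈ S ∧ (x, d) ∉ S} ≤ 2 * bd (G τ) S := fun c d => by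
    obtain ⟨k, hk, hk'⟩ := third c.1 d.1
    have a := one c (k, false, false) id fun x => adj1 τ x hk
    have b := one (k, false, false) d id fun x => adj1 τ x hk'
    refine (card_le_card fun x hx => ?_).trans ((card_union_le _ _).trans
      ((add_le_add a b).trans (le_of_eq (by ring))))
    simp only [mem_filter, mem_univ, true_and, mem_union, id] at hx ⊢
    tauto
  let L : C → Finset α := fun c => {x | (x, c) ∈ S}
  have sum : #S = ∑ c, #(L c) := by
    rw [card_eq_sum_card_fiberwise (f := Prod.snd) (t := univ) (by simp)]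
    refine sum_congr rfl fun c _ => card_bij (fun e _ => e.1) ?_ ?_ ?_
    · rintro ⟨x, d⟩ h; simp only [mem_filter] at h; obtain ⟨h, rfl⟩ := h; simpa [L] using h
    · rintro ⟨x, d⟩ h ⟨y, d'⟩ h' e
      simp only [mem_filter] at h h'; exact Prod.ext e (h.2.trans h'.2.symm)
    · intro x hx; exact ⟨(x, c), by simpa [L] using hx, rfl⟩
  obtain ⟨c, -, hc⟩ := exists_min_image univ (fun c => #(L c)) ⟨(0, false, false), mem_univ _⟩
  have lo := card_nsmul_le_sum univ _ _ hc
  have hi := sum_le_card_nsmul univ (fun d => #(L d)) (#(L c) + 2 * bd (G τ) S) fun d _ => by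
    refine (card_le_card fun x hx => ?_).trans ((card_union_le _ _).trans
      (add_le_add le_rfl (two d c)))
    simp only [L, mem_filter, mem_univ, true_and, mem_union] at hx ⊢
    clear * - hx
    tauto
  have hC : #(univ : Finset C) = 80 := by simp
  rw [Fintype.card_prod, ← card_univ (α := C), hC] at hS
  rw [hC, smul_eq_mul] at lo hi
  rw [← sum] at lo hi
  have e := hτ (L c) (by clear one two hc sum; omega)
  have e2 := sum_le_card_nsmul univ (fun j => #{y ∈ L c | τ j y ∉ L c}) (5 * bd (G τ) S) fun j _ => by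
    have a := two c (j, false, false)
    have b := one _ _ (τ j) fun x => adj2 τ x j false false
    have d : #{x | (τ j x, j, true, false) ∈ S ∧ (τ j x, c) ∉ S} ≤ 2 * bd (G τ) S :=
      le_trans (card_le_card_of_injOn (τ j) (fun x hx => by simpa using hx)
        (τ j).injective.injOn) (two (j, true, false) c)
    refine (card_le_card fun x hx => ?_).trans ((card_union_le _ _).trans ((add_le_add
      ((card_union_le _ _).trans (add_le_add a b)) d).trans (le_of_eq (by ring))))
    simp only [L, mem_filter, mem_univ, true_and, mem_union] at hx ⊢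
    clear * - hx
    tauto
  rw [card_univ, Fintype.card_fin, smul_eq_mul] at e2
  have e3 : #(L c) ≤ 400 * bd (G τ) S := e.trans ((Nat.mul_le_mul_left 4 e2).trans (le_of_eq (by ring)))
  clear one two hc sum e e2
  omega

end Pool.Agent.H32.RigidExp
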