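import Mathlib

set_option autoImplicit false

namespace Pool.Agent.H32.RotWalk

/-- A rotor mechanism: `nxt v` is a cyclic permutation of the neighbours of `v`. -/
def IsMechanism {V : Type} (G : SimpleGraph V) (nxt : V → V → V) : Prop :=
  ∀ v, Set.BijOn (nxt v) (G.neighborSet v) (G.neighborSet v) ∧
    ∀ a ∈ G.neighborSet v, ∀ b ∈ G.neighborSet v, ∃ k : ℕ, (nxt v)^[k] a = b

/-- The rotor walk: (position, rotor configuration) at time `t`. -/
def walk {V : Type} [DecidableEq V] (nxt : V → V → V) (r0 : V → V) (x0 : V) :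
    ℕ → V × (V → V)
  | 0 => (x0, r0)
  | t + 1 =>
    let p := walk nxt r0 x0 t
    (nxt p.1 (p.2 p.1), Function.update p.2 p.1 (nxt p.1 (p.2 p.1)))

def W := {p : ℕ × ℕ // p.2 < 2 ^ p.1}

instance : DecidableEq W := by unfold W; infer_instance

def mk (n j : ℕ) : W := ⟨(n, j % 2 ^ n), Nat.mod_lt _ (by positivity)⟩

def lev (v : W) : ℕ := v.1.1
def idx (v : W) : ℕ := v.1.2

lemma idx_lt (v : W) : idx v < 2 ^ lev v := v.2
@[simp] lemma lev_mk (n j : ℕ) : lev (mk n j) = n := rfl
lemma idx_mk {n j : ℕ} (h : j < 2 ^ n) : idx (mk n j) = j := Nat.mod_eq_of_lt h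
lemma idx_mk' (n j : ℕ) : idx (mk n j) = j % 2 ^ n := rfl
lemma ext' {a b : W} (h1 : lev a = lev b) (h2 : idx a = idx b) : a = b :=
  Subtype.ext (Prod.ext h1 h2)

def G : SimpleGraph W where
  Adj a b := lev a = lev b + 1 ∨ lev b = lev a + 1
  symm := ⟨fun _ _ h => h.symm⟩
  loopless := ⟨fun a h => by omega⟩

def nx (v w : W) : W :=
  if lev v = 0 then mk 1 (idx w + 1)
  else if lev w < lev v then mk (lev v + 1) (4 * idx w)
  else if idx w % 4 = 3 then mk (lev v - 1) (idx w / 4 + 1)
  else mk (lev v + 1) (idx w + 1)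

lemma adj_nx (v w : W) : G.Adj v (nx v w) := by
  show lev v = lev (nx v w) + 1 ∨ lev (nx v w) = lev v + 1
  unfold nx
  split_ifs <;> simp <;> omega

lemma layer_finite (n : ℕ) : {w : W | lev w = n}.Finite := by
  refine ((Finset.range (2 ^ n)).finite_toSet.image (mk n)).subset ?_
  intro w hw
  have hw' : lev w = n := hw
  have := idx_lt w
  rw [hw'] at this
  exact ⟨idx w, by simpa using this, ext' (by simp [hw']) (idx_mk this)⟩

lemma nb_finite (v : W) : (G.neighborSet v).Finite := by
  refine ((layer_finite (lev v - 1)).union (layer_finite (lev v + 1))).subset ?_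
  intro w hw
  rcases (hw : lev v = lev w + 1 ∨ lev w = lev v + 1) with h | h
  · left; show lev w = _; omega
  · right; exact h

instance : Infinite W := Infinite.of_injective (fun n => mk n 0) (fun a b h => by
  simpa using congrArg lev h)

lemma conn : G.Connected := by
  have h : ∀ n (v : W), lev v = n → G.Reachable (mk 0 0) v := by
    intro n
    induction n with
    | zero =>
      intro v hv
      have := idx_lt v
      rw [hv] at this
      have : mk 0 0 = v := ext' (by simp [hv]) (by rw [idx_mk (by norm_num)]; omega)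
      rw [this]
    | succ n ih =>
      intro v hv
      exact (ih (mk n 0) rfl).trans (SimpleGraph.Adj.reachable (Or.inr (by simpa using hv)))
  haveI : Nonempty W := ⟨mk 0 0⟩
  exact ⟨fun a b => (h _ a rfl).symm.trans (h _ b rfl)⟩

/-- position of a neighbour in the cyclic order -/
def pos (v w : W) : ℕ :=
  if lev v = 0 then idx w else if lev w < lev v then 5 * idx w else 5 * (idx w / 4) + idx w % 4 + 1

def per (v : W) : ℕ := if lev v = 0 then 2 else 5 * 2 ^ (lev v - 1)

lemma pos_facts (v : W) : (∀ a, G.Adj v a → pos v a < per v ∧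
    pos v (nx v a) = (pos v a + 1) % per v) ∧
    ∀ a b, G.Adj v a → G.Adj v b → pos v a = pos v b → a = b := by
  by_cases h0 : lev v = 0
  · constructor
    · intro a ha
      have hl : lev a = 1 := by rcases ha with h | h <;> omega
      have := idx_lt a
      rw [hl] at this
      simp only [pos, per, nx, h0, if_true, idx_mk']
      omega
    · intro a b ha hb h
      simp only [pos, h0, if_true] at h
      exact ext' (by rcases ha with h | h <;> rcases hb with h' | h' <;> omega) h
  · obtain ⟨n, hn⟩ : ∃ n, lev v = n + 1 := ⟨lev v - 1, by omega⟩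
    have e2 : 2 ^ (n + 1 + 1) = 4 * 2 ^ n := by ring
    constructor
    · intro a ha
      have hi := idx_lt a
      rcases ha with h | h
      · have hl : lev a = n := by omega
        rw [hl] at hi
        have h1 : 4 * idx a < 2 ^ (n + 1 + 1) := by omega
        simp only [pos, per, nx, hn, hl, Nat.add_one_ne_zero, if_false, Nat.lt_add_one, if_true,
          lev_mk, idx_mk h1, Nat.add_sub_cancel, show ¬ (n + 1 + 1 < n + 1) by omega]
        rw [Nat.mod_eq_of_lt (by omega : 5 * idx a + 1 < 5 * 2 ^ n)]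
        omega
      · have hl : lev a = n + 1 + 1 := by omega
        rw [hl] at hi
        by_cases h3 : idx a % 4 = 3
        · simp only [pos, per, nx, hn, hl, Nat.add_one_ne_zero, if_false, h3, if_true,
            lev_mk, idx_mk', Nat.add_sub_cancel, show ¬ (n + 1 + 1 < n + 1) by omega,
            Nat.lt_add_one]
          refine ⟨by omega, ?_⟩
          rw [show 5 * (idx a / 4) + 3 + 1 + 1 = 5 * (idx a / 4 + 1) by ring, Nat.mul_mod_mul_left]
        · have h1 : idx a + 1 < 2 ^ (n + 1 + 1) := by omega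
          simp only [pos, per, nx, hn, hl, Nat.add_one_ne_zero, if_false, h3,
            lev_mk, idx_mk h1, Nat.add_sub_cancel, show ¬ (n + 1 + 1 < n + 1) by omega]
          rw [Nat.mod_eq_of_lt (by omega : 5 * (idx a / 4) + idx a % 4 + 1 + 1 < 5 * 2 ^ n)]
          omega
    · intro a b ha hb h
      simp only [pos, h0, if_false] at h
      rcases ha with ha | ha <;> rcases hb with hb | hb <;>
        split_ifs at h <;> first | omega | exact ext' (by omega) (by omega)

lemma mech : IsMechanism G nx := by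
  intro v
  obtain ⟨h1, h2⟩ := pos_facts v
  have hit : ∀ a, G.Adj v a → ∀ k, G.Adj v ((nx v)^[k] a) ∧
      pos v ((nx v)^[k] a) = (pos v a + k) % per v := by
    intro a ha k
    induction k with
    | zero => exact ⟨ha, by simp [Nat.mod_eq_of_lt (h1 a ha).1]⟩
    | succ k ih =>
      rw [Function.iterate_succ_apply']
      refine ⟨adj_nx _ _, ?_⟩
      rw [(h1 _ ih.1).2, ih.2, Nat.mod_add_mod, add_assoc]
  have hm : Set.MapsTo (nx v) (G.neighborSet v) (G.neighborSet v) := fun a _ => adj_nx v a
  refine ⟨((nb_finite v).injOn_iff_bijOn_of_mapsTo hm).1 ?_, ?_⟩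
  · intro a ha b hb hab
    apply h2 a b ha hb
    have e := (h1 a ha).2.symm.trans ((congrArg (pos v) hab).trans (h1 b hb).2)
    have := Nat.ModEq.add_right_cancel' 1 e
    exact Nat.ModEq.eq_of_lt_of_lt this (h1 a ha).1 (h1 b hb).1
  · intro a ha b hb
    refine ⟨pos v b + per v - pos v a, h2 _ _ (hit a ha _).1 hb ?_⟩
    have := (h1 a ha).1
    rw [(hit a ha _).2, show pos v a + (pos v b + per v - pos v a) = pos v b + per v by omega,
      Nat.add_mod_right, Nat.mod_eq_of_lt (h1 b hb).1]

section
variable (r0 : W → W) (x0 : W)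

def X (t : ℕ) : W := (walk nx r0 x0 t).1
def R (t : ℕ) : W → W := (walk nx r0 x0 t).2

lemma X_succ (t : ℕ) : X r0 x0 (t + 1) = nx (X r0 x0 t) (R r0 x0 t (X r0 x0 t)) := rfl
lemma R_succ (t : ℕ) : R r0 x0 (t + 1) = Function.update (R r0 x0 t) (X r0 x0 t)
    (X r0 x0 (t + 1)) := rfl

def U (n : ℕ) : ℕ → ℕ
  | 0 => 0
  | t + 1 => U n t + if lev (X r0 x0 t) = n ∧ lev (X r0 x0 (t + 1)) = n + 1 then 1 else 0

def D (n : ℕ) : ℕ → ℕ
  | 0 => 0
  | t + 1 => D n t + if lev (X r0 x0 t) = n ∧ lev (X r0 x0 (t + 1)) + 1 = n then 1 else 0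

lemma step (t : ℕ) : lev (X r0 x0 t) = lev (X r0 x0 (t + 1)) + 1 ∨
    lev (X r0 x0 (t + 1)) = lev (X r0 x0 t) + 1 := adj_nx _ _

lemma cross (n t : ℕ) : U r0 x0 n t ≤ D r0 x0 (n + 1) t + if n < lev (X r0 x0 t) then 1 else 0 := by
  induction t with
  | zero => simp [U]
  | succ t ih =>
    have := step r0 x0 t
    simp only [U, D]
    split_ifs at ih ⊢ <;> omega

def phi (v w : W) : ℕ := if lev w < lev v then 0 else idx w % 4 + 1

def Phi (n t : ℕ) : ℕ := ∑ i ∈ Finset.range (2 ^ n), phi (mk n i) (R r0 x0 t (mk n i))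

lemma pot (n t : ℕ) (hn : n ≠ 0) :
    4 * D r0 x0 n t + Phi r0 x0 n t ≤ U r0 x0 n t + 4 * 2 ^ n := by
  induction t with
  | zero =>
    have : Phi r0 x0 n 0 ≤ (Finset.range (2 ^ n)).card • 4 :=
      Finset.sum_le_card_nsmul _ _ _ (fun i _ => by unfold phi; split_ifs <;> omega)
    simp only [Finset.card_range, smul_eq_mul] at this
    simp only [U, D]; omega
  | succ t ih =>
    by_cases h : lev (X r0 x0 t) = n
    · have hi := idx_lt (X r0 x0 t)
      rw [h] at hi
      have hx : mk n (idx (X r0 x0 t)) = X r0 x0 t := ext' (by simp [h]) (idx_mk hi)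
      have e : Phi r0 x0 n (t + 1) + phi (X r0 x0 t) (R r0 x0 t (X r0 x0 t)) =
          Phi r0 x0 n t + phi (X r0 x0 t) (X r0 x0 (t + 1)) := by
        unfold Phi
        rw [← Finset.add_sum_erase _ _ (Finset.mem_range.2 hi),
          ← Finset.add_sum_erase _ _ (Finset.mem_range.2 hi), hx, R_succ, Function.update_self,
          Finset.sum_congr rfl (g := fun i => phi (mk n i) (R r0 x0 t (mk n i)))]
        · omega
        · intro i hi'
          rw [Function.update_of_ne]
          intro e
          have := congrArg idx e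
          rw [idx_mk (Finset.mem_range.1 (Finset.mem_of_mem_erase hi'))] at this
          exact (Finset.ne_of_mem_erase hi') this
      have e2 : 4 ∣ 2 ^ (n + 1) := by
        obtain ⟨m, rfl⟩ := Nat.exists_eq_succ_of_ne_zero hn
        exact ⟨2 ^ m, by rw [Nat.succ_eq_add_one, pow_succ, pow_succ]; ring⟩
      simp only [U, D, h, true_and]
      rw [X_succ] at e ⊢
      generalize R r0 x0 t (X r0 x0 t) = w at e ⊢
      by_cases c1 : lev w < n
      · have e3 : nx (X r0 x0 t) w = mk (n + 1) (4 * idx w) := by simp [nx, h, hn, c1]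
        have e4 : idx (mk (n + 1) (4 * idx w)) % 4 = 0 := by
          rw [idx_mk', Nat.mod_mod_of_dvd _ e2]; omega
        rw [e3] at e ⊢
        simp only [phi, h, c1, lev_mk, e4, if_true, show ¬ (n + 1 < n) by omega, if_false] at e
        simp only [lev_mk, if_true, show ¬ (n + 1 + 1 = n) by omega, if_false]
        omega
      · by_cases c2 : idx w % 4 = 3
        · have e3 : nx (X r0 x0 t) w = mk (n - 1) (idx w / 4 + 1) := by simp [nx, h, hn, c1, c2]
          rw [e3] at e ⊢
          simp only [phi, h, c1, c2, lev_mk, if_true, show n - 1 < n by omega, if_false] at e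
          simp only [lev_mk, show ¬ (n - 1 = n + 1) by omega, show n - 1 + 1 = n by omega,
            if_true, if_false]
          omega
        · have e3 : nx (X r0 x0 t) w = mk (n + 1) (idx w + 1) := by simp [nx, h, hn, c1, c2]
          have e4 : idx (mk (n + 1) (idx w + 1)) % 4 = idx w % 4 + 1 := by
            rw [idx_mk', Nat.mod_mod_of_dvd _ e2]; omega
          rw [e3] at e ⊢
          simp only [phi, h, c1, lev_mk, e4, show ¬ (n + 1 < n) by omega, if_false] at e
          simp only [lev_mk, if_true, show ¬ (n + 1 + 1 = n) by omega, if_false]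
          omega
    · have e : Phi r0 x0 n (t + 1) = Phi r0 x0 n t := by
        unfold Phi
        refine Finset.sum_congr rfl fun i _ => ?_
        rw [R_succ, Function.update_of_ne]
        intro e
        exact h (by rw [← e]; rfl)
      simp only [U, D, h, false_and, if_false, e]
      omega

lemma U_le (n t : ℕ) : U r0 x0 n t ≤ t := by
  induction t with
  | zero => simp [U]
  | succ t ih => simp only [U]; split_ifs <;> omega

lemma D_zero (t : ℕ) : D r0 x0 0 t = 0 := by
  induction t with
  | zero => rfl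
  | succ t ih => simp [D, ih]

lemma small (t : ℕ) : U r0 x0 (lev (X r0 x0 t)) t < 4 * 2 ^ lev (X r0 x0 t) := by
  by_contra hc
  have h : ∀ k, 4 * 2 ^ (lev (X r0 x0 t) + k) ≤ U r0 x0 (lev (X r0 x0 t) + k) t := by
    intro k
    induction k with
    | zero => simpa using hc
    | succ k ih =>
      have h1 := cross r0 x0 (lev (X r0 x0 t) + k) t
      have h2 := pot r0 x0 (lev (X r0 x0 t) + k + 1) t (by omega)
      rw [if_neg (by omega)] at h1
      rw [← add_assoc, pow_succ] at *
      omega
  have h1 := (h t).trans (U_le r0 x0 _ t)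
  have h2 : lev (X r0 x0 t) + t < 2 ^ (lev (X r0 x0 t) + t) := Nat.lt_two_pow_self
  omega

theorem transient (v : W) : {t | X r0 x0 t = v}.Finite := by
  by_contra hinf
  have hinf : {t | X r0 x0 t = v}.Infinite := hinf
  have mono : Monotone fun t => U r0 x0 (lev v) t + D r0 x0 (lev v) t :=
    monotone_nat_of_le_succ fun t => by simp only [U, D]; omega
  have h : ∀ K, ∃ t, X r0 x0 t = v ∧ K ≤ U r0 x0 (lev v) t + D r0 x0 (lev v) t := by
    intro K
    induction K with
    | zero => obtain ⟨t, ht⟩ := hinf.nonempty; exact ⟨t, ht, Nat.zero_le _⟩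
    | succ K ih =>
      obtain ⟨t, ht, hK⟩ := ih
      obtain ⟨s, hs, hts⟩ := hinf.exists_gt t
      refine ⟨s, hs, le_trans ?_ (mono (Nat.succ_le_of_lt hts))⟩
      have := step r0 x0 t
      simp only [U, D, ht, true_and] at this ⊢
      split_ifs <;> omega
  obtain ⟨t, ht, hK⟩ := h (6 * 2 ^ lev v)
  have h1 := small r0 x0 t
  rw [ht] at h1
  by_cases h0 : lev v = 0
  · rw [h0] at hK h1
    rw [D_zero] at hK
    omega
  · have := pot r0 x0 (lev v) t h0
    omega

end

end Pool.Agent.H32.RotWalk
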