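import Pool.Agent.H32.RotorDefs
import Pool.Agent.H32.ColChk
import Pool.Agent.H20.Plane

set_option autoImplicit false

namespace Pool.Agent.H32.Rotor

open Set Pool.Agent.H20.Plane

noncomputable def om : ℂ := Complex.exp (2 * Real.pi * Complex.I / (6 : ℕ))

lemma om_eq : om = ⟨1 / 2, Real.sqrt 3 / 2⟩ := by
  have h : (2 * Real.pi * Complex.I / (6 : ℕ) : ℂ) = ((Real.pi / 3 : ℝ) : ℂ) * Complex.I := by
    push_cast; ring
  rw [om, h, Complex.exp_mul_I, ← Complex.ofReal_cos, ← Complex.ofReal_sin, Real.cos_pi_div_three,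
    Real.sin_pi_div_three]
  apply Complex.ext <;> simp

noncomputable def emb (x y : ℝ) : ℂ := x + y * om

lemma s3 : Real.sqrt 3 * Real.sqrt 3 = 3 := Real.mul_self_sqrt (by norm_num)

lemma emb_re (x y : ℝ) : (emb x y).re = x + y / 2 := by
  simp [emb, om_eq]; ring

lemma emb_im (x y : ℝ) : (emb x y).im = y * Real.sqrt 3 / 2 := by
  simp [emb, om_eq]; ring

lemma emb_inj {x y x' y' : ℝ} (h : emb x y = emb x' y') : x = x' ∧ y = y' := by
  have h1 := congrArg Complex.re h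
  have h2 := congrArg Complex.im h
  rw [emb_re, emb_re] at h1
  rw [emb_im, emb_im] at h2
  have h3 : 0 < Real.sqrt 3 := Real.sqrt_pos.2 (by norm_num)
  have h4 : y = y' := by
    have : (y - y') * Real.sqrt 3 = 0 := by linarith
    rcases mul_eq_zero.1 this with h | h
    · linarith
    · exact absurd h h3.ne'
  exact ⟨by rw [h4] at h1; linarith, h4⟩

lemma emb_sq (x y : ℝ) : ‖emb x y‖ ^ 2 = x ^ 2 + x * y + y ^ 2 := by
  rw [Complex.sq_norm, Complex.normSq_apply, emb_re, emb_im]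
  have := s3
  nlinarith

lemma om_mul (x y : ℝ) : om * emb x y = emb (-y) (x + y) := by
  apply Complex.ext
  · rw [Complex.mul_re, emb_re, emb_re, emb_im, om_eq]
    simp only
    linear_combination (-y / 4) * s3
  · rw [Complex.mul_im, emb_re, emb_im, emb_im, om_eq]
    simp only
    ring

lemma n_lt {x y : ℝ} (h : x ^ 2 + x * y + y ^ 2 < 81) : ‖emb x y - 0‖ < 9 := by
  rw [sub_zero]
  have := emb_sq x y
  nlinarith [norm_nonneg (emb x y)]

lemma n_gt {x y : ℝ} (h : 81 < x ^ 2 + x * y + y ^ 2) : 9 < ‖emb x y - 0‖ := by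
  rw [sub_zero]
  have := emb_sq x y
  nlinarith [norm_nonneg (emb x y)]

lemma n_eq {x y : ℝ} (h : x ^ 2 + x * y + y ^ 2 = 81) : ‖emb x y - 0‖ = 9 := by
  rw [sub_zero]
  have := emb_sq x y
  nlinarith [norm_nonneg (emb x y)]

abbrev W := Fin 34

def X (v : W) : ℤ := ([7, 0, 9, 9, 9, 6, 1, 4, 2, -5, -2, -6, -4, -1, 5, -2, 2, 7, 9, -2, 0, -9, -9, -7, -9, 2, 7, 9, -12, -12, -24, -16, -18, -10] : List ℤ).getD v.val 0
def Y (v : W) : ℤ := ([7, 9, 9, 0, -7, -1, 5, -2, 2, 6, 4, 1, 2, -5, -6, -2, -4, 2, -9, 9, -9, 7, 0, -2, 9, -9, -14, -18, 16, 18, 24, 12, 12, 10] : List ℤ).getD v.val 0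
def RE : List (W × W) := [(4, 5), (6, 17), (9, 19), (11, 21), (13, 23), (14, 25), (3, 6), (1, 9), (11, 24), (13, 22), (14, 20), (5, 18), (3, 4), (1, 17), (19, 24), (21, 22), (20, 23), (18, 25), (5, 14), (5, 6), (6, 9), (9, 11), (11, 13), (13, 14), (14, 15), (5, 16), (6, 7), (8, 9), (10, 11), (12, 13), (8, 10), (10, 12), (12, 15), (15, 16), (7, 16), (7, 8), (14, 16), (5, 7), (6, 8), (9, 10), (11, 12), (13, 15), (3, 17), (1, 19), (21, 24), (22, 23), (20, 25), (4, 18)]
def SE : List (W × W) := [(0, 3), (0, 1), (2, 3), (1, 2), (0, 2), (20, 26), (18, 26), (20, 27), (18, 27), (26, 27), (1, 28), (1, 29), (28, 29), (28, 30), (29, 30), (22, 31), (22, 32), (31, 32), (30, 31), (30, 32), (24, 33)]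
def FE : List (W × W) := [(0, 3), (0, 1), (2, 3), (1, 2), (0, 2), (20, 26), (18, 26), (20, 27), (18, 27), (26, 27), (1, 28), (1, 29), (28, 29), (28, 30), (29, 30), (22, 31), (22, 32), (31, 32), (30, 31), (30, 32), (24, 33), (4, 5), (6, 17), (9, 19), (11, 21), (13, 23), (14, 25), (3, 6), (9, 18), (11, 20), (13, 22), (14, 24), (1, 5), (3, 4), (17, 18), (19, 20), (21, 22), (23, 24), (1, 25), (5, 14), (5, 6), (6, 9), (9, 11), (11, 13), (13, 14), (14, 15), (5, 16), (6, 7), (8, 9), (10, 11), (12, 13), (8, 10), (10, 12), (12, 15), (15, 16), (7, 16), (7, 8), (14, 16), (5, 7), (6, 8), (9, 10), (11, 12), (13, 15), (3, 17), (18, 19), (20, 21), (22, 23), (24, 25), (1, 4)]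
def RV : List W := [3, 1, 24, 22, 20, 18, 4, 17, 19, 21, 23, 25, 14, 5, 6, 9, 11, 13, 8, 10, 12, 15, 16, 7]
def th (v : W) : W := ([0, 24, 2, 1, 17, 6, 9, 8, 10, 11, 12, 13, 15, 14, 5, 16, 7, 19, 3, 21, 18, 23, 20, 25, 22, 4, 26, 27, 28, 29, 30, 31, 32, 33] : List W).getD v.val 0
def thi (v : W) : W := ([0, 3, 2, 18, 25, 14, 5, 16, 7, 6, 8, 9, 10, 11, 13, 12, 15, 4, 20, 17, 22, 19, 24, 21, 1, 23, 26, 27, 28, 29, 30, 31, 32, 33] : List W).getD v.val 0
def sg (v : W) : W := ([0, 18, 2, 3, 4, 5, 6, 7, 8, 9, 10, 11, 12, 13, 14, 15, 16, 17, 1, 19, 24, 21, 22, 23, 20, 25, 26, 27, 28, 29, 30, 31, 32, 33] : List W).getD v.val 0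
def col (v : W) : Fin 3 := ([1, 0, 2, 0, 1, 0, 2, 1, 0, 1, 2, 0, 1, 2, 1, 0, 2, 1, 2, 2, 2, 2, 0, 1, 1, 0, 0, 1, 1, 2, 0, 1, 2, 0] : List (Fin 3)).getD v.val 0
def vv : ZMod 6 → W := fun i => ([3, 1, 24, 22, 20, 18] : List W).getD i.val 0

def rB (u w : W) : Bool := RE.any fun e => (e.1 == u && e.2 == w) || (e.1 == w && e.2 == u)
def sB (u w : W) : Bool := SE.any fun e => (e.1 == u && e.2 == w) || (e.1 == w && e.2 == u)
def gB (u w : W) : Bool := rB u w || sB u w
def nn (x y : ℤ) : ℤ := x ^ 2 + x * y + y ^ 2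

lemma c_sym : ∀ u w : W, rB u w = rB w u ∧ sB u w = sB w u := by decide +kernel
lemma c_irr : ∀ u : W, gB u u = false := by decide +kernel
lemma c_dis : ∀ u w : W, rB u w = true → sB u w = false := by decide +kernel
lemma c_rv : ∀ u w : W, rB u w = true → u ∈ RV := by decide +kernel

def G : SimpleGraph W where
  Adj u w := gB u w = true
  symm := ⟨fun u w h => by
    have := c_sym u w
    simp only [gB] at h ⊢
    rw [← this.1, ← this.2]; exact h⟩
  loopless := ⟨fun u h => by simp [c_irr u] at h⟩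

def R : G.Subgraph where
  verts := {u | u ∈ RV}
  Adj u w := rB u w = true
  adj_sub := fun {u w} h => by
    show gB u w = true
    simp [gB, h]
  edge_vert := fun {u w} h => c_rv u w h
  symm := ⟨fun u w h => by rw [← (c_sym u w).1]; exact h⟩

lemma c_inj : ∀ u w : W, X u = X w → Y u = Y w → u = w := by decide +kernel
lemma c_h1 : ∀ u w : W, gB u w = true → ∀ x : W,
    nosol (X w - X u) (Y w - Y u) 0 0 (X x - X u) (Y x - Y u) = true := by decide +kernel
lemma c_h2 : ∀ e ∈ RE ++ SE, ∀ f ∈ RE ++ SE, e ≠ f →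
    nosol (X e.2 - X e.1) (Y e.2 - Y e.1) (X f.1 - X f.2) (Y f.1 - Y f.2)
      (X f.1 - X e.1) (Y f.1 - Y e.1) = true := by decide +kernel
lemma c_mem : ∀ u w : W, gB u w = true → (u, w) ∈ RE ++ SE ∨ (w, u) ∈ RE ++ SE := by
  decide +kernel
lemma c_th : ∀ u : W, th (thi u) = u ∧ thi (th u) = u := by decide +kernel
lemma c_thv : ∀ u : W, th u ∈ RV ↔ u ∈ RV := by decide +kernel
lemma c_thr : ∀ u w : W, rB (th u) (th w) = rB u w := by decide +kernel
lemma c_thp : ∀ u ∈ RV, X (th u) = - Y u ∧ Y (th u) = X u + Y u := by decide +kernel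
lemma c_vv : ∀ i : ZMod 6, th (vv i) = vv (i + 1) := by decide +kernel
lemma c_vinj : ∀ i j : ZMod 6, vv i = vv j → i = j := by decide +kernel
lemma c_att : ∀ x : W, ((∃ w, rB x w = true) ∧ ∃ w, sB x w = true) ↔ ∃ i, vv i = x := by
  decide +kernel
lemma c_nn : ∀ x : W, (x ∈ RV → nn (X x) (Y x) ≤ 81) ∧ (x ∉ RV → 81 < nn (X x) (Y x)) ∧
    (nn (X x) (Y x) = 81 ↔ ∃ i, vv i = x) := by decide +kernel

def aa (u w : W) : ℤ := nn (X w - X u) (Y w - Y u)
def bb (u w : W) : ℤ := 2 * X u * (X w - X u) + X u * (Y w - Y u) + Y u * (X w - X u) +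
  2 * Y u * (Y w - Y u)
def cc (u : W) : ℤ := nn (X u) (Y u) - 81

lemma c_pos : ∀ u w : W, gB u w = true → 0 < aa u w := by decide +kernel
lemma c_out : ∀ u w : W, sB u w = true → (0 ≤ cc u ∧ 0 ≤ bb u w) ∨
    (0 ≤ aa u w + bb u w + cc u ∧ 2 * aa u w + bb u w ≤ 0) ∨
    bb u w ^ 2 < 4 * aa u w * cc u := by decide +kernel
lemma c_col : ∀ u w : W, gB u w = true → col u ≠ col w := by decide +kernel
lemma c_fe : ∀ e ∈ FE, e.1 ≠ e.2 ∧ (sB e.1 e.2 = true ∨ rB (sg e.1) (sg e.2) = true) := by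
  decide +kernel
lemma c_sg : ∀ x : W, (∃ i, sg x = vv i ∧ x = vv (-i)) ∨ ((∀ i, vv i ≠ sg x) ∧ x = sg x) := by
  decide +kernel
lemma c_go : ColChk.go 3 (ColChk.back FE) [] = true := by decide +kernel

noncomputable def pp (v : W) : ℂ := emb (X v) (Y v)
noncomputable def gg (u w : W) (t : ℝ) : ℂ :=
  emb (X u + t * (X w - X u)) (Y u + t * (Y w - Y u))

lemma gg_rev (u w : W) (t : ℝ) : gg w u t = gg u w (1 - t) := by
  unfold gg; congr 1 <;> ring

lemma gg_img (u w : W) : gg w u '' Icc 0 1 ⊆ gg u w '' Icc 0 1 := by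
  rintro _ ⟨t, ht, rfl⟩
  exact ⟨1 - t, ⟨by linarith [ht.2], by linarith [ht.1]⟩, (gg_rev u w t).symm⟩

lemma cross0 (e f : W × W) (he : e ∈ RE ++ SE) (hf : f ∈ RE ++ SE) (hne : e ≠ f)
    (a : ℝ) (ha : a ∈ Ioo (0 : ℝ) 1) (b : ℝ) (hb : b ∈ Ioo (0 : ℝ) 1) :
    gg e.1 e.2 a ≠ gg f.1 f.2 b := by
  intro h
  obtain ⟨h1, h2⟩ := emb_inj h
  refine nosol_sound _ _ _ _ _ _ (c_h2 e he f hf hne) a b ha.1 ha.2 hb.1 hb.2 ?_ ?_
  · push_cast; linarith
  · push_cast; linarith

lemma embd : IsEmbedding G pp gg := by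
  refine ⟨?_, ?_, ?_⟩
  · intro u w h
    obtain ⟨h1, h2⟩ := emb_inj h
    exact c_inj u w (by exact_mod_cast h1) (by exact_mod_cast h2)
  · intro u w h
    refine ⟨?_, ?_, ?_, ?_, ?_, ?_⟩
    · apply Continuous.continuousOn
      unfold gg emb
      fun_prop
    · intro s _ t _ hst
      obtain ⟨h1, h2⟩ := emb_inj hst
      by_contra hne
      have hne' : s - t ≠ 0 := sub_ne_zero.2 hne
      have a1 : (s - t) * (X w - X u) = 0 := by linarith
      have a2 : (s - t) * (Y w - Y u) = 0 := by linarith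
      have b1 := (mul_eq_zero.mp a1).resolve_left hne'
      have b2 := (mul_eq_zero.mp a2).resolve_left hne'
      have c1 : X u = X w := by
        have : (X u : ℝ) = X w := by linarith
        exact_mod_cast this
      have c2 : Y u = Y w := by
        have : (Y u : ℝ) = Y w := by linarith
        exact_mod_cast this
      exact h.ne (c_inj u w c1 c2)
    · simp [gg, pp]
    · simp [gg, pp]
    · exact Subset.antisymm (gg_img u w) (gg_img w u)
    · intro t ht x e
      obtain ⟨h1, h2⟩ := emb_inj e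
      refine nosol_sound _ _ _ _ _ _ (c_h1 u w h x) t t ht.1 ht.2 ht.1 ht.2 ?_ ?_
      · push_cast; linarith
      · push_cast; linarith
  · intro u w x y h h' hne a ha b hb
    have ha' : 1 - a ∈ Ioo (0 : ℝ) 1 := ⟨by linarith [ha.2], by linarith [ha.1]⟩
    have hb' : 1 - b ∈ Ioo (0 : ℝ) 1 := ⟨by linarith [hb.2], by linarith [hb.1]⟩
    rcases c_mem u w h with h1 | h1 <;> rcases c_mem x y h' with h2 | h2
    · refine cross0 _ _ h1 h2 (fun e => hne ?_) a ha b hb
      rw [Prod.mk.injEq] at e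
      rw [e.1, e.2]
    · rw [gg_rev y x]
      refine cross0 _ _ h1 h2 (fun e => hne ?_) a ha _ hb'
      rw [Prod.mk.injEq] at e
      rw [e.1, e.2, Sym2.eq_swap]
    · rw [gg_rev w u]
      refine cross0 _ _ h1 h2 (fun e => hne ?_) _ ha' b hb
      rw [Prod.mk.injEq] at e
      rw [e.1, e.2, Sym2.eq_swap]
    · rw [gg_rev w u, gg_rev y x]
      refine cross0 _ _ h1 h2 (fun e => hne ?_) _ ha' _ hb'
      rw [Prod.mk.injEq] at e
      rw [e.1, e.2]

lemma s_of {u w : W} (h : G.Adj u w) (h' : ¬ R.Adj u w) : sB u w = true := by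
  have h1 : gB u w = true := h
  have h2 : ¬ rB u w = true := h'
  simp only [gB, Bool.or_eq_true] at h1
  exact h1.resolve_left h2

lemma of_s {u w : W} (h : sB u w = true) : G.Adj u w ∧ ¬ R.Adj u w := by
  refine ⟨?_, fun h' => ?_⟩
  · show gB u w = true
    simp [gB, h]
  · have := c_dis u w h'
    simp [h] at this

lemma att (x : W) : Attach R x ↔ x ∈ range vv := by
  rw [mem_range, ← c_att]
  unfold Attach
  refine and_congr Iff.rfl (exists_congr fun w => ⟨fun h => s_of h.1 h.2, of_s⟩)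

def θ : Equiv.Perm W := ⟨th, thi, fun u => (c_th u).2, fun u => (c_th u).1⟩

lemma rot_eq (x : ℂ) : rot 6 0 x = om * x := by
  simp [rot, om]

lemma quad (u w : W) (t : ℝ) :
    ((X u : ℝ) + t * (X w - X u)) ^ 2 + (X u + t * (X w - X u)) * (Y u + t * (Y w - Y u)) +
      (Y u + t * (Y w - Y u)) ^ 2 = aa u w * t ^ 2 + bb u w * t + cc u + 81 := by
  simp only [aa, bb, cc, nn]
  push_cast
  ring

lemma quad1 (u w : W) : (aa u w : ℝ) + bb u w + cc u = cc w := by
  simp only [aa, bb, cc, nn]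
  push_cast
  ring

lemma rotor : IsRotor G R 6 vv := by
  refine ⟨pp, gg, 0, 9, θ, embd, by norm_num, fun i j h => c_vinj i j h, att, ?_, ?_, ?_, ?_, ?_,
    c_thv, ?_, ?_, ?_, c_vv⟩
  · intro x hx
    have h : nn (X x) (Y x) ≤ 81 := (c_nn x).1 hx
    have h' : (X x : ℝ) ^ 2 + X x * Y x + Y x ^ 2 ≤ 81 := by
      unfold nn at h; exact_mod_cast h
    rcases h'.lt_or_eq with h | h
    · exact (n_lt h).le
    · exact (n_eq h).le
  · intro x hx
    have h : 81 < nn (X x) (Y x) := (c_nn x).2.1 hx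
    apply n_gt
    unfold nn at h; exact_mod_cast h
  · intro x
    rw [att, mem_range, ← (c_nn x).2.2]
    constructor
    · intro h
      have h1 := emb_sq (X x) (Y x)
      have h2 : ‖emb (X x) (Y x)‖ = 9 := by simpa [pp] using h
      rw [h2] at h1
      have : ((nn (X x) (Y x) : ℤ) : ℝ) = 81 := by
        unfold nn; push_cast; linarith
      exact_mod_cast this
    · intro h
      apply n_eq
      unfold nn at h; exact_mod_cast h
  · intro u w h t ht
    apply n_lt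
    rw [quad]
    have h1 : (cc u : ℝ) ≤ 0 := by
      have := (c_nn u).1 (c_rv u w h)
      have : cc u ≤ 0 := by unfold cc; omega
      exact_mod_cast this
    have h2 : (cc w : ℝ) ≤ 0 := by
      have := (c_nn w).1 (c_rv w u (R.adj_symm h))
      have : cc w ≤ 0 := by unfold cc; omega
      exact_mod_cast this
    have h3 : (0 : ℝ) < aa u w := by exact_mod_cast c_pos u w (R.adj_sub h)
    have h4 := quad1 u w
    have h5 : 0 < t * (1 - t) := mul_pos ht.1 (by linarith [ht.2])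
    have h6 : (aa u w : ℝ) * t ^ 2 + bb u w * t + cc u =
        (1 - t) * cc u + t * cc w - t * (1 - t) * aa u w := by rw [← h4]; ring
    nlinarith [mul_pos h5 h3, mul_nonneg ht.1.le (neg_nonneg.2 h2),
      mul_nonneg (sub_nonneg.2 ht.2.le) (neg_nonneg.2 h1)]
  · intro u w h h' t ht
    apply n_gt
    rw [quad]
    have h3 : (0 : ℝ) < aa u w := by exact_mod_cast c_pos u w h
    have t0 := ht.1
    have t1 : 0 < 1 - t := by linarith [ht.2]
    rcases c_out u w (s_of h h') with ⟨h1, h2⟩ | ⟨h1, h2⟩ | h1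
    · have h1' : (0 : ℝ) ≤ cc u := by exact_mod_cast h1
      have h2' : (0 : ℝ) ≤ bb u w := by exact_mod_cast h2
      nlinarith [mul_pos h3 (pow_pos t0 2), mul_nonneg h2' t0.le]
    · have h1' : (0 : ℝ) ≤ aa u w + bb u w + cc u := by exact_mod_cast h1
      have h2' : 2 * (aa u w : ℝ) + bb u w ≤ 0 := by exact_mod_cast h2
      nlinarith [mul_pos h3 (pow_pos t1 2), mul_nonneg (neg_nonneg.2 h2') t1.le]
    · have h1' : (bb u w : ℝ) ^ 2 < 4 * aa u w * cc u := by exact_mod_cast h1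
      by_contra hc
      have hc' : (aa u w : ℝ) * t ^ 2 + bb u w * t + cc u ≤ 0 := by linarith
      nlinarith [sq_nonneg (2 * (aa u w : ℝ) * t + bb u w), mul_nonneg h3.le (neg_nonneg.2 hc')]
  · intro u w
    show rB (th u) (th w) = true ↔ rB u w = true
    rw [c_thr]
  · intro x hx
    obtain ⟨h1, h2⟩ := c_thp x hx
    rw [rot_eq, pp, pp, om_mul]
    show emb (X (th x)) (Y (th x)) = _
    rw [h1, h2]; push_cast; rfl
  · intro u w h
    obtain ⟨h1, h2⟩ := c_thp u (c_rv u w h)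
    obtain ⟨h3, h4⟩ := c_thp w (c_rv w u (R.adj_symm h))
    rw [image_image]
    apply image_congr
    intro t _
    rw [rot_eq, gg, gg, om_mul]
    show emb (X (th u) + t * (X (th w) - X (th u))) (Y (th u) + t * (Y (th w) - Y (th u))) = _
    rw [h1, h2, h3, h4]; push_cast
    congr 1 <;> ring

lemma glue (x : W) : Glue vv (sg x) x := by
  rcases c_sg x with h | ⟨h1, h2⟩
  · exact Or.inl h
  · exact Or.inr ⟨fun ⟨i, hi⟩ => h1 i hi, h2⟩

lemma flip_zero : P (flip G R vv) 3 = 0 := by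
  have : IsEmpty ((flip G R vv).Coloring (Fin 3)) := ⟨fun c => by
    refine ColChk.no_col (by norm_num) FE c_go c fun e he => c.valid ?_
    obtain ⟨h1, h2⟩ := c_fe e he
    rw [flip, SimpleGraph.fromRel_adj]
    refine ⟨h1, Or.inl ?_⟩
    rcases h2 with h2 | h2
    · exact Or.inl (of_s h2)
    · exact Or.inr ⟨_, _, h2, glue _, glue _⟩⟩
  exact Nat.card_of_isEmpty

lemma orig_pos : 0 < P G 3 := by
  have : Nonempty (G.Coloring (Fin 3)) :=
    ⟨SimpleGraph.Coloring.mk col fun {u w} h => c_col u w h⟩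
  have : Finite (G.Coloring (Fin 3)) :=
    Finite.of_injective (fun c : G.Coloring (Fin 3) => (c : W → Fin 3)) DFunLike.coe_injective
  exact Nat.card_pos

end Pool.Agent.H32.Rotor
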