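import Mathlib

set_option autoImplicit false

namespace Pool.Agent.H32.Rotor

open Set

variable {V : Type}

/-- A plane embedding of `G`: distinct points `p v`, and for every edge `uw` a simple arc
`γ u w` (parameter in `[0,1]`, the same point set for both orders of the ends) from `p u` to
`p w` whose interior contains no vertex point and meets the interior of no other arc. -/
def IsEmbedding (G : SimpleGraph V) (p : V → ℂ) (γ : V → V → ℝ → ℂ) : Prop :=
  Function.Injective p ∧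
  (∀ u w, G.Adj u w →
    ContinuousOn (γ u w) (Icc 0 1) ∧ InjOn (γ u w) (Icc 0 1) ∧ γ u w 0 = p u ∧ γ u w 1 = p w ∧
    γ w u '' Icc 0 1 = γ u w '' Icc 0 1 ∧ ∀ t ∈ Ioo (0 : ℝ) 1, ∀ x, γ u w t ≠ p x) ∧
  ∀ u w x y, G.Adj u w → G.Adj x y → s(u, w) ≠ s(x, y) →
    ∀ a ∈ Ioo (0 : ℝ) 1, ∀ b ∈ Ioo (0 : ℝ) 1, γ u w a ≠ γ x y b

/-- Vertex of attachment: incident to an edge of `R` and to an edge of `G` not in `R`. -/
def Attach {G : SimpleGraph V} (R : G.Subgraph) (x : V) : Prop :=
  (∃ w, R.Adj x w) ∧ ∃ w, G.Adj x w ∧ ¬ R.Adj x w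

/-- Rotation by the angle `2π/n` about the point `z`. -/
noncomputable def rot (n : ℕ) (z x : ℂ) : ℂ :=
  z + Complex.exp (2 * Real.pi * Complex.I / n) * (x - z)

/-- `R` is a rotor of order `n` of the planar graph `G`, with vertices of attachment
`v 0, …, v (n-1)`: in some plane embedding, `R` lies in a closed disc, the rest of `G` lies
outside the open disc, the circle meets the drawing exactly in the vertices of attachment, and
the rotation of the disc by `2π/n` carries the drawing of `R` onto itself, inducing an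
automorphism `θ` of `R` with `θ (v i) = v (i+1)`. -/
def IsRotor (G : SimpleGraph V) (R : G.Subgraph) (n : ℕ) (v : ZMod n → V) : Prop :=
  ∃ (p : V → ℂ) (γ : V → V → ℝ → ℂ) (z : ℂ) (r : ℝ) (θ : Equiv.Perm V),
    IsEmbedding G p γ ∧ 0 < r ∧
    Function.Injective v ∧ (∀ x, Attach R x ↔ x ∈ range v) ∧
    (∀ x ∈ R.verts, ‖p x - z‖ ≤ r) ∧ (∀ x ∉ R.verts, r < ‖p x - z‖) ∧
    (∀ x, ‖p x - z‖ = r ↔ Attach R x) ∧
    (∀ u w, R.Adj u w → ∀ t ∈ Ioo (0 : ℝ) 1, ‖γ u w t - z‖ < r) ∧
    (∀ u w, G.Adj u w → ¬ R.Adj u w → ∀ t ∈ Ioo (0 : ℝ) 1, r < ‖γ u w t - z‖) ∧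
    (∀ x, θ x ∈ R.verts ↔ x ∈ R.verts) ∧ (∀ u w, R.Adj (θ u) (θ w) ↔ R.Adj u w) ∧
    (∀ x ∈ R.verts, p (θ x) = rot n z (p x)) ∧
    (∀ u w, R.Adj u w → γ (θ u) (θ w) '' Icc 0 1 = rot n z '' (γ u w '' Icc 0 1)) ∧
    ∀ i, θ (v i) = v (i + 1)

/-- Where the copy of the vertex `a` of the rotor goes when it is glued back: the copy of `v i`
is identified with `v (-i)`, the copy of any other vertex takes the place of that vertex. -/
def Glue {n : ℕ} (v : ZMod n → V) (a x : V) : Prop :=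
  (∃ i, a = v i ∧ x = v (-i)) ∨ (a ∉ range v ∧ x = a)

/-- The graph obtained by flipping the rotor: the edges of `G` outside `R`, together with the
edges of the reflected copy of `R`. -/
def flip (G : SimpleGraph V) (R : G.Subgraph) {n : ℕ} (v : ZMod n → V) : SimpleGraph V :=
  SimpleGraph.fromRel fun x y =>
    (G.Adj x y ∧ ¬ R.Adj x y) ∨ ∃ a b, R.Adj a b ∧ Glue v a x ∧ Glue v b y

/-- The number `P(G,k)` of proper colourings with `k` colours. -/
noncomputable def P (G : SimpleGraph V) (k : ℕ) : ℕ := Nat.card (G.Coloring (Fin k))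

end Pool.Agent.H32.Rotor
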