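import Mathlib

set_option autoImplicit false

namespace Pool.Agent.H32.SPJump

open Finset

def P : Type := Fin 9

instance : Fintype P := inferInstanceAs (Fintype (Fin 9))
instance : DecidableEq P := inferInstanceAs (DecidableEq (Fin 9))
instance (n : ℕ) : OfNat P n := inferInstanceAs (OfNat (Fin 9) n)

def lev (x : Fin 9) : ℕ := x.val / 2

def ltb (x y : Fin 9) : Bool :=
  if x.val = 1 ∨ y.val = 1 then (x.val == 0 || y.val == 8) else Nat.blt (lev x) (lev y)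

instance : PartialOrder P where
  le x y := x = y ∨ ltb x y = true
  lt x y := ltb x y = true
  le_refl _ := Or.inl rfl
  le_trans := by decide +kernel
  le_antisymm := by decide +kernel
  lt_iff_le_not_ge := by decide +kernel

instance : DecidableLE P := fun x y => inferInstanceAs (Decidable (x = y ∨ ltb x y = true))
instance : DecidableLT P := fun x y => inferInstanceAs (Decidable (ltb x y = true))

instance cov (x y : P) : Decidable (x ⋖ y) :=
  decidable_of_iff (x < y ∧ ∀ c, x < c → ¬ c < y) ⟨fun h => ⟨h.1, h.2⟩, fun h => ⟨h.1, h.2⟩⟩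

def S : Finset (P × P) := {(0, 1), (1, 8), (7, 8), (4, 7), (5, 6), (3, 5), (0, 3)}

def c (x y : P) : ℕ := if (x, y) ∈ S then 1 else 0

theorem nfree : ¬ ∃ a b c d : P, a < b ∧ c < b ∧ c < d ∧ ¬ a ≤ c ∧ ¬ c ≤ a ∧
    ¬ a ≤ d ∧ ¬ d ≤ a ∧ ¬ b ≤ d ∧ ¬ d ≤ b := by decide +kernel

theorem bip : ∃ col : P → Bool, ∀ x y : P, x ⋖ y → col x ≠ col y :=
  ⟨fun x => x = 1 ∨ lev x % 2 = 1, by decide +kernel⟩

theorem cuts : ∀ x y : P, x ⋖ y → ∃ x' y' : P, x' ⋖ y' ∧ x' ⋖ y ∧ x ⋖ y' ∧ (x' ≠ x ∨ y' ≠ y) := by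
  decide +kernel

theorem upper {n : ℕ} (L : P ≃ Fin n) (hL : ∀ x y : P, x < y → L x < L y)
    (T : Finset (P × P)) (hT : ∀ p ∈ T, (L p.2 : ℕ) = L p.1 + 1) : ∑ p ∈ T, c p.1 p.2 ≤ 3 := by
  have h1 : ∑ p ∈ T, c p.1 p.2 ≤ ∑ p ∈ S, if (L p.2 : ℕ) = L p.1 + 1 then 1 else 0 := by
    simp only [c, Prod.mk.eta]
    rw [← card_filter, ← card_filter]
    exact card_le_card fun p hp => by
      rw [mem_filter] at hp ⊢
      exact ⟨hp.2, hT p hp.1⟩
  refine h1.trans ?_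
  have ne : ∀ x y : P, x ≠ y → (L x : ℕ) ≠ L y := fun x y h e => h (L.injective (Fin.ext e))
  have lt : ∀ x y : P, x < y → (L x : ℕ) < L y := hL
  have a1 := lt 0 2 (by decide)
  have a2 := lt 2 8 (by decide)
  have a3 := ne 2 1 (by decide)
  have a4 := ne 1 7 (by decide)
  have a5 := lt 4 6 (by decide)
  have a6 := lt 6 8 (by decide)
  have a7 := ne 6 7 (by decide)
  have a8 := lt 5 7 (by decide)
  have a9 := ne 4 5 (by decide)
  have b1 := lt 3 4 (by decide)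
  have b2 := lt 2 5 (by decide)
  have b3 := ne 2 3 (by decide)
  have b4 := ne 1 3 (by decide)
  rw [S]
  repeat rw [sum_insert (by decide)]
  rw [sum_singleton]
  dsimp only
  split_ifs <;> omega

theorem two1 : ∀ x y : P, x ⋖ y → #{p ∈ S | p.1 ⋖ p.2 ∧ p.1 ⋖ y ∧ x ⋖ p.2} ≤ 2 := by
  decide +kernel

theorem two2 : ∀ v : P, #{p ∈ S | p.1 ⋖ p.2 ∧ (p.1 = v ∨ p.2 = v)} ≤ 2 := by decide +kernel

open Classical in
theorem lower (k : ℕ) (F : Fin k → Set (P × P))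
    (hF : ∀ i, (∃ x y : P, x ⋖ y ∧ F i = {p : P × P | p.1 ⋖ p.2 ∧ p.1 ⋖ y ∧ x ⋖ p.2}) ∨
      ∃ v : P, F i = {p : P × P | p.1 ⋖ p.2 ∧ (p.1 = v ∨ p.2 = v)})
    (hc : ∀ p ∈ S, ∃ i, p ∈ F i) : 4 ≤ k := by
  have h1 : S ⊆ univ.biUnion fun i => {p ∈ S | p ∈ F i} := by
    intro p hp
    obtain ⟨i, hi⟩ := hc p hp
    exact mem_biUnion.2 ⟨i, mem_univ _, mem_filter.2 ⟨hp, hi⟩⟩
  have h2 := (card_le_card h1).trans (card_biUnion_le_card_mul _ _ 2 fun i _ => by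
    rcases hF i with ⟨x, y, h, e⟩ | ⟨v, e⟩
    · convert two1 x y h using 3
      rw [e]
      rfl
    · convert two2 v using 3
      rw [e]
      rfl)
  have h3 : #S = 7 := by decide
  rw [h3, card_univ, Fintype.card_fin] at h2
  omega

theorem covS : ∀ p ∈ S, p.1 ⋖ p.2 := by decide +kernel

end Pool.Agent.H32.SPJump
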