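import Mathlib

set_option autoImplicit false

namespace Pool.Agent.H32.Sandp

open Matrix

/-- The vector space `F_2^r`. -/
abbrev Vec (r : ℕ) := Fin r → ZMod 2

/-- The Laplacian of the Cayley multigraph of `F_2^r` for the generator list `M`. -/
def lap {r : ℕ} (M : List (Vec r)) : Matrix (Vec r) (Vec r) ℤ :=
  fun u w => if u = w then (M.length : ℤ) else -((M.countP fun v => u + v = w : ℕ) : ℤ)

/-- The cokernel of the Laplacian. -/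
abbrev Coker {r : ℕ} (M : List (Vec r)) :=
  (Vec r → ℤ) ⧸ LinearMap.range (Matrix.mulVecLin (lap M))

/-- The sandpile group: the torsion subgroup of the cokernel. -/
abbrev K {r : ℕ} (M : List (Vec r)) := AddCommGroup.torsion (Coker M)

/-- The eigenvalue `lambda_u = 2 #{i : u . v_i = 1}`. -/
def eig {r : ℕ} (M : List (Vec r)) (u : Vec r) : ℕ := 2 * M.countP fun v => u ⬝ᵥ v = 1

/-- The gcd of the positive multiplicities. -/
def mgcd {r : ℕ} (M : List (Vec r)) : ℕ := M.toFinset.gcd fun v => M.count v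

lemma mem_range_iff {V : Type} [Fintype V] [DecidableEq V] {n : ℕ} (L : Matrix V V ℤ)
    (U Wi : Matrix (Fin n) V ℤ) (Ui W : Matrix V (Fin n) ℤ) (d : Fin n → ℤ)
    (h1 : U * L = diagonal d * Wi) (h2 : Ui * diagonal d = L * W) (h3 : Ui * U = 1)
    (y : V → ℤ) : y ∈ LinearMap.range (Matrix.mulVecLin L) ↔ ∀ j, d j ∣ (U *ᵥ y) j := by
  constructor
  · rintro ⟨x, rfl⟩ j
    simp only [Matrix.mulVecLin_apply, Matrix.mulVec_mulVec, h1]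
    rw [← Matrix.mulVec_mulVec, Matrix.mulVec_diagonal]
    exact Dvd.intro _ rfl
  · intro h
    choose w hw using h
    refine ⟨W *ᵥ w, ?_⟩
    have : U *ᵥ y = diagonal d *ᵥ w := by
      ext j; rw [Matrix.mulVec_diagonal, hw]
    simp only [Matrix.mulVecLin_apply, Matrix.mulVec_mulVec]
    rw [← h2, ← Matrix.mulVec_mulVec, ← this, Matrix.mulVec_mulVec, h3, Matrix.one_mulVec]

def enc (v : Vec 3) : Fin 8 :=
  ⟨((v 0).val + 2 * (v 1).val + 4 * (v 2).val) % 8, Nat.mod_lt _ (by norm_num)⟩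

def M1 : List (Vec 3) := [![1,1,0], ![0,0,1], ![1,0,1], ![1,0,1], ![0,1,1], ![0,1,1],
  ![1,1,1], ![1,1,1], ![1,1,1], ![1,1,1], ![1,1,1]]

def M2 : List (Vec 3) := [![1,1,0], ![1,0,1], ![1,0,1], ![1,0,1], ![0,1,1], ![0,1,1], ![0,1,1],
  ![1,1,1], ![1,1,1], ![1,1,1], ![1,1,1]]

def rowM (A : List (List ℤ)) : Matrix (Fin 8) (Vec 3) ℤ := fun i v => (A.getD i []).getD (enc v) 0
def colM (A : List (List ℤ)) : Matrix (Vec 3) (Fin 8) ℤ := fun v j => (A.getD (enc v) []).getD j 0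

def U1 := rowM [[-1, 0, 0, 0, 0, 0, 0, 0], [0, -1, 0, 0, 0, 0, 0, 0], [-2, -1, 0, 0, 0, 0, 1, 0], [-3, 4, 0, -1, 0, 0, -4, 0], [-1, 1, 0, 0, 0, 0, 1, -1], [10, 0, -1, 1, 0, 2, 5, -13], [32, -3, -3, 2, 0, 5, 5, -30], [1, 1, 1, 1, 1, 1, 1, 1]]
def Ui1 := colM [[-1, 0, 0, 0, 0, 0, 0, 0], [0, -1, 0, 0, 0, 0, 0, 0], [0, 11, -6, 1, -5, 5, -2, 0], [11, 0, -4, -1, 0, 0, 0, 0], [-5, -2, 5, -1, 15, -8, 3, 1], [-2, -5, 3, 1, -9, 3, -1, 0], [-2, -1, 1, 0, 0, 0, 0, 0], [-1, -2, 1, 0, -1, 0, 0, 0]]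
def W1 := colM [[0, 0, 0, 0, 0, 0, 1, 1], [0, 0, 0, 0, 1, -1, 6, 1], [0, 1, -2, 1, -5, 17, -99, 1], [1, 0, -1, -1, 4, -8, 46, 1], [0, 0, 1, -1, 12, -24, 135, 1], [0, 0, 0, 1, -8, 15, -80, 1], [0, 0, 0, 0, 0, 1, -5, 1], [0, 0, 0, 0, 0, 0, 0, 1]]
def Wi1 := rowM [[-11, 0, 0, 1, 1, 2, 2, 5], [0, -11, 1, 0, 2, 1, 5, 2], [-6, -4, 0, 0, 1, 1, 5, 3], [-3, 8, 0, 0, 0, 1, -7, 1], [-1, 1, 0, 0, 0, 0, 1, -1], [5, 0, 0, 0, 0, 0, 1, -6], [1, 0, 0, 0, 0, 0, 0, -1], [0, 0, 0, 0, 0, 0, 0, 1]]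
def d1 : Fin 8 → ℤ := ![1, 1, 4, 8, 8, 32, 480, 0]

def U2 := rowM [[-1, 0, 0, 0, 0, 0, 0, 0], [0, -1, 0, 0, 0, 0, 0, 0], [0, -11, -1, 0, 0, 0, 0, 0], [0, 3, 0, 0, 0, 0, 0, -1], [3, -49, -2, 0, 0, 0, -1, 9], [-17, 222, 5, 0, -1, -2, 9, -52], [90, -1165, -25, 0, 6, 11, -49, 276], [1, 1, 1, 1, 1, 1, 1, 1]]
def Ui2 := colM [[-1, 0, 0, 0, 0, 0, 0, 0], [0, -1, 0, 0, 0, 0, 0, 0], [0, 11, -1, 0, 0, 0, 0, 0], [11, 0, -9, 30, 5, -5, -1, 1], [-4, -3, 3, -11, 1, 11, 2, 0], [-3, -4, 5, -9, -5, -6, -1, 0], [-3, 0, 2, -9, -1, 0, 0, 0], [0, -3, 0, -1, 0, 0, 0, 0]]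
def W2 := colM [[0, 0, 0, 1, -1, -10, -27, 1], [0, 0, 0, 0, 1, 5, 13, 1], [0, 1, 0, 0, -1, -1, -2, 1], [1, 0, -3, 11, 7, -14, -42, 1], [0, 0, 0, 0, 4, 28, 75, 1], [0, 0, 1, 0, -6, -25, -65, 1], [0, 0, 0, 0, 0, -7, -20, 1], [0, 0, 0, 0, 0, 0, 0, 1]]
def Wi2 := rowM [[-11, 0, 0, 1, 0, 3, 3, 4], [0, -11, 1, 0, 3, 0, 4, 3], [0, -30, 0, 0, 9, 1, 11, 9], [1, 9, 0, 0, -2, 0, -3, -5], [0, -35, 0, 0, 9, 0, 11, 15], [0, 80, 0, 0, -20, 0, -23, -37], [0, -28, 0, 0, 7, 0, 8, 13], [0, 0, 0, 0, 0, 0, 0, 1]]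
def d2 : Fin 8 → ℤ := ![1, 1, 4, 4, 16, 32, 480, 0]

lemma mem1 (y : Vec 3 → ℤ) :
    y ∈ LinearMap.range (Matrix.mulVecLin (lap M1)) ↔ ∀ j, d1 j ∣ (U1 *ᵥ y) j :=
  mem_range_iff _ U1 Wi1 Ui1 W1 d1 (by ext a b; revert a b; decide +kernel)
    (by ext a b; revert a b; decide +kernel) (by ext a b; revert a b; decide +kernel) y

lemma mem2 (y : Vec 3 → ℤ) :
    y ∈ LinearMap.range (Matrix.mulVecLin (lap M2)) ↔ ∀ j, d2 j ∣ (U2 *ᵥ y) j :=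
  mem_range_iff _ U2 Wi2 Ui2 W2 d2 (by ext a b; revert a b; decide +kernel)
    (by ext a b; revert a b; decide +kernel) (by ext a b; revert a b; decide +kernel) y

/-- the invariant -/
def P (G : Type) [AddCommGroup G] : Prop :=
  ∀ y : Fin 3 → G, (∀ i, (16 : ℤ) • y i = 0) →
    ∃ e : Fin 3 → ℤ, (∀ i, e i = 0 ∨ e i = 1) ∧ (∃ i, e i = 1) ∧ (8 : ℤ) • ∑ i, e i • y i = 0

lemma P_of_equiv {G H : Type} [AddCommGroup G] [AddCommGroup H] (f : G ≃+ H) (h : P G) : P H := by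
  intro y hy
  obtain ⟨e, h1, h2, h3⟩ := h (fun i => f.symm (y i)) (fun i => by
    rw [← map_zsmul, hy, map_zero])
  refine ⟨e, h1, h2, ?_⟩
  have := congrArg f h3
  simpa [map_zsmul, map_sum] using this

lemma par (a b : Fin 3 → ℤ) : ∃ e : Fin 3 → ℤ, (∀ i, e i = 0 ∨ e i = 1) ∧ (∃ i, e i = 1) ∧
    2 ∣ ∑ i, e i * a i ∧ 2 ∣ ∑ i, e i * b i := by
  have key : ∀ e0 e1 e2 : ℤ, (e0 = 0 ∨ e0 = 1) → (e1 = 0 ∨ e1 = 1) → (e2 = 0 ∨ e2 = 1) →
      (e0 = 1 ∨ e1 = 1 ∨ e2 = 1) → 2 ∣ e0 * a 0 + e1 * a 1 + e2 * a 2 →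
      2 ∣ e0 * b 0 + e1 * b 1 + e2 * b 2 → ∃ e : Fin 3 → ℤ, (∀ i, e i = 0 ∨ e i = 1) ∧
      (∃ i, e i = 1) ∧ 2 ∣ ∑ i, e i * a i ∧ 2 ∣ ∑ i, e i * b i := by
    intro e0 e1 e2 h0 h1 h2 h3 h4 h5
    refine ⟨![e0, e1, e2], ?_, ?_, by simpa [Fin.sum_univ_three] using h4,
      by simpa [Fin.sum_univ_three] using h5⟩
    · intro i; fin_cases i <;> simpa
    · rcases h3 with h | h | h
      exacts [⟨0, h⟩, ⟨1, h⟩, ⟨2, h⟩]
  by_contra hn
  have k1 := fun h4 h5 => hn (key 1 0 0 (by simp) (by simp) (by simp) (by simp) h4 h5)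
  have k2 := fun h4 h5 => hn (key 0 1 0 (by simp) (by simp) (by simp) (by simp) h4 h5)
  have k3 := fun h4 h5 => hn (key 0 0 1 (by simp) (by simp) (by simp) (by simp) h4 h5)
  have k4 := fun h4 h5 => hn (key 1 1 0 (by simp) (by simp) (by simp) (by simp) h4 h5)
  have k5 := fun h4 h5 => hn (key 1 0 1 (by simp) (by simp) (by simp) (by simp) h4 h5)
  have k6 := fun h4 h5 => hn (key 0 1 1 (by simp) (by simp) (by simp) (by simp) h4 h5)
  have k7 := fun h4 h5 => hn (key 1 1 1 (by simp) (by simp) (by simp) (by simp) h4 h5)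
  clear key hn
  rcases Int.emod_two_eq_zero_or_one (a 0) with p0 | p0 <;>
  rcases Int.emod_two_eq_zero_or_one (a 1) with p1 | p1 <;>
  rcases Int.emod_two_eq_zero_or_one (a 2) with p2 | p2 <;>
  rcases Int.emod_two_eq_zero_or_one (b 0) with q0 | q0 <;>
  rcases Int.emod_two_eq_zero_or_one (b 1) with q1 | q1 <;>
  rcases Int.emod_two_eq_zero_or_one (b 2) with q2 | q2 <;>
  first
    | exact k1 (by omega) (by omega)
    | exact k2 (by omega) (by omega)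
    | exact k3 (by omega) (by omega)
    | exact k4 (by omega) (by omega)
    | exact k5 (by omega) (by omega)
    | exact k6 (by omega) (by omega)
    | exact k7 (by omega) (by omega)

lemma P1 : P (K M1) := by
  intro y hy
  have hs : ∀ i, ∃ w : Vec 3 → ℤ, (Submodule.Quotient.mk w : Coker M1) = (y i).1 := fun i =>
    Submodule.Quotient.mk_surjective _ _
  choose w hw using hs
  have hd : ∀ i j, d1 j ∣ 16 * (U1 *ᵥ w i) j := by
    intro i j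
    have h1 : (Submodule.Quotient.mk ((16 : ℤ) • w i) : Coker M1) = 0 := by
      rw [Submodule.Quotient.mk_smul, hw]
      exact congrArg Subtype.val (hy i)
    rw [Submodule.Quotient.mk_eq_zero, mem1] at h1
    have := h1 j
    rwa [Matrix.mulVec_smul] at this
  obtain ⟨e, h1, h2, h3, h4⟩ := par (fun i => (U1 *ᵥ w i) 5 / 2) (fun i => (U1 *ᵥ w i) 6 / 30)
  refine ⟨e, h1, h2, Subtype.ext ?_⟩
  have : (((8 : ℤ) • ∑ i, e i • y i : K M1) : Coker M1) =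
      Submodule.Quotient.mk ((8 : ℤ) • ∑ i, e i • w i) := by
    simp only [Fin.sum_univ_three, Submodule.Quotient.mk_smul, Submodule.Quotient.mk_add, hw]
    rfl
  rw [this]
  show _ = (0 : Coker M1)
  rw [Submodule.Quotient.mk_eq_zero, mem1]
  intro j
  simp only [Fin.sum_univ_three, Matrix.mulVec_smul, Matrix.mulVec_add, Pi.smul_apply,
    Pi.add_apply, smul_eq_mul] at h3 h4 ⊢
  have a0 := hd 0 j
  have a1 := hd 1 j
  have a2 := hd 2 j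
  rcases h1 0 with e0 | e0 <;> rcases h1 1 with e1 | e1 <;> rcases h1 2 with e2 | e2 <;>
    rw [e0, e1, e2] at h3 h4 ⊢ <;> fin_cases j <;> simp [d1] at a0 a1 a2 ⊢ <;> omega

def y2 : Fin 3 → Vec 3 → ℤ := fun i v => ![1, 2, 30] i * Ui2 v (![4, 5, 6] i)

lemma y2_16 (i : Fin 3) : (16 : ℤ) • (Submodule.Quotient.mk (y2 i) : Coker M2) = 0 := by
  rw [← Submodule.Quotient.mk_smul, Submodule.Quotient.mk_eq_zero, mem2]
  revert i
  decide +kernel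

lemma notP2 : ¬ P (K M2) := by
  intro h
  obtain ⟨e, h1, h2, h3⟩ := h (fun i => ⟨Submodule.Quotient.mk (y2 i), by
    rw [AddCommGroup.mem_torsion, isOfFinAddOrder_iff_nsmul_eq_zero]
    exact ⟨16, by norm_num, by exact_mod_cast y2_16 i⟩⟩) (fun i => Subtype.ext (y2_16 i))
  have h4 := congrArg Subtype.val h3
  have : (Submodule.Quotient.mk ((8 : ℤ) • ∑ i, e i • y2 i) : Coker M2) = 0 := by
    simp only [Fin.sum_univ_three, Submodule.Quotient.mk_smul, Submodule.Quotient.mk_add] at h4 ⊢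
    exact h4
  rw [Submodule.Quotient.mk_eq_zero, mem2] at this
  have he : e = ![e 0, e 1, e 2] := by ext i; fin_cases i <;> rfl
  rw [he] at this h2
  rcases h1 0 with e0 | e0 <;> rcases h1 1 with e1 | e1 <;> rcases h1 2 with e2 | e2 <;>
    rw [e0, e1, e2] at this h2 <;> revert this h2 <;> decide +kernel

theorem not_iso : IsEmpty (K M1 ≃+ K M2) := ⟨fun f => notP2 (P_of_equiv f P1)⟩

lemma span_of (M : List (Vec 3)) (h : ∀ v : Vec 3, ∃ a ∈ M, ∃ b ∈ M, ∃ c ∈ M,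
    v = a ∨ v = a + b ∨ v = a + b + c) : Submodule.span (ZMod 2) {v | v ∈ M} = ⊤ := by
  rw [eq_top_iff]
  intro v _
  obtain ⟨a, ha, b, hb, c, hc, h⟩ := h v
  have ha' : a ∈ Submodule.span (ZMod 2) {v | v ∈ M} := Submodule.subset_span ha
  have hb' : b ∈ Submodule.span (ZMod 2) {v | v ∈ M} := Submodule.subset_span hb
  have hc' : c ∈ Submodule.span (ZMod 2) {v | v ∈ M} := Submodule.subset_span hc
  rcases h with rfl | rfl | rfl
  exacts [ha', add_mem ha' hb', add_mem (add_mem ha' hb') hc']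

end Pool.Agent.H32.Sandp
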