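import Mathlib
import Pool.Agent.H32.BddDeg

set_option autoImplicit false

namespace Pool.Agent.H32.SepDeg

open MvPolynomial Pool.Agent.H32.BddDeg

open Classical in
noncomputable def mn (f : R) : ℕ →₀ ℕ :=
  if h : ∃ m ∈ f.support, ∀ m' ∈ f.support, toLex m ≤ toLex m' then h.choose else 0

theorem mn_eq (f : R) (m : ℕ →₀ ℕ) (hm : m ∈ f.support) (h : ∀ m' ∈ f.support, toLex m ≤ toLex m') :
    mn f = m := by
  have h0 : ∃ m ∈ f.support, ∀ m' ∈ f.support, toLex m ≤ toLex m' := ⟨m, hm, h⟩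
  rw [mn, dif_pos h0]
  exact toLex.injective (le_antisymm (h0.choose_spec.2 m hm) (h _ h0.choose_spec.1))

noncomputable def col (f : R) : Fin 2 := ⟨padicValNat 2 (coeff (mn f) f) % 2, Nat.mod_lt _ two_pos⟩

theorem mem_pow {a : R} {m : ℕ →₀ ℕ} (h : m ∈ a.support) (i : ℕ) : i • m ∈ (a ^ i).support := by
  induction i with
  | zero => simp
  | succ i ih => rw [succ_nsmul, pow_succ]; exact mem_mul ih h

theorem low (a b c : R) (i p q : ℕ) (hp : p ≠ 0) (hq : q ≠ 0) (hc : coeff 0 c = 0) (m : ℕ →₀ ℕ)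
    (hm : m ∈ (a + b).support) (hmin : ∀ m' ∈ (a + b).support, toLex m ≤ toLex m') :
    coeff (mn (C p * a + C q * b + a ^ i * b * c)) (C p * a + C q * b + a ^ i * b * c) =
      p * coeff m a + q * coeff m b := by
  have h1 : ∀ n ∈ (a ^ i * b * c).support, toLex m < toLex n := by
    intro n hn
    obtain ⟨n1, hn1, mc, hmc, rfl⟩ := mem_mul' hn
    obtain ⟨ma, -, mb, hmb, rfl⟩ := mem_mul' hn1
    have h0 : mc ≠ 0 := by
      rintro rfl
      exact (mem_support_iff.1 hmc) hc
    refine (hmin mb (mem_add.2 (Or.inr hmb))).trans_lt ?_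
    refine lt_of_le_of_ne (Finsupp.toLex_monotone (le_add_right le_add_self)) fun h => h0 ?_
    have h2 : mb = ma + mb + mc := toLex.injective h
    ext j
    have := DFunLike.congr_fun h2 j
    simp only [Finsupp.coe_add, Pi.add_apply, Finsupp.coe_zero, Pi.zero_apply] at this ⊢
    omega
  have h2 : coeff m (a ^ i * b * c) = 0 := by
    by_contra h
    exact lt_irrefl _ (h1 m (mem_support_iff.2 h))
  rw [mn_eq _ m]
  · simp only [coeff_add, coeff_C_mul, h2, add_zero]
  · rw [mem_support_iff] at hm ⊢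
    simp only [coeff_add, coeff_C_mul, h2] at hm ⊢
    intro h
    simp [hp, hq] at h
    omega
  · intro n hn
    rcases mem_add.1 hn with hn | hn
    · apply hmin
      rw [mem_support_iff] at hn ⊢
      simp only [coeff_add, coeff_C_mul] at hn ⊢
      intro h
      apply hn
      have ha : coeff n a = 0 := by omega
      have hb : coeff n b = 0 := by omega
      simp [ha, hb]
    · exact (h1 n hn).le

theorem main (i : ℕ) (a b c d : R) (ha : a ≠ 0) (ha0 : coeff 0 a = 0) (hc : c ≠ 0)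
    (hc0 : coeff 0 c = 0) (hd0 : coeff 0 d = 0)
    (hF : ∀ v, degreeOf v (C 4 * a + C 1 * b + a ^ i * b * c) ≤ i) :
    col (C 4 * a + C 1 * b + a ^ i * b * c) ≠ col (C 2 * a + C 2 * b + a ^ i * b * d) := by
  have hne : (a + b).support.Nonempty := by
    obtain ⟨m, hm⟩ := support_nonempty.2 ha
    exact ⟨m, mem_add.2 (Or.inl hm)⟩
  obtain ⟨m, hm, hmin⟩ := Finset.exists_min_image (a + b).support toLex hne
  have hdisj : coeff m a = 0 ∨ coeff m b = 0 := by
    by_contra h
    push Not at h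
    obtain ⟨mc, hmc⟩ := support_nonempty.2 hc
    have h0 : m ≠ 0 := by
      rintro rfl
      exact h.1 ha0
    obtain ⟨v, hv⟩ := Finsupp.ne_iff.1 h0
    have h1 := mem_mul (mem_mul (mem_pow (mem_support_iff.2 h.1) i) (mem_support_iff.2 h.2)) hmc
    have h2 := (monomial_le_degreeOf v (mem_add.2 (Or.inr h1))).trans (hF v)
    simp only [Finsupp.coe_add, Pi.add_apply, Finsupp.coe_smul, Pi.smul_apply, smul_eq_mul,
      Finsupp.coe_zero, Pi.zero_apply] at h2 hv
    have : i * 1 ≤ i * m v := Nat.mul_le_mul_left i (by omega)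
    omega
  intro h
  simp only [col, Fin.mk.injEq] at h
  rw [low a b c i 4 1 (by norm_num) (by norm_num) hc0 m hm hmin,
    low a b d i 2 2 (by norm_num) (by norm_num) hd0 m hm hmin] at h
  rw [mem_support_iff, coeff_add] at hm
  have k : ∀ x : ℕ, x ≠ 0 → padicValNat 2 (2 * x) = padicValNat 2 x + 1 := by
    intro x hx
    rw [padicValNat.mul two_ne_zero hx, padicValNat_self, add_comm]
  rcases hdisj with h0 | h0 <;> rw [h0] at h hm <;> simp only [mul_zero, zero_add, add_zero] at h hm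
  · rw [one_mul, k _ hm] at h
    omega
  · rw [show 4 * coeff m a = 2 * (2 * coeff m a) by ring, k _ (by omega)] at h
    omega

theorem deg_mon (p : ℕ) (m : ℕ →₀ ℕ) (d : ℕ) (h : ∀ v, m v ≤ d) (v : ℕ) :
    degreeOf v (monomial m p : R) ≤ d := by
  rw [degreeOf_le_iff]
  intro n hn
  have := support_monomial_subset hn
  rw [Finset.mem_singleton] at this
  rw [this]
  exact h v

theorem deg_term (p u v w i j : ℕ) (h : ∀ t, (if u = t then i else 0) + (if v = t then 1 else 0) +
    (if w = t then 1 else 0) ≤ j) (t : ℕ) :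
    degreeOf t ((X u : R) ^ i * (C p * X v) * X w) ≤ j := by
  have : (X u : R) ^ i * (C p * X v) * X w =
      monomial (Finsupp.single u i + Finsupp.single v 1 + Finsupp.single w 1) p := by
    simp only [X, monomial_pow, C_mul_monomial, monomial_mul]
    simp
  rw [this]
  apply deg_mon
  intro s
  simpa only [Finsupp.coe_add, Pi.add_apply, Finsupp.single_apply] using h s

theorem deg_lin (p u j : ℕ) (hj : 1 ≤ j) (t : ℕ) : degreeOf t (C p * (X u : R)) ≤ j := by
  rw [C_mul_X_eq_monomial]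
  apply deg_mon
  intro s
  rw [Finsupp.single_apply]
  split_ifs <;> omega

theorem good (p q r u v w i j : ℕ) (hp : p ≠ 0) (hj : 1 ≤ j)
    (h : ∀ t, (if u = t then i else 0) + (if v = t then 1 else 0) + (if w = t then 1 else 0) ≤ j) :
    let f : R := C p * X u + C q * (C r * X v) + X u ^ i * (C r * X v) * X w
    f ≠ 0 ∧ coeff 0 f = 0 ∧ ∀ t, degreeOf t f ≤ j := by
  refine ⟨fun h0 => ?_, ?_, fun t => ?_⟩
  · have := congrArg (eval fun _ => 1) h0
    simp [hp] at this
  · have hc : ∀ f : R, coeff 0 f = constantCoeff f := fun _ => rfl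
    simp [hc]
  · refine (degreeOf_add_le _ _ _).trans (max_le ((degreeOf_add_le _ _ _).trans (max_le
      (deg_lin _ _ _ hj t) ?_)) (deg_term _ _ _ _ _ _ h t))
    rw [← mul_assoc, ← C_mul]
    exact deg_lin _ _ _ hj t

theorem goodX (r v j : ℕ) (hr : r ≠ 0) (hj : 1 ≤ j) :
    (C r * X v : R) ≠ 0 ∧ coeff 0 (C r * X v : R) = 0 ∧ ∀ t, degreeOf t (C r * X v : R) ≤ j := by
  refine ⟨fun h0 => ?_, ?_, deg_lin _ _ _ hj⟩
  · have := congrArg (eval fun _ => 1) h0
    simp [hr] at this
  · change constantCoeff _ = 0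
    simp

theorem distinct (i k l : ℕ) (h : k ≠ l) :
    (C 4 * X 0 + C 1 * (C 2 * X 0) + X 0 ^ i * (C 2 * X 0) * X (k + 1) : R) ≠
      C 2 * X 0 + C 2 * (C 2 * X 0) + X 0 ^ i * (C 2 * X 0) * X (l + 1) := by
  intro h0
  have := congrArg (eval fun t => if t = l + 1 then 0 else 1) h0
  simp [h] at this

end Pool.Agent.H32.SepDeg
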