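import Pool.Agent.H32.SgDefs

/-! An automaton on which the 2-game is a strictly alternating game; Alice wins. -/

namespace Pool.Agent.H32.Sg

section
variable {Q A : Type} {δ : Q → A → Q} {k : ℕ}

theorem Win.succ : ∀ {N P}, Win δ k N P → Win δ k (N + 1) P
  | 0, _, h => h.elim
  | _ + 1, _, ⟨a, h⟩ => ⟨a, h.imp id fun h u hu => (h u hu).succ⟩

theorem Win.le {N M P} (h : Win δ k N P) (l : N ≤ M) : Win δ k M P := by
  induction l with
  | refl => exact h
  | step _ ih => exact ih.succ

theorem Win.sub : ∀ {N P P'}, Win δ k N P → P' ⊆ P → P'.Nonempty → Win δ k N P'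
  | 0, _, _, h, _, _ => h.elim
  | _ + 1, _, _, ⟨a, h⟩, s, n => ⟨a, h.imp (fun h => by
      obtain ⟨x, hx⟩ := Set.ncard_eq_one.1 h
      rw [(n.image _).subset_singleton_iff.1 (hx ▸ Set.image_mono s), Set.ncard_singleton])
      fun h u hu => (h u hu).sub (Set.image_mono s) (n.image _)⟩

theorem win_step [Finite Q] {P : Set Q} (a : A) (h : ∀ u : List A, u.length ≤ k →
    ∃ N, Win δ k N ((fun q => u.foldl δ (δ q a)) '' P)) : ∃ N, Win δ k N P := by
  obtain ⟨M, hM⟩ := Finite.exists_le fun P : Set Q => sInf {N | Win δ k N P}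
  exact ⟨M + 1, a, Or.inr fun u hu => (Nat.sInf_mem (h u hu) :).le (hM _)⟩

theorem win_one {P : Set Q} (n : P.Nonempty) (a : A) (x : Q) (h : ∀ q ∈ P, δ q a = x) :
    ∃ N, Win δ k N P := ⟨1, a, Or.inl (Set.ncard_eq_one.2 ⟨x,
      (n.image _).subset_singleton_iff.1 (by rintro _ ⟨q, hq, rfl⟩; exact h q hq)⟩)⟩

end

abbrev St (r : ℕ) := Option (ZMod (r + 2) ⊕ ZMod (r + 3))

variable {r : ℕ}

def fl (j : ZMod (r + 3)) : ZMod (r + 2) := (j.val : ℕ)

def al : Bool → St r → St r
  | _, none => none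
  | false, some (.inl s) => some (.inl (s + 1))
  | false, some (.inr j) => some (.inr (j + 1))
  | true, some (.inl s) => if s = 0 then none else some (.inl s)
  | true, some (.inr j) => some (.inl (fl j))

def bo (d : ZMod (r + 3)) (x : St r) : St r := some (x.getD (.inr d))

def dl : St r × Bool → Option (Bool × ZMod (r + 3)) → St r × Bool
  | (x, false), l => (al (l.elim false (·.1)) x, true)
  | (x, true), some l => (bo l.2 x, false)
  | (_, true), none => (none, true)

theorem allB {P : Set (St r × Bool)} (n : P.Nonempty) (h : ∀ q ∈ P, q.2 = true) :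
    ∃ N, Win dl 2 N P := win_one n none (none, true) fun ⟨_, _⟩ hq => by cases h _ hq; rfl

theorem stepB {P : Set (St r × Bool)} (n : P.Nonempty) (a) (h : ∀ q ∈ P, (dl q a).2 = true)
    (h2 : ∀ l, ∃ N, Win dl 2 N ((fun q => dl (dl q a) (some l)) '' P)) : ∃ N, Win dl 2 N P := by
  have e1 : ∀ q ∈ P, dl (dl q a) none = (none, true) := fun q hq => by
    have := h q hq
    generalize dl q a = y at this ⊢
    obtain ⟨_, _⟩ := y
    cases this; rfl
  have e2 : ∀ l l', ∀ q ∈ P, (dl (dl (dl q a) (some l)) l').2 = true := fun l l' q hq => by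
    have := h q hq
    generalize dl q a = y at this ⊢
    obtain ⟨_, _⟩ := y
    cases this; rfl
  refine win_step a fun u hu => ?_
  rcases u with _ | ⟨_ | l, _ | ⟨l', _ | _⟩⟩
  · exact allB (n.image _) (by rintro _ ⟨q, hq, rfl⟩; exact h q hq)
  · exact allB (n.image _) (by rintro _ ⟨q, hq, rfl⟩; simp [e1 q hq])
  · exact win_one (n.image _) none _ (by rintro _ ⟨q, hq, rfl⟩; simp only [List.foldl, e1 q hq]; rfl)
  · simp at hu
  · exact h2 l
  · exact allB (n.image _) (by rintro _ ⟨q, hq, rfl⟩; exact e2 l l' q hq)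
  · simp at hu

def W0 (S : Set (St r)) : Prop := ∃ N, Win dl 2 N ((·, false) '' S)

theorem stepA {S : Set (St r)} (n : S.Nonempty) (b : Bool)
    (h : ∀ d, W0 ((fun x => bo d (al b x)) '' S)) : W0 S := by
  refine stepB (n.image _) (some (b, 0)) (by rintro _ ⟨q, -, rfl⟩; rfl) fun l => ?_
  have := h l.2
  rw [W0, Set.image_image] at this
  rw [Set.image_image]
  exact this

theorem go (t : ℕ) : ∀ {S : Set (St r)}, S.Nonempty → none ∉ S →
    (∀ d, W0 ((fun x => bo d (al true ((al false)^[t] x))) '' S)) → W0 S := by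
  induction t with
  | zero => exact fun n _ h => stepA n true h
  | succ t ih =>
    intro S n h0 h
    refine stepA n false fun d => ?_
    have e : (fun x => bo d (al false x)) '' S = al false '' S := Set.image_congr fun x hx => by
      rcases x with _ | s | j
      exacts [absurd hx h0, rfl, rfl]
    rw [e]
    refine ih (n.image _) ?_ fun d => by rw [Set.image_image]; exact h d
    rintro ⟨_ | s | j, hx, e⟩
    exacts [h0 hx, (by cases e), by cases e]

theorem it1 (t : ℕ) (s : ZMod (r + 2)) :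
    (al false)^[t] (some (.inl s) : St r) = some (.inl (s + t)) := by
  induction t with
  | zero => simp
  | succ t ih => rw [Function.iterate_succ_apply', ih]; simp [al, add_assoc]

theorem it2 (t : ℕ) (s : ZMod (r + 3)) :
    (al false)^[t] (some (.inr s) : St r) = some (.inr (s + t)) := by
  induction t with
  | zero => simp
  | succ t ih => rw [Function.iterate_succ_apply', ih]; simp [al, add_assoc]

theorem w0_all (c : ℕ) : ∀ S : Set (St r), S.Nonempty → none ∉ S → S.ncard ≤ c → W0 S := by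
  induction c with
  | zero =>
    intro S n _ h
    have := (Set.ncard_pos S.toFinite).2 n
    omega
  | succ c ih =>
    have nn : ∀ d (g : St r → St r) (S : Set (St r)), none ∉ (fun x => bo d (g x)) '' S := by
      rintro d g S ⟨x, -, e⟩
      cases e
    have H1 : ∀ (S : Set (St r)) s j, none ∉ S → S.ncard ≤ c + 1 → some (.inl s) ∈ S →
        some (.inr j) ∈ S → W0 S := by
      intro S s j h0 hc hs hj
      obtain ⟨t, t1, t2⟩ := Nat.chineseRemainder (n := r + 2) (m := r + 3)
        ((Nat.coprime_self_add_right (m := r + 2) (n := 1)).2 (Nat.coprime_one_right _))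
        (1 - s).val (1 - j).val
      have t1 : s + t = 1 := by rw [(ZMod.natCast_eq_natCast_iff _ _ _).2 t1]; simp
      have t2 : j + t = 1 := by rw [(ZMod.natCast_eq_natCast_iff _ _ _).2 t2]; simp
      refine go t ⟨_, hs⟩ h0 fun d => ih _ ⟨_, _, hs, rfl⟩ (nn _ _ _) ?_
      have a := Set.ncard_image_le (f := fun x => bo d (al true ((al false)^[t] x))) S.toFinite
      have b := (Set.ncard_image_iff (f := fun x => bo d (al true ((al false)^[t] x)))
        S.toFinite).not.2 fun h => by
          have : Fact (1 < r + 2) := ⟨by omega⟩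
          have : Fact (1 < r + 3) := ⟨by omega⟩
          have := h hs hj (by simp only [it1, it2, t1, t2, al, fl, ZMod.val_one]; simp)
          cases this
      omega
    have H2 : ∀ S : Set (St r), S.Nonempty → S.ncard ≤ c + 1 →
        (∀ x ∈ S, ∃ s, x = some (.inl s)) → W0 S := by
      rintro S ⟨x, hx⟩ hc h
      by_cases h1 : ∀ y ∈ S, y = x
      · exact win_one ⟨_, x, hx, rfl⟩ none _ (by rintro _ ⟨y, hy, rfl⟩; rw [h1 y hy])
      push Not at h1
      obtain ⟨y, hy, h1⟩ := h1
      obtain ⟨s, rfl⟩ := h x hx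
      obtain ⟨s', rfl⟩ := h y hy
      refine go (-s).val ⟨_, hx⟩ (fun h0 => by simpa using h _ h0) fun d =>
        H1 _ (s' - s) d (nn _ _ _) ((Set.ncard_image_le S.toFinite).trans hc) ⟨_, hy, ?_⟩ ⟨_, hx, ?_⟩
      · have : s' + -s ≠ 0 := fun e => h1 (by rw [add_neg_eq_zero.1 e])
        simp [it1, al, bo, this, sub_eq_add_neg]
      · simp [it1, al, bo]
    intro S n h0 hc
    by_cases h : ∃ s, some (.inl s) ∈ S
    · by_cases h' : ∃ j, some (.inr j) ∈ S
      · obtain ⟨s, hs⟩ := h
        obtain ⟨j, hj⟩ := h'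
        exact H1 S s j h0 hc hs hj
      · refine H2 S n hc ?_
        rintro (_ | s | j) hx
        exacts [absurd hx h0, ⟨s, rfl⟩, absurd ⟨j, hx⟩ h']
    · refine stepA n true fun d => H2 _ (n.image _) ((Set.ncard_image_le S.toFinite).trans hc) ?_
      rintro _ ⟨_ | s | j, hx, rfl⟩
      exacts [absurd hx h0, absurd ⟨s, hx⟩ h, ⟨_, rfl⟩]

theorem win_univ : ∃ N, Win (dl (r := r)) 2 N Set.univ := by
  refine stepB Set.univ_nonempty none (by rintro ⟨_, _ | _⟩ - <;> rfl) fun l => ?_
  obtain ⟨N, h⟩ := w0_all _ {x : St r | x ≠ none} ⟨some (.inl 0), by simp⟩ (by simp) le_rfl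
  refine ⟨N, h.sub ?_ (Set.univ_nonempty.image _)⟩
  rintro _ ⟨⟨x, _ | _⟩, -, rfl⟩ <;> exact ⟨bo l.2 _, by simp [bo], rfl⟩

end Pool.Agent.H32.Sg
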