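import Mathlib

/-! The synchronization game with bounded responses. -/

namespace Pool.Agent.H32.Sg

variable {Q A : Type}

/-- Alice wins the `k`-game from the current set within `N` of her moves -/
def Win (δ : Q → A → Q) (k : ℕ) : ℕ → Set Q → Prop
  | 0, _ => False
  | N + 1, P => ∃ a, ((fun q => δ q a) '' P).ncard = 1 ∨
      ∀ u : List A, u.length ≤ k → Win δ k N ((fun q => u.foldl δ (δ q a)) '' P)

/-- the `k`-game length -/
noncomputable def len (δ : Q → A → Q) (k : ℕ) : ℕ := sInf {N | Win δ k N Set.univ}

end Pool.Agent.H32.Sg
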