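import Mathlib

set_option autoImplicit false

namespace Pool.Agent.H32.SqCycle

open Finset

variable {G : Type} [Group G] [Fintype G]

open Classical in
noncomputable def H (χ : G → Fin 2) (v : G) : ℕ :=
  ∑ y : G, if χ y = χ (y * v ^ 2) then 1 else 0

open Classical in
theorem H_shift (χ : G → Fin 2) (v p : G) :
    H χ v = ∑ y : G, if χ (y * p) = χ (y * p * v ^ 2) then 1 else 0 :=
  (Equiv.sum_comp (Equiv.mulRight p) (fun y => if χ y = χ (y * v ^ 2) then 1 else 0)).symm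

theorem seven (x0 x1 x2 x3 x4 x5 x6 : Fin 2) :
    1 ≤ (if x0 = x1 then 1 else 0) + (if x1 = x2 then 1 else 0) + (if x2 = x3 then 1 else 0) +
      (if x3 = x4 then 1 else 0) + (if x4 = x5 then 1 else 0) + (if x5 = x6 then 1 else 0) +
      (if x6 = x0 then 1 else 0) := by
  revert x0 x1 x2 x3 x4 x5 x6
  decide

theorem cyc (χ : G → Fin 2) (w0 w1 w2 w3 w4 w5 w6 : G)
    (h : w0 ^ 2 * w1 ^ 2 * w2 ^ 2 * w3 ^ 2 * w4 ^ 2 * w5 ^ 2 * w6 ^ 2 = 1) :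
    Fintype.card G ≤ H χ w0 + H χ w1 + H χ w2 + H χ w3 + H χ w4 + H χ w5 + H χ w6 := by
  classical
  rw [H_shift χ w0 1, H_shift χ w1 (w0 ^ 2), H_shift χ w2 (w0 ^ 2 * w1 ^ 2),
    H_shift χ w3 (w0 ^ 2 * w1 ^ 2 * w2 ^ 2), H_shift χ w4 (w0 ^ 2 * w1 ^ 2 * w2 ^ 2 * w3 ^ 2),
    H_shift χ w5 (w0 ^ 2 * w1 ^ 2 * w2 ^ 2 * w3 ^ 2 * w4 ^ 2),
    H_shift χ w6 (w0 ^ 2 * w1 ^ 2 * w2 ^ 2 * w3 ^ 2 * w4 ^ 2 * w5 ^ 2)]
  simp only [← Finset.sum_add_distrib]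
  rw [← Finset.card_univ, Finset.card_eq_sum_ones]
  apply Finset.sum_le_sum
  intro y _
  have h6 : y * (w0 ^ 2 * w1 ^ 2 * w2 ^ 2 * w3 ^ 2 * w4 ^ 2 * w5 ^ 2) * w6 ^ 2 = y := by
    rw [mul_assoc, h, mul_one]
  rw [h6]
  simp only [mul_one, mul_assoc]
  have := seven (χ y) (χ (y * w0 ^ 2)) (χ (y * (w0 ^ 2 * w1 ^ 2)))
    (χ (y * (w0 ^ 2 * (w1 ^ 2 * w2 ^ 2)))) (χ (y * (w0 ^ 2 * (w1 ^ 2 * (w2 ^ 2 * w3 ^ 2)))))
    (χ (y * (w0 ^ 2 * (w1 ^ 2 * (w2 ^ 2 * (w3 ^ 2 * w4 ^ 2))))))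
    (χ (y * (w0 ^ 2 * (w1 ^ 2 * (w2 ^ 2 * (w3 ^ 2 * (w4 ^ 2 * w5 ^ 2)))))))
  convert this

theorem sumLR (f : G → ℕ) (p q : G) : ∑ x, f (p * x * q) = ∑ x, f x :=
  ((Equiv.mulLeft p).trans (Equiv.mulRight q)).sum_comp f

theorem sumLRi (f : G → ℕ) (p q : G) : ∑ x, f (p * x⁻¹ * q) = ∑ x, f x :=
  ((Equiv.inv G).trans ((Equiv.mulLeft p).trans (Equiv.mulRight q))).sum_comp f

theorem key (χ : G → Fin 2) : Fintype.card G ^ 2 ≤ 7 * ∑ v, H χ v := by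
  set n := Fintype.card G with hn
  set T := ∑ v, H χ v with hT
  have h1 : ∀ a b c : G, n ≤ H χ (b * c) + H χ ((b * c)⁻¹ * a) + H χ (a⁻¹ * b) + H χ b⁻¹ +
      H χ (b * a * b⁻¹) + H χ (b * a⁻¹ * c * b⁻¹) + H χ (b * c⁻¹ * b⁻¹) := by
    intro a b c
    apply cyc
    simp only [sq]
    group
  have h2 : ∑ a : G, ∑ b : G, ∑ c : G, n ≤ ∑ a : G, ∑ b : G, ∑ c : G,
      (H χ (b * c) + H χ ((b * c)⁻¹ * a) + H χ (a⁻¹ * b) + H χ b⁻¹ +
      H χ (b * a * b⁻¹) + H χ (b * a⁻¹ * c * b⁻¹) + H χ (b * c⁻¹ * b⁻¹)) :=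
    sum_le_sum fun a _ => sum_le_sum fun b _ => sum_le_sum fun c _ => h1 a b c
  have e0 : ∀ b : G, ∑ c : G, H χ (b * c) = T := fun b => by
    simpa using sumLR (H χ) b 1
  have e1 : ∀ a b : G, ∑ c : G, H χ ((b * c)⁻¹ * a) = T := fun a b => by
    simpa [mul_assoc] using sumLRi (H χ) 1 (b⁻¹ * a)
  have e2 : ∀ a : G, ∑ b : G, H χ (a⁻¹ * b) = T := fun a => by
    simpa using sumLR (H χ) a⁻¹ 1
  have e3 : ∑ b : G, H χ b⁻¹ = T := by
    simpa using sumLRi (H χ) 1 1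
  have e4 : ∑ a : G, ∑ b : G, H χ (b * a * b⁻¹) = n * T := by
    rw [Finset.sum_comm]
    simp only [sumLR (H χ), sum_const, card_univ, smul_eq_mul]
    rfl
  have e5 : ∀ a b : G, ∑ c : G, H χ (b * a⁻¹ * c * b⁻¹) = T := fun a b => sumLR (H χ) _ _
  have e6 : ∀ b : G, ∑ c : G, H χ (b * c⁻¹ * b⁻¹) = T := fun b => sumLRi (H χ) _ _
  simp only [Finset.sum_add_distrib, e0, e1, e5, e6, sum_const, card_univ, smul_eq_mul,
    ← Finset.mul_sum, e2, e3, e4, ← hn] at h2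
  have hpos : 0 < n := Fintype.card_pos
  have h3 : n * n * n ^ 2 ≤ n * n * (7 * T) := by nlinarith
  exact Nat.le_of_mul_le_mul_left h3 (Nat.mul_pos hpos hpos)

open Classical in
theorem sumH (χ : G → Fin 2) : ∑ v, H χ v = ∑ c : G, ∑ i : Fin 2,
    (Finset.univ.filter (fun x : G => χ x = i ∧ χ (c * x⁻¹ * c) = i)).card := by
  have h1 : ∀ c : G, ∑ i : Fin 2,
      (Finset.univ.filter (fun x : G => χ x = i ∧ χ (c * x⁻¹ * c) = i)).card =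
      ∑ x : G, if χ x = χ (c * x⁻¹ * c) then 1 else 0 := by
    intro c
    simp only [card_filter]
    rw [Finset.sum_comm]
    apply Finset.sum_congr rfl
    intro x _
    generalize χ x = p
    generalize χ (c * x⁻¹ * c) = q
    revert p q
    decide
  simp only [h1, H]
  rw [Finset.sum_comm]
  conv_rhs => rw [Finset.sum_comm]
  apply Finset.sum_congr rfl
  intro y _
  rw [← Equiv.sum_comp (Equiv.mulLeft y) (fun c => if χ y = χ (c * y⁻¹ * c) then 1 else 0)]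
  apply Finset.sum_congr rfl
  intro v _
  have : (Equiv.mulLeft y) v * y⁻¹ * (Equiv.mulLeft y) v = y * v ^ 2 := by
    simp [sq, mul_assoc]
  rw [this]

theorem main : ¬ (∀ ε : ℝ, 0 < ε → ∀ r : ℕ, 1 < r →
      ∃ (G : Type) (_ : Group G) (_ : Fintype G), ∃ χ : G → Fin r,
        ∀ c : G, ∀ i : Fin r,
          ((Finset.univ.filter (fun x : G => χ x = i ∧ χ (c * x⁻¹ * c) = i)).card : ℝ)
            < ε * (Fintype.card G : ℝ)) := by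
  intro h
  obtain ⟨G, _, _, χ, hχ⟩ := h (1 / 14) (by norm_num) 2 (by norm_num)
  have k := key χ
  rw [sumH] at k
  have k2 : ((Fintype.card G : ℝ)) ^ 2 ≤ 7 * ∑ c : G, ∑ i : Fin 2,
      ((Finset.univ.filter (fun x : G => χ x = i ∧ χ (c * x⁻¹ * c) = i)).card : ℝ) := by
    convert (Nat.cast_le (α := ℝ)).2 k <;> push_cast <;> rfl
  have k3 : ∑ c : G, ∑ i : Fin 2,
      ((Finset.univ.filter (fun x : G => χ x = i ∧ χ (c * x⁻¹ * c) = i)).card : ℝ) <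
      ∑ _c : G, ∑ _i : Fin 2, (1 / 14 * (Fintype.card G : ℝ)) :=
    sum_lt_sum_of_nonempty univ_nonempty fun c _ =>
      sum_lt_sum_of_nonempty univ_nonempty fun i _ => hχ c i
  simp only [sum_const, card_univ, Fintype.card_fin, nsmul_eq_mul] at k3
  push_cast at k3
  nlinarith

end Pool.Agent.H32.SqCycle
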