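import Mathlib

/-! A triangle lemma for context-free languages. -/

namespace Pool.Agent.H32.Tl

open ContextFreeGrammar

variable {T : Type}

inductive Y (g : ContextFreeGrammar T) : List (Symbol T g.NT) → List T → Prop
  | nil : Y g [] []
  | term (t : T) {α : List (Symbol T g.NT)} {w : List T} : Y g α w → Y g (.terminal t :: α) (t :: w)
  | nt {r : ContextFreeRule T g.NT} {α : List (Symbol T g.NT)} {u w : List T} : r ∈ g.rules →
      Y g r.output u → Y g α w → Y g (.nonterminal r.input :: α) (u ++ w)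

variable {g : ContextFreeGrammar T}

theorem Y.app {α β : List (Symbol T g.NT)} {u w : List T} (h : Y g α u) (h' : Y g β w) :
    Y g (α ++ β) (u ++ w) := by
  induction h with
  | nil => exact h'
  | term t _ ih => exact .term t ih
  | nt hr a _ _ ih => rw [List.append_assoc]; exact .nt hr a ih

theorem Y.split (α : List (Symbol T g.NT)) : ∀ {β w}, Y g (α ++ β) w →
    ∃ u v, w = u ++ v ∧ Y g α u ∧ Y g β v := by
  induction α with
  | nil => exact fun h => ⟨[], _, rfl, .nil, h⟩
  | cons s α ih =>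
    intro β w h
    cases h with
    | term t h =>
      obtain ⟨u, v, rfl, a, b⟩ := ih h
      exact ⟨t :: u, v, rfl, .term t a, b⟩
    | nt hr a h =>
      obtain ⟨u, v, rfl, b, c⟩ := ih h
      exact ⟨_, v, (List.append_assoc _ _ _).symm, .nt hr a b, c⟩

theorem y_iff {α : List (Symbol T g.NT)} {w : List T} :
    g.Derives α (w.map .terminal) ↔ Y g α w := by
  constructor
  · intro h
    induction h using Relation.ReflTransGen.head_induction_on with
    | refl =>
      induction w with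
      | nil => exact .nil
      | cons t w ih => exact .term t ih
    | head hs _ ih =>
      obtain ⟨r, hr, hs⟩ := hs
      obtain ⟨p, q, rfl, rfl⟩ := hs.exists_parts
      obtain ⟨u, v, rfl, a, b⟩ := Y.split _ ih
      obtain ⟨u1, u2, rfl, c, d⟩ := Y.split _ a
      simpa using c.app (.nt hr d b)
  · intro h
    induction h with
    | nil => exact .refl _
    | term t _ ih => exact ih.append_left [.terminal t]
    | @nt r α u w hr _ _ i1 i2 =>
      rw [List.map_append]
      exact Produces.trans_derives ⟨r, hr, .head α⟩ ((i1.append_right α).trans (i2.append_left _))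

theorem tri {L : Language T} (h : L.IsContextFree) : ∃ K, ∀ w ∈ L, ∀ n1 n2, 0 < n1 → n1 ≤ n2 →
    n2 < w.length → ∃ x m1 m2 z m' m1' : List T, w = x ++ m1 ++ m2 ++ z ∧ x.length < n1 ∧
      n1 ≤ x.length + m1.length ∧ x.length + m1.length ≤ n2 ∧
      n2 < x.length + m1.length + m2.length ∧ m'.length ≤ K ∧ m1'.length ≤ K ∧
      x ++ m' ++ z ∈ L ∧ x ++ m1' ++ m2 ++ z ∈ L := by
  obtain ⟨g, rfl⟩ := h
  have fin : {β : List (Symbol T g.NT) | ∃ r ∈ g.rules, β ∈ r.output.inits}.Finite :=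
    (g.rules.finite_toSet.biUnion fun r _ => r.output.inits.finite_toSet).subset
      fun β ⟨r, a, b⟩ => Set.mem_biUnion a b
  obtain ⟨K, hK⟩ := (fin.image fun β => sInf {n | ∃ u, Y g β u ∧ u.length = n}).bddAbove
  have sh : ∀ r ∈ g.rules, ∀ β γ u, r.output = β ++ γ → Y g β u → ∃ v, Y g β v ∧ v.length ≤ K := by
    intro r hr β γ u e h
    obtain ⟨v, a, b⟩ := Nat.sInf_mem (s := {n | ∃ u, Y g β u ∧ u.length = n}) ⟨_, u, h, rfl⟩
    exact ⟨v, a, b ▸ hK ⟨β, ⟨r, hr, by simp [e]⟩, rfl⟩⟩
  have key : ∀ α w, Y g α w → ∀ n1 n2, n1 ≤ n2 → n1 ≤ w.length →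
      (∃ α1 α2 w1 w2, α = α1 ++ α2 ∧ w = w1 ++ w2 ∧ Y g α1 w1 ∧ Y g α2 w2 ∧ n1 ≤ w1.length ∧
        w1.length ≤ n2) ∨ ∃ x m1 m2 z m' m1' : List T, w = x ++ m1 ++ m2 ++ z ∧ x.length < n1 ∧
      n1 ≤ x.length + m1.length ∧ x.length + m1.length ≤ n2 ∧
      n2 < x.length + m1.length + m2.length ∧ m'.length ≤ K ∧ m1'.length ≤ K ∧
      Y g α (x ++ m' ++ z) ∧ Y g α (x ++ m1' ++ m2 ++ z) := by
    intro α w h
    induction h with
    | nil => exact fun n1 n2 _ h => Or.inl ⟨[], [], [], [], rfl, rfl, .nil, .nil, h, by simp⟩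
    | @term t α w h ih =>
      intro n1 n2 a b
      rcases n1 with _ | n1
      · exact Or.inl ⟨[], _, [], _, rfl, rfl, .nil, .term t h, le_rfl, by simp⟩
      rcases ih n1 (n2 - 1) (by omega) (by simpa using b) with
        ⟨α1, α2, w1, w2, rfl, rfl, c1, c2, c3, c4⟩ |
        ⟨x, m1, m2, z, m', m1', rfl, c1, c2, c3, c4, c5, c6, c7, c8⟩
      · exact Or.inl ⟨_, α2, _, w2, rfl, rfl, .term t c1, c2, by simp; omega, by simp; omega⟩
      · exact Or.inr ⟨t :: x, m1, m2, z, m', m1', rfl, by simp; omega, by simp; omega,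
          by simp; omega, by simp; omega, c5, c6, .term t c7, .term t c8⟩
    | @nt r α u w hr h1 h2 i1 i2 =>
      intro n1 n2 a b
      by_cases h0 : n1 = 0
      · exact Or.inl ⟨[], _, [], _, rfl, rfl, .nil, .nt hr h1 h2, by omega, by simp⟩
      by_cases hu : u.length ≤ n2
      · rcases i2 (n1 - u.length) (n2 - u.length) (by omega) (by simp at b; omega) with
          ⟨α1, α2, w1, w2, rfl, rfl, c1, c2, c3, c4⟩ |
          ⟨x, m1, m2, z, m', m1', rfl, c1, c2, c3, c4, c5, c6, c7, c8⟩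
        · exact Or.inl ⟨_, α2, _, w2, rfl, by simp, .nt hr h1 c1, c2, by simp; omega,
            by simp; omega⟩
        · exact Or.inr ⟨u ++ x, m1, m2, z, m', m1', by simp, by simp; omega, by simp; omega,
            by simp; omega, by simp; omega, c5, c6, by simpa using Y.nt hr h1 c7,
            by simpa using Y.nt hr h1 c8⟩
      · rcases i1 n1 n2 a (by omega) with ⟨α1, α2, w1, w2, e, rfl, c1, c2, c3, c4⟩ |
          ⟨x, m1, m2, z, m', m1', rfl, c1, c2, c3, c4, c5, c6, c7, c8⟩
        · obtain ⟨v, d1, d2⟩ := sh r hr _ [] _ (by simp) h1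
          obtain ⟨v', d3, d4⟩ := sh r hr _ _ _ e c1
          exact Or.inr ⟨[], w1, w2, w, v, v', by simp, by simp; omega, by simpa using c3,
            by simpa using c4, by simp at hu ⊢; omega, d2, d4, .nt hr d1 h2,
            .nt hr (e ▸ d3.app c2) h2⟩
        · exact Or.inr ⟨x, m1, m2, z ++ w, m', m1', by simp, c1, c2, c3, c4, c5, c6,
            by simpa using Y.nt hr c7 h2, by simpa using Y.nt hr c8 h2⟩
  refine ⟨K, fun w hw n1 n2 a b c => ?_⟩
  simp only [mem_language_iff, y_iff] at hw ⊢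
  refine (key _ _ hw n1 n2 b (by omega)).resolve_left ?_
  rintro ⟨α1, α2, w1, w2, e, rfl, c1, c2, c3, c4⟩
  rcases List.singleton_eq_append_iff.1 e with ⟨rfl, -⟩ | ⟨-, rfl⟩
  · cases c1; simp at c3; omega
  · cases c2; simp at c; omega

end Pool.Agent.H32.Tl
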