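import Pool.Agent.H32.TlDefs

/-! The layering tree of a graph. -/

namespace Pool.Agent.H32.Tl

open Relation SimpleGraph

theorem qt {V : Type} {G : SimpleGraph V} (hc : G.Connected) (o : V) (D : ℕ)
    (h : ∀ u v, G.dist o u = G.dist o v → ReflTransGen
      (fun x y => G.Adj x y ∧ G.dist o u ≤ G.dist o x ∧ G.dist o u ≤ G.dist o y) u v →
      G.dist u v ≤ D) : QuasiTree G := by
  classical
  let St : ℕ → V → V → Prop := fun n x y => G.Adj x y ∧ n ≤ G.dist o x ∧ n ≤ G.dist o y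
  have sy : ∀ n u v, ReflTransGen (St n) u v → ReflTransGen (St n) v u := fun n u v h => by
    induction h with
    | refl => exact .refl
    | tail _ a ih => exact .head ⟨a.1.symm, a.2.2, a.2.1⟩ ih
  let S : Setoid V := ⟨fun u v => G.dist o u = G.dist o v ∧ ReflTransGen (St (G.dist o u)) u v,
    fun _ => ⟨rfl, .refl⟩, fun ⟨a, b⟩ => ⟨a.symm, a ▸ sy _ _ _ b⟩,
    fun ⟨a, b⟩ ⟨c, d⟩ => ⟨a.trans c, b.trans (a ▸ d)⟩⟩
  have : ∀ x, ∃ y, (G.dist o x = 0 → y = x) ∧
      (G.dist o x ≠ 0 → G.Adj x y ∧ G.dist o x = G.dist o y + 1) := fun x => by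
    by_cases h0 : G.dist o x = 0
    · exact ⟨x, fun _ => rfl, fun h => absurd h0 h⟩
    obtain ⟨p, hp⟩ := hc.exists_walk_length_eq_dist x o
    cases p with
    | nil => exact absurd dist_self h0
    | @cons _ y _ a q =>
      have b := dist_le q
      have c := hc.dist_triangle (u := o) (v := y) (w := x)
      rw [dist_eq_one_iff_adj.2 a.symm] at c
      rw [Walk.length_cons, dist_comm] at hp
      rw [dist_comm] at b
      exact ⟨y, fun h => absurd h h0, fun _ => ⟨a, by omega⟩⟩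
  choose pr p0 p1 using this
  have pw : ∀ u v, S u v → S (pr u) (pr v) := by
    rintro u v ⟨a, b⟩
    by_cases h0 : G.dist o u = 0
    · rw [p0 u h0, p0 v (a ▸ h0)]; exact ⟨a, b⟩
    obtain ⟨c1, c2⟩ := p1 u h0
    obtain ⟨d1, d2⟩ := p1 v (a ▸ h0)
    exact ⟨by omega, .head ⟨c1.symm, le_rfl, by omega⟩ (.tail (ReflTransGen.mono
      (fun x y h => ⟨h.1, by have := h.2.1; omega, by have := h.2.2; omega⟩) _ _ b)
      ⟨d1, by omega, by omega⟩)⟩
  let par : Quotient S → Quotient S := Quotient.map pr pw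
  let lv : Quotient S → ℕ := Quotient.lift (G.dist o) fun _ _ h => h.1
  let H : SimpleGraph (Quotient S) := fromRel fun s t => lv s = lv t + 1 ∧ par s = t
  have ha : ∀ s t, H.Adj s t ↔ (lv s = lv t + 1 ∧ par s = t) ∨ lv t = lv s + 1 ∧ par t = s :=
    fun s t => ⟨fun h => h.2, fun h => ⟨by rintro rfl; omega, h⟩⟩
  have adj : ∀ u v, G.Adj u v → (⟦u⟧ : Quotient S) = ⟦v⟧ ∨ H.Adj ⟦u⟧ ⟦v⟧ := by
    have : ∀ u v, G.Adj u v → G.dist o u = G.dist o v + 1 → par ⟦u⟧ = ⟦v⟧ := fun u v a b => by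
      obtain ⟨c1, c2⟩ := p1 u (by omega)
      exact Quotient.sound ⟨by omega, .head ⟨c1.symm, le_rfl, by omega⟩
        (.single ⟨a, by omega, by omega⟩)⟩
    intro u v a
    rcases a.diff_dist_adj (u := o) with b | b | b
    · exact Or.inl (Quotient.sound ⟨b.symm, .single ⟨a, le_rfl, b.ge⟩⟩)
    · exact Or.inr ((ha _ _).2 (Or.inr ⟨b, this _ _ a.symm b⟩))
    · by_cases h0 : G.dist o u = 0
      · exact Or.inl (Quotient.sound ⟨by omega, .single ⟨a, le_rfl, by omega⟩⟩)
      · exact Or.inr ((ha _ _).2 (Or.inl ⟨by simp only [lv, Quotient.lift_mk]; omega,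
          this _ _ a (by omega)⟩))
  have wk : ∀ u v (p : G.Walk u v), ∃ q : H.Walk ⟦u⟧ ⟦v⟧, q.length ≤ p.length := by
    intro u v p
    induction p with
    | nil => exact ⟨.nil, le_rfl⟩
    | cons a _ ih =>
      obtain ⟨q, hq⟩ := ih
      rcases adj _ _ a with b | b
      · exact ⟨q.copy b.symm rfl, by simp; omega⟩
      · exact ⟨.cons b q, by simpa using hq⟩
  have hH : H.Connected := by
    have : Nonempty (Quotient S) := ⟨⟦o⟧⟩
    refine ⟨fun s t => Quotient.inductionOn₂ s t fun u v => ?_⟩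
    obtain ⟨p⟩ := hc u v
    exact ⟨(wk u v p).choose⟩
  have e0 : ∀ u v, (⟦u⟧ : Quotient S) = ⟦v⟧ → G.dist u v ≤ D := fun u v e =>
    h u v (Quotient.exact e).1 (Quotient.exact e).2
  have e1 : ∀ u v, lv (Quotient.mk S u) = lv (Quotient.mk S v) + 1 ∧ par ⟦u⟧ = ⟦v⟧ →
      G.dist u v ≤ D + 1 := fun u v e => by
    have a := p1 u (by have := e.1; simp only [lv, Quotient.lift_mk] at this; omega)
    have b := hc.dist_triangle (u := u) (v := pr u) (w := v)
    have := e0 _ _ e.2
    rw [dist_eq_one_iff_adj.2 a.1] at b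
    omega
  have e2 : ∀ s t (q : H.Walk s t) u v, ⟦u⟧ = s → ⟦v⟧ = t →
      G.dist u v ≤ (D + 1) * q.length + (D + 1) := by
    intro s t q
    induction q with
    | nil => intro u v a b; have := e0 u v (a.trans b.symm); omega
    | @cons s s' t a q ih =>
      rintro u v rfl rfl
      obtain ⟨x, rfl⟩ := Quotient.exists_rep s'
      have b := ih x v rfl rfl
      have c := hc.dist_triangle (u := u) (v := x) (w := v)
      have : G.dist u x ≤ D + 1 := ((ha _ _).1 a).elim (e1 _ _) fun h => dist_comm.trans_le (e1 _ _ h)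
      rw [Walk.length_cons, mul_add]
      omega
  refine ⟨hc, _, H, fun u => ⟦u⟧, D + 1, ⟨hH, isAcyclic_iff_forall_adj_isBridge.2 ?_⟩,
    fun x y => ⟨?_, ?_⟩, fun t => Quotient.inductionOn t fun x => ⟨x, by simp⟩⟩
  · have key : ∀ s t, lv s = lv t + 1 ∧ par s = t → H.IsBridge s(s, t) := by
      rintro s t ⟨a, b⟩
      rw [isBridge_iff, reachable_iff_reflTransGen]
      have : ∀ x, ReflTransGen (H.deleteEdges {s(s, t)}).Adj s x →
          ∃ k, par^[k] x = s ∧ lv x = lv s + k := by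
        intro x hx
        induction hx with
        | refl => exact ⟨0, rfl, rfl⟩
        | @tail x y _ c ih =>
          obtain ⟨k, c1, c2⟩ := ih
          rw [deleteEdges_adj, ha] at c
          obtain ⟨⟨d1, d2⟩ | ⟨d1, d2⟩, d3⟩ := c
          · rcases k with _ | k
            · cases c1
              exact absurd (by rw [← b, ← d2]; rfl) d3
            · exact ⟨k, by rw [← d2]; exact c1, by omega⟩
          · exact ⟨k + 1, by rw [Function.iterate_succ_apply, d2, c1], by omega⟩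
      intro h
      obtain ⟨k, -, c⟩ := this t h
      omega
    intro s t a
    rcases (ha _ _).1 a with a | a
    · exact key _ _ a
    · rw [Sym2.eq_swap]; exact key _ _ a
  · obtain ⟨p, hp⟩ := hc.exists_walk_length_eq_dist x y
    obtain ⟨q, hq⟩ := wk _ _ p
    refine (dist_le q).trans ?_
    rw [add_mul]
    omega
  · obtain ⟨q, hq⟩ := hH.exists_walk_length_eq_dist ⟦x⟧ ⟦y⟧
    exact hq ▸ e2 _ _ q x y rfl rfl

end Pool.Agent.H32.Tl
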