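import Mathlib

/-! Schützenberger graphs of inverse monoids. -/

namespace Pool.Agent.H32.Tl

/-- `inv x` is the unique inverse of `x` -/
def IsInv {M : Type} [Monoid M] (inv : M → M) : Prop :=
  ∀ x y, (x * y * x = x ∧ y * x * y = y) ↔ y = inv x

variable {M A : Type} [Monoid M] (inv : M → M) (a : A → M)

/-- the value of a word over the letters and their formal inverses -/
def ev (w : List (A × Bool)) : M := (w.map fun p => cond p.2 (a p.1) (inv (a p.1))).prod

/-- edges of the Cayley graph -/
def Edge (x y : M) : Prop := ∃ l : A × Bool, y = x * ev inv a [l]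

/-- the strongly connected component of the value of `w` -/
def Scc (w : List (A × Bool)) : Set M :=
  {x | Relation.ReflTransGen (Edge inv a) (ev inv a w) x ∧
    Relation.ReflTransGen (Edge inv a) x (ev inv a w)}

/-- the Schützenberger graph -/
def SG (w : List (A × Bool)) : SimpleGraph (Scc inv a w) :=
  SimpleGraph.fromRel fun x y => Edge inv a x y

/-- words whose value is above the value of `w` in the natural partial order -/
def Lang (w : List (A × Bool)) : Language (A × Bool) :=
  {u | ∃ e : M, e * e = e ∧ ev inv a w = e * ev inv a u}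

/-- a connected graph whose path metric is quasi-isometric to a tree -/
def QuasiTree {V : Type} (G : SimpleGraph V) : Prop :=
  G.Connected ∧ ∃ (T : Type) (H : SimpleGraph T) (f : V → T) (C : ℕ), H.IsTree ∧
    (∀ x y, H.dist (f x) (f y) ≤ C * G.dist x y + C ∧ G.dist x y ≤ C * H.dist (f x) (f y) + C) ∧
    ∀ t, ∃ x, H.dist t (f x) ≤ C

end Pool.Agent.H32.Tl
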