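import Mathlib

set_option autoImplicit false

namespace Pool.Agent.H32.TopeMag

open Matrix Finset Classical

variable {n d : ℕ}

/-- The hyperplane with normal vector `v`. -/
def hyp (v : Fin d → ℝ) : Submodule ℝ (Fin d → ℝ) :=
  LinearMap.ker (Matrix.toLin' (fun _ : Unit => v))

lemma mem_hyp (v x : Fin d → ℝ) : x ∈ hyp v ↔ v ⬝ᵥ x = 0 := by
  simp only [hyp, LinearMap.mem_ker, toLin'_apply, funext_iff]
  exact ⟨fun h => h (), fun h _ => h⟩

/-- `a` lists normal vectors of `n` distinct linear hyperplanes of `ℝ^d`. -/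
def IsArr (a : Fin n → Fin d → ℝ) : Prop :=
  (∀ i, a i ≠ 0) ∧ Function.Injective fun i => hyp (a i)

/-- The rank: codimension of the intersection of all hyperplanes. -/
noncomputable def arank (a : Fin n → Fin d → ℝ) : ℕ :=
  d - Module.finrank ℝ (⨅ i, hyp (a i) : Submodule ℝ (Fin d → ℝ))

/-- The complement of the arrangement. -/
def compl (a : Fin n → Fin d → ℝ) : Set (Fin d → ℝ) := {x | ∀ i, x ∉ hyp (a i)}

/-- Chambers: connected components of the complement. -/
def Ch (a : Fin n → Fin d → ℝ) : Type :=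
  {C : Set (Fin d → ℝ) // ∃ x ∈ compl a, C = connectedComponentIn (compl a) x}

/-- The number of hyperplanes separating two chambers. -/
noncomputable def sepn (a : Fin n → Fin d → ℝ) (C D : Ch a) : ℕ :=
  (univ.filter fun i => ∃ x ∈ C.1, ∃ y ∈ D.1, (a i ⬝ᵥ x) * (a i ⬝ᵥ y) < 0).card

def cell (a : Fin n → Fin d → ℝ) (e : Fin n → Bool) : Set (Fin d → ℝ) :=
  {x | ∀ i, if e i then 0 < a i ⬝ᵥ x else a i ⬝ᵥ x < 0}

lemma cell_sub (a : Fin n → Fin d → ℝ) (e : Fin n → Bool) : cell a e ⊆ compl a := by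
  intro x hx i h
  have := hx i
  rw [(mem_hyp _ _).1 h] at this
  split_ifs at this <;> exact lt_irrefl _ this

lemma cell_convex (a : Fin n → Fin d → ℝ) (e : Fin n → Bool) : Convex ℝ (cell a e) := by
  intro x hx y hy s t hs ht hst i
  have h1 := hx i
  have h2 := hy i
  rw [dotProduct_add, dotProduct_smul, dotProduct_smul, smul_eq_mul, smul_eq_mul]
  rcases hs.eq_or_lt with rfl | hs'
  · rw [zero_add] at hst; subst hst; simpa using h2
  · split_ifs at h1 h2 ⊢
    · nlinarith [mul_nonneg ht h2.le, mul_pos hs' h1]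
    · nlinarith [mul_nonneg ht (neg_nonneg.2 h2.le), mul_pos hs' (neg_pos.2 h1)]

lemma comp_eq (a : Fin n → Fin d → ℝ) (e : Fin n → Bool) {x : Fin d → ℝ} (hx : x ∈ cell a e) :
    connectedComponentIn (compl a) x = cell a e := by
  refine Set.Subset.antisymm ?_
    ((cell_convex a e).isPreconnected.subset_connectedComponentIn hx (cell_sub a e))
  intro y hy i
  have hc : ContinuousOn (fun z : Fin d → ℝ => a i ⬝ᵥ z) (connectedComponentIn (compl a) x) :=
    (continuous_const.dotProduct continuous_id).continuousOn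
  have hxm := mem_connectedComponentIn (cell_sub a e hx)
  have nz : ∀ z ∈ connectedComponentIn (compl a) x, a i ⬝ᵥ z ≠ 0 := fun z hz h =>
    connectedComponentIn_subset _ _ hz i ((mem_hyp _ _).2 h)
  have h1 := hx i
  split_ifs at h1 ⊢
  · by_contra h
    obtain ⟨z, hz, h0⟩ := isPreconnected_connectedComponentIn.intermediate_value hy hxm hc
      ⟨not_lt.1 h, h1.le⟩
    exact nz z hz h0
  · by_contra h
    obtain ⟨z, hz, h0⟩ := isPreconnected_connectedComponentIn.intermediate_value hxm hy hc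
      ⟨h1.le, not_lt.1 h⟩
    exact nz z hz h0

lemma mem_cell (a : Fin n → Fin d → ℝ) {x : Fin d → ℝ} (hx : x ∈ compl a) :
    x ∈ cell a (fun i => decide (0 < a i ⬝ᵥ x)) := by
  intro i
  have : a i ⬝ᵥ x ≠ 0 := fun h => hx i ((mem_hyp _ _).2 h)
  by_cases h : 0 < a i ⬝ᵥ x
  · simp [h]
  · simpa [h] using lt_of_le_of_ne (not_lt.1 h) this

lemma cell_inj (a : Fin n → Fin d → ℝ) {e f : Fin n → Bool} {x : Fin d → ℝ} (h1 : x ∈ cell a e)
    (h2 : x ∈ cell a f) : e = f := by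
  ext i
  have a1 := h1 i
  have a2 := h2 i
  cases he : e i <;> cases hf : f i <;> simp [he, hf] at a1 a2 ⊢ <;> linarith

def toCh (a : Fin n → Fin d → ℝ) (e : {e : Fin n → Bool // (cell a e).Nonempty}) : Ch a :=
  ⟨cell a e.1, e.2.choose, cell_sub a _ e.2.choose_spec, (comp_eq a _ e.2.choose_spec).symm⟩

lemma toCh_bij (a : Fin n → Fin d → ℝ) : Function.Bijective (toCh a) := by
  constructor
  · intro e f h
    have h' : cell a e.1 = cell a f.1 := congrArg Subtype.val h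
    obtain ⟨x, hx⟩ := e.2
    exact Subtype.ext (cell_inj a hx (h' ▸ hx))
  · rintro ⟨C, x, hx, rfl⟩
    exact ⟨⟨_, x, mem_cell a hx⟩, Subtype.ext (comp_eq a _ (mem_cell a hx)).symm⟩

instance (a : Fin n → Fin d → ℝ) : Finite (Ch a) := Finite.of_surjective _ (toCh_bij a).2

noncomputable instance (a : Fin n → Fin d → ℝ) : Fintype (Ch a) := Fintype.ofFinite _

/-- The tope graph. -/
def tope (a : Fin n → Fin d → ℝ) : SimpleGraph (Ch a) :=
  SimpleGraph.fromRel fun C D => sepn a C D = 1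

/-- Vertex-transitivity. -/
def VT {V : Type} (G : SimpleGraph V) : Prop := ∀ u v, ∃ f : G ≃g G, f u = v

/-- The matrix `q ^ d(C,D)` over `ℚ(q)`. -/
noncomputable def Z (a : Fin n → Fin d → ℝ) : Matrix (Ch a) (Ch a) (RatFunc ℚ) :=
  fun C D => RatFunc.X ^ sepn a C D

/-- The magnitude: sum of all entries of the inverse matrix. -/
noncomputable def mag (a : Fin n → Fin d → ℝ) : RatFunc ℚ := ∑ C, ∑ D, (Z a)⁻¹ C D

def ham (e f : Fin n → Bool) : ℕ := ∑ i, if e i = f i then 0 else 1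

lemma sepn_eq (a : Fin n → Fin d → ℝ) (e f : {e : Fin n → Bool // (cell a e).Nonempty}) :
    sepn a (toCh a e) (toCh a f) = ham e.1 f.1 := by
  rw [sepn, ham, card_filter]
  refine sum_congr rfl fun i _ => ?_
  by_cases h : e.1 i = f.1 i
  · rw [if_pos h, if_neg]
    rintro ⟨x, hx, y, hy, hxy⟩
    have a1 := hx i
    have a2 := hy i
    rw [h] at a1
    split_ifs at a1 a2 <;> nlinarith
  · rw [if_neg h, if_pos]
    obtain ⟨x, hx⟩ := e.2
    obtain ⟨y, hy⟩ := f.2
    refine ⟨x, hx, y, hy, ?_⟩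
    have a1 := hx i
    have a2 := hy i
    cases he : e.1 i <;> cases hf : f.1 i <;> simp [he, hf] at a1 a2 h <;> nlinarith

lemma ham_zero {e f : Fin n → Bool} (h : ham e f = 0) : e = f := by
  ext i
  have := (sum_eq_zero_iff.1 h) i (mem_univ i)
  by_contra hc
  simp [hc] at this

lemma det_ne (a : Fin n → Fin d → ℝ) : (Z a).det ≠ 0 := by
  let Zp : Matrix (Ch a) (Ch a) (Polynomial ℚ) := fun C D => Polynomial.X ^ sepn a C D
  have h1 : Z a = (algebraMap (Polynomial ℚ) (RatFunc ℚ)).mapMatrix Zp := by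
    ext C D; simp [Z, Zp]
  have h2 : (Polynomial.evalRingHom 0).mapMatrix Zp = 1 := by
    ext C D
    obtain ⟨e, rfl⟩ := (toCh_bij a).2 C
    obtain ⟨f, rfl⟩ := (toCh_bij a).2 D
    by_cases h : e = f
    · subst h; simp [Zp, sepn_eq, ham]
    · rw [one_apply_ne (fun h' => h ((toCh_bij a).1 h'))]
      have : ham e.1 f.1 ≠ 0 := fun h' => h (Subtype.ext (ham_zero h'))
      simp [Zp, sepn_eq, this]
  rw [h1, ← RingHom.map_det]
  intro h
  have h3 : Zp.det = 0 := (map_eq_zero_iff _ (IsFractionRing.injective _ _)).1 h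
  have := RingHom.map_det (Polynomial.evalRingHom (0 : ℚ)) Zp
  rw [h2, h3] at this
  simp at this

lemma sum_ch (a : Fin n → Fin d → ℝ) (S : Finset (Fin n → Bool))
    (hS : ∀ e, e ∈ S ↔ (cell a e).Nonempty) {M : Type} [AddCommMonoid M] (g : Ch a → M)
    (w : (Fin n → Bool) → M) (h : ∀ e, g (toCh a e) = w e.1) : ∑ C, g C = ∑ e ∈ S, w e := by
  rw [← (toCh_bij a).sum_comp g, sum_subtype S hS]
  exact sum_congr rfl fun e _ => h e

theorem mag_eq (a : Fin n → Fin d → ℝ) (S : Finset (Fin n → Bool))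
    (hS : ∀ e, e ∈ S ↔ (cell a e).Nonempty) (w : (Fin n → Bool) → RatFunc ℚ)
    (hw : ∀ e ∈ S, ∑ f ∈ S, RatFunc.X ^ ham e f * w f = 1) : mag a = ∑ f ∈ S, w f := by
  let E := Equiv.ofBijective _ (toCh_bij a)
  let W : Ch a → RatFunc ℚ := fun C => w (E.symm C).1
  have hW : ∀ e, W (toCh a e) = w e.1 := fun e => by
    show w (E.symm (E e)).1 = _
    rw [Equiv.symm_apply_apply]
  have h1 : Z a *ᵥ W = fun _ => 1 := by
    ext C
    obtain ⟨e, rfl⟩ := (toCh_bij a).2 C
    rw [← hw e.1 ((hS _).2 e.2)]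
    exact sum_ch a S hS _ _ fun f => by simp only [Z, sepn_eq, hW]
  have h2 : (Z a)⁻¹ *ᵥ (fun _ => 1) = W := by
    rw [← h1, mulVec_mulVec, nonsing_inv_mul _ (isUnit_iff_ne_zero.2 (det_ne a)), one_mulVec]
  rw [← sum_ch a S hS W w hW, ← h2]
  simp [mag, mulVec, dotProduct]

theorem not_VT (a : Fin n → Fin d → ℝ) (S : Finset (Fin n → Bool))
    (hS : ∀ e, e ∈ S ↔ (cell a e).Nonempty) {e f : Fin n → Bool} (he : e ∈ S) (hf : f ∈ S)
    (h : ∑ g ∈ S, (if ham e g = 1 then 1 else 0) ≠ ∑ g ∈ S, (if ham f g = 1 then 1 else 0 : ℕ)) :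
    ¬ VT (tope a) := by
  intro hv
  have hs : ∀ e f : Fin n → Bool, ham e f = ham f e := fun e f =>
    sum_congr rfl fun i _ => by simp only [eq_comm]
  have key : ∀ e (he : e ∈ S), ∑ C, (if (tope a).Adj (toCh a ⟨e, (hS e).1 he⟩) C then 1 else 0) =
      ∑ g ∈ S, (if ham e g = 1 then 1 else 0 : ℕ) := by
    intro e he
    refine sum_ch a S hS _ _ fun g => if_congr ?_ rfl rfl
    rw [tope, SimpleGraph.fromRel_adj, sepn_eq, sepn_eq, hs g.1, or_self]
    refine ⟨fun h => h.2, fun h => ⟨fun h' => ?_, h⟩⟩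
    rw [← (toCh_bij a).1 h'] at h
    simp [ham] at h
  obtain ⟨φ, hφ⟩ := hv (toCh a ⟨e, (hS e).1 he⟩) (toCh a ⟨f, (hS f).1 hf⟩)
  apply h
  rw [← key e he, ← key f hf, ← hφ, ← φ.toEquiv.sum_comp (fun C => if (tope a).Adj (φ _) C then 1 else 0)]
  exact sum_congr rfl fun C _ => if_congr φ.map_adj_iff.symm rfl rfl

theorem not_dvd (m k : ℕ) (hm : ¬ m ∣ 8) (h0 : m ≠ 0) (P : Polynomial ℚ) :
    ¬ Polynomial.cyclotomic m ℚ ∣ (algebraMap _ (RatFunc ℚ) P / algebraMap _ (RatFunc ℚ)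
      ((1 + Polynomial.X ^ 4) * (1 + Polynomial.X) ^ k : Polynomial ℚ)).denom := by
  intro h
  have h1 := h.trans (RatFunc.denom_div_dvd _ _)
  have hz := Complex.isPrimitiveRoot_exp m h0
  set z := Complex.exp (2 * Real.pi * Complex.I / m)
  have h2 : Polynomial.aeval z (Polynomial.cyclotomic m ℚ) = 0 := by
    rw [Polynomial.aeval_def, Polynomial.eval₂_eq_eval_map, Polynomial.map_cyclotomic]
    exact hz.isRoot_cyclotomic (Nat.pos_of_ne_zero h0)
  have h3 := Polynomial.aeval_eq_zero_of_dvd_aeval_eq_zero h1 h2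
  simp only [map_mul, map_add, map_one, map_pow, Polynomial.aeval_X, mul_eq_zero] at h3
  apply hm
  rw [← hz.pow_eq_one_iff_dvd]
  rcases h3 with h3 | h3
  · have : z ^ 4 = -1 := by linear_combination h3
    rw [show z ^ 8 = (z ^ 4) ^ 2 by ring, this]; norm_num
  · have : z = -1 := by linear_combination eq_zero_of_pow_eq_zero h3
    rw [this]; norm_num

/-- group a sum by distance and type -/
lemma sum_group {R : Type} [CommRing R] (S : Finset (Fin n → Bool)) (t : (Fin n → Bool) → Bool)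
    (e : Fin n → Bool) (N : ℕ) (hN : ∀ f ∈ S, ham e f < N) (q : R) (u : Bool → R) :
    ∑ f ∈ S, q ^ ham e f * u (t f) = ∑ j ∈ range N, ∑ b : Bool,
      ((∑ f ∈ S, if ham e f = j ∧ t f = b then 1 else 0 : ℕ) : R) * (q ^ j * u b) := by
  simp only [Nat.cast_sum, sum_mul]
  rw [sum_congr rfl fun j _ => sum_comm, sum_comm]
  refine sum_congr rfl fun f hf => ?_
  rw [sum_eq_single (ham e f), sum_eq_single (t f)]
  · simp
  · intro b _ hb; simp [hb.symm]
  · simp
  · intro j _ hj; simp [hj.symm]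
  · intro h; exact absurd (mem_range.2 (hN f hf)) h

end Pool.Agent.H32.TopeMag
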