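import Mathlib

set_option autoImplicit false

namespace Pool.Agent.H32.TriCone

open Finset

def g (h a b : Bool) : ℤ := if h then -2 else if a && b then 4 else if a || b then 1 else 0

theorem check : ∀ a0 a1 a2 a3 a4 a5 h05 h12 h13 h14 h15 h23 h24 h25 h34 h35 h45 : Bool,
    ((!h05 || (a0 && a5)) && (!h12 || (a1 && a2)) && (!h13 || (a1 && a3)) && (!h14 || (a1 && a4)) &&
      (!h15 || (a1 && a5)) && (!h23 || (a2 && a3)) && (!h24 || (a2 && a4)) && (!h25 || (a2 && a5)) &&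
      (!h34 || (a3 && a4)) && (!h35 || (a3 && a5)) && (!h45 || (a4 && a5)) &&
      !(h12 && h13 && h23) && !(h12 && h14 && h24) && !(h12 && h15 && h25) &&
      !(h13 && h14 && h34) && !(h13 && h15 && h35) && !(h14 && h15 && h45) &&
      !(h23 && h24 && h34) && !(h23 && h25 && h35) && !(h24 && h25 && h45) &&
      !(h34 && h35 && h45)) = true →
    0 ≤ g h05 a0 a5 + g h12 a1 a2 + g h13 a1 a3 + g h14 a1 a4 + g h15 a1 a5 + g h23 a2 a3 +
      g h24 a2 a4 + g h25 a2 a5 + g h34 a3 a4 + g h35 a3 a5 + g h45 a4 a5 := by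
  decide +kernel

def x (e : Sym2 (Fin 6)) : ℝ := if (0 : Fin 6) ∈ e ∧ (5 : Fin 6) ∉ e then 0 else 1

theorem edges [Fintype (⊤ : SimpleGraph (Fin 6)).edgeSet] :
    (⊤ : SimpleGraph (Fin 6)).edgeFinset = {s(0,1), s(0,2), s(0,3), s(0,4), s(0,5), s(1,2), s(1,3),
      s(1,4), s(1,5), s(2,3), s(2,4), s(2,5), s(3,4), s(3,5), s(4,5)} := by
  ext e
  simp only [SimpleGraph.mem_edgeFinset]
  revert e
  decide

open Classical in
theorem term (V' : Finset (Fin 6)) (H : SimpleGraph (Fin 6)) (i j : Fin 6) :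
    (if s(i, j) ∈ H.edgeSet then (-1 : ℝ) else if (∀ v ∈ s(i, j), v ∈ V') then 2
      else if (∃ v ∈ s(i, j), v ∈ V') then 1 / 2 else 0) =
      (g (decide (H.Adj i j)) (decide (i ∈ V')) (decide (j ∈ V')) : ℝ) / 2 := by
  by_cases h : H.Adj i j <;> by_cases a : i ∈ V' <;> by_cases b : j ∈ V' <;>
    simp [g, h, a, b] <;> norm_num

open Classical in
theorem valid [Fintype (⊤ : SimpleGraph (Fin 6)).edgeSet] (V' : Finset (Fin 6))
    (H : SimpleGraph (Fin 6)) (h1 : ∀ u v, H.Adj u v → u ∈ V' ∧ v ∈ V') (h2 : H.CliqueFree 3) :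
    0 ≤ ∑ e ∈ (⊤ : SimpleGraph (Fin 6)).edgeFinset,
      (if e ∈ H.edgeSet then (-1 : ℝ) else if (∀ v ∈ e, v ∈ V') then 2
        else if (∃ v ∈ e, v ∈ V') then 1 / 2 else 0) * x e := by
  have h3 : ∀ a b c, H.Adj a b → H.Adj a c → ¬ H.Adj b c := fun a b c hab hac hbc =>
    h2 {a, b, c} (SimpleGraph.is3Clique_triple_iff.2 ⟨hab, hac, hbc⟩)
  have h4 : ∀ a b, (!decide (H.Adj a b) || (decide (a ∈ V') && decide (b ∈ V'))) = true := by
    intro a b
    by_cases h : H.Adj a b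
    · simp [h1 a b h]
    · simp [h]
  have h5 : ∀ a b c, (!(decide (H.Adj a b) && decide (H.Adj a c) && decide (H.Adj b c))) = true := by
    intro a b c
    have := h3 a b c
    by_cases h : H.Adj a b <;> by_cases h' : H.Adj a c <;> simp_all
  have h6 := check (decide (0 ∈ V')) (decide (1 ∈ V')) (decide (2 ∈ V')) (decide (3 ∈ V'))
    (decide (4 ∈ V')) (decide (5 ∈ V')) (decide (H.Adj 0 5)) (decide (H.Adj 1 2))
    (decide (H.Adj 1 3)) (decide (H.Adj 1 4)) (decide (H.Adj 1 5)) (decide (H.Adj 2 3))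
    (decide (H.Adj 2 4)) (decide (H.Adj 2 5)) (decide (H.Adj 3 4)) (decide (H.Adj 3 5))
    (decide (H.Adj 4 5)) (by simp only [h4, h5, Bool.and_self])
  have h7 : ((0 : ℤ) : ℝ) ≤ _ := Int.cast_le.2 h6
  rw [edges]
  repeat rw [sum_insert (by decide)]
  rw [sum_singleton]
  simp only [term]
  push_cast at h7
  simp [x]
  linarith

open Classical in
theorem notcone [Fintype (⊤ : SimpleGraph (Fin 6)).edgeSet] (T : Finset (Finset (Fin 6)))
    (hT : ∀ t ∈ T, #t = 3) (c : Finset (Fin 6) → ℝ) (hc : ∀ t, 0 ≤ c t)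
    (h : ∀ e ∈ (⊤ : SimpleGraph (Fin 6)).edgeFinset,
      x e = ∑ t ∈ T, (if (∀ v ∈ e, v ∈ t) then c t else 0)) : False := by
  have h0 : ∀ t ∈ T, ∀ i : Fin 6, i ≠ 0 → i ≠ 5 → 0 ∈ t → i ∈ t → c t = 0 := by
    intro t ht i hi hi' h1 h2
    have h3 := h s(0, i) (by simp [hi.symm])
    have h4 : x s(0, i) = 0 := by simp [x, hi'.symm]
    rw [h4, eq_comm, sum_eq_zero_iff_of_nonneg (fun t _ => by split_ifs <;> simp [hc])] at h3
    simpa [h1, h2] using h3 t ht
  have h1 := h s(0, 5) (by simp)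
  rw [sum_eq_zero] at h1
  · simp [x] at h1
  · intro t ht
    split_ifs with h2
    · have h3 : ∃ i ∈ t, i ≠ 0 ∧ i ≠ 5 := by
        by_contra h4
        push Not at h4
        have : t ⊆ {0, 5} := by
          intro i hi
          by_cases h5 : i = 0
          · simp [h5]
          · simp [h4 i hi h5]
        have h6 := card_le_card this
        rw [hT t ht] at h6
        exact absurd h6 (by decide)
      obtain ⟨i, hi, h4, h5⟩ := h3
      exact h0 t ht i h4 h5 (h2 0 (by simp)) hi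
    · rfl

end Pool.Agent.H32.TriCone
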