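import Mathlib

set_option autoImplicit false

namespace Pool.Agent.H32.Twelfth

theorem dec (x : ℤ) : ∃ (a : ℕ) (u : ℤ), x ≠ 0 → x = 3 ^ a * u ∧ ¬ (3 : ℤ) ∣ u := by
  by_cases h : x = 0
  · exact ⟨0, 0, fun h' => absurd h h'⟩
  · obtain ⟨a, u, h1, h2⟩ := WfDvdMonoid.max_power_factor h Int.prime_three.irreducible
    exact ⟨a, u, fun _ => ⟨h2, h1⟩⟩

theorem uniq (a b : ℕ) (u v : ℤ) (hu : ¬ (3 : ℤ) ∣ u) (hv : ¬ (3 : ℤ) ∣ v)
    (h : 3 ^ a * u = 3 ^ b * v) : a = b ∧ u = v := by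
  have key : ∀ (a b : ℕ) (u v : ℤ), ¬ (3 : ℤ) ∣ u → 3 ^ a * u = 3 ^ b * v → b ≤ a := by
    intro a b u v hu h
    by_contra hc
    obtain ⟨k, rfl⟩ := Nat.exists_eq_add_of_lt (not_le.1 hc)
    apply hu
    refine ⟨3 ^ k * v, mul_left_cancel₀ (pow_ne_zero a three_ne_zero) ?_⟩
    rw [h]; ring
  have : a = b := le_antisymm (key b a v u hv h.symm) (key a b u v hu h)
  subst this
  exact ⟨rfl, mul_left_cancel₀ (pow_ne_zero a three_ne_zero) h⟩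

theorem main : ∃ c : ℤ → Fin 12 × ZMod 9, ∀ x y w z : ℤ, x ≠ 0 → y ≠ 0 → w ≠ 0 → z ≠ 0 →
    c x = c w → c y = c w → 5 ^ 4 * x + 3 ^ 6 * y ≠ w * z ^ 12 := by
  choose a u h using dec
  refine ⟨fun x => (⟨a x % 12, Nat.mod_lt _ (by norm_num)⟩, (u x : ZMod 9)), ?_⟩
  intro x y w z hx hy hw hz e1 e2 heq
  simp only [Prod.mk.injEq, Fin.mk.injEq] at e1 e2
  obtain ⟨x1, x2⟩ := h x hx
  obtain ⟨y1, y2⟩ := h y hy
  obtain ⟨w1, w2⟩ := h w hw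
  obtain ⟨z1, z2⟩ := h z hz
  have hR : w * z ^ 12 = 3 ^ (a w + 12 * a z) * (u w * u z ^ 12) := by
    conv_lhs => rw [w1, z1]
    ring
  have hR2 : ¬ (3 : ℤ) ∣ u w * u z ^ 12 := fun h =>
    (Int.prime_three.dvd_or_dvd h).elim w2 fun h => z2 (Int.prime_three.dvd_of_dvd_pow h)
  rcases le_or_gt (a x) (a y) with hle | hlt
  · obtain ⟨k, hk⟩ := Nat.exists_eq_add_of_le hle
    have hL : 5 ^ 4 * x + 3 ^ 6 * y = 3 ^ a x * (625 * u x + 729 * 3 ^ k * u y) := by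
      conv_lhs => rw [x1, y1, hk]
      ring
    have := (uniq _ _ _ _ (by rw [mul_assoc]; generalize 3 ^ k * u y = t; omega) hR2
      (hL.symm.trans (heq.trans hR))).2
    have h9 := congrArg (Int.cast : ℤ → ZMod 9) this
    push_cast at h9
    rw [e1.2] at h9
    have hz' : ∀ s t v : ZMod 9, (∀ r, s ≠ 3 * r) → (∀ r, t ≠ 3 * r) →
        625 * s + 729 * v ≠ s * t ^ 12 := by decide
    have hc : ∀ s : ℤ, ¬ (3 : ℤ) ∣ s → ∀ r : ZMod 9, (s : ZMod 9) ≠ 3 * r := by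
      intro s hs r e
      obtain ⟨r, rfl⟩ := ZMod.intCast_surjective r
      have : ((s - 3 * r : ℤ) : ZMod 9) = 0 := by push_cast; rw [e, sub_self]
      rw [ZMod.intCast_zmod_eq_zero_iff_dvd] at this
      omega
    exact hz' _ _ (3 ^ k * u y) (hc _ w2) (hc _ z2) (by rw [← h9]; ring)
  · obtain ⟨k, hk⟩ : ∃ k, a x = a y + 6 + (k + 1) := ⟨a x - a y - 7, by omega⟩
    have hL : 5 ^ 4 * x + 3 ^ 6 * y = 3 ^ (a y + 6) * (625 * 3 * (3 ^ k * u x) + u y) := by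
      conv_lhs => rw [x1, y1, hk]
      ring
    have := (uniq _ _ _ _ (by generalize 3 ^ k * u x = t; omega) hR2
      (hL.symm.trans (heq.trans hR))).1
    omega

end Pool.Agent.H32.Twelfth
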