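import Mathlib

set_option autoImplicit false

namespace Pool.Agent.H32.Walls

open Finset Classical Filter Topology

/-- An admissible tiling of `[0,n]²` by `m` closed rectangles with lower left corners
`(x i, y i)`, integer widths `a i` and heights `b i`, of pairwise distinct shapes. -/
def Admissible (n m : ℕ) (x y : Fin m → ℝ) (a b : Fin m → ℕ) : Prop :=
  (∀ i, 0 < a i ∧ 0 < b i) ∧
  (⋃ i, Set.Icc (x i) (x i + a i) ×ˢ Set.Icc (y i) (y i + b i)) =
    Set.Icc (0 : ℝ) n ×ˢ Set.Icc (0 : ℝ) n ∧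
  (∀ i j, i ≠ j → Disjoint (Set.Ioo (x i) (x i + a i) ×ˢ Set.Ioo (y i) (y i + b i))
    (Set.Ioo (x j) (x j + a j) ×ˢ Set.Ioo (y j) (y j + b j))) ∧
  Function.Injective fun i => s(a i, b i)

/-- The set of internal wall lengths of admissible tilings. -/
def walls (n m : ℕ) : Set ℤ :=
  {W | ∃ x y a b, Admissible n m x y a b ∧ W = ∑ i, ((a i : ℤ) + b i) - 2 * n}

def Rows {m : ℕ} (n : ℕ) (a b : Fin m → ℕ) : Prop :=
  ∃ R : Fin m → Finset ℕ, (∀ i, R i ⊆ range n ∧ #(R i) = b i) ∧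
    ∀ q < n, ∑ i with q ∈ R i, a i = n

lemma dc {m n : ℕ} (R : Fin m → Finset ℕ) (h : ∀ i, R i ⊆ range n) (s : Finset (Fin m)) :
    ∑ i ∈ s, #(R i) = ∑ q ∈ range n, #{i ∈ s | q ∈ R i} := by
  simp only [card_filter]
  rw [sum_comm]
  refine sum_congr rfl fun i _ => ?_
  rw [← card_filter, filter_mem_eq_inter, inter_eq_right.2 (h i)]

lemma two {m k : ℕ} (a : Fin m → ℕ) (s : Finset (Fin m)) (hk : 0 < k) (h : ∑ i ∈ s, a i = k)
    (h' : ∀ i ∈ s, a i ≠ k) : 2 ≤ #s := by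
  by_contra hc
  obtain h0 | h0 : #s = 0 ∨ #s = 1 := by omega
  · rw [card_eq_zero.1 h0] at h; simp at h; omega
  · obtain ⟨i, rfl⟩ := card_eq_one.1 h0
    exact h' i (by simp) (by simpa using h)

lemma big {m n : ℕ} {a b : Fin m → ℕ} (h : Rows n a b) (h' : ∀ i, a i ≠ n) : 2 * n ≤ ∑ i, b i := by
  obtain ⟨R, h1, h2⟩ := h
  rw [← sum_congr rfl fun i _ => (h1 i).2, dc R fun i => (h1 i).1]
  simpa [mul_comm] using card_nsmul_le_sum (range n) _ 2 fun q hq =>
    two a _ (by have := mem_range.1 hq; omega) (h2 q (mem_range.1 hq)) fun i _ => h' i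

lemma full {m n : ℕ} {a b : Fin m → ℕ} (hp : ∀ i, 0 < a i ∧ 0 < b i) (h : Rows n a b)
    (inj : Function.Injective fun i => s(a i, b i)) (hm : 2 ≤ m) (h1 : 2 * m ≤ n + 4)
    (h2 : 2 * n < (m - 1) * m) (t : Fin m) (ht : b t = n) :
    3 * n + 2 * m ≤ ∑ i, (a i + b i) + 4 := by
  obtain ⟨R, hR, hq⟩ := h
  have hn : 0 < n := ht ▸ (hp t).2
  have hRt : R t = range n := eq_of_subset_of_card_le (hR t).1 (by simp [(hR t).2, ht])
  have row : ∀ q < n, a t + ∑ i ∈ univ.erase t with q ∈ R i, a i = n := fun q h => by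
    rw [← hq q h, filter_erase, add_sum_erase _ _ (by simp [hRt, h])]
  obtain ⟨k, hk⟩ : ∃ k, a t + k = n := ⟨_, row 0 hn⟩
  have row' : ∀ q < n, ∑ i ∈ univ.erase t with q ∈ R i, a i = k := fun q h => by
    have := row q h; omega
  have le : ∀ i ∈ univ.erase t, a i ≤ k := fun i hi => by
    obtain ⟨q, hq⟩ : (R i).Nonempty := card_pos.1 ((hR i).2 ▸ (hp i).2)
    rw [← row' q (mem_range.1 ((hR i).1 hq))]
    exact single_le_sum (fun _ _ => Nat.zero_le _) (mem_filter.2 ⟨hi, hq⟩)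
  have hc : #(univ.erase t) = m - 1 := by simp
  have D := fun s => dc R (fun i => (hR i).1) s
  simp only [fun i => (hR i).2] at D
  rw [← add_sum_erase _ _ (mem_univ t), sum_add_distrib]
  generalize univ.erase t = S at *
  obtain ⟨i0, hi0⟩ : S.Nonempty := card_pos.1 (by omega)
  have k0 : 0 < k := (hp i0).1.trans_le (le _ hi0)
  by_cases k1 : k = 1
  · have a1 : ∀ i ∈ S, a i = 1 := fun i hi => by have := le i hi; have := (hp i).1; omega
    have e : ∑ i ∈ S, b i = n := by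
      rw [D, sum_congr rfl (g := fun _ => 1) fun q hq => by
        rw [← k1, ← row' q (mem_range.1 hq), card_eq_sum_ones]
        exact sum_congr rfl fun i hi => (a1 i (mem_filter.1 hi).1).symm]
      simp
    have io : Set.InjOn (fun i => (b i : ℤ)) S := fun i hi j hj e => inj (by
      simp only [a1 i hi, a1 j hj, show b i = b j from Int.natCast_inj.1 e])
    have := sum_range_le_sum (s := S.image fun i => (b i : ℤ)) (c := 1) (by
      simp only [mem_image]; rintro _ ⟨i, -, rfl⟩; exact_mod_cast (hp i).2)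
    rw [sum_image io, card_image_of_injOn io, hc] at this
    have g := sum_range_id_mul_two m
    obtain ⟨m, rfl⟩ : ∃ l, m = l + 1 := ⟨m - 1, by omega⟩
    rw [sum_range_succ'] at g
    simp only [Nat.add_sub_cancel] at *
    have : ∑ i ∈ range m, (1 + i) ≤ ∑ i ∈ S, b i := by exact_mod_cast this
    simp only [add_comm 1] at this
    nlinarith
  have sp : ∀ f : Fin m → ℕ, ∑ i ∈ S, f i = ∑ i ∈ S with a i = k, f i + ∑ i ∈ S with ¬ a i = k, f i :=
    fun f => (sum_filter_add_sum_filter_not _ _ _).symm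
  have key : 2 * n ≤ 2 * ∑ i ∈ S with a i = k, b i + ∑ i ∈ S with ¬ a i = k, b i := by
    rw [D, D, mul_sum, ← sum_add_distrib]
    refine le_trans (le_of_eq (by simp [mul_comm])) <| card_nsmul_le_sum (range n) _ 2 fun q hq => by
      by_cases c : #{i ∈ ({i ∈ S | a i = k} : Finset _) | q ∈ R i} = 0
      · have c' : ∀ i ∈ S, q ∈ R i → a i ≠ k := fun i hi h e => by
          simpa [hi, h, e] using filter_eq_empty_iff.1 (card_eq_zero.1 c) (x := i)
        have := (two a _ k0 (row' q (mem_range.1 hq)) fun i hi =>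
          c' i (mem_filter.1 hi).1 (mem_filter.1 hi).2).trans (card_le_card
            (t := {i ∈ ({i ∈ S | ¬ a i = k} : Finset _) | q ∈ R i}) fun i hi => by
              simp only [mem_filter] at hi ⊢; exact ⟨⟨hi.1, c' i hi.1 hi.2⟩, hi.2⟩)
        omega
      · omega
  have cd := card_filter_add_card_filter_not (s := S) fun i => a i = k
  have sa : ∑ i ∈ S with a i = k, a i = #{i ∈ S | a i = k} * k :=
    sum_const_nat fun i hi => (mem_filter.1 hi).2
  have ak : k ≤ ∑ i ∈ S, a i := row' 0 hn ▸ sum_le_sum_of_subset (filter_subset _ _)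
  have g : 4 * #{i ∈ S | ¬ a i = k} ≤ 2 * ∑ i ∈ S with ¬ a i = k, a i +
      ∑ i ∈ S with ¬ a i = k, b i + 1 := by
    generalize ({i ∈ S | ¬ a i = k} : Finset _) = G
    have o : #{i ∈ G | a i = 1 ∧ b i = 1} ≤ 1 := card_le_one.2 fun i hi j hj => inj (by
      simp only [mem_filter] at hi hj; simp only [hi.2.1, hi.2.2, hj.2.1, hj.2.2])
    refine le_trans ?_ (Nat.add_le_add_left o _)
    rw [card_filter, mul_sum, ← sum_add_distrib, ← sum_add_distrib, mul_comm, ← smul_eq_mul]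
    exact card_nsmul_le_sum _ _ _ fun i _ => by have := hp i; split_ifs <;> omega
  have s1 := sp a
  have s2 := sp b
  by_cases c : #{i ∈ S | a i = k} = 0
  · rw [card_eq_zero.1 c, sum_empty] at key
    omega
  · obtain ⟨f, hf⟩ : ∃ f, #{i ∈ S | a i = k} = f + 1 := ⟨_, (Nat.succ_pred_eq_of_ne_zero c).symm⟩
    have : f * 2 ≤ f * k := Nat.mul_le_mul_left _ (by omega)
    rw [hf, add_mul] at sa
    omega

lemma rows {n m : ℕ} {x y : Fin m → ℝ} {a b : Fin m → ℕ} (h : Admissible n m x y a b) :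
    Rows n a b := by
  obtain ⟨hp, hc, hd, -⟩ := h
  have ins : ∀ i, (0 ≤ x i ∧ x i + a i ≤ n) ∧ 0 ≤ y i ∧ y i + b i ≤ n := fun i => by
    have s := hc ▸ Set.subset_iUnion
      (fun i => Set.Icc (x i) (x i + a i) ×ˢ Set.Icc (y i) (y i + b i)) i
    have p := s (a := (x i, y i)) (by simp)
    have q := s (a := (x i + a i, y i + b i)) (by simp)
    exact ⟨⟨p.1.1, q.1.2⟩, p.2.1, q.2.2⟩
  have I : ∀ (u : ℝ) (c p : ℕ), 0 ≤ u → (p ∈ Ico ⌈u⌉₊ (⌈u⌉₊ + c) ↔ u ≤ p ∧ p < u + c) := by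
    intro u c p hu
    rw [mem_Ico, Nat.ceil_le]
    refine and_congr_right fun _ => ?_
    rcases lt_or_ge p c with h | h
    · have : (p : ℝ) < c := by exact_mod_cast h
      exact ⟨fun _ => by linarith, fun _ => by omega⟩
    · rw [← Nat.sub_lt_iff_lt_add h, Nat.lt_ceil, Nat.cast_sub h, sub_lt_iff_lt_add]
  have sub : ∀ (u : ℝ) (c : ℕ), 0 ≤ u → u + c ≤ n → Ico ⌈u⌉₊ (⌈u⌉₊ + c) ⊆ range n :=
    fun u c h1 h2 p hp => mem_range.2 (by exact_mod_cast ((I u c p h1).1 hp).2.trans_le h2)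
  refine ⟨fun i => Ico ⌈y i⌉₊ (⌈y i⌉₊ + b i), fun i => ⟨sub _ _ (ins i).2.1 (ins i).2.2, by simp⟩,
    fun q hq => ?_⟩
  have := dc (fun i => Ico ⌈x i⌉₊ (⌈x i⌉₊ + a i)) (fun i => sub _ _ (ins i).1.1 (ins i).1.2)
    {i | q ∈ Ico ⌈y i⌉₊ (⌈y i⌉₊ + b i)}
  simp only [Nat.card_Ico, Nat.add_sub_cancel_left] at this
  rw [this, sum_congr rfl (g := fun _ => 1) fun p hp => ?_]
  · simp
  have hp' : (p : ℝ) + 1 ≤ n := by exact_mod_cast mem_range.1 hp
  have hq' : (q : ℝ) + 1 ≤ n := by exact_mod_cast hq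
  have ev : ∀ u v : ℝ, ∀ᶠ e in 𝓝[>] (0 : ℝ), u ≤ v + e → u ≤ v := fun u v => by
    rcases le_or_gt u v with h | h
    · exact .of_forall fun _ _ => h
    · filter_upwards [Ioo_mem_nhdsGT (sub_pos.2 h)] with e he h' using by linarith [he.2]
  obtain ⟨e, ⟨h1, h2⟩, h3⟩ := (((eventually_all.2 fun i => ev (x i) p).and
    (eventually_all.2 fun i => ev (y i) q)).and (Ioo_mem_nhdsGT one_pos)).exists
  have : ((p : ℝ) + e, (q : ℝ) + e) ∈ Set.Icc (0 : ℝ) n ×ˢ Set.Icc (0 : ℝ) n :=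
    ⟨⟨by have := h3.1; positivity, by linarith [h3.2]⟩, by have := h3.1; positivity,
      by linarith [h3.2]⟩
  obtain ⟨i, ⟨i1, i2⟩, i3, i4⟩ := Set.mem_iUnion.1 (hc ▸ this)
  refine card_eq_one.2 ⟨i, eq_singleton_iff_unique_mem.2 ⟨?_, fun j hj => ?_⟩⟩
  · simp only [mem_filter, mem_univ, true_and, I _ _ _ (ins i).1.1, I _ _ _ (ins i).2.1]
    exact ⟨⟨h2 i i3, by linarith [h3.1]⟩, h1 i i1, by linarith [h3.1]⟩
  · simp only [mem_filter, mem_univ, true_and, I _ _ _ (ins j).1.1, I _ _ _ (ins j).2.1] at hj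
    by_contra hne
    obtain ⟨u, u1, u2⟩ := exists_between (lt_min hj.2.2 (by linarith [h3.1] : (p : ℝ) < x i + a i))
    obtain ⟨v, v1, v2⟩ := exists_between (lt_min hj.1.2 (by linarith [h3.1] : (q : ℝ) < y i + b i))
    rw [lt_min_iff] at u2 v2
    exact Set.disjoint_left.1 (hd j i hne)
      (show (u, v) ∈ _ from ⟨⟨hj.2.1.trans_lt u1, u2.1⟩, hj.1.1.trans_lt v1, v2.1⟩)
      ⟨⟨(h1 i i1).trans_lt u1, u2.2⟩, (h2 i i3).trans_lt v1, v2.2⟩

lemma swap {n m : ℕ} {x y : Fin m → ℝ} {a b : Fin m → ℕ} (h : Admissible n m x y a b) :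
    Admissible n m y x b a := by
  obtain ⟨hp, hc, hd, hi⟩ := h
  refine ⟨fun i => (hp i).symm, ?_, fun i j h => ?_, fun i j e => hi ?_⟩
  · ext ⟨u, v⟩
    have := Set.ext_iff.1 hc (v, u)
    simp only [Set.mem_iUnion, Set.mem_prod] at this ⊢
    simpa only [and_comm] using this
  · exact Set.disjoint_left.2 fun p h1 h2 => Set.disjoint_left.1 (hd i j h)
      (show p.swap ∈ _ from h1.symm) h2.symm
  · simpa only [Sym2.eq_swap] using e

theorem lower {n m : ℕ} (hm : 2 ≤ m) (h1 : 2 * m ≤ n + 4) (h2 : 2 * n < (m - 1) * m) :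
    ∀ W ∈ walls n m, (n : ℤ) + 2 * (m - 2) ≤ W := by
  rintro _ ⟨x, y, a, b, h, rfl⟩
  have : 3 * n + 2 * m ≤ ∑ i, (a i + b i) + 4 := by
    by_cases c : ∃ t, b t = n
    · obtain ⟨t, ht⟩ := c
      exact full h.1 (rows h) h.2.2.2 hm h1 h2 t ht
    by_cases c' : ∃ t, a t = n
    · obtain ⟨t, ht⟩ := c'
      simpa only [add_comm (b _)] using
        full (swap h).1 (rows (swap h)) (swap h).2.2.2 hm h1 h2 t ht
    push Not at c c'
    have := big (rows h) c'
    have := big (rows (swap h)) c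
    rw [sum_add_distrib]; omega
  have : ((3 * n + 2 * m : ℕ) : ℤ) ≤ ((∑ i, (a i + b i) + 4 : ℕ) : ℤ) := by exact_mod_cast this
  push_cast at this
  linarith

def T : ℕ → ℕ
  | 0 => 0
  | j + 1 => T j + (j + 1)

lemma T2 (j : ℕ) : T j * 2 = j * (j + 1) := by
  induction j with
  | zero => rfl
  | succ j ih => rw [T]; nlinarith

lemma Tm : Monotone T := monotone_nat_of_le_succ fun _ => Nat.le_add_right _ _

def Q (n k j : ℕ) : ℕ := if j ≤ k then T (j + 1) + 2 else n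

def X : ℕ → ℕ
  | 0 => 2 | 2 => 1 | 3 => 1 | _ => 0
def Y (n k : ℕ) : ℕ → ℕ
  | 3 => 1 | j + 4 => Q n k j | _ => 0
def A (n : ℕ) : ℕ → ℕ
  | 0 => n - 2 | _ + 4 => 2 | _ => 1
def B (n k : ℕ) : ℕ → ℕ
  | 0 => n | 1 => 3 | 2 => 1 | 3 => 2 | j + 4 => Q n k (j + 1) - Q n k j

theorem upper (n k : ℕ) (hk : 2 ≤ k) (h : T (k + 3) ≤ n) :
    (n : ℤ) + 2 * ((k + 5 : ℕ) - 2) ∈ walls n (k + 5) := by
  have t3 : T (k + 3) = T (k + 1) + (k + 2) + (k + 3) := rfl
  have t1 : 1 ≤ T (k + 1) := Tm (by omega : 1 ≤ k + 1)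
  have Qm : Monotone (Q n k) := monotone_nat_of_le_succ fun j => by
    have := Tm (by omega : j + 1 ≤ j + 1 + 1)
    unfold Q; split_ifs with h1 h2
    · omega
    · obtain rfl : j = k := by omega
      omega
    · omega
    · omega
  have Q0 : Q n k 0 = 3 := by simp [Q, T]
  have Qk : Q n k (k + 1) = n := by simp [Q]
  have Bj : ∀ j ≤ k, (j < k → B n k (j + 4) = j + 2) ∧ j + 2 ≤ B n k (j + 4) := fun j hj => by
    have : T (j + 1 + 1) = T (j + 1) + (j + 1 + 1) := rfl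
    simp only [B, Q]; split_ifs with h1
    · omega
    · obtain rfl : j = k := by omega
      omega
  have QB : ∀ j, (Q n k j : ℝ) + B n k (j + 4) = Q n k (j + 1) := fun j => by
    have := Qm (Nat.le_add_right j 1)
    exact_mod_cast (by simp only [B]; omega : Q n k j + B n k (j + 4) = Q n k (j + 1))
  have Q3 : ∀ j, (3 : ℝ) ≤ Q n k j := fun j => by exact_mod_cast Q0 ▸ Qm (Nat.zero_le j)
  have Qn : ∀ j ≤ k + 1, (Q n k j : ℝ) ≤ n := fun j hj => by exact_mod_cast Qk ▸ Qm hj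
  have n2 : ((n - 2 : ℕ) : ℝ) = n - 2 := by rw [Nat.cast_sub (by omega)]; rfl
  have n9 : (9 : ℝ) ≤ n := by exact_mod_cast (by omega : 9 ≤ n)
  refine ⟨fun i => X i, fun i => Y n k i, fun i => A n i, fun i => B n k i,
    ⟨?_, ?_, ?_, ?_⟩, ?_⟩
  · rintro ⟨_ | _ | _ | _ | j, hj⟩ <;> simp only [A, B] <;> try omega
    have := (Bj j (by omega)).2
    simp only [B] at this; omega
  · ext ⟨u, v⟩
    simp only [Set.mem_iUnion, Set.mem_prod, Set.mem_Icc]
    constructor
    · rintro ⟨⟨_ | _ | _ | _ | j, hj⟩, ⟨h1, h2⟩, h3, h4⟩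
      pick_goal 5
      · simp only [Y] at h3 h4
        rw [QB] at h4
        have := Q3 j
        have := Qn (j + 1) (by omega)
        simp only [X, A] at h1 h2
        push_cast at h1 h2
        refine ⟨⟨?_, ?_⟩, ?_, ?_⟩ <;> linarith
      all_goals
        simp only [X, Y, A, B, n2] at h1 h2 h3 h4
        push_cast at h1 h2 h3 h4
        refine ⟨⟨?_, ?_⟩, ?_, ?_⟩ <;> linarith
    · rintro ⟨⟨h1, h2⟩, h3, h4⟩
      by_cases c1 : 2 ≤ u
      · exact ⟨⟨0, by omega⟩, by simp [X, Y, A, B, n2, *]⟩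
      by_cases c2 : 3 ≤ v
      · have : ∀ l, v ≤ Q n k (l + 1) → ∃ j ≤ l, Q n k j ≤ v ∧ v ≤ Q n k (j + 1) := by
          intro l
          induction l with
          | zero => exact fun h => ⟨0, le_rfl, by simpa [Q0] using c2, h⟩
          | succ l ih =>
            intro h
            rcases le_total v (Q n k (l + 1)) with h' | h'
            · obtain ⟨j, j1, j2⟩ := ih h'; exact ⟨j, by omega, j2⟩
            · exact ⟨l + 1, le_rfl, h', h⟩
        obtain ⟨j, j1, j2⟩ := this k (by rwa [Qk])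
        refine ⟨⟨j + 4, by omega⟩, ?_, ?_⟩
        · simp only [X, A]; push_cast; constructor <;> linarith
        · simp only [Y]; rwa [QB]
      by_cases c3 : u ≤ 1
      · exact ⟨⟨1, by omega⟩, by simp only [X, Y, A, B]; push_cast; refine ⟨⟨?_, ?_⟩, ?_, ?_⟩ <;> linarith⟩
      by_cases c4 : v ≤ 1
      · exact ⟨⟨2, by omega⟩, by simp only [X, Y, A, B]; push_cast; refine ⟨⟨?_, ?_⟩, ?_, ?_⟩ <;> linarith⟩
      · exact ⟨⟨3, by omega⟩, by simp only [X, Y, A, B]; push_cast; refine ⟨⟨?_, ?_⟩, ?_, ?_⟩ <;> linarith⟩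
  · intro i j hij
    wlog hl : i < j generalizing i j
    · exact (this j i hij.symm (lt_of_le_of_ne (not_lt.1 hl) hij.symm)).symm
    refine Set.disjoint_left.2 ?_
    rintro ⟨u, v⟩ ⟨⟨h1, h2⟩, h3, h4⟩ ⟨⟨h5, h6⟩, h7, h8⟩
    obtain ⟨i, hi⟩ := i
    obtain ⟨j, hj⟩ := j
    replace hl : i < j := hl
    clear hij
    rcases j with _ | _ | _ | _ | j <;> rcases i with _ | _ | _ | _ | i <;> try omega
    pick_goal 11
    · simp only [Y] at h4 h7
      rw [QB] at h4
      have : (Q n k (i + 1) : ℝ) ≤ Q n k j := by exact_mod_cast Qm (by omega)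
      linarith
    all_goals
      simp only [X, Y, A, B] at h1 h2 h3 h4 h5 h6 h7
      push_cast at h1 h2 h3 h4 h5 h6 h7
      first | linarith | linarith [Q3 j]
  · intro i j e
    by_contra hij
    wlog hl : i < j generalizing i j
    · exact this e.symm (Ne.symm hij) (lt_of_le_of_ne (not_lt.1 hl) (Ne.symm hij))
    obtain ⟨i, hi⟩ := i
    obtain ⟨j, hj⟩ := j
    replace hl : i < j := hl
    clear hij
    simp only [Sym2.eq_iff] at e
    rcases j with _ | _ | _ | _ | j <;> rcases i with _ | _ | _ | _ | i <;> try omega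
    pick_goal 11
    · have := Bj i (by omega)
      have := Bj j (by omega)
      simp only [A, B] at *
      omega
    all_goals first | (simp only [A, B] at e; omega) | skip
    all_goals
      have := Bj j (by omega)
      simp only [A, B] at *
      omega
  · rw [Fin.sum_univ_eq_sum_range (fun i => (A n i : ℤ) + B n k i), sum_range_succ', sum_range_succ',
      sum_range_succ', sum_range_succ', sum_add_distrib]
    have := sum_range_tsub Qm (k + 1)
    rw [Q0, Qk] at this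
    have e : ∑ j ∈ range (k + 1), (B n k (j + 1 + 1 + 1 + 1) : ℤ) = ((n - 3 : ℕ) : ℤ) := by
      rw [← this]; push_cast; rfl
    rw [e]
    simp [A, B]
    omega

end Pool.Agent.H32.Walls
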