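import Pool.Agent.H32.ConjE

/-! A deterministic register machine whose instruction depends on the zero flags. -/

namespace Pool.Agent.H32.Wr

open Pool.Agent.H77.Trs Pool.Agent.H38.CM Pool.Agent.H30.MulM Function Relation

structure Dm (P : Type) (k : ℕ) where
  nx : P → (Fin k → Bool) → P × ℕ × ℕ
  hl : P → Bool
  p0 : P

def bits (k : ℕ) (v : ℕ → ℕ) (j : ℕ) : Fin k → Bool := fun i => decide (j < v i)

def Dm.stp {P : Type} {k : ℕ} (M : Dm P k) (c : P × (ℕ → ℕ)) : P × (ℕ → ℕ) :=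
  ((M.nx c.1 (bits k c.2 0)).1, update c.2 (M.nx c.1 (bits k c.2 0)).2.2
    (nw (M.nx c.1 (bits k c.2 0)).2.1 (c.2 (M.nx c.1 (bits k c.2 0)).2.2)))

theorem exists_dm : ∃ (P : Type) (_ : Finite P) (k : ℕ) (M : Dm P k),
    ¬ ComputablePred fun x : ℕ => ∃ T, M.hl (M.stp^[T] (M.p0, init x)).1 = true := by
  classical
  obtain ⟨w, hw⟩ := H38.CM.exists_undec
  have := H30.MulM.St.finite w
  obtain ⟨k, hk⟩ := Finite.exists_le fun y : H30.MulM.St w => (rin w y true).2.2
  let ch : H30.MulM.St w → (Fin (k + 1) → Bool) → Bool := fun s z =>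
    decide (H77.Trs.cond (rin w s true).2.1 (if z ⟨_, Nat.lt_succ_of_le (hk s)⟩ then 1 else 0))
  let M : Dm (Option (H30.MulM.St w)) (k + 1) :=
    ⟨fun p z => p.elim (none, 3, 0) fun s => rin w s (ch s z), Option.isNone, some (entry w)⟩
  have hc : ∀ s v, H77.Trs.cond (rin w s (ch s (bits _ v 0))).2.1
      (v (rin w s (ch s (bits _ v 0))).2.2) := by
    intro s v
    have e : ch s (bits _ v 0) = true ↔
        H77.Trs.cond (rin w s true).2.1 (v (rin w s true).2.2) := by
      simp only [ch, bits, decide_eq_true_iff, H77.Trs.cond]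
      split_ifs with h
      · simp [h.ne']
      · simp [Nat.eq_zero_of_not_pos h]
    cases h : ch s (bits _ v 0)
    · obtain ⟨b, hb⟩ := Conj.rin_tot w s v
      cases b
      · exact hb
      · rw [e.2 hb] at h; cases h
    · exact e.1 h
  refine ⟨_, inferInstance, _, M, fun h => hw (h.of_eq fun x => ⟨?_, ?_⟩)⟩
  · rintro ⟨T, hT⟩
    have : ∀ T c, M.hl (M.stp^[T] c).1 = true → ∃ v', K' w c.1 c.2 v' := by
      intro T
      induction T with
      | zero => rintro ⟨_ | s, v⟩ h; exacts [⟨v, rfl⟩, by cases h]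
      | succ T ih =>
        rintro ⟨_ | s, v⟩ h
        · exact ⟨v, rfl⟩
        · obtain ⟨v', hv⟩ := ih _ h
          exact ⟨v', rK_step w s _ (hc s v) hv⟩
    obtain ⟨v', hv⟩ := this T _ hT
    exact ⟨v', K_entry w hv⟩
  · rintro ⟨u, hu⟩
    have : ∀ c d, ReflTransGen (RS w) c d → ∃ T, M.stp^[T] c = d := by
      intro c d h
      induction h with
      | refl => exact ⟨0, rfl⟩
      | @tail b d _ hs ih =>
        obtain ⟨T, hT⟩ := ih
        obtain ⟨s, t, e1, e2, e3, e4⟩ := hs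
        refine ⟨T + 1, ?_⟩
        rw [iterate_succ_apply', hT]
        obtain ⟨p, v⟩ := b
        cases e1
        refine Prod.ext ?_ ?_
        · rw [e2, Conj.rin_det w s t _ v e3 (hc s v)]; rfl
        · rw [e4, Conj.rin_det w s t _ v e3 (hc s v)]; rfl
    obtain ⟨T, hT⟩ := this _ _ (rrun hu)
    exact ⟨T, by rw [show M.p0 = some (entry w) from rfl, hT]; rfl⟩

end Pool.Agent.H32.Wr
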