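import Mathlib

/-! Weakly reset Mealy automata. -/

namespace Pool.Agent.H32.Wr

variable {Q A : Type}

/-- the map computed from a state -/
def ap (δ : Q → A → Q) (o : Q → A → A) : Q → List A → List A
  | _, [] => []
  | q, a :: u => o q a :: ap δ o (δ q a) u

/-- reset words -/
def Syn (δ : Q → A → Q) : Set (List A) := {u | (Set.range fun q => u.foldl δ q).ncard = 1}

def WeaklyReset (δ : Q → A → Q) (o : Q → A → A) : Prop :=
  (Syn δ).Nonempty ∧ ∃ H : Set (List A), H.Nonempty ∧ H ⊆ Syn δ ∧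
    (∀ x y, ∀ u ∈ H, x ++ u ++ y ∈ H) ∧ ∀ q, ∀ u ∈ H, ap δ o q u ∈ H

/-- the table of a function -/
def tbl {n m k : ℕ} (f : Fin n → Fin m → Fin k) : List (List ℕ) :=
  List.ofFn fun q => List.ofFn fun a => (f q a).val

end Pool.Agent.H32.Wr
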