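import Pool.Agent.H32.WrA
import Pool.Agent.H32.WrDefs

/-! A Mealy automaton whose letters form a pipeline simulating a register machine. -/

namespace Pool.Agent.H32.Wr

open Pool.Agent.H77.Trs Pool.Agent.H38.CM Function Relation

theorem ap_app {Q A : Type} (δ : Q → A → Q) (o : Q → A → A) (u v : List A) : ∀ q,
    ap δ o q (u ++ v) = ap δ o q u ++ ap δ o (u.foldl δ q) v := by
  induction u with
  | nil => exact fun _ => rfl
  | cons a u ih => intro q; simp [ap, ih]

abbrev Bt (k : ℕ) := Fin k → Bool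
abbrev Sy (P : Type) (k : ℕ) := Option (Option (P × Bt k))
abbrev Mem (P : Type) (k : ℕ) := Option ((P × Bt k) × Bt k × Bt k)
abbrev Lt (P : Type) (k : ℕ) := ℕ ⊕ Mem P k ⊕ Bool

variable {P : Type} {k : ℕ} (M : Dm P k) (x : ℕ)

def so : Sy P k → Mem P k → Sy P k
  | some (some _), none => some none
  | some (some s), some (y, b1, b2) => some (some ((M.nx y.1 y.2).1, fun i =>
      if i.val = (M.nx y.1 y.2).2.2 then (if (M.nx y.1 y.2).2.1 = 0 then b2 i
        else if (M.nx y.1 y.2).2.1 = 1 then s.2 i else b1 i) else b1 i))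
  | s, _ => s

def sm : Sy P k → Mem P k → Mem P k
  | none, _ => none
  | some none, m => m
  | some (some s), none => some (s, s.2, fun _ => true)
  | some (some s), some (y, b1, _) => some (y, s.2, b1)

def ok : Sy P k → Bool
  | some (some s) => M.hl s.1
  | _ => true

def dl (q : Sy P k × Bool) : Lt P k → Sy P k × Bool
  | .inl i => (q.1.map fun _ => some (M.p0, fun j => decide (j.val = 0 ∧ 0 < i)), q.2)
  | .inr (.inl m) => (so M q.1 m, q.2)
  | .inr (.inr true) => (none, false)
  | .inr (.inr false) => q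

def ou (q : Sy P k × Bool) : Lt P k → Lt P k
  | .inl i => .inl (q.1.elim x fun _ => i - 1)
  | .inr (.inl m) => .inr (.inl (sm q.1 m))
  | .inr (.inr b) => .inr (.inr (b && ok M q.1))

abbrev alv : Lt P k := .inr (.inr true)

abbrev Cf (P : Type) := (P × (ℕ → ℕ)) × ℕ

def enc (e : Cf P) (a : ℕ) : Sy P k :=
  some (if a < e.2 then none else some (e.1.1, bits k e.1.2 (a - e.2)))

def mem (e : Cf P) (a : ℕ) : Mem P k :=
  if a ≤ e.2 then none else some ((e.1.1, bits k e.1.2 0), bits k e.1.2 (a - e.2 - 1),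
    bits k (fun i => e.1.2 i + 1) (a - e.2 - 1))

def ne (e : Cf P) : Lt P k → Cf P
  | .inl _ => ((M.p0, init x), 0)
  | .inr (.inl _) => (M.stp e.1, e.2 + 1)
  | .inr (.inr _) => e

def cell (e : Cf P) (a : ℕ) : Lt P k → Lt P k
  | .inl _ => .inl (x - a)
  | .inr (.inl _) => .inr (.inl (mem e a))
  | .inr (.inr _) => .inr (.inr false)

def R : List (Lt P k) → Cf P → ℕ → List (Lt P k)
  | [], _, _ => []
  | c :: w, e, a => cell x e a c :: R w (ne M x e c) a

theorem src_out (q : Sy P k × Bool) (h : q.1 ≠ none) (a : ℕ) :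
    ou M x q (.inl (x - a)) = .inl (x - (a + 1)) ∧
      (dl M q (.inl (x - a))).1 = enc ((M.p0, init x), 0) a := by
  obtain ⟨_ | s, b⟩ := q
  · exact absurd rfl h
  refine ⟨rfl, ?_⟩
  simp only [dl, enc, Option.map_some, Nat.not_lt_zero, if_false, Nat.sub_zero]
  congr 3
  funext i
  by_cases h : i.val = 0 <;> simp [bits, init, h]

theorem cell_step (c : Lt P k) (e : Cf P) (a : ℕ) (q : Sy P k × Bool) (h : q.1 = enc e a) :
    ou M x q (cell x e a c) = cell x e (a + 1) c ∧
      (dl M q (cell x e a c)).1 = enc (ne M x e c) a := by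
  rcases c with i | m | b
  · exact src_out M x q (by simp [h, enc]) a
  swap
  · exact ⟨rfl, h⟩
  obtain ⟨⟨p, v⟩, d⟩ := e
  simp only [cell, ou, dl, ne, h, enc, mem]
  rcases lt_trichotomy a d with h | rfl | h
  · rw [if_pos h, if_pos h.le, if_pos (by omega), if_pos (by omega)]
    exact ⟨rfl, rfl⟩
  · simp only [lt_irrefl, if_false, le_refl, if_true, so, sm, Nat.lt_succ_self, Nat.sub_self,
      Nat.add_one_le_iff, Nat.add_sub_cancel_left, and_true]
    congr 5
  · obtain ⟨j, rfl⟩ := Nat.exists_eq_add_of_lt h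
    rw [if_neg (by omega), if_neg (by omega), if_neg (by omega), if_neg (by omega),
      show d + j + 1 - d = j + 1 by omega, show d + j + 1 + 1 - d - 1 = j + 1 by omega,
      show d + j + 1 - (d + 1) = j by omega, Nat.add_sub_cancel]
    simp only [so, sm, Dm.stp]
    constructor
    · congr 5
      funext i
      simp [bits]
    · congr 3
      funext i
      generalize M.nx p (bits k v 0) = y
      by_cases h : i.val = y.2.2
      · simp only [bits, ← h, if_true, update_self, nw]
        split_ifs <;> simp; omega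
      · simp [bits, h]

theorem R_step (w : List (Lt P k)) (a : ℕ) : ∀ (e : Cf P) (q : Sy P k × Bool), q.1 = enc e a →
    ap (dl M) (ou M x) q (R M x w e a) = R M x w e (a + 1) ∧
      ((R M x w e a).foldl (dl M) q).1 = enc (w.foldl (ne M x) e) a := by
  induction w with
  | nil => exact fun _ _ h => ⟨rfl, h⟩
  | cons c w ih =>
    intro e q h
    obtain ⟨h1, h2⟩ := cell_step M x c e a q h
    obtain ⟨h3, h4⟩ := ih _ _ h2
    exact ⟨by simp only [R, ap, h1, h3], h4⟩

theorem R_reset (w : List (Lt P k)) (hw : alv ∉ w) : ∀ (e : Cf P) (q : Sy P k × Bool), q.1 = none →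
    ap (dl M) (ou M x) q w = R M x w e 0 ∧ (w.foldl (dl M) q).1 = none := by
  induction w with
  | nil => exact fun _ _ h => ⟨rfl, h⟩
  | cons c w ih =>
    rintro e ⟨_, b⟩ rfl
    have : ou M x (none, b) c = cell x e 0 c ∧ (dl M (none, b) c).1 = none := by
      rcases c with i | m | _ | _
      · exact ⟨rfl, rfl⟩
      · exact ⟨by simp [ou, cell, sm, mem], by simp [dl, so]⟩
      · exact ⟨rfl, rfl⟩
      · simp at hw
    obtain ⟨h3, h4⟩ := ih (fun h => hw (by simp [h])) (ne M x e c) _ this.2
    exact ⟨by simp only [R, ap, this.1, h3], h4⟩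

theorem R_dead (w : List (Lt P k)) (a : ℕ) : ∀ e, alv ∉ R M x w e a := by
  induction w with
  | nil => simp [R]
  | cons c w ih =>
    intro e
    rcases c with i | m | _ <;> simp [R, cell, ih]

theorem R_R (w : List (Lt P k)) (a : ℕ) : ∀ e e', R M x (R M x w e a) e' 0 = R M x w e' 0 := by
  induction w with
  | nil => simp [R]
  | cons c w ih =>
    intro e e'
    rcases c with i | m | _ <;> simp [R, cell, ne, ih]

def Rc : List (Lt P k) → List (Lt P k) → Prop :=
  ReflTransGen fun u v => ∃ q, v = ap (dl M) (ou M x) q u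

theorem kill (h : ∀ T, M.hl (M.stp^[T] (M.p0, init x)).1 = false) (u : List (Lt P k)) :
    ∃ v, Rc M x u v ∧ alv ∉ v := by
  induction u using List.reverseRecOn with
  | nil => exact ⟨[], .refl, by simp⟩
  | append_singleton w c ih =>
    obtain ⟨v, h1, h2⟩ := ih
    have : ∃ c', Rc M x (w ++ [c]) (v ++ [c']) := by
      clear h2
      induction h1 with
      | refl => exact ⟨c, .refl⟩
      | tail _ hs ih =>
        obtain ⟨c', hc⟩ := ih
        obtain ⟨q, rfl⟩ := hs
        exact ⟨ou M x _ c', hc.tail ⟨q, by rw [ap_app]; rfl⟩⟩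
    obtain ⟨c', hc⟩ := this
    by_cases hc' : c' = alv
    swap
    · exact ⟨_, hc, by simp [h2, Ne.symm hc']⟩
    subst hc'
    let e : Cf P := ((M.p0, init x), 0)
    have A : ∀ a, ∃ b, Rc M x (w ++ [c]) (R M x v e a ++ [.inr (.inr b)]) := by
      intro a
      induction a with
      | zero =>
        exact ⟨true && ok M _, hc.tail ⟨(none, false), by
          rw [ap_app, (R_reset M x v h2 e _ rfl).1]; rfl⟩⟩
      | succ a ih =>
        obtain ⟨b, hb⟩ := ih
        exact ⟨b && ok M _, hb.tail ⟨(enc e a, false), by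
          rw [ap_app, (R_step M x v a e _ rfl).1]; rfl⟩⟩
    have B : ∀ (v : List (Lt P k)) (e : Cf P), (∃ T, e.1 = M.stp^[T] (M.p0, init x)) →
        ∃ T, (v.foldl (ne M x) e).1 = M.stp^[T] (M.p0, init x) := by
      intro v
      induction v with
      | nil => exact fun _ h => h
      | cons c v ih =>
        rintro e ⟨T, hT⟩
        refine ih _ ?_
        rcases c with i | m | _
        · exact ⟨0, rfl⟩
        · exact ⟨T + 1, by rw [iterate_succ_apply', ← hT]; rfl⟩
        · exact ⟨T, hT⟩
    obtain ⟨T, hT⟩ := B v e ⟨0, rfl⟩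
    obtain ⟨b, hb⟩ := A (v.foldl (ne M x) e).2
    refine ⟨_, hb.tail ⟨(enc e (v.foldl (ne M x) e).2, false), rfl⟩, ?_⟩
    obtain ⟨h3, h4⟩ := R_step M x v (v.foldl (ne M x) e).2 e (enc e (v.foldl (ne M x) e).2, false) rfl
    rw [ap_app, h3]
    simp only [ap, ou, h4]
    simp [R_dead, enc, ok, hT, h]

theorem live {T : ℕ} (h : M.hl (M.stp^[T] (M.p0, init x)).1 = true) :
    ∃ u, (∀ i, .inl i ∈ u → i ≤ x) ∧ ∀ v, Rc M x u v → alv ∈ v := by
  let e : Cf P := ((M.p0, init x), 0)
  let w : List (Lt P k) := List.replicate T (.inr (.inl none))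
  have E : ∀ T (e : Cf P), (List.replicate T (.inr (.inl none) : Lt P k)).foldl (ne M x) e =
      (M.stp^[T] e.1, e.2 + T) := by
    intro T
    induction T with
    | zero => exact fun _ => rfl
    | succ T ih => intro e; simp [List.replicate_succ, ih, ne]; omega
  have : ∀ v, Rc M x (R M x (.inl 0 :: w) e 0 ++ [alv]) v →
      ∃ a, v = R M x (.inl 0 :: w) e a ++ [alv] := by
    intro v hv
    induction hv with
    | refl => exact ⟨0, rfl⟩
    | tail _ hs ih =>
      obtain ⟨a, rfl⟩ := ih
      obtain ⟨q, rfl⟩ := hs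
      rw [ap_app]
      by_cases hq : q.1 = none
      · obtain ⟨h1, h2⟩ := R_reset M x _ (R_dead M x (.inl 0 :: w) a e) e q hq
        exact ⟨0, by rw [h1, R_R]; simp only [ap, ou, h2]; rfl⟩
      · obtain ⟨h1, h2⟩ := src_out M x q hq a
        obtain ⟨h3, h4⟩ := R_step M x w a _ _ h2
        refine ⟨a + 1, ?_⟩
        simp only [R, cell, ne, ap, List.foldl_cons, h1, h3]
        simp only [ou, h4, w, E, enc]
        split_ifs <;> simp [ok, h]
  refine ⟨R M x (.inl 0 :: w) e 0 ++ [alv], fun i hi => ?_, fun v hv => ?_⟩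
  swap
  · obtain ⟨a, rfl⟩ := this v hv
    simp
  · have : ∀ T e, .inl i ∉ R M x (List.replicate T (.inr (.inl none))) e 0 := by
      intro T
      induction T with
      | zero => simp [R]
      | succ T ih => simp [List.replicate_succ, R, cell, ih]
    simp [R, cell, w, this] at hi
    omega

theorem syn_iff (u : List (Lt P k)) : (∃ p, ∀ q, u.foldl (dl M) q = p) ↔ alv ∈ u := by
  constructor
  · rintro ⟨p, hp⟩
    by_contra h
    have : ∀ q, (u.foldl (dl M) q).2 = q.2 := by
      clear hp
      induction u with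
      | nil => exact fun _ => rfl
      | cons c u ih =>
        intro q
        rw [List.foldl_cons, ih fun h' => h (by simp [h'])]
        rcases c with i | m | _ | _
        exacts [rfl, rfl, rfl, by simp at h]
    have h1 := this (none, true)
    have h2 := this (none, false)
    rw [hp] at h1 h2
    simp [h1] at h2
  · intro h
    obtain ⟨s, t, rfl⟩ := List.append_of_mem h
    exact ⟨t.foldl (dl M) (none, false), fun q => by simp [dl]⟩

end Pool.Agent.H32.Wr
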