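import Mathlib

set_option autoImplicit false

namespace Pool.Agent.H32.Yang
open Finset

/-- Gram entry of a labelled signed sequence. -/
def gr (c : ℕ → ℕ) (e : ℕ → ℤ) (a b : ℕ) : ℤ := if c a = c b then e a * e b else 0

/-- A length-`N` sequence of signed labels below `m` with vanishing aperiodic autocorrelation. -/
def Parts (N m : ℕ) : Prop :=
  ∃ (c : ℕ → ℕ) (e : ℕ → ℤ), (∀ u, u < N → c u < m) ∧ (∀ u, e u * e u = 1) ∧
    ∀ φ : ℤ → ℤ, ∑ a ∈ range N, ∑ b ∈ range N, φ ((b : ℤ) - a) * gr c e a b = φ 0 * N

lemma Parts.zero : Parts 0 0 :=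
  ⟨fun _ => 0, fun _ => 1, fun u h => absurd h (by omega), fun _ => by norm_num, fun φ => by simp⟩

lemma Parts.mono {N m m' : ℕ} (h : Parts N m) (hm : m ≤ m') : Parts N m' := by
  obtain ⟨c, e, h1, h2, h3⟩ := h
  exact ⟨c, e, fun u hu => lt_of_lt_of_le (h1 u hu) hm, h2, h3⟩

lemma Parts.succ {N m : ℕ} (h : Parts N m) : Parts (N + 1) (m + 1) := by
  obtain ⟨c, e, h1, h2, h3⟩ := h
  refine ⟨fun u => if u < N then c u else m, e, ?_, h2, ?_⟩
  · intro u hu
    by_cases h : u < N
    · simp only [h, if_true]; have := h1 u h; omega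
    · simp only [h, if_false]; omega
  · intro φ
    rw [sum_range_succ, sum_range_succ]
    have e1 : ∑ a ∈ range N, ∑ b ∈ range (N + 1),
        φ ((b : ℤ) - a) * gr (fun u => if u < N then c u else m) e a b =
        ∑ a ∈ range N, ∑ b ∈ range N, φ ((b : ℤ) - a) * gr c e a b := by
      refine sum_congr rfl fun a ha => ?_
      have ha' := mem_range.mp ha
      rw [sum_range_succ]
      have : gr (fun u => if u < N then c u else m) e a N = 0 := by
        have := h1 a ha'
        simp only [gr, ha', if_true, lt_irrefl, if_false]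
        rw [if_neg (by omega)]
      rw [this, mul_zero, add_zero]
      refine sum_congr rfl fun b hb => ?_
      have hb' := mem_range.mp hb
      simp only [gr, ha', hb', if_true]
    have e2 : ∑ b ∈ range N,
        φ ((b : ℤ) - (N : ℕ)) * gr (fun u => if u < N then c u else m) e N b = 0 := by
      refine sum_eq_zero fun b hb => ?_
      have hb' := mem_range.mp hb
      have := h1 b hb'
      simp only [gr, hb', if_true, lt_irrefl, if_false]
      rw [if_neg (by omega), mul_zero]
    rw [e1, e2, h3]
    simp only [gr, if_true, h2, sub_self]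
    push_cast; ring

def fl (q : ℕ) : ℕ := if q % 2 = 0 then q + 1 else q - 1
def sgn (q : ℕ) : ℤ := if q % 2 = 0 then 1 else -1

lemma sgn_sq (q : ℕ) : sgn q * sgn q = 1 := by unfold sgn; split_ifs <;> norm_num

lemma fl_inj (p q : ℕ) : fl p = fl q ↔ p = q := by
  unfold fl; split_ifs <;> omega

lemma fl_swap (p q : ℕ) : p = fl q ↔ q = fl p := by
  unfold fl; split_ifs <;> omega

lemma sgn_fl (q : ℕ) : sgn (fl q) = - sgn q := by
  unfold sgn fl; split_ifs <;> first | omega | norm_num

lemma Parts.double {N k : ℕ} (h : Parts N (2 * k)) : Parts (2 * N) (2 * k) := by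
  obtain ⟨c, e, h1, h2, h3⟩ := h
  set c' : ℕ → ℕ := fun u => if u < N then c u else fl (c (2 * N - 1 - u)) with hc'
  set e' : ℕ → ℤ := fun u => if u < N then e u else sgn (c (2 * N - 1 - u)) * e (2 * N - 1 - u)
    with he'
  have cl : ∀ a, a < N → c' a = c a := fun a ha => by simp [hc', ha]
  have el : ∀ a, a < N → e' a = e a := fun a ha => by simp [he', ha]
  have cr : ∀ a, a < N → c' (N + (N - 1 - a)) = fl (c a) := fun a ha => by
    have : 2 * N - 1 - (N + (N - 1 - a)) = a := by omega
    simp [hc', this]
  have er : ∀ a, a < N → e' (N + (N - 1 - a)) = sgn (c a) * e a := fun a ha => by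
    have : 2 * N - 1 - (N + (N - 1 - a)) = a := by omega
    simp [he', this]
  have cast : ∀ a, a < N → ((N + (N - 1 - a) : ℕ) : ℤ) = 2 * N - 1 - a := fun a ha => by omega
  have split : ∀ f : ℕ → ℤ, ∑ a ∈ range (2 * N), f a =
      ∑ a ∈ range N, f a + ∑ a ∈ range N, f (N + (N - 1 - a)) := by
    intro f
    rw [two_mul, sum_range_add, ← sum_range_reflect (fun x => f (N + x)) N]
  refine ⟨c', e', ?_, ?_, ?_⟩
  · intro u hu
    by_cases h : u < N
    · rw [cl u h]; exact h1 u h
    · have := h1 (2 * N - 1 - u) (by omega)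
      simp only [hc', h, if_false, fl]
      split_ifs <;> omega
  · intro u
    by_cases h : u < N
    · rw [el u h]; exact h2 u
    · simp only [he', h, if_false]
      have a1 := sgn_sq (c (2 * N - 1 - u))
      have a2 := h2 (2 * N - 1 - u)
      linear_combination (e (2 * N - 1 - u) * e (2 * N - 1 - u)) * a1 + a2
  · intro φ
    rw [split]
    simp only [split, sum_add_distrib]
    have b11 : ∑ a ∈ range N, ∑ b ∈ range N, φ ((b : ℤ) - a) * gr c' e' a b = φ 0 * N := by
      rw [← h3 φ]
      refine sum_congr rfl fun a ha => sum_congr rfl fun b hb => ?_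
      simp only [gr, cl a (mem_range.mp ha), cl b (mem_range.mp hb), el a (mem_range.mp ha),
        el b (mem_range.mp hb)]
    have b22 : ∑ a ∈ range N, ∑ b ∈ range N,
        φ (((N + (N - 1 - b) : ℕ) : ℤ) - ((N + (N - 1 - a) : ℕ) : ℤ)) *
          gr c' e' (N + (N - 1 - a)) (N + (N - 1 - b)) = φ 0 * N := by
      have := h3 (fun x => φ (-x))
      simp only [neg_zero] at this
      rw [← this]
      refine sum_congr rfl fun a ha => sum_congr rfl fun b hb => ?_
      have ha' := mem_range.mp ha
      have hb' := mem_range.mp hb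
      rw [cast a ha', cast b hb']
      simp only [gr, cr a ha', cr b hb', er a ha', er b hb', fl_inj]
      have : (2 * (N : ℤ) - 1 - b - (2 * N - 1 - a)) = -((b : ℤ) - a) := by ring
      rw [this]
      by_cases hab : c a = c b
      · simp only [hab, if_true]
        have a1 := sgn_sq (c b)
        linear_combination (φ (-((b : ℤ) - a)) * e a * e b) * a1
      · simp only [hab, if_false]
    have anti : ∀ ψ : ℤ → ℤ, ∑ a ∈ range N, ∑ b ∈ range N,
        ψ ((a : ℤ) + b) * (if c a = fl (c b) then e a * (sgn (c b) * e b) else 0) = 0 := by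
      intro ψ
      have : ∑ a ∈ range N, ∑ b ∈ range N,
          ψ ((a : ℤ) + b) * (if c a = fl (c b) then e a * (sgn (c b) * e b) else 0) =
          - ∑ a ∈ range N, ∑ b ∈ range N,
          ψ ((a : ℤ) + b) * (if c a = fl (c b) then e a * (sgn (c b) * e b) else 0) := by
        conv_rhs => rw [sum_comm]
        rw [← sum_neg_distrib]
        refine sum_congr rfl fun a _ => ?_
        rw [← sum_neg_distrib]
        refine sum_congr rfl fun b _ => ?_
        by_cases hab : c a = fl (c b)
        · have hba : c b = fl (c a) := (fl_swap _ _).mp hab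
          rw [if_pos hab, if_pos hba, add_comm (b : ℤ) a]
          have : sgn (c b) = - sgn (c a) := by rw [hba, sgn_fl]
          rw [this]; ring
        · have hba : ¬ c b = fl (c a) := fun h => hab ((fl_swap _ _).mp h)
          rw [if_neg hab, if_neg hba]; ring
      linarith
    have b12 : ∑ a ∈ range N, ∑ b ∈ range N,
        φ (((N + (N - 1 - b) : ℕ) : ℤ) - (a : ℤ)) * gr c' e' a (N + (N - 1 - b)) = 0 := by
      rw [← anti (fun x => φ (2 * N - 1 - x))]
      refine sum_congr rfl fun a ha => sum_congr rfl fun b hb => ?_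
      have ha' := mem_range.mp ha
      have hb' := mem_range.mp hb
      rw [cast b hb']
      simp only [gr, cl a ha', cr b hb', el a ha', er b hb']
      congr 2; ring
    have b21 : ∑ a ∈ range N, ∑ b ∈ range N,
        φ ((b : ℤ) - ((N + (N - 1 - a) : ℕ) : ℤ)) * gr c' e' (N + (N - 1 - a)) b = 0 := by
      rw [← anti (fun x => φ (x - (2 * N - 1))), sum_comm]
      refine sum_congr rfl fun a ha => sum_congr rfl fun b hb => ?_
      have ha' := mem_range.mp ha
      have hb' := mem_range.mp hb
      rw [cast b hb']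
      simp only [gr, cl a ha', cr b hb', el a ha', er b hb']
      have : (a : ℤ) - (2 * N - 1 - b) = a + b - (2 * N - 1) := by ring
      rw [this]
      by_cases hab : c a = fl (c b)
      · rw [if_pos hab, if_pos hab.symm]; ring
      · rw [if_neg hab, if_neg (fun h => hab h.symm)]
    rw [b11, b22, b12, b21]
    push_cast; ring

lemma parts_exists (t : ℕ) : ∃ m, Parts t m ∧ 2 ^ ((m + 1) / 2) ≤ t + 1 := by
  induction t using Nat.strong_induction_on with
  | _ t ih =>
    rcases Nat.eq_zero_or_pos t with rfl | ht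
    · exact ⟨0, Parts.zero, by norm_num⟩
    obtain ⟨m, hm, hb⟩ := ih (t / 2) (by omega)
    have h2 : Parts (2 * (t / 2)) (2 * ((m + 1) / 2)) := (hm.mono (by omega)).double
    rcases Nat.mod_two_eq_zero_or_one t with h | h
    · refine ⟨2 * ((m + 1) / 2), ?_, ?_⟩
      · have : t = 2 * (t / 2) := by omega
        rw [this]; rw [this] at h2; simpa using h2
      · have : (2 * ((m + 1) / 2) + 1) / 2 = (m + 1) / 2 := by omega
        rw [this]; omega
    · refine ⟨2 * ((m + 1) / 2) + 1, ?_, ?_⟩
      · have h3 := h2.succ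
        have : 2 * (t / 2) + 1 = t := by omega
        rwa [this] at h3
      · have : (2 * ((m + 1) / 2) + 1 + 1) / 2 = (m + 1) / 2 + 1 := by omega
        rw [this, pow_succ]; omega

lemma parts_pow (j : ℕ) : Parts (2 ^ j) 2 := by
  induction j with
  | zero => exact (Parts.zero.succ).mono (by norm_num)
  | succ j ih =>
    have := Parts.double (k := 1) (by simpa using ih)
    rw [pow_succ, mul_comm]; simpa using this

end Pool.Agent.H32.Yang
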