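import Mathlib
import Pool.Agent.H32.YangA

set_option autoImplicit false

namespace Pool.Agent.H32.Yang
open Finset

/-- Real form of a quaternary matrix `E + iF` with `m` pairwise orthogonal columns. -/
def QH (R : Type) [Fintype R] (m : ℕ) : Prop :=
  ∃ E F : R → ℕ → ℤ, (∀ r a, a < m → E r a * E r a = 1) ∧ (∀ r a, a < m → F r a * F r a = 1) ∧
    (∀ a b, a < m → b < m → a ≠ b → ∑ r, (E r a * E r b + F r a * F r b) = 0) ∧
    (∀ a b, a < m → b < m → ∑ r, (E r a * F r b - F r a * E r b) = 0)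

lemma QH.mono {R : Type} [Fintype R] {m m' : ℕ} (h : QH R m) (hm : m' ≤ m) : QH R m' := by
  obtain ⟨E, F, h1, h2, h3, h4⟩ := h
  exact ⟨E, F, fun r a ha => h1 r a (by omega), fun r a ha => h2 r a (by omega),
    fun a b ha hb => h3 a b (by omega) (by omega), fun a b ha hb => h4 a b (by omega) (by omega)⟩

lemma QH.equiv {R R' : Type} [Fintype R] [Fintype R'] {m : ℕ} (h : QH R m)
    (hc : Fintype.card R' = Fintype.card R) : QH R' m := by
  obtain ⟨E, F, h1, h2, h3, h4⟩ := h
  let g : R' ≃ R := Fintype.equivOfCardEq hc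
  refine ⟨fun r => E (g r), fun r => F (g r), fun r => h1 _, fun r => h2 _, ?_, ?_⟩
  · intro a b ha hb hab
    rw [← h3 a b ha hb hab]
    exact Equiv.sum_comp g (fun r => E r a * E r b + F r a * F r b)
  · intro a b ha hb
    rw [← h4 a b ha hb]
    exact Equiv.sum_comp g (fun r => E r a * F r b - F r a * E r b)

lemma QH.stack {R R' : Type} [Fintype R] [Fintype R'] {m : ℕ} (h : QH R m) (h' : QH R' m) :
    QH (R ⊕ R') m := by
  obtain ⟨E, F, h1, h2, h3, h4⟩ := h
  obtain ⟨E', F', h1', h2', h3', h4'⟩ := h'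
  refine ⟨Sum.elim E E', Sum.elim F F', ?_, ?_, ?_, ?_⟩
  · rintro (r | r) <;> simp only [Sum.elim_inl, Sum.elim_inr]
    exacts [h1 r, h1' r]
  · rintro (r | r) <;> simp only [Sum.elim_inl, Sum.elim_inr]
    exacts [h2 r, h2' r]
  · intro a b ha hb hab
    rw [Fintype.sum_sum_type]
    simp only [Sum.elim_inl, Sum.elim_inr, h3 a b ha hb hab, h3' a b ha hb hab, add_zero]
  · intro a b ha hb
    rw [Fintype.sum_sum_type]
    simp only [Sum.elim_inl, Sum.elim_inr, h4 a b ha hb, h4' a b ha hb, add_zero]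

lemma QH.double {R : Type} [Fintype R] {m : ℕ} (h : QH R m) : QH (R ⊕ R) (2 * m) := by
  obtain ⟨E, F, h1, h2, h3, h4⟩ := h
  refine ⟨Sum.elim (fun r a => E r (a / 2)) (fun r a => sgn a * E r (a / 2)),
    Sum.elim (fun r a => F r (a / 2)) (fun r a => sgn a * F r (a / 2)), ?_, ?_, ?_, ?_⟩
  · rintro (r | r) a ha <;> simp only [Sum.elim_inl, Sum.elim_inr]
    · exact h1 r _ (by omega)
    · have a1 := h1 r (a / 2) (by omega)
      have a2 := sgn_sq a
      linear_combination (E r (a / 2) * E r (a / 2)) * a2 + a1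
  · rintro (r | r) a ha <;> simp only [Sum.elim_inl, Sum.elim_inr]
    · exact h2 r _ (by omega)
    · have a1 := h2 r (a / 2) (by omega)
      have a2 := sgn_sq a
      linear_combination (F r (a / 2) * F r (a / 2)) * a2 + a1
  · intro a b ha hb hab
    rw [Fintype.sum_sum_type]
    simp only [Sum.elim_inl, Sum.elim_inr]
    have : ∑ r, (sgn a * E r (a / 2) * (sgn b * E r (b / 2)) +
        sgn a * F r (a / 2) * (sgn b * F r (b / 2))) =
        sgn a * sgn b * ∑ r, (E r (a / 2) * E r (b / 2) + F r (a / 2) * F r (b / 2)) := by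
      rw [mul_sum]; exact sum_congr rfl fun r _ => by ring
    rw [this]
    by_cases hd : a / 2 = b / 2
    · have : sgn a * sgn b = -1 := by
        unfold sgn; split_ifs <;> first | omega | norm_num
      rw [this]; ring
    · rw [h3 _ _ (by omega) (by omega) hd]; ring
  · intro a b ha hb
    rw [Fintype.sum_sum_type]
    simp only [Sum.elim_inl, Sum.elim_inr]
    have : ∑ r, (sgn a * E r (a / 2) * (sgn b * F r (b / 2)) -
        sgn a * F r (a / 2) * (sgn b * E r (b / 2))) =
        sgn a * sgn b * ∑ r, (E r (a / 2) * F r (b / 2) - F r (a / 2) * E r (b / 2)) := by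
      rw [mul_sum]; exact sum_congr rfl fun r _ => by ring
    rw [this, h4 _ _ (by omega) (by omega)]; ring

/-- A periodic complementary family of quaternary sequences of length `N`. -/
def Fam (R : Type) [Fintype R] (N : ℕ) [NeZero N] : Prop :=
  ∃ y z : R → ZMod N → ℤ, (∀ r u, y r u * y r u = 1) ∧ (∀ r u, z r u * z r u = 1) ∧
    (∀ a b, a ≠ b → ∑ r, ∑ s, (y r (s + a) * y r (s + b) + z r (s + a) * z r (s + b)) = 0) ∧
    (∀ u w, ∑ r, (y r u * z r w - z r u * y r w) = 0)

lemma sum_zmod (N : ℕ) [NeZero N] (f : ℕ → ℤ) :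
    ∑ u ∈ range N, f u = ∑ x : ZMod N, f x.val := by
  obtain ⟨n, rfl⟩ : ∃ n, N = n + 1 := ⟨N - 1, by have := NeZero.pos N; omega⟩
  rw [← Fin.sum_univ_eq_sum_range]
  rfl

lemma Fam.of {R : Type} [Fintype R] {N m : ℕ} [NeZero N] (h : QH R m) (hp : Parts N m) :
    Fam R N := by
  obtain ⟨E, F, h1, h2, h3, h4⟩ := h
  obtain ⟨c, e, p1, p2, p3⟩ := hp
  have hc : ∀ u : ZMod N, c u.val < m := fun u => p1 _ (ZMod.val_lt u)
  refine ⟨fun r u => e u.val * E r (c u.val), fun r u => e u.val * F r (c u.val), ?_, ?_, ?_, ?_⟩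
  · intro r u
    have a1 := h1 r _ (hc u)
    have a2 := p2 u.val
    linear_combination (E r (c u.val) * E r (c u.val)) * a2 + a1
  · intro r u
    have a1 := h2 r _ (hc u)
    have a2 := p2 u.val
    linear_combination (F r (c u.val) * F r (c u.val)) * a2 + a1
  · intro a b hab
    have key : ∀ u w : ZMod N, ∑ r, (e u.val * E r (c u.val) * (e w.val * E r (c w.val)) +
        e u.val * F r (c u.val) * (e w.val * F r (c w.val))) =
        2 * (Fintype.card R : ℤ) * gr c e u.val w.val := by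
      intro u w
      have : ∑ r, (e u.val * E r (c u.val) * (e w.val * E r (c w.val)) +
          e u.val * F r (c u.val) * (e w.val * F r (c w.val))) =
          e u.val * e w.val * ∑ r, (E r (c u.val) * E r (c w.val) + F r (c u.val) * F r (c w.val)) := by
        rw [mul_sum]; exact sum_congr rfl fun r _ => by ring
      rw [this]
      unfold gr
      by_cases hcc : c u.val = c w.val
      · rw [if_pos hcc, hcc]
        simp only [h1 _ _ (hc w), h2 _ _ (hc w)]
        simp; ring
      · rw [if_neg hcc, h3 _ _ (hc u) (hc w) hcc]; ring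
    rw [sum_comm]
    simp only [key]
    rw [← mul_sum]
    have h5 := p3 (fun x => if (x : ZMod N) = b - a then 1 else 0)
    rw [sum_zmod] at h5
    simp only [sum_zmod N] at h5
    have h0 : ¬ ((0 : ZMod N) = b - a) := fun h => hab (by linear_combination h)
    have hcast : ∀ x w : ZMod N, ((((w.val : ℕ) : ℤ) - ((x.val : ℕ) : ℤ) : ℤ) : ZMod N) = w - x := by
      intro x w
      rw [Int.cast_sub, Int.cast_natCast, Int.cast_natCast, ZMod.natCast_zmod_val,
        ZMod.natCast_zmod_val]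
    simp only [hcast, Int.cast_zero, h0, if_false, zero_mul] at h5
    have h6 : ∀ u : ZMod N, ∑ w : ZMod N, (if w - u = b - a then (1 : ℤ) else 0) * gr c e u.val w.val
        = gr c e u.val (u + (b - a)).val := by
      intro u
      rw [sum_eq_single (u + (b - a))]
      · simp
      · intro w _ hw
        rw [if_neg (fun h => hw (by linear_combination h)), zero_mul]
      · simp
    simp only [h6] at h5
    have h7 : ∑ s : ZMod N, gr c e (s + a).val (s + a + (b - a)).val =
        ∑ u : ZMod N, gr c e u.val (u + (b - a)).val :=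
      Equiv.sum_comp (Equiv.addRight a) (fun u : ZMod N => gr c e u.val (u + (b - a)).val)
    have h8 : ∀ s : ZMod N, s + a + (b - a) = s + b := fun s => by ring
    simp only [h8] at h7
    rw [h7, h5, mul_zero]
  · intro u w
    have : ∑ r, (e u.val * E r (c u.val) * (e w.val * F r (c w.val)) -
        e u.val * F r (c u.val) * (e w.val * E r (c w.val))) =
        e u.val * e w.val * ∑ r, (E r (c u.val) * F r (c w.val) - F r (c u.val) * E r (c w.val)) := by
      rw [mul_sum]; exact sum_congr rfl fun r _ => by ring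
    rw [this, h4 _ _ (hc u) (hc w), mul_zero]

lemma Fam.circ {R : Type} [Fintype R] {N : ℕ} [NeZero N] (h : Fam R N) :
    QH (R × ZMod N) N := by
  obtain ⟨y, z, h1, h2, h3, h4⟩ := h
  refine ⟨fun p a => y p.1 (p.2 + a), fun p a => z p.1 (p.2 + a), fun p a _ => h1 _ _,
    fun p a _ => h2 _ _, ?_, ?_⟩
  · intro a b ha hb hab
    rw [Fintype.sum_prod_type]
    refine h3 a b fun h => hab ?_
    have := congrArg ZMod.val h
    rwa [ZMod.val_cast_of_lt ha, ZMod.val_cast_of_lt hb] at this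
  · intro a b _ _
    rw [Fintype.sum_prod_type, sum_comm]
    exact sum_eq_zero fun s _ => h4 (s + a) (s + b)

/-- `Q u m`: a quaternary matrix with `2u` rows and `m` orthogonal columns. -/
def Q (u m : ℕ) : Prop := QH (Fin (2 * u)) m

lemma Q.mono {u m m' : ℕ} (h : Q u m) (hm : m' ≤ m) : Q u m' := QH.mono h hm

lemma Q.zero (m : ℕ) : Q 0 m :=
  ⟨fun _ _ => 1, fun _ _ => 1, fun _ _ _ => by norm_num, fun _ _ _ => by norm_num,
    fun _ _ _ _ _ => by simp, fun _ _ _ _ => by simp⟩

lemma Q.add {u u' m : ℕ} (h : Q u m) (h' : Q u' m) : Q (u + u') m :=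
  (QH.stack h h').equiv (by simp; ring)

lemma Q.mul {u m : ℕ} (h : Q u m) (k : ℕ) : Q (k * u) m := by
  induction k with
  | zero => simpa using Q.zero m
  | succ k ih => rw [Nat.succ_mul]; exact ih.add h

lemma Q.double {u m : ℕ} (h : Q u m) : Q (2 * u) (2 * m) :=
  (QH.double h).equiv (by simp; ring)

lemma Q.one : Q 1 2 := by
  have : QH Unit 1 := ⟨fun _ _ => 1, fun _ _ => 1, fun _ _ _ => by norm_num,
    fun _ _ _ => by norm_num, fun a b ha hb hab => by omega, fun _ _ _ _ => by simp⟩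
  exact this.double.equiv (by simp)

lemma Q.pow (j : ℕ) : Q (2 ^ j) (2 ^ (j + 1)) := by
  induction j with
  | zero => exact Q.one
  | succ j ih =>
    have := ih.double
    rw [← pow_succ', ← pow_succ'] at this
    exact this

def c6 : List (List ℤ) := [[0, 1, 1, 1, 1, 1], [1, 0, 1, -1, -1, 1], [1, 1, 0, 1, -1, -1],
  [1, -1, 1, 0, 1, -1], [1, -1, -1, 1, 0, 1], [1, 1, -1, -1, 1, 0]]

def c10 : List (List ℤ) := [[0, 1, 1, 1, 1, 1, 1, 1, 1, 1], [1, 0, 1, 1, 1, -1, -1, 1, -1, -1],
  [1, 1, 0, 1, -1, 1, -1, -1, 1, -1], [1, 1, 1, 0, -1, -1, 1, -1, -1, 1],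
  [1, 1, -1, -1, 0, 1, 1, 1, -1, -1], [1, -1, 1, -1, 1, 0, 1, -1, 1, -1],
  [1, -1, -1, 1, 1, 1, 0, -1, -1, 1], [1, 1, -1, -1, 1, -1, -1, 0, 1, 1],
  [1, -1, 1, -1, -1, 1, -1, 1, 0, 1], [1, -1, -1, 1, -1, -1, 1, 1, 1, 0]]

def cE (c : List (List ℤ)) (r a : ℕ) : ℤ := if r = a then -1 else (c.getD r []).getD a 0
def cF (c : List (List ℤ)) (r a : ℕ) : ℤ := if r = a then 1 else (c.getD r []).getD a 0

lemma Q.three : Q 3 6 := by
  refine ⟨fun r a => cE c6 r a, fun r a => cF c6 r a, ?_, ?_, ?_, ?_⟩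
  · have : ∀ r : Fin (2 * 3), ∀ a < 6, cE c6 r a * cE c6 r a = 1 := by decide +kernel
    exact this
  · have : ∀ r : Fin (2 * 3), ∀ a < 6, cF c6 r a * cF c6 r a = 1 := by decide +kernel
    exact this
  · have : ∀ a < 6, ∀ b < 6, a ≠ b →
        ∑ r : Fin (2 * 3), (cE c6 r a * cE c6 r b + cF c6 r a * cF c6 r b) = 0 := by
      decide +kernel
    exact fun a b ha hb => this a ha b hb
  · have : ∀ a < 6, ∀ b < 6,
        ∑ r : Fin (2 * 3), (cE c6 r a * cF c6 r b - cF c6 r a * cE c6 r b) = 0 := by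
      decide +kernel
    exact fun a b ha hb => this a ha b hb

lemma Q.five : Q 5 10 := by
  refine ⟨fun r a => cE c10 r a, fun r a => cF c10 r a, ?_, ?_, ?_, ?_⟩
  · have : ∀ r : Fin (2 * 5), ∀ a < 10, cE c10 r a * cE c10 r a = 1 := by decide +kernel
    exact this
  · have : ∀ r : Fin (2 * 5), ∀ a < 10, cF c10 r a * cF c10 r a = 1 := by decide +kernel
    exact this
  · have : ∀ a < 10, ∀ b < 10, a ≠ b →
        ∑ r : Fin (2 * 5), (cE c10 r a * cE c10 r b + cF c10 r a * cF c10 r b) = 0 := by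
      decide +kernel
    exact fun a b ha hb => this a ha b hb
  · have : ∀ a < 10, ∀ b < 10,
        ∑ r : Fin (2 * 5), (cE c10 r a * cF c10 r b - cF c10 r a * cE c10 r b) = 0 := by
      decide +kernel
    exact fun a b ha hb => this a ha b hb

lemma Q.odd (j : ℕ) : Q (3 * (2 ^ j + 1)) (2 ^ j + 1) := by
  haveI : NeZero (2 ^ j + 1) := ⟨Nat.succ_ne_zero _⟩
  have h := (Fam.of (Q.three.mono (by norm_num : 3 ≤ 6)) (parts_pow j).succ).circ
  exact h.equiv (by simp; ring)

end Pool.Agent.H32.Yang
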