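import Mathlib
import Pool.Agent.H32.YangB

set_option autoImplicit false

namespace Pool.Agent.H32.Yang
open Finset

lemma q_small (t m : ℕ) (hb : 2 ^ ((m + 1) / 2) ≤ t + 1) (hm : m ≤ 32) : Q t m := by
  have hp : ∀ k, k ≤ (m + 1) / 2 → 2 ^ k ≤ t + 1 := fun k hk =>
    le_trans (Nat.pow_le_pow_right (by norm_num) hk) hb
  have q2 : Q 2 4 := Q.pow 1
  have q4 : Q 4 8 := Q.pow 2
  have q8 : Q 8 16 := Q.pow 3
  have q16 : Q 16 32 := Q.pow 4
  have q6 : Q 6 12 := Q.three.double
  have q12 : Q 12 24 := q6.double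
  have q24 : Q 24 48 := q12.double
  have q10 : Q 10 20 := Q.five.double
  have q20 : Q 20 40 := q10.double
  have q51 : Q 51 17 := Q.odd 4
  have q99 : Q 99 33 := Q.odd 5
  by_cases h1 : m ≤ 2
  · have := (Q.one.mono h1).mul t
    rwa [mul_one] at this
  by_cases h2 : m ≤ 4
  · have := hp 2 (by omega)
    have h := ((q2.mono h2).mul (t / 2 - t % 2)).add ((Q.three.mono (by omega)).mul (t % 2))
    have e : (t / 2 - t % 2) * 2 + t % 2 * 3 = t := by omega
    rwa [e] at h
  by_cases h3 : m ≤ 6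
  · have := hp 3 (by omega)
    have h := ((Q.three.mono h3).mul (t / 3 - t % 3)).add ((q4.mono (by omega)).mul (t % 3))
    have e : (t / 3 - t % 3) * 3 + t % 3 * 4 = t := by omega
    rwa [e] at h
  by_cases h4 : m ≤ 10
  · have := hp 4 (by omega)
    obtain ⟨a, b, c, e⟩ : ∃ a b c, a * 5 + b * 6 + c * 8 = t := by
      rcases (by omega : t % 5 = 0 ∨ t % 5 = 1 ∨ t % 5 = 2 ∨ t % 5 = 3 ∨ t % 5 = 4) with
        h | h | h | h | h
      · exact ⟨t / 5, 0, 0, by omega⟩
      · exact ⟨(t - 6) / 5, 1, 0, by omega⟩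
      · exact ⟨(t - 12) / 5, 2, 0, by omega⟩
      · exact ⟨(t - 8) / 5, 0, 1, by omega⟩
      · exact ⟨(t - 14) / 5, 1, 1, by omega⟩
    have h := (((Q.five.mono h4).mul a).add ((q6.mono (by omega)).mul b)).add
      ((q8.mono (by omega)).mul c)
    rwa [e] at h
  by_cases h5 : m ≤ 12
  · have := hp 6 (by omega)
    obtain ⟨a, b, c, e⟩ : ∃ a b c, a * 6 + b * 8 + c * 51 = t :=
      ⟨(t - t % 2 * 51) / 6 - (t - t % 2 * 51) % 6 / 2, (t - t % 2 * 51) % 6 / 2, t % 2, by omega⟩
    have h := (((q6.mono h5).mul a).add ((q8.mono (by omega)).mul b)).add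
      ((q51.mono (by omega)).mul c)
    rwa [e] at h
  by_cases h6 : m ≤ 16
  · have := hp 7 (by omega)
    obtain ⟨a, b, c, e⟩ : ∃ a b c, a * 8 + b * 10 + c * 51 = t :=
      ⟨(t - t % 2 * 51) / 8 - (t - t % 2 * 51) % 8 / 2, (t - t % 2 * 51) % 8 / 2, t % 2, by omega⟩
    have h := (((q8.mono h6).mul a).add ((q10.mono (by omega)).mul b)).add
      ((q51.mono (by omega)).mul c)
    rwa [e] at h
  · have := hp 9 (by omega)
    obtain ⟨a, b, c, e⟩ : ∃ a b c, a * 16 + b * 20 + c * 99 = t :=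
      ⟨(t - (3 * t) % 4 * 99) / 16 - (t - (3 * t) % 4 * 99) % 16 / 4,
        (t - (3 * t) % 4 * 99) % 16 / 4, (3 * t) % 4, by omega⟩
    have h := (((q16.mono hm).mul a).add ((q20.mono (by omega)).mul b)).add
      ((q99.mono (by omega)).mul c)
    rwa [e] at h

lemma lin_lt (j : ℕ) : 2 * (j + 5) + 4 ≤ 2 ^ (j + 4) := by
  induction j with
  | zero => norm_num
  | succ j ih => rw [show j + 1 + 4 = (j + 4) + 1 by ring, pow_succ]; omega

lemma q_all (t m : ℕ) (hb : 2 ^ ((m + 1) / 2) ≤ t + 1) : Q t m := by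
  by_cases hm : m ≤ 32
  · exact q_small t m hb hm
  obtain ⟨j, hj1, hj2⟩ : ∃ j, 2 ^ (j + 5) < m ∧ m ≤ 2 ^ (j + 6) := by
    have h1 := Nat.pow_log_le_self 2 (x := m - 1) (by omega)
    have h2 := Nat.lt_pow_succ_log_self (b := 2) (by norm_num) (m - 1)
    have h3 : 5 ≤ Nat.log 2 (m - 1) := by
      exact Nat.le_log_of_pow_le (by norm_num) (by omega)
    obtain ⟨j, hj⟩ := Nat.exists_eq_add_of_le h3
    refine ⟨j, ?_, ?_⟩
    · rw [add_comm, ← hj]; omega
    · rw [show j + 6 = (5 + j) + 1 by ring, ← hj]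
      simp only [Nat.succ_eq_add_one] at h2
      omega
  have qa : Q (2 ^ (j + 5)) m := (Q.pow (j + 5)).mono hj2
  have qb : Q (3 * (2 ^ (j + 6) + 1)) m := (Q.odd (j + 6)).mono (by omega)
  have cop : Nat.Coprime (2 ^ (j + 5)) (3 * (2 ^ (j + 6) + 1)) := by
    apply Nat.Coprime.pow_left
    rw [Nat.coprime_two_left]
    exact Odd.mul (by decide) (Even.add_one (by rw [pow_succ]; simp))
  have h1 : 1 < 2 ^ (j + 5) := Nat.one_lt_two_pow (by omega)
  have hf := frobeniusNumber_pair cop h1 (by have := Nat.one_le_two_pow (n := j + 6); omega)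
  rw [frobeniusNumber_iff] at hf
  have hlt : 2 ^ (j + 5) * (3 * (2 ^ (j + 6) + 1)) ≤ t := by
    have a1 := lin_lt j
    have a2 : 2 ^ (j + 5) = 2 * 2 ^ (j + 4) := by ring
    have a3 : 2 * (j + 5) + 4 ≤ (m + 1) / 2 := by omega
    have a4 : 2 ^ (2 * (j + 5) + 4) ≤ t + 1 :=
      le_trans (Nat.pow_le_pow_right (by norm_num) a3) hb
    have a5 : 2 ^ (2 * (j + 5) + 4) = 16 * (2 ^ (j + 5) * 2 ^ (j + 5)) := by ring
    have a6 : 2 ^ (j + 6) = 2 * 2 ^ (j + 5) := by ring
    rw [a6]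
    nlinarith
  have hmem := hf.2 t (by
    have : 0 < 2 ^ (j + 5) * (3 * (2 ^ (j + 6) + 1)) := by positivity
    omega)
  obtain ⟨a, b, hab⟩ := (AddSubmonoid.mem_closure_pair _ _ _).mp hmem
  have h := (qa.mul a).add (qb.mul b)
  simp only [smul_eq_mul] at hab
  rwa [hab] at h

lemma fam_all (t : ℕ) [NeZero t] (R : Type) [Fintype R] (hR : Fintype.card R = 2 * t) :
    Fam R t := by
  obtain ⟨m, hm, hb⟩ := parts_exists t
  exact Fam.of (QH.equiv (q_all t m hb) (by simpa using hR)) hm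

lemma sum_cons {G : Type} [Fintype G] (n : ℕ) (f : (Fin (n + 1) → G) → ℤ) :
    ∑ i, f i = ∑ p : G, ∑ w : Fin n → G, f (Fin.cons p w) := by
  rw [← (Fin.consEquiv (fun _ : Fin (n + 1) => G)).sum_comp, Fintype.sum_prod_type]
  rfl

lemma shift_sum {G : Type} [AddCommGroup G] [Fintype G] (k : ℕ) (f : G → ℤ) (c : G) :
    ∑ w : Fin (k + 1) → G, f (c + ∑ m, w m) = ∑ w : Fin (k + 1) → G, f (∑ m, w m) := by
  rw [← Equiv.sum_comp (Equiv.addRight (Pi.single (0 : Fin (k + 1)) c : Fin (k + 1) → G))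
    (fun w => f (∑ m, w m))]
  refine sum_congr rfl fun w _ => ?_
  simp [sum_add_distrib, add_comm]

lemma arr {G : Type} [AddCommGroup G] [Fintype G] [DecidableEq G] (σ Ψ : G → G → ℤ)
    (hσ : ∀ i j, σ i j * σ i j = 1) (hΨ : ∀ r u, Ψ r u * Ψ r u = 1)
    (hs : ∀ i j, σ i j = σ j i)
    (ho : ∀ x y, x ≠ y → ∑ r, ∑ j, (σ x j * Ψ r (x + j)) * (σ y j * Ψ r (y + j)) = 0) (k : ℕ) :
    ∃ A : (Fin (k + 4) → G) → ℤ, (∀ i, A i * A i = 1) ∧
      ∀ l x y, x ≠ y → ∑ i, A (Function.update i l x) * A (Function.update i l y) = 0 := by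
  set b : G → G → G → ℤ := fun r i j => σ i j * Ψ r (i + j) with hb
  have bsq : ∀ r i j, b r i j * b r i j = 1 := fun r i j => by
    have a1 := hσ i j
    have a2 := hΨ r (i + j)
    simp only [hb]
    linear_combination (Ψ r (i + j) * Ψ r (i + j)) * a1 + a2
  have bsym : ∀ r i j, b r i j = b r j i := fun r i j => by
    simp only [hb, hs i j, add_comm i j]
  have bo : ∀ x y, x ≠ y → ∑ r, ∑ j, b r x j * b r y j = 0 := ho
  have brow : ∀ x y i j, b x i j * b y i j = Ψ x (i + j) * Ψ y (i + j) := fun x y i j => by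
    have a1 := hσ i j
    simp only [hb]
    linear_combination (Ψ x (i + j) * Ψ y (i + j)) * a1
  set A : (Fin (k + 4) → G) → ℤ := fun i => b (i (Fin.succ (Fin.succ 0))) (i 0) (i (Fin.succ 0)) *
    b (i (Fin.succ 0)) (i (Fin.succ (Fin.succ 0))) (∑ m : Fin (k + 1), i m.succ.succ.succ) with hA
  have Ac : ∀ (p q r : G) (w : Fin (k + 1) → G),
      A (Fin.cons p (Fin.cons q (Fin.cons r w))) = b r p q * b q r (∑ m, w m) := by
    intro p q r w
    simp only [hA, Fin.cons_zero, Fin.cons_succ]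
  refine ⟨A, fun i => ?_, fun l x y hxy => ?_⟩
  · simp only [hA]
    have a1 := bsq (i (Fin.succ (Fin.succ 0))) (i 0) (i (Fin.succ 0))
    have a2 := bsq (i (Fin.succ 0)) (i (Fin.succ (Fin.succ 0)))
      (∑ m : Fin (k + 1), i m.succ.succ.succ)
    linear_combination (b (i (Fin.succ 0)) (i (Fin.succ (Fin.succ 0)))
      (∑ m : Fin (k + 1), i m.succ.succ.succ)) ^ 2 * a1 + a2
  rw [sum_cons]
  simp only [sum_cons (k + 2), sum_cons (k + 1)]
  refine Fin.cases ?_ (fun l => Fin.cases ?_ (fun l => Fin.cases ?_ (fun l => ?_) l) l) l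
  · simp only [Fin.update_cons_zero, Ac]
    refine sum_eq_zero fun p _ => ?_
    have : ∀ (q r : G) (w : Fin (k + 1) → G), b r x q * b q r (∑ m, w m) *
        (b r y q * b q r (∑ m, w m)) = b r x q * b r y q := fun q r w => by
      have := bsq q r (∑ m, w m)
      linear_combination (b r x q * b r y q) * this
    simp only [this, sum_const, nsmul_eq_mul, ← mul_sum]
    rw [sum_comm, bo x y hxy, mul_zero]
  · simp only [← Fin.cons_update, Fin.update_cons_zero, Ac]
    have : ∀ (p r : G), ∑ w : Fin (k + 1) → G, b r p x * b x r (∑ m, w m) *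
        (b r p y * b y r (∑ m, w m)) = (b r x p * b r y p) *
          ∑ w : Fin (k + 1) → G, Ψ x (∑ m, w m) * Ψ y (∑ m, w m) := fun p r => by
      rw [← shift_sum k (fun u => Ψ x u * Ψ y u) r, mul_sum]
      refine sum_congr rfl fun w _ => ?_
      rw [← brow, bsym r p x, bsym r p y]; ring
    simp only [this, ← sum_mul]
    rw [sum_comm]
    have h0 : ∑ p, ∑ r, b r x p * b r y p = 0 := by rw [sum_comm]; exact bo x y hxy
    simp only [h0, sum_const_zero, zero_mul]
  · simp only [← Fin.cons_update, Fin.update_cons_zero, Ac]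
    have h1 : ∀ q : G, ∑ p, b x p q * b y p q = ∑ p, Ψ x p * Ψ y p := fun q => by
      rw [← Equiv.sum_comp (Equiv.addRight q) (fun u => Ψ x u * Ψ y u)]
      exact sum_congr rfl fun p _ => brow x y p q
    have : ∀ (p q : G) (w : Fin (k + 1) → G), b x p q * b q x (∑ m, w m) *
        (b y p q * b q y (∑ m, w m)) =
        (b x p q * b y p q) * (b q x (∑ m, w m) * b q y (∑ m, w m)) := fun p q w => by ring
    simp only [this, ← mul_sum]
    rw [sum_comm]
    simp only [← sum_mul, h1, ← mul_sum, sum_const, nsmul_eq_mul]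
    have h2 : ∑ q : G, ∑ w : Fin (k + 1) → G, b q x (∑ m, w m) * b q y (∑ m, w m) = 0 := by
      simp only [sum_cons k, Fin.sum_univ_succ, Fin.cons_zero, Fin.cons_succ]
      have h3 : ∀ (q : G), ∑ p : G, ∑ w : Fin k → G, b q x (p + ∑ m, w m) * b q y (p + ∑ m, w m) =
          ∑ w : Fin k → G, ∑ p : G, b q x p * b q y p := fun q => by
        rw [sum_comm]
        exact sum_congr rfl fun w _ =>
          Equiv.sum_comp (Equiv.addRight (∑ m, w m)) (fun u => b q x u * b q y u)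
      simp only [h3]
      rw [sum_comm]
      exact sum_eq_zero fun w _ => bo x y hxy
    rw [h2]; simp
  · simp only [← Fin.cons_update, Ac]
    refine sum_eq_zero fun p _ => ?_
    have : ∀ (q r : G) (w : Fin (k + 1) → G),
        b r p q * b q r (∑ m, Function.update w l x m) *
        (b r p q * b q r (∑ m, Function.update w l y m)) =
        b q (x + ∑ m ∈ univ \ {l}, w m) r * b q (y + ∑ m ∈ univ \ {l}, w m) r := fun q r w => by
      rw [sum_update_of_mem (mem_univ l), sum_update_of_mem (mem_univ l), bsym q r, bsym q r]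
      have := bsq r p q
      linear_combination (b q (x + ∑ m ∈ univ \ {l}, w m) r *
        b q (y + ∑ m ∈ univ \ {l}, w m) r) * this
    simp only [this]
    have h4 : ∀ q : G, ∑ r : G, ∑ w : Fin (k + 1) → G,
        b q (x + ∑ m ∈ univ \ {l}, w m) r * b q (y + ∑ m ∈ univ \ {l}, w m) r =
        ∑ w : Fin (k + 1) → G, ∑ r : G,
        b q (x + ∑ m ∈ univ \ {l}, w m) r * b q (y + ∑ m ∈ univ \ {l}, w m) r :=
      fun q => sum_comm
    simp only [h4]
    rw [sum_comm]
    exact sum_eq_zero fun w _ => bo _ _ (fun h => hxy (add_right_cancel h))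

lemma group_arr (t : ℕ) [NeZero t] (k : ℕ) :
    ∃ A : (Fin (k + 4) → ZMod 2 × ZMod t) → ℤ, (∀ i, A i * A i = 1) ∧
      ∀ l x y, x ≠ y → ∑ i, A (Function.update i l x) * A (Function.update i l y) = 0 := by
  obtain ⟨y, z, h1, h2, h3, h4⟩ := fam_all t (ZMod 2 × ZMod t) (by simp [ZMod.card])
  refine arr (fun i j => if i.1 = 1 ∧ j.1 = 1 then -1 else 1)
    (fun r u => if u.1 = 0 then y r u.2 else z r u.2) ?_ ?_ ?_ ?_ k
  · intro i j; split_ifs <;> norm_num
  · intro r u; split_ifs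
    exacts [h1 _ _, h2 _ _]
  · intro i j; simp only [and_comm]
  · rintro ⟨a0, a⟩ ⟨b0, b⟩ hab
    have s2 : ∀ f : ZMod 2 → ℤ, ∑ i, f i = f 0 + f 1 := fun f => Fin.sum_univ_two f
    have c01 : ∀ u : ZMod 2, u = 0 ∨ u = 1 := by decide
    have n01 : (0 : ZMod 2) ≠ 1 := by decide
    have n10 : (1 : ZMod 2) ≠ 0 := by decide
    have a11 : (1 : ZMod 2) + 1 = 0 := by decide
    have hz : ∀ u w : ZMod t, ∑ r, ∑ s, (y r (u + s) * z r (w + s) - z r (u + s) * y r (w + s)) = 0 := by
      intro u w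
      rw [sum_comm]
      exact sum_eq_zero fun s _ => h4 _ _
    simp only [Fintype.sum_prod_type (α₁ := ZMod 2) (α₂ := ZMod t)
      (f := fun j => _ * _), s2, Prod.fst_add, Prod.snd_add]
    rcases c01 a0 with rfl | rfl <;> rcases c01 b0 with rfl | rfl <;>
      simp only [n01, n10, a11, add_zero, zero_add, and_true, and_false, true_and, false_and,
        if_true, if_false, ← sum_add_distrib]
    · rw [← h3 a b (fun h => hab (by rw [h]))]
      refine sum_congr rfl fun r _ => sum_congr rfl fun s _ => ?_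
      rw [add_comm s a, add_comm s b]; ring
    · rw [← hz a b]
      refine sum_congr rfl fun r _ => sum_congr rfl fun s _ => ?_
      ring
    · rw [← hz b a]
      refine sum_congr rfl fun r _ => sum_congr rfl fun s _ => ?_
      ring
    · rw [← h3 a b (fun h => hab (by rw [h]))]
      refine sum_congr rfl fun r _ => sum_congr rfl fun s _ => ?_
      rw [add_comm s a, add_comm s b]; ring

theorem main :
    ∀ n : ℕ, 4 ≤ n → ∀ t : ℕ, 1 ≤ t →
      ∃ A : (Fin n → Fin (2 * t)) → ℤ,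
        (∀ i, A i = 1 ∨ A i = -1) ∧
        ∀ l : Fin n, ∀ x y : Fin (2 * t),
          (∑ i : Fin n → Fin (2 * t),
              A (Function.update i l x) * A (Function.update i l y)) =
            if x = y then ((2 * t : ℕ) : ℤ) ^ n else 0 := by
  intro n hn t ht
  obtain ⟨k, rfl⟩ : ∃ k, n = k + 4 := ⟨n - 4, by omega⟩
  haveI : NeZero t := ⟨by omega⟩
  obtain ⟨A, h1, h2⟩ := group_arr t k
  let g : Fin (2 * t) ≃ ZMod 2 × ZMod t := Fintype.equivOfCardEq (by simp [ZMod.card])
  refine ⟨fun i => A (g ∘ i), fun i => mul_self_eq_one_iff.mp (h1 _), fun l x y => ?_⟩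
  by_cases hxy : x = y
  · subst hxy
    simp only [h1, if_true]
    simp
  · rw [if_neg hxy, ← h2 l (g x) (g y) (fun h => hxy (g.injective h))]
    simp only [Function.comp_update]
    exact Equiv.sum_comp (Equiv.arrowCongr (Equiv.refl _) g)
      (fun i => A (Function.update i l (g x)) * A (Function.update i l (g y)))

end Pool.Agent.H32.Yang
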